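import Pool.Agent.Lib.helper21.ABCpl

/-! Weighted counting of coupled orbits. -/

set_option autoImplicit false

namespace Pool.Agent.Lib.Helper21.ABCont

open Set Filter Topology Finset ENNReal NNReal Pool.Agent.Lib.Helper21.ABDef Pool.Agent.Lib.Helper21.ABEnt
  Pool.Agent.Lib.Helper21.ABOp Pool.Agent.Lib.Helper21.ABCpl Pool.Agent.Lib.Helper21.ABCpl.Pr

open Classical in
/-- the weight of a step -/
noncomputable def wt (p : Pr) (u v : ℝ≥0) (σ : ℝ ⊕ ℝ) : ℝ≥0∞ :=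
  if p.Good σ then (u ^ p.cf σ * v ^ p.cg σ : ℝ≥0) else 0

open Classical in
lemma wt_prod (p : Pr) (u v : ℝ≥0) (i : ℕ) (σ : ℝ ⊕ ℝ) : ∏ j ∈ range i, wt p u v (p.step^[j] σ) =
    if p.AG i σ then ((u ^ p.tot p.cf i σ * v ^ p.tot p.cg i σ : ℝ≥0) : ℝ≥0∞) else 0 := by
  split_ifs with h
  · rw [prod_congr rfl fun j hj => show wt p u v _ = _ from if_pos (h j (mem_range.1 hj))]
    simp only [tot, ← prod_pow_eq_pow_sum, ← prod_mul_distrib, ENNReal.ofNNReal_finsetProd]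
  · simp only [AG, not_forall] at h
    obtain ⟨j, hj, h⟩ := h
    exact prod_eq_zero (mem_range.2 hj) (if_neg h)

lemma pre_fin (a b : ℝ) (t : ℕ) (y : ℝ) : {x | (f a b)^[t] x = y} ⊆ D a b t ∪ Fib a b t y := fun x hx => by
  by_cases e : x ∈ D a b t
  exacts [Or.inl e, Or.inr ⟨e, hx⟩]

lemma pre_card (a b : ℝ) (t : ℕ) (y : ℝ) : (D a b t ∪ Fib a b t y).ncard ≤ 2 * laps a b t := by
  have h1 := ncard_union_le (D a b t) (Fib a b t y)
  have h2 := fib_le (a := a) (b := b) t y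
  unfold laps at *
  omega

/-- the entry states -/
def J (p : Pr) : Set (ℝ ⊕ ℝ) := {σ | ∃ x, σ = .inl x ∧ (x ∈ Ico p.a p.a' ∨ x ∈ Ico p.b p.b')}

lemma win_one {a b l r : ℝ} {n : ℕ} (h : ∀ x ∈ Ioo l r, x ∉ D a b n) (y : ℝ) :
    ∃ A : Set ℝ, A.Finite ∧ A.ncard ≤ n + 2 ∧ ∀ x ∈ Ico l r, ∀ j ≤ n, (f a b)^[j] x = y → x ∈ A := by
  have ss : ∀ j, ({x | x ∈ Ioo l r ∧ j ≤ n ∧ (f a b)^[j] x = y}).Subsingleton := fun j x hx x' hx' => by
    have : ∀ x x', x ∈ Ioo l r → x' ∈ Ioo l r → j ≤ n → x < x' → (f a b)^[j] x < (f a b)^[j] x' :=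
      fun x x' h1 h2 h3 h4 => mono_lap j x x' h4 fun s hs e =>
        h s ⟨h1.1.trans_le hs.1, hs.2.trans_lt h2.2⟩ (D_mono h3 e)
    rcases lt_trichotomy x x' with l | l | l
    · exact absurd (hx.2.2.trans hx'.2.2.symm) (this x x' hx.1 hx'.1 hx.2.1 l).ne
    · exact l
    · exact absurd (hx.2.2.trans hx'.2.2.symm) (this x' x hx'.1 hx.1 hx.2.1 l).ne'
  refine ⟨insert l (⋃ j ∈ Set.Iic n, {x | x ∈ Ioo l r ∧ j ≤ n ∧ (f a b)^[j] x = y}),
    ((finite_Iic n).biUnion fun j _ => (ss j).finite).insert _, (ncard_insert_le ..).trans ?_, fun x hx j hj e => ?_⟩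
  · have := ncard_bU (finite_Iic n) _ fun j => (ncard_le_one (ss j).finite).2 fun _ h _ h' => ss j h h'
    rw [← Finset.coe_Iic, ncard_coe_finset, Nat.card_Iic, Finset.coe_Iic] at this
    omega
  · exact hx.1.eq_or_lt.imp Eq.symm fun l => mem_biUnion hj ⟨⟨l, hx.2⟩, hj, e⟩

lemma bound (p : Pr) {u v : ℝ≥0} {A B : ℝ} {π : ℝ ⊕ ℝ → ℝ} {c : ℝ ⊕ ℝ → ℕ} (hc : ∀ σ, c σ ≤ 3)
    (hπ : ∀ x, π (.inl x) = x) (sm : ∀ σ, p.Good σ → (f A B)^[c σ] (π σ) = π (p.step σ))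
    (c1 : ∀ x, .inl x ∉ J p → c (.inl x) = 1) (hA : 1 + u ^ 3 * v ^ 1 * 30 + u ^ 1 * v ^ 3 * 22 ≤ 30)
    (hB : 1 + u ^ 3 * v ^ 1 * 30 ≤ 22) (hC : u ^ 2 * v ^ 2 ≤ 1) {S : ℝ≥0}
    (hS : ∑' t, (2 * laps A B t : ℕ) * ((u * v : ℝ≥0) : ℝ≥0∞) ^ t ≤ S) {r : ℕ} {E : ℝ≥0}
    (hE : ∀ s t : ℕ, s ≤ 5 * t + 2 → u ^ s * v ^ t ≤ E)
    (hr : ∀ s t : ℕ, s ≤ 5 * t + 2 → r < s → (61 * S + 30) * ((6 * r + 10) * (u ^ s * v ^ t)) ≤ 1)
    (w1 : ∀ x ∈ Ioo p.a p.a', x ∉ D A B (3 * r + 3)) (w2 : ∀ x ∈ Ioo p.b p.b', x ∉ D A B (3 * r + 3)) :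
    ∃ K ≠ ∞, ∀ i σ, (L p.step (wt p u v))^[i] 1 σ ≤ K := by
  classical
  let φ : ℝ → ℝ≥0∞ := fun y => ∑' t, (L (f A B) fun _ => (u * v : ℝ≥0))^[t] 1 y
  have φS : ∀ y, φ y ≤ S := fun y => le_trans (ENNReal.tsum_le_tsum fun t => by
    rw [L_iter]
    refine (tsum_le_card ((D_finite A B t).union (fib_fin (a := A) (b := B) t y)) (c := ((u * v : ℝ≥0) : ℝ≥0∞) ^ t) fun x hx => ?_).trans ?_
    · split_ifs at hx ⊢ with e
      exacts [⟨pre_fin A B t y e, by simp⟩, absurd rfl hx]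
    · gcongr; exact pre_card ..) hS
  let Φ : ℝ ⊕ ℝ → ℝ≥0∞ := Sum.elim (fun y => 61 * φ y) fun z => if z < -1 then 30 else 22
  have win : ∀ i ≤ r + 1, ∀ (y) (e : ℝ≥0∞), (∀ s t : ℕ, s ≤ 5 * t + 2 → i ≤ s → (u ^ s * v ^ t : ℝ≥0) ≤ e) →
      (L p.step (wt p u v))^[i] ((J p).indicator 1) y ≤ (6 * r + 10) * e := fun i hi y e he => by
    obtain ⟨A1, f1, n1, m1⟩ := win_one w1 (π y)
    obtain ⟨A2, f2, n2, m2⟩ := win_one w2 (π y)
    rw [L_iter]
    refine (tsum_le_card ((f1.union f2).image Sum.inl) (c := e) fun σ hσ => ?_).trans ?_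
    · rw [wt_prod] at hσ ⊢
      split_ifs at hσ ⊢ with e1 e2
      · obtain ⟨x, rfl, hx⟩ : σ ∈ J p := by_contra fun e => hσ (by simp [e])
        have s := semi sm e2
        rw [e1, hπ] at s
        have l : p.tot c i (.inl x) ≤ 3 * r + 3 := (tot_le hc ..).trans (by omega)
        refine ⟨mem_image_of_mem _ (hx.imp (fun h => m1 x h _ l s) fun h => m2 x h _ l s), ?_⟩
        rw [indicator_of_mem (show _ ∈ J p from ⟨x, rfl, hx⟩), Pi.one_apply, mul_one]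
        exact he _ _ (tot_cmp ..) (le_tot ..)
      all_goals simp at hσ
    · gcongr
      have := (ncard_image_le (f := (Sum.inl : ℝ → ℝ ⊕ ℝ)) (f1.union f2)).trans (ncard_union_le A1 A2)
      exact_mod_cast (by omega : _ ≤ 6 * r + 10)
  refine super (J := J p) (Φ := Φ) (c := 61 * S + 30) (c' := (6 * r + 10) * E) (r := r) (by finiteness) (by finiteness)
    (fun y => ?_) (fun y => ?_) (fun y => ?_) fun j hj y => win j (by omega) y E fun s t h _ => by exact_mod_cast hE s t h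
  · rw [L, Summable.tsum_sum ENNReal.summable ENNReal.summable]
    have nJ : ∀ z, (J p)ᶜ.indicator Φ (.inr z) = if z < -1 then 30 else 22 := fun z =>
      indicator_of_mem (by simp [J]) _
    have b1 : 0 < p.b + 1 := by linarith [p.P.2.1]
    cases y with
    | inl y =>
      refine le_trans (add_le_add_right (add_le_add (b := 61 * L (f A B) (fun _ => (u * v : ℝ≥0)) φ y)
        (d := 30 + 30) ?_ ?_) 1) ?_
      · rw [← ABOp.L_mul]
        refine ENNReal.tsum_le_tsum fun x => ?_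
        by_cases g : p.step (.inl x) = .inl y ∧ p.Good (.inl x) ∧ .inl x ∉ J p
        · have := sm _ g.2.1
          rw [c1 x g.2.2, g.1, hπ, hπ] at this
          have n : ¬(p.a ≤ x ∧ x < p.a') := fun e => g.2.2 ⟨x, rfl, Or.inl e⟩
          simp [g, wt, cf, cg, n, show f A B x = y from this, Φ]
        · refine le_trans (le_of_eq ?_) zero_le
          by_cases e1 : p.step (.inl x) = .inl y <;> by_cases e2 : p.Good (.inl x) <;> simp_all [wt]
      · refine tsum_le_two (-1 / y - 1) (y / (1 - y)) fun z hz => ?_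
        have g : p.Good (.inr z) := by_contra fun e => hz (by simp [wt, e])
        have z1 : z + 1 ≠ 0 := fun e => g.2 (by linarith)
        have e : p.step (.inr z) = .inl y := by_contra fun e => hz (if_neg e)
        rw [if_pos e, nJ, wt, if_pos g]
        simp only [step, cf, cg] at e ⊢
        split_ifs at e ⊢ <;> obtain rfl := Sum.inl.inj e
        · exact Or.inl ⟨by simp [neg_div], by exact_mod_cast mul_le_of_le_one_left' hC⟩
        · exact Or.inr ⟨by field_simp; ring, by exact_mod_cast le_add_self.trans hA⟩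
      · have : 1 + L (f A B) (fun _ => (u * v : ℝ≥0)) φ y = φ y := geo y
        rw [show Φ (.inl y) = 61 * φ y from rfl, ← this]
        exact le_of_eq (by ring)
    | inr y =>
      refine le_trans (add_le_add_right (add_le_add (b := 0) (d := ((u ^ 3 * v ^ 1 * 30 : ℝ≥0) : ℝ≥0∞) +
        if y < -1 then ((u ^ 1 * v ^ 3 * 22 : ℝ≥0) : ℝ≥0∞) else 0) ?_ ?_) 1) ?_
      · refine (ENNReal.tsum_eq_zero.2 fun x => ?_).le
        by_cases g : .inl x ∈ J p
        · simp [g]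
        · refine if_neg ?_
          have n : ¬(p.a ≤ x ∧ x < p.a') := fun e => g ⟨x, rfl, Or.inl e⟩
          have n' : ¬(p.b ≤ x ∧ x < p.b') := fun e => g ⟨x, rfl, Or.inr e⟩
          simp [step, n, n']
      · refine tsum_le_two (y - 1) (y / (1 - y)) fun z hz => ?_
        have g : p.Good (.inr z) := by_contra fun e => hz (by simp [wt, e])
        have z1 : z + 1 ≠ 0 := fun e => g.2 (by linarith)
        have e : p.step (.inr z) = .inr y := by_contra fun e => hz (if_neg e)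
        rw [if_pos e, nJ, wt, if_pos g]
        simp only [step, cf, cg] at e ⊢
        by_cases e1 : z < -1
        · simp only [if_pos e1] at e ⊢
          split_ifs at e with e2
          obtain rfl := Sum.inr.inj e
          exact Or.inl ⟨by simp, by simp [e2]⟩
        · simp only [if_neg e1] at e ⊢
          split_ifs at e with e2
          obtain rfl := Sum.inr.inj e
          have : z / (z + 1) < -1 := (div_lt_iff₀ ((by linarith : 0 ≤ z + 1).lt_of_ne' z1)).2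
            (by linarith [g.1.1, p.ha'])
          exact Or.inr ⟨by field_simp; ring, by simp [this]⟩
      · simp only [Φ, Sum.elim_inr, zero_add]
        split_ifs
        · rw [← add_assoc]; exact_mod_cast hA
        · rw [add_zero]; exact_mod_cast hB
  · cases y with
    | inl y => exact le_add_right (mul_le_mul_right (φS y) _)
    | inr z => exact le_add_left (by simp only [Φ, Sum.elim_inr]; split_ifs <;> norm_num)
  · have k0 : (61 * S + 30 : ℝ≥0∞) * (6 * r + 10) ≠ 0 := by positivity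
    refine (mul_le_mul_right (win _ le_rfl y ((61 * S + 30) * (6 * r + 10))⁻¹ fun s t h h' => ?_) _).trans ?_
    · rw [ENNReal.le_inv_iff_mul_le, mul_comm, mul_assoc]
      exact_mod_cast hr s t h h'
    · rw [← mul_assoc, ENNReal.mul_inv_cancel k0 (by finiteness)]

lemma count (p : Pr) {u v : ℝ≥0} (hu : 1 ≤ u) (hv : v ≤ 1) (v0 : 0 < v) {K : ℝ≥0∞} (hK : K ≠ ∞)
    (H : ∀ i σ, (L p.step (wt p u v))^[i] 1 σ ≤ K) : ∃ C : ℝ, 0 ≤ C ∧ ∀ n m : ℕ,
      (laps p.a' p.b' n : ℝ) ≤ 1 + C * (m * laps p.a p.b m + (n + 1) / (u ^ m * v ^ n)) := by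
  classical
  lift K to ℝ≥0 using hK
  set Z := {σ | πg σ ∈ D p.a' p.b' 3}
  have hZ : Z.Finite := (((D_finite p.a' p.b' 3).image Sum.inl).union ((D_finite p.a' p.b' 3).image Sum.inr)).subset
    (by rintro (x | x) hx; exacts [Or.inl ⟨x, hx, rfl⟩, Or.inr ⟨x, hx, rfl⟩])
  refine ⟨Z.ncard * (5 * K + 2), by positivity, fun n m => ?_⟩
  have w0 : (0 : ℝ) < u ^ m * v ^ n := by positivity
  let A : ℝ ⊕ ℝ → ℕ → Set ℝ := fun σ i => D p.a' p.b' n ∩ {x | p.step^[i] (.inl x) = σ ∧ p.AG i (.inl x) ∧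
    p.tot p.cg i (.inl x) ≤ n ∧ m ≤ p.tot p.cf i (.inl x)}
  let B : ℝ ⊕ ℝ → ℕ → Set ℝ := fun σ j => (D p.a p.b j ∪ Fib p.a p.b j (πf σ)) ∩ {_x | j ≤ m}
  have fA : ∀ σ i, (A σ i).Finite := fun _ _ => (D_finite ..).inter_of_left _
  have fB : ∀ σ j, (B σ j).Finite := fun _ j => ((D_finite ..).union (fib_fin j _)).inter_of_left _
  have nA : ∀ σ i, (A σ i).ncard ≤ ⌊(K : ℝ) / (u ^ m * v ^ n)⌋₊ := fun σ i => Nat.le_floor <| by
    have h1 := H i σ
    rw [L_iter] at h1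
    have h2 := (card_le_tsum ((fA σ i).image Sum.inl) (c := (u ^ m * v ^ n : ℝ≥0)) ?_).trans h1
    · rw [ncard_image_of_injective _ Sum.inl_injective] at h2
      rw [le_div_iff₀ w0]
      exact_mod_cast h2
    · rintro _ ⟨x, ⟨-, e1, e2, e3, e4⟩, rfl⟩
      rw [if_pos e1, wt_prod, if_pos e2, Pi.one_apply, mul_one, ENNReal.coe_le_coe]
      exact mul_le_mul' (pow_le_pow_right₀ hu e4) (pow_le_pow_of_le_one zero_le hv e3)
  have nB : ∀ σ j, (B σ j).ncard ≤ 2 * laps p.a p.b m := fun σ j => by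
    by_cases e : j ≤ m
    · exact (ncard_le_ncard inter_subset_left ((D_finite ..).union (fib_fin j _))).trans
        ((pre_card ..).trans (Nat.mul_le_mul_left 2 (laps_mono e)))
    · simp [B, e]
  have sub : D p.a' p.b' n ⊆ ⋃ σ ∈ Z, ((⋃ j ∈ Set.Iio m, B σ j) ∪ ⋃ i ∈ Set.Iio (5 * n + 3), A σ i) := fun x hx => by
    obtain ⟨i, G, l, e⟩ := reach hx
    refine mem_biUnion e ((lt_or_ge (p.tot p.cf i (.inl x)) m).imp (fun c => mem_biUnion c ⟨pre_fin _ _ _ _ ?_, show p.tot p.cf i (.inl x) ≤ m from le_of_lt c⟩)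
      fun c => mem_biUnion (?_ : i < _) ⟨hx, rfl, G, l, c⟩)
    · exact semi (fun σ h => (p.main h).2.1) G
    · linarith [le_tot (p := p) i (.inl x), tot_cmp (p := p) i (.inl x)]
  have h1 := (ncard_le_ncard sub (hZ.biUnion fun σ _ => ((finite_Iio _).biUnion fun j _ => fB σ j).union
    ((finite_Iio _).biUnion fun i _ => fA σ i))).trans (ncard_bU hZ _ fun σ => (ncard_union_le ..).trans
      (add_le_add (ncard_bU (finite_Iio m) _ (nB σ)) (ncard_bU (finite_Iio (5 * n + 3)) _ (nA σ))))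
  simp only [← Finset.coe_Iio, ncard_coe_finset, Nat.card_Iio] at h1
  have h2 : ((D p.a' p.b' n).ncard : ℝ) ≤ Z.ncard * (m * (2 * laps p.a p.b m) + (5 * n + 3) * ⌊(K : ℝ) / (u ^ m * v ^ n)⌋₊) := by
    exact_mod_cast h1
  have h3 : (⌊(K : ℝ) / (u ^ m * v ^ n)⌋₊ : ℝ) ≤ K / (u ^ m * v ^ n) := Nat.floor_le (by positivity)
  rw [laps, Nat.cast_add, Nat.cast_one, add_comm, mul_assoc]
  refine add_le_add_right (h2.trans (mul_le_mul_of_nonneg_left ?_ (by positivity))) 1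
  have h4 : (5 * n + 3 : ℝ) * (K / (u ^ m * v ^ n)) ≤ (5 * K + 2) * ((n + 1) / (u ^ m * v ^ n)) := by
    rw [← mul_div_assoc, ← mul_div_assoc]
    exact div_le_div_of_nonneg_right (by nlinarith [K.2, n.cast_nonneg (α := ℝ)]) w0.le
  have h5 : (0 : ℝ) ≤ K * (m * laps p.a p.b m) := by positivity
  nlinarith [n.cast_nonneg (α := ℝ)]

lemma geo_bound {a b h l : ℝ} (H : HasEnt a b h) (hl : h < l) : ∃ C : ℝ, ∀ n : ℕ, laps a b n ≤ C * Real.exp l ^ n := by
  have : (fun n : ℕ => (laps a b n : ℝ)) =O[atTop] fun n => Real.exp l ^ n := by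
    refine .of_bound 1 (((H.eventually (gt_mem_nhds hl)).and (eventually_gt_atTop 0)).mono fun n hn => ?_)
    rw [Real.norm_of_nonneg (laps_pos n).le, Real.norm_of_nonneg (by positivity), one_mul, ← Real.exp_nat_mul,
      ← Real.log_le_iff_le_exp (laps_pos n), mul_comm]
    exact ((div_lt_iff₀ (by exact_mod_cast hn.2)).1 hn.1).le
  obtain ⟨C, -, hC⟩ := Asymptotics.bound_of_isBigO_nat_atTop this
  exact ⟨C, fun n => by simpa using hC (x := n) (by positivity)⟩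

lemma prep {A B h l : ℝ} (P : Par A B) (H : HasEnt A B h) (hl : h < l) {u : ℝ≥0} (hu : 1 ≤ u) (hu' : u ≤ 101 / 100) :
    ∃ (v : ℝ≥0) (N : ℕ), 0 < v ∧ v ≤ 1 ∧ (u * v : ℝ) = (Real.exp l)⁻¹ ∧ ∀ (p : Pr) (π : ℝ ⊕ ℝ → ℝ) (c : ℝ ⊕ ℝ → ℕ),
      (∀ σ, c σ ≤ 3) → (∀ x, π (.inl x) = x) → (∀ σ, p.Good σ → (f A B)^[c σ] (π σ) = π (p.step σ)) →
      (∀ x, .inl x ∉ J p → c (.inl x) = 1) → (∀ x ∈ Set.Ioo p.a p.a', x ∉ D A B N) → (∀ x ∈ Set.Ioo p.b p.b', x ∉ D A B N) →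
      ∃ K ≠ ∞, ∀ i σ, (L p.step (wt p u v))^[i] 1 σ ≤ K := by
  obtain ⟨κ, ⟨κ1, -⟩, hκ⟩ := intermediate_value_Icc (f := fun x : ℝ => x ^ 3 - x ^ 2 - 1) (a := 146 / 100) (b := 2)
    (by norm_num) (by fun_prop) (show (0 : ℝ) ∈ _ by constructor <;> norm_num)
  have e1 : 146 / 100 ≤ Real.exp l := κ1.trans ((Real.log_le_iff_le_exp (by linarith)).1 ((range hκ P H).1.trans hl.le))
  have u1 : (1 : ℝ) ≤ u := hu
  have u2 : (u : ℝ) ≤ 101 / 100 := hu'
  obtain ⟨v, hv⟩ : ∃ v : ℝ≥0, (u * v : ℝ) = (Real.exp l)⁻¹ :=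
    ⟨NNReal.mk ((Real.exp l)⁻¹ / u) (by positivity), by simp only [NNReal.coe_mk]; field_simp⟩
  have uv : (u * v : ℝ) ≤ 685 / 1000 := hv ▸ inv_le_of_inv_le₀ (by norm_num) (by linarith)
  have uv0 : (0 : ℝ) < u * v := by rw [hv]; positivity
  have v0 : (0 : ℝ) < v := (pos_iff_pos_of_mul_pos uv0).1 (by linarith)
  have v1 : (v : ℝ) ≤ 685 / 1000 := by nlinarith
  obtain ⟨l', hl1, hl2⟩ := exists_between hl
  obtain ⟨C, hC⟩ := geo_bound H hl1
  have sm : Summable fun t : ℕ => ((2 * laps A B t : ℕ) : ℝ≥0) * (u * v) ^ t := by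
    rw [← NNReal.summable_coe]
    refine .of_nonneg_of_le (fun _ => by positivity) (fun t => ?_)
      ((summable_geometric_of_lt_one (by positivity) ((div_lt_one (Real.exp_pos l)).2 (Real.exp_lt_exp.2 hl2))).mul_left (2 * C))
    push_cast
    rw [hv, div_pow, inv_pow, ← div_eq_mul_inv, ← mul_div_assoc]
    exact div_le_div_of_nonneg_right (by linarith [hC t]) (by positivity)
  set S := ∑' t : ℕ, ((2 * laps A B t : ℕ) : ℝ≥0) * (u * v) ^ t
  have wb : ∀ s t : ℕ, s ≤ 5 * t + 2 → (u : ℝ) ^ s * v ^ t ≤ 2 * (3 / 4) ^ t := fun s t h => by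
    have : (u : ℝ) ^ 5 * v ≤ 3 / 4 := by
      have : (u : ℝ) ^ 4 ≤ (101 / 100) ^ 4 := pow_le_pow_left₀ u.2 u2 4
      nlinarith
    calc _ ≤ (u : ℝ) ^ (5 * t + 2) * v ^ t := by gcongr
      _ = u ^ 2 * (u ^ 5 * v) ^ t := by ring
      _ ≤ _ := by gcongr; nlinarith
  have tt : Tendsto (fun t : ℕ => (61 * S + 30 : ℝ) * (60 * (t * (3 / 4) ^ t) + 32 * (3 / 4) ^ t)) atTop (𝓝 _) :=
    (((tendsto_self_mul_const_pow_of_lt_one (by norm_num) (by norm_num)).const_mul 60).add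
      ((_root_.tendsto_pow_atTop_nhds_zero_of_lt_one (by norm_num) (by norm_num)).const_mul 32)).const_mul _
  obtain ⟨t₀, ht⟩ := eventually_atTop.1 (tt.eventually (ge_mem_nhds (show _ < (1 : ℝ) by simp)))
  refine ⟨v, 3 * (5 * t₀ + 2) + 3, v0, show (v : ℝ) ≤ 1 by linarith, hv, fun p π c h1 h2 h3 h4 h5 h6 =>
    bound p h1 h2 h3 h4 ?_ ?_ ?_ (S := S) ?_ (E := 2) (fun s t h => ?_) (fun s t h h' => ?_) h5 h6⟩
  · have : (u * v ^ 3 : ℝ) ≤ 685 / 1000 * (685 / 1000) ^ 2 := by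
      rw [pow_succ', ← mul_assoc]; gcongr
    have : (u ^ 3 * v : ℝ) ≤ (101 / 100) ^ 2 * (685 / 1000) := by rw [pow_succ, mul_assoc]; gcongr
    rw [← NNReal.coe_le_coe]; push_cast; linarith
  · have : (u ^ 3 * v : ℝ) ≤ (101 / 100) ^ 2 * (685 / 1000) := by rw [pow_succ, mul_assoc]; gcongr
    rw [← NNReal.coe_le_coe]; push_cast; linarith
  · rw [← NNReal.coe_le_coe]; push_cast; nlinarith
  · rw [ENNReal.coe_tsum sm]; simp
  · rw [← NNReal.coe_le_coe]; push_cast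
    linarith [wb s t h, pow_le_one₀ (n := t) (show (0 : ℝ) ≤ 3 / 4 by norm_num) (by norm_num)]
  · rw [← NNReal.coe_le_coe]; push_cast
    refine le_trans (mul_le_mul_of_nonneg_left ?_ (by positivity)) (ht t (by omega))
    have : (t₀ : ℝ) + 1 ≤ t := by exact_mod_cast (by omega : t₀ + 1 ≤ t)
    refine (mul_le_mul_of_nonneg_left (wb s t h) (by positivity)).trans ?_
    nlinarith [pow_pos (show (0 : ℝ) < 3 / 4 by norm_num) t]

lemma gap (A B : ℝ) (N : ℕ) (c : ℝ) : ∃ ε > 0, ∀ x, |x - c| < ε → x ≠ c → x ∉ D A B N := by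
  obtain ⟨ε, ε0, h⟩ := Metric.isOpen_iff.1 ((D_finite A B N).sdiff (t := {c})).isClosed.isOpen_compl c (by simp)
  exact ⟨ε, ε0, fun x hx e hD => h (show dist x c < ε from hx) ⟨hD, e⟩⟩

lemma c1f (p : Pr) (x : ℝ) (h : .inl x ∉ J p) : p.cf (.inl x) = 1 ∧ p.cg (.inl x) = 1 := by
  have n : ¬(p.a ≤ x ∧ x < p.a') := fun e => h ⟨x, rfl, Or.inl e⟩
  simp [cf, cg, n]

lemma usc {a b h l : ℝ} (P : Par a b) (H : HasEnt a b h) (hl : h < l) : ∃ ε > 0, ∀ p : Pr, p.a = a → p.b = b →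
    p.a' < a + ε → p.b' < b + ε → ∀ h', HasEnt p.a' p.b' h' → h' ≤ l := by
  obtain ⟨v, N, v0, v1, hv, K⟩ := prep P H hl (u := 1) le_rfl (by rw [← NNReal.coe_le_coe]; norm_num)
  obtain ⟨ε, ε0, g1⟩ := gap a b N a
  obtain ⟨ε', ε0', g2⟩ := gap a b N b
  refine ⟨min ε ε', lt_min ε0 ε0', ?_⟩
  rintro p rfl rfl h1 h2 h' H'
  obtain ⟨K, hK, K⟩ := K p πf p.cf (fun σ => (cf_le σ).2) (fun _ => rfl) (fun σ h => (p.main h).2.1)
    (fun x h => (c1f p x h).1)
    (fun x hx => g1 x (abs_lt.2 ⟨by linarith [hx.1], by linarith [hx.2, min_le_left ε ε']⟩) hx.1.ne')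
    fun x hx => g2 x (abs_lt.2 ⟨by linarith [hx.1], by linarith [hx.2, min_le_right ε ε']⟩) hx.1.ne'
  obtain ⟨C, C0, hC⟩ := count p le_rfl v1 v0 hK K
  refine (lim_le laps_pos (fun n => by positivity) (C := 1 + C) (fun n => (hC n 0).trans ?_) H'
    (lim_pow (Real.exp l))).trans_eq (Real.log_exp l)
  simp only [NNReal.coe_one, one_mul] at hv
  have e : 1 ≤ Real.exp l ^ n := one_le_pow₀ ((inv_le_one₀ (Real.exp_pos l)).1 (hv ▸ v1))
  simp only [hv, NNReal.coe_one, one_pow, one_mul, Nat.cast_zero, zero_mul, zero_add, inv_pow, div_inv_eq_mul]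
  nlinarith [n.cast_nonneg (α := ℝ)]

lemma lsc {a b h : ℝ} (P : Par a b) (H : HasEnt a b h) {M : ℕ} (M0 : 0 < M) : ∃ ε > 0, ∀ p : Pr, p.a' = a → p.b' = b →
    a - ε < p.a → b - ε < p.b → ∀ h', HasEnt p.a p.b h' → h ≤ (1 + 1 / M) * h' := by
  have M1 : (1 : ℝ) ≤ M := by exact_mod_cast M0
  set γ : ℝ := 1 / (200 * M)
  have γ0 : 0 < γ := by positivity
  have γM : γ * M = 1 / 200 := by simp only [γ]; field_simp
  obtain ⟨v, N, v0, v1, hv, K⟩ := prep P H (l := h + γ / 2) (by linarith) (u := NNReal.mk (Real.exp (1 / 200)) (by positivity))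
    (show (1 : ℝ) ≤ Real.exp _ from Real.one_le_exp (by norm_num)) (show Real.exp _ ≤ (101 / 100 : ℝ) from
      (Real.exp_bound_div_one_sub_of_interval (by norm_num) (by norm_num)).trans (by norm_num))
  obtain ⟨ε, ε0, g1⟩ := gap a b N a
  obtain ⟨ε', ε0', g2⟩ := gap a b N b
  refine ⟨min ε ε', lt_min ε0 ε0', ?_⟩
  rintro p rfl rfl h1 h2 h' H'
  obtain ⟨K, hK, K⟩ := K p πg p.cg cg_le (fun _ => rfl) (fun σ h => (p.main h).2.2) (fun x h => (c1f p x h).2)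
    (fun x hx => g1 x (abs_lt.2 ⟨by linarith [hx.1, min_le_left ε ε'], by linarith [hx.2]⟩) hx.2.ne)
    fun x hx => g2 x (abs_lt.2 ⟨by linarith [hx.1, min_le_right ε ε'], by linarith [hx.2]⟩) hx.2.ne
  obtain ⟨C, C0, hC⟩ := count p (show (1 : ℝ) ≤ Real.exp _ from Real.one_le_exp (by norm_num)) v1 v0 hK K
  have h0 : 0 ≤ h' := ge_of_tendsto' H' fun n => div_nonneg (Real.log_natCast_nonneg _) n.cast_nonneg
  have k : (0 : ℝ) < 1 + 1 / M := by positivity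
  rw [← div_le_iff₀' k]
  refine le_of_forall_gt_imp_ge_of_dense fun l hl => (div_le_iff₀' k).2 ?_
  obtain ⟨C', hC'⟩ := geo_bound H' hl
  set L := max ((1 + 1 / M) * l) (h - γ / 2)
  have l0 : 0 ≤ l := by linarith
  have L0 : 0 ≤ L := le_max_of_le_left (by positivity)
  have C1 : 0 ≤ C' := by simpa using (laps_pos 0).le.trans (hC' 0)
  have := (lim_le laps_pos (fun n => by positivity) (C := 1 + C * (3 * C' * Real.exp l + 1))
    (fun n => (hC n (n + n / M + 1)).trans ?_) H (lim_pow (Real.exp L))).trans_eq (Real.log_exp L)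
  · exact (le_max_iff.1 this).resolve_right (by linarith)
  have e : 1 ≤ Real.exp L ^ n := one_le_pow₀ (Real.one_le_exp L0)
  have n0 := n.cast_nonneg (α := ℝ)
  have d1 : ((n / M : ℕ) : ℝ) ≤ n / M := Nat.cast_div_le
  have d2 : (n : ℝ) ≤ M * ((n / M : ℕ) + 1) := by exact_mod_cast (Nat.lt_mul_div_succ n M0).le
  have d3 : ((n / M : ℕ) : ℝ) ≤ n := by exact_mod_cast Nat.div_le_self n M
  have b1 : (laps p.a p.b (n + n / M + 1) : ℝ) ≤ C' * Real.exp l * Real.exp L ^ n := by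
    refine (hC' _).trans ?_
    rw [mul_assoc, ← Real.exp_nat_mul, ← Real.exp_nat_mul, ← Real.exp_add]
    gcongr
    have : n * ((1 + 1 / M) * l) ≤ n * L := mul_le_mul_of_nonneg_left (le_max_left ..) n0
    have := mul_le_mul_of_nonneg_right d1 l0
    push_cast
    ring_nf at *
    linarith
  have b2 : (n + 1 : ℝ) / (Real.exp (1 / 200) ^ (n + n / M + 1) * v ^ n) ≤ (n + 1) * Real.exp L ^ n := by
    simp only [NNReal.coe_mk] at hv
    rw [add_assoc, pow_add, mul_right_comm, ← mul_pow, hv, div_eq_mul_inv, ← Real.exp_neg, ← Real.exp_nat_mul,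
      ← Real.exp_nat_mul, ← Real.exp_nat_mul, ← Real.exp_add, ← Real.exp_neg]
    gcongr
    have : n * (h - γ / 2) ≤ n * L := mul_le_mul_of_nonneg_left (le_max_right ..) n0
    have := mul_le_mul_of_nonneg_left d2 γ0.le
    rw [← mul_assoc, γM] at this
    push_cast
    linarith
  have b3 : ((n + n / M + 1 : ℕ) : ℝ) * laps p.a p.b (n + n / M + 1) ≤ 3 * (n + 1) * (C' * Real.exp l * Real.exp L ^ n) :=
    mul_le_mul (by push_cast; linarith) b1 (laps_pos _).le (by positivity)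
  have := mul_le_mul_of_nonneg_left (add_le_add b3 b2) C0
  simp only [NNReal.coe_mk]
  nlinarith

end Pool.Agent.Lib.Helper21.ABCont
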