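import Mathlib

/-! Weighted transfer operators with values in `ℝ≥0∞`. -/

set_option autoImplicit false

namespace Pool.Agent.Lib.Helper21.ABOp

open Set ENNReal Finset

variable {X : Type} {T : X → X} {w φ ψ : X → ℝ≥0∞}

open Classical in
/-- the weighted transfer operator -/
noncomputable def L (T : X → X) (w φ : X → ℝ≥0∞) (y : X) : ℝ≥0∞ := ∑' x, if T x = y then w x * φ x else 0

lemma L_mono (h : ∀ x, φ x ≤ ψ x) (y : X) : L T w φ y ≤ L T w ψ y :=
  ENNReal.tsum_le_tsum fun x => by split_ifs; exacts [by gcongr; exact h x, le_rfl]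

lemma L_add (y : X) : L T w (fun x => φ x + ψ x) y = L T w φ y + L T w ψ y := by
  simp only [L, ← ENNReal.tsum_add]
  exact tsum_congr fun x => by split_ifs <;> simp [mul_add]

lemma L_mul (c : ℝ≥0∞) (y : X) : L T w (fun x => c * φ x) y = c * L T w φ y := by
  simp only [L, ← ENNReal.tsum_mul_left]
  exact tsum_congr fun x => by split_ifs <;> simp [mul_left_comm]

lemma L_tsum (Φ : ℕ → X → ℝ≥0∞) (y : X) : L T w (fun x => ∑' t, Φ t x) y = ∑' t, L T w (Φ t) y := by
  simp only [L]
  rw [ENNReal.tsum_comm]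
  exact tsum_congr fun x => by split_ifs <;> simp [ENNReal.tsum_mul_left]

lemma L_sum (Φ : ℕ → X → ℝ≥0∞) (r : ℕ) (y : X) :
    L T w (fun x => ∑ t ∈ range r, Φ t x) y = ∑ t ∈ range r, L T w (Φ t) y := by
  induction r with
  | zero => simp [L]
  | succ r ih => simp only [sum_range_succ, L_add, ih]

open Classical in
lemma L_iter (i : ℕ) (y : X) :
    (L T w)^[i] φ y = ∑' x, if T^[i] x = y then (∏ j ∈ range i, w (T^[j] x)) * φ x else 0 := by
  induction i generalizing y with
  | zero => simp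
  | succ i ih =>
    rw [Function.iterate_succ_apply', L]
    simp only [ih]
    have : ∀ z, (if T z = y then w z * ∑' x, if T^[i] x = z then (∏ j ∈ range i, w (T^[j] x)) * φ x else 0 else 0) =
        ∑' x, if z = T^[i] x then
          (if T^[i + 1] x = y then (∏ j ∈ range (i + 1), w (T^[j] x)) * φ x else 0) else 0 := fun z => by
      split_ifs with e
      · rw [← ENNReal.tsum_mul_left]
        refine tsum_congr fun x => ?_
        by_cases e' : T^[i] x = z
        · subst e'
          simp [Function.iterate_succ_apply', e, prod_range_succ, mul_comm, mul_left_comm]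
        · simp [e', Ne.symm e']
      · refine (ENNReal.tsum_eq_zero.2 fun x => ?_).symm
        split_ifs with e' e''
        · exact absurd (by rwa [Function.iterate_succ_apply', ← e'] at e'') e
        all_goals rfl
    simp only [this]
    rw [ENNReal.tsum_comm]
    simp only [tsum_ite_eq]

lemma geo (y : X) : 1 + L T w (fun x => ∑' t, (L T w)^[t] 1 x) y = ∑' t, (L T w)^[t] 1 y := by
  rw [L_tsum, tsum_eq_zero_add' (f := fun t => (L T w)^[t] 1 y) ENNReal.summable]
  simp only [Function.iterate_succ_apply']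
  rfl

lemma super {J : Set X} {Φ : X → ℝ≥0∞} {c c' : ℝ≥0∞} (hc : c ≠ ∞) (hc' : c' ≠ ∞) {r : ℕ}
    (h1 : ∀ y, 1 + L T w (Jᶜ.indicator Φ) y ≤ Φ y) (h2 : ∀ y, Φ y ≤ c)
    (h3 : ∀ y, c * (L T w)^[r + 1] (J.indicator 1) y ≤ 1) (h4 : ∀ j ≤ r, ∀ y, (L T w)^[j] (J.indicator 1) y ≤ c') :
    ∃ K ≠ ∞, ∀ i y, (L T w)^[i] 1 y ≤ K := by
  let Ψ : X → ℝ≥0∞ := fun x => ∑ j ∈ range r, (L T w)^[j + 1] (J.indicator 1) x
  have key : ∀ y, L T w (fun x => Φ x + c * Ψ x) y ≤ Φ y + c * Ψ y := fun y => by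
    have e1 : L T w Φ y ≤ L T w (Jᶜ.indicator Φ) y + c * L T w (J.indicator 1) y := by
      rw [← L_mul, ← L_add]
      exact L_mono (fun x => by by_cases e : x ∈ J <;> simp [e, h2]) y
    have e2 : L T w (J.indicator 1) y + L T w Ψ y = Ψ y + (L T w)^[r + 1] (J.indicator 1) y := by
      rw [L_sum, ← sum_range_succ fun j => (L T w)^[j + 1] (J.indicator 1) y, sum_range_succ', add_comm]
      simp only [Function.iterate_succ_apply']
      rfl
    calc _ = L T w Φ y + c * L T w Ψ y := by rw [L_add, L_mul]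
      _ ≤ L T w (Jᶜ.indicator Φ) y + c * (L T w (J.indicator 1) y + L T w Ψ y) := by
        rw [mul_add, ← add_assoc]; gcongr
      _ = (c * (L T w)^[r + 1] (J.indicator 1) y + L T w (Jᶜ.indicator Φ) y) + c * Ψ y := by rw [e2]; ring
      _ ≤ _ := by gcongr; exact (add_le_add_left (h3 y) _).trans (h1 y)
  refine ⟨c + c * (r * c'), by finiteness, fun i y => le_trans (b := Φ y + c * Ψ y) ?_ ?_⟩
  · induction i generalizing y with
    | zero => exact (le_self_add.trans (h1 y)).trans le_self_add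
    | succ i ih => rw [Function.iterate_succ_apply']; exact (L_mono ih y).trans (key y)
  · gcongr
    · exact h2 y
    · simpa [Ψ] using sum_le_card_nsmul (range r) _ c' fun j hj => h4 _ (mem_range.1 hj) y

lemma tsum_le_card {F : X → ℝ≥0∞} {A : Set X} (hA : A.Finite) {c : ℝ≥0∞} (h : ∀ x, F x ≠ 0 → x ∈ A ∧ F x ≤ c) :
    ∑' x, F x ≤ A.ncard * c := by
  rw [tsum_eq_sum (s := hA.toFinset) fun x hx => by_contra fun e => hx (by simpa using (h x e).1),
    ncard_eq_toFinset_card A hA, ← nsmul_eq_mul]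
  exact sum_le_card_nsmul _ _ _ fun x _ => by by_cases e : F x = 0; exacts [by simp [e], (h x e).2]

lemma card_le_tsum {F : X → ℝ≥0∞} {A : Set X} (hA : A.Finite) {c : ℝ≥0∞} (h : ∀ x ∈ A, c ≤ F x) :
    A.ncard * c ≤ ∑' x, F x := by
  rw [ncard_eq_toFinset_card A hA, ← nsmul_eq_mul]
  exact (card_nsmul_le_sum _ _ _ fun x hx => h x (by simpa using hx)).trans (ENNReal.sum_le_tsum _)

lemma tsum_le_two {F : X → ℝ≥0∞} (p q : X) {c d : ℝ≥0∞} (h : ∀ x, F x ≠ 0 → x = p ∧ F x ≤ c ∨ x = q ∧ F x ≤ d) :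
    ∑' x, F x ≤ c + d := by
  classical
  calc _ ≤ ∑' x, ((if x = p then c else 0) + if x = q then d else 0) := ENNReal.tsum_le_tsum fun x => by
        by_cases e : F x = 0
        · simp [e]
        · rcases h x e with ⟨rfl, h'⟩ | ⟨rfl, h'⟩
          · exact h'.trans (by simp)
          · exact h'.trans (by simp)
    _ = _ := by rw [ENNReal.tsum_add, tsum_ite_eq p fun _ => c, tsum_ite_eq q fun _ => d]

end Pool.Agent.Lib.Helper21.ABOp
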