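import Pool.Agent.Lib.helper21.ABEnt
import Pool.Agent.Lib.helper21.ABOp

/-! The coupling of two `(a,b)`-continued fraction maps as a dynamical system. -/

set_option autoImplicit false

namespace Pool.Agent.Lib.Helper21.ABCpl

open Set Filter Topology Finset Pool.Agent.Lib.Helper21.ABDef Pool.Agent.Lib.Helper21.ABEnt

/-- two comparable parameters -/
structure Pr where
  (a b a' b' : ℝ)
  (P : Par a b)
  (P' : Par a' b')
  (ha : a ≤ a')
  (ha' : a' ≤ -1 / 2)
  (hb : b ≤ b')
  (hb' : b' ≤ 1)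

namespace Pr

variable (p : Pr)

/-- one step of the coupling -/
noncomputable def step : ℝ ⊕ ℝ → ℝ ⊕ ℝ
  | .inl x => if p.a ≤ x ∧ x < p.a' then .inr x else if p.b ≤ x ∧ x < p.b' then .inr (-1 / x) else .inl (f p.a p.b x)
  | .inr z => if z < -1 then (if z + 1 < p.a' then .inr (z + 1) else .inl (-1 / (z + 1)))
      else if z < -1 / (p.b + 1) then .inl (z / (z + 1)) else .inr (z / (z + 1))

/-- time used by the lower map -/
noncomputable def cf : ℝ ⊕ ℝ → ℕ
  | .inl x => if p.a ≤ x ∧ x < p.a' then 2 else 1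
  | .inr z => if z < -1 then (if z + 1 < p.a' then 3 else 2) else 1

/-- time used by the upper map -/
noncomputable def cg : ℝ ⊕ ℝ → ℕ
  | .inl x => if p.a ≤ x ∧ x < p.a' then 0 else 1
  | .inr z => if z < -1 then (if z + 1 < p.a' then 1 else 2) else 3

/-- position of the lower map -/
noncomputable def πf : ℝ ⊕ ℝ → ℝ
  | .inl x => x
  | .inr z => -1 - 1 / z

/-- position of the upper map -/
def πg : ℝ ⊕ ℝ → ℝ
  | .inl x => x
  | .inr z => z

/-- invariant states -/
def Inv : ℝ ⊕ ℝ → Prop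
  | .inl _ => True
  | .inr z => z < p.a' ∧ -z * p.b ≤ 1

/-- good states -/
def Good : ℝ ⊕ ℝ → Prop
  | .inl x => x ≠ 0
  | .inr z => (z < p.a' ∧ -z * p.b ≤ 1) ∧ z ≠ -1

lemma good {σ : ℝ ⊕ ℝ} (h : p.Inv σ) (h' : πg σ ∉ D p.a' p.b' 3) : p.Good σ := by
  cases σ with
  | inl x => exact fun e => h' ⟨0, by omega, by simp [πg, e]⟩
  | inr z => exact ⟨h, fun e => h' ⟨1, by omega, by subst e; simp [πg, fT h.1]⟩⟩

lemma main {σ : ℝ ⊕ ℝ} (h : p.Good σ) : p.Inv (p.step σ) ∧ (f p.a p.b)^[p.cf σ] (πf σ) = πf (p.step σ) ∧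
    (f p.a' p.b')^[p.cg σ] (πg σ) = πg (p.step σ) := by
  obtain ⟨a, b, a', b', ⟨p1, p2, p3, p4⟩, ⟨q1, q2, q3, q4⟩, ha, ha', hb, hb'⟩ := p
  cases σ with
  | inl x =>
    simp only [step, cf, cg, Good] at h ⊢
    split_ifs with c d
    · have : x < 0 := by linarith [c.2]
      have e : b ≤ -1 / x := (le_div_iff_of_neg this).2 (by nlinarith [c.1])
      refine ⟨⟨c.2, by nlinarith [c.1]⟩, ?_, rfl⟩
      simp only [πf, Function.iterate_succ_apply', Function.iterate_zero_apply]
      rw [fS c.1 (by linarith), fU (by linarith) e]; ring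
    · have : 0 < x := (p2.trans d.1).lt_of_ne' h
      refine ⟨⟨(div_lt_iff₀ this).2 (by nlinarith [d.2]), ?_⟩, ?_, fS (x := x) (by linarith) d.2⟩
      · rw [neg_div, neg_neg, one_div, inv_mul_le_one₀ this]; exact d.1
      · simp only [πf, Function.iterate_one]
        rw [fU (by linarith) d.1]; field_simp; ring
    · refine ⟨trivial, rfl, ?_⟩
      simp only [πg, Function.iterate_one]
      rcases lt_or_ge x a with u | u
      · rw [fT u, fT (by linarith)]
      have u' : a' ≤ x := not_lt.1 fun e => c ⟨u, e⟩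
      rcases lt_or_ge x b with v | v
      · rw [fS u v, fS u' (by linarith)]
      · rw [fU u v, fU u' (not_lt.1 fun e => d ⟨v, e⟩)]
  | inr z =>
    obtain ⟨⟨h1, h2⟩, h3⟩ := h
    simp only [step, cf, cg] at h1 h2 ⊢
    have z0 : z < 0 := by linarith
    have y1 : b - 1 ≤ -1 - 1 / z := by
      have : b ≤ -1 / z := (le_div_iff_of_neg z0).2 (by linarith)
      rw [neg_div] at this; linarith
    have z1 : z + 1 ≠ 0 := fun e => h3 (by linarith)
    have e1 : -1 / (-1 - 1 / z) = z / (z + 1) := by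
      have : -1 - 1 / z = -(z + 1) / z := by field_simp [z0.ne]; ring
      rw [this]; field_simp [z0.ne]
    by_cases c : z < -1
    · have y0 : -1 - 1 / z < 0 := by
        have : -1 < 1 / z := (lt_div_iff_of_neg z0).2 (by linarith)
        linarith
      have q0 : 0 < -1 / (z + 1) := div_pos_of_neg_of_neg (by norm_num) (by linarith)
      have qb : b ≤ -1 / (z + 1) := (le_div_iff_of_neg (by linarith)).2 (by nlinarith)
      have e2 : z / (z + 1) = -1 / (z + 1) + 1 := by field_simp; ring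
      have f2 : f a b (f a b (-1 - 1 / z)) = -1 / (z + 1) := by
        rw [fS (x := -1 - 1 / z) (by linarith) (by linarith), e1, e2, fU (by linarith) (by linarith)]; ring
      simp only [if_pos c]
      split_ifs with d
      · refine ⟨⟨d, by nlinarith⟩, ?_, fT h1⟩
        simp only [πf, Function.iterate_succ_apply', Function.iterate_zero_apply]
        rw [f2, fU (by linarith) qb]; ring
      · refine ⟨trivial, f2, ?_⟩
        simp only [πg, Function.iterate_succ_apply', Function.iterate_zero_apply]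
        rw [fT h1, fS (not_lt.1 d) (by linarith)]
    · have c' : 0 < z + 1 := (by linarith : 0 ≤ z + 1).lt_of_ne' z1
      have g3 : (f a' b')^[3] z = z / (z + 1) := by
        have : -1 / (z + 1) < -1 := (div_lt_iff₀ c').2 (by linarith)
        simp only [Function.iterate_succ_apply', Function.iterate_zero_apply]
        rw [fT h1, fS (x := z + 1) (by linarith) (by linarith), fT (by linarith)]
        field_simp; ring
      have b1 : 0 < b + 1 := by linarith
      simp only [if_neg c]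
      split_ifs with d
      · refine ⟨trivial, ?_, g3⟩
        have : -1 / z < b + 1 := (div_lt_iff_of_neg z0).2 (by linarith [(lt_div_iff₀ b1).1 d])
        rw [neg_div] at this
        exact (fS (x := -1 - 1 / z) (by linarith) (by linarith)).trans e1
      · have d' := (div_le_iff₀ b1).1 (not_lt.1 d)
        refine ⟨⟨((div_lt_iff₀ c').2 (by linarith)).trans_le (show -1 ≤ a' by linarith), ?_⟩, ?_, g3⟩
        · rw [← neg_div, div_mul_eq_mul_div, div_le_one c']; linarith
        · have : b + 1 ≤ -1 / z := (le_div_iff_of_neg z0).2 (by linarith)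
          rw [neg_div] at this
          refine (fU (x := -1 - 1 / z) (by linarith) (by linarith)).trans ?_
          simp only [πf]; field_simp [z0.ne]; ring

/-- total time along `i` steps -/
noncomputable def tot (c : ℝ ⊕ ℝ → ℕ) (i : ℕ) (σ : ℝ ⊕ ℝ) : ℕ := ∑ j ∈ range i, c (p.step^[j] σ)

lemma tot_succ (c : ℝ ⊕ ℝ → ℕ) (i : ℕ) (σ : ℝ ⊕ ℝ) : p.tot c (i + 1) σ = p.tot c i σ + c (p.step^[i] σ) :=
  sum_range_succ ..

/-- the first `i` states are good -/
def AG (i : ℕ) (σ : ℝ ⊕ ℝ) : Prop := ∀ j < i, p.Good (p.step^[j] σ)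

variable {p}

lemma semi {F : ℝ → ℝ} {π : ℝ ⊕ ℝ → ℝ} {c : ℝ ⊕ ℝ → ℕ} (h : ∀ σ, p.Good σ → F^[c σ] (π σ) = π (p.step σ))
    {i : ℕ} {σ : ℝ ⊕ ℝ} (G : p.AG i σ) : F^[p.tot c i σ] (π σ) = π (p.step^[i] σ) := by
  induction i with
  | zero => rfl
  | succ i ih =>
    rw [tot_succ, add_comm, Function.iterate_add_apply, ih fun j hj => G j (by omega),
      h _ (G i (by omega)), Function.iterate_succ_apply']

lemma tot_le {c : ℝ ⊕ ℝ → ℕ} (h : ∀ σ, c σ ≤ 3) (i : ℕ) (σ : ℝ ⊕ ℝ) : p.tot c i σ ≤ 3 * i := by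
  simpa [tot, mul_comm] using sum_le_card_nsmul (range i) _ 3 fun j _ => h (p.step^[j] σ)

lemma cf_le (σ : ℝ ⊕ ℝ) : 1 ≤ p.cf σ ∧ p.cf σ ≤ 3 := by cases σ <;> simp only [cf] <;> split_ifs <;> omega

lemma cg_le (σ : ℝ ⊕ ℝ) : p.cg σ ≤ 3 := by cases σ <;> simp only [cg] <;> split_ifs <;> omega

lemma le_tot (i : ℕ) (σ : ℝ ⊕ ℝ) : i ≤ p.tot p.cf i σ := by
  simpa [tot] using card_nsmul_le_sum (range i) _ 1 fun j _ => (cf_le (p.step^[j] σ)).1

lemma tot_cmp (i : ℕ) (σ : ℝ ⊕ ℝ) : p.tot p.cf i σ ≤ 5 * p.tot p.cg i σ + 2 := by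
  suffices p.tot p.cf i σ ≤ 5 * p.tot p.cg i σ + if (p.step^[i] σ).isRight then 2 else 0 by
    split_ifs at this <;> omega
  induction i with
  | zero => simp [tot]
  | succ i ih =>
    simp only [tot_succ, Function.iterate_succ_apply'] at ih ⊢
    generalize p.step^[i] σ = τ, p.tot p.cf i σ = A, p.tot p.cg i σ = B at ih ⊢
    cases τ <;> simp only [step, cf, cg] <;> split_ifs <;> simp at * <;> omega

lemma reach {n : ℕ} {x : ℝ} (hx : x ∈ D p.a' p.b' n) : ∃ i, p.AG i (.inl x) ∧ p.tot p.cg i (.inl x) ≤ n ∧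
    πg (p.step^[i] (.inl x)) ∈ D p.a' p.b' 3 := by
  obtain ⟨t, tn, ht⟩ := hx
  by_contra hn
  push Not at hn
  have : ∀ i, p.AG i (.inl x) ∧ p.tot p.cg i (.inl x) ≤ t ∧ p.Inv (p.step^[i] (.inl x)) := fun i => by
    induction i with
    | zero => exact ⟨fun _ h => absurd h (by omega), by simp [tot], trivial⟩
    | succ i ih =>
      obtain ⟨G, l, I⟩ := ih
      have nD := hn i G (by omega)
      have g := p.good I nD
      refine ⟨fun j hj => (Nat.lt_succ_iff_lt_or_eq.1 hj).elim (G j) fun e => e ▸ g, not_lt.1 fun e => nD ?_, ?_⟩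
      · obtain ⟨s, rfl⟩ := Nat.exists_eq_add_of_le' l
        rw [tot_succ] at e
        refine ⟨s, by linarith [cg_le (p := p) (p.step^[i] (.inl x))], ?_⟩
        rwa [← semi (fun σ h => (p.main h).2.2) G, ← Function.iterate_add_apply]
      · rw [Function.iterate_succ_apply']; exact (p.main g).1
  have h1 := (this (5 * t + 3)).2.1
  have h2 := le_tot (p := p) (5 * t + 3) (.inl x)
  have h3 := tot_cmp (p := p) (5 * t + 3) (.inl x)
  omega

end Pr

end Pool.Agent.Lib.Helper21.ABCpl
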