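import Mathlib

/-! The slow `(a,b)`-continued fraction maps, their laps and their entropy. -/

set_option autoImplicit false

namespace Pool.Agent.Lib.Helper21.ABDef

open Set Filter Topology

/-- the parameter set `𝒫` -/
def Par (a b : ℝ) : Prop := a ≤ 0 ∧ 0 ≤ b ∧ 1 ≤ b - a ∧ -a * b ≤ 1

/-- the map `f_{a,b}` on `ℝ` (its value at the discontinuity `0` plays no role below) -/
noncomputable def f (a b x : ℝ) : ℝ := if x < a then x + 1 else if x < b then -1 / x else x - 1

/-- the set `D_n` of points whose orbit meets a discontinuity `a`, `0`, `b` before time `n` -/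
def D (a b : ℝ) (n : ℕ) : Set ℝ := {x | ∃ j < n, (f a b)^[j] x ∈ ({a, 0, b} : Set ℝ)}

/-- the number of laps of the `n`-th iterate: the finite set `D_n` cuts the line into `|D_n| + 1` intervals -/
noncomputable def laps (a b : ℝ) (n : ℕ) : ℕ := (D a b n).ncard + 1

/-- `h` is the topological entropy of `f_{a,b}`: `(1/n) log ℓ_n → h` -/
def HasEnt (a b h : ℝ) : Prop := Tendsto (fun n : ℕ => Real.log (laps a b n) / n) atTop (𝓝 h)

lemma fib (a b y : ℝ) : f a b ⁻¹' {y} ⊆ {y - 1, -1 / y, y + 1} := fun x hx => by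
  simp only [mem_preimage, mem_singleton_iff, f] at hx
  subst hx
  split_ifs <;> simp [neg_div]

lemma D_succ (a b : ℝ) (n : ℕ) : D a b (n + 1) = {a, 0, b} ∪ f a b ⁻¹' D a b n := by
  ext x
  constructor
  · rintro ⟨j, hj, h⟩
    cases j with
    | zero => exact Or.inl h
    | succ j => exact Or.inr ⟨j, by omega, h⟩
  · rintro (h | ⟨j, hj, h⟩)
    · exact ⟨0, by omega, h⟩
    · exact ⟨j + 1, by omega, h⟩

/-- the sets `D_n` are finite -/
lemma D_finite (a b : ℝ) (n : ℕ) : (D a b n).Finite := by
  induction n with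
  | zero => simp [D]
  | succ n ih => exact D_succ a b n ▸ (toFinite _).union (ih.preimage' fun y _ => (toFinite _).subset (fib a b y))

end Pool.Agent.Lib.Helper21.ABDef
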