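import Pool.Agent.Lib.helper21.ABDef

/-! Lap counting and simulation for the `(a,b)`-continued fraction maps. -/

set_option autoImplicit false

namespace Pool.Agent.Lib.Helper21.ABEnt

open Set Filter Topology Pool.Agent.Lib.Helper21.ABDef

variable {a b a' b' h h' : ℝ}

lemma fT {x : ℝ} (h : x < a) : f a b x = x + 1 := if_pos h
lemma fS {x : ℝ} (h : a ≤ x) (h' : x < b) : f a b x = -1 / x := by rw [f, if_neg h.not_gt, if_pos h']
lemma fU {x : ℝ} (h : a ≤ x) (h' : b ≤ x) : f a b x = x - 1 := by rw [f, if_neg h.not_gt, if_neg h'.not_gt]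

lemma D_mono {m n : ℕ} (h : m ≤ n) : D a b m ⊆ D a b n := fun _ ⟨j, hj, e⟩ => ⟨j, hj.trans_le h, e⟩

lemma laps_mono {m n : ℕ} (h : m ≤ n) : laps a b m ≤ laps a b n :=
  Nat.succ_le_succ (ncard_le_ncard (D_mono h) (D_finite ..))

lemma mono_lap (n : ℕ) : ∀ x x', x < x' → (∀ r ∈ Icc x x', r ∉ D a b n) → (f a b)^[n] x < (f a b)^[n] x' := by
  induction n with
  | zero => exact fun x x' h _ => h
  | succ n ih =>
    intro x x' h H
    rw [D_succ] at H
    have out : ∀ d ∈ ({a, 0, b} : Set ℝ), x' < d ∨ d < x := fun d hd => by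
      by_contra e
      push Not at e
      exact H d ⟨e.2, e.1⟩ (Or.inl hd)
    suffices f a b x < f a b x' ∧ ∀ r ∈ Icc (f a b x) (f a b x'), ∃ s ∈ Icc x x', f a b s = r by
      refine ih _ _ this.1 fun r hr hD => ?_
      obtain ⟨s, hs, rfl⟩ := this.2 r hr
      exact H s hs (Or.inr hD)
    rcases out a (by simp) with ha | ha
    · rw [fT ha, fT (h.trans ha)]
      exact ⟨by linarith, fun r hr => ⟨r - 1, ⟨by linarith [hr.1], by linarith [hr.2]⟩,
        by rw [fT (by linarith [hr.2])]; ring⟩⟩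
    rcases out b (by simp) with hb | hb
    · rw [fS ha.le (h.trans hb), fS (ha.trans h).le hb]
      have key : ∀ r ∈ Icc (-1 / x) (-1 / x'), -1 / r ∈ Icc x x' → ∃ s ∈ Icc x x', f a b s = r := fun r _ hs =>
        ⟨_, hs, by rw [fS (ha.le.trans hs.1) (hs.2.trans_lt hb)]; simp [neg_div]⟩
      rcases out 0 (by simp) with h0 | h0
      · have hx : x < 0 := h.trans h0
        refine ⟨by rw [neg_div, neg_div]; exact neg_lt_neg ((one_div_lt_one_div_of_neg h0 hx).2 h), fun r hr => key r hr ?_⟩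
        have r0 : 0 < r := (div_pos_of_neg_of_neg (by norm_num) hx).trans_le hr.1
        have h1 := (div_le_iff_of_neg hx).1 hr.1
        have h2 := (le_div_iff_of_neg h0).1 hr.2
        exact ⟨(le_div_iff₀ r0).2 (by linarith), (div_le_iff₀ r0).2 (by linarith)⟩
      · have hx : 0 < x' := h0.trans h
        refine ⟨by rw [div_lt_div_iff₀ h0 hx]; linarith, fun r hr => key r hr ?_⟩
        have r0 : r < 0 := hr.2.trans_lt (div_neg_of_neg_of_pos (by norm_num) hx)
        have h1 := (div_le_iff₀ h0).1 hr.1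
        have h2 := (le_div_iff₀ hx).1 hr.2
        exact ⟨(le_div_iff_of_neg r0).2 (by linarith), (div_le_iff_of_neg r0).2 (by linarith)⟩
    · rw [fU ha.le hb.le, fU (ha.trans h).le (hb.trans h).le]
      exact ⟨by linarith, fun r hr => ⟨r + 1, ⟨by linarith [hr.1], by linarith [hr.2]⟩,
        by rw [fU (by linarith [hr.1]) (by linarith [hr.1])]; ring⟩⟩

/-- points off `D_n` with a given image -/
def Fib (a b : ℝ) (n : ℕ) (z : ℝ) : Set ℝ := {x | x ∉ D a b n ∧ (f a b)^[n] x = z}

lemma fib_inj (n : ℕ) (z : ℝ) : InjOn (fun x => (D a b n ∩ Iio x).ncard) (Fib a b n z) := by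
  suffices ∀ x ∈ Fib a b n z, ∀ x' ∈ Fib a b n z, x < x' → (D a b n ∩ Iio x).ncard < (D a b n ∩ Iio x').ncard by
    intro x hx x' hx' e
    rcases lt_trichotomy x x' with l | l | l
    · exact absurd e (this x hx x' hx' l).ne
    · exact l
    · exact absurd e (this x' hx' x hx l).ne'
  intro x hx x' hx' l
  by_contra e
  refine (mono_lap n x x' l fun r hr hD => e ?_).ne (hx.2.trans hx'.2.symm)
  refine ncard_lt_ncard ⟨inter_subset_inter_right _ (Iio_subset_Iio l.le), fun s => ?_⟩ ((D_finite ..).inter_of_left _)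
  exact (s ⟨hD, hr.2.lt_of_ne fun e => hx'.1 (e ▸ hD)⟩).2.not_ge hr.1

lemma fib_maps (n : ℕ) (z : ℝ) : ∀ x ∈ Fib a b n z, (D a b n ∩ Iio x).ncard ∈ Iic (D a b n).ncard := fun _ _ =>
  ncard_le_ncard inter_subset_left (D_finite ..)

lemma fib_fin (n : ℕ) (z : ℝ) : (Fib a b n z).Finite :=
  Finite.of_injOn (fib_maps n z) (fib_inj n z) (finite_Iic _)

lemma fib_le (n : ℕ) (z : ℝ) : (Fib a b n z).ncard ≤ laps a b n := by
  simpa [laps, ← Finset.coe_Iic] using ncard_le_ncard_of_injOn _ (fib_maps n z) (fib_inj n z) (finite_Iic _)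

lemma ncard_bU {α β : Type*} {Z : Set α} (hZ : Z.Finite) (S : α → Set β) {c : ℕ} (h : ∀ z, (S z).ncard ≤ c) :
    (⋃ z ∈ Z, S z).ncard ≤ Z.ncard * c := by
  induction Z, hZ using Finite.induction_on with
  | empty => simp
  | insert hz hZ ih =>
    rw [biUnion_insert, ncard_insert_of_notMem hz hZ]
    refine (ncard_union_le _ _).trans ?_
    linarith [h ‹_›]

lemma submul (m n : ℕ) : laps a b (m + n) ≤ laps a b m * laps a b n := by
  have : D a b (m + n) ⊆ D a b m ∪ ⋃ z ∈ D a b n, Fib a b m z := by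
    rintro x ⟨j, hj, e⟩
    by_cases hx : x ∈ D a b m
    · exact Or.inl hx
    · obtain ⟨i, rfl⟩ := Nat.exists_eq_add_of_le' (not_lt.1 fun l => hx ⟨j, l, e⟩)
      exact Or.inr (mem_biUnion (x := (f a b)^[m] x) ⟨i, by omega, by rwa [← Function.iterate_add_apply]⟩ ⟨hx, rfl⟩)
  have h1 := ncard_le_ncard this ((D_finite ..).union ((D_finite ..).biUnion fun z _ => fib_fin m z))
  have h2 := ncard_union_le (D a b m) (⋃ z ∈ D a b n, Fib a b m z)
  have h3 := ncard_bU (D_finite a b n) _ (fib_le (a := a) (b := b) m)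
  unfold laps at *
  nlinarith

lemma laps_pos (n : ℕ) : (0 : ℝ) < laps a b n := by unfold laps; positivity

lemma exists_ent (a b : ℝ) : ∃ h, HasEnt a b h := by
  have : Subadditive fun n => Real.log (laps a b n) := fun m n => by
    rw [← Real.log_mul (laps_pos m).ne' (laps_pos n).ne']
    exact Real.log_le_log (laps_pos _) (by exact_mod_cast submul m n)
  exact ⟨_, this.tendsto_lim ⟨0, by rintro _ ⟨n, rfl⟩; exact div_nonneg (Real.log_natCast_nonneg _) n.cast_nonneg⟩⟩

lemma lim_le {u v : ℕ → ℝ} (hu : ∀ n, 0 < u n) (hv : ∀ n, 0 < v n) {C : ℝ} (H : ∀ n, u n ≤ C * (n + 1) * v n)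
    (tu : Tendsto (fun n : ℕ => Real.log (u n) / n) atTop (𝓝 h))
    (tv : Tendsto (fun n : ℕ => Real.log (v n) / n) atTop (𝓝 h')) : h ≤ h' := by
  have C0 : 0 < C := by
    have := (hu 0).trans_le (H 0)
    simpa [hv 0] using this
  have t1 : Tendsto (fun n : ℕ => Real.log (n + 1) / n) atTop (𝓝 0) := by
    have := (Real.tendsto_pow_log_div_mul_add_atTop 1 (-1) 1 one_ne_zero).comp
      (tendsto_atTop_add_const_right _ 1 (tendsto_natCast_atTop_atTop (R := ℝ)))
    simpa [Function.comp_def] using this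
  have t2 := ((tendsto_const_div_atTop_nhds_zero_nat (Real.log C)).add t1).add tv
  simp only [zero_add] at t2
  refine le_of_tendsto_of_tendsto' tu t2 fun n => ?_
  rw [← add_div, ← add_div, ← Real.log_mul C0.ne' (by positivity), ← Real.log_mul (by positivity) (hv n).ne']
  exact div_le_div_of_nonneg_right (Real.log_le_log (hu n) (H n)) n.cast_nonneg

lemma lim_pow (l : ℝ) : Tendsto (fun n : ℕ => Real.log (l ^ n) / n) atTop (𝓝 (Real.log l)) :=
  tendsto_const_nhds.congr' <| (eventually_ne_atTop 0).mono fun n hn => by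
    have : (n : ℝ) ≠ 0 := by exact_mod_cast hn
    simp only [Real.log_pow]; field_simp

lemma sim (R : ℕ → ℝ → ℝ → Prop) (h0 : ∀ x, R 0 x x)
    (st : ∀ k y z, R k y z → y ∉ ({a, 0, b} : Set ℝ) → ∃ m k', m + k' ≤ k + 1 ∧ R k' (f a b y) ((f a' b')^[m] z))
    (fin : ∀ y, {z | ∃ k, R k y z}.Finite) (H : HasEnt a b h) (H' : HasEnt a' b' h') : h ≤ h' := by
  set Z := ⋃ y ∈ ({a, 0, b} : Set ℝ), {z | ∃ k, R k y z}
  have hZ : Z.Finite := (toFinite _).biUnion fun y _ => fin y
  have key : ∀ j x, x ∉ D a b j → ∃ t k, t + k ≤ j ∧ R k ((f a b)^[j] x) ((f a' b')^[t] x) := fun j x => by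
    induction j with
    | zero => exact fun _ => ⟨0, 0, le_rfl, h0 x⟩
    | succ j ih =>
      intro hx
      obtain ⟨t, k, l, r⟩ := ih fun e => hx (D_mono j.le_succ e)
      obtain ⟨m, k', l', r'⟩ := st _ _ _ r fun e => hx ⟨j, j.lt_succ_self, e⟩
      exact ⟨m + t, k', by omega, by rwa [Function.iterate_succ_apply', Function.iterate_add_apply]⟩
  refine lim_le laps_pos laps_pos (C := Z.ncard + 1) (fun n => ?_) H H'
  have : D a b n ⊆ D a' b' n ∪ ⋃ t ∈ Iio n, ⋃ z ∈ Z, Fib a' b' t z ∩ {x | t ≤ n} := by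
    classical
    intro x hx
    have hj := Nat.find_spec hx
    obtain ⟨t, k, l, r⟩ := key (Nat.find hx) x fun ⟨j, lj, e⟩ => Nat.find_min hx lj ⟨lj.trans hj.1, e⟩
    have tn : t < n := by omega
    by_cases e : x ∈ D a' b' n
    · exact Or.inl e
    · exact Or.inr (mem_biUnion tn (mem_biUnion (mem_biUnion hj.2 ⟨k, r⟩) ⟨⟨fun e' => e (D_mono tn.le e'), rfl⟩, tn.le⟩))
  have h1 := ncard_le_ncard this ((D_finite ..).union ((finite_Iio n).biUnion fun t _ =>
    hZ.biUnion fun z _ => (fib_fin t z).inter_of_left _))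
  have h2 := ncard_union_le (D a' b' n) (⋃ t ∈ Iio n, ⋃ z ∈ Z, Fib a' b' t z ∩ {x | t ≤ n})
  have h3 := ncard_bU (finite_Iio n) (fun t => ⋃ z ∈ Z, Fib a' b' t z ∩ {x | t ≤ n}) fun t =>
    ncard_bU hZ _ (c := laps a' b' n) fun z => by
      by_cases e : t ≤ n
      · exact (ncard_le_ncard inter_subset_left (fib_fin t z)).trans ((fib_le t z).trans (laps_mono e))
      · simp [e]
  rw [← Finset.coe_Iio, ncard_coe_finset, Nat.card_Iio, Finset.coe_Iio] at h3
  have : laps a b n ≤ (Z.ncard + 1) * (n + 1) * laps a' b' n := by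
    unfold laps at *
    nlinarith [Nat.zero_le (Z.ncard * (D a' b' n).ncard), Nat.zero_le (n * (D a' b' n).ncard)]
  exact_mod_cast this

lemma D_neg (hab : a ≤ b) (n : ℕ) : ∀ x, -x ∈ D (-b) (-a) n ↔ x ∈ D a b n := by
  induction n with
  | zero => simp [D]
  | succ n ih =>
    intro x
    rw [D_succ, D_succ]
    by_cases e : x ∈ ({a, 0, b} : Set ℝ)
    · exact iff_of_true (Or.inl (by rcases e with rfl | rfl | rfl <;> simp)) (Or.inl e)
    · have e' : -x ∉ ({-b, 0, -a} : Set ℝ) := by simp at e ⊢; tauto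
      simp only [mem_union, e, e', false_or, mem_preimage]
      rw [← ih]
      simp only [mem_insert_iff, mem_singleton_iff, not_or] at e
      rcases lt_or_gt_of_ne e.1 with c | c
      · rw [fT c, fU (by linarith) (by linarith)]; ring_nf
      rcases lt_or_gt_of_ne e.2.2 with d | d
      · rw [fS c.le d, fS (by linarith) (by linarith)]; ring_nf
      · rw [fU c.le d.le, fT (by linarith)]; ring_nf

lemma neg_ent (P : Par a b) (H : HasEnt a b h) : HasEnt (-b) (-a) h := by
  refine H.congr fun n => ?_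
  have : D a b n = Neg.neg ⁻¹' D (-b) (-a) n := ext fun x => (D_neg (P.1.trans P.2.1) n x).symm
  rw [laps, laps, this, ncard_preimage_of_injective_subset_range neg_injective (by simp)]

lemma neg_par (P : Par a b) : Par (-b) (-a) := ⟨by linarith [P.2.1], by linarith [P.1], by linarith [P.2.2.1],
  by linarith [P.2.2.2]⟩

/-- the coupling of two maps -/
def Cp (b a' : ℝ) (k : ℕ) (y z : ℝ) : Prop :=
  z = y ∨ (-1 < y ∧ b - 1 ≤ y ∧ z = -1 / (y + 1) ∧ z < a' ∧ (0 ≤ y → 2 ≤ k)) ∨
    (1 < y ∧ b + 1 ≤ y ∧ z = -1 / (y - 1)) ∨ (0 < y ∧ b ≤ y ∧ z = -1 / y ∧ z < a' ∧ 1 ≤ k)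

lemma mono (P : Par a b) (P' : Par a' b') (ha : a ≤ a') (ha' : a' ≤ -1 / 2) (hb : b ≤ b') (hb' : b' ≤ 1)
    (H : HasEnt a b h) (H' : HasEnt a' b' h') : h ≤ h' := by
  obtain ⟨-, p2, p3, p4⟩ := P
  obtain ⟨-, q2, q3, q4⟩ := P'
  refine sim (Cp b a') (fun _ => Or.inl rfl) (fun k y z r hy => ?_) (fun y => ?_) H H'
  · have y0 : y ≠ 0 := fun e => hy (by simp [e])
    rcases r with rfl | ⟨r1, r2, rfl, r4, r5⟩ | ⟨r1, r2, rfl⟩ | ⟨r1, r2, rfl, r4, r5⟩
    · rcases lt_or_ge z a with c | c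
      · exact ⟨1, k, by omega, Or.inl (by rw [fT c]; exact fT (by linarith))⟩
      rcases lt_or_ge z a' with c' | c'
      · have : z < 0 := by linarith
        refine ⟨0, k + 1, by omega, Or.inr (Or.inr (Or.inr ?_))⟩
        rw [fS c (by linarith)]
        exact ⟨div_pos_of_neg_of_neg (by norm_num) this, (le_div_iff_of_neg this).2 (by nlinarith),
          by simp [neg_div], c', by omega⟩
      rcases lt_or_ge z b with d | d
      · exact ⟨1, k, by omega, Or.inl (by rw [fS c d]; exact fS c' (by linarith))⟩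
      rcases lt_or_ge z b' with d' | d'
      · have : 0 < z := (p2.trans d).lt_of_ne' y0
        refine ⟨1, k, by omega, Or.inr (Or.inl ?_)⟩
        rw [fU c d, Function.iterate_one, fS c' d']
        exact ⟨by linarith, by linarith, by simp, (div_lt_iff₀ this).2 (by nlinarith), fun _ => by linarith⟩
      · exact ⟨1, k, by omega, Or.inl (by rw [fU c d]; exact fU c' d')⟩
    · have y1 : 0 < y + 1 := by linarith
      have e1 : -1 / (y + 1) + 1 = y / (y + 1) := by field_simp; ring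
      rcases lt_or_ge y 0 with c | c
      · refine ⟨1, k, by omega, Or.inr (Or.inr (Or.inl ?_))⟩
        rw [fS (by linarith) (by linarith), Function.iterate_one, fT r4]
        refine ⟨(lt_div_iff_of_neg c).2 (by linarith), (le_div_iff_of_neg c).2 (by nlinarith), ?_⟩
        have : -1 / y - 1 = -(y + 1) / y := by field_simp; ring
        rw [this]; field_simp; ring
      · have c' : 0 < y := c.lt_of_ne' y0
        have g3 : (f a' b')^[3] (-1 / (y + 1)) = -1 / y := by
          have e2 : -1 / (y / (y + 1)) = -1 / y - 1 := by field_simp; ring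
          have : -1 / (y + 1) > -1 := (lt_div_iff₀ y1).2 (by linarith)
          have : -1 / y < 0 := div_neg_of_neg_of_pos (by norm_num) c'
          have : 0 < y / (y + 1) := by positivity
          simp only [Function.iterate_succ_apply', Function.iterate_zero_apply]
          rw [fT r4, e1, fS (x := y / (y + 1)) (by linarith) (by linarith), e2, fT (by linarith)]
          ring
        have := r5 c
        rcases lt_or_ge y b with d | d
        · exact ⟨3, 0, by omega, Or.inl (by rw [g3, fS (by linarith) d])⟩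
        · have y2 : y < 1 := by
            have := (div_lt_iff₀ y1).1 (r4.trans_le ha')
            linarith
          have : -1 / (y + 1) > -1 := (lt_div_iff₀ y1).2 (by linarith)
          refine ⟨3, 0, by omega, Or.inr (Or.inl ?_)⟩
          rw [g3, fU (by linarith) d]
          exact ⟨by linarith, by linarith, by simp, (div_lt_iff₀ c').2 (by nlinarith), fun _ => by linarith⟩
    · rw [fU (by linarith) (by linarith)]
      have : -1 / (y - 1) < 0 := div_neg_of_neg_of_pos (by norm_num) (by linarith)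
      rcases lt_or_ge (-1 / (y - 1)) a' with c | c
      · exact ⟨0, k + 1, by omega, Or.inr (Or.inr (Or.inr ⟨by linarith, by linarith, rfl, c, by omega⟩))⟩
      · exact ⟨1, k, by omega, Or.inl (by rw [Function.iterate_one, fS c (by linarith)]; simp [neg_div])⟩
    · rw [fU (by linarith) r2]
      exact ⟨0, k + 1, by omega, Or.inr (Or.inl ⟨by linarith, by linarith, by simp, r4, fun _ => by omega⟩)⟩
  · refine (toFinite {y, -1 / (y + 1), -1 / (y - 1), -1 / y}).subset ?_
    rintro z ⟨k, rfl | ⟨-, -, rfl, -⟩ | ⟨-, -, rfl⟩ | ⟨-, -, rfl, -⟩⟩ <;> simp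

lemma plateau (hb : 0 ≤ b) (hb' : b ≤ 1) (ha : -1 ≤ a) (ha' : a ≤ -1 / (b + 1))
    (H : HasEnt a b h) (H' : HasEnt (-1) b h') : h ≤ h' := by
  have b1 : 0 < b + 1 := by linarith
  have a1 : a * (b + 1) ≤ -1 := (le_div_iff₀ b1).1 ha'
  have a0 : a < 0 := by nlinarith
  refine sim (fun k y z => z = y ∨ (-1 ≤ z ∧ z < a ∧ z = y - 1 ∧ 1 ≤ k) ∨
    (-1 < z ∧ z < a ∧ y = -1 / (z + 1) ∧ z = -1 / y - 1 ∧ 2 ≤ k)) (fun _ => Or.inl rfl) (fun k y z r hy => ?_)
    (fun y => ?_) H H'
  · have y0 : y ≠ 0 := fun e => hy (by simp [e])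
    rcases r with rfl | ⟨r1, r2, rfl, r4⟩ | ⟨r1, r2, rfl, -, r4⟩
    · rcases lt_or_ge z (-1) with c | c
      · exact ⟨1, k, by omega, Or.inl (by rw [fT (c.trans_le ha)]; exact fT c)⟩
      rcases lt_or_ge z a with c' | c'
      · exact ⟨0, k + 1, by omega, Or.inr (Or.inl ⟨c, c', by rw [fT c']; simp, by omega⟩)⟩
      rcases lt_or_ge z b with d | d
      · exact ⟨1, k, by omega, Or.inl (by rw [fS c' d]; exact fS c d)⟩
      · exact ⟨1, k, by omega, Or.inl (by rw [fU c' d]; exact fU c d)⟩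
    · have : 0 < y := (by linarith : 0 ≤ y).lt_of_ne' y0
      refine ⟨0, k + 1, by omega, Or.inr (Or.inr ?_)⟩
      rw [fS (by linarith) (by nlinarith)]
      exact ⟨by simpa using this, r2, by simp, by simp [neg_div], by omega⟩
    · have z0 : z < 0 := by linarith
      have z1 : 0 < z + 1 := by linarith
      have u1 : 1 < -1 / z := (lt_div_iff_of_neg z0).2 (by linarith)
      have u2 : -1 / z < b + 1 := (div_lt_iff_of_neg z0).2 (by nlinarith)
      have u3 : -1 / (z + 1) < -1 := (div_lt_iff₀ z1).2 (by linarith)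
      refine ⟨3, 0, by omega, Or.inl ?_⟩
      simp only [Function.iterate_succ_apply', Function.iterate_zero_apply]
      rw [fS r1.le (by linarith), fU (x := -1 / z) (by linarith) (by linarith),
        fS (x := -1 / z - 1) (by linarith) (by linarith), fT (by linarith)]
      have : -1 / z - 1 = -(z + 1) / z := by field_simp [z0.ne]; ring
      rw [this]; field_simp [z0.ne]; ring
  · refine (toFinite {y, y - 1, -1 / y - 1}).subset ?_
    rintro z ⟨k, rfl | ⟨-, -, rfl, -⟩ | ⟨-, -, -, rfl, -⟩⟩ <;> simp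

lemma upper (H : HasEnt (-1) 1 h) : h ≤ Real.log ((1 + √5) / 2) := by
  set φ := (1 + √5) / 2
  have s5 : √5 ^ 2 = 5 := Real.sq_sqrt (by norm_num)
  have s5' : 1 ≤ √5 := Real.one_le_sqrt.2 (by norm_num)
  have φ1 : 1 ≤ φ := by unfold φ; linarith
  have φ2 : φ ^ 2 = φ + 1 := by unfold φ; nlinarith
  let σ : ℝ → ℝ := fun y => if y < 0 then y - 1 else y + 1
  have hσ : ∀ x, x < -1 ∨ 1 < x → σ (f (-1) 1 x) = x := by
    rintro x (c | c)
    · rw [fT c]; simp only [σ]; rw [if_pos (by linarith)]; ring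
    · rw [fU (by linarith) c.le]; simp only [σ]; rw [if_neg (by linarith)]; ring
  have rc : ∀ n, laps (-1) 1 (n + 2) ≤ laps (-1) 1 (n + 1) + laps (-1) 1 n + 2 := fun n => by
    have : D (-1) 1 (n + 2) ⊆ {-1, 0, 1} ∪ (σ '' D (-1) 1 (n + 1) ∪ (fun y => -1 / σ y) '' D (-1) 1 n) := by
      intro x hx
      rw [D_succ] at hx
      by_cases e : x ∈ ({-1, 0, 1} : Set ℝ)
      · exact Or.inl e
      have hx := hx.resolve_left e
      simp only [mem_insert_iff, mem_singleton_iff, not_or] at e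
      by_cases c : x < -1 ∨ 1 < x
      · exact Or.inr (Or.inl ⟨_, hx, hσ x c⟩)
      push Not at c
      have c1 := c.1.lt_of_ne' e.1
      have c2 := c.2.lt_of_ne e.2.2
      rw [mem_preimage, fS c.1 c2, D_succ] at hx
      have big : -1 / x < -1 ∨ 1 < -1 / x := (lt_or_gt_of_ne e.2.1).symm.imp
        (fun p => (div_lt_iff₀ p).2 (by linarith)) fun p => (lt_div_iff_of_neg p).2 (by linarith)
      refine Or.inr (Or.inr ⟨_, hx.resolve_left ?_, by simp only [hσ _ big]; simp [neg_div]⟩)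
      rintro (p | p | p) <;> rcases big with q | q <;> rw [p] at q <;> norm_num at q
    have h1 := ncard_le_ncard this ((toFinite _).union (((D_finite ..).image _).union ((D_finite ..).image _)))
    have h2 := ncard_union_le ({-1, 0, 1} : Set ℝ) (σ '' D (-1) 1 (n + 1) ∪ (fun y => -1 / σ y) '' D (-1) 1 n)
    have h3 := ncard_union_le (σ '' D (-1) 1 (n + 1)) ((fun y => -1 / σ y) '' D (-1) 1 n)
    have h4 := ncard_image_le (f := σ) (D_finite (-1) 1 (n + 1))
    have h5 := ncard_image_le (f := fun y => -1 / σ y) (D_finite (-1) 1 n)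
    have h6 : ({-1, 0, 1} : Set ℝ).ncard ≤ 3 := (ncard_insert_le ..).trans (Nat.succ_le_succ
      ((ncard_insert_le ..).trans (by simp)))
    unfold laps
    omega
  set C : ℝ := laps (-1) 1 1 + 2
  have bd : ∀ n, laps (-1) 1 n + 2 ≤ C * φ ^ n := fun n => by
    induction n using Nat.twoStepInduction with
    | zero => simpa [C] using laps_mono (Nat.zero_le 1)
    | one => simpa using le_mul_of_one_le_right (by positivity) φ1
    | more n h1 h2 =>
      have : (laps (-1) 1 (n + 2) : ℝ) ≤ laps (-1) 1 (n + 1) + laps (-1) 1 n + 2 := by exact_mod_cast rc n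
      have e : C * φ ^ (n + 2) = C * φ ^ (n + 1) + C * φ ^ n := by rw [pow_add, φ2]; ring
      linarith
  refine lim_le laps_pos (fun n => by positivity) (C := C) (fun n => ?_) H (lim_pow φ)
  have : 0 ≤ C * n * φ ^ n := by positivity
  linarith [bd n]

lemma lower {κ : ℝ} (hκ : κ ^ 3 - κ ^ 2 - 1 = 0) (ha : a ≤ -1) (H : HasEnt a 0 h) : Real.log κ ≤ h := by
  have κ1 : 1 ≤ κ := by nlinarith [sq_nonneg κ]
  let c : ℕ → ℕ := fun n => (D a 0 n ∩ Ici 1).ncard
  have up : ∀ n y, 0 ≤ y → y ∈ D a 0 n → y + 1 ∈ D a 0 (n + 1) := fun n y y0 hy => by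
    rw [D_succ]; right; rw [mem_preimage, fU (by linarith) (by linarith)]; simpa using hy
  have rc : ∀ n, c (n + 2) + c n ≤ c (n + 3) := fun n => by
    have i1 : Function.Injective fun y : ℝ => y + 1 := add_left_injective 1
    have i2 : Function.Injective fun y : ℝ => -y⁻¹ + 1 + 1 := fun _ _ e => by simpa using e
    simp only [c]
    rw [← ncard_image_of_injective _ i1, ← ncard_image_of_injective (D a 0 n ∩ Ici 1) i2, ← ncard_union_eq _
      (((D_finite ..).inter_of_left _).image _) (((D_finite ..).inter_of_left _).image _)]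
    · refine ncard_le_ncard ?_ ((D_finite ..).inter_of_left _)
      rintro _ (⟨y, ⟨h1, h2 : 1 ≤ y⟩, rfl⟩ | ⟨y, ⟨h1, h2 : 1 ≤ y⟩, rfl⟩)
      · exact ⟨up _ _ (by linarith) h1, show 1 ≤ y + 1 by linarith⟩
      · have u : y⁻¹ ≤ 1 := inv_le_one_of_one_le₀ h2
        have v : 0 < y⁻¹ := by positivity
        refine ⟨up _ _ (by linarith) ?_, show 1 ≤ -y⁻¹ + 1 + 1 by linarith⟩
        rw [D_succ]; right; rw [mem_preimage, fU (by linarith) (by linarith), add_sub_cancel_right, D_succ]
        right; rw [mem_preimage, fS (by linarith) (by linarith)]; simpa using h1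
    · rw [disjoint_left]
      rintro _ ⟨y, ⟨-, h2 : 1 ≤ y⟩, rfl⟩ ⟨z, ⟨-, h3 : 1 ≤ z⟩, e⟩
      have v : 0 < z⁻¹ := by positivity
      simp only at e
      linarith
  have c1 : ∀ n, 1 ≤ c (n + 2) := fun n => (ncard_pos ((D_finite ..).inter_of_left _)).2
    ⟨1, ⟨1, by omega, by rw [Function.iterate_one, fU (by linarith) (by norm_num)]; simp⟩, le_refl (1 : ℝ)⟩
  have bd : ∀ n, κ ^ n ≤ κ ^ 2 * c (n + 2) := fun n => by
    induction n using Nat.strong_induction_on with
    | _ n ih =>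
      rcases lt_or_ge n 3 with l | l
      · have : (1 : ℝ) ≤ c (n + 2) := by exact_mod_cast c1 n
        exact (pow_le_pow_right₀ κ1 (by omega)).trans (le_mul_of_one_le_right (by positivity) this)
      · obtain ⟨n, rfl⟩ := Nat.exists_eq_add_of_le' l
        have : (c (n + 2 + 2) : ℝ) + c (n + 2) ≤ c (n + 3 + 2) := by exact_mod_cast rc (n + 2)
        have e : κ ^ (n + 3) = κ ^ (n + 2) + κ ^ n := by rw [pow_add, pow_add, ← mul_add_one]; congr 1; linarith
        nlinarith [ih (n + 2) (by omega), ih n (by omega), sq_nonneg κ]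
  refine lim_le (fun n => by positivity) laps_pos (C := κ ^ 2 * laps a 0 2) (fun n => (bd n).trans ?_) (lim_pow κ) H
  have : c (n + 2) ≤ laps a 0 2 * (n + 1) * laps a 0 n := by
    have h1 : c (n + 2) ≤ laps a 0 (n + 2) := (ncard_le_ncard inter_subset_left (D_finite ..)).trans (Nat.le_succ _)
    nlinarith [submul (a := a) (b := 0) n 2, Nat.zero_le (laps a 0 2 * n * laps a 0 n)]
  rw [mul_assoc, mul_assoc, ← mul_assoc (laps a 0 2 : ℝ)]
  exact mul_le_mul_of_nonneg_left (by exact_mod_cast this) (by positivity)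

lemma range {κ : ℝ} (hκ : κ ^ 3 - κ ^ 2 - 1 = 0) (P : Par a b) (H : HasEnt a b h) :
    Real.log κ ≤ h ∧ h ≤ Real.log ((1 + √5) / 2) := by
  wlog e : a ≤ -1 / 2 ∧ b ≤ 1 generalizing a b
  · refine this (neg_par P) (neg_ent P H) ?_
    obtain ⟨p1, p2, p3, p4⟩ := P
    rcases not_and_or.1 e with e | e <;> push Not at e <;> constructor <;> nlinarith
  obtain ⟨h1, H1⟩ := exists_ent (min a (-1)) 0
  obtain ⟨h2, H2⟩ := exists_ent (-1 / 2) 1
  obtain ⟨h3, H3⟩ := exists_ent (-1) 1
  have P2 : Par (-1 / 2) 1 := by constructor <;> norm_num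
  have l1 := mono ⟨by simp, le_rfl, by linarith [min_le_right a (-1)], by simp⟩ P (min_le_left ..) e.1 P.2.1 e.2 H1 H
  have l2 := mono P P2 e.1 le_rfl e.2 le_rfl H H2
  have l3 := mono (neg_par P2) (by constructor <;> norm_num) le_rfl (by norm_num) (by norm_num) le_rfl (neg_ent P2 H2) H3
  exact ⟨(lower hκ (min_le_right ..) H1).trans l1, (l2.trans l3).trans (upper H3)⟩

end Pool.Agent.Lib.Helper21.ABEnt
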