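import Pool.Agent.Lib.helper21.ABCont

/-! Continuity of the entropy of the `(a,b)`-continued fraction maps and its extreme values. -/

set_option autoImplicit false

namespace Pool.Agent.Lib.Helper21.ABFin

open Set Filter Topology Pool.Agent.Lib.Helper21.ABDef Pool.Agent.Lib.Helper21.ABEnt
  Pool.Agent.Lib.Helper21.ABCpl Pool.Agent.Lib.Helper21.ABCont

/-- the entropy -/
noncomputable def ent (p : ℝ × ℝ) : ℝ := (exists_ent p.1 p.2).choose

lemma hent (a b : ℝ) : HasEnt a b (ent (a, b)) := (exists_ent a b).choose_spec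

lemma par_max {a b a' b' : ℝ} (P : Par a b) (P' : Par a' b') : Par (max a a') (max b b') := by
  obtain ⟨p1, p2, p3, p4⟩ := P
  obtain ⟨q1, q2, q3, q4⟩ := P'
  rcases le_total a a' with h | h <;> rcases le_total b b' with h' | h' <;>
    simp only [max_eq_left, max_eq_right, h, h'] <;> refine ⟨?_, ?_, ?_, ?_⟩ <;> nlinarith

lemma par_min {a b a' b' : ℝ} (P : Par a b) (P' : Par a' b') : Par (min a a') (min b b') := by
  obtain ⟨p1, p2, p3, p4⟩ := P
  obtain ⟨q1, q2, q3, q4⟩ := P'
  rcases le_total a a' with h | h <;> rcases le_total b b' with h' | h' <;>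
    simp only [min_eq_left, min_eq_right, h, h'] <;> refine ⟨?_, ?_, ?_, ?_⟩ <;> nlinarith

lemma cont1 : ContinuousOn ent {p | Par p.1 p.2 ∧ p.1 ≤ -1 / 2 ∧ p.2 ≤ 1} := by
  rintro ⟨a, b⟩ ⟨P, ha, hb⟩
  refine Metric.continuousWithinAt_iff.2 fun η η0 => ?_
  obtain ⟨M, hM⟩ := exists_nat_gt ((ent (a, b) + 1) / η)
  have nn : ∀ a b, 0 ≤ ent (a, b) := fun a b =>
    ge_of_tendsto' (hent a b) fun n => div_nonneg (Real.log_natCast_nonneg _) n.cast_nonneg
  have M0 : (0 : ℝ) < M := lt_trans (div_pos (by linarith [nn a b]) η0) hM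
  obtain ⟨ε, ε0, U⟩ := usc P (hent a b) (l := ent (a, b) + η / 2) (by linarith)
  obtain ⟨ε', ε0', V⟩ := lsc P (hent a b) (M := M) (by exact_mod_cast M0)
  refine ⟨min ε ε', lt_min ε0 ε0', ?_⟩
  rintro ⟨c, d⟩ ⟨Q, hc, hd⟩ hd'
  rw [Prod.dist_eq, max_lt_iff, lt_min_iff, lt_min_iff, Real.dist_eq, Real.dist_eq] at hd'
  simp only [abs_lt] at hd' ha hb hc hd P Q
  have u := U ⟨a, b, _, _, P, par_max P Q, le_max_left .., max_le ha hc, le_max_left .., max_le hb hd⟩ rfl rfl
    (max_lt (by linarith) (by linarith)) (max_lt (by linarith) (by linarith)) _ (hent ..)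
  have v := V ⟨_, _, a, b, par_min P Q, P, min_le_left .., ha, min_le_left .., hb⟩ rfl rfl
    (lt_min (by linarith) (by linarith)) (lt_min (by linarith) (by linarith)) _ (hent ..)
  have u' := mono Q (par_max P Q) (le_max_right ..) (max_le ha hc) (le_max_right ..) (max_le hb hd) (hent ..) (hent ..)
  have v' := mono (par_min P Q) Q (min_le_right ..) hc (min_le_right ..) hd (hent ..) (hent ..)
  have v'' := mono (par_min P Q) P (min_le_left ..) ha (min_le_left ..) hb (hent ..) (hent ..)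
  have w : 1 / M * ent (min a c, min b d) < η := by
    rw [div_lt_iff₀ η0] at hM
    rw [one_div_mul_eq_div, div_lt_iff₀ M0]
    linarith
  rw [Real.dist_eq, abs_lt]
  simp only at u v
  constructor <;> linarith

lemma cont : ContinuousOn ent {p | Par p.1 p.2} := by
  have cl : IsClosed {p : ℝ × ℝ | Par p.1 p.2} := by
    unfold Par
    refine .and ?_ (.and ?_ (.and ?_ ?_)) <;> exact isClosed_le (by fun_prop) (by fun_prop)
  have c2 : ContinuousOn ent {p | Par p.1 p.2 ∧ -p.2 ≤ -1 / 2 ∧ -p.1 ≤ 1} :=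
    (cont1.comp (f := fun p : ℝ × ℝ => (-p.2, -p.1)) (by fun_prop) fun p hp => ⟨neg_par hp.1, hp.2⟩).congr
      fun p hp => tendsto_nhds_unique (neg_ent hp.1 (hent ..)) (hent ..)
  refine (cont1.union_of_isClosed c2 (cl.and (.and ?_ ?_)) (cl.and (.and ?_ ?_))).mono ?_
  iterate 4 exact isClosed_le (by fun_prop) (by fun_prop)
  rintro ⟨a, b⟩ P
  by_cases e : a ≤ -1 / 2 ∧ b ≤ 1
  · exact Or.inl ⟨P, e⟩
  · refine Or.inr ⟨P, ?_⟩
    obtain ⟨p1, p2, p3, p4⟩ := P
    rcases not_and_or.1 e with e | e <;> push Not at e <;> constructor <;> nlinarith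

lemma upper' {κ h : ℝ} (hκ : κ ^ 3 - κ ^ 2 - 1 = 0) (H : HasEnt (-1) 0 h) : h ≤ Real.log κ := by
  have κ1 : 1 ≤ κ := by nlinarith [sq_nonneg κ]
  let E : ℕ → Set ℝ := fun n => D (-1) 0 n ∩ Ici 0
  have fE : ∀ n, (E n).Finite := fun n => (D_finite ..).inter_of_left _
  have st : ∀ n x, x ∈ D (-1) 0 (n + 1) → x ≠ -1 → x ≠ 0 → f (-1) 0 x ∈ D (-1) 0 n := fun n x h e e' => by
    rw [D_succ] at h
    exact h.resolve_left (by simp [e, e'])
  have rc : ∀ n, (E (n + 3)).ncard ≤ (E (n + 2)).ncard + (E n).ncard + 1 := fun n => by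
    have : E (n + 3) ⊆ insert 0 ((· + 1) '' E (n + 2) ∪ (fun y => 1 - 1 / (y + 1)) '' E n) := by
      rintro x ⟨hx, x0 : 0 ≤ x⟩
      refine x0.eq_or_lt.imp Eq.symm fun x0' => ?_
      have h1 := st _ x hx (by linarith) x0'.ne'
      rw [fU (by linarith) x0] at h1
      refine (le_or_gt 1 x).imp (fun c => ⟨_, ⟨h1, show 0 ≤ x - 1 by linarith⟩, by simp⟩) fun c => ?_
      have h2 := st _ _ h1 (by linarith) (by linarith)
      rw [fS (by linarith) (by linarith)] at h2
      have : 1 < -1 / (x - 1) := (lt_div_iff_of_neg (by linarith)).2 (by linarith)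
      have h3 := st _ _ h2 (by linarith) (by linarith)
      rw [fU (by linarith) (by linarith)] at h3
      exact ⟨_, ⟨h3, show 0 ≤ -1 / (x - 1) - 1 by linarith⟩, by simp [div_neg]⟩
    have h1 := (ncard_le_ncard this ((((fE _).image _).union ((fE _).image _)).insert _)).trans
      ((ncard_insert_le ..).trans (Nat.succ_le_succ (ncard_union_le ..)))
    have h4 := ncard_image_le (f := (· + 1)) (fE (n + 2))
    have h5 := ncard_image_le (f := fun y => 1 - 1 / (y + 1)) (fE n)
    omega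
  have mE : ∀ {m n}, m ≤ n → (E m).ncard ≤ (E n).ncard := fun h =>
    ncard_le_ncard (inter_subset_inter_left _ (D_mono h)) (fE _)
  have rd : ∀ n, laps (-1) 0 n ≤ (n + 1) * (2 * ((E n).ncard + 1)) := fun n => by
    induction n with
    | zero => simp [laps, D]; omega
    | succ n ih =>
      have : D (-1) 0 (n + 1) ⊆ insert (-1) (E (n + 1) ∪ ((-1 / ·) '' E n ∪ (· - 1) '' D (-1) 0 n)) := fun x hx => by
        refine (eq_or_ne x (-1)).imp_right fun e => (le_or_gt 0 x).imp (fun c => ⟨hx, c⟩) fun c => ?_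
        have h1 := st _ x hx e c.ne
        refine (le_or_gt (-1) x).imp (fun d => ?_) fun d => ⟨_, h1, by simp [fT d]⟩
        rw [fS d c] at h1
        exact ⟨_, ⟨h1, (div_pos_of_neg_of_neg (by norm_num) c).le⟩, by simp [neg_div]⟩
      have h1 := (ncard_le_ncard this (((fE _).union (((fE _).image _).union ((D_finite ..).image _))).insert _)).trans
        ((ncard_insert_le ..).trans (Nat.succ_le_succ ((ncard_union_le ..).trans (add_le_add_right (ncard_union_le ..) _))))
      have h4 := ncard_image_le (f := (-1 / ·)) (fE n)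
      have h5 := ncard_image_le (f := (· - 1)) (D_finite (-1) 0 n)
      have := mE n.le_succ
      unfold laps at *
      nlinarith
  set C : ℝ := (E 2).ncard + 1
  have bd : ∀ n, (E n).ncard + 1 ≤ C * κ ^ n := fun n => by
    induction n using Nat.strong_induction_on with
    | _ n ih =>
      rcases lt_or_ge n 3 with l | l
      · have : ((E n).ncard : ℝ) ≤ (E 2).ncard := by exact_mod_cast mE (by omega)
        exact (add_le_add_left this 1).trans (le_mul_of_one_le_right (by positivity) (one_le_pow₀ κ1))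
      · obtain ⟨n, rfl⟩ := Nat.exists_eq_add_of_le' l
        have : ((E (n + 3)).ncard : ℝ) ≤ (E (n + 2)).ncard + (E n).ncard + 1 := by exact_mod_cast rc n
        have e : κ ^ (n + 3) = κ ^ (n + 2) + κ ^ n := by rw [pow_add, pow_add, ← mul_add_one]; congr 1; linarith
        rw [e]
        linarith [ih (n + 2) (by omega), ih n (by omega)]
  refine lim_le laps_pos (fun n => by positivity) (C := 2 * C) (fun n => ?_) H (lim_pow κ)
  have : (laps (-1) 0 n : ℝ) ≤ (n + 1) * (2 * ((E n).ncard + 1)) := by exact_mod_cast rd n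
  nlinarith [bd n, n.cast_nonneg (α := ℝ)]

lemma lower' {h : ℝ} (H : HasEnt (-1) 1 h) : Real.log ((1 + √5) / 2) ≤ h := by
  set φ := (1 + √5) / 2
  have s5 : √5 ^ 2 = 5 := Real.sq_sqrt (by norm_num)
  have s5' : 1 ≤ √5 := Real.one_le_sqrt.2 (by norm_num)
  have φ1 : 1 ≤ φ := by unfold φ; linarith
  have φ2 : φ ^ 2 = φ + 1 := by unfold φ; nlinarith
  let c : ℕ → ℕ := fun n => (D (-1) 1 n ∩ Ioi 1).ncard
  have up : ∀ n y, 0 ≤ y → y ∈ D (-1) 1 n → y + 1 ∈ D (-1) 1 (n + 1) := fun n y y0 hy => by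
    rw [D_succ]; right; rw [mem_preimage, fU (by linarith) (by linarith)]; simpa using hy
  have rc : ∀ n, c (n + 1) + c n ≤ c (n + 2) := fun n => by
    have i1 : Function.Injective fun y : ℝ => y + 1 := add_left_injective 1
    have i2 : Function.Injective fun y : ℝ => y⁻¹ + 1 := fun _ _ e => by simpa using e
    simp only [c]
    rw [← ncard_image_of_injective _ i1, ← ncard_image_of_injective (D (-1) 1 n ∩ Ioi 1) i2, ← ncard_union_eq _
      (((D_finite ..).inter_of_left _).image _) (((D_finite ..).inter_of_left _).image _)]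
    · refine ncard_le_ncard ?_ ((D_finite ..).inter_of_left _)
      rintro _ (⟨y, ⟨h1, h2 : 1 < y⟩, rfl⟩ | ⟨y, ⟨h1, h2 : 1 < y⟩, rfl⟩)
      · exact ⟨up _ _ (by linarith) h1, show 1 < y + 1 by linarith⟩
      · have u : y⁻¹ < 1 := inv_lt_one_of_one_lt₀ h2
        have v : 0 < y⁻¹ := by positivity
        refine ⟨up _ _ v.le ?_, show 1 < y⁻¹ + 1 by linarith⟩
        rw [D_succ]; right; rw [mem_preimage, fS (by linarith) u]
        simpa using (D_neg (by norm_num) n y).2 h1
    · rw [disjoint_left]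
      rintro _ ⟨y, ⟨-, h2 : 1 < y⟩, rfl⟩ ⟨z, ⟨-, h3 : 1 < z⟩, e⟩
      have u : z⁻¹ < 1 := inv_lt_one_of_one_lt₀ h3
      simp only at e
      linarith
  have c1 : ∀ n, 1 ≤ c (n + 2) := fun n => (ncard_pos ((D_finite ..).inter_of_left _)).2
    ⟨2, ⟨1, by omega, by rw [Function.iterate_one, fU (by norm_num) (by norm_num)]; norm_num⟩, show (1 : ℝ) < 2 by norm_num⟩
  have bd : ∀ n, φ ^ n ≤ φ * c (n + 2) := fun n => by
    induction n using Nat.twoStepInduction with
    | zero => exact one_le_mul_of_one_le_of_one_le φ1 (by exact_mod_cast c1 0)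
    | one => exact (pow_one φ).trans_le (le_mul_of_one_le_right (by positivity) (by exact_mod_cast c1 1))
    | more n h1 h2 =>
      have : (c (n + 1 + 2) : ℝ) + c (n + 2) ≤ c (n + 2 + 2) := by exact_mod_cast rc (n + 2)
      have e : φ ^ (n + 2) = φ ^ (n + 1) + φ ^ n := by rw [pow_add, φ2]; ring
      nlinarith
  refine lim_le (fun n => by positivity) laps_pos (C := φ * laps (-1) 1 2) (fun n => (bd n).trans ?_) (lim_pow φ) H
  have : c (n + 2) ≤ laps (-1) 1 2 * (n + 1) * laps (-1) 1 n := by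
    have h1 : c (n + 2) ≤ laps (-1) 1 (n + 2) := (ncard_le_ncard inter_subset_left (D_finite ..)).trans (Nat.le_succ _)
    nlinarith [submul (a := -1) (b := 1) n 2, Nat.zero_le (laps (-1) 1 2 * n * laps (-1) 1 n)]
  rw [mul_assoc, mul_assoc, ← mul_assoc (laps (-1) 1 2 : ℝ)]
  exact mul_le_mul_of_nonneg_left (by exact_mod_cast this) (by positivity)

end Pool.Agent.Lib.Helper21.ABFin
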