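import Mathlib

set_option maxHeartbeats 400000

open Set Filter Topology

namespace Pool.Agent.Lib.Helper21.ASE1

universe v

variable {X : Type} {Z : Type v} [NormedAddCommGroup X] [NormedSpace ℝ X]
  [NormedAddCommGroup Z] [NormedSpace ℝ Z]

def ASE (T : X →L[ℝ] Z) : Prop :=
  ∃ x₀ : X, ‖x₀‖ = 1 ∧ ∀ x : ℕ → X, (∀ n, ‖x n‖ ≤ 1) →
    Tendsto (fun n => ‖T (x n)‖) atTop (𝓝 ‖T‖) →
    ∃ σ : ℕ → ℕ, StrictMono σ ∧ ∃ l : ℝ, ‖l‖ = 1 ∧
      Tendsto (fun n => x (σ n)) atTop (𝓝 (l • x₀))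

def Exp (x : X) : Prop :=
  ‖x‖ = 1 ∧ ∃ f : X →L[ℝ] ℝ, ‖f‖ ≤ 1 ∧ f x = 1 ∧ ∀ y, ‖y‖ ≤ 1 → f y = 1 → y = x

lemma boost (A : X →L[ℝ] Z) (f : X →L[ℝ] ℝ) (hf : ‖f‖ ≤ 1) (x : X) (fx : f x = 1)
    (hA : 0 < ‖A x‖) {e : ℝ} (he : 0 < e) : ∃ S : X →L[ℝ] Z, ‖S - A‖ ≤ e ∧
      ‖S x‖ = ‖A x‖ + e ∧ ∀ y, ‖S y‖ ≤ ‖A y‖ + e * |f y| := by
  set u := (e * ‖A x‖⁻¹) • A x with hu
  have nu : ‖u‖ = e := by
    rw [hu, norm_smul, Real.norm_of_nonneg (by positivity)]; field_simp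
  refine ⟨A + f.smulRight u, ?_, ?_, fun y => ?_⟩
  · rw [add_sub_cancel_left, ContinuousLinearMap.norm_smulRight_apply, nu]
    exact mul_le_of_le_one_left he.le hf
  · change ‖A x + f x • u‖ = _
    have : A x + f x • u = (1 + e * ‖A x‖⁻¹) • A x := by rw [fx, hu]; module
    rw [this, norm_smul, Real.norm_of_nonneg (by positivity)]; field_simp
  · change ‖A y + f y • u‖ ≤ _
    refine (norm_add_le _ _).trans ?_
    rw [norm_smul, nu, Real.norm_eq_abs, mul_comm]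

variable [FiniteDimensional ℝ X]

lemma fin (A : X →L[ℝ] Z) (x : X) (hx : Exp x) (hA : ‖A x‖ = ‖A‖) (h0 : 0 < ‖A‖) {e : ℝ}
    (he : 0 < e) : ∃ S : X →L[ℝ] Z, ‖S - A‖ ≤ e ∧ ‖S x‖ = ‖S‖ ∧ 0 < ‖S‖ ∧
      ASE (‖S‖⁻¹ • S) := by
  have : ProperSpace X := FiniteDimensional.proper ℝ _
  obtain ⟨n1, f, f1, f2, f3⟩ := hx
  obtain ⟨S, s1, s2, s3⟩ := boost A f f1 x f2 (by rwa [hA]) he
  have fl : ∀ y, |f y| ≤ ‖y‖ := fun y =>
    (f.le_opNorm y).trans (mul_le_of_le_one_left (norm_nonneg _) f1)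
  have a1 : ‖S‖ ≤ ‖A‖ + e := S.opNorm_le_bound (by positivity) fun y => by
    have := A.le_opNorm y
    have := fl y
    have := s3 y
    nlinarith
  have a2 := S.le_opNorm x
  rw [n1, mul_one, s2, hA] at a2
  have a3 : ‖S‖ = ‖A‖ + e := le_antisymm a1 a2
  have a4 : 0 < ‖S‖ := by linarith
  refine ⟨S, s1, by rw [s2, a3, hA], a4, x, n1, fun z hz hl => ?_⟩
  obtain ⟨w, w1, σ, w2, w3⟩ := (isCompact_closedBall (0:X) 1).tendsto_subseq
    (x := z) fun n => mem_closedBall_zero_iff.2 (hz n)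
  have w4 : ‖w‖ ≤ 1 := mem_closedBall_zero_iff.1 w1
  have w5 : ‖(‖S‖⁻¹ • S) w‖ = ‖‖S‖⁻¹ • S‖ :=
    tendsto_nhds_unique (((‖S‖⁻¹ • S).continuous.tendsto _).comp w3).norm
      (hl.comp w2.tendsto_atTop)
  rw [smul_apply, norm_smul, norm_smul] at w5
  have w6 := mul_left_cancel₀ (by rw [norm_inv, norm_norm]; positivity) w5
  have w7 : |f w| = 1 := by
    have b1 := s3 w
    have b2 := (A.le_opNorm w).trans (mul_le_of_le_one_right (norm_nonneg _) w4)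
    exact le_antisymm ((fl w).trans w4) (le_of_mul_le_mul_left (by linarith) he)
  refine ⟨σ, w2, ?_⟩
  rcases (abs_eq zero_le_one).1 w7 with h | h
  · exact ⟨1, by simp, by rw [one_smul, ← f3 w w4 h]; exact w3⟩
  · have := f3 (-w) (by rwa [norm_neg]) (by rw [map_neg, h, neg_neg])
    exact ⟨-1, by simp, by rw [← this, neg_smul, one_smul, neg_neg]; exact w3⟩

theorem main
    (H1 : ∀ x : X, ‖x‖ = 1 → Exp x ∨ ∃ (a b : X) (p : ℝ), 0 < p ∧ p < 1 ∧ ‖a‖ ≤ 1 ∧ ‖b‖ ≤ 1 ∧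
      1 ≤ ‖a - b‖ ∧ 1 ≤ ‖a + b‖ ∧ x = p • a + (1 - p) • b)
    (H2 : ∀ ε : ℝ, 0 < ε → ∀ x : X, ‖x‖ = 1 → ∃ (R : X →L[ℝ] X) (x' : X), ‖R‖ ≤ 1 ∧
      ‖R - 1‖ ≤ ε ∧ R x' = x ∧ Exp x') (ε : ℝ) (hε : 0 < ε) :
    ∃ η : ℝ, 0 < η ∧ η < ε ∧ ∀ (T : X →L[ℝ] Z) (x : X), ‖T‖ = 1 → ‖x‖ = 1 → 1 - η < ‖T x‖ →
      ∃ (S : X →L[ℝ] Z) (x₀ : X), ASE S ∧ ‖x₀‖ = 1 ∧ ‖S‖ = 1 ∧ ‖S x₀‖ = 1 ∧ ‖S - T‖ < ε ∧
        ‖x - x₀‖ < ε := by
  have : ProperSpace X := FiniteDimensional.proper ℝ _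
  set e := min ε 1 / 8 with he
  have e0 : 0 < e := by positivity
  have e1 : e ≤ ε / 8 := by have := min_le_left ε 1; linarith
  have e2 : e ≤ 1 / 8 := by have := min_le_right ε 1; linarith
  have key := (isCompact_sphere (0:X) 1).eventually_forall_of_forall_eventually (x₀ := (0:ℝ))
    (P := fun η x => ∀ T : X →L[ℝ] Z, ‖T‖ = 1 → 1 - η < ‖T x‖ →
      ∃ (S : X →L[ℝ] Z) (x₀ : X), ASE S ∧ ‖x₀‖ = 1 ∧ ‖S‖ = 1 ∧ ‖S x₀‖ = 1 ∧ ‖S - T‖ < ε ∧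
        ‖x - x₀‖ < ε) fun x₀ hx₀ => by
    obtain ⟨R, x', r1, r2, r3, r4, f, f1, f2, f3⟩ := H2 e e0 x₀ (mem_sphere_zero_iff_norm.1 hx₀)
    have fl : ∀ y, |f y| ≤ ‖y‖ := fun y =>
      (f.le_opNorm y).trans (mul_le_of_le_one_left (norm_nonneg _) f1)
    have hc : IsCompact (Metric.closedBall (0:X) 1 ∩ {y | e ≤ ‖y - x'‖}) :=
      (isCompact_closedBall _ _).inter_right (isClosed_le continuous_const (by fun_prop))
    obtain ⟨δ, d0, d1⟩ := hc.exists_forall_le' (f := fun y => 1 - f y) (a := 0) (by fun_prop)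
      fun y hy => by
        have a1 : ‖y‖ ≤ 1 := mem_closedBall_zero_iff.1 hy.1
        refine sub_pos.2 (lt_of_le_of_ne ((le_abs_self _).trans ((fl y).trans a1)) fun a2 => ?_)
        have a3 : e ≤ ‖y - x'‖ := hy.2
        rw [f3 y a1 a2, sub_self, norm_zero] at a3
        linarith
    have d2 : ∀ y, ‖y‖ ≤ 1 → 1 - δ < f y → ‖y - x'‖ < e := fun y a1 a2 => not_le.1 fun a3 => by
      have := d1 y ⟨mem_closedBall_zero_iff.2 a1, a3⟩
      linarith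
    filter_upwards [Metric.ball_mem_nhds ((0:ℝ), x₀) (ε := min (e * δ / 4) e) (by positivity)]
      with z hz T hT hx
    rw [Metric.mem_ball, Prod.dist_eq, max_lt_iff, lt_min_iff, lt_min_iff, dist_eq_norm,
      dist_eq_norm, sub_zero] at hz
    obtain ⟨⟨z1, z2⟩, z3, z4⟩ := hz
    have z5 := (le_abs_self _).trans_lt z1
    have z6 := (le_abs_self _).trans_lt z2
    have t1 : ‖T z.2‖ ≤ ‖T x₀‖ + ‖z.2 - x₀‖ := by
      have a1 := T.le_opNorm (z.2 - x₀)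
      rw [hT, one_mul, map_sub] at a1
      linarith [norm_sub_norm_le (T z.2) (T x₀)]
    have t2 : (T.comp R) x' = T x₀ := by rw [← r3]; rfl
    obtain ⟨S, s1, s2, s3⟩ := boost (T.comp R) f f1 x' f2 (by rw [t2]; linarith) e0
    rw [t2] at s2
    have t3 : ‖T.comp R‖ ≤ 1 := (T.opNorm_comp_le R).trans (by rw [hT]; linarith)
    have t4 : ‖S x'‖ ≤ ‖S‖ := by simpa [r4] using S.le_opNorm x'
    have near : ∀ y, ‖y‖ ≤ 1 → ‖S‖ ≤ ‖S y‖ → ‖y - x'‖ < e ∨ ‖-y - x'‖ < e := fun y a1 a2 => by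
      have a3 := s3 y
      have a4 := ((T.comp R).le_opNorm y).trans (mul_le_one₀ t3 (norm_nonneg _) a1)
      have a5 : 1 - δ < |f y| := lt_of_mul_lt_mul_left (a := e) (by nlinarith) e0.le
      rcases lt_abs.1 a5 with h | h
      · exact Or.inl (d2 y a1 h)
      · exact Or.inr (d2 (-y) (by rwa [norm_neg]) (by rwa [map_neg]))
    have Sl : ∀ y, ‖y‖ ≤ 1 → ‖S y‖ ≤ ‖S‖ := fun y a1 =>
      (S.le_opNorm y).trans (mul_le_of_le_one_right (norm_nonneg _) a1)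
    obtain ⟨w, w1, w2, w3⟩ : ∃ w, ‖w‖ = 1 ∧ ‖S w‖ = ‖S‖ ∧ ‖w - x'‖ < e := by
      obtain ⟨w, w1, w2⟩ := (isCompact_sphere (0:X) 1).exists_isMaxOn ⟨x₀, hx₀⟩
        (f := fun y => ‖S y‖) (by fun_prop)
      have w3 : ‖w‖ = 1 := mem_sphere_zero_iff_norm.1 w1
      have w4 : ‖S‖ ≤ ‖S w‖ := S.opNorm_le_of_unit_norm (norm_nonneg _) fun y hy =>
        w2 (mem_sphere_zero_iff_norm.2 hy)
      have w5 := le_antisymm (Sl w w3.le) w4
      rcases near w w3.le w4 with h | h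
      · exact ⟨w, w3, w5, h⟩
      · exact ⟨-w, by rwa [norm_neg], by rwa [map_neg, norm_neg], h⟩
    have w4 : Exp w := by
      refine (H1 w w1).resolve_right ?_
      rintro ⟨a, b, p, p0, p1, a1, b1, c1, c2, rfl⟩
      have c3 := norm_add_le (p • S a) ((1 - p) • S b)
      rw [norm_smul, norm_smul, Real.norm_of_nonneg p0.le, Real.norm_of_nonneg (by linarith),
        ← map_smul, ← map_smul, ← map_add, w2] at c3
      have a2 := Sl a a1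
      have b2 := Sl b b1
      have a3 := near a a1 (by nlinarith)
      have b3 := near b b1 (by nlinarith)
      have k1 := norm_sub_le (a - x') (b - x')
      have k2 := norm_sub_le (a - x') (-b - x')
      have k3 := norm_sub_le (b - x') (-a - x')
      have k4 := norm_sub_le (-b - x') (-a - x')
      rw [sub_sub_sub_cancel_right] at k1 k2 k3 k4
      rw [sub_neg_eq_add] at k2 k3
      rw [add_comm] at k3
      rw [neg_sub_neg] at k4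
      rcases a3 with h | h <;> rcases b3 with h' | h' <;> linarith
    obtain ⟨U, u1, u2, u3, u4⟩ := fin S w w4 w2 (by linarith [norm_nonneg (T x₀)]) e0
    have u5 : ‖U - T‖ ≤ 3 * e := by
      have a1 : U - T = (U - S) + (S - T.comp R) + T.comp (R - 1) := by
        ext y; simp
      have a2 := T.opNorm_comp_le (R - 1)
      rw [hT, one_mul] at a2
      rw [a1]
      linarith [norm_add₃_le (a := U - S) (b := S - T.comp R) (c := T.comp (R - 1))]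
    have u6 : ‖‖U‖⁻¹ • U‖ = 1 := by
      rw [norm_smul, norm_inv, norm_norm, inv_mul_cancel₀ u3.ne']
    refine ⟨‖U‖⁻¹ • U, w, u4, w1, u6, ?_, ?_, ?_⟩
    · rw [smul_apply, norm_smul, norm_inv, norm_norm, u2, inv_mul_cancel₀ u3.ne']
    · have a1 : ‖U‖⁻¹ • U - U = (1 - ‖U‖) • (‖U‖⁻¹ • U) := by
        rw [sub_smul, one_smul, smul_smul, mul_inv_cancel₀ u3.ne', one_smul]
      have a2 : ‖‖U‖⁻¹ • U - U‖ ≤ 3 * e := by
        rw [a1, norm_smul, u6, mul_one, ← hT, Real.norm_eq_abs, abs_sub_comm]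
        exact (abs_norm_sub_norm_le U T).trans u5
      linarith [norm_sub_le_norm_sub_add_norm_sub (‖U‖⁻¹ • U) U T]
    · have a1 := (R - 1).le_opNorm x'
      rw [r4, mul_one, sub_apply, r3] at a1
      change ‖x₀ - x'‖ ≤ _ at a1
      rw [norm_sub_rev] at w3
      linarith [norm_sub_le_norm_sub_add_norm_sub z.2 x₀ w,
        norm_sub_le_norm_sub_add_norm_sub x₀ x' w]
  obtain ⟨η, h1, h2⟩ := ((key.filter_mono (nhdsWithin_le_nhds (s := Ioi 0))).and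
    (Ioo_mem_nhdsGT hε)).exists
  exact ⟨η, h2.1, h2.2, fun T x hT hx h => h1 x (mem_sphere_zero_iff_norm.2 hx) T hT h⟩

end Pool.Agent.Lib.Helper21.ASE1
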