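import Pool.Agent.Lib.helper21.ASE1

set_option maxHeartbeats 400000

open Set Filter Topology

namespace Pool.Agent.Lib.Helper21.ASE2

open Pool.Agent.Lib.Helper21.ASE1

abbrev E : Type := ℝ × ℝ × ℝ

def B : Set E := {p | p.1 ^ 2 + p.2.1 ^ 2 + p.2.2 ^ 2 ≤ 2 ∧
  p.2.1 ^ 4 ≤ (3 - p.1 ^ 2) * (1 - p.2.1 ^ 2 - p.2.2 ^ 2)}

def U : Set E := {p | p.1 ^ 2 + p.2.1 ^ 2 + p.2.2 ^ 2 < 2 ∧
  p.2.1 ^ 4 < (3 - p.1 ^ 2) * (1 - p.2.1 ^ 2 - p.2.2 ^ 2)}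

lemma UB : U ⊆ B := fun _ h => ⟨h.1.le, h.2.le⟩

lemma U_open : IsOpen U := by
  rw [U, ofPred_and]
  refine IsOpen.inter (isOpen_lt ?_ ?_) (isOpen_lt ?_ ?_) <;> fun_prop

lemma B_closed : IsClosed B := by
  rw [B, ofPred_and]
  refine IsClosed.inter (isClosed_le ?_ ?_) (isClosed_le ?_ ?_) <;> fun_prop

lemma BA {p : E} (h : p ∈ B) : 1 ≤ 3 - p.1 ^ 2 := by
  nlinarith [h.1, sq_nonneg p.2.1, sq_nonneg p.2.2]

lemma BC {p : E} (h : p ∈ B) : 0 ≤ 1 - p.2.1 ^ 2 - p.2.2 ^ 2 := by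
  have h1 := BA h
  have h2 : 0 ≤ p.2.1 ^ 4 := by positivity
  exact nonneg_of_mul_nonneg_right (h2.trans h.2) (by linarith)

lemma ell {p : E} (h : p ∈ B) (k : ℝ) :
    2 * k * p.2.1 ^ 2 ≤ k ^ 2 * (3 - p.1 ^ 2) + (1 - p.2.1 ^ 2 - p.2.2 ^ 2) := by
  have h1 := BA h
  have h2 := BC h
  have h3 := h.2
  refine (abs_le_of_sq_le_sq' ?_ (by positivity)).2
  have := mul_le_mul_of_nonneg_left h3 (sq_nonneg k)
  nlinarith [sq_nonneg (k ^ 2 * (3 - p.1 ^ 2) - (1 - p.2.1 ^ 2 - p.2.2 ^ 2))]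

lemma of_ell {t A C : ℝ} (hA : 0 < A) (h : 2 * (t ^ 2 / A) * t ^ 2 ≤ (t ^ 2 / A) ^ 2 * A + C) :
    t ^ 4 ≤ A * C := by
  have : (t ^ 2 / A) ^ 2 * A = t ^ 2 / A * t ^ 2 := by field_simp
  have h2 : t ^ 2 / A * t ^ 2 ≤ C := by linarith
  rw [div_mul_eq_mul_div, div_le_iff₀ hA] at h2
  linarith

lemma B_convex : Convex ℝ B := by
  intro x hx y hy a b ha hb hab
  have sq : ∀ u v : ℝ, (a * u + b * v) ^ 2 ≤ a * u ^ 2 + b * v ^ 2 := fun u v => by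
    have : b = 1 - a := by linarith
    subst this
    nlinarith [mul_nonneg (mul_nonneg ha hb) (sq_nonneg (u - v))]
  have s1 := sq x.1 y.1
  have s2 := sq x.2.1 y.2.1
  have s3 := sq x.2.2 y.2.2
  have h1 : (a * x.1 + b * y.1) ^ 2 + (a * x.2.1 + b * y.2.1) ^ 2 +
      (a * x.2.2 + b * y.2.2) ^ 2 ≤ 2 := by
    nlinarith [mul_le_mul_of_nonneg_left hx.1 ha, mul_le_mul_of_nonneg_left hy.1 hb]
  refine ⟨h1, ?_⟩
  change (a * x.2.1 + b * y.2.1) ^ 4 ≤ (3 - (a * x.1 + b * y.1) ^ 2) *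
    (1 - (a * x.2.1 + b * y.2.1) ^ 2 - (a * x.2.2 + b * y.2.2) ^ 2)
  have hA : 0 < 3 - (a * x.1 + b * y.1) ^ 2 := by
    nlinarith [sq_nonneg (a * x.2.1 + b * y.2.1), sq_nonneg (a * x.2.2 + b * y.2.2)]
  refine of_ell hA ?_
  have k0 : 0 ≤ (a * x.2.1 + b * y.2.1) ^ 2 / (3 - (a * x.1 + b * y.1) ^ 2) := by positivity
  generalize (a * x.2.1 + b * y.2.1) ^ 2 / (3 - (a * x.1 + b * y.1) ^ 2) = k at k0 ⊢
  have e1 := mul_le_mul_of_nonneg_left (ell hx k) ha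
  have e2 := mul_le_mul_of_nonneg_left (ell hy k) hb
  have e3 := mul_le_mul_of_nonneg_left s1 (sq_nonneg k)
  have e4 := mul_le_mul_of_nonneg_left s2 k0
  have : b = 1 - a := by linarith
  subst this
  nlinarith

lemma B_neg {p : E} (h : p ∈ B) : -p ∈ B := by
  have h1 := h.1
  have h2 := h.2
  constructor
  · simpa using h1
  · have : (-p.2.1) ^ 4 = p.2.1 ^ 4 := by ring
    simpa [this] using h2

lemma B_nhds : B ∈ 𝓝 (0:E) := mem_of_superset (U_open.mem_nhds ⟨by simp, by simp⟩) UB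

lemma B_norm {p : E} (h : p ∈ B) : ‖p‖ ≤ 2 := by
  have h1 := h.1
  simp only [Prod.norm_def, max_le_iff, Real.norm_eq_abs]
  refine ⟨abs_le_of_sq_le_sq' ?_ ?_ |> abs_le.2, abs_le_of_sq_le_sq' ?_ ?_ |> abs_le.2,
    abs_le_of_sq_le_sq' ?_ ?_ |> abs_le.2⟩ <;>
  nlinarith [sq_nonneg p.1, sq_nonneg p.2.1, sq_nonneg p.2.2]

lemma B_compact : IsCompact B :=
  (isCompact_closedBall (0:E) 2).of_isClosed_subset B_closed fun _ h =>
    mem_closedBall_zero_iff.2 (B_norm h)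

lemma B_bal : Balanced ℝ B := (balanced_iff_neg_mem B_convex).2 fun _ h => B_neg h

def X : Type := E

instance : AddCommGroup X := inferInstanceAs (AddCommGroup E)
noncomputable instance : Module ℝ X := inferInstanceAs (Module ℝ E)

lemma g0 (x : E) (h : gauge B x = 0) : x = 0 :=
  (gauge_eq_zero (absorbent_nhds_zero B_nhds) (B_compact.isVonNBounded ℝ)).1 h

lemma gadd (x y : E) : gauge B (x + y) ≤ gauge B x + gauge B y :=
  gauge_add_le B_convex (absorbent_nhds_zero B_nhds) x y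

lemma gneg (x : E) : gauge B (-x) = gauge B x := gauge_neg (fun _ h => B_neg h) x

noncomputable def nrm : AddGroupNorm X where
  toFun := fun x => gauge B (show E from x)
  map_zero' := gauge_zero
  add_le' := gadd
  neg' := gneg
  eq_zero_of_map_eq_zero' := g0

noncomputable instance : NormedAddCommGroup X := nrm.toNormedAddCommGroup

noncomputable instance : NormedSpace ℝ X where
  norm_smul_le := fun r x => (gauge_smul B_bal r (show E from x)).le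

instance : FiniteDimensional ℝ X := inferInstanceAs (FiniteDimensional ℝ E)

instance : CompleteSpace X := FiniteDimensional.complete ℝ X

def mk (p : E) : X := p
def un (x : X) : E := x

lemma le_one {x : X} : ‖x‖ ≤ 1 ↔ un x ∈ B := by
  change gauge B (un x) ≤ 1 ↔ _
  rw [gauge_le_one_iff_mem_closure B_convex B_nhds, B_closed.closure_eq]

lemma lt_one {x : X} (h : un x ∈ U) : ‖x‖ < 1 :=
  interior_subset_gauge_lt_one B (interior_maximal UB U_open h)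

lemma cube {x : X} {c : ℝ} (hc : 0 < c) (h : ‖un x‖ ≤ c) : ‖x‖ ≤ 2 * c := by
  have h1 : ‖(2 * c)⁻¹ • x‖ ≤ 1 := by
    rw [le_one]
    have h2 : ‖(2 * c)⁻¹ • un x‖ ≤ 1 / 2 := by
      rw [norm_smul, Real.norm_of_nonneg (by positivity), inv_mul_le_iff₀ (by positivity)]
      linarith
    change (2 * c)⁻¹ • un x ∈ B
    generalize (2 * c)⁻¹ • un x = p at h2
    simp only [Prod.norm_def, max_le_iff, Real.norm_eq_abs, abs_le] at h2
    obtain ⟨⟨a1, a2⟩, ⟨a3, a4⟩, a5, a6⟩ := h2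
    have b1 : p.1 ^ 2 ≤ 1 / 4 := by nlinarith
    have b2 : p.2.1 ^ 2 ≤ 1 / 4 := by nlinarith
    have b3 : p.2.2 ^ 2 ≤ 1 / 4 := by nlinarith
    refine ⟨by linarith, ?_⟩
    have b4 : p.2.1 ^ 4 ≤ 1 / 16 := by nlinarith [sq_nonneg p.2.1]
    nlinarith
  rw [norm_smul, Real.norm_of_nonneg (by positivity), inv_mul_le_iff₀ (by positivity)] at h1
  linarith

def Seg (p : E) : Prop := p.2.1 = 0 ∧ p.2.2 ^ 2 = 1 ∧ p.1 ^ 2 < 1

lemma mid {p q : E} (hp : p ∈ B) (hq : q ∈ B) (h2 : p.1 ^ 2 + p.2.1 ^ 2 + p.2.2 ^ 2 < 2)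
    (hs : ¬ Seg p) (hm : (1 / 2 : ℝ) • (p + q) ∉ U) : q = p := by
  obtain ⟨s, t, z⟩ := p
  obtain ⟨s', t', z'⟩ := q
  have q1 := hq.1
  have c1 := BC hp
  simp only [U, mem_ofPred_eq, Prod.smul_fst, Prod.smul_snd, Prod.fst_add, Prod.snd_add,
    smul_eq_mul, not_and, not_lt] at hm h2 q1 c1
  have m1 : (1 / 2 * (s + s')) ^ 2 + (1 / 2 * (t + t')) ^ 2 + (1 / 2 * (z + z')) ^ 2 < 2 := by
    nlinarith [sq_nonneg (s - s'), sq_nonneg (t - t'), sq_nonneg (z - z')]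
  have m2 := hm m1
  have hA : 0 < 3 - (1 / 2 * (s + s')) ^ 2 := by
    nlinarith [sq_nonneg (1 / 2 * (t + t')), sq_nonneg (1 / 2 * (z + z'))]
  obtain ⟨k, k0, hk⟩ : ∃ k : ℝ, 0 ≤ k ∧ k * (3 - (1 / 2 * (s + s')) ^ 2) = (1 / 2 * (t + t')) ^ 2 :=
    ⟨_, by positivity, div_mul_cancel₀ _ hA.ne'⟩
  have e1 := ell hp k
  have e2 := ell hq k
  simp only at e1 e2
  have m3 : 1 - (1 / 2 * (t + t')) ^ 2 - (1 / 2 * (z + z')) ^ 2 ≤
      k ^ 2 * (3 - (1 / 2 * (s + s')) ^ 2) := by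
    refine le_of_mul_le_mul_left (m2.trans (le_of_eq ?_)) hA
    rw [show (1 / 2 * (t + t')) ^ 4 = ((1 / 2 * (t + t')) ^ 2) ^ 2 by ring, ← hk]; ring
  have m4 : k ^ 2 * (3 - (1 / 2 * (s + s')) ^ 2) = k * (1 / 2 * (t + t')) ^ 2 := by
    rw [← hk]; ring
  have m5 : (t - t') ^ 2 + (z - z') ^ 2 + (k * (s - s')) ^ 2 ≤ 0 := by
    linarith [mul_nonneg k0 (sq_nonneg (t - t'))]
  have sq : ∀ a b c : ℝ, a ^ 2 + b ^ 2 + c ^ 2 ≤ 0 → a = 0 ∧ b = 0 ∧ c = 0 := fun a b c h => by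
    refine ⟨?_, ?_, ?_⟩ <;> refine pow_eq_zero_iff two_ne_zero |>.1 ?_ <;>
      linarith [sq_nonneg a, sq_nonneg b, sq_nonneg c]
  obtain ⟨z1, z2, z3⟩ := sq _ _ _ m5
  obtain rfl : t = t' := by linarith
  obtain rfl : z = z' := by linarith
  rcases mul_eq_zero.1 z3 with h | h
  · subst h
    have t0 : t = 0 := by
      have : (1 / 2 * (t + t)) = 0 := pow_eq_zero_iff two_ne_zero |>.1 (by rw [← hk]; ring)
      linarith
    subst t0
    have z4 : z ^ 2 = 1 := by linarith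
    exact absurd ⟨rfl, z4, by simp only; linarith⟩ hs
  · obtain rfl : s = s' := by linarith
    rfl

lemma expo {x : X} (hx : ‖x‖ = 1) (hs : ¬ Seg (un x)) : Exp x := by
  have hB := le_one.1 hx.le
  refine ⟨hx, ?_⟩
  rcases hB.1.lt_or_eq with h | h
  · obtain ⟨f, f1, f2⟩ := exists_dual_vector'' ℝ x
    have f3 : f x = 1 := by rw [f2, hx]; simp
    refine ⟨f, f1, f3, fun y hy fy => mid hB (le_one.1 hy) h hs fun hm => ?_⟩
    have a1 : ‖(1 / 2 : ℝ) • (x + y)‖ < 1 := lt_one hm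
    have a2 := (f.le_opNorm ((1 / 2 : ℝ) • (x + y))).trans
      (mul_le_of_le_one_left (norm_nonneg _) f1)
    rw [map_smul, map_add, f3, fy] at a2
    have a3 : ‖(1 / 2 : ℝ) • ((1:ℝ) + 1)‖ = 1 := by norm_num
    linarith
  · let l : X →ₗ[ℝ] ℝ :=
      { toFun := fun y => ((un x).1 * (un y).1 + (un x).2.1 * (un y).2.1 +
          (un x).2.2 * (un y).2.2) / 2
        map_add' := fun y w => by
          change ((un x).1 * ((un y).1 + (un w).1) + (un x).2.1 * ((un y).2.1 + (un w).2.1) +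
            (un x).2.2 * ((un y).2.2 + (un w).2.2)) / 2 = _
          ring
        map_smul' := fun c y => by
          change ((un x).1 * (c * (un y).1) + (un x).2.1 * (c * (un y).2.1) +
            (un x).2.2 * (c * (un y).2.2)) / 2 = c * _
          ring }
    have la : ∀ y, LinearMap.toContinuousLinearMap l y = ((un x).1 * (un y).1 +
      (un x).2.1 * (un y).2.1 + (un x).2.2 * (un y).2.2) / 2 := fun y => rfl
    refine ⟨LinearMap.toContinuousLinearMap l, ContinuousLinearMap.opNorm_le_of_unit_norm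
      zero_le_one fun y hy => ?_, by rw [la]; linarith, fun y hy fy => ?_⟩
    · have := (le_one.1 hy.le).1
      rw [la, Real.norm_eq_abs, abs_le]
      constructor
      · nlinarith [sq_nonneg ((un x).1 + (un y).1), sq_nonneg ((un x).2.1 + (un y).2.1),
          sq_nonneg ((un x).2.2 + (un y).2.2)]
      · nlinarith [sq_nonneg ((un x).1 - (un y).1), sq_nonneg ((un x).2.1 - (un y).2.1),
          sq_nonneg ((un x).2.2 - (un y).2.2)]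
    · have := (le_one.1 hy).1
      rw [la] at fy
      have a1 := sq_nonneg ((un y).1 - (un x).1)
      have a2 := sq_nonneg ((un y).2.1 - (un x).2.1)
      have a3 := sq_nonneg ((un y).2.2 - (un x).2.2)
      change un y = un x
      refine Prod.ext ?_ (Prod.ext ?_ ?_) <;> refine sub_eq_zero.1 (pow_eq_zero_iff two_ne_zero |>.1 ?_) <;>
        nlinarith

lemma big {x : X} (h : un x ∉ B) : 1 ≤ ‖x‖ := (not_le.1 fun h' => h (le_one.1 h')).le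

lemma H1 (x : X) (hx : ‖x‖ = 1) : Exp x ∨ ∃ (a b : X) (p : ℝ), 0 < p ∧ p < 1 ∧ ‖a‖ ≤ 1 ∧
    ‖b‖ ≤ 1 ∧ 1 ≤ ‖a - b‖ ∧ 1 ≤ ‖a + b‖ ∧ x = p • a + (1 - p) • b := by
  by_cases hs : Seg (un x)
  · obtain ⟨h1, h2, h3⟩ := hs
    refine Or.inr ⟨mk (1, 0, (un x).2.2), mk (-1, 0, (un x).2.2), (1 + (un x).1) / 2,
      by nlinarith, by nlinarith, le_one.2 ⟨?_, ?_⟩, le_one.2 ⟨?_, ?_⟩, big fun h => ?_,
      big fun h => ?_, ?_⟩
    · change (1:ℝ) ^ 2 + 0 ^ 2 + (un x).2.2 ^ 2 ≤ 2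
      rw [h2]; norm_num
    · change (0:ℝ) ^ 4 ≤ (3 - 1 ^ 2) * (1 - 0 ^ 2 - (un x).2.2 ^ 2)
      rw [h2]; norm_num
    · change (-1:ℝ) ^ 2 + 0 ^ 2 + (un x).2.2 ^ 2 ≤ 2
      rw [h2]; norm_num
    · change (0:ℝ) ^ 4 ≤ (3 - (-1) ^ 2) * (1 - 0 ^ 2 - (un x).2.2 ^ 2)
      rw [h2]; norm_num
    · have : ((1:ℝ) - -1) ^ 2 + (0 - 0) ^ 2 + ((un x).2.2 - (un x).2.2) ^ 2 ≤ 2 := h.1
      norm_num at this
    · have : ((1:ℝ) + -1) ^ 2 + (0 + 0) ^ 2 + ((un x).2.2 + (un x).2.2) ^ 2 ≤ 2 := h.1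
      nlinarith
    · change un x = ((1 + (un x).1) / 2) • ((1:ℝ), (0:ℝ), (un x).2.2) +
        (1 - (1 + (un x).1) / 2) • ((-1:ℝ), (0:ℝ), (un x).2.2)
      refine Prod.ext ?_ (Prod.ext ?_ ?_) <;> simp [h1] <;> ring
  · exact Or.inl (expo hx hs)

noncomputable def Rf (κ s₁ τ : ℝ) (p : E) : E :=
  (κ * p.1, κ * (√(1 - τ ^ 2 - τ ^ 2 / (3 - s₁ ^ 2) * τ ^ 2) * p.2.1 - τ * p.2.2),
    ((τ ^ 2 / (3 - s₁ ^ 2)) ^ 2 * s₁ * p.1 + (1 + 2 * (τ ^ 2 / (3 - s₁ ^ 2))) * τ * p.2.1 +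
      √(1 - τ ^ 2 - τ ^ 2 / (3 - s₁ ^ 2) * τ ^ 2) * p.2.2) / (1 + 3 * (τ ^ 2 / (3 - s₁ ^ 2)) ^ 2))

lemma Rf_zero (κ s₁ : ℝ) (p : E) : Rf κ s₁ 0 p = (κ * p.1, κ * p.2.1, p.2.2) := by
  simp [Rf]

lemma Rf_cont (κ s₁ : ℝ) : Continuous fun z : ℝ × E => Rf κ s₁ z.1 z.2 := by
  unfold Rf
  fun_prop (disch := intros; positivity)

lemma bessel {k s₁ τ z₀ : ℝ} {p : E} (hp : p ∈ B) (k0 : 0 ≤ k) (k1 : k ≤ 1 / 8)
    (h : k ^ 2 * s₁ ^ 2 + (1 + 2 * k) * τ ^ 2 + z₀ ^ 2 = 1 + 3 * k ^ 2) :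
    ((k ^ 2 * s₁ * p.1 + (1 + 2 * k) * τ * p.2.1 + z₀ * p.2.2) / (1 + 3 * k ^ 2)) ^ 2 +
      (z₀ * p.2.1 - τ * p.2.2) ^ 2 ≤ 1 := by
  have e := ell hp k
  obtain ⟨s, t, z⟩ := p
  simp only at e ⊢
  have hD : 0 < 1 + 3 * k ^ 2 := by positivity
  have e1 : k ^ 2 * s ^ 2 + (1 + 2 * k) * t ^ 2 + z ^ 2 ≤ 1 + 3 * k ^ 2 := by linarith
  have e2 : (k ^ 2 * s₁ * s + (1 + 2 * k) * τ * t + z₀ * z) ^ 2 +
      (1 + 2 * k) * (z₀ * t - τ * z) ^ 2 + k ^ 2 * (1 + 2 * k) * (s₁ * t - τ * s) ^ 2 +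
      k ^ 2 * (s₁ * z - z₀ * s) ^ 2 = (k ^ 2 * s₁ ^ 2 + (1 + 2 * k) * τ ^ 2 + z₀ ^ 2) *
        (k ^ 2 * s ^ 2 + (1 + 2 * k) * t ^ 2 + z ^ 2) := by ring
  rw [h] at e2
  have e3 := mul_le_mul_of_nonneg_left e1 hD.le
  have e4 : 0 ≤ k ^ 2 * (1 + 2 * k) * (s₁ * t - τ * s) ^ 2 := by positivity
  have e5 : 0 ≤ k ^ 2 * (s₁ * z - z₀ * s) ^ 2 := by positivity
  have e6 : (1 + 3 * k ^ 2) ^ 2 ≤ 1 + 2 * k := by
    have : k ^ 2 ≤ k / 8 := by nlinarith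
    have : k ^ 2 * k ^ 2 ≤ k ^ 2 := by nlinarith [sq_nonneg k]
    nlinarith
  have e7 := mul_le_mul_of_nonneg_right e6 (sq_nonneg (z₀ * t - τ * z))
  rw [div_pow, div_add' _ _ _ (by positivity), div_le_one (by positivity)]
  nlinarith

lemma rot {s₀ ε : ℝ} (hs : s₀ ^ 2 < 1) (hε : 0 < ε) : ∃ (R : X →L[ℝ] X) (x : X), ‖R‖ ≤ 1 ∧
    ‖R - 1‖ ≤ ε ∧ R x = mk (s₀, 0, 1) ∧ un x ∈ B ∧ (un x).2.1 ≠ 0 := by
  have s1 : |s₀| < 1 := by rwa [← sq_lt_one_iff_abs_lt_one]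
  obtain ⟨κ, k0, k1, k2, k3⟩ : ∃ κ : ℝ, 1 / 2 ≤ κ ∧ κ < 1 ∧ |s₀| ≤ κ ∧ 1 - κ ≤ ε / 8 :=
    ⟨max (max |s₀| (1 / 2)) (1 - ε / 8), (le_max_right _ _).trans (le_max_left _ _),
      max_lt (max_lt s1 (by norm_num)) (by linarith), (le_max_left _ _).trans (le_max_left _ _),
      by linarith [le_max_right (max |s₀| (1 / 2)) (1 - ε / 8)]⟩
  set s₁ := s₀ / κ with hs₁
  have kp : 0 < κ := by linarith
  have s2 : κ * s₁ = s₀ := by rw [hs₁]; field_simp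
  have s3 : s₁ ^ 2 ≤ 1 := by
    rw [sq_le_one_iff_abs_le_one, hs₁, abs_div, abs_of_pos kp, div_le_one kp]; exact k2
  have kk : κ ^ 2 < 1 := by nlinarith
  have key := B_compact.eventually_forall_of_forall_eventually (x₀ := (0:ℝ))
    (P := fun τ p => (Rf κ s₁ τ p ∈ U ∨ ((Rf κ s₁ τ p).1 ^ 2 < 1 ∧
      (Rf κ s₁ τ p).2.1 ^ 2 < κ ^ 2 * (1 - κ ^ 2))) ∧ ‖Rf κ s₁ τ p - p‖ < ε / 2) fun p hp => by
    have c := Rf_cont κ s₁
    have o : IsOpen {z : ℝ × E | (Rf κ s₁ z.1 z.2 ∈ U ∨ ((Rf κ s₁ z.1 z.2).1 ^ 2 < 1 ∧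
      (Rf κ s₁ z.1 z.2).2.1 ^ 2 < κ ^ 2 * (1 - κ ^ 2))) ∧ ‖Rf κ s₁ z.1 z.2 - z.2‖ < ε / 2} := by
      have o1 := U_open.preimage c
      have o2 := isOpen_lt (c.fst.pow 2) (continuous_const (y := (1:ℝ)))
      have o3 := isOpen_lt (c.snd.fst.pow 2) (continuous_const (y := κ ^ 2 * (1 - κ ^ 2)))
      have o4 := isOpen_lt (c.sub continuous_snd).norm (continuous_const (y := ε / 2))
      exact (o1.union (o2.inter o3)).inter o4
    refine o.mem_nhds ?_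
    simp only [mem_ofPred_eq, Rf_zero]
    have a1 := hp.1
    have a2 := hp.2
    have a3 := BA hp
    have a4 := BC hp
    have a5 := B_norm hp
    obtain ⟨s, t, z⟩ := p
    simp only at a1 a2 a3 a4 ⊢
    have b1 := sq_nonneg s
    have b2 := sq_nonneg t
    have b3 := sq_nonneg z
    constructor
    · by_cases h : t = 0 ∧ z ^ 2 = 1
      · refine Or.inr ⟨by nlinarith [h.2], by
          have : 0 < κ ^ 2 * (1 - κ ^ 2) := mul_pos (by positivity) (by linarith)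
          rw [h.1]; simpa using this⟩
      · refine Or.inl ⟨?_, ?_⟩
        · simp only
          nlinarith
        · simp only
          have c1 : (κ * s) ^ 2 ≤ s ^ 2 := by nlinarith
          have c2 : (κ * t) ^ 2 ≤ t ^ 2 := by nlinarith
          by_cases ht : t = 0
          · subst ht
            have : z ^ 2 < 1 := lt_of_le_of_ne (by linarith) fun h' => h ⟨rfl, h'⟩
            have : 0 < (3 - (κ * s) ^ 2) * (1 - z ^ 2) := mul_pos (by linarith) (by linarith)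
            simpa using this
          · have c3 : 0 < t ^ 2 := by positivity
            have c4 : (κ * t) ^ 2 < t ^ 2 := by nlinarith
            have c5 : (κ * t) ^ 4 < t ^ 4 := by nlinarith [sq_nonneg (κ * t)]
            refine c5.trans_le (a2.trans ?_)
            exact mul_le_mul (by linarith) (by linarith) a4 (by linarith)
    · have : ((κ * s, κ * t, z) : E) - (s, t, z) = (κ - 1) • (s, t, 0) := by
        ext <;> simp <;> ring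
      rw [this, norm_smul, Real.norm_eq_abs, abs_sub_comm, abs_of_pos (by linarith)]
      have c1 : ‖((s, t, 0) : E)‖ ≤ 2 := by
        simp only [Prod.norm_def, max_le_iff] at a5 ⊢
        exact ⟨a5.1, a5.2.1, by simp⟩
      nlinarith [norm_nonneg ((s, t, 0) : E)]
  obtain ⟨τ, h1, t0, t1⟩ := ((key.filter_mono (nhdsWithin_le_nhds (s := Ioi 0))).and
    (Ioo_mem_nhdsGT (by norm_num : (0:ℝ) < 1 / 2))).exists
  have hA : 2 ≤ 3 - s₁ ^ 2 := by linarith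
  obtain ⟨k, hk⟩ : ∃ k, k = τ ^ 2 / (3 - s₁ ^ 2) := ⟨_, rfl⟩
  have k4 : k * (3 - s₁ ^ 2) = τ ^ 2 := by rw [hk]; field_simp
  have k5 : 0 ≤ k := by rw [hk]; positivity
  have t2 : τ ^ 2 ≤ 1 / 4 := by nlinarith
  have k6 : k ≤ 1 / 8 := by nlinarith
  obtain ⟨z₀, hz⟩ : ∃ z₀, z₀ = √(1 - τ ^ 2 - k * τ ^ 2) := ⟨_, rfl⟩
  have z1 : z₀ ^ 2 = 1 - τ ^ 2 - k * τ ^ 2 := by
    rw [hz]; exact Real.sq_sqrt (by nlinarith)
  have z2 : k ^ 2 * s₁ ^ 2 + (1 + 2 * k) * τ ^ 2 + z₀ ^ 2 = 1 + 3 * k ^ 2 := by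
    rw [z1, ← k4]; ring
  have ra : ∀ p : E, Rf κ s₁ τ p = (κ * p.1, κ * (z₀ * p.2.1 - τ * p.2.2),
      (k ^ 2 * s₁ * p.1 + (1 + 2 * k) * τ * p.2.1 + z₀ * p.2.2) / (1 + 3 * k ^ 2)) := fun p => by
    rw [hz, hk]; rfl
  let l : X →ₗ[ℝ] X :=
    { toFun := fun y => mk (Rf κ s₁ τ (un y))
      map_add' := fun y w => by
        change Rf κ s₁ τ (un y + un w) = Rf κ s₁ τ (un y) + Rf κ s₁ τ (un w)
        simp only [ra]
        ext <;> simp <;> ring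
      map_smul' := fun c y => by
        change Rf κ s₁ τ (c • un y) = c • Rf κ s₁ τ (un y)
        simp only [ra]
        ext <;> simp <;> ring }
  refine ⟨LinearMap.toContinuousLinearMap l, mk (s₁, τ, z₀),
    ContinuousLinearMap.opNorm_le_of_unit_norm zero_le_one fun y hy => le_one.2 ?_,
    ContinuousLinearMap.opNorm_le_of_unit_norm hε.le fun y hy => ?_, ?_, ⟨?_, ?_⟩, t0.ne'⟩
  · have hB := le_one.1 hy.le
    change Rf κ s₁ τ (un y) ∈ B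
    rcases (h1 _ hB).1 with h | h
    · exact UB h
    · have b := bessel hB k5 k6 z2
      rw [ra] at h ⊢
      obtain ⟨h2, h3⟩ := h
      simp only [B, mem_ofPred_eq] at h2 h3 ⊢
      generalize (k ^ 2 * s₁ * (un y).1 + (1 + 2 * k) * τ * (un y).2.1 + z₀ * (un y).2.2) /
        (1 + 3 * k ^ 2) = f at b ⊢
      generalize z₀ * (un y).2.1 - τ * (un y).2.2 = g at b h3 ⊢
      generalize κ * (un y).1 = s at h2 ⊢
      have g0 := sq_nonneg g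
      have g1 : (κ * g) ^ 2 ≤ g ^ 2 := by nlinarith
      refine ⟨by linarith, ?_⟩
      have g2 : g ^ 2 ≤ 1 - κ ^ 2 :=
        le_of_mul_le_mul_left (a := κ ^ 2) (by nlinarith) (by positivity)
      have g3 : (κ * g) ^ 4 ≤ g ^ 2 * (1 - κ ^ 2) := by
        have : (κ * g) ^ 4 = (κ * g) ^ 2 * (κ * g) ^ 2 := by ring
        rw [this]
        exact mul_le_mul g1 (g1.trans g2) (sq_nonneg _) g0
      have g4 : g ^ 2 * (1 - κ ^ 2) ≤ 1 - (κ * g) ^ 2 - f ^ 2 := by nlinarith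
      have g5 : 0 ≤ g ^ 2 * (1 - κ ^ 2) := mul_nonneg g0 (by linarith)
      nlinarith
  · have := cube (x := (LinearMap.toContinuousLinearMap l - 1) y) (half_pos hε)
      (h1 _ (le_one.1 hy.le)).2.le
    linarith
  · change Rf κ s₁ τ (s₁, τ, z₀) = (s₀, 0, 1)
    rw [ra]
    refine Prod.ext s2 (Prod.ext (by simp only; ring) ?_)
    simp only
    rw [div_eq_one_iff_eq (by positivity), ← z2]; ring
  · change s₁ ^ 2 + τ ^ 2 + z₀ ^ 2 ≤ 2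
    nlinarith [mul_nonneg k5 (sq_nonneg τ)]
  · change τ ^ 4 ≤ (3 - s₁ ^ 2) * (1 - τ ^ 2 - z₀ ^ 2)
    rw [z1, show τ ^ 4 = τ ^ 2 * τ ^ 2 by ring]
    nth_rewrite 1 [← k4]
    apply le_of_eq; ring

lemma H2 (ε : ℝ) (hε : 0 < ε) (x : X) (hx : ‖x‖ = 1) : ∃ (R : X →L[ℝ] X) (x' : X), ‖R‖ ≤ 1 ∧
    ‖R - 1‖ ≤ ε ∧ R x' = x ∧ Exp x' := by
  have fin : ∀ (R : X →L[ℝ] X) (x' : X), ‖R‖ ≤ 1 → R x' = x → un x' ∈ B → (un x').2.1 ≠ 0 →
      Exp x' := fun R x' r1 r2 r3 r4 => by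
    refine expo (le_antisymm (le_one.2 r3) ?_) fun h => r4 h.1
    rw [← hx, ← r2]
    exact (R.le_opNorm x').trans (mul_le_of_le_one_left (norm_nonneg _) r1)
  by_cases hs : Seg (un x)
  · obtain ⟨h1, h2, h3⟩ := hs
    rcases sq_eq_one_iff.1 h2 with h | h
    · obtain ⟨R, x', r1, r2, r3, r4, r5⟩ := rot h3 hε
      have : R x' = x := r3.trans (Prod.ext rfl (Prod.ext h1.symm h.symm))
      exact ⟨R, x', r1, r2, this, fin R x' r1 this r4 r5⟩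
    · obtain ⟨R, x', r1, r2, r3, r4, r5⟩ := rot (s₀ := -(un x).1) (by rwa [neg_sq]) hε
      have : R (-x') = x := by
        rw [map_neg, r3]
        change -((-(un x).1, 0, 1) : E) = un x
        refine Prod.ext (by simp) (Prod.ext (by simp [h1]) (by simp [h]))
      exact ⟨R, -x', r1, r2, this, fin R _ r1 this (B_neg r4) (neg_ne_zero.2 r5)⟩
  · exact ⟨1, x, ContinuousLinearMap.norm_id_le, by simpa using hε.le, rfl, expo hx hs⟩

end Pool.Agent.Lib.Helper21.ASE2
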