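import Mathlib

/-! A simple Lie algebra all of whose elements are ad-pure.
`E` is the field of Hahn series over `ℚ` with value group `ℤ ×ₗ ℤ`, `s`, `t` are the two uniformisers, and
`L = E³` carries the bracket `[e1,e2] = e3`, `[e2,e3] = s e1`, `[e3,e1] = t e2` (an anisotropic form of `sl₂` over `E`);
it is regarded as a Lie algebra over `ℚ`.  The square of `ad a` on the image of `ad a` is multiplication by
`-(t x² + s y² + s t z²)`, whose valuation is never divisible by `2`, so it is transcendental over `ℚ`. -/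

set_option autoImplicit false

namespace Pool.Agent.Lib.Helper21.AdPure

noncomputable section

abbrev G := ℤ ×ₗ ℤ
abbrev E := HahnSeries G ℚ

def s : E := HahnSeries.single (toLex (1, 0)) 1
def t : E := HahnSeries.single (toLex (0, 1)) 1

lemma s_ne : s ≠ 0 := by unfold s; simp
lemma t_ne : t ≠ 0 := by unfold t; simp
lemma s_ord : s.order = toLex (1, 0) := HahnSeries.order_single one_ne_zero
lemma t_ord : t.order = toLex (0, 1) := HahnSeries.order_single one_ne_zero

def L : Type := E × E × E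

instance : AddCommGroup L := inferInstanceAs (AddCommGroup (E × E × E))
instance : Module E L := inferInstanceAs (Module E (E × E × E))
instance : Module ℚ L := inferInstanceAs (Module ℚ (E × E × E))
instance : IsScalarTower ℚ E L := inferInstanceAs (IsScalarTower ℚ E (E × E × E))

def mk (x y z : E) : L := (x, y, z)

@[ext] lemma L.ext {a b : L} (h1 : a.1 = b.1) (h2 : a.2.1 = b.2.1) (h3 : a.2.2 = b.2.2) : a = b :=
  Prod.ext h1 (Prod.ext h2 h3)

def br (a b : L) : L :=
  mk (s * (a.2.1 * b.2.2 - a.2.2 * b.2.1)) (t * (a.2.2 * b.1 - a.1 * b.2.2)) (a.1 * b.2.1 - a.2.1 * b.1)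

@[simp] lemma mk1 (x y z : E) : (mk x y z).1 = x := rfl
@[simp] lemma mk2 (x y z : E) : (mk x y z).2.1 = y := rfl
@[simp] lemma mk3 (x y z : E) : (mk x y z).2.2 = z := rfl
@[simp] lemma add1 (a b : L) : (a + b).1 = a.1 + b.1 := rfl
@[simp] lemma add2 (a b : L) : (a + b).2.1 = a.2.1 + b.2.1 := rfl
@[simp] lemma add3 (a b : L) : (a + b).2.2 = a.2.2 + b.2.2 := rfl
@[simp] lemma zero1 : (0 : L).1 = 0 := rfl
@[simp] lemma zero2 : (0 : L).2.1 = 0 := rfl
@[simp] lemma zero3 : (0 : L).2.2 = 0 := rfl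
@[simp] lemma smul1 (c : E) (a : L) : (c • a).1 = c * a.1 := rfl
@[simp] lemma smul2 (c : E) (a : L) : (c • a).2.1 = c * a.2.1 := rfl
@[simp] lemma smul3 (c : E) (a : L) : (c • a).2.2 = c * a.2.2 := rfl
@[simp] lemma qsmul1 (c : ℚ) (a : L) : (c • a).1 = c • a.1 := rfl
@[simp] lemma qsmul2 (c : ℚ) (a : L) : (c • a).2.1 = c • a.2.1 := rfl
@[simp] lemma qsmul3 (c : ℚ) (a : L) : (c • a).2.2 = c • a.2.2 := rfl

instance : LieRing L where
  bracket := br
  add_lie a b c := by
    show br (a + b) c = br a c + br b c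
    ext1 <;> simp only [br, mk1, mk2, mk3, add1, add2, add3] <;> ring
  lie_add a b c := by
    show br a (b + c) = br a b + br a c
    ext1 <;> simp only [br, mk1, mk2, mk3, add1, add2, add3] <;> ring
  lie_self a := by
    show br a a = 0
    ext1 <;> simp only [br, mk1, mk2, mk3, zero1, zero2, zero3] <;> ring
  leibniz_lie a b c := by
    show br a (br b c) = br (br a b) c + br b (br a c)
    ext1 <;> simp only [br, mk1, mk2, mk3, add1, add2, add3] <;> ring

lemma lie_def (a b : L) : ⁅a, b⁆ = br a b := rfl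

instance : LieAlgebra ℚ L where
  lie_smul c a b := by
    show br a (c • b) = c • br a b
    ext1 <;> simp only [br, mk1, mk2, mk3, qsmul1, qsmul2, qsmul3, Algebra.smul_def] <;> ring

def Q (a : L) : E := t * a.1 ^ 2 + s * a.2.1 ^ 2 + s * t * a.2.2 ^ 2

lemma cube (a v : L) : ⁅a, ⁅a, ⁅a, v⁆⁆⁆ = (-Q a) • ⁅a, v⁆ := by
  simp only [lie_def]
  ext1 <;> simp only [br, Q, mk1, mk2, mk3, smul1, smul2, smul3] <;> ring

lemma lie_Esmul (c : E) (a v : L) : ⁅a, c • v⁆ = c • ⁅a, v⁆ := by
  simp only [lie_def]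
  ext1 <;> simp only [br, mk1, mk2, mk3, smul1, smul2, smul3] <;> ring

/-- parity class of the order -/
def P (i j : ℤ) (u : E) : Prop := u = 0 ∨ ((ofLex u.order).1 % 2 = i ∧ (ofLex u.order).2 % 2 = j)

lemma P_mul_sq (c x : E) (hc : c ≠ 0) (i j : ℤ) (hi : (ofLex c.order).1 % 2 = i) (hj : (ofLex c.order).2 % 2 = j) :
    P i j (c * x ^ 2) := by
  by_cases hx : x = 0
  · left; simp [hx]
  · right
    rw [sq, HahnSeries.order_mul hc (mul_ne_zero hx hx), HahnSeries.order_mul hx hx]
    simp only [ofLex_add, Prod.fst_add, Prod.snd_add]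
    omega

lemma order_add_of_ne {u w : E} (hu : u ≠ 0) (hw : w ≠ 0) (h : u.order ≠ w.order) :
    u + w ≠ 0 ∧ ((u + w).order = u.order ∨ (u + w).order = w.order) := by
  have hne : u + w ≠ 0 := by
    intro h0
    have : w = -u := by linear_combination h0
    exact h (by rw [this, HahnSeries.order_neg])
  refine ⟨hne, ?_⟩
  rcases lt_or_gt_of_ne h with h1 | h1
  · left
    have : (u + w).orderTop = u.orderTop := HahnSeries.orderTop_add_eq_left (by
      rw [← HahnSeries.order_eq_orderTop_of_ne_zero hu, ← HahnSeries.order_eq_orderTop_of_ne_zero hw]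
      exact_mod_cast h1)
    rw [← HahnSeries.order_eq_orderTop_of_ne_zero hu, ← HahnSeries.order_eq_orderTop_of_ne_zero hne] at this
    exact_mod_cast this
  · right
    have : (u + w).orderTop = w.orderTop := HahnSeries.orderTop_add_eq_right (by
      rw [← HahnSeries.order_eq_orderTop_of_ne_zero hu, ← HahnSeries.order_eq_orderTop_of_ne_zero hw]
      exact_mod_cast h1)
    rw [← HahnSeries.order_eq_orderTop_of_ne_zero hw, ← HahnSeries.order_eq_orderTop_of_ne_zero hne] at this
    exact_mod_cast this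

lemma Q_spec (a : L) (ha : a ≠ 0) : Q a ≠ 0 ∧ (Q a).order ≠ 0 := by
  have h1 : P 0 1 (t * a.1 ^ 2) := P_mul_sq _ _ t_ne _ _ (by rw [t_ord]; simp) (by rw [t_ord]; simp)
  have h2 : P 1 0 (s * a.2.1 ^ 2) := P_mul_sq _ _ s_ne _ _ (by rw [s_ord]; simp) (by rw [s_ord]; simp)
  have h3 : P 1 1 (s * t * a.2.2 ^ 2) := P_mul_sq _ _ (mul_ne_zero s_ne t_ne) _ _
    (by rw [HahnSeries.order_mul s_ne t_ne, s_ord, t_ord]; simp)
    (by rw [HahnSeries.order_mul s_ne t_ne, s_ord, t_ord]; simp)
  have hnz : ¬ (t * a.1 ^ 2 = 0 ∧ s * a.2.1 ^ 2 = 0 ∧ s * t * a.2.2 ^ 2 = 0) := by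
    rintro ⟨e1, e2, e3⟩
    apply ha
    ext1
    · simpa [t_ne] using e1
    · simpa [s_ne] using e2
    · simpa [s_ne, t_ne] using e3
  unfold Q
  generalize t * a.1 ^ 2 = A at *
  generalize s * a.2.1 ^ 2 = B at *
  generalize s * t * a.2.2 ^ 2 = C at *
  have key : ∀ u : E, u.order = 0 → (ofLex u.order).1 % 2 = 0 ∧ (ofLex u.order).2 % 2 = 0 := by
    intro u hu; rw [hu]; simp
  have two : ∀ (u w : E) (i j k l : ℤ), u ≠ 0 → w ≠ 0 → P i j u → P k l w → (i ≠ k ∨ j ≠ l) →
      u + w ≠ 0 ∧ (P i j (u + w) ∨ P k l (u + w)) := by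
    intro u w i j k l hu hw pu pw hd
    rcases pu with pu | pu
    · exact absurd pu hu
    rcases pw with pw | pw
    · exact absurd pw hw
    obtain ⟨h0, h⟩ := order_add_of_ne hu hw (by intro e; rw [e] at pu; omega)
    refine ⟨h0, ?_⟩
    rcases h with h | h
    · left; right; rw [h]; exact pu
    · right; right; rw [h]; exact pw
  have fin : ∀ (u : E), u ≠ 0 → (P 0 1 u ∨ P 1 0 u ∨ P 1 1 u) → u ≠ 0 ∧ u.order ≠ 0 := by
    intro u hu h
    refine ⟨hu, fun h0 => ?_⟩
    have := key u h0
    rcases h with h | h | h <;> rcases h with h | h <;> first | exact hu h | omega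
  by_cases hA : A = 0 <;> by_cases hB : B = 0 <;> by_cases hC : C = 0
  · exact absurd ⟨hA, hB, hC⟩ hnz
  · rw [hA, hB, zero_add, zero_add]; exact fin _ hC (by tauto)
  · rw [hA, hC, zero_add, add_zero]; exact fin _ hB (by tauto)
  · rw [hA, zero_add]
    obtain ⟨h0, h⟩ := two _ _ _ _ _ _ hB hC h2 h3 (by simp)
    exact fin _ h0 (by tauto)
  · rw [hB, hC, add_zero, add_zero]; exact fin _ hA (by tauto)
  · rw [hB, add_zero]
    obtain ⟨h0, h⟩ := two _ _ _ _ _ _ hA hC h1 h3 (by simp)
    exact fin _ h0 (by tauto)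
  · rw [hC, add_zero]
    obtain ⟨h0, h⟩ := two _ _ _ _ _ _ hA hB h1 h2 (by simp)
    exact fin _ h0 (by tauto)
  · obtain ⟨h0, h⟩ := two _ _ _ _ _ _ hA hB h1 h2 (by simp)
    rcases h with h | h
    · obtain ⟨h0', h'⟩ := two _ _ _ _ _ _ h0 hC h h3 (by simp)
      exact fin _ h0' (by tauto)
    · obtain ⟨h0', h'⟩ := two _ _ _ _ _ _ h0 hC h h3 (by simp)
      exact fin _ h0' (by tauto)

lemma transc (u : E) (hu : u ≠ 0) (ho : u.order ≠ 0) : Transcendental ℚ u := by
  let v := AddValuation.toValuation (HahnSeries.addVal G ℚ)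
  have : v.IsTrivialOn ℚ := ⟨fun a ha => by
    have : algebraMap ℚ E a = HahnSeries.single 0 a := rfl
    rw [this]
    show Multiplicative.ofAdd (OrderDual.toDual (HahnSeries.addVal G ℚ (HahnSeries.single 0 a))) = 1
    rw [HahnSeries.addVal_apply, HahnSeries.orderTop_single ha]
    rfl⟩
  refine Valuation.transcendental_of_ne_one ℚ (v := v) u hu ?_
  intro h
  have h' : Multiplicative.ofAdd (OrderDual.toDual (HahnSeries.addVal G ℚ u)) = 1 := h
  rw [HahnSeries.addVal_apply_of_ne hu] at h'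
  apply ho
  have h2 : ((u.order : G) : WithTop G) = 0 := h'
  exact_mod_cast h2

theorem adPure (a : L) (V : Submodule ℚ L) (hV : FiniteDimensional ℚ V)
    (hinv : ∀ v ∈ V, ⁅a, v⁆ ∈ V) : ∀ v ∈ V, ⁅a, v⁆ = 0 := by
  intro v hv
  by_contra hw
  have ha : a ≠ 0 := by rintro rfl; simp at hw
  obtain ⟨q0, q1⟩ := Q_spec a ha
  have htr : Transcendental ℚ (-Q a) := transc _ (neg_ne_zero.2 q0) (by rwa [HahnSeries.order_neg])
  set c := -Q a with hc
  have hmem : ∀ n : ℕ, c ^ n • ⁅a, v⁆ ∈ V := by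
    intro n
    induction n with
    | zero => simpa using hinv v hv
    | succ n ih =>
      have := hinv _ (hinv _ ih)
      rw [lie_Esmul, lie_Esmul, cube, smul_smul, ← hc, ← pow_succ] at this
      exact this
  let f : Polynomial ℚ →ₗ[ℚ] L :=
    ((LinearMap.toSpanSingleton E L ⁅a, v⁆).restrictScalars ℚ) ∘ₗ (Polynomial.aeval c).toLinearMap
  have hf : ∀ p, f p = (Polynomial.aeval c p) • ⁅a, v⁆ := fun p => rfl
  have hfV : ∀ p, f p ∈ V := by
    intro p
    induction p using Polynomial.induction_on' with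
    | add p q hp hq => rw [map_add]; exact V.add_mem hp hq
    | monomial n r =>
      rw [hf, Polynomial.aeval_monomial, mul_smul, algebraMap_smul]
      exact V.smul_mem _ (hmem n)
  have hinj : Function.Injective (f.codRestrict V hfV) := by
    rw [injective_iff_map_eq_zero]
    intro p hp
    have h1 : f p = 0 := congrArg Subtype.val hp
    rw [hf, smul_eq_zero] at h1
    rcases h1 with h1 | h1
    · by_contra hp0
      exact htr ⟨p, hp0, h1⟩
    · exact absurd h1 hw
  have := FiniteDimensional.of_injective _ hinj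
  exact Polynomial.not_finite (R := ℚ) this

theorem simple : LieAlgebra.IsSimple ℚ L := by
  constructor
  · intro I
    by_cases hI : I = ⊥
    · exact Or.inl hI
    right
    obtain ⟨a, haI, ha⟩ : ∃ a ∈ I, a ≠ 0 := by
      by_contra h
      push Not at h
      exact hI ((LieSubmodule.eq_bot_iff I).2 h)
    have cv : ∀ u w : L, u ∈ I.carrier → w = u → w ∈ I := fun u w h e => e ▸ h
    have c12 : (∀ l : E, mk l 0 0 ∈ I) → ∀ l : E, mk 0 l 0 ∈ I := by
      intro h l
      have := I.lie_mem (x := mk 0 0 1) (h (l / t))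
      refine cv _ _ this ?_
      rw [lie_def]
      ext1 <;> simp only [br, mk1, mk2, mk3] <;> field_simp [t_ne] <;> ring
    have c23 : (∀ l : E, mk 0 l 0 ∈ I) → ∀ l : E, mk 0 0 l ∈ I := by
      intro h l
      have := I.lie_mem (x := mk 1 0 0) (h l)
      refine cv _ _ this ?_
      rw [lie_def]
      ext1 <;> simp only [br, mk1, mk2, mk3] <;> ring
    have c31 : (∀ l : E, mk 0 0 l ∈ I) → ∀ l : E, mk l 0 0 ∈ I := by
      intro h l
      have := I.lie_mem (x := mk 0 1 0) (h (l / s))
      refine cv _ _ this ?_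
      rw [lie_def]
      ext1 <;> simp only [br, mk1, mk2, mk3] <;> field_simp [s_ne] <;> ring
    have h1 : ∀ l : E, mk l 0 0 ∈ I := by
      by_cases hy : a.2.1 = 0
      · by_cases hz : a.2.2 = 0
        · have hx : a.1 ≠ 0 := fun hx => ha (L.ext hx hy hz)
          apply c31
          intro l
          have := I.lie_mem (x := mk 0 (-l / a.1) 0) haI
          refine cv _ _ this ?_
          rw [lie_def]
          ext1 <;> simp only [br, mk1, mk2, mk3, hy, hz] <;> field_simp <;> ring
        · intro l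
          have hs := s_ne
          have ht := t_ne
          have := I.lie_mem (x := mk 0 0 (l / (s * t * a.2.2))) (I.lie_mem (x := mk 1 0 0) haI)
          refine cv _ _ this ?_
          rw [lie_def, lie_def]
          ext1 <;> simp only [br, mk1, mk2, mk3] <;> field_simp <;> ring
      · intro l
        have hs := s_ne
        have := I.lie_mem (x := mk 0 (l / (s * a.2.1)) 0) (I.lie_mem (x := mk 1 0 0) haI)
        refine cv _ _ this ?_
        rw [lie_def, lie_def]
        ext1 <;> simp only [br, mk1, mk2, mk3] <;> field_simp <;> ring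
    rw [eq_top_iff]
    intro b _
    have : b = mk b.1 0 0 + mk 0 b.2.1 0 + mk 0 0 b.2.2 := by ext1 <;> simp
    rw [this]
    exact I.add_mem (I.add_mem (h1 _) (c12 h1 _)) (c23 (c12 h1) _)
  · intro h
    have := h.trivial (mk 1 0 0) (mk 0 1 0)
    have h3 := congrArg (fun u : L => u.2.2) this
    simp [lie_def, br] at h3

end

end Pool.Agent.Lib.Helper21.AdPure
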