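import Mathlib

set_option autoImplicit false

namespace Pool.Agent.Lib.Helper21.Aor1

open Complex Set Filter Metric Topology MeasureTheory intervalIntegral

lemma vsum {t : ℝ} (ht : |t| ≤ 7) (N m : ℕ) :
    ∑ n ∈ Finset.range m, |t| / (1 + (((n : ℝ) - N) * t) ^ 2) ≤ 400 := by
  have k (y : ℝ) : |t| / (1 + y ^ 2) ≤ 99 * (Real.arctan (y + |t|) - Real.arctan y) := by
    have a := abs_nonneg t
    rw [← integral_one_div_one_add_sq, ← intervalIntegral.integral_const_mul]
    refine le_trans (le_of_eq ?_) (intervalIntegral.integral_mono_on (f := fun _ => 1 / (1 + y ^ 2))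
      (by linarith) (by simp) (Continuous.intervalIntegrable (by
        fun_prop (disch := intro x; positivity)) _ _) fun x hx => ?_)
    · simp [div_eq_mul_inv]
    · rw [mul_one_div, div_le_div_iff₀ (by positivity) (by positivity)]
      nlinarith [hx.1, hx.2, sq_nonneg (x - 2 * y), mul_self_le_mul_self (sub_nonneg.2 hx.1)
        (show x - y ≤ 7 by linarith [hx.2])]
  calc _ ≤ ∑ n ∈ Finset.range m, 99 * (Real.arctan ((((n + 1 : ℕ) : ℝ) - N) * |t|) -
        Real.arctan (((n : ℝ) - N) * |t|)) := Finset.sum_le_sum fun n _ => by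
        have := k (((n : ℝ) - N) * |t|)
        rw [mul_pow, sq_abs, ← mul_pow] at this
        rwa [show (((n + 1 : ℕ) : ℝ) - N) * |t| = ((n : ℝ) - N) * |t| + |t| by push_cast; ring]
    _ ≤ 400 := by
      rw [← Finset.mul_sum, Finset.sum_range_sub (fun n : ℕ => Real.arctan (((n : ℝ) - N) * |t|))]
      exact (mul_le_mul_of_nonneg_left (sub_le_sub (Real.arctan_lt_pi_div_two _).le
        (Real.neg_pi_div_two_lt_arctan _).le) (by norm_num)).trans (by linarith [Real.pi_le_four])

lemma ne1 (x : ℝ) : ‖1 - cexp (x * I)‖ ≤ |x| := by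
  rw [norm_sub_rev, mul_comm]
  exact Real.norm_exp_I_mul_ofReal_sub_one_le

lemma kap {t : ℝ} (ht : |t| ≤ 7) (y : ℝ) :
    ‖∫ v in (0 : ℝ)..1, (1 - v : ℂ) * (1 - cexp ((t * v : ℝ) * I)) * cexp ((y * v : ℝ) * I)‖ ≤
      12 * (|t| / (1 + y ^ 2)) := by
  have a := abs_nonneg t
  have e (c : ℝ) (v : ℂ) : HasDerivAt (fun v : ℂ => cexp (c * v * I)) (cexp (c * v * I) * (c * I)) v := by
    simpa using (((hasDerivAt_id v).const_mul (c : ℂ)).mul_const I).cexp
  have h1 : ‖∫ v in (0 : ℝ)..1, (1 - v : ℂ) * (1 - cexp ((t * v : ℝ) * I)) * cexp ((y * v : ℝ) * I)‖ ≤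
      |t| := by
    refine (intervalIntegral.norm_integral_le_of_norm_le_const (C := |t|) fun v hv => ?_).trans (by simp)
    rw [uIoc_of_le zero_le_one] at hv
    rw [norm_mul, norm_mul, norm_exp_ofReal_mul_I, mul_one,
      show (1 - v : ℂ) = (1 - v : ℝ) by simp, norm_real, Real.norm_of_nonneg (by linarith [hv.2])]
    have := ne1 (t * v)
    rw [abs_mul, abs_of_pos hv.1] at this
    nlinarith [hv.1, hv.2, norm_nonneg (1 - cexp ((t * v : ℝ) * I)), mul_nonneg a hv.1.le]
  have h2 := integral_eq_sub_of_hasDerivAt (a := 0) (b := 1)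
    (f := fun v : ℝ => (fun v : ℂ => (-(I * y) * ((1 - v) * (1 - cexp (t * v * I))) +
      (-(1 - cexp (t * v * I)) - I * t * (1 - v) * cexp (t * v * I))) * cexp (y * v * I)) v)
    (f' := fun v : ℝ => (y : ℂ) ^ 2 * ((1 - v : ℂ) * (1 - cexp ((t * v : ℝ) * I)) * cexp ((y * v : ℝ) * I)) +
      (2 * I * t + t ^ 2 * (1 - v)) * cexp ((t * v : ℝ) * I) * cexp ((y * v : ℝ) * I))
    (fun v _ => by
      have d := (hasDerivAt_id (v : ℂ)).const_sub 1
      have d1 := (e t v).const_sub 1
      refine ((((((d.mul d1).const_mul (-(I * y))).add (d1.neg.sub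
        ((d.const_mul (I * t)).mul (e t v)))).mul (e y v))).comp_ofReal).congr_deriv ?_
      simp only [Pi.mul_apply, Pi.add_apply, Pi.sub_apply, Pi.neg_apply, id]
      push_cast
      linear_combination (cexp (y * v * I) * (-(y : ℂ) ^ 2 * ((1 - v) * (1 - cexp (t * v * I))) -
        t ^ 2 * (1 - v) * cexp (t * v * I))) * I_sq) (Continuous.intervalIntegrable (by fun_prop) _ _)
  rw [integral_add (Continuous.intervalIntegrable (by fun_prop) _ _)
    (Continuous.intervalIntegrable (by fun_prop) _ _), intervalIntegral.integral_const_mul] at h2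
  have h3 : ‖∫ v in (0 : ℝ)..1, (2 * I * t + t ^ 2 * (1 - v)) * cexp ((t * v : ℝ) * I) *
      cexp ((y * v : ℝ) * I)‖ ≤ 9 * |t| := by
    refine (intervalIntegral.norm_integral_le_of_norm_le_const (C := 9 * |t|) fun v hv => ?_).trans (by simp)
    rw [uIoc_of_le zero_le_one] at hv
    rw [norm_mul, norm_mul, norm_exp_ofReal_mul_I, norm_exp_ofReal_mul_I, mul_one, mul_one,
      show (1 - v : ℂ) = (1 - v : ℝ) by simp]
    refine (norm_add_le _ _).trans ?_
    simp only [norm_mul, norm_pow, norm_real, norm_I, Real.norm_eq_abs, norm_ofNat]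
    rw [abs_of_nonneg (show 0 ≤ 1 - v by linarith [hv.2])]
    nlinarith [hv.1, hv.2, mul_nonneg (sq_nonneg |t|) hv.1.le]
  have h4 := ne1 t
  generalize (∫ v in (0 : ℝ)..1, (1 - v : ℂ) * (1 - cexp ((t * v : ℝ) * I)) *
    cexp ((y * v : ℝ) * I)) = A at *
  generalize (∫ v in (0 : ℝ)..1, (2 * I * t + t ^ 2 * (1 - v)) * cexp ((t * v : ℝ) * I) *
      cexp ((y * v : ℝ) * I)) = B at *
  have h5 : (y : ℂ) ^ 2 * A = -(1 - cexp (t * I)) * cexp (y * I) + I * t - B := by
    simp at h2 ⊢; linear_combination h2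
  have h6 : y ^ 2 * ‖A‖ ≤ 11 * |t| := by
    have := congrArg norm h5
    rw [norm_mul, norm_pow, norm_real, Real.norm_eq_abs, sq_abs] at this
    have k := (norm_sub_le (-(1 - cexp (t * I)) * cexp (y * I) + I * t) B).trans
      (add_le_add (norm_add_le _ _) h3)
    rw [norm_mul, norm_neg, norm_exp_ofReal_mul_I, norm_mul, norm_I, norm_real,
      Real.norm_eq_abs] at k
    linarith
  rw [← mul_div_assoc, le_div_iff₀ (by positivity)]
  linarith

lemma abel {c : ℕ → ℂ} {M : ℝ} (h : ∀ N, ‖∑ n ∈ Finset.range (N + 1), c n‖ ≤ M) {z : ℂ}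
    (hz : ‖z‖ < 1) : ∑' n, c n * z ^ n =
      ∑' n, (∑ k ∈ Finset.range (n + 1), c k) * ((1 - z) * z ^ n) := by
  have g := summable_geometric_of_lt_one (norm_nonneg z) hz
  have s1 : Summable fun n => (∑ k ∈ Finset.range (n + 1), c k) * z ^ n :=
    .of_norm_bounded (g.mul_left M) fun n => by rw [norm_mul, norm_pow]; gcongr; exact h n
  have s2 : Summable fun n => (∑ k ∈ Finset.range n, c k) * z ^ n :=
    (summable_nat_add_iff 1).1 ((s1.mul_left z).congr fun n => by ring)
  calc ∑' n, c n * z ^ n = ∑' n, ((∑ k ∈ Finset.range (n + 1), c k) * z ^ n -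
        (∑ k ∈ Finset.range n, c k) * z ^ n) := tsum_congr fun n => by
        rw [Finset.sum_range_succ]; ring
    _ = _ := by
      rw [s1.tsum_sub s2, s2.tsum_eq_zero_add, Finset.sum_range_zero, zero_mul, zero_add,
        ← s1.tsum_sub ((summable_nat_add_iff 1).2 s2)]
      exact tsum_congr fun n => by ring

lemma bd {c : ℕ → ℂ} {M : ℝ} (h : ∀ N, ‖∑ n ∈ Finset.range (N + 1), c n‖ ≤ M) {r : ℝ}
    (r0 : 0 ≤ r) (r1 : r < 1) : ‖∑' n, c n * (r : ℂ) ^ n‖ ≤ M := by
  rw [abel h (by simpa [abs_of_nonneg r0])]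
  refine tsum_of_norm_bounded (g := fun n => M * (1 - r) * r ^ n) ?_ fun n => ?_
  · have := (hasSum_geometric_of_lt_one r0 r1).mul_left (M * (1 - r))
    rwa [mul_assoc, mul_inv_cancel₀ (by linarith), mul_one] at this
  · rw [norm_mul, norm_mul, norm_pow, show (1 - r : ℂ) = (1 - r : ℝ) by simp, norm_real, norm_real,
      Real.norm_of_nonneg r0, Real.norm_of_nonneg (by linarith), mul_assoc]
    exact mul_le_mul_of_nonneg_right (h n) (mul_nonneg (by linarith) (by positivity))

lemma ramp {c : ℕ → ℂ} {M : ℝ} (h : ∀ N, ‖∑ n ∈ Finset.range (N + 1), c n‖ ≤ M) {r t : ℝ}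
    (r0 : 0 ≤ r) (r1 : r < 1) (ht : |t| ≤ 7) (N : ℕ) :
    ‖∫ v in (0 : ℝ)..1, (1 - v : ℂ) * (cexp ((-N * (t * v) : ℝ) * I) *
      ∑' n, c n * (r * cexp ((t * v : ℝ) * I)) ^ n)‖ ≤ 5000 * M := by
  have M0 : 0 ≤ M := (norm_nonneg _).trans (h 0)
  have g := summable_geometric_of_lt_one r0 r1
  have nz (v : ℝ) : ‖r * cexp ((t * v : ℝ) * I)‖ = r := by
    rw [norm_mul, norm_exp_ofReal_mul_I, mul_one, norm_real, Real.norm_of_nonneg r0]
  have b1 (n : ℕ) (v : ℝ) : ‖(∑ k ∈ Finset.range (n + 1), c k) *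
      ((1 - r * cexp ((t * v : ℝ) * I)) * (r * cexp ((t * v : ℝ) * I)) ^ n)‖ ≤ M * 2 * r ^ n := by
    rw [norm_mul, norm_mul, norm_pow, nz, mul_assoc]
    have := norm_sub_le 1 (r * cexp ((t * v : ℝ) * I))
    rw [nz, norm_one] at this
    gcongr
    · exact h n
    · linarith
  have n1 (v : ℝ) (hv : v ∈ uIoc (0 : ℝ) 1) : ‖(1 - v : ℂ)‖ ≤ 1 := by
    rw [uIoc_of_le zero_le_one] at hv
    rw [show (1 - v : ℂ) = (1 - v : ℝ) by simp, norm_real, Real.norm_of_nonneg (by linarith [hv.2])]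
    linarith [hv.1]
  have H := intervalIntegral.hasSum_integral_of_dominated_convergence (μ := volume) (a := 0) (b := 1)
    (F := fun (n : ℕ) (v : ℝ) => (1 - v : ℂ) * (cexp ((-N * (t * v) : ℝ) * I) *
      ((∑ k ∈ Finset.range (n + 1), c k) *
      ((1 - r * cexp ((t * v : ℝ) * I)) * (r * cexp ((t * v : ℝ) * I)) ^ n))))
    (f := fun v : ℝ => (1 - v : ℂ) * (cexp ((-N * (t * v) : ℝ) * I) *
      ∑' n, c n * (r * cexp ((t * v : ℝ) * I)) ^ n)) (fun n _ => M * 2 * r ^ n)
    (fun n => Continuous.aestronglyMeasurable (by fun_prop))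
    (fun n => .of_forall fun v hv => by
      rw [norm_mul, norm_mul, norm_exp_ofReal_mul_I, one_mul]
      exact (mul_le_of_le_one_left (norm_nonneg _) (n1 v hv)).trans (b1 n v))
    (.of_forall fun _ _ => g.mul_left _) (by simp)
    (.of_forall fun v _ => by
      rw [abel h ((nz v).trans_lt r1)]
      exact ((Summable.of_norm_bounded (g.mul_left _) (b1 · v)).hasSum.mul_left _).mul_left _)
  refine le_of_tendsto' H.tendsto_sum_nat.norm fun m => (norm_sum_le _ _).trans ?_
  calc _ ≤ ∑ n ∈ Finset.range m, (M * (1 - r) * r ^ n +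
        M * 12 * (|t| / (1 + (((n : ℝ) - N) * t) ^ 2))) := Finset.sum_le_sum fun n _ => by
        have e : ∀ v : ℝ, (1 - v : ℂ) * (cexp ((-N * (t * v) : ℝ) * I) *
            ((∑ k ∈ Finset.range (n + 1), c k) *
            ((1 - r * cexp ((t * v : ℝ) * I)) * (r * cexp ((t * v : ℝ) * I)) ^ n))) =
            (∑ k ∈ Finset.range (n + 1), c k) * ((((1 - r) * r ^ n : ℝ) : ℂ) *
              ((1 - v) * cexp ((((n : ℝ) - N) * t * v : ℝ) * I)) + (r ^ (n + 1) : ℝ) *
              ((1 - v : ℂ) * (1 - cexp ((t * v : ℝ) * I)) * cexp ((((n : ℝ) - N) * t * v : ℝ) * I))) :=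
          fun v => by
          rw [show cexp ((((n : ℝ) - N) * t * v : ℝ) * I) = cexp ((-N * (t * v) : ℝ) * I) *
            cexp ((t * v : ℝ) * I) ^ n by
            rw [← Complex.exp_nat_mul, ← Complex.exp_add]; congr 1; push_cast; ring]
          generalize cexp ((-N * (t * v) : ℝ) * I) = A
          generalize cexp ((t * v : ℝ) * I) = B
          push_cast; ring
        simp_rw [e]
        rw [intervalIntegral.integral_const_mul, integral_add (Continuous.intervalIntegrable
          (by fun_prop) _ _) (Continuous.intervalIntegrable (by fun_prop) _ _),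
          intervalIntegral.integral_const_mul, intervalIntegral.integral_const_mul, norm_mul,
          mul_assoc, mul_assoc, ← mul_add]
        refine mul_le_mul (h n) ((norm_add_le _ _).trans (add_le_add ?_ ?_)) (norm_nonneg _) M0
        · rw [norm_mul, norm_real, Real.norm_of_nonneg (mul_nonneg (by linarith) (by positivity))]
          refine mul_le_of_le_one_right (mul_nonneg (by linarith) (by positivity))
            ((intervalIntegral.norm_integral_le_of_norm_le_const (C := 1) fun v hv => ?_).trans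
              (by simp))
          rw [norm_mul, norm_exp_ofReal_mul_I, mul_one]
          exact n1 v hv
        · rw [norm_mul, norm_real, Real.norm_of_nonneg (by positivity)]
          exact (mul_le_of_le_one_left (norm_nonneg _) (pow_le_one₀ r0 r1.le)).trans (kap ht _)
    _ ≤ _ := by
      rw [Finset.sum_add_distrib, ← Finset.mul_sum, ← Finset.mul_sum, mul_assoc, mul_comm (1 - r),
        geom_sum_mul_neg]
      nlinarith [vsum ht N m, pow_nonneg r0 m, mul_nonneg M0 (pow_nonneg r0 m)]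

lemma rl {ψ : ℝ → ℂ} (hψ : Continuous ψ) {L t : ℝ} (t0 : 0 ≤ t) (tL : t ≤ L) :
    ∫ x in (0 : ℝ)..L, (max (t - x) 0 : ℝ) * ψ x =
      (t ^ 2 : ℝ) * ∫ v in (0 : ℝ)..1, (1 - v : ℂ) * ψ (t * v) := by
  have c : Continuous fun x : ℝ => ((max (t - x) 0 : ℝ) : ℂ) * ψ x := by fun_prop
  rw [← integral_add_adjacent_intervals (c.intervalIntegrable 0 t) (c.intervalIntegrable t L),
    integral_congr (a := t) (g := fun _ => 0) fun x hx => by
      rw [uIcc_of_le tL] at hx
      simp [max_eq_right (sub_nonpos.2 hx.1)],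
    integral_congr (a := 0) (g := fun x => (t - x : ℂ) * ψ x) fun x hx => by
      rw [uIcc_of_le t0] at hx
      simp [max_eq_left (sub_nonneg.2 hx.2)]]
  have := smul_integral_comp_mul_left (a := 0) (b := 1) (fun x : ℝ => (t - x : ℂ) * ψ x) t
  simp only [mul_zero, mul_one] at this
  rw [← this, intervalIntegral.integral_zero, add_zero, real_smul,
    ← intervalIntegral.integral_const_mul, ← intervalIntegral.integral_const_mul]
  exact integral_congr fun v _ => by push_cast; ring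

lemma side {ψ : ℝ → ℂ} (hψ : Continuous ψ) {L K p q m : ℝ} (p0 : 0 ≤ p) (q0 : 0 ≤ q) (m0 : 0 ≤ m)
    (mL : m ≤ L)
    (h : ∀ t ∈ Icc 0 L, ‖∫ v in (0 : ℝ)..1, (1 - v : ℂ) * ψ (t * v)‖ ≤ K / 2) :
    ‖∫ x in (0 : ℝ)..L, (p * max (L - x) 0 + q * max (m - x) 0 : ℝ) * ψ x‖ ≤
      K * ∫ x in (0 : ℝ)..L, (p * max (L - x) 0 + q * max (m - x) 0) := by
  have k (t : ℝ) (ht : t ∈ Icc 0 L) : ‖∫ x in (0 : ℝ)..L, (max (t - x) 0 : ℝ) * ψ x‖ ≤
      K * ∫ x in (0 : ℝ)..L, max (t - x) 0 := by
    have e := rl (ψ := fun _ => 1) continuous_const ht.1 ht.2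
    simp only [mul_one] at e
    rw [integral_ofReal, show ∫ v in (0 : ℝ)..1, (1 - v : ℂ) = ((1 / 2 : ℝ) : ℂ) by
      rw [integral_sub (by simp) (Continuous.intervalIntegrable (by fun_prop) _ _), integral_ofReal]
      simp; norm_num, ← ofReal_mul, ofReal_inj] at e
    rw [rl hψ ht.1 ht.2, e, norm_mul, norm_real, Real.norm_of_nonneg (sq_nonneg t)]
    nlinarith [h t ht, sq_nonneg t]
  simp_rw [ofReal_add, ofReal_mul, add_mul, mul_assoc]
  rw [integral_add (Continuous.intervalIntegrable (by fun_prop) _ _)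
    (Continuous.intervalIntegrable (by fun_prop) _ _), integral_add (Continuous.intervalIntegrable
    (by fun_prop) _ _) (Continuous.intervalIntegrable (by fun_prop) _ _)]
  simp only [intervalIntegral.integral_const_mul]
  refine (norm_add_le _ _).trans ?_
  rw [norm_mul, norm_mul, norm_real, norm_real, Real.norm_of_nonneg p0, Real.norm_of_nonneg q0]
  nlinarith [mul_le_mul_of_nonneg_left (k L ⟨m0.trans mL, le_rfl⟩) p0,
    mul_le_mul_of_nonneg_left (k m ⟨m0, mL⟩) q0]

lemma gap {φ : ℝ → ℂ} (hφ : Continuous φ) {α β K c : ℝ} (ab : α < β) (c0 : 0 ≤ c)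
    (h : ∀ x, x = α ∨ x = β → ∀ t, |t| ≤ β - α →
      ‖∫ v in (0 : ℝ)..1, (1 - v : ℂ) * φ (x + t * v)‖ ≤ K / 2) :
    ‖∫ x in α..β, (max (c - min (x - α) (β - x)) 0 : ℝ) * φ x‖ ≤
      K * ∫ x in α..β, max (c - min (x - α) (β - x)) 0 := by
  set L := β - α with hL
  have L0 : 0 < L := sub_pos.2 ab
  set m := min c (L / 2) with hm
  have m0 : 0 ≤ m := le_min c0 (by linarith)
  have mL : m ≤ L / 2 := min_le_right _ _
  have mc : m ≤ c := min_le_left _ _
  set u : ℝ → ℝ := fun x => (c - m) / L * max (L - x) 0 + 1 * max (m - x) 0 with hu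
  have cu : Continuous u := by fun_prop
  have e : ∀ x ∈ uIcc α β, max (c - min (x - α) (β - x)) 0 = u (x - α) + u (β - x) := fun x hx => by
    rw [uIcc_of_le ab.le] at hx
    have : u (x - α) + u (β - x) = c - m + max (m - (x - α)) 0 + max (m - (β - x)) 0 := by
      simp only [hu]
      rw [max_eq_left (show 0 ≤ L - (x - α) by linarith [hx.2]),
        max_eq_left (show 0 ≤ L - (β - x) by linarith [hx.1])]
      field_simp
      rw [hL]; ring
    rw [this, hm]
    simp only [max_def, min_def]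
    split_ifs <;> linarith
  have p0 : 0 ≤ (c - m) / L := div_nonneg (by linarith) L0.le
  have h1 := side (ψ := fun x => φ (α + x)) (by fun_prop) p0 zero_le_one m0 (show m ≤ L by linarith)
    fun t ht => h α (.inl rfl) t (by rw [abs_of_nonneg ht.1]; exact ht.2)
  have h2 := side (ψ := fun x => φ (β - x)) (K := K) (by fun_prop) p0 zero_le_one m0 (show m ≤ L by linarith)
    fun t ht => by
      simpa [sub_eq_add_neg] using h β (.inr rfl) (-t) (by rw [abs_neg, abs_of_nonneg ht.1]; exact ht.2)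
  have a1 := integral_comp_sub_right (a := α) (b := β) (fun x => (u x : ℂ) * φ (α + x)) α
  have a2 := integral_comp_sub_left (a := α) (b := β) (fun x => (u x : ℂ) * φ (β - x)) β
  have a3 := integral_comp_sub_right (a := α) (b := β) u α
  have a4 := integral_comp_sub_left (a := α) (b := β) u β
  simp only [sub_self, add_sub_cancel, sub_sub_cancel, ← hL] at a1 a2 a3 a4
  rw [integral_congr e, integral_congr (g := fun x => (u (x - α) : ℂ) * φ x + u (β - x) * φ x)
    fun x hx => by simp only [e x hx]; push_cast; ring,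
    integral_add (Continuous.intervalIntegrable (by fun_prop) _ _)
    (Continuous.intervalIntegrable (by fun_prop) _ _), integral_add (Continuous.intervalIntegrable
    (by fun_prop) _ _) (Continuous.intervalIntegrable (by fun_prop) _ _), a1, a2, a3, a4, mul_add]
  exact (norm_add_le _ _).trans (add_le_add h1 h2)

noncomputable def W (E : Set ℝ) (c x : ℝ) : ℝ := Eᶜ.indicator (fun x => max (c - infDist x E) 0) x

lemma W0 (E : Set ℝ) (c x : ℝ) : 0 ≤ W E c x := indicator_nonneg (fun _ _ => le_max_right _ _) x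

lemma iW {E : Set ℝ} (hE : IsClosed E) (c : ℝ) {φ : ℝ → ℂ} (hφ : Continuous φ) (a b : ℝ) :
    IntervalIntegrable (fun x => (W E c x : ℂ) * φ x) volume a b := by
  have := continuous_infDist_pt E
  have k : IntervalIntegrable (fun x => ((max (c - infDist x E) 0 : ℝ) : ℂ) * φ x) volume a b :=
    Continuous.intervalIntegrable (by fun_prop) _ _
  have e : (fun x => (W E c x : ℂ) * φ x) =
      Eᶜ.indicator fun x => ((max (c - infDist x E) 0 : ℝ) : ℂ) * φ x := by
    ext x; by_cases h : x ∈ Eᶜ <;> simp [W, indicator, h]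
  rw [e]
  exact ⟨k.1.indicator hE.measurableSet.compl, k.2.indicator hE.measurableSet.compl⟩

lemma iW' {E : Set ℝ} (hE : IsClosed E) (c a b : ℝ) : IntervalIntegrable (W E c) volume a b := by
  have := continuous_infDist_pt E
  have k : IntervalIntegrable (fun x => max (c - infDist x E) 0) volume a b :=
    Continuous.intervalIntegrable (by fun_prop) _ _
  exact ⟨k.1.indicator hE.measurableSet.compl, k.2.indicator hE.measurableSet.compl⟩

lemma ind {E : Set ℝ} (hE : IsClosed E) {φ : ℝ → ℂ} (hφ : Continuous φ) {a b K c : ℝ} (c0 : 0 ≤ c)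
    (ha : a ∈ E) (hb : b ∈ E) (ab : a ≤ b) (h0 : ∀ x ∈ E, ‖φ x‖ < K)
    (h : ∀ x ∈ E, ∀ t, |t| ≤ b - a → ‖∫ v in (0 : ℝ)..1, (1 - v : ℂ) * φ (x + t * v)‖ ≤ K / 2) :
    ‖∫ x in a..b, (W E c x : ℂ) * φ x‖ ≤ K * ∫ x in a..b, W E c x := by
  refine (IsClosed.mem_of_ge_of_forall_exists_gt
    (s := E ∩ {y | ‖∫ x in a..y, (W E c x : ℂ) * φ x‖ ≤ K * ∫ x in a..y, W E c x})
    ((hE.inter (isClosed_le (continuous_primitive (iW hE c hφ) a).norm
      ((continuous_primitive (iW' hE c) a).const_mul K))).inter isClosed_Icc)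
    ⟨ha, by simp⟩ ab fun x hx => ?_).2
  obtain ⟨⟨xE, hx⟩, xa, xb⟩ := hx
  suffices ∃ y ∈ E ∩ Ioc x b, ‖∫ z in x..y, (W E c z : ℂ) * φ z‖ ≤ K * ∫ z in x..y, W E c z by
    obtain ⟨y, hy, k⟩ := this
    refine ⟨y, ⟨hy.1, ?_⟩, hy.2⟩
    rw [mem_ofPred, ← integral_add_adjacent_intervals (iW hE c hφ a x) (iW hE c hφ x y),
      ← integral_add_adjacent_intervals (iW' hE c a x) (iW' hE c x y), mul_add]
    exact (norm_add_le _ _).trans (add_le_add hx k)
  obtain ⟨η, η0, hη⟩ := Metric.eventually_nhds_iff.1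
    (hφ.norm.continuousAt.eventually_lt_const (h0 x xE))
  by_cases k : ∃ y ∈ E ∩ Ioc x b, y < x + η
  · obtain ⟨y, hy, yη⟩ := k
    refine ⟨y, hy, ?_⟩
    rw [← intervalIntegral.integral_const_mul]
    refine intervalIntegral.norm_integral_le_of_norm_le hy.2.1.le (.of_forall fun z hz => ?_)
      ((iW' hE c x y).const_mul K)
    rw [norm_mul, norm_real, Real.norm_of_nonneg (W0 ..), mul_comm]
    refine mul_le_mul_of_nonneg_right (hη ?_).le (W0 ..)
    rw [Real.dist_eq, abs_of_pos (sub_pos.2 hz.1)]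
    linarith [hz.2]
  push Not at k
  obtain ⟨y, hy, my⟩ := (isCompact_Icc.inter_left hE).exists_isLeast
    (⟨b, hb, k b ⟨hb, xb, le_rfl⟩, le_rfl⟩ : (E ∩ Icc (x + η) b).Nonempty)
  have xy : x < y := by linarith [hy.2.1]
  have e : ∀ z ∈ Ioo x y, W E c z = max (c - min (z - x) (y - z)) 0 := fun z hz => by
    have g : ∀ w ∈ E, w ≤ x ∨ y ≤ w := fun w hw => by
      by_contra! n
      exact n.2.not_ge (my ⟨hw, k w ⟨hw, n.1, n.2.le.trans hy.2.2⟩, n.2.le.trans hy.2.2⟩)
    rw [W, indicator_of_mem (fun n => by rcases g z n with _ | _ <;> linarith [hz.1, hz.2])]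
    congr 2
    refine le_antisymm (le_min ((infDist_le_dist_of_mem xE).trans_eq ?_)
      ((infDist_le_dist_of_mem hy.1).trans_eq ?_)) ((le_infDist ⟨x, xE⟩).2 fun w hw => ?_)
    · rw [Real.dist_eq, abs_of_pos (sub_pos.2 hz.1)]
    · rw [Real.dist_eq, abs_sub_comm, abs_of_pos (sub_pos.2 hz.2)]
    · rw [Real.dist_eq]
      rcases g w hw with n | n
      · exact (min_le_left _ _).trans (by linarith [le_abs_self (z - w)])
      · exact (min_le_right _ _).trans (by linarith [neg_le_abs (z - w)])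
  refine ⟨y, ⟨hy.1, xy, hy.2.2⟩, ?_⟩
  have := gap hφ xy c0 (K := K) fun w hw t ht => h w (by rcases hw with rfl | rfl; exacts [xE, hy.1])
    t (by linarith [hy.2.2])
  simp only [integral_of_le xy.le, integral_Ioc_eq_integral_Ioo] at this ⊢
  rwa [setIntegral_congr_fun measurableSet_Ioo e, setIntegral_congr_fun measurableSet_Ioo
    (g := fun z => ((max (c - min (z - x) (y - z)) 0 : ℝ) : ℂ) * φ z) fun z hz => by simp only [e z hz]]

end Pool.Agent.Lib.Helper21.Aor1
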