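import Pool.Agent.Lib.helper21.Aor1

set_option autoImplicit false

namespace Pool.Agent.Lib.Helper21.Aor2

open Complex Set Filter Metric Topology MeasureTheory intervalIntegral Pool.Agent.Lib.Helper21.Aor1
open scoped Real

lemma ab {a : ℕ → ℂ} {M : ℝ} {z : ℂ} (hz : ‖z‖ = 1)
    (h : ∀ N, ‖∑ n ∈ Finset.range (N + 1), a n * z ^ n‖ ≤ M) (n : ℕ) : ‖a n‖ ≤ 2 * M := by
  have M0 : 0 ≤ M := (norm_nonneg _).trans (h 0)
  have : a n * z ^ n = ∑ k ∈ Finset.range (n + 1), a k * z ^ k - ∑ k ∈ Finset.range n, a k * z ^ k := by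
    rw [Finset.sum_range_succ]; ring
  have k := congrArg norm this
  rw [norm_mul, norm_pow, hz, one_pow, mul_one] at k
  refine k.trans_le ((norm_sub_le _ _).trans ?_)
  cases n with
  | zero => rw [Finset.sum_range_zero, norm_zero]; linarith [h 0]
  | succ n => linarith [h n, h (n + 1)]

lemma nz {r : ℝ} (r0 : 0 ≤ r) (v : ℝ) : ‖r * cexp (v * I)‖ = r := by
  rw [norm_mul, norm_exp_ofReal_mul_I, mul_one, norm_real, Real.norm_of_nonneg r0]

lemma coef {a : ℕ → ℂ} {A r : ℝ} (h : ∀ n, ‖a n‖ ≤ A) (r0 : 0 ≤ r) (r1 : r < 1) (α : ℝ) (N : ℕ) :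
    ∫ x in α..α + 2 * π, cexp ((-N * x : ℝ) * I) * ∑' n, a n * (r * cexp (x * I)) ^ n =
      2 * π * (a N * r ^ N) := by
  have g := (summable_geometric_of_lt_one r0 r1).mul_left A
  have b (n : ℕ) (x : ℝ) : ‖a n * (r * cexp (x * I)) ^ n‖ ≤ A * r ^ n := by
    rw [norm_mul, norm_pow, nz r0]; gcongr; exact h n
  have H := intervalIntegral.hasSum_integral_of_dominated_convergence (μ := volume) (a := α)
    (b := α + 2 * π)
    (F := fun (n : ℕ) (x : ℝ) => cexp ((-N * x : ℝ) * I) * (a n * (r * cexp (x * I)) ^ n))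
    (f := fun x : ℝ => cexp ((-N * x : ℝ) * I) * ∑' n, a n * (r * cexp (x * I)) ^ n)
    (fun n _ => A * r ^ n) (fun n => Continuous.aestronglyMeasurable (by fun_prop))
    (fun n => .of_forall fun v _ => by
      rw [norm_mul, norm_exp_ofReal_mul_I, one_mul]; exact b n v)
    (.of_forall fun _ _ => g) (by simp)
    (.of_forall fun v _ => (Summable.of_norm_bounded g (b · v)).hasSum.mul_left _)
  have e (n : ℕ) (x : ℝ) : cexp ((-N * x : ℝ) * I) * (a n * (r * cexp (x * I)) ^ n) =
      a n * r ^ n * cexp (((n - N : ℤ) * I) * x) := by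
    rw [show cexp (((n - N : ℤ) * I) * x) = cexp ((-N * x : ℝ) * I) * cexp (x * I) ^ n by
      rw [← Complex.exp_nat_mul, ← Complex.exp_add]; congr 1; push_cast; ring]
    ring
  simp_rw [e, intervalIntegral.integral_const_mul] at H
  rw [H.unique (hasSum_single N fun n hn => ?_)]
  · simp [mul_comm]
  · rw [integral_exp_mul_complex (mul_ne_zero (Int.cast_ne_zero.2 (by omega)) I_ne_zero),
      show ((n - N : ℤ) : ℂ) * I * (α + 2 * π : ℝ) = ((n - N : ℤ) * I) * α + (n - N : ℤ) * (2 * π * I) by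
        push_cast; ring, Complex.exp_add, exp_int_mul_two_pi_mul_I]
    simp

lemma small {E : Set ℝ} (hE : IsClosed E) (hn : E.Nonempty) (a b : ℝ) {ε : ℝ} (ε0 : 0 < ε) :
    ∃ δ > 0, ∫ x in a..b, W E δ x ≤ ε * δ := by
  have := intervalIntegral.tendsto_integral_filter_of_dominated_convergence (μ := volume) (a := a)
    (b := b) (l := atTop) (F := fun (k : ℝ) x => k * W E k⁻¹ x) (f := fun _ => 0) (fun _ => 1)
    (.of_forall fun k => (intervalIntegrable_iff.1
      ((iW' hE k⁻¹ a b).const_mul k)).aestronglyMeasurable)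
    ((eventually_gt_atTop 0).mono fun k k0 => .of_forall fun x _ => by
      rw [Real.norm_of_nonneg (mul_nonneg k0.le (W0 ..)), ← le_div_iff₀' k0, one_div]
      exact indicator_apply_le' (fun _ => max_le (sub_le_self _ infDist_nonneg) (by positivity))
        fun _ => by positivity) (by simp)
    (.of_forall fun x _ => by
      by_cases hx : x ∈ E
      · simp [W, hx]
      refine tendsto_const_nhds.congr' ((tendsto_inv_atTop_zero.eventually_lt_const
        ((hE.notMem_iff_infDist_pos hn).1 hx)).mono fun k hk => ?_)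
      simp [W, hx, max_eq_right (sub_nonpos.2 hk.le)])
  rw [intervalIntegral.integral_zero] at this
  obtain ⟨k, h1, h2⟩ := ((this.eventually_lt_const ε0).and (eventually_gt_atTop 0)).exists
  refine ⟨k⁻¹, inv_pos.2 h2, ?_⟩
  rw [intervalIntegral.integral_const_mul] at h1
  rw [← div_eq_mul_inv, le_div_iff₀' h2]
  exact h1.le

lemma toz {a : ℕ → ℂ} {E : Set ℝ} (hE : IsClosed E) {α M : ℝ} (ha : α ∈ E) (hb : α + 2 * π ∈ E)
    (h : ∀ x ∈ E, ∀ N, ‖∑ n ∈ Finset.range (N + 1), a n * cexp (x * I) ^ n‖ ≤ M)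
    (hl : ∀ δ > 0, ∃ B, ∀ r ∈ Ico (0 : ℝ) 1, ∀ x ∈ Icc α (α + 2 * π), δ ≤ infDist x E →
      ‖∑' n, a n * (r * cexp (x * I)) ^ n‖ ≤ B) : Tendsto a atTop (𝓝 0) := by
  have M0 : 0 ≤ M := (norm_nonneg _).trans (h α ha 0)
  have A := ab (norm_exp_ofReal_mul_I α) (h α ha)
  have p := Real.pi_gt_three
  have p' := Real.pi_lt_d2
  have ab : α < α + 2 * π := by linarith
  set K := 10000 * M + 1 with hK
  refine NormedAddGroup.tendsto_nhds_zero.2 fun ε ε0 => ?_
  obtain ⟨δ, δ0, hδ⟩ := small hE ⟨α, ha⟩ α (α + 2 * π) (show 0 < ε / (2 * K) by positivity)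
  obtain ⟨B, hB⟩ := hl (δ / 2) (by positivity)
  have key (r : ℝ) (hr : r ∈ Ioo (0 : ℝ) 1) (S : Finset ℕ) :
      ∑ N ∈ S, max (‖a N‖ * r ^ N - ε / 2) 0 ^ 2 ≤ max M B ^ 2 := by
    set f : ℝ → ℂ := fun x => ∑' n, a n * (r * cexp (x * I)) ^ n with hf
    have cf : Continuous f := continuous_tsum (by fun_prop)
      ((summable_geometric_of_lt_one hr.1.le hr.2).mul_left (2 * M)) fun n x => by
        rw [norm_mul, norm_pow, nz hr.1.le]; gcongr; exacts [pow_nonneg hr.1.le _, A n]
    have f0 (x : ℝ) (hx : x ∈ E) : ‖f x‖ ≤ M := by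
      refine le_trans (le_of_eq (congrArg _ (tsum_congr fun n => ?_))) (bd (h x hx) hr.1.le hr.2)
      ring
    set F : ℝ → ℂ := fun x => (1 - 2 / δ * (W E δ x - W E (δ / 2) x) : ℝ) * f x with hF
    have eF (φ : ℝ → ℂ) (x : ℝ) : φ x * F x = φ x * f x - (2 / δ : ℝ) *
        (W E δ x * (φ x * f x) - W E (δ / 2) x * (φ x * f x)) := by simp only [hF]; push_cast; ring
    have iF (φ : ℝ → ℂ) (c : Continuous φ) : IntervalIntegrable (fun x => ((2 / δ : ℝ) : ℂ) *
        (W E δ x * (φ x * f x) - W E (δ / 2) x * (φ x * f x))) volume α (α + 2 * π) :=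
      ((iW hE _ (c.mul cf) _ _).sub (iW hE _ (c.mul cf) _ _)).const_mul _
    have bF (x : ℝ) (hx : x ∈ Ioc α (α + 2 * π)) : ‖F x‖ ≤ max M B := by
      rw [hF, norm_mul, norm_real]
      by_cases xE : x ∈ E
      · simpa [W, xE] using .inl (f0 x xE)
      simp only [W, indicator_of_mem (show x ∈ Eᶜ from xE)]
      rcases le_total (δ / 2) (infDist x E) with k | k
      · refine (mul_le_of_le_one_left (norm_nonneg _) (abs_le.2 ?_)).trans
          ((hB r ⟨hr.1.le, hr.2⟩ x ⟨hx.1.le, hx.2⟩ k).trans (le_max_right _ _))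
        rw [max_eq_right (sub_nonpos.2 k), sub_zero, div_mul_eq_mul_div]
        have : 2 * max (δ - infDist x E) 0 / δ ≤ 1 := by
          rw [div_le_one δ0]; linarith [max_le (show δ - infDist x E ≤ δ / 2 by linarith) (half_pos δ0).le]
        have : 0 ≤ 2 * max (δ - infDist x E) 0 / δ := by positivity
        constructor <;> linarith
      · rw [max_eq_left (sub_nonneg.2 k), max_eq_left (show 0 ≤ δ - infDist x E by linarith),
          show 1 - 2 / δ * (δ - infDist x E - (δ / 2 - infDist x E)) = 0 by field_simp; ring]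
        simp [M0]
    have mF : AEStronglyMeasurable F (volume.restrict (Ioc α (α + 2 * π))) := by
      have := ((cf.intervalIntegrable α (α + 2 * π)).sub (iF (fun _ => 1) continuous_const)).1
      refine this.aestronglyMeasurable.congr (.of_forall fun x => ?_)
      simpa using (eF (fun _ => 1) x).symm
    have L2 : MemLp F 2 (volume.restrict (Ioc α (α + 2 * π))) :=
      .of_bound mF _ (ae_restrict_of_forall_mem measurableSet_Ioc bF)
    have P := hasSum_sq_fourierCoeffOn ab L2
    refine le_trans (Finset.sum_le_sum fun N _ => ?_) (((Finset.sum_map S ⟨Nat.cast, Nat.cast_injective⟩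
      fun i : ℤ => ‖fourierCoeffOn ab F i‖ ^ 2).ge.trans
      (sum_le_hasSum _ (fun _ _ => sq_nonneg _) P)).trans ?_)
    · refine pow_le_pow_left₀ (le_max_right _ _) (max_le ?_ (norm_nonneg _)) 2
      have c : Continuous fun x : ℝ => cexp ((-N * x : ℝ) * I) := by fun_prop
      have c2 : Continuous fun x : ℝ => cexp ((-N * x : ℝ) * I) * f x := c.mul cf
      have k (c' : ℝ) (c0 : 0 ≤ c') := ind hE c2 (K := K) c0 ha hb ab.le (fun x hx => by
        rw [norm_mul, norm_exp_ofReal_mul_I]; linarith [f0 x hx]) fun x hx t ht => by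
        have := ramp (h x hx) hr.1.le hr.2 (show |t| ≤ 7 by linarith) N
        replace this := mul_le_mul (norm_exp_ofReal_mul_I (-N * x)).le this (norm_nonneg _) zero_le_one
        rw [← norm_mul, ← intervalIntegral.integral_const_mul] at this
        refine le_trans (le_of_eq (congrArg _ (integral_congr fun v _ => ?_)))
          (this.trans (show 1 * (5000 * M) ≤ K / 2 by linarith))
        simp only [hf]
        rw [show ((-N * (x + t * v) : ℝ) : ℂ) * I = (-N * x : ℝ) * I + (-N * (t * v) : ℝ) * I by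
          push_cast; ring, show ((x + t * v : ℝ) : ℂ) * I = x * I + (t * v : ℝ) * I by
          push_cast; ring, Complex.exp_add, Complex.exp_add,
          tsum_congr (f := fun n => a n * cexp (x * I) ^ n * (r * cexp ((t * v : ℝ) * I)) ^ n)
          (g := fun n => a n * (r * (cexp (x * I) * cexp ((t * v : ℝ) * I))) ^ n) fun n => by ring]
        ring
      have w : ∫ x in α..α + 2 * π, W E (δ / 2) x ≤ ∫ x in α..α + 2 * π, W E δ x :=
        integral_mono_on ab.le (iW' hE ..) (iW' hE ..) fun x _ =>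
          indicator_le_indicator (max_le_max_right _ (by linarith))
      have e : fourierCoeffOn ab F N = a N * r ^ N - ((π * δ)⁻¹ : ℝ) *
          ((∫ x in α..α + 2 * π, W E δ x * (cexp ((-N * x : ℝ) * I) * f x)) -
          ∫ x in α..α + 2 * π, W E (δ / 2) x * (cexp ((-N * x : ℝ) * I) * f x)) := by
        rw [fourierCoeffOn_eq_integral, integral_congr (g := fun x => cexp ((-N * x : ℝ) * I) * F x)
          fun x _ => by
            simp only [fourier_coe_apply, smul_eq_mul]
            congr 2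
            have := ofReal_ne_zero.2 Real.pi_ne_zero
            push_cast; rw [add_sub_cancel_left]; field_simp]
        simp_rw [eF (fun x : ℝ => cexp ((-N * x : ℝ) * I))]
        rw [integral_sub (c2.intervalIntegrable _ _) (iF _ c), coef A hr.1.le hr.2,
          intervalIntegral.integral_const_mul,
          integral_sub (iW hE _ c2 _ _) (iW hE _ c2 _ _), add_sub_cancel_left, real_smul]
        have := ofReal_ne_zero.2 Real.pi_ne_zero
        have := ofReal_ne_zero.2 δ0.ne'
        generalize (∫ x in α..α + 2 * π, W E δ x * (cexp ((-N * x : ℝ) * I) * f x)) - _ = A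
        push_cast; field_simp
      simp only [Function.Embedding.coeFn_mk, e]
      refine le_trans ?_ (norm_sub_norm_le _ _)
      rw [norm_mul, norm_mul, norm_pow, norm_real, norm_real, Real.norm_of_nonneg hr.1.le,
        Real.norm_of_nonneg (by positivity)]
      gcongr
      rw [inv_mul_le_iff₀ (by positivity)]
      have K0 : 0 < K := by positivity
      have := mul_le_mul_of_nonneg_left hδ K0.le
      rw [show K * (ε / (2 * K) * δ) = ε * δ / 2 by field_simp] at this
      refine (norm_sub_le _ _).trans ((add_le_add (k δ δ0.le) (k _ (half_pos δ0).le)).trans ?_)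
      nlinarith [mul_le_mul_of_nonneg_left w K0.le, mul_pos ε0 δ0]
    · rw [smul_eq_mul, inv_mul_le_iff₀ (by linarith)]
      refine (Real.le_norm_self _).trans ((intervalIntegral.norm_integral_le_of_norm_le_const
        (C := max M B ^ 2) fun x hx => ?_).trans_eq ?_)
      · rw [uIoc_of_le ab.le] at hx
        rw [Real.norm_of_nonneg (sq_nonneg _)]
        exact pow_le_pow_left₀ (norm_nonneg _) (bF x hx) 2
      · rw [abs_of_pos (sub_pos.2 ab), mul_comm]
  have s : Summable fun N => max (‖a N‖ - ε / 2) 0 ^ 2 :=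
    summable_of_sum_le (c := max M B ^ 2) (fun _ => sq_nonneg _) fun S => by
      have c : Continuous fun r : ℝ => ∑ N ∈ S, max (‖a N‖ * r ^ N - ε / 2) 0 ^ 2 := by fun_prop
      have := le_of_tendsto ((c.tendsto 1).mono_left (nhdsWithin_le_nhds (s := Iio 1)))
        (mem_of_superset (Ioo_mem_nhdsLT zero_lt_one) fun r hr => key r hr S)
      simpa using this
  refine (s.tendsto_atTop_zero.eventually_lt_const (show 0 < (ε / 2) ^ 2 by positivity)).mono
    fun N hN => ?_
  linarith [le_max_left (‖a N‖ - ε / 2) 0, lt_of_pow_lt_pow_left₀ 2 (by positivity) hN]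

lemma riesz {a : ℕ → ℂ} (ha : Tendsto a atTop (𝓝 0)) {z : ℂ} (hz : ‖z‖ = 1) {ρ : ℝ} (ρ0 : 0 < ρ)
    {g : ℂ → ℂ} (hg : DifferentiableOn ℂ g (ball z ρ))
    (e : ∀ w ∈ ball z ρ, ‖w‖ < 1 → g w = ∑' n, a n * w ^ n) :
    Tendsto (fun N => ∑ n ∈ Finset.range N, a n * z ^ n) atTop (𝓝 (g z)) := by
  set Z : ℂ → ℂ := fun s => z * cexp (s * I) with hZ
  have dZ : Differentiable ℂ Z := by fun_prop
  have nZ (s : ℂ) : ‖Z s‖ = Real.exp (-s.im) := by simp [hZ, hz, Complex.norm_exp]
  obtain ⟨R, R0, hR⟩ := nhds_basis_closedBall.mem_iff.1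
    (inter_mem (dZ.continuous.continuousAt.preimage_mem_nhds (x := 0)
      (t := ball z ρ) (by simpa [hZ] using ball_mem_nhds z ρ0)) (closedBall_mem_nhds 0 one_pos))
  set D : ℕ → ℂ → ℂ := fun N s => cexp (-N * s * I) *
    (g (Z s) - ∑ n ∈ Finset.range N, a n * Z s ^ n) with hD
  have dD (N : ℕ) : DifferentiableOn ℂ (D N) (closedBall 0 R) :=
    .mul (by fun_prop) ((hg.comp dZ.differentiableOn fun s hs => (hR hs).1).sub (by fun_prop))
  rw [tendsto_iff_norm_sub_tendsto_zero]
  refine tendsto_order.2 ⟨fun b hb => .of_forall fun N => hb.trans_le (norm_nonneg _), fun ε ε0 => ?_⟩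
  obtain ⟨m, hm⟩ := eventually_atTop.1 (NormedAddGroup.tendsto_nhds_zero.1 ha (ε * R / 8) (by positivity))
  obtain ⟨B, hB⟩ := (isCompact_closedBall 0 R).exists_bound_of_continuousOn (dD m).continuousOn
  have B0 : 0 ≤ B := (norm_nonneg _).trans (hB 0 (mem_closedBall_self R0.le))
  refine eventually_atTop.2 ⟨m + (⌈8 * B / (ε * R)⌉₊ + 1), fun N hN => ?_⟩
  obtain ⟨k, rfl⟩ := Nat.exists_eq_add_of_le (le_self_add.trans hN)
  have kB : B ≤ ε * R / 8 * k := by
    have := (Nat.le_ceil (8 * B / (ε * R))).trans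
      (Nat.cast_le.2 (show ⌈8 * B / (ε * R)⌉₊ ≤ k by omega))
    rw [div_le_iff₀ (by positivity)] at this
    linarith
  have := Complex.norm_le_of_forall_mem_frontier_norm_le (U := ball (0 : ℂ) R) isBounded_ball
    (f := fun s => (s ^ 2 - R ^ 2) * D (m + k) s) (C := 2 * R * (ε * R / 4)) (z := 0)
    (DifferentiableOn.diffContOnCl (by
      rw [closure_ball _ R0.ne']; exact .mul (by fun_prop) (dD _))) (fun s hs => by
    rw [frontier_ball _ R0.ne', mem_sphere_zero_iff_norm] at hs
    have sR : s ∈ closedBall (0 : ℂ) R := mem_closedBall_zero_iff.2 hs.le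
    rw [show s ^ 2 - R ^ 2 = s * (2 * s.im : ℝ) * I by
      rw [← hs, ← ofReal_pow, ← normSq_eq_norm_sq, ← mul_conj, mul_assoc, ← sub_conj]; ring,
      norm_mul, norm_mul, norm_mul, hs, norm_I, mul_one, norm_real, norm_mul, Real.norm_two,
      Real.norm_eq_abs, ← mul_assoc, mul_comm R, mul_assoc]
    refine mul_le_mul_of_nonneg_left ?_ (by positivity)
    rcases lt_trichotomy s.im 0 with y | y | y
    · rw [abs_of_neg y]
      have q := Real.exp_pos s.im
      have q1 : Real.exp s.im * (1 - s.im) ≤ 1 := by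
        have := mul_le_mul_of_nonneg_left (Real.add_one_le_exp (-s.im)) q.le
        rw [← Real.exp_add, add_neg_cancel, Real.exp_zero] at this
        linarith
      have I1 (k : ℕ) : -s.im * ‖D (m + k) s‖ ≤ Real.exp s.im ^ k * (-s.im * B) + ε * R / 8 := by
        induction k with
        | zero => rw [add_zero, pow_zero]; nlinarith [hB s sR, mul_pos ε0 R0]
        | succ k ih =>
          have : D (m + (k + 1)) s = cexp (-s * I) * (D (m + k) s - a (m + k) * z ^ (m + k)) := by
            simp only [hD, hZ]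
            rw [← add_assoc, Finset.sum_range_succ, mul_pow, ← Complex.exp_nat_mul,
              show -((m + k + 1 : ℕ) : ℂ) * s * I = -s * I + -(m + k : ℕ) * s * I by push_cast; ring,
              Complex.exp_add]
            have : cexp (-(m + k : ℕ) * s * I) * cexp ((m + k : ℕ) * (s * I)) = 1 := by
              rw [← Complex.exp_add, ← Complex.exp_zero]; congr 1; ring
            linear_combination -cexp (-s * I) * a (m + k) * z ^ (m + k) * this
          have n1 := norm_sub_le (D (m + k) s) (a (m + k) * z ^ (m + k))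
          rw [norm_mul (a _), norm_pow, hz, one_pow, mul_one] at n1
          rw [this, norm_mul, Complex.norm_exp, show (-s * I).re = s.im by simp, pow_succ]
          have := mul_le_mul_of_nonneg_left (n1.trans (add_le_add_right
            (hm (m + k) le_self_add).le _)) (mul_pos q (neg_pos.2 y)).le
          nlinarith [mul_le_mul_of_nonneg_left ih q.le, mul_pos ε0 R0]
      have e2 := mul_le_mul_of_nonneg_left (Real.add_one_le_exp (k * -s.im)) (pow_pos q k).le
      have e1 : Real.exp s.im ^ k * Real.exp (k * -s.im) = 1 := by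
        rw [← Real.exp_nat_mul, ← Real.exp_add]; simp
      have := mul_le_mul_of_nonneg_left (mul_le_mul_of_nonneg_left kB (neg_pos.2 y).le) (pow_pos q k).le
      have e3 : Real.exp s.im ^ k * (k * -s.im) ≤ 1 := by nlinarith [pow_pos q k]
      nlinarith [I1 k, mul_le_mul_of_nonneg_left e3 (mul_pos ε0 R0).le]
    · rw [y]; simp; positivity
    · rw [abs_of_pos y]
      have z1 : ‖Z s‖ < 1 := by rw [nZ]; exact Real.exp_lt_one_iff.2 (neg_neg_of_pos y)
      obtain ⟨A, hA⟩ := ha.norm.bddAbove_range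
      have G := summable_geometric_of_lt_one (norm_nonneg _) z1
      have S : Summable fun n => a n * Z s ^ n := .of_norm_bounded (G.mul_left A) fun n => by
        rw [norm_mul, norm_pow]; gcongr; exact hA ⟨n, rfl⟩
      have : ‖D (m + k) s‖ ≤ ε * R / 8 * (1 - ‖Z s‖)⁻¹ := by
        simp only [hD]
        rw [e _ (hR sR).1 z1, ← S.sum_add_tsum_nat_add (m + k), add_sub_cancel_left, ← tsum_mul_left]
        refine tsum_of_norm_bounded ((hasSum_geometric_of_lt_one (norm_nonneg _) z1).mul_left _)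
          fun n => ?_
        rw [norm_mul, norm_mul, norm_pow, pow_add, Complex.norm_exp, nZ, ← Real.exp_nat_mul _ (m + k),
          mul_comm, mul_assoc, mul_assoc, ← Real.exp_add,
          show ((m + k : ℕ) : ℝ) * -s.im + (-((m + k : ℕ) : ℂ) * s * I).re = 0 by simp; ring,
          Real.exp_zero, mul_one]
        gcongr
        exact (hm _ (by omega)).le
      have y1 : s.im ≤ 1 := (im_le_norm s).trans (mem_closedBall_zero_iff.1 (hR sR).2)
      have : s.im * (1 - ‖Z s‖)⁻¹ ≤ 2 := by
        rw [← div_eq_mul_inv, div_le_iff₀ (sub_pos.2 z1), nZ]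
        have := mul_le_mul_of_nonneg_left (Real.add_one_le_exp s.im) (Real.exp_pos (-s.im)).le
        rw [← Real.exp_add, neg_add_cancel, Real.exp_zero] at this
        nlinarith [Real.exp_pos (-s.im)]
      nlinarith [mul_pos ε0 R0]) (subset_closure (mem_ball_self R0))
  simp [hD, hZ, abs_of_pos R0] at this
  rw [norm_sub_rev]
  nlinarith [mul_pos R0 R0, mul_pos ε0 (mul_pos R0 R0)]

end Pool.Agent.Lib.Helper21.Aor2
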