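import Mathlib

set_option maxHeartbeats 400000

open Set Filter Topology

namespace Pool.Agent.Lib.Helper21.Bast

universe u v

/-- `w` is the directional derivative `lim_{t → 0} t⁻¹ (f (x + t v) - f x)` -/
def HasDir {E F : Type u} [AddCommGroup E] [Module ℝ E] [AddCommGroup F] [Module ℝ F]
    [TopologicalSpace F] (f : E → F) (x v : E) (w : F) : Prop :=
  Tendsto (fun t : ℝ => t⁻¹ • (f (x + t • v) - f x)) (𝓝[≠] 0) (𝓝 w)

/-- Bastiani `C^k` maps on `U`: `C^0` is continuity; `f` is `C^{k+1}` if it is continuous, all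
directional derivatives `df(x)(v)`, `x ∈ U`, `v ∈ E`, exist and `df : U × E → F` is `C^k`. -/
def IsC {F : Type u} [AddCommGroup F] [Module ℝ F] [TopologicalSpace F] :
    ℕ → ∀ {E : Type u} [AddCommGroup E] [Module ℝ E] [TopologicalSpace E],
      (E → F) → Set E → Prop
  | 0, _, _, _, _, f, U => ContinuousOn f U
  | k + 1, E, _, _, _, f, U => ContinuousOn f U ∧ ∃ df : E × E → F,
      (∀ x ∈ U, ∀ v, HasDir f x v (df (x, v))) ∧ IsC k df (U ×ˢ univ)

/-- `C^k` maps between manifolds with atlases `A`, `B`: continuous and `C^k` in all charts -/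
def MapC {M N : Type v} [TopologicalSpace M] [TopologicalSpace N] {E F : Type u}
    [AddCommGroup E] [Module ℝ E] [TopologicalSpace E]
    [AddCommGroup F] [Module ℝ F] [TopologicalSpace F] (k : ℕ)
    (A : Set (OpenPartialHomeomorph M E)) (B : Set (OpenPartialHomeomorph N F)) (f : M → N) :
    Prop :=
  Continuous f ∧ ∀ φ ∈ A, ∀ ψ ∈ B,
    IsC k (ψ ∘ f ∘ φ.symm) (φ.target ∩ φ.symm ⁻¹' (f ⁻¹' ψ.source))

/-- the product atlas on `M × M` -/
def prodAtlas {M : Type v} [TopologicalSpace M] {E : Type u} [TopologicalSpace E]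
    (A : Set (OpenPartialHomeomorph M E)) : Set (OpenPartialHomeomorph (M × M) (E × E)) :=
  {e | ∃ φ ∈ A, ∃ ψ ∈ A, e = φ.prod ψ}

section calculus

lemma mvt {F : Type u} [AddCommGroup F] [Module ℝ F] [TopologicalSpace F]
    [IsTopologicalAddGroup F] [ContinuousSMul ℝ F] [LocallyConvexSpace ℝ F]
    {c c' : ℝ → F} {K : Set F} (hK : Convex ℝ K) (hKc : IsClosed K)
    (hc : ∀ s ∈ Icc (0:ℝ) 1, Tendsto (fun t : ℝ => t⁻¹ • (c (s + t) - c s)) (𝓝[≠] 0) (𝓝 (c' s)))
    (hm : ∀ s ∈ Icc (0:ℝ) 1, c' s ∈ K) : c 1 - c 0 ∈ K := by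
  by_contra h
  obtain ⟨l, r, h1, h2⟩ := geometric_hahn_banach_closed_point hK hKc h
  have hd : ∀ s ∈ Icc (0:ℝ) 1, HasDerivAt (fun s => l (c s)) (l (c' s)) s := by
    intro s hs
    rw [hasDerivAt_iff_tendsto_slope_zero]
    have := (l.continuous.tendsto _).comp (hc s hs)
    refine this.congr fun t => ?_
    simp
  obtain ⟨s, hs, e⟩ := exists_hasDerivAt_eq_slope (fun s => l (c s)) (fun s => l (c' s))
    zero_lt_one (fun s hs => (hd s hs).continuousAt.continuousWithinAt)
    (fun s hs => hd s (Ioo_subset_Icc_self hs))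
  have := h1 _ (hm s (Ioo_subset_Icc_self hs))
  rw [map_sub] at h2
  simp only [sub_zero, div_one] at e
  linarith

lemma key {E F : Type u} [AddCommGroup E] [Module ℝ E] [TopologicalSpace E]
    [IsTopologicalAddGroup E] [ContinuousSMul ℝ E] [LocallyConvexSpace ℝ E]
    [AddCommGroup F] [Module ℝ F] [TopologicalSpace F]
    [IsTopologicalAddGroup F] [ContinuousSMul ℝ F] [LocallyConvexSpace ℝ F]
    {f : E → F} {U : Set E} (hU : IsOpen U) {df : E × E → F}
    (hd : ∀ x ∈ U, ∀ v, HasDir f x v (df (x, v))) (hc : ContinuousOn df (U ×ˢ univ))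
    {x₀ w₀ : E} (hx : x₀ ∈ U) {a w : ℝ → E} (ha : Tendsto a (𝓝[≠] 0) (𝓝 x₀))
    (hw : Tendsto w (𝓝[≠] 0) (𝓝 w₀)) :
    Tendsto (fun t : ℝ => t⁻¹ • (f (a t + t • w t) - f (a t))) (𝓝[≠] 0) (𝓝 (df (x₀, w₀))) := by
  intro N hN
  obtain ⟨N', hN', hcl, hsub⟩ := exists_mem_nhds_isClosed_subset hN
  obtain ⟨K₀, ⟨hK₀, hconv⟩, hK₀N⟩ := (LocallyConvexSpace.convex_basis (𝕜 := ℝ) _).mem_iff.1 hN'
  have hKN : closure K₀ ⊆ N := (closure_minimal hK₀N hcl).trans hsub
  have hK : closure K₀ ∈ 𝓝 (df (x₀, w₀)) := mem_of_superset hK₀ subset_closure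
  have hca : ContinuousAt df (x₀, w₀) :=
    hc.continuousAt ((hU.prod isOpen_univ).mem_nhds ⟨hx, mem_univ _⟩)
  obtain ⟨A, hA, W, hW, hAW⟩ := mem_nhds_prod_iff.1 (hca hK)
  obtain ⟨A', ⟨hA', hAc⟩, hA'A⟩ := (LocallyConvexSpace.convex_basis (𝕜 := ℝ) x₀).mem_iff.1
    (inter_mem hA (hU.mem_nhds hx))
  have ht : Tendsto (fun t : ℝ => t) (𝓝[≠] 0) (𝓝 0) := nhdsWithin_le_nhds
  have hb : Tendsto (fun t => a t + t • w t) (𝓝[≠] 0) (𝓝 x₀) := by
    simpa using ha.add (ht.smul hw)
  rw [mem_map]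
  filter_upwards [ha hA', hb hA', hw hW, self_mem_nhdsWithin] with t h1 h2 h3 h4
  have h4' : t ≠ 0 := h4
  apply hKN
  have hp : ∀ s ∈ Icc (0:ℝ) 1, a t + (s * t) • w t ∈ A' := by
    intro s hs
    have := hAc h1 h2 (sub_nonneg.2 hs.2) hs.1 (by ring : 1 - s + s = 1)
    convert this using 1
    module
  have := mvt (c := fun s => t⁻¹ • f (a t + (s * t) • w t))
    (c' := fun s => df (a t + (s * t) • w t, w t)) hconv.closure isClosed_closure ?_ ?_
  · simpa [smul_sub] using this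
  · intro s hs
    have h5 := hd _ (hA'A (hp s hs)).2 (w t)
    have h6 : Tendsto (fun τ : ℝ => τ * t) (𝓝[≠] 0) (𝓝[≠] 0) := by
      apply tendsto_nhdsWithin_iff.2 ⟨by simpa using ht.mul_const t, ?_⟩
      filter_upwards [self_mem_nhdsWithin] with τ hτ
      exact mul_ne_zero hτ h4'
    refine (h5.comp h6).congr fun τ => ?_
    simp only [Function.comp]
    rw [← smul_sub, smul_smul, mul_inv, add_mul, add_smul, add_assoc]
  · intro s hs
    exact hAW ⟨(hA'A (hp s hs)).1, h3⟩

variable {F : Type u} [AddCommGroup F] [Module ℝ F] [TopologicalSpace F]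

lemma IsC.cont {k : ℕ} {E : Type u} [AddCommGroup E] [Module ℝ E] [TopologicalSpace E]
    {f : E → F} {U : Set E} (h : IsC k f U) : ContinuousOn f U := by
  cases k with
  | zero => exact h
  | succ k => exact h.1

lemma IsC.of_succ (k : ℕ) : ∀ {E : Type u} [AddCommGroup E] [Module ℝ E] [TopologicalSpace E]
    {f : E → F} {U : Set E}, IsC (k + 1) f U → IsC k f U := by
  induction k with
  | zero => intro E _ _ _ f U h; exact h.1
  | succ k ih =>
    intro E _ _ _ f U h
    obtain ⟨h1, df, h2, h3⟩ := h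
    exact ⟨h1, df, h2, ih h3⟩

lemma isC_const (k : ℕ) : ∀ {E : Type u} [AddCommGroup E] [Module ℝ E] [TopologicalSpace E]
    (c : F) (U : Set E), IsC k (fun _ => c) U := by
  induction k with
  | zero => intro E _ _ _ c U; exact continuousOn_const
  | succ k ih =>
    intro E _ _ _ c U
    refine ⟨continuousOn_const, fun _ => 0, fun x _ v => ?_, ih 0 _⟩
    simp only [HasDir, sub_self, smul_zero]
    exact tendsto_const_nhds

lemma isC_lin (k : ℕ) : ∀ {E : Type u} [AddCommGroup E] [Module ℝ E] [TopologicalSpace E]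
    (l : E →L[ℝ] F) (U : Set E), IsC k l U := by
  induction k with
  | zero => intro E _ _ _ l U; exact l.continuous.continuousOn
  | succ k ih =>
    intro E _ _ _ l U
    refine ⟨l.continuous.continuousOn, l.comp (ContinuousLinearMap.snd ℝ E E), fun x _ v => ?_,
      ih _ _⟩
    refine tendsto_const_nhds.congr' ?_
    filter_upwards [self_mem_nhdsWithin] with t ht
    have : t ≠ 0 := ht
    simp [smul_smul, this]

lemma IsC.pair {F' : Type u} [AddCommGroup F'] [Module ℝ F'] [TopologicalSpace F'] (k : ℕ) :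
    ∀ {E : Type u} [AddCommGroup E] [Module ℝ E] [TopologicalSpace E]
    {f : E → F} {g : E → F'} {U : Set E}, IsC k f U → IsC k g U →
      IsC k (fun x => (f x, g x)) U := by
  induction k with
  | zero => intro E _ _ _ f g U hf hg; exact ContinuousOn.prodMk hf hg
  | succ k ih =>
    intro E _ _ _ f g U hf hg
    obtain ⟨h1, df, h2, h3⟩ := hf
    obtain ⟨g1, dg, g2, g3⟩ := hg
    exact ⟨h1.prodMk g1, fun p => (df p, dg p), fun x hx v => (h2 x hx v).prodMk_nhds (g2 x hx v),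
      ih h3 g3⟩

lemma IsC.comp_lin (k : ℕ) :
    ∀ {E E' : Type u} [AddCommGroup E] [Module ℝ E] [TopologicalSpace E]
    [AddCommGroup E'] [Module ℝ E'] [TopologicalSpace E']
    {g : E' → F} (l : E →L[ℝ] E') {V : Set E'} {U : Set E}, IsC k g V →
      MapsTo l U V → IsC k (fun x => g (l x)) U := by
  induction k with
  | zero =>
    intro E E' _ _ _ _ _ _ g l V U hg hm
    exact ContinuousOn.comp hg l.continuous.continuousOn hm
  | succ k ih =>
    intro E E' _ _ _ _ _ _ g l V U hg hm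
    obtain ⟨g1, dg, g2, g3⟩ := hg
    refine ⟨g1.comp l.continuous.continuousOn hm, fun p => dg (l.prodMap l p), fun x hx v => ?_,
      ih (l.prodMap l) g3 fun p hp => ⟨hm hp.1, mem_univ _⟩⟩
    have := g2 _ (hm hx) (l v)
    refine this.congr fun t => ?_
    simp

lemma IsC.comp [IsTopologicalAddGroup F] [ContinuousSMul ℝ F] [LocallyConvexSpace ℝ F] (k : ℕ) :
    ∀ {E E' : Type u} [AddCommGroup E] [Module ℝ E] [TopologicalSpace E]
    [AddCommGroup E'] [Module ℝ E'] [TopologicalSpace E']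
    [IsTopologicalAddGroup E'] [ContinuousSMul ℝ E'] [LocallyConvexSpace ℝ E']
    {g : E' → F} {f : E → E'} {V : Set E'} {U : Set E}, IsOpen V → IsC k g V → IsC k f U →
      MapsTo f U V → IsC k (fun x => g (f x)) U := by
  induction k with
  | zero => intro E E' _ _ _ _ _ _ _ _ _ g f V U _ hg hf hm; exact ContinuousOn.comp hg hf hm
  | succ k ih =>
    intro E E' _ _ _ _ _ _ _ _ _ g f V U hV hg hf hm
    have hf' := IsC.of_succ k hf
    obtain ⟨h1, df, h2, h3⟩ := hf
    obtain ⟨g1, dg, g2, g3⟩ := hg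
    refine ⟨g1.comp h1 hm, fun p => dg (f p.1, df p), fun x hx v => ?_, ?_⟩
    · have := key hV g2 g3.cont (hm hx) (a := fun _ => f x) tendsto_const_nhds (h2 x hx v)
      refine this.congr' ?_
      filter_upwards [self_mem_nhdsWithin] with t ht
      have : t ≠ 0 := ht
      simp [smul_smul, this]
    · exact ih (hV.prod isOpen_univ) g3
        (IsC.pair k (IsC.comp_lin k (ContinuousLinearMap.fst ℝ E E) hf' fun p hp => hp.1) h3)
        fun p hp => ⟨hm hp.1, mem_univ _⟩

end calculus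

section main

variable {E : Type u} [AddCommGroup E] [Module ℝ E] [TopologicalSpace E]
  [IsTopologicalAddGroup E] [ContinuousSMul ℝ E] [LocallyConvexSpace ℝ E]
  {G : Type v} [TopologicalSpace G] [ChartedSpace E G] [Group G]

lemma inv_step (hη : Continuous fun g : G => g⁻¹) (k : ℕ)
    (hm : MapC k (prodAtlas (atlas E G)) (atlas E G) fun p : G × G => p.1 * p.2) :
    MapC k (atlas E G) (atlas E G) fun g : G => g⁻¹ := by
  induction k with
  | zero =>
    refine ⟨hη, fun φ _ ψ _ => ?_⟩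
    exact ψ.continuousOn.comp (hη.comp_continuousOn (φ.continuousOn_symm.mono inter_subset_left))
      fun x hx => hx.2
  | succ k ih =>
    have ih' := ih ⟨hm.1, fun φ hφ ψ hψ => IsC.of_succ k (hm.2 φ hφ ψ hψ)⟩
    refine ⟨hη, fun φ hφ ψ hψ => ?_⟩
    set χ := chartAt E (1:G) with hχ
    have hχa : χ ∈ atlas E G := chart_mem_atlas E 1
    have h1 : (1:G) ∈ χ.source := mem_chart_source E 1
    set U := φ.target ∩ φ.symm ⁻¹' ((fun g : G => g⁻¹) ⁻¹' ψ.source) with hU
    set h : E → E := ψ ∘ (fun g : G => g⁻¹) ∘ φ.symm with hh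
    have hk : IsC k h U := ih'.2 φ hφ ψ hψ
    have hUo : IsOpen U := φ.isOpen_inter_preimage_symm (ψ.open_source.preimage hη)
    obtain ⟨-, dM, a2, a3⟩ := hm.2 (φ.prod ψ) ⟨φ, hφ, ψ, hψ, rfl⟩ χ hχa
    obtain ⟨-, dN, b2, b3⟩ := hm.2 (ψ.prod χ) ⟨ψ, hψ, χ, hχa, rfl⟩ ψ hψ
    have hD := (φ.prod ψ).isOpen_inter_preimage_symm (χ.open_source.preimage hm.1)
    have hD' := (ψ.prod χ).isOpen_inter_preimage_symm (ψ.open_source.preimage hm.1)
    have hs : ∀ x ∈ U, ψ.symm (h x) = (φ.symm x)⁻¹ := fun x hx => ψ.left_inv hx.2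
    have m1 : ∀ x ∈ U, (x, h x) ∈ (φ.prod ψ).target ∩ (φ.prod ψ).symm ⁻¹'
        ((fun p : G × G => p.1 * p.2) ⁻¹' χ.source) := by
      intro x hx
      refine ⟨⟨hx.1, ψ.map_source hx.2⟩, ?_⟩
      change φ.symm x * ψ.symm (h x) ∈ χ.source
      rw [hs x hx, mul_inv_cancel]
      exact h1
    have m2 : ∀ x ∈ U, (h x, χ 1) ∈ (ψ.prod χ).target ∩ (ψ.prod χ).symm ⁻¹'
        ((fun p : G × G => p.1 * p.2) ⁻¹' ψ.source) := by
      intro x hx
      refine ⟨⟨ψ.map_source hx.2, χ.map_source h1⟩, ?_⟩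
      change ψ.symm (h x) * χ.symm (χ 1) ∈ ψ.source
      rw [hs x hx, χ.left_inv h1, mul_one]
      exact hx.2
    refine ⟨hk.cont, fun p => dN ((h p.1, χ 1), (0, -dM ((p.1, h p.1), (p.2, 0)))),
      fun x hx v => ?_, ?_⟩
    · have ht : Tendsto (fun t : ℝ => t) (𝓝[≠] 0) (𝓝 0) := nhdsWithin_le_nhds
      have hxt : Tendsto (fun t : ℝ => x + t • v) (𝓝[≠] 0) (𝓝 x) := by
        simpa using (tendsto_const_nhds (x := x)).add (ht.smul_const v)
      have hxU : ∀ᶠ t : ℝ in 𝓝[≠] 0, x + t • v ∈ U := hxt (hUo.mem_nhds hx)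
      have hht : Tendsto (fun t : ℝ => h (x + t • v)) (𝓝[≠] 0) (𝓝 (h x)) :=
        (hk.cont.continuousAt (hUo.mem_nhds hx)).tendsto.comp hxt
      have hat : Tendsto (fun t : ℝ => (x, h (x + t • v))) (𝓝[≠] 0) (𝓝 (x, h x)) :=
        tendsto_const_nhds.prodMk_nhds hht
      have s1 := key hD a2 a3.cont (m1 x hx) hat (w := fun _ => (v, 0)) tendsto_const_nhds
      have s2 : Tendsto (fun t : ℝ => t⁻¹ • (χ (φ.symm x * ψ.symm (h (x + t • v))) - χ 1))
          (𝓝[≠] 0) (𝓝 (-dM ((x, h x), (v, 0)))) := by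
        refine s1.neg.congr' ?_
        filter_upwards [hxU] with t ht
        have e : (x, h (x + t • v)) + t • ((v, 0) : E × E) = (x + t • v, h (x + t • v)) := by simp
        rw [e]
        change -(t⁻¹ • (χ (φ.symm (x + t • v) * ψ.symm (h (x + t • v)))
          - χ (φ.symm x * ψ.symm (h (x + t • v))))) = _
        rw [hs _ ht, mul_inv_cancel, ← smul_neg, neg_sub]
      have s3 := key hD' b2 b3.cont (m2 x hx) (a := fun _ => (h x, χ 1)) tendsto_const_nhds
        ((tendsto_const_nhds (x := (0:E))).prodMk_nhds s2)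
      refine s3.congr' ?_
      filter_upwards [hxU, hat (hD.mem_nhds (m1 x hx)), self_mem_nhdsWithin] with t h2 h3 h4
      have h4' : t ≠ 0 := h4
      have h3' : φ.symm x * ψ.symm (h (x + t • v)) ∈ χ.source := h3.2
      have e : ((h x, χ 1) : E × E)
          + t • ((0:E), t⁻¹ • (χ (φ.symm x * ψ.symm (h (x + t • v))) - χ 1))
          = (h x, χ (φ.symm x * ψ.symm (h (x + t • v)))) := by
        simp [smul_smul, h4']
      rw [e]
      change t⁻¹ • (ψ (ψ.symm (h x) * χ.symm (χ (φ.symm x * ψ.symm (h (x + t • v)))))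
        - ψ (ψ.symm (h x) * χ.symm (χ 1))) = _
      rw [χ.left_inv h3', χ.left_inv h1, hs x hx, hs _ h2, inv_mul_cancel_left, mul_one]
      rfl
    · have c1 : IsC k (fun p : E × E => h p.1) (U ×ˢ univ) :=
        IsC.comp_lin k (ContinuousLinearMap.fst ℝ E E) hk fun p hp => hp.1
      have c2 : IsC k (fun p : E × E => ((p.1, h p.1), (p.2, (0:E)))) (U ×ˢ univ) :=
        IsC.pair k (IsC.pair k (isC_lin k (ContinuousLinearMap.fst ℝ E E) _) c1)
          (IsC.pair k (isC_lin k (ContinuousLinearMap.snd ℝ E E) _) (isC_const k 0 _))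
      have c3 : IsC k (fun p : E × E => dM ((p.1, h p.1), (p.2, (0:E)))) (U ×ˢ univ) :=
        IsC.comp k (hD.prod isOpen_univ) a3 c2 fun p hp => ⟨m1 _ hp.1, mem_univ _⟩
      have c4 : IsC k (fun p : E × E => -dM ((p.1, h p.1), (p.2, (0:E)))) (U ×ˢ univ) :=
        IsC.comp k isOpen_univ (isC_lin k (-ContinuousLinearMap.id ℝ E) univ) c3
          (mapsTo_univ _ _)
      exact IsC.comp k (hD'.prod isOpen_univ) b3
        (IsC.pair k (IsC.pair k c1 (isC_const k _ _)) (IsC.pair k (isC_const k 0 _) c4))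
        fun p hp => ⟨m2 _ hp.1, mem_univ _⟩

end main

section more

variable {F : Type u} [AddCommGroup F] [Module ℝ F] [TopologicalSpace F]

lemma IsC.congr (k : ℕ) {E : Type u} [AddCommGroup E] [Module ℝ E] [TopologicalSpace E]
    [IsTopologicalAddGroup E] [ContinuousSMul ℝ E]
    {f g : E → F} {U : Set E} (hU : IsOpen U) (h : IsC k f U) (e : EqOn g f U) : IsC k g U := by
  cases k with
  | zero => exact ContinuousOn.congr h e
  | succ k =>
    obtain ⟨h1, df, h2, h3⟩ := h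
    refine ⟨h1.congr e, df, fun x hx v => (h2 x hx v).congr' ?_, h3⟩
    have ht : Tendsto (fun t : ℝ => t) (𝓝[≠] 0) (𝓝 0) := nhdsWithin_le_nhds
    have hxt : Tendsto (fun t : ℝ => x + t • v) (𝓝[≠] 0) (𝓝 x) := by
      simpa using (tendsto_const_nhds (x := x)).add (ht.smul_const v)
    filter_upwards [hxt (hU.mem_nhds hx)] with t ht
    rw [e hx, e ht]

lemma isC_mul {A : Type u} [NormedRing A] [NormedAlgebra ℝ A] (k : ℕ) :
    ∀ U : Set (A × A), IsC k (fun p : A × A => p.1 * p.2) U := by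
  induction k with
  | zero => intro U; exact (continuous_fst.mul continuous_snd).continuousOn
  | succ k ih =>
    intro U
    refine ⟨(continuous_fst.mul continuous_snd).continuousOn,
      fun q => q.1.1 * q.2.2 + q.2.1 * q.1.2, fun x _ v => ?_, ?_⟩
    · have ht : Tendsto (fun t : ℝ => t) (𝓝[≠] 0) (𝓝 0) := nhdsWithin_le_nhds
      have h1 : Tendsto (fun t : ℝ => x.1 * v.2 + v.1 * x.2 + t • (v.1 * v.2)) (𝓝[≠] 0)
          (𝓝 (x.1 * v.2 + v.1 * x.2)) := by
        simpa using (tendsto_const_nhds (x := x.1 * v.2 + v.1 * x.2)).add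
          (ht.smul_const (v.1 * v.2))
      refine h1.congr' ?_
      filter_upwards [self_mem_nhdsWithin] with t ht
      have h0 : t ≠ 0 := ht
      have : (x + t • v).1 * (x + t • v).2 - x.1 * x.2
          = t • (x.1 * v.2 + v.1 * x.2 + t • (v.1 * v.2)) := by
        simp only [Prod.fst_add, Prod.snd_add, Prod.smul_fst, Prod.smul_snd, add_mul, mul_add,
          mul_smul_comm, smul_mul_assoc, smul_add]
        abel
      rw [this, smul_smul, inv_mul_cancel₀ h0, one_smul]
    · have c1 : IsC k (fun q : (A × A) × (A × A) => q.1.1 * q.2.2) (U ×ˢ univ) :=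
        IsC.comp_lin k ((ContinuousLinearMap.fst ℝ A A).prodMap (ContinuousLinearMap.snd ℝ A A))
          (ih univ) (mapsTo_univ _ _)
      have c2 : IsC k (fun q : (A × A) × (A × A) => q.2.1 * q.1.2) (U ×ˢ univ) :=
        IsC.comp_lin k (((ContinuousLinearMap.fst ℝ A A).comp
          (ContinuousLinearMap.snd ℝ (A × A) (A × A))).prod ((ContinuousLinearMap.snd ℝ A A).comp
          (ContinuousLinearMap.fst ℝ (A × A) (A × A)))) (ih univ) (mapsTo_univ _ _)
      exact IsC.comp k isOpen_univ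
        (isC_lin k (ContinuousLinearMap.fst ℝ A A + ContinuousLinearMap.snd ℝ A A) univ)
        (IsC.pair k c1 c2) (mapsTo_univ _ _)

end more

/-- `G` is a Lie group modelled on `E`: smooth transition maps, smooth multiplication and
smooth inversion (all in the Bastiani sense) -/
def IsLie (E : Type u) [AddCommGroup E] [Module ℝ E] [TopologicalSpace E]
    (G : Type v) [TopologicalSpace G] [ChartedSpace E G] [Group G] : Prop :=
  (∀ k, MapC k (atlas E G) (atlas E G) id) ∧
  (∀ k, MapC k (prodAtlas (atlas E G)) (atlas E G) fun p : G × G => p.1 * p.2) ∧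
  ∀ k, MapC k (atlas E G) (atlas E G) fun g : G => g⁻¹

end Pool.Agent.Lib.Helper21.Bast
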