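import Mathlib

set_option autoImplicit false

namespace Pool.Agent.Lib.Helper21.Beck

open Complex Set Filter Metric Topology

noncomputable def L (z : ℂ) : ℂ := log ((z - 1) / (z + 1))

variable {z : ℂ}

lemma oU : IsOpen {z : ℂ | 1 < ‖z‖} := isOpen_lt continuous_const continuous_norm

lemma n1 (hz : 1 < ‖z‖) : z + 1 ≠ 0 := fun h => by simp [eq_neg_of_add_eq_zero_left h] at hz

lemma n2 (hz : 1 < ‖z‖) : z - 1 ≠ 0 := fun h => by simp [sub_eq_zero.1 h] at hz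

lemma n3 (hz : 1 < ‖z‖) : z ^ 2 - 1 ≠ 0 := by
  rw [show z ^ 2 - 1 = (z + 1) * (z - 1) by ring]; exact mul_ne_zero (n1 hz) (n2 hz)

lemma re0 (hz : 1 < ‖z‖) : 0 < ((z - 1) / (z + 1)).re := by
  have := (one_lt_sq_iff₀ (norm_nonneg z)).2 hz
  rw [div_re, ← add_div]
  refine div_pos ?_ (normSq_pos.2 (n1 hz))
  rw [Complex.sq_norm, normSq_apply] at this
  simp; nlinarith

lemma im1 (hz : 1 < ‖z‖) : |(L z).im| < 2 := by
  rw [L, log_im]
  linarith [abs_arg_lt_pi_div_two_iff.2 (.inl (re0 hz)), Real.pi_lt_four]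

lemma eL (hz : 1 < ‖z‖) : cexp (L z) = (z - 1) / (z + 1) := exp_log (div_ne_zero (n2 hz) (n1 hz))

lemma L0 (hz : 1 < ‖z‖) : L z ≠ 0 := fun h => by
  have := eL hz
  rw [h, exp_zero, eq_div_iff (n1 hz)] at this
  exact two_ne_zero (by linear_combination this : (2 : ℂ) = 0)

lemma dL (hz : 1 < ‖z‖) : HasDerivAt L (2 / (z ^ 2 - 1)) z :=
  ((((hasDerivAt_id z).sub_const 1).div ((hasDerivAt_id z).add_const 1) (n1 hz)).clog
    (.inl (re0 hz))).congr_deriv (by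
      have := n1 hz
      have := n2 hz
      simp only [id, Pi.div_apply, show z ^ 2 - 1 = (z + 1) * (z - 1) by ring]
      field_simp; ring)

lemma sig {h : ℂ → ℂ} (hd : Differentiable ℂ h) (h0 : h 0 = 0) (h1 : deriv h 0 = -1 / 2)
    (hi : InjOn h {s | |s.im| < 2}) :
    DifferentiableOn ℂ (fun z => (h (L z))⁻¹) {z : ℂ | 1 < ‖z‖} ∧
      InjOn (fun z => (h (L z))⁻¹) {z : ℂ | 1 < ‖z‖} ∧
      ∃ C : ℝ, ∀ z : ℂ, 2 < ‖z‖ → ‖(h (L z))⁻¹ - z‖ ≤ C := by
  have nz : ∀ z : ℂ, 1 < ‖z‖ → h (L z) ≠ 0 := fun z hz k =>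
    L0 hz (hi (im1 hz) (by simp) (k.trans h0.symm))
  refine ⟨fun z hz => (((hd _).comp z (dL hz).differentiableAt).inv (nz z hz)).differentiableWithinAt,
    fun z hz w hw e => ?_, ?_⟩
  · have := congrArg cexp (hi (im1 hz) (im1 hw) (inv_injective e))
    rw [eL hz, eL hw, div_eq_div_iff (n1 hz) (n1 hw)] at this
    linear_combination this / 2
  set H : ℂ → ℂ := fun w => h (log (1 - w) - log (1 + w)) with hH
  have d : ∀ w ∈ ball (0 : ℂ) 1, HasDerivAt (fun w => log (1 - w) - log (1 + w))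
      (-1 / (1 - w) - 1 / (1 + w)) w := fun w hw =>
    (((hasDerivAt_id w).const_sub 1).clog (by
      simpa [sub_eq_add_neg] using mem_slitPlane_of_norm_lt_one (z := -w) (by simpa using hw))).sub
      (((hasDerivAt_id w).const_add 1).clog (mem_slitPlane_of_norm_lt_one (by simpa using hw)))
  have dH : DifferentiableOn ℂ H (ball 0 1) := fun w hw =>
    ((hd _).comp w (d w hw).differentiableAt).differentiableWithinAt
  have b := ball_mem_nhds (0 : ℂ) one_pos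
  have H0 : dslope H 0 0 = 1 := by
    rw [dslope_same]
    exact ((hd _).hasDerivAt.comp 0 (d 0 (by simp))).deriv.trans (by simp [h1]; norm_num)
  have e : ∀ w ∈ ball (0 : ℂ) 1, w ≠ 0 → H w = h (L w⁻¹) := fun w hw w0 => by
    have hw' : 1 < ‖w⁻¹‖ := by
      rw [norm_inv]; exact (one_lt_inv₀ (norm_pos_iff.2 w0)).2 (mem_ball_zero_iff.1 hw)
    have r := (abs_re_le_norm w).trans_lt (mem_ball_zero_iff.1 hw)
    have a1 := abs_arg_lt_pi_div_two_iff.2 (.inl (show 0 < (1 - w).re by simp; linarith [abs_lt.1 r]))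
    have a2 := abs_arg_lt_pi_div_two_iff.2 (.inl (show 0 < (1 + w).re by simp; linarith [abs_lt.1 r]))
    have u1 : 1 - w ≠ 0 := fun k => by simp [← sub_eq_zero.1 k] at hw
    have u2 : 1 + w ≠ 0 := fun k => by simp [eq_neg_of_add_eq_zero_right k] at hw
    rw [hH, L, show (w⁻¹ - 1) / (w⁻¹ + 1) = cexp (log (1 - w) - log (1 + w)) by
      rw [exp_sub, exp_log u1, exp_log u2]; field_simp, log_exp] <;>
    simp only [sub_im, log_im] <;> linarith [abs_lt.1 a1, abs_lt.1 a2]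
  have d1 := (differentiableOn_dslope b).2 dH
  have s : closedBall (0 : ℂ) (1 / 2) ⊆ ball 0 1 := closedBall_subset_ball (by norm_num)
  have k (w : ℂ) : w * dslope H 0 w = H w := by simpa [hH, h0] using sub_smul_dslope H 0 w
  have nH : ∀ w ∈ closedBall (0 : ℂ) (1 / 2), dslope H 0 w ≠ 0 := fun w hw u => by
    rcases eq_or_ne w 0 with rfl | w0
    · exact one_ne_zero (H0.symm.trans u)
    · refine nz w⁻¹ ?_ ((e w (s hw) w0).symm.trans (by rw [← k, u, mul_zero]))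
      rw [norm_inv]; exact (one_lt_inv₀ (norm_pos_iff.2 w0)).2 (mem_ball_zero_iff.1 (s hw))
  obtain ⟨C, hC⟩ := (isCompact_closedBall (0 : ℂ) (1 / 2)).exists_bound_of_continuousOn
    ((((differentiableOn_dslope b).2 d1).continuousOn.mono s).div (d1.continuousOn.mono s) nH)
  refine ⟨C, fun z hz => ?_⟩
  have z0 : z ≠ 0 := norm_pos_iff.1 (by linarith)
  have m : z⁻¹ ∈ closedBall (0 : ℂ) (1 / 2) := by
    rw [mem_closedBall_zero_iff, norm_inv, one_div]; exact inv_anti₀ two_pos hz.le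
  have k2 := sub_smul_dslope (dslope H 0) 0 z⁻¹
  have k3 := e _ (s m) (inv_ne_zero z0)
  rw [inv_inv] at k3
  rw [← k3, ← k, norm_sub_rev]
  refine le_of_eq_of_le (congrArg _ ?_) (hC _ m)
  have := nH _ m
  rw [H0, sub_zero, smul_eq_mul] at k2
  rw [Pi.div_apply, eq_div_iff this]
  generalize dslope (dslope H 0) 0 z⁻¹ = A at *
  generalize dslope H 0 z⁻¹ = B at *
  field_simp at k2 ⊢
  linear_combination -k2

lemma pre {g g1 q q1 : ℂ → ℂ} (h : ∀ z : ℂ, 1 < ‖z‖ → HasDerivAt g (g1 (L z)) (L z) ∧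
    HasDerivAt g1 (g1 (L z) * q (L z)) (L z) ∧ HasDerivAt q (q1 (L z)) (L z) ∧ g1 (L z) ≠ 0)
    (hz : 1 < ‖z‖) :
    deriv (deriv fun z => g (L z)) z / deriv (fun z => g (L z)) z = (q (L z) - z) * (2 / (z ^ 2 - 1)) ∧
    deriv (fun w => deriv (deriv fun z => g (L z)) w / deriv (fun z => g (L z)) w) z =
      (q1 (L z) * (2 / (z ^ 2 - 1)) - 1) * (2 / (z ^ 2 - 1)) +
        (q (L z) - z) * (-z * (2 / (z ^ 2 - 1)) ^ 2) := by
  have dl : ∀ z : ℂ, 1 < ‖z‖ → HasDerivAt (fun z : ℂ => 2 / (z ^ 2 - 1))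
      (-z * (2 / (z ^ 2 - 1)) ^ 2) z := fun z hz =>
    ((hasDerivAt_const z 2).div ((hasDerivAt_pow 2 z).sub_const 1) (n3 hz)).congr_deriv (by
      have := n3 hz
      simp; field_simp)
  have e1 : ∀ z : ℂ, 1 < ‖z‖ → deriv (fun z => g (L z)) z = g1 (L z) * (2 / (z ^ 2 - 1)) :=
    fun z hz => ((h z hz).1.comp z (dL hz)).deriv
  have e2 : ∀ z : ℂ, 1 < ‖z‖ → deriv (deriv fun z => g (L z)) z / deriv (fun z => g (L z)) z =
      (q (L z) - z) * (2 / (z ^ 2 - 1)) := fun z hz => by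
    rw [(eventuallyEq_of_mem (oU.mem_nhds hz) e1).deriv_eq.trans
      (((h z hz).2.1.comp z (dL hz)).mul (dl z hz)).deriv, e1 z hz]
    have := n3 hz
    have := (h z hz).2.2.2
    simp only [Function.comp_apply]
    field_simp; ring
  refine ⟨e2 z hz, ?_⟩
  rw [(eventuallyEq_of_mem (oU.mem_nhds hz) e2).deriv_eq]
  exact ((((h z hz).2.2.1.comp z (dL hz)).sub (hasDerivAt_id z)).mul (dl z hz)).deriv

end Pool.Agent.Lib.Helper21.Beck
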