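import Mathlib

/-! A slightly bent strip with an explicit torsion function: real-variable estimates. -/

set_option autoImplicit false

namespace Pool.Agent.Lib.Helper21.Bent

open Real Set

noncomputable def A (x : ℝ) : ℝ := cosh x / 10 ^ 40
noncomputable def S (x : ℝ) : ℝ := sinh x / 10 ^ 40
noncomputable def B (x : ℝ) : ℝ := 1243 / 10000 * (2 * A x ^ 2 - (1 / 10 ^ 40) ^ 2)
noncomputable def G (x : ℝ) : ℝ := 10 ^ 30 * (4 * A x ^ 2 - (1 / 10 ^ 40) ^ 2)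
noncomputable def H (x : ℝ) : ℝ := 10 ^ 30 * (4 * A x ^ 2 - 3 * (1 / 10 ^ 40) ^ 2)
noncomputable def V (x y : ℝ) : ℝ := 1 / 4 - y ^ 2 + A x * sin y - B x * cos (2 * y) - A x * H x * cos (3 * y)
noncomputable def U (x y : ℝ) : ℝ := sin y - 4 * (1243 / 10000) * A x * cos (2 * y) - 3 * G x * cos (3 * y)
noncomputable def W (x y : ℝ) : ℝ := -2 * y + A x * cos y + 2 * B x * sin (2 * y) + 3 * (A x * H x) * sin (3 * y)

lemma A_ge (x : ℝ) : 1 / 10 ^ 40 ≤ A x := div_le_div_of_nonneg_right (one_le_cosh x) (by norm_num)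
lemma A_pos (x : ℝ) : 0 < A x := lt_of_lt_of_le (by norm_num) (A_ge x)
lemma A_sq (x : ℝ) : (1 / 10 ^ 40) ^ 2 ≤ A x ^ 2 := pow_le_pow_left₀ (by norm_num) (A_ge x) 2
lemma S_sq (x : ℝ) : S x ^ 2 = A x ^ 2 - (1 / 10 ^ 40) ^ 2 := by unfold S A; rw [div_pow, div_pow, cosh_sq]; ring
lemma B_bd (x : ℝ) : 0 ≤ B x ∧ B x ≤ A x ^ 2 := by unfold B; constructor <;> nlinarith [A_sq x]
lemma H_bd (x : ℝ) : 10 ^ 30 * A x ^ 2 ≤ H x ∧ H x ≤ G x ∧ 3 * 10 ^ 30 * A x ^ 2 ≤ G x ∧ G x ≤ 4 * 10 ^ 30 * A x ^ 2 := by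
  unfold G H; refine ⟨?_, ?_, ?_, ?_⟩ <;> nlinarith [A_sq x]
lemma H0 (x : ℝ) : 0 ≤ H x := le_trans (by positivity) (H_bd x).1

lemma cos_ge {t c : ℝ} (h : |t| ≤ c) (hc : c ≤ 157 / 100) : 1 - 100 / 157 * c ≤ cos t := by
  have p := pi_gt_d2
  have : 2 / π ≤ 100 / 157 := by rw [div_le_iff₀ pi_pos]; linarith
  rw [← cos_abs]
  refine le_trans ?_ (one_sub_mul_le_cos (abs_nonneg t) (by linarith))
  nlinarith [abs_nonneg t, div_pos two_pos pi_pos]

lemma small {x y : ℝ} (hy : |y| ≤ 13 / 25) (h : 0 ≤ V x y) : A x ≤ 1 / 10 ^ 9 ∧ |y| ≤ 501 / 1000 := by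
  have c3 := cos_ge (t := 3 * y) (c := 39 / 25) (by rw [abs_mul]; norm_num; linarith) (by norm_num)
  have c2 := cos_ge (t := 2 * y) (c := 26 / 25) (by rw [abs_mul]; norm_num; linarith) (by norm_num)
  have a := A_pos x
  have h1 := mul_nonneg (B_bd x).1 (show 0 ≤ cos (2 * y) by linarith)
  have h2 := mul_le_mul (mul_le_mul_of_nonneg_left (H_bd x).1 a.le) c3 (by norm_num) (mul_nonneg a.le (H0 x))
  have h3 := mul_le_of_le_one_right a.le (sin_le_one y)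
  unfold V at h
  have : A x ≤ 1 / 10 ^ 9 := not_lt.1 fun e => by nlinarith [pow_le_pow_left₀ (by norm_num) e.le 2, sq_nonneg y]
  exact ⟨this, abs_le_of_sq_le_sq' (by nlinarith [pow_pos a 3]) (by norm_num) |> abs_le.2⟩

lemma x_le {x c : ℝ} (h : 48 * cosh x ≤ c ^ 4) (c0 : 0 ≤ c) : |x| ≤ c := by
  have := pow_div_factorial_le_exp |x| (abs_nonneg x) 4
  rw [← cosh_abs, cosh_eq] at h
  rw [show ((4 : ℕ).factorial : ℝ) = 24 by norm_num [Nat.factorial]] at this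
  exact le_of_pow_le_pow_left₀ four_ne_zero c0 (by linarith [exp_pos (-|x|)])

lemma cosh_le {x x' : ℝ} (n : ℕ) (h : |x - x'| ≤ n) : cosh x ≤ 3 ^ n * cosh x' := by
  have e : exp |x - x'| ≤ 3 ^ n := (exp_le_exp.2 h).trans (by
    rw [← mul_one (n : ℝ), exp_nat_mul]; exact pow_le_pow_left₀ (exp_pos 1).le exp_one_lt_three.le n)
  have e1 : exp x ≤ exp |x - x'| * exp x' := by rw [← exp_add]; exact exp_le_exp.2 (by linarith [le_abs_self (x - x')])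
  have e2 : exp (-x) ≤ exp |x - x'| * exp (-x') := by
    rw [← exp_add]; exact exp_le_exp.2 (by linarith [neg_abs_le (x - x')])
  rw [cosh_eq, cosh_eq]
  nlinarith [exp_pos x', exp_pos (-x')]

lemma A_le {x x' : ℝ} (h : |x - x'| ≤ 1) : A x ≤ 3 * A x' := by
  have := cosh_le 1 (x := x) (x' := x') (by simpa using h)
  unfold A; linarith

lemma x_ge {x : ℝ} (h : 2 / 10 ^ 15 ≤ A x) : 40 ≤ |x| := not_lt.1 fun e => by
  have := cosh_le 40 (x := x) (x' := 0) (by simpa using e.le)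
  unfold A at h
  rw [cosh_zero] at this
  linarith

lemma S_le (x : ℝ) : |S x| ≤ |x| * A x := by
  have : ∀ x, 0 ≤ x → sinh x ≤ x * cosh x := fun x hx => by
    have d : ∀ t, HasDerivAt (fun t => t * cosh t - sinh t) (1 * cosh t + t * sinh t - cosh t) t := fun t =>
      ((hasDerivAt_id t).mul (hasDerivAt_cosh t)).sub (hasDerivAt_sinh t)
    have := monotoneOn_of_deriv_nonneg (convex_Ici 0) (fun t _ => (d t).continuousAt.continuousWithinAt)
      (fun t _ => (d t).differentiableAt.differentiableWithinAt) (fun t ht => by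
        rw [(d t).deriv]
        nlinarith [mul_nonneg (interior_subset ht) (sinh_nonneg_iff.2 (interior_subset ht))]) (mem_Ici.2 le_rfl) hx hx
    simpa using this
  have := this _ (abs_nonneg x)
  rw [← abs_sinh, cosh_abs] at this
  rw [S, A, abs_div, abs_of_pos (by norm_num : (0 : ℝ) < 10 ^ 40), ← mul_div_assoc]
  exact div_le_div_of_nonneg_right this (by norm_num)

lemma U_neg {x y : ℝ} (hy : |y| ≤ 501 / 1000) (h : 2 / 10 ^ 15 ≤ A x) : U x y ≤ -(1 / 20) * G x ∧ 12 ≤ G x := by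
  have c3 := cos_ge (t := 3 * y) (c := 1503 / 1000) (by rw [abs_mul]; norm_num; linarith) (by norm_num)
  have c2 := cos_ge (t := 2 * y) (c := 26 / 25) (by rw [abs_mul]; norm_num; linarith) (by norm_num)
  have g : 12 ≤ G x := by nlinarith [(H_bd x).2.2.1]
  have := (le_abs_self _).trans (abs_sin_le_abs.trans hy)
  unfold U
  exact ⟨by nlinarith [mul_nonneg (A_pos x).le (show 0 ≤ cos (2 * y) by linarith)], g⟩

lemma G_le {x : ℝ} (h : A x ≤ 2 / 10 ^ 14) : 0 ≤ G x ∧ G x ≤ 1600 :=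
  ⟨(H0 x).trans (H_bd x).2.1, by nlinarith [(H_bd x).2.2.2, A_pos x]⟩

lemma U_le {x : ℝ} (y : ℝ) (h : A x ≤ 2 / 10 ^ 14) : |U x y| ≤ 5000 := by
  have := G_le h
  have := A_pos x
  unfold U
  rw [abs_le]
  constructor <;> nlinarith [sin_le_one y, neg_one_le_sin y, cos_le_one (2 * y), neg_one_le_cos (2 * y),
    cos_le_one (3 * y), neg_one_le_cos (3 * y)]

lemma mb {x y a b : ℝ} (hx : |x| ≤ a) (hy : |y| ≤ b) : |x * y| ≤ a * b := by
  rw [abs_mul]; exact mul_le_mul hx hy (abs_nonneg _) ((abs_nonneg _).trans hx)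

lemma pt {α a b g h y : ℝ} (hα : |α| ≤ a) (ha : a ≤ 2 / 10 ^ 14) (b0 : 0 ≤ b) (hb : b ≤ a ^ 2) (h0 : 0 ≤ h) (hg : h ≤ g)
    (g1 : g ≤ 1600) (y0 : 0 ≤ y) (e : 1 / 4 - y ^ 2 + α * sin y - b * cos (2 * y) - a * h * cos (3 * y) = 0) :
    |y - 1 / 2| ≤ 1 / 10 ^ 10 ∧
    |sin y - 4 * (1243 / 10000) * α * cos (2 * y) -
      (sin (1 / 2) - α * (4 * (1243 / 10000) * cos 1 - cos (1 / 2) * sin (1 / 2)))| ≤ 3 / 10 ^ 9 * (a + g) ∧
    |2 * y - α * cos y - 2 * b * sin (2 * y) - 3 * (a * h) * sin (3 * y) -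
      (1 + α * (2 * sin (1 / 2) - cos (1 / 2)))| ≤ 3 / 10 ^ 9 * (a + g) := by
  have a0 : 0 ≤ a := (abs_nonneg _).trans hα
  have b1 : |b| ≤ 2 / 10 ^ 14 * a := by rw [abs_of_nonneg b0]; nlinarith
  have ah : |a * h| ≤ 2 / 10 ^ 14 * g := by rw [abs_of_nonneg (by positivity)]; nlinarith
  have ah' : |a * h| ≤ 4 / 10 ^ 11 := by linarith
  obtain ⟨η, rfl⟩ : ∃ η, y = 1 / 2 + η := ⟨y - 1 / 2, by ring⟩
  have t1 := abs_le.1 (mb hα (abs_sin_le_one (1 / 2 + η)))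
  have t2 := abs_le.1 (mb b1 (abs_cos_le_one (2 * (1 / 2 + η))))
  have t3 := abs_le.1 (mb ah (abs_cos_le_one (3 * (1 / 2 + η))))
  have η1 : |η| ≤ 3 * a + 4 / 10 ^ 14 * g := by
    have : |η * (1 + η)| ≤ 3 / 2 * a + 2 / 10 ^ 14 * g := abs_le.2 ⟨by nlinarith, by nlinarith⟩
    rw [abs_mul, abs_of_nonneg (show 0 ≤ 1 + η by linarith)] at this
    nlinarith [abs_nonneg η]
  have η2 : |η| ≤ 1 / 10 ^ 10 := by linarith
  have η3 : η ^ 2 ≤ 3 / 10 ^ 10 * (a + g) := by rw [← sq_abs]; nlinarith [abs_nonneg η]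
  have s1 : |sin (1 / 2 + η) - sin (1 / 2)| ≤ 1 / 10 ^ 10 := (abs_sin_sub_sin_le ..).trans (by simpa using η2)
  have s2 : |cos (1 / 2 + η) - cos (1 / 2)| ≤ 1 / 10 ^ 10 := (abs_cos_sub_cos_le ..).trans (by simpa using η2)
  have s3 : |cos (2 * (1 / 2 + η)) - cos 1| ≤ 2 / 10 ^ 10 := (abs_cos_sub_cos_le ..).trans (by
    rw [show 2 * (1 / 2 + η) - 1 = 2 * η by ring, abs_mul]; norm_num at η2 ⊢; linarith)
  have t4 := abs_le.1 (mb hα s1)
  have t5 := abs_le.1 (mb hα s2)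
  have t6 := abs_le.1 (mb hα s3)
  have k : |η - α * sin (1 / 2)| ≤ 1 / 10 ^ 9 * (a + g) := abs_le.2 ⟨by nlinarith, by nlinarith [sq_nonneg η]⟩
  have t7 := abs_le.1 (mb (abs_cos_le_one (1 / 2)) k)
  have t8 := abs_le.1 (mb b1 (abs_sin_le_one (2 * (1 / 2 + η))))
  have t9 := abs_le.1 (mb ah (abs_sin_le_one (3 * (1 / 2 + η))))
  have u1 : |cos η - 1| ≤ η ^ 2 / 2 := abs_le.2 ⟨by linarith [one_sub_sq_div_two_le_cos (x := η)],
    by nlinarith [cos_le_one η]⟩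
  have u2 : |η - sin η| ≤ η ^ 2 / 2 := (abs_sub_sin_le η).trans (by rw [← sq_abs]; nlinarith [abs_nonneg η])
  have t10 := abs_le.1 (mb (abs_sin_le_one (1 / 2)) u1)
  have t11 := abs_le.1 (mb (abs_cos_le_one (1 / 2)) u2)
  have k := abs_le.1 k
  refine ⟨by simpa using η2, abs_le.2 ?_, abs_le.2 ⟨by linarith, by linarith⟩⟩
  rw [sin_add]
  constructor <;> linarith

lemma num : 4788 / 10000 ≤ sin (1 / 2) ∧ sin (1 / 2) ≤ 4795 / 10000 ∧ 87 / 100 ≤ cos (1 / 2) ∧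
    cos (1 / 2) ≤ 87793 / 100000 ∧ cos 1 = 1 - 2 * sin (1 / 2) ^ 2 := by
  have h := abs_le.1 (sin_bound (x := 1 / 2) (by norm_num [abs_of_pos]))
  norm_num [abs_of_pos] at h
  have c := sin_sq_add_cos_sq (1 / 2)
  have c0 : 87 / 100 ≤ cos (1 / 2) := by linarith [one_sub_sq_div_two_le_cos (x := 1 / 2)]
  refine ⟨by linarith, by linarith, c0, by nlinarith, ?_⟩
  have := cos_two_mul (1 / 2)
  rw [show (2 : ℝ) * (1 / 2) = 1 by norm_num] at this
  linarith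

lemma top {x y : ℝ} (ha : A x ≤ 2 / 10 ^ 14) (y0 : 0 ≤ y) (e : V x y = 0) : |y - 1 / 2| ≤ 1 / 10 ^ 10 ∧
    |U x y + 3 * G x * cos (3 * y) - (sin (1 / 2) - A x * (4 * (1243 / 10000) * cos 1 - cos (1 / 2) * sin (1 / 2)))| ≤
      3 / 10 ^ 9 * (A x + G x) ∧
    |-W x y - (1 + A x * (2 * sin (1 / 2) - cos (1 / 2)))| ≤ 3 / 10 ^ 9 * (A x + G x) := by
  obtain ⟨h1, h2, h3⟩ := pt (abs_of_pos (A_pos x)).le ha (B_bd x).1 (B_bd x).2 (H0 x) (H_bd x).2.1 (G_le ha).2 y0 e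
  exact ⟨h1, le_of_eq_of_le (by unfold U; ring_nf) h2, le_of_eq_of_le (by unfold W; ring_nf) h3⟩

lemma bot {x y : ℝ} (ha : A x ≤ 2 / 10 ^ 14) (y0 : y ≤ 0) (e : V x y = 0) : |-y - 1 / 2| ≤ 1 / 10 ^ 10 ∧
    |-U x y - 3 * G x * cos (3 * y) - (sin (1 / 2) + A x * (4 * (1243 / 10000) * cos 1 - cos (1 / 2) * sin (1 / 2)))| ≤
      3 / 10 ^ 9 * (A x + G x) ∧
    |W x y - (1 - A x * (2 * sin (1 / 2) - cos (1 / 2)))| ≤ 3 / 10 ^ 9 * (A x + G x) := by
  obtain ⟨h1, h2, h3⟩ := pt (α := -A x) (y := -y) (by rw [abs_neg, abs_of_pos (A_pos x)]) ha (B_bd x).1 (B_bd x).2 (H0 x)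
    (H_bd x).2.1 (G_le ha).2 (by linarith) (by simpa [V] using e)
  simp only [mul_neg, sin_neg, cos_neg] at h2 h3
  exact ⟨h1, le_of_eq_of_le (by unfold U; ring_nf) h2, le_of_eq_of_le (by unfold W; ring_nf) h3⟩

lemma W_top {x y : ℝ} (ha : A x ≤ 2 / 10 ^ 14) (y0 : 0 ≤ y) (e : V x y = 0) :
    49 / 100 ≤ y ∧ W x y ≤ -9 / 10 := by
  obtain ⟨h1, -, h3⟩ := top ha y0 e
  obtain ⟨n1, n2, n3, n4, -⟩ := num
  exact ⟨by linarith [abs_le.1 h1], by nlinarith [abs_le.1 h3, G_le ha, A_pos x]⟩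

lemma W_bot {x y : ℝ} (ha : A x ≤ 2 / 10 ^ 14) (y0 : y ≤ 0) (e : V x y = 0) :
    y ≤ -49 / 100 ∧ 9 / 10 ≤ W x y := by
  obtain ⟨h1, -, h3⟩ := bot ha y0 e
  obtain ⟨n1, n2, n3, n4, -⟩ := num
  exact ⟨by linarith [abs_le.1 h1], by nlinarith [abs_le.1 h3, G_le ha, A_pos x]⟩

lemma xS (x : ℝ) : x * S x = |x| * |S x| := by
  rw [← abs_mul, abs_of_nonneg]
  unfold S
  rcases le_total 0 x with h | h
  · have := sinh_nonneg_iff.2 h; positivity
  · exact mul_nonneg_of_nonpos_of_nonpos h (div_nonpos_of_nonpos_of_nonneg (sinh_nonpos_iff.2 h) (by norm_num))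

lemma rad {x y : ℝ} (hy : |y| ≤ 13 / 25) (e : V x y = 0) : x * (S x * U x y) + y * W x y < 0 := by
  obtain ⟨a1, hy⟩ := small hy e.ge
  have a0 := A_pos x
  rcases le_total (A x) (2 / 10 ^ 14) with c | c
  · have x1 : |x| ≤ 10 ^ 7 := x_le (by unfold A at c; linarith) (by norm_num)
    have s1 : |S x| ≤ 2 / 10 ^ 14 := abs_le_of_sq_le_sq' (by nlinarith [S_sq x]) (by norm_num) |> abs_le.2
    have := (abs_le.1 (mb x1 (mb s1 (U_le y c)))).2
    rcases le_total 0 y with d | d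
    · nlinarith [W_top c d e]
    · nlinarith [W_bot c d e]
  · obtain ⟨u, g⟩ := U_neg hy (show 2 / 10 ^ 15 ≤ A x by linarith)
    have s1 : A x * (9 / 10) ≤ |S x| := le_of_pow_le_pow_left₀ two_ne_zero (abs_nonneg _) (by rw [sq_abs]; nlinarith [S_sq x])
    have s2 := mul_le_mul (x_ge (show 2 / 10 ^ 15 ≤ A x by linarith)) s1 (by positivity) (abs_nonneg x)
    rw [← xS] at s2
    have t1 := (abs_le.1 (mb hy (mb (abs_of_pos a0).le (abs_cos_le_one y)))).2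
    have t2 := (abs_le.1 (mb hy (mb (abs_of_nonneg (B_bd x).1).le (abs_sin_le_one (2 * y))))).2
    have t3 := (abs_le.1 (mb hy (mb (abs_of_nonneg (mul_nonneg a0.le (H0 x))).le (abs_sin_le_one (3 * y))))).2
    have t4 := mul_le_mul_of_nonneg_left (H_bd x).2.1 a0.le
    have t5 : x * S x * U x y ≤ 40 * (A x * (9 / 10)) * (-(1 / 20) * G x) := by nlinarith
    unfold W
    nlinarith [(B_bd x).2, sq_nonneg y]

/-- what is known of a nearest boundary point `(x, y)` of `(x + m, y + n)` -/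
structure Near (x y m n : ℝ) : Prop where
  zero : V x y = 0
  n1 : |n| ≤ 1
  cross : S x * U x y * n = W x y * m
  dot : 0 < S x * U x y * m + W x y * n

lemma Near.neg {x y m n : ℝ} (h : Near x y m n) : Near (-x) y (-m) n := by
  obtain ⟨h1, h2, h3, h4⟩ := h
  have a : A (-x) = A x := by simp [A]
  have s : S (-x) = -S x := by simp [S, neg_div]
  refine ⟨?_, h2, ?_, ?_⟩ <;> simp only [V, U, W, B, G, H, a, s] at * <;> linarith

lemma Near.sg {x y m n : ℝ} (h : Near x y m n) : (S x * U x y < 0 → m < 0) ∧ (W x y < 0 → n < 0) ∧ (0 < W x y → 0 < n) := by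
  have h1 := h.cross
  have h2 := h.dot
  generalize S x * U x y = a, W x y = b at *
  have e1 : a * (a * m + b * n) = m * (a ^ 2 + b ^ 2) := by linear_combination b * h1
  have e2 : b * (a * m + b * n) = n * (a ^ 2 + b ^ 2) := by linear_combination -a * h1
  refine ⟨fun h => ?_, fun h => ?_, fun h => ?_⟩ <;> by_contra c <;> nlinarith [sq_nonneg a, sq_nonneg b]

lemma Near.m_le {x y m n : ℝ} (h : Near x y m n) (ha : A x ≤ 2 / 10 ^ 14) : |m| ≤ |x| / 2 := by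
  have w : 9 / 10 ≤ |W x y| := (le_total 0 y).elim (fun d => le_abs.2 (Or.inr (by linarith [W_top ha d h.zero])))
    fun d => le_abs.2 (Or.inl (W_bot ha d h.zero).2)
  have := mb (mb (S_le x) (U_le y ha)) h.n1
  rw [h.cross, abs_mul] at this
  nlinarith [abs_nonneg m, abs_nonneg x]

lemma alg {a a' g g' u w N R s k m : ℝ} (a0 : 0 < a) (aa : a ≤ a') (a1 : a' ≤ 2 / 10 ^ 14) (g0 : 0 ≤ g) (g1 : g ≤ 1600)
    (g0' : 0 ≤ g') (g1' : g' ≤ 1600) (s0 : 47 / 100 ≤ s) (s1 : s ≤ 1 / 2) (hk : |k| ≤ 1) (hm : |m| ≤ 1)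
    (c1 : k + s * m ≤ 0) (c2 : 8 / 10000 ≤ 2 * k + 2 * (s * m) + s ^ 2) (u0 : 0 < u)
    (hu : u ≤ s - a * k - 12 / 100 * g + 3 / 10 ^ 9 * (a + g)) (hw : 1 + a * m - 3 / 10 ^ 9 * (a + g) ≤ w)
    (hN : s + a' * k + 12 / 100 * g' - 3 / 10 ^ 9 * (a' + g') ≤ N)
    (hR : R ≤ 1 - a' * m - a' * s + 2 / 10 ^ 5 * a' + 3 / 10 ^ 9 * g') : u * R < N * w := by
  have k1 := abs_le.1 (mb (abs_of_pos a0).le hk)
  have k2 := abs_le.1 (mb (abs_of_pos (a0.trans_le aa)).le hk)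
  have m1 := abs_le.1 (mb (abs_of_pos a0).le hm)
  have m2 := abs_le.1 (mb (abs_of_pos (a0.trans_le aa)).le hm)
  have m3 : 0 ≤ a' * s ∧ a' * s ≤ a' := ⟨by nlinarith, by nlinarith⟩
  set υ := -(a * k) - 12 / 100 * g + 3 / 10 ^ 9 * (a + g) with hυ
  set ω := a * m - 3 / 10 ^ 9 * (a + g) with hω
  set ν := a' * k + 12 / 100 * g' - 3 / 10 ^ 9 * (a' + g') with hν
  set ϱ := -(a' * m) - a' * s + 2 / 10 ^ 5 * a' + 3 / 10 ^ 9 * g' with hϱ
  have b1 : |υ| ≤ 2 * a' + g := abs_le.2 ⟨by linarith, by linarith⟩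
  have b2 : |ω| ≤ 1 / 10 ^ 5 := abs_le.2 ⟨by linarith, by linarith⟩
  have b3 : |ν| ≤ 2 * a' + g' := abs_le.2 ⟨by linarith, by linarith⟩
  have b4 : |ϱ| ≤ 1 / 10 ^ 5 := abs_le.2 ⟨by linarith, by linarith⟩
  have t1 := (abs_le.1 (mb b1 b4)).2
  have t2 := (abs_le.1 (mb b3 b2)).1
  have e1 : u * R ≤ (s + υ) * (1 + ϱ) := (mul_le_mul_of_nonneg_left (show R ≤ 1 + ϱ by linarith) u0.le).trans
    (mul_le_mul_of_nonneg_right (by linarith) (by linarith [abs_le.1 b4]))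
  have e2 : (s + ν) * (1 + ω) ≤ N * w := mul_le_mul (by linarith) (by linarith) (by linarith [abs_le.1 b2]) (by linarith)
  have e3 := mul_le_mul_of_nonneg_right aa (neg_nonneg.2 c1)
  have e4 := mul_le_mul_of_nonneg_left c2 (a0.le.trans aa)
  have e5 : s * (ω - ϱ) = s * (a * m + a' * m + a' * s) - s * (3 / 10 ^ 9 * (a + g) + 2 / 10 ^ 5 * a' + 3 / 10 ^ 9 * g') := by
    rw [hω, hϱ]; ring
  have e6 := mul_le_mul_of_nonneg_right s1 (show 0 ≤ 3 / 10 ^ 9 * (a + g) + 2 / 10 ^ 5 * a' + 3 / 10 ^ 9 * g' by linarith)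
  nlinarith

lemma num2 {k μ : ℝ} (hk : k = 4 * (1243 / 10000) * cos 1 - cos (1 / 2) * sin (1 / 2))
    (hμ : μ = 2 * sin (1 / 2) - cos (1 / 2)) : |k| ≤ 1 ∧ |μ| ≤ 1 ∧ k + sin (1 / 2) * μ ≤ 0 ∧
    8 / 10000 ≤ 2 * k + 2 * (sin (1 / 2) * μ) + sin (1 / 2) ^ 2 := by
  obtain ⟨n1, n2, n3, n4, n5⟩ := num
  subst hk hμ
  exact ⟨abs_le.2 ⟨by nlinarith, by nlinarith⟩, abs_le.2 ⟨by linarith, by linarith⟩, by nlinarith, by nlinarith⟩

lemma S_sub {x x' δ : ℝ} (x0' : 0 < x') (δ0 : 0 < δ) (δ1 : δ ≤ 1) (xx : x ≤ x' - δ) :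
    S x ≤ S x' * (1 + δ ^ 2) - A x' * δ := by
  have b1 := sinh_le_sinh.2 xx
  rw [sinh_sub] at b1
  have : δ ^ 2 ≤ 1 := by nlinarith
  have b2 : cosh δ ≤ 1 + δ ^ 2 := (cosh_le_exp_half_sq δ).trans
    ((exp_bound_div_one_sub_of_interval (by positivity) (by linarith)).trans
      ((div_le_iff₀ (by linarith)).2 (by nlinarith [sq_nonneg δ])))
  have b3 := mul_le_mul_of_nonneg_left b2 (sinh_pos_iff.2 x0').le
  have b4 := mul_le_mul_of_nonneg_left (self_le_sinh_iff.2 δ0.le) (cosh_pos x').le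
  unfold S A
  linarith

lemma Rb {a g w N h δ s μ : ℝ} (a0 : 0 < a) (a1 : a ≤ 2 / 10 ^ 14) (g1 : g ≤ 1600) (δ0 : 0 < δ) (δ1 : δ ≤ 6000 * a)
    (μ1 : |μ| ≤ 1) (s0 : 47 / 100 ≤ s) (s1 : s ≤ 1 / 2) (hw : w ≤ 1 - a * μ + 3 / 10 ^ 9 * (a + g))
    (hN : s - 1 / 10 ^ 5 ≤ N) (hh : 1 - 2 / 10 ^ 10 ≤ h) :
    w * (1 + δ ^ 2) - a * (N * h) ≤ 1 - a * μ - a * s + 2 / 10 ^ 5 * a + 3 / 10 ^ 9 * g := by
  have b1 : δ ^ 2 ≤ 1 / 10 ^ 6 * a := by nlinarith
  have b2 : w ≤ 2 := by linarith [abs_le.1 (mb (abs_of_pos a0).le μ1)]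
  have b3 := mul_le_mul b2 b1 (by positivity) (by norm_num)
  have b4 := mul_le_mul hN hh (by norm_num) (by linarith)
  have b5 := mul_le_mul_of_nonneg_left (show s - 11 / 10 ^ 6 ≤ _ from le_trans (by linarith) b4) a0.le
  linarith

lemma pair {x y m n x' y' m' n' : ℝ} (h : Near x y m n) (h' : Near x' y' m' n') (ex : x + m = x' + m')
    (ey : y + n = y' + n') (z0 : 0 < x + m) (y0 : 0 ≤ y) (y0' : y' ≤ 0) (ha : A x ≤ 2 / 10 ^ 14)
    (ha' : A x' ≤ 2 / 10 ^ 14) : m' / n' < m / n := by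
  have x0 : 0 < x := by have := h.m_le ha; cases abs_cases m <;> cases abs_cases x <;> linarith
  have x0' : 0 < x' := by have := h'.m_le ha'; cases abs_cases m' <;> cases abs_cases x' <;> linarith
  obtain ⟨p1, p2, p3⟩ := top ha y0 h.zero
  obtain ⟨q1, q2, q3⟩ := bot ha' y0' h'.zero
  have w := (W_top ha y0 h.zero).2
  have w' := (W_bot ha' y0' h'.zero).2
  have n0 := h.sg.2.1 (by linarith)
  have n0' := h'.sg.2.2 (by linarith)
  obtain ⟨n1, n2, -⟩ := num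
  obtain ⟨g0, g1⟩ := G_le ha
  obtain ⟨g0', g1'⟩ := G_le ha'
  have a0 := A_pos x
  have a0' := A_pos x'
  rw [abs_le] at p1 p2 p3 q1 q2 q3
  have c3 := mul_le_mul_of_nonneg_left
    (cos_ge (t := 3 * y) (c := 1503 / 1000) (abs_le.2 ⟨by linarith, by linarith⟩) (by norm_num)) g0
  have c3' := mul_le_mul_of_nonneg_left
    (cos_ge (t := 3 * y') (c := 1503 / 1000) (abs_le.2 ⟨by linarith, by linarith⟩) (by norm_num)) g0'
  obtain ⟨k1, μ1, k2, k3⟩ := num2 rfl rfl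
  generalize 4 * (1243 / 10000) * cos 1 - cos (1 / 2) * sin (1 / 2) = k, 2 * sin (1 / 2) - cos (1 / 2) = μ at *
  generalize sin (1 / 2) = s at *
  have hN : s + A x' * k + 12 / 100 * G x' - 3 / 10 ^ 9 * (A x' + G x') ≤ -U x' y' := by linarith
  have N0 : s - 1 / 10 ^ 5 ≤ -U x' y' := by linarith [abs_le.1 (mb (abs_of_pos a0').le k1)]
  have S0 : 0 < S x := div_pos (sinh_pos_iff.2 x0) (by norm_num)
  have S0' : 0 < S x' := div_pos (sinh_pos_iff.2 x0') (by norm_num)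
  have S1' : S x' ≤ A x' := div_le_div_of_nonneg_right (sinh_lt_cosh x').le (by norm_num)
  have W0 : 0 < W x' y' := by linarith
  refine not_le.1 fun hc => ?_
  have e : m / n = S x * U x y / W x y := by rw [div_eq_div_iff n0.ne (by linarith)]; linarith [h.cross]
  have e' : m' / n' = S x' * U x' y' / W x' y' := by rw [div_eq_div_iff n0'.ne' W0.ne']; linarith [h'.cross]
  obtain ⟨δ, hδ⟩ : ∃ δ, δ = S x' * -U x' y' / W x' y' * (y - y') := ⟨_, rfl⟩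
  have δ0 : 0 < δ := hδ ▸ mul_pos (div_pos (mul_pos S0' (by linarith)) W0) (by linarith)
  have δe : δ * W x' y' = S x' * -U x' y' * (y - y') := by rw [hδ]; field_simp
  have δ1 : δ ≤ 6000 * A x' := by
    have := mul_le_mul (mul_le_mul S1' ((neg_le_abs _).trans (U_le y' ha')) (by linarith) a0'.le)
      (show y - y' ≤ 101 / 100 by linarith) (by linarith) (by positivity)
    linarith [mul_le_mul_of_nonneg_left w' δ0.le]
  have xx : x ≤ x' - δ := by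
    have a1 : m' = m' / n' * n' := (div_mul_cancel₀ _ n0'.ne').symm
    have a2 : m = m / n * n := (div_mul_cancel₀ _ n0.ne).symm
    have a3 := mul_le_mul_of_nonpos_right hc n0.le
    have a4 : δ = -(m' / n') * (n' - n) := by rw [hδ, e', show y - y' = n' - n by linarith]; ring
    linarith
  have sh := S_sub x0' δ0 (by linarith) xx
  have aa : A x ≤ A x' := div_le_div_of_nonneg_right
    (cosh_le_cosh.2 (by rw [abs_of_pos x0, abs_of_pos x0']; linarith)) (by norm_num)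
  rw [e, e', div_le_iff_of_neg (by linarith), div_mul_eq_mul_div, div_le_iff₀ W0] at hc
  have u0 : 0 < U x y := not_le.1 fun c => by
    have : 0 < S x' * (-U x' y' * -W x y) := mul_pos S0' (mul_pos (by linarith) (by linarith))
    linarith [mul_nonneg (mul_pos S0 W0).le (neg_nonneg.2 c)]
  have fin := alg a0 aa ha' g0 g1 g0' g1' (show 47 / 100 ≤ s by linarith) (by linarith) k1 μ1 k2 k3 u0
    (by linarith) (show _ ≤ -W x y by linarith) hN (Rb (w := W x' y') (h := y - y') a0' ha' g1' δ0 δ1 μ1 (by linarith)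
      (by linarith) (by linarith) N0 (by linarith))
  have f1 := mul_le_mul_of_nonneg_right sh (mul_pos u0 W0).le
  have f2 := mul_lt_mul_of_pos_left fin S0'
  have f3 : A x' * δ * (U x y * W x' y') = A x' * U x y * (S x' * -U x' y' * (y - y')) := by rw [← δe]; ring
  linarith

lemma bump (y : ℝ) (hy : |y| ≤ 13 / 25) : V 0 y < V 2 (A 2 / 2) ∧ 0 < V 2 (A 2 / 2) ∧ |A 2 / 2| < 13 / 25 := by
  have c3 := cos_ge (t := 3 * y) (c := 39 / 25) (by rw [abs_mul]; norm_num; linarith) (by norm_num)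
  have a0 : A 0 = 1 / 10 ^ 40 := by simp [A]
  have a1 : 3 / 10 ^ 40 ≤ A 2 := div_le_div_of_nonneg_right (by
    rw [cosh_eq]; linarith [quadratic_le_exp_of_nonneg (x := 2) (by norm_num), add_one_le_exp (-2 : ℝ),
      exp_pos (-2), sum_le_exp_of_nonneg (x := 2) (by norm_num) 4]) (by norm_num)
  have a2 : A 2 ≤ 9 / 10 ^ 40 := div_le_div_of_nonneg_right (by have := cosh_le 2 (x := 2) (x' := 0) (by simp); rw [cosh_zero] at this; linarith) (by norm_num)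
  have l : V 0 y ≤ 1 / 4 + 126 / 1000 * (1 / 10 ^ 40) ^ 2 := by
    have := (le_abs_self _).trans (abs_sin_le_abs (x := y))
    have c2 := one_sub_sq_div_two_le_cos (x := 2 * y)
    simp only [V, B, H, a0]
    nlinarith [sq_nonneg (|y| - 1 / 10 ^ 40 / 2), sq_abs y, abs_nonneg y]
  have r : 1 / 4 + 127 / 1000 * (1 / 10 ^ 40) ^ 2 ≤ V 2 (A 2 / 2) := by
    have s := mul_le_mul_of_nonneg_left (sin_ge_sub_cube (x := A 2 / 2) (by linarith)) (A_pos 2).le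
    have b := mul_le_of_le_one_right (B_bd 2).1 (cos_le_one (2 * (A 2 / 2)))
    have c := mul_le_of_le_one_right (mul_nonneg (A_pos 2).le (H0 2)) (cos_le_one (3 * (A 2 / 2)))
    have d := mul_le_mul a2 ((H_bd 2).2.1.trans (H_bd 2).2.2.2) (H0 2) (by norm_num)
    have e := pow_le_pow_left₀ (by norm_num) a1 2
    have f : A 2 ^ 4 ≤ 1 / 10 ^ 10 * A 2 ^ 2 := by nlinarith [pow_le_pow_left₀ (A_pos 2).le a2 2]
    unfold V
    unfold B at *
    nlinarith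
  exact ⟨by linarith, by linarith, by rw [abs_of_nonneg (by linarith)]; linarith⟩

end Pool.Agent.Lib.Helper21.Bent
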