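import Pool.Agent.Lib.helper21.Bent

/-! A slightly bent strip with an explicit torsion function: geometry. -/

set_option autoImplicit false

namespace Pool.Agent.Lib.Helper21.BentGeo

open Set Metric Filter Topology Complex Pool.Agent.Lib.Helper21.Bent

noncomputable def v (z : ℂ) : ℝ := V z.re z.im
def Ω : Set ℂ := {z | |z.im| < 13 / 25 ∧ 0 < v z}

lemma dA (z : ℂ) : HasFDerivAt (fun z : ℂ => A z.re) (S z.re • reCLM) z :=
  ((Real.hasDerivAt_cosh z.re).div_const _).comp_hasFDerivAt z reCLM.hasFDerivAt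
lemma dS (z : ℂ) : HasFDerivAt (fun z : ℂ => S z.re) (A z.re • reCLM) z :=
  ((Real.hasDerivAt_sinh z.re).div_const _).comp_hasFDerivAt z reCLM.hasFDerivAt
lemma dy (z : ℂ) : HasFDerivAt (fun z : ℂ => z.im) imCLM z := imCLM.hasFDerivAt

lemma dv (z : ℂ) : HasFDerivAt v ((S z.re * U z.re z.im) • reCLM + W z.re z.im • imCLM) z := by
  refine ((((((dy z).pow 2).const_sub (1 / 4)).add ((dA z).mul (dy z).sin)).sub
    ((((((dA z).pow 2).const_mul 2).sub_const _).const_mul _).mul ((dy z).const_mul 2).cos)).sub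
    (((dA z).mul (((((dA z).pow 2).const_mul 4).sub_const _).const_mul _)).mul ((dy z).const_mul 3).cos)).congr_fderiv ?_
  ext h
  simp [U, W, B, G, H]
  ring

lemma cv : ContDiff ℝ 2 v := by
  have h1 : ContDiff ℝ 2 fun z : ℂ => z.re := reCLM.contDiff
  have h2 : ContDiff ℝ 2 fun z : ℂ => z.im := imCLM.contDiff
  unfold v V B H A
  fun_prop

lemma lap (z : ℂ) : fderiv ℝ (fun w => fderiv ℝ v w (1 : ℂ)) z (1 : ℂ) + fderiv ℝ (fun w => fderiv ℝ v w I) z I = -2 := by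
  have e1 : (fun w => fderiv ℝ v w (1 : ℂ)) = fun w => S w.re * U w.re w.im := funext fun w => by simp [(dv w).fderiv]
  have e2 : (fun w => fderiv ℝ v w I) = fun w => W w.re w.im := funext fun w => by simp [(dv w).fderiv]
  have d1 := (dS z).mul (((dy z).sin.sub (((dA z).const_mul (4 * (1243 / 10000))).mul ((dy z).const_mul 2).cos)).sub
    (((((((dA z).pow 2).const_mul 4).sub_const ((1 / 10 ^ 40) ^ 2)).const_mul (10 ^ 30)).const_mul 3).mul
      ((dy z).const_mul 3).cos))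
  have d2 := ((((dy z).const_mul (-2)).add ((dA z).mul (dy z).cos)).add
    (((((((dA z).pow 2).const_mul 2).sub_const ((1 / 10 ^ 40) ^ 2)).const_mul (1243 / 10000)).const_mul 2).mul
      ((dy z).const_mul 2).sin)).add
    ((((dA z).mul (((((dA z).pow 2).const_mul 4).sub_const (3 * (1 / 10 ^ 40) ^ 2)).const_mul (10 ^ 30))).const_mul 3).mul
      ((dy z).const_mul 3).sin)
  rw [e1, e2, show fderiv ℝ (fun w : ℂ => S w.re * U w.re w.im) z = _ from d1.fderiv,
    show fderiv ℝ (fun w : ℂ => W w.re w.im) z = _ from d2.fderiv]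
  simp
  linear_combination (-(8 * (1243 / 10000) / 2 * Real.cos (2 * z.im)) - 24 * 10 ^ 30 * A z.re * Real.cos (3 * z.im)) *
    S_sq z.re

lemma opn : IsOpen Ω := (isOpen_lt (show Continuous fun z : ℂ => |z.im| by fun_prop) continuous_const).inter
  (isOpen_lt continuous_const cv.continuous)

lemma clo {z : ℂ} (h : z ∈ closure Ω) : |z.im| ≤ 13 / 25 ∧ 0 ≤ v z :=
  closure_minimal (t := {z : ℂ | |z.im| ≤ 13 / 25 ∧ 0 ≤ v z}) (fun _ hz => ⟨hz.1.le, hz.2.le⟩)
    ((isClosed_le (by fun_prop) continuous_const).and (isClosed_le continuous_const cv.continuous)) h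

lemma zero {z : ℂ} (h : z ∈ closure Ω) (h' : z ∉ Ω) : v z = 0 :=
  le_antisymm (not_lt.1 fun e => h' ⟨by linarith [(small (clo h).1 (clo h).2).2], e⟩) (clo h).2

lemma bdd : Bornology.IsBounded Ω := (isBounded_closedBall (x := (0 : ℂ)) (r := 10 ^ 9 + 1)).subset fun z hz => by
  have := (small hz.1.le hz.2.le).1
  have : |z.re| ≤ 10 ^ 9 := x_le (by unfold A at this; linarith) (by norm_num)
  exact mem_closedBall_zero_iff.2 ((norm_le_abs_re_add_abs_im z).trans (by linarith [hz.1]))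

lemma v0 : 0 < v 0 := by simp only [v, V, B, H, A]; norm_num

lemma star : StarConvex ℝ 0 Ω := by
  intro z hz a b a0 b0 ab
  rw [smul_zero, zero_add]
  have bx : ∀ t ∈ Icc (0 : ℝ) 1, |(t • z).im| < 13 / 25 := fun t ht => by
    rw [smul_im, smul_eq_mul, abs_mul, abs_of_nonneg ht.1]
    exact (mul_le_of_le_one_left (abs_nonneg _) ht.2).trans_lt hz.1
  have d : ∀ t : ℝ, HasDerivAt (fun t : ℝ => v (t • z)) _ t := fun t =>
    (dv _).comp_hasDerivAt t ((hasDerivAt_id t).smul_const z)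
  have neg : ∀ t ∈ Ioc (0 : ℝ) 1, v (t • z) = 0 → deriv (fun t : ℝ => v (t • z)) t < 0 := fun t ht e => by
    have := rad (bx t ⟨ht.1.le, ht.2⟩).le e
    rw [(d t).deriv]
    refine neg_of_mul_neg_left (b := t) ?_ ht.1.le
    simp only [smul_re, smul_im, smul_eq_mul] at this
    simp
    linarith
  have nn : ∀ s ∈ Icc (0 : ℝ) 1, -v ((1 - s) • z) ≤ 0 := fun s hs =>
    image_le_of_deriv_right_lt_deriv_boundary (f := fun s => -v ((1 - s) • z))
      (f' := fun s => deriv (fun t : ℝ => v (t • z)) (1 - s)) (cv.continuous.comp (by fun_prop)).neg.continuousOn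
      (fun s _ => (((d (1 - s)).differentiableAt.hasDerivAt.comp_const_sub 1 s).neg.congr_deriv (neg_neg _)).hasDerivWithinAt)
      (B := fun _ => 0) (B' := fun _ => 0) (by simpa using hz.2.le) (fun s => hasDerivAt_const s 0)
      (fun s hs e => neg _ ⟨by linarith [hs.2], by linarith [hs.1]⟩ (by simpa using e)) hs
  have nn' : ∀ t ∈ Icc (0 : ℝ) 1, 0 ≤ v (t • z) := fun t ht => by
    simpa using nn (1 - t) ⟨by linarith [ht.2], by linarith [ht.1]⟩
  refine ⟨bx b ⟨b0, by linarith⟩, (nn' b ⟨b0, by linarith⟩).lt_of_ne' fun e => ?_⟩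
  rcases b0.eq_or_lt with rfl | b0
  · exact v0.ne' (by simpa using e)
  rcases a0.eq_or_lt with rfl | a0
  · exact hz.2.ne' (by simpa [show b = 1 by linarith] using e)
  refine (neg b ⟨b0, by linarith⟩ e).ne (IsLocalMin.deriv_eq_zero ?_)
  filter_upwards [Icc_mem_nhds b0 (show b < 1 by linarith)] with t ht using e ▸ nn' t ht

lemma nm {F : Set ℂ} (hF : IsClosed F) (ne : F.Nonempty) {z : ℂ} (h : IsLocalMax (fun w => infDist w F) z) (e : ℂ) :
    ∃ p ∈ F, dist z p = infDist z F ∧ (z - p).re * e.re + (z - p).im * e.im ≤ 0 := by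
  by_contra hn
  push Not at hn
  set K := {p ∈ F | (z - p).re * e.re + (z - p).im * e.im ≤ 0}
  obtain ⟨η, η0, hη⟩ : ∃ η > 0, ∀ p ∈ K, infDist z F + η ≤ dist z p := by
    rcases K.eq_empty_or_nonempty with c | c
    · exact ⟨1, one_pos, by simp [c]⟩
    · obtain ⟨q, hq, e1⟩ := (show IsClosed K from hF.and (isClosed_le (by fun_prop) continuous_const)).exists_infDist_eq_dist c z
      refine ⟨dist z q - infDist z F, sub_pos.2 ((infDist_le_dist_of_mem hq.1).lt_of_ne fun e => ?_), fun p hp => ?_⟩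
      · exact (hn q hq.1 e.symm).not_ge hq.2
      · linarith [infDist_le_dist_of_mem (x := z) hp]
  have t1 : Tendsto (fun t : ℝ => z + t * e) (𝓝[>] 0) (𝓝 z) :=
    tendsto_nhdsWithin_of_tendsto_nhds (Continuous.tendsto' (by fun_prop) _ _ (by simp))
  obtain ⟨t, ⟨h1, h2⟩, t0⟩ := (((t1.eventually h).and (t1.eventually (ball_mem_nhds z η0))).and self_mem_nhdsWithin).exists
  obtain ⟨p, hp, ep⟩ := hF.exists_infDist_eq_dist ne (z + t * e)
  simp only [ep] at h1
  by_cases c : p ∈ K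
  · linarith [hη p c, dist_triangle z (z + t * e) p, mem_ball'.1 h2]
  · have c' := mul_pos (mem_Ioi.1 t0) (not_le.1 fun e => c ⟨hp, e⟩)
    have := pow_le_pow_left₀ dist_nonneg (h1.trans (infDist_le_dist_of_mem hp)) 2
    simp only [dist_eq_norm, Complex.sq_norm, normSq_apply] at this
    simp at this c'
    nlinarith [sq_nonneg (t * e.re), sq_nonneg (t * e.im)]

lemma d_le {z : ℂ} (hz : z ∈ Ω) : infDist z Ωᶜ ≤ 1 := by
  have h := abs_lt.1 hz.1
  have h1 := infDist_le_dist_of_mem (x := z) (y := ⟨z.re, 13 / 25⟩) (s := Ωᶜ) fun e => by simpa [abs_of_pos] using e.1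
  have h2 := infDist_le_dist_of_mem (x := z) (y := ⟨z.re, -(13 / 25)⟩) (s := Ωᶜ) fun e => by simpa [abs_of_pos] using e.1
  rw [dist_of_re_eq (by rfl), Real.dist_eq] at h1
  rw [dist_of_re_eq (by rfl), Real.dist_eq] at h2
  rw [abs_of_neg (by linarith)] at h1
  rw [abs_of_pos (by linarith)] at h2
  linarith

lemma ne_compl : Ωᶜ.Nonempty := ⟨I, fun e => by have := e.1; norm_num at this⟩

lemma near {z p : ℂ} (hz : z ∈ Ω) (hp : p ∈ Ωᶜ) (e : dist z p = infDist z Ωᶜ) :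
    |p.im| ≤ 501 / 1000 ∧ |p.re - z.re| ≤ 1 ∧ Near p.re p.im (z - p).re (z - p).im := by
  have d0 : 0 < infDist z Ωᶜ := (opn.isClosed_compl.notMem_iff_infDist_pos ne_compl).1 fun h => h hz
  have cb : closedBall z (infDist z Ωᶜ) ⊆ closure Ω :=
    closure_ball z d0.ne' ▸ closure_mono ball_infDist_compl_subset
  have pb : p ∈ closedBall z (infDist z Ωᶜ) := mem_closedBall'.2 e.le
  have z0 := zero (cb pb) hp
  have n1 : ‖z - p‖ ≤ 1 := by rw [← dist_eq_norm, e]; exact d_le hz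
  obtain ⟨g, hg⟩ : ∃ g : ℂ, g = ⟨S p.re * U p.re p.im, W p.re p.im⟩ := ⟨_, rfl⟩
  have g0 : 0 < ‖g‖ := norm_pos_iff.2 fun e => by
    have := rad (clo (cb pb)).1 z0
    rw [hg, Complex.ext_iff] at e
    simp only [zero_re, zero_im] at e
    simp [e] at this
  have qb : z - (infDist z Ωᶜ / ‖g‖ : ℝ) * g ∈ closedBall z (infDist z Ωᶜ) := by
    simp [abs_of_pos d0, g0.ne']
  have k := IsLocalMinOn.hasFDerivWithinAt_nonneg (s := closedBall z (infDist z Ωᶜ))
    (IsMinOn.localize fun q hq => z0.trans_le (clo (cb hq)).2) (dv p).hasFDerivWithinAt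
    (sub_mem_posTangentConeAt_of_segment_subset ((convex_closedBall ..).segment_subset pb qb))
  have k' : infDist z Ωᶜ * ‖g‖ ≤ g.re * (z - p).re + g.im * (z - p).im := by
    have : infDist z Ωᶜ * ‖g‖ = infDist z Ωᶜ / ‖g‖ * (g.re * g.re + g.im * g.im) := by
      rw [← normSq_apply, ← Complex.sq_norm]; field_simp
    rw [this]
    simp only [add_apply, smul_apply, reCLM_apply, imCLM_apply, sub_re, sub_im, re_ofReal_mul, im_ofReal_mul,
      smul_eq_mul] at k
    simp only [hg, sub_re, sub_im] at k ⊢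
    linarith
  have k2 := pow_le_pow_left₀ (by positivity) k' 2
  rw [mul_pow, ← e, dist_eq_norm, Complex.sq_norm, Complex.sq_norm, normSq_apply, normSq_apply] at k2
  refine ⟨(small (clo (cb pb)).1 z0.ge).2, by simpa [abs_sub_comm] using (abs_re_le_norm _).trans n1, z0,
    (abs_im_le_norm _).trans n1, ?_, by simpa only [hg] using (mul_pos d0 g0).trans_le k'⟩
  have : (g.re * (z - p).im - g.im * (z - p).re) ^ 2 ≤ 0 := by nlinarith
  simpa only [hg, sub_eq_zero] using pow_eq_zero_iff two_ne_zero |>.1 (le_antisymm this (sq_nonneg _))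

lemma axis {z : ℂ} (hz : z ∈ Ω) (h : IsLocalMax (fun w => infDist w Ωᶜ) z) : z.re = 0 := by
  by_contra hx
  obtain ⟨s, hs, s0⟩ : ∃ s : ℝ, (s = 1 ∨ s = -1) ∧ 0 < s * z.re :=
    (lt_or_gt_of_ne hx).elim (fun c => ⟨-1, Or.inr rfl, by linarith⟩) fun c => ⟨1, Or.inl rfl, by linarith⟩
  have nr : ∀ p ∈ Ωᶜ, dist z p = infDist z Ωᶜ → Near (s * p.re) p.im (s * (z - p).re) (z - p).im := fun p hp e => by
    rcases hs with rfl | rfl
    · simpa using (near hz hp e).2.2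
    · simpa using (near hz hp e).2.2.neg
  have As : ∀ x, A (s * x) = A x := fun x => by rcases hs with rfl | rfl <;> simp [A]
  have nm := nm opn.isClosed_compl ne_compl h
  rcases le_total (6 / 10 ^ 15) (A z.re) with c | c
  · obtain ⟨p, hp, e, l⟩ := nm (-s)
    obtain ⟨p1, p2, -⟩ := near hz hp e
    have a : 2 / 10 ^ 15 ≤ A (s * p.re) := by rw [As]; linarith [A_le (abs_sub_comm p.re z.re ▸ p2)]
    obtain ⟨u, g⟩ := U_neg p1 a
    have x0 : 0 < s * p.re := by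
      have := x_ge a
      rcases hs with rfl | rfl <;> cases abs_cases (p.re - z.re) <;> rcases le_abs.1 this with _ | _ <;> linarith
    have := (nr p hp e).sg.1 (mul_neg_of_pos_of_neg (div_pos (Real.sinh_pos_iff.2 x0) (by norm_num)) (by linarith))
    simp at l this
    linarith
  have a : ∀ p ∈ Ωᶜ, dist z p = infDist z Ωᶜ → A (s * p.re) ≤ 2 / 10 ^ 14 := fun p hp e => by
    rw [As]; linarith [A_le (near hz hp e).2.1]
  have tp : ∀ p ∈ Ωᶜ, dist z p = infDist z Ωᶜ → 0 ≤ p.im → (z - p).im < 0 := fun p hp e y0 =>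
    (nr p hp e).sg.2.1 (by linarith [W_top (a p hp e) y0 (nr p hp e).zero])
  have bt : ∀ p ∈ Ωᶜ, dist z p = infDist z Ωᶜ → p.im ≤ 0 → 0 < (z - p).im := fun p hp e y0 =>
    (nr p hp e).sg.2.2 (by linarith [W_bot (a p hp e) y0 (nr p hp e).zero])
  have cN : IsCompact {p ∈ Ωᶜ | dist z p = infDist z Ωᶜ} := (isCompact_closedBall z (infDist z Ωᶜ)).of_isClosed_subset
    (opn.isClosed_compl.and (isClosed_eq (by fun_prop) continuous_const)) fun p hp => mem_closedBall'.2 hp.2.le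
  obtain ⟨p₁, h1, e1, l1⟩ := nm I
  obtain ⟨p₂, h2, e2, l2⟩ := nm (-I)
  let σ : ℂ → ℝ := fun p => s * (z - p).re / (z - p).im
  obtain ⟨q₁, ⟨⟨u1, u2⟩, u3⟩, m1⟩ := (cN.inter_right (isClosed_le continuous_const continuous_im)).exists_isMinOn
    ⟨p₁, ⟨h1, e1⟩, not_lt.1 fun c => (bt p₁ h1 e1 c.le).not_ge (by simpa using l1)⟩
    (f := σ) (.div (by fun_prop) (by fun_prop) fun p hp => (tp p hp.1.1 hp.1.2 hp.2).ne)
  obtain ⟨q₂, ⟨⟨w1, w2⟩, w3⟩, m2⟩ := (cN.inter_right (isClosed_le continuous_im continuous_const)).exists_isMaxOn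
    ⟨p₂, ⟨h2, e2⟩, not_lt.1 fun c => (tp p₂ h2 e2 c.le).not_ge (by simpa using l2)⟩
    (f := σ) (.div (by fun_prop) (by fun_prop) fun p hp => (bt p hp.1.1 hp.1.2 hp.2).ne')
  obtain ⟨τ, t1, t2⟩ := exists_between (pair (nr q₁ u1 u2) (nr q₂ w1 w2) (by simp only [sub_re]; ring)
    (by simp) (by simp only [sub_re]; linarith) u3 w3 (a q₁ u1 u2) (a q₂ w1 w2))
  obtain ⟨p, hp, e, l⟩ := nm ⟨-s, τ⟩
  rcases le_total 0 p.im with y | y
  · have := (lt_div_iff_of_neg (tp p hp e y)).1 (t2.trans_le (m1 ⟨⟨hp, e⟩, y⟩))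
    linarith
  · have := (div_lt_iff₀ (bt p hp e y)).1 ((m2 ⟨⟨hp, e⟩, y⟩).trans_lt t1)
    linarith

lemma ends {z : ℂ} (hz : z ∈ Ω) (h : IsLocalMax (fun w => infDist w Ωᶜ) z) :
    z.re = 0 ∧ 0 < z.im + infDist z Ωᶜ ∧ z.im - infDist z Ωᶜ < 0 ∧
      (⟨0, z.im + infDist z Ωᶜ⟩ : ℂ) ∉ Ω ∧ (⟨0, z.im - infDist z Ωᶜ⟩ : ℂ) ∉ Ω := by
  have x0 := axis hz h
  have k : ∀ p ∈ Ωᶜ, dist z p = infDist z Ωᶜ → p.re = 0 ∧ |z.im - p.im| = infDist z Ωᶜ ∧
      (0 ≤ p.im → 0 < p.im ∧ z.im < p.im) ∧ (p.im ≤ 0 → p.im < 0 ∧ p.im < z.im) := fun p hp e => by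
    obtain ⟨-, p2, n⟩ := near hz hp e
    have a : A p.re ≤ 2 / 10 ^ 14 := (A_le p2).trans (by simp only [x0, A]; norm_num)
    have p0 : p.re = 0 := by
      have := n.m_le a
      simp only [sub_re, x0, zero_sub, abs_neg] at this
      exact abs_eq_zero.1 (by linarith [abs_nonneg p.re])
    refine ⟨p0, by rw [← e, dist_of_re_eq (x0.trans p0.symm), Real.dist_eq], fun y => ?_, fun y => ?_⟩
    · have := W_top a y n.zero
      exact ⟨by linarith, by simpa using n.sg.2.1 (by linarith)⟩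
    · have := W_bot a y n.zero
      exact ⟨by linarith, by simpa using n.sg.2.2 (by linarith)⟩
  obtain ⟨p, h1, e1, l1⟩ := nm opn.isClosed_compl ne_compl h I
  obtain ⟨q, h2, e2, l2⟩ := nm opn.isClosed_compl ne_compl h (-I)
  obtain ⟨a1, a2, a3, a4⟩ := k p h1 e1
  obtain ⟨b1, b2, b3, b4⟩ := k q h2 e2
  simp at l1 l2
  have a5 := a3 (not_lt.1 fun c => by linarith [a4 c.le])
  have b5 := b4 (not_lt.1 fun c => by linarith [b3 c.le])
  rw [abs_of_neg (by linarith)] at a2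
  rw [abs_of_pos (by linarith)] at b2
  refine ⟨x0, by linarith, by linarith, fun c => h1 ?_, fun c => h2 ?_⟩
  · rwa [show p = ⟨0, z.im + infDist z Ωᶜ⟩ from Complex.ext a1 (by simp only; linarith)]
  · rwa [show q = ⟨0, z.im - infDist z Ωᶜ⟩ from Complex.ext b1 (by simp only; linarith)]

lemma uniq : {z ∈ Ω | IsLocalMax (fun w => infDist w Ωᶜ) z}.Subsingleton := by
  intro z hz w hw
  obtain ⟨a1, a2, a3, a4, a5⟩ := ends hz.1 hz.2
  obtain ⟨b1, b2, b3, b4, b5⟩ := ends hw.1 hw.2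
  have k : ∀ {z : ℂ} {t}, z.re = 0 → (⟨0, t⟩ : ℂ) ∉ Ω → infDist z Ωᶜ ≤ |z.im - t| := fun {z t} e h => by
    simpa [dist_of_re_eq (z := z) (w := ⟨0, t⟩) e, Real.dist_eq] using infDist_le_dist_of_mem (x := z) (s := Ωᶜ) h
  refine Complex.ext (a1.trans b1.symm) ?_
  rcases le_abs.1 (k a1 b4) with _ | _ <;> rcases le_abs.1 (k a1 b5) with _ | _ <;>
    rcases le_abs.1 (k b1 a4) with _ | _ <;> rcases le_abs.1 (k b1 a5) with _ | _ <;> linarith

lemma crit {s : ℝ} (hs : s = 1 ∨ s = -1) : ∃ z ∈ Ω, fderiv ℝ v z = 0 ∧ 0 < s * z.re := by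
  have e : v ⟨2 * s, A 2 / 2⟩ = V 2 (A 2 / 2) := by rcases hs with rfl | rfl <;> simp [v, V, B, H, A]
  obtain ⟨-, b1, b2⟩ := bump 0 (by norm_num)
  obtain ⟨q, ⟨q1, q2⟩, m⟩ := (bdd.isCompact_closure.inter_right (isClosed_le continuous_const
    (show Continuous fun z : ℂ => s * z.re by fun_prop))).exists_isMaxOn
    ⟨⟨2 * s, A 2 / 2⟩, subset_closure ⟨b2, e ▸ b1⟩, show 0 ≤ s * (2 * s) by nlinarith [sq_nonneg s]⟩ cv.continuous.continuousOn
  have l : V 2 (A 2 / 2) ≤ v q := e ▸ m ⟨subset_closure ⟨b2, e ▸ b1⟩, show 0 ≤ s * (2 * s) by nlinarith [sq_nonneg s]⟩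
  have qΩ : q ∈ Ω := by_contra fun c => by linarith [zero q1 c]
  have q0 : 0 < s * q.re := lt_of_le_of_ne q2 fun c => by
    have : q.re = 0 := by rcases hs with rfl | rfl <;> linarith
    exact (bump q.im qΩ.1.le).1.not_ge (this ▸ l)
  refine ⟨q, qΩ, IsLocalMax.fderiv_eq_zero (m.isLocalMax ?_), q0⟩
  filter_upwards [opn.mem_nhds qΩ, (isOpen_lt continuous_const
    (show Continuous fun z : ℂ => s * z.re by fun_prop)).mem_nhds q0] with z h1 h2 using ⟨subset_closure h1, h2.le⟩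

end Pool.Agent.Lib.Helper21.BentGeo
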