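import Pool.Agent.Lib.helper21.Epd2

namespace Pool.Agent.Lib.Helper21.Bloch
open Complex Filter Topology Set Metric Real ComplexConjugate

variable {g f : ℂ → ℂ} {r : ℝ}

lemma cmb (h0 : 0 ≤ r) (h1 : r < 1) (θ : ℝ) : circleMap 0 r θ ∈ ball (0 : ℂ) 1 := by
  simpa [abs_of_nonneg h0] using h1

lemma cc {E : Type} [TopologicalSpace E] {F : ℂ → E} (hF : ContinuousOn F (ball 0 1)) (h0 : 0 ≤ r)
    (h1 : r < 1) : Continuous fun θ => F (circleMap 0 r θ) :=
  hF.comp_continuous (continuous_circleMap 0 r) (cmb h0 h1)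

lemma ci {E : Type} [NormedAddCommGroup E] {F : ℂ → E} (hF : ContinuousOn F (ball 0 1)) (h0 : 0 ≤ r)
    (h1 : r < 1) : CircleIntegrable F 0 r := (cc hF h0 h1).intervalIntegrable ..

lemma cj (hf : ContinuousOn f (ball 0 1)) : ContinuousOn (fun z => conj (f z)) (ball 0 1) :=
  continuous_conj.comp_continuousOn hf

lemma cm (hg : ContinuousOn g (ball 0 1)) (hf : ContinuousOn f (ball 0 1)) :
    ContinuousOn (fun z => g z * conj (f z)) (ball 0 1) := hg.mul (cj hf)

lemma cr (hf : ContinuousOn f (ball 0 1)) : ContinuousOn (fun z => (f z).re) (ball 0 1) :=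
  continuous_re.comp_continuousOn hf

lemma lin {u v : ℂ → ℝ} (hu : CircleIntegrable u 0 r) (hv : CircleIntegrable v 0 r) (a b : ℝ) :
    circleAverage (fun z => a * u z + b * v z) 0 r
      = a * circleAverage u 0 r + b * circleAverage v 0 r :=
  (circleAverage_fun_add (f₁ := fun z => a • u z) (f₂ := fun z => b • v z) (hu.const_mul a)
    (hv.const_mul b)).trans (by rw [circleAverage_fun_smul, circleAverage_fun_smul]; rfl)

lemma zd (hf : DifferentiableOn ℂ f (ball 0 1)) :
    DifferentiableOn ℂ (fun z => z * deriv f z) (ball 0 1) :=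
  differentiableOn_id.mul (hf.deriv isOpen_ball)

lemma path (hg : DifferentiableOn ℂ g (ball 0 1)) (hf : DifferentiableOn ℂ f (ball 0 1))
    {γ : ℝ → ℂ} {d : ℂ} {t : ℝ} (hγ : HasDerivAt γ d t) (hb : γ t ∈ ball (0 : ℂ) 1) :
    HasDerivAt (fun t => g (γ t) * conj (f (γ t)))
      (d * deriv g (γ t) * conj (f (γ t)) + g (γ t) * conj (d * deriv f (γ t))) t := by
  have k : ∀ {f : ℂ → ℂ}, DifferentiableOn ℂ f (ball 0 1) →
      HasDerivAt (fun t => f (γ t)) (d * deriv f (γ t)) t := fun h => by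
    exact (h.differentiableAt (isOpen_ball.mem_nhds hb)).hasDerivAt.scomp t hγ
  exact (k hg).mul (k hf).star

lemma sym (hg : DifferentiableOn ℂ g (ball 0 1)) (hf : DifferentiableOn ℂ f (ball 0 1))
    (h0 : 0 ≤ r) (h1 : r < 1) :
    circleAverage (fun z => z * deriv g z * conj (f z)) 0 r
      = circleAverage (fun z => g z * conj (z * deriv f z)) 0 r := by
  have c1 := cm (zd hg).continuousOn hf.continuousOn
  have c2 := cm hg.continuousOn (zd hf).continuousOn
  rw [← sub_eq_zero, ← circleAverage_fun_sub (ci c1 h0 h1) (ci c2 h0 h1), circleAverage_def]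
  have := intervalIntegral.integral_eq_sub_of_hasDerivAt (a := 0) (b := 2 * π)
    (f := fun t => -I * (g (circleMap 0 r t) * conj (f (circleMap 0 r t))))
    (f' := fun t => circleMap 0 r t * deriv g (circleMap 0 r t) * conj (f (circleMap 0 r t))
      - g (circleMap 0 r t) * conj (circleMap 0 r t * deriv f (circleMap 0 r t)))
    (fun t _ => ((path hg hf (hasDerivAt_circleMap 0 r t) (cmb h0 h1 t)).const_mul
      (-I)).congr_deriv (by
        simp only [map_mul, conj_I]
        linear_combination (-(circleMap 0 r t * deriv g (circleMap 0 r t)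
          * conj (f (circleMap 0 r t))) + g (circleMap 0 r t) * (conj (circleMap 0 r t)
          * conj (deriv f (circleMap 0 r t)))) * I_sq))
    ((cc (c1.sub c2) h0 h1).intervalIntegrable ..)
  rw [this, show circleMap 0 r (2 * π) = circleMap 0 r 0 by
    simpa using periodic_circleMap 0 r 0]
  simp

lemma dA (hg : DifferentiableOn ℂ g (ball 0 1)) (hf : DifferentiableOn ℂ f (ball 0 1))
    (h0 : 0 < r) (h1 : r < 1) :
    HasDerivAt (circleAverage (fun z => g z * conj (f z)) 0)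
      ((2 / r : ℝ) * circleAverage (fun z => g z * conj (z * deriv f z)) 0 r) r := by
  obtain ⟨ρ, r1, r2⟩ := exists_between h1
  have bd : ∀ {F : ℂ → ℂ}, DifferentiableOn ℂ F (ball 0 1) →
      ∃ C, ∀ z ∈ closedBall (0 : ℂ) ρ, ‖F z‖ ≤ C := fun h =>
    (isCompact_closedBall (0 : ℂ) ρ).exists_bound_of_continuousOn
      (h.continuousOn.mono (closedBall_subset_ball r2))
  obtain ⟨C1, b1⟩ := bd hg
  obtain ⟨C2, b2⟩ := bd hf
  obtain ⟨C3, b3⟩ := bd (hg.deriv isOpen_ball)
  obtain ⟨C4, b4⟩ := bd (hf.deriv isOpen_ball)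
  have c0 := cm hg.continuousOn hf.continuousOn
  have c1 := cm (zd hg).continuousOn hf.continuousOn
  have c2 := cm hg.continuousOn (zd hf).continuousOn
  have c3 := (hg.deriv isOpen_ball).continuousOn
  have c4 := (hf.deriv isOpen_ball).continuousOn
  have := (intervalIntegral.hasDerivAt_integral_of_dominated_loc_of_deriv_le
    (μ := MeasureTheory.volume) (a := 0) (b := 2 * π) (x₀ := r) (s := Ioo 0 ρ)
    (F := fun x θ => g (circleMap 0 x θ) * conj (f (circleMap 0 x θ)))
    (F' := fun x θ => cexp (θ * I) * deriv g (circleMap 0 x θ) * conj (f (circleMap 0 x θ))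
      + g (circleMap 0 x θ) * conj (cexp (θ * I) * deriv f (circleMap 0 x θ)))
    (bound := fun _ => C3 * C2 + C1 * C4) (Ioo_mem_nhds h0 r1) ?_
    ((cc c0 h0.le h1).intervalIntegrable ..) ?_ (.of_forall fun θ _ x hx => ?_)
    intervalIntegrable_const (.of_forall fun θ _ x hx => ?_)).2.const_smul (2 * π)⁻¹
  · refine this.congr_deriv ?_
    have e : (2 / r : ℝ) * circleAverage (fun z => g z * conj (z * deriv f z)) 0 r
        = r⁻¹ • circleAverage (fun z => z * deriv g z * conj (f z)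
          + g z * conj (z * deriv f z)) 0 r := by
      rw [circleAverage_fun_add (ci c1 h0.le h1) (ci c2 h0.le h1), sym hg hf h0.le h1]
      simp only [real_smul]; push_cast; ring
    rw [e, ← circleAverage_fun_smul, circleAverage_def]
    congr 1
    refine intervalIntegral.integral_congr fun θ _ => ?_
    have : (r : ℂ) ≠ 0 := by exact_mod_cast h0.ne'
    simp only [circleMap, zero_add, map_mul, conj_ofReal, real_smul]
    push_cast; field_simp
  · filter_upwards [Ioo_mem_nhds h0 h1] with x hx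
    exact (cc c0 hx.1.le hx.2).aestronglyMeasurable
  · have k0 : Continuous fun θ : ℝ => cexp (θ * I) := by fun_prop
    exact (((k0.mul (cc c3 h0.le h1)).mul (cc (cj hf.continuousOn) h0.le h1)).add
      ((cc hg.continuousOn h0.le h1).mul
        (continuous_conj.comp (k0.mul (cc c4 h0.le h1))))).aestronglyMeasurable
  · have hm : circleMap 0 x θ ∈ closedBall (0 : ℂ) ρ := by simpa [abs_of_pos hx.1] using hx.2.le
    refine (norm_add_le _ _).trans ?_
    simp only [norm_mul, norm_exp_ofReal_mul_I, one_mul, RCLike.norm_conj]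
    have := (norm_nonneg _).trans (b3 _ hm)
    have := (norm_nonneg _).trans (b1 _ hm)
    gcongr
    exacts [b3 _ hm, b2 _ hm, b1 _ hm, b4 _ hm]
  · refine path hg hf (γ := fun x => circleMap 0 x θ) ?_ (cmb hx.1.le (hx.2.trans r2) θ)
    simpa [circleMap] using ((hasDerivAt_id x).ofReal_comp.mul_const (cexp (θ * I)))

lemma cA {F : ℂ → ℂ} (hF : ContinuousOn F (ball 0 1)) (h1 : r < 1) :
    ContinuousOn (fun x => (circleAverage F 0 x).re) (Icc 0 r) :=
  continuous_re.comp_continuousOn (ContinuousOn.circleAverage (hF.mono fun z hz => by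
    simpa using (show ‖z - 0‖ ≤ r from hz.2).trans_lt h1) fun _ h => h.1)

lemma cmp {φ ψ φ' ψ' : ℝ → ℝ} (h0 : 0 ≤ r) (c1 : ContinuousOn φ (Icc 0 r))
    (c2 : ContinuousOn ψ (Icc 0 r)) (d1 : ∀ x ∈ Ioo 0 r, HasDerivAt φ (φ' x) x)
    (d2 : ∀ x ∈ Ioo 0 r, HasDerivAt ψ (ψ' x) x) (h : ∀ x ∈ Ioo 0 r, φ' x ≤ ψ' x) (e : φ 0 ≤ ψ 0) :
    φ r ≤ ψ r := by
  have := monotoneOn_of_hasDerivWithinAt_nonneg (convex_Icc 0 r) (c2.sub c1)
    (f' := fun x => ψ' x - φ' x) (fun x hx => by
      rw [interior_Icc] at hx ⊢; exact ((d2 x hx).sub (d1 x hx)).hasDerivWithinAt)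
    (fun x hx => by rw [interior_Icc] at hx; linarith [h x hx]) ⟨le_rfl, h0⟩ ⟨h0, le_rfl⟩ h0
  simp only [Pi.sub_apply] at this
  linarith

lemma reA {F : ℂ → ℂ} (hF : ContinuousOn F (ball 0 1)) (h0 : 0 ≤ r) (h1 : r < 1) :
    (circleAverage F 0 r).re = circleAverage (fun z => (F z).re) 0 r :=
  (reCLM.circleAverage_comp_comm (ci hF h0 h1)).symm

lemma mean (hf : DifferentiableOn ℂ f (ball 0 1)) (h0 : 0 ≤ r) (h1 : r < 1) :
    circleAverage (fun z => (f z).re) 0 r = (f 0).re := by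
  rw [← reA hf.continuousOn h0 h1, DiffContOnCl.circleAverage]
  refine DifferentiableOn.diffContOnCl (hf.mono (closure_ball_subset_closedBall.trans
    (closedBall_subset_ball (by rwa [abs_of_nonneg h0]))))

lemma ub3 (hf : DifferentiableOn ℂ f (ball 0 1)) (e0 : f 0 = 1)
    (hp : ∀ z ∈ ball (0 : ℂ) 1, 0 ≤ (f z).re) {B : ℝ}
    (hB : ∀ z ∈ ball (0 : ℂ) 1, (1 - ‖z‖ ^ 2) * ‖deriv f z‖ ≤ B) (h0 : 0 ≤ r) (h1 : r < 1) :
    circleAverage (fun z => (f z).re ^ 3) 0 r ≤ 1 - 3 / 2 * B ^ 2 * Real.log (1 - r ^ 2) := by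
  have hg : DifferentiableOn ℂ (fun z => f z ^ 2) (ball 0 1) := hf.pow 2
  have hG : DifferentiableOn ℂ (fun z => z * deriv (fun z => f z ^ 2) z) (ball 0 1) := zd hg
  have cu : ContinuousOn (fun z => (f z).re) (ball 0 1) :=
    continuous_re.comp_continuousOn hf.continuousOn
  have s1 : ∀ r, 0 ≤ r → r < 1 →
      (circleAverage (fun z => z * deriv (fun z => f z ^ 2) z * conj (f z)) 0 r).re
        ≤ 2 * B ^ 2 * ((1 - r ^ 2)⁻¹ - 1) := by
    intro r h0 h1
    have p : ∀ x ∈ Icc 0 r, 0 < 1 - x ^ 2 := fun x hx => by nlinarith [hx.1, hx.2]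
    refine cmp (ψ := fun r => 2 * B ^ 2 * ((1 - r ^ 2)⁻¹ - 1))
      (ψ' := fun x => 2 * B ^ 2 * (2 * x / (1 - x ^ 2) ^ 2)) h0
      (cA (cm hG.continuousOn hf.continuousOn) h1)
      (continuousOn_const.mul (((continuousOn_const.sub (continuousOn_pow 2)).inv₀
        fun x hx => (p x hx).ne').sub continuousOn_const))
      (fun x hx => reCLM.hasFDerivAt.comp_hasDerivAt x (dA hG hf hx.1 (hx.2.trans h1)))
      (fun x hx => ?_) (fun x hx => ?_) (by simp)
    · have := ((((hasDerivAt_pow 2 x).const_sub 1).inv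
        (p x (Ioo_subset_Icc_self hx)).ne').sub_const 1).const_mul (2 * B ^ 2)
      refine this.congr_deriv ?_
      simp
    · have x1 := hx.2.trans h1
      have px := p x (Ioo_subset_Icc_self hx)
      have c := cm hG.continuousOn (zd hf).continuousOn
      rw [reCLM_apply, re_ofReal_mul, reA c hx.1.le x1]
      have : circleAverage (fun z => (z * deriv (fun z => f z ^ 2) z
          * conj (z * deriv f z)).re) 0 x ≤ circleAverage
            (fun z => (2 * x ^ 2 * (B / (1 - x ^ 2)) ^ 2) • (f z).re) 0 x := by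
        refine circleAverage_mono (ci (continuous_re.comp_continuousOn c) hx.1.le x1)
          (ci (continuousOn_const.mul cu) hx.1.le x1) fun z hz => ?_
        have hz1 : ‖z‖ = x := by simpa [abs_of_pos hx.1] using hz
        have hzb : z ∈ ball (0 : ℂ) 1 := by simpa [hz1] using x1
        have d : deriv (fun z => f z ^ 2) z = 2 * f z * deriv f z := by
          simpa using ((hf.differentiableAt (isOpen_ball.mem_nhds hzb)).hasDerivAt.fun_pow 2).deriv
        have e : z * (2 * f z * deriv f z) * conj (z * deriv f z)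
            = ((2 * ‖z * deriv f z‖ ^ 2 : ℝ) : ℂ) * f z := by
          push_cast; rw [← Complex.mul_conj']; ring
        rw [d, e, re_ofReal_mul, smul_eq_mul, norm_mul, hz1, mul_pow, ← mul_assoc]
        have b := hB z hzb
        rw [hz1, ← le_div_iff₀' px] at b
        have := hp z hzb
        gcongr
      rw [circleAverage_fun_smul, mean hf hx.1.le x1, e0] at this
      refine (mul_le_mul_of_nonneg_left this (by have := hx.1; positivity)).trans (le_of_eq ?_)
      have := hx.1.ne'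
      simp only [one_re, smul_eq_mul]; field_simp
  have s2 : (circleAverage (fun z => f z ^ 2 * conj (f z)) 0 r).re
      ≤ 1 - 2 * B ^ 2 * Real.log (1 - r ^ 2) := by
    have p : ∀ x ∈ Icc 0 r, 0 < 1 - x ^ 2 := fun x hx => by nlinarith [hx.1, hx.2]
    refine cmp (ψ := fun r => 1 - 2 * B ^ 2 * Real.log (1 - r ^ 2))
      (ψ' := fun x => 2 * B ^ 2 * (2 * x / (1 - x ^ 2))) h0
      (cA (cm hg.continuousOn hf.continuousOn) h1)
      (continuousOn_const.sub (continuousOn_const.mul ((continuousOn_const.sub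
        (continuousOn_pow 2)).log fun x hx => (p x hx).ne')))
      (fun x hx => reCLM.hasFDerivAt.comp_hasDerivAt x (dA hg hf hx.1 (hx.2.trans h1)))
      (fun x hx => ?_) (fun x hx => ?_) (by simp [e0])
    · have := ((((hasDerivAt_pow 2 x).const_sub 1).log
        (p x (Ioo_subset_Icc_self hx)).ne').const_mul (2 * B ^ 2)).const_sub 1
      refine this.congr_deriv ?_
      simp; ring
    · have x1 := hx.2.trans h1
      have px := p x (Ioo_subset_Icc_self hx)
      rw [reCLM_apply, re_ofReal_mul, ← sym hg hf hx.1.le x1]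
      refine (mul_le_mul_of_nonneg_left (s1 x hx.1.le x1)
        (by have := hx.1; positivity)).trans (le_of_eq ?_)
      have := hx.1.ne'
      field_simp; ring
  have c3 := cm hg.continuousOn hf.continuousOn
  have h3 : DifferentiableOn ℂ (fun z => f z ^ 3) (ball 0 1) := hf.pow 3
  have e : circleAverage (fun z => (f z).re ^ 3) 0 r = circleAverage
      (fun z => (1 / 4 : ℝ) * (f z ^ 3).re + (3 / 4 : ℝ) * (f z ^ 2 * conj (f z)).re) 0 r := by
    congr 1; ext z; simp [pow_succ]; ring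
  rw [e, lin (ci (cr h3.continuousOn) h0 h1) (ci (cr c3) h0 h1), mean h3 h0 h1, ← reA c3 h0 h1, e0]
  simp only [one_pow, one_re]
  linarith

lemma pars (P : Polynomial ℂ) {N : ℕ} (h : P.natDegree < N) :
    ∑ i ∈ Finset.range N, ‖P.coeff i‖ ^ 2 = circleAverage (fun z => ‖P.eval z‖ ^ 2) 0 1 := by
  rw [← P.sum_sq_norm_coeff_eq_circleAverage]
  refine (Finset.sum_subset (fun i hi => Finset.mem_range.2
    ((Polynomial.le_natDegree_of_mem_supp i hi).trans_lt h)) fun i _ hi => ?_).symm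
  simp [Polynomial.notMem_support_iff.1 hi]

lemma pars' (c : ℕ → ℂ) (N : ℕ) : circleAverage
    (fun z => ‖∑ i ∈ Finset.range N, c i * z ^ i‖ ^ 2) 0 1 = ∑ i ∈ Finset.range N, ‖c i‖ ^ 2 := by
  set P : Polynomial ℂ := ∑ i ∈ Finset.range N, Polynomial.monomial i (c i) with hP
  have h1 : ∀ z, P.eval z = ∑ i ∈ Finset.range N, c i * z ^ i := fun z => by
    simp [hP, Polynomial.eval_finsetSum]
  have h2 : ∀ i, P.coeff i = if i < N then c i else 0 := fun i => by
    simp [hP, Polynomial.coeff_monomial]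
  simp only [← h1]
  rw [← pars P (N := P.natDegree + 1 + N) (by omega), add_comm, Finset.sum_range_add]
  simp only [h2]
  rw [Finset.sum_eq_zero (s := Finset.range (P.natDegree + 1)) fun i _ => by simp, add_zero]
  exact Finset.sum_congr rfl fun i hi => by rw [if_pos (Finset.mem_range.1 hi)]

lemma coef (hf : DifferentiableOn ℂ f (ball 0 1)) (h0 : 0 < r) (h1 : r < 1) (n : ℕ) (c : ℂ) :
    circleAverage (fun z => f z * conj (c * z ^ n)) 0 r
      = iteratedDeriv n f 0 / n.factorial * (conj c * (r ^ 2) ^ n) := by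
  rw [← Epd.at0 hf h0 h1 n (fun _ => conj c * (r ^ 2) ^ n)]
  refine circleAverage_congr_sphere fun z hz => ?_
  have hz1 : ‖z‖ = r := by simpa [abs_of_pos h0] using hz
  have hz0 : z ≠ 0 := by rintro rfl; simp at hz1; linarith
  have : (r : ℂ) ^ 2 = z * conj z := by rw [Complex.mul_conj', hz1]
  simp only [this, map_mul, map_pow, mul_pow]
  field_simp

lemma bessel (hf : DifferentiableOn ℂ f (ball 0 1)) (h0 : 0 < r) (h1 : r < 1) (N : ℕ) :
    ∑ n ∈ Finset.range N, ‖iteratedDeriv n f 0 / n.factorial‖ ^ 2 * (r ^ 2) ^ n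
      ≤ circleAverage (fun z => ‖f z‖ ^ 2) 0 r := by
  set a : ℕ → ℂ := fun n => iteratedDeriv n f 0 / n.factorial with ha
  set p : ℂ → ℂ := fun z => ∑ i ∈ Finset.range N, a i * z ^ i with hp
  have cp : ContinuousOn p (ball 0 1) := by simp only [hp]; fun_prop
  have c1 : ContinuousOn (fun z => ‖f z‖ ^ 2) (ball 0 1) := hf.continuousOn.norm.pow 2
  have c2 : ContinuousOn (fun z => ‖p z‖ ^ 2) (ball 0 1) := cp.norm.pow 2
  have c3 := cm hf.continuousOn cp
  have e1 : circleAverage (fun z => ‖p z‖ ^ 2) 0 r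
      = ∑ n ∈ Finset.range N, ‖a n‖ ^ 2 * (r ^ 2) ^ n := by
    rw [circleAverage_eq_circleAverage_zero_one]
    have := pars' (fun i => a i * r ^ i) N
    simp only [hp, add_zero, mul_pow, ← mul_assoc, this]
    refine Finset.sum_congr rfl fun i _ => ?_
    rw [norm_mul, norm_pow, norm_real, Real.norm_of_nonneg h0.le]; ring
  have e2 : (circleAverage (fun z => f z * conj (p z)) 0 r).re
      = ∑ n ∈ Finset.range N, ‖a n‖ ^ 2 * (r ^ 2) ^ n := by
    simp only [hp, map_sum, Finset.mul_sum]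
    rw [circleAverage_fun_sum fun i _ => ci (cm hf.continuousOn (by fun_prop)) h0.le h1, re_sum]
    refine Finset.sum_congr rfl fun i _ => ?_
    rw [coef hf h0 h1, ← mul_assoc, Complex.mul_conj']
    norm_cast
  have := circleAverage_mono (f₁ := fun z => 2 * (f z * conj (p z)).re + (-1) * ‖p z‖ ^ 2)
    (ci ((continuousOn_const.mul (cr c3)).add (continuousOn_const.mul c2)) h0.le h1)
    (ci c1 h0.le h1) fun z _ => by
      have := Complex.normSq_nonneg (f z - p z)
      rw [Complex.normSq_sub, Complex.normSq_eq_norm_sq, Complex.normSq_eq_norm_sq] at this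
      linarith
  rw [lin (ci (cr c3) h0.le h1) (ci c2 h0.le h1), ← reA c3 h0.le h1, e1, e2] at this
  linarith

lemma ub2 (hf : DifferentiableOn ℂ f (ball 0 1)) (e0 : f 0 = 1)
    (hp : ∀ z ∈ ball (0 : ℂ) 1, 0 ≤ (f z).re) {B : ℝ}
    (hB : ∀ z ∈ ball (0 : ℂ) 1, (1 - ‖z‖ ^ 2) * ‖deriv f z‖ ≤ B) (h0 : 0 ≤ r) (h1 : r < 1)
    {l : ℝ} (hl : 0 < l) : circleAverage (fun z => ‖f z‖ ^ 2) 0 r
      ≤ l + (1 - 3 / 2 * B ^ 2 * Real.log (1 - r ^ 2)) / l := by
  have h2 : DifferentiableOn ℂ (fun z => l * f z - f z ^ 2) (ball 0 1) :=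
    (hf.const_mul _).sub (hf.pow 2)
  have c3 : ContinuousOn (fun z => (f z).re ^ 3) (ball 0 1) := (cr hf.continuousOn).pow 3
  have := circleAverage_mono
    (f₂ := fun z => 1 * (l * f z - f z ^ 2).re + l⁻¹ * (f z).re ^ 3)
    (ci (F := fun z => ‖f z‖ ^ 2) (hf.continuousOn.norm.pow 2) h0 h1)
    (ci ((continuousOn_const.mul (cr h2.continuousOn)).add (continuousOn_const.mul c3)) h0 h1)
    fun z hz => by
      have hzb : z ∈ ball (0 : ℂ) 1 := by
        have : ‖z‖ = r := by simpa [abs_of_nonneg h0] using hz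
        simpa [this] using h1
      have hu := hp z hzb
      rw [Complex.sq_norm, normSq_apply]
      simp only [pow_two, sub_re, mul_re, ofReal_re, ofReal_im]
      have : 0 ≤ l⁻¹ * ((f z).re * ((f z).re - l) ^ 2) := by positivity
      have e : l⁻¹ * ((f z).re * ((f z).re - l) ^ 2)
          = l⁻¹ * (f z).re ^ 3 - 2 * (f z).re ^ 2 + l * (f z).re := by field_simp; ring
      nlinarith
  rw [lin (ci (cr h2.continuousOn) h0 h1) (ci c3 h0 h1), mean h2 h0 h1, e0] at this
  have h3 := mul_le_mul_of_nonneg_left (ub3 hf e0 hp hB h0 h1) (inv_pos.2 hl).le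
  rw [div_eq_inv_mul]
  simp at this
  linarith

lemma upper (hf : DifferentiableOn ℂ f (ball 0 1)) (e0 : f 0 = 1)
    (hp : ∀ z ∈ ball (0 : ℂ) 1, 0 ≤ (f z).re) {B : ℝ}
    (hB : ∀ z ∈ ball (0 : ℂ) 1, (1 - ‖z‖ ^ 2) * ‖deriv f z‖ ≤ B) {N : ℕ} (hN : 3 ≤ N) :
    ∑ n ∈ Finset.range (N + 1), ‖iteratedDeriv n f 0 / n.factorial‖ ^ 2
      ≤ (4 + 6 * B ^ 2) * √(Real.log N) := by
  have n3 : (3 : ℝ) ≤ N := by exact_mod_cast hN
  have t0 : 0 < 1 - 1 / (2 * N : ℝ) := by rw [sub_pos, div_lt_one (by linarith)]; linarith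
  have t1 : 0 < 1 / (2 * N : ℝ) := by positivity
  have l1 : 1 ≤ Real.log N := by
    rw [Real.le_log_iff_exp_le (by linarith)]; linarith [Real.exp_one_lt_d9]
  have s1 : 1 ≤ √(Real.log N) := Real.one_le_sqrt.2 l1
  have r0 := Real.sqrt_pos.2 t0
  have r1 : √(1 - 1 / (2 * N : ℝ)) < 1 := by rw [Real.sqrt_lt' one_pos]; linarith
  have h1 := (bessel hf r0 r1 (N + 1)).trans (ub2 hf e0 hp hB r0.le r1 (l := √(Real.log N))
    (by linarith))
  rw [Real.sq_sqrt t0.le, sub_sub_cancel, one_div (2 * N : ℝ), Real.log_inv,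
    Real.log_mul (by norm_num) (by linarith)] at h1
  have h2 : ∑ n ∈ Finset.range (N + 1), ‖iteratedDeriv n f 0 / n.factorial‖ ^ 2 ≤
      2 * ∑ n ∈ Finset.range (N + 1), ‖iteratedDeriv n f 0 / n.factorial‖ ^ 2
        * (1 - (2 * N : ℝ)⁻¹) ^ n := by
    rw [Finset.mul_sum]
    refine Finset.sum_le_sum fun n hn => ?_
    have a1 : (n : ℝ) ≤ N := by exact_mod_cast Nat.lt_succ_iff.1 (Finset.mem_range.1 hn)
    have a2 := one_add_mul_le_pow (a := -(2 * N : ℝ)⁻¹) (by rw [one_div] at t0; linarith) n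
    have a3 : (n : ℝ) * (2 * N : ℝ)⁻¹ ≤ 1 / 2 := by
      rw [← div_eq_mul_inv, div_le_iff₀ (by linarith)]; linarith
    rw [← sub_eq_add_neg] at a2
    nlinarith [sq_nonneg ‖iteratedDeriv n f 0 / n.factorial‖]
  have l2 : Real.log 2 ≤ Real.log N := Real.log_le_log two_pos (by linarith)
  have h3 : (1 - 3 / 2 * B ^ 2 * -(Real.log 2 + Real.log N)) / √(Real.log N)
      ≤ (1 + 3 * B ^ 2) * √(Real.log N) := by
    rw [div_le_iff₀ (by linarith), mul_assoc (1 + _), Real.mul_self_sqrt (by linarith)]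
    nlinarith [sq_nonneg B]
  linarith

end Pool.Agent.Lib.Helper21.Bloch
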