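import Mathlib

/-! Circle means, the conjugate Cauchy potential and a maximum principle. -/

set_option autoImplicit false

namespace Pool.Agent.Lib.Helper21.Morera

open MeasureTheory Set Real Metric Filter Topology ComplexConjugate

lemma ci {E : Type} [NormedAddCommGroup E] {u : ℂ → E} (h : Continuous u) (r : ℝ) : CircleIntegrable u 0 r :=
  h.continuousOn.circleIntegrable'

lemma mv {u P Q : ℂ → ℂ} {r : ℝ} (r0 : 0 < r) (hP : ∀ e, ‖e‖ ≤ r → DifferentiableAt ℂ P e)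
    (hQ : ∀ e, ‖e‖ ≤ r → DifferentiableAt ℂ Q e) (h : ∀ e : ℂ, conj e * e = r ^ 2 → ‖e‖ = r → u e = P e + conj (Q e)) :
    circleAverage u 0 r = P 0 + conj (Q 0) := by
  have d : ∀ {P : ℂ → ℂ}, (∀ e, ‖e‖ ≤ r → DifferentiableAt ℂ P e) → DiffContOnCl ℂ P (ball 0 |r|) := fun h =>
    DifferentiableOn.diffContOnCl fun e he => (h e (by
      simpa [abs_of_pos r0, closure_ball _ r0.ne'] using he)).differentiableWithinAt
  have c : ∀ {P : ℂ → ℂ}, (∀ e, ‖e‖ ≤ r → DifferentiableAt ℂ P e) → ContinuousOn P (sphere 0 |r|) := fun h e he =>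
    (h e (by simpa [abs_of_pos r0] using (mem_sphere_zero_iff_norm.1 he).le)).continuousAt.continuousWithinAt
  rw [circleAverage_congr_sphere (f₂ := fun e => P e + (Complex.conjCLE.toContinuousLinearMap ∘ Q) e) fun e he => by
      have t : ‖e‖ = r := by simpa [abs_of_pos r0] using he
      exact h e (by rw [Complex.conj_mul', t]) t,
    circleAverage_fun_add (c hP).circleIntegrable' (Complex.conjCLE.toContinuousLinearMap.continuous.comp_continuousOn (c hQ)).circleIntegrable',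
    ContinuousLinearMap.circleAverage_comp_comm _ (c hQ).circleIntegrable', (d hP).circleAverage, (d hQ).circleAverage]
  rfl

lemma nrm {u : ℂ → ℂ} {v : ℂ → ℝ} (hv : Continuous v) {r : ℝ} (r0 : 0 < r) (h : ∀ e, ‖e‖ = r → ‖u e‖ ≤ v e) :
    ‖circleAverage u 0 r‖ ≤ circleAverage v 0 r := by
  rw [circleAverage, circleAverage, norm_smul, Real.norm_of_nonneg (by positivity), smul_eq_mul]
  exact mul_le_mul_of_nonneg_left (intervalIntegral.norm_integral_le_of_norm_le two_pi_pos.le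
    (.of_forall fun t _ => h _ (by simp [abs_of_pos r0])) (ci hv r)) (by positivity)

lemma maxp {u : ℂ → ℂ} (hu : Continuous u) {c : ℂ} {ρ m : ℝ}
    (h : ∀ z ∈ ball c ρ, Tendsto (fun r : ℝ => (circleAverage (fun e => u (z + e)) 0 r - u z) / r ^ 2) (𝓝[>] 0) (𝓝 0))
    (hm : ∀ z ∈ sphere c ρ, ‖u z‖ ≤ m) : ∀ z ∈ closedBall c ρ, ‖u z‖ ≤ m := fun z hz => by
  refine le_of_forall_pos_le_add fun η η0 => ?_
  obtain ⟨ε, ε0, hε⟩ : ∃ ε, 0 < ε ∧ ε * ρ ^ 2 ≤ η := ⟨η / (ρ ^ 2 + 1), by positivity, by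
    rw [div_mul_eq_mul_div, div_le_iff₀ (by positivity)]; nlinarith⟩
  obtain ⟨w, hw, mx⟩ := (isCompact_closedBall c ρ).exists_isMaxOn ⟨z, hz⟩
    (f := fun z => ‖u z‖ + ε * ‖z - c‖ ^ 2) (by fun_prop)
  have k : ‖u z‖ + ε * ‖z - c‖ ^ 2 ≤ ‖u w‖ + ε * ‖w - c‖ ^ 2 := mx hz
  rcases (mem_closedBall.1 hw).eq_or_lt with d | d
  · have := hm w d
    rw [← dist_eq_norm w, d] at k
    nlinarith [mul_nonneg ε0.le (sq_nonneg ‖z - c‖)]
  exfalso
  obtain ⟨r, ⟨h1, h2⟩, r0 : 0 < r⟩ := ((((h w d).norm.eventually (gt_mem_nhds (show ‖(0 : ℂ)‖ < ε by simpa))).and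
    (mem_nhdsWithin_of_mem_nhds (gt_mem_nhds (sub_pos.2 d)))).and self_mem_nhdsWithin).exists
  have e : circleAverage (fun e => ‖u w‖ + ε * ‖w - c‖ ^ 2 - ε * ‖w + e - c‖ ^ 2) 0 r = ‖u w‖ - ε * r ^ 2 := by
    apply Complex.ofReal_injective
    rw [← Complex.ofRealCLM_apply, ← Complex.ofRealCLM.circleAverage_comp_comm (ci (by fun_prop) r),
      mv r0 (P := fun e => ‖u w‖ - ε * r ^ 2 - ε * conj (w - c) * e) (Q := fun e => -ε * conj (w - c) * e)
        (by fun_prop) (by fun_prop) fun e he _ => by simp [← Complex.mul_conj', ← he]; ring]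
    simp
  have n := nrm (u := fun e => u (w + e)) (by fun_prop) r0 fun e he => le_sub_iff_add_le.2
    (show ‖u (w + e)‖ + ε * ‖w + e - c‖ ^ 2 ≤ ‖u w‖ + ε * ‖w - c‖ ^ 2 from
      mx (mem_closedBall.2 ((dist_triangle _ w _).trans (by simp [he]; linarith))))
  rw [e] at n
  rw [norm_div, div_lt_iff₀ (by simp; positivity), norm_sub_rev] at h1
  have := norm_sub_norm_le (u w) (circleAverage (fun e => u (w + e)) 0 r)
  simp at h1
  linarith

lemma approx {g : ℂ → ℂ} (hg : Continuous g) (c : ℂ) {ρ ε : ℝ} (ρ0 : 0 < ρ) (ε0 : 0 < ε) :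
    ∃ A B : ℂ → ℂ, Differentiable ℂ A ∧ Differentiable ℂ B ∧ ∀ z ∈ sphere c ρ, ‖g z - (A z + conj (B z))‖ ≤ ε := by
  have : Fact (0 < 2 * π) := ⟨two_pi_pos⟩
  have ρ1 : (ρ : ℂ) ≠ 0 := by simpa using ρ0.ne'
  obtain ⟨p, hp, d⟩ := Metric.mem_closure_iff.1 (show (⟨fun x => g (c + ρ * x.toCircle), hg.comp (by fun_prop)⟩ :
    C(AddCircle (2 * π), ℂ)) ∈ closure _ from span_fourier_closure_eq_top.ge Submodule.mem_top) ε ε0
  obtain ⟨A, B, hA, hB, e⟩ : ∃ A B : ℂ → ℂ, Differentiable ℂ A ∧ Differentiable ℂ B ∧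
      ∀ x : AddCircle (2 * π), p x = A (c + ρ * x.toCircle) + conj (B (c + ρ * x.toCircle)) := by
    clear d
    induction hp using Submodule.span_induction with
    | mem p hp =>
      obtain ⟨n, rfl⟩ := hp
      obtain ⟨n, rfl | rfl⟩ := n.eq_nat_or_neg
      · exact ⟨fun z => ((z - c) / ρ) ^ n, 0, by fun_prop, by fun_prop, fun x => by
          simp [fourier_apply, AddCircle.toCircle_nsmul, ρ1]⟩
      · exact ⟨0, fun z => ((z - c) / ρ) ^ n, by fun_prop, by fun_prop, fun x => by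
          rw [fourier_neg]; simp [fourier_apply, AddCircle.toCircle_nsmul, ρ1]⟩
    | zero => exact ⟨0, 0, by fun_prop, by fun_prop, by simp⟩
    | add p q _ _ a b =>
      obtain ⟨A, B, hA, hB, e⟩ := a
      obtain ⟨A', B', hA', hB', e'⟩ := b
      exact ⟨A + A', B + B', hA.add hA', hB.add hB', fun x => by simp [e, e']; ring⟩
    | smul a p _ b =>
      obtain ⟨A, B, hA, hB, e⟩ := b
      exact ⟨fun z => a * A z, fun z => conj a * B z, by fun_prop, by fun_prop, fun x => by simp [e]; ring⟩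
  refine ⟨A, B, hA, hB, fun z hz => ?_⟩
  obtain ⟨x, rfl⟩ : ∃ x : AddCircle (2 * π), z = c + ρ * x.toCircle := ⟨(z - c).arg, by
    have := Complex.norm_mul_exp_arg_mul_I (z - c)
    rw [mem_sphere_iff_norm.1 hz] at this
    simp [AddCircle.toCircle_apply_mk, this]⟩
  rw [← e, ← dist_eq_norm]
  exact (ContinuousMap.dist_apply_le_dist x).trans d.le

end Pool.Agent.Lib.Helper21.Morera
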