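import Pool.Agent.Lib.helper21.Bloch1
import Pool.Agent.Lib.helper21.Morera

namespace Pool.Agent.Lib.Helper21.Bloch
open Complex Filter Topology Set Metric Real ComplexConjugate Polynomial

lemma cI {E : Type} [NormedAddCommGroup E] {u : ℂ → E} (h : Continuous u) (r : ℝ) :
    CircleIntegrable u 0 r := h.continuousOn.circleIntegrable'

lemma sp1 {ζ : ℂ} (h : ζ ∈ sphere (0 : ℂ) |1|) : ‖ζ‖ = 1 := by simpa using h

noncomputable def G (n : ℕ) (y : ℂ) : ℂ := ∑ a ∈ Finset.range n, y ^ a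

noncomputable def K (n : ℕ) (z ζ : ℂ) : ℝ := ‖G n (z * conj ζ)‖ ^ 4 / n ^ 3

lemma cK (n : ℕ) (z : ℂ) : Continuous (K n z) := by unfold K G; fun_prop

lemma K0 (n : ℕ) (z ζ : ℂ) : 0 ≤ K n z ζ := by unfold K; positivity

lemma p3 {n a : ℕ} (hn : 1 ≤ n) (ha : a ≤ n) {x : ℝ} (h0 : 0 ≤ x) (hx : x ≤ 1 + 1 / n) :
    x ^ a ≤ 3 := by
  have n0 : (0 : ℝ) < n := by exact_mod_cast hn
  calc x ^ a ≤ (1 + 1 / n) ^ a := by gcongr
    _ ≤ (1 + 1 / n) ^ n := pow_le_pow_right₀ (by have := one_div_pos.2 n0; linarith) ha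
    _ ≤ (Real.exp (1 / n)) ^ n := by gcongr; linarith [Real.add_one_le_exp (1 / n : ℝ)]
    _ = Real.exp 1 := by rw [← Real.exp_nat_mul]; congr 1; field_simp
    _ ≤ 3 := by linarith [Real.exp_one_lt_d9]

lemma Gn (n : ℕ) (z ζ : ℂ) :
    ‖G n (z * conj ζ)‖ = ‖∑ a ∈ Finset.range n, conj z ^ a * ζ ^ a‖ := by
  rw [← Complex.norm_conj]; simp [G, mul_pow]

lemma mom {n : ℕ} (hn : 1 ≤ n) {z : ℂ} (hz : ‖z‖ ≤ 1 + 1 / n) :
    circleAverage (fun ζ => K n z ζ * (1 + n ^ 2 * ‖z - ζ‖ ^ 2)) 0 1 ≤ 225 := by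
  have n0 : (0 : ℝ) < n := by exact_mod_cast hn
  have := cK n z
  have h1 : circleAverage (fun ζ => K n z ζ * (1 + n ^ 2 * ‖z - ζ‖ ^ 2)) 0 1 ≤ circleAverage
      (fun ζ => (25 / n : ℝ) • ‖∑ a ∈ Finset.range n, conj z ^ a * ζ ^ a‖ ^ 2) 0 1 := by
    refine circleAverage_mono (cI (by fun_prop) _) (cI (by fun_prop) _) fun ζ hζ => ?_
    have hζ := sp1 hζ
    have hy : ‖z * conj ζ‖ = ‖z‖ := by simp [hζ]
    have a1 : ‖G n (z * conj ζ)‖ ≤ 3 * n := by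
      refine (norm_sum_le_of_le _ (n := fun _ => 3) fun a ha => ?_).trans (by simp [mul_comm])
      rw [norm_pow, hy]; exact p3 hn (Finset.mem_range.1 ha).le (norm_nonneg _) hz
    have a2 : ‖G n (z * conj ζ)‖ * ‖z - ζ‖ ≤ 4 := by
      have e : z - ζ = (z * conj ζ - 1) * ζ := by
        rw [sub_mul, mul_assoc, Complex.conj_mul', hζ]; simp
      rw [e, norm_mul, hζ, mul_one, ← norm_mul, G, geom_sum_mul]
      refine (norm_sub_le _ _).trans ?_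
      rw [norm_pow, hy, norm_one]
      linarith [p3 hn le_rfl (norm_nonneg _) hz]
    rw [← Gn, K, smul_eq_mul]
    have a3 : ‖G n (z * conj ζ)‖ ^ 2 ≤ (3 * n) ^ 2 := by gcongr
    have a4 : (‖G n (z * conj ζ)‖ * ‖z - ζ‖) ^ 2 ≤ 4 ^ 2 := by gcongr
    calc _ = ‖G n (z * conj ζ)‖ ^ 2 * (‖G n (z * conj ζ)‖ ^ 2
          + n ^ 2 * (‖G n (z * conj ζ)‖ * ‖z - ζ‖) ^ 2) / n ^ 3 := by ring
      _ ≤ ‖G n (z * conj ζ)‖ ^ 2 * ((3 * n) ^ 2 + n ^ 2 * 4 ^ 2) / n ^ 3 := by gcongr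
      _ = _ := by field_simp; ring
  rw [circleAverage_fun_smul, pars', smul_eq_mul] at h1
  refine h1.trans ?_
  have h2 : ∑ a ∈ Finset.range n, ‖conj z ^ a‖ ^ 2 ≤ ∑ a ∈ Finset.range n, (3 : ℝ) ^ 2 :=
    Finset.sum_le_sum fun a ha => by
      rw [norm_pow, Complex.norm_conj]
      have := p3 hn (Finset.mem_range.1 ha).le (norm_nonneg _) hz
      gcongr
  simp only [Finset.sum_const, Finset.card_range, nsmul_eq_mul] at h2
  rw [div_mul_eq_mul_div, div_le_iff₀ n0]; linarith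

lemma Klow {n : ℕ} (hn : 1 ≤ n) {z : ℂ} (hz : ‖z‖ = 1) : 1 / 2 ≤ circleAverage (K n z) 0 1 := by
  have n0 : (0 : ℝ) < n := by exact_mod_cast hn
  set P : ℂ[X] := (∑ a ∈ Finset.range n, C (conj z ^ a) * X ^ a) ^ 2 with hP
  have d : P.natDegree < 2 * n := by
    refine natDegree_pow_le.trans_lt ?_
    have : (∑ a ∈ Finset.range n, C (conj z ^ a) * X ^ a : ℂ[X]).natDegree ≤ n - 1 :=
      natDegree_sum_le_of_forall_le _ _ fun a ha => (natDegree_C_mul_X_pow_le _ _).trans (by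
        have := Finset.mem_range.1 ha; omega)
    omega
  have e : ∀ ζ, P.eval ζ = (∑ a ∈ Finset.range n, conj z ^ a * ζ ^ a) ^ 2 := fun ζ => by
    simp [hP, eval_finsetSum]
  have h1 : K n z = fun ζ => ((n : ℝ) ^ 3)⁻¹ • ‖P.eval ζ‖ ^ 2 := by
    ext ζ; rw [K, Gn, e, norm_pow, smul_eq_mul]; ring
  have h2 : (n : ℝ) ^ 2 ≤ ∑ i ∈ Finset.range (2 * n), ‖P.coeff i‖ := by
    have h3 : ‖P.eval z‖ = n ^ 2 := by
      simp [e, ← mul_pow, Complex.conj_mul', hz]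
    rw [← h3, eval_eq_sum_range' d]
    exact norm_sum_le_of_le _ fun i _ => by simp [hz]
  have h3 := sq_sum_le_card_mul_sum_sq (s := Finset.range (2 * n)) (f := fun i => ‖P.coeff i‖)
  rw [h1, circleAverage_fun_smul, ← pars P d, smul_eq_mul, le_inv_mul_iff₀ (by positivity)]
  have h4 : ((n : ℝ) ^ 2) ^ 2 ≤ (∑ i ∈ Finset.range (2 * n), ‖P.coeff i‖) ^ 2 := by gcongr
  simp only [Finset.card_range, Nat.cast_mul, Nat.cast_ofNat] at h3
  apply le_of_mul_le_mul_left _ n0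
  linarith

lemma harn {p : ℂ → ℂ} (hp : Differentiable ℂ p) {R a : ℝ} (h : ∀ ξ, ‖ξ‖ = R → 0 ≤ (p ξ).re)
    {w z : ℂ} (hw : ‖w‖ < R) (hz : ‖z‖ < R) (hk : ∀ ξ, ‖ξ‖ = R →
      a * ((R ^ 2 - ‖w‖ ^ 2) / ‖ξ - w‖ ^ 2) ≤ (R ^ 2 - ‖z‖ ^ 2) / ‖ξ - z‖ ^ 2) :
    a * (p w).re ≤ (p z).re := by
  have R0 := (norm_nonneg _).trans_lt hw
  have c := hp.continuous
  have sp : ∀ ξ ∈ sphere (0 : ℂ) |R|, ‖ξ‖ = R := fun ξ h => by simpa [abs_of_pos R0] using h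
  have i : ∀ z : ℂ, ‖z‖ < R → ContinuousOn (fun ξ : ℂ => (‖ξ - 0‖ ^ 2 - ‖z - 0‖ ^ 2)
      / ‖(ξ - 0) - (z - 0)‖ ^ 2) (sphere 0 |R|) := fun z hz =>
    ContinuousOn.div (by fun_prop) (by fun_prop) fun ξ hξ => pow_ne_zero _ (norm_ne_zero_iff.2 (by
      simp only [sub_zero, sub_ne_zero]; rintro rfl; linarith [sp _ hξ]))
  have k : ∀ z : ℂ, ‖z‖ < R → (p z).re = circleAverage (fun ξ : ℂ => (‖ξ - 0‖ ^ 2 - ‖z - 0‖ ^ 2)
      / ‖(ξ - 0) - (z - 0)‖ ^ 2 * (p ξ).re) 0 R := fun z hz => by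
    rw [← hp.diffContOnCl.circleAverage_poissonKernel_smul' (mem_ball_zero_iff.2 hz),
      ← reCLM_apply, ← reCLM.circleAverage_comp_comm
        (ContinuousOn.circleIntegrable' ((i z hz).fun_smul c.continuousOn))]
    congr 1; ext ξ; simp only [Function.comp_apply, reCLM_apply, smul_re, smul_eq_mul]
  rw [k w hw, k z hz, ← smul_eq_mul, ← circleAverage_fun_smul]
  have cu : ContinuousOn (fun ξ => (p ξ).re) (sphere 0 |R|) := by fun_prop
  refine circleAverage_mono (continuousOn_const.mul ((i w hw).mul cu)).circleIntegrable'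
    ((i z hz).mul cu).circleIntegrable' fun ξ hξ => ?_
  simp only [sub_zero, sp ξ hξ, smul_eq_mul, ← mul_assoc]
  exact mul_le_mul_of_nonneg_right (hk ξ (sp ξ hξ)) (h ξ (sp ξ hξ))

lemma harn0 {p : ℂ → ℂ} (hp : Differentiable ℂ p) {R : ℝ} (h : ∀ ξ, ‖ξ‖ = R → 0 ≤ (p ξ).re)
    {z : ℂ} (hz : ‖z‖ < R) : (R - ‖z‖) / (R + ‖z‖) * (p 0).re ≤ (p z).re := by
  have R0 := (norm_nonneg _).trans_lt hz
  have z0 := norm_nonneg z
  refine harn hp h (by simpa) hz fun ξ hξ => ?_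
  have h1 : ‖ξ - z‖ ≤ R + ‖z‖ := hξ ▸ norm_sub_le _ _
  have h2 : 0 < ‖ξ - z‖ := by linarith [norm_sub_norm_le ξ z]
  calc _ = (R ^ 2 - ‖z‖ ^ 2) / (R + ‖z‖) ^ 2 := by simp only [sub_zero, norm_zero, hξ]; field_simp; ring
    _ ≤ _ := by gcongr; nlinarith

lemma harn2 {n : ℕ} (hn : 1 ≤ n) {p : ℂ → ℂ} (hp : Differentiable ℂ p)
    (h : ∀ ξ, ‖ξ‖ = 1 + 1 / n → 0 ≤ (p ξ).re) {w z : ℂ} (w1 : 1 ≤ ‖w‖) (w2 : ‖w‖ ≤ 1 + 1 / (8 * n))
    (z1 : 1 ≤ ‖z‖) (z2 : ‖z‖ ≤ 1 + 1 / (8 * n)) :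
    (6 * (1 + n ^ 2 * ‖z - w‖ ^ 2))⁻¹ * (p w).re ≤ (p z).re := by
  have n1 : (1 : ℝ) ≤ n := by exact_mod_cast hn
  obtain ⟨t, ht⟩ : ∃ t : ℝ, t = 1 / (8 * n) := ⟨_, rfl⟩
  have t0 : 0 < t := by rw [ht]; positivity
  have t1 : n * t = 1 / 8 := by rw [ht]; field_simp
  have t2 : 1 / (n : ℝ) = 8 * t := by rw [ht]; field_simp
  have t3 : t ≤ 1 / 8 := by nlinarith
  rw [← ht] at w2 z2
  rw [t2] at h
  refine harn hp h (by linarith) (by linarith) fun ξ hξ => ?_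
  have a1 : 7 * t ≤ ‖ξ - w‖ := by linarith [norm_sub_norm_le ξ w]
  have a2 : 7 * t ≤ ‖ξ - z‖ := by linarith [norm_sub_norm_le ξ z]
  have a3 : ‖ξ - z‖ ≤ ‖ξ - w‖ + ‖z - w‖ := by
    have := norm_sub_le (ξ - w) (z - w); rwa [sub_sub_sub_cancel_right] at this
  have d0 := norm_nonneg (z - w)
  have a4 : ‖z - w‖ ≤ 8 / 7 * (n * ‖z - w‖) * ‖ξ - w‖ := by
    calc _ = 8 / 7 * (n * ‖z - w‖) * (7 * t) := by linear_combination (-8 * ‖z - w‖) * t1
      _ ≤ _ := by gcongr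
  have a5 : ‖ξ - z‖ ^ 2 ≤ 3 * (1 + n ^ 2 * ‖z - w‖ ^ 2) * ‖ξ - w‖ ^ 2 := by
    calc _ ≤ ((1 + 8 / 7 * (n * ‖z - w‖)) * ‖ξ - w‖) ^ 2 := by gcongr; linarith
      _ = (1 + 8 / 7 * (n * ‖z - w‖)) ^ 2 * ‖ξ - w‖ ^ 2 := by ring
      _ ≤ _ := by gcongr; nlinarith [sq_nonneg (1 - 8 / 7 * (n * ‖z - w‖)), sq_nonneg (n * ‖z - w‖)]
  have a6 : (1 + 8 * t) ^ 2 - ‖w‖ ^ 2 ≤ 2 * ((1 + 8 * t) ^ 2 - ‖z‖ ^ 2) := by nlinarith
  have a7 : 0 ≤ (1 + 8 * t) ^ 2 - ‖z‖ ^ 2 := by nlinarith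
  have b1 : 0 < ‖ξ - w‖ := by linarith
  have b2 : 0 < ‖ξ - z‖ := by linarith
  calc _ ≤ (6 * (1 + n ^ 2 * ‖z - w‖ ^ 2))⁻¹ * (2 * ((1 + 8 * t) ^ 2 - ‖z‖ ^ 2) / ‖ξ - w‖ ^ 2) := by
        gcongr
    _ = ((1 + 8 * t) ^ 2 - ‖z‖ ^ 2) / (3 * (1 + n ^ 2 * ‖z - w‖ ^ 2) * ‖ξ - w‖ ^ 2) := by
        field_simp; ring
    _ ≤ _ := by gcongr

lemma cv {ψ : ℂ → ℂ} (hψ : Continuous ψ) (Q : ℂ[X]) : ∃ v : ℂ[X], v.natDegree ≤ Q.natDegree ∧
    ∀ z, v.eval z = circleAverage (fun ζ => ψ ζ * Q.eval (z * conj ζ)) 0 1 := by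
  refine ⟨∑ j ∈ Finset.range (Q.natDegree + 1),
    C (circleAverage (fun ζ => ψ ζ * (Q.coeff j * conj ζ ^ j)) 0 1) * X ^ j,
    natDegree_sum_le_of_forall_le _ _ fun a ha => (natDegree_C_mul_X_pow_le _ _).trans (by
        have := Finset.mem_range.1 ha; omega), fun z => ?_⟩
  simp only [eval_finsetSum, eval_mul, eval_C, eval_pow, eval_X, eval_eq_sum_range (p := Q),
    Finset.mul_sum]
  rw [circleAverage_fun_sum fun j _ => cI (by fun_prop) _]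
  refine Finset.sum_congr rfl fun j _ => ?_
  rw [mul_comm, ← smul_eq_mul, ← circleAverage_fun_smul]
  congr 1; ext ζ; simp only [smul_eq_mul]; ring

lemma G4 (n : ℕ) {y : ℂ} (hy : ‖y‖ = 1) :
    G n y ^ 4 = y ^ (2 * (n - 1)) * ((‖G n y‖ ^ 4 : ℝ) : ℂ) := by
  have h1 : G n y = y ^ (n - 1) * conj (G n y) := by
    conv_lhs => rw [G, ← Finset.sum_range_reflect]
    simp only [G, map_sum, Finset.mul_sum, map_pow]
    refine Finset.sum_congr rfl fun a ha => ?_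
    have := Finset.mem_range.1 ha
    conv_rhs => rw [show n - 1 = n - 1 - a + a by omega, pow_add, mul_assoc, ← mul_pow,
      Complex.mul_conj', hy]
    simp
  have h2 := Complex.mul_conj' (G n y)
  calc G n y ^ 4 = (G n y * (y ^ (n - 1) * conj (G n y))) ^ 2 := by rw [← h1]; ring
    _ = y ^ (2 * (n - 1)) * (G n y * conj (G n y)) ^ 2 := by ring
    _ = _ := by rw [h2]; push_cast; ring

lemma step {n : ℕ} (hn : 1 ≤ n) (p : ℂ[X]) (h : ∀ ξ, ‖ξ‖ = 1 + 1 / n → 0 ≤ (p.eval ξ).re) :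
    ∃ v : ℂ[X], v.natDegree < 7 * n ∧ (∀ z, ‖z‖ ≤ 1 + 1 / n → ‖v.eval z‖ ≤ 225) ∧
      (∀ z, ‖z‖ = 1 + 1 / (8 * n) → ‖v.eval z‖ ≤ 1350 * (p.eval z).re) ∧
      ∀ z, ‖z‖ = 1 → min (p.eval z).re 1 / 5400 ≤ ‖v.eval z‖ := by
  have n0 : (0 : ℝ) < n := by exact_mod_cast hn
  have hp := p.differentiable
  have t0 : (0 : ℝ) < 1 / (8 * n) := by positivity
  have t1 : (1 : ℝ) / (8 * n) < 1 / n := by gcongr; linarith
  have u0 : ∀ z : ℂ, ‖z‖ ≤ 1 + 1 / (8 * n) → 0 ≤ (p.eval z).re := fun z hz => by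
    have := harn (a := 0) hp h (w := z) (z := z) (by linarith) (by linarith) fun ξ _ => by
      rw [zero_mul]; apply div_nonneg _ (by positivity)
      have : ‖z‖ ^ 2 ≤ (1 + 1 / n) ^ 2 := by gcongr; linarith
      linarith
    simpa using this
  set φ : ℂ → ℝ := fun ζ => min (p.eval ζ).re 1 with hφ
  have cφ : Continuous φ := by have := p.continuous; simp only [hφ]; fun_prop
  have φ0 : ∀ ζ : ℂ, ‖ζ‖ = 1 → 0 ≤ φ ζ := fun ζ h => le_min (u0 ζ (by linarith)) zero_le_one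
  have c := cK n
  obtain ⟨v, hv, ev⟩ := cv (ψ := fun ζ => φ ζ * ζ ^ (2 * (n - 1)) / n ^ 3) (by fun_prop)
    ((∑ a ∈ Finset.range n, X ^ a) ^ 4)
  have ev' : ∀ z, v.eval z = circleAverage
      (fun ζ => φ ζ * ζ ^ (2 * (n - 1)) / n ^ 3 * G n (z * conj ζ) ^ 4) 0 1 := fun z => by
    simp [ev, G, eval_finsetSum]
  have nb : ∀ z, ‖v.eval z‖ ≤ circleAverage (fun ζ => φ ζ * K n z ζ) 0 1 := fun z => by
    rw [ev']
    refine Morera.nrm (v := fun ζ => φ ζ * K n z ζ) (cφ.mul (c z)) one_pos fun ζ hζ => le_of_eq ?_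
    simp only [norm_mul, norm_div, norm_pow, hζ, norm_real, Real.norm_of_nonneg (φ0 ζ hζ), K,
      Complex.norm_natCast]
    ring
  refine ⟨v, hv.trans_lt (natDegree_pow_le.trans_lt ?_), fun z hz => (nb z).trans ?_,
    fun z hz => (nb z).trans ?_, fun z hz => ?_⟩
  · have : (∑ a ∈ Finset.range n, X ^ a : ℂ[X]).natDegree ≤ n :=
      natDegree_sum_le_of_forall_le _ _ fun a ha => (natDegree_X_pow_le _).trans
        (Finset.mem_range.1 ha).le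
    omega
  · have := c z
    refine (circleAverage_mono (cI (by fun_prop) _) (cI (by fun_prop) _) fun ζ hζ => ?_).trans
      (mom hn hz)
    rw [mul_comm]
    refine mul_le_mul_of_nonneg_left ((min_le_right _ _).trans ?_) (K0 ..)
    have : 0 ≤ (n : ℝ) ^ 2 * ‖z - ζ‖ ^ 2 := by positivity
    linarith
  · have := c z
    have h1 := circleAverage_mono (c := 0) (R := 1) (f₁ := fun ζ => φ ζ * K n z ζ)
      (f₂ := fun ζ => (6 * (p.eval z).re) • (K n z ζ * (1 + n ^ 2 * ‖z - ζ‖ ^ 2)))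
      (cI (by fun_prop) _) (cI (by fun_prop) _) fun ζ hζ => by
        have h2 := harn2 hn hp h (w := ζ) (z := z) (sp1 hζ).ge (by linarith [sp1 hζ])
          (by linarith) hz.le
        rw [inv_mul_le_iff₀ (by positivity)] at h2
        have h3 := mul_le_mul_of_nonneg_right ((min_le_left _ 1).trans h2) (K0 n z ζ)
        simp only [smul_eq_mul, hφ]; linarith
    rw [circleAverage_fun_smul, smul_eq_mul] at h1
    have := mul_le_mul_of_nonneg_left (mom hn (z := z) (by linarith)) (u0 z hz.le)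
    linarith
  · have := c z
    have e : v.eval z = z ^ (2 * (n - 1)) * ofRealCLM
        (circleAverage (fun ζ => φ ζ * K n z ζ) 0 1) := by
      rw [ev', ← ofRealCLM.circleAverage_comp_comm (cI (by fun_prop) _), ← smul_eq_mul (z ^ _),
        ← circleAverage_smul]
      refine circleAverage_congr_sphere fun ζ hζ => ?_
      have h2 : ζ ^ (2 * (n - 1)) * conj ζ ^ (2 * (n - 1)) = 1 := by
        rw [← mul_pow, Complex.mul_conj', sp1 hζ]; simp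
      simp only [G4 n (y := z * conj ζ) (by simp [hz, sp1 hζ]), K, mul_pow, Pi.smul_apply,
        Function.comp_apply, ofRealCLM_apply, smul_eq_mul]
      push_cast
      linear_combination (φ ζ * z ^ (2 * (n - 1)) * (‖G n (z * conj ζ)‖ : ℂ) ^ 4 / n ^ 3) * h2
    rw [e, norm_mul, norm_pow, hz, one_pow, one_mul, ofRealCLM_apply, norm_real]
    refine le_trans ?_ (le_abs_self _)
    have m0 := φ0 z hz
    have h1 := circleAverage_mono (c := 0) (R := 1) (f₂ := fun ζ => φ ζ * K n z ζ)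
      (f₁ := fun ζ => (φ z / 6 * (2 / 450)) * K n z ζ
        + (-(φ z / 6 / 450 ^ 2)) * (K n z ζ * (1 + n ^ 2 * ‖z - ζ‖ ^ 2)))
      (cI (by fun_prop) _) (cI (by fun_prop) _) fun ζ hζ => by
        have h2 := harn2 hn hp h (w := z) (z := ζ) hz.ge (by linarith) (sp1 hζ).ge
          (by linarith [sp1 hζ])
        rw [norm_sub_rev] at h2
        obtain ⟨x, hx⟩ : ∃ x : ℝ, x = 1 + n ^ 2 * ‖z - ζ‖ ^ 2 := ⟨_, rfl⟩
        have x1 : 1 ≤ x := by rw [hx]; have : 0 ≤ (n : ℝ) ^ 2 * ‖z - ζ‖ ^ 2 := by positivity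
                              linarith
        rw [← hx] at h2 ⊢
        have i0 : 0 < (6 * x)⁻¹ := by positivity
        have h3 : (6 * x)⁻¹ * φ z ≤ φ ζ := le_min
          ((mul_le_mul_of_nonneg_left (min_le_left _ _) i0.le).trans h2)
          (mul_le_one₀ (inv_le_one_of_one_le₀ (by linarith)) m0 (min_le_right _ _))
        have h4 : (2 / 450 - x / 450 ^ 2) / 6 ≤ (6 * x)⁻¹ := by
          rw [← one_div, le_div_iff₀ (by positivity)]; nlinarith [sq_nonneg (x - 450)]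
        have h5 := mul_le_mul_of_nonneg_right ((mul_le_mul_of_nonneg_right h4 m0).trans h3)
          (K0 n z ζ)
        linarith
    rw [lin (cI this _) (cI (by fun_prop) _)] at h1
    have h2 := mul_le_mul_of_nonneg_left (mom hn (z := z) (by linarith)) m0
    have h3 := mul_le_mul_of_nonneg_left (Klow hn hz) m0
    change φ z / 5400 ≤ _
    linarith

lemma lac {σ : ℝ} (h0 : 0 ≤ σ) (h1 : σ < 1) (k : ℕ) :
    (1 - σ) * ∑ j ∈ Finset.range k, (8 : ℝ) ^ j * σ ^ (8 ^ j - 1) ≤ 2 := by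
  have key : ∀ k, ∑ j ∈ Finset.range (k + 1), (8 : ℝ) ^ j * σ ^ (8 ^ j - 1)
      ≤ 2 * ∑ m ∈ Finset.range (8 ^ k), σ ^ m := by
    intro k
    induction k with
    | zero => simp
    | succ k ih =>
      rw [Finset.sum_range_succ, show 8 ^ (k + 1) = 8 ^ k + 7 * 8 ^ k by ring,
        Finset.sum_range_add _ (8 ^ k)]
      have := Finset.card_nsmul_le_sum (Finset.range (7 * 8 ^ k)) (fun x => σ ^ (8 ^ k + x))
        (σ ^ (8 ^ k + 7 * 8 ^ k - 1)) fun x hx => pow_le_pow_of_le_one h0 h1.le (by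
          have := Finset.mem_range.1 hx; omega)
      simp only [Finset.card_range, nsmul_eq_mul] at this
      push_cast at this
      have : 0 ≤ (8 : ℝ) ^ k * σ ^ (8 ^ k + 7 * 8 ^ k - 1) := by positivity
      rw [pow_succ]; linarith
  cases k with
  | zero => simp
  | succ k =>
    have h2 := mul_neg_geom_sum σ (8 ^ k)
    have h3 := mul_le_mul_of_nonneg_left (key k) (sub_pos.2 h1).le
    have : 0 ≤ σ ^ 8 ^ k := by positivity
    linarith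

lemma dt {n : ℕ} (hn : 1 ≤ n) {v : ℂ[X]} (hv : ∀ z, ‖z‖ ≤ 1 + 1 / n → ‖v.eval z‖ ≤ 225) {z : ℂ}
    (hz : ‖z‖ ≤ 1 + 1 / (2 * n)) : ‖(derivative (X ^ n * v)).eval z‖ ≤ 900 * (n * ‖z‖ ^ (n - 1)) := by
  have n1 : (1 : ℝ) ≤ n := by exact_mod_cast hn
  have e : (1 : ℝ) / n = 1 / (2 * n) + 1 / (2 * n) := by field_simp; ring
  have t0 : (0 : ℝ) < 1 / (2 * n) := by positivity
  have t1 : (1 : ℝ) / (2 * n) ≤ 1 / 2 := by gcongr; linarith
  have h1 := norm_deriv_le_of_forall_mem_sphere_norm_le (c := z) t0 v.differentiable.diffContOnCl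
    fun w hw => hv w (by
      have := norm_sub_norm_le w z
      rw [mem_sphere_iff_norm.1 hw] at this; linarith)
  rw [Polynomial.deriv, div_div_eq_mul_div, div_one] at h1
  have h2 := hv z (by linarith)
  rw [derivative_mul, derivative_X_pow]
  simp only [eval_add, eval_mul, eval_C, eval_pow, eval_X]
  refine (norm_add_le _ _).trans ?_
  simp only [norm_mul, norm_pow, Complex.norm_natCast]
  have h3 : ‖z‖ ^ n ≤ ‖z‖ ^ (n - 1) * (3 / 2) := by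
    conv_lhs => rw [show n = n - 1 + 1 by omega, pow_succ]
    gcongr; linarith
  calc _ ≤ n * ‖z‖ ^ (n - 1) * 225 + ‖z‖ ^ (n - 1) * (3 / 2) * (225 * (2 * n)) := by gcongr
    _ = _ := by ring

lemma itd (p : ℂ[X]) (m : ℕ) :
    iteratedDeriv m (fun z => p.eval z) 0 / m.factorial = p.coeff m := by
  have : iteratedDeriv m (fun z => p.eval z) = fun z => (derivative^[m] p).eval z := by
    induction m with
    | zero => simp
    | succ m ih => rw [iteratedDeriv_succ, ih, Function.iterate_succ_apply']; ext z; simp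
  have f : (m.factorial : ℂ) ≠ 0 := by exact_mod_cast m.factorial_ne_zero
  rw [this, div_eq_iff f]
  simp [← coeff_zero_eq_eval_zero, coeff_iterate_derivative, Nat.descFactorial_self, mul_comm]

end Pool.Agent.Lib.Helper21.Bloch
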