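import Pool.Agent.Lib.helper21.Bloch2

namespace Pool.Agent.Lib.Helper21.Bloch
open Complex Filter Topology Set Metric Real ComplexConjugate Polynomial

structure Sq (P V : ℕ → ℂ[X]) : Prop where
  zero : P 0 = 1
  succ : ∀ k, P (k + 1) = P k + C (1 / 21600) * (X ^ 8 ^ k * V k)
  pos : ∀ k ξ, ‖ξ‖ = 1 + 1 / (8 ^ k : ℕ) → 0 ≤ ((P k).eval ξ).re
  deg : ∀ k, (V k).natDegree < 7 * 8 ^ k
  bd : ∀ k z, ‖z‖ ≤ 1 + 1 / (8 ^ k : ℕ) → ‖(V k).eval z‖ ≤ 225
  lo : ∀ k z, ‖z‖ = 1 → min ((P k).eval z).re 1 / 5400 ≤ ‖(V k).eval z‖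

lemma e1 (k : ℕ) : 1 ≤ 8 ^ k := Nat.one_le_pow _ _ (by norm_num)

lemma exSq : ∃ P V, Sq P V := by
  choose! W hW using fun k p h => step (e1 k) p h
  set P : ℕ → ℂ[X] := fun k => Nat.rec 1 (fun k p => p + C (1 / 21600) * (X ^ 8 ^ k * W k p)) k
  have hs : ∀ k, P (k + 1) = P k + C (1 / 21600) * (X ^ 8 ^ k * W k (P k)) := fun k => rfl
  have pos : ∀ k ξ, ‖ξ‖ = 1 + 1 / (8 ^ k : ℕ) → 0 ≤ ((P k).eval ξ).re := by
    intro k
    induction k with
    | zero => intro ξ _; simp [P]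
    | succ k ih =>
      intro ξ hξ
      have n0 : (0 : ℝ) < (8 ^ k : ℕ) := by exact_mod_cast e1 k
      have e : ‖ξ‖ = 1 + 1 / (8 * (8 ^ k : ℕ)) := by rw [hξ]; push_cast; ring
      have h1 := (hW k _ ih).2.2.1 ξ e
      have h2 := p3 (e1 k) le_rfl (norm_nonneg ξ) (by rw [e]; gcongr; linarith)
      have h3 := (neg_le_abs _).trans (abs_re_le_norm (ξ ^ 8 ^ k * (W k (P k)).eval ξ))
      rw [norm_mul, norm_pow] at h3
      have h4 := mul_le_mul_of_nonneg_right h2 (norm_nonneg ((W k (P k)).eval ξ))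
      have h5 : (1 / 21600 : ℂ) = (1 / 21600 : ℝ) := by push_cast; rfl
      rw [hs, eval_add, eval_mul, eval_C, eval_mul, eval_pow, eval_X, add_re, h5, re_ofReal_mul]
      linarith [norm_nonneg ((W k (P k)).eval ξ)]
  exact ⟨P, fun k => W k (P k), rfl, hs, pos, fun k => (hW k _ (pos k)).1,
    fun k => (hW k _ (pos k)).2.1, fun k => (hW k _ (pos k)).2.2.2⟩

variable {P V : ℕ → ℂ[X]}

lemma Sq.stab (H : Sq P V) {k m : ℕ} (hm : m < 8 ^ k) (j : ℕ) :
    (P (k + j)).coeff m = (P k).coeff m := by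
  induction j with
  | zero => rfl
  | succ j ih =>
    have : 8 ^ k ≤ 8 ^ (k + j) := Nat.pow_le_pow_right (by norm_num) (by omega)
    rw [← add_assoc, H.succ, coeff_add, coeff_C_mul, coeff_X_pow_mul', if_neg (by omega), ih]
    simp

lemma Sq.at0 (H : Sq P V) (k : ℕ) : (P k).eval 0 = 1 := by
  have := H.stab (k := 0) (m := 0) (by simp) k
  rw [zero_add, H.zero] at this
  simpa [← coeff_zero_eq_eval_zero] using this

lemma Sq.dP (H : Sq P V) (k : ℕ) : (P k).natDegree < 8 ^ k := by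
  induction k with
  | zero => simp [H.zero]
  | succ k ih =>
    have h1 := H.deg k
    have h2 : (C (1 / 21600) * (X ^ 8 ^ k * V k)).natDegree ≤ 8 ^ k + (V k).natDegree :=
      (natDegree_C_mul_le _ _).trans (natDegree_mul_le.trans (by simp))
    rw [H.succ]
    refine (natDegree_add_le _ _).trans_lt (max_lt ?_ ?_) <;> omega

lemma Sq.der (H : Sq P V) (k : ℕ) {R : ℝ} (R1 : 1 ≤ R) (R2 : R ≤ 1 + 1 / (8 ^ k : ℕ)) {z : ℂ}
    (hz : ‖z‖ < 1) : (1 - ‖z‖ ^ 2) * (R * ‖(derivative (P k)).eval (R * z)‖) ≤ 1 := by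
  have nk : (1 : ℝ) ≤ (8 ^ k : ℕ) := by exact_mod_cast e1 k
  have R3 : R ≤ 2 := by have := (div_le_one (by linarith)).2 nk; linarith
  have nz : ‖R * z‖ = R * ‖z‖ := by rw [norm_mul, norm_real, Real.norm_of_nonneg (by linarith)]
  have z0 := norm_nonneg z
  have key : ∀ i ≤ k, ‖(derivative (P i)).eval (R * z)‖
      ≤ 1 / 8 * ∑ j ∈ Finset.range i, (8 : ℝ) ^ j * ‖z‖ ^ (8 ^ j - 1) := by
    intro i
    induction i with
    | zero => intro _; simp [H.zero]
    | succ i ih =>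
      intro hi
      have a1 : 8 ^ (i + 1) ≤ 8 ^ k := Nat.pow_le_pow_right (by norm_num) hi
      have a2 : (2 : ℝ) * (8 ^ i : ℕ) ≤ (8 ^ k : ℕ) := by
        exact_mod_cast (show 2 * 8 ^ i ≤ 8 ^ k by omega)
      have ni : (1 : ℝ) ≤ (8 ^ i : ℕ) := by exact_mod_cast e1 i
      have h1 := dt (e1 i) (H.bd i) (z := R * z) (by
        have : (1 : ℝ) / (8 ^ k : ℕ) ≤ 1 / (2 * (8 ^ i : ℕ)) := by gcongr
        rw [nz]; nlinarith)
      have h2 := p3 (e1 k) (a := 8 ^ i - 1) (by have := e1 i; omega) (by linarith) R2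
      rw [nz, mul_pow] at h1
      have h3 : ((8 ^ i : ℕ) : ℝ) * (R ^ (8 ^ i - 1) * ‖z‖ ^ (8 ^ i - 1))
          ≤ (8 ^ i : ℕ) * (3 * ‖z‖ ^ (8 ^ i - 1)) := by gcongr
      rw [H.succ, derivative_add, derivative_C_mul, eval_add, eval_mul, eval_C,
        Finset.sum_range_succ]
      refine (norm_add_le _ _).trans ?_
      have h4 := ih (by omega)
      rw [norm_mul, show ‖(1 / 21600 : ℂ)‖ = 1 / 21600 by norm_num]
      push_cast at h1 h3
      linarith
  have h1 := key k le_rfl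
  have h2 := lac z0 hz k
  have h3 : 1 - ‖z‖ ^ 2 ≤ 2 * (1 - ‖z‖) := by nlinarith
  calc _ ≤ (2 * (1 - ‖z‖)) * (2 * (1 / 8 * ∑ j ∈ Finset.range k, (8 : ℝ) ^ j * ‖z‖ ^ (8 ^ j - 1))) := by
        gcongr
    _ ≤ 1 := by linarith

lemma Sq.nn (H : Sq P V) (k : ℕ) {z : ℂ} (hz : ‖z‖ ≤ 1) : (1 - ‖z‖) / 3 ≤ ((P k).eval z).re := by
  have nk : (1 : ℝ) ≤ (8 ^ k : ℕ) := by exact_mod_cast e1 k
  have t0 : (0 : ℝ) < 1 / (8 ^ k : ℕ) := by positivity
  have t1 := (div_le_one (by linarith)).2 nk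
  have := harn0 (P k).differentiable (H.pos k) (z := z) (by linarith)
  rw [H.at0, one_re, mul_one] at this
  refine le_trans ?_ this
  gcongr <;> linarith

lemma Sq.j3 (H : Sq P V) (k : ℕ) :
    circleAverage (fun z => ((P k).eval z).re ^ 3) 0 1 ≤ 5 * (k + 1) := by
  have nk : (1 : ℝ) ≤ (8 ^ k : ℕ) := by exact_mod_cast e1 k
  obtain ⟨R, hR⟩ : ∃ R : ℝ, R = 1 + 1 / (8 ^ k : ℕ) := ⟨_, rfl⟩
  have t0 : (0 : ℝ) < 1 / (8 ^ k : ℕ) := by positivity
  have t1 := (div_le_one (by linarith)).2 nk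
  have R1 : 1 < R := by linarith
  have R0 : (R : ℂ) ≠ 0 := by exact_mod_cast (by linarith : R ≠ 0)
  have d : ∀ z : ℂ, HasDerivAt (fun z : ℂ => (P k).eval (R * z))
      ((derivative (P k)).eval (R * z) * R) z := fun z =>
    ((P k).hasDerivAt _).comp z (by simpa using (hasDerivAt_id z).const_mul (R : ℂ))
  have h1 := ub3 (f := fun z => (P k).eval (R * z)) (B := 1) (r := R⁻¹)
    (fun z _ => (d z).differentiableAt.differentiableWithinAt) (by simp [H.at0])
    (fun z hz => by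
      have hz' : ‖R * z‖ < R := by
        rw [norm_mul, norm_real, Real.norm_of_nonneg (by linarith)]
        exact mul_lt_of_lt_one_right (by linarith) (by simpa using hz)
      refine le_trans ?_ (harn0 (P k).differentiable (hR ▸ H.pos k) hz')
      rw [H.at0, one_re, mul_one]
      apply div_nonneg <;> linarith [norm_nonneg (R * z)])
    (fun z hz => by
      rw [(d z).deriv, norm_mul, norm_real, Real.norm_of_nonneg (by linarith), mul_comm _ R]
      exact H.der k R1.le hR.le (by simpa using hz))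
    (by positivity) (inv_lt_one_of_one_lt₀ R1)
  rw [circleAverage_eq_circleAverage_zero_one] at h1
  simp only [add_zero, ofReal_inv, ← mul_assoc, mul_inv_cancel₀ R0, one_mul] at h1
  refine h1.trans ?_
  have h2 : ((2 : ℝ) ^ (3 * k + 1))⁻¹ ≤ 1 - R⁻¹ ^ 2 := by
    have e : ((2 : ℝ) ^ (3 * k + 1))⁻¹ = (1 / (8 ^ k : ℕ)) / 2 := by
      rw [pow_succ, pow_mul]; norm_num; ring
    rw [e, inv_pow, le_sub_comm, inv_le_comm₀ (by positivity) (by linarith),
      inv_le_iff_one_le_mul₀ (by linarith), hR]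
    nlinarith [mul_pos t0 t0]
  have h3 := Real.log_le_log (by positivity) h2
  rw [Real.log_inv, Real.log_pow] at h3
  have h4 := Real.log_two_lt_d9
  push_cast at h3
  have : (0 : ℝ) ≤ k := Nat.cast_nonneg k
  nlinarith

lemma Sq.l2 (H : Sq P V) (k : ℕ) : 3 / 200 / 5400 ^ 2 / √(k + 1)
    ≤ circleAverage (fun z => ‖(V k).eval z‖ ^ 2) 0 1 := by
  have c1 := (P k).continuous
  have c2 := (V k).continuous
  obtain ⟨l, hl⟩ : ∃ l : ℝ, l = 5 * √(k + 1) := ⟨_, rfl⟩
  have s0 : 0 < √(k + 1 : ℝ) := Real.sqrt_pos.2 (by positivity)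
  have l0 : 0 < l := by linarith
  have l2 : l ^ 2 = 25 * (k + 1) := by rw [hl, mul_pow, Real.sq_sqrt (by positivity)]; norm_num
  have h1 := circleAverage_mono (c := 0) (R := 1) (f₁ := fun z => ((P k).eval z - 1 / 2).re)
    (f₂ := fun z => (4 * l * 5400 ^ 2) * ‖(V k).eval z‖ ^ 2 + (l ^ 2)⁻¹ * ((P k).eval z).re ^ 3)
    (cI (by fun_prop) _) (cI (by fun_prop) _) fun z hz => by
      have a1 := H.lo k z (sp1 hz)
      have a2 := H.nn k (sp1 hz).le
      rw [sp1 hz] at a2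
      have e : ((P k).eval z - 1 / 2).re = ((P k).eval z).re - 1 / 2 := by simp
      rw [e]
      generalize ((P k).eval z).re = u at *
      have u0 : 0 ≤ u := by linarith
      have a3 : 0 ≤ (l ^ 2)⁻¹ * u ^ 3 := by positivity
      have a4 : 0 ≤ (4 * l * 5400 ^ 2) * ‖(V k).eval z‖ ^ 2 := by positivity
      rcases le_total u (1 / 2) with b | b
      · linarith
      rcases le_total u l with b' | b'
      · have a5 : 1 / 2 / 5400 ≤ ‖(V k).eval z‖ := le_trans (by gcongr; exact le_min b (by norm_num)) a1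
        have a6 : (1 / 2 / 5400) ^ 2 ≤ ‖(V k).eval z‖ ^ 2 := by gcongr
        nlinarith
      · have : u ≤ (l ^ 2)⁻¹ * u ^ 3 := by
          rw [le_inv_mul_iff₀ (by positivity)]
          have : l ^ 2 ≤ u ^ 2 := by gcongr
          nlinarith
        linarith
  have h2 : circleAverage (fun z => ((P k).eval z - 1 / 2).re) 0 1 = 1 / 2 := by
    have d : Differentiable ℂ fun z => (P k).eval z - 1 / 2 := (P k).differentiable.sub_const _
    have := reCLM.circleAverage_comp_comm (cI d.continuous 1)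
    rw [d.diffContOnCl.circleAverage, H.at0] at this
    exact this.trans (by norm_num)
  rw [h2, lin (cI (by fun_prop) _) (cI (by fun_prop) _)] at h1
  have h3 := mul_le_mul_of_nonneg_left (H.j3 k) (inv_pos.2 (pow_pos l0 2)).le
  have h4 : (l ^ 2)⁻¹ * (5 * (k + 1)) = 1 / 5 := by rw [l2]; field_simp; norm_num
  rw [div_le_iff₀ s0]
  rw [hl] at h1
  rw [hl] at h3 h4
  linarith

lemma Sq.en (H : Sq P V) (k : ℕ) : 1 + 3 / 200 / 5400 ^ 2 / 21600 ^ 2 * √k
    ≤ ∑ i ∈ Finset.range (8 ^ k), ‖(P k).coeff i‖ ^ 2 := by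
  induction k with
  | zero => simp [H.zero]
  | succ k ih =>
    rw [show 8 ^ (k + 1) = 8 ^ k + 7 * 8 ^ k by ring, Finset.sum_range_add _ (8 ^ k),
      Finset.sum_congr rfl fun i hi => by rw [H.stab (Finset.mem_range.1 hi) 1]]
    have h1 : ∑ x ∈ Finset.range (7 * 8 ^ k), ‖(P (k + 1)).coeff (8 ^ k + x)‖ ^ 2
        = 1 / 21600 ^ 2 * circleAverage (fun z => ‖(V k).eval z‖ ^ 2) 0 1 := by
      rw [← pars _ (H.deg k), Finset.mul_sum]
      refine Finset.sum_congr rfl fun x _ => ?_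
      rw [H.succ, coeff_add, coeff_eq_zero_of_natDegree_lt (by have := H.dP k; omega), coeff_C_mul,
        add_comm (8 ^ k), coeff_X_pow_mul, zero_add, norm_mul, mul_pow]
      norm_num
    have h2 := H.l2 k
    have s0 : 0 < √(k + 1 : ℝ) := Real.sqrt_pos.2 (by positivity)
    have h3 : √(k + 1 : ℝ) ≤ √k + 1 / √(k + 1) := by
      have a1 : √(k : ℝ) ≤ √(k + 1) := Real.sqrt_le_sqrt (by linarith)
      have a2 := Real.mul_self_sqrt (show (0 : ℝ) ≤ k + 1 by positivity)
      have a3 := Real.mul_self_sqrt (Nat.cast_nonneg (α := ℝ) k)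
      rw [← sub_le_iff_le_add', le_div_iff₀ s0]
      nlinarith [Real.sqrt_nonneg (k : ℝ)]
    rw [div_eq_mul_one_div _ (√_)] at h2
    rw [h1]; push_cast; linarith

theorem lower : ∃ F : ℂ → ℂ, DifferentiableOn ℂ F (ball 0 1) ∧
    (∀ z ∈ ball (0 : ℂ) 1, (1 - ‖z‖ ^ 2) * ‖deriv F z‖ ≤ 1) ∧ F 0 = 1 ∧
    (∀ z ∈ ball (0 : ℂ) 1, 0 < (F z).re) ∧ ∃ δ > 0, ∀ k : ℕ, 1 + δ * √k
      ≤ ∑ i ∈ Finset.range (8 ^ k), ‖iteratedDeriv i F 0 / i.factorial‖ ^ 2 := by
  obtain ⟨P, V, H⟩ := exSq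
  set T : ℕ → ℂ → ℂ := fun j z => (P (j + 1)).eval z - (P j).eval z with hT
  have hc : TendstoLocallyUniformlyOn (fun k z => (P k).eval z) (fun z => 1 + ∑' j, T j z) atTop
      (ball 0 1) := by
    rw [tendstoLocallyUniformlyOn_iff_forall_isCompact isOpen_ball]
    intro S hS cS
    obtain ⟨r, r1, hr⟩ := exists_pos_lt_subset_ball one_pos cS.isClosed hS
    have := tendstoUniformlyOn_tsum_nat (f := T) (s := S)
      (summable_geometric_of_lt_one r1.1.le r1.2) fun j z hz => by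
        have z1 : ‖z‖ < r := by simpa using hr hz
        have t0 : (0 : ℝ) ≤ 1 / (8 ^ j : ℕ) := by positivity
        have b := H.bd j z (by linarith [r1.2])
        have b2 : ‖z‖ ^ 8 ^ j ≤ r ^ j := (pow_le_pow_left₀ (norm_nonneg _) z1.le _).trans
          (pow_le_pow_of_le_one r1.1.le r1.2.le (Nat.lt_pow_self (by norm_num)).le)
        simp only [hT, H.succ, eval_add, add_sub_cancel_left, eval_mul, eval_C, eval_pow, eval_X,
          norm_mul, norm_pow]
        have b3 : ‖z‖ ^ 8 ^ j * ‖(V j).eval z‖ ≤ r ^ j * 225 := by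
          gcongr; exact pow_nonneg r1.1.le _
        have := pow_nonneg r1.1.le j
        norm_num; linarith
    rw [Metric.tendstoUniformlyOn_iff] at this ⊢
    intro ε ε0
    filter_upwards [this ε ε0] with k hk z hz
    have e := Finset.sum_range_sub (fun j => (P j).eval z) k
    have := hk z hz
    simp only [hT, e, H.zero, eval_one, dist_eq_norm] at this ⊢
    rwa [show ∀ a b : ℂ, 1 + a - b = a - (b - 1) by intros; ring]
  generalize (fun z => 1 + ∑' j, T j z) = F at hc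
  have hd : ∀ m, TendstoLocallyUniformlyOn (fun k => iteratedDeriv m fun z => (P k).eval z)
      (iteratedDeriv m F) atTop (ball 0 1) := by
    intro m
    induction m with
    | zero => simpa using hc
    | succ m ih =>
      simp only [iteratedDeriv_succ]
      exact ih.deriv (.of_forall fun k => Epd.dn (P k).differentiableOn m) isOpen_ball
  have z0 : (0 : ℂ) ∈ ball (0 : ℂ) 1 := mem_ball_self one_pos
  refine ⟨F, hc.differentiableOn (.of_forall fun k => (P k).differentiableOn) isOpen_ball,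
    fun z hz => ?_, ?_, fun z hz => ?_, _, by norm_num, fun k => (H.en k).trans (le_of_eq ?_)⟩
  · have := (hd 1).tendsto_at hz
    simp only [iteratedDeriv_one] at this
    refine le_of_tendsto' (this.norm.const_mul _) fun k => ?_
    have t0 : (0 : ℝ) ≤ 1 / (8 ^ k : ℕ) := by positivity
    simpa using H.der k le_rfl (by linarith) (mem_ball_zero_iff.1 hz)
  · have := hc.tendsto_at z0
    simp only [H.at0] at this
    exact tendsto_nhds_unique this tendsto_const_nhds
  · have z1 := mem_ball_zero_iff.1 hz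
    have := ge_of_tendsto' ((continuous_re.tendsto _).comp (hc.tendsto_at hz)) fun k => H.nn k z1.le
    linarith
  · refine Finset.sum_congr rfl fun i hi => ?_
    have := ((hd i).tendsto_at z0).div_const (i.factorial : ℂ)
    simp only [itd] at this
    rw [tendsto_nhds_unique this (tendsto_const_nhds.congr' ?_)]
    filter_upwards [eventually_ge_atTop k] with j hj
    obtain ⟨j, rfl⟩ := Nat.exists_eq_add_of_le hj
    exact (H.stab (Finset.mem_range.1 hi) j).symm

end Pool.Agent.Lib.Helper21.Bloch
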