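import Mathlib

/-! Every residue-class-wise affine permutation of the integers that preserves the nonnegative
integers is a product of class transpositions. -/

namespace Pool.Agent.Lib.Helper21.CT

open Equiv

def IsT (r₁ m₁ r₂ m₂ : ℤ) (σ : Perm ℤ) : Prop :=
  0 ≤ r₁ ∧ r₁ < m₁ ∧ 0 ≤ r₂ ∧ r₂ < m₂ ∧
    (∀ n : ℤ, ¬ (Int.ModEq m₁ n r₁ ∧ Int.ModEq m₂ n r₂)) ∧
    (∀ k : ℤ, σ (r₁ + m₁ * k) = r₂ + m₂ * k ∧ σ (r₂ + m₂ * k) = r₁ + m₁ * k) ∧
    ∀ n : ℤ, ¬ Int.ModEq m₁ n r₁ → ¬ Int.ModEq m₂ n r₂ → σ n = n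

def N : Subgroup (Perm ℤ) := Subgroup.closure {σ | ∃ r₁ m₁ r₂ m₂, IsT r₁ m₁ r₂ m₂ σ}

lemma IsT.mem {r₁ m₁ r₂ m₂ : ℤ} {σ : Perm ℤ} (h : IsT r₁ m₁ r₂ m₂ σ) : σ ∈ N :=
  Subgroup.subset_closure ⟨_, _, _, _, h⟩

lemma modEq_iff {m n r : ℤ} : Int.ModEq m n r ↔ ∃ k, n = r + m * k := by
  rw [Int.modEq_comm, Int.modEq_iff_dvd]
  constructor
  · rintro ⟨k, hk⟩; exact ⟨k, by linarith⟩
  · rintro ⟨k, hk⟩; exact ⟨k, by linarith⟩

/-- working form of `IsT` -/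
lemma isT_iff {r₁ m₁ r₂ m₂ : ℤ} {σ : Perm ℤ} : IsT r₁ m₁ r₂ m₂ σ ↔
    0 ≤ r₁ ∧ r₁ < m₁ ∧ 0 ≤ r₂ ∧ r₂ < m₂ ∧ (∀ k l : ℤ, r₁ + m₁ * k ≠ r₂ + m₂ * l) ∧
    (∀ k : ℤ, σ (r₁ + m₁ * k) = r₂ + m₂ * k ∧ σ (r₂ + m₂ * k) = r₁ + m₁ * k) ∧
    ∀ n : ℤ, (∀ k, n ≠ r₁ + m₁ * k) → (∀ k, n ≠ r₂ + m₂ * k) → σ n = n := by
  unfold IsT
  simp only [modEq_iff, not_exists]
  refine and_congr_right fun _ => and_congr_right fun _ => and_congr_right fun _ =>
    and_congr_right fun _ => and_congr_left fun _ => ?_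
  constructor
  · intro h k l hkl
    exact h _ ⟨⟨k, rfl⟩, ⟨l, hkl⟩⟩
  · rintro h n ⟨⟨k, hk⟩, ⟨l, hl⟩⟩
    exact h k l (hk.symm.trans hl)

lemma exists_T {r₁ m₁ r₂ m₂ : ℤ} (h1 : 0 ≤ r₁) (h2 : r₁ < m₁) (h3 : 0 ≤ r₂) (h4 : r₂ < m₂)
    (hd : ∀ k l : ℤ, r₁ + m₁ * k ≠ r₂ + m₂ * l) : ∃ σ, IsT r₁ m₁ r₂ m₂ σ := by
  classical
  have hm1 : m₁ ≠ 0 := by omega
  have hm2 : m₂ ≠ 0 := by omega
  let f : ℤ → ℤ := fun x => if ∃ k, x = r₁ + m₁ * k then r₂ + m₂ * ((x - r₁) / m₁)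
    else if ∃ k, x = r₂ + m₂ * k then r₁ + m₁ * ((x - r₂) / m₂) else x
  have f1 : ∀ k, f (r₁ + m₁ * k) = r₂ + m₂ * k := by
    intro k
    simp only [f]
    rw [if_pos ⟨k, rfl⟩, add_sub_cancel_left, Int.mul_ediv_cancel_left _ hm1]
  have f2 : ∀ k, f (r₂ + m₂ * k) = r₁ + m₁ * k := by
    intro k
    simp only [f]
    rw [if_neg (by rintro ⟨l, hl⟩; exact hd l k hl.symm), if_pos ⟨k, rfl⟩, add_sub_cancel_left,
      Int.mul_ediv_cancel_left _ hm2]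
  have f3 : ∀ n : ℤ, (∀ k, n ≠ r₁ + m₁ * k) → (∀ k, n ≠ r₂ + m₂ * k) → f n = n := by
    intro n ha hb
    simp only [f]
    rw [if_neg (by rintro ⟨l, hl⟩; exact ha l hl), if_neg (by rintro ⟨l, hl⟩; exact hb l hl)]
  have hf : Function.Involutive f := by
    intro x
    by_cases ha : ∃ k, x = r₁ + m₁ * k
    · obtain ⟨k, rfl⟩ := ha; rw [f1, f2]
    · by_cases hb : ∃ k, x = r₂ + m₂ * k
      · obtain ⟨k, rfl⟩ := hb; rw [f2, f1]
      · push Not at ha hb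
        rw [f3 x ha hb, f3 x ha hb]
  exact ⟨hf.toPerm, isT_iff.2 ⟨h1, h2, h3, h4, hd, fun k => ⟨f1 k, f2 k⟩, f3⟩⟩

lemma IsT.invol {r₁ m₁ r₂ m₂ : ℤ} {σ : Perm ℤ} (h : IsT r₁ m₁ r₂ m₂ σ) (x : ℤ) :
    σ (σ x) = x := by
  obtain ⟨-, -, -, -, -, h1, h2⟩ := isT_iff.1 h
  by_cases ha : ∃ k, x = r₁ + m₁ * k
  · obtain ⟨k, rfl⟩ := ha; rw [(h1 k).1, (h1 k).2]
  · by_cases hb : ∃ k, x = r₂ + m₂ * k
    · obtain ⟨k, rfl⟩ := hb; rw [(h1 k).2, (h1 k).1]
    · push Not at ha hb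
      rw [h2 x ha hb, h2 x ha hb]

def Aff (σ : Perm ℤ) : Prop := ∃ m : ℤ, 0 < m ∧ ∀ r, ∃ n : ℤ, ∀ k, σ (r + m * k) = σ r + n * k

def Pos (σ : Perm ℤ) : Prop := ∀ n : ℤ, 0 ≤ σ n ↔ 0 ≤ n

lemma sign_iff {r m k : ℤ} (h1 : 0 ≤ r) (h2 : r < m) : 0 ≤ r + m * k ↔ 0 ≤ k := by
  constructor
  · intro h
    by_contra hk
    have : k ≤ -1 := by omega
    nlinarith
  · intro h
    have : 0 ≤ m * k := mul_nonneg (by omega) h
    omega

lemma slope_ne {σ : Perm ℤ} {m r n : ℤ} (hm : 0 < m) (h : ∀ k, σ (r + m * k) = σ r + n * k) :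
    n ≠ 0 := by
  rintro rfl
  have := h 1
  simp only [mul_one, add_zero] at this
  have := σ.injective this
  omega

/-- uniform multiple of all slopes -/
lemma exists_mult {σ : Perm ℤ} {m : ℤ} (hm : 0 < m)
    (h : ∀ r, ∃ n : ℤ, ∀ k, σ (r + m * k) = σ r + n * k) :
    ∃ M : ℤ, 0 < M ∧ ∀ r, ∃ n c : ℤ, M = n * c ∧ ∀ k, σ (r + m * k) = σ r + n * k := by
  classical
  choose n hn using h
  refine ⟨|∏ r ∈ Finset.Ico 0 m, n r|, ?_, fun r => ?_⟩
  · exact abs_pos.2 (Finset.prod_ne_zero_iff.2 fun r _ => slope_ne hm (hn r))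
  · have h1 : r % m ∈ Finset.Ico 0 m :=
      Finset.mem_Ico.2 ⟨Int.emod_nonneg _ hm.ne', Int.emod_lt_of_pos _ hm⟩
    obtain ⟨c, hc⟩ := (dvd_abs _ _).2 (Finset.dvd_prod_of_mem n h1)
    refine ⟨n (r % m), c, hc, fun k => ?_⟩
    have h2 : r = r % m + m * (r / m) := (Int.emod_add_mul_ediv r m).symm
    have h3 : r + m * k = r % m + m * (r / m + k) := by linear_combination h2
    have h4 : σ r = σ (r % m) + n (r % m) * (r / m) := by rw [← hn, ← h2]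
    rw [h3, hn, h4]
    ring

def G : Subgroup (Perm ℤ) where
  carrier := {σ | Aff σ ∧ Pos σ}
  one_mem' := ⟨⟨1, one_pos, fun r => ⟨1, fun k => by simp⟩⟩, fun n => Iff.rfl⟩
  mul_mem' := by
    rintro τ σ ⟨⟨m', hm', h'⟩, hp'⟩ ⟨⟨m, hm, h⟩, hp⟩
    refine ⟨⟨m * m', mul_pos hm hm', fun r => ?_⟩, fun n => (hp' _).trans (hp n)⟩
    obtain ⟨n, hn⟩ := h r
    obtain ⟨n', hn'⟩ := h' (σ r)
    refine ⟨n' * n, fun k => ?_⟩
    simp only [Perm.mul_apply]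
    rw [mul_assoc, hn, mul_left_comm, hn', mul_assoc]
  inv_mem' := by
    rintro σ ⟨⟨m, hm, h⟩, hp⟩
    refine ⟨?_, fun n => ?_⟩
    · obtain ⟨M, hM, h⟩ := exists_mult hm h
      refine ⟨M, hM, fun y => ?_⟩
      obtain ⟨n, c, hc, hn⟩ := h (σ⁻¹ y)
      refine ⟨m * c, fun k => ?_⟩
      rw [Perm.inv_eq_iff_eq, mul_assoc, hn, hc]
      simp [mul_assoc]
    · have := hp (σ⁻¹ n)
      simpa using this.symm

lemma range_of {σ : Perm ℤ} (hp : Pos σ) {r m n : ℤ} (h1 : 0 ≤ r) (h2 : r < m)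
    (h : ∀ k, σ (r + m * k) = σ r + n * k) : 0 ≤ σ r ∧ σ r < n := by
  refine ⟨(hp r).2 h1, ?_⟩
  have h3 := hp (r + m * (-1))
  rw [h] at h3
  omega

lemma T_mem_G {r₁ m₁ r₂ m₂ : ℤ} {σ : Perm ℤ} (h : IsT r₁ m₁ r₂ m₂ σ) : σ ∈ G := by
  obtain ⟨a1, a2, a3, a4, -, h1, h2⟩ := isT_iff.1 h
  refine ⟨⟨m₁ * m₂, mul_pos (by omega) (by omega), fun x => ?_⟩, fun x => ?_⟩
  · by_cases ha : ∃ k, x = r₁ + m₁ * k
    · obtain ⟨l, rfl⟩ := ha
      refine ⟨m₂ * m₂, fun k => ?_⟩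
      rw [show r₁ + m₁ * l + m₁ * m₂ * k = r₁ + m₁ * (l + m₂ * k) by ring, (h1 _).1, (h1 _).1]
      ring
    · by_cases hb : ∃ k, x = r₂ + m₂ * k
      · obtain ⟨l, rfl⟩ := hb
        refine ⟨m₁ * m₁, fun k => ?_⟩
        rw [show r₂ + m₂ * l + m₁ * m₂ * k = r₂ + m₂ * (l + m₁ * k) by ring, (h1 _).2, (h1 _).2]
        ring
      · push Not at ha hb
        refine ⟨m₁ * m₂, fun k => ?_⟩
        rw [h2 x ha hb, h2]
        · intro l hl
          exact ha (l - m₂ * k) (by linear_combination hl)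
        · intro l hl
          exact hb (l - m₁ * k) (by linear_combination hl)
  · by_cases ha : ∃ k, x = r₁ + m₁ * k
    · obtain ⟨l, rfl⟩ := ha
      rw [(h1 _).1, sign_iff a1 a2, sign_iff a3 a4]
    · by_cases hb : ∃ k, x = r₂ + m₂ * k
      · obtain ⟨l, rfl⟩ := hb
        rw [(h1 _).2, sign_iff a1 a2, sign_iff a3 a4]
      · push Not at ha hb
        rw [h2 x ha hb]

lemma N_le_G : N ≤ G := by
  rw [N, Subgroup.closure_le]
  rintro σ ⟨_, _, _, _, h⟩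
  exact T_mem_G h

/-- periodic permutations are in `N` -/
lemma periodic_mem {M : ℤ} (hM : 0 < M) (σ : Perm ℤ) (hp : Pos σ)
    (h : ∀ y k, σ (y + M * k) = σ y + M * k) : σ ∈ N := by
  classical
  generalize hc : ((Finset.Ico 0 M).filter fun r => σ r ≠ r).card = c
  induction c using Nat.strong_induction_on generalizing σ with
  | _ c ih =>
    by_cases h0 : ∀ r, 0 ≤ r → r < M → σ r = r
    · have : σ = 1 := by
        ext x
        have h2 : x = x % M + M * (x / M) := (Int.emod_add_mul_ediv x M).symm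
        rw [h2, h, h0 _ (Int.emod_nonneg _ hM.ne') (Int.emod_lt_of_pos _ hM)]
        rfl
      rw [this]; exact N.one_mem
    · push Not at h0
      obtain ⟨r, hr1, hr2, hr⟩ := h0
      obtain ⟨hs1, hs2⟩ := range_of hp hr1 hr2 (h r)
      have uniq : ∀ a b k : ℤ, 0 ≤ a → a < M → 0 ≤ b → b < M → a = b + M * k → a = b := by
        intro a b k a1 a2 b1 b2 hk
        have h1 : 0 ≤ k := (sign_iff b1 b2).1 (hk ▸ a1)
        have h2 : 0 ≤ -k := (sign_iff a1 a2).1 (by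
          have : a + M * -k = b := by linear_combination hk
          rw [this]; exact b1)
        have : k = 0 := by omega
        rw [hk, this]; simp
      obtain ⟨τ, hτ⟩ := exists_T hr1 hr2 hs1 hs2 (by
        intro k l hkl
        exact hr (uniq _ _ (l - k) hr1 hr2 hs1 hs2 (by linear_combination hkl)).symm)
      obtain ⟨-, -, -, -, -, t1, t2⟩ := isT_iff.1 hτ
      have hτp : ∀ y k, τ (y + M * k) = τ y + M * k := by
        intro x k
        by_cases ha : ∃ k, x = r + M * k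
        · obtain ⟨l, rfl⟩ := ha
          rw [add_assoc, ← mul_add, (t1 _).1, (t1 _).1]; ring
        · by_cases hb : ∃ k, x = σ r + M * k
          · obtain ⟨l, rfl⟩ := hb
            rw [add_assoc, ← mul_add, (t1 _).2, (t1 _).2]; ring
          · push Not at ha hb
            rw [t2 x ha hb, t2]
            · intro l hl
              exact ha (l - k) (by linear_combination hl)
            · intro l hl
              exact hb (l - k) (by linear_combination hl)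
      have key : τ * σ ∈ N := by
        refine ih _ ?_ (τ * σ) (fun n => ((T_mem_G hτ).2 _).trans (hp n)) ?_ rfl
        · rw [← hc]
          apply Finset.card_lt_card
          rw [Finset.ssubset_iff_of_subset]
          · refine ⟨r, Finset.mem_filter.2 ⟨Finset.mem_Ico.2 ⟨hr1, hr2⟩, hr⟩, ?_⟩
            have := (t1 0).2
            simp only [mul_zero, add_zero] at this
            intro hmem
            exact (Finset.mem_filter.1 hmem).2 this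
          · intro x hx
            replace hx := Finset.mem_filter.1 hx
            rw [Finset.mem_Ico] at hx
            refine Finset.mem_filter.2 ⟨Finset.mem_Ico.2 hx.1, fun hxx => hx.2 ?_⟩
            rw [Perm.mul_apply, hxx, t2]
            · intro l hl
              have := uniq _ _ l hx.1.1 hx.1.2 hr1 hr2 hl
              exact hr (this ▸ hxx)
            · intro l hl
              have h5 := uniq _ _ l hx.1.1 hx.1.2 hs1 hs2 hl
              have h6 : x = r := σ.injective (hxx.trans h5)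
              exact hr (h6 ▸ hxx)
        · intro y k
          simp only [Perm.mul_apply]
          rw [h, hτp]
      have : σ = τ⁻¹ * (τ * σ) := by group
      rw [this]
      exact N.mul_mem (N.inv_mem hτ.mem) key

lemma conj_fine {σ : Perm ℤ} (hp : Pos σ) {m : ℤ}
    (h : ∀ r, ∃ n : ℤ, ∀ k, σ (r + m * k) = σ r + n * k) {r₁ m₁ r₂ m₂ : ℤ} {τ : Perm ℤ}
    (hτ : IsT r₁ (m₁ * m) r₂ (m₂ * m) τ) : σ * τ * σ⁻¹ ∈ N := by
  obtain ⟨a1, a2, a3, a4, hd, t1, t2⟩ := isT_iff.1 hτ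
  obtain ⟨n₁, hn₁⟩ := h r₁
  obtain ⟨n₂, hn₂⟩ := h r₂
  have e1 : ∀ k, σ (r₁ + m₁ * m * k) = σ r₁ + n₁ * m₁ * k := by
    intro k
    rw [show r₁ + m₁ * m * k = r₁ + m * (m₁ * k) by ring, hn₁]; ring
  have e2 : ∀ k, σ (r₂ + m₂ * m * k) = σ r₂ + n₂ * m₂ * k := by
    intro k
    rw [show r₂ + m₂ * m * k = r₂ + m * (m₂ * k) by ring, hn₂]; ring
  obtain ⟨b1, b2⟩ := range_of hp a1 a2 e1
  obtain ⟨b3, b4⟩ := range_of hp a3 a4 e2
  refine IsT.mem (isT_iff.2 ⟨b1, b2, b3, b4, ?_, ?_, ?_⟩)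
  · intro k l hkl
    rw [← e1, ← e2] at hkl
    exact hd k l (σ.injective hkl)
  · intro k
    rw [← e1, ← e2]
    simp [(t1 k).1, (t1 k).2]
  · intro x ha hb
    simp only [Perm.mul_apply]
    rw [t2]
    · simp
    · intro k hk
      apply ha k
      rw [← e1, ← hk]; simp
    · intro k hk
      apply hb k
      rw [← e2, ← hk]; simp

lemma conj_T {σ : Perm ℤ} (hσ : σ ∈ G) {r₁ m₁ r₂ m₂ : ℤ} {τ : Perm ℤ}
    (hτ : IsT r₁ m₁ r₂ m₂ τ) : σ * τ * σ⁻¹ ∈ N := by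
  obtain ⟨⟨m, hm, h⟩, hp⟩ := hσ
  obtain ⟨a1, a2, a3, a4, hd, t1, t2⟩ := isT_iff.1 hτ
  have hm1 : 0 < m₁ := by omega
  have hm2 : 0 < m₂ := by omega
  have key : ∀ j : ℕ, (j : ℤ) ≤ m → ∀ ρ : Perm ℤ,
      (∀ k, k % m < j → ρ (r₁ + m₁ * k) = r₂ + m₂ * k ∧ ρ (r₂ + m₂ * k) = r₁ + m₁ * k) →
      (∀ x, (∀ k, k % m < j → x ≠ r₁ + m₁ * k ∧ x ≠ r₂ + m₂ * k) → ρ x = x) →
      σ * ρ * σ⁻¹ ∈ N := by
    intro j
    induction j with
    | zero =>
      intro _ ρ _ h2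
      have : ρ = 1 := by
        ext x
        refine h2 x fun k hk => ?_
        have := Int.emod_nonneg k hm.ne'
        simp at hk
        omega
      rw [this]; simp
    | succ j ih =>
      intro hj ρ h1 h2
      push_cast at hj h1 h2
      have hj0 : (0 : ℤ) ≤ j := Int.natCast_nonneg j
      obtain ⟨υ, hυ⟩ := exists_T (r₁ := r₁ + m₁ * j) (m₁ := m₁ * m) (r₂ := r₂ + m₂ * j)
        (m₂ := m₂ * m) (by positivity) (by nlinarith) (by positivity) (by nlinarith) (by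
          intro k l hkl
          exact hd (j + m * k) (j + m * l) (by linear_combination hkl))
      obtain ⟨-, -, -, -, -, u1, u2⟩ := isT_iff.1 hυ
      have hmod : ∀ l : ℤ, (j + m * l) % m = j := by
        intro l
        rw [Int.add_mul_emod_self_left, Int.emod_eq_of_lt hj0 (by omega)]
      have ufix : ∀ k, k % m ≠ j → υ (r₁ + m₁ * k) = r₁ + m₁ * k ∧
          υ (r₂ + m₂ * k) = r₂ + m₂ * k := by
        intro k hk
        constructor
        · apply u2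
          · intro l hl
            have : k = j + m * l := by
              apply mul_left_cancel₀ hm1.ne'
              linear_combination hl
            exact hk (this ▸ hmod l)
          · intro l hl
            exact hd k (j + m * l) (by linear_combination hl)
        · apply u2
          · intro l hl
            exact hd (j + m * l) k (by linear_combination hl.symm)
          · intro l hl
            have : k = j + m * l := by
              apply mul_left_cancel₀ hm2.ne'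
              linear_combination hl
            exact hk (this ▸ hmod l)
      have uswap : ∀ k, k % m = j → υ (r₁ + m₁ * k) = r₂ + m₂ * k ∧
          υ (r₂ + m₂ * k) = r₁ + m₁ * k := by
        intro k hk
        have h3 : k = j + m * (k / m) := by rw [← hk]; exact (Int.emod_add_mul_ediv k m).symm
        have e1 : r₁ + m₁ * k = r₁ + m₁ * j + m₁ * m * (k / m) := by
          conv_lhs => rw [h3]
          ring
        have e2 : r₂ + m₂ * k = r₂ + m₂ * j + m₂ * m * (k / m) := by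
          conv_lhs => rw [h3]
          ring
        rw [e1, e2]
        exact u1 _
      have h4 : σ * (υ * ρ) * σ⁻¹ ∈ N := by
        refine ih (by omega) (υ * ρ) ?_ ?_
        · intro k hk
          simp only [Perm.mul_apply]
          rw [(h1 k (by omega)).1, (h1 k (by omega)).2]
          exact (ufix k (by omega)).symm
        · intro x hx
          simp only [Perm.mul_apply]
          by_cases ha : ∃ k, k % m = j ∧ x = r₁ + m₁ * k
          · obtain ⟨k, hk, rfl⟩ := ha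
            rw [(h1 k (by omega)).1, (uswap k hk).2]
          · by_cases hb : ∃ k, k % m = j ∧ x = r₂ + m₂ * k
            · obtain ⟨k, hk, rfl⟩ := hb
              rw [(h1 k (by omega)).2, (uswap k hk).1]
            · push Not at ha hb
              rw [h2 x, u2]
              · intro l hl
                exact ha (j + m * l) (hmod l) (by linear_combination hl)
              · intro l hl
                exact hb (j + m * l) (hmod l) (by linear_combination hl)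
              · intro k hk
                by_cases hkj : k % m = j
                · exact ⟨ha k hkj, hb k hkj⟩
                · exact hx k (by omega)
      have h5 : σ * ρ * σ⁻¹ = (σ * υ * σ⁻¹)⁻¹ * (σ * (υ * ρ) * σ⁻¹) := by group
      rw [h5]
      exact N.mul_mem (N.inv_mem (conj_fine hp h hυ)) h4
  refine key m.toNat (by omega) τ (fun k _ => t1 k) (fun x hx => t2 x ?_ ?_)
  · intro k
    exact (hx k (by have := Int.emod_lt_of_pos k hm; omega)).1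
  · intro k
    exact (hx k (by have := Int.emod_lt_of_pos k hm; omega)).2

lemma conj_mem {σ : Perm ℤ} (hσ : σ ∈ G) {τ : Perm ℤ} (hτ : τ ∈ N) : σ * τ * σ⁻¹ ∈ N := by
  induction hτ using Subgroup.closure_induction with
  | mem x hx =>
    obtain ⟨_, _, _, _, h⟩ := hx
    exact conj_T hσ h
  | one => simp
  | mul x y _ _ hx hy =>
    have : σ * (x * y) * σ⁻¹ = (σ * x * σ⁻¹) * (σ * y * σ⁻¹) := by group
    rw [this]; exact N.mul_mem hx hy
  | inv x _ hx =>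
    have : σ * x⁻¹ * σ⁻¹ = (σ * x * σ⁻¹)⁻¹ := by group
    rw [this]; exact N.inv_mem hx

/-- `ρ` is the copy of `σ` on the class `r (m)` -/
def IsCopy (r m : ℤ) (σ ρ : Perm ℤ) : Prop :=
  (∀ k, ρ (r + m * k) = r + m * σ k) ∧ ∀ x, (∀ k, x ≠ r + m * k) → ρ x = x

lemma exists_copy (r : ℤ) {m : ℤ} (hm : 0 < m) (σ : Perm ℤ) : ∃ ρ, IsCopy r m σ ρ := by
  let ι : ℤ ↪ ℤ := ⟨fun k => r + m * k, fun k l h => by
    apply mul_left_cancel₀ hm.ne'
    linear_combination h⟩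
  refine ⟨σ.viaEmbedding ι, fun k => Perm.viaEmbedding_apply σ ι k, fun x hx => ?_⟩
  apply Perm.viaEmbedding_apply_of_notMem
  rintro ⟨k, hk⟩
  exact hx k hk.symm

lemma IsCopy.unique {r m : ℤ} {σ ρ ρ' : Perm ℤ} (h : IsCopy r m σ ρ) (h' : IsCopy r m σ ρ') :
    ρ = ρ' := by
  ext x
  by_cases ha : ∃ k, x = r + m * k
  · obtain ⟨k, rfl⟩ := ha; rw [h.1, h'.1]
  · push Not at ha; rw [h.2 x ha, h'.2 x ha]

lemma IsCopy.mem {r m : ℤ} (h1 : 0 ≤ r) (h2 : r < m) {σ ρ : Perm ℤ} (h : IsCopy r m σ ρ)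
    (hσ : σ ∈ G) : ρ ∈ G := by
  obtain ⟨⟨m₀, hm₀, ha⟩, hp⟩ := hσ
  refine ⟨⟨m * m₀, mul_pos (by omega) hm₀, fun x => ?_⟩, fun x => ?_⟩
  · by_cases hx : ∃ k, x = r + m * k
    · obtain ⟨l, rfl⟩ := hx
      obtain ⟨n, hn⟩ := ha l
      refine ⟨m * n, fun k => ?_⟩
      rw [show r + m * l + m * m₀ * k = r + m * (l + m₀ * k) by ring, h.1, h.1, hn]
      ring
    · push Not at hx
      refine ⟨m * m₀, fun k => ?_⟩
      rw [h.2 x hx, h.2]
      intro l hl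
      exact hx (l - m₀ * k) (by linear_combination hl)
  · by_cases hx : ∃ k, x = r + m * k
    · obtain ⟨l, rfl⟩ := hx
      rw [h.1, sign_iff h1 h2, sign_iff h1 h2, hp]
    · push Not at hx
      rw [h.2 x hx]

lemma IsCopy.conj {r₁ m₁ r₂ m₂ : ℤ} {τ σ ρ : Perm ℤ} (hτ : IsT r₁ m₁ r₂ m₂ τ)
    (h : IsCopy r₁ m₁ σ ρ) : IsCopy r₂ m₂ σ (τ * ρ * τ) := by
  obtain ⟨-, -, -, -, -, t1, -⟩ := isT_iff.1 hτ
  refine ⟨fun k => ?_, fun x hx => ?_⟩
  · simp only [Perm.mul_apply]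
    rw [(t1 k).2, h.1, (t1 _).1]
  · simp only [Perm.mul_apply]
    rw [h.2, hτ.invol]
    intro k hk
    apply hx k
    rw [← hτ.invol x, hk, (t1 k).1]

lemma IsCopy.comp {r m r' m' : ℤ} {σ ρ υ : Perm ℤ} (h : IsCopy r m σ ρ) (h' : IsCopy r' m' ρ υ) :
    IsCopy (r' + m' * r) (m' * m) σ υ := by
  refine ⟨fun k => ?_, fun x hx => ?_⟩
  · rw [show r' + m' * r + m' * m * k = r' + m' * (r + m * k) by ring, h'.1, h.1]; ring
  · by_cases ha : ∃ k, x = r' + m' * k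
    · obtain ⟨k, rfl⟩ := ha
      rw [h'.1, h.2]
      intro l hl
      exact hx l (by rw [hl]; ring)
    · push Not at ha
      exact h'.2 x ha

lemma decomp {m : ℤ} (hm : 0 < m) (x : ℤ) :
    ∃ r e k, 0 ≤ r ∧ r < m ∧ 0 ≤ e ∧ e < 2 ∧ x = r + m * (e + 2 * k) := by
  refine ⟨x % m, (x / m) % 2, (x / m) / 2, Int.emod_nonneg _ hm.ne', Int.emod_lt_of_pos _ hm,
    by omega, by omega, ?_⟩
  rw [Int.emod_add_mul_ediv, Int.emod_add_mul_ediv]

lemma exists_alpha {m : ℤ} (hm : 0 < m) : ∃ α : Perm ℤ, α ∈ N ∧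
    ∀ r e k, 0 ≤ r → r < m → 0 ≤ e → e < 2 → α (r + m * (e + 2 * k)) = 2 * (r + m * k) + e := by
  let f : ℤ → ℤ := fun x => 2 * (x % m + m * ((x / m) / 2)) + (x / m) % 2
  have hf : ∀ r e k, 0 ≤ r → r < m → 0 ≤ e → e < 2 →
      f (r + m * (e + 2 * k)) = 2 * (r + m * k) + e := by
    intro r e k h1 h2 h3 h4
    have e1 : (r + m * (e + 2 * k)) % m = r := by
      rw [Int.add_mul_emod_self_left, Int.emod_eq_of_lt h1 h2]
    have e2 : (r + m * (e + 2 * k)) / m = e + 2 * k := by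
      rw [Int.add_mul_ediv_left _ _ hm.ne', Int.ediv_eq_zero_of_lt h1 h2, zero_add]
    simp only [f, e1, e2]
    have e3 : (e + 2 * k) / 2 = k := by omega
    have e4 : (e + 2 * k) % 2 = e := by omega
    rw [e3, e4]
  have hb : Function.Bijective f := by
    constructor
    · intro x y hxy
      obtain ⟨r, e, k, h1, h2, h3, h4, rfl⟩ := decomp hm x
      obtain ⟨r', e', k', h1', h2', h3', h4', rfl⟩ := decomp hm y
      rw [hf _ _ _ h1 h2 h3 h4, hf _ _ _ h1' h2' h3' h4'] at hxy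
      have e1 : e = e' := by omega
      have e2 : r + m * k = r' + m * k' := by omega
      have e3 : r = r' := by
        have := congrArg (· % m) e2
        simpa [Int.add_mul_emod_self_left, Int.emod_eq_of_lt h1 h2,
          Int.emod_eq_of_lt h1' h2'] using this
      have e4 : k = k' := by
        apply mul_left_cancel₀ hm.ne'
        omega
      rw [e1, e3, e4]
    · intro y
      refine ⟨(y / 2) % m + m * (y % 2 + 2 * ((y / 2) / m)), ?_⟩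
      rw [hf _ _ _ (Int.emod_nonneg _ hm.ne') (Int.emod_lt_of_pos _ hm) (by omega) (by omega),
        Int.emod_add_mul_ediv]
      omega
  refine ⟨Equiv.ofBijective f hb, ?_, hf⟩
  apply periodic_mem (M := 2 * m) (by omega)
  · intro x
    obtain ⟨r, e, k, h1, h2, h3, h4, rfl⟩ := decomp hm x
    change 0 ≤ f _ ↔ _
    rw [hf _ _ _ h1 h2 h3 h4, sign_iff h1 h2]
    have := sign_iff (k := k) h1 h2
    omega
  · intro x l
    obtain ⟨r, e, k, h1, h2, h3, h4, rfl⟩ := decomp hm x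
    change f _ = f _ + _
    rw [show r + m * (e + 2 * k) + 2 * m * l = r + m * (e + 2 * (k + l)) by ring,
      hf _ _ _ h1 h2 h3 h4, hf _ _ _ h1 h2 h3 h4]
    ring

lemma key {σ ρ₀ ρ₁ : Perm ℤ} (hσ : σ ∈ G) (h0 : IsCopy 0 2 σ ρ₀) (h1 : IsCopy 1 2 σ ρ₁) :
    ρ₀ * ρ₁ * σ⁻¹ ∈ N := by
  have hd : ∀ x e, 0 ≤ e → e < 2 → (ρ₀ * ρ₁) (2 * x + e) = 2 * σ x + e := by
    intro x e he1 he2
    simp only [Perm.mul_apply]
    rcases (by omega : e = 0 ∨ e = 1) with rfl | rfl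
    · rw [h1.2 _ (by intro k; omega)]
      have := h0.1 x
      simpa using this
    · rw [add_comm, h1.1, h0.2 _ (by intro k; omega), add_comm]
  obtain ⟨m, hm, ha⟩ := hσ.1
  obtain ⟨α, hα, hαf⟩ := exists_alpha hm
  obtain ⟨M, hM, hM'⟩ := exists_mult hm ha
  have hG : ρ₀ * ρ₁ * α * σ⁻¹ ∈ G :=
    G.mul_mem (G.mul_mem (G.mul_mem (h0.mem (by omega) (by omega) hσ)
      (h1.mem (by omega) (by omega) hσ)) (N_le_G hα)) (G.inv_mem hσ)
  have hγ : ρ₀ * ρ₁ * α * σ⁻¹ ∈ N := by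
    apply periodic_mem (M := 2 * M) (by omega) _ hG.2
    intro y l
    obtain ⟨x, rfl⟩ := σ.surjective y
    obtain ⟨r, e, k, a1, a2, a3, a4, rfl⟩ := decomp hm x
    obtain ⟨n, c, hc, hn⟩ := hM' r
    have e1 : σ (r + m * (e + 2 * k)) + 2 * M * l = σ (r + m * (e + 2 * (k + c * l))) := by
      rw [hn, hn, hc]; ring
    rw [e1]
    have e2 : ∀ z, (ρ₀ * ρ₁ * α * σ⁻¹) (σ z) = (ρ₀ * ρ₁) (α z) := by
      intro z; simp
    rw [e2, e2, hαf _ _ _ a1 a2 a3 a4, hαf _ _ _ a1 a2 a3 a4, hd _ _ a3 a4, hd _ _ a3 a4, hn, hn,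
      hc]
    ring
  have : ρ₀ * ρ₁ * σ⁻¹ = (ρ₀ * ρ₁ * α * σ⁻¹) * (σ * α⁻¹ * σ⁻¹) := by group
  rw [this]
  exact N.mul_mem hγ (conj_mem hσ (N.inv_mem hα))

lemma copy_rel {r₁ m₁ r₂ m₂ : ℤ} (h1 : 0 ≤ r₁) (h2 : r₁ < m₁) (h3 : 0 ≤ r₂) (h4 : r₂ < m₂)
    (hd : ∀ k l : ℤ, r₁ + m₁ * k ≠ r₂ + m₂ * l) {σ ρ ρ' : Perm ℤ} (hσ : σ ∈ G)
    (h : IsCopy r₁ m₁ σ ρ) (h' : IsCopy r₂ m₂ σ ρ') : ρ' * ρ⁻¹ ∈ N := by
  obtain ⟨τ, hτ⟩ := exists_T h1 h2 h3 h4 hd
  rw [h'.unique (h.conj hτ)]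
  have : τ * ρ * τ * ρ⁻¹ = τ * (ρ * τ * ρ⁻¹) := by group
  rw [this]
  exact N.mul_mem hτ.mem (conj_T (h.mem h1 h2 hσ) hτ)

theorem G_le_N : G ≤ N := by
  intro σ hσ
  obtain ⟨ρ₀, h0⟩ := exists_copy 0 two_pos σ
  obtain ⟨ρ₁, h1⟩ := exists_copy 1 two_pos σ
  obtain ⟨υ₀, k0⟩ := exists_copy 0 two_pos ρ₁
  obtain ⟨υ₁, k1⟩ := exists_copy 1 two_pos ρ₁
  have g1 : ρ₁ ∈ G := h1.mem (by omega) (by omega) hσ
  have a1 := key hσ h0 h1
  have a2 := key g1 k0 k1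
  have c0 := h1.comp k0
  have c1 := h1.comp k1
  have b0 : υ₀ * ρ₁⁻¹ ∈ N :=
    copy_rel (by omega) (by omega) (by omega) (by omega) (by intro k l; omega) hσ h1 c0
  have b1 : υ₁ * ρ₀⁻¹ ∈ N :=
    copy_rel (by omega) (by omega) (by omega) (by omega) (by intro k l; omega) hσ h0 c1
  have b2 : ρ₁ * ρ₀⁻¹ ∈ N :=
    copy_rel (by omega) (by omega) (by omega) (by omega) (by intro k l; omega) hσ h0 h1
  have d1 : ρ₁ * υ₁ * ρ₁⁻¹ ∈ N := by
    have : ρ₁ * υ₁ * ρ₁⁻¹ = (υ₀ * ρ₁⁻¹)⁻¹ * (υ₀ * υ₁ * ρ₁⁻¹) := by group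
    rw [this]; exact N.mul_mem (N.inv_mem b0) a2
  have d2 : υ₁ ∈ N := by
    have := conj_mem (G.inv_mem g1) d1
    have e : ρ₁⁻¹ * (ρ₁ * υ₁ * ρ₁⁻¹) * ρ₁⁻¹⁻¹ = υ₁ := by group
    rwa [e] at this
  have d3 : ρ₀ ∈ N := by
    have : ρ₀ = (υ₁ * ρ₀⁻¹)⁻¹ * υ₁ := by group
    rw [this]; exact N.mul_mem (N.inv_mem b1) d2
  have d4 : ρ₁ ∈ N := by
    have : ρ₁ = (ρ₁ * ρ₀⁻¹) * ρ₀ := by group
    rw [this]; exact N.mul_mem b2 d3
  have : σ = (ρ₀ * ρ₁ * σ⁻¹)⁻¹ * (ρ₀ * ρ₁) := by group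
  rw [this]
  exact N.mul_mem (N.inv_mem a1) (N.mul_mem d3 d4)

lemma aff_iff (g : Perm ℤ) : Aff g ↔ ∃ m : ℤ, 0 < m ∧ ∀ r : ℤ, ∃ a b : ℚ, ∀ n : ℤ,
    Int.ModEq m n r → ((g n : ℤ) : ℚ) = a * (n : ℚ) + b := by
  constructor
  · rintro ⟨m, hm, h⟩
    refine ⟨m, hm, fun r => ?_⟩
    obtain ⟨n, hn⟩ := h r
    refine ⟨n / m, g r - n / m * r, fun x hx => ?_⟩
    obtain ⟨k, rfl⟩ := modEq_iff.1 hx
    rw [hn]
    have : (m : ℚ) ≠ 0 := by exact_mod_cast hm.ne'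
    push_cast
    field_simp
    ring
  · rintro ⟨m, hm, h⟩
    refine ⟨m, hm, fun r => ?_⟩
    obtain ⟨a, b, hab⟩ := h r
    refine ⟨g (r + m) - g r, fun k => ?_⟩
    have h1 := hab r (Int.ModEq.refl r)
    have h2 := hab (r + m) (modEq_iff.2 ⟨1, by ring⟩)
    have h3 := hab (r + m * k) (modEq_iff.2 ⟨k, rfl⟩)
    have : ((g (r + m * k) : ℤ) : ℚ) = ((g r + (g (r + m) - g r) * k : ℤ) : ℚ) := by
      push_cast at h2 h3 ⊢
      rw [h1, h2, h3]; ring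
    exact_mod_cast this

theorem main : (N : Set (Perm ℤ)) = {g : Perm ℤ |
    (∃ m : ℤ, 0 < m ∧ ∀ r : ℤ, ∃ a b : ℚ, ∀ n : ℤ,
      Int.ModEq m n r → ((g n : ℤ) : ℚ) = a * (n : ℚ) + b) ∧ ∀ n : ℤ, 0 ≤ g n ↔ 0 ≤ n} := by
  rw [le_antisymm N_le_G G_le_N]
  ext g
  exact and_congr_left fun _ => aff_iff g

end Pool.Agent.Lib.Helper21.CT
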