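import Mathlib

/-! An infinite poset in which every monotone self-map is definable with parameters.
`M` is the lexicographically ordered Cantor set `C` together with countably many extra points `e j`,
where `e j` lies above `w j` and below `hh j`.  The sequence `hh` lists quadruples which let one parameter of `C`
code an arbitrary binary relation on a countable join-dense set. -/

set_option autoImplicit false

namespace Pool.Agent.Lib.Helper21.DefMono

open FirstOrder FirstOrder.Language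

noncomputable section

abbrev C := Lex (ℕ → Bool)

lemma lt_iff (x y : C) : x < y ↔ ∃ i, (∀ j < i, x j = y j) ∧ x i < y i := Iff.rfl

lemma le_of_pt {x y : C} (h : ∀ i, x i ≤ y i) : x ≤ y := Pi.toLex_monotone (a := ofLex x) (b := ofLex y) h

def δ (k : ℕ) : C := toLex fun i => decide (i = k)
def top : C := toLex fun _ => true
def ind (s : Finset ℕ) : C := toLex fun i => decide (i ∈ s)
def lo (n : ℕ) (s : Finset ℕ) : C := toLex fun i => if i < n + 1 then decide (i ∈ s ∧ i ≠ 0) else decide (i = n + 1)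
def up (n : ℕ) (s : Finset ℕ) : C := toLex fun i => if i < n + 1 then decide (i ∈ s ∧ i ≠ 0) else true

lemma δ_lt {k l : ℕ} (h : k < l) : δ l < δ k := by
  rw [lt_iff]
  refine ⟨k, fun j hj => ?_, ?_⟩
  · simp only [δ, Pi.toLex_apply]
    rw [decide_eq_false (by omega), decide_eq_false (by omega)]
  · simp only [δ, Pi.toLex_apply]
    rw [decide_eq_false (by omega)]
    decide

lemma δ_anti : StrictAnti δ := fun _ _ h => δ_lt h

lemma δ_le_of (x : C) (i : ℕ) (hi : x i = true) (k : ℕ) (hk : i ≤ k) : δ k ≤ x := by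
  refine le_trans (δ_anti.antitone hk) (le_of_pt fun j => ?_)
  simp only [δ, Pi.toLex_apply]
  by_cases h : j = i
  · rw [h, hi]; simp
  · simp [h]

def IsQ (x : C) : Prop := ∃ s : Finset ℕ, s.Nonempty ∧ x = ind s

lemma dense {x y : C} (h : x < y) : ∃ q, IsQ q ∧ x < q ∧ q ≤ y := by
  classical
  obtain ⟨i, h1, h2⟩ := (lt_iff _ _).1 h
  have hy : y i = true := by
    revert h2
    cases x i <;> cases y i <;> decide
  refine ⟨ind ((Finset.range (i + 1)).filter fun j => y j = true), ⟨_, ⟨i, by simp [hy]⟩, rfl⟩, ?_, ?_⟩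
  · rw [lt_iff]
    refine ⟨i, fun j hj => ?_, ?_⟩
    · rw [h1 j hj]
      simp only [ind, Pi.toLex_apply, Finset.mem_filter, Finset.mem_range]
      cases y j <;> simp
      omega
    · simp only [ind, Pi.toLex_apply, Finset.mem_filter, Finset.mem_range]
      rw [hy] at h2 ⊢
      simpa using h2
  · refine le_of_pt fun j => ?_
    simp only [ind, Pi.toLex_apply, Finset.mem_filter, Finset.mem_range]
    cases y j <;> simp

lemma bit_of {n : ℕ} {s : Finset ℕ} {r : C} (h1 : lo n s ≤ r) (h2 : r ≤ up n s) : r (n + 1) = true := by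
  have key : ∀ i, i ≤ n + 1 → r i = lo n s i := by
    intro i
    induction i using Nat.strong_induction_on with
    | _ i ih =>
      intro hi
      have e : ∀ j ≤ n + 1, lo n s j = up n s j := by
        intro j hj
        simp only [lo, up, Pi.toLex_apply]
        split_ifs with h
        · rfl
        · simp; omega
      have a1 : lo n s i ≤ r i :=
        Pi.apply_le_of_toLex (x := ofLex (lo n s)) (y := ofLex r) h1 (fun j hj => (ih j hj (by omega)).symm)
      have a2 : r i ≤ up n s i :=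
        Pi.apply_le_of_toLex (x := ofLex r) (y := ofLex (up n s)) h2
          (fun j hj => (ih j hj (by omega)).trans (e j (by omega)))
      rw [← e i hi] at a2
      exact le_antisymm a2 a1
  rw [key _ le_rfl]
  simp [lo]

lemma of_bit {n : ℕ} {r : C} (h0 : r 0 = false) (h : r (n + 1) = true) :
    ∃ s, lo n s ≤ r ∧ r ≤ up n s := by
  classical
  refine ⟨(Finset.range (n + 1)).filter fun j => r j = true, le_of_pt fun i => ?_, le_of_pt fun i => ?_⟩
  · simp only [lo, Pi.toLex_apply, Finset.mem_filter, Finset.mem_range]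
    split_ifs with hi
    · cases r i <;> simp
    · by_cases e : i = n + 1
      · rw [e, h]; simp
      · simp [e]
  · simp only [up, Pi.toLex_apply, Finset.mem_filter, Finset.mem_range]
    split_ifs with hi
    · by_cases e : i = 0
      · rw [e, h0]; simp
      · cases r i <;> simp [hi, e]
    · simp

def en1 : ℕ → Finset ℕ × Finset ℕ := Classical.choose (exists_surjective_nat (Finset ℕ × Finset ℕ))
lemma en1_surj : Function.Surjective en1 := Classical.choose_spec (exists_surjective_nat (Finset ℕ × Finset ℕ))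
def en2 : ℕ → ℕ × Finset ℕ := Classical.choose (exists_surjective_nat (ℕ × Finset ℕ))
lemma en2_surj : Function.Surjective en2 := Classical.choose_spec (exists_surjective_nat (ℕ × Finset ℕ))

def bn (k : ℕ) : ℕ := (en2 k.unpair.1).1
def bs (k : ℕ) : Finset ℕ := (en2 k.unpair.1).2

def dat (k : ℕ) : ℕ → C
  | 0 => top
  | 1 => ind (en1 (bn k)).1
  | 2 => ind (en1 (bn k)).2
  | 3 => lo (bn k) (bs k)
  | _ => up (bn k) (bs k)

def Act (k : ℕ) : Prop := ∀ i, δ k ≤ dat k i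

open Classical in
def hh (j : ℕ) : C := if Act (j / 5) then dat (j / 5) (j % 5) else δ 0

def w (j : ℕ) : C := δ (j + 3)

lemma δ_le_hh (j : ℕ) : δ j ≤ hh j := by
  unfold hh
  split_ifs with h
  · exact le_trans (δ_anti.antitone (Nat.div_le_self _ _)) (h _)
  · exact δ_anti.antitone (Nat.zero_le _)

lemma w_lt_hh (j : ℕ) : w j < hh j := lt_of_lt_of_le (δ_lt (by omega)) (δ_le_hh j)

lemma ind_ne_top (s : Finset ℕ) : ind s ≠ top := by
  intro h
  obtain ⟨i, hi⟩ := Infinite.exists_notMem_finset s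
  have := congrFun h i
  simp [ind, top, hi] at this

lemma hh_top {j : ℕ} (h : hh j = top) : j % 5 = 0 ∧ Act (j / 5) := by
  unfold hh at h
  split_ifs at h with ha
  · refine ⟨?_, ha⟩
    by_contra h0
    generalize j % 5 = i at *
    match i with
    | 0 => exact h0 rfl
    | 1 => exact ind_ne_top _ h
    | 2 => exact ind_ne_top _ h
    | 3 => have := congrFun h 0; simp [dat, lo, top] at this
    | (i + 4) => have := congrFun h 0; simp [dat, up, top] at this
  · have := congrFun h 1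
    simp [δ, top] at this

lemma hh_act {k : ℕ} (h : Act k) (i : ℕ) (hi : i < 5) : hh (5 * k + i) = dat k i := by
  unfold hh
  have e1 : (5 * k + i) / 5 = k := by omega
  have e2 : (5 * k + i) % 5 = i := by omega
  rw [e1, e2, if_pos h]

lemma exists_act (n : ℕ) (s : Finset ℕ) (h1 : (en1 n).1.Nonempty) (h2 : (en1 n).2.Nonempty) :
    ∃ k, Act k ∧ bn k = n ∧ bs k = s := by
  obtain ⟨m, hm⟩ := en2_surj (n, s)
  obtain ⟨a, ha⟩ := h1
  obtain ⟨b, hb⟩ := h2
  have e1 : bn (Nat.pair m (a + b + n + 1)) = n := by simp [bn, hm]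
  have e2 : bs (Nat.pair m (a + b + n + 1)) = s := by simp [bs, hm]
  have hk := Nat.right_le_pair m (a + b + n + 1)
  refine ⟨Nat.pair m (a + b + n + 1), fun i => ?_, e1, e2⟩
  match i with
  | 0 => exact δ_le_of _ 0 rfl _ (Nat.zero_le _)
  | 1 => exact δ_le_of _ a (by simp [dat, e1, ind, ha]) _ (by omega)
  | 2 => exact δ_le_of _ b (by simp [dat, e1, ind, hb]) _ (by omega)
  | 3 => exact δ_le_of _ (n + 1) (by simp [dat, e1, lo]) _ (by omega)
  | (i + 4) => exact δ_le_of _ (n + 1) (by simp [dat, e1, up]) _ (by omega)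

inductive M : Type
  | c (x : C)
  | e (j : ℕ)

def M.le : M → M → Prop
  | .c x, .c y => x ≤ y
  | .c x, .e j => x ≤ w j
  | .e j, .c y => hh j ≤ y
  | .e j, .e k => j = k ∨ hh j ≤ w k

instance : PartialOrder M where
  le := M.le
  le_refl a := by cases a <;> simp [M.le]
  le_trans a b d := by
    cases a <;> cases b <;> cases d <;> simp only [M.le]
    · exact le_trans
    · exact le_trans
    · intro h1 h2; exact h1.trans ((w_lt_hh _).le.trans h2)
    · rintro h1 (rfl | h2)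
      · exact h1
      · exact h1.trans ((w_lt_hh _).le.trans h2)
    · exact le_trans
    · intro h1 h2; exact Or.inr (h1.trans h2)
    · rintro (rfl | h1) h2
      · exact h2
      · exact h1.trans ((w_lt_hh _).le.trans h2)
    · rintro (rfl | h1) (rfl | h2)
      · exact Or.inl rfl
      · exact Or.inr h2
      · exact Or.inr h1
      · exact Or.inr (h1.trans ((w_lt_hh _).le.trans h2))
  le_antisymm a b := by
    cases a <;> cases b <;> simp only [M.le]
    · intro h1 h2; rw [le_antisymm h1 h2]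
    · intro h1 h2; exact absurd (h2.trans h1) (not_le.2 (w_lt_hh _))
    · intro h1 h2; exact absurd (h1.trans h2) (not_le.2 (w_lt_hh _))
    · rintro (rfl | h1) h2
      · rfl
      · rcases h2 with rfl | h2
        · rfl
        · exact absurd (h1.trans ((w_lt_hh _).le.trans h2)) (not_le.2 (w_lt_hh _))

@[simp] lemma cc (x y : C) : M.c x ≤ M.c y ↔ x ≤ y := Iff.rfl
@[simp] lemma ce (x : C) (j : ℕ) : M.c x ≤ M.e j ↔ x ≤ w j := Iff.rfl
@[simp] lemma ec (j : ℕ) (y : C) : M.e j ≤ M.c y ↔ hh j ≤ y := Iff.rfl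
@[simp] lemma ee (j k : ℕ) : M.e j ≤ M.e k ↔ j = k ∨ hh j ≤ w k := Iff.rfl

instance : Infinite M := Infinite.of_injective M.e (fun _ _ h => M.e.inj h)

instance str : Language.order.Structure M := Language.orderStructure M
instance ord : Language.order.OrderedStructure M := ⟨fun _ => Iff.rfl⟩

/-! ### definability calculus -/

def Df {α : Type} (P : (α → M) → Prop) : Prop := (Set.univ : Set M).Definable Language.order {v | P v}

lemma Df.and {α : Type} {P Q : (α → M) → Prop} (h : Df P) (h' : Df Q) : Df fun v => P v ∧ Q v :=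
  Set.Definable.inter h h'
lemma Df.or {α : Type} {P Q : (α → M) → Prop} (h : Df P) (h' : Df Q) : Df fun v => P v ∨ Q v :=
  Set.Definable.union h h'
lemma Df.not {α : Type} {P : (α → M) → Prop} (h : Df P) : Df fun v => ¬ P v :=
  Set.Definable.compl h
lemma Df.congr {α : Type} {P Q : (α → M) → Prop} (h : Df P) (e : ∀ v, Q v ↔ P v) : Df Q := by
  have : Q = P := funext fun v => propext (e v)
  rwa [this]
lemma Df.imp {α : Type} {P Q : (α → M) → Prop} (h : Df P) (h' : Df Q) : Df fun v => P v → Q v :=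
  (h.not.or h').congr fun _ => imp_iff_not_or
lemma Df.iff {α : Type} {P Q : (α → M) → Prop} (h : Df P) (h' : Df Q) : Df fun v => P v ↔ Q v :=
  ((h.imp h').and (h'.imp h)).congr fun _ => iff_iff_implies_and_implies
lemma Df.ex {α : Type} {P : M → (α → M) → Prop}
    (h : Df fun v : Option α → M => P (v none) fun a => v (some a)) : Df fun v => ∃ x, P x v := by
  have h1 := Set.Definable.preimage_comp
    (fun o : Option α => (Option.elim o (Sum.inr ()) Sum.inl : α ⊕ Unit)) h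
  have h2 := Set.Definable.exists_of_finite h1
  refine Df.congr (P := fun v => ∃ u : Unit → M, P (u ()) v) h2 fun v => ?_
  exact ⟨fun ⟨x, hx⟩ => ⟨fun _ => x, hx⟩, fun ⟨u, hu⟩ => ⟨u (), hu⟩⟩
lemma Df.all {α : Type} {P : M → (α → M) → Prop}
    (h : Df fun v : Option α → M => P (v none) fun a => v (some a)) : Df fun v => ∀ x, P x v :=
  (Df.ex (P := fun x v => ¬ P x v) h.not).not.congr fun _ => by simp

def D1 (P : M → Prop) : Prop := ∀ (α : Type) (i : α), Df fun v : α → M => P (v i)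
def D2 (R : M → M → Prop) : Prop := ∀ (α : Type) (i j : α), Df fun v : α → M => R (v i) (v j)

lemma D2.congr {R S : M → M → Prop} (h : D2 R) (e : ∀ x y, S x y ↔ R x y) : D2 S :=
  fun α i j => (h α i j).congr fun _ => e _ _
lemma D1.congr {R S : M → Prop} (h : D1 R) (e : ∀ x, S x ↔ R x) : D1 S :=
  fun α i => (h α i).congr fun _ => e _

lemma d_le {α : Type} (i j : α) : Df fun v : α → M => v i ≤ v j := by
  apply Set.Definable.mono (A := ∅) _ (Set.empty_subset _)
  rw [Set.empty_definable_iff]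
  refine ⟨Term.le (Term.var (Sum.inl i)) (Term.var (Sum.inl j)), ?_⟩
  ext v
  simp [Formula.Realize]

lemma d_eq {α : Type} (i j : α) : Df fun v : α → M => v i = v j :=
  ((d_le i j).and (d_le j i)).congr fun _ => le_antisymm_iff

lemma d_const {α : Type} (i : α) (a : M) : Df fun v : α → M => v i = a :=
  Set.Definable.preimage_comp (fun _ : Fin 1 => i)
    (Set.Definable.singleton_of_mem Language.order (Set.mem_univ a))

def IsE (x : M) : Prop := ∃ j, x = .e j
def IsC (x : M) : Prop := ∃ y, x = .c y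

lemma dE : D1 IsE := by
  have : D1 fun x => ∃ y, ∃ z, y ≤ z ∧ ¬ z ≤ y ∧ ¬ x ≤ y ∧ ¬ y ≤ x ∧ ¬ x ≤ z ∧ ¬ z ≤ x := by
    intro α i
    refine Df.ex (Df.ex ?_)
    exact (d_le _ _).and ((d_le _ _).not.and ((d_le _ _).not.and ((d_le _ _).not.and
      ((d_le _ _).not.and (d_le _ _).not))))
  refine this.congr fun x => ?_
  constructor
  · rintro ⟨j, rfl⟩
    have a1 : δ (j + 3) < δ (j + 2) := δ_lt (by omega)
    have a2 : δ (j + 2) < δ (j + 1) := δ_lt (by omega)
    have a3 : δ (j + 1) < hh j := lt_of_lt_of_le (δ_lt (by omega)) (δ_le_hh j)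
    refine ⟨.c (δ (j + 2)), .c (δ (j + 1)), ?_⟩
    simp only [cc, ce, ec, not_le, w]
    exact ⟨a2.le, a2, a2.trans a3, a1, a3, a1.trans a2⟩
  · rintro ⟨y, z, h1, h2, h3, h4, h5, h6⟩
    cases x with
    | e j => exact ⟨j, rfl⟩
    | c x =>
      exfalso
      cases y with
      | c y => simp only [cc, not_le] at h3 h4; exact lt_asymm h3 h4
      | e j =>
        cases z with
        | c z => simp only [cc, not_le] at h5 h6; exact lt_asymm h5 h6
        | e k =>
          simp only [ce, ec, ee, not_le, not_or] at *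
          rcases h1 with h1 | h1
          · exact h2.1 h1.symm
          · exact lt_asymm (h4.trans_le h1) h5

lemma dC : D1 IsC := by
  have : D1 fun x => ¬ IsE x := fun α i => (dE α i).not
  refine this.congr fun x => ?_
  cases x <;> simp [IsC, IsE]

def Wr (x y : M) : Prop := ∃ j, x = .e j ∧ y = .c (w j)
def Hr (i : ℕ) (x y : M) : Prop := ∃ j, x = .e j ∧ y = .c (hh (j + i))
def Lt (x y : M) : Prop := ∃ j k, x = .e j ∧ y = .e k ∧ j < k
def Sc (x y : M) : Prop := ∃ j, x = .e j ∧ y = .e (j + 1)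

lemma dW : D2 Wr := by
  have : D2 fun x y => IsE x ∧ IsC y ∧ y ≤ x ∧ ∀ z, IsC z → z ≤ x → z ≤ y := by
    intro α i j
    exact (dE _ _).and ((dC _ _).and ((d_le _ _).and (Df.all ((dC _ _).imp ((d_le _ _).imp (d_le _ _))))))
  refine this.congr fun x y => ?_
  constructor
  · rintro ⟨j, rfl, rfl⟩
    refine ⟨⟨_, rfl⟩, ⟨_, rfl⟩, by simp, ?_⟩
    rintro _ ⟨z, rfl⟩ h
    exact h
  · rintro ⟨⟨j, rfl⟩, ⟨y, rfl⟩, h1, h2⟩
    exact ⟨j, rfl, by rw [le_antisymm ((ce _ _).1 h1) (h2 (.c (w j)) ⟨_, rfl⟩ (by simp))]⟩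

lemma dH0 : D2 (Hr 0) := by
  have : D2 fun x y => IsE x ∧ IsC y ∧ x ≤ y ∧ ∀ z, IsC z → x ≤ z → y ≤ z := by
    intro α i j
    exact (dE _ _).and ((dC _ _).and ((d_le _ _).and (Df.all ((dC _ _).imp ((d_le _ _).imp (d_le _ _))))))
  refine this.congr fun x y => ?_
  constructor
  · rintro ⟨j, rfl, rfl⟩
    refine ⟨⟨_, rfl⟩, ⟨_, rfl⟩, by simp, ?_⟩
    rintro _ ⟨z, rfl⟩ h
    exact h
  · rintro ⟨⟨j, rfl⟩, ⟨y, rfl⟩, h1, h2⟩
    exact ⟨j, rfl, by rw [le_antisymm ((cc _ _).1 (h2 (.c (hh j)) ⟨_, rfl⟩ (by simp))) ((ec _ _).1 h1)]; rfl⟩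

lemma dLt : D2 Lt := by
  have : D2 fun x y => ∃ a, ∃ b, Wr x a ∧ Wr y b ∧ ¬ a ≤ b := by
    intro α i j
    exact Df.ex (Df.ex ((dW _ _ _).and ((dW _ _ _).and (d_le _ _).not)))
  refine this.congr fun x y => ?_
  constructor
  · rintro ⟨j, k, rfl, rfl, h⟩
    refine ⟨_, _, ⟨j, rfl, rfl⟩, ⟨k, rfl, rfl⟩, ?_⟩
    simp only [cc, not_le, w]
    exact δ_lt (by omega)
  · rintro ⟨_, _, ⟨j, rfl, rfl⟩, ⟨k, rfl, rfl⟩, h⟩
    refine ⟨j, k, rfl, rfl, ?_⟩
    simp only [cc, not_le, w] at h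
    have := δ_anti.lt_iff_gt.1 h
    omega

lemma dSc : D2 Sc := by
  have : D2 fun x y => Lt x y ∧ ¬ ∃ z, Lt x z ∧ Lt z y := by
    intro α i j
    exact (dLt _ _ _).and (Df.ex ((dLt _ _ _).and (dLt _ _ _))).not
  refine this.congr fun x y => ?_
  constructor
  · rintro ⟨j, rfl, rfl⟩
    refine ⟨⟨_, _, rfl, rfl, by omega⟩, ?_⟩
    rintro ⟨_, ⟨a, b, ha, rfl, h1⟩, ⟨b', d, hb, hd, h2⟩⟩
    simp only [M.e.injEq] at ha hb hd
    omega
  · rintro ⟨⟨j, k, rfl, rfl, h⟩, h2⟩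
    refine ⟨j, rfl, ?_⟩
    by_contra hne
    simp only [M.e.injEq] at hne
    exact h2 ⟨.e (j + 1), ⟨_, _, rfl, rfl, by omega⟩, ⟨_, _, rfl, rfl, by omega⟩⟩

lemma dH (i : ℕ) : D2 (Hr i) := by
  induction i with
  | zero => exact dH0
  | succ i ih =>
    have : D2 fun x y => ∃ z, Sc x z ∧ Hr i z y := by
      intro α a b
      exact Df.ex ((dSc _ _ _).and (ih _ _ _))
    refine this.congr fun x y => ?_
    constructor
    · rintro ⟨j, rfl, rfl⟩
      exact ⟨_, ⟨j, rfl, rfl⟩, ⟨j + 1, rfl, by congr 2; omega⟩⟩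
    · rintro ⟨_, ⟨j, rfl, rfl⟩, ⟨k, hk, rfl⟩⟩
      simp only [M.e.injEq] at hk
      exact ⟨j, rfl, by congr 2; omega⟩

def InQ (x : M) : Prop := ∃ q, IsQ q ∧ x = .c q

def AllRel (X Y : M → Prop) : Prop := ∀ S : M → M → Prop, D2 fun x y => X x ∧ Y y ∧ S x y

lemma allQ : AllRel InQ InQ := by
  classical
  intro S
  let r : C := toLex fun i => match i with
    | 0 => false
    | n + 1 => decide (S (.c (ind (en1 n).1)) (.c (ind (en1 n).2)))
  have : D2 fun a b => ∃ x, (∃ t, Hr 0 x t ∧ t = .c top) ∧ Hr 1 x a ∧ Hr 2 x b ∧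
      ∃ l, ∃ u, ∃ p, Hr 3 x l ∧ Hr 4 x u ∧ p = .c r ∧ l ≤ p ∧ p ≤ u := by
    intro α i j
    exact Df.ex ((Df.ex ((dH 0 _ _ _).and (d_const _ _))).and ((dH 1 _ _ _).and ((dH 2 _ _ _).and
      (Df.ex (Df.ex (Df.ex ((dH 3 _ _ _).and ((dH 4 _ _ _).and ((d_const _ _).and
        ((d_le _ _).and (d_le _ _)))))))))))
  refine this.congr fun a b => ?_
  constructor
  · rintro ⟨⟨_, ⟨s1, h1, rfl⟩, rfl⟩, ⟨_, ⟨s2, h2, rfl⟩, rfl⟩, hS⟩
    obtain ⟨n, hn⟩ := en1_surj (s1, s2)
    obtain ⟨s, hl, hu⟩ := of_bit (n := n) (r := r) rfl (by simp [r, hn, hS])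
    obtain ⟨k, hk, e1, e2⟩ := exists_act n s (by rwa [hn]) (by rwa [hn])
    refine ⟨.e (5 * k), ⟨_, ⟨_, rfl, rfl⟩, ?_⟩, ⟨_, rfl, ?_⟩, ⟨_, rfl, ?_⟩, _, _, _, ⟨_, rfl, rfl⟩, ⟨_, rfl, rfl⟩,
      rfl, ?_, ?_⟩
    · rw [hh_act hk 0 (by omega)]; rfl
    · rw [hh_act hk 1 (by omega)]; simp [dat, e1, hn]
    · rw [hh_act hk 2 (by omega)]; simp [dat, e1, hn]
    · rw [hh_act hk 3 (by omega)]; simpa [dat, e1, e2] using hl
    · rw [hh_act hk 4 (by omega)]; simpa [dat, e1, e2] using hu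
  · rintro ⟨_, ⟨_, ⟨j, rfl, rfl⟩, ht⟩, ⟨j1, e1, rfl⟩, ⟨j2, e2, rfl⟩, _, _, _, ⟨j3, e3, rfl⟩, ⟨j4, e4, rfl⟩,
      rfl, hl, hu⟩
    simp only [M.e.injEq] at e1 e2 e3 e4
    subst e1 e2 e3 e4
    obtain ⟨h5, hk⟩ := hh_top (M.c.inj ht)
    obtain ⟨k, rfl⟩ : ∃ k, j = 5 * k := ⟨j / 5, by omega⟩
    have e : (5 * k + 0) / 5 = k := by omega
    rw [e] at hk
    rw [hh_act hk _ (by omega)] at hl hu
    rw [hh_act hk _ (by omega), hh_act hk _ (by omega)]
    have hb := bit_of ((cc _ _).1 hl) ((cc _ _).1 hu)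
    have ne : ∀ s : Finset ℕ, δ k ≤ ind s → s.Nonempty := by
      intro s hs
      rw [Finset.nonempty_iff_ne_empty]
      rintro rfl
      have : ind ∅ ≤ δ (k + 1) := le_of_pt fun i => by simp [ind]
      exact absurd (hs.trans this) (not_le.2 (δ_lt (by omega)))
    refine ⟨⟨_, ⟨_, ne _ (hk 1), rfl⟩, rfl⟩, ⟨_, ⟨_, ne _ (hk 2), rfl⟩, rfl⟩, ?_⟩
    simpa [r, dat] using hb

lemma AllRel.symm {X Y : M → Prop} (h : AllRel X Y) : AllRel Y X := fun S α i j =>
  (h (fun x y => S y x) α j i).congr fun _ => by tauto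

lemma AllRel.union {X X' Y : M → Prop} (h : AllRel X Y) (h' : AllRel X' Y) :
    AllRel (fun x => X x ∨ X' x) Y := fun S α i j =>
  ((h S α i j).or (h' S α i j)).congr fun _ => by tauto

lemma AllRel.toE {Y : M → Prop} (h : AllRel InQ Y) : AllRel IsE Y := by
  intro S
  have h1 := h fun a y => ∃ x, Wr x a ∧ S x y
  have : D2 fun x y => ∃ a, Wr x a ∧ (InQ a ∧ Y y ∧ ∃ x, Wr x a ∧ S x y) := by
    intro α i j
    exact Df.ex ((dW _ _ _).and (h1 _ none (some j)))
  refine this.congr fun x y => ?_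
  constructor
  · rintro ⟨⟨j, rfl⟩, hy, hS⟩
    refine ⟨_, ⟨j, rfl, rfl⟩, ⟨_, ⟨{j + 3}, by simp, ?_⟩, rfl⟩, hy, _, ⟨j, rfl, rfl⟩, hS⟩
    simp [w, δ, ind]
  · rintro ⟨_, ⟨j, rfl, rfl⟩, -, hy, _, ⟨k, rfl, hk⟩, hS⟩
    have : j + 3 = k + 3 := δ_anti.injective (M.c.inj hk)
    have e : j = k := by omega
    subst e
    exact ⟨⟨_, rfl⟩, hy, hS⟩

def InT (x : M) : Prop := InQ x ∨ IsE x

lemma allT : AllRel InT InT := by
  have h1 : AllRel InT InQ := allQ.union allQ.toE
  exact h1.symm.union h1.symm.toE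

lemma sep {b b' : M} (h : ∀ q, InT q → (q ≤ b ↔ q ≤ b')) : b = b' := by
  have key : ∀ (j : ℕ) (y : C), (∀ q, InT q → (q ≤ M.e j ↔ q ≤ M.c y)) → False := by
    intro j y h
    have h1 : hh j ≤ y := (h (.e j) (Or.inr ⟨_, rfl⟩)).1 le_rfl
    obtain ⟨q, hq, h2, h3⟩ := dense (w_lt_hh j)
    exact absurd ((h (.c q) (Or.inl ⟨_, hq, rfl⟩)).2 (h3.trans h1)) (not_le.2 h2)
  cases b with
  | c x =>
    cases b' with
    | c y =>
      rcases lt_trichotomy x y with h1 | h1 | h1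
      · obtain ⟨q, hq, h2, h3⟩ := dense h1
        exact absurd ((h (.c q) (Or.inl ⟨_, hq, rfl⟩)).2 h3) (not_le.2 h2)
      · rw [h1]
      · obtain ⟨q, hq, h2, h3⟩ := dense h1
        exact absurd ((h (.c q) (Or.inl ⟨_, hq, rfl⟩)).1 h3) (not_le.2 h2)
    | e j => exact (key j x fun q hq => (h q hq).symm).elim
  | e j =>
    cases b' with
    | c y => exact (key j y h).elim
    | e k => exact le_antisymm ((h _ (Or.inr ⟨_, rfl⟩)).1 le_rfl) ((h _ (Or.inr ⟨_, rfl⟩)).2 le_rfl)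

theorem main (f : M → M) (hf : Monotone f) : D2 fun a b => f a = b := by
  let R1 : M → M → Prop := fun q t => InT q ∧ InT t ∧ q ≤ f t
  let R2 : M → M → Prop := fun q t => InT q ∧ InT t ∧ (InQ t ∧ ¬ q ≤ f t)
  let R3 : M → M → Prop := fun q t => InT q ∧ InT t ∧
    ∃ a0, IsC a0 ∧ q ≤ f a0 ∧ ∀ t, InQ t → t ≤ a0 → ¬ q ≤ f t
  let R4 : M → M → Prop := fun q t => InT q ∧ InT t ∧ True
  have d1 : D2 R1 := allT _
  have d2 : D2 R2 := allT fun q t => InQ t ∧ ¬ q ≤ f t
  have d3 : D2 R3 := allT fun q _ => ∃ a0, IsC a0 ∧ q ≤ f a0 ∧ ∀ t, InQ t → t ≤ a0 → ¬ q ≤ f t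
  have d4 : D2 R4 := allT fun _ _ => True
  have dU : D2 fun q a => (∃ t, t ≤ a ∧ R1 q t) ∨ (IsC a ∧ R3 q q ∧ ∀ t, R2 q t → t ≤ a) := by
    intro α i j
    exact (Df.ex ((d_le _ _).and (d1 _ (some i) none))).or
      ((dC _ _).and ((d3 _ i i).and (Df.all ((d2 _ (some i) none).imp (d_le _ _)))))
  have hU : ∀ q a, InT q →
      (((∃ t, t ≤ a ∧ R1 q t) ∨ (IsC a ∧ R3 q q ∧ ∀ t, R2 q t → t ≤ a)) ↔ q ≤ f a) := by
    intro q a hq
    constructor
    · rintro (⟨t, h1, -, -, h2⟩ | ⟨⟨x, rfl⟩, ⟨-, -, _, ⟨y, rfl⟩, h1, h2⟩, h3⟩)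
      · exact h2.trans (hf h1)
      · refine h1.trans (hf ?_)
        by_contra hlt
        obtain ⟨t, ht, h4, h5⟩ := dense (not_le.1 (fun h => hlt ((cc _ _).2 h)))
        have hQ : InQ (.c t) := ⟨_, ht, rfl⟩
        exact absurd (h3 _ ⟨hq, Or.inl hQ, hQ, h2 _ hQ h5⟩) (not_le.2 h4)
    · intro h
      cases a with
      | e j => exact Or.inl ⟨_, le_rfl, hq, Or.inr ⟨_, rfl⟩, h⟩
      | c x =>
        by_cases hex : ∃ t, InQ t ∧ t ≤ .c x ∧ q ≤ f t
        · obtain ⟨t, h1, h2, h3⟩ := hex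
          exact Or.inl ⟨t, h2, hq, Or.inl h1, h3⟩
        · refine Or.inr ⟨⟨_, rfl⟩, ⟨hq, hq, _, ⟨_, rfl⟩, h, fun t h1 h2 h3 => hex ⟨t, h1, h2, h3⟩⟩, ?_⟩
          rintro _ ⟨-, -, ⟨t, -, rfl⟩, h2⟩
          rcases le_total t x with h3 | h3
          · exact h3
          · exact absurd (h.trans (hf ((cc _ _).2 h3))) h2
  have : D2 fun a b => ∀ q, R4 q q → (q ≤ b ↔
      ((∃ t, t ≤ a ∧ R1 q t) ∨ (IsC a ∧ R3 q q ∧ ∀ t, R2 q t → t ≤ a))) := by
    intro α i j
    exact Df.all ((d4 _ none none).imp ((d_le _ _).iff (dU _ none (some i))))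
  refine this.congr fun a b => ?_
  constructor
  · rintro rfl q ⟨hq, -⟩
    exact (hU q a hq).symm
  · intro h
    refine sep fun q hq => ?_
    rw [h q ⟨hq, hq, trivial⟩, hU q a hq]

end

end Pool.Agent.Lib.Helper21.DefMono
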