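import Mathlib

set_option autoImplicit false

namespace Pool.Agent.Lib.Helper21.Djr

open Set MeasureTheory Filter Topology

/-- `D w n` is the moment `Δ_{n+1}`. -/
noncomputable def D (w : ℝ → ℝ) (n : ℕ) : ℝ := (n + 1) * ∫ t in Ioi (0 : ℝ), w t * t ^ n

/-- `L w r` is the integral of `w t / t` over `(r, ∞)`. -/
noncomputable def L (w : ℝ → ℝ) (r : ℝ) : ℝ := ∫ t in Ioi r, w t / t

/-- `Ik w n r` is `I_{n+1}(r)`. -/
noncomputable def Ik (w : ℝ → ℝ) (n : ℕ) (r : ℝ) : ℝ := ∫ t in Ioc 0 r, w t * t ^ n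

/-- `Jk w n r` is `J_{n+1}(r)`. -/
noncomputable def Jk (w : ℝ → ℝ) (n : ℕ) (r : ℝ) : ℝ := ∫ t in Ioi r, w t / t ^ (n + 2)

/-- The term of index `k = n + 1` of the series in `W`. -/
noncomputable def trm (w : ℝ → ℝ) (e : ℤ) (a z : ℂ) (n : ℕ) : ℂ :=
  (a⁻¹ ^ (n + 1) * Ik w n ‖a‖ - (starRingEnd ℂ a) ^ (e * (n + 1)) * Jk w n ‖a‖) * z ^ (n + 1) /
    D w n

/-- The factor `A(z; a) = (1 - z / a) exp (- W(z; a))`. -/
noncomputable def A (w : ℝ → ℝ) (e : ℤ) (a z : ℂ) : ℂ :=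
  (1 - z / a) * Complex.exp (-(L w ‖a‖ - ∑' n, trm w e a z n))

structure H (w : ℝ → ℝ) : Prop where
  c : ContinuousOn w (Ici 0)
  p : ∀ t, 0 ≤ t → 0 < w t
  a : AntitoneOn w (Ici 0)
  i : ∀ n : ℕ, IntegrableOn (fun t => w t * t ^ n) (Ioi 0)

variable {w : ℝ → ℝ} {r : ℝ}

lemma H.int (h : H w) (r0 : 0 < r) (m : ℕ) : IntegrableOn (fun t => w t / t ^ m) (Ioi r) := by
  refine Integrable.mono' (((h.i 0).mono_set (Ioi_subset_Ioi r0.le)).div_const (r ^ m))
    (ContinuousOn.aestronglyMeasurable ((h.c.mono fun t ht => (r0.trans ht).le).div (by fun_prop)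
      fun t ht => pow_ne_zero _ (r0.trans ht).ne') measurableSet_Ioi)
    ((ae_restrict_iff' measurableSet_Ioi).2 (.of_forall fun t ht => ?_))
  have t0 : 0 < t := r0.trans ht
  have := h.p t t0.le
  rw [Real.norm_of_nonneg (by positivity), pow_zero, mul_one]
  gcongr
  exact le_of_lt ht

lemma H.intL (h : H w) (r0 : 0 < r) : IntegrableOn (fun t => w t / t) (Ioi r) := by
  simpa using h.int r0 1

lemma H.nn (h : H w) (n : ℕ) {s : Set ℝ} (ms : MeasurableSet s) (hs : s ⊆ Ioi 0) :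
    0 ≤ᵐ[volume.restrict s] fun t => w t * t ^ n :=
  (ae_restrict_iff' ms).2 (.of_forall fun t ht =>
    mul_nonneg (h.p t (le_of_lt (hs ht))).le (pow_nonneg (le_of_lt (hs ht)) n))

lemma H.nL (h : H w) (r0 : 0 < r) : 0 ≤ᵐ[volume.restrict (Ioi r)] fun t => w t / t :=
  (ae_restrict_iff' measurableSet_Ioi).2 (.of_forall fun t ht =>
    div_nonneg (h.p t (r0.trans ht).le).le (r0.trans ht).le)

lemma H.Dlow (h : H w) (r0 : 0 < r) (n : ℕ) : w r * r ^ (n + 1) ≤ D w n := by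
  have h1 := setIntegral_mono_set (h.i n) (h.nn n measurableSet_Ioi le_rfl)
    (Ioc_subset_Ioi_self (b := 0) (a := r)).eventuallyLE
  have h2 : ∫ t in Ioc 0 r, w r * t ^ n ≤ ∫ t in Ioc 0 r, w t * t ^ n :=
    setIntegral_mono_on ((Continuous.integrableOn_Icc (by fun_prop)).mono_set Ioc_subset_Icc_self)
      ((h.i n).mono_set Ioc_subset_Ioi_self) measurableSet_Ioc fun t ht =>
      mul_le_mul_of_nonneg_right (h.a ht.1.le r0.le ht.2) (pow_nonneg ht.1.le n)
  rw [← intervalIntegral.integral_of_le r0.le, intervalIntegral.integral_const_mul,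
    integral_pow, zero_pow n.succ_ne_zero, sub_zero, ← mul_div_assoc,
    div_le_iff₀' (by positivity)] at h2
  exact h2.trans (mul_le_mul_of_nonneg_left h1 (by positivity))

lemma H.D0 (h : H w) (n : ℕ) : 0 < D w n :=
  lt_of_lt_of_le (by simpa using h.p 1 zero_le_one) (h.Dlow one_pos n)

lemma H.I0 (h : H w) (n : ℕ) : 0 ≤ Ik w n r :=
  integral_nonneg_of_ae (h.nn n measurableSet_Ioc Ioc_subset_Ioi_self)

lemma H.Iup (h : H w) (r0 : 0 < r) (n : ℕ) : Ik w n r ≤ w 0 * r ^ (n + 1) := by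
  have h2 : Ik w n r ≤ ∫ _ in Ioc 0 r, w 0 * r ^ n :=
    setIntegral_mono_on ((h.i n).mono_set Ioc_subset_Ioi_self) (integrableOn_const (by simp)) measurableSet_Ioc
      fun t ht => mul_le_mul (h.a self_mem_Ici ht.1.le ht.1.le) (pow_le_pow_left₀ ht.1.le ht.2 n)
        (pow_nonneg ht.1.le n) (h.p 0 le_rfl).le
  refine h2.trans_eq ?_
  simp [r0.le]; ring

lemma H.J0 (h : H w) (r0 : 0 < r) (n : ℕ) : 0 ≤ Jk w n r :=
  setIntegral_nonneg measurableSet_Ioi fun t ht =>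
    div_nonneg (h.p t (r0.trans ht).le).le (pow_nonneg (r0.trans ht).le _)

lemma H.Jup (h : H w) (r0 : 0 < r) (n : ℕ) : Jk w n r ≤ L w r / r ^ (n + 1) := by
  rw [L, ← integral_div]
  refine setIntegral_mono_on (h.int r0 _) ((h.intL r0).div_const _) measurableSet_Ioi fun t ht => ?_
  have t0 : 0 < t := r0.trans ht
  have := h.p t t0.le
  rw [div_div, pow_succ' t (n + 1)]
  gcongr
  exact le_of_lt ht

lemma H.Llow (h : H w) (r0 : 0 < r) {s : ℝ} (rs : r ≤ s) : w s * ((s - r) / s) ≤ L w r := by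
  have s0 : 0 < s := r0.trans_le rs
  have h1 := setIntegral_mono_set (h.intL r0) (h.nL r0)
    (Ioc_subset_Ioi_self (b := r) (a := s)).eventuallyLE
  have h2 : ∫ _ in Ioc r s, w s / s ≤ ∫ t in Ioc r s, w t / t :=
    setIntegral_mono_on (by simp) ((h.intL r0).mono_set Ioc_subset_Ioi_self) measurableSet_Ioc
      fun t ht => div_le_div₀ (h.p t (r0.trans ht.1).le).le (h.a (r0.trans ht.1).le s0.le ht.2)
        (r0.trans ht.1) ht.2
  refine le_trans (le_of_eq ?_) (h2.trans h1)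
  simp [rs]; ring

lemma H.L0 (h : H w) (r0 : 0 < r) : 0 < L w r :=
  lt_of_lt_of_le (mul_pos (h.p _ (by linarith)) (div_pos (by linarith) (by linarith)))
    (h.Llow r0 (show r ≤ r + 1 by linarith))

lemma H.lc (h : H w) {T : ℝ} (T0 : 0 ≤ T) (d : DifferentiableOn ℝ w (Ioi T))
    (m : AntitoneOn (fun t => t * deriv w t / w t) (Ioi T)) {l x y : ℝ} (l1 : 1 ≤ l) (hx : T < x)
    (xy : x ≤ y) : w (l * y) ≤ w (l * x) / w x * w y := by
  have lm : ∀ t ∈ Ioi T, l * t ∈ Ioi T := fun t ht =>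
    lt_of_lt_of_le ht (le_mul_of_one_le_left (T0.trans (le_of_lt ht)) l1)
  have p : ∀ t ∈ Ioi T, 0 < w t := fun t ht => h.p t (T0.trans (le_of_lt ht))
  have dd : ∀ t ∈ Ioi T, HasDerivAt (fun t => Real.log (w (l * t)) - Real.log (w t))
      (deriv w (l * t) * (l * 1) / w (l * t) - deriv w t / w t) t := fun t ht =>
    (((d.differentiableAt (Ioi_mem_nhds (lm t ht))).hasDerivAt.comp t
      ((hasDerivAt_id t).const_mul l)).log (p _ (lm t ht)).ne').sub
      ((d.differentiableAt (Ioi_mem_nhds ht)).hasDerivAt.log (p t ht).ne')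
  have := antitoneOn_of_deriv_nonpos (convex_Ioi T)
    (fun t ht => (dd t ht).continuousAt.continuousWithinAt)
    (fun t ht => (dd t (interior_subset ht)).differentiableAt.differentiableWithinAt)
    (fun t ht => by
      have ht := interior_subset ht
      have t0 : 0 < t := T0.trans_lt ht
      have := m ht (lm t ht) (le_mul_of_one_le_left t0.le l1)
      rw [(dd t ht).deriv, sub_nonpos, ← mul_le_mul_iff_right₀ t0]
      refine le_trans (le_of_eq ?_) (this.trans_eq ?_) <;> ring) hx (hx.trans_le xy) xy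
  have hy : T < y := hx.trans_le xy
  simp only at this
  rwa [← Real.log_div (p _ (lm y hy)).ne' (p y hy).ne', ← Real.log_div (p _ (lm x hx)).ne' (p x hx).ne',
    Real.log_le_log_iff (div_pos (p _ (lm y hy)) (p y hy)) (div_pos (p _ (lm x hx)) (p x hx)),
    div_le_iff₀ (p y hy)] at this

lemma H.shift (h : H w) {T : ℝ} (T0 : 0 ≤ T) (d : DifferentiableOn ℝ w (Ioi T))
    (m : AntitoneOn (fun t => t * deriv w t / w t) (Ioi T)) {l x : ℝ} (l1 : 1 ≤ l) (hx : T < x)
    (n : ℕ) : ∫ t in Ioi (l * x), w t * t ^ n ≤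
      l ^ (n + 1) * (w (l * x) / w x) * ∫ t in Ioi x, w t * t ^ n := by
  have l0 : 0 < l := by linarith
  have x0 : 0 < x := T0.trans_lt hx
  rw [← integral_comp_mul_left_Ioi' _ x l0, smul_eq_mul, ← integral_const_mul, ← integral_const_mul]
  refine setIntegral_mono_on (((integrableOn_Ioi_comp_mul_left_iff (fun t => w t * t ^ n) x l0).2
    ((h.i n).mono_set (Ioi_subset_Ioi (by positivity)))).const_mul _)
    (((h.i n).mono_set (Ioi_subset_Ioi x0.le)).const_mul _) measurableSet_Ioi fun t ht => ?_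
  have t0 : 0 < t := x0.trans ht
  have := mul_le_mul_of_nonneg_right (h.lc T0 d m l1 hx (le_of_lt ht))
    (show 0 ≤ l * (l * t) ^ n by positivity)
  refine le_trans (le_of_eq ?_) (this.trans_eq ?_) <;> ring

lemma H.key (h : H w) {T : ℝ} (T0 : 0 ≤ T) (d : DifferentiableOn ℝ w (Ioi T))
    (m : AntitoneOn (fun t => t * deriv w t / w t) (Ioi T)) {c : ℝ} (hc : T < c) (cr : c ≤ r)
    (n : ℕ) : ∫ t in Ioi r, w t * t ^ n ≤ 12 * (r / c) ^ (n + 1) * L w r / w c * D w n := by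
  have c0 : 0 < c := T0.trans_lt hc
  have r0 : 0 < r := c0.trans_le cr
  have wc := h.p c c0.le
  have wr := h.p r r0.le
  have L0 := h.L0 r0
  have D0 := h.D0 n
  set l : ℝ := 1 + 1 / (n + 1) with hl
  have l1 : 1 ≤ l := le_add_of_nonneg_right (by positivity)
  have l3 : l ^ (n + 1) ≤ 3 := by
    have := Real.one_add_inv_pow_le_exp (n := n + 1)
    push_cast at this
    rw [hl, one_div]
    linarith [Real.exp_one_lt_d9]
  have rl : r ≤ l * r := le_mul_of_one_le_left r0.le l1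
  rcases le_or_gt (w (l * r)) (w r / 6) with k | k
  · have s := h.shift T0 d m l1 (hc.trans_le cr) n
    have M0 : 0 ≤ ∫ t in Ioi r, w t * t ^ n :=
      integral_nonneg_of_ae (h.nn n measurableSet_Ioi (Ioi_subset_Ioi r0.le))
    have e : ∫ t in Ioi r, w t * t ^ n =
        (∫ t in Ioc r (l * r), w t * t ^ n) + ∫ t in Ioi (l * r), w t * t ^ n := by
      rw [← setIntegral_union (Ioc_disjoint_Ioi le_rfl) measurableSet_Ioi
        ((h.i n).mono_set fun t ht => r0.trans ht.1)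
        ((h.i n).mono_set (Ioi_subset_Ioi (by positivity))), Ioc_union_Ioi_eq_Ioi rl]
    have f1 : ∫ t in Ioc r (l * r), w t * t ^ n ≤
        ∫ t in Ioc r (l * r), (l * r) ^ (n + 1) * (w t / t) :=
      setIntegral_mono_on ((h.i n).mono_set fun t ht => r0.trans ht.1)
        (((h.intL r0).mono_set Ioc_subset_Ioi_self).const_mul _) measurableSet_Ioc fun t ht => by
        have t0 : 0 < t := r0.trans ht.1
        have := mul_le_mul_of_nonneg_right (pow_le_pow_left₀ t0.le ht.2 (n + 1))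
          (div_pos (h.p t t0.le) t0).le
        refine le_trans (le_of_eq ?_) this
        field_simp
        ring
    rw [integral_const_mul] at f1
    have f2 := mul_le_mul_of_nonneg_left (setIntegral_mono_set (h.intL r0) (h.nL r0)
      (Ioc_subset_Ioi_self (b := r) (a := l * r)).eventuallyLE)
      (show 0 ≤ (l * r) ^ (n + 1) by positivity)
    have f3 : (l * r) ^ (n + 1) * L w r ≤ 3 * r ^ (n + 1) * L w r := by rw [mul_pow]; gcongr
    have f4 : l ^ (n + 1) * (w (l * r) / w r) ≤ 3 * (1 / 6) :=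
      mul_le_mul l3 (by rw [div_le_iff₀ wr]; linarith) (div_pos (h.p _ (by positivity)) wr).le
        (by norm_num)
    have f5 := mul_le_mul_of_nonneg_right f4 M0
    have f6 : 12 * (r / c) ^ (n + 1) * L w r / w c * (w c * c ^ (n + 1)) ≤
        12 * (r / c) ^ (n + 1) * L w r / w c * D w n :=
      mul_le_mul_of_nonneg_left (h.Dlow c0 n) (by positivity)
    have f7 : 12 * (r / c) ^ (n + 1) * L w r / w c * (w c * c ^ (n + 1)) =
        12 * (r ^ (n + 1) * L w r) := by rw [div_pow]; field_simp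
    have f8 : 0 < r ^ (n + 1) * L w r := by positivity
    unfold L at *
    linarith
  · have s := h.shift T0 d m ((one_le_div c0).2 cr) hc n
    rw [div_mul_cancel₀ _ c0.ne'] at s
    have f1 := h.Llow r0 rl
    rw [show (l * r - r) / (l * r) = 1 / (n + 2) by rw [hl]; field_simp; ring] at f1
    have f2 := setIntegral_mono_set (h.i n) (h.nn n measurableSet_Ioi le_rfl)
      (Ioi_subset_Ioi c0.le).eventuallyLE
    have f3 : w r ≤ 12 * (n + 1) * L w r := by
      rw [mul_one_div, div_le_iff₀ (by positivity)] at f1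
      nlinarith [n.cast_nonneg (α := ℝ)]
    refine s.trans ((mul_le_mul_of_nonneg_left f2 (by positivity)).trans ?_)
    have M0 : 0 ≤ ∫ t in Ioi 0, w t * t ^ n :=
      integral_nonneg_of_ae (h.nn n measurableSet_Ioi le_rfl)
    have := mul_le_mul_of_nonneg_right f3 (show 0 ≤ (r / c) ^ (n + 1) / w c *
      ∫ t in Ioi 0, w t * t ^ n by positivity)
    unfold D
    refine le_trans (le_of_eq ?_) (this.trans_eq ?_) <;> ring

open Complex in
lemma H.Jb (h : H w) {e : ℤ} (he : e = 1 ∨ e = -1) {a : ℂ} (a0 : a ≠ 0) {ρ : ℝ} (p1 : 1 ≤ ρ)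
    (p2 : 1 ≤ ρ * ‖a‖ ^ 2) (n : ℕ) :
    ‖(starRingEnd ℂ a) ^ (e * (n + 1)) * Jk w n ‖a‖‖ ≤ ρ ^ (n + 1) * L w ‖a‖ := by
  have r0 := norm_pos_iff.2 a0
  have L0 := h.L0 r0
  rw [norm_mul, norm_zpow, norm_conj, norm_real, Real.norm_of_nonneg (h.J0 r0 n)]
  refine (mul_le_mul_of_nonneg_left (h.Jup r0 n) (by positivity)).trans ?_
  rw [← mul_div_assoc, mul_div_right_comm, mul_le_mul_iff_left₀ L0, div_le_iff₀ (by positivity),
    ← mul_pow]
  rcases he with rfl | rfl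
  · rw [one_mul, ← Nat.cast_succ, zpow_natCast]
    exact pow_le_pow_left₀ r0.le (le_mul_of_one_le_left r0.le p1) _
  · rw [neg_one_mul, ← Nat.cast_succ, zpow_neg, zpow_natCast, ← inv_pow]
    refine pow_le_pow_left₀ (by positivity) ?_ _
    rw [inv_le_iff_one_le_mul₀ r0]
    nlinarith

open Complex in
lemma H.bd (h : H w) {e : ℤ} (he : e = 1 ∨ e = -1) {a : ℂ} (a0 : a ≠ 0) {R : ℝ} (R0 : 0 < R) :
    ∃ C : ℝ, ∀ n z, ‖z‖ ≤ R → ‖trm w e a z n‖ ≤ C * (1 / 2) ^ n := by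
  have r0 := norm_pos_iff.2 a0
  have L0 := h.L0 r0
  have w0 := h.p 0 le_rfl
  set ρ : ℝ := 1 + 1 / ‖a‖ ^ 2 with hρ
  have p1 : 1 ≤ ρ := le_add_of_nonneg_right (by positivity)
  have p2 : 1 ≤ ρ * ‖a‖ ^ 2 := by
    rw [hρ, add_mul, one_div_mul_cancel (by positivity)]; nlinarith
  have v0 : 0 < 2 * (ρ * R) := by positivity
  have wv := h.p _ v0.le
  refine ⟨(w 0 + L w ‖a‖) / w (2 * (ρ * R)) / 2, fun n z hz => ?_⟩
  have D0 := h.D0 n
  have k1 : ‖a⁻¹ ^ (n + 1) * Ik w n ‖a‖‖ ≤ ρ ^ (n + 1) * w 0 := by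
    rw [norm_mul, norm_pow, norm_inv, norm_real, Real.norm_of_nonneg (h.I0 n), inv_pow,
      inv_mul_le_iff₀ (by positivity)]
    refine (h.Iup r0 n).trans ?_
    rw [mul_comm]
    exact mul_le_mul_of_nonneg_left (le_mul_of_one_le_left w0.le (one_le_pow₀ p1)) (by positivity)
  have k2 := (norm_sub_le _ _).trans (add_le_add k1 (h.Jb he a0 p1 p2 n))
  rw [trm, norm_div, norm_mul, norm_pow, norm_real, Real.norm_of_nonneg D0.le, div_le_iff₀ D0]
  refine le_trans (mul_le_mul k2 (pow_le_pow_left₀ (norm_nonneg _) hz _) (by positivity)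
    (by positivity)) (le_trans (le_of_eq ?_) (mul_le_mul_of_nonneg_left (h.Dlow v0 n)
    (by positivity)))
  generalize w (2 * (ρ * R)) = x at wv
  rw [mul_pow 2, mul_pow ρ, one_div, inv_pow]
  field_simp
  ring

lemma H.sum (h : H w) {e : ℤ} (he : e = 1 ∨ e = -1) {a : ℂ} (a0 : a ≠ 0) (z : ℂ) :
    Summable (trm w e a z) := by
  obtain ⟨C, hC⟩ := h.bd he a0 (show 0 < ‖z‖ + 1 by positivity)
  exact .of_norm_bounded (summable_geometric_two.mul_left C) fun n => hC n z (by linarith)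

lemma H.cont (h : H w) {e : ℤ} (he : e = 1 ∨ e = -1) {a : ℂ} (a0 : a ≠ 0) {R : ℝ} (R0 : 0 < R) :
    ContinuousOn (A w e a) {z | ‖z‖ ≤ R} := by
  obtain ⟨C, hC⟩ := h.bd he a0 R0
  have := continuousOn_tsum (f := fun n z => trm w e a z n) (s := {z | ‖z‖ ≤ R})
    (fun n => by unfold trm; fun_prop) (summable_geometric_two.mul_left C) hC
  unfold A
  fun_prop

open Complex in
lemma H.near (h : H w) {T : ℝ} (T0 : 0 ≤ T) (d : DifferentiableOn ℝ w (Ioi T))
    (m : AntitoneOn (fun t => t * deriv w t / w t) (Ioi T)) {e : ℤ} (he : e = 1 ∨ e = -1)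
    {c : ℝ} (hc : T < c) (c1 : 1 ≤ c) {a z : ℂ} (ca : c ≤ ‖a‖) (hz : 2 * ‖z‖ ≤ c) :
    ∃ g : ℂ, A w e a z = cexp g ∧ ‖g‖ ≤ (1 + 13 / w c) * L w ‖a‖ := by
  have c0 : 0 < c := by linarith
  have r0 : 0 < ‖a‖ := by linarith
  have a0 := norm_pos_iff.1 r0
  have L0 := h.L0 r0
  have wc := h.p c c0.le
  have q : ‖z / a‖ < 1 := by rw [norm_div, div_lt_one r0]; linarith [norm_nonneg z]
  have s := (h.sum he a0 z).hasSum.sub (hasSum_taylorSeries_neg_log' q)
  refine ⟨-L w ‖a‖ + (∑' n, trm w e a z n - -log (1 - z / a)), ?_, ?_⟩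
  · rw [A, sub_neg_eq_add, ← add_assoc, exp_add _ (log _), exp_log (slitPlane_ne_zero (by
      rw [sub_eq_add_neg]; exact mem_slitPlane_of_norm_lt_one (by rwa [norm_neg]))), mul_comm]
    congr 2
    ring
  have g := (hasSum_geometric_two.mul_left (13 / w c * L w ‖a‖ / 2))
  refine (norm_add_le _ _).trans ?_
  rw [norm_neg, norm_real, Real.norm_of_nonneg L0.le]
  refine (add_le_add le_rfl (s.norm_le_of_bounded g fun n => ?_)).trans_eq (by ring)
  have D0 := h.D0 n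
  have k := h.key T0 d m hc ca n
  have M0 : 0 ≤ ∫ t in Ioi ‖a‖, w t * t ^ n :=
    integral_nonneg_of_ae (h.nn n measurableSet_Ioi (Ioi_subset_Ioi r0.le))
  have e1 : D w n = (n + 1) * (Ik w n ‖a‖ + ∫ t in Ioi ‖a‖, w t * t ^ n) := by
    rw [Ik, ← setIntegral_union (Ioc_disjoint_Ioi le_rfl) measurableSet_Ioi
      ((h.i n).mono_set Ioc_subset_Ioi_self) ((h.i n).mono_set (Ioi_subset_Ioi r0.le)),
      Ioc_union_Ioi_eq_Ioi r0.le, D]
  generalize ∫ t in Ioi ‖a‖, w t * t ^ n = M at *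
  have e2 : (D w n : ℂ) = (n + 1) * (Ik w n ‖a‖ + M) := by exact_mod_cast e1
  have Dc : (D w n : ℂ) ≠ 0 := ofReal_ne_zero.2 D0.ne'
  have n1 : (n + 1 : ℂ) ≠ 0 := by exact_mod_cast n.succ_ne_zero
  have j := h.Jb he a0 le_rfl (by nlinarith) n
  rw [show trm w e a z n - (z / a) ^ (n + 1) / (n + 1) = -(a⁻¹ ^ (n + 1) * M +
    (starRingEnd ℂ a) ^ (e * (n + 1)) * Jk w n ‖a‖) * z ^ (n + 1) / D w n by
      rw [trm, div_eq_mul_inv z, mul_pow, div_sub_div _ _ Dc n1, div_eq_div_iff (mul_ne_zero Dc n1) Dc]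
      linear_combination (-(D w n : ℂ) * z ^ (n + 1) * a⁻¹ ^ (n + 1)) * e2,
    norm_div, norm_mul, norm_neg, norm_pow, norm_real, Real.norm_of_nonneg D0.le, div_le_iff₀ D0]
  have k1 : ‖a⁻¹ ^ (n + 1) * M‖ ≤ 12 / c ^ (n + 1) * L w ‖a‖ / w c * D w n := by
    rw [norm_mul, norm_pow, norm_inv, norm_real, Real.norm_of_nonneg M0, inv_pow,
      inv_mul_le_iff₀ (by positivity)]
    refine k.trans_eq ?_
    rw [div_pow]; ring
  have k2 : L w ‖a‖ ≤ 1 / c ^ (n + 1) * L w ‖a‖ / w c * D w n := by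
    refine le_trans (le_of_eq ?_) (mul_le_mul_of_nonneg_left (h.Dlow c0 n) (by positivity))
    field_simp
  rw [one_pow, one_mul] at j
  refine le_trans (mul_le_mul ((norm_add_le _ _).trans (add_le_add k1 (j.trans k2)))
    (pow_le_pow_left₀ (norm_nonneg _) (show ‖z‖ ≤ c / 2 by linarith) _) (by positivity)
    (by positivity)) (le_of_eq ?_)
  rw [div_pow, one_div 2, inv_pow]
  field_simp
  ring

lemma H.main (h : H w) {T : ℝ} (T0 : 0 ≤ T) (d : DifferentiableOn ℝ w (Ioi T))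
    (m : AntitoneOn (fun t => t * deriv w t / w t) (Ioi T)) {e : ℤ} (he : e = 1 ∨ e = -1)
    {a : ℕ → ℂ} (a0 : ∀ k, a k ≠ 0) (s : Summable fun k => L w ‖a k‖) {K : Set ℂ}
    (hK : IsCompact K) : ∃ P : ℂ → ℂ,
      TendstoUniformlyOn (fun n z => ∏ k ∈ Finset.range n, A w e (a k) z) P atTop K ∧
      ∀ z ∈ K, (∀ k, z ≠ a k) → P z ≠ 0 := by
  obtain ⟨R, R0, hR⟩ := hK.isBounded.exists_pos_norm_le
  set c : ℝ := T + 1 + 2 * R with hc
  have c0 : 0 < c := by linarith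
  have wc := h.p c c0.le
  have t := s.tendsto_atTop_zero
  have ev : ∀ᶠ k in atTop, ∀ z ∈ K, ‖A w e (a k) z - 1‖ ≤ 2 * ((1 + 13 / w c) * L w ‖a k‖) := by
    filter_upwards [t.eventually (gt_mem_nhds (h.L0 c0)), (t.const_mul (1 + 13 / w c)).eventually
      (gt_mem_nhds (show (1 + 13 / w c) * 0 < 1 by simp))] with k k1 k2 z hz
    have r0 := norm_pos_iff.2 (a0 k)
    have ca : c ≤ ‖a k‖ := by
      by_contra n
      exact k1.not_ge (setIntegral_mono_set (h.intL r0) (h.nL r0)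
        (Ioi_subset_Ioi (not_le.1 n).le).eventuallyLE)
    obtain ⟨g, g1, g2⟩ := h.near T0 d m he (c := c) (by linarith) (by linarith) ca
      (show 2 * ‖z‖ ≤ c by linarith [hR z hz])
    rw [g1]
    exact (Complex.norm_exp_sub_one_le (by linarith)).trans (by linarith)
  have su := (s.mul_left (1 + 13 / w c)).mul_left 2
  have := (su.hasProdUniformlyOn_nat_one_add (f := fun k z => A w e (a k) z - 1) hK ev fun k =>
    ((h.cont he (a0 k) R0).mono hR).sub continuousOn_const).tendstoUniformlyOn_finsetRange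
  refine ⟨fun z => ∏' k, (1 + (A w e (a k) z - 1)), by simpa using this, fun z hz n => ?_⟩
  refine tprod_one_add_ne_zero_of_summable (fun k => ?_) (.of_norm_bounded_eventually_nat su
    (ev.mono fun k hk => by simpa using hk z hz))
  rw [add_sub_cancel, A]
  exact mul_ne_zero (sub_ne_zero.2 fun q => n k ((div_eq_one_iff_eq (a0 k)).1 q.symm))
    (Complex.exp_ne_zero _)

end Pool.Agent.Lib.Helper21.Djr
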