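import Mathlib

/-! Chains of holomorphic functions with `A n ' = (b + n) A (n+1)` and a rigidity estimate. -/

set_option autoImplicit false

namespace Pool.Agent.Lib.Helper21.Epd

open Set Metric Filter Topology Complex

noncomputable abbrev P (k : ℕ) (x : ℝ) : ℝ := (ascPochhammer ℝ k).eval x

lemma Ps (k : ℕ) (x : ℝ) : P (k + 1) x = P k x * (x + k) := ascPochhammer_succ_eval ..

lemma fact_le {x : ℝ} (h : 1 ≤ x) (k : ℕ) : k.factorial ≤ P k x := by
  induction k with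
  | zero => simp [P]
  | succ k ih =>
    rw [Ps, Nat.factorial_succ]; push_cast
    nlinarith [mul_le_mul ih (show (k : ℝ) + 1 ≤ x + k by linarith) (by positivity) (le_trans (by positivity) ih)]

lemma sumP {x : ℝ} (h : 1 ≤ x) : Summable fun n => P n x / n.factorial * (1 / 2) ^ n := by
  refine summable_of_ratio_norm_eventually_le (r := 3 / 4) (by norm_num) ?_
  filter_upwards [eventually_ge_atTop ⌈2 * x⌉₊] with n hn
  have h1 : 2 * x ≤ n := Nat.ceil_le.1 hn
  have p : 0 ≤ P n x := le_trans (by positivity) (fact_le h n)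
  rw [Ps, Real.norm_of_nonneg (by positivity), Real.norm_of_nonneg (by positivity), Nat.factorial_succ, pow_succ]
  push_cast
  field_simp
  nlinarith

lemma exlog {f : ℂ → ℂ} {R : ℝ} (R0 : 0 < R) (hf : DifferentiableOn ℂ f (ball 0 R)) (nz : ∀ z ∈ ball (0 : ℂ) R, f z ≠ 0)
    (h0 : f 0 = 1) : ∃ L : ℂ → ℂ, L 0 = 0 ∧ ∀ z ∈ ball (0 : ℂ) R, HasDerivAt L (deriv f z / f z) z ∧ exp (L z) = f z := by
  obtain ⟨L, L0, hL⟩ := ((hf.deriv isOpen_ball).div hf nz).isExactOn_ball.with_val_at 0 0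
  have d : ∀ z ∈ ball (0 : ℂ) R, HasDerivAt (fun z => exp (L z) / f z) 0 z := fun z hz =>
    ((hL z hz).cexp.div (hf.differentiableAt (isOpen_ball.mem_nhds hz)).hasDerivAt (nz z hz)).congr_deriv (by
      have := nz z hz
      simp; left; field_simp; ring)
  refine ⟨L, L0, fun z hz => ⟨hL z hz, ?_⟩⟩
  have := isOpen_ball.is_const_of_deriv_eq_zero (convex_ball _ _).isPreconnected
    (fun z hz => (d z hz).differentiableAt.differentiableWithinAt) (fun z hz => (d z hz).deriv) hz (mem_ball_self R0)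
  rwa [L0, h0, exp_zero, div_one, div_eq_one_iff_eq (nz z hz)] at this

def Sys (b : ℝ) (A : ℕ → ℂ → ℂ) (R : ℝ) : Prop :=
  ∀ n : ℕ, ∀ z ∈ ball (0 : ℂ) R, HasDerivAt (A n) ((b + n) * A (n + 1) z) z

variable {b R : ℝ} {A : ℕ → ℂ → ℂ}

lemma Sys.dif (h : Sys b A R) (n : ℕ) : DifferentiableOn ℂ (A n) (ball 0 R) :=
  fun z hz => (h n z hz).differentiableAt.differentiableWithinAt

lemma Sys.iter (h : Sys b A R) (n m : ℕ) : ∀ z ∈ ball (0 : ℂ) R, iteratedDeriv m (A n) z = P m (b + n) * A (n + m) z := by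
  induction m with
  | zero => simp [P]
  | succ m ih =>
    intro z hz
    rw [iteratedDeriv_succ, (eventuallyEq_of_mem (isOpen_ball.mem_nhds hz) ih).deriv_eq, ((h _ z hz).const_mul _).deriv, Ps]
    push_cast
    ring

lemma Sys.scale (h : Sys b A R) {t : ℂ} {r T : ℝ} (r0 : 0 < r) (hT : ‖t‖ + r * T ≤ R) (c : ℂ) :
    Sys b (fun n z => r ^ n * A n (t + r * z) / c) T := fun n z hz => by
  have m : t + r * z ∈ ball (0 : ℂ) R := mem_ball_zero_iff.2 ((norm_add_le _ _).trans_lt (by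
    have := mem_ball_zero_iff.1 hz
    simp only [norm_mul, norm_real, Real.norm_of_nonneg r0.le]; nlinarith))
  refine ((((h n _ m).comp z (((hasDerivAt_id z).const_mul _).const_add t)).const_mul _).div_const c).congr_deriv ?_
  ring

lemma dc {f : ℂ → ℂ} {c : ℂ} {r R : ℝ} (hf : DifferentiableOn ℂ f (ball 0 R)) (h : ‖c‖ + r < R) :
    DiffContOnCl ℂ f (ball c r) := hf.diffContOnCl_ball (closedBall_subset_ball' (by simpa [add_comm] using h))

lemma Sys.coef (h : Sys b A R) {j : ℕ} (j1 : 1 ≤ j) (hb : 1 ≤ b + j) {r s : ℝ} (r0 : 0 < r) (rR : r < R) (s0 : 0 ≤ s)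
    (h0 : A 0 0 = 1) (nz : ∀ z ∈ ball (0 : ℂ) R, A 0 z ≠ 0)
    (bd : ∀ z ∈ ball (0 : ℂ) R, ∀ n, 1 ≤ n → n ≤ j → ‖A n z‖ ≤ s ^ n * ‖A 0 z‖) (n : ℕ) :
    ‖A n 0‖ * r ^ n ≤ (1 + s * r) ^ j * Real.exp (|b| * s * r) := by
  have R0 := r0.trans rR
  have e1 : 1 ≤ Real.exp (|b| * s * r) := Real.one_le_exp (by positivity)
  have sr : 0 ≤ s * r := by positivity
  rcases le_total n j with d | d
  · refine le_trans ?_ (le_mul_of_one_le_right (by positivity) e1)
    refine le_trans ?_ (pow_le_pow_right₀ (by linarith) d)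
    refine le_trans ?_ (pow_le_pow_left₀ sr (le_add_of_nonneg_left zero_le_one) n)
    rcases n.eq_zero_or_pos with rfl | n0
    · simp [h0]
    · rw [mul_pow]; gcongr; simpa [h0] using bd 0 (mem_ball_self R0) n n0 d
  obtain ⟨m, rfl⟩ := Nat.exists_eq_add_of_le d
  obtain ⟨L, L0, hL⟩ := exlog R0 (h.dif 0) nz h0
  have k := norm_iteratedDeriv_le_of_forall_mem_sphere_norm_le (C := s ^ j * Real.exp (|b| * s * r)) m r0
    (dc (c := 0) (h.dif j) (by simpa)) fun z hz => by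
      have t : ‖z‖ = r := by simpa using hz
      have zb : z ∈ ball (0 : ℂ) R := mem_ball_zero_iff.2 (t ▸ rR)
      refine (bd z zb j j1 le_rfl).trans (mul_le_mul_of_nonneg_left ?_ (by positivity))
      rw [← (hL z zb).2]
      refine (norm_exp_le_exp_norm _).trans (Real.exp_le_exp.2 ?_)
      simpa [L0, t] using (convex_ball _ _).norm_image_sub_le_of_norm_hasDerivWithin_le (C := |b| * s)
        (fun x hx => (hL x hx).1.hasDerivWithinAt) (fun x hx => by
          rw [(h 0 x hx).deriv, norm_div, div_le_iff₀ (norm_pos_iff.2 (nz x hx)), norm_mul, mul_assoc]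
          simpa using mul_le_mul_of_nonneg_left (bd x hx 1 le_rfl j1) (abs_nonneg b)) (mem_ball_self R0) zb
  have f := fact_le hb m
  have f0 : (0 : ℝ) < m.factorial := by positivity
  rw [h.iter j m 0 (mem_ball_self R0), norm_mul, norm_real, Real.norm_of_nonneg (f0.le.trans f), le_div_iff₀ (by positivity)] at k
  have k2 : ‖A (j + m) 0‖ * r ^ m ≤ s ^ j * Real.exp (|b| * s * r) :=
    le_of_mul_le_mul_left (le_trans (by rw [mul_assoc]; gcongr) k) f0
  calc _ = ‖A (j + m) 0‖ * r ^ m * r ^ j := by ring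
    _ ≤ s ^ j * Real.exp (|b| * s * r) * r ^ j := by gcongr
    _ = (s * r) ^ j * Real.exp (|b| * s * r) := by ring
    _ ≤ _ := by gcongr; linarith

lemma Sys.bound (h : Sys b A R) (hb : 1 ≤ b) {r D : ℝ} (r0 : 0 < r) (c : ∀ n, ‖A n 0‖ * (2 * r) ^ n ≤ D) {z : ℂ}
    (hz : z ∈ ball 0 R) (zr : ‖z‖ ≤ r) : ‖A 0 z‖ ≤ (∑' n, P n b / n.factorial * (1 / 2) ^ n) * D := by
  refine (hasSum_taylorSeries_on_ball (h.dif 0) hz).norm_le_of_bounded ((sumP hb).hasSum.mul_right D) fun n => ?_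
  have p : 0 ≤ P n b := le_trans (by positivity) (fact_le hb n)
  rw [h.iter 0 n 0 (mem_ball_self (pos_of_mem_ball hz))]
  simp only [smul_eq_mul, norm_mul, norm_inv, norm_natCast, sub_zero, norm_pow, Nat.cast_zero, add_zero, zero_add, norm_real,
    Real.norm_of_nonneg p]
  calc _ ≤ (n.factorial : ℝ)⁻¹ * (r ^ n * (P n b * ‖A n 0‖)) := by gcongr
    _ = P n b / n.factorial * (1 / 2) ^ n * (‖A n 0‖ * (2 * r) ^ n) := by simp [mul_pow]; field_simp
    _ ≤ _ := by gcongr; exact c n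

lemma rigid {α β : ℝ} (hα : 1 ≤ α) (hβ : 1 ≤ β) {j : ℕ} (j1 : 1 ≤ j) (hb : 1 ≤ β - α + j) {δ : ℝ} (δ0 : 0 < δ) :
    ∃ R > 0, ∀ A F : ℕ → ℂ → ℂ, Sys (β - α) A R → Sys β F R → (∀ n, F n 0 = A n 0) → A 0 0 = 1 →
      (∀ z ∈ ball (0 : ℂ) R, A 0 z ≠ 0) → (∀ z ∈ ball (0 : ℂ) R, F 0 z ≠ 0) →
      (∀ z ∈ ball (0 : ℂ) R, ∀ n, 1 ≤ n → n ≤ j → ‖A n z‖ ≤ 2 ^ n * ‖A 0 z‖) → ∀ n, 1 ≤ n → ‖A n 0‖ ≤ δ := by
  obtain ⟨S, hS⟩ : ∃ S, S = ∑' n, P n β / n.factorial * (1 / 2) ^ n := ⟨_, rfl⟩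
  obtain ⟨C, hC⟩ : ∃ C, C = |S| + 4 * j + 4 * |β - α| + 1 := ⟨_, rfl⟩
  have C1 : 1 ≤ C := by rw [hC]; exact le_add_of_nonneg_left (by positivity)
  obtain ⟨η, η0, η1, η2⟩ : ∃ η, 0 < η ∧ (β + 1) * η ≤ 1 ∧ (β + 1) * η ≤ δ / 2 := ⟨min 1 (δ / 2) / (β + 1), by positivity,
    by rw [mul_div_cancel₀ _ (by positivity)]; exact min_le_left .., by rw [mul_div_cancel₀ _ (by positivity)]; exact min_le_right ..⟩
  obtain ⟨T, T8, hT⟩ : ∃ T, 8 ≤ T ∧ (2 * β + 3) * (64 * C / T) ≤ η ^ 2 := ⟨8 + (2 * β + 3) * 64 * C / η ^ 2,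
    le_add_of_nonneg_right (by positivity), by
      rw [← mul_div_assoc, div_le_iff₀ (by positivity), mul_add, mul_div_cancel₀ _ (by positivity)]; nlinarith [sq_nonneg η]⟩
  obtain ⟨E, hE⟩ : ∃ E, E = 64 * C / T := ⟨_, rfl⟩
  have T0 : 0 < T := by linarith
  refine ⟨3 * T, by positivity, fun A F hA hF e h0 nA nF bd n n1 => ?_⟩
  have z0 : (0 : ℂ) ∈ ball (0 : ℂ) (3 * T) := mem_ball_self (by positivity)
  have F0 : F 0 0 = 1 := (e 0).trans h0
  obtain ⟨L, L0, hL⟩ := exlog (by positivity) (hF.dif 0) nF F0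
  have dL : DifferentiableOn ℂ L (ball 0 (3 * T)) := fun z hz => (hL z hz).1.differentiableAt.differentiableWithinAt
  have sub : ∀ {r}, r ≤ 3 * T → ball (0 : ℂ) r ⊆ ball 0 (3 * T) := ball_subset_ball
  have b1 : ∀ z : ℂ, ‖z‖ ≤ T / 2 → ‖L z‖ ≤ 2 * (C * T) := fun z hz => by
    refine (borelCaratheodory_zero (M := C * T) (by positivity) (dL.mono (sub (by linarith))) (fun w hw => ?_) T0
      (mem_ball_zero_iff.2 (by linarith)) L0).trans (by rw [div_le_iff₀ (by linarith)]; gcongr; linarith)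
    have k := hF.bound hβ T0 (fun n => by
      rw [e]; exact hA.coef j1 hb (by positivity) (by linarith) zero_le_two h0 nA bd n) (sub (by linarith) hw)
      (mem_ball_zero_iff.1 hw).le
    rw [← hS, ← (hL w (sub (by linarith) hw)).2, norm_exp] at k
    refine Real.exp_le_exp.1 (k.trans ?_)
    calc _ ≤ Real.exp (|S| * T) * (Real.exp (4 * T) ^ j * Real.exp (|β - α| * 2 * (2 * T))) := by
          gcongr
          · exact (le_abs_self S).trans (by nlinarith [Real.add_one_le_exp (|S| * T), abs_nonneg S])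
          · linarith [Real.add_one_le_exp (4 * T)]
      _ ≤ _ := by rw [← Real.exp_nat_mul, ← Real.exp_add, ← Real.exp_add, hC]; gcongr; nlinarith
  have b2 : ∀ z : ℂ, ‖z‖ < 2 → ‖deriv (deriv L) z‖ ≤ E := fun z hz => by
    have := norm_iteratedDeriv_le_of_forall_mem_sphere_norm_le 2 (R := T / 4) (by positivity) (dc (c := z) dL (by linarith))
      fun w hw => b1 w (by linarith [norm_le_norm_add_norm_sub' w z, mem_sphere_iff_norm.1 hw])
    rw [iteratedDeriv_succ, iteratedDeriv_one] at this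
    exact this.trans_eq (by rw [hE]; simp [Nat.factorial]; field_simp; norm_num)
  have v : ∀ z ∈ ball (0 : ℂ) (3 * T), deriv L z = β * F 1 z / F 0 z := fun z hz => by
    rw [(hL z hz).1.deriv, (hF 0 z hz).deriv]; simp
  have e1 := b2 0 (by simp)
  rw [(eventuallyEq_of_mem (isOpen_ball.mem_nhds z0) v).deriv_eq,
    (((hF 1 0 z0).const_mul _).fun_div (hF 0 0 z0) (nF 0 z0)).deriv] at e1
  have e2 := norm_deriv_le_of_forall_mem_sphere_norm_le T0 (dc (c := 0) ((hA.dif 1).div (hA.dif 0) nA) (by simp; linarith))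
    (C := 2) fun w hw => by
      have m : w ∈ ball (0 : ℂ) (3 * T) := mem_ball_zero_iff.2 (by rw [mem_sphere_zero_iff_norm.1 hw]; linarith)
      rw [Pi.div_apply, norm_div, div_le_iff₀ (norm_pos_iff.2 (nA w m))]
      simpa using bd w m 1 le_rfl j1
  rw [((hA 1 0 z0).div (hA 0 0 z0) (nA 0 z0)).deriv] at e2
  simp only [e, h0, Nat.reduceAdd, Nat.cast_zero, Nat.cast_one, add_zero, one_pow, div_one, mul_one, zero_add] at e1 e2
  replace e2 := e2.trans (show 2 / T ≤ E by rw [hE]; gcongr; linarith)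
  rw [← hE] at hT
  have c1 : ‖A 1 0‖ ≤ η := by
    obtain ⟨x, hx⟩ : ∃ x, x = (β + 1) * A 2 0 - β * A 1 0 ^ 2 := ⟨_, rfl⟩
    obtain ⟨y, hy⟩ : ∃ y, y = ((β - α : ℝ) + 1) * A 2 0 - A 1 0 * ((β - α : ℝ) * A 1 0) := ⟨_, rfl⟩
    rw [← hy] at e2
    replace e1 := (congrArg norm (show β * x = _ by rw [hx]; ring)).trans_le e1
    rw [norm_mul, norm_real, Real.norm_of_nonneg (by linarith)] at e1
    have q : (α : ℂ) * A 1 0 ^ 2 = α * x - (β + 1 : ℝ) * (x - y) := by rw [hx, hy]; push_cast; ring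
    have q1 := (congrArg norm q).trans_le (norm_sub_le _ _)
    simp only [norm_mul, norm_real, norm_pow, Real.norm_of_nonneg (show 0 ≤ α by linarith),
      Real.norm_of_nonneg (show 0 ≤ β + 1 by linarith)] at q1
    have x1 : ‖x‖ ≤ E := by nlinarith [norm_nonneg x]
    have x2 : (β + 1) * ‖x - y‖ ≤ α * ((β + 1) * (2 * E)) :=
      le_trans (by gcongr; linarith [norm_sub_le x y]) (le_mul_of_one_le_left (by have := (norm_nonneg _).trans x1; positivity) hα)
    refine le_of_sq_le_sq (le_trans (le_of_mul_le_mul_left (a := α) ?_ (by linarith)) hT) η0.le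
    nlinarith
  have sb : ball (0 : ℂ) 2 ⊆ ball 0 (3 * T) := sub (by linarith)
  have E0 : 0 ≤ E := by rw [hE]; positivity
  have b3 : ∀ z ∈ ball (0 : ℂ) 2, ‖deriv L z‖ ≤ (β + 1) * η := fun z hz => by
    have := (convex_ball _ _).norm_image_sub_le_of_norm_deriv_le (fun x hx => (dL.deriv isOpen_ball).differentiableAt
      (isOpen_ball.mem_nhds (sb hx))) (fun x hx => b2 x (mem_ball_zero_iff.1 hx)) (mem_ball_self two_pos) hz
    have k := norm_le_norm_add_norm_sub' (deriv L z) (deriv L 0)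
    rw [v 0 z0, F0, div_one, e] at this k
    rw [norm_mul, norm_real, Real.norm_of_nonneg (by linarith)] at k
    have := mem_ball_zero_iff.1 hz
    simp only [sub_zero] at *
    nlinarith
  have k := norm_iteratedDeriv_le_of_forall_mem_sphere_norm_le (C := δ) n one_pos
    (dc (c := 0) ((hF.dif 0).const_add (-1)) (by simp; linarith)) fun z hz => by
      have t : ‖z‖ = 1 := by simpa using hz
      have m : z ∈ ball (0 : ℂ) 2 := mem_ball_zero_iff.2 (by linarith)
      have := (convex_ball _ _).norm_image_sub_le_of_norm_deriv_le (fun x hx => dL.differentiableAt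
        (isOpen_ball.mem_nhds (sb hx))) b3 (mem_ball_self two_pos) m
      simp only [L0, sub_zero, t, mul_one] at this
      rw [neg_add_eq_sub, ← (hL z (sb m)).2]
      linarith [norm_exp_sub_one_le (this.trans η1)]
  have f := fact_le hβ n
  have f0 : (0 : ℝ) < n.factorial := by positivity
  rw [iteratedDeriv_const_add n1, hF.iter 0 n 0 z0, zero_add, e, norm_mul, norm_real, Nat.cast_zero, add_zero,
    Real.norm_of_nonneg (f0.le.trans f), one_pow, div_one] at k
  exact le_of_mul_le_mul_left (le_trans (by gcongr) k) f0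

end Pool.Agent.Lib.Helper21.Epd
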