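import Mathlib

/-! Zero-freeness on the closed disc persists along a homotopy without zeros on the circle. -/

set_option autoImplicit false

namespace Pool.Agent.Lib.Helper21.Homot

open Set Metric Filter Topology

lemma homot {f : ℝ → ℂ → ℂ} (c : ContinuousOn (Function.uncurry f) (Icc 0 1 ×ˢ closedBall 0 1))
    (d : ∀ s ∈ Icc (0 : ℝ) 1, DifferentiableOn ℂ (f s) (ball 0 1))
    (b : ∀ s ∈ Icc (0 : ℝ) 1, ∀ x ∈ sphere (0 : ℂ) 1, f s x ≠ 0) (h0 : ∀ x ∈ closedBall (0 : ℂ) 1, f 0 x ≠ 0) :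
    ∀ x ∈ closedBall (0 : ℂ) 1, f 1 x ≠ 0 := by
  obtain ⟨p, hp, mn⟩ := (isCompact_Icc.prod (isCompact_sphere (0 : ℂ) 1)).exists_isMinOn
    ⟨(0, 1), left_mem_Icc.2 zero_le_one, by simp⟩ (c.mono (prod_mono le_rfl sphere_subset_closedBall)).norm
  have δ0 := norm_pos_iff.2 (b _ hp.1 _ hp.2)
  obtain ⟨η, η0, u⟩ := Metric.uniformContinuousOn_iff.1
    ((isCompact_Icc.prod (isCompact_closedBall (0 : ℂ) 1)).uniformContinuousOn_of_continuous c) _ δ0
  have k : ∀ s ∈ Icc (0 : ℝ) 1, ∀ t ∈ Icc (0 : ℝ) 1, dist s t < η → (∀ x ∈ closedBall (0 : ℂ) 1, f s x ≠ 0) →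
      ∀ x ∈ closedBall (0 : ℂ) 1, f t x ≠ 0 := fun s hs t ht st h x hx e => by
    have cs : ContinuousOn (f s) (closedBall 0 1) := c.comp (f := fun x => (s, x)) (by fun_prop) fun x hx => ⟨hs, hx⟩
    have := Complex.norm_le_of_forall_mem_frontier_norm_le (f := fun x => (f s x)⁻¹) (U := ball 0 1) isBounded_ball
      ⟨(d s hs).inv fun x hx => h x (ball_subset_closedBall hx), by
        rw [closure_ball _ one_ne_zero]; exact cs.inv₀ h⟩ (C := ‖f p.1 p.2‖⁻¹) (fun y hy => by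
          rw [frontier_ball _ one_ne_zero] at hy
          rw [norm_inv]; exact inv_anti₀ δ0 (mn (a := (s, y)) ⟨hs, hy⟩)) (z := x) (by rwa [closure_ball _ one_ne_zero])
    rw [norm_inv, inv_le_inv₀ (norm_pos_iff.2 (h x hx)) δ0] at this
    have v := u (s, x) ⟨hs, hx⟩ (t, x) ⟨ht, hx⟩ (by simpa using st)
    simp [e] at v
    linarith
  refine IsClosed.Icc_subset_of_forall_mem_nhdsWithin (s := {s | ∀ x ∈ closedBall (0 : ℂ) 1, f s x ≠ 0})
    (isClosed_of_closure_subset fun t ht => ?_) h0 (fun s hs => ?_) (right_mem_Icc.2 zero_le_one)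
  · have it := isClosed_Icc.closure_subset (closure_mono inter_subset_right ht)
    obtain ⟨s, hs, st⟩ := Metric.mem_closure_iff.1 ht η η0
    exact ⟨k s hs.2 t it (dist_comm s t ▸ st) hs.1, it⟩
  · filter_upwards [Ioo_mem_nhdsGT hs.2.2, mem_nhdsWithin_of_mem_nhds (ball_mem_nhds s η0)] with t ht st
    exact k s (Ico_subset_Icc_self hs.2) t ⟨hs.2.1.trans ht.1.le, ht.2.le⟩ (mem_ball'.1 st) hs.1

end Pool.Agent.Lib.Helper21.Homot
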