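import Pool.Agent.Lib.helper21.Epd
import Pool.Agent.Lib.helper21.Homot

/-! Contour representation of Hadamard products and normality of the classes `T(α, β)`. -/

set_option autoImplicit false

namespace Pool.Agent.Lib.Helper21.Epd

open Set Metric Filter Topology Complex Real MeasureTheory

noncomputable def Ig (ψ g : ℂ → ℂ) (ρ : ℝ) (z : ℂ) : ℂ := circleAverage (fun ζ => ψ ζ * g (z / ζ)) 0 ρ

variable {ψ g φ : ℂ → ℂ} {ρ α β : ℝ} {z : ℂ}

lemma mb (hz : ‖z‖ < ρ) {ζ : ℂ} (h : ζ ∈ sphere (0 : ℂ) ρ) : z / ζ ∈ ball (0 : ℂ) 1 := by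
  rw [mem_ball_zero_iff, norm_div, mem_sphere_zero_iff_norm.1 h]; exact (div_lt_one ((norm_nonneg _).trans_lt hz)).2 hz

lemma nzs (h0 : 0 < ρ) {ζ : ℂ} (h : ζ ∈ sphere (0 : ℂ) ρ) : ζ ≠ 0 := ne_of_mem_sphere h h0.ne'

lemma cg (hg : ContinuousOn g (ball 0 1)) (hz : ‖z‖ < ρ) : ContinuousOn (fun ζ => g (z / ζ)) (sphere 0 ρ) :=
  hg.comp (continuousOn_const.div continuousOn_id fun _ => nzs ((norm_nonneg _).trans_lt hz)) fun _ => mb hz

lemma dI (hψ : ContinuousOn ψ (sphere 0 ρ)) (hg : DifferentiableOn ℂ g (ball 0 1)) (hz : ‖z‖ < ρ) :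
    HasDerivAt (Ig ψ g ρ) (Ig (fun ζ => ψ ζ / ζ) (deriv g) ρ z) z := by
  have ρ0 := (norm_nonneg _).trans_lt hz
  obtain ⟨r, r1, r2⟩ := exists_between hz
  have cm : ∀ θ, circleMap 0 ρ θ ∈ sphere (0 : ℂ) ρ := circleMap_mem_sphere 0 ρ0.le
  have c1 : ContinuousOn (fun ζ => ψ ζ / ζ) (sphere 0 ρ) := hψ.div continuousOn_id fun _ => nzs ρ0
  have c2 := (hg.deriv isOpen_ball).continuousOn
  obtain ⟨C, hC⟩ := (isCompact_closedBall (0 : ℂ) (r / ρ)).exists_bound_of_continuousOn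
    (c2.mono (closedBall_subset_ball ((div_lt_one ρ0).2 r2)))
  have k : ∀ {f : ℂ → ℂ}, ContinuousOn f (sphere 0 ρ) → Continuous fun θ => f (circleMap 0 ρ θ) := fun h =>
    h.comp_continuous (continuous_circleMap 0 ρ) cm
  unfold Ig
  simp only [circleAverage_def]
  refine (intervalIntegral.hasDerivAt_integral_of_dominated_loc_of_deriv_le
    (F' := fun x θ => ψ (circleMap 0 ρ θ) / circleMap 0 ρ θ * deriv g (x / circleMap 0 ρ θ))
    (bound := fun θ => ‖ψ (circleMap 0 ρ θ) / circleMap 0 ρ θ‖ * C) (isOpen_ball.mem_nhds (mem_ball_zero_iff.2 r1))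
    ?_ ((k (hψ.mul (cg hg.continuousOn hz))).intervalIntegrable ..) (k (c1.mul (cg c2 hz))).aestronglyMeasurable
    (.of_forall fun θ _ x hx => ?_) (((k c1).norm.mul continuous_const).intervalIntegrable ..)
    (.of_forall fun θ _ x hx => ?_)).2.const_smul _
  · filter_upwards [isOpen_ball.mem_nhds (mem_ball_zero_iff.2 hz)] with x hx
    exact (k (hψ.mul (cg hg.continuousOn (mem_ball_zero_iff.1 hx)))).aestronglyMeasurable
  · rw [norm_mul]
    refine mul_le_mul_of_nonneg_left (hC _ ?_) (norm_nonneg _)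
    rw [mem_closedBall_zero_iff, norm_div, mem_sphere_zero_iff_norm.1 (cm θ)]
    gcongr
    exact (mem_ball_zero_iff.1 hx).le
  · refine (((hg.differentiableAt (isOpen_ball.mem_nhds (mb ((mem_ball_zero_iff.1 hx).trans r2) (cm θ)))).hasDerivAt.comp x
      ((hasDerivAt_id x).div_const _)).const_mul _).congr_deriv ?_
    ring

lemma dn (hg : DifferentiableOn ℂ g (ball 0 1)) (n : ℕ) : DifferentiableOn ℂ (iteratedDeriv n g) (ball 0 1) := by
  induction n with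
  | zero => simpa
  | succ n ih => rw [iteratedDeriv_succ]; exact ih.deriv isOpen_ball

lemma cn (hψ : ContinuousOn ψ (sphere 0 ρ)) (h0 : 0 < ρ) (n : ℕ) : ContinuousOn (fun ζ => ψ ζ / ζ ^ n) (sphere 0 ρ) :=
  hψ.div (continuousOn_pow n) fun _ h => pow_ne_zero _ (nzs h0 h)

lemma iterI (hψ : ContinuousOn ψ (sphere 0 ρ)) (hg : DifferentiableOn ℂ g (ball 0 1)) (n : ℕ) :
    ∀ z ∈ ball (0 : ℂ) ρ, iteratedDeriv n (Ig ψ g ρ) z = Ig (fun ζ => ψ ζ / ζ ^ n) (iteratedDeriv n g) ρ z := by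
  induction n with
  | zero => simp
  | succ n ih =>
    intro z hz
    rw [iteratedDeriv_succ, (eventuallyEq_of_mem (isOpen_ball.mem_nhds hz) ih).deriv_eq,
      (dI (cn hψ (pos_of_mem_ball hz) n) (dn hg n) (mem_ball_zero_iff.1 hz)).deriv, iteratedDeriv_succ]
    simp only [div_div, pow_succ]

lemma at0 (hφ : DifferentiableOn ℂ φ (ball 0 1)) (h0 : 0 < ρ) (h1 : ρ < 1) (n : ℕ) (g : ℂ → ℂ) :
    Ig (fun ζ => φ ζ / ζ ^ n) g ρ 0 = iteratedDeriv n φ 0 / n.factorial * g 0 := by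
  have := (hφ.mono (closedBall_subset_ball h1)).circleIntegral_one_div_sub_center_pow_smul h0 n
  have f : (n.factorial : ℂ) ≠ 0 := by exact_mod_cast n.factorial_ne_zero
  have p : (π : ℂ) ≠ 0 := by exact_mod_cast pi_ne_zero
  unfold Ig
  rw [circleAverage_eq_circleIntegral h0.ne', circleIntegral.integral_congr h0.le
    (g := fun z => g 0 • (1 / (z - 0) ^ (n + 1)) • φ z) fun z hz => by simp; ring, circleIntegral.integral_smul, this]
  simp only [smul_eq_mul]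
  field_simp

lemma conv (hφ : DifferentiableOn ℂ φ (ball 0 1)) (hg : DifferentiableOn ℂ g (ball 0 1)) (h1 : ρ < 1) (hz : ‖z‖ < ρ) :
    ∑' n : ℕ, iteratedDeriv n φ 0 / n.factorial * (iteratedDeriv n g 0 / n.factorial) * z ^ n = Ig φ g ρ z := by
  have h0 := (norm_nonneg _).trans_lt hz
  have c := hφ.continuousOn.mono (sphere_subset_closedBall.trans (closedBall_subset_ball h1))
  rw [← taylorSeries_eq_on_ball' (mem_ball_zero_iff.2 hz) fun z hz =>
    (dI c hg (mem_ball_zero_iff.1 hz)).differentiableAt.differentiableWithinAt]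
  refine tsum_congr fun n => ?_
  rw [iterI c hg n 0 (mem_ball_self h0), at0 hφ h0 h1]
  ring

noncomputable def pw (c : ℝ) (w : ℂ) : ℂ := (1 - w) ^ (c : ℂ)

lemma sl {w : ℂ} (h : w ∈ ball (0 : ℂ) 1) : 1 - w ∈ slitPlane :=
  mem_slitPlane_of_norm_lt_one (z := -w) (by simpa using h)

lemma dpw (c : ℝ) {w : ℂ} (h : w ∈ ball (0 : ℂ) 1) : HasDerivAt (pw c) (-c * pw (c - 1) w) w :=
  (((hasDerivAt_id w).const_sub 1).cpow_const (sl h)).congr_deriv (by simp [pw])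

lemma dpw' (c : ℝ) : DifferentiableOn ℂ (pw c) (ball 0 1) := fun _ h => (dpw c h).differentiableAt.differentiableWithinAt

noncomputable def J (ψ : ℂ → ℂ) (γ ρ : ℝ) (n : ℕ) : ℂ → ℂ := Ig (fun ζ => ψ ζ / ζ ^ n) (pw (-(γ + n))) ρ

lemma sysJ (hψ : ContinuousOn ψ (sphere 0 ρ)) (γ : ℝ) : Sys γ (J ψ γ ρ) ρ := fun n z hz => by
  have h0 := pos_of_mem_ball hz
  refine (dI (cn hψ h0 n) (dpw' _) (mem_ball_zero_iff.1 hz)).congr_deriv ?_
  unfold J Ig
  rw [← smul_eq_mul, ← circleAverage_fun_smul]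
  refine circleAverage_congr_sphere fun ζ h => ?_
  rw [abs_of_pos h0] at h
  simp only [(dpw _ (mb (mem_ball_zero_iff.1 hz) h)).deriv, smul_eq_mul]
  push_cast
  ring_nf

lemma bidisc {G : ℂ → ℂ → ℂ} (c : ContinuousOn (Function.uncurry G) (ball 0 ρ ×ˢ ball 0 ρ))
    (d : ∀ z ∈ ball (0 : ℂ) ρ, DifferentiableOn ℂ (fun t => G t z) (ball 0 ρ))
    (h : ∀ t z, ‖t‖ = ‖z‖ → ‖z‖ < ρ → G t z ≠ 0) {t : ℂ} (tz : ‖t‖ ≤ ‖z‖) (hz : ‖z‖ < ρ) : G t z ≠ 0 := by
  rcases tz.eq_or_lt with e | e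
  · exact h t z e hz
  have z0 := (norm_nonneg _).trans_lt e
  have m : ∀ s ∈ Icc (0 : ℝ) 1, ∀ x ∈ closedBall (0 : ℂ) 1, x * (s * z) ∈ ball (0 : ℂ) ρ := fun s hs x hx => by
    rw [mem_ball_zero_iff, norm_mul, norm_mul, norm_real, Real.norm_of_nonneg hs.1]
    exact (mul_le_of_le_one_left (by have := hs.1; positivity) (mem_closedBall_zero_iff.1 hx)).trans_lt
      ((mul_le_of_le_one_left z0.le hs.2).trans_lt hz)
  have m1 : ∀ s ∈ Icc (0 : ℝ) 1, s * z ∈ ball (0 : ℂ) ρ := fun s hs => by simpa using m s hs 1 (by simp)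
  have := Homot.homot (f := fun s x => G (x * (s * z)) (s * z))
    (c.comp (f := fun p : ℝ × ℂ => (p.2 * (p.1 * z), p.1 * z)) (by fun_prop) fun p hp => ⟨m _ hp.1 _ hp.2, m1 _ hp.1⟩)
    (fun s hs => (d _ (m1 s hs)).comp (by fun_prop) fun x hx => m s hs x (ball_subset_closedBall hx))
    (fun s hs x hx => h _ _ (by rw [norm_mul, mem_sphere_zero_iff_norm.1 hx, one_mul]) (mem_ball_zero_iff.1 (m1 s hs)))
    (fun x _ => h _ _ (by simp) (by simpa using z0.trans hz)) (t / z)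
    (by rw [mem_closedBall_zero_iff, norm_div]; exact (div_le_one z0).2 tz)
  simpa [norm_pos_iff.1 z0] using this

lemma zfree (hφ : DifferentiableOn ℂ φ (ball 0 1)) (h1 : ρ < 1)
    (h : ∀ x : ℂ, ‖x‖ = 1 → ∀ z ∈ ball (0 : ℂ) 1, ∑' n : ℕ, iteratedDeriv n φ 0 / n.factorial *
      (iteratedDeriv n (fun w : ℂ => (1 + x * w) ^ (α : ℂ) / (1 - w) ^ (β : ℂ)) 0 / n.factorial) * z ^ n ≠ 0)
    {t : ℂ} (ht : ‖t‖ < ρ) (hz : ‖z‖ < ρ) : Ig (fun ζ => φ ζ * pw α (t / ζ)) (pw (-β)) ρ z ≠ 0 := by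
  have h0 := (norm_nonneg _).trans_lt hz
  have c := hφ.continuousOn.mono (sphere_subset_closedBall.trans (closedBall_subset_ball h1))
  obtain ⟨G, hG⟩ : ∃ G : ℂ → ℂ → ℂ, G = fun t z => Ig (fun ζ => φ ζ * pw α (t / ζ)) (pw (-β)) ρ z := ⟨_, rfl⟩
  have cm : ∀ θ, circleMap 0 ρ θ ∈ sphere (0 : ℂ) ρ := circleMap_mem_sphere 0 h0.le
  have cG : ContinuousOn (Function.uncurry G) (ball 0 ρ ×ˢ ball 0 ρ) := by
    rw [continuousOn_iff_continuous_domRestrict, hG]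
    refine (intervalIntegral.continuous_parametric_intervalIntegral_of_continuous' (f := fun (p : ↥(ball (0 : ℂ) ρ ×ˢ ball (0 : ℂ) ρ)) θ =>
      φ (circleMap 0 ρ θ) * pw α (p.1.1 / circleMap 0 ρ θ) * pw (-β) (p.1.2 / circleMap 0 ρ θ)) (.mul (.mul
        (c.comp_continuous (by fun_prop) fun p => cm _) ((dpw' _).continuousOn.comp_continuous (.div (by fun_prop) (by fun_prop)
          fun p => nzs h0 (cm _)) fun p => mb (mem_ball_zero_iff.1 p.1.2.1) (cm _))) ((dpw' _).continuousOn.comp_continuous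
          (.div (by fun_prop) (by fun_prop) fun p => nzs h0 (cm _)) fun p => mb (mem_ball_zero_iff.1 p.1.2.2) (cm _))) _ _).const_smul _
  have e : ∀ t z, ‖t‖ = ‖z‖ → ‖z‖ < ρ → G t z ≠ 0 := fun t z tz hz => by
    obtain ⟨x, x1, rfl⟩ : ∃ x : ℂ, ‖x‖ = 1 ∧ t = -(x * z) := by
      rcases eq_or_ne z 0 with rfl | z0
      · exact ⟨1, by simp, by simpa using tz⟩
      · exact ⟨-t / z, by simp [tz, z0], by field_simp⟩
    have k := h x x1 z (mem_ball_zero_iff.2 (hz.trans h1))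
    rw [conv (g := fun w : ℂ => (1 + x * w) ^ (α : ℂ) / (1 - w) ^ (β : ℂ)) hφ (.div (.cpow_const (by fun_prop) fun w hw => mem_slitPlane_of_norm_lt_one (by simpa [x1] using hw))
      (dpw' β) fun w hw => cpow_ne_zero_iff.2 (Or.inl (slitPlane_ne_zero (sl hw)))) h1 hz] at k
    rw [hG]
    simpa [Ig, pw, cpow_neg, div_eq_mul_inv, mul_assoc] using k
  show (fun t z => Ig (fun ζ => φ ζ * pw α (t / ζ)) (pw (-β)) ρ z) t z ≠ 0
  rw [← hG]
  rcases le_total ‖t‖ ‖z‖ with d | d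
  · refine bidisc cG (fun z hz t ht => ?_) e d hz
    rw [show (fun t => G t z) = Ig (fun ζ => φ ζ * pw (-β) (z / ζ)) (pw α) ρ by rw [hG]; ext; simp [Ig, mul_right_comm]]
    exact (dI (c.mul (cg (dpw' _).continuousOn (mem_ball_zero_iff.1 hz))) (dpw' _)
      (mem_ball_zero_iff.1 ht)).differentiableAt.differentiableWithinAt
  · refine bidisc (G := fun z t => G t z) (cG.comp continuous_swap.continuousOn fun p hp => ⟨hp.2, hp.1⟩) (fun t ht z hz => ?_)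
      (fun z t e' h => e t z e'.symm (e' ▸ h)) d ht
    rw [hG]
    exact (dI (c.mul (cg (dpw' _).continuousOn (mem_ball_zero_iff.1 ht))) (dpw' _)
      (mem_ball_zero_iff.1 hz)).differentiableAt.differentiableWithinAt

theorem normal (hα : 1 ≤ α) (hβ : 1 ≤ β) {r : ℝ} (r1 : r < 1) : ∃ M : ℝ, ∀ φ : ℂ → ℂ, DifferentiableOn ℂ φ (ball 0 1) → φ 0 = 1 →
    (∀ x : ℂ, ‖x‖ = 1 → ∀ z ∈ ball (0 : ℂ) 1, ∑' n : ℕ, iteratedDeriv n φ 0 / n.factorial *
      (iteratedDeriv n (fun w : ℂ => (1 + x * w) ^ (α : ℂ) / (1 - w) ^ (β : ℂ)) 0 / n.factorial) * z ^ n ≠ 0) →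
    ∀ z : ℂ, ‖z‖ ≤ r → ‖φ z‖ ≤ M := by
  obtain ⟨j, hj⟩ := exists_nat_ge α
  have j1 : 1 ≤ j := by exact_mod_cast hα.trans hj
  have j0 : (1 : ℝ) ≤ j := by exact_mod_cast j1
  have hb : 1 ≤ β - α + j := by linarith
  obtain ⟨R, R0, rg⟩ := rigid hα hβ j1 hb (δ := (1 / (2 * j)) ^ j) (by positivity)
  obtain ⟨q, q0, q1⟩ := exists_between (max_lt one_pos r1)
  obtain ⟨q2, h2, h3⟩ := exists_between q1
  obtain ⟨σ, h4, h5⟩ := exists_between h3
  obtain ⟨ρ, h6, h1⟩ := exists_between h5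
  have qp := (le_max_left _ _).trans_lt q0
  have m0 : 0 ≤ max 0 r / q := by positivity
  have ρ0 : 0 < ρ := by linarith
  obtain ⟨s, hs⟩ : ∃ s, s = 2 * R / (σ - q2) := ⟨_, rfl⟩
  have s0 : 0 ≤ s := hs ▸ div_nonneg (by positivity) (by linarith)
  refine ⟨(1 + s * q) ^ j * Real.exp (|β - α| * s * q) * (1 - max 0 r / q)⁻¹, fun φ hφ h0 h z hz => ?_⟩
  have c := hφ.continuousOn.mono (sphere_subset_closedBall.trans (closedBall_subset_ball h1))
  obtain ⟨a, ha⟩ : ∃ a, a = J φ (β - α) ρ := ⟨_, rfl⟩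
  have sa : Sys (β - α) a ρ := ha ▸ sysJ c _
  have e : ∀ n t, ‖t‖ < ρ → J (fun ζ => φ ζ * pw α (t / ζ)) β ρ n t = a n t := fun n t ht => by
    rw [ha]
    unfold J Ig
    refine circleAverage_congr_sphere fun ζ h => ?_
    rw [abs_of_pos ρ0] at h
    simp only [pw]
    rw [mul_div_right_comm, mul_assoc, ← cpow_add _ _ (slitPlane_ne_zero (sl (mb ht h)))]
    push_cast
    ring_nf
  have nF : ∀ t z, ‖t‖ < ρ → ‖z‖ < ρ → J (fun ζ => φ ζ * pw α (t / ζ)) β ρ 0 z ≠ 0 := fun t z ht hz => by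
    simpa [J] using zfree hφ h1 h ht hz
  have na : ∀ t, ‖t‖ < ρ → a 0 t ≠ 0 := fun t ht => e 0 t ht ▸ nF t t ht ht
  have a0 : ∀ n, a n 0 = iteratedDeriv n φ 0 / n.factorial := fun n => by simp [ha, J, at0 hφ ρ0 h1, pw]
  obtain ⟨w, hw⟩ : ∃ w : ℂ → ℝ, w = fun t => ∑ n ∈ Finset.Icc 1 j, (‖a n t‖ / ‖a 0 t‖) ^ (n : ℝ)⁻¹ := ⟨_, rfl⟩
  have key : ∀ t, ‖t‖ < ρ → ∀ n, 1 ≤ n → ∀ s, 0 ≤ s → ((‖a n t‖ / ‖a 0 t‖) ^ (n : ℝ)⁻¹ ≤ s ↔ ‖a n t‖ ≤ s ^ n * ‖a 0 t‖) :=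
    fun t ht n hn s s0 => by
      rw [rpow_inv_le_iff_of_pos (by positivity) s0 (by exact_mod_cast hn), rpow_natCast, div_le_iff₀ (norm_pos_iff.2 (na t ht))]
  have wb : ∀ t, ‖t‖ < ρ → ∀ s, w t ≤ s → ∀ n, 1 ≤ n → n ≤ j → ‖a n t‖ ≤ s ^ n * ‖a 0 t‖ := fun t ht s hs n n1 nj => by
    have := (Finset.single_le_sum (f := fun n : ℕ => (‖a n t‖ / ‖a 0 t‖) ^ (n : ℝ)⁻¹) (fun _ _ => by positivity)
      (Finset.mem_Icc.2 ⟨n1, nj⟩)).trans (hw ▸ hs :)
    exact (key t ht n n1 s (le_trans (by positivity) this)).1 this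
  have sb : closedBall (0 : ℂ) σ ⊆ ball 0 ρ := closedBall_subset_ball h6
  obtain ⟨t, ht, mx⟩ := (isCompact_closedBall (0 : ℂ) σ).exists_isMaxOn ⟨0, mem_closedBall_self (by linarith)⟩
    (f := fun t => w t * (σ - ‖t‖)) (.mul (hw ▸ continuousOn_finsetSum _ fun n _ => .rpow_const (.div
      ((sa.dif n).continuousOn.mono sb).norm ((sa.dif 0).continuousOn.mono sb).norm fun t ht =>
        norm_ne_zero_iff.2 (na t (mem_ball_zero_iff.1 (sb ht)))) fun _ _ => Or.inr (by positivity)) (by fun_prop))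
  have tρ := mem_ball_zero_iff.1 (sb ht)
  have tσ := sub_nonneg.2 (mem_closedBall_zero_iff.1 ht)
  have N : w t * (σ - ‖t‖) ≤ 2 * R := by
    by_contra! H
    have w0 : 0 < w t := by by_contra! y; nlinarith [mul_nonneg (neg_nonneg.2 y) tσ]
    have d0 : 0 < σ - ‖t‖ := tσ.lt_of_ne fun e => by rw [← e] at H; linarith
    have T : (w t)⁻¹ * R ≤ (σ - ‖t‖) / 2 := by rw [inv_mul_le_iff₀ w0]; linarith
    have m : ∀ τ ∈ ball (0 : ℂ) R, ‖t + ((w t)⁻¹ : ℝ) * τ‖ ≤ (σ + ‖t‖) / 2 := fun τ hτ => (norm_add_le _ _).trans (by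
      have := mul_le_mul_of_nonneg_left (mem_ball_zero_iff.1 hτ).le (inv_pos.2 w0).le
      rw [norm_mul, norm_real, Real.norm_of_nonneg (inv_pos.2 w0).le]; linarith)
    have m' : ∀ τ ∈ ball (0 : ℂ) R, ‖t + ((w t)⁻¹ : ℝ) * τ‖ < ρ := fun τ hτ => by linarith [m τ hτ]
    have k := rg _ _ (sa.scale (t := t) (inv_pos.2 w0) (by linarith) (a 0 t))
      ((sysJ (ψ := fun ζ => φ ζ * pw α (t / ζ)) (c.mul (cg (dpw' α).continuousOn tρ)) β).scale (t := t) (inv_pos.2 w0) (by linarith) (a 0 t))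
      (fun n => by simp [e n t tρ]) (by simp [na t tρ])
      (fun τ hτ => by simpa [na t tρ] using na _ (m' τ hτ)) (fun τ hτ => by simpa [na t tρ] using nF t _ tρ (m' τ hτ))
      fun τ hτ n n1 nj => by
        have x : w (t + ((w t)⁻¹ : ℝ) * τ) * (σ - ‖t + ((w t)⁻¹ : ℝ) * τ‖) ≤ w t * (σ - ‖t‖) :=
          mx (mem_closedBall_zero_iff.2 (by linarith [m τ hτ]))
        have y := wb _ (m' τ hτ) (2 * w t) (by by_contra! y; nlinarith [m τ hτ]) n n1 nj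
        simp only [norm_div, norm_mul, norm_pow, norm_real, Real.norm_of_nonneg (inv_pos.2 w0).le, pow_zero, one_mul,
          ← mul_div_assoc]
        refine div_le_div_of_nonneg_right ?_ (norm_nonneg _)
        rw [inv_pow, inv_mul_le_iff₀ (by positivity)]
        exact y.trans_eq (by ring)
    have : w t ≤ ∑ n ∈ Finset.Icc 1 j, w t / (2 * j) := by
      nth_rewrite 1 [hw]
      refine Finset.sum_le_sum fun n hn => (key t tρ n (Finset.mem_Icc.1 hn).1 _ (by positivity)).2 ?_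
      have y := (k n (Finset.mem_Icc.1 hn).1).trans (pow_le_pow_of_le_one (by positivity)
        (by rw [div_le_one (by positivity)]; linarith) (Finset.mem_Icc.1 hn).2)
      simp only [norm_div, norm_mul, norm_pow, norm_real, Real.norm_of_nonneg (inv_pos.2 w0).le, mul_zero, add_zero] at y
      rw [div_le_iff₀ (norm_pos_iff.2 (na t tρ)), inv_pow, inv_mul_le_iff₀ (by positivity)] at y
      exact y.trans_eq (by ring)
    simp at this
    field_simp at this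
    linarith
  have cf := Sys.coef (R := q2) (fun n z hz => sa n z (ball_subset_ball (by linarith) hz)) j1 hb qp h2 s0 (by simp [a0, h0])
    (fun z hz => na z (by linarith [mem_ball_zero_iff.1 hz])) fun z hz => wb z (by linarith [mem_ball_zero_iff.1 hz]) s (by
      have x : w z * (σ - ‖z‖) ≤ w t * (σ - ‖t‖) := mx (mem_closedBall_zero_iff.2 (by linarith [mem_ball_zero_iff.1 hz]))
      have : 0 ≤ w z := hw ▸ Finset.sum_nonneg fun _ _ => by positivity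
      rw [hs, le_div_iff₀ (by linarith)]
      nlinarith [mem_ball_zero_iff.1 hz])
  refine (hasSum_taylorSeries_on_ball hφ (mem_ball_zero_iff.2 (hz.trans_lt r1))).norm_le_of_bounded
    ((hasSum_geometric_of_lt_one m0 ((div_lt_one qp).2 q0)).mul_left _) fun n => ?_
  rw [show (n.factorial : ℂ)⁻¹ • (z - 0) ^ n • iteratedDeriv n φ 0 = a n 0 * z ^ n by simp [a0]; ring, norm_mul, norm_pow]
  calc _ ≤ ‖a n 0‖ * (max 0 r) ^ n := by gcongr; exact le_max_of_le_right hz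
    _ = ‖a n 0‖ * q ^ n * (max 0 r / q) ^ n := by rw [div_pow]; field_simp
    _ ≤ _ := mul_le_mul_of_nonneg_right (cf n) (by positivity)

end Pool.Agent.Lib.Helper21.Epd
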