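import Mathlib

namespace Pool.Agent.Lib.Helper21.Erdos122

open Finset Filter Topology

noncomputable def T (y n : ℕ) : ℝ := ∑ d ∈ n.divisors.filter (fun d => y < d), (1 : ℝ) / d

theorem T_nonneg (y n : ℕ) : 0 ≤ T y n := Finset.sum_nonneg (fun _ _ => by positivity)

theorem sum_T (y X : ℕ) (hy : 0 < y) : ∑ n ∈ Ioc 0 X, T y n ≤ (X : ℝ) / y := by
  have h1 : ∀ n ∈ Ioc 0 X, T y n = ∑ d ∈ Ioc y X, if d ∣ n then (1 : ℝ) / d else 0 := by
    intro n hn
    rw [mem_Ioc] at hn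
    rw [T, ← Finset.sum_filter]
    apply Finset.sum_congr _ (fun _ _ => rfl)
    ext d
    simp only [mem_filter, Nat.mem_divisors, mem_Ioc]
    constructor
    · rintro ⟨⟨h1, h2⟩, h3⟩
      exact ⟨⟨h3, (Nat.le_of_dvd hn.1 h1).trans hn.2⟩, h1⟩
    · rintro ⟨⟨h1, h2⟩, h3⟩
      exact ⟨⟨h3, by omega⟩, h1⟩
  rw [Finset.sum_congr rfl h1, Finset.sum_comm]
  have h2 : ∀ d ∈ Ioc y X, (∑ n ∈ Ioc 0 X, if d ∣ n then (1 : ℝ) / d else 0)
      ≤ X * ((d : ℝ) ^ 2)⁻¹ := by
    intro d hd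
    rw [mem_Ioc] at hd
    have hd0 : (0 : ℝ) < d := by exact_mod_cast (by omega : 0 < d)
    rw [← Finset.sum_filter, Finset.sum_const, Nat.Ioc_filter_dvd_card_eq_div, nsmul_eq_mul]
    have : ((X / d : ℕ) : ℝ) ≤ (X : ℝ) / d := Nat.cast_div_le
    calc ((X / d : ℕ) : ℝ) * (1 / d) ≤ (X : ℝ) / d * (1 / d) := by gcongr
      _ = X * ((d : ℝ) ^ 2)⁻¹ := by field_simp
  refine (Finset.sum_le_sum h2).trans ?_
  rw [← Finset.mul_sum]
  rcases le_total y X with h | h
  · have := sum_Ioc_inv_sq_le_sub (α := ℝ) hy.ne' h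
    rw [div_eq_mul_inv]
    have h3 : (0 : ℝ) ≤ (X : ℝ)⁻¹ := by positivity
    gcongr
    linarith
  · rw [Finset.Ioc_eq_empty (by omega)]
    simp only [sum_empty, mul_zero]
    positivity

theorem markov (y X : ℕ) (hy : 0 < y) (ε : ℝ) (hε : 0 < ε) :
    (((Ioc 0 X).filter (fun n => ε < T y n)).card : ℝ) ≤ X / (y * ε) := by
  have h1 : (((Ioc 0 X).filter (fun n => ε < T y n)).card : ℝ) * ε ≤ X / y := by
    refine le_trans ?_ (sum_T y X hy)
    calc (((Ioc 0 X).filter (fun n => ε < T y n)).card : ℝ) * ε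
        = ∑ n ∈ (Ioc 0 X).filter (fun n => ε < T y n), ε := by simp
      _ ≤ ∑ n ∈ (Ioc 0 X).filter (fun n => ε < T y n), T y n :=
          Finset.sum_le_sum (fun n hn => (mem_filter.mp hn).2.le)
      _ ≤ _ := Finset.sum_le_sum_of_subset_of_nonneg (filter_subset _ _)
          (fun n _ _ => T_nonneg y n)
  rw [← div_div, le_div_iff₀ hε]
  exact h1

theorem card_class (S : Finset ℕ) (M r : ℕ) (hM : 0 < M) (D : ℝ) (hD : 0 ≤ D)
    (h1 : ∀ n ∈ S, n % M = r) (h2 : ∀ n ∈ S, ∀ m ∈ S, (n : ℝ) - m ≤ D) :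
    (S.card : ℝ) ≤ D / M + 1 := by
  rcases S.eq_empty_or_nonempty with rfl | hS
  · simp; positivity
  have hM' : (0 : ℝ) < M := by exact_mod_cast hM
  set a := S.min' hS
  have ha : a ∈ S := S.min'_mem hS
  have hle : S.card ≤ (range (⌊D / M⌋₊ + 1)).card := by
    apply Finset.card_le_card_of_injOn (fun n => n / M - a / M)
    · intro n hn
      have hn' : n ∈ S := by simpa using hn
      simp only [coe_range, Set.mem_Iio]
      rw [Nat.lt_succ_iff, Nat.le_floor_iff (by positivity), le_div_iff₀ hM']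
      have e1 := Nat.div_add_mod n M
      have e2 := Nat.div_add_mod a M
      rw [h1 n hn'] at e1
      rw [h1 a ha] at e2
      have hle : a / M ≤ n / M := Nat.div_le_div_right (S.min'_le n hn')
      have := h2 n hn' a ha
      rw [Nat.cast_sub hle]
      have e1' : (n : ℝ) = M * ((n / M : ℕ) : ℝ) + r := by exact_mod_cast e1.symm
      have e2' : (a : ℝ) = M * ((a / M : ℕ) : ℝ) + r := by exact_mod_cast e2.symm
      linarith
    · intro n hn m hm h
      have hn' : n ∈ S := by simpa using hn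
      have hm' : m ∈ S := by simpa using hm
      have hle : a / M ≤ n / M := Nat.div_le_div_right (S.min'_le n hn')
      have hle' : a / M ≤ m / M := Nat.div_le_div_right (S.min'_le m hm')
      simp only at h
      have e : n / M = m / M := by omega
      have e1 := Nat.div_add_mod n M
      have e2 := Nat.div_add_mod m M
      rw [h1 n hn', e] at e1
      rw [h1 m hm'] at e2
      omega
  rw [card_range] at hle
  have : (⌊D / M⌋₊ : ℝ) ≤ D / M := Nat.floor_le (by positivity)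
  have hle' : (S.card : ℝ) ≤ (⌊D / M⌋₊ : ℝ) + 1 := by exact_mod_cast hle
  linarith

noncomputable def hh (a : ℕ → ℝ) (y r : ℕ) : ℝ :=
  ∑ d ∈ (Ioc 0 y).filter (fun d => d ∣ r), a d / d

theorem approx (a : ℕ → ℝ) (ha : ∀ d, |a d| ≤ 1) (y n : ℕ) (hn : 0 < n) :
    |∑ d ∈ n.divisors, a d / d - hh a y (n % y.factorial)| ≤ T y n := by
  have e : hh a y (n % y.factorial) = ∑ d ∈ n.divisors.filter (fun d => ¬ y < d), a d / d := by
    rw [hh]
    apply Finset.sum_congr _ (fun _ _ => rfl)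
    ext d
    simp only [mem_filter, mem_Ioc, Nat.mem_divisors, not_lt]
    constructor
    · rintro ⟨⟨h1, h2⟩, h3⟩
      exact ⟨⟨(Nat.dvd_mod_iff (Nat.dvd_factorial h1 h2)).mp h3, hn.ne'⟩, h2⟩
    · rintro ⟨⟨h1, h2⟩, h3⟩
      have h0 : 0 < d := Nat.pos_of_dvd_of_pos h1 hn
      exact ⟨⟨h0, h3⟩, (Nat.dvd_mod_iff (Nat.dvd_factorial h0 h3)).mpr h1⟩
  rw [e, ← Finset.sum_filter_add_sum_filter_not n.divisors (fun d => y < d), add_sub_cancel_right]
  refine (Finset.abs_sum_le_sum_abs _ _).trans (Finset.sum_le_sum fun d _ => ?_)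
  rw [abs_div, Nat.abs_cast]
  gcongr
  exact ha d

theorem count (g a : ℕ → ℝ) (ha : ∀ d, |a d| ≤ 1) (hg0 : ∀ n, 0 ≤ g n) (hg00 : g 0 = 0)
    (hg : ∀ n, 0 < n → g n = n * ∑ d ∈ n.divisors, a d / d) (ε : ℝ) (hε : 0 < ε)
    (hε2 : ε ≤ 1 / 2) :
    ∀ᶠ x : ℕ in atTop, (({n : ℕ | (x : ℝ) < n + g n ∧ n + g n < x + ε * x}.ncard : ℕ) : ℝ)
      ≤ 13 * (ε * x) := by
  obtain ⟨y, hy⟩ : ∃ y : ℕ, 1 / ε ^ 2 < y := exists_nat_gt _
  have hy0 : (0 : ℝ) < y := lt_trans (by positivity) hy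
  have hy0' : 0 < y := by exact_mod_cast hy0
  set M := y.factorial with hM
  have hM0 : 0 < M := Nat.factorial_pos y
  have hev : ∀ᶠ x : ℕ in atTop, (M : ℝ) / ε ≤ x :=
    tendsto_natCast_atTop_atTop.eventually_ge_atTop _
  filter_upwards [hev] with x hx
  have hx' : (M : ℝ) ≤ ε * x := by rwa [div_le_iff₀' hε] at hx
  have hx0 : (0 : ℝ) ≤ x := by positivity
  classical
  set S : Finset ℕ := (Ioc 0 (2 * x)).filter
    (fun n => (x : ℝ) < n + g n ∧ n + g n < x + ε * x) with hS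
  have hSe : {n : ℕ | (x : ℝ) < n + g n ∧ n + g n < x + ε * x} = (S : Set ℕ) := by
    ext n
    simp only [hS, coe_filter, mem_Ioc, Set.mem_ofPred_eq]
    constructor
    · intro h
      refine ⟨⟨?_, ?_⟩, h⟩
      · rcases Nat.eq_zero_or_pos n with rfl | h0
        · rw [hg00] at h; simp at h; linarith [h.1]
        · exact h0
      · have : (n : ℝ) ≤ 2 * x := by nlinarith [hg0 n, h.2]
        exact_mod_cast this
    · exact fun h => h.2
  rw [hSe, Set.ncard_coe_finset]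
  have hsplit := Finset.card_filter_add_card_filter_not (s := S) (fun n => ε < T y n)
  have hbad : ((S.filter (fun n => ε < T y n)).card : ℝ) ≤ 2 * (ε * x) := by
    have h1 : (S.filter (fun n => ε < T y n)).card
        ≤ ((Ioc 0 (2 * x)).filter (fun n => ε < T y n)).card :=
      Finset.card_le_card (Finset.filter_subset_filter _ (filter_subset _ _))
    have h2 := markov y (2 * x) hy0' ε hε
    have h3 : ((2 * x : ℕ) : ℝ) / (y * ε) ≤ 2 * (ε * x) := by
      rw [div_le_iff₀ (by positivity)]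
      rw [div_lt_iff₀ (by positivity)] at hy
      push_cast
      nlinarith
    have h1' : ((S.filter (fun n => ε < T y n)).card : ℝ)
        ≤ (((Ioc 0 (2 * x)).filter (fun n => ε < T y n)).card : ℝ) := by exact_mod_cast h1
    linarith
  set G := S.filter (fun n => ¬ ε < T y n) with hG
  have hgood : ∀ n ∈ G, (x : ℝ) - 2 * (ε * x) ≤ n * (1 + hh a y (n % M)) ∧
      n * (1 + hh a y (n % M)) ≤ x + 3 * (ε * x) ∧ 1 / 2 ≤ 1 + hh a y (n % M) := by
    intro n hn
    simp only [hG, hS, mem_filter, mem_Ioc, not_lt] at hn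
    obtain ⟨⟨⟨h0, h1⟩, h2, h3⟩, h4⟩ := hn
    have h5 := (approx a ha y n h0).trans h4
    rw [abs_le] at h5
    have hn0 : (0 : ℝ) < n := by exact_mod_cast h0
    have hn1 : (n : ℝ) ≤ 2 * x := by exact_mod_cast h1
    have h6 := hg n h0
    have h7 := hg0 n
    set s := ∑ d ∈ n.divisors, a d / d
    have h8 : 0 ≤ s := by
      rw [h6] at h7
      exact nonneg_of_mul_nonneg_right h7 hn0 |> fun h => by
        by_contra hc
        push Not at hc
        nlinarith
    refine ⟨by nlinarith [h5.1, h5.2], by nlinarith [h5.1, h5.2], by linarith [h5.2]⟩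
  have hG1 : G.card = ∑ r ∈ range M, (G.filter (fun n => n % M = r)).card :=
    Finset.card_eq_sum_card_fiberwise (fun n _ => by simpa using Nat.mod_lt n hM0)
  have hG2 : ∀ r ∈ range M, ((G.filter (fun n => n % M = r)).card : ℝ)
      ≤ 10 * (ε * x) / M + 1 := by
    intro r _
    apply card_class _ M r hM0 _ (by positivity) (fun n hn => (mem_filter.mp hn).2)
    intro n hn m hm
    obtain ⟨hn1, hn2⟩ := mem_filter.mp hn
    obtain ⟨hm1, hm2⟩ := mem_filter.mp hm
    obtain ⟨-, a2, a3⟩ := hgood n hn1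
    obtain ⟨b1, -, -⟩ := hgood m hm1
    rw [hn2] at a2 a3
    rw [hm2] at b1
    by_contra hc
    push Not at hc
    have : 0 ≤ ε * x := by positivity
    nlinarith
  have hG3 : (G.card : ℝ) ≤ 10 * (ε * x) + M := by
    rw [hG1]
    push_cast
    refine (Finset.sum_le_sum hG2).trans ?_
    have hM' : (0 : ℝ) < M := by exact_mod_cast hM0
    simp only [sum_const, card_range, nsmul_eq_mul]
    apply le_of_eq
    field_simp
  have : (S.card : ℝ) = (S.filter (fun n => ε < T y n)).card + G.card := by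
    exact_mod_cast hsplit.symm
  linarith

theorem diag (P : ℕ → ℕ → Prop) (h : ∀ k, ∀ᶠ x in atTop, P k x) :
    ∃ κ : ℕ → ℕ, Tendsto κ atTop atTop ∧ ∀ᶠ x in atTop, P (κ x) x := by
  classical
  simp only [eventually_atTop] at h
  choose N hN using h
  refine ⟨fun x => Nat.findGreatest (fun k => N k + k ≤ x) x, ?_, ?_⟩
  · rw [tendsto_atTop_atTop]
    intro k
    exact ⟨N k + k, fun x hx => Nat.le_findGreatest (by omega) hx⟩
  · filter_upwards [eventually_ge_atTop (N 0)] with x hx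
    have := Nat.findGreatest_spec (P := fun k => N k + k ≤ x) (Nat.zero_le x) (by simpa using hx)
    exact hN _ _ (le_trans (Nat.le_add_right _ _) this)

theorem main (g a : ℕ → ℝ) (ha : ∀ d, |a d| ≤ 1) (hg0 : ∀ n, 0 ≤ g n) (hg00 : g 0 = 0)
    (hg : ∀ n, 0 < n → g n = n * ∑ d ∈ n.divisors, a d / d) :
    ∃ e : ℕ → ℝ, (∀ x, 0 < e x) ∧ Tendsto e atTop (𝓝 0) ∧
      Tendsto (fun x : ℕ => e x * x) atTop atTop ∧
      ∀ᶠ x : ℕ in atTop, (({n : ℕ | (x : ℝ) < n + g n ∧ n + g n < x + e x * x}.ncard : ℕ) : ℝ)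
        ≤ 13 * (e x * x) := by
  obtain ⟨κ, h1, h2⟩ := diag (fun k x => (k + 2) ^ 2 ≤ x ∧
    (({n : ℕ | (x : ℝ) < n + g n ∧ n + g n < x + (1 / ((k : ℝ) + 2)) * x}.ncard : ℕ) : ℝ)
        ≤ 13 * ((1 / ((k : ℝ) + 2)) * x)) (fun k => (eventually_ge_atTop _).and
      (count g a ha hg0 hg00 hg _ (by positivity) (by
        apply one_div_le_one_div_of_le (by norm_num)
        have : (0 : ℝ) ≤ k := by positivity
        linarith)))
  have h3 : Tendsto (fun x => (κ x : ℝ) + 2) atTop atTop :=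
    tendsto_atTop_add_const_right _ _ (tendsto_natCast_atTop_atTop.comp h1)
  refine ⟨fun x => 1 / ((κ x : ℝ) + 2), fun x => by positivity, ?_, ?_, h2.mono fun x hx => hx.2⟩
  · simp only [one_div]
    exact h3.inv_tendsto_atTop
  · refine tendsto_atTop_mono' _ (h2.mono fun x hx => ?_) h3
    have : (((κ x + 2) ^ 2 : ℕ) : ℝ) ≤ x := by exact_mod_cast hx.1
    push_cast at this
    change (κ x : ℝ) + 2 ≤ 1 / ((κ x : ℝ) + 2) * x
    rw [one_div, inv_mul_eq_div, le_div_iff₀ (by positivity)]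
    nlinarith

theorem sigma_eq (n : ℕ) (hn : 0 < n) :
    ((ArithmeticFunction.sigma 1 n : ℕ) : ℝ) = n * ∑ d ∈ n.divisors, (1 : ℝ) / d := by
  rw [ArithmeticFunction.sigma_one_apply, ← Nat.sum_div_divisors n (fun d => d), Finset.mul_sum]
  push_cast
  apply Finset.sum_congr rfl
  intro d hd
  have h := Nat.dvd_of_mem_divisors hd
  have h0 : (d : ℝ) ≠ 0 := by exact_mod_cast (Nat.pos_of_dvd_of_pos h hn).ne'
  rw [Nat.cast_div h h0]
  ring

theorem totient_eq (n : ℕ) (hn : 0 < n) :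
    ((Nat.totient n : ℕ) : ℝ)
      = n * ∑ d ∈ n.divisors, ((ArithmeticFunction.moebius d : ℤ) : ℝ) / d := by
  have := (ArithmeticFunction.sum_eq_iff_sum_mul_moebius_eq (R := ℝ)
    (f := fun n => ((Nat.totient n : ℕ) : ℝ)) (g := fun n => (n : ℝ))).mp
    (fun n _ => by exact_mod_cast Nat.sum_totient n) n hn
  rw [← this, Nat.sum_divisorsAntidiagonal
    (fun x y => ((ArithmeticFunction.moebius x : ℤ) : ℝ) * (y : ℝ)), Finset.mul_sum]
  apply Finset.sum_congr rfl
  intro d hd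
  have h := Nat.dvd_of_mem_divisors hd
  have h0 : (d : ℝ) ≠ 0 := by exact_mod_cast (Nat.pos_of_dvd_of_pos h hn).ne'
  rw [Nat.cast_div h h0]
  ring

theorem le_totient (n : ℕ) (hn : 0 < n) : (n : ℝ) ≤ Real.exp (2 * T 1 n) * Nat.totient n := by
  have h1 : ((Nat.totient n : ℕ) : ℝ) = n * ∏ p ∈ n.primeFactors, (1 - (p : ℝ)⁻¹) := by
    have := congrArg (fun q : ℚ => (q : ℝ)) (Nat.totient_eq_mul_prod_factors n)
    simpa using this
  have h2 : 2 * ∑ p ∈ n.primeFactors, (1 : ℝ) / p ≤ 2 * T 1 n := by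
    gcongr
    apply Finset.sum_le_sum_of_subset_of_nonneg
    · intro p hp
      have := Nat.mem_primeFactors.mp hp
      exact mem_filter.mpr ⟨Nat.mem_divisors.mpr ⟨this.2.1, this.2.2⟩, this.1.one_lt⟩
    · intro _ _ _; positivity
  have h3 : (1 : ℝ) ≤ Real.exp (2 * ∑ p ∈ n.primeFactors, (1 : ℝ) / p)
      * ∏ p ∈ n.primeFactors, (1 - (p : ℝ)⁻¹) := by
    rw [Finset.mul_sum, Real.exp_sum, ← Finset.prod_mul_distrib]
    refine le_trans (by simp) (Finset.prod_le_prod (f := fun _ => (1 : ℝ)) (fun _ _ => zero_le_one) ?_)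
    intro p hp
    have hp2 : (2 : ℝ) ≤ p := by exact_mod_cast (Nat.mem_primeFactors.mp hp).1.two_le
    have ht : (p : ℝ)⁻¹ ≤ 1 / 2 := by rw [← one_div]; exact one_div_le_one_div_of_le (by norm_num) hp2
    have ht0 : 0 ≤ (p : ℝ)⁻¹ := by positivity
    have := Real.add_one_le_exp (2 * (1 / (p : ℝ)))
    rw [one_div] at this ⊢
    nlinarith
  have h4 : 0 ≤ ∏ p ∈ n.primeFactors, (1 - (p : ℝ)⁻¹) := by
    have : (0 : ℝ) ≤ n * ∏ p ∈ n.primeFactors, (1 - (p : ℝ)⁻¹) := by rw [← h1]; positivity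
    exact nonneg_of_mul_nonneg_right this (by exact_mod_cast hn) |> fun _ =>
      (mul_nonneg_iff_of_pos_left (by exact_mod_cast hn)).mp this
  have h5 := Real.exp_le_exp.mpr h2
  have hn0 : (0 : ℝ) ≤ n := by positivity
  rw [h1]
  calc (n : ℝ) = n * 1 := by ring
    _ ≤ n * (Real.exp (2 * T 1 n) * ∏ p ∈ n.primeFactors, (1 - (p : ℝ)⁻¹)) := by
      gcongr
      exact h3.trans (by gcongr)
    _ = _ := by ring

end Pool.Agent.Lib.Helper21.Erdos122
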