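import Mathlib

/-! Transitive Sylow subgroups of finitary permutation groups and normal subgroups. -/

namespace Pool.Agent.Lib.Helper21.FinSylow

open MulAction Pointwise

variable {G Ω : Type*} [Group G] {p : ℕ}

def MaxP (p : ℕ) (P H : Subgroup G) : Prop :=
  P ≤ H ∧ IsPGroup p P ∧ ∀ R : Subgroup G, IsPGroup p R → P ≤ R → R ≤ H → R ≤ P

lemma inf_normal [Fact p.Prime] [Finite G] (V : Subgroup G) [hV : V.Normal] (P : Sylow p G)
    (R : Subgroup G) (hR : IsPGroup p R) (h1 : (P : Subgroup G) ⊓ V ≤ R) (h2 : R ≤ V) :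
    R ≤ P := by
  obtain ⟨P0, hP0⟩ := hR.exists_le_sylow
  obtain ⟨h, rfl⟩ := exists_smul_eq G P P0
  have h3 : Nat.card R ≤ Nat.card ((P : Subgroup G) ⊓ V : Subgroup G) := by
    refine Nat.card_le_card_of_injective
      (fun r : R => (⟨h⁻¹ * r * h, ?_, ?_⟩ : ((P : Subgroup G) ⊓ V : Subgroup G))) ?_
    · have := hP0 r.2
      rw [Sylow.coe_subgroup_smul, Subgroup.mem_pointwise_smul_iff_inv_smul_mem] at this
      have h4 : h⁻¹ * ↑r * h ∈ (P : Subgroup G) := by simpa using this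
      exact h4
    · simpa using hV.conj_mem _ (h2 r.2) h⁻¹
    · intro r r' hr
      have h5 : h⁻¹ * (r : G) * h = h⁻¹ * (r' : G) * h := congrArg Subtype.val hr
      exact Subtype.ext (by simpa using h5)
  have := Subgroup.eq_of_le_of_card_ge h1 h3
  rw [← this]
  exact inf_le_left

def MaxP.toSylow {P H : Subgroup G} (h : MaxP p P H) : Sylow p H where
  toSubgroup := P.subgroupOf H
  isPGroup' := h.2.1.comap_subtype
  is_maximal' := by
    intro Q hQ hle
    refine le_antisymm ?_ hle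
    intro x hx
    refine h.2.2 (Q.map H.subtype) (hQ.map _) ?_ (Subgroup.map_subtype_le _) ⟨x, hx, rfl⟩
    intro y hy
    exact ⟨⟨y, h.1 hy⟩, hle hy, rfl⟩

lemma MaxP.inf [Fact p.Prime] {P H V : Subgroup G} [Finite H] (h : MaxP p P H) (hVH : V ≤ H)
    (hn : H ≤ Subgroup.normalizer V) : MaxP p (P ⊓ V) V := by
  refine ⟨inf_le_right, h.2.1.to_inf_left, fun R hR h1 h2 => le_inf ?_ h2⟩
  have : (V.subgroupOf H).Normal := Subgroup.normal_subgroupOf_of_le_normalizer hn
  have := inf_normal (V.subgroupOf H) h.toSylow (R.subgroupOf H) hR.comap_subtype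
    (fun x hx => h1 hx) (fun x hx => h2 hx)
  intro x hx
  exact this (x := ⟨x, hVH (h2 hx)⟩) hx

lemma exists_maxP {X H : Subgroup G} (hX : IsPGroup p X) (hXH : X ≤ H) :
    ∃ P, X ≤ P ∧ MaxP p P H := by
  obtain ⟨Q, hQ⟩ := (hX.comap_subtype (K := H)).exists_le_sylow
  refine ⟨(Q : Subgroup H).map H.subtype, fun x hx => ⟨⟨x, hXH hx⟩, hQ hx, rfl⟩,
    Subgroup.map_subtype_le _, Q.isPGroup'.map _, fun R hR h1 h2 x hx => ?_⟩
  have := Q.is_maximal' (hR.comap_subtype (K := H)) (fun y hy => h1 ⟨y, hy, rfl⟩)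
  refine ⟨⟨x, h2 hx⟩, ?_, rfl⟩
  have h3 : (⟨x, h2 hx⟩ : H) ∈ Subgroup.comap H.subtype R := hx
  rw [this] at h3
  exact h3

lemma exists_finset {C : Set G} {d : G} (hd : d ∈ Subgroup.closure C) :
    ∃ C0 : Finset G, (C0 : Set G) ⊆ C ∧ d ∈ Subgroup.closure (C0 : Set G) := by
  classical
  induction hd using Subgroup.closure_induction with
  | mem c hc => exact ⟨{c}, by simpa using hc, Subgroup.subset_closure (by simp)⟩
  | one => exact ⟨∅, by simp, Subgroup.one_mem _⟩
  | mul a b _ _ ha hb =>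
    obtain ⟨A, h1, h2⟩ := ha
    obtain ⟨B, h3, h4⟩ := hb
    refine ⟨A ∪ B, by simp [h1, h3], Subgroup.mul_mem _ (Subgroup.closure_mono (by simp) h2)
      (Subgroup.closure_mono (by simp) h4)⟩
  | inv a _ ha =>
    obtain ⟨A, h1, h2⟩ := ha
    exact ⟨A, h1, Subgroup.inv_mem _ h2⟩

variable [MulAction G Ω]

def Fix (G : Type*) [Group G] [MulAction G Ω] (B : Set Ω) : Subgroup G where
  carrier := {g | ∀ x, x ∉ B → g • x = x}
  one_mem' := fun x _ => one_smul _ x
  mul_mem' := fun {a b} ha hb x hx => by rw [mul_smul, hb x hx, ha x hx]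
  inv_mem' := fun {a} ha x hx => by rw [inv_smul_eq_iff, ha x hx]

lemma Fix.smul_mem {B : Set Ω} {g : G} (hg : g ∈ Fix G B) {x : Ω} (hx : x ∈ B) : g • x ∈ B := by
  by_contra h
  have := hg _ h
  rw [smul_left_cancel_iff] at this
  exact h (this.symm ▸ hx)

lemma Fix.finite [FaithfulSMul G Ω] {B : Set Ω} (hB : B.Finite) : Finite (Fix G B) := by
  have := hB.to_subtype
  refine Finite.of_injective
    (fun g : Fix G B => fun x : B => (⟨g.1 • x.1, Fix.smul_mem g.2 x.2⟩ : B)) ?_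
  intro g g' h
  apply Subtype.ext
  apply eq_of_smul_eq_smul (α := Ω)
  intro x
  by_cases hx : x ∈ B
  · exact congrArg Subtype.val (congrFun h ⟨x, hx⟩)
  · rw [g.2 x hx, g'.2 x hx]

lemma finite_closure [FaithfulSMul G Ω] (hf : ∀ g : G, {x : Ω | g • x ≠ x}.Finite) {X : Set G}
    (hX : X.Finite) : Finite (Subgroup.closure X) := by
  have hB : (⋃ g ∈ X, {x : Ω | g • x ≠ x}).Finite := hX.biUnion fun g _ => hf g
  have := Fix.finite (G := G) hB
  have : Subgroup.closure X ≤ Fix G (⋃ g ∈ X, {x : Ω | g • x ≠ x}) := by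
    rw [Subgroup.closure_le]
    intro g hg x hx
    by_contra h
    exact hx (Set.mem_biUnion hg h)
  exact Finite.of_injective _ (Subgroup.inclusion_injective this)

lemma orbit_bound [Fact p.Prime] {C : Set G} [Finite (Subgroup.closure C)]
    (hp : IsPGroup p (Subgroup.closure C)) (α : Ω) :
    (∀ d ∈ Subgroup.closure C, d • α = α) ∨
      ∃ c ∈ C, ∀ d ∈ Subgroup.closure C, c • d • α ≠ d • α := by
  set D := Subgroup.closure C with hD
  rcases eq_top_or_exists_le_coatom (stabilizer D α) with h | ⟨M, hM, hle⟩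
  · left
    intro d hd
    have : (⟨d, hd⟩ : D) ∈ stabilizer D α := by rw [h]; trivial
    exact this
  · right
    have := hp.isNilpotent
    have hn : M.Normal :=
      Subgroup.NormalizerCondition.normal_of_coatom M Group.normalizerCondition_of_isNilpotent hM
    by_contra hc
    push Not at hc
    apply hM.1
    have h1 : D ≤ M.map D.subtype := by
      refine (Subgroup.closure_le _).2 ?_
      intro c hc'
      obtain ⟨d, hd, h2⟩ := hc c hc'
      have hcD : c ∈ D := Subgroup.subset_closure hc'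
      have h3 : (⟨d, hd⟩⁻¹ * ⟨c, hcD⟩ * ⟨d, hd⟩ : D) ∈ stabilizer D α := by
        change (d⁻¹ * c * d) • α = α
        rw [mul_smul, mul_smul, h2, inv_smul_smul]
      have h4 := hn.conj_mem _ (hle h3) ⟨d, hd⟩
      refine ⟨⟨c, hcD⟩, ?_, rfl⟩
      have h5 : (⟨d, hd⟩ * (⟨d, hd⟩⁻¹ * ⟨c, hcD⟩ * ⟨d, hd⟩) * ⟨d, hd⟩⁻¹ : D) = ⟨c, hcD⟩ := by
        group
      rwa [h5] at h4
    rw [eq_top_iff]
    intro x _
    obtain ⟨y, hy, hxy⟩ := h1 x.2
    have : y = x := Subtype.ext hxy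
    exact this ▸ hy

lemma exists_block [Fact p.Prime] [FaithfulSMul G Ω] (hf : ∀ g : G, {x : Ω | g • x ≠ x}.Finite)
    {S : Subgroup G} (hS : IsPGroup p S) (ht : ∀ x y : Ω, ∃ s ∈ S, s • x = y) {Δ : Set Ω}
    (hΔ : Δ.Finite) : ∃ B : Set Ω, B.Finite ∧ Δ ⊆ B ∧
      ∀ s ∈ S, (∃ x ∈ B, s • x ∈ B) → ∀ x ∈ B, s • x ∈ B := by
  classical
  rcases Δ.eq_empty_or_nonempty with rfl | ⟨α, -⟩
  · exact ⟨∅, Set.finite_empty, subset_rfl, fun _ _ _ x hx => hx.elim⟩
  choose s hs hs' using ht α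
  obtain ⟨n, hn⟩ := (hΔ.image fun δ => {x : Ω | s δ • x ≠ x}.ncard).bddAbove
  let C : Set G := {c | c ∈ S ∧ {x : Ω | c • x ≠ x}.ncard ≤ n}
  have hDS : Subgroup.closure C ≤ S := (Subgroup.closure_le _).2 fun c hc => hc.1
  have hconj : ∀ t ∈ S, ∀ d ∈ Subgroup.closure C, t * d * t⁻¹ ∈ Subgroup.closure C := by
    intro t ht d hd
    induction hd using Subgroup.closure_induction with
    | mem c hc =>
      refine Subgroup.subset_closure ⟨S.mul_mem (S.mul_mem ht hc.1) (S.inv_mem ht), ?_⟩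
      refine le_trans ?_ hc.2
      refine Set.ncard_le_ncard_of_injOn (fun x => t⁻¹ • x) ?_ ?_ (hf c)
      · intro x hx h
        apply hx
        rw [mul_smul, mul_smul, h, smul_inv_smul]
      · intro x _ y _ h
        exact smul_left_cancel _ h
    | one => simp
    | mul a b _ _ ha hb =>
      have : t * (a * b) * t⁻¹ = (t * a * t⁻¹) * (t * b * t⁻¹) := by group
      rw [this]; exact Subgroup.mul_mem _ ha hb
    | inv a _ ha =>
      have : t * a⁻¹ * t⁻¹ = (t * a * t⁻¹)⁻¹ := by group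
      rw [this]; exact Subgroup.inv_mem _ ha
  refine ⟨{y | ∃ d ∈ Subgroup.closure C, d • α = y}, ?_, ?_, ?_⟩
  · by_contra hinf
    obtain ⟨F, hF, hcard⟩ := Set.Infinite.exists_subset_card_eq hinf (n + 2)
    have h1 : ∀ y ∈ F, ∃ C0 : Finset G, (C0 : Set G) ⊆ C ∧
        ∃ d ∈ Subgroup.closure (C0 : Set G), d • α = y := by
      intro y hy
      obtain ⟨d, hd, rfl⟩ := hF hy
      obtain ⟨C0, h2, h3⟩ := exists_finset hd
      exact ⟨C0, h2, d, h3, rfl⟩
    choose! C0 h2 h3 using h1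
    let C1 : Set G := ⋃ y ∈ (F : Set Ω), (C0 y : Set G)
    have hC1 : C1.Finite := F.finite_toSet.biUnion fun y _ => (C0 y).finite_toSet
    have hC1C : C1 ⊆ C := Set.iUnion₂_subset fun y hy => h2 y hy
    have := finite_closure hf hC1
    have h4 : ∀ y ∈ F, ∃ d ∈ Subgroup.closure C1, d • α = y := by
      intro y hy
      obtain ⟨d, hd, hd'⟩ := h3 y hy
      exact ⟨d, Subgroup.closure_mono (Set.subset_biUnion_of_mem (u := fun y => (C0 y : Set G))
        (show y ∈ (F : Set Ω) from hy)) hd, hd'⟩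
    rcases orbit_bound (p := p) (C := C1)
      (hS.to_le ((Subgroup.closure_mono hC1C).trans hDS)) α with h | ⟨c, hc, h⟩
    · have : F ⊆ {α} := by
        intro y hy
        obtain ⟨d, hd, rfl⟩ := h4 y hy
        rw [h d hd]; simp
      have := Finset.card_le_card this
      simp at this
      omega
    · have h5 : (F : Set Ω) ⊆ {x | c • x ≠ x} := by
        intro y hy
        obtain ⟨d, hd, rfl⟩ := h4 y hy
        exact h d hd
      have h6 := Set.ncard_le_ncard h5 (hf c)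
      rw [Set.ncard_coe_finset] at h6
      have := (hC1C hc).2
      omega
  · intro δ hδ
    exact ⟨s δ, Subgroup.subset_closure ⟨hs δ, hn ⟨δ, hδ, rfl⟩⟩, hs' δ⟩
  · rintro t ht ⟨_, ⟨d, hd, rfl⟩, ⟨d', hd', h⟩⟩ _ ⟨e, he, rfl⟩
    refine ⟨(t * (e * d⁻¹) * t⁻¹) * d',
      Subgroup.mul_mem _ (hconj t ht _ (Subgroup.mul_mem _ he (Subgroup.inv_mem _ hd))) hd', ?_⟩
    rw [mul_smul, h]
    simp [mul_smul]

lemma maxP_inf [Fact p.Prime] [FaithfulSMul G Ω] (hf : ∀ g : G, {x : Ω | g • x ≠ x}.Finite)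
    (S : Sylow p G) (N : Subgroup G) [hN : N.Normal] {B : Set Ω} (hB : B.Finite)
    (hb : ∀ s ∈ (S : Subgroup G), (∃ x ∈ B, s • x ∈ B) → ∀ x ∈ B, s • x ∈ B) :
    MaxP p ((S : Subgroup G) ⊓ (Fix G B ⊓ N)) (Fix G B ⊓ N) := by
  classical
  set K : Subgroup G := Fix G B ⊓ N with hK
  have := Fix.finite (G := G) hB
  have hKfin : Finite K := Finite.of_injective _ (Subgroup.inclusion_injective inf_le_left)
  let V0 : Subgroup G :=
    { carrier := {g | ∀ s ∈ (S : Subgroup G), ∀ x, s • g • x ∈ B ↔ s • x ∈ B}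
      one_mem' := fun s _ x => by rw [one_smul]
      mul_mem' := fun {a b} ha hb s hs x => by rw [mul_smul, ha s hs, hb s hs]
      inv_mem' := fun {a} ha s hs x => by rw [← ha s hs, smul_inv_smul] }
  have hKV : K ≤ V0 := by
    intro k hk s hs x
    by_cases hx : x ∈ B
    · have hkx := Fix.smul_mem hk.1 hx
      exact ⟨fun h => hb s hs ⟨_, hkx, h⟩ x hx, fun h => hb s hs ⟨_, hx, h⟩ _ hkx⟩
    · rw [hk.1 x hx]
  have hSV : (S : Subgroup G) ≤ Subgroup.normalizer V0 := by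
    have aux : ∀ t ∈ (S : Subgroup G), ∀ g ∈ V0, t * g * t⁻¹ ∈ V0 := by
      intro t ht g hg s hs x
      have := hg (s * t) (Subgroup.mul_mem _ hs ht) (t⁻¹ • x)
      simpa [mul_smul] using this
    intro t ht
    rw [Subgroup.mem_normalizer_iff]
    intro g
    refine ⟨aux t ht g, fun h => ?_⟩
    have := aux t⁻¹ (Subgroup.inv_mem _ ht) _ h
    simpa [mul_assoc] using this
  have hVK : V0 ≤ Subgroup.normalizer K := by
    have aux : ∀ v ∈ V0, ∀ k ∈ K, v * k * v⁻¹ ∈ K := by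
      intro v hv k hk
      refine ⟨fun x hx => ?_, hN.conj_mem _ hk.2 v⟩
      have h1 := hv 1 (Subgroup.one_mem _) (v⁻¹ • x)
      simp only [one_smul, smul_inv_smul] at h1
      rw [mul_smul, mul_smul, hk.1 _ (fun h => hx (h1.2 h)), smul_inv_smul]
    intro t ht
    rw [Subgroup.mem_normalizer_iff]
    intro g
    refine ⟨aux t ht g, fun h => ?_⟩
    have := aux t⁻¹ (Subgroup.inv_mem _ ht) _ h
    simpa [mul_assoc] using this
  have step : ∀ X : Finset S, ∃ P : Subgroup G, IsPGroup p P ∧ (∀ s ∈ X, s.1 ∈ P) ∧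
      MaxP p (P ⊓ K) K := by
    intro X
    let X' : Set G := Subtype.val '' (X : Set S)
    have hX' : X' ⊆ (S : Subgroup G) := by rintro _ ⟨s, _, rfl⟩; exact s.2
    let W := Subgroup.closure (X' ∪ K)
    have : Finite W := finite_closure hf ((X.finite_toSet.image _).union (Set.toFinite _))
    have hKW : K ≤ W := fun k hk => Subgroup.subset_closure (Or.inr hk)
    obtain ⟨P, hP1, hP2⟩ := exists_maxP (p := p) (X := Subgroup.closure X') (H := W)
      (S.isPGroup'.to_le ((Subgroup.closure_le _).2 hX'))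
      (Subgroup.closure_mono Set.subset_union_left)
    have hW : W ≤ Subgroup.normalizer V0 := by
      rw [Subgroup.closure_le]
      rintro g (hg | hg)
      · exact hSV (hX' hg)
      · exact Subgroup.le_normalizer (hKV hg)
    have hW' : W ≤ Subgroup.normalizer (V0 ⊓ W : Subgroup G) := by
      intro w hw
      rw [Subgroup.mem_normalizer_iff]
      intro g
      have h1 := (Subgroup.mem_normalizer_iff.1 (hW hw)) g
      have h2 := (Subgroup.mem_normalizer_iff.1 (Subgroup.le_normalizer hw)) g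
      exact and_congr h1 h2
    have h3 := hP2.inf (V := V0 ⊓ W) inf_le_right hW'
    have : Finite (V0 ⊓ W : Subgroup G) :=
      Finite.of_injective _ (Subgroup.inclusion_injective inf_le_right)
    have h4 := h3.inf (V := K) (le_inf hKV hKW) (inf_le_left.trans hVK)
    have h5 : P ⊓ (V0 ⊓ W) ⊓ K = P ⊓ K := by
      rw [inf_assoc, inf_eq_right.2 (le_inf hKV hKW)]
    rw [h5] at h4
    exact ⟨P, hP2.2.1, fun s hs => hP1 (Subgroup.subset_closure ⟨s, hs, rfl⟩), h4⟩
  choose P hP1 hP2 hP3 using step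
  let U : Ultrafilter (Finset S) := Ultrafilter.of Filter.atTop
  have hU : (U : Filter (Finset S)) ≤ Filter.atTop := Ultrafilter.of_le _
  let T : Subgroup G :=
    { carrier := {g | ∀ᶠ X in (U : Filter (Finset S)), g ∈ P X}
      one_mem' := Filter.Eventually.of_forall fun X => (P X).one_mem
      mul_mem' := fun {a b} ha hb => (Filter.Eventually.and ha hb).mono fun X h =>
        (P X).mul_mem h.1 h.2
      inv_mem' := fun {a} ha => Filter.Eventually.mono ha fun X h => (P X).inv_mem h }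
  have hT : T = S := by
    apply S.is_maximal'
    · rintro ⟨g, hg⟩
      obtain ⟨X, hX⟩ := Filter.Eventually.exists hg
      obtain ⟨k, hk⟩ := hP1 X ⟨g, hX⟩
      have hk' : g ^ p ^ k = 1 := congrArg Subtype.val hk
      exact ⟨k, Subtype.ext hk'⟩
    · intro s hs
      refine hU (Filter.mem_atTop_sets.2 ⟨{⟨s, hs⟩}, fun X hX => ?_⟩)
      exact hP2 X ⟨s, hs⟩ (hX (Finset.mem_singleton_self _))
  have h6 : ∀ᶠ X in (U : Filter (Finset S)), ∀ k : K, (k.1 ∈ T ↔ k.1 ∈ P X) := by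
    rw [Filter.eventually_all]
    intro k
    by_cases hk : k.1 ∈ T
    · exact Filter.Eventually.mono hk fun X h => iff_of_true hk h
    · have := Ultrafilter.eventually_not.2 hk
      exact this.mono fun X h => iff_of_false hk h
  obtain ⟨X, hX⟩ := h6.exists
  have : (S : Subgroup G) ⊓ K = P X ⊓ K := by
    rw [← hT]
    ext g
    exact and_congr_left fun hg => hX ⟨g, hg⟩
  rw [this]
  exact hP3 X

theorem inter_sylow [Fact p.Prime] [FaithfulSMul G Ω] (hf : ∀ g : G, {x : Ω | g • x ≠ x}.Finite)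
    (S : Sylow p G) (ht : ∀ x y : Ω, ∃ s ∈ (S : Subgroup G), s • x = y) (N : Subgroup G)
    [hN : N.Normal] (R : Subgroup N) (hR : IsPGroup p R)
    (hle : (S : Subgroup G).subgroupOf N ≤ R) : R = (S : Subgroup G).subgroupOf N := by
  refine le_antisymm ?_ hle
  intro x hx
  obtain ⟨B, hB, h1, h2⟩ := exists_block hf S.isPGroup' ht (hf x.1)
  have h3 := maxP_inf hf S N hB h2
  have h4 := h3.2.2 (R.map N.subtype ⊓ (Fix G B ⊓ N)) (hR.map _).to_inf_left
    (fun g hg => ⟨⟨⟨g, hg.2.2⟩, hle hg.1, rfl⟩, hg.2⟩) inf_le_right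
  refine (h4 (x := x.1) ⟨⟨x, hx, rfl⟩, fun y hy => ?_, x.2⟩).1
  by_contra h
  exact hy (h1 h)

theorem quot_sylow [Fact p.Prime] [FaithfulSMul G Ω] (hf : ∀ g : G, {x : Ω | g • x ≠ x}.Finite)
    (S : Sylow p G) (ht : ∀ x y : Ω, ∃ s ∈ (S : Subgroup G), s • x = y) (N : Subgroup G)
    [hN : N.Normal] (R : Subgroup (G ⧸ N)) (hR : IsPGroup p R)
    (hle : (S : Subgroup G).map (QuotientGroup.mk' N) ≤ R) :
    R = (S : Subgroup G).map (QuotientGroup.mk' N) := by
  refine le_antisymm ?_ hle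
  intro y hy
  obtain ⟨x, rfl⟩ := QuotientGroup.mk'_surjective N y
  obtain ⟨B, hB, h1, h2⟩ := exists_block hf S.isPGroup' ht (hf x)
  have h3 := maxP_inf hf S ⊤ hB h2
  rw [inf_top_eq] at h3
  have := Fix.finite (G := G) hB
  have hx : x ∈ Fix G B := by
    intro z hz
    by_contra h
    exact hz (h1 h)
  let f : Fix G B →* G ⧸ N := (QuotientGroup.mk' N).comp (Fix G B).subtype
  let Q := h3.toSylow.mapSurjective f.rangeRestrict_surjective
  have h4 := Q.is_maximal' (hR.comap_subtype (K := f.range)) (by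
    rintro _ ⟨g, hg, rfl⟩
    exact hle ⟨g.1, hg.1, rfl⟩)
  have h5 : f.rangeRestrict ⟨x, hx⟩ ∈ Subgroup.comap f.range.subtype R := hy
  rw [h4] at h5
  obtain ⟨g, hg, hg'⟩ := h5
  exact ⟨g.1, hg.1, congrArg Subtype.val hg'⟩

end Pool.Agent.Lib.Helper21.FinSylow
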