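import Mathlib

/-! A Lyapunov function for `u (n+k+1) = u (n+k) - b tanh (u n)`. -/

set_option autoImplicit false

namespace Pool.Agent.Lib.Helper21.Geno

open Real Finset Filter Topology

noncomputable def P (x : ℝ) : ℝ := log (cosh x)

lemma P_nn (x : ℝ) : 0 ≤ P x := log_nonneg (one_le_cosh x)
lemma cP : Continuous P := continuous_cosh.log fun x => (cosh_pos x).ne'
lemma cT : Continuous tanh := by
  rw [funext tanh_eq_sinh_div_cosh]; exact continuous_sinh.div continuous_cosh fun x => (cosh_pos x).ne'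

lemma breg {a c : ℝ} (h : a ≠ c) : P a + tanh a * (c - a) < P c := by
  have t1 := tanh_lt_one a
  have t2 := neg_one_lt_tanh a
  have k := strictConvexOn_exp.2 (Set.mem_univ (c - a)) (Set.mem_univ (-(c - a))) (fun e => h (by linarith))
    (show 0 < (1 + tanh a) / 2 by linarith) (show 0 < (1 - tanh a) / 2 by linarith) (by ring)
  rw [P, P, lt_log_iff_exp_lt (cosh_pos c), exp_add, exp_log (cosh_pos a),
    show cosh c = cosh (a + (c - a)) by ring_nf, cosh_add, cosh_eq (c - a), sinh_eq (c - a),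
    show sinh a = tanh a * cosh a by rw [tanh_eq_sinh_div_cosh]; field_simp]
  simp only [smul_eq_mul] at k
  rw [show tanh a * (c - a) = (1 + tanh a) / 2 * (c - a) + (1 - tanh a) / 2 * -(c - a) by ring]
  nlinarith [mul_lt_mul_of_pos_left k (cosh_pos a)]

lemma breg' (a c : ℝ) : P a + tanh a * (c - a) ≤ P c := by
  rcases eq_or_ne a c with rfl | h
  · simp
  · exact (breg h).le

lemma T_sq {u : ℝ} (h : u ≠ 0) : tanh u ^ 2 < u ^ 2 := by
  wlog u0 : 0 < u generalizing u
  · simpa using this (neg_ne_zero.2 h) (by rcases lt_or_gt_of_ne h with c | c <;> [linarith; exact absurd c u0])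
  have t1 := tanh_lt_one u
  have t0 : 0 < tanh u := by rw [tanh_eq_sinh_div_cosh]; exact div_pos (sinh_pos_iff.2 u0) (cosh_pos u)
  have e := artanh_eq_half_log (x := tanh u) ⟨by linarith, t1.le⟩
  have k := lt_log_one_add_of_pos (x := 2 * tanh u / (1 - tanh u)) (div_pos (by linarith) (by linarith))
  have s : 1 - tanh u ≠ 0 := by linarith
  rw [show 1 + 2 * tanh u / (1 - tanh u) = (1 + tanh u) / (1 - tanh u) by field_simp; ring,
    show 2 * (2 * tanh u / (1 - tanh u)) / (2 * tanh u / (1 - tanh u) + 2) = 2 * tanh u by field_simp; ring] at k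
  rw [artanh_tanh] at e
  exact pow_lt_pow_left₀ (by linarith) t0.le two_ne_zero

lemma P_ge {ρ : ℝ} (h : ρ < 1) : ∀ᶠ x in 𝓝 (0 : ℝ), ρ * x ^ 2 / 2 ≤ P x := by
  have : ∀ᶠ x in 𝓝 (0 : ℝ), ρ * (x ^ 2 / 4 + 1) < 1 :=
    (show Continuous fun x : ℝ => ρ * (x ^ 2 / 4 + 1) by fun_prop).continuousAt.eventually_lt continuousAt_const (by simpa)
  filter_upwards [this] with x hx
  have c : 1 + x ^ 2 / 2 ≤ cosh x := by
    have h1 := cosh_two_mul (x / 2)
    have h2 := cosh_sq (x / 2)
    have h3 : (x / 2) ^ 2 ≤ sinh (x / 2) ^ 2 := sq_le_sq.2 (by rw [abs_sinh]; exact self_le_sinh_iff.2 (abs_nonneg _))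
    rw [show 2 * (x / 2) = x by ring] at h1
    nlinarith
  refine le_trans ?_ ((le_log_one_add_of_nonneg (x := x ^ 2 / 2) (by positivity)).trans (log_le_log (by positivity) c))
  rw [le_div_iff₀ (by positivity)]
  nlinarith [mul_le_mul_of_nonneg_left hx.le (sq_nonneg x)]

lemma dir {m : ℕ} (hm : 2 ≤ m) {v : ℕ → ℝ} (v0 : v 0 = 0) (vm : v m = 0) :
    ∑ j ∈ range m, (2 * v j * v (j + 1) - 2 * cos (π / m) * v j ^ 2) ≤ 0 := by
  have m0 : (0 : ℝ) < m := by positivity
  have sp : ∀ n : ℕ, n + 1 < m → 0 < sin ((n + 1) * (π / m)) := fun n hn =>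
    sin_pos_of_pos_of_lt_pi (by positivity) (by
      rw [← mul_div_assoc, div_lt_iff₀ m0, mul_comm]; gcongr; exact_mod_cast hn)
  have rc : ∀ n : ℕ, sin (n * (π / m)) + sin ((n + 1 + 1) * (π / m)) = 2 * cos (π / m) * sin ((n + 1) * (π / m)) :=
    fun n => by
      rw [show n * (π / m) = (n + 1) * (π / m) - π / m by ring, show (n + 1 + 1) * (π / m) = (n + 1) * (π / m) + π / m by ring,
        sin_sub, sin_add]; ring
  have k : ∀ n : ℕ, n + 1 < m → sin ((n + 1) * (π / m)) *
      ∑ j ∈ range (n + 1), (2 * v j * v (j + 1) - 2 * cos (π / m) * v j ^ 2) ≤ sin (n * (π / m)) * v (n + 1) ^ 2 := by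
    intro n hn
    induction n with
    | zero => simp [v0]
    | succ n ih =>
      have h1 := mul_le_mul_of_nonneg_left (ih (by omega)) (sp (n + 1) hn).le
      refine le_of_mul_le_mul_left ?_ (sp n (by omega))
      rw [sum_range_succ]
      push_cast at h1 ⊢
      have h2 := rc n
      generalize sin ((n + 1 + 1) * (π / m)) = s2 at *
      rw [show sin (n * (π / m)) = 2 * cos (π / m) * sin ((n + 1) * (π / m)) - s2 by linarith] at h1
      nlinarith [sq_nonneg (s2 * v (n + 1) - sin ((n + 1) * (π / m)) * v (n + 1 + 1))]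
  obtain ⟨n, rfl⟩ : ∃ n, m = n + 2 := ⟨m - 2, by omega⟩
  have h1 := k n (by omega)
  have h2 := rc n
  rw [show ((n : ℝ) + 1 + 1) * (π / (n + 2 : ℕ)) = π by push_cast; field_simp; ring, sin_pi] at h2
  refine le_of_mul_le_mul_left ?_ (sp n (by omega))
  rw [sum_range_succ, show v (n + 1 + 1) = 0 from vm]
  rw [show sin (n * (π / (n + 2 : ℕ))) = _ from (add_zero _).symm.trans h2] at h1
  nlinarith

lemma wirt {m : ℕ} (hm : 2 ≤ m) {u : ℕ → ℝ} (h : u m = -u 0) :
    ∑ j ∈ range m, (2 * u j * u (j + 1) - 2 * cos (π / m) * u j ^ 2) ≤ 0 := by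
  have m0 : (m : ℝ) ≠ 0 := by positivity
  obtain ⟨θ, hθ⟩ : ∃ θ, θ = π / m := ⟨_, rfl⟩
  have em : m * θ = π := by rw [hθ]; field_simp
  have k : ∀ n : ℕ, ∑ j ∈ range n, (2 * u j * u (j + 1) - 2 * cos θ * u j ^ 2) =
      ∑ j ∈ range n, (2 * (u j - u 0 * cos (j * θ)) * (u (j + 1) - u 0 * cos ((j + 1 : ℕ) * θ)) -
        2 * cos θ * (u j - u 0 * cos (j * θ)) ^ 2) +
        2 * u 0 * cos (n * θ - θ) * (u n - u 0 * cos (n * θ)) + u 0 ^ 2 * (cos (n * θ - θ) * cos (n * θ) - cos θ) := by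
    intro n
    induction n with
    | zero => simp
    | succ n ih =>
      rw [sum_range_succ, sum_range_succ, ih]
      push_cast
      rw [show (n + 1) * θ - θ = n * θ by ring, show (n + 1) * θ = n * θ + θ by ring, cos_add, cos_sub]
      ring
  have := dir hm (v := fun j => u j - u 0 * cos (j * θ)) (by simp) (by simp [em, h])
  rw [← hθ] at this ⊢
  rw [k, em, h]
  simpa using this

def Orb (k : ℕ) (b : ℝ) (u : ℕ → ℝ) : Prop := ∀ n, u (n + k + 1) = u (n + k) - b * tanh (u n)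

noncomputable def V (k : ℕ) (b : ℝ) (u : ℕ → ℝ) (n : ℕ) : ℝ :=
  u (n + k) * u (n + 2 * k) + b * (∑ l ∈ range k, u (n + l) * tanh (u (n + l)) - ∑ j ∈ range (2 * k + 1), P (u (n + j)))

variable {k : ℕ} {b : ℝ} {u : ℕ → ℝ}

lemma slide (f : ℕ → ℝ) (n m : ℕ) : ∑ l ∈ range m, f (n + 1 + l) = ∑ l ∈ range m, f (n + l) + f (n + m) - f n := by
  have h1 := sum_range_succ (fun l => f (n + l)) m
  have h2 := sum_range_succ' (fun l => f (n + l)) m
  simp only [← add_assoc, add_right_comm n 1, add_zero] at *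
  linarith

lemma step (h : Orb k b u) (n : ℕ) : V k b u (n + 1) =
    V k b u n - b * (P (-u (n + (2 * k + 1))) - (P (u n) + tanh (u n) * (-u (n + (2 * k + 1)) - u n))) := by
  have h1 := h n
  have h2 := h (n + k)
  unfold V
  rw [slide fun l => u l * tanh (u l), slide fun l => P (u l), show P (-u (n + (2 * k + 1))) = P (u (n + (2 * k + 1))) by simp [P],
    show n + 1 + k = n + k + 1 by ring, show n + 1 + 2 * k = n + k + k + 1 by ring, show n + (2 * k + 1) = n + k + k + 1 by ring,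
    show n + 2 * k = n + k + k by ring, h1, show u (n + k + k) = u (n + k + k + 1) + b * tanh (u (n + k)) by linarith]
  ring

lemma anti (hb : 0 < b) (h : Orb k b u) : Antitone (V k b u) := antitone_nat_of_succ_le fun n => by
  rw [step h]; nlinarith [breg' (u n) (-u (n + (2 * k + 1)))]

lemma rigid (hk : 1 ≤ k) (hb : 0 < b) (hc : b ≤ 2 * cos (k * π / (2 * k + 1))) (h : Orb k b u)
    (hV : ∀ n, V k b u 0 ≤ V k b u n) : u = 0 := by
  have ap : ∀ n, u (n + (2 * k + 1)) = -u n := fun n => by_contra fun c => by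
    have := breg (a := u n) (c := -u (n + (2 * k + 1))) fun e => c (by linarith)
    nlinarith [step h n, hV (n + 1), anti hb h (Nat.zero_le n)]
  have sh : ∀ (f : ℝ → ℝ), (∀ x, f (-x) = f x) → ∀ n, ∑ l ∈ range (2 * k + 1), f (u (n + l)) =
      ∑ l ∈ range (2 * k + 1), f (u l) := fun f hf n => by
    induction n with
    | zero => simp
    | succ n ih => rw [slide fun l => f (u l), ih, ap, hf]; ring
  funext n
  by_contra c
  have w := wirt (m := 2 * k + 1) (by omega) (u := fun j => u (n + k + j)) (ap _)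
  have e : cos (π / (2 * k + 1 : ℕ)) = 1 - 2 * cos (k * π / (2 * k + 1)) ^ 2 := by
    rw [show π / (2 * k + 1 : ℕ) = π - 2 * (k * π / (2 * k + 1)) by push_cast; field_simp; ring, cos_pi_sub, cos_two_mul]
    ring
  have s1 := sh (· ^ 2) (by simp) (n + k)
  have s2 := sh (· ^ 2) (by simp) (n + k + 1)
  have s3 := sh (· ^ 2) (by simp) n
  have lt : ∑ l ∈ range (2 * k + 1), tanh (u (n + l)) ^ 2 < ∑ l ∈ range (2 * k + 1), u (n + l) ^ 2 :=
    sum_lt_sum (fun l _ => (eq_or_ne (u (n + l)) 0).elim (fun e => by simp [e]) fun e => (T_sq e).le)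
      ⟨0, by simp, T_sq c⟩
  have id : ∑ j ∈ range (2 * k + 1), (2 * u (n + k + j) * u (n + k + (j + 1)) -
      2 * cos (π / (2 * k + 1 : ℕ)) * u (n + k + j) ^ 2) = ∑ l ∈ range (2 * k + 1), u (n + k + 1 + l) ^ 2 +
      (1 - 2 * cos (π / (2 * k + 1 : ℕ))) * ∑ l ∈ range (2 * k + 1), u (n + k + l) ^ 2 -
      b ^ 2 * ∑ l ∈ range (2 * k + 1), tanh (u (n + l)) ^ 2 := by
    simp only [mul_sum, ← sum_add_distrib, ← sum_sub_distrib]
    refine sum_congr rfl fun l _ => ?_
    rw [show n + k + (l + 1) = n + l + k + 1 by ring, show n + k + 1 + l = n + l + k + 1 by ring,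
      show n + k + l = n + l + k by ring, h]
    ring
  have b2 := pow_le_pow_left₀ hb.le hc 2
  have p0 : 0 ≤ ∑ l ∈ range (2 * k + 1), u l ^ 2 := sum_nonneg fun _ _ => sq_nonneg _
  rw [id, s1, s2, e] at w
  rw [s3] at lt
  nlinarith [mul_lt_mul_of_pos_left lt (pow_pos hb 2), mul_le_mul_of_nonneg_right b2 p0]

lemma cV (n : ℕ) : Continuous fun u => V k b u n := by
  have := cT
  have := cP
  unfold V
  fun_prop

lemma clO : IsClosed {u | Orb k b u} := by
  have := cT
  simp only [Orb, Set.ofPred_forall]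
  exact isClosed_iInter fun n => isClosed_eq (by fun_prop) (by fun_prop)

lemma V_shift (n j : ℕ) : V k b (fun i => u (n + i)) j = V k b u (n + j) := by simp only [V, add_assoc]
lemma Orb.shift (h : Orb k b u) (n : ℕ) : Orb k b fun i => u (n + i) := fun j => by simpa only [add_assoc] using h (n + j)

lemma grow (hb : 0 < b) (h : Orb k b u) (n j : ℕ) : |u (n + k + j)| ≤ |u (n + k)| + j * b ∧
    u (n + k + j) ≤ u (n + k) + j * b := by
  induction j with
  | zero => simp
  | succ j ih =>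
    have h1 := h (n + j)
    have h2 := abs_lt.1 (abs_tanh_lt_one (u (n + j)))
    rw [show n + k + (j + 1) = n + j + k + 1 by ring, h1, show n + j + k = n + k + j by ring]
    push_cast
    have := abs_le.1 ih.1
    exact ⟨abs_le.2 ⟨by nlinarith, by nlinarith⟩, by nlinarith⟩

lemma up (hb : 0 < b) (h : Orb k b u) (n : ℕ) : u (n + k + k) ≤ max (u (k + k)) ((k + 1) * b) := by
  induction n with
  | zero => simp
  | succ n ih =>
    rw [show n + 1 + k + k = n + k + k + 1 by ring]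
    rcases le_total 0 (u (n + k)) with c | c
    · have : 0 ≤ tanh (u (n + k)) := by
        rw [tanh_eq_sinh_div_cosh]; exact div_nonneg (sinh_nonneg_iff.2 c) (cosh_pos _).le
      nlinarith [h (n + k)]
    · have := (grow hb h n (k + 1)).2
      push_cast at this
      exact le_max_of_le_right (by rw [add_assoc]; linarith)

lemma bdd (hb : 0 < b) (h : Orb k b u) : ∃ M, ∀ n, u (k + k + n) ∈ Set.Icc (-M) M := by
  refine ⟨|u (k + k)| + (k + 1) * b, fun n => ?_⟩
  have h1 := up hb h n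
  have h2 := up (k := k) (u := fun n => -u n) hb (fun n => by simp only [h n, tanh_neg]; ring) n
  have h3 : 0 ≤ (k + 1) * b := by positivity
  rw [show k + k + n = n + k + k by ring]
  rcases le_max_iff.1 h1 with c | c <;> rcases le_max_iff.1 h2 with d | d <;> cases abs_cases (u (k + k)) <;>
    constructor <;> linarith

lemma attract (hk : 1 ≤ k) (hb : 0 < b) (hc : b ≤ 2 * cos (k * π / (2 * k + 1))) (h : Orb k b u) :
    Tendsto u atTop (𝓝 0) := by
  obtain ⟨M, hM⟩ := bdd hb h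
  rw [← tendsto_add_atTop_iff_nat (k + k)]
  refine tendsto_of_subseq_tendsto fun ns hns => ?_
  obtain ⟨w, -, ms, hms, lim⟩ := (isCompact_univ_pi fun _ : ℕ => isCompact_Icc (a := -M) (b := M)).tendsto_subseq
    (x := fun i j => u (ns i + (k + k) + j)) fun i j _ => by simpa only [add_comm, add_left_comm] using hM (ns i + j)
  have t : Tendsto (fun i => ns (ms i) + (k + k)) atTop atTop :=
    (tendsto_add_atTop_nat _).comp (hns.comp hms.tendsto_atTop)
  have l : ∀ j, Tendsto (fun i => V k b u (ns (ms i) + (k + k) + j)) atTop (𝓝 (V k b w j)) := fun j => by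
    simpa only [Function.comp_def, V_shift] using ((cV j).tendsto w).comp lim
  have w0 : w = 0 := rigid hk hb hc (clO.mem_of_tendsto lim (.of_forall fun i => h.shift _)) fun j =>
    ge_of_tendsto' (l j) fun i => le_of_tendsto (l 0) ((t.eventually_ge_atTop _).mono fun i' hi => anti hb h hi)
  exact ⟨ms, by simpa [w0] using tendsto_pi_nhds.1 lim 0⟩

lemma V_lim (h : Tendsto u atTop (𝓝 0)) : Tendsto (V k b u) atTop (𝓝 0) := by
  have : Tendsto (fun n i => u (n + i)) atTop (𝓝 0) := tendsto_pi_nhds.2 fun i => (tendsto_add_atTop_iff_nat i).2 h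
  simpa [Function.comp_def, V_shift, show V k b 0 0 = 0 by simp [V, P]] using ((cV (k := k) (b := b) 0).tendsto 0).comp this

lemma V_nn (hb : 0 < b) (h : Orb k b u) (l : Tendsto u atTop (𝓝 0)) (n : ℕ) : 0 ≤ V k b u n :=
  (anti hb h).le_of_tendsto (V_lim l) n

lemma stable (hk : 1 ≤ k) (hb : 0 < b) (hc : b ≤ 2 * cos (k * π / (2 * k + 1))) {ε : ℝ} (ε0 : 0 < ε) :
    ∃ δ > 0, ∀ u, Orb k b u → (∀ i ≤ k, |u i| < δ) → ∀ n, |u n| < ε := by
  obtain ⟨μ, μ0, hμ⟩ := (((isCompact_univ_pi fun j : ℕ => isCompact_Icc (a := -(ε + j * b)) (b := ε + j * b)).inter_right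
    (clO (k := k) (b := b))).inter_right (isClosed_le continuous_const (show Continuous fun u : ℕ → ℝ => |u (k + 1)| by fun_prop))).exists_forall_le'
    (cV (k := k) (b := b) 0).continuousOn (a := 0) fun w ⟨⟨_, h⟩, (e : ε ≤ |w (k + 1)|)⟩ => not_le.1 fun c => by
      rw [rigid hk hb hc h fun n => c.trans (V_nn hb h (attract hk hb hc h) n)] at e
      simp at e
      linarith
  have q : 0 < 1 + 2 * k * b := by positivity
  refine ⟨min (min ε 1) (μ / (1 + 2 * k * b)), by positivity, fun u h s n => ?_⟩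
  obtain ⟨δ, hδ⟩ : ∃ δ, δ = min (min ε 1) (μ / (1 + 2 * k * b)) := ⟨_, rfl⟩
  rw [← hδ] at s
  have d1 : δ ≤ ε ∧ δ ≤ 1 := le_min_iff.1 (hδ ▸ min_le_left ..)
  have d2 : δ * (1 + 2 * k * b) ≤ μ := (le_div_iff₀ q).1 (hδ ▸ min_le_right ..)
  have v : V k b u 0 < μ := by
    have a1 := (grow hb h 0 k).1
    have a2 := s k le_rfl
    have a3 : ∑ l ∈ range k, u (0 + l) * tanh (u (0 + l)) ≤ k * δ := by
      simpa using sum_le_card_nsmul (range k) _ δ fun l hl => (le_abs_self (u l * tanh (u l))).trans <| by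
        rw [abs_mul]
        exact (mul_le_of_le_one_right (abs_nonneg _) (abs_tanh_lt_one _).le).trans (s l (mem_range.1 hl).le).le
    have a4 : 0 ≤ ∑ j ∈ range (2 * k + 1), P (u (0 + j)) := sum_nonneg fun _ _ => P_nn _
    have a5 : u (0 + k) * u (0 + 2 * k) < δ * (1 + k * b) := (le_abs_self _).trans_lt <| by
      simp only [zero_add, abs_mul, two_mul] at a1 ⊢
      exact (mul_le_mul_of_nonneg_left (show |u (k + k)| ≤ 1 + k * b by linarith) (abs_nonneg (u k))).trans_lt
        (mul_lt_mul_of_pos_right a2 (by positivity))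
    unfold V
    nlinarith
  induction n using Nat.strong_induction_on with
  | _ n ih =>
    by_contra c
    obtain ⟨m, rfl⟩ : ∃ m, n = m + (k + 1) := ⟨n - (k + 1), by
      have : ¬ n ≤ k := fun e => c ((s n e).trans_le d1.1)
      omega⟩
    have := hμ (fun i => u (m + i)) ⟨⟨fun j _ => abs_le.1 ?_, h.shift m⟩, not_lt.1 c⟩
    · rw [V_shift] at this
      linarith [anti hb h (Nat.zero_le (m + 0))]
    rcases le_total j k with d | d
    · exact (ih _ (by omega)).le.trans (le_add_of_nonneg_right (by positivity))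
    · obtain ⟨i, rfl⟩ := Nat.exists_eq_add_of_le d
      have := (grow hb h m i).1
      push_cast
      rw [← add_assoc]
      nlinarith [ih (m + k) (by omega), mul_nonneg (Nat.cast_nonneg (α := ℝ) k) hb.le]

noncomputable def orb (k : ℕ) (b : ℝ) (s : ℕ → ℝ) (n : ℕ) : ℝ :=
  if n ≤ k then s n else orb k b s (n - 1) - b * tanh (orb k b s (n - 1 - k))
termination_by n
decreasing_by all_goals omega

lemma orb_O (s : ℕ → ℝ) : Orb k b (orb k b s) := fun n => by
  rw [orb, if_neg (by omega), Nat.add_sub_cancel, Nat.add_sub_cancel]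

lemma unstable (hk : 1 ≤ k) (hc : 2 * cos (k * π / (2 * k + 1)) < b) : ∃ u, Orb k b u ∧ V k b u 0 < 0 := by
  obtain ⟨θ, hθ⟩ : ∃ θ, θ = π / (2 * k + 1) := ⟨_, rfl⟩
  have em : (2 * k + 1) * θ = π := by rw [hθ]; field_simp
  have θ0 : 0 < θ := by rw [hθ]; positivity
  have k0 : (1 : ℝ) ≤ k := by exact_mod_cast hk
  rw [mul_div_assoc, ← hθ] at hc
  have c0 : 0 < cos (k * θ) := cos_pos_of_mem_Ioo ⟨by nlinarith [pi_pos], by nlinarith⟩
  have hb : 0 < b := by linarith
  obtain ⟨r, hr⟩ : ∃ r, r = 2 * cos (k * θ) / b := ⟨_, rfl⟩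
  have r0 : 0 < r := by rw [hr]; positivity
  have r1 : r < 1 := by rwa [hr, div_lt_one hb]
  obtain ⟨ρ, ρ0, ρ1⟩ := exists_between r1
  have ca : ContinuousAt artanh 0 := by unfold artanh; fun_prop (disch := simp)
  have ev : ∀ᶠ ε in 𝓝[>] (0 : ℝ), ∀ l ∈ range (k + 1), -(r * ε * sin ((k - l) * θ)) ∈ Set.Ioo (-1 : ℝ) 1 ∧
      ρ * artanh (-(r * ε * sin ((k - l) * θ))) ^ 2 / 2 ≤ P (artanh (-(r * ε * sin ((k - l) * θ)))) ∧
      ρ * (ε * sin ((k - l) * θ)) ^ 2 / 2 ≤ P (ε * sin ((k - l) * θ)) := by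
    refine (eventually_all_finset _).2 fun l _ => nhdsWithin_le_nhds ?_
    have t : Tendsto (fun ε : ℝ => -(r * ε * sin ((k - l) * θ))) (𝓝 0) (𝓝 0) := Continuous.tendsto' (by fun_prop) _ _ (by simp)
    exact (t.eventually (Ioo_mem_nhds (by norm_num) one_pos)).and
      (((artanh_zero ▸ ca.tendsto).comp t).eventually (P_ge ρ1) |>.and
      ((Continuous.tendsto' (f := fun ε : ℝ => ε * sin ((k - l) * θ)) (by fun_prop) 0 0 (by simp)).eventually (P_ge ρ1)))
  obtain ⟨ε, hε, (ε0 : 0 < ε)⟩ := (ev.and self_mem_nhdsWithin).exists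
  obtain ⟨u, h, lo⟩ : ∃ u, Orb k b u ∧ ∀ l ≤ k, u l = artanh (-(r * ε * sin ((k - l) * θ))) :=
    ⟨_, orb_O _, fun l hl => by rw [orb, if_pos hl]⟩
  have hi : ∀ i ≤ k, u (i + k) = ε * sin (i * θ) := fun i hi => by
    induction i with
    | zero => simp [lo]
    | succ i ih =>
      rw [add_right_comm, h, ih (by omega), lo i (by omega), tanh_artanh (hε i (mem_range.2 (by omega))).1, hr,
        show (k - i) * θ = π / 2 - (i * θ + θ / 2) by rw [← em]; ring,
        show k * θ = π / 2 - θ / 2 by rw [← em]; ring, sin_pi_div_two_sub, cos_pi_div_two_sub,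
        show ((i + 1 : ℕ) : ℝ) * θ = (i * θ + θ / 2) + θ / 2 by push_cast; ring,
        show sin (i * θ) = sin ((i * θ + θ / 2) - θ / 2) by ring_nf, sin_add (i * θ + θ / 2), sin_sub]
      field_simp
      ring
  refine ⟨u, h, ?_⟩
  have u0 : u k = 0 := by simpa using hi 0 (by omega)
  have sp : ∑ j ∈ range (2 * k + 1), P (u j) = ∑ l ∈ range k, (P (u l) + P (u (k - l + k))) := by
    rw [show 2 * k + 1 = k + (k + 1) by ring, sum_range_add, sum_add_distrib, ← sum_range_reflect _ (k + 1), sum_range_succ]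
    simp [u0, P, add_comm]
  simp only [V, zero_add, u0, zero_mul, sp, ← sum_sub_distrib]
  refine mul_neg_of_pos_of_neg hb (sum_neg (fun l hl => ?_) ⟨0, mem_range.2 hk⟩)
  have l1 := mem_range.1 hl
  obtain ⟨e1, e2, e3⟩ := hε l (mem_range.2 (by omega))
  have l2 : (l : ℝ) + 1 ≤ k := by exact_mod_cast l1
  have s0 : 0 < ε * sin ((k - l) * θ) := mul_pos ε0 (sin_pos_of_pos_of_lt_pi (by nlinarith)
    (by nlinarith [Nat.cast_nonneg (α := ℝ) l]))
  rw [hi _ (by omega), Nat.cast_sub l1.le, lo l l1.le, tanh_artanh e1]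
  rw [mul_assoc r] at e2 ⊢
  generalize ε * sin ((k - l) * θ) = y at *
  generalize artanh (-(r * y)) = x at *
  have : x * -(r * y) < ρ * x ^ 2 / 2 + ρ * y ^ 2 / 2 := by
    nlinarith [sq_nonneg (x + y), mul_pos (sub_pos.2 ρ0) (pow_pos s0 2), mul_nonneg (sub_pos.2 ρ0).le (sq_nonneg x),
      mul_nonneg r0.le (sq_nonneg (x + y))]
  linarith

end Pool.Agent.Lib.Helper21.Geno
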