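import Mathlib
open Set Filter Metric Topology MeasureTheory
open scoped ENNReal

namespace Pool.Agent.Lib.Helper21.Gon

abbrev X := EuclideanSpace ℝ (Fin 2)

def pt (x y : ℝ) : X := !₂[x, y]

@[simp] lemma pt0 (x y : ℝ) : pt x y 0 = x := rfl
@[simp] lemma pt1 (x y : ℝ) : pt x y 1 = y := rfl

lemma ext {p q : X} (h0 : p 0 = q 0) (h1 : p 1 = q 1) : p = q := by
  ext i; fin_cases i; exacts [h0, h1]

@[fun_prop] lemma cpt {α : Type} [TopologicalSpace α] {f g : α → ℝ} (hf : Continuous f)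
    (hg : Continuous g) : Continuous fun a => pt (f a) (g a) := by unfold pt; fun_prop

lemma mp : MeasurePreserving (fun p : ℝ × ℝ => pt p.1 p.2) volume volume :=
  (PiLp.volume_preserving_toLp (Fin 2)).comp (volume_preserving_finTwoArrow ℝ).symm

lemma seg (a : ℝ) {u v : ℝ} (h : u ^ 2 + v ^ 2 = 1) (ρ : X → ℝ≥0∞) (S : Set ℝ) :
    ∫⁻ p in (fun t => pt (a + u * t) (v * t)) '' S, ρ p ∂μH[1] =
      ∫⁻ t in S, ρ (pt (a + u * t) (v * t)) ∧
    μH[1] ((fun t => pt (a + u * t) (v * t)) '' S) = volume S := by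
  have i : Isometry fun t => pt (a + u * t) (v * t) := Isometry.of_dist_eq fun s t => by
    rw [EuclideanSpace.dist_eq, Fin.sum_univ_two, Real.dist_eq s t, ← Real.sqrt_sq_eq_abs]
    simp only [pt0, pt1, Real.dist_eq, sq_abs]
    congr 1; linear_combination (s - t) ^ 2 * h
  have m := i.isClosedEmbedding.measurableEmbedding
  refine ⟨?_, by rw [i.hausdorffMeasure_image (.inl zero_le_one), hausdorffMeasure_real]⟩
  rw [← Measure.restrict_restrict_of_subset (image_subset_range _ S),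
    ← i.map_hausdorffMeasure (.inl zero_le_one), m.restrict_map, m.lintegral_map,
    preimage_image_eq _ i.injective, hausdorffMeasure_real]

lemma cs {δ : ℝ} (δ0 : 0 < δ) {g : ℝ → ℝ≥0∞} (hg : Measurable g) :
    ∫⁻ t in Icc (-δ) δ, g t ≤ 8 * ENNReal.ofReal δ * (∫⁻ t in Icc (-δ) δ, g t ^ 2) + 4⁻¹ := by
  have d0 : ENNReal.ofReal δ ≠ 0 := by simpa
  have c0 : 8 * ENNReal.ofReal δ ≠ 0 := by simpa
  have c1 : 8 * ENNReal.ofReal δ ≠ ⊤ := ENNReal.mul_ne_top (by simp) (by simp)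
  have e : (8 * ENNReal.ofReal δ)⁻¹ * volume (Icc (-δ) δ) = 4⁻¹ := by
    rw [Real.volume_Icc, show δ - -δ = 2 * δ by ring, ENNReal.ofReal_mul zero_le_two,
      ENNReal.mul_inv (by simp) (by simp), mul_mul_mul_comm, ENNReal.inv_mul_cancel d0 (by simp),
      show (8 : ℝ≥0∞) = 4 * 2 by norm_num, ENNReal.mul_inv (by simp) (by simp), mul_one,
      ENNReal.ofReal_ofNat, mul_assoc, ENNReal.inv_mul_cancel (by simp) (by simp), mul_one]
  rw [← e, ← lintegral_const_mul _ (hg.pow_const 2), ← setLIntegral_const,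
    ← lintegral_add_right _ measurable_const]
  refine lintegral_mono fun t => ?_
  generalize 8 * ENNReal.ofReal δ = c at c0 c1
  rcases le_total (g t) c⁻¹ with h | h
  · exact h.trans le_add_self
  · calc g t = c * (c⁻¹ * g t) := by rw [← mul_assoc, ENNReal.mul_inv_cancel c0 c1, one_mul]
      _ ≤ c * g t ^ 2 := by rw [sq]; gcongr
      _ ≤ _ := le_self_add

lemma mQ {ρ : X → ℝ≥0∞} (hρ : Measurable ρ) (u v : ℝ) :
    Measurable fun p : ℝ × ℝ => ρ (pt (p.1 + u * p.2) (v * p.2)) ^ 2 :=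
  (hρ.comp (Continuous.measurable (by fun_prop))).pow_const 2

lemma line {ρ : X → ℝ≥0∞} (hρ : Measurable ρ) (fin : ∫⁻ p, ρ p ^ 2 ≠ ⊤) {v : ℝ} (v0 : v ≠ 0)
    {ε : ℝ≥0∞} (ε0 : ε ≠ 0) : ∀ᶠ δ : ℝ in 𝓝[>] 0, ∀ u : ℝ,
      ∫⁻ x, ∫⁻ t in Icc (-δ) δ, ρ (pt (x + u * t) (v * t)) ^ 2 ≤ ε := by
  have m : Measurable fun p : ℝ × ℝ => ρ (pt p.1 p.2) ^ 2 := (hρ.comp mp.measurable).pow_const 2
  have f : ∫⁻ t, ∫⁻ x, ρ (pt x (v * t)) ^ 2 ≠ ⊤ := by
    rw [← mp.lintegral_comp (hρ.pow_const 2), Measure.volume_eq_prod, lintegral_prod_symm' _ m] at fin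
    rw [← lintegral_map (f := fun y => ∫⁻ x, ρ (pt x y) ^ 2) m.lintegral_prod_left'
      (measurable_const_mul v), Real.map_volume_mul_left v0, lintegral_smul_measure]
    exact ENNReal.mul_ne_top (by simp) fin
  have t := tendsto_setLIntegral_zero f (l := 𝓝[>] (0 : ℝ)) (s := fun δ => Icc (-δ) δ) (by
    simp only [Function.comp_def, Real.volume_Icc]
    exact tendsto_nhdsWithin_of_tendsto_nhds (Continuous.tendsto'
      (ENNReal.continuous_ofReal.comp (by fun_prop)) _ _ (by simp)))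
  filter_upwards [t.eventually (gt_mem_nhds (pos_iff_ne_zero.2 ε0))] with δ h u
  rw [lintegral_lintegral_swap (mQ hρ u v).aemeasurable]
  refine le_trans (le_of_eq (lintegral_congr fun t => ?_)) h.le
  exact lintegral_add_right_eq_self (fun x => ρ (pt x (v * t)) ^ 2) _

lemma zero {a K : ℝ≥0∞} (hK : K ≠ ⊤) (h : ∀ ε, ε ≠ 0 → a ≤ K * ε) : a = 0 := by
  have t : Tendsto (fun ε => K * ε) (𝓝[>] 0) (𝓝 (K * 0)) :=
    ENNReal.Tendsto.const_mul (tendsto_nhdsWithin_of_tendsto_nhds tendsto_id) (.inr hK)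
  rw [mul_zero] at t
  exact le_zero_iff.1 (ge_of_tendsto t (eventually_nhdsWithin_of_forall fun ε hε => h ε (ne_of_gt hε)))

def Adm (E F : Set X) (ρ : X → ℝ≥0∞) : Prop := ∀ γ : C(unitInterval, X),
  Function.Injective γ → γ 0 ∈ E → γ 1 ∈ F → μH[1] (range γ) < ⊤ → 1 ≤ ∫⁻ x in range γ, ρ x ∂μH[1]

lemma adm {E F K L : Set X} {ρ : X → ℝ≥0∞} (H : Adm E F ρ) {c : ℝ → X} (hc : Continuous c)
    (i : InjOn c (Icc 0 1)) (h0 : c 0 ∈ E) (h1 : c 1 ∈ F) (s : ∀ t ∈ Icc (0 : ℝ) 1, c t ∈ K ∪ L)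
    (fK : μH[1] K < ⊤) (fL : μH[1] L < ⊤) :
    1 ≤ ∫⁻ x in K, ρ x ∂μH[1] + ∫⁻ x in L, ρ x ∂μH[1] := by
  have r : range (⟨fun t => c t, by fun_prop⟩ : C(unitInterval, X)) ⊆ K ∪ L := by
    rintro _ ⟨t, rfl⟩; exact s t t.2
  exact (H _ (fun s t h => Subtype.ext (i s.2 t.2 h)) h0 h1 ((measure_mono r).trans_lt
    ((measure_union_le _ _).trans_lt (ENNReal.add_lt_top.2 ⟨fK, fL⟩)))).trans
    ((lintegral_mono_set r).trans (lintegral_union_le _ _ _))

lemma nullE {E : Set X} (sE : E ⊆ {x | x 1 = 0 ∧ 0 ≤ x 0 ∧ x 0 ≤ 1})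
    {ρ : X → ℝ≥0∞} (hρ : Measurable ρ) (fin : ∫⁻ p, ρ p ^ 2 ≠ ⊤) (H : Adm E ({x | x 1 = 0} \ E) ρ) :
    volume {x | pt x 0 ∈ E} = 0 := by
  refine zero (K := 32 * ENNReal.ofReal (5 / 3)) (ENNReal.mul_ne_top (by simp) (by simp)) fun ε ε0 => ?_
  obtain ⟨n, n0, hn⟩ := ((eventually_gt_atTop 0).and ((tendsto_nhdsWithin_iff.2
    ⟨tendsto_const_div_atTop_nhds_zero_nat (5 / 3 : ℝ), (eventually_gt_atTop 0).mono fun n hn => by
      simp only [mem_Ioi]; positivity⟩).eventually
    (line hρ fin (v := 4 / 5) (by norm_num) ε0))).exists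
  have np : (0 : ℝ) < n := by exact_mod_cast n0
  have e : n * (6 / 5 * (5 / 3 / n : ℝ)) = 2 := by field_simp; norm_num
  have e' : ENNReal.ofReal (5 / 3) = n * ENNReal.ofReal (5 / 3 / n) := by
    rw [← ENNReal.ofReal_natCast, ← ENNReal.ofReal_mul np.le, mul_div_cancel₀ _ np.ne']
  have T0 : (0 : ℝ) < 5 / 3 / n := by positivity
  rw [e']
  generalize (5 / 3 / n : ℝ) = T at hn e T0
  set A : ℝ → Set ℝ := fun h => {x | pt x 0 ∈ E ∧ pt (x + h) 0 ∉ E} with hA
  have a1 : volume (A (6 / 5 * T)) ≤ 32 * ENNReal.ofReal T * ε := by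
    have m := fun u => (mQ hρ u (4 / 5)).lintegral_prod_right' (ν := volume.restrict (Icc (-T) T))
    have k := mul_meas_ge_le_lintegral (μ := volume) (((m (3 / 5)).add ((m (-3 / 5)).comp
      (measurable_add_const (6 / 5 * T)))).const_mul (8 * ENNReal.ofReal T)) 2⁻¹
    rw [lintegral_const_mul _ ((m _).add ((m _).comp (measurable_add_const _)))] at k
    simp only [Function.comp, Pi.add_apply] at k m
    rw [lintegral_add_left (m _), lintegral_add_right_eq_self
      (fun x => ∫⁻ t in Icc (-T) T, ρ (pt (x + -3 / 5 * t) (4 / 5 * t)) ^ 2)] at k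
    have k2 := k.trans (mul_le_mul_right (add_le_add (hn _) (hn _)) _)
    calc _ = 2 * (2⁻¹ * volume (A (6 / 5 * T))) := by
          rw [← mul_assoc, ENNReal.mul_inv_cancel (by simp) (by simp), one_mul]
      _ ≤ 2 * (8 * ENNReal.ofReal T * (ε + ε)) := by
          gcongr 2 * ?_
          refine le_trans ?_ k2
          gcongr
          intro x hx
          have s1 := seg x (u := 3 / 5) (v := 4 / 5) (by norm_num) ρ (Icc (-T) T)
          have s2 := seg (x + 6 / 5 * T) (u := -3 / 5) (v := 4 / 5) (by norm_num) ρ (Icc (-T) T)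
          have := adm H (c := fun s => pt (x + 6 / 5 * T * s) (8 / 5 * T * min s (1 - s))) (by fun_prop)
            (fun s _ t _ h => by
              have := congrArg (fun p : X => p 0) h
              simpa [T0.ne'] using this) (by simpa using hx.1) ⟨by simp, by simpa using hx.2⟩
            (fun s hs => ?_) (s1.2.trans_lt measure_Icc_lt_top) (s2.2.trans_lt measure_Icc_lt_top)
          · rw [s1.1, s2.1] at this
            have := this.trans (add_le_add (cs T0 (hρ.comp (Continuous.measurable (by fun_prop))))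
              (cs T0 (hρ.comp (Continuous.measurable (by fun_prop)))))
            rw [add_add_add_comm, ← mul_add, ← ENNReal.inv_two_add_inv_two,
              show (4⁻¹ + 4⁻¹ : ℝ≥0∞) = 2⁻¹ by
                rw [show (4 : ℝ≥0∞) = 2 * 2 by norm_num, ENNReal.mul_inv (by simp) (by simp), ← mul_add,
                  ENNReal.inv_two_add_inv_two, mul_one]] at this
            exact ENNReal.le_of_add_le_add_right (by simp) this
          · rcases le_total s (1 - s) with h | h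
            · exact .inl ⟨2 * T * s, ⟨by nlinarith [hs.1], by nlinarith⟩,
                ext (by simp; ring) (by simp [min_eq_left h]; ring)⟩
            · exact .inr ⟨2 * T * (1 - s), ⟨by nlinarith [hs.2], by nlinarith⟩,
                ext (by simp; ring) (by simp [min_eq_right h]; ring)⟩
      _ = _ := by ring
  have a2 : ∀ k : ℕ, volume (A (k * (6 / 5 * T))) ≤ k * volume (A (6 / 5 * T)) := fun k => by
    induction k with
    | zero => simp [hA]
    | succ k ih =>
      push_cast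
      rw [add_mul (k : ℝ≥0∞), one_mul]
      refine le_trans (measure_mono fun x hx => ?_) ((measure_union_le _ _).trans (add_le_add ih
        (measure_preimage_add_right volume (k * (6 / 5 * T)) _).le))
      by_cases h : pt (x + k * (6 / 5 * T)) 0 ∈ E
      · exact .inr ⟨h, by rw [add_assoc, ← add_one_mul]; exact hx.2⟩
      · exact .inl ⟨hx.1, h⟩
  calc _ ≤ volume (A (n * (6 / 5 * T))) := measure_mono fun x hx => ⟨hx, fun h => by
        have := (sE hx).2.1
        have := (sE h).2.2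
        simp only [pt0, e] at *
        linarith⟩
    _ ≤ n * (32 * ENNReal.ofReal T * ε) := (a2 n).trans (by gcongr)
    _ = _ := by ring

end Pool.Agent.Lib.Helper21.Gon
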