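import Mathlib

set_option autoImplicit false

namespace Pool.Agent.Lib.Helper21.Good

open Complex Set Metric

lemma re0 {z : ℂ} (hz : z ∈ ball (0 : ℂ) 1) : 0 < (1 - z).re := by
  simpa using (re_le_norm z).trans_lt (mem_ball_zero_iff.1 hz)

lemma ne0 {z : ℂ} (hz : z ∈ ball (0 : ℂ) 1) : 1 - z ≠ 0 := fun h => by simpa [h] using re0 hz

lemma im0 {z : ℂ} (hz : z ∈ ball (0 : ℂ) 1) : |(log (1 - z)).im| < Real.pi / 2 := by
  rw [log_im]; exact abs_arg_lt_pi_div_two_iff.2 (.inl (re0 hz))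

lemma dl {z : ℂ} (hz : z ∈ ball (0 : ℂ) 1) :
    HasDerivAt (fun z => log (1 - z)) (-1 / (1 - z)) z :=
  ((hasDerivAt_id z).const_sub 1).clog (.inl (re0 hz))

/-- The functions `(1 - (1 - z) ^ m) / m` are normalized univalent when `|m - 1| ≤ 1`. -/
lemma roy {m : ℂ} (m0 : m ≠ 0) (h : ‖m‖ ^ 2 ≤ 2 * m.re) :
    DifferentiableOn ℂ (fun z => (1 - cexp (m * log (1 - z))) / m) (ball (0 : ℂ) 1) ∧
      InjOn (fun z => (1 - cexp (m * log (1 - z))) / m) (ball (0 : ℂ) 1) ∧
      (fun z => (1 - cexp (m * log (1 - z))) / m) 0 = 0 ∧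
      deriv (fun z => (1 - cexp (m * log (1 - z))) / m) 0 = 1 := by
  have d : ∀ z ∈ ball (0 : ℂ) 1, HasDerivAt (fun z => (1 - cexp (m * log (1 - z))) / m)
      (-(cexp (m * log (1 - z)) * (m * (-1 / (1 - z)))) / m) z := fun z hz =>
    ((((dl hz).const_mul m).cexp).const_sub 1).div_const m
  refine ⟨fun z hz => (d z hz).differentiableAt.differentiableWithinAt, fun z hz w hw e => ?_,
    by simp, ?_⟩
  · simp only at e
    rw [div_left_inj' m0, sub_right_inj, exp_eq_exp_iff_exists_int] at e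
    obtain ⟨n, e⟩ := e
    have m1 := im0 hz
    have m2 := im0 hw
    suffices log (1 - z) = log (1 - w) by
      have := congrArg cexp this
      rwa [exp_log (ne0 hz), exp_log (ne0 hw), sub_right_inj] at this
    generalize log (1 - z) = s at *
    generalize log (1 - w) = t at *
    have h1 := congrArg re e
    have h2 := congrArg im e
    simp at h1 h2
    have p0 := Real.pi_pos
    have q : 0 < ‖m‖ ^ 2 := by positivity
    have k : ‖m‖ ^ 2 * (s.im - t.im) = n * (2 * Real.pi) * m.re := by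
      rw [Complex.sq_norm, normSq_apply]
      linear_combination m.re * h2 - m.im * h1
    have n0 : n = 0 := by
      have : |(n : ℝ)| < 1 := by
        have a1 : |s.im - t.im| < Real.pi := by
          rw [abs_lt] at *; constructor <;> linarith [m1.1, m1.2, m2.1, m2.2]
        have a2 := congrArg abs k
        rw [abs_mul, abs_mul, abs_mul, abs_of_pos q, abs_of_pos (show 0 < 2 * Real.pi by linarith),
          abs_of_pos (show 0 < m.re by linarith)] at a2
        have a3 := mul_lt_mul_of_pos_left a1 q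
        have a4 := mul_le_mul_of_nonneg_right h p0.le
        have a5 : 0 < 2 * Real.pi * m.re := mul_pos (by linarith) (by linarith)
        nlinarith
      exact Int.abs_lt_one_iff.1 (by exact_mod_cast this)
    subst n0
    simpa [m0] using e
  · rw [(d 0 (mem_ball_self one_pos)).deriv]
    simp [m0]

lemma mem1 {s : ℝ} (hs : 0 < s) : ((1 - Real.exp (-s) : ℝ) : ℂ) ∈ ball (0 : ℂ) 1 := by
  have e0 := Real.exp_pos (-s)
  have e1 : Real.exp (-s) ≤ 1 := Real.exp_le_one_iff.2 (by linarith)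
  rw [mem_ball_zero_iff, norm_real, Real.norm_of_nonneg (by linarith)]; linarith

/-- Arithmetic means of infinite valence. -/
lemma arith {a : ℝ} (a0 : 0 < a) (a1 : a < 1 / 2) : ∃ f g : ℂ → ℂ,
    (DifferentiableOn ℂ f (ball (0 : ℂ) 1) ∧ InjOn f (ball (0 : ℂ) 1) ∧ f 0 = 0 ∧ deriv f 0 = 1) ∧
    (DifferentiableOn ℂ g (ball (0 : ℂ) 1) ∧ InjOn g (ball (0 : ℂ) 1) ∧ g 0 = 0 ∧ deriv g 0 = 1) ∧
    ∃ w : ℂ, {z : ℂ | z ∈ ball (0 : ℂ) 1 ∧ (a : ℂ) * f z + (1 - (a : ℂ)) * g z = w}.Infinite := by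
  set R : ℝ := (1 - a) / a with hR
  have R1 : 1 < R := by rw [hR, lt_div_iff₀ a0]; linarith
  set m : ℝ := √(R ^ 2 - 1) with hm
  have m0 : 0 < m := Real.sqrt_pos.2 (by nlinarith)
  have m2 : m ^ 2 = R ^ 2 - 1 := Real.sq_sqrt (by nlinarith)
  set l : ℝ := 1 / R ^ 2 with hl
  have l0 : 0 < l := by positivity
  have l1 : l * R ^ 2 = 1 := by rw [hl]; field_simp
  have nq : ‖1 - m * I‖ = R := by
    rw [← sq_eq_sq₀ (norm_nonneg _) (by linarith), Complex.sq_norm, normSq_apply]
    simp; nlinarith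
  have q0 : 1 - m * I ≠ 0 := norm_pos_iff.1 (by linarith)
  have lc : (l : ℂ) ≠ 0 := ofReal_ne_zero.2 l0.ne'
  have ac : (a : ℂ) ≠ 0 := ofReal_ne_zero.2 a0.ne'
  refine ⟨_, _, roy (m := l) lc (by
      rw [norm_real, Real.norm_of_nonneg l0.le, ofReal_re]; nlinarith),
    roy (m := l * (1 - m * I)) (mul_ne_zero lc q0) (by
      rw [norm_mul, nq, norm_real, Real.norm_of_nonneg l0.le]; simp; nlinarith),
    a / l + (1 - a) / (l * (1 - m * I)), ?_⟩
  set o : ℂ := -R / (1 - m * I) with ho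
  have Rc : (R : ℂ) ≠ 0 := ofReal_ne_zero.2 (by linarith)
  have no : ‖o‖ = 1 := by
    rw [ho, norm_div, norm_neg, nq, norm_real, Real.norm_of_nonneg (by linarith)]; field_simp
  have eo : cexp (arg o * I) = o := by
    have := norm_mul_exp_arg_mul_I o
    rwa [no, ofReal_one, one_mul] at this
  have p0 := Real.pi_pos
  have lm := mul_pos l0 m0
  have s0 : ∀ k : ℕ, 0 < ((k + 1) * (2 * Real.pi) - arg o) / (l * m) := fun k =>
    div_pos (by nlinarith [arg_le_pi o, k.cast_nonneg (α := ℝ)]) lm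
  refine infinite_of_injective_forall_mem
    (f := fun k : ℕ => ((1 - Real.exp (-(((k + 1) * (2 * Real.pi) - arg o) / (l * m))) : ℝ) : ℂ))
    (fun i j e => ?_) fun k => ⟨mem1 (s0 k), ?_⟩
  · simp only [ofReal_inj, sub_right_inj, Real.exp_eq_exp, neg_inj, div_left_inj' lm.ne',
      sub_left_inj] at e
    exact_mod_cast add_right_cancel (mul_right_cancel₀ (by positivity) e)
  · have e1 : ∀ s : ℝ, log (1 - (1 - Real.exp (-s) : ℝ)) = -s := fun s => by
      rw [ofReal_sub, ofReal_one, sub_sub_cancel, ← ofReal_log (Real.exp_pos _).le, Real.log_exp]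
      simp
    simp only [e1]
    generalize hs : (((k + 1) * (2 * Real.pi) - arg o) / (l * m) : ℝ) = s
    have e2 : cexp (l * (1 - m * I) * -s) * o = cexp (l * -s) := by
      have e3 : (l * m * s : ℝ) = (k + 1) * (2 * Real.pi) - arg o := by rw [← hs]; field_simp
      have e4 : (l * m * s : ℂ) = (k + 1) * (2 * Real.pi) - arg o := by exact_mod_cast e3
      rw [← eo, ← exp_add, show l * (1 - m * I) * -s + arg o * I =
        l * -s + ((k + 1 : ℕ) : ℂ) * (2 * Real.pi * I) by push_cast; linear_combination I * e4,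
        exp_add, exp_nat_mul_two_pi_mul_I, mul_one]
    have e5 : (R : ℂ) * a = 1 - a := by rw [hR]; push_cast; field_simp
    rw [← e2, ho, ← e5]
    field_simp
    ring

end Pool.Agent.Lib.Helper21.Good
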