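import Pool.Agent.Lib.helper21.Good
import Pool.Agent.Lib.helper21.Epd

set_option autoImplicit false

namespace Pool.Agent.Lib.Helper21.Good

open Complex Set Metric

lemma lg {x : ℂ} (h : ‖x‖ ≤ 1 / 2) : ‖log (1 + x) - x‖ ≤ ‖x‖ ^ 2 := by
  refine (norm_log_one_add_sub_self_le (by linarith)).trans ?_
  have : (1 - ‖x‖)⁻¹ ≤ 2 := by rw [inv_le_comm₀ (by linarith) two_pos]; linarith
  nlinarith [sq_nonneg ‖x‖]

lemma zero {J : ℂ → ℂ} {c : ℂ} {r m : ℝ} (r0 : 0 < r) (hd : DifferentiableOn ℂ J (closedBall c r))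
    (h : ∀ z ∈ sphere c r, m ≤ ‖J z‖) (h0 : ‖J c‖ < m) : ∃ t ∈ closedBall c r, J t = 0 := by
  by_contra n
  push Not at n
  have m0 : 0 < m := (norm_nonneg _).trans_lt h0
  have := norm_le_of_forall_mem_frontier_norm_le (f := fun z => (J z)⁻¹) (C := m⁻¹) (z := c)
    (isBounded_ball (x := c) (r := r))
    (DifferentiableOn.diffContOnCl (by rw [closure_ball c r0.ne']; exact hd.inv n))
    (fun z hz => by
      rw [frontier_ball c r0.ne'] at hz
      rw [norm_inv]; exact inv_anti₀ m0 (h z hz)) (subset_closure (mem_ball_self r0))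
  rw [norm_inv, inv_le_inv₀ (norm_pos_iff.2 (n c (mem_closedBall_self r0.le))) m0] at this
  linarith

lemma slog {g : ℂ → ℂ} (h : DifferentiableOn ℂ g (ball (0 : ℂ) 1) ∧ InjOn g (ball (0 : ℂ) 1) ∧
    g 0 = 0 ∧ deriv g 0 = 1) : ∃ L : ℂ → ℂ, DifferentiableOn ℂ L (ball (0 : ℂ) 1) ∧ L 0 = 0 ∧
      ∀ z ∈ ball (0 : ℂ) 1, g z = z * cexp (L z) := by
  obtain ⟨d, i, g0, g1⟩ := h
  have b : (0 : ℂ) ∈ ball (0 : ℂ) 1 := mem_ball_self one_pos
  have e : ∀ z, z * dslope g 0 z = g z := fun z => by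
    simpa [g0] using sub_smul_dslope g 0 z
  obtain ⟨L, L0, hL⟩ := Epd.exlog (f := dslope g 0) one_pos
    ((differentiableOn_dslope (isOpen_ball.mem_nhds b)).2 d) (fun z hz n => by
      have := i hz b (by rw [← e, n, g0, mul_zero])
      rw [this, dslope_same, g1] at n
      exact one_ne_zero n) (by rw [dslope_same, g1])
  exact ⟨L, fun z hz => (hL z hz).1.differentiableAt.differentiableWithinAt, L0,
    fun z hz => by rw [(hL z hz).2, e]⟩

/-- Geometric means of infinite valence. -/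
lemma geom {a : ℝ} (a0 : 0 < a) (a1 : a ≤ 1 / 2) : ∃ f g Lf Lg : ℂ → ℂ,
    (DifferentiableOn ℂ f (ball (0 : ℂ) 1) ∧ InjOn f (ball (0 : ℂ) 1) ∧ f 0 = 0 ∧ deriv f 0 = 1) ∧
    (DifferentiableOn ℂ g (ball (0 : ℂ) 1) ∧ InjOn g (ball (0 : ℂ) 1) ∧ g 0 = 0 ∧ deriv g 0 = 1) ∧
    (DifferentiableOn ℂ Lf (ball (0 : ℂ) 1) ∧ Lf 0 = 0 ∧
      ∀ z ∈ ball (0 : ℂ) 1, f z = z * cexp (Lf z)) ∧
    (DifferentiableOn ℂ Lg (ball (0 : ℂ) 1) ∧ Lg 0 = 0 ∧
      ∀ z ∈ ball (0 : ℂ) 1, g z = z * cexp (Lg z)) ∧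
    ∃ w : ℂ, {z : ℂ | z ∈ ball (0 : ℂ) 1 ∧
      z * cexp ((a : ℂ) * Lf z + (1 - (a : ℂ)) * Lg z) = w}.Infinite := by
  set K : ℝ := (1 - 2 * a) / a with hK
  have K0 : 0 ≤ K := div_nonneg (by linarith) a0.le
  have aK : (a : ℂ) * (1 + K) = 1 - a := by
    have : a * (1 + K) = 1 - a := by rw [hK]; field_simp; ring
    exact_mod_cast this
  have K1 : (1 + K : ℂ) ≠ 0 := by exact_mod_cast (show 1 + K ≠ 0 by linarith)
  have sp : ∀ z ∈ ball (0 : ℂ) 1, 1 + K * (1 - z) ∈ slitPlane := fun z hz => .inl (by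
    have := mul_nonneg K0 (re0 hz).le
    simp at this ⊢; linarith)
  have df : ∀ z ∈ ball (0 : ℂ) 1, HasDerivAt (fun z : ℂ => z * (1 + K) / (1 + K * (1 - z)))
      ((1 * (1 + K) * (1 + K * (1 - z)) - z * (1 + K) * (K * -1)) / (1 + K * (1 - z)) ^ 2) z :=
    fun z hz => ((hasDerivAt_id z).mul_const _).div
      ((((hasDerivAt_id z).const_sub 1).const_mul _).const_add 1) (slitPlane_ne_zero (sp z hz))
  have m0 : 1 + I ≠ 0 := fun h => by simpa using congrArg re h
  have hg := roy m0 (by rw [Complex.sq_norm, normSq_apply]; simp; norm_num)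
  obtain ⟨Lg, dL, L0, hL⟩ := slog hg
  refine ⟨fun z => z * (1 + K) / (1 + K * (1 - z)), _,
    fun z => log (1 + K) - log (1 + K * (1 - z)), Lg,
    ⟨fun z hz => (df z hz).differentiableAt.differentiableWithinAt, fun z hz w hw e => ?_, by simp,
      by rw [(df 0 (mem_ball_self one_pos)).deriv]; simp only [sub_zero, mul_one]; field_simp; ring⟩, hg,
    ⟨fun z hz => ((DifferentiableAt.clog (f := fun z : ℂ => 1 + K * (1 - z)) (by fun_prop)
      (sp z hz)).const_sub _).differentiableWithinAt,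
      by simp, fun z hz => by
        rw [exp_sub, exp_log K1, exp_log (slitPlane_ne_zero (sp z hz)), ← mul_div_assoc]⟩,
    ⟨dL, L0, hL⟩, ?_⟩
  · simp only at e
    rw [div_eq_div_iff (slitPlane_ne_zero (sp z hz)) (slitPlane_ne_zero (sp w hw))] at e
    exact mul_left_cancel₀ (pow_ne_zero 2 K1) (by linear_combination e)
  set M : ℝ := Real.log (20 * (K ^ 2 + 10)) with hM
  set T : Set ℂ := {s | M < s.re} ∩ ({s | s.im < 1} ∩ {s | -1 < s.im}) with hT
  have oT : IsOpen T := (isOpen_lt continuous_const continuous_re).inter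
    ((isOpen_lt continuous_im continuous_const).inter (isOpen_lt continuous_const continuous_im))
  have cT : Convex ℝ T := (convex_halfSpace_re_gt M).inter
    ((convex_halfSpace_im_lt 1).inter (convex_halfSpace_im_gt (-1)))
  have u1 : ∀ s ∈ T, ‖cexp (-s)‖ * (K ^ 2 + 10) ≤ 1 / 20 := fun s hs => by
    have : Real.exp (-s).re ≤ Real.exp (-M) := Real.exp_le_exp.2 (by simpa using hs.1.le)
    rw [hM, Real.exp_neg, Real.exp_log (by positivity)] at this
    rw [norm_exp, ← le_div_iff₀ (by positivity)]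
    refine this.trans_eq (by field_simp)
  have u2 : ∀ s ∈ T, ‖cexp (-s)‖ ≤ 1 / 200 := fun s hs => by
    nlinarith [u1 s hs, norm_nonneg (cexp (-s)), sq_nonneg K]
  have u3 : ∀ s ∈ T, ‖K * cexp (-s)‖ ≤ 1 / 2 := fun s hs => by
    rw [norm_mul, norm_real, Real.norm_of_nonneg K0]
    nlinarith [u1 s hs, norm_nonneg (cexp (-s)), sq_nonneg (K - 1)]
  have u4 : ∀ s ∈ T, ‖cexp ((1 + I) * -s)‖ ≤ 3 * ‖cexp (-s)‖ := fun s hs => by
    rw [add_mul, one_mul, exp_add, norm_mul, mul_comm, norm_exp (I * _)]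
    have : Real.exp (I * -s).re ≤ Real.exp 1 := Real.exp_le_exp.2 (by simpa using hs.2.1.le)
    exact mul_le_mul_of_nonneg_right (by linarith [Real.exp_one_lt_d9]) (norm_nonneg _)
  have s1 : ∀ x : ℂ, ‖x‖ ≤ 1 / 2 → 1 + x ∈ slitPlane := fun x h =>
    mem_slitPlane_of_norm_lt_one (by linarith)
  have v1 : ∀ s ∈ T, ‖-cexp (-s)‖ ≤ 1 / 2 := fun s hs => by rw [norm_neg]; linarith [u2 s hs]
  have v2 : ∀ s ∈ T, ‖-cexp ((1 + I) * -s)‖ ≤ 1 / 2 := fun s hs => by
    rw [norm_neg]; linarith [u2 s hs, u4 s hs]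
  have mb : ∀ s ∈ T, 1 + -cexp (-s) ∈ ball (0 : ℂ) 1 := fun s hs => by
    have c1 : 1 / 2 ≤ Real.cos s.im := by
      have := Real.one_sub_sq_div_two_le_cos (x := s.im)
      have h1 : s.im < 1 := hs.2.1
      have h2 : -1 < s.im := hs.2.2
      nlinarith
    have := u2 s hs
    rw [norm_exp] at this
    have e0 := Real.exp_pos (-s).re
    rw [mem_ball_zero_iff, ← sq_lt_one_iff₀ (norm_nonneg _), Complex.sq_norm, normSq_apply]
    simp only [add_re, one_re, neg_re, exp_re, add_im, one_im, neg_im, exp_im, Real.cos_neg,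
      Real.sin_neg] at *
    have h3 := Real.sin_sq_add_cos_sq s.im
    generalize Real.exp (-s.re) = E at *
    have h4 : E * E * (Real.sin s.im ^ 2 + Real.cos s.im ^ 2) = E * E := by rw [h3, mul_one]
    nlinarith [mul_le_mul_of_nonneg_left c1 e0.le, mul_le_mul_of_nonneg_left this e0.le]
  have ll : ∀ s ∈ T, log (1 - (1 + -cexp (-s))) = -s := fun s hs => by
    have h1 : s.im < 1 := hs.2.1
    have h2 : -1 < s.im := hs.2.2
    rw [show 1 - (1 + -cexp (-s)) = cexp (-s) by ring, log_exp] <;> simp <;>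
      linarith [Real.pi_gt_three]
  set P : ℂ → ℂ := fun s => Lg (1 + -cexp (-s)) + log (1 + -cexp (-s)) -
    log (1 + -cexp ((1 + I) * -s)) with hP
  have d1 : ∀ s ∈ T, DifferentiableAt ℂ (fun s => log (1 + -cexp (-s))) s := fun s hs =>
    DifferentiableAt.clog (f := fun s => 1 + -cexp (-s)) (by fun_prop) (s1 _ (v1 s hs))
  have d2 : ∀ s ∈ T, DifferentiableAt ℂ (fun s => log (1 + -cexp ((1 + I) * -s))) s := fun s hs =>
    DifferentiableAt.clog (f := fun s => 1 + -cexp ((1 + I) * -s)) (by fun_prop) (s1 _ (v2 s hs))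
  have d3 : ∀ s ∈ T, DifferentiableAt ℂ (fun s => log (1 + K * cexp (-s))) s := fun s hs =>
    DifferentiableAt.clog (f := fun s => 1 + K * cexp (-s)) (by fun_prop) (s1 _ (u3 s hs))
  have dP : ∀ s ∈ T, DifferentiableAt ℂ P s := fun s hs =>
    ((DifferentiableAt.comp (f := fun s => 1 + -cexp (-s)) s
      (dL.differentiableAt (isOpen_ball.mem_nhds (mb s hs))) (by fun_prop)).add (d1 s hs)).sub
      (d2 s hs)
  have eP : ∀ s ∈ T, cexp (P s) = 1 / (1 + I) := fun s hs => by
    have := hL _ (mb s hs)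
    simp only [ll s hs] at this
    have n := slitPlane_ne_zero (s1 _ (v2 s hs))
    simp only [hP]
    rw [exp_sub, exp_add, exp_log (slitPlane_ne_zero (s1 _ (v1 s hs))), exp_log n, mul_comm,
      ← this, sub_eq_add_neg, div_right_comm, div_self n]
  obtain ⟨P0, hP0⟩ := oT.exists_is_const_of_deriv_eq_zero cT.isPreconnected
    (fun s hs => (dP s hs).differentiableWithinAt) (fun s hs => by
      have h1 := (dP s hs).hasDerivAt.cexp.deriv
      rw [(Filter.eventuallyEq_of_mem (oT.mem_nhds hs) eP).deriv_eq, deriv_const] at h1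
      exact (mul_eq_zero.1 h1.symm).resolve_left (exp_ne_zero _))
  set J : ℂ → ℂ := fun s => cexp s * (a * (log (1 + -cexp (-s)) - log (1 + K * cexp (-s))) +
    (1 - a) * log (1 + -cexp ((1 + I) * -s))) with hJ
  have dJ : ∀ s ∈ T, DifferentiableAt ℂ J s := fun s hs =>
    differentiableAt_exp.mul ((((d1 s hs).sub (d3 s hs)).const_mul _).add ((d2 s hs).const_mul _))
  have na : ‖(a : ℂ)‖ = a := by rw [norm_real, Real.norm_of_nonneg a0.le]
  have nb : ‖(1 - a : ℂ)‖ = 1 - a := by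
    rw [← ofReal_one, ← ofReal_sub, norm_real, Real.norm_of_nonneg (by linarith)]
  have eJ : ∀ s ∈ T, ‖J s + (1 - a) * (1 + cexp (I * -s))‖ ≤ 1 / 20 := fun s hs => by
    have l1 := lg (v1 s hs)
    have l2 := lg (u3 s hs)
    have l3 := lg (v2 s hs)
    have x1 : cexp s * cexp (-s) = 1 := by rw [← exp_add]; simp
    have x2 : cexp s * cexp ((1 + I) * -s) = cexp (I * -s) := by rw [← exp_add]; congr 1; ring
    have x3 : ‖cexp s‖ * ‖cexp (-s)‖ = 1 := by rw [← norm_mul, x1, norm_one]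
    have x4 := pow_le_pow_left₀ (norm_nonneg _) (u4 s hs) 2
    rw [show J s + (1 - a) * (1 + cexp (I * -s)) = cexp s * (a * (log (1 + -cexp (-s)) - -cexp (-s))
      - a * (log (1 + K * cexp (-s)) - K * cexp (-s)) +
      (1 - a) * (log (1 + -cexp ((1 + I) * -s)) - -cexp ((1 + I) * -s))) by
        simp only [hJ]; linear_combination (-a * (1 + K)) * x1 - (1 - a) * x2 - aK]
    rw [norm_neg] at l1 l3
    rw [norm_mul, norm_real, Real.norm_of_nonneg K0] at l2
    generalize log (1 + -cexp (-s)) - -cexp (-s) = A at *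
    generalize log (1 + K * cexp (-s)) - K * cexp (-s) = B at *
    generalize log (1 + -cexp ((1 + I) * -s)) - -cexp ((1 + I) * -s) = C at *
    have y : ‖a * A - a * B + (1 - a) * C‖ ≤ ‖cexp (-s)‖ ^ 2 * (K ^ 2 + 10) := by
      refine (norm_add_le _ _).trans ((add_le_add (norm_sub_le _ _) le_rfl).trans ?_)
      rw [norm_mul, norm_mul, norm_mul, na, nb]
      nlinarith [norm_nonneg A, norm_nonneg B, norm_nonneg C]
    rw [norm_mul]
    refine (mul_le_mul_of_nonneg_left y (norm_nonneg _)).trans ?_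
    rw [sq, ← mul_assoc, ← mul_assoc, x3, one_mul]
    exact u1 s hs
  obtain ⟨N, hN⟩ := exists_nat_gt M
  have p3 := Real.pi_gt_three
  have ex : ∀ k : ℕ, ∃ t ∈ T, |t.re - (2 * (k + N : ℕ) + 1) * Real.pi| ≤ 1 / 2 ∧ J t = 0 := fun k => by
    set c : ℝ := (2 * (k + N : ℕ) + 1) * Real.pi with hc
    have sub : closedBall (c : ℂ) (1 / 2) ⊆ T := fun s hs => by
      rw [mem_closedBall, dist_eq_norm] at hs
      have h1 := abs_le.1 ((abs_re_le_norm _).trans hs)
      have h2 := abs_le.1 ((abs_im_le_norm _).trans hs)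
      simp only [sub_re, ofReal_re, sub_im, ofReal_im] at h1 h2
      have : (N : ℝ) + 1 ≤ c := by
        rw [hc]; push_cast; nlinarith [k.cast_nonneg (α := ℝ), N.cast_nonneg (α := ℝ)]
      exact ⟨show M < s.re by linarith, show s.im < 1 by linarith, show -1 < s.im by linarith⟩
    have ec : ∀ s, cexp (I * -s) = -cexp (I * -(s - c)) := fun s => by
      rw [show I * -s = I * -(s - c) - Real.pi * I - (k + N : ℕ) * (2 * Real.pi * I) by
        rw [hc]; push_cast; ring, exp_sub, exp_sub, exp_nat_mul_two_pi_mul_I, exp_pi_mul_I]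
      field_simp
    obtain ⟨t, ht, h⟩ := zero (J := J) (m := 3 / 40) (c := c) (r := 1 / 2) (by norm_num)
      (fun s hs => (dJ s (sub hs)).differentiableWithinAt) (fun s hs => by
        have h1 := eJ s (sub (sphere_subset_closedBall hs))
        have h2 : ‖I * -(s - c)‖ = 1 / 2 := by
          rw [norm_mul, norm_I, norm_neg, one_mul, ← dist_eq_norm]; exact hs
        rw [ec] at h1
        generalize I * -(s - c) = y at *
        have h3 := norm_exp_sub_one_sub_id_le (x := y) (by linarith)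
        have h4 := norm_sub_le (cexp y - 1) (cexp y - 1 - y)
        have h5 := norm_sub_le (J s) (J s + (1 - a) * (1 + -cexp y))
        rw [show J s - (J s + (1 - a) * (1 + -cexp y)) = (1 - a) * (cexp y - 1) by ring, norm_mul,
          nb] at h5
        rw [sub_sub_cancel, h2] at h4
        rw [h2] at h3
        nlinarith) (by
        have h1 := eJ c (sub (mem_closedBall_self (by norm_num)))
        rw [ec] at h1
        simp at h1
        linarith)
    exact ⟨t, sub ht, by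
      simpa using (abs_re_le_norm _).trans (show ‖t - c‖ ≤ 1 / 2 by rwa [← dist_eq_norm]), h⟩
  choose t tT tr tJ using ex
  refine ⟨cexp (a * log (1 + K) + (1 - a) * P0), infinite_of_injective_forall_mem
    (f := fun k => 1 + -cexp (-t k)) (fun i j e => ?_) fun k => ⟨mb _ (tT k), ?_⟩⟩
  · have e1 := ll _ (tT i)
    simp only at e
    rw [e, ll _ (tT j), neg_inj] at e1
    have h1 := abs_le.1 (tr i)
    have h2 := abs_le.1 (tr j)
    rw [e1] at h2
    push_cast at h1 h2
    have : |((i : ℤ) - j : ℝ)| < 1 := by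
      rw [abs_lt]; push_cast; constructor <;> nlinarith [h1.1, h1.2, h2.1, h2.2]
    have := Int.abs_lt_one_iff.1 (by exact_mod_cast this : |(i : ℤ) - j| < 1)
    omega
  · have h1 := (mul_eq_zero.1 (tJ k)).resolve_left (exp_ne_zero _)
    have h2 := hP0 _ (tT k)
    simp only [hP] at h2
    simp only [show 1 - (1 + -cexp (-t k)) = cexp (-t k) by ring]
    nth_rw 1 [← exp_log (slitPlane_ne_zero (s1 _ (v1 _ (tT k))))]
    rw [← exp_add]
    congr 1
    linear_combination h1 + (1 - a) * h2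

end Pool.Agent.Lib.Helper21.Good
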