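import Pool.Agent.Lib.helper21.GrayGeom

/-! Two copies of `A` are Borel equidecomposable with two copies of `B`. -/

set_option autoImplicit false

namespace Pool.Agent.Lib.Helper21.Gray

open Set Function

lemma pieces {P L : Type} [MeasurableSpace P] [StandardBorelSpace P] [MeasurableSpace L] [MeasurableSingletonClass L]
    {D : Set P} (hD : MeasurableSet D) {p : P → G} (hp : Measurable p) {lab : P → L} (hl : Measurable lab)
    (hf : (lab '' D).Finite) (g : L → G) (j m : L → ℕ) (h1 : InjOn (fun d => (p d, j (lab d))) D)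
    (h2 : InjOn (fun d => (g (lab d) + p d, m (lab d))) D) :
    ∃ (k : ℕ) (C : Fin k → Set G) (g' : Fin k → G) (j' m' : Fin k → ℕ), (∀ i, MeasurableSet (C i)) ∧
      Pairwise (fun a b => Disjoint (C a ×ˢ {j' a}) (C b ×ˢ {j' b})) ∧
      (⋃ i, C i ×ˢ {j' i}) = (fun d => (p d, j (lab d))) '' D ∧
      Pairwise (fun a b => Disjoint (((g' a + ·) '' C a) ×ˢ {m' a}) (((g' b + ·) '' C b) ×ˢ {m' b})) ∧
      (⋃ i, ((g' i + ·) '' C i) ×ˢ {m' i}) = (fun d => (g (lab d) + p d, m (lab d))) '' D := by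
  obtain ⟨k, ⟨e⟩⟩ := hf.to_subtype.exists_equiv_fin
  refine ⟨k, fun i => p '' (D ∩ lab ⁻¹' {(e.symm i).1}), fun i => g (e.symm i), fun i => j (e.symm i),
    fun i => m (e.symm i), fun i => ?_, fun a b hab => ?_, ?_, fun a b hab => ?_, ?_⟩
  · refine (hD.inter (hl (measurableSet_singleton _))).image_of_measurable_injOn hp fun x hx y hy h => ?_
    exact h1 hx.1 hy.1 (Prod.ext h (congrArg j (hx.2.trans hy.2.symm)))
  · refine disjoint_left.2 ?_
    rintro ⟨x, n⟩ ⟨⟨d, hd, rfl⟩, rfl⟩ ⟨⟨d', hd', e1⟩, e2⟩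
    have := h1 hd.1 hd'.1 (Prod.ext e1.symm ((congrArg j hd.2).trans (e2.trans (congrArg j hd'.2).symm)))
    subst this
    exact hab (e.symm.injective (Subtype.ext (hd.2.symm.trans hd'.2)))
  · ext ⟨x, n⟩
    simp only [mem_iUnion]
    constructor
    · rintro ⟨i, ⟨d, hd, rfl⟩, rfl⟩
      exact ⟨d, hd.1, Prod.ext rfl (congrArg j hd.2)⟩
    · rintro ⟨d, hd, e1⟩
      obtain ⟨rfl, rfl⟩ := Prod.ext_iff.1 e1
      exact ⟨e ⟨lab d, d, hd, rfl⟩, ⟨d, ⟨hd, by simp⟩, rfl⟩, by simp⟩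
  · refine disjoint_left.2 ?_
    rintro ⟨x, n⟩ ⟨⟨_, ⟨d, hd, rfl⟩, rfl⟩, rfl⟩ ⟨⟨_, ⟨d', hd', rfl⟩, e1⟩, e2⟩
    have := h2 hd.1 hd'.1 (Prod.ext ((congrArg (g · + p d) hd.2).trans (e1.symm.trans
      (congrArg (g · + p d') hd'.2).symm)) ((congrArg m hd.2).trans (e2.trans (congrArg m hd'.2).symm)))
    subst this
    exact hab (e.symm.injective (Subtype.ext (hd.2.symm.trans hd'.2)))
  · ext ⟨x, n⟩
    simp only [mem_iUnion]
    constructor
    · rintro ⟨i, ⟨_, ⟨d, hd, rfl⟩, rfl⟩, rfl⟩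
      exact ⟨d, hd.1, Prod.ext (congrArg (g · + p d) hd.2) (congrArg m hd.2)⟩
    · rintro ⟨d, hd, e1⟩
      obtain ⟨rfl, rfl⟩ := Prod.ext_iff.1 e1
      exact ⟨e ⟨lab d, d, hd, rfl⟩, ⟨_, ⟨d, ⟨hd, by simp⟩, rfl⟩, by simp⟩, by simp⟩

/-- the outward step along an arm -/
def st (b : Bool) (n : ℕ) (c : ℤ × ℤ) : ℤ × ℤ := if c.2 = H n then (sg b, 0) else (0, if 0 < H n then 1 else -1)

lemma st_arm {b : Bool} {n : ℕ} {c : ℤ × ℤ} (h : Arm b n c) (hc : sg b * c.1 < W n) :
    Arm b n (c + st b n c) ∧ c + st b n c ≠ 0 := by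
  obtain ⟨x, y⟩ := c
  have := W_pos n
  simp only [Arm, st, mem_uIcc, ne_eq, Prod.ext_iff] at *
  generalize H n = h0 at *
  cases b <;> split_ifs <;> simp [sg] at * <;> omega

lemma st_inj {b : Bool} {n : ℕ} {c c' : ℤ × ℤ} (h : Arm b n c) (h' : Arm b n c')
    (e : c + st b n c = c' + st b n c') : c = c' := by
  obtain ⟨x, y⟩ := c
  obtain ⟨x', y'⟩ := c'
  simp only [Arm, st, mem_uIcc, Prod.ext_iff] at *
  generalize H n = h0 at *
  cases b <;> split_ifs at e <;> simp [sg] at * <;> omega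

lemma st_surj {b : Bool} {n : ℕ} {c' : ℤ × ℤ} (h : Arm b n c') (hc : c' ≠ 0) :
    ∃ c, Arm b n c ∧ sg b * c.1 < W n ∧ c + st b n c = c' := by
  obtain ⟨x, y⟩ := c'
  have := W_pos n
  refine ⟨if x = 0 then (0, y - if 0 < H n then 1 else -1) else (x - sg b, y), ?_⟩
  simp only [Arm, st, mem_uIcc, ne_eq, Prod.ext_iff] at *
  generalize H n = h0 at *
  cases b <;> split_ifs <;> simp [sg] at * <;> omega

abbrev Par : Type := Z × ℕ × (ℤ × ℤ) × Bool

def D : Set Par := {d | Inf d.1 ∧ Lev d.1 d.2.1 ∧ Arm (d.1 d.2.1) d.2.1 d.2.2.1 ∧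
  sg (d.1 d.2.1) * d.2.2.1.1 < W d.2.1 ∧ (d.2.2.2 = false → d.2.2.1 ≠ 0)}

def lab (b : Bool) (n : ℕ) (c : ℤ × ℤ) (mv : Bool) : (ℤ × ℤ) × ℕ × ℕ :=
  if mv then (st b n c, if c = 0 ∧ n = 0 then 0 else 1, if sg b * (c + st b n c).1 = W n ∧ b = false then 0 else 1)
  else (0, 0, 0)

def cst (τ : ℤ × ℤ) : G := ((τ.1 : Y), (τ.2 : Y))

lemma cst_pt (τ : ℤ × ℤ) (z : Z) (c : ℤ × ℤ) : cst τ + pt z c = pt z (c + τ) := by
  simp only [cst, pt, Prod.mk_add_mk, Prod.fst_add, Prod.snd_add, Int.cast_add]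
  congr 1 <;> ring

lemma xz_cont : Continuous xz := by
  refine continuous_pi fun K => (continuous_of_discreteTopology (f := fun a : ℤ => (a : ZMod (4 ^ (K + 1))))).comp ?_
  exact continuous_finsetSum _ fun m _ =>
    (continuous_of_discreteTopology (f := fun b => bit b * 4 ^ (m + 1))).comp (continuous_apply m)

lemma pt_meas : Measurable fun d : Z × (ℤ × ℤ) => pt d.1 d.2 :=
  measurable_from_prod_countable_left fun c =>
    (show Continuous fun z => pt z c from (xz_cont.add continuous_const).prodMk continuous_const).measurable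

lemma ev_meas : Measurable fun d : Par => (d.1 d.2.1, d.2) :=
  Measurable.prodMk (measurable_from_prod_countable_left fun q => measurable_pi_apply q.1) measurable_snd

lemma D_meas : MeasurableSet D := by
  have h1 : MeasurableSet {z : Z | Inf z} := by
    unfold Inf
    measurability
  have h2 : MeasurableSet {d : Par | Lev d.1 d.2.1} := by
    rw [measurableSet_setOfPred]
    refine measurable_from_prod_countable_left fun q => Measurable.forall fun i => Measurable.imp (p := fun _ => i < q.1) measurable_const ?_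
    exact (Measurable.of_discrete (f := fun b => b = decide (i + 1 = q.1))).comp (measurable_pi_apply i)
  have h3 := ev_meas (MeasurableSet.of_discrete (s := {q : Bool × ℕ × (ℤ × ℤ) × Bool | Arm q.1 q.2.1 q.2.2.1 ∧
    sg q.1 * q.2.2.1.1 < W q.2.1 ∧ (q.2.2.2 = false → q.2.2.1 ≠ 0)}))
  exact (measurable_fst h1).inter (h2.inter h3)

lemma Inf.lev {z : Z} (h : Inf z) : ∃ n, n ≠ 0 ∧ Lev z n := by
  have : ∃ m, z m = true := (h 0).imp fun _ h => h.2
  refine ⟨Nat.find this + 1, by simp, fun i hi => ?_⟩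
  rcases (Nat.lt_succ_iff.1 hi).eq_or_lt with rfl | hi
  · simpa using Nat.find_spec this
  · rw [decide_eq_false (by omega)]
    simpa using Nat.find_min this hi

lemma Inf.congr {z z' : Z} {n : ℕ} (h : Inf z) (e : ∀ m, n ≤ m → z' m = z m) : Inf z' := fun K => by
  obtain ⟨m, h1, h2⟩ := h (max K n)
  exact ⟨m, le_of_max_le_left h1, by rw [e m (le_of_max_le_right h1), h2]⟩

lemma mid_eq {z z' : Z} {n : ℕ} (e : ∀ m, m ≠ n → z' m = z m) (h : z n = false) (h' : z' n = true) (y : ℤ) :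
    pt z' (-W n, y) = pt z (W n, y) := by
  have := rel_of_eq (z := z) (z' := z') (n := n + 1) fun m hm => e m (by omega)
  rw [X_succ, X_succ, X_congr (z := z) (z' := z') fun m hm => e m hm.ne, h, h'] at this
  simp only [pt, this, bit, W]
  push_cast
  congr 1
  ring

theorem double : ∃ (k : ℕ) (C : Fin k → Set G) (g : Fin k → G) (j m : Fin k → ℕ), (∀ i, MeasurableSet (C i)) ∧
    Pairwise (fun a b => Disjoint (C a ×ˢ {j a}) (C b ×ˢ {j b})) ∧ (⋃ i, C i ×ˢ {j i}) = A ×ˢ Iio 2 ∧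
    Pairwise (fun a b => Disjoint (((g a + ·) '' C a) ×ˢ {m a}) (((g b + ·) '' C b) ×ˢ {m b})) ∧
    (⋃ i, ((g i + ·) '' C i) ×ˢ {m i}) = B ×ˢ Iio 2 := by
  have key := pieces D_meas (p := fun d => pt d.1 d.2.2.1) (pt_meas.comp (f := fun d : Par => (d.1, d.2.2.1)) (by fun_prop))
    (lab := fun d => lab (d.1 d.2.1) d.2.1 d.2.2.1 d.2.2.2)
    ((Measurable.of_discrete (f := fun q : Bool × ℕ × (ℤ × ℤ) × Bool => lab q.1 q.2.1 q.2.2.1 q.2.2.2)).comp ev_meas)
    ((finite_Icc ((-1, -1), 0, 0) ((1, 1), 1, 1)).subset ?_) (fun l => cst l.1) (fun l => l.2.1) (fun l => l.2.2) ?_ ?_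
  · obtain ⟨k, C, g, j, m, h1, h2, h3, h4, h5⟩ := key
    refine ⟨k, C, g, j, m, h1, h2, h3.trans ?_, h4, h5.trans ?_⟩
    · ext ⟨x, i⟩
      constructor
      · rintro ⟨⟨z, n, c, mv⟩, ⟨a1, a2, a3, a4, a5⟩, e⟩
        obtain ⟨rfl, rfl⟩ := Prod.ext_iff.1 e
        refine ⟨⟨z, n, c, a1, a2, a3, rfl, a4⟩, ?_⟩
        simp only [lab, mem_Iio]
        split_ifs <;> simp
      · rintro ⟨⟨z, n, c, a1, a2, a3, rfl, a4⟩, hi⟩
        have hi' : i = 0 ∨ i = 1 := by have : i < 2 := hi; omega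
        by_cases hc : c = 0
        · subst hc
          rcases hi' with rfl | rfl
          · exact ⟨(z, 0, 0, true), ⟨a1, fun _ h => absurd h (Nat.not_lt_zero _), arm_zero _ _,
              by simpa using W_pos 0, by simp⟩, by simp [lab]⟩
          · obtain ⟨n', b1, b2⟩ := a1.lev
            exact ⟨(z, n', 0, true), ⟨a1, b2, arm_zero _ _, by simpa using W_pos n', by simp⟩, by simp [lab, b1]⟩
        · rcases hi' with rfl | rfl
          · exact ⟨(z, n, c, false), ⟨a1, a2, a3, a4, fun _ => hc⟩, by simp [lab]⟩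
          · exact ⟨(z, n, c, true), ⟨a1, a2, a3, a4, by simp⟩, by simp [lab, hc]⟩
    · ext ⟨x, i⟩
      constructor
      · rintro ⟨⟨z, n, c, mv⟩, ⟨a1, a2, a3, a4, a5⟩, e⟩
        obtain ⟨rfl, rfl⟩ := Prod.ext_iff.1 e
        simp only [cst_pt]
        refine ⟨?_, ?_⟩
        · cases mv
          · exact ⟨z, n, c, a1, a2, a3, by simp [lab], a5 rfl⟩
          · exact ⟨z, n, _, a1, a2, (st_arm a3 a4).1, by simp [lab], (st_arm a3 a4).2⟩
        · simp only [lab, mem_Iio]
          split_ifs <;> simp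
      · rintro ⟨⟨z, n, c, a1, a2, a3, rfl, a4⟩, hi⟩
        have hi' : i = 0 ∨ i = 1 := by have : i < 2 := hi; omega
        have mv : ∀ {z c}, Inf z → Lev z n → Arm (z n) n c → c ≠ 0 → ∀ i,
            i = (if sg (z n) * c.1 = W n ∧ z n = false then 0 else 1) → (pt z c, i) ∈
            (fun d : Par => (cst (lab (d.1 d.2.1) d.2.1 d.2.2.1 d.2.2.2).1 + pt d.1 d.2.2.1,
              (lab (d.1 d.2.1) d.2.1 d.2.2.1 d.2.2.2).2.2)) '' D := by
          intro z c a1 a2 a3 a4 i hi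
          obtain ⟨c0, b1, b2, rfl⟩ := st_surj a3 a4
          exact ⟨(z, n, c0, true), ⟨a1, a2, b1, b2, by simp⟩, by simp only [lab, if_true, cst_pt, hi]⟩
        rcases a3.fst.2.eq_or_lt with hW | hW
        · have hy : c.2 = H n := by
            rcases a3 with h | h
            · rw [h.1, mul_zero] at hW
              exact absurd hW (W_pos n).ne
            · exact h.1
          have hm : ∀ b, (pt (update z n b) (sg b * W n, H n), if b then 1 else 0) ∈
              (fun d : Par => (cst (lab (d.1 d.2.1) d.2.1 d.2.2.1 d.2.2.2).1 + pt d.1 d.2.2.1,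
                (lab (d.1 d.2.1) d.2.1 d.2.2.1 d.2.2.2).2.2)) '' D := by
            intro b
            have := W_pos n
            refine mv (a1.congr (n := n + 1) fun m hm => update_of_ne (by omega) _ _)
              (fun m hm => by rw [update_of_ne hm.ne, a2 m hm]) (Or.inr ⟨rfl, ?_⟩) ?_ _ ?_
            · cases b <;> simp [sg] <;> omega
            · cases b <;> simp [sg] <;> omega
            · cases b <;> simp [sg]
          have e1 : pt (update z n true) (sg true * W n, H n) = pt (update z n false) (sg false * W n, H n) := by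
            simpa [sg] using mid_eq (z := update z n false) (z' := update z n true) (n := n)
              (fun m hm => by simp [hm]) (by simp) (by simp) (H n)
          have e2 : pt z c = pt (update z n (z n)) (sg (z n) * W n, H n) := by
            rw [update_eq_self, ← hW, ← hy]
            congr 1
            cases z n <;> simp [sg]
          have e3 : ∀ b, pt z c = pt (update z n b) (sg b * W n, H n) := by
            intro b
            rw [e2]
            cases b <;> cases z n <;> simp only [e1]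
          rcases hi' with rfl | rfl
          · exact e3 false ▸ hm false
          · exact e3 true ▸ hm true
        · rcases hi' with rfl | rfl
          · exact ⟨(z, n, c, false), ⟨a1, a2, a3, hW, fun _ => a4⟩, by simp [lab, cst]⟩
          · exact mv a1 a2 a3 a4 1 (by simp [hW.ne])
  · rintro _ ⟨⟨z, n, c, mv⟩, -, rfl⟩
    simp only [lab, st, sg, mem_Icc, Prod.le_def]
    split_ifs <;> simp
  · rintro ⟨z, n, c, mv⟩ ⟨-, a2, a3, a4, a5⟩ ⟨z', n', c', mv'⟩ ⟨-, b2, b3, b4, b5⟩ e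
    obtain ⟨e1, e2⟩ := Prod.ext_iff.1 e
    simp only at a2 a3 a4 a5 b2 b3 b4 b5 e1 e2
    rcases inj a2 a3 b2 b3 e1 with ⟨rfl, rfl, h⟩ | h
    · by_cases hc : c = 0
      · subst hc
        obtain rfl : mv = true := by simpa using a5
        obtain rfl : mv' = true := by simpa using b5
        obtain rfl : n = n' := by
          by_cases h1 : n = 0 <;> by_cases h2 : n' = 0 <;> simp [lab, h1, h2] at e2 ⊢
          exact a2.uniq b2 h1 h2
        rfl
      · obtain rfl := h.resolve_right hc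
        cases mv <;> cases mv' <;> simp [lab, hc] at e2 ⊢
    · exact absurd h.2.2.1 a4.ne
  · rintro ⟨z, n, c, mv⟩ ⟨-, a2, a3, a4, a5⟩ ⟨z', n', c', mv'⟩ ⟨-, b2, b3, b4, b5⟩ e
    obtain ⟨e1, e2⟩ := Prod.ext_iff.1 e
    simp only [cst_pt] at a2 a3 a4 a5 b2 b3 b4 b5 e1 e2
    cases mv <;> cases mv' <;> simp only [lab, if_true, Bool.false_eq_true, if_false, add_zero] at e1 e2
    · rcases inj a2 a3 b2 b3 e1 with ⟨rfl, rfl, h⟩ | h
      · rw [h.resolve_right (a5 rfl)]
      · exact absurd h.2.2.1 a4.ne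
    · rcases inj a2 a3 b2 (st_arm b3 b4).1 e1 with ⟨rfl, e3, h⟩ | h
      · obtain rfl := h.resolve_right (a5 rfl)
        simp [← e3, a4.ne] at e2
      · exact absurd h.2.2.1 a4.ne
    · rcases inj a2 (st_arm a3 a4).1 b2 b3 e1 with ⟨rfl, e3, h⟩ | ⟨rfl, h⟩
      · obtain rfl := h.resolve_right (st_arm a3 a4).2
        simp [e3, b4.ne] at e2
      · exact absurd h.2.2 b4.ne
    · rcases inj a2 (st_arm a3 a4).1 b2 (st_arm b3 b4).1 e1 with ⟨rfl, e3, h⟩ | ⟨rfl, h1, h2, h3⟩
      · obtain rfl := h.resolve_right (st_arm a3 a4).2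
        rw [st_inj a3 b3 e3]
      · rw [h2, h3] at e2
        cases hz : z n <;> cases hz' : z' n <;> simp [hz, hz'] at h1 e2

end Pool.Agent.Lib.Helper21.Gray
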