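import Mathlib

/-! A Gray-code family of lines, coarsely embedded in the orbits of `ℤ²` in a compact abelian group: geometry. -/

set_option autoImplicit false

namespace Pool.Agent.Lib.Helper21.Gray

open Set Function

abbrev Y : Type := (K : ℕ) → ZMod (4 ^ (K + 1))
abbrev G : Type := Y × Y
abbrev Z : Type := ℕ → Bool

def bit (b : Bool) : ℤ := if b then 1 else 0
def X (K : ℕ) (z : Z) : ℤ := ∑ m ∈ Finset.range K, bit (z m) * 4 ^ (m + 1)
def xz (z : Z) : Y := fun K => (X K z : ZMod (4 ^ (K + 1)))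
def pt (z : Z) (c : ℤ × ℤ) : G := (xz z + (c.1 : Y), (c.2 : Y))

lemma X_succ (K : ℕ) (z : Z) : X (K + 1) z = X K z + bit (z K) * 4 ^ (K + 1) := Finset.sum_range_succ _ _

lemma bit_inj {a b : Bool} (h : bit a = bit b) : a = b := by
  cases a <;> cases b <;> simp_all [bit]

lemma bit_nonneg (a : Bool) : 0 ≤ bit a := by cases a <;> simp [bit]
lemma bit_le (a : Bool) : bit a ≤ 1 := by cases a <;> simp [bit]

lemma X_bd (K : ℕ) (z : Z) : 0 ≤ X K z ∧ 3 * X K z ≤ 4 ^ (K + 1) := by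
  induction K with
  | zero => simp [X]
  | succ K ih =>
    have h0 := bit_nonneg (z K)
    have h1 := bit_le (z K)
    have : (0 : ℤ) < 4 ^ (K + 1) := by positivity
    rw [X_succ, pow_succ _ (K + 1)]
    constructor <;> nlinarith [ih.1, ih.2]

lemma X_congr {K : ℕ} {z z' : Z} (h : ∀ m < K, z' m = z m) : X K z' = X K z :=
  Finset.sum_congr rfl fun m hm => by rw [h m (Finset.mem_range.1 hm)]

lemma dvd_of_cast {a b : ℤ} (h : (a : Y) = b) (K : ℕ) : (4 : ℤ) ^ (K + 1) ∣ b - a := by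
  have := (ZMod.intCast_eq_intCast_iff_dvd_sub a b (4 ^ (K + 1))).1 (congrFun h K)
  exact_mod_cast this

lemma cast_inj {a b : ℤ} (h : (a : Y) = b) : a = b := by
  have h1 := dvd_of_cast h (b - a).natAbs
  have h2 : |b - a| < 4 ^ ((b - a).natAbs + 1) := by
    rw [Int.abs_eq_natAbs]
    exact_mod_cast (Nat.lt_succ_self _).trans (Nat.lt_pow_self (by norm_num))
  linarith [Int.eq_zero_of_abs_lt_dvd h1 h2]

lemma dvd_of_rel {z z' : Z} {a : ℤ} (h : xz z' = xz z + a) (K : ℕ) : (4 : ℤ) ^ (K + 1) ∣ a - (X K z' - X K z) := by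
  have e : ((X K z' - X K z : ℤ) : ZMod (4 ^ (K + 1))) = a := by
    have := congrFun h K
    simp only [xz, Pi.add_apply, Pi.intCast_apply] at this
    rw [Int.cast_sub, this]
    ring
  exact_mod_cast (ZMod.intCast_eq_intCast_iff_dvd_sub _ _ _).1 e

lemma high {z z' : Z} {a : ℤ} (h : xz z' = xz z + a) {n : ℕ} (hn : |a - (X n z' - X n z)| < 4 ^ (n + 1)) :
    a = X n z' - X n z ∧ ∀ m, n ≤ m → z' m = z m := by
  have step : ∀ m, a = X m z' - X m z → z' m = z m ∧ a = X (m + 1) z' - X (m + 1) z := by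
    intro m e
    have h1 := dvd_of_rel h (m + 1)
    have hp : (0 : ℤ) < 4 ^ (m + 1) := by positivity
    have h2 : a - (X (m + 1) z' - X (m + 1) z) = 0 := Int.eq_zero_of_abs_lt_dvd h1 (by
      rw [X_succ, X_succ, e, pow_succ _ (m + 1), abs_lt]
      constructor <;> nlinarith [bit_nonneg (z m), bit_nonneg (z' m), bit_le (z m), bit_le (z' m)])
    refine ⟨bit_inj (mul_right_cancel₀ hp.ne' ?_), by linarith⟩
    rw [X_succ, X_succ] at h2
    linarith
  have e0 : a = X n z' - X n z := by linarith [Int.eq_zero_of_abs_lt_dvd (dvd_of_rel h n) hn]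
  refine ⟨e0, fun m hm => (step m ?_).1⟩
  induction m, hm using Nat.le_induction with
  | base => exact e0
  | succ m _ ih => exact (step m ih).2

lemma rel_of_eq {z z' : Z} {n : ℕ} (h : ∀ m, n ≤ m → z' m = z m) : xz z' = xz z + ((X n z' - X n z : ℤ) : Y) := by
  funext K
  simp only [xz, Pi.add_apply, Pi.intCast_apply]
  rw [← Int.cast_add, ZMod.intCast_eq_intCast_iff_dvd_sub]
  push_cast
  rcases le_total n K with hK | hK
  · have : X K z + (X n z' - X n z) - X K z' = 0 := by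
      induction K, hK using Nat.le_induction with
      | base => ring
      | succ m hm ih => rw [X_succ, X_succ, h m hm]; linarith
    rw [this]
    exact dvd_zero _
  · clear h
    induction n, hK using Nat.le_induction with
    | base => simp
    | succ m hm ih =>
      have : (4 : ℤ) ^ (K + 1) ∣ 4 ^ (m + 1) := pow_dvd_pow _ (by omega)
      rw [X_succ, X_succ]
      have e := dvd_add ih (this.mul_left (bit (z' m) - bit (z m)))
      rwa [show X K z + (X m z' - X m z) - X K z' + (bit (z' m) - bit (z m)) * 4 ^ (m + 1) =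
        X K z + (X m z' + bit (z' m) * 4 ^ (m + 1) - (X m z + bit (z m) * 4 ^ (m + 1))) - X K z' by ring] at e

lemma uniq {z z' w w' : Z} {s : Y} (h : xz z' = xz z + s) (h' : xz w' = xz w + s) (m : ℕ) :
    bit (z' m) - bit (z m) = bit (w' m) - bit (w m) := by
  have hd : ∀ K, (4 : ℤ) ^ (K + 1) ∣ (X K z' - X K z) - (X K w' - X K w) := by
    intro K
    have e1 := congrFun h K
    have e2 := congrFun h' K
    simp only [xz, Pi.add_apply] at e1 e2
    have e : ((X K w' - X K w : ℤ) : ZMod (4 ^ (K + 1))) = (X K z' - X K z : ℤ) := by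
      rw [Int.cast_sub, Int.cast_sub, e1, e2]
      ring
    exact_mod_cast (ZMod.intCast_eq_intCast_iff_dvd_sub _ _ _).1 e
  have hz : ∀ K, (X K z' - X K z) - (X K w' - X K w) = 0 := fun K => Int.eq_zero_of_abs_lt_dvd (hd K) (by
    have : (0 : ℤ) < 4 ^ (K + 1) := by positivity
    rw [abs_lt]
    constructor <;> linarith [X_bd K z, X_bd K z', X_bd K w, X_bd K w'])
  have e1 := hz m
  have e2 := hz (m + 1)
  simp only [X_succ] at e2
  exact mul_right_cancel₀ (b := (4 : ℤ) ^ (m + 1)) (by positivity) (by linarith)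

def H (n : ℕ) : ℤ := if n = 0 then 0 else (-4) ^ n
def W (n : ℕ) : ℤ := 2 * 4 ^ n
def sg (b : Bool) : ℤ := if b then -1 else 1
def Lev (z : Z) (n : ℕ) : Prop := ∀ i < n, z i = decide (i + 1 = n)
def Arm (b : Bool) (n : ℕ) (c : ℤ × ℤ) : Prop :=
  (c.1 = 0 ∧ c.2 ∈ uIcc 0 (H n)) ∨ (c.2 = H n ∧ 0 ≤ sg b * c.1 ∧ sg b * c.1 ≤ W n)
def Inf (z : Z) : Prop := ∀ K, ∃ m, K ≤ m ∧ z m = true

lemma W_pos (n : ℕ) : 0 < W n := by unfold W; positivity

lemma abs_H {n : ℕ} (hn : n ≠ 0) : |H n| = 4 ^ n := by simp [H, hn, abs_pow]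

lemma abs_H_le (n : ℕ) : |H n| ≤ 4 ^ n := by
  rcases eq_or_ne n 0 with rfl | h
  · simp [H]
  · exact (abs_H h).le

lemma Arm.snd {b : Bool} {n : ℕ} {c : ℤ × ℤ} (h : Arm b n c) : c.2 ∈ uIcc 0 (H n) := by
  rcases h with h | h
  · exact h.2
  · rw [h.1]; exact right_mem_uIcc

lemma Arm.abs_snd {b : Bool} {n : ℕ} {c : ℤ × ℤ} (h : Arm b n c) : |c.2| ≤ |H n| := by
  simpa using abs_sub_left_of_mem_uIcc h.snd

lemma Arm.fst {b : Bool} {n : ℕ} {c : ℤ × ℤ} (h : Arm b n c) : 0 ≤ sg b * c.1 ∧ sg b * c.1 ≤ W n := by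
  rcases h with h | h
  · rw [h.1, mul_zero]; exact ⟨le_rfl, (W_pos n).le⟩
  · exact h.2

lemma Arm.abs_fst {b : Bool} {n : ℕ} {c : ℤ × ℤ} (h : Arm b n c) : |c.1| ≤ W n := by
  have := h.fst
  rw [abs_le]
  cases b <;> simp [sg] at this <;> constructor <;> linarith [this.1, this.2]

lemma Arm.vert {b : Bool} {n : ℕ} {c : ℤ × ℤ} (h : Arm b n c) (hc : |c.2| < |H n|) : c.1 = 0 := by
  rcases h with h | h
  · exact h.1
  · rw [h.1] at hc; exact absurd hc (lt_irrefl _)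

lemma Arm.sign {b : Bool} {n : ℕ} {c : ℤ × ℤ} (h : Arm b n c) (hc : c.2 ≠ 0) : 0 < c.2 * H n := by
  rcases mem_uIcc.1 h.snd with h | h
  · exact mul_pos (lt_of_le_of_ne h.1 hc.symm) (lt_of_lt_of_le (lt_of_le_of_ne h.1 hc.symm) h.2)
  · exact mul_pos_of_neg_of_neg (lt_of_le_of_ne h.2 hc) (lt_of_le_of_lt h.1 (lt_of_le_of_ne h.2 hc))

lemma arm_zero (b : Bool) (n : ℕ) : Arm b n 0 := Or.inl ⟨rfl, left_mem_uIcc⟩

lemma Lev.uniq {z : Z} {n n' : ℕ} (h : Lev z n) (h' : Lev z n') (hn : n ≠ 0) (hn' : n' ≠ 0) : n = n' := by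
  have key : ∀ {n n'}, Lev z n → Lev z n' → n ≠ 0 → ¬n < n' := fun {n n'} h h' hn hl => by
    have e1 := h (n - 1) (by omega)
    rw [h' (n - 1) (by omega), decide_eq_decide] at e1
    omega
  exact le_antisymm (not_lt.1 (key h' h hn')) (not_lt.1 (key h h' hn))

lemma Lev.X_lt {z : Z} {n j : ℕ} (h : Lev z n) (hj : j < n) : X j z = 0 :=
  Finset.sum_eq_zero fun m hm => by
    have := Finset.mem_range.1 hm
    rw [h m (by omega), decide_eq_false (by omega)]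
    simp [bit]

lemma Lev.X_eq {z : Z} {n : ℕ} (h : Lev z n) (hn : n ≠ 0) : X n z = 4 ^ n := by
  obtain ⟨j, rfl⟩ := Nat.exists_eq_succ_of_ne_zero hn
  rw [X_succ, h.X_lt j.lt_succ_self, h j j.lt_succ_self]
  simp [bit]

lemma pos_range {z : Z} {n : ℕ} {c : ℤ × ℤ} (h : Arm (z n) n c) :
    X n z ≤ X (n + 1) z + c.1 ∧ X (n + 1) z + c.1 ≤ X n z + 4 * 4 ^ n := by
  have := h.fst
  have hp : (0 : ℤ) < 4 ^ n := by positivity
  rw [X_succ, pow_succ]
  cases hz : z n <;> simp only [hz, sg, W, bit] at this ⊢ <;> simp at this ⊢ <;> constructor <;> linarith [this.1, this.2]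

lemma conn_lt {z z' : Z} {n n' : ℕ} {c c' : ℤ × ℤ} {a R : ℤ} (l : Lev z n) (h : Arm (z n) n c) (l' : Lev z' n')
    (h' : Arm (z' n') n' c') (r : xz z' = xz z + a) (d1 : |a + c'.1 - c.1| ≤ R) (d2 : |c'.2 - c.2| ≤ R)
    (s : 0 < c.2 * c'.2) (hR : R < 4 ^ n) : ¬n < n' := by
  intro hl
  have s1 := h.sign (left_ne_zero_of_mul s.ne')
  have s2 := h'.sign (right_ne_zero_of_mul s.ne')
  have n0 : n ≠ 0 := by rintro rfl; simp [H] at s1
  have s3 : 0 < H n * H n' := by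
    have := mul_pos s1 s2
    rw [show c.2 * H n * (c'.2 * H n') = c.2 * c'.2 * (H n * H n') by ring] at this
    exact (mul_pos_iff_of_pos_left s).1 this
  have hl2 : n + 1 < n' := by
    refine lt_of_le_of_ne hl ?_
    rintro rfl
    simp only [H, n0, if_false, Nat.succ_ne_zero, pow_succ] at s3
    nlinarith [mul_self_nonneg ((-4 : ℤ) ^ n)]
  have hp : (0 : ℤ) < 4 ^ n := by positivity
  have v : c'.1 = 0 := h'.vert (by
    have e1 := h.abs_snd
    have e2 : (4 : ℤ) ^ (n + 1) ≤ 4 ^ n' := pow_le_pow_right₀ (by norm_num) hl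
    have e3 := abs_sub_abs_le_abs_sub c'.2 c.2
    rw [abs_H n0] at e1
    rw [abs_H (by omega)]
    rw [pow_succ] at e2
    linarith)
  have e1 := dvd_of_rel r (n + 1)
  have e2 := pos_range h
  rw [l.X_eq n0] at e2
  rw [l'.X_lt hl2] at e1
  rw [v, abs_le] at d1
  have := Int.eq_zero_of_abs_lt_dvd e1 (by
    rw [abs_lt, pow_succ, pow_succ]
    constructor <;> linarith [e2.1, e2.2, d1.1, d1.2])
  linarith [e2.1, d1.1]

lemma conn {z z' : Z} {n n' : ℕ} {c c' : ℤ × ℤ} {a R : ℤ} (l : Lev z n) (h : Arm (z n) n c) (l' : Lev z' n')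
    (h' : Arm (z' n') n' c') (r : xz z' = xz z + a) (d1 : |a + c'.1 - c.1| ≤ R) (d2 : |c'.2 - c.2| ≤ R)
    (s : 0 < c.2 * c'.2) (hR : R < 4 ^ n) (hR' : R < 4 ^ n') : n = n' := by
  refine le_antisymm (not_lt.1 (conn_lt l' h' l h (a := -a) (by rw [r]; simp) ?_ ?_ (by rwa [mul_comm]) hR'))
    (not_lt.1 (conn_lt l h l' h' r d1 d2 s hR))
  · rwa [← abs_neg, show -(-a + c.1 - c'.1) = a + c'.1 - c.1 by ring]
  · rwa [abs_sub_comm]

lemma same {z z' : Z} {n : ℕ} {c c' : ℤ × ℤ} {a R : ℤ} (l : Lev z n) (h : Arm (z n) n c) (l' : Lev z' n)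
    (h' : Arm (z' n) n c') (r : xz z' = xz z + a) (d1 : |a + c'.1 - c.1| ≤ R) (hR : R < 4 ^ n) :
    a = (bit (z' n) - bit (z n)) * 4 ^ (n + 1) ∧ ∀ m, m ≠ n → z' m = z m := by
  have e0 : X n z' = X n z := X_congr fun m hm => by rw [l m hm, l' m hm]
  have e1 := pos_range h
  have e2 := pos_range h'
  have hp : (0 : ℤ) < 4 ^ n := by positivity
  rw [abs_le] at d1
  obtain ⟨e3, e4⟩ := high r (n := n + 1) (by
    rw [abs_lt, pow_succ, pow_succ]
    constructor <;> linarith [e1.1, e1.2, e2.1, e2.2, d1.1, d1.2])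
  refine ⟨by rw [e3, X_succ, X_succ, e0]; ring, fun m hm => ?_⟩
  rcases lt_or_gt_of_ne hm with hm | hm
  · rw [l m hm, l' m hm]
  · exact e4 m hm

lemma pt_eq {z z' : Z} {c c' : ℤ × ℤ} (e : pt z c = pt z' c') : xz z' = xz z + ((c.1 - c'.1 : ℤ) : Y) ∧ c.2 = c'.2 := by
  refine ⟨?_, cast_inj (congrArg Prod.snd e)⟩
  have : xz z + (c.1 : Y) = xz z' + c'.1 := congrArg Prod.fst e
  push_cast
  linear_combination -this

lemma same_inj {z z' : Z} {n : ℕ} {c c' : ℤ × ℤ} (l : Lev z n) (h : Arm (z n) n c) (l' : Lev z' n)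
    (h' : Arm (z' n) n c') (e : pt z c = pt z' c') :
    (z = z' ∧ c = c') ∨ (z n ≠ z' n ∧ sg (z n) * c.1 = W n ∧ sg (z' n) * c'.1 = W n) := by
  obtain ⟨r, e2⟩ := pt_eq e
  obtain ⟨e3, e4⟩ := same l h l' h' r (R := 0) (by simp) (by positivity)
  by_cases hz : z' n = z n
  · refine Or.inl ⟨funext fun m => ?_, Prod.ext ?_ e2⟩
    · by_cases hm : m = n
      · rw [hm, hz]
      · exact (e4 m hm).symm
    · rw [hz] at e3
      linarith
  · refine Or.inr ⟨Ne.symm hz, ?_⟩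
    have f1 := h.fst
    have f2 := h'.fst
    rw [pow_succ] at e3
    unfold W at *
    cases hz1 : z n <;> cases hz2 : z' n <;> simp only [hz1, hz2, sg, bit] at * <;> simp at * <;>
      constructor <;> linarith [f1.1, f1.2, f2.1, f2.2]

lemma inj {z z' : Z} {n n' : ℕ} {c c' : ℤ × ℤ} (l : Lev z n) (h : Arm (z n) n c) (l' : Lev z' n')
    (h' : Arm (z' n') n' c') (e : pt z c = pt z' c') :
    (z = z' ∧ c = c' ∧ (n = n' ∨ c = 0)) ∨
      (n = n' ∧ z n ≠ z' n ∧ sg (z n) * c.1 = W n ∧ sg (z' n) * c'.1 = W n) := by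
  obtain ⟨r, e2⟩ := pt_eq e
  by_cases hn : n = n'
  · subst hn
    exact (same_inj l h l' h' e).imp (fun h => ⟨h.1, h.2, Or.inl rfl⟩) fun h => ⟨rfl, h⟩
  by_cases h0 : c.2 = 0
  · have z0 : ∀ {z : Z} {n : ℕ} {c : ℤ × ℤ}, Arm (z n) n c → c.2 = 0 → n ≠ 0 → c = 0 := fun h h0 hn =>
      Prod.ext (h.vert (by rw [h0, abs_H hn]; simp)) h0
    have a0 : ∀ {z : Z} {n : ℕ} {c : ℤ × ℤ}, Arm (z n) n c → c.2 = 0 → Arm (z 0) 0 c := fun {z n c} h h0 => by
      rcases eq_or_ne n 0 with rfl | hn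
      · exact h
      · rw [z0 h h0 hn]; exact arm_zero _ _
    have hc : c = 0 ∨ c' = 0 := by
      rcases eq_or_ne n 0 with rfl | hn0
      · exact Or.inr (z0 h' (e2 ▸ h0) (Ne.symm hn))
      · exact Or.inl (z0 h h0 hn0)
    rcases same_inj (n := 0) (fun _ hi => absurd hi (Nat.not_lt_zero _)) (a0 h h0)
      (fun _ hi => absurd hi (Nat.not_lt_zero _)) (a0 h' (e2 ▸ h0)) e with h1 | h1
    · exact Or.inl ⟨h1.1, h1.2, Or.inr (hc.elim id fun h => h1.2.trans h)⟩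
    · have := W_pos 0
      rcases hc with rfl | rfl <;> simp at h1 <;> linarith [h1.2.1, h1.2.2]
  · exact absurd (conn l h l' h' r (R := 0) (by simp) (by simp [e2]) (by rw [← e2]; exact mul_self_pos.2 h0)
      (by positivity) (by positivity)) hn

lemma block {z z' : Z} {n n' N : ℕ} {c c' : ℤ × ℤ} {a R : ℤ} (h : Arm (z n) n c)
    (h' : Arm (z' n') n' c') (r : xz z' = xz z + a) (d1 : |a + c'.1 - c.1| ≤ R) (hR : R < 4 ^ N)
    (b : |c.2| < 4 ^ (N + 1)) (b' : |c'.2| < 4 ^ (N + 1)) : ∀ m, N + 1 ≤ m → z' m = z m := by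
  have hp : (0 : ℤ) < 4 ^ N := by positivity
  have key : ∀ {z : Z} {n : ℕ} {c : ℤ × ℤ}, Arm (z n) n c → |c.2| < 4 ^ (N + 1) → |c.1| ≤ 2 * 4 ^ N := by
    intro z n c h b
    rcases le_or_gt n N with hn | hn
    · have : (4 : ℤ) ^ n ≤ 4 ^ N := pow_le_pow_right₀ (by norm_num) hn
      exact h.abs_fst.trans (by unfold W; linarith)
    · rw [h.vert (b.trans_le (by rw [abs_H (by omega)]; exact pow_le_pow_right₀ (by norm_num) hn)), abs_zero]
      positivity
  have e1 := abs_le.1 (key h b)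
  have e2 := abs_le.1 (key h' b')
  have e3 := X_bd (N + 1) z
  have e4 := X_bd (N + 1) z'
  rw [abs_le] at d1
  refine (high r (n := N + 1) ?_).2
  rw [pow_succ, pow_succ] at *
  rw [abs_lt]
  constructor <;> linarith [e1.1, e1.2, e2.1, e2.2, e3.1, e3.2, e4.1, e4.2, d1.1, d1.2]

def A : Set G := {x | ∃ z n c, Inf z ∧ Lev z n ∧ Arm (z n) n c ∧ x = pt z c ∧ sg (z n) * c.1 < W n}
def B : Set G := {x | ∃ z n c, Inf z ∧ Lev z n ∧ Arm (z n) n c ∧ x = pt z c ∧ c ≠ 0}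

lemma mem_A {z : Z} {n : ℕ} {c : ℤ × ℤ} (i : Inf z) (l : Lev z n) (h : Arm (z n) n c) :
    pt z c ∈ A ↔ sg (z n) * c.1 < W n := by
  refine ⟨?_, fun hc => ⟨z, n, c, i, l, h, rfl, hc⟩⟩
  rintro ⟨z', n', c', -, l', h', e, hc⟩
  rcases inj l h l' h' e with ⟨rfl, rfl, rfl | rfl⟩ | ⟨rfl, -, -, e⟩
  · exact hc
  · simpa using W_pos n
  · exact absurd e hc.ne

lemma mem_B {z : Z} {n : ℕ} {c : ℤ × ℤ} (i : Inf z) (l : Lev z n) (h : Arm (z n) n c) : pt z c ∈ B ↔ c ≠ 0 := by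
  refine ⟨?_, fun hc => ⟨z, n, c, i, l, h, rfl, hc⟩⟩
  rintro ⟨z', n', c', -, l', h', e, hc⟩
  rcases inj l h l' h' e with ⟨rfl, rfl, -⟩ | ⟨rfl, -, e, -⟩
  · exact hc
  · rintro rfl
    simpa [← e] using W_pos n

end Pool.Agent.Lib.Helper21.Gray
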