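import Pool.Agent.Lib.helper21.GrayDouble

/-! `A` and `B` are not Borel equidecomposable: a parity and Baire category argument. -/

set_option autoImplicit false

namespace Pool.Agent.Lib.Helper21.Gray

open Set Function

lemma par {α : Type} {A B U : Set α} {φ ψ : α → α} (hU : U.Finite) (h1 : MapsTo φ A B) (h2 : MapsTo ψ B A)
    (l1 : ∀ x ∈ A, ψ (φ x) = x) (l2 : ∀ y ∈ B, φ (ψ y) = y) :
    ({x | x ∈ A ∧ x ∈ U ∧ φ x ∉ U}.ncard + {y | y ∈ B ∧ y ∈ U ∧ ψ y ∉ U}.ncard) % 2 =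
      ((U ∩ (A \ B)).ncard + (U ∩ (B \ A)).ncard) % 2 := by
  have split : ∀ (S : Set α) (p : α → Prop), (U ∩ S).ncard = {x | x ∈ S ∧ x ∈ U ∧ p x}.ncard +
      {x | x ∈ S ∧ x ∈ U ∧ ¬p x}.ncard := by
    intro S p
    rw [← ncard_union_eq (disjoint_left.2 fun x a b => b.2.2 a.2.2) (hU.subset fun x a => a.2.1)
      (hU.subset fun x a => a.2.1)]
    congr 1
    ext x
    simp only [mem_inter_iff, mem_union, mem_ofPred_eq]
    tauto
  have e1 := split A fun x => φ x ∈ U
  have e2 := split B fun x => ψ x ∈ U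
  have e3 := split A fun x => x ∈ B
  have e4 := split B fun x => x ∈ A
  have e5 : {x | x ∈ A ∧ x ∈ U ∧ φ x ∈ U}.ncard = {x | x ∈ B ∧ x ∈ U ∧ ψ x ∈ U}.ncard :=
    ncard_congr (fun x _ => φ x) (fun x a => ⟨h1 a.1, a.2.2, by rw [l1 x a.1]; exact a.2.1⟩)
      (fun x y a b e => by rw [← l1 x a.1, e, l1 y b.1])
      fun y b => ⟨ψ y, ⟨h2 b.1, b.2.2, by rw [l2 y b.1]; exact b.2.1⟩, l2 y b.1⟩
  have e6 : {x | x ∈ A ∧ x ∈ U ∧ x ∈ B} = {x | x ∈ B ∧ x ∈ U ∧ x ∈ A} := by
    ext x; simp only [mem_ofPred_eq]; tauto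
  have e7 : {x | x ∈ A ∧ x ∈ U ∧ x ∉ B} = U ∩ (A \ B) := by
    ext x; simp only [mem_ofPred_eq, mem_inter_iff, mem_sdiff]; tauto
  have e8 : {x | x ∈ B ∧ x ∈ U ∧ x ∉ A} = U ∩ (B \ A) := by
    ext x; simp only [mem_ofPred_eq, mem_inter_iff, mem_sdiff]; tauto
  rw [e6, e7] at e3
  rw [e8] at e4
  omega

lemma swap_out {α : Type} {A B U : Set α} {φ ψ : α → α} (h1 : MapsTo φ A B) (h2 : MapsTo ψ B A)
    (l1 : ∀ x ∈ A, ψ (φ x) = x) (l2 : ∀ y ∈ B, φ (ψ y) = y) :
    {x | x ∈ A ∧ x ∈ U ∧ φ x ∉ U}.ncard = {y | y ∈ B ∧ y ∉ U ∧ ψ y ∈ U}.ncard :=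
  ncard_congr (fun x _ => φ x) (fun x a => ⟨h1 a.1, a.2.2, by rw [l1 x a.1]; exact a.2.1⟩)
    (fun x y a b e => by rw [← l1 x a.1, e, l1 y b.1])
    fun y b => ⟨ψ y, ⟨h2 b.1, b.2.2, by rw [l2 y b.1]; exact b.2.1⟩, l2 y b.1⟩

def Val : Set G := {x | ∃ z n c, Lev z n ∧ Arm (z n) n c ∧ x = pt z c}

lemma A_val : A ⊆ Val := fun _ ⟨z, n, c, _, a, b, e, _⟩ => ⟨z, n, c, a, b, e⟩
lemma B_val : B ⊆ Val := fun _ ⟨z, n, c, _, a, b, e, _⟩ => ⟨z, n, c, a, b, e⟩

def Good (T : Set G) (z : Z) : Prop :=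
  Inf z ∧ ∀ t ∈ T, ∀ (a : ℤ) (z' : Z), xz z' = xz z + (t.1 + a) → ∃ K, ∀ m, K ≤ m → z' m = z m

lemma Good.congr {T : Set G} {z z' : Z} {n : ℕ} (h : Good T z) (e : ∀ m, n ≤ m → z' m = z m) : Good T z' := by
  refine ⟨h.1.congr e, fun t ht a w hw => ?_⟩
  obtain ⟨K, hK⟩ := h.2 t ht (a + (X n z' - X n z)) w (by rw [hw, rel_of_eq e]; push_cast; ring)
  exact ⟨max K n, fun m hm => by rw [hK m (le_of_max_le_left hm), e m (le_of_max_le_right hm)]⟩

/-- the data of the argument: translations `T`, a bound `R` and a level `N` -/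
structure Data (T : Set G) (R : ℤ) (N : ℕ) : Prop where
  neg : ∀ t ∈ T, -t ∈ T
  bd : ∀ τ, cst τ ∈ T → |τ.1| ≤ R ∧ |τ.2| ≤ R
  lt : R < 4 ^ N

variable {T : Set G} {R : ℤ} {N : ℕ}

lemma near (d : Data T R N) {z z' : Z} {c c' : ℤ × ℤ} {t : G} (g : Good T z) (ht : t ∈ T) (e : t + pt z c = pt z' c') :
    ∃ a : ℤ, xz z' = xz z + a ∧ |a + c'.1 - c.1| ≤ R ∧ |c'.2 - c.2| ≤ R := by
  have e1 : t.1 + (xz z + c.1) = xz z' + c'.1 := congrArg Prod.fst e
  have e2 : t.2 + c.2 = c'.2 := congrArg Prod.snd e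
  obtain ⟨K, hK⟩ := g.2 t ht (c.1 - c'.1) z' (by push_cast; linear_combination -e1)
  have r := rel_of_eq hK
  refine ⟨_, r, d.bd (_, _) ?_⟩
  have : cst (X K z' - X K z + c'.1 - c.1, c'.2 - c.2) = t := by
    refine Prod.ext ?_ ?_ <;> simp only [cst] <;> push_cast at r ⊢
    · linear_combination -r - e1
    · linear_combination -e2
  rwa [this]

def Low (N : ℕ) : Set G := {x | ∃ b : ℤ, |b| ≤ 2 * 4 ^ N ∧ x.2 = b}

lemma mem_Low {z : Z} {c : ℤ × ℤ} : pt z c ∈ Low N ↔ |c.2| ≤ 2 * 4 ^ N :=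
  ⟨fun ⟨_, h, e⟩ => by rwa [cast_inj (a := c.2) e], fun h => ⟨_, h, rfl⟩⟩

def col (R : ℤ) (N : ℕ) (S : Set G) (f : G → G) (z : Z) : Set ℤ :=
  {b | 2 * 4 ^ N < |b| ∧ |b| ≤ 2 * 4 ^ N + R ∧ pt z (0, b) ∈ S ∧ f (pt z (0, b)) ∈ Low N}

lemma lev_gt {b : Bool} {n : ℕ} {c : ℤ × ℤ} (h : Arm b n c) (hc : 2 * 4 ^ N < |c.2|) : N + 1 ≤ n := by
  by_contra hn
  have : (4 : ℤ) ^ n ≤ 4 ^ N := pow_le_pow_right₀ (by norm_num) (by omega)
  have hp : (0 : ℤ) < 4 ^ N := by positivity
  linarith [h.abs_snd, abs_H_le n]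

lemma vert_of (d : Data T R N) {b : Bool} {n : ℕ} {c : ℤ × ℤ} (h : Arm b n c) (hn : N + 1 ≤ n)
    (hc : |c.2| ≤ 2 * 4 ^ N + R) : c.1 = 0 := by
  have : (4 : ℤ) ^ (N + 1) ≤ 4 ^ n := pow_le_pow_right₀ (by norm_num) hn
  have hp : (0 : ℤ) < 4 ^ N := by positivity
  rw [pow_succ] at this
  exact h.vert (by rw [abs_H (by omega)]; linarith [d.lt])

lemma xz_inj {z z' : Z} (h : xz z' = xz z) : z' = z :=
  funext fun m => (high (a := 0) (n := 0) (by simpa using h) (by simp [X])).2 m m.zero_le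

lemma two_cols {S : Set G} {f : G → G} {z z' : Z} (h : z ≠ z') :
    ((fun b => pt z (0, b)) '' col R N S f z ∪ (fun b => pt z' (0, b)) '' col R N S f z').ncard =
      (col R N S f z).ncard + (col R N S f z').ncard := by
  have fin : ∀ z, (col R N S f z).Finite := fun z =>
    (finite_Icc _ _).subset fun b hb => mem_Icc.2 (abs_le.1 hb.2.1)
  have i : ∀ z, Injective fun b => pt z (0, b) := fun z b b' e => (pt_eq e).2
  rw [ncard_union_eq _ ((fin z).image _) ((fin z').image _), ncard_image_of_injective _ (i z),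
    ncard_image_of_injective _ (i z')]
  refine disjoint_left.2 ?_
  rintro _ ⟨b, -, rfl⟩ ⟨b', -, e⟩
  exact h (xz_inj (by simpa using (pt_eq e).1))

def Con (N : ℕ) (z : Z) (n : ℕ) : Set G := {x | ∃ b c, Arm b n c ∧ 2 * 4 ^ N < |c.2| ∧ x = pt (update z n b) c}

lemma lev_update {z : Z} {n : ℕ} (l : Lev z n) (b : Bool) : Lev (update z n b) n :=
  fun m hm => by rw [update_of_ne hm.ne, l m hm]

lemma good_update {z : Z} (g : Good T z) (n : ℕ) (b : Bool) : Good T (update z n b) :=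
  g.congr (n := n + 1) fun _ hm => update_of_ne (by omega) _ _

lemma con_out (d : Data T R N) {S : Set G} {f : G → G} (hS : S ⊆ Val) (hf : ∀ x ∈ S, f x ∈ Val ∧ ∃ t ∈ T, f x = t + x)
    {z : Z} {n : ℕ} (g : Good T z) (l : Lev z n) (hn : N + 1 ≤ n) :
    {x | x ∈ S ∧ x ∈ Con N z n ∧ f x ∉ Con N z n}.ncard =
      (col R N S f (update z n false)).ncard + (col R N S f (update z n true)).ncard := by
  have hp : (0 : ℤ) < 4 ^ N := by positivity
  have hR : ∀ m, N + 1 ≤ m → R < 4 ^ m := fun m hm => d.lt.trans_le (pow_le_pow_right₀ (by norm_num) (by omega))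
  rw [← two_cols fun e => by simpa using congrFun e n]
  congr 1
  ext x
  constructor
  · rintro ⟨hx, ⟨b, c, a1, a2, rfl⟩, ho⟩
    obtain ⟨⟨z', n', c', l', h', e⟩, t, ht, e'⟩ := hf _ hx
    obtain ⟨a, r, d1, d2⟩ := near d (good_update g n b) ht (e'.symm.trans e)
    have a1' : Arm (update z n b n) n c := by rwa [update_self]
    have lo : |c'.2| ≤ 2 * 4 ^ N := by
      by_contra hc
      rw [not_le] at hc
      have s : 0 < c.2 * c'.2 := by
        have := d.lt
        rw [abs_le] at d2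
        rcases lt_abs.1 a2 with p | p <;> rcases lt_abs.1 hc with q | q <;> nlinarith [d2.1, d2.2]
      obtain rfl := conn (lev_update l b) a1' l' h' r d1 d2 s (hR _ hn) (hR _ (lev_gt h' hc))
      have e4 := (same (lev_update l b) a1' l' h' r d1 (hR _ hn)).2
      refine ho ⟨z' n, c', h', hc, e.trans ?_⟩
      congr 1
      funext m
      by_cases hm : m = n
      · rw [hm, update_self]
      · rw [e4 m hm, update_of_ne hm, update_of_ne hm]
    have up : |c.2| ≤ 2 * 4 ^ N + R := by linarith [abs_sub_abs_le_abs_sub c.2 c'.2, abs_sub_comm c.2 c'.2]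
    have v : c = (0, c.2) := Prod.ext (vert_of d a1 hn up) rfl
    have : pt (update z n b) c ∈ (fun y => pt (update z n b) (0, y)) '' col R N S f (update z n b) :=
      ⟨c.2, ⟨a2, up, v ▸ hx, by rw [← v, e]; exact mem_Low.2 lo⟩, congrArg _ v.symm⟩
    cases b
    · exact Or.inl this
    · exact Or.inr this
  · have key : ∀ b, x ∈ (fun y => pt (update z n b) (0, y)) '' col R N S f (update z n b) →
        x ∈ S ∧ x ∈ Con N z n ∧ f x ∉ Con N z n := by
      rintro b ⟨y, ⟨a1, a2, a3, a4⟩, rfl⟩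
      refine ⟨a3, ⟨b, (0, y), ?_, a1, rfl⟩, ?_⟩
      · obtain ⟨w, n', c, l', h', e⟩ := hS a3
        obtain ⟨r, e2⟩ := pt_eq e
        simp only at r e2
        have hn' := lev_gt h' (e2 ▸ a1)
        have v := vert_of d h' hn' (e2 ▸ a2)
        obtain rfl := xz_inj (z := update z n b) (z' := w) (by simpa [v] using r)
        obtain rfl := l'.uniq (lev_update l b) (by omega) (by omega)
        rw [update_self] at h'
        rwa [show ((0 : ℤ), y) = c from Prod.ext v.symm e2]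
      · rintro ⟨b', c, -, h, e⟩
        rw [e, mem_Low] at a4
        exact absurd a4 (not_le.2 h)
    exact fun h => h.elim (key _) (key _)

lemma con_fin (z : Z) (n : ℕ) : (Con N z n).Finite := by
  refine (((finite_univ (α := Bool)).prod (finite_Icc (-W n, -|H n|) (W n, |H n|))).image
    fun q => pt (update z n q.1) q.2).subset ?_
  rintro _ ⟨b, c, h, -, rfl⟩
  have e1 := abs_le.1 h.abs_fst
  have e2 := abs_le.1 h.abs_snd
  exact ⟨(b, c), ⟨mem_univ _, ⟨e1.1, e2.1⟩, e1.2, e2.2⟩, rfl⟩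

lemma snd_of_W {b : Bool} {n : ℕ} {c : ℤ × ℤ} (h : Arm b n c) (e : sg b * c.1 = W n) : c.2 = H n := by
  rcases h with h | h
  · rw [h.1, mul_zero] at e
    exact absurd e (W_pos n).ne
  · exact h.1

lemma con_diff {z : Z} {n : ℕ} (i : Inf z) (l : Lev z n) (hn : N + 1 ≤ n) :
    (Con N z n ∩ (A \ B)).ncard + (Con N z n ∩ (B \ A)).ncard = 1 := by
  have hp : (0 : ℤ) < 4 ^ N := by positivity
  have i' : ∀ b, Inf (update z n b) := fun b => i.congr (n := n + 1) fun _ hm => update_of_ne (by omega) _ _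
  have e1 : Con N z n ∩ (A \ B) = ∅ := by
    refine eq_empty_of_forall_notMem ?_
    rintro _ ⟨⟨b, c, h, hc, rfl⟩, -, hB⟩
    refine hB ((mem_B (i' b) (lev_update l b) (by rwa [update_self])).2 ?_)
    rintro rfl
    simp at hc
    linarith
  have e2 : Con N z n ∩ (B \ A) = {pt (update z n false) (W n, H n)} := by
    have am : Arm false n (W n, H n) := Or.inr ⟨rfl, by simpa [sg] using (W_pos n).le, by simp [sg]⟩
    ext x
    constructor
    · rintro ⟨⟨b, c, h, -, rfl⟩, -, hA⟩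
      rw [mem_A (i' b) (lev_update l b) (by rwa [update_self]), update_self] at hA
      have e := le_antisymm h.fst.2 (not_lt.1 hA)
      have e' := snd_of_W h e
      cases b
      · exact congrArg _ (Prod.ext (by simpa [sg] using e) e')
      · rw [mem_singleton_iff, ← mid_eq (z' := update z n true) (fun m hm => by simp [hm]) (by simp) (by simp)]
        exact congrArg _ (Prod.ext (by simp [sg] at e ⊢; linarith) e')
    · rintro rfl
      refine ⟨⟨false, _, am, ?_, rfl⟩, (mem_B (i' _) (lev_update l _) (by rwa [update_self])).2 ?_, ?_⟩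
      · have : (4 : ℤ) ^ (N + 1) ≤ 4 ^ n := pow_le_pow_right₀ (by norm_num) hn
        rw [pow_succ] at this
        rw [abs_H (by omega)]
        linarith
      · simp [(W_pos n).ne']
      · rw [mem_A (i' _) (lev_update l _) (by rwa [update_self])]
        simp [sg]
  rw [e1, e2, ncard_empty, ncard_singleton]

def Blk (N : ℕ) (z : Z) : Set G :=
  {x | ∃ w n c, (∀ m, N + 1 ≤ m → w m = z m) ∧ Lev w n ∧ Arm (w n) n c ∧ |c.2| ≤ 2 * 4 ^ N ∧ x = pt w c}

def pat (n : ℕ) (z : Z) : Z := fun m => if m < n then decide (m + 1 = n) else z m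

lemma lev_pat (n : ℕ) (z : Z) : Lev (pat n z) n := fun _ hm => if_pos hm
lemma pat_ge {n m : ℕ} (z : Z) (h : n ≤ m) : pat n z m = z m := if_neg (not_lt.2 h)

lemma blk_in (d : Data T R N) {S : Set G} {f : G → G} (hS : S ⊆ Val) (hf : ∀ x ∈ S, f x ∈ Val ∧ ∃ t ∈ T, f x = t + x)
    {z : Z} {n : ℕ} (g : Good T z) (l : Lev z n) (hn : N + 1 < n) :
    {x | x ∈ S ∧ x ∉ Blk N z ∧ f x ∈ Blk N z}.ncard = (col R N S f (pat (N + 1) z)).ncard + (col R N S f z).ncard := by
  have hp : (0 : ℤ) < 4 ^ N := by positivity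
  have hlt := d.lt
  rw [← two_cols fun e => by
    have := congrFun e N
    rw [lev_pat _ _ N N.lt_succ_self, l N (by omega), decide_eq_decide] at this
    omega]
  congr 1
  ext x
  constructor
  · rintro ⟨hx, ho, w, m, c, a1, a2, a3, a4, e⟩
    obtain ⟨z', n', c', l', h', rfl⟩ := hS hx
    obtain ⟨-, t, ht, e'⟩ := hf _ hx
    obtain ⟨a, r, d1, d2⟩ := near d (z' := z') (c := c) (c' := c') (g.congr a1) (d.neg t ht) (by rw [← e, e']; abel)
    have up : |c'.2| ≤ 2 * 4 ^ N + R := by linarith [abs_sub_abs_le_abs_sub c'.2 c.2]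
    have hb := block a3 h' r d1 hlt (by rw [pow_succ]; linarith) (by rw [pow_succ]; linarith)
    have hb' : ∀ m, N + 1 ≤ m → z' m = z m := fun m hm => (hb m hm).trans (a1 m hm)
    have hc : 2 * 4 ^ N < |c'.2| := not_le.1 fun h => ho ⟨z', n', c', hb', l', h', h, rfl⟩
    have hn' := lev_gt h' hc
    have v : c' = (0, c'.2) := Prod.ext (vert_of d h' hn' up) rfl
    have : pt z' c' ∈ (fun y => pt z' (0, y)) '' col R N S f z' :=
      ⟨c'.2, ⟨hc, up, v ▸ hx, by rw [← v, e]; exact mem_Low.2 a4⟩, congrArg _ v.symm⟩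
    rcases hn'.eq_or_lt with rfl | hn'
    · left
      rwa [show pat (N + 1) z = z' from funext fun m => ?_]
      rcases lt_or_ge m (N + 1) with hm | hm
      · rw [lev_pat _ _ m hm, l' m hm]
      · rw [pat_ge _ hm, hb' m hm]
    · right
      rwa [show z = z' from funext fun m => ?_]
      rcases lt_or_ge m (N + 1) with hm | hm
      · rw [l m (by omega), l' m (by omega), decide_eq_decide]
        omega
      · rw [hb' m hm]
  · have key : ∀ z', (∀ m, N + 1 ≤ m → z' m = z m) → (∃ n', Lev z' n') →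
        x ∈ (fun y => pt z' (0, y)) '' col R N S f z' → x ∈ S ∧ x ∉ Blk N z ∧ f x ∈ Blk N z := by
      rintro z' hz ⟨n', l'⟩ ⟨y, ⟨a1, a2, a3, a4⟩, rfl⟩
      refine ⟨a3, ?_, ?_⟩
      · rintro ⟨w, m, c, -, -, -, h, e⟩
        rw [← (pt_eq e).2] at h
        exact absurd h (not_le.2 a1)
      · obtain ⟨⟨w, m, c, l1, h1, e⟩, t, ht, e'⟩ := hf _ a3
        obtain ⟨a, r, d1, -⟩ := near d (g.congr hz) ht (e'.symm.trans e)
        rw [e, mem_Low] at a4
        have hb := block (arm_zero (z' 0) 0) h1 r (by simpa using d1) hlt (by simp) (by rw [pow_succ]; linarith)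
        exact ⟨w, m, c, fun j hj => (hb j hj).trans (hz j hj), l1, h1, a4, e⟩
    exact fun h => h.elim (key _ (fun m hm => pat_ge _ hm) ⟨_, lev_pat _ _⟩) (key _ (fun _ _ => rfl) ⟨_, l⟩)

lemma blk_fin (z : Z) : (Blk N z).Finite := by
  have f1 : {w : Z | ∀ m, N + 1 ≤ m → w m = z m}.Finite := by
    refine Finite.of_finite_image (f := fun w (i : Fin (N + 1)) => w i) (toFinite _) fun w a w' b e => funext fun m => ?_
    rcases lt_or_ge m (N + 1) with hm | hm
    · exact congrFun e ⟨m, hm⟩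
    · rw [a m hm, b m hm]
  refine ((f1.prod (finite_Icc ((-(2 * 4 ^ N), -(2 * 4 ^ N)) : ℤ × ℤ) (2 * 4 ^ N, 2 * 4 ^ N))).image
    fun q => pt q.1 q.2).subset ?_
  rintro _ ⟨w, n, c, a1, -, h, a4, rfl⟩
  have hp : (0 : ℤ) < 4 ^ N := by positivity
  have e1 : |c.1| ≤ 2 * 4 ^ N := by
    rcases le_or_gt n N with hn | hn
    · have : (4 : ℤ) ^ n ≤ 4 ^ N := pow_le_pow_right₀ (by norm_num) hn
      exact h.abs_fst.trans (by unfold W; linarith)
    · have : (4 : ℤ) ^ (N + 1) ≤ 4 ^ n := pow_le_pow_right₀ (by norm_num) hn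
      rw [pow_succ] at this
      rw [h.vert (by rw [abs_H (by omega)]; linarith), abs_zero]
      positivity
  rw [abs_le] at e1 a4
  exact ⟨(w, c), ⟨a1, ⟨e1.1, a4.1⟩, e1.2, a4.2⟩, rfl⟩

lemma blk_le {z z' : Z} {K : ℕ} (i : Inf z) (e : ∀ m, K ≤ m → z' m = z m) :
    (Blk N z ∩ (A \ B)).ncard ≤ (Blk N z' ∩ (A \ B)).ncard ∧ (Blk N z ∩ (B \ A)).ncard ≤ (Blk N z' ∩ (B \ A)).ncard := by
  let mg : Z → Z := fun w m => if m < N + 1 then w m else z' m
  have hi : ∀ w m, N + 1 ≤ m → mg w m = z' m := fun w m hm => if_neg (not_lt.2 hm)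
  have lo : ∀ w m, m < N + 1 → mg w m = w m := fun w m hm => if_pos hm
  have tr : ∀ w c, (∀ m, N + 1 ≤ m → w m = z m) → (xz (mg z) - xz z, 0) + pt w c = pt (mg w) c := by
    intro w c hw
    have r1 := rel_of_eq hw
    have r2 := rel_of_eq (z := mg z) (z' := mg w) (n := N + 1) fun m hm => by rw [hi w m hm, hi z m hm]
    rw [X_congr (lo w), X_congr (lo z)] at r2
    refine Prod.ext ?_ (zero_add _)
    simp only [pt, Prod.fst_add]
    linear_combination r1 - r2
  have i' : ∀ w, Inf (mg w) := fun w => (i.congr e).congr (hi w)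
  have hp : (0 : ℤ) < 4 ^ N := by positivity
  refine ⟨ncard_le_ncard_of_injOn _ ?_ (add_right_injective (xz (mg z) - xz z, 0)).injOn ((blk_fin z').inter_of_left _),
    ncard_le_ncard_of_injOn _ ?_ (add_right_injective (xz (mg z) - xz z, 0)).injOn ((blk_fin z').inter_of_left _)⟩
  · rintro _ ⟨⟨w, n, c, a1, a2, a3, a4, rfl⟩, -, hB⟩
    rw [mem_B (i.congr a1) a2 a3, not_not] at hB
    subst hB
    have l0 : Lev (mg w) 0 := fun _ h => absurd h (Nat.not_lt_zero _)
    rw [tr w 0 a1]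
    exact ⟨⟨_, 0, 0, hi w, l0, arm_zero _ _, a4, rfl⟩, (mem_A (i' w) l0 (arm_zero _ _)).2 (by simpa using W_pos 0),
      by rw [mem_B (i' w) l0 (arm_zero _ _)]; simp⟩
  · rintro _ ⟨⟨w, n, c, a1, a2, a3, a4, rfl⟩, hB, hA⟩
    rw [mem_B (i.congr a1) a2 a3] at hB
    rw [mem_A (i.congr a1) a2 a3] at hA
    have hn : n < N + 1 := by
      by_contra hn
      have : (4 : ℤ) ^ (N + 1) ≤ 4 ^ n := pow_le_pow_right₀ (by norm_num) (not_lt.1 hn)
      rw [snd_of_W a3 (le_antisymm a3.fst.2 (not_lt.1 hA)), abs_H (by omega)] at a4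
      rw [pow_succ] at this
      linarith
    have l0 : Lev (mg w) n := fun m h => by rw [lo w m (by omega), a2 m h]
    have b3 : Arm (mg w n) n c := by rwa [lo w n hn]
    rw [tr w c a1]
    exact ⟨⟨_, n, c, hi w, l0, b3, a4, rfl⟩, (mem_B (i' w) l0 b3).2 hB, by rwa [mem_A (i' w) l0 b3, lo w n hn]⟩

/-- the parity of the number of matched pairs crossing the cut on the arm of `z` -/
noncomputable def cr (R : ℤ) (N : ℕ) (φ ψ : G → G) (z : Z) : ZMod 2 :=
  ((col R N A φ z).ncard + (col R N B ψ z).ncard : ℕ)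

/-- mutually inverse bijections between `A` and `B` moving points by elements of `T` -/
structure Mat (T : Set G) (φ ψ : G → G) : Prop where
  h1 : MapsTo φ A B
  h2 : MapsTo ψ B A
  l1 : ∀ x ∈ A, ψ (φ x) = x
  l2 : ∀ y ∈ B, φ (ψ y) = y
  t1 : ∀ x ∈ A, ∃ t ∈ T, φ x = t + x
  t2 : ∀ x ∈ B, ∃ t ∈ T, ψ x = t + x

variable {φ ψ : G → G}

lemma cr_con (d : Data T R N) (μ : Mat T φ ψ) {z : Z} {n : ℕ} (g : Good T z) (l : Lev z n) (hn : N + 1 ≤ n) :
    cr R N φ ψ (update z n false) + cr R N φ ψ (update z n true) = 1 := by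
  have := par (con_fin (N := N) z n) μ.h1 μ.h2 μ.l1 μ.l2
  rw [con_diff g.1 l hn, con_out (f := φ) d A_val (fun x hx => ⟨B_val (μ.h1 hx), μ.t1 x hx⟩) g l hn,
    con_out (f := ψ) d B_val (fun x hx => ⟨A_val (μ.h2 hx), μ.t2 x hx⟩) g l hn] at this
  unfold cr
  rw [← Nat.cast_add, ← Nat.cast_one, ZMod.natCast_eq_natCast_iff']
  omega

lemma cr_blk (d : Data T R N) (μ : Mat T φ ψ) {z : Z} {n : ℕ} (g : Good T z) (l : Lev z n) (hn : N + 1 < n) :
    cr R N φ ψ (pat (N + 1) z) + cr R N φ ψ z = ((Blk N z ∩ (A \ B)).ncard + (Blk N z ∩ (B \ A)).ncard : ℕ) := by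
  have := par (blk_fin (N := N) z) μ.h1 μ.h2 μ.l1 μ.l2
  rw [swap_out μ.h1 μ.h2 μ.l1 μ.l2, swap_out μ.h2 μ.h1 μ.l2 μ.l1,
    blk_in (f := φ) d A_val (fun x hx => ⟨B_val (μ.h1 hx), μ.t1 x hx⟩) g l hn,
    blk_in (f := ψ) d B_val (fun x hx => ⟨A_val (μ.h2 hx), μ.t2 x hx⟩) g l hn] at this
  unfold cr
  rw [← Nat.cast_add, ZMod.natCast_eq_natCast_iff']
  omega

lemma cr_step (d : Data T R N) (μ : Mat T φ ψ) {z : Z} {n : ℕ} (g : Good T z) (l : Lev z n) (hn : N + 1 ≤ n) :
    cr R N φ ψ (pat (N + 1) (update z n false)) + cr R N φ ψ (pat (N + 1) (update z n true)) = 1 := by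
  have e0 := cr_con d μ g l hn
  rcases hn.eq_or_lt with rfl | hn
  · have : ∀ b, pat (N + 1) (update z (N + 1) b) = update z (N + 1) b := fun b => funext fun m => by
      rcases lt_or_ge m (N + 1) with hm | hm
      · rw [lev_pat _ _ m hm, lev_update l b m hm]
      · exact pat_ge _ hm
    rwa [this, this]
  · have e1 := cr_blk d μ (good_update g n false) (lev_update l _) hn
    have e2 := cr_blk d μ (good_update g n true) (lev_update l _) hn
    have ee : ∀ b b' m, n + 1 ≤ m → update z n b m = update z n b' m := fun b b' m hm => by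
      rw [update_of_ne (by omega), update_of_ne (by omega)]
    have a1 := blk_le (N := N) (good_update g n false).1 (ee true false)
    have a2 := blk_le (N := N) (good_update g n true).1 (ee false true)
    rw [le_antisymm a1.1 a2.1, le_antisymm a1.2 a2.2, ← e2] at e1
    have two : (2 : ZMod 2) = 0 := rfl
    linear_combination e1 + e0 + (cr R N φ ψ (pat (N + 1) (update z n true)) - cr R N φ ψ (update z n false)) * two

lemma gray {c : Z → ZMod 2} {M : ℕ} {P : Z → Prop} (hP : ∀ z z' n, P z → (∀ m, n ≤ m → z' m = z m) → P z')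
    (h0 : ∀ z z', (∀ m, M ≤ m → z' m = z m) → c z' = c z)
    (h1 : ∀ z n, P z → Lev z n → M ≤ n → c (update z n false) + c (update z n true) = 1) {n : ℕ} (hn : M ≤ n)
    {z : Z} (hz : P z) : c (update z n false) + c (update z n true) = 1 := by
  let s : ℕ → Z → ZMod 2 := fun n z => ∑ m ∈ Finset.Ico M n, (bit (z m) : ZMod 2)
  have two : (2 : ZMod 2) = 0 := rfl
  have step : ∀ n, M ≤ n → (∀ z z', P z → (∀ m, n ≤ m → z' m = z m) → c z' + s n z' = c z + s n z) →
      ∀ z, P z → c (update z n false) + c (update z n true) = 1 := by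
    intro n hn ih z hz
    have e0 := h1 (pat n z) n (hP z _ n hz fun m hm => pat_ge z hm) (lev_pat n z) hn
    have e1 : ∀ b, c (update (pat n z) n b) + s n (pat n z) = c (update z n b) + s n z := by
      intro b
      have := ih (update z n b) (update (pat n z) n b) (hP z _ (n + 1) hz fun m hm => update_of_ne (by omega) _ _)
        fun m hm => by
          rcases hm.eq_or_lt with rfl | hm
          · simp
          · rw [update_of_ne hm.ne', update_of_ne hm.ne', pat_ge z hm.le]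
      have su : ∀ w : Z, s n (update w n b) = s n w := fun w => Finset.sum_congr rfl fun m hm => by
        rw [update_of_ne (Finset.mem_Ico.1 hm).2.ne]
      rwa [su, su] at this
    linear_combination e0 - e1 false - e1 true + (s n (pat n z) - s n z) * two
  refine step n hn ?_ z hz
  clear hz z
  induction n, hn using Nat.le_induction with
  | base => exact fun z z' _ e => by simp [s, h0 z z' e]
  | succ n hn ih =>
    intro z z' hz e
    have e1 := ih (update z n (z' n)) z' (hP z _ (n + 1) hz fun m hm => update_of_ne (by omega) _ _) fun m hm => by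
      rcases hm.eq_or_lt with rfl | hm
      · simp
      · rw [update_of_ne hm.ne', e m hm]
    have su : s n (update z n (z' n)) = s n z := Finset.sum_congr rfl fun m hm => by
      rw [update_of_ne (Finset.mem_Ico.1 hm).2.ne]
    have e2 := step n hn ih z hz
    have e3 : c (update z n (z n)) = c z := by rw [update_eq_self]
    have ss : ∀ w, s (n + 1) w = s n w + (bit (w n) : ZMod 2) := fun w => Finset.sum_Ico_succ_top hn _
    have b0 : ((bit false : ℤ) : ZMod 2) = 0 := rfl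
    have b1 : ((bit true : ℤ) : ZMod 2) = 1 := rfl
    rw [su] at e1
    rw [ss, ss]
    cases h : z n <;> cases h' : z' n <;> rw [h] at e3 <;> rw [h'] at e1
    · linear_combination e1 + e3
    · linear_combination e1 - e3 + e2 + (1 - c z) * two + b1 - b0
    · linear_combination e1 - e3 + e2 - c z * two + b0 - b1
    · linear_combination e1 + e3

open Filter in
lemma baire {c : Z → ZMod 2} (hc : Measurable c) {M : ℕ}
    (h : ∀ᶠ z in residual Z, ∀ n, M ≤ n → c (update z n false) + c (update z n true) = 1) : False := by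
  obtain ⟨u, hu, e⟩ := (hc (MeasurableSet.of_discrete (s := {0}))).baireMeasurableSet.residualEq_isOpen
  obtain ⟨z0, n0, hv⟩ : ∃ z0 n0, ∀ x ∈ PiNat.cylinder z0 n0, ∀ y ∈ PiNat.cylinder z0 n0, (x ∈ u ↔ y ∈ u) := by
    rcases u.eq_empty_or_nonempty with rfl | ⟨x, hx⟩
    · exact ⟨default, 0, by simp⟩
    · obtain ⟨_, ⟨z0, n0, rfl⟩, -, h2⟩ := (PiNat.isTopologicalBasis_cylinders _).exists_subset_of_mem_open hx hu
      exact ⟨z0, n0, fun x a y b => iff_of_true (h2 a) (h2 b)⟩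
  let n := max M n0
  let fl : Z → Z := fun z => update z n (!z n)
  have inv : Involutive fl := fun z => by simp [fl]
  have cont : Continuous fl := continuous_id.update n 
    ((continuous_of_discreteTopology (f := fun b : Bool => !b)).comp (continuous_apply n))
  let F : Z ≃ₜ Z := ⟨inv.toPerm, cont, cont⟩
  have e' := (tendsto_residual_of_isOpenMap F.continuous F.isOpenMap).eventually e
  obtain ⟨z, hz, ⟨a1, a2⟩, a3⟩ := (dense_of_mem_residual ((e.and e').and h)).inter_open_nonempty _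
    (PiNat.isOpen_cylinder _ z0 n0) ⟨z0, PiNat.self_mem_cylinder _ _⟩
  have hz' : fl z ∈ PiNat.cylinder z0 n0 := fun i hi => by
    rw [← hz i hi]
    exact update_of_ne (hi.trans_le (le_max_right _ _)).ne _ _
  have b1 : c z = 0 ↔ c (fl z) = 0 := (iff_of_eq a1).trans ((hv _ hz _ hz').trans (iff_of_eq a2).symm)
  have b2 : c z + c (fl z) = 1 := by
    have := a3 n (le_max_left _ _)
    have e3 : c (update z n (z n)) = c z := by rw [update_eq_self]
    cases h : z n <;> simp only [fl, h] at e3 ⊢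
    · rw [← e3]; exact this
    · rw [← e3, add_comm]; exact this
  revert b1 b2
  generalize c z = p
  generalize c (fl z) = q
  revert p q
  decide

open Filter in
lemma ex_ne {I : Set ℕ} (hI : ∀ K, ∃ m, K ≤ m ∧ m ∈ I) (w : Z) : ∀ᶠ z in residual Z, ∃ m ∈ I, z m ≠ w m := by
  refine residual_of_dense_open (s := {z : Z | ∃ m ∈ I, z m ≠ w m}) ?_ ?_
  · rw [show {z : Z | ∃ m ∈ I, z m ≠ w m} = ⋃ m ∈ I, (fun z : Z => z m) ⁻¹' {b | b ≠ w m} by ext; simp]
    exact isOpen_biUnion fun m _ => (isOpen_discrete _).preimage (continuous_apply m)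
  · rw [(PiNat.isTopologicalBasis_cylinders _).dense_iff]
    rintro _ ⟨z0, n0, rfl⟩ -
    obtain ⟨m, h1, h2⟩ := hI n0
    exact ⟨update z0 m (!w m), fun i hi => update_of_ne (by omega) _ _, m, h2, by simp⟩

open Filter in
lemma good_res (hT : T.Countable) : ∀ᶠ z in residual Z, Good T z := by
  refine Eventually.and (eventually_countable_forall.2 fun K => ?_) ((eventually_countable_ball hT).2 fun t _ =>
    eventually_countable_forall.2 fun a => ?_)
  · exact (ex_ne (I := Ici K) (fun K' => ⟨max K K', le_max_right _ _, mem_Ici.2 (le_max_left _ _)⟩) fun _ => false).mono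
      fun z ⟨m, h1, h2⟩ => ⟨m, h1, by simpa using h2⟩
  · by_cases h : ∀ z z' : Z, xz z' = xz z + (t.1 + a) → ∃ K, ∀ m, K ≤ m → z' m = z m
    · exact Eventually.of_forall h
    · push Not at h
      obtain ⟨w, w', h1, h2⟩ := h
      refine (ex_ne (I := {m | w' m ≠ w m}) h2 w).mono fun z ⟨m, a1, a2⟩ z' hz => ?_
      have := uniq hz h1 m
      revert this a1 a2
      simp only [mem_ofPred_eq]
      cases z m <;> cases z' m <;> cases w m <;> cases w' m <;> simp [bit]

lemma col_meas {k : ℕ} {P : Fin k → Set G} {g : Fin k → G} (hP : ∀ i, MeasurableSet (P i)) {f : G → G}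
    (hf : ∀ i, ∀ x ∈ P i, f x = g i + x) : Measurable fun z => (col R N (⋃ i, P i) f (pat (N + 1) z)).ncard := by
  refine measurable_ncard.comp (measurable_set_iff.2 fun b => ?_)
  have h1 : Measurable fun z => pt (pat (N + 1) z) (0, b) := by
    refine pt_meas.comp (f := fun z => (pat (N + 1) z, ((0 : ℤ), b))) (Measurable.prodMk ?_ measurable_const)
    refine measurable_pi_lambda _ fun m => ?_
    unfold pat
    split_ifs
    · exact measurable_const
    · exact measurable_pi_apply m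
  have h2 : MeasurableSet (Low N) := by
    rw [show Low N = Prod.snd ⁻¹' ((fun b : ℤ => (b : Y)) '' {b | |b| ≤ 2 * 4 ^ N}) by
      ext x; simp [Low, eq_comm]]
    exact measurable_snd (to_countable _ |>.image _).measurableSet
  have h3 : MeasurableSet {x | x ∈ ⋃ i, P i ∧ f x ∈ Low N} := by
    rw [show {x | x ∈ ⋃ i, P i ∧ f x ∈ Low N} = ⋃ i, P i ∩ (g i + ·) ⁻¹' Low N from ?_]
    · exact MeasurableSet.iUnion fun i => (hP i).inter (measurable_const_add _ h2)
    · ext x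
      simp only [mem_ofPred_eq, mem_iUnion, mem_inter_iff, mem_preimage]
      exact ⟨fun ⟨⟨i, a⟩, b⟩ => ⟨i, a, hf i x a ▸ b⟩, fun ⟨i, a, b⟩ => ⟨⟨i, a⟩, (hf i x a).symm ▸ b⟩⟩
  exact measurable_const.and (measurable_const.and (measurableSet_setOfPred.1 (h1 h3)))

lemma exists_fun {k : ℕ} {P : Fin k → Set G} (g : Fin k → G) (h : Pairwise fun i j => Disjoint (P i) (P j)) :
    ∃ f : G → G, ∀ i, ∀ x ∈ P i, f x = g i + x := by
  classical
  refine ⟨fun x => if h : ∃ i, x ∈ P i then g h.choose + x else x, fun i x hx => ?_⟩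
  have e : ∃ i, x ∈ P i := ⟨i, hx⟩
  have : e.choose = i := by_contra fun hn => disjoint_left.1 (h hn) e.choose_spec hx
  simp only [dif_pos e, this]

theorem not_equi : ¬∃ (k : ℕ) (P : Fin k → Set G) (g : Fin k → G), (∀ i, MeasurableSet (P i)) ∧
    Pairwise (fun i j => Disjoint (P i) (P j)) ∧ (⋃ i, P i) = A ∧
    Pairwise (fun i j => Disjoint ((g i + ·) '' P i) ((g j + ·) '' P j)) ∧ (⋃ i, (g i + ·) '' P i) = B := by
  rintro ⟨k, P, g, h1, h2, h3, h4, h5⟩
  obtain ⟨φ, hφ⟩ := exists_fun g h2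
  obtain ⟨ψ, hψ⟩ := exists_fun (fun i => -g i) h4
  let T : Set G := range g ∪ range fun i => -g i
  have hT : T.Finite := (finite_range _).union (finite_range _)
  have ci : Injective cst := fun a b e =>
    Prod.ext (cast_inj (congrArg Prod.fst e)) (cast_inj (congrArg Prod.snd e))
  obtain ⟨R, hR⟩ := ((hT.preimage ci.injOn).image fun τ => max |τ.1| |τ.2|).bddAbove
  obtain ⟨N, hN⟩ := pow_unbounded_of_one_lt R (by norm_num : (1 : ℤ) < 4)
  have d : Data T R N := ⟨by
    rintro _ (⟨i, rfl⟩ | ⟨i, rfl⟩)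
    · exact Or.inr ⟨i, rfl⟩
    · exact Or.inl ⟨i, (neg_neg _).symm⟩, fun τ hτ => max_le_iff.1 (hR ⟨τ, hτ, rfl⟩), hN⟩
  have μ : Mat T φ ψ := by
    refine ⟨?_, ?_, ?_, ?_, ?_, ?_⟩ <;> simp only [MapsTo, ← h3, ← h5, mem_iUnion]
    · rintro x ⟨i, hx⟩
      exact ⟨i, x, hx, (hφ i x hx).symm⟩
    · rintro _ ⟨i, x, hx, rfl⟩
      exact ⟨i, by rwa [hψ i _ ⟨x, hx, rfl⟩, neg_add_cancel_left]⟩
    · rintro x ⟨i, hx⟩
      rw [hφ i x hx, hψ i _ ⟨x, hx, rfl⟩, neg_add_cancel_left]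
    · rintro _ ⟨i, x, hx, rfl⟩
      rw [hψ i _ ⟨x, hx, rfl⟩, neg_add_cancel_left, hφ i x hx]
    · rintro x ⟨i, hx⟩
      exact ⟨_, Or.inl ⟨i, rfl⟩, hφ i x hx⟩
    · rintro x ⟨i, hx⟩
      exact ⟨_, Or.inr ⟨i, rfl⟩, hψ i x hx⟩
  refine baire (c := fun z => cr R N φ ψ (pat (N + 1) z)) (M := N + 1) ?_ ((good_res hT.countable).mono fun z hz n hn =>
    gray (c := fun z => cr R N φ ψ (pat (N + 1) z)) (P := Good T) (fun _ _ _ a b => a.congr b) (fun z z' e => ?_) (fun z n a b c => cr_step d μ a b c) hn hz)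
  · have m1 := col_meas (R := R) (N := N) h1 hφ
    have m2 := col_meas (R := R) (N := N) (fun i => (measurableEmbedding_addLeft (g i)).measurableSet_image.2 (h1 i)) hψ
    rw [h3] at m1
    rw [h5] at m2
    exact (Measurable.of_discrete (f := fun n : ℕ => (n : ZMod 2))).comp (m1.add m2)
  · congr 1
    funext m
    rcases lt_or_ge m (N + 1) with hm | hm
    · rw [lev_pat _ _ m hm, lev_pat _ _ m hm]
    · rw [pat_ge _ hm, pat_ge _ hm, e m hm]

end Pool.Agent.Lib.Helper21.Gray
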