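import Mathlib

set_option maxHeartbeats 400000

open MeasureTheory Set Filter Topology
open scoped InnerProductSpace

namespace Pool.Agent.Lib.Helper21.Heat1

variable {H : Type*} [NormedAddCommGroup H] [InnerProductSpace ℝ H]

/-- synthesis from a coefficient sequence -/
noncomputable def syn (e : HilbertBasis ℕ ℝ H) (a : ℕ → ℝ) : H := ∑' n, a n • e n

lemma memlp {a : ℕ → ℝ} (ha : Summable fun n => a n ^ 2) : Memℓp a 2 := by
  rw [memℓp_gen_iff (by norm_num)]
  simpa using ha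

lemma syn_eq (e : HilbertBasis ℕ ℝ H) {a : ℕ → ℝ} (ha : Summable fun n => a n ^ 2) :
    HasSum (fun n => a n • e n) (e.repr.symm ⟨a, memlp ha⟩) :=
  e.hasSum_repr_symm ⟨a, memlp ha⟩

lemma hasSum_syn (e : HilbertBasis ℕ ℝ H) {a : ℕ → ℝ} (ha : Summable fun n => a n ^ 2) :
    HasSum (fun n => a n • e n) (syn e a) := (syn_eq e ha).summable.hasSum

lemma inner_syn (e : HilbertBasis ℕ ℝ H) {a : ℕ → ℝ} (ha : Summable fun n => a n ^ 2) (n : ℕ) :
    ⟪e n, syn e a⟫_ℝ = a n := by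
  have : syn e a = e.repr.symm ⟨a, memlp ha⟩ := (syn_eq e ha).tsum_eq
  rw [this, ← e.repr_apply_apply]
  simp

lemma hasSum_sq (e : HilbertBasis ℕ ℝ H) (y : H) :
    HasSum (fun n => ⟪e n, y⟫_ℝ ^ 2) (‖y‖ ^ 2) := by
  have := e.hasSum_inner_mul_inner y y
  rw [real_inner_self_eq_norm_sq] at this
  have h2 : (fun n => ⟪e n, y⟫_ℝ ^ 2) = fun i => ⟪y, e i⟫_ℝ * ⟪e i, y⟫_ℝ := by
    funext n
    rw [real_inner_comm (e n) y]; ring
  rw [h2]; exact this

lemma ext_inner (e : HilbertBasis ℕ ℝ H) {y z : H} (h : ∀ n, ⟪e n, y⟫_ℝ = ⟪e n, z⟫_ℝ) :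
    y = z := by
  apply e.repr.injective
  ext n
  rw [e.repr_apply_apply, e.repr_apply_apply, h]

lemma norm_le_of (e : HilbertBasis ℕ ℝ H) (y : H) {c : ℕ → ℝ} {S : ℝ} (hS : 0 ≤ S)
    (hc : HasSum (fun n => c n ^ 2) (S ^ 2)) (h : ∀ n, |⟪e n, y⟫_ℝ| ≤ |c n|) : ‖y‖ ≤ S := by
  have h1 : ‖y‖ ^ 2 ≤ S ^ 2 :=
    hasSum_le (fun n => sq_le_sq.2 (h n)) (hasSum_sq e y) hc
  exact abs_le_of_sq_le_sq' h1 hS |>.2

/-- bounded measurable inputs -/
def Inp (u : ℝ → ℝ) : Prop := Measurable u ∧ ∃ M : ℝ, ∀ s, |u s| ≤ M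

lemma Inp.ii {u : ℝ → ℝ} (hu : Inp u) {g : ℝ → ℝ} (hg : Continuous g) (a b : ℝ) :
    IntervalIntegrable (fun s => g s * u s) volume a b := by
  obtain ⟨hm, M, hM⟩ := hu
  have h1 : IntervalIntegrable u volume a b := by
    rw [intervalIntegrable_iff]
    refine Measure.integrableOn_of_bounded (M := M) ?_ hm.aestronglyMeasurable ?_
    · exact (measure_Ioc_lt_top).ne
    · exact ae_of_all _ fun s => by simpa using hM s
  exact h1.continuousOn_mul hg.continuousOn

lemma Inp.pow {u : ℝ → ℝ} (hu : Inp u) (k : ℕ) : Inp fun s => u s ^ k := by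
  obtain ⟨hm, M, hM⟩ := hu
  refine ⟨hm.pow_const k, M ^ k, fun s => ?_⟩
  rw [abs_pow]
  exact pow_le_pow_left₀ (abs_nonneg _) (hM s) k

lemma Inp.abs {u : ℝ → ℝ} (hu : Inp u) : Inp fun s => |u s| := by
  obtain ⟨hm, M, hM⟩ := hu
  exact ⟨hm.abs, M, fun s => by simpa using hM s⟩

lemma young {v c : ℝ} (hc : 0 < c) : |v| ≤ c + v ^ 8 / c ^ 7 := by
  have h8 : v ^ 8 = |v| ^ 8 := by rw [← abs_pow, abs_of_nonneg (by positivity)]
  rcases le_total |v| c with h | h
  · have : 0 ≤ v ^ 8 / c ^ 7 := by positivity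
    linarith
  · have h7 : c ^ 7 ≤ |v| ^ 7 := pow_le_pow_left₀ hc.le h 7
    have : |v| ≤ v ^ 8 / c ^ 7 := by
      rw [le_div_iff₀ (by positivity), h8]
      calc |v| * c ^ 7 ≤ |v| * |v| ^ 7 := by gcongr
        _ = |v| ^ 8 := by ring
    linarith

lemma int_exp {l t : ℝ} (hl : 1 ≤ l) :
    ∫ s in (0:ℝ)..t, Real.exp (-l * (t - s)) ≤ 1 / l := by
  have hl0 : l ≠ 0 := by linarith
  have : ∫ s in (0:ℝ)..t, Real.exp (-l * (t - s))
      = Real.exp (-l * (t - t)) / l - Real.exp (-l * (t - 0)) / l := by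
    apply intervalIntegral.integral_eq_sub_of_hasDerivAt (f := fun s => Real.exp (-l * (t - s)) / l)
    · intro s _
      have h1 : HasDerivAt (fun s => -l * (t - s)) (-l * (0 - 1)) s :=
        ((hasDerivAt_const s t).sub (hasDerivAt_id s)).const_mul (-l)
      have h2 := (h1.exp).div_const l
      have h3 : Real.exp (-l * (t - s)) = Real.exp (-l * (t - s)) * (-l * (0 - 1)) / l := by
        field_simp
        ring
      rw [h3]
      exact h2
    · exact (by fun_prop : Continuous fun s => Real.exp (-l * (t - s))).intervalIntegrable _ _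
  rw [this]
  have : 0 ≤ Real.exp (-l * (t - 0)) / l := by positivity
  simp only [sub_self, mul_zero, Real.exp_zero]
  linarith

lemma mode_bound {u : ℝ → ℝ} (hu : Inp u) {l t m J : ℝ} (hl : 1 ≤ l) (ht : 0 ≤ t) (hm : 0 < m)
    (hJ : 0 < J) (hI : ∫ s in (0:ℝ)..t, Real.exp (-(t - s)) * u s ^ 8 ≤ J ^ 8) :
    |∫ s in (0:ℝ)..t, Real.exp (-l * (t - s)) * u s| ≤ J * (m / l + 1 / m ^ 7) := by
  set c := J * m with hc
  have hc0 : 0 < c := by positivity
  have hcont : Continuous fun s => Real.exp (-l * (t - s)) := by fun_prop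
  have hcont1 : Continuous fun s => Real.exp (-(t - s)) := by fun_prop
  have i1 := hcont.intervalIntegrable (μ := volume) 0 t
  have i2 := (hu.pow 8).ii hcont1 0 t
  calc |∫ s in (0:ℝ)..t, Real.exp (-l * (t - s)) * u s|
      ≤ ∫ s in (0:ℝ)..t, |Real.exp (-l * (t - s)) * u s| :=
        intervalIntegral.abs_integral_le_integral_abs ht
    _ ≤ ∫ s in (0:ℝ)..t, (c * Real.exp (-l * (t - s))
          + (1 / c ^ 7) * (Real.exp (-(t - s)) * u s ^ 8)) := by
        apply intervalIntegral.integral_mono_on ht (hu.ii hcont 0 t).abs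
          ((i1.const_mul c).add (i2.const_mul _))
        intro s hs
        have e0 : 0 < Real.exp (-l * (t - s)) := Real.exp_pos _
        have e1 : Real.exp (-l * (t - s)) ≤ Real.exp (-(t - s)) := by
          apply Real.exp_le_exp.2
          have := hs.2
          nlinarith
        rw [abs_mul, abs_of_pos e0]
        have y := young (v := u s) hc0
        have p : 0 ≤ u s ^ 8 / c ^ 7 := by positivity
        calc Real.exp (-l * (t - s)) * |u s|
            ≤ Real.exp (-l * (t - s)) * (c + u s ^ 8 / c ^ 7) := by gcongr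
          _ = c * Real.exp (-l * (t - s)) + Real.exp (-l * (t - s)) * (u s ^ 8 / c ^ 7) := by ring
          _ ≤ c * Real.exp (-l * (t - s)) + Real.exp (-(t - s)) * (u s ^ 8 / c ^ 7) := by gcongr
          _ = _ := by ring
    _ = c * (∫ s in (0:ℝ)..t, Real.exp (-l * (t - s)))
          + (1 / c ^ 7) * ∫ s in (0:ℝ)..t, Real.exp (-(t - s)) * u s ^ 8 := by
        rw [intervalIntegral.integral_add (i1.const_mul c) (i2.const_mul _),
          intervalIntegral.integral_const_mul, intervalIntegral.integral_const_mul]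
    _ ≤ c * (1 / l) + (1 / c ^ 7) * J ^ 8 := by
        have := int_exp (t := t) hl
        gcongr
    _ = J * (m / l + 1 / m ^ 7) := by
        rw [hc]; field_simp

end Pool.Agent.Lib.Helper21.Heat1
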