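import Pool.Agent.Lib.helper21.Heat1

set_option maxHeartbeats 400000

open MeasureTheory Set Filter Topology
open scoped InnerProductSpace

namespace Pool.Agent.Lib.Helper21.Heat2
open Pool.Agent.Lib.Helper21.Heat1

variable {H : Type*} [NormedAddCommGroup H] [InnerProductSpace ℝ H]

/-- data of a diagonal system with an `L^8`-admissible scalar input -/
structure Sys (H : Type*) [NormedAddCommGroup H] [InnerProductSpace ℝ H] where
  e : HilbertBasis ℕ ℝ H
  l : ℕ → ℝ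
  b : ℕ → ℝ
  m : ℕ → ℝ
  hl : ∀ n, 1 ≤ l n
  hm : ∀ n, 0 < m n
  hs : Summable fun n => (b n * (m n / l n + 1 / m n ^ 7)) ^ 2

variable (D : Sys H)

noncomputable def cT (t : ℝ) (x : H) (n : ℕ) : ℝ := Real.exp (-D.l n * t) * ⟪D.e n, x⟫_ℝ
noncomputable def cF (t : ℝ) (u : ℝ → ℝ) (n : ℕ) : ℝ :=
  D.b n * ∫ s in (0:ℝ)..t, Real.exp (-D.l n * (t - s)) * u s
noncomputable def phi (t : ℝ) (x : H) (u : ℝ → ℝ) : H := syn D.e fun n => cT D t x n + cF D t u n
noncomputable def S : ℝ := Real.sqrt (∑' n, (D.b n * (D.m n / D.l n + 1 / D.m n ^ 7)) ^ 2)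
noncomputable def En (t : ℝ) (u : ℝ → ℝ) : ℝ := ∫ s in (0:ℝ)..t, Real.exp (-(t - s)) * u s ^ 8

lemma S_nonneg : 0 ≤ S D := Real.sqrt_nonneg _

lemma hasSum_S : HasSum (fun n => (D.b n * (D.m n / D.l n + 1 / D.m n ^ 7)) ^ 2) (S D ^ 2) := by
  rw [S, Real.sq_sqrt (tsum_nonneg fun n => sq_nonneg _)]
  exact D.hs.hasSum

lemma En_nonneg {t : ℝ} (ht : 0 ≤ t) (u : ℝ → ℝ) : 0 ≤ En t u :=
  intervalIntegral.integral_nonneg ht fun s _ => by positivity

lemma cT_le {t : ℝ} (ht : 0 ≤ t) (x : H) (n : ℕ) :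
    |cT D t x n| ≤ |Real.exp (-t) * ⟪D.e n, x⟫_ℝ| := by
  rw [cT, abs_mul, abs_mul, abs_of_pos (Real.exp_pos _), abs_of_pos (Real.exp_pos _)]
  gcongr
  have := D.hl n
  nlinarith

lemma hasSum_T (t : ℝ) (x : H) :
    HasSum (fun n => (Real.exp (-t) * ⟪D.e n, x⟫_ℝ) ^ 2) ((Real.exp (-t) * ‖x‖) ^ 2) := by
  simp only [mul_pow]
  exact (hasSum_sq D.e x).mul_left _

lemma sum_cT {t : ℝ} (ht : 0 ≤ t) (x : H) : Summable fun n => cT D t x n ^ 2 :=
  Summable.of_nonneg_of_le (fun _ => sq_nonneg _) (fun n => sq_le_sq.2 (cT_le D ht x n))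
    (hasSum_T D t x).summable

lemma cF_le {t J : ℝ} (ht : 0 ≤ t) {u : ℝ → ℝ} (hu : Inp u) (hJ : 0 < J) (hI : En t u ≤ J ^ 8)
    (n : ℕ) : |cF D t u n| ≤ |J * (D.b n * (D.m n / D.l n + 1 / D.m n ^ 7))| := by
  have h := mode_bound hu (D.hl n) ht (D.hm n) hJ hI
  have hl := D.hl n
  have hm := D.hm n
  have p : 0 < D.m n / D.l n + 1 / D.m n ^ 7 := by positivity
  rw [cF, abs_mul, abs_mul, abs_mul, abs_of_pos hJ, abs_of_pos p]
  calc _ ≤ |D.b n| * (J * (D.m n / D.l n + 1 / D.m n ^ 7)) := by gcongr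
    _ = _ := by ring

lemma hasSum_F (J : ℝ) :
    HasSum (fun n => (J * (D.b n * (D.m n / D.l n + 1 / D.m n ^ 7))) ^ 2) ((J * S D) ^ 2) := by
  have := (hasSum_S D).mul_left (J ^ 2)
  simpa only [mul_pow] using this

lemma exJ {I ε : ℝ} (hI : 0 ≤ I) (hε : 0 < ε) : ∃ J : ℝ, 0 < J ∧ J ^ 8 = I + ε := by
  refine ⟨(I + ε) ^ ((8:ℕ):ℝ)⁻¹, by positivity, ?_⟩
  exact Real.rpow_inv_natCast_pow (by positivity) (by norm_num)

lemma sum_cF {t : ℝ} (ht : 0 ≤ t) {u : ℝ → ℝ} (hu : Inp u) : Summable fun n => cF D t u n ^ 2 := by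
  obtain ⟨J, hJ, h8⟩ := exJ (En_nonneg ht u) one_pos
  exact Summable.of_nonneg_of_le (fun _ => sq_nonneg _)
    (fun n => sq_le_sq.2 (cF_le D ht hu hJ (by linarith) n)) (hasSum_F D J).summable

lemma sum_c {t : ℝ} (ht : 0 ≤ t) (x : H) {u : ℝ → ℝ} (hu : Inp u) :
    Summable fun n => (cT D t x n + cF D t u n) ^ 2 := by
  refine Summable.of_nonneg_of_le (fun _ => sq_nonneg _) (fun n => ?_)
    (((sum_cT D ht x).add (sum_cF D ht hu)).mul_left 2)
  nlinarith [sq_nonneg (cT D t x n - cF D t u n)]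

lemma inner_phi {t : ℝ} (ht : 0 ≤ t) (x : H) {u : ℝ → ℝ} (hu : Inp u) (n : ℕ) :
    ⟪D.e n, phi D t x u⟫_ℝ = cT D t x n + cF D t u n := inner_syn D.e (sum_c D ht x hu) n

lemma phi_split {t : ℝ} (ht : 0 ≤ t) (x : H) {u : ℝ → ℝ} (hu : Inp u) :
    phi D t x u = syn D.e (cT D t x) + syn D.e (cF D t u) := by
  apply ext_inner D.e
  intro n
  rw [inner_phi D ht x hu, inner_add_right, inner_syn D.e (sum_cT D ht x),
    inner_syn D.e (sum_cF D ht hu)]

lemma norm_T {t : ℝ} (ht : 0 ≤ t) (x : H) : ‖syn D.e (cT D t x)‖ ≤ Real.exp (-t) * ‖x‖ :=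
  norm_le_of D.e _ (by positivity) (hasSum_T D t x) fun n => by
    rw [inner_syn D.e (sum_cT D ht x)]; exact cT_le D ht x n

lemma norm_F {t : ℝ} (ht : 0 ≤ t) {u : ℝ → ℝ} (hu : Inp u) :
    ‖syn D.e (cF D t u)‖ ^ 8 ≤ S D ^ 8 * En t u := by
  have hS := S_nonneg D
  apply le_of_forall_pos_le_add
  intro ε hε
  obtain ⟨J, hJ, h8⟩ := exJ (En_nonneg ht u) (ε := ε / (S D ^ 8 + 1)) (by positivity)
  have h0 : 0 < ε / (S D ^ 8 + 1) := by positivity
  have h1 : ‖syn D.e (cF D t u)‖ ≤ J * S D :=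
    norm_le_of D.e _ (by positivity) (hasSum_F D J) fun n => by
      rw [inner_syn D.e (sum_cF D ht hu)]; exact cF_le D ht hu hJ (by linarith) n
  have h2 : S D ^ 8 * (ε / (S D ^ 8 + 1)) ≤ ε := by
    rw [← mul_div_assoc, div_le_iff₀ (by positivity)]
    nlinarith
  calc _ ≤ (J * S D) ^ 8 := pow_le_pow_left₀ (norm_nonneg _) h1 8
    _ = S D ^ 8 * En t u + S D ^ 8 * (ε / (S D ^ 8 + 1)) := by rw [mul_pow, h8]; ring
    _ ≤ _ := by linarith

lemma phi_zero (x : H) {u : ℝ → ℝ} (hu : Inp u) : phi D 0 x u = x := by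
  apply ext_inner D.e
  intro n
  rw [inner_phi D le_rfl x hu]
  simp [cT, cF]

lemma phi_affine {t : ℝ} (ht : 0 ≤ t) (x y : H) {u : ℝ → ℝ} (hu : Inp u) {a c : ℝ}
    (hac : a + c = 1) : phi D t (a • x + c • y) u = a • phi D t x u + c • phi D t y u := by
  apply ext_inner D.e
  intro n
  rw [inner_add_right, inner_smul_right, inner_smul_right, inner_phi D ht _ hu,
    inner_phi D ht _ hu, inner_phi D ht _ hu]
  simp only [cT, inner_add_right, inner_smul_right]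
  have : c = 1 - a := by linarith
  rw [this]; ring

/-- concatenation of inputs -/
noncomputable def cat (h : ℝ) (u v : ℝ → ℝ) : ℝ → ℝ := fun s => if s ≤ h then u s else v (s - h)

lemma cat_inp (h : ℝ) {u v : ℝ → ℝ} (hu : Inp u) (hv : Inp v) : Inp (cat h u v) := by
  obtain ⟨hm, M, hM⟩ := hu
  obtain ⟨hm', M', hM'⟩ := hv
  refine ⟨Measurable.ite measurableSet_Iic hm (hm'.comp (measurable_id.sub_const h)),
    max M M', fun s => ?_⟩
  unfold cat
  split_ifs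
  · exact (hM _).trans (le_max_left _ _)
  · exact (hM' _).trans (le_max_right _ _)

lemma int_cat {h t : ℝ} (hh : 0 ≤ h) (ht : 0 ≤ t) {u v : ℝ → ℝ} (hu : Inp u) (hv : Inp v)
    {g : ℝ → ℝ} (hg : Continuous g) (k : ℕ) :
    ∫ s in (0:ℝ)..(t + h), g s * cat h u v s ^ k
      = (∫ s in (0:ℝ)..h, g s * u s ^ k) + ∫ s in (0:ℝ)..t, g (s + h) * v s ^ k := by
  have hw := (cat_inp h hu hv).pow k
  rw [← intervalIntegral.integral_add_adjacent_intervals (hw.ii hg 0 h) (hw.ii hg h (t + h))]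
  congr 1
  · apply intervalIntegral.integral_congr
    intro s hs
    rw [uIcc_of_le hh] at hs
    simp [cat, hs.2]
  · have := intervalIntegral.integral_comp_add_right (a := 0) (b := t)
      (fun s => g s * cat h u v s ^ k) h
    rw [zero_add] at this
    rw [← this]
    apply intervalIntegral.integral_congr_ae
    refine ae_of_all _ fun s hs => ?_
    rw [uIoc_of_le ht] at hs
    have : ¬ (s + h ≤ h) := by linarith [hs.1]
    simp only [cat, if_neg this, add_sub_cancel_right]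

lemma phi_cat {h t : ℝ} (hh : 0 ≤ h) (ht : 0 ≤ t) (x : H) {u v : ℝ → ℝ} (hu : Inp u)
    (hv : Inp v) : phi D (t + h) x (cat h u v) = phi D t (phi D h x u) v := by
  apply ext_inner D.e
  intro n
  rw [inner_phi D (by linarith) x (cat_inp h hu hv), inner_phi D ht _ hv]
  simp only [cT]
  rw [inner_phi D hh x hu]
  simp only [cT, cF]
  have := int_cat hh ht hu hv (g := fun s => Real.exp (-D.l n * (t + h - s))) (by fun_prop) 1
  simp only [pow_one] at this
  rw [this]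
  have e1 : ∫ s in (0:ℝ)..h, Real.exp (-D.l n * (t + h - s)) * u s
      = Real.exp (-D.l n * t) * ∫ s in (0:ℝ)..h, Real.exp (-D.l n * (h - s)) * u s := by
    rw [← intervalIntegral.integral_const_mul]
    congr 1
    funext s
    rw [← mul_assoc, ← Real.exp_add]
    congr 2
    ring
  have e2 : ∫ s in (0:ℝ)..t, Real.exp (-D.l n * (t + h - (s + h))) * v s
      = ∫ s in (0:ℝ)..t, Real.exp (-D.l n * (t - s)) * v s := by
    congr 1
    funext s
    congr 2
    ring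
  have e3 : Real.exp (-D.l n * (t + h)) = Real.exp (-D.l n * t) * Real.exp (-D.l n * h) := by
    rw [← Real.exp_add]; congr 1; ring
  rw [e1, e2, e3]
  ring

end Pool.Agent.Lib.Helper21.Heat2
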