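import Pool.Agent.Lib.helper21.Heat2

set_option maxHeartbeats 400000

open MeasureTheory Set Filter Topology
open scoped InnerProductSpace

namespace Pool.Agent.Lib.Helper21.Heat3
open Pool.Agent.Lib.Helper21.Heat1 Pool.Agent.Lib.Helper21.Heat2

variable {H : Type*} [NormedAddCommGroup H] [InnerProductSpace ℝ H] (D : Sys H)

noncomputable def K : ℝ := 128 * S D ^ 8 + 1

lemma K_pos : 0 < K D := by unfold K; positivity

abbrev Idx : Type := {p : ℝ × (ℝ → ℝ) // 0 ≤ p.1 ∧ Inp p.2}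

lemma inp_zero : Inp fun _ => 0 := ⟨measurable_const, 0, fun _ => by simp⟩

instance : Nonempty Idx := ⟨⟨(0, fun _ => 0), le_rfl, inp_zero⟩⟩

noncomputable def G (x : H) (p : Idx) : ℝ :=
  Real.exp p.1.1 * ‖phi D p.1.1 x p.1.2‖ ^ 8
    - K D * ∫ s in (0:ℝ)..p.1.1, Real.exp s * p.1.2 s ^ 8

noncomputable def V (x : H) : ℝ := ⨆ p : Idx, G D x p

lemma G_le (x : H) (p : Idx) : G D x p ≤ 128 * ‖x‖ ^ 8 := by
  obtain ⟨⟨t, v⟩, ht, hv⟩ := p
  simp only at ht hv
  simp only [G]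
  have hE : ∫ s in (0:ℝ)..t, Real.exp s * v s ^ 8 = Real.exp t * En t v := by
    rw [En, ← intervalIntegral.integral_const_mul]
    congr 1
    funext s
    rw [← mul_assoc, ← Real.exp_add]
    congr 2
    ring
  have hT := norm_T D ht x
  have hF := norm_F D ht hv
  have hEn := En_nonneg ht v
  set a := ‖syn D.e (cT D t x)‖
  set c := ‖syn D.e (cF D t v)‖
  have ha : 0 ≤ a := norm_nonneg _
  have hc : 0 ≤ c := norm_nonneg _
  have h1 : ‖phi D t x v‖ ≤ a + c := by
    rw [phi_split D ht x hv]; exact norm_add_le _ _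
  have h2 : ‖phi D t x v‖ ^ 8 ≤ 128 * (a ^ 8 + c ^ 8) := by
    calc _ ≤ (a + c) ^ 8 := pow_le_pow_left₀ (norm_nonneg _) h1 8
      _ ≤ 2 ^ (8 - 1) * (a ^ 8 + c ^ 8) := add_pow_le ha hc 8
      _ = _ := by norm_num
  have h3 : Real.exp t * a ^ 8 ≤ ‖x‖ ^ 8 := by
    have e1 : Real.exp (-t) ≤ 1 := Real.exp_le_one_iff.2 (by linarith)
    have e0 : 0 < Real.exp (-t) := Real.exp_pos _
    have e2 : Real.exp t * Real.exp (-t) = 1 := by rw [← Real.exp_add]; simp
    calc Real.exp t * a ^ 8 ≤ Real.exp t * (Real.exp (-t) * ‖x‖) ^ 8 := by gcongr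
      _ = (Real.exp t * Real.exp (-t)) * Real.exp (-t) ^ 7 * ‖x‖ ^ 8 := by ring
      _ ≤ 1 * 1 * ‖x‖ ^ 8 := by
        rw [e2]
        gcongr
        exact pow_le_one₀ e0.le e1
      _ = _ := by ring
  have et : 0 < Real.exp t := Real.exp_pos t
  rw [hE, K]
  have h4 : Real.exp t * ‖phi D t x v‖ ^ 8 ≤ Real.exp t * (128 * (a ^ 8 + c ^ 8)) := by gcongr
  have h5 : Real.exp t * c ^ 8 ≤ Real.exp t * (S D ^ 8 * En t v) := by gcongr
  have h6 : 0 ≤ Real.exp t * En t v := by positivity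
  nlinarith

lemma bdd (x : H) : BddAbove (range (G D x)) := ⟨128 * ‖x‖ ^ 8, by
  rintro _ ⟨p, rfl⟩; exact G_le D x p⟩

lemma V_le (x : H) : V D x ≤ 128 * ‖x‖ ^ 8 := ciSup_le (G_le D x)

lemma le_V (x : H) : ‖x‖ ^ 8 ≤ V D x := by
  have := le_ciSup (bdd D x) ⟨(0, fun _ => 0), le_rfl, inp_zero⟩
  have h2 : G D x ⟨(0, fun _ => 0), le_rfl, inp_zero⟩ = ‖x‖ ^ 8 := by
    simp [G, phi_zero D x inp_zero]
  rw [h2] at this
  exact this

lemma V_convex : ConvexOn ℝ univ (V D) := by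
  refine ⟨convex_univ, fun x _ y _ a c ha hc hac => ?_⟩
  apply ciSup_le
  intro p
  have hx := le_ciSup (bdd D x) p
  have hy := le_ciSup (bdd D y) p
  have hg : ConvexOn ℝ univ ((fun z : H => ‖z‖) ^ 8) :=
    convexOn_univ_norm.pow (fun z _ => norm_nonneg z) 8
  have h1 := hg.2 (mem_univ (phi D p.1.1 x p.1.2)) (mem_univ (phi D p.1.1 y p.1.2)) ha hc hac
  simp only [Pi.pow_apply, smul_eq_mul] at h1
  have h2 : G D (a • x + c • y) p ≤ a * G D x p + c * G D y p := by
    simp only [G]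
    rw [phi_affine D p.2.1 x y p.2.2 hac]
    have et : 0 < Real.exp p.1.1 := Real.exp_pos _
    have h3 := mul_le_mul_of_nonneg_left h1 et.le
    have : c = 1 - a := by linarith
    subst this
    nlinarith
  simp only [smul_eq_mul]
  unfold V
  have := mul_le_mul_of_nonneg_left hx ha
  have := mul_le_mul_of_nonneg_left hy hc
  linarith

lemma V_cont : Continuous (V D) := by
  rw [← continuousOn_univ]
  refine (((V_convex D).continuousOn_tfae isOpen_univ univ_nonempty).out 3 1).1 ?_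
  refine ⟨0, mem_univ _, 128, ?_⟩
  rw [eventually_map]
  filter_upwards [Metric.ball_mem_nhds (0:H) one_pos] with x hx
  rw [mem_ball_zero_iff] at hx
  have : ‖x‖ ^ 8 ≤ 1 := pow_le_one₀ (norm_nonneg _) hx.le
  linarith [V_le D x]

lemma V_step {h M : ℝ} (hh : 0 ≤ h) (x : H) {u : ℝ → ℝ} (hu : Inp u) (hM : ∀ s, |u s| ≤ M) :
    V D (phi D h x u) ≤ Real.exp (-h) * V D x + K D * (h * M ^ 8) := by
  apply ciSup_le
  rintro ⟨⟨t, v⟩, ht, hv⟩
  simp only at ht hv
  have h1 := le_ciSup (bdd D x) ⟨(t + h, cat h u v), by simp only; linarith, cat_inp h hu hv⟩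
  change _ ≤ V D x at h1
  simp only [G] at h1 ⊢
  rw [phi_cat D hh ht x hu hv, int_cat hh ht hu hv Real.continuous_exp 8] at h1
  have e1 : ∫ s in (0:ℝ)..t, Real.exp (s + h) * v s ^ 8
      = Real.exp h * ∫ s in (0:ℝ)..t, Real.exp s * v s ^ 8 := by
    rw [← intervalIntegral.integral_const_mul]
    congr 1
    funext s
    rw [Real.exp_add]; ring
  have e2 : ∫ s in (0:ℝ)..h, Real.exp s * u s ^ 8 ≤ h * (Real.exp h * M ^ 8) := by
    have := intervalIntegral.integral_mono_on (μ := volume) hh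
      ((hu.pow 8).ii Real.continuous_exp 0 h)
      (intervalIntegrable_const (c := Real.exp h * M ^ 8)) (fun s hs => by
        have a1 : Real.exp s ≤ Real.exp h := Real.exp_le_exp.2 hs.2
        have a2 : u s ^ 8 ≤ M ^ 8 := by
          have : u s ^ 8 = |u s| ^ 8 := by rw [← abs_pow, abs_of_nonneg (by positivity)]
          rw [this]
          exact pow_le_pow_left₀ (abs_nonneg _) (hM s) 8
        have a3 : 0 ≤ u s ^ 8 := by positivity
        gcongr)
    rw [intervalIntegral.integral_const, sub_zero, smul_eq_mul] at this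
    exact this
  rw [e1, Real.exp_add] at h1
  have e3 : Real.exp (-h) * Real.exp h = 1 := by rw [← Real.exp_add]; simp
  have e0 : 0 < Real.exp (-h) := Real.exp_pos _
  have hK := K_pos D
  set A := ‖phi D t (phi D h x u) v‖ ^ 8
  set B := ∫ s in (0:ℝ)..t, Real.exp s * v s ^ 8
  set C := ∫ s in (0:ℝ)..h, Real.exp s * u s ^ 8
  have h2 : Real.exp h * (Real.exp t * A - K D * B) ≤ V D x + K D * (h * (Real.exp h * M ^ 8)) := by
    have := mul_le_mul_of_nonneg_left e2 hK.le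
    linarith
  have h3 := mul_le_mul_of_nonneg_left h2 e0.le
  calc Real.exp t * A - K D * B
      = Real.exp (-h) * (Real.exp h * (Real.exp t * A - K D * B)) := by
        rw [← mul_assoc, e3, one_mul]
    _ ≤ _ := h3
    _ = Real.exp (-h) * V D x + K D * (h * M ^ 8) * (Real.exp (-h) * Real.exp h) := by ring
    _ = _ := by rw [e3, mul_one]

lemma V_quot {h M : ℝ} (hh : 0 < h) (h1 : h ≤ 1) (x : H) {u : ℝ → ℝ} (hu : Inp u)
    (hM : ∀ s, |u s| ≤ M) :
    (V D (phi D h x u) - V D x) / h ≤ -(‖x‖ ^ 8 / 2) + K D * M ^ 8 := by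
  have hs := V_step D hh.le x hu hM
  have hV := le_V D x
  have hx : 0 ≤ ‖x‖ ^ 8 := by positivity
  have e1 : Real.exp (-h) ≤ 1 - h / 2 := by
    have a1 : h + 1 ≤ Real.exp h := Real.add_one_le_exp h
    have e3 : Real.exp (-h) * Real.exp h = 1 := by rw [← Real.exp_add]; simp
    have e0 : 0 < Real.exp (-h) := Real.exp_pos _
    by_contra hc
    rw [not_le] at hc
    have : (1 - h / 2) * (h + 1) < Real.exp (-h) * Real.exp h := by
      apply mul_lt_mul hc a1 (by linarith) e0.le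
    nlinarith
  rw [div_le_iff₀ hh]
  have : Real.exp (-h) * V D x ≤ (1 - h / 2) * V D x := by gcongr; linarith
  nlinarith

end Pool.Agent.Lib.Helper21.Heat3
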