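import Mathlib

set_option maxHeartbeats 400000

open MeasureTheory Set Filter Topology
open scoped InnerProductSpace Real

namespace Pool.Agent.Lib.Helper21.Heat4

abbrev X : Type := Lp ℝ 2 (volume.restrict (Ioo (0:ℝ) 1))

noncomputable def sn (n : ℕ) (z : ℝ) : ℝ := Real.sqrt 2 * Real.sin ((n + 1) * π * z)

lemma sn_cont (n : ℕ) : Continuous (sn n) := by unfold sn; fun_prop

lemma sn_mem (n : ℕ) : MemLp (sn n) 2 (volume.restrict (Ioo (0:ℝ) 1)) := by
  refine MemLp.of_bound (sn_cont n).aestronglyMeasurable (Real.sqrt 2) (ae_of_all _ fun z => ?_)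
  rw [sn, Real.norm_eq_abs, abs_mul, abs_of_nonneg (Real.sqrt_nonneg _)]
  exact mul_le_of_le_one_right (Real.sqrt_nonneg _) (Real.abs_sin_le_one _)

noncomputable def ee (n : ℕ) : X := (sn_mem n).toLp (sn n)

lemma ioo_eq (f : ℝ → ℝ) : ∫ z in Ioo (0:ℝ) 1, f z = ∫ z in (0:ℝ)..1, f z := by
  rw [intervalIntegral.integral_of_le zero_le_one, integral_Ioc_eq_integral_Ioo]

lemma inner_ee (n : ℕ) (x : X) : ⟪ee n, x⟫_ℝ = ∫ z in (0:ℝ)..1, sn n z * x z := by
  rw [L2.inner_def, ← ioo_eq]
  apply integral_congr_ae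
  filter_upwards [(sn_mem n).coeFn_toLp] with z hz
  rw [ee, hz]
  simp [mul_comm]

lemma int_cos (k : ℤ) : ∫ z in (0:ℝ)..1, Real.cos (k * π * z) = if k = 0 then 1 else 0 := by
  split_ifs with h
  · simp [h]
  · have hk : (k:ℝ) * π ≠ 0 := mul_ne_zero (by exact_mod_cast h) Real.pi_ne_zero
    rw [intervalIntegral.integral_comp_mul_left (fun x => Real.cos x) hk, integral_cos]
    simp [Real.sin_int_mul_pi]

lemma ee_on : Orthonormal ℝ ee := by
  rw [orthonormal_iff_ite]
  intro i j
  rw [inner_ee]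
  have h1 : ∫ z in (0:ℝ)..1, sn i z * (ee j) z = ∫ z in (0:ℝ)..1, sn i z * sn j z := by
    rw [← ioo_eq, ← ioo_eq]
    apply integral_congr_ae
    filter_upwards [(sn_mem j).coeFn_toLp] with z hz
    rw [ee, hz]
  have h2 : ∀ z, sn i z * sn j z = Real.cos ((((i:ℤ) - j : ℤ):ℝ) * π * z)
      - Real.cos ((((i:ℤ) + j + 2 : ℤ):ℝ) * π * z) := by
    intro z
    have a1 : (((i:ℤ) - j : ℤ):ℝ) * π * z = (i + 1) * π * z - (j + 1) * π * z := by
      push_cast; ring
    have a2 : (((i:ℤ) + j + 2 : ℤ):ℝ) * π * z = (i + 1) * π * z + (j + 1) * π * z := by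
      push_cast; ring
    rw [a1, a2, Real.cos_sub, Real.cos_add, sn, sn]
    have : Real.sqrt 2 * Real.sqrt 2 = 2 := Real.mul_self_sqrt (by norm_num)
    linear_combination (Real.sin ((i + 1) * π * z) * Real.sin ((j + 1) * π * z)) * this
  rw [h1]
  simp only [h2]
  rw [intervalIntegral.integral_sub (Continuous.intervalIntegrable (by fun_prop) _ _)
    (Continuous.intervalIntegrable (by fun_prop) _ _), int_cos, int_cos]
  have : ¬ ((i:ℤ) + j + 2 = 0) := by omega
  rw [if_neg this, sub_zero]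
  by_cases h : i = j
  · simp [h]
  · have : ¬ ((i:ℤ) - j = 0) := by omega
    rw [if_neg this, if_neg h]

lemma sin_all {f : ℝ → ℝ} (h : ∀ n, ∫ z in (0:ℝ)..1, sn n z * f z = 0) (k : ℤ) :
    ∫ z in (0:ℝ)..1, Real.sin (k * π * z) * f z = 0 := by
  have h1 : ∀ n : ℕ, ∫ z in (0:ℝ)..1, Real.sin (n * π * z) * f z = 0 := by
    intro n
    rcases n with _ | n
    · simp
    · have := h n
      simp only [sn, mul_assoc (Real.sqrt 2)] at this
      rw [intervalIntegral.integral_const_mul] at this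
      have h2 : Real.sqrt 2 ≠ 0 := by positivity
      have h3 := (mul_eq_zero.1 this).resolve_left h2
      push_cast
      exact h3
  obtain ⟨n, rfl | rfl⟩ := Int.eq_nat_or_neg k
  · exact_mod_cast h1 n
  · have := h1 n
    push_cast
    simp only [neg_mul, Real.sin_neg]
    rw [intervalIntegral.integral_neg, this, neg_zero]

lemma complete (x : X) (h : ∀ n, ⟪ee n, x⟫_ℝ = 0) : x = 0 := by
  simp only [inner_ee] at h
  have hs := sin_all h
  set f : ℝ → ℝ := ⇑x with hf
  have hfm : MemLp f 2 (volume.restrict (Ioo (0:ℝ) 1)) := Lp.memLp x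
  set F : ℝ → ℝ := indicator (Ioo (0:ℝ) 1) f with hF
  have hFm : MemLp F 2 volume := (memLp_indicator_iff_restrict measurableSet_Ioo).2 hfm
  have hFn : MemLp (fun z => F (-z)) 2 volume :=
    hFm.comp_measurePreserving (Measure.measurePreserving_neg volume)
  set g : ℝ → ℝ := fun z => F z - F (-z) with hg
  have hgm : MemLp g 2 volume := hFm.sub hFn
  have hodd : ∀ z, g (-z) = - g z := fun z => by simp [hg]
  have hgf : ∀ z ∈ Ioo (0:ℝ) 1, g z = f z := fun z hz => by
    have : -z ∉ Ioo (0:ℝ) 1 := fun h' => by linarith [h'.1, hz.1]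
    simp only [hg, hF, indicator_of_mem hz, indicator_of_notMem this, sub_zero]
  have hgc : MemLp (fun z => (g z : ℂ)) 2 volume := hgm.ofReal
  have hgi : ∀ a b : ℝ, IntervalIntegrable (fun z => (g z : ℂ)) volume a b := fun a b => by
    rw [intervalIntegrable_iff]
    have : IsFiniteMeasure (volume.restrict (uIoc a b)) :=
      isFiniteMeasure_restrict.2 (measure_Ioc_lt_top).ne
    exact (hgc.restrict _).integrable (by norm_num)
  have hab : (-1:ℝ) < 1 := by norm_num
  have hc : ∀ k : ℤ, fourierCoeffOn hab (fun z => (g z : ℂ)) k = 0 := by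
    intro k
    rw [fourierCoeffOn_eq_integral]
    simp only [fourier_coe_apply, smul_eq_mul]
    set E : ℝ → ℂ := fun z => Complex.exp (2 * π * Complex.I * ((-k : ℤ):ℂ) * z / ((1 - -1 : ℝ):ℂ))
      with hE
    have hEc : Continuous E := by simp only [hE]; fun_prop
    have hi : ∀ a b : ℝ, IntervalIntegrable (fun z => E z * (g z : ℂ)) volume a b := fun a b =>
      (hgi a b).continuousOn_mul hEc.continuousOn
    have hi' : IntervalIntegrable (fun z => E (-z) * (g z : ℂ)) volume 0 1 :=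
      (hgi 0 1).continuousOn_mul (hEc.comp continuous_neg).continuousOn
    have e1 : ∫ z in (-1:ℝ)..0, E z * (g z : ℂ) = - ∫ z in (0:ℝ)..1, E (-z) * (g z : ℂ) := by
      have := intervalIntegral.integral_comp_neg (a := 0) (b := 1) (fun z => E z * (g z : ℂ))
      rw [neg_zero] at this
      rw [← this, ← intervalIntegral.integral_neg]
      congr 1
      funext z
      rw [hodd]; push_cast; ring
    have e2 : ∀ z : ℝ, E z - E (-z) = -2 * Complex.I * (Real.sin (k * π * z) : ℝ) := by
      intro z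
      have a1 : 2 * π * Complex.I * ((-k : ℤ):ℂ) * z / ((1 - -1 : ℝ):ℂ)
          = -((k * π * z : ℝ):ℂ) * Complex.I := by push_cast; ring
      have a2 : 2 * π * Complex.I * ((-k : ℤ):ℂ) * ((-z : ℝ):ℂ) / ((1 - -1 : ℝ):ℂ)
          = ((k * π * z : ℝ):ℂ) * Complex.I := by push_cast; ring
      simp only [hE]
      rw [a1, a2, Complex.ofReal_sin, Complex.sin]
      linear_combination (Complex.exp (-((k * π * z : ℝ):ℂ) * Complex.I)
        - Complex.exp (((k * π * z : ℝ):ℂ) * Complex.I)) * Complex.I_mul_I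
    have e3 : ∫ z in (-1:ℝ)..1, E z * (g z : ℂ) = 0 := by
      rw [← intervalIntegral.integral_add_adjacent_intervals (hi (-1) 0) (hi 0 1), e1,
        neg_add_eq_sub, ← intervalIntegral.integral_sub (hi 0 1) hi']
      have : ∫ z in (0:ℝ)..1, (E z * (g z : ℂ) - E (-z) * (g z : ℂ))
          = ∫ z in (0:ℝ)..1, -2 * Complex.I * ((Real.sin (k * π * z) * f z : ℝ):ℂ) := by
        rw [intervalIntegral.integral_of_le zero_le_one, integral_Ioc_eq_integral_Ioo,
          intervalIntegral.integral_of_le zero_le_one, integral_Ioc_eq_integral_Ioo]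
        apply setIntegral_congr_fun measurableSet_Ioo
        intro z hz
        simp only
        rw [← sub_mul, e2, hgf z hz]; push_cast; ring
      rw [this, intervalIntegral.integral_const_mul, intervalIntegral.integral_ofReal, hs]
      simp
    change _ • ∫ z in (-1:ℝ)..1, E z * (g z : ℂ) = 0
    rw [e3, smul_zero]
  have hP := tsum_sq_fourierCoeffOn hab (hgc.restrict (Ioc (-1) 1))
  simp only [hc, norm_zero, ne_eq, OfNat.ofNat_ne_zero, not_false_eq_true, zero_pow, tsum_zero,
    smul_eq_mul, Complex.norm_real, Real.norm_eq_abs, sq_abs] at hP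
  have h0 : ∫ z in (-1:ℝ)..1, g z ^ 2 = 0 := by
    rcases mul_eq_zero.1 hP.symm with h' | h'
    · norm_num at h'
    · exact h'
  have hi2 : IntervalIntegrable (fun z => g z ^ 2) volume (-1) 1 :=
    (hgm.integrable_sq).intervalIntegrable
  rw [intervalIntegral.integral_eq_zero_iff_of_le_of_nonneg_ae hab.le
    (ae_of_all _ fun z => sq_nonneg _) hi2] at h0
  have h1 : (fun z => g z ^ 2) =ᵐ[volume.restrict (Ioo (0:ℝ) 1)] 0 :=
    ae_restrict_of_ae_restrict_of_subset (t := Ioc (-1:ℝ) 1)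
      (fun z (hz : z ∈ Ioo (0:ℝ) 1) => (⟨by linarith [hz.1], hz.2.le⟩ : z ∈ Ioc (-1:ℝ) 1)) h0
  rw [Lp.eq_zero_iff_ae_eq_zero]
  filter_upwards [h1, ae_restrict_mem measurableSet_Ioo] with z hz hz'
  have : g z = 0 := by simpa using hz
  rw [hgf z hz'] at this
  exact this

noncomputable def basis : HilbertBasis ℕ ℝ X :=
  HilbertBasis.mkOfOrthogonalEqBot ee_on (by
    rw [Submodule.eq_bot_iff]
    intro x hx
    apply complete
    intro n
    exact Submodule.inner_right_of_mem_orthogonal (Submodule.subset_span (mem_range_self n)) hx)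

lemma basis_eq : ⇑basis = ee := HilbertBasis.coe_mkOfOrthogonalEqBot _ _

end Pool.Agent.Lib.Helper21.Heat4
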