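import Mathlib

/-! A non-hopfian group with a hopfian subgroup of index two. -/

open LaurentPolynomial

noncomputable section

namespace Pool.Agent.Lib.Helper21.Hopf

/-- rationals with odd denominator -/
def A : Subring ℚ where
  carrier := {r | ∃ b : ℤ, Odd b ∧ ∃ a : ℤ, b * r = a}
  mul_mem' := by
    rintro x y ⟨b, hb, a, h⟩ ⟨b', hb', a', h'⟩
    refine ⟨b * b', hb.mul hb', a * a', ?_⟩
    push_cast
    rw [← h, ← h']; ring
  one_mem' := ⟨1, odd_one, 1, by simp⟩
  add_mem' := by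
    rintro x y ⟨b, hb, a, h⟩ ⟨b', hb', a', h'⟩
    refine ⟨b * b', hb.mul hb', a * b' + b * a', ?_⟩
    push_cast
    rw [← h, ← h']; ring
  zero_mem' := ⟨1, odd_one, 0, by simp⟩
  neg_mem' := by
    rintro x ⟨b, hb, a, h⟩
    refine ⟨b, hb, -a, ?_⟩
    push_cast
    rw [← h]; ring

lemma third_mem : (1 / 3 : ℚ) ∈ A := ⟨3, by decide, 1, by norm_num⟩

lemma half_not_mem : (1 / 2 : ℚ) ∉ A := by
  rintro ⟨b, hb, a, h⟩
  have h1 : (b : ℚ) = 2 * a := by linarith
  have h2 : b = 2 * a := by exact_mod_cast h1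
  rw [h2] at hb
  exact (Int.not_odd_iff_even.2 (even_two_mul a)) hb

lemma half_or {r : ℚ} (hr : r ∈ A) : r / 2 ∈ A ∨ (r - 1) / 2 ∈ A := by
  obtain ⟨b, hb, a, h⟩ := hr
  rcases Int.even_or_odd a with ⟨c, hc⟩ | ⟨c, hc⟩
  · left
    refine ⟨b, hb, c, ?_⟩
    have : (a : ℚ) = c + c := by exact_mod_cast hc
    linarith
  · right
    obtain ⟨d, hd⟩ := hb
    refine ⟨b, ⟨d, hd⟩, c - d, ?_⟩
    have h1 : (a : ℚ) = 2 * c + 1 := by exact_mod_cast hc
    have h2 : (b : ℚ) = 2 * d + 1 := by exact_mod_cast hd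
    push_cast
    linarith

lemma exists_half {r : ℚ} (hr : r ∉ A) : ∃ m : ℕ, m * r - 1 / 2 ∈ A := by
  obtain ⟨j, b, hb, hj⟩ := Nat.exists_eq_two_pow_mul_odd r.den_nz
  have hr' : (r.den : ℚ) * r = r.num := by
    rw [mul_comm]; exact Rat.mul_den_eq_num r
  rcases j with _ | j
  · exfalso
    apply hr
    refine ⟨b, hb.natCast, r.num, ?_⟩
    rw [← hr', hj]; simp
  · have hodd : Odd r.num := by
      rw [← Int.not_even_iff_odd]
      intro he
      have h1 : 2 ∣ r.num.natAbs := by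
        have := even_iff_two_dvd.1 he
        exact Int.natCast_dvd.1 this
      have h2 : 2 ∣ r.den := by rw [hj]; exact Dvd.dvd.mul_right (dvd_pow_self 2 (by omega)) _
      have := Nat.dvd_gcd h1 h2
      rw [r.reduced] at this
      omega
    obtain ⟨c, hc⟩ := hodd
    refine ⟨2 ^ j * b, ?_⟩
    have h3 : (r.num : ℚ) = 2 * c + 1 := by exact_mod_cast hc
    have h4 : (r.den : ℚ) = 2 * (2 ^ j * b) := by rw [hj]; push_cast; ring
    have : ((2 ^ j * b : ℕ) : ℚ) * r - 1 / 2 = (c : ℚ) := by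
      push_cast
      rw [h4, h3] at hr'
      linarith
    rw [this]
    exact intCast_mem A c

lemma exists_unit : ∃ u : ℚ_[3]ˣ, Transcendental ℚ (u : ℚ_[3]) ∧ ‖(u : ℚ_[3])‖ = 1 := by
  have h1 : ∃ x : ℚ_[3], Transcendental ℚ x := by
    by_contra h
    push Not at h
    have h2 : (Set.univ : Set ℚ_[3]).Countable := by
      refine (Algebraic.countable ℚ ℚ_[3]).mono fun x _ => ?_
      have := h x
      unfold Transcendental at this
      exact not_not.1 this
    have h3 := continuum_le_cardinal_of_nontriviallyNormedField ℚ_[3]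
    have h4 : Cardinal.mk ℚ_[3] ≤ Cardinal.aleph0 := by
      have : Countable ℚ_[3] := Set.countable_univ_iff.1 h2
      exact Cardinal.mk_le_aleph0
    exact absurd (h3.trans h4) (not_le.2 Cardinal.aleph0_lt_continuum)
  obtain ⟨x, hx⟩ := h1
  have key : ∀ y : ℚ_[3], Transcendental ℚ y → ‖y‖ < 1 →
      ∃ u : ℚ_[3]ˣ, Transcendental ℚ (u : ℚ_[3]) ∧ ‖(u : ℚ_[3])‖ = 1 := by
    intro y hy hn
    have h1 : ‖1 + y‖ = 1 := by
      rw [Padic.add_eq_max_of_ne (by rw [norm_one]; exact hn.ne'), norm_one]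
      exact max_eq_left hn.le
    have h2 : 1 + y ≠ 0 := by
      intro h; rw [h] at h1; simp at h1
    refine ⟨Units.mk0 _ h2, ?_, h1⟩
    intro h
    apply hy
    have h3 : IsAlgebraic ℚ (1 + y) := h
    have := h3.sub isAlgebraic_one
    simpa using this
  rcases lt_trichotomy ‖x‖ 1 with h | h | h
  · exact key x hx h
  · have h2 : x ≠ 0 := by
      intro h0; rw [h0] at h; simp at h
    exact ⟨Units.mk0 _ h2, hx, h⟩
  · refine key x⁻¹ ?_ ?_
    · intro h'
      exact hx (IsAlgebraic.inv_iff.1 h')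
    · rw [norm_inv]; exact inv_lt_one_of_one_lt₀ h

def u : ℚ_[3]ˣ := Classical.choose exists_unit

lemma u_tr : Transcendental ℚ (u : ℚ_[3]) := (Classical.choose_spec exists_unit).1
lemma u_norm : ‖(u : ℚ_[3])‖ = 1 := (Classical.choose_spec exists_unit).2

abbrev L : Type := LaurentPolynomial ℚ

def ev : L →+* ℚ_[3] := LaurentPolynomial.eval₂ (algebraMap ℚ ℚ_[3]) u

lemma ev_T (n : ℤ) : ‖ev (T n)‖ = 1 := by
  rw [ev, eval₂_T, Units.val_zpow_eq_zpow_val, norm_zpow, u_norm, one_zpow]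

lemma ev_C (r : ℚ) : ev (C r) = r := by
  rw [ev, eval₂_C]; simp

lemma ev_inj : Function.Injective ev := by
  rw [injective_iff_map_eq_zero]
  intro f hf
  obtain ⟨n, p, hp⟩ := f.exists_T_pow
  have h1 : Polynomial.aeval (u : ℚ_[3]) p = 0 := by
    rw [Polynomial.aeval_def, ← eval₂_toLaurent, hp]
    change ev (f * T n) = 0
    rw [map_mul, hf, zero_mul]
  have h2 : p = 0 := by
    by_contra h
    exact u_tr ⟨p, h, h1⟩
  rw [h2, map_zero] at hp
  exact (isUnit_T n).mul_left_eq_zero.1 hp.symm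

lemma coeff_CT (r : ℚ) (n : ℤ) (g : L) (m : ℤ) :
    (C r * T n * g).coeff m = r * g.coeff (m - n) := by
  rw [← single_eq_C_mul_T]
  exact AddMonoidAlgebra.coeff_single_mul_eq_mul_coeff _ (fun m' _ => by omega)

lemma coeff_T (n : ℤ) (g : L) (m : ℤ) : (T n * g).coeff m = g.coeff (m - n) := by
  have := coeff_CT 1 n g m
  simpa using this

lemma coeff_C (r : ℚ) (g : L) (m : ℤ) : (C r * g).coeff m = r * g.coeff m := by
  have := coeff_CT r 0 g m
  simpa using this

lemma unit_eq {f g : L} (h : f * g = 1) : ∃ (c : ℚ) (k : ℤ), c ≠ 0 ∧ f = C c * T k := by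
  obtain ⟨n, p, hp⟩ := f.exists_T_pow
  obtain ⟨m, q, hq⟩ := g.exists_T_pow
  have h1 : p * q = Polynomial.X ^ (n + m) := by
    apply Polynomial.toLaurent_injective
    rw [map_mul, hp, hq, Polynomial.toLaurent_X_pow]
    push_cast
    rw [T_add]
    calc f * T n * (g * T m) = (f * g) * (T n * T m) := by ring
      _ = _ := by rw [h, one_mul]
  obtain ⟨i, _, hi⟩ := (dvd_prime_pow Polynomial.prime_X (n + m)).1 ⟨q, h1.symm⟩
  obtain ⟨w, hw⟩ := hi.symm
  obtain ⟨c, hc, hc'⟩ := Polynomial.isUnit_iff.1 w.isUnit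
  refine ⟨c, i - n, hc.ne_zero, ?_⟩
  have h2 : f = f * T n * T (-n) := by simp
  rw [h2, ← hp, ← hw, ← hc', map_mul, Polynomial.toLaurent_X_pow, Polynomial.toLaurent_C, T_sub]
  ring

/-- the bilinear form -/
def B (f g : L) : ℚ := f.coeff.sum fun i a => 2 ^ i * a * g.coeff (i + 1)

lemma B_add_left (f f' g : L) : B (f + f') g = B f g + B f' g := by
  unfold B
  rw [AddMonoidAlgebra.coeff_add, Finsupp.sum_add_index']
  · simp
  · intro i a b; ring

lemma B_add_right (f g g' : L) : B f (g + g') = B f g + B f g' := by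
  unfold B
  rw [← Finsupp.sum_add]
  refine Finsupp.sum_congr fun i _ => ?_
  simp [mul_add]

lemma B_zero_left (g : L) : B 0 g = 0 := by simp [B]

lemma B_zero_right (f : L) : B f 0 = 0 := by simp [B]

lemma B_neg_left (f g : L) : B (-f) g = -B f g := by
  have := B_add_left f (-f) g
  rw [add_neg_cancel, B_zero_left] at this
  linarith

lemma B_CT (r : ℚ) (n : ℤ) (g : L) : B (C r * T n) g = 2 ^ n * r * g.coeff (n + 1) := by
  unfold B
  rw [← single_eq_C_mul_T, AddMonoidAlgebra.coeff_single, Finsupp.sum_single_index]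
  simp

lemma B_shift (f g : L) : B (T 1 * f) (T 1 * g) = 2 * B f g := by
  induction f using LaurentPolynomial.induction_on' with
  | add p q hp hq => rw [mul_add, B_add_left, B_add_left, hp, hq]; ring
  | C_mul_T n a =>
    have : T 1 * (C a * T n) = (C a * T (n + 1) : L) := by rw [T_add]; ring
    rw [this, B_CT, B_CT, coeff_T, zpow_add₀ two_ne_zero]
    simp only [add_sub_cancel_right, zpow_one]
    ring

def Q : AddSubgroup L where
  carrier := {f | (∀ i, f.coeff i ∈ A) ∧ ‖ev f‖ ≤ 1}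
  add_mem' := by
    rintro f g ⟨h1, h2⟩ ⟨h3, h4⟩
    refine ⟨fun i => ?_, ?_⟩
    · simpa using A.add_mem (h1 i) (h3 i)
    · rw [map_add]
      exact (Padic.nonarchimedean _ _).trans (max_le h2 h4)
  zero_mem' := ⟨fun i => by simp, by simp⟩
  neg_mem' := by
    rintro f ⟨h1, h2⟩
    refine ⟨fun i => ?_, ?_⟩
    · simpa using A.neg_mem (h1 i)
    · rwa [map_neg, norm_neg]

lemma T_mul_mem (n : ℤ) {f : L} (hf : f ∈ Q) : T n * f ∈ Q := by
  refine ⟨fun i => ?_, ?_⟩
  · rw [coeff_T]; exact hf.1 _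
  · rw [map_mul, norm_mul, ev_T, one_mul]; exact hf.2

lemma one_mem_Q : (1 : L) ∈ Q := by
  refine ⟨fun i => ?_, by simp⟩
  rw [← T_zero, T_apply]
  split_ifs
  · exact A.one_mem
  · exact A.zero_mem

lemma T_mem (n : ℤ) : (T n : L) ∈ Q := by simpa using T_mul_mem n one_mem_Q

def Q0 : AddSubgroup L where
  carrier := {f | f ∈ Q ∧ f.coeff 0 / 2 ∈ A}
  add_mem' := by
    rintro f g ⟨h1, h2⟩ ⟨h3, h4⟩
    refine ⟨Q.add_mem h1 h3, ?_⟩
    simpa [add_div] using A.add_mem h2 h4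
  zero_mem' := ⟨Q.zero_mem, by simp⟩
  neg_mem' := by
    rintro f ⟨h1, h2⟩
    refine ⟨Q.neg_mem h1, ?_⟩
    simpa [neg_div] using A.neg_mem h2

lemma T_mem0 {n : ℤ} (hn : n ≠ 0) : (T n : L) ∈ Q0 := ⟨T_mem n, by simp [hn]⟩

lemma two_mem0 : (C 2 : L) ∈ Q0 := by
  have h : (C 2 : L) = 1 + 1 := by rw [← one_add_one_eq_two, map_add, map_one]
  refine ⟨by rw [h]; exact Q.add_mem one_mem_Q one_mem_Q, ?_⟩
  simp

lemma div_mem0 {f : L} (hf : f ∈ Q0) (N : ℕ) (h : ‖ev f‖ ≤ (3 : ℝ) ^ (-(N : ℤ))) :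
    C ((1 / 3) ^ N) * f ∈ Q0 := by
  have h3 : ((1 / 3 : ℚ) ^ N) ∈ A := A.pow_mem third_mem N
  refine ⟨⟨fun i => ?_, ?_⟩, ?_⟩
  · rw [coeff_C]; exact A.mul_mem h3 (hf.1.1 i)
  · rw [map_mul, ev_C, norm_mul]
    have h4 : ‖(((1 / 3 : ℚ) ^ N : ℚ) : ℚ_[3])‖ = (3 : ℝ) ^ (N : ℤ) := by
      push_cast
      rw [norm_pow, norm_div, norm_one]
      have : ‖(3 : ℚ_[3])‖ = (3 : ℝ)⁻¹ := by exact_mod_cast Padic.norm_p (p := 3)
      rw [this]; simp
    rw [h4]
    calc (3 : ℝ) ^ (N : ℤ) * ‖ev f‖ ≤ 3 ^ (N : ℤ) * 3 ^ (-(N : ℤ)) := by gcongr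
      _ = 1 := by rw [← zpow_add₀ (by norm_num)]; simp
  · rw [coeff_C, mul_div_assoc]; exact A.mul_mem h3 hf.2

lemma approx (z : ℚ_[3]) (hz : ‖z‖ ≤ 1) (N : ℕ) :
    ∃ n : ℕ, ‖z - n * 2‖ ≤ (3 : ℝ) ^ (-(N : ℤ)) := by
  have h2 : ‖(2 : ℚ_[3])‖ = 1 := by
    have := (Padic.norm_natCast_eq_one_iff (p := 3) (n := 2)).2 (by decide)
    exact_mod_cast this
  have hz2 : ‖z / 2‖ ≤ 1 := by rw [norm_div, h2, div_one]; exact hz
  let y : ℤ_[3] := ⟨z / 2, hz2⟩
  refine ⟨y.appr N, ?_⟩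
  have h3 := PadicInt.appr_spec N y
  rw [← PadicInt.norm_le_pow_iff_mem_span_pow] at h3
  have h4 : z - (y.appr N : ℚ_[3]) * 2 = ((y - y.appr N : ℤ_[3]) : ℚ_[3]) * 2 := by
    push_cast
    simp only [y]
    ring
  rw [h4, norm_mul, h2, mul_one]
  exact_mod_cast h3

/-- additive maps `Q0 → Q0` are multiplications -/
lemma endo_mul (γ : Q0 →+ Q0) (x : Q0) :
    C 2 * (γ x : L) = (x : L) * (γ ⟨C 2, two_mem0⟩ : L) := by
  apply ev_inj
  set e : Q0 := ⟨C 2, two_mem0⟩ with he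
  have key : ∀ N : ℕ, ‖ev (C 2 * (γ x : L)) - ev ((x : L) * (γ e : L))‖ ≤ (3 : ℝ) ^ (-(N : ℤ)) := by
    intro N
    obtain ⟨n, hn⟩ := approx (ev x) x.2.1.2 N
    have hev : ev ((x - n • e : Q0) : L) = ev x - n * 2 := by
      simp [he, ev_C]
    let x' : Q0 := ⟨C ((1 / 3) ^ N) * ((x - n • e : Q0) : L),
      div_mem0 (x - n • e).2 N (by rw [hev]; exact hn)⟩
    have hx' : x = n • e + (3 ^ N) • x' := by
      apply Subtype.ext
      simp only [x', AddSubgroup.coe_add, AddSubmonoidClass.coe_nsmul, nsmul_eq_mul]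
      have : (((3 ^ N : ℕ) : L)) * C ((1 / 3) ^ N) = 1 := by
        rw [← map_natCast (C : ℚ →+* L), ← map_mul, ← map_one (C : ℚ →+* L)]
        congr 1
        push_cast
        rw [← mul_pow]; norm_num
      rw [← mul_assoc, this]
      simp
    have h3 : ‖((3 ^ N : ℕ) : ℚ_[3])‖ = (3 : ℝ) ^ (-(N : ℤ)) := by
      exact_mod_cast Padic.norm_p_pow (p := 3) N
    have hγ : ev (γ x) = n * ev (γ e) + (3 ^ N : ℕ) * ev (γ x') := by
      conv_lhs => rw [hx']
      simp [map_ofNat ev 3]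
    have hx : ev x = n * 2 + (3 ^ N : ℕ) * ev x' := by
      conv_lhs => rw [hx']
      simp [he, ev_C, map_ofNat ev 3]
    have h5 : ev (C 2 * (γ x : L)) - ev ((x : L) * (γ e : L)) =
        (3 ^ N : ℕ) * (2 * ev (γ x') - ev x' * ev (γ e)) := by
      rw [map_mul, map_mul, ev_C, hγ, hx]
      push_cast; ring
    rw [h5, norm_mul, h3]
    have h6 : ‖2 * ev (γ x') - ev x' * ev (γ e)‖ ≤ 1 := by
      rw [sub_eq_add_neg]
      refine (Padic.nonarchimedean _ _).trans (max_le ?_ ?_)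
      · rw [two_mul]
        exact (Padic.nonarchimedean _ _).trans (max_le (γ x').2.1.2 (γ x').2.1.2)
      · rw [norm_neg, norm_mul]
        exact mul_le_one₀ x'.2.1.2 (norm_nonneg _) (γ e).2.1.2
    calc _ ≤ (3 : ℝ) ^ (-(N : ℤ)) * 1 := by gcongr
      _ = _ := mul_one _
  rw [← sub_eq_zero, ← norm_eq_zero]
  by_contra hne
  have hpos : 0 < ‖ev (C 2 * (γ x : L)) - ev ((x : L) * (γ e : L))‖ :=
    lt_of_le_of_ne (norm_nonneg _) (Ne.symm hne)
  obtain ⟨N, hN⟩ := exists_pow_lt_of_lt_one hpos (by norm_num : (1 / 3 : ℝ) < 1)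
  have := key N
  rw [zpow_neg, zpow_natCast, ← inv_pow, ← one_div] at this
  linarith

/-- surjective additive maps `Q0 → Q0` are multiplications by units of `A` -/
lemma endo_surj (γ : Q0 →+ Q0) (hγ : Function.Surjective γ) :
    ∃ c : ℚ, c ≠ 0 ∧ c ∈ A ∧ c⁻¹ ∈ A ∧ ∀ x : Q0, (γ x : L) = C c * (x : L) := by
  set e : Q0 := ⟨C 2, two_mem0⟩ with he
  have hh : (C (1 / 2) * C 2 : L) = 1 := by
    rw [← map_mul, ← map_one (C : ℚ →+* L)]; norm_num
  have h1 : ∀ x : Q0, (γ x : L) = (C (1 / 2) * (γ e : L)) * (x : L) := by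
    intro x
    have := endo_mul γ x
    calc (γ x : L) = C (1 / 2) * (C 2 * (γ x : L)) := by rw [← mul_assoc, hh, one_mul]
      _ = _ := by rw [this]; ring
  obtain ⟨x0, hx0⟩ := hγ e
  have h2 : (C (1 / 2) * (γ e : L)) * (C (1 / 2) * (x0 : L)) = 1 := by
    have := h1 x0
    rw [hx0] at this
    calc _ = C (1 / 2) * ((C (1 / 2) * (γ e : L)) * (x0 : L)) := by ring
      _ = 1 := by rw [← this]; exact hh
  obtain ⟨c, k, hc, hck⟩ := unit_eq h2
  rw [hck] at h1
  have hinv : c⁻¹ ∈ A := by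
    obtain ⟨x, hx⟩ := hγ ⟨T 1, T_mem0 one_ne_zero⟩
    have h3 := h1 x
    rw [hx] at h3
    have h4 := congrArg (fun f : L => f.coeff 1) h3
    simp only [coeff_CT, T_apply, if_true] at h4
    have h5 : c⁻¹ = (x : L).coeff (1 - k) := by
      rw [inv_eq_iff_eq_inv]; exact eq_inv_of_mul_eq_one_left h4.symm
    rw [h5]; exact x.2.1.1 _
  have hk : k = 0 := by
    by_contra hk
    have h3 := (γ ⟨T (-k), T_mem0 (by omega)⟩).2.2
    rw [h1, coeff_CT] at h3
    simp only [T_apply, zero_sub, if_true, mul_one] at h3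
    apply half_not_mem
    have := A.mul_mem h3 hinv
    have h4 : c / 2 * c⁻¹ = 1 / 2 := by field_simp
    rwa [h4] at this
  rw [hk, T_zero, mul_one] at h1
  refine ⟨c, hc, ?_, hinv, h1⟩
  have h3 := (γ ⟨T 1, T_mem0 one_ne_zero⟩).2.1.1 1
  rw [h1, coeff_C] at h3
  simpa using h3

abbrev D : Type := ℚ ⧸ A.toAddSubgroup

def mk (r : ℚ) : D := QuotientAddGroup.mk r

lemma mk_add (r s : ℚ) : mk (r + s) = mk r + mk s := rfl
lemma mk_neg (r : ℚ) : mk (-r) = -mk r := rfl
lemma mk_zero : mk 0 = 0 := rfl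
lemma mk_eq_zero {r : ℚ} : mk r = 0 ↔ r ∈ A := QuotientAddGroup.eq_zero_iff r
lemma mk_surj (d : D) : ∃ r, mk r = d := QuotientAddGroup.mk_surjective d
lemma mk_nsmul (n : ℕ) (r : ℚ) : mk (n * r) = n • mk r := by
  rw [← nsmul_eq_mul]; rfl

@[ext] structure G where
  v : Q
  d : D

instance : Mul G := ⟨fun x y => ⟨x.v + y.v, x.d + y.d + mk (B x.v y.v)⟩⟩
instance : One G := ⟨⟨0, 0⟩⟩
instance : Inv G := ⟨fun x => ⟨-x.v, -x.d + mk (B x.v x.v)⟩⟩

@[simp] lemma mul_v (x y : G) : (x * y).v = x.v + y.v := rfl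
@[simp] lemma mul_d (x y : G) : (x * y).d = x.d + y.d + mk (B x.v y.v) := rfl
@[simp] lemma one_v : (1 : G).v = 0 := rfl
@[simp] lemma one_d : (1 : G).d = 0 := rfl
@[simp] lemma inv_v (x : G) : (x⁻¹).v = -x.v := rfl
@[simp] lemma inv_d (x : G) : (x⁻¹).d = -x.d + mk (B x.v x.v) := rfl

instance : Group G := Group.ofLeftAxioms
  (by
    intro x y z
    ext1
    · simp [add_assoc]
    · simp only [mul_d, mul_v, AddSubgroup.coe_add, B_add_left, B_add_right, mk_add]
      abel)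
  (by
    intro x
    ext1
    · simp
    · simp [B_zero_left, mk_zero])
  (by
    intro x
    ext1
    · simp
    · simp [B_neg_left, mk_neg])

def φ : G →* G where
  toFun x := ⟨⟨T 1 * (x.v : L), T_mul_mem 1 x.v.2⟩, x.d + x.d⟩
  map_one' := by
    ext1
    · apply Subtype.ext; simp
    · simp
  map_mul' x y := by
    ext1
    · apply Subtype.ext; simp [mul_add]
    · simp only [mul_d, B_shift, two_mul, mk_add]
      abel

lemma φ_surj : Function.Surjective φ := by
  rintro ⟨v, d⟩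
  obtain ⟨r, rfl⟩ := mk_surj d
  refine ⟨⟨⟨T (-1) * (v : L), T_mul_mem _ v.2⟩, mk (r / 2)⟩, ?_⟩
  ext1
  · apply Subtype.ext
    change (T 1 : L) * (T (-1) * (v : L)) = (v : L)
    rw [← mul_assoc, ← T_add]; simp
  · change mk (r / 2) + mk (r / 2) = mk r
    rw [← mk_add, add_halves]

lemma φ_not_inj : ¬ Function.Injective φ := by
  intro h
  have h1 : φ ⟨0, mk (1 / 2)⟩ = φ 1 := by
    rw [map_one]
    ext1
    · apply Subtype.ext
      change T 1 * ((0 : Q) : L) = _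
      simp
    · change mk (1 / 2) + mk (1 / 2) = 0
      rw [← mk_add, add_halves, mk_eq_zero]; exact A.one_mem
  have h2 := congrArg G.d (h h1)
  exact half_not_mem (mk_eq_zero.1 h2)

def H : Subgroup G where
  carrier := {x | (x.v : L) ∈ Q0}
  mul_mem' := fun hx hy => Q0.add_mem hx hy
  one_mem' := Q0.zero_mem
  inv_mem' := fun hx => Q0.neg_mem hx

lemma H_fin : H.FiniteIndex := by
  let g1 : G := ⟨⟨1, one_mem_Q⟩, 0⟩
  have : Finite (G ⧸ H) := by
    refine Finite.of_surjective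
      (fun b : Bool => (QuotientGroup.mk (if b then g1 else 1) : G ⧸ H)) ?_
    intro q
    obtain ⟨x, rfl⟩ := QuotientGroup.mk_surjective q
    rcases half_or (x.v.2.1 0) with h | h
    · refine ⟨false, ?_⟩
      simp only [Bool.false_eq_true, if_false]
      rw [QuotientGroup.eq]
      simp only [inv_one, one_mul]
      exact ⟨x.v.2, h⟩
    · refine ⟨true, ?_⟩
      simp only [if_true]
      rw [QuotientGroup.eq]
      refine ⟨(g1⁻¹ * x).v.2, ?_⟩
      have : ((g1⁻¹ * x).v : L).coeff 0 = (x.v : L).coeff 0 - 1 := by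
        simp only [mul_v, inv_v, g1, AddSubgroup.coe_add, AddSubgroup.coe_neg]
        rw [← T_zero]
        simp only [AddMonoidAlgebra.coeff_add, AddMonoidAlgebra.coeff_neg, Finsupp.add_apply,
          Finsupp.neg_apply, T_apply, if_true]
        ring
      rw [this]; exact h
  exact Subgroup.finiteIndex_of_finite_quotient

def iv (x : Q0) : H := ⟨⟨⟨x, x.2.1⟩, 0⟩, x.2⟩
def iz (d : D) : H := ⟨⟨0, d⟩, Q0.zero_mem⟩

lemma iz_add (d d' : D) : iz (d + d') = iz d * iz d' := by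
  apply Subtype.ext
  ext1
  · simp [iz]
  · simp [iz, B_zero_left, mk_zero]

lemma iv_mul (x y : Q0) : iv x * iv y = iv (x + y) * iz (mk (B x y)) := by
  apply Subtype.ext
  ext1
  · apply Subtype.ext; simp [iv, iz]
  · simp [iv, iz, B_zero_right, mk_zero]

lemma decomp (h : H) : h = iv ⟨h.1.v, h.2⟩ * iz h.1.d := by
  apply Subtype.ext
  ext1
  · apply Subtype.ext; simp [iv, iz]
  · simp [iv, iz, B_zero_right, mk_zero]

lemma pow_v (x : G) (n : ℕ) : (x ^ n).v = n • x.v := by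
  induction n with
  | zero => simp
  | succ n ih => rw [pow_succ, mul_v, ih, succ_nsmul]

theorem hopf (f : H →* H) (hf : Function.Surjective f) : Function.Injective f := by
  have iz0 : iz 0 = 1 := rfl
  have hpow : ∀ (d : D) (n : ℕ), iz (n • d) = iz d ^ n := by
    intro d n
    induction n with
    | zero => simp [iz0]
    | succ n ih => rw [succ_nsmul, iz_add, ih, pow_succ]
  have hz : ∀ d, (f (iz d)).1.v = 0 := by
    intro d
    obtain ⟨r, rfl⟩ := mk_surj d
    have h1 : r.den • mk r = 0 := by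
      rw [← mk_nsmul, mk_eq_zero, mul_comm, Rat.mul_den_eq_num]
      exact intCast_mem A _
    have h2 : (f (iz (mk r))) ^ r.den = 1 := by
      rw [← map_pow, ← hpow, h1, iz0, map_one]
    have h3 : r.den • (f (iz (mk r))).1.v = 0 := by
      rw [← pow_v, ← Subgroup.coe_pow, h2]; rfl
    apply Subtype.ext
    have h4 := congrArg Subtype.val h3
    simp only [AddSubmonoidClass.coe_nsmul, nsmul_eq_mul, ZeroMemClass.coe_zero] at h4
    rcases mul_eq_zero.1 h4 with h | h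
    · exfalso
      rw [← map_natCast (C : ℚ →+* L)] at h
      have := congrArg (fun g : L => g.coeff 0) h
      simp at this
    · exact h
  let γ : Q0 →+ Q0 := AddMonoidHom.mk' (fun x => ⟨(f (iv x)).1.v, (f (iv x)).2⟩) (by
    intro x y
    apply Subtype.ext
    have h1 := congrArg (fun h : H => (h.1.v : L)) (congrArg f (iv_mul x y))
    simp only [map_mul, Subgroup.coe_mul, mul_v, hz, add_zero, AddSubgroup.coe_add] at h1
    exact h1.symm)
  have hγ : ∀ x, (γ x : L) = (f (iv x)).1.v := fun x => rfl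
  have hv : ∀ h : H, ((f h).1.v : L) = γ ⟨h.1.v, h.2⟩ := by
    intro h
    conv_lhs => rw [decomp h]
    simp only [map_mul, Subgroup.coe_mul, mul_v, hz, add_zero, hγ]
  have hsurj : Function.Surjective γ := by
    intro y
    obtain ⟨h, hh⟩ := hf (iv y)
    refine ⟨⟨h.1.v, h.2⟩, Subtype.ext ?_⟩
    rw [← hv, hh]; rfl
  obtain ⟨c, hc0, hc, hc', hγc⟩ := endo_surj γ hsurj
  let π : D →+ D := AddMonoidHom.mk' (fun d => (f (iz d)).1.d) (by
    intro d d'
    simp only [iz_add, map_mul, Subgroup.coe_mul, mul_d, hz]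
    simp [B_zero_left, mk_zero])
  have hπ : ∀ d, π d = (f (iz d)).1.d := fun d => rfl
  have hhalf : π (mk (1 / 2)) ≠ 0 := by
    let x : Q0 := ⟨T (-2), T_mem0 (by decide)⟩
    let y : Q0 := ⟨T (-1), T_mem0 (by decide)⟩
    have hB : ∀ r : ℚ, B (C r * T (-2)) (C r * T (-1)) = r * r / 4 ∧
        B (C r * T (-1)) (C r * T (-2)) = 0 := by
      intro r
      rw [B_CT, B_CT, coeff_C, coeff_C]
      simp only [T_apply]
      norm_num
      ring
    have hB1 := hB 1
    simp only [map_one, one_mul] at hB1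
    have h1 : iv x * iv y = iv y * iv x * iz (mk (1 / 4)) := by
      rw [iv_mul, iv_mul, add_comm y x]
      change iv (x + y) * iz (mk (B (T (-2)) (T (-1)))) =
        iv (x + y) * iz (mk (B (T (-1)) (T (-2)))) * _
      rw [hB1.1, hB1.2, mk_zero, iz0, mul_one]
    have h2 := congrArg (fun h : H => h.1.d) (congrArg f h1)
    simp only [map_mul, Subgroup.coe_mul, mul_d, mul_v, hz, ← hγ, hγc, ← hπ] at h2
    have hx : (x : L) = T (-2) := rfl
    have hy : (y : L) = T (-1) := rfl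
    rw [hx, hy, (hB c).1, (hB c).2] at h2
    simp only [ZeroMemClass.coe_zero, B_zero_right, mk_zero, add_zero] at h2
    have h3 : π (mk (1 / 4)) = mk (c * c / 4) := by
      rw [add_comm (f (iv y)).1.d] at h2
      exact (add_left_cancel h2).symm
    have h4 : mk (1 / 2) = mk (1 / 4) + mk (1 / 4) := by rw [← mk_add]; norm_num
    rw [h4, map_add, h3, ← mk_add, Ne, mk_eq_zero]
    intro h5
    apply half_not_mem
    have := A.mul_mem (A.mul_mem h5 hc') hc'
    have h6 : (c * c / 4 + c * c / 4) * c⁻¹ * c⁻¹ = 1 / 2 := by field_simp; norm_num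
    rwa [h6] at this
  rw [injective_iff_map_eq_one]
  intro h hh
  have h1 : (h.1.v : L) = 0 := by
    have h2 := hv h
    rw [hh, hγc] at h2
    have h3 : (C c : L) ≠ 0 := by
      intro h0
      have := congrArg (fun g : L => g.coeff 0) h0
      simp at this
      exact hc0 this
    exact (mul_eq_zero.1 h2.symm).resolve_left h3
  have h2 : h = iz h.1.d := by
    apply Subtype.ext
    ext1
    · exact Subtype.ext h1
    · rfl
  have h3 : π h.1.d = 0 := by rw [hπ, ← h2, hh]; rfl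
  obtain ⟨r, hr⟩ := mk_surj h.1.d
  by_cases hrA : r ∈ A
  · rw [h2, ← hr, mk_eq_zero.2 hrA, iz0]
  · exfalso
    obtain ⟨m, hm⟩ := exists_half hrA
    apply hhalf
    have h4 : mk (1 / 2) = m • mk r := by
      rw [← mk_nsmul, ← sub_eq_zero, sub_eq_add_neg, ← mk_neg, ← mk_add, mk_eq_zero]
      have := A.neg_mem hm
      rwa [neg_sub, sub_eq_add_neg] at this
    rw [h4, map_nsmul, hr, h3, nsmul_zero]

end Pool.Agent.Lib.Helper21.Hopf
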