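import Mathlib

/-! Two homogeneous polynomials of degree seven in the plane that violate the proposed higher-dimensional
extension of the Hopf lemma. -/

set_option autoImplicit false

namespace Pool.Agent.Lib.Helper21.HopfLN

noncomputable section

def P (a b c d t y : ℝ) : ℝ := a * t * y ^ 6 + b * t ^ 3 * y ^ 4 + c * t ^ 5 * y ^ 2 + d * t ^ 7
def Pt (a b c d t y : ℝ) : ℝ := a * y ^ 6 + 3 * b * t ^ 2 * y ^ 4 + 5 * c * t ^ 4 * y ^ 2 + 7 * d * t ^ 6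
def Ptt (b c d t y : ℝ) : ℝ := 6 * b * t * y ^ 4 + 20 * c * t ^ 3 * y ^ 2 + 42 * d * t ^ 5
def Py (a b c t y : ℝ) : ℝ := 6 * a * t * y ^ 5 + 4 * b * t ^ 3 * y ^ 3 + 2 * c * t ^ 5 * y
def Pyy (a b c t y : ℝ) : ℝ := 30 * a * t * y ^ 4 + 12 * b * t ^ 3 * y ^ 2 + 2 * c * t ^ 5
def L (a b c d t y : ℝ) : ℝ :=
  (30 * a + 6 * b) * t * y ^ 4 + (12 * b + 20 * c) * t ^ 3 * y ^ 2 + (2 * c + 42 * d) * t ^ 5
def Lt (a b c d t y : ℝ) : ℝ :=
  (30 * a + 6 * b) * y ^ 4 + 3 * (12 * b + 20 * c) * t ^ 2 * y ^ 2 + 5 * (2 * c + 42 * d) * t ^ 4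

lemma mono (k : ℕ) (a e t : ℝ) : HasDerivAt (fun s : ℝ => a * s ^ k * e) (a * (k * t ^ (k - 1)) * e) t :=
  ((hasDerivAt_pow k t).const_mul a).mul_const e

lemma cv {f g : ℝ → ℝ} {a b t : ℝ} (h : HasDerivAt f a t) (e1 : g = f) (e2 : b = a) : HasDerivAt g b t := by
  rw [e1, e2]; exact h

lemma dP (a b c d t y : ℝ) : HasDerivAt (fun s => P a b c d s y) (Pt a b c d t y) t := by
  have := (((mono 1 a (y ^ 6) t).add (mono 3 b (y ^ 4) t)).add (mono 5 c (y ^ 2) t)).add (mono 7 d 1 t)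
  refine cv this ?_ ?_
  · funext s; simp [P]
  · simp [Pt]; ring

lemma dPt (a b c d t y : ℝ) : HasDerivAt (fun s => Pt a b c d s y) (Ptt b c d t y) t := by
  have := (((mono 0 a (y ^ 6) t).add (mono 2 (3 * b) (y ^ 4) t)).add (mono 4 (5 * c) (y ^ 2) t)).add
    (mono 6 (7 * d) 1 t)
  refine cv this ?_ ?_
  · funext s; simp [Pt]
  · simp [Ptt]; ring

lemma dPy (a b c d t y : ℝ) : HasDerivAt (fun z => P a b c d t z) (Py a b c t y) y := by
  have := (((mono 6 (a * t) 1 y).add (mono 4 (b * t ^ 3) 1 y)).add (mono 2 (c * t ^ 5) 1 y)).add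
    (mono 0 (d * t ^ 7) 1 y)
  refine cv this ?_ ?_
  · funext s; simp [P]
  · simp [Py]; ring

lemma dPyy (a b c t y : ℝ) : HasDerivAt (fun z => Py a b c t z) (Pyy a b c t y) y := by
  have := ((mono 5 (6 * a * t) 1 y).add (mono 3 (4 * b * t ^ 3) 1 y)).add (mono 1 (2 * c * t ^ 5) 1 y)
  refine cv this ?_ ?_
  · funext s; simp [Py]
  · simp [Pyy]; ring

lemma dL (a b c d t y : ℝ) : HasDerivAt (fun s => L a b c d s y) (Lt a b c d t y) t := by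
  have := ((mono 1 (30 * a + 6 * b) (y ^ 4) t).add (mono 3 (12 * b + 20 * c) (y ^ 2) t)).add
    (mono 5 (2 * c + 42 * d) 1 t)
  refine cv this ?_ ?_
  · funext s; simp [L]
  · simp [Lt]; ring

lemma lap (a b c d t y : ℝ) :
    iteratedDeriv 2 (fun s => P a b c d s y) t + iteratedDeriv 2 (fun z => P a b c d t z) y = L a b c d t y := by
  have e1 : deriv (fun s => P a b c d s y) = fun s => Pt a b c d s y := funext fun s => (dP a b c d s y).deriv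
  have e2 : deriv (fun z => P a b c d t z) = fun z => Py a b c t z := funext fun z => (dPy a b c d t z).deriv
  rw [iteratedDeriv_succ, iteratedDeriv_one, iteratedDeriv_succ, iteratedDeriv_one, e1, e2, (dPt a b c d t y).deriv,
    (dPyy a b c t y).deriv]
  unfold Ptt Pyy L
  ring

lemma cub {a b c d X Y : ℝ} (ha : 0 < a) (hd : 0 < d) (hX : 0 < X) (hY : 0 ≤ Y) (h : b ^ 2 ≤ 4 * a * c) :
    0 < a * Y ^ 3 + b * X * Y ^ 2 + c * X ^ 2 * Y + d * X ^ 3 := by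
  have h1 : 0 ≤ a * Y ^ 2 + b * X * Y + c * X ^ 2 := by
    have : 0 ≤ 4 * a * (a * Y ^ 2 + b * X * Y + c * X ^ 2) := by
      nlinarith [sq_nonneg (2 * a * Y + b * X), mul_nonneg (sub_nonneg.2 h) (sq_nonneg X)]
    exact nonneg_of_mul_nonneg_right this (by linarith) |> fun h => by nlinarith
  have h2 := mul_nonneg hY h1
  have h3 : 0 < d * X ^ 3 := by positivity
  nlinarith

lemma P_pos {a b c d t : ℝ} (y : ℝ) (ha : 0 < a) (hd : 0 < d) (ht : 0 < t) (h : b ^ 2 ≤ 4 * a * c) :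
    0 < P a b c d t y := by
  have := mul_pos ht (cub ha hd (pow_pos ht 2) (sq_nonneg y) h)
  unfold P
  nlinarith

lemma Pt_pos {a b c d t : ℝ} (y : ℝ) (ha : 0 < a) (hd : 0 < d) (ht : 0 < t) (h : (3 * b) ^ 2 ≤ 4 * a * (5 * c)) :
    0 < Pt a b c d t y := by
  have := cub (d := 7 * d) ha (by linarith) (pow_pos ht 2) (sq_nonneg y) h
  unfold Pt
  nlinarith

lemma Du {t : ℝ} (ht : 0 ≤ t) (y : ℝ) :
    0 ≤ P 50 (-7) 3 1 t y * Lt 40050 (-2007) 403 5 t y - Pt 40050 (-2007) 403 5 t y * L 50 (-7) 3 1 t y := by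
  have : P 50 (-7) 3 1 t y * Lt 40050 (-2007) 403 5 t y - Pt 40050 (-2007) 403 5 t y * L 50 (-7) 3 1 t y =
      4 * t * (849 / 400 * (t ^ 2 + 19 / 20 * y ^ 2) * ((316 * y ^ 4 - 389 * t ^ 2 * y ^ 2 + 20 * t ^ 4) ^ 2 +
        (156 * y ^ 4 - 57 * t ^ 2 * y ^ 2) ^ 2) + 4895589 / 250 * y ^ 10 + 10243227 / 500 * t ^ 2 * y ^ 8 +
        1748297 / 160 * t ^ 4 * y ^ 6 + 47657 / 100 * t ^ 6 * y ^ 4 + 831 / 20 * t ^ 8 * y ^ 2 + t ^ 10) := by
    unfold P Lt Pt L; ring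
  rw [this]; positivity

lemma Dv {t : ℝ} (ht : 0 ≤ t) (y : ℝ) :
    0 ≤ P 50 (-7) 3 1 t y * Lt 40000 (-2000) 400 4 t y - Pt 40000 (-2000) 400 4 t y * L 50 (-7) 3 1 t y := by
  have : P 50 (-7) 3 1 t y * Lt 40000 (-2000) 400 4 t y - Pt 40000 (-2000) 400 4 t y * L 50 (-7) 3 1 t y =
      4 * t * (873 / 400 * (t ^ 2 + 19 / 20 * y ^ 2) * ((295 * y ^ 4 - 379 * t ^ 2 * y ^ 2 + 20 * t ^ 4) ^ 2 +
        (182 * y ^ 4 - 91 * t ^ 2 * y ^ 2) ^ 2) + 167088537 / 8000 * y ^ 10 + 72322659 / 4000 * t ^ 2 * y ^ 8 +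
        45459413 / 4000 * t ^ 4 * y ^ 6 + 4331 / 10 * t ^ 6 * y ^ 4 + 1107 / 20 * t ^ 8 * y ^ 2 + t ^ 10) := by
    unfold P Lt Pt L; ring
  rw [this]; positivity

lemma P_mono {a b c d : ℝ} (y : ℝ) (ha : 0 < a) (hd : 0 < d) (h : (3 * b) ^ 2 ≤ 4 * a * (5 * c)) {s t : ℝ}
    (hs : 0 < s) (hst : s ≤ t) : P a b c d s y ≤ P a b c d t y := by
  rcases hst.eq_or_lt with rfl | hlt
  · exact le_rfl
  obtain ⟨ξ, hξ, e⟩ := exists_hasDerivAt_eq_slope (fun s => P a b c d s y) (fun s => Pt a b c d s y) hlt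
    (fun x _ => (dP a b c d x y).continuousAt.continuousWithinAt) (fun x _ => dP a b c d x y)
  have := Pt_pos y ha hd (hs.trans hξ.1) h
  rw [e, div_pos_iff_of_pos_right (by linarith)] at this
  linarith

theorem compare {t s y : ℝ} (ht : 0 < t) (hts : t ≤ s)
    (h : P 40050 (-2007) 403 5 t y = P 40000 (-2000) 400 4 s y) :
    L 40050 (-2007) 403 5 t y ≤ L 40000 (-2000) 400 4 s y := by
  have hψ : ∀ σ, 0 < σ → 0 < P 50 (-7) 3 1 σ y := fun σ hσ => P_pos y (by norm_num) (by norm_num) hσ (by norm_num)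
  have huv : ∀ σ, P 40050 (-2007) 403 5 σ y = P 40000 (-2000) 400 4 σ y + P 50 (-7) 3 1 σ y := by
    intro σ; unfold P; ring
  rcases hts.eq_or_lt with rfl | hlt
  · have := hψ t ht
    linarith [huv t]
  set c := P 40050 (-2007) 403 5 t y with hc
  let Φ : ℝ → ℝ := fun σ => L 40050 (-2007) 403 5 σ y -
    (P 40050 (-2007) 403 5 σ y - c) / P 50 (-7) 3 1 σ y * L 50 (-7) 3 1 σ y
  let Φ' : ℝ → ℝ := fun σ => Lt 40050 (-2007) 403 5 σ y -
    ((Pt 40050 (-2007) 403 5 σ y * P 50 (-7) 3 1 σ y - (P 40050 (-2007) 403 5 σ y - c) * Pt 50 (-7) 3 1 σ y) /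
      P 50 (-7) 3 1 σ y ^ 2 * L 50 (-7) 3 1 σ y +
      (P 40050 (-2007) 403 5 σ y - c) / P 50 (-7) 3 1 σ y * Lt 50 (-7) 3 1 σ y)
  have hd : ∀ σ, 0 < σ → HasDerivAt Φ (Φ' σ) σ := fun σ hσ =>
    (dL _ _ _ _ σ y).sub (((((dP _ _ _ _ σ y).sub_const c).div (dP _ _ _ _ σ y) (hψ σ hσ).ne')).mul (dL _ _ _ _ σ y))
  obtain ⟨ξ, hξ, e⟩ := exists_hasDerivAt_eq_slope Φ Φ' hlt
    (fun x hx => (hd x (ht.trans_le hx.1)).continuousAt.continuousWithinAt) (fun x hx => hd x (ht.trans hx.1))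
  have hξ0 : 0 < ξ := ht.trans hξ.1
  have hp := hψ ξ hξ0
  set ε := (P 40050 (-2007) 403 5 ξ y - c) / P 50 (-7) 3 1 ξ y with hε
  have e0 : 0 ≤ ε := div_nonneg (sub_nonneg.2
    (P_mono y (by norm_num) (by norm_num) (by norm_num) ht hξ.1.le)) hp.le
  have e1 : ε ≤ 1 := by
    rw [hε, div_le_one hp]
    have := P_mono (a := 40000) (b := -2000) (c := 400) (d := 4) y (by norm_num) (by norm_num) (by norm_num)
      hξ0 hξ.2.le
    linarith [huv ξ]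
  have key : Φ' ξ * P 50 (-7) 3 1 ξ y =
      (1 - ε) * (P 50 (-7) 3 1 ξ y * Lt 40050 (-2007) 403 5 ξ y - Pt 40050 (-2007) 403 5 ξ y * L 50 (-7) 3 1 ξ y) +
      ε * (P 50 (-7) 3 1 ξ y * Lt 40000 (-2000) 400 4 ξ y - Pt 40000 (-2000) 400 4 ξ y * L 50 (-7) 3 1 ξ y) := by
    have a1 : Lt 40000 (-2000) 400 4 ξ y = Lt 40050 (-2007) 403 5 ξ y - Lt 50 (-7) 3 1 ξ y := by unfold Lt; ring
    have a2 : Pt 40000 (-2000) 400 4 ξ y = Pt 40050 (-2007) 403 5 ξ y - Pt 50 (-7) 3 1 ξ y := by unfold Pt; ring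
    rw [a1, a2, hε]
    simp only [Φ']
    field_simp
    ring
  have hpos : 0 ≤ Φ' ξ := by
    have h1 := mul_nonneg (sub_nonneg.2 e1) (Du hξ0.le y)
    have h2 := mul_nonneg e0 (Dv hξ0.le y)
    exact nonneg_of_mul_nonneg_left (by rw [key]; linarith) hp
  rw [e, le_div_iff₀ (by linarith), zero_mul] at hpos
  have f1 : Φ t = L 40050 (-2007) 403 5 t y := by simp [Φ, hc]
  have f2 : Φ s = L 40000 (-2000) 400 4 s y := by
    simp only [Φ]
    rw [h, huv s, add_sub_cancel_left, div_self (hψ s (ht.trans hlt)).ne']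
    unfold L; ring
  linarith

lemma smooth (a b c d : ℝ) : ContDiff ℝ ⊤ fun p : ℝ × ℝ => P a b c d p.1 p.2 := by
  unfold P; fun_prop

lemma order (a b c : ℝ) {d : ℝ} (hd : d ≠ 0) : iteratedDeriv 7 (fun t => P a b c d t 0) 0 ≠ 0 := by
  have : (fun t => P a b c d t 0) = fun t : ℝ => d * t ^ 7 := by funext t; simp [P]
  rw [this, iteratedDeriv_const_mul_field, iteratedDeriv_pow]
  simp [hd, Nat.descFactorial]

theorem main : ∃ u v : ℝ × ℝ → ℝ, ContDiff ℝ ⊤ u ∧ ContDiff ℝ ⊤ v ∧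
    (∀ t y, 0 < t → v (t, y) < u (t, y)) ∧
    (∀ t y, 0 < t → 0 < u (t, y) ∧ 0 < v (t, y) ∧ 0 < deriv (fun s => u (s, y)) t) ∧
    (∀ y, u (0, y) = 0) ∧
    (∀ t s y, 0 < t → t ≤ s → u (t, y) = v (s, y) →
      iteratedDeriv 2 (fun r => u (r, y)) t + iteratedDeriv 2 (fun z => u (t, z)) y ≤
      iteratedDeriv 2 (fun r => v (r, y)) s + iteratedDeriv 2 (fun z => v (s, z)) y) ∧
    deriv (fun s => u (s, 0)) 0 = 0 ∧
    (u (0, 0) = 0 ∧ ∃ k, iteratedDeriv k (fun t => u (t, 0)) 0 ≠ 0) ∧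
    (v (0, 0) = 0 ∧ ∃ k, iteratedDeriv k (fun t => v (t, 0)) 0 ≠ 0) := by
  refine ⟨fun p => P 40050 (-2007) 403 5 p.1 p.2, fun p => P 40000 (-2000) 400 4 p.1 p.2, smooth _ _ _ _,
    smooth _ _ _ _, fun t y ht => ?_, fun t y ht => ⟨?_, ?_, ?_⟩, fun y => by simp [P], fun t s y ht hts h => ?_, ?_,
    ⟨by simp [P], 7, order _ _ _ (by norm_num)⟩, ⟨by simp [P], 7, order _ _ _ (by norm_num)⟩⟩
  · have := P_pos (a := 50) (b := -7) (c := 3) (d := 1) y (by norm_num) (by norm_num) ht (by norm_num)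
    simp only [P] at this ⊢
    linarith
  · exact P_pos y (by norm_num) (by norm_num) ht (by norm_num)
  · exact P_pos y (by norm_num) (by norm_num) ht (by norm_num)
  · rw [(dP _ _ _ _ t y).deriv]
    exact Pt_pos y (by norm_num) (by norm_num) ht (by norm_num)
  · rw [lap, lap]
    exact compare ht hts h
  · rw [(dP _ _ _ _ 0 0).deriv]
    simp [Pt]

end

end Pool.Agent.Lib.Helper21.HopfLN
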