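import Mathlib

/-! Sets `A` of integers with `|f(A)| > |g(A)|` for two inequivalent linear forms in `m` variables.
Modulo a large prime `p` we use a subset of `Mat_m(F_p) × F_p` made of rows and columns of matrices with a level
coordinate; `f` covers everything and `g` misses a proportion at least `1/(2p)`.  The Chinese remainder theorem and the
divergence of the sum of `1/p` finish the proof. -/

set_option autoImplicit false

namespace Pool.Agent.Lib.Helper21.LinForms

open Finset

lemma avoid {M κ : Type} [AddCommGroup M] (H : AddSubgroup M) (s : Finset κ) (f : κ → M →+ ℤ)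
    (h : ∀ i ∈ s, ∃ y ∈ H, f i y ≠ 0) : ∃ x ∈ H, ∀ i ∈ s, f i x ≠ 0 := by
  classical
  induction s using Finset.induction_on with
  | empty => exact ⟨0, H.zero_mem, by simp⟩
  | insert j s hj ih =>
    obtain ⟨x, hxH, hx⟩ := ih fun i hi => h i (mem_insert_of_mem hi)
    obtain ⟨y, hyH, hy⟩ := h j (mem_insert_self _ _)
    let t : ℤ := 1 + ∑ i ∈ insert j s, |f i x|
    have ht : ∀ i ∈ insert j s, |f i x| < t := by
      intro i hi
      have := single_le_sum (f := fun i => |f i x|) (fun _ _ => abs_nonneg _) hi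
      simp only [t]; omega
    refine ⟨x + t • y, H.add_mem hxH (H.zsmul_mem hyH t), fun i hi => ?_⟩
    rw [map_add, map_zsmul, smul_eq_mul]
    by_cases h0 : f i y = 0
    · rw [h0, mul_zero, add_zero]
      rcases mem_insert.1 hi with rfl | hi'
      · exact absurd h0 hy
      · exact hx i hi'
    · intro he
      have h1 := ht i hi
      have h2 : f i x = -(t * f i y) := by linarith
      have h3 : 1 ≤ |f i y| := Int.one_le_abs h0
      have h4 : 0 ≤ t := le_trans (abs_nonneg _) h1.le
      rw [h2, abs_neg, abs_mul, abs_of_nonneg h4] at h1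
      nlinarith

abbrev I (m : ℕ) := Option (Fin m × Fin m)

def InR {m : ℕ} {K : Type} [CommRing K] (i0 : Fin m) (c : Fin m → ℤ) (x : I m → K) : Prop :=
  (∃ i, (∀ a b, a ≠ i → x (some (a, b)) = 0) ∧ (i = i0 → x none ≠ 0) ∧ (i ≠ i0 → x none = 0)) ∨
  (∃ j, (∀ a b, b ≠ j → x (some (a, b)) = 0) ∧ x none = (c j : K))

lemma cover {m : ℕ} {K : Type} [Field K] (i0 : Fin m) (c u : Fin m → ℤ) (hu : ∀ i, (u i : K) ≠ 0)
    (hc : ∑ i, u i * c i = 0) (z : I m → K) :
    ∃ x : Fin m → I m → K, (∀ k, InR i0 c (x k)) ∧ ∀ t, ∑ k, (u k : K) * x k t = z t := by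
  classical
  by_cases hz : z none = 0
  · refine ⟨fun k t => match t with
      | none => (c k : K)
      | some (a, b) => if b = k then z (some (a, b)) / u k else 0, fun k => Or.inr ⟨k, ?_, rfl⟩, ?_⟩
    · intro a b hb
      simp [hb]
    · rintro (_ | ⟨a, b⟩)
      · rw [hz]
        have := congrArg (Int.cast : ℤ → K) hc
        push_cast at this
        exact this
      · simp only [mul_ite, mul_zero, sum_ite_eq, mem_univ, if_true]
        field_simp [hu b]
  · refine ⟨fun k t => match t with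
      | none => if k = i0 then z none / u k else 0
      | some (a, b) => if a = k then z (some (a, b)) / u k else 0, fun k => Or.inl ⟨k, ?_, ?_, ?_⟩, ?_⟩
    · intro a b hb
      simp [hb]
    · intro hk
      simp only [if_pos hk]
      exact div_ne_zero hz (hu k)
    · intro hk
      simp only [if_neg hk]
    · rintro (_ | ⟨a, b⟩)
      · simp only [mul_ite, mul_zero, sum_ite_eq', mem_univ, if_true]
        field_simp [hu i0]
      · simp only [mul_ite, mul_zero, sum_ite_eq, mem_univ, if_true]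
        field_simp [hu a]

lemma perm_of {m : ℕ} {β : Type} (π : Fin m → β) (g : Fin m → β) (hg : Function.Injective g)
    (h : ∀ a, ∃ k, π k = g a) : ∃ σ : Equiv.Perm (Fin m), ∀ k, π k = g (σ k) := by
  choose ρ hρ using h
  have hi : Function.Injective ρ := fun a b e => hg (by rw [← hρ, ← hρ, e])
  let e := Equiv.ofBijective ρ (Finite.injective_iff_bijective.1 hi)
  refine ⟨e.symm, fun k => ?_⟩
  rw [← hρ]
  congr 1
  exact (e.apply_symm_apply k).symm

lemma miss {m : ℕ} {K : Type} [Field K] (i0 : Fin m) (c v : Fin m → ℤ) (hv : ∀ i, (v i : K) ≠ 0)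
    (hc : ∀ σ : Equiv.Perm (Fin m), ((∑ i, v i * c (σ i) : ℤ) : K) ≠ 0)
    (x : Fin m → I m → K) (hx : ∀ k, InR i0 c (x k))
    (hz : ∀ t, ∑ k, (v k : K) * x k (some t) ≠ 0) : ∑ k, (v k : K) * x k none ≠ 0 := by
  classical
  have hx' : ∀ k, ∃ π : Fin m ⊕ Fin m,
      (∀ i, π = Sum.inl i → (∀ a b, a ≠ i → x k (some (a, b)) = 0) ∧ (i = i0 → x k none ≠ 0) ∧
        (i ≠ i0 → x k none = 0)) ∧
      (∀ j, π = Sum.inr j → (∀ a b, b ≠ j → x k (some (a, b)) = 0) ∧ x k none = (c j : K)) := by
    intro k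
    rcases hx k with ⟨i, hi⟩ | ⟨j, hj⟩
    · exact ⟨Sum.inl i, fun i' e => (by cases e; exact hi), fun j e => (by cases e)⟩
    · exact ⟨Sum.inr j, fun i' e => (by cases e), fun j' e => (by cases e; exact hj)⟩
  choose π h1 h2 using hx'
  have key : (∀ a, ∃ k, π k = Sum.inl a) ∨ (∀ b, ∃ k, π k = Sum.inr b) := by
    by_contra hcon
    push Not at hcon
    obtain ⟨⟨a, ha⟩, ⟨b, hb⟩⟩ := hcon
    apply hz (a, b)
    refine sum_eq_zero fun k _ => ?_
    rcases hk : π k with i | j
    · rw [(h1 k i hk).1 a b (fun e => ha k (by rw [hk, e])), mul_zero]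
    · rw [(h2 k j hk).1 a b (fun e => hb k (by rw [hk, e])), mul_zero]
  rcases key with key | key
  · obtain ⟨σ, hσ⟩ := perm_of π Sum.inl Sum.inl_injective key
    rw [sum_eq_single (σ.symm i0)]
    · exact mul_ne_zero (hv _) ((h1 _ _ (hσ _)).2.1 (by simp))
    · intro k _ hk
      rw [(h1 _ _ (hσ k)).2.2 (fun e => hk (by rw [← e]; simp)), mul_zero]
    · simp
  · obtain ⟨σ, hσ⟩ := perm_of π Sum.inr Sum.inr_injective key
    have := hc σ
    push_cast at this
    rwa [sum_congr rfl fun k _ => by rw [(h2 _ _ (hσ k)).2]]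

lemma exists_c {m : ℕ} (u v : Fin m → ℤ) (hu : ∀ i, u i ≠ 0) (i0 : Fin m)
    (gu : Finset.univ.gcd u = 1) (gv : Finset.univ.gcd v = 1)
    (h : ¬ ∃ σ : Equiv.Perm (Fin m), (∀ i, v i = u (σ i)) ∨ (∀ i, v i = -u (σ i))) :
    ∃ c : Fin m → ℤ, ∑ i, u i * c i = 0 ∧ ∀ σ : Equiv.Perm (Fin m), ∑ i, v i * c (σ i) ≠ 0 := by
  classical
  let F : (Fin m → ℤ) → Equiv.Perm (Fin m) → (Fin m → ℤ) →+ ℤ := fun w σ =>
    { toFun := fun c => ∑ i, w i * c (σ i)
      map_zero' := by simp
      map_add' := fun a b => by simp [mul_add, sum_add_distrib] }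
  obtain ⟨c, hc, hc2⟩ := avoid (F u 1).ker univ (F v) (by
    intro σ _
    by_contra hcon
    push Not at hcon
    have key : ∀ j, v j * u i0 = v (σ.symm i0) * u (σ j) := by
      intro j
      have := hcon (Pi.single (σ j) (u i0) - Pi.single i0 (u (σ j))) (by
        rw [AddMonoidHom.mem_ker]
        simp [F, mul_sub, sum_sub_distrib, Pi.single_apply, mul_comm])
      simp only [F, AddMonoidHom.coe_mk, ZeroHom.coe_mk, Pi.sub_apply, mul_sub, sum_sub_distrib, Pi.single_apply,
        mul_ite, mul_zero, EmbeddingLike.apply_eq_iff_eq, sum_ite_eq', mem_univ, if_true] at this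
      simp only [← Equiv.eq_symm_apply, sum_ite_eq', mem_univ, if_true] at this
      linarith
    have d1 : u i0 ∣ v (σ.symm i0) := by
      have h1 : u i0 ∣ Finset.univ.gcd fun i => v (σ.symm i0) * u i := by
        refine Finset.dvd_gcd fun i _ => ?_
        have := key (σ.symm i)
        rw [Equiv.apply_symm_apply] at this
        rw [← this]
        exact Dvd.intro_left _ rfl
      have := h1.trans (Finset.gcd_mul_left' (s := univ) (f := u) (v (σ.symm i0))).dvd
      rwa [gu, mul_one] at this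
    have d2 : v (σ.symm i0) ∣ u i0 := by
      have h1 : v (σ.symm i0) ∣ Finset.univ.gcd fun i => u i0 * v i := by
        refine Finset.dvd_gcd fun i _ => ?_
        rw [mul_comm, key i]
        exact Dvd.intro _ rfl
      have := h1.trans (Finset.gcd_mul_left' (s := univ) (f := v) (u i0)).dvd
      rwa [gv, mul_one] at this
    apply h
    refine ⟨σ, ?_⟩
    rcases Int.associated_iff.1 (associated_of_dvd_dvd d2 d1) with e | e
    · left
      intro j
      have := key j
      rw [e, mul_comm] at this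
      exact mul_left_cancel₀ (hu i0) this
    · right
      intro j
      have := key j
      rw [e, mul_comm, neg_mul_comm] at this
      exact mul_left_cancel₀ (hu i0) this)
  exact ⟨c, by simpa [F] using hc, fun σ => hc2 σ (mem_univ _)⟩

lemma exists_primes (B : ℕ) (L : ℝ) : ∃ S : Finset ℕ, (∀ p ∈ S, p.Prime ∧ B < p) ∧ L < ∑ p ∈ S, (1 : ℝ) / p := by
  classical
  have h := (not_summable_iff_tendsto_nat_atTop_of_nonneg
    (fun n => Set.indicator_nonneg (fun p _ => by positivity) n)).1 not_summable_one_div_on_primes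
  obtain ⟨N, hN⟩ := (h.eventually_gt_atTop (L + (B + 1))).exists
  refine ⟨(range N).filter fun p => p.Prime ∧ B < p, fun p hp => (mem_filter.1 hp).2, ?_⟩
  have : ∑ i ∈ range N, Set.indicator {p | p.Prime} (fun n : ℕ => (1 : ℝ) / n) i ≤
      ∑ i ∈ range N, ((if i.Prime ∧ B < i then (1 : ℝ) / i else 0) + (if i < B + 1 then 1 else 0)) := by
    refine sum_le_sum fun i _ => ?_
    by_cases hp : i.Prime
    · rw [Set.indicator_of_mem (by exact hp)]
      by_cases hB : B < i
      · rw [if_pos ⟨hp, hB⟩, if_neg (by omega), add_zero]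
      · rw [if_neg (by tauto), if_pos (by omega), zero_add]
        rw [div_le_one (by exact_mod_cast hp.pos)]
        exact_mod_cast hp.pos
    · rw [Set.indicator_of_notMem (by exact hp)]
      positivity
  rw [sum_add_distrib, ← sum_filter, ← sum_filter] at this
  have h2 : ∑ i ∈ (range N).filter (fun i => i < B + 1), (1 : ℝ) ≤ B + 1 := by
    rw [sum_const, nsmul_eq_mul, mul_one]
    have : ((range N).filter (fun i => i < B + 1)).card ≤ (range (B + 1)).card :=
      card_le_card fun i hi => mem_range.2 (mem_filter.1 hi).2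
    rw [card_range] at this
    exact_mod_cast this
  linarith

open Classical in
noncomputable def Good (m p : ℕ) [NeZero p] : Finset (I m → ZMod p) :=
  univ.filter fun z => (∀ t, z (some t) ≠ 0) → z none ≠ 0

lemma card_good (m p : ℕ) [Fact p.Prime] (hp : 2 * m ^ 2 < p) :
    ((Good m p).card : ℝ) ≤ (p : ℝ) ^ (m ^ 2 + 1) * Real.exp (-(1 / p) / 2) := by
  classical
  have hp0 : (0 : ℝ) < p := by exact_mod_cast (Fact.out : p.Prime).pos
  have h1 : (Good m p).card + (p - 1) ^ (m ^ 2) ≤ p ^ (m ^ 2 + 1) := by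
    let Bd : Finset (I m → ZMod p) := Fintype.piFinset fun t => match t with
      | none => {0}
      | some _ => univ.erase 0
    have hB : Bd.card = (p - 1) ^ (m ^ 2) := by
      simp [Bd, Fintype.card_piFinset, Fintype.prod_option, sq, ZMod.card]
    have hd : Disjoint (Good m p) Bd := by
      rw [Finset.disjoint_left]
      intro z hz hb
      simp only [Good, mem_filter, mem_univ, true_and] at hz
      simp only [Bd, Fintype.mem_piFinset] at hb
      refine hz (fun t => ?_) (by simpa using hb none)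
      simpa using hb (some t)
    rw [← hB, ← card_union_of_disjoint hd]
    refine (card_le_univ _).trans ?_
    simp [ZMod.card, sq]
  have h2 : ((Good m p).card : ℝ) + ((p : ℝ) - 1) ^ (m ^ 2) ≤ (p : ℝ) ^ (m ^ 2 + 1) := by
    have := (Nat.cast_le (α := ℝ)).2 h1
    push_cast [Nat.cast_sub (Fact.out : p.Prime).pos] at this
    exact this
  have h3 : (p : ℝ) ^ (m ^ 2) / 2 ≤ ((p : ℝ) - 1) ^ (m ^ 2) := by
    have hb := one_add_mul_le_pow (a := -(1 / p : ℝ)) (by
      have : (1 : ℝ) / p ≤ 1 := by rw [div_le_one hp0]; exact_mod_cast (Fact.out : p.Prime).pos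
      linarith) (m ^ 2)
    have e : ((p : ℝ) - 1) = p * (1 + -(1 / p)) := by field_simp; ring
    rw [e, mul_pow]
    have h4 : (1 : ℝ) / 2 ≤ 1 + ((m ^ 2 : ℕ) : ℝ) * -(1 / p) := by
      have : ((2 * m ^ 2 : ℕ) : ℝ) < p := by exact_mod_cast hp
      have h5 : ((m ^ 2 : ℕ) : ℝ) * (1 / p) ≤ 1 / 2 := by
        rw [mul_one_div, div_le_iff₀ hp0]; push_cast at this ⊢; linarith
      linarith
    have := mul_le_mul_of_nonneg_left (h4.trans hb) (pow_pos hp0 (m ^ 2)).le
    linarith
  have h5 := Real.add_one_le_exp (-(1 / (p : ℝ)) / 2)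
  have h6 := mul_le_mul_of_nonneg_left h5 (pow_pos hp0 (m ^ 2 + 1)).le
  have e : (p : ℝ) ^ (m ^ 2 + 1) * (-(1 / p) / 2 + 1) = (p : ℝ) ^ (m ^ 2 + 1) - (p : ℝ) ^ (m ^ 2) / 2 := by
    field_simp; ring
  linarith

theorem vec {m : ℕ} (i0 : Fin m) (u v : Fin m → ℤ) (hu : ∀ i, u i ≠ 0) (hv : ∀ i, v i ≠ 0)
    (c : Fin m → ℤ) (hc : ∑ i, u i * c i = 0) (hc2 : ∀ σ : Equiv.Perm (Fin m), ∑ i, v i * c (σ i) ≠ 0) :
    ∃ A : Finset (I m → ℤ),
      ((Fintype.piFinset fun _ : Fin m => A).image (fun a t => ∑ k, v k * a k t)).card <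
      ((Fintype.piFinset fun _ : Fin m => A).image (fun a t => ∑ k, u k * a k t)).card := by
  classical
  let V : ℕ := ∑ k, (v k).natAbs
  let B : ℕ := 2 * m ^ 2 + ∑ k, (u k).natAbs + V + ∑ σ : Equiv.Perm (Fin m), (∑ i, v i * c (σ i)).natAbs
  obtain ⟨S, hS, hL⟩ := exists_primes B (2 * ((m ^ 2 + 1 : ℕ) * Real.log (2 * V + 1)))
  have inst : ∀ p : S, Fact (p : ℕ).Prime := fun p => ⟨(hS p p.2).1⟩
  have hne : ∀ (p : S) (x : ℤ), x ≠ 0 → x.natAbs ≤ B → (x : ZMod p) ≠ 0 := by
    intro p x hx hB h0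
    rw [ZMod.intCast_zmod_eq_zero_iff_dvd] at h0
    have := Nat.le_of_dvd (Int.natAbs_pos.2 hx) (Int.natCast_dvd.1 h0)
    have := (hS p p.2).2
    omega
  have hu' : ∀ (p : S) i, (u i : ZMod p) ≠ 0 := fun p i => hne p _ (hu i) (by
    have := single_le_sum (f := fun k => (u k).natAbs) (fun _ _ => Nat.zero_le _) (mem_univ i)
    omega)
  have hv' : ∀ (p : S) i, (v i : ZMod p) ≠ 0 := fun p i => hne p _ (hv i) (by
    have := single_le_sum (f := fun k => (v k).natAbs) (fun _ _ => Nat.zero_le _) (mem_univ i)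
    omega)
  have hc' : ∀ (p : S) (σ : Equiv.Perm (Fin m)), ((∑ i, v i * c (σ i) : ℤ) : ZMod p) ≠ 0 :=
    fun p σ => hne p _ (hc2 σ) (by
      have := single_le_sum (f := fun σ : Equiv.Perm (Fin m) => (∑ i, v i * c (σ i)).natAbs)
        (fun _ _ => Nat.zero_le _) (mem_univ σ)
      omega)
  let M : ℕ := ∏ p : S, (p : ℕ)
  have hM : 0 < M := prod_pos fun p _ => (hS p p.2).1.pos
  have : NeZero M := ⟨hM.ne'⟩
  let e : ZMod M ≃+* Π p : S, ZMod p := ZMod.prodEquivPi (fun p : S => (p : ℕ)) (fun p q hpq =>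
    (Nat.coprime_primes (hS p p.2).1 (hS q q.2).1).2 fun h => hpq (Subtype.ext h))
  have he : ∀ (x : ℤ) (p : S), e x p = (x : ZMod p) := fun x p => by rw [map_intCast]; rfl
  let A : Finset (I m → ℤ) := (Fintype.piFinset fun _ => Finset.Ico (0 : ℤ) M).filter
    fun a => ∀ p : S, InR i0 c fun t => (a t : ZMod p)
  refine ⟨A, ?_⟩
  have low : M ^ (m ^ 2 + 1) ≤
      ((Fintype.piFinset fun _ : Fin m => A).image (fun a t => ∑ k, u k * a k t)).card := by
    have hcard : (univ : Finset (I m → ZMod M)).card = M ^ (m ^ 2 + 1) := by simp [ZMod.card, sq]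
    rw [← hcard]
    refine card_le_card_of_surjOn (fun z t => (z t : ZMod M)) ?_
    intro z _
    choose x hx1 hx2 using fun p : S => cover i0 c u (hu' p) hc (fun t => e (z t) p)
    let a : Fin m → I m → ℤ := fun k t => ((e.symm fun p => x p k t).val : ℤ)
    have ha : ∀ k t (p : S), (a k t : ZMod p) = x p k t := by
      intro k t p
      rw [← he]
      simp [a]
    refine ⟨fun t => ∑ k, u k * a k t, ?_, ?_⟩
    · rw [mem_coe, mem_image]
      refine ⟨a, ?_, rfl⟩
      rw [Fintype.mem_piFinset]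
      intro k
      rw [mem_filter, Fintype.mem_piFinset]
      refine ⟨fun t => mem_Ico.2 ⟨Int.natCast_nonneg _, by simp only [a]; exact_mod_cast ZMod.val_lt _⟩, fun p => ?_⟩
      simp only [ha]
      exact hx1 p k
    · funext t
      apply e.injective
      funext p
      rw [he, ← hx2 p t]
      push_cast
      simp only [ha]
  have up : ((Fintype.piFinset fun _ : Fin m => A).image (fun a t => ∑ k, v k * a k t)).card ≤
      (∏ p : S, (Good m p).card) * (2 * V + 1) ^ (m ^ 2 + 1) := by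
    have hcard : ((Fintype.piFinset fun p : S => Good m p) ×ˢ
        (Fintype.piFinset fun _ : I m => Finset.Icc (-(V : ℤ)) V)).card =
        (∏ p : S, (Good m p).card) * (2 * V + 1) ^ (m ^ 2 + 1) := by
      rw [card_product, Fintype.card_piFinset, Fintype.card_piFinset]
      simp only [Int.card_Icc, prod_const, card_univ, Fintype.card_option, Fintype.card_prod, Fintype.card_fin]
      congr 2
      · omega
      · ring
    rw [← hcard]
    refine card_le_card_of_injOn (fun z => (fun p t => (z t : ZMod p), fun t => z t / M)) ?_ ?_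
    · intro z hz
      rw [mem_coe, mem_image] at hz
      obtain ⟨a, ha, rfl⟩ := hz
      rw [Fintype.mem_piFinset] at ha
      simp only [A, mem_filter, Fintype.mem_piFinset, mem_Ico] at ha
      rw [mem_coe, mem_product, Fintype.mem_piFinset, Fintype.mem_piFinset]
      refine ⟨fun p => ?_, fun t => ?_⟩
      · simp only [Good, mem_filter, mem_univ, true_and]
        push_cast
        exact miss i0 c v (hv' p) (hc' p) (fun k t => (a k t : ZMod p)) (fun k => (ha k).2 p)
      · have hb : |∑ k, v k * a k t| ≤ V * M := by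
          refine (abs_sum_le_sum_abs _ _).trans ?_
          simp only [V]
          push_cast
          rw [sum_mul]
          refine sum_le_sum fun k _ => ?_
          rw [abs_mul]
          refine mul_le_mul_of_nonneg_left ?_ (abs_nonneg _)
          rw [abs_of_nonneg ((ha k).1 t).1]
          exact ((ha k).1 t).2.le
        have hM' : (0 : ℤ) < M := by exact_mod_cast hM
        rw [abs_le] at hb
        rw [mem_Icc]
        constructor
        · rw [Int.le_ediv_iff_mul_le hM']; linarith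
        · exact Int.ediv_le_of_le_mul hM' hb.2
    · intro z _ z' _ h
      simp only [Prod.mk.injEq] at h
      funext t
      have h1 : (z t : ZMod M) = (z' t : ZMod M) := by
        apply e.injective
        funext p
        rw [he, he]
        exact congrFun (congrFun h.1 p) t
      rw [ZMod.intCast_eq_intCast_iff'] at h1
      have h2 : z t / M = z' t / M := congrFun h.2 t
      rw [← Int.emod_add_mul_ediv (z t) M, ← Int.emod_add_mul_ediv (z' t) M, h1, h2]
  refine lt_of_le_of_lt up (lt_of_lt_of_le ?_ low)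
  have h1 : ((∏ p : S, (Good m p).card : ℕ) : ℝ) ≤ (M : ℝ) ^ (m ^ 2 + 1) * Real.exp (-(∑ p ∈ S, (1 : ℝ) / p) / 2) := by
    push_cast
    refine (prod_le_prod (fun _ _ => Nat.cast_nonneg _)
      (fun (p : S) _ => card_good m p (by have := (hS p p.2).2; omega))).trans (le_of_eq ?_)
    rw [prod_mul_distrib, prod_pow, ← Real.exp_sum]
    congr 2
    · simp [M]
    · rw [← sum_div, sum_neg_distrib, sum_coe_sort S fun p => (1 : ℝ) / p]
  have h2 : Real.exp (-(∑ p ∈ S, (1 : ℝ) / p) / 2) * (2 * V + 1 : ℝ) ^ (m ^ 2 + 1) < 1 := by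
    have hV : (0 : ℝ) < 2 * V + 1 := by positivity
    rw [← Real.exp_log (pow_pos hV (m ^ 2 + 1)), ← Real.exp_add, Real.log_pow, Real.exp_lt_one_iff]
    linarith
  have h3 : (0 : ℝ) < (M : ℝ) ^ (m ^ 2 + 1) := by positivity
  have : (((∏ p : S, (Good m p).card) * (2 * V + 1) ^ (m ^ 2 + 1) : ℕ) : ℝ) < ((M ^ (m ^ 2 + 1) : ℕ) : ℝ) := by
    rw [Nat.cast_mul]
    push_cast at h1 ⊢
    have h4 := mul_le_mul_of_nonneg_right h1 (by positivity : (0 : ℝ) ≤ (2 * V + 1 : ℝ) ^ (m ^ 2 + 1))
    nlinarith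
  exact_mod_cast this

theorem main {m : ℕ} (i0 : Fin m) (u v : Fin m → ℤ) (hu : ∀ i, u i ≠ 0) (hv : ∀ i, v i ≠ 0)
    (gu : Finset.univ.gcd u = 1) (gv : Finset.univ.gcd v = 1)
    (h : ¬ ∃ σ : Equiv.Perm (Fin m), (∀ i, v i = u (σ i)) ∨ (∀ i, v i = -u (σ i))) :
    ∃ A : Finset ℤ,
      ((Fintype.piFinset fun _ : Fin m => A).image (fun a : Fin m → ℤ => ∑ i, v i * a i)).card <
      ((Fintype.piFinset fun _ : Fin m => A).image (fun a : Fin m → ℤ => ∑ i, u i * a i)).card := by
  classical
  obtain ⟨c, hc, hc2⟩ := exists_c u v hu i0 gu gv h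
  obtain ⟨A, hA⟩ := vec i0 u v hu hv c hc hc2
  set Fu := (Fintype.piFinset fun _ : Fin m => A).image (fun a t => ∑ k, u k * a k t) with hFu
  let F : (I m → ℤ) × (I m → ℤ) → (I m → ℤ) →+ ℤ := fun z =>
    { toFun := fun w => ∑ t, w t * (z.1 t - z.2 t)
      map_zero' := by simp
      map_add' := fun a b => by simp [add_mul, sum_add_distrib] }
  obtain ⟨w, -, hw⟩ := avoid ⊤ Fu.offDiag F (by
    intro z hz
    obtain ⟨t, ht⟩ := Function.ne_iff.1 (mem_offDiag.1 hz).2.2
    exact ⟨Pi.single t 1, trivial, by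
      simp only [F, AddMonoidHom.coe_mk, ZeroHom.coe_mk, Pi.single_apply, ite_mul, one_mul, zero_mul, sum_ite_eq',
        mem_univ, if_true]
      exact sub_ne_zero.2 ht⟩)
  let l : (I m → ℤ) → ℤ := fun z => ∑ t, w t * z t
  have key : ∀ y : Fin m → ℤ,
      (Fintype.piFinset fun _ : Fin m => A.image l).image (fun a : Fin m → ℤ => ∑ i, y i * a i) =
      ((Fintype.piFinset fun _ : Fin m => A).image (fun a t => ∑ k, y k * a k t)).image l := by
    intro y
    have hl : ∀ a : Fin m → I m → ℤ, l (fun t => ∑ k, y k * a k t) = ∑ i, y i * l (a i) := by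
      intro a
      simp only [l, mul_sum]
      rw [sum_comm]
      refine sum_congr rfl fun _ _ => sum_congr rfl fun _ _ => by ring
    ext n
    simp only [mem_image, Fintype.mem_piFinset]
    constructor
    · rintro ⟨b, hb, rfl⟩
      choose a ha1 ha2 using hb
      exact ⟨_, ⟨a, ha1, rfl⟩, by rw [hl]; simp only [ha2]⟩
    · rintro ⟨_, ⟨a, ha, rfl⟩, rfl⟩
      exact ⟨fun i => l (a i), fun i => ⟨_, ha i, rfl⟩, (hl a).symm⟩
  refine ⟨A.image l, ?_⟩
  rw [key, key, ← hFu, card_image_of_injOn (s := Fu)]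
  · exact lt_of_le_of_lt card_image_le hA
  · intro z hz z' hz' he
    by_contra hne
    apply hw (z, z') (mem_offDiag.2 ⟨hz, hz', hne⟩)
    simp only [F, AddMonoidHom.coe_mk, ZeroHom.coe_mk, mul_sub, sum_sub_distrib]
    exact sub_eq_zero.2 he

end Pool.Agent.Lib.Helper21.LinForms
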