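import Mathlib

/-! A bounded logarithmic bump in the plane with a singular maximum, and integration by parts along lines. -/

set_option autoImplicit false

namespace Pool.Agent.Lib.Helper21.LogBump

open MeasureTheory Set Real Filter Topology

noncomputable section

lemma cv {f : ℝ → ℝ} {a b x : ℝ} (hf : HasDerivAt f a x) (e : a = b) : HasDerivAt f b x := e ▸ hf

lemma glue {f g f' g' : ℝ → ℝ} (hf : ∀ t, HasDerivAt f (f' t) t) (hg : ∀ t, HasDerivAt g (g' t) t) (e : f 1 = g 1)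
    (e' : f' 1 = g' 1) (t : ℝ) :
    HasDerivAt (fun s => if s ≤ 1 then f s else g s) (if t ≤ 1 then f' t else g' t) t := by
  rcases lt_trichotomy t 1 with h | rfl | h
  · rw [if_pos h.le]
    refine (hf t).congr_of_eventuallyEq ?_
    filter_upwards [Iio_mem_nhds h] with s hs using if_pos (le_of_lt hs)
  · rw [if_pos le_rfl, ← hasDerivWithinAt_univ, ← Iic_union_Ici (a := (1 : ℝ))]
    refine HasDerivWithinAt.union ((hf 1).hasDerivWithinAt.congr (fun s hs => if_pos (mem_Iic.1 hs)) (if_pos le_rfl)) ?_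
    rw [e']
    refine (hg 1).hasDerivWithinAt.congr (fun s hs => ?_) (by rw [if_pos le_rfl, e])
    rcases (mem_Ici.1 hs).eq_or_lt with rfl | hs
    · rw [if_pos le_rfl, e]
    · exact if_neg (not_le.2 hs)
  · rw [if_neg (not_le.2 h)]
    refine (hg t).congr_of_eventuallyEq ?_
    filter_upwards [Ioi_mem_nhds h] with s hs using if_neg (not_le.2 hs)

def F (t : ℝ) : ℝ := if t ≤ 1 then t else 1 + arctan (t - 1)
def m (t : ℝ) : ℝ := if t ≤ 1 then 1 else (1 + (t - 1) ^ 2)⁻¹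
def n (t : ℝ) : ℝ := if t ≤ 1 then 0 else -(2 * (t - 1)) / (1 + (t - 1) ^ 2) ^ 2

lemma dF (t : ℝ) : HasDerivAt F (m t) t :=
  glue (f := fun t => t) (f' := fun _ => 1) (g := fun t => 1 + arctan (t - 1)) (g' := fun t => (1 + (t - 1) ^ 2)⁻¹)
    hasDerivAt_id'
    (fun t => cv (((hasDerivAt_id' t).sub_const 1).arctan.const_add 1) (by simp)) (by simp) (by simp) t

lemma dm (t : ℝ) : HasDerivAt m (n t) t :=
  glue (f := fun _ => 1) (f' := fun _ => 0) (g := fun t => (1 + (t - 1) ^ 2)⁻¹)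
    (g' := fun t => -(2 * (t - 1)) / (1 + (t - 1) ^ 2) ^ 2) (fun t => hasDerivAt_const t 1)
    (fun t => cv (((((hasDerivAt_id' t).sub_const 1).fun_pow 2).const_add 1).inv (by positivity)) (by simp)) (by simp)
    (by simp) t

@[fun_prop] lemma F_meas : Measurable F := (continuous_iff_continuousAt.2 fun t => (dF t).continuousAt).measurable
@[fun_prop] lemma m_meas : Measurable m := (continuous_iff_continuousAt.2 fun t => (dm t).continuousAt).measurable
@[fun_prop] lemma n_meas : Measurable n := Measurable.ite measurableSet_Iic measurable_const (by fun_prop)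

lemma m_pos (t : ℝ) : 0 < m t := by unfold m; split_ifs <;> positivity

lemma m_le (t : ℝ) : m t ≤ 1 := by
  unfold m
  split_ifs
  · rfl
  · exact inv_le_one_of_one_le₀ (by nlinarith [sq_nonneg (t - 1)])

lemma m_mul {t : ℝ} (h : 0 ≤ t) : m t * (1 + t ^ 2) ≤ 3 := by
  unfold m
  split_ifs with h1
  · nlinarith
  · rw [inv_mul_le_iff₀ (by positivity)]
    nlinarith [sq_nonneg (t - 3 / 2)]

lemma m_ge {t : ℝ} (h : 1 < t) : 1 ≤ m t * t ^ 2 := by
  unfold m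
  rw [if_neg (not_le.2 h), le_inv_mul_iff₀ (by positivity)]
  nlinarith

lemma n_sq (t : ℝ) : n t ^ 2 ≤ 4 * m t ^ 3 := by
  unfold n m
  split_ifs
  · norm_num
  · rw [div_pow, div_le_iff₀ (by positivity)]
    field_simp
    nlinarith

lemma abs_n (t : ℝ) : |n t| ≤ 2 * m t := by
  have := m_pos t
  refine abs_le_of_sq_le_sq' ?_ (by positivity) |> abs_le.2
  nlinarith [n_sq t, m_le t, sq_nonneg (m t)]

lemma F_bd {t : ℝ} (h : 0 ≤ t) : 0 ≤ F t ∧ F t ≤ 3 ∧ F t ≤ t := by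
  unfold F
  split_ifs with h1
  · exact ⟨h, by linarith, le_rfl⟩
  · have e1 := arctan_lt_pi_div_two (t - 1)
    have e2 : 0 ≤ arctan (t - 1) := arctan_nonneg.2 (by linarith)
    have e3 : arctan (t - 1) ≤ t - 1 := by
      have := le_tan e2 e1
      rwa [tan_arctan] at this
    exact ⟨by linarith, by linarith [pi_le_four], by linarith⟩

lemma F_ge {t : ℝ} (h : 1 < t) : 1 ≤ F t := by
  unfold F
  rw [if_neg (not_le.2 h)]
  linarith [arctan_nonneg.2 (show 0 ≤ t - 1 by linarith)]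

def T (L a b : ℝ) : ℝ := -log (a ^ 2 + b ^ 2) / L
def W (L a b : ℝ) : ℝ := F (T L a b)
def W1 (L a b : ℝ) : ℝ := m (T L a b) * (-2 * a / ((a ^ 2 + b ^ 2) * L))
def W2 (L a b : ℝ) : ℝ := n (T L a b) * (-2 * a / ((a ^ 2 + b ^ 2) * L)) ^ 2 +
  m (T L a b) * (-2 / ((a ^ 2 + b ^ 2) * L) + 4 * a ^ 2 / ((a ^ 2 + b ^ 2) ^ 2 * L))
def Lap (L a b : ℝ) : ℝ := 4 * n (T L a b) / ((a ^ 2 + b ^ 2) * L ^ 2)
def Θ (L a b : ℝ) : ℝ := m (T L a b) / ((a ^ 2 + b ^ 2) * L ^ 2)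
def Φ (a b : ℝ) : ℝ := ((a ^ 2 + b ^ 2) * (1 + log (a ^ 2 + b ^ 2) ^ 2))⁻¹

lemma T_comm (L a b : ℝ) : T L b a = T L a b := by unfold T; rw [add_comm]
lemma W_comm (L a b : ℝ) : W L b a = W L a b := by unfold W; rw [T_comm]
lemma Θ_comm (L a b : ℝ) : Θ L b a = Θ L a b := by unfold Θ; rw [T_comm, add_comm]
lemma Θ_nonneg (L a b : ℝ) : 0 ≤ Θ L a b := div_nonneg (m_pos _).le (by positivity)

lemma dT (L a : ℝ) {b : ℝ} (hb : b ≠ 0) : HasDerivAt (fun a => T L a b) (-2 * a / ((a ^ 2 + b ^ 2) * L)) a :=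
  cv (((((hasDerivAt_id' a).fun_pow 2).add_const (b ^ 2)).log (by positivity)).neg.div_const L) (by
    field_simp; ring)

lemma dW (L a : ℝ) {b : ℝ} (hb : b ≠ 0) : HasDerivAt (fun a => W L a b) (W1 L a b) a := (dF _).comp a (dT L a hb)

lemma dW1 {L : ℝ} (hL : L ≠ 0) (a : ℝ) {b : ℝ} (hb : b ≠ 0) : HasDerivAt (fun a => W1 L a b) (W2 L a b) a :=
  cv (((dm _).comp a (dT L a hb)).mul (((hasDerivAt_id' a).const_mul (-2)).fun_div
    ((((hasDerivAt_id' a).fun_pow 2).add_const (b ^ 2)).mul_const L) (by positivity))) (by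
      simp only [W2, Function.comp_apply]; field_simp; ring)

lemma W2_add (L a b : ℝ) : W2 L a b + W2 L b a = Lap L a b := by
  unfold W2 Lap
  rw [T_comm L a b, add_comm (b ^ 2)]
  rcases eq_or_ne (a ^ 2 + b ^ 2) 0 with h | h
  · simp [h]
  rcases eq_or_ne L 0 with rfl | hL
  · simp
  field_simp
  ring

lemma W1_sq (L a b : ℝ) : W1 L a b ^ 2 + W1 L b a ^ 2 = 4 * m (T L a b) * Θ L a b := by
  unfold W1 Θ
  rw [T_comm L a b, add_comm (b ^ 2)]
  rcases eq_or_ne (a ^ 2 + b ^ 2) 0 with h | h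
  · simp [h]
  rcases eq_or_ne L 0 with rfl | hL
  · simp
  field_simp
  ring

lemma W1_sq_le (L a b : ℝ) : W1 L a b ^ 2 ≤ 4 * Θ L a b := by
  nlinarith [W1_sq L a b, sq_nonneg (W1 L b a), mul_le_of_le_one_left (Θ_nonneg L a b) (m_le (T L a b))]

lemma abs_W1 (L a b : ℝ) : |W1 L a b| ≤ 1 + 4 * Θ L a b := by
  nlinarith [W1_sq_le L a b, sq_nonneg (|W1 L a b| - 1), sq_abs (W1 L a b), abs_nonneg (W1 L a b)]

lemma abs_Lap (L a b : ℝ) : |Lap L a b| ≤ 8 * Θ L a b := by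
  unfold Lap Θ
  rw [abs_div, abs_of_nonneg (a := _ * L ^ 2) (by positivity), ← mul_div_assoc, abs_mul]
  exact div_le_div_of_nonneg_right (by norm_num; linarith [abs_n (T L a b)]) (by positivity)

lemma abs_W2 {L : ℝ} (hL : 0 < L) (a b : ℝ) : |W2 L a b| ≤ (8 + 6 * L) * Θ L a b := by
  rcases eq_or_ne (a ^ 2 + b ^ 2) 0 with h | h
  · simp [W2, Θ, h]
  have hp : 0 < a ^ 2 + b ^ 2 := lt_of_le_of_ne (by positivity) h.symm
  have hm := m_pos (T L a b)
  have h1 := abs_le.1 (abs_n (T L a b))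
  have e : W2 L a b = (n (T L a b) * 4 * (a ^ 2 / (a ^ 2 + b ^ 2)) +
      m (T L a b) * L * (-2 + 4 * (a ^ 2 / (a ^ 2 + b ^ 2)))) / ((a ^ 2 + b ^ 2) * L ^ 2) := by
    unfold W2; field_simp; ring
  have q0 : 0 ≤ a ^ 2 / (a ^ 2 + b ^ 2) := by positivity
  have q1 : a ^ 2 / (a ^ 2 + b ^ 2) ≤ 1 := div_le_one_of_le₀ (by nlinarith) hp.le
  rw [e, Θ, abs_div, abs_of_nonneg (a := (a ^ 2 + b ^ 2) * L ^ 2) (by positivity), ← mul_div_assoc (8 + 6 * L)]
  refine div_le_div_of_nonneg_right ?_ (mul_nonneg hp.le (sq_nonneg L))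
  generalize a ^ 2 / (a ^ 2 + b ^ 2) = q at *
  have := mul_pos hm hL
  rw [abs_le]
  constructor <;> nlinarith [h1.1, h1.2, mul_nonneg this.le q0, mul_nonneg this.le (sub_nonneg.2 q1)]

lemma T_nonneg {L a b : ℝ} (hL : 0 ≤ L) (h : a ^ 2 + b ^ 2 ≤ 1) : 0 ≤ T L a b :=
  div_nonneg (neg_nonneg.2 (log_nonpos (by positivity) h)) hL

lemma Θ_le {L a b : ℝ} (hL : 1 ≤ L) (h : a ^ 2 + b ^ 2 ≤ 1) : Θ L a b ≤ 3 * Φ a b := by
  rcases eq_or_ne (a ^ 2 + b ^ 2) 0 with h0 | h0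
  · simp [Φ, Θ, h0]
  have hp : 0 < a ^ 2 + b ^ 2 := lt_of_le_of_ne (by positivity) h0.symm
  have e1 := m_mul (T_nonneg (by linarith : 0 ≤ L) h)
  have hm := m_pos (T L a b)
  have e2 : log (a ^ 2 + b ^ 2) ^ 2 = T L a b ^ 2 * L ^ 2 := by unfold T; field_simp
  rw [Θ, Φ, e2, ← div_eq_mul_inv, div_le_div_iff₀ (by positivity) (by positivity)]
  have e3 : 1 ≤ L ^ 2 := by nlinarith
  nlinarith [mul_le_mul_of_nonneg_left e1 (by positivity : 0 ≤ (a ^ 2 + b ^ 2) * L ^ 2),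
    mul_le_mul_of_nonneg_left e3 (mul_pos hm hp).le]

lemma Θ_le' (L a b : ℝ) : Θ L a b ≤ ((a ^ 2 + b ^ 2) * L ^ 2)⁻¹ := by
  rw [Θ, div_eq_mul_inv]
  exact mul_le_of_le_one_left (by positivity) (m_le _)

lemma far {L a b δ : ℝ} (hL : 1 ≤ L) (h : a ^ 2 + b ^ 2 ≤ 1) (hδ : δ ≤ 1) (h' : 2 ≤ δ * ((a ^ 2 + b ^ 2) * L)) :
    |W L a b| ≤ δ ∧ |W1 L a b| ≤ δ ∧ Θ L a b ≤ δ ∧ Lap L a b = 0 := by
  have hp : 0 < a ^ 2 + b ^ 2 := lt_of_le_of_ne (by positivity) fun e => by rw [← e] at h'; norm_num at h'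
  have hq : 0 < (a ^ 2 + b ^ 2) * L := by positivity
  have hδ0 : 0 < δ := (mul_pos_iff_of_pos_right hq).1 (by linarith)
  have hT : T L a b ≤ δ := by
    have := one_sub_inv_le_log_of_pos hp
    rw [T, div_le_iff₀ (by linarith)]
    have e : (a ^ 2 + b ^ 2)⁻¹ ≤ δ * L := by rw [inv_le_iff_one_le_mul₀ hp]; nlinarith
    linarith
  have e1 := F_bd (T_nonneg (by linarith : 0 ≤ L) h)
  refine ⟨by rw [W, abs_of_nonneg e1.1]; exact e1.2.2.trans hT, ?_, (Θ_le' L a b).trans ?_, ?_⟩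
  · rw [W1, abs_mul, abs_of_pos (m_pos _), abs_div, abs_of_pos hq]
    refine (mul_le_of_le_one_left (by positivity) (m_le _)).trans ?_
    have : |a| ≤ 1 := abs_le_one_iff_mul_self_le_one.2 (by nlinarith)
    rw [div_le_iff₀ hq, abs_mul]
    norm_num
    linarith
  · rw [inv_le_iff_one_le_mul₀ (by positivity)]
    nlinarith [mul_le_mul_of_nonneg_left hL (mul_pos hδ0 hq).le]
  · simp [Lap, n, hT.trans hδ]

lemma drift {L a b e1 e2 : ℝ} (hL : 4 ≤ L) (h1 : |e1| ≤ 1 / 2) (h2 : |e2| ≤ 1 / 2) (h : Lap L a b ≠ 0) :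
    0 < (W1 L a b + e1) ^ 2 + (W1 L b a + e2) ^ 2 ∧
      Lap L a b ^ 2 ≤ 64 * Θ L a b * ((W1 L a b + e1) ^ 2 + (W1 L b a + e2) ^ 2) := by
  have hp : 0 < a ^ 2 + b ^ 2 := lt_of_le_of_ne (by positivity) fun e => h (by simp [Lap, ← e])
  have ht : 1 < T L a b := not_le.1 fun e => h (by simp [Lap, n, e])
  have hm := m_pos (T L a b)
  have hΘ := Θ_nonneg L a b
  have big : 2 ≤ 4 * m (T L a b) * Θ L a b := by
    have e1 := m_ge ht
    have e2 : (a ^ 2 + b ^ 2) * exp (T L a b * L) = 1 := by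
      rw [T, div_mul_cancel₀ _ (by linarith), exp_neg, exp_log hp, mul_inv_cancel₀ hp.ne']
    have e3 := pow_div_factorial_le_exp (T L a b * L) (by positivity) 4
    rw [Θ, ← mul_div_assoc, le_div_iff₀ (by positivity)]
    generalize T L a b = t at *
    have e4 : (a ^ 2 + b ^ 2) * (t * L) ^ 4 ≤ 24 := by
      norm_num [Nat.factorial] at e3
      nlinarith
    have e5 : 1 ≤ (m t * t ^ 2) ^ 2 := by nlinarith
    have e6 : 16 ≤ L ^ 2 := by nlinarith
    have e7 : (a ^ 2 + b ^ 2) * L ^ 2 * L ^ 2 ≤ 24 * m t ^ 2 := by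
      nlinarith [mul_le_mul_of_nonneg_left e5 (by positivity : 0 ≤ (a ^ 2 + b ^ 2) * L ^ 4),
        mul_le_mul_of_nonneg_left e4 (by positivity : 0 ≤ m t ^ 2)]
    nlinarith [mul_le_mul_of_nonneg_left e6 (by positivity : 0 ≤ (a ^ 2 + b ^ 2) * L ^ 2)]
  have low : m (T L a b) * Θ L a b ≤ (W1 L a b + e1) ^ 2 + (W1 L b a + e2) ^ 2 := by
    have a1 : e1 ^ 2 ≤ 1 / 4 := by nlinarith [abs_nonneg e1, sq_abs e1]
    have a2 : e2 ^ 2 ≤ 1 / 4 := by nlinarith [abs_nonneg e2, sq_abs e2]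
    nlinarith [W1_sq L a b, sq_nonneg (W1 L a b + 2 * e1), sq_nonneg (W1 L b a + 2 * e2)]
  refine ⟨by linarith, le_trans ?_ (mul_le_mul_of_nonneg_left low (by positivity))⟩
  have := n_sq (T L a b)
  rw [Lap, Θ, div_pow, div_le_iff₀ (by positivity)]
  field_simp
  nlinarith

lemma Φ_int : Integrable fun z : ℝ × ℝ => Φ z.1 z.2 := by
  have h1 : Integrable fun z : ℂ => (‖z‖ ^ 2 * (1 + log (‖z‖ ^ 2) ^ 2))⁻¹ := by
    rw [integrable_fun_norm_addHaar volume (f := fun r => (r ^ 2 * (1 + log (r ^ 2) ^ 2))⁻¹), ← range_exp,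
      ← image_univ, integrableOn_image_iff_integrableOn_abs_deriv_smul MeasurableSet.univ
        (fun x _ => (hasDerivAt_exp x).hasDerivWithinAt) exp_injective.injOn, integrableOn_univ]
    refine (integrable_inv_one_add_sq.comp_mul_left' (R := 2) two_ne_zero).congr (Eventually.of_forall fun x => ?_)
    have := exp_pos x
    simp only [Complex.finrank_real_complex, log_pow, log_exp, abs_of_pos this, smul_eq_mul]
    push_cast
    field_simp
  rw [← Complex.volume_preserving_equiv_real_prod.integrable_comp_emb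
    Complex.measurableEquivRealProd.measurableEmbedding]
  refine h1.congr (Eventually.of_forall fun z => ?_)
  simp only [Complex.sq_norm, Complex.normSq_apply]
  simp [Φ, sq]

lemma ibp1 {f f' g g' : ℝ × ℝ → ℝ} (h1 : Integrable fun z => f z * g' z) (h2 : Integrable fun z => f' z * g z)
    (h3 : Integrable fun z => f z * g z) (hf : ∀ y, y ≠ 0 → ∀ x, HasDerivAt (fun x => f (x, y)) (f' (x, y)) x)
    (hg : ∀ y x, HasDerivAt (fun x => g (x, y)) (g' (x, y)) x) : ∫ z, f z * g' z = -∫ z, f' z * g z := by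
  rw [Measure.volume_eq_prod] at *
  rw [integral_prod_symm _ h1, integral_prod_symm _ h2, ← integral_neg]
  refine integral_congr_ae ?_
  filter_upwards [h1.prod_left_ae, h2.prod_left_ae, h3.prod_left_ae, Measure.ae_ne volume 0] with y a1 a2 a3 hy
  exact integral_mul_deriv_eq_deriv_mul_of_integrable (fun x _ => hf y hy x) (fun x _ => hg y x) a1 a2 a3

lemma ibp2 {f f' g g' : ℝ × ℝ → ℝ} (p : ℝ) (h1 : Integrable fun z => f z * g' z) (h2 : Integrable fun z => f' z * g z)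
    (h3 : Integrable fun z => f z * g z) (hf : ∀ x, x ≠ p → ∀ y, HasDerivAt (fun y => f (x, y)) (f' (x, y)) y)
    (hg : ∀ x y, HasDerivAt (fun y => g (x, y)) (g' (x, y)) y) : ∫ z, f z * g' z = -∫ z, f' z * g z := by
  rw [Measure.volume_eq_prod] at *
  rw [integral_prod _ h1, integral_prod _ h2, ← integral_neg]
  refine integral_congr_ae ?_
  filter_upwards [h1.prod_right_ae, h2.prod_right_ae, h3.prod_right_ae, Measure.ae_ne volume p] with x a1 a2 a3 hx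
  exact integral_mul_deriv_eq_deriv_mul_of_integrable (fun y _ => hf x hx y) (fun y _ => hg x y) a1 a2 a3

end

end Pool.Agent.Lib.Helper21.LogBump
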