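import Pool.Agent.Lib.helper21.Bloch1
open Complex Set Filter Metric Topology InnerProductSpace

namespace Pool.Agent.Lib.Helper21.Mart

def D : Set ℂ := ball 0 1 \ {1 / 4}

lemma oD : IsOpen D := isOpen_ball.sdiff isClosed_singleton

lemma mD {z : ℂ} : z ∈ D ↔ ‖z‖ < 1 ∧ z ≠ 1 / 4 := by simp [D]

lemma cD : IsPreconnected D := by
  have c : ∀ s : Set ℂ, Convex ℝ s → IsPreconnected (ball (0 : ℂ) 1 ∩ s) := fun s hs =>
    ((convex_ball 0 1).inter hs).isPreconnected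
  have n : ∀ x y : ℝ, x ^ 2 + y ^ 2 < 1 → (⟨x, y⟩ : ℂ) ∈ ball (0 : ℂ) 1 := fun x y h => by
    rw [mem_ball_zero_iff, ← sq_lt_one_iff₀ (norm_nonneg _), Complex.sq_norm, normSq_apply]; linarith
  have c1 := c _ (convex_halfSpace_re_lt (1 / 4))
  have c2 := c _ (convex_halfSpace_im_gt 0)
  have c3 := c _ (convex_halfSpace_im_lt 0)
  have c4 := c _ (convex_halfSpace_re_gt (1 / 4))
  have d1 := IsPreconnected.union' (by
    exact ⟨⟨0, 1 / 2⟩, ⟨n _ _ (by norm_num), by norm_num⟩, n _ _ (by norm_num), by norm_num⟩) c1 c2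
  have d2 := IsPreconnected.union' (by
    exact ⟨⟨0, -1 / 2⟩, .inl ⟨n _ _ (by norm_num), by norm_num⟩, n _ _ (by norm_num), by norm_num⟩) d1 c3
  have := IsPreconnected.union' (by
    exact ⟨⟨1 / 2, 1 / 2⟩, .inl (.inr ⟨n _ _ (by norm_num), by norm_num⟩), n _ _ (by norm_num),
      by norm_num⟩) d2 c4
  refine (Set.ext fun z => ?_ : _ = D) ▸ this
  simp only [D, mem_union, mem_inter_iff, mem_ofPred, Set.mem_sdiff, mem_singleton_iff, Complex.ext_iff]
  norm_num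
  grind

lemma nsc : ¬ SimplyConnectedSpace D := fun h => by
  obtain ⟨f, cf, e⟩ := exists_continuousOn_eqOn_exp_comp (U := D) h oD (g := fun z => z - 1 / 4)
    (by fun_prop) (by rintro ⟨z, hz, h⟩; exact hz.2 (sub_eq_zero.1 h))
  have m : ∀ θ : ℝ, 1 / 4 + 1 / 4 * exp (θ * I) ∈ D := fun θ => mD.2 ⟨by
    refine (norm_add_le _ _).trans_lt ?_
    rw [norm_mul, norm_exp_ofReal_mul_I]; norm_num, by simp⟩
  have := congrFun (isCoveringMap_exp.eq_of_comp_eq (g₁ := fun θ : ℝ => f (1 / 4 + 1 / 4 * exp (θ * I)))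
    (g₂ := fun θ : ℝ => f (1 / 4 + 1 / 4 * exp ((0 : ℝ) * I)) + θ * I)
    (cf.comp_continuous (by fun_prop) m) (by fun_prop) (funext fun θ => Subtype.ext (by
      have a := e (m θ)
      have b := e (m 0)
      simp only [Function.comp] at a b ⊢
      rw [exp_add, a, b]; simp)) 0 (by simp)) (2 * Real.pi)
  simp at this

lemma minp {w : ℂ → ℝ} (hw : HarmonicOnNhd w D) {z : ℂ} {r δ : ℝ} (r1 : r < 1) (r2 : 1 / 2 ≤ r)
    (δ0 : 0 < δ) (δ1 : δ ≤ 1 / 4) (z1 : ‖z‖ ≤ r) (z2 : δ ≤ ‖z - 1 / 4‖)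
    (hb : ∀ u : ℂ, ‖u‖ = r ∨ ‖u - 1 / 4‖ = δ → w z < w u) : False := by
  have s : {u : ℂ | ‖u‖ ≤ r ∧ δ ≤ ‖u - 1 / 4‖} ⊆ D := fun u hu =>
    mD.2 ⟨hu.1.trans_lt r1, fun h => by have := hu.2; simp [h] at this; linarith⟩
  obtain ⟨p, hp, mn⟩ := ((isCompact_closedBall (0 : ℂ) r).of_isClosed_subset
    (t := {u : ℂ | ‖u‖ ≤ r ∧ δ ≤ ‖u - 1 / 4‖}) ((isClosed_le (by fun_prop) continuous_const).and
      (isClosed_le continuous_const (by fun_prop)))
    fun u hu => mem_closedBall_zero_iff.2 hu.1).exists_isMinOn ⟨z, z1, z2⟩ (hw.continuousOn.mono s)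
  have pz : w p ≤ w z := mn ⟨z1, z2⟩
  have lm : IsLocalMin w p := mn.isLocalMin (by
    have a : ‖p‖ < r := hp.1.lt_of_ne fun h => (hb p (.inl h)).not_ge pz
    have b : δ < ‖p - 1 / 4‖ := hp.2.lt_of_ne fun h => (hb p (.inr h.symm)).not_ge pz
    filter_upwards [(isOpen_lt (f := fun u : ℂ => ‖u‖) (by fun_prop) continuous_const).mem_nhds a,
      (isOpen_lt (g := fun u : ℂ => ‖u - 1 / 4‖) continuous_const (by fun_prop)).mem_nhds b] with u a b
      using ⟨a.le, b.le⟩)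
  obtain ⟨ρ, ρ0, b⟩ := Metric.isOpen_iff.1 oD p (s hp)
  obtain ⟨F, aF, e⟩ := (hw.mono b).exists_analyticOnNhd_ball_re_eq
  have k := eventually_eq_of_isLocalMax_norm (f := fun u => exp (-F u)) (c := p) (by
    filter_upwards [ball_mem_nhds p ρ0] with u hu using (aF u hu).differentiableAt.neg.cexp) (by
    filter_upwards [ball_mem_nhds p ρ0, lm] with u hu h
    simp only [Function.comp, norm_exp, neg_re]
    rw [show (F u).re = w u from e hu, show (F p).re = w p from e (mem_ball_self ρ0)]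
    gcongr)
  have c := AnalyticOnNhd.eqOn_of_preconnected_of_eventuallyEq (𝕜 := ℝ) (g := fun _ => w p)
    (fun u hu => HarmonicAt.analyticAt (hw u hu)) analyticOnNhd_const cD (s hp) (by
      filter_upwards [ball_mem_nhds p ρ0, k] with u hu h
      have := congrArg norm h
      simp only [norm_exp, neg_re, Real.exp_eq_exp, neg_inj] at this
      rw [← e hu, ← e (mem_ball_self ρ0)]; exact this)
  have n : ‖(r : ℂ)‖ = r := by rw [norm_real, Real.norm_of_nonneg (by linarith)]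
  have := hb r (.inl n)
  rw [c (mD.2 ⟨n.trans_lt r1, fun h => by have := congrArg re h; norm_num at this; linarith⟩)] at this
  exact this.not_ge pz

lemma hlog : HarmonicOnNhd (fun z : ℂ => Real.log ‖z - 1 / 4‖) D := fun z hz =>
  AnalyticAt.harmonicAt_log_norm (by fun_prop) (sub_ne_zero.2 hz.2)

lemma green {h : ℂ → ℝ} (hh : HarmonicOnNhd h D) (l : ∀ z ∈ D, z ≠ 0 → Real.log ‖z‖ < h z)
    {z : ℂ} (hz : z ∈ D) : 0 ≤ h z := by
  by_contra! c
  have z1 := (mD.1 hz).1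
  have z2 := norm_pos_iff.2 (sub_ne_zero.2 hz.2)
  obtain ⟨ε, ε0, hε⟩ : ∃ ε : ℝ, 0 < ε ∧ ε * (1 + |Real.log ‖z - 1 / 4‖|) = -h z / 2 :=
    ⟨_, div_pos (by linarith) (by positivity), div_mul_cancel₀ _ (by positivity)⟩
  obtain ⟨r, r1, r2, r3, r4⟩ : ∃ r : ℝ, r < 1 ∧ 1 / 2 ≤ r ∧ ‖z‖ ≤ r ∧ Real.exp (h z / 2) ≤ r :=
    ⟨max (1 / 2) (max ‖z‖ (Real.exp (h z / 2))), max_lt (by norm_num) (max_lt z1
      (Real.exp_lt_one_iff.2 (by linarith))), le_max_left _ _, le_max_of_le_right (le_max_left _ _),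
      le_max_of_le_right (le_max_right _ _)⟩
  obtain ⟨δ, δ0, δ1, δ2, δ3⟩ : ∃ δ : ℝ, 0 < δ ∧ δ ≤ 1 / 8 ∧ δ ≤ ‖z - 1 / 4‖ ∧ δ ≤ Real.exp (-7 / ε) :=
    ⟨min (1 / 8) (min ‖z - 1 / 4‖ (Real.exp (-7 / ε))), by positivity, min_le_left _ _,
      min_le_of_right_le (min_le_left _ _), min_le_of_right_le (min_le_right _ _)⟩
  refine minp (hh.sub (hlog.const_smul (c := ε))) r1 r2 δ0 (by linarith) r3 δ2 fun u hu => ?_
  simp only [Pi.sub_apply, Pi.smul_apply, smul_eq_mul]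
  have a := mul_le_mul_of_nonneg_left (neg_abs_le (Real.log ‖z - 1 / 4‖)) ε0.le
  have n : ‖(1 / 4 : ℂ)‖ = 1 / 4 := by simp
  rcases hu with hu | hu
  · have b := norm_sub_norm_le u (1 / 4)
    have b' := norm_sub_le u (1 / 4)
    have p : 0 < ‖u - 1 / 4‖ := by linarith
    have d := l u (mD.2 ⟨by linarith, sub_ne_zero.1 (norm_pos_iff.1 p)⟩) (norm_pos_iff.1 (by linarith))
    have e := (Real.le_log_iff_exp_le (by linarith)).2 r4
    have f := mul_le_mul_of_nonneg_left ((Real.log_le_sub_one_of_pos p).trans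
      (show _ ≤ (1 : ℝ) by linarith)) ε0.le
    rw [hu] at d
    linarith
  · have b := norm_sub_norm_le u (1 / 4)
    have b' := norm_sub_norm_le (1 / 4) u
    rw [norm_sub_rev] at b'
    have p : 0 < ‖u‖ := by linarith
    have d := l u (mD.2 ⟨by linarith, sub_ne_zero.1 (norm_pos_iff.1 (by linarith))⟩) (norm_pos_iff.1 p)
    have e := Real.one_sub_inv_le_log_of_pos p
    have e' : ‖u‖⁻¹ ≤ 8 := by rw [inv_le_comm₀ p (by norm_num)]; linarith
    have f := (Real.log_le_iff_le_exp δ0).2 δ3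
    rw [le_div_iff₀ ε0] at f
    rw [hu]
    nlinarith [abs_nonneg (Real.log ‖z - 1 / 4‖)]

lemma fd (L : ℂ →L[ℝ] ℝ) (v : ℂ) : L v = ((L 1 - I * L I) * v).re := by
  conv_lhs => rw [show v = v.re • (1 : ℂ) + v.im • I by simp]
  rw [map_add, map_smul, map_smul]; simp; ring

lemma fre {F : ℂ → ℂ} {z d : ℂ} (h : HasDerivAt F d z) :
    ∃ L : ℂ →L[ℝ] ℝ, HasFDerivAt (fun u => (F u).re) L z ∧ ∀ v, L v = (d * v).re :=
  ⟨_, reCLM.hasFDerivAt.comp z (h.hasFDerivAt.restrictScalars ℝ), fun v => by simp; ring⟩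

lemma rem {u : ℂ → ℝ} (hu : HarmonicOnNhd u D) {M : ℝ}
    (hb : ∀ z ∈ D, ‖z - 1 / 4‖ < 1 / 2 → 0 ≤ u z ∧ u z ≤ M) :
    ∃ U : ℂ → ℝ, HarmonicOnNhd U (ball 0 1) ∧ ∀ z ∈ D, U z = u z := by
  set φ : ℂ → ℂ := fun z => fderiv ℝ u z 1 - I * fderiv ℝ u z I with hφ
  have n : ‖(1 / 4 : ℂ)‖ = 1 / 4 := by simp
  have du : ∀ z ∈ D, HasFDerivAt u (fderiv ℝ u z) z := fun z hz =>
    (HarmonicAt.analyticAt (hu z hz)).differentiableAt.hasFDerivAt
  have b : ∀ z, z ≠ 1 / 4 → ‖z - 1 / 4‖ < 1 / 4 → ‖(z - 1 / 4) * φ z‖ ≤ 2 * Real.exp M := by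
    intro z z0 z1
    have r0 := norm_pos_iff.2 (sub_ne_zero.2 z0)
    have s : ∀ w ∈ ball z ‖z - 1 / 4‖, w ∈ D ∧ ‖w - 1 / 4‖ < 1 / 2 := fun w hw => by
      rw [mem_ball_iff_norm] at hw
      have := norm_sub_le_norm_sub_add_norm_sub w z (1 / 4)
      refine ⟨mD.2 ⟨by linarith [norm_sub_norm_le w (1 / 4)], ?_⟩, by linarith⟩
      rintro rfl
      exact hw.ne (norm_sub_rev _ _)
    obtain ⟨F, aF, e⟩ := (hu.mono fun w hw => (s w hw).1).exists_analyticOnNhd_ball_re_eq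
    have ne : ∀ w ∈ ball z ‖z - 1 / 4‖, ‖exp (-F w)‖ = Real.exp (-u w) := fun w hw => by
      rw [norm_exp, neg_re, ← e hw]
    have mz := mem_ball_self (x := z) r0
    have k := norm_deriv_le_div_of_mapsTo_ball (f := fun w => exp (-F w)) (R₂ := 2)
      (fun w hw => (aF w hw).differentiableAt.neg.cexp.differentiableWithinAt) (fun w hw => by
        rw [mem_closedBall_iff_norm]
        refine (norm_sub_le _ _).trans ?_
        rw [ne w hw, ne z mz]
        linarith [Real.exp_le_one_iff.2 (neg_nonpos.2 (hb w (s w hw).1 (s w hw).2).1),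
          Real.exp_le_one_iff.2 (neg_nonpos.2 (hb z (s z mz).1 (s z mz).2).1)]) r0
    have d := (aF z mz).differentiableAt.hasDerivAt
    obtain ⟨L, hL, eL⟩ := fre d
    have : φ z = deriv F z := by
      simp only [hφ]
      rw [(hL.congr_of_eventuallyEq (f₁ := u) (by
        filter_upwards [ball_mem_nhds z r0] with w hw using (e hw).symm)).fderiv, eL, eL]
      apply Complex.ext <;> simp
    rw [d.fun_neg.cexp.deriv, norm_mul, ne z mz, norm_neg, le_div_iff₀ r0] at k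
    rw [this, norm_mul]
    have := Real.exp_le_exp.2 (hb z (s z mz).1 (s z mz).2).2
    rw [Real.exp_neg, mul_assoc, inv_mul_le_iff₀ (Real.exp_pos _)] at k
    nlinarith
  have dψ : DifferentiableOn ℂ (fun z => (z - 1 / 4) * φ z) D := fun z hz =>
    ((differentiableAt_id.sub_const _).mul
      (HarmonicAt.differentiableAt_complex_partial (hu z hz))).differentiableWithinAt
  have a0 : ball (0 : ℂ) 1 ∈ 𝓝 (1 / 4 : ℂ) := isOpen_ball.mem_nhds (by rw [mem_ball_zero_iff, n]; norm_num)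
  have dΨ := differentiableOn_update_limUnder_of_isLittleO a0 dψ (IsBoundedUnder.isLittleO_sub_self_inv
    ⟨2 * Real.exp M, eventually_map.2 (by
      filter_upwards [self_mem_nhdsWithin, mem_nhdsWithin_of_mem_nhds
        (ball_mem_nhds _ (show (0 : ℝ) < 1 / 4 by norm_num))] with z h1 h2
      simpa using b z h1 (mem_ball_iff_norm.1 h2))⟩)
  set Ψ := Function.update (fun z => (z - 1 / 4) * φ z) (1 / 4) _
  obtain ⟨Φ, hΦ⟩ := ((differentiableOn_dslope a0).2 dΨ).isExactOn_ball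
  have dv : ∀ z ∈ D, ∃ L : ℂ →L[ℝ] ℝ, HasFDerivAt (fun w => u w - (Φ w).re) L z ∧
      ∀ v, L v = (Ψ (1 / 4) / (z - 1 / 4) * v).re := fun z hz => by
    obtain ⟨L, hL, eL⟩ := fre (hΦ z hz.1)
    refine ⟨_, (du z hz).sub hL, fun v => ?_⟩
    have z0 := sub_ne_zero.2 (mD.1 hz).2
    rw [sub_apply, fd, eL, ← sub_re, ← sub_mul, dslope_of_ne _ (mD.1 hz).2,
      slope_def_field, show Ψ z = (z - 1 / 4) * φ z from Function.update_of_ne (mD.1 hz).2 _ _]
    rw [sub_div, mul_div_cancel_left₀ _ z0, sub_sub_cancel]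
  obtain ⟨B, hB⟩ := (isCompact_closedBall (1 / 4 : ℂ) (1 / 4)).exists_bound_of_continuousOn
    (f := Φ) fun z hz => (hΦ z (closedBall_subset_ball' (by simp; norm_num) hz)).continuousAt.continuousWithinAt
  have c0 : ∀ l : ℂ, l.re = 1 → (Ψ (1 / 4) * l).re = 0 := fun l hl => by
    have nz : ∀ t : ℝ, 0 ≤ t → ‖1 / 4 + 1 / 4 * exp (-(t * l)) - 1 / 4‖ ≤ 1 / 4 := fun t ht => by
      rw [add_sub_cancel_left, norm_mul, n, norm_exp]
      exact mul_le_of_le_one_right (by norm_num) (Real.exp_le_one_iff.2 (by simpa [hl]))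
    have m : ∀ t : ℝ, 0 ≤ t → 1 / 4 + 1 / 4 * exp (-(t * l)) ∈ D := fun t ht =>
      mD.2 ⟨by linarith [nz t ht, norm_sub_norm_le (1 / 4 + 1 / 4 * exp (-(t * l))) (1 / 4)], by simp⟩
    set v : ℝ → ℝ := fun t => u (1 / 4 + 1 / 4 * exp (-(t * l))) - (Φ (1 / 4 + 1 / 4 * exp (-(t * l)))).re
    have d : ∀ t : ℝ, 0 ≤ t → HasDerivAt (fun t => v t + (Ψ (1 / 4) * l).re * t) 0 t := fun t ht => by
      obtain ⟨L, hL, eL⟩ := dv _ (m t ht)
      refine ((hL.comp_hasDerivAt t (((((hasDerivAt_id t).ofReal_comp.mul_const l).neg.cexp).const_mul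
        (1 / 4)).const_add (1 / 4))).add ((hasDerivAt_id t).const_mul _)).congr_deriv ?_
      rw [eL, mul_one, ← add_re, add_sub_cancel_left, ← zero_re]
      congr 1
      simp; field_simp; ring
    have bv : ∀ t : ℝ, 0 ≤ t → |v t| ≤ M + B := fun t ht => by
      have := hb _ (m t ht) (by linarith [nz t ht])
      have := abs_le.1 ((abs_re_le_norm _).trans (hB _ (mem_closedBall_iff_norm.2 (nz t ht))))
      rw [abs_le]; constructor <;> simp only [v] <;> linarith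
    by_contra ne
    have p := abs_pos.2 ne
    obtain ⟨T, T0, hT⟩ : ∃ T : ℝ, 0 ≤ T ∧ |(Ψ (1 / 4) * l).re| * T = 2 * (M + B) + 1 :=
      ⟨_, div_nonneg (by linarith [abs_nonneg (v 0), bv 0 le_rfl]) p.le, mul_div_cancel₀ _ p.ne'⟩
    have := constant_of_has_deriv_right_zero (fun t ht => (d t ht.1).continuousAt.continuousWithinAt)
      (fun t ht => (d t ht.1).hasDerivWithinAt) T ⟨T0, le_rfl⟩
    rw [← abs_of_nonneg T0, ← abs_mul, show (Ψ (1 / 4) * l).re * T = v 0 - v T by linarith] at hT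
    linarith [abs_sub (v 0) (v T), bv 0 le_rfl, bv T T0]
  have z0 : Ψ (1 / 4) = 0 := by
    have a := c0 1 rfl
    have b := c0 (1 + I) (by simp)
    rw [mul_one] at a
    apply Complex.ext <;> simp_all
  obtain ⟨c, hc⟩ := oD.exists_is_const_of_fderiv_eq_zero cD (𝕜 := ℝ) (f := fun w => u w - (Φ w).re)
    (fun z hz => (dv z hz).choose_spec.1.differentiableAt.differentiableWithinAt) fun z hz => by
      obtain ⟨L, hL, eL⟩ := dv z hz
      rw [hL.fderiv]; ext v; rw [eL, z0]; simp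
  refine ⟨fun z => (Φ z + c).re, fun z hz => AnalyticAt.harmonicAt_re (AnalyticAt.add
    (DifferentiableOn.analyticAt (fun w hw => (hΦ w hw).differentiableAt.differentiableWithinAt)
      (isOpen_ball.mem_nhds hz)) analyticAt_const), fun z hz => ?_⟩
  simp [← hc z hz]

noncomputable def P (ζ z : ℂ) : ℝ := (1 - ‖z‖ ^ 2) / ‖ζ - z‖ ^ 2

lemma hP {ζ : ℂ} (h : ‖ζ‖ = 1) : HarmonicOnNhd (P ζ) (ball 0 1) := fun z hz => by
  have e : P ζ = fun z => ((ζ + z) / (ζ - z)).re := funext fun z => by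
    have := congrFun (poissonKernel_eq_re_herglotzRieszKernel (c := 0) (w := z)) ζ
    simpa [poissonKernel_def, herglotzRieszKernel_def, h, P] using this
  rw [e]
  refine AnalyticAt.harmonicAt_re (AnalyticAt.div (by fun_prop) (by fun_prop) (sub_ne_zero.2 ?_))
  rintro rfl
  simp [h] at hz

lemma pP {ζ z : ℂ} (h : ‖ζ‖ = 1) (hz : ‖z‖ < 1) : 0 < P ζ z :=
  div_pos (by nlinarith [norm_nonneg z]) (pow_pos (by linarith [norm_sub_norm_le ζ z]) 2)

lemma mini {U : ℂ → ℝ} (hU : HarmonicOnNhd U (ball 0 1)) (h : ∀ z ∈ D, 0 ≤ U z ∧ U z ≤ P 1 z)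
    {z : ℂ} (hz : ‖z‖ < 1) : U z = U 0 * P 1 z := by
  refine eq_of_abs_sub_nonpos (le_of_forall_pos_le_add fun η η0 => ?_)
  have z0 := norm_nonneg z
  have ct : ContinuousAt (poissonKernel 0 z) 1 := by
    unfold poissonKernel
    exact ContinuousAt.div (by fun_prop) (by fun_prop) (pow_pos (by
      simp only [sub_zero]; linarith [norm_sub_norm_le 1 z, norm_one (α := ℂ)]) 2).ne'
  obtain ⟨δ, δ0, hδ⟩ := Metric.continuousAt_iff.1 ct η η0
  rw [show poissonKernel 0 z 1 = P 1 z by simp [poissonKernel_def, P]] at hδ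
  obtain ⟨M, hM⟩ : ∃ M, M = 1 / ((1 - ‖z‖) / 2) ^ 2 + P 1 z := ⟨_, rfl⟩
  have p1 := pP norm_one hz
  have M0 : 0 ≤ M := by rw [hM]; positivity
  have t : Tendsto (fun R : ℝ => η + M / δ ^ 2 * (1 - R ^ 2)) (𝓝[<] 1) (𝓝 (0 + η)) :=
    tendsto_nhdsWithin_of_tendsto_nhds (Continuous.tendsto' (by fun_prop) _ _ (by simp))
  refine ge_of_tendsto t ?_
  filter_upwards [Ioo_mem_nhdsLT (show (1 + ‖z‖) / 2 < 1 by linarith)] with R ⟨R0, R1⟩
  have Rp : 0 < R := by linarith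
  have sb : closedBall (0 : ℂ) R ⊆ ball 0 1 := closedBall_subset_ball R1
  have sp : ∀ ξ ∈ sphere (0 : ℂ) |R|, ‖ξ‖ = R := fun ξ h => by simpa [abs_of_pos Rp] using h
  have lb : ∀ ξ ∈ sphere (0 : ℂ) |R|, (1 - ‖z‖) / 2 ≤ ‖ξ - z‖ := fun ξ h => by
    linarith [norm_sub_norm_le ξ z, sp ξ h]
  have e1 := (hU.mono sb).circleAverage_poissonKernel_smul (w := z) (by simp; linarith)
  have e2 := InnerProductSpace.HarmonicOnNhd.circleAverage_eq (c := 0) (R := R) (hU.mono (by rwa [abs_of_pos Rp]))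
  have e3 := InnerProductSpace.HarmonicOnNhd.circleAverage_eq (c := 0) (R := R) ((hP norm_one).mono (by rwa [abs_of_pos Rp]))
  have i2 := Bloch.ci hU.continuousOn Rp.le R1
  have i3 := Bloch.ci (hP norm_one).continuousOn Rp.le R1
  have i1 : CircleIntegrable (poissonKernel 0 z • U) 0 R := ContinuousOn.circleIntegrable' (by
    refine ContinuousOn.smul ?_ (hU.continuousOn.mono fun ξ h => by simp [sp ξ h, R1])
    unfold poissonKernel
    exact ContinuousOn.div (by fun_prop) (by fun_prop) fun ξ h => (pow_pos (by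
      simp only [sub_zero]; linarith [lb ξ h]) 2).ne')
  have key : ∀ σ : ℝ, |σ| = 1 → σ * (U z - U 0 * P 1 z) ≤ η + M / δ ^ 2 * (1 - R ^ 2) := fun σ hσ => by
    have a := Bloch.lin i1 i2 σ (-σ * P 1 z)
    have b := Bloch.lin i3 (circleIntegrable_const (1 : ℝ) 0 R) η (M / δ ^ 2 * (1 - R ^ 2))
    have c := Real.circleAverage_mono (c := 0) (R := R)
      (f₁ := fun ξ => σ * (poissonKernel 0 z • U) ξ + -σ * P 1 z * U ξ)
      (f₂ := fun ξ => η * P 1 ξ + M / δ ^ 2 * (1 - R ^ 2) * 1) ((i1.const_mul σ).add (i2.const_mul (-σ * P 1 z)))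
      ((i3.const_mul η).add ((circleIntegrable_const (1 : ℝ) 0 R).const_mul
        (M / δ ^ 2 * (1 - R ^ 2)))) fun ξ hξ => ?_
    · rw [a, b, e1, e2, e3, Real.circleAverage_const, show P 1 0 = 1 by simp [P]] at c
      linarith
    have n := sp ξ hξ
    have u := h ξ (mD.2 ⟨by linarith, by rintro rfl; simp at n; linarith⟩)
    have q : 0 < ‖1 - ξ‖ := by linarith [norm_sub_norm_le 1 ξ, norm_one (α := ℂ)]
    have k : |poissonKernel 0 z ξ - P 1 z| ≤ η + M / δ ^ 2 * ‖1 - ξ‖ ^ 2 := by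
      by_cases hd : dist ξ 1 < δ
      · exact (hδ hd).le.trans (le_add_of_nonneg_right (by positivity))
      rw [dist_comm, dist_eq_norm, not_lt] at hd
      have k0 : 0 ≤ poissonKernel 0 z ξ := div_nonneg (by simp only [sub_zero]; nlinarith) (by positivity)
      have k1 : poissonKernel 0 z ξ ≤ 1 / ((1 - ‖z‖) / 2) ^ 2 := by
        simp only [poissonKernel_def, sub_zero]
        gcongr
        · nlinarith
        · exact lb ξ hξ
      have k2 : M ≤ M / δ ^ 2 * ‖1 - ξ‖ ^ 2 := by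
        rw [div_mul_eq_mul_div, le_div_iff₀ (by positivity)]; gcongr
      rw [abs_le]; constructor <;> linarith
    calc _ = σ * (poissonKernel 0 z ξ - P 1 z) * U ξ := by simp; ring
      _ ≤ (η + M / δ ^ 2 * ‖1 - ξ‖ ^ 2) * P 1 ξ := by
          gcongr
          · exact u.1
          · exact (le_abs_self _).trans (by rw [abs_mul, hσ, one_mul]; exact k)
          · exact u.2
      _ = _ := by simp only [P, n]; field_simp
  rw [abs_le]
  constructor <;> linarith [key 1 (by simp), key (-1) (by simp)]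

end Pool.Agent.Lib.Helper21.Mart
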