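import Mathlib

/-! Montel's theorem on the unit disc. -/

set_option autoImplicit false

namespace Pool.Agent.Lib.Helper21.Montel

open Set Metric Filter Topology Complex

theorem montel {f : ℕ → ℂ → ℂ} (d : ∀ k, DifferentiableOn ℂ (f k) (ball 0 1))
    (b : ∀ r < 1, ∃ M : ℝ, ∀ k, ∀ z : ℂ, ‖z‖ ≤ r → ‖f k z‖ ≤ M) :
    ∃ s : ℕ → ℕ, StrictMono s ∧ ∃ g : ℂ → ℂ, TendstoLocallyUniformlyOn (fun k => f (s k)) g atTop (ball 0 1) := by
  obtain ⟨a, ha⟩ : ∃ a : ℕ → ℕ → ℂ, a = fun k n => (n.factorial : ℂ)⁻¹ * iteratedDeriv n (f k) 0 := ⟨_, rfl⟩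
  have c : ∀ r, 0 < r → r < 1 → ∃ M : ℝ, ∀ k n, ‖a k n‖ ≤ M / r ^ n := fun r r0 r1 => (b r r1).imp fun M h k n => by
    have := norm_iteratedDeriv_le_of_forall_mem_sphere_norm_le n r0 ((d k).diffContOnCl_ball (closedBall_subset_ball r1))
      fun z hz => h k z (mem_sphere_zero_iff_norm.1 hz).le
    rw [ha, norm_mul, norm_inv, norm_natCast, inv_mul_le_iff₀ (by positivity), ← mul_div_assoc]
    exact this
  obtain ⟨M, hM⟩ := c (1 / 2) (by norm_num) (by norm_num)
  obtain ⟨l, -, s, hs, t⟩ := (isCompact_univ_pi fun n => isCompact_closedBall (0 : ℂ) (M / (1 / 2) ^ n)).tendsto_subseq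
    (x := a) fun k n _ => mem_closedBall_zero_iff.2 (hM k n)
  refine ⟨s, hs, fun z => ∑' n, l n * z ^ n, tendstoLocallyUniformlyOn_of_forall_exists_nhds fun x hx => ?_⟩
  obtain ⟨r, r0, r1⟩ := exists_between (mem_ball_zero_iff.1 hx)
  obtain ⟨q, q0, q1⟩ := exists_between r1
  have rp := (norm_nonneg _).trans_lt r0
  have qp := rp.trans q0
  obtain ⟨M, hM⟩ := c q qp q1
  have tn := tendsto_pi_nhds.1 t
  have hl : ∀ n, ‖l n‖ ≤ M / q ^ n := fun n => le_of_tendsto' (tn n).norm fun k => hM _ n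
  have g : Summable fun n => 2 * M * (r / q) ^ n := (summable_geometric_of_lt_one (by positivity) ((div_lt_one qp).2 q0)).mul_left _
  have bd : ∀ k n, ‖l n - a k n‖ * r ^ n ≤ 2 * M * (r / q) ^ n := fun k n =>
    (mul_le_mul_of_nonneg_right ((norm_sub_le _ _).trans (add_le_add (hl n) (hM k n))) (by positivity)).trans_eq (by
      rw [div_pow]; ring)
  have T := tendsto_tsum_of_dominated_convergence (f := fun k n => ‖l n - a (s k) n‖ * r ^ n) g
    (fun n => ((tendsto_const_nhds (x := l n)).sub (tn n)).norm.mul_const _)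
    (.of_forall fun k n => (Real.norm_of_nonneg (by positivity)).trans_le (bd _ n))
  simp only [sub_self, norm_zero, zero_mul, tsum_zero] at T
  refine ⟨ball 0 r, mem_nhdsWithin_of_mem_nhds (isOpen_ball.mem_nhds (mem_ball_zero_iff.2 r0)),
    Metric.tendstoUniformlyOn_iff.2 fun ε ε0 => (T.eventually (gt_mem_nhds ε0)).mono fun k hk z hz => ?_⟩
  have zr := (mem_ball_zero_iff.1 hz).le
  have h1 : HasSum (fun n => a (s k) n * z ^ n) (f (s k) z) := by
    simpa [ha, mul_assoc, mul_comm, mul_left_comm] using hasSum_taylorSeries_on_ball (d (s k)) (ball_subset_ball r1.le hz)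
  have sm : Summable fun n => ‖l n - a (s k) n‖ * r ^ n := .of_nonneg_of_le (fun _ => by positivity) (bd _) g
  have nb : ∀ n, ‖l n * z ^ n - a (s k) n * z ^ n‖ ≤ ‖l n - a (s k) n‖ * r ^ n := fun n => by
    rw [← sub_mul, norm_mul, norm_pow]; gcongr
  have h2 : Summable fun n => l n * z ^ n := by simpa using (sm.of_norm_bounded nb).add h1.summable
  rw [dist_eq_norm]
  exact ((h2.hasSum.sub h1).norm_le_of_bounded sm.hasSum nb).trans_lt hk

end Pool.Agent.Lib.Helper21.Montel
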