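import Pool.Agent.Lib.helper21.Morera

/-! The conjugate Cauchy potential. -/

set_option autoImplicit false

namespace Pool.Agent.Lib.Helper21.Morera

open MeasureTheory Set Real Metric Filter Topology ComplexConjugate

noncomputable def K (a : ℂ) : ℂ := (conj a)⁻¹

lemma mK : Measurable K := Complex.continuous_conj.measurable.inv

lemma iK : LocallyIntegrable K := locallyIntegrable_of_norm_le_rpow (by simp) (C := 1) (α := 1) (by simp)
  (.of_forall fun x => by simp [K, rpow_neg_one]) mK.aestronglyMeasurable

noncomputable def pot (k F : ℂ → ℂ) (z : ℂ) : ℂ := ∫ a, k a * F (z - a)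

lemma cpot {k F : ℂ → ℂ} (hk : LocallyIntegrable k) (c : Continuous F) (s : HasCompactSupport F) : Continuous (pot k F) :=
  s.continuous_convolution_right (ContinuousLinearMap.mul ℂ ℂ) hk c

lemma ipot {k F : ℂ → ℂ} (hk : LocallyIntegrable k) (c : Continuous F) (s : HasCompactSupport F) (z : ℂ) :
    Integrable fun a => k a * F (z - a) := s.convolutionExists_right (ContinuousLinearMap.mul ℂ ℂ) hk c z

lemma shift (k F : ℂ → ℂ) (z e : ℂ) : pot k F (z + e) = ∫ a, k (a + e) * F (z - a) := by
  rw [pot, ← integral_add_right_eq_self _ e]; simp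

lemma fub {F ω : ℂ → ℂ} (c : Continuous F) (s : HasCompactSupport F) (hω : Continuous ω) (z : ℂ) (r : ℝ) :
    circleAverage (fun e => ω e * pot K F (z + e)) 0 r = ∫ a, circleAverage (fun e => ω e * K (a + e)) 0 r * F (z - a) := by
  have m : Measurable fun p : ℝ × ℂ => ω (circleMap 0 r p.1) * (K (p.2 + circleMap 0 r p.1) * F (z - p.2)) :=
    .mul (by fun_prop) (.mul (mK.comp (by fun_prop)) (by fun_prop))
  have := cpot (k := fun a => (‖K a‖ : ℝ)) (F := fun a => (‖F a‖ : ℝ)) (fun x => (iK x).imp fun _ t => ⟨t.1, t.2.norm.ofReal⟩) (by fun_prop)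
    (s.comp_left (g := fun x : ℂ => ((‖x‖ : ℝ) : ℂ)) (by simp))
  have i := (integrable_prod_iff (μ := volume.restrict (uIoc 0 (2 * π))) (ν := volume) m.aestronglyMeasurable).2
    ⟨.of_forall fun θ => by
      simpa using ((ipot iK c s (z + circleMap 0 r θ)).comp_add_right (circleMap 0 r θ)).const_mul (ω (circleMap 0 r θ)),
    (intervalIntegrable_iff.1 (Continuous.intervalIntegrable (u := fun θ => ‖ω (circleMap 0 r θ)‖ *
      (pot (fun a => (‖K a‖ : ℝ)) (fun a => (‖F a‖ : ℝ)) (z + circleMap 0 r θ)).re) (by fun_prop) _ _)).congr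
      (.of_forall fun θ => by
        simp only [shift, norm_mul, integral_const_mul, ← Complex.ofReal_mul, integral_complex_ofReal, Complex.ofReal_re])⟩
  simp only [circleAverage, shift, ← integral_const_mul]
  rw [intervalIntegral_integral_swap i, ← integral_smul]
  simp only [← mul_assoc, intervalIntegral.integral_mul_const, smul_mul_assoc]

lemma ker {a : ℂ} {r : ℝ} (r0 : 0 < r) (h : ‖a‖ ≠ r) :
    circleAverage (fun e => 1 * K (a + e)) 0 r = K a - (ball 0 r).indicator K a ∧
    circleAverage (fun e => conj e * K (a + e)) 0 r = (ball 0 r).indicator 1 a := by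
  rcases h.lt_or_gt with d | d
  · have n : ∀ e : ℂ, ‖e‖ ≤ r → conj a * e + r ^ 2 ≠ 0 := fun e he t => by
      have := congrArg norm (eq_neg_of_add_eq_zero_left t)
      simp [abs_of_pos r0] at this
      nlinarith [norm_nonneg a, norm_nonneg e]
    have k : ∀ e : ℂ, conj e * e = r ^ 2 → ‖e‖ = r → K (a + e) = e / (conj a * e + r ^ 2) := fun e he t => by
      have : e ≠ 0 := norm_pos_iff.1 (t ▸ r0)
      rw [K, ← he, ← add_mul, div_mul_cancel_right₀ this, map_add]
    have r1 : (r : ℂ) ≠ 0 := by simpa using r0.ne'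
    rw [mv r0 (P := fun e => e / (conj a * e + r ^ 2)) (Q := 0) (fun e he => .div (by fun_prop) (by fun_prop) (n e he))
      (by fun_prop) fun e he t => by simp [k e he t],
      mv r0 (P := fun e => r ^ 2 / (conj a * e + r ^ 2)) (Q := 0) (fun e he => .div (by fun_prop) (by fun_prop) (n e he))
      (by fun_prop) fun e he t => by simp [k e he t, ← mul_div_assoc, he]]
    simp [indicator_of_mem (mem_ball_zero_iff.2 d), r1]
  · have n : ∀ e : ℂ, ‖e‖ ≤ r → a + e ≠ 0 := fun e he t => by
      have := congrArg norm (eq_neg_of_add_eq_zero_left t)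
      simp at this
      linarith
    rw [mv r0 (P := 0) (Q := fun e => (a + e)⁻¹) (by fun_prop) (fun e he => .inv (by fun_prop) (n e he))
      fun e he t => by simp [K], mv r0 (P := 0) (Q := fun e => e * (a + e)⁻¹) (by fun_prop)
      (fun e he => .mul (by fun_prop) (.inv (by fun_prop) (n e he))) fun e he t => by simp [K]]
    simp [indicator_of_notMem (show a ∉ ball 0 r from fun t => d.not_gt (mem_ball_zero_iff.1 t)), K]

lemma means {F : ℂ → ℂ} (c : Continuous F) (s : HasCompactSupport F) (z : ℂ) {r : ℝ} (r0 : 0 < r) :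
    circleAverage (fun e => pot K F (z + e)) 0 r - pot K F z = -∫ a in ball 0 r, K a * F (z - a) ∧
    circleAverage (fun e => conj e * pot K F (z + e)) 0 r = ∫ a in ball 0 r, F (z - a) := by
  have a : ∀ᵐ a : ℂ, ‖a‖ ≠ r := by
    simpa [ae_iff, sphere] using Measure.addHaar_sphere (volume : Measure ℂ) 0 r
  have := fub c s (ω := fun _ => 1) continuous_const z r
  simp only [one_mul (pot _ _ _)] at this
  rw [this, fub c s Complex.continuous_conj, ← integral_indicator measurableSet_ball, ← integral_indicator measurableSet_ball,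
    integral_congr_ae (a.mono fun a h => by rw [(ker r0 h).1, sub_mul, ← indicator_mul_left (g := fun a => F (z - a))]),
    integral_sub (ipot iK c s z) ((ipot iK c s z).indicator measurableSet_ball)]
  exact ⟨by simp [pot], integral_congr_ae (a.mono fun a h => by
    simp only [(ker r0 h).2, ← indicator_mul_left (g := fun a => F (z - a)), Pi.one_apply, one_mul])⟩

lemma polar {F : ℂ → ℂ} (c : Continuous F) (z : ℂ) (r : ℝ) :
    ∫ a in ball 0 r, K a * F (z - a) = ∫ t in Ioo 0 r, (Complex.I / t) * ∮ ζ in C(z, t), F ζ := by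
  have e : ∀ θ : ℝ, (Real.cos θ + Real.sin θ * Complex.I) = Complex.exp (θ * Complex.I) := fun θ => by
    simp [Complex.exp_mul_I]
  rw [← integral_indicator measurableSet_ball, ← Complex.integral_comp_polarCoord_symm, polarCoord_target,
    setIntegral_congr_fun (measurableSet_Ioi.prod measurableSet_Ioo) (g := (Iio r ×ˢ univ).indicator fun p : ℝ × ℝ =>
      Complex.exp (p.2 * Complex.I) * F (z - p.1 * Complex.exp (p.2 * Complex.I))) fun p hp => ?_,
    setIntegral_indicator (measurableSet_Iio.prod .univ), prod_inter_prod, inter_univ, Ioi_inter_Iio, Measure.volume_eq_prod,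
    setIntegral_prod _ ((ContinuousOn.integrableOn_compact (isCompact_Icc.prod isCompact_Icc) (by fun_prop)).mono_set
      (prod_mono Ioo_subset_Icc_self Ioo_subset_Icc_self))]
  · refine setIntegral_congr_fun measurableSet_Ioo fun t ht => ?_
    have t1 : (t : ℂ) ≠ 0 := by simpa using ht.1.ne'
    simp only [circleIntegral, ← intervalIntegral.integral_const_mul]
    rw [← integral_Ioc_eq_integral_Ioo, ← intervalIntegral.integral_of_le (by linarith [pi_pos]),
      ← zero_sub]
    refine Eq.trans (by ring_nf) ((intervalIntegral.integral_comp_sub_right (a := 0) (b := 2 * π) (fun θ : ℝ =>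
      Complex.exp (θ * Complex.I) * F (z - t * Complex.exp (θ * Complex.I))) π).symm.trans
        (intervalIntegral.integral_congr fun θ _ => ?_))
    simp [circleMap, sub_mul, Complex.exp_sub]
    field_simp
    simp
  · have p0 : 0 < p.1 := hp.1
    by_cases d : p.1 < r
    · rw [indicator_of_mem (show p ∈ Iio r ×ˢ univ from ⟨d, trivial⟩), indicator_of_mem (by simp [abs_of_pos p0, d]),
        Complex.polarCoord_symm_apply, e]
      have : (p.1 : ℂ) ≠ 0 := by simpa using p0.ne'
      simp [K, ← Complex.exp_conj, Complex.exp_neg]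
      field_simp
    · rw [indicator_of_notMem (show p ∉ Iio r ×ˢ univ from fun t => d t.1), indicator_of_notMem (by simp [abs_of_pos p0, d])]
      simp

end Pool.Agent.Lib.Helper21.Morera
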