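import Pool.Agent.Lib.helper21.Morera2

/-! Vanishing circular areolar derivative implies holomorphy. -/

set_option autoImplicit false

namespace Pool.Agent.Lib.Helper21.Morera

open MeasureTheory Set Real Metric Filter Topology ComplexConjugate

lemma lim {U : Set ℂ} (hU : IsOpen U) {G : ℂ → ℂ}
    (h : ∀ ε > 0, ∃ H, DifferentiableOn ℂ H U ∧ ∀ z ∈ U, ‖G z - H z‖ ≤ ε) : DifferentiableOn ℂ G U := by
  choose H d e using fun n : ℕ => h _ (Nat.one_div_pos_of_nat (n := n))
  refine TendstoLocallyUniformlyOn.differentiableOn (φ := atTop) (F := H) (TendstoUniformlyOn.tendstoLocallyUniformlyOn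
    (Metric.tendstoUniformlyOn_iff.2 fun ε ε0 => ?_)) (.of_forall d) hU
  filter_upwards [tendsto_one_div_add_atTop_nhds_zero_nat.eventually (gt_mem_nhds ε0)] with n hn z hz
  exact (dist_eq_norm _ _).trans_lt ((e n z hz).trans_lt hn)

lemma small {F : ℂ → ℂ} (c : Continuous F) (s : HasCompactSupport F) {z : ℂ}
    (h : Tendsto (fun r : ℝ => (∮ ζ in C(z, r), F ζ) / r ^ 2) (𝓝[>] 0) (𝓝 0)) :
    Tendsto (fun r : ℝ => (circleAverage (fun e => pot K F (z + e)) 0 r - pot K F z) / r ^ 2) (𝓝[>] 0) (𝓝 0) := by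
  refine Metric.nhds_basis_closedBall.tendsto_right_iff.2 fun ε ε0 => ?_
  obtain ⟨δ, δ0 : 0 < δ, hδ⟩ := mem_nhdsGT_iff_exists_Ioo_subset.1 (Metric.nhds_basis_closedBall.tendsto_right_iff.1 h ε ε0)
  filter_upwards [Ioo_mem_nhdsGT δ0] with r hr
  rw [mem_closedBall_zero_iff, (means c s z hr.1).1, polar c, norm_div, norm_neg, div_le_iff₀ (by simpa using pow_pos hr.1 2)]
  refine (norm_setIntegral_le_of_norm_le_const (C := ε * r) (by simp) fun t ht => ?_).trans (by
    simp [hr.1.le, abs_of_pos hr.1, sq, mul_assoc])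
  have k := mem_closedBall_zero_iff.1 (hδ ⟨ht.1, ht.2.trans hr.2⟩)
  rw [norm_div, div_le_iff₀ (by simpa using pow_pos ht.1 2)] at k
  simp only [norm_mul, norm_div, Complex.norm_I, norm_pow, Complex.norm_real, Real.norm_of_nonneg ht.1.le] at k ⊢
  rw [one_div_mul_eq_div, div_le_iff₀ ht.1]
  nlinarith [mul_pos ε0 ht.1, ht.2]

lemma core {F : ℂ → ℂ} (c : Continuous F) (s : HasCompactSupport F) {w : ℂ} {ρ : ℝ} (ρ0 : 0 < ρ)
    (h : ∀ z ∈ ball w ρ, Tendsto (fun r : ℝ => (∮ ζ in C(z, r), F ζ) / r ^ 2) (𝓝[>] 0) (𝓝 0)) :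
    DifferentiableOn ℂ F (ball w (ρ / 2)) := by
  refine lim isOpen_ball fun ε ε0 => ?_
  obtain ⟨δ, δ0, hδ⟩ := Metric.uniformContinuous_iff.1 (s.uniformContinuous_of_continuous c) (ε / 2) (by positivity)
  obtain ⟨r, r0, r1, r2⟩ : ∃ r, 0 < r ∧ r ≤ δ ∧ r ≤ ρ / 2 := ⟨min δ (ρ / 2), by positivity, min_le_left .., min_le_right ..⟩
  obtain ⟨V, hV⟩ : ∃ V, V = volume.real (ball (0 : ℂ) r) := ⟨_, rfl⟩
  have V0 : 0 < V := hV ▸ ENNReal.toReal_pos (measure_ball_pos _ _ r0).ne' measure_ball_lt_top.ne
  have g := cpot iK c s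
  obtain ⟨A, B, hA, hB, e⟩ := approx g w ρ0 (show 0 < ε / 2 * V / r by positivity)
  have cA := hA.continuous
  have cB := hB.continuous
  have m := maxp (by fun_prop) (fun z hz => (small c s (h z hz)).congr' (by
    filter_upwards [self_mem_nhdsWithin] with t ht
    rw [circleAverage_fun_sub (ci (by fun_prop) t) (ci (by fun_prop) t), mv ht (P := fun e => A (z + e)) (Q := fun e => B (z + e))
      (u := fun e => A (z + e) + conj (B (z + e))) (by fun_prop) (by fun_prop) fun _ _ _ => rfl]
    simp)) e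
  refine ⟨fun z => r ^ 2 / V * deriv A z, (hA.deriv.const_mul _).differentiableOn, fun z hz => ?_⟩
  have k := nrm (u := fun e => conj e * pot K F (z + e) - conj e * (A (z + e) + conj (B (z + e)))) (v := fun _ => ε / 2 * V)
    continuous_const r0 fun e he => by
      rw [← mul_sub, norm_mul, Complex.norm_conj, he, ← le_div_iff₀' r0]
      exact m _ (mem_closedBall.2 ((dist_triangle _ z _).trans (by have := mem_ball.1 hz; simp [he]; linarith)))
  rw [circleAverage_const, circleAverage_fun_sub (ci (by fun_prop) r) (ci (by fun_prop) r), (means c s z r0).2,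
    mv r0 (P := fun e => r ^ 2 * dslope (fun e => A (z + e)) 0 e) (Q := fun e => e * (conj (A z) + B (z + e))) (fun e _ => .const_mul
      (((Complex.differentiableOn_dslope univ_mem).2 (by fun_prop)).differentiableAt univ_mem) _) (by fun_prop) fun e he t => by
      have := sub_smul_dslope (fun e => A (z + e)) 0 e
      simp only [sub_zero, add_zero, smul_eq_mul] at this
      simp only [← he, mul_assoc, this, map_mul, map_add, Complex.conj_conj]
      ring] at k
  have i : IntegrableOn (fun a => F (z - a)) (ball 0 r) :=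
    (ContinuousOn.integrableOn_compact (isCompact_closedBall 0 r) (by fun_prop)).mono_set ball_subset_closedBall
  have l := norm_setIntegral_le_of_norm_le_const (μ := volume) (f := fun a => F z - F (z - a)) (C := ε / 2)
    (measure_ball_lt_top (x := (0 : ℂ)) (r := r)) fun a ha => by
      rw [← dist_eq_norm]; exact (hδ (by simpa using (mem_ball_zero_iff.1 ha).trans_le r1)).le
  rw [integral_sub (f := fun _ => F z) (integrableOn_const measure_ball_lt_top.ne) i, setIntegral_const, ← hV] at l
  have V1 : (V : ℂ) ≠ 0 := by simpa using V0.ne'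
  have := (norm_add_le _ _).trans (add_le_add l k)
  beta_reduce
  rw [show F z - r ^ 2 / V * deriv A z = (V • F z - r ^ 2 * deriv A z) / V by simp; field_simp, norm_div,
    Complex.norm_real, Real.norm_of_nonneg V0.le, div_le_iff₀ V0]
  simp [deriv_comp_const_add] at this ⊢
  linarith

theorem main {D : Set ℂ} (hD : IsOpen D) {f : ℂ → ℂ} (hf : ContinuousOn f D)
    (h : ∀ z ∈ D, Tendsto (fun r : ℝ => (∮ ζ in C(z, r), f ζ) / r ^ 2) (𝓝[>] 0) (𝓝 0)) : DifferentiableOn ℂ f D := by
  intro w hw
  obtain ⟨ρ, ρ0, b⟩ := Metric.nhds_basis_closedBall.mem_iff.1 (hD.mem_nhds hw)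
  let χ : ContDiffBump w := ⟨ρ / 2, ρ, by positivity, by linarith⟩
  have t : tsupport (fun z => χ z • f z) ⊆ closedBall w ρ := (tsupport_smul_subset_left _ _).trans χ.tsupport_eq.subset
  have o : ∀ z ∈ ball w (ρ / 2), χ z • f z = f z := fun z hz => by
    rw [χ.one_of_mem_closedBall (ball_subset_closedBall hz), one_smul]
  have k := core ((χ.continuous.continuousOn.smul hf).continuous_of_tsupport_subset hD (t.trans b))
    ((isCompact_closedBall w ρ).of_isClosed_subset (isClosed_tsupport _) t) (w := w) (half_pos ρ0) fun z hz =>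
      (h z (b (closedBall_subset_closedBall (by linarith) (ball_subset_closedBall hz)))).congr' (by
        filter_upwards [Ioo_mem_nhdsGT (sub_pos.2 (mem_ball.1 hz))] with r hr
        rw [circleIntegral.integral_congr hr.1.le fun x hx => (o x (mem_ball.2 ((dist_triangle _ z _).trans_lt (by
          have := hr.2; rw [mem_sphere.1 hx]; linarith)))).symm]
        rfl)
  exact ((k.congr fun z hz => (o z (ball_subset_ball (by linarith) hz)).symm).differentiableAt
    (ball_mem_nhds _ (by positivity))).differentiableWithinAt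

end Pool.Agent.Lib.Helper21.Morera
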