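import Mathlib

set_option maxHeartbeats 400000

open Set Filter Topology
open scoped ZeroAtInfty ENNReal

namespace Pool.Agent.Lib.Helper21.NA1

abbrev C0 : Type := C₀(ℕ, ℝ)

lemma abs_le (x : C0) (k : ℕ) : |x k| ≤ ‖x‖ := by
  rw [← ZeroAtInftyContinuousMap.norm_toBCF_eq_norm]
  exact x.toBCF.norm_coe_le_norm k

lemma norm_le {x : C0} {C : ℝ} (hC : 0 ≤ C) (h : ∀ k, |x k| ≤ C) : ‖x‖ ≤ C := by
  rw [← ZeroAtInftyContinuousMap.norm_toBCF_eq_norm]
  exact (BoundedContinuousFunction.norm_le hC).2 h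

noncomputable def ev (k : ℕ) : C0 →L[ℝ] ℝ :=
  LinearMap.mkContinuous ⟨⟨fun x => x k, fun _ _ => rfl⟩, fun _ _ => rfl⟩ 1
    fun x => by simpa using abs_le x k

@[simp] lemma ev_apply (k : ℕ) (x : C0) : ev k x = x k := rfl

noncomputable def e (n : ℕ) : C0 where
  toFun := fun k => if k = n then 1 else 0
  continuous_toFun := continuous_of_discreteTopology
  zero_at_infty' := by
    rw [cocompact_eq_cofinite, Nat.cofinite_eq_atTop]
    refine tendsto_const_nhds.congr' ?_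
    filter_upwards [eventually_gt_atTop n] with k hk
    rw [if_neg hk.ne']

lemma e_apply (n k : ℕ) : e n k = if k = n then 1 else 0 := rfl

lemma small (x : C0) {ε : ℝ} (hε : 0 < ε) : ∃ N, ∀ k, N ≤ k → |x k| ≤ ε := by
  have h := x.zero_at_infty'
  rw [cocompact_eq_cofinite, Nat.cofinite_eq_atTop] at h
  obtain ⟨N, hN⟩ := Metric.tendsto_atTop.1 h ε hε
  exact ⟨N, fun k hk => by simpa using (hN k hk).le⟩

lemma sum_apply (s : Finset ℕ) (f : ℕ → C0) (k : ℕ) : (∑ i ∈ s, f i) k = ∑ i ∈ s, f i k :=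
  map_sum (ev k) f s

instance : TopologicalSpace.SeparableSpace C0 := by
  rw [← TopologicalSpace.isSeparable_univ_iff]
  refine ((countable_range e).isSeparable.span (R := ℝ)).closure.mono fun x _ => ?_
  rw [Metric.mem_closure_iff]
  intro ε hε
  obtain ⟨N, hN⟩ := small x (half_pos hε)
  refine ⟨∑ i ∈ Finset.range N, x i • e i, Submodule.sum_mem _ fun i _ =>
    Submodule.smul_mem _ _ (Submodule.subset_span (mem_range_self i)), ?_⟩
  rw [dist_eq_norm]
  refine (norm_le (half_pos hε).le fun k => ?_).trans_lt (half_lt_self hε)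
  change |x k - (∑ i ∈ Finset.range N, x i • e i) k| ≤ _
  rw [sum_apply]
  have : ∀ i, (x i • e i) k = if k = i then x i else 0 := fun i => by
    change x i * e i k = _
    rw [e_apply]; split_ifs <;> simp
  simp only [this, Finset.sum_ite_eq, Finset.mem_range]
  split_ifs with h
  · simpa using (half_pos hε).le
  · simpa using hN k (not_lt.1 h)

abbrev W : Type := C0 × C0

instance : SecondCountableTopology W := UniformSpace.secondCountable_of_separable W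

instance : Nonempty (Metric.closedBall (0:W) 1) := ⟨⟨0, by simp⟩⟩

noncomputable def d (a : ℕ) : W := (TopologicalSpace.denseSeq (Metric.closedBall (0:W) 1) a).1

lemma d_le (a : ℕ) : ‖d a‖ ≤ 1 :=
  mem_closedBall_zero_iff.1 (TopologicalSpace.denseSeq (Metric.closedBall (0:W) 1) a).2

noncomputable def p (i : ℕ × ℕ) : W := d i.1 + (0, (3:ℝ) • e (Nat.pair i.1 i.2))

lemma e_norm (n : ℕ) : ‖e n‖ ≤ 1 := norm_le zero_le_one fun k => by
  rw [e_apply]; split_ifs <;> simp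

lemma p_le (i : ℕ × ℕ) : ‖p i‖ ≤ 4 := by
  have h1 := d_le i.1
  have h2 : ‖((0:C0), (3:ℝ) • e (Nat.pair i.1 i.2))‖ ≤ 3 := by
    rw [Prod.norm_def, norm_smul]
    have := e_norm (Nat.pair i.1 i.2)
    simp only [norm_zero, Real.norm_ofNat]
    exact max_le (by norm_num) (by linarith)
  exact (norm_add_le _ _).trans (by linarith)

abbrev Phi : Type := {φ : W →L[ℝ] ℝ // ∀ i, |φ (p i)| ≤ 1}

lemma phi_d (φ : Phi) (a : ℕ) : |φ.1 (d a)| ≤ 1 := by
  apply le_of_forall_pos_le_add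
  intro ε hε
  obtain ⟨n, hn⟩ := exists_nat_gt (3 * ‖φ.1‖ / ε)
  have hn0 : (0:ℝ) < n := lt_of_le_of_lt (by positivity) hn
  set s : C0 := ∑ k ∈ Finset.range n, e (Nat.pair a k) with hs
  have h1 : ‖s‖ ≤ 1 := norm_le zero_le_one fun m => by
    rw [hs, sum_apply]
    simp only [e_apply]
    rw [Finset.sum_boole, Nat.abs_cast]
    norm_cast
    refine Finset.card_le_one.2 fun k hk l hl => ?_
    have := (Finset.mem_filter.1 hk).2.symm.trans (Finset.mem_filter.1 hl).2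
    exact (Nat.pair_eq_pair.1 this).2
  have h2 : ∑ k ∈ Finset.range n, p (a, k) = (n:ℝ) • d a + (3:ℝ) • ((0:C0), s) := by
    simp only [p, Finset.sum_add_distrib, Finset.sum_const, Finset.card_range]
    rw [Nat.cast_smul_eq_nsmul ℝ n (d a)]
    congr 1
    ext1
    · simp [Prod.fst_sum]
    · simp [Prod.snd_sum, hs, Finset.smul_sum]
  have h3 : |φ.1 (∑ k ∈ Finset.range n, p (a, k))| ≤ n := by
    rw [map_sum]
    refine (Finset.abs_sum_le_sum_abs _ _).trans ?_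
    simpa using Finset.sum_le_card_nsmul (Finset.range n) _ 1 fun k _ => φ.2 (a, k)
  have h4 : |φ.1 ((0:C0), s)| ≤ ‖φ.1‖ := by
    have := φ.1.le_opNorm ((0:C0), s)
    have h5 : ‖((0:C0), s)‖ ≤ 1 := by rw [Prod.norm_def]; simpa using h1
    exact this.trans (mul_le_of_le_one_right (norm_nonneg _) h5)
  rw [h2, map_add, map_smul, map_smul, smul_eq_mul, smul_eq_mul] at h3
  rw [div_lt_iff₀ hε] at hn
  rw [_root_.abs_le] at h3 h4 ⊢
  constructor <;> nlinarith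

lemma phi_le (φ : Phi) (w : W) : |φ.1 w| ≤ ‖w‖ := by
  have h : ∀ b : Metric.closedBall (0:W) 1, |φ.1 b.1| ≤ 1 := fun b =>
    (TopologicalSpace.denseRange_denseSeq (Metric.closedBall (0:W) 1)).induction_on b
      (isClosed_le (by fun_prop) continuous_const) (phi_d φ)
  have h1 : ‖φ.1‖ ≤ 1 := φ.1.opNorm_le_of_unit_norm zero_le_one fun x hx =>
    h ⟨x, by simp [hx]⟩
  exact (φ.1.le_opNorm w).trans (mul_le_of_le_one_left (norm_nonneg _) h1)

noncomputable def J : W →L[ℝ] lp (fun _ : Phi => ℝ) ∞ :=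
  LinearMap.mkContinuous
    ⟨⟨fun w => ⟨fun φ => φ.1 w, memℓp_infty ⟨‖w‖, by rintro _ ⟨φ, rfl⟩; exact phi_le φ w⟩⟩,
      fun x y => by ext φ; exact map_add φ.1 x y⟩, fun _ _ => by ext φ; simp⟩ 1
    fun w => lp.norm_le_of_forall_le (by positivity) fun φ => by simpa using phi_le φ w

lemma le_J (φ : Phi) (w : W) : |φ.1 w| ≤ ‖J w‖ :=
  lp.norm_apply_le_norm ENNReal.top_ne_zero (J w) φ

lemma J_le {w : W} {C : ℝ} (hC : 0 ≤ C) (h : ∀ φ : Phi, |φ.1 w| ≤ C) : ‖J w‖ ≤ C :=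
  lp.norm_le_of_forall_le hC h

lemma J_lower (w : W) : ‖w‖ ≤ 4 * ‖J w‖ := by
  obtain ⟨g, hg, hw⟩ := exists_dual_vector'' ℝ w
  have := le_J ⟨(1 / 4 : ℝ) • g, fun i => by
    have h1 := g.le_opNorm (p i)
    have h2 := p_le i
    have h3 : ‖g‖ * ‖p i‖ ≤ 1 * 4 := by gcongr
    simp only [smul_apply, smul_eq_mul, abs_mul]
    rw [Real.norm_eq_abs] at h1
    rw [abs_of_pos (by norm_num : (0:ℝ) < 1 / 4)]
    linarith⟩ w
  simp only [smul_apply, smul_eq_mul, hw] at this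
  have h4 := le_abs_self (1 / 4 * ((‖w‖ : ℝ) : ℝ))
  simp only [RCLike.ofReal_real_eq_id, id] at this
  linarith

lemma J_fst (w : W) : ‖w.1‖ ≤ ‖J w‖ := by
  obtain ⟨g, hg, hw⟩ := exists_dual_vector'' ℝ w.1
  have := le_J ⟨g.comp (ContinuousLinearMap.fst ℝ C0 C0), fun i => by
    have h1 := g.le_opNorm (p i).1
    have h2 : ‖(p i).1‖ ≤ 1 := by
      have : (p i).1 = (d i.1).1 := by simp [p]
      rw [this]; exact (norm_fst_le _).trans (d_le _)
    have h3 : ‖g‖ * ‖(p i).1‖ ≤ 1 * 1 := by gcongr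
    change |g (p i).1| ≤ 1
    rw [Real.norm_eq_abs] at h1
    linarith⟩ w
  change |g w.1| ≤ _ at this
  rw [hw] at this
  exact (le_abs_self _).trans this

noncomputable def q (i : ℕ × ℕ) : W →L[ℝ] ℝ :=
  (3 + (d i.1).2 (Nat.pair i.1 i.2))⁻¹ • (ev (Nat.pair i.1 i.2)).comp (ContinuousLinearMap.snd ℝ C0 C0)

lemma d2 (a k : ℕ) : |(d a).2 k| ≤ 1 := (abs_le _ _).trans ((norm_snd_le _).trans (d_le a))

lemma q_p (i j : ℕ × ℕ) : q i (p j) = (3 + (d i.1).2 (Nat.pair i.1 i.2))⁻¹ *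
    ((d j.1).2 (Nat.pair i.1 i.2) + 3 * e (Nat.pair j.1 j.2) (Nat.pair i.1 i.2)) := rfl

lemma q_self (i : ℕ × ℕ) : q i (p i) = 1 := by
  have := _root_.abs_le.1 (d2 i.1 (Nat.pair i.1 i.2))
  rw [q_p, e_apply, if_pos rfl, mul_one, add_comm _ (3:ℝ), inv_mul_cancel₀ (by linarith)]

lemma q_ne {i j : ℕ × ℕ} (h : j ≠ i) : |q i (p j)| ≤ 1 / 2 := by
  have h1 := _root_.abs_le.1 (d2 i.1 (Nat.pair i.1 i.2))
  have h2 := d2 j.1 (Nat.pair i.1 i.2)
  have h3 : Nat.pair i.1 i.2 ≠ Nat.pair j.1 j.2 := fun h' =>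
    h (Prod.ext (Nat.pair_eq_pair.1 h').1.symm (Nat.pair_eq_pair.1 h').2.symm)
  rw [q_p, e_apply, if_neg h3, mul_zero, add_zero, abs_mul, abs_inv, abs_of_pos (by linarith),
    inv_mul_le_iff₀ (by linarith)]
  linarith

lemma q_le (i j : ℕ × ℕ) : |q i (p j)| ≤ 1 := by
  by_cases h : j = i
  · rw [h, q_self]; simp
  · exact (q_ne h).trans (by norm_num)

end Pool.Agent.Lib.Helper21.NA1
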