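import Pool.Agent.Lib.helper21.NA1

set_option maxHeartbeats 400000

open Set Filter Topology
open scoped ENNReal

namespace Pool.Agent.Lib.Helper21.NA2

open Pool.Agent.Lib.Helper21.NA1

lemma anti {A B : Type} [NormedAddCommGroup A] [NormedSpace ℝ A] [CompleteSpace A]
    [NormedAddCommGroup B] [NormedSpace ℝ B] (f : A →L[ℝ] B) (h : ∀ a, ‖a‖ ≤ 4 * ‖f a‖) :
    Function.Injective f ∧ IsClosed (range f) := by
  have : AntilipschitzWith 4 f := f.antilipschitz_of_bound (K := 4) (by exact_mod_cast h)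
  exact ⟨this.injective, this.isClosed_range f.uniformContinuous⟩

abbrev L2 : Type := lp (fun _ : ℕ => ℝ) 2

lemma bd (x : C0) (s : Finset ℕ) :
    ∑ i ∈ s, ‖(1 / 2 : ℝ) ^ i * x i‖ ^ (2 : ℝ≥0∞).toReal ≤ (2 * ‖x‖) ^ (2 : ℝ≥0∞).toReal := by
  simp only [ENNReal.toReal_ofNat, Real.rpow_ofNat]
  have h1 : ∀ i ∈ s, ‖(1 / 2 : ℝ) ^ i * x i‖ ^ 2 ≤ (1 / 2 : ℝ) ^ i * ‖x‖ ^ 2 := fun i _ => by
    rw [norm_mul, mul_pow, Real.norm_of_nonneg (by positivity), Real.norm_eq_abs]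
    have a1 : ((1 / 2 : ℝ) ^ i) ^ 2 ≤ (1 / 2 : ℝ) ^ i := by
      have : (1 / 2 : ℝ) ^ i ≤ 1 := pow_le_one₀ (by norm_num) (by norm_num)
      have : (0:ℝ) ≤ (1 / 2 : ℝ) ^ i := by positivity
      nlinarith
    have a2 := abs_le x i
    gcongr
  refine (Finset.sum_le_sum h1).trans ?_
  rw [← Finset.sum_mul]
  have := summable_geometric_two.sum_le_tsum s (fun i _ => by positivity)
  rw [tsum_geometric_two] at this
  nlinarith [sq_nonneg ‖x‖]

noncomputable def D : C0 →L[ℝ] L2 :=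
  LinearMap.mkContinuous
    ⟨⟨fun x => ⟨fun i => (1 / 2 : ℝ) ^ i * x i, memℓp_gen' (bd x)⟩,
      fun x y => by ext i; exact mul_add _ _ _⟩,
      fun c x => by ext i; exact mul_left_comm _ _ _⟩ 2
    fun x => lp.norm_le_of_forall_sum_le (by simp) (by positivity) (bd x)

noncomputable def j : C0 →L[ℝ] WithLp 2 (C0 × L2) :=
  ((WithLp.prodContinuousLinearEquiv 2 ℝ C0 L2).symm : C0 × L2 →L[ℝ] _).comp
    ((ContinuousLinearMap.id ℝ C0).prod D)

lemma j_sq (x : C0) : ‖j x‖ ^ 2 = ‖x‖ ^ 2 + ‖D x‖ ^ 2 := WithLp.prod_norm_sq_eq_of_L2 _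

lemma j_ge (x : C0) : ‖x‖ ≤ ‖j x‖ :=
  (abs_le_of_sq_le_sq' (by rw [j_sq]; nlinarith [sq_nonneg ‖D x‖]) (norm_nonneg _)).2

lemma j_lower (x : C0) : ‖x‖ ≤ 4 * ‖j x‖ := by linarith [j_ge x, norm_nonneg (j x)]

def V : Type := j.range

noncomputable instance : NormedAddCommGroup V := inferInstanceAs (NormedAddCommGroup j.range)
noncomputable instance : NormedSpace ℝ V := inferInstanceAs (NormedSpace ℝ j.range)

instance : CompleteSpace V := (anti j j_lower).2.completeSpace_coe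

noncomputable def eV : C0 ≃L[ℝ] V := j.equivRange (anti j j_lower).1 (anti j j_lower).2

lemma quant (y h : V) : 2 * ‖y‖ ^ 2 + 2 * ‖D (eV.symm h)‖ ^ 2 ≤ ‖y + h‖ ^ 2 + ‖y - h‖ ^ 2 := by
  obtain ⟨a, rfl⟩ := eV.surjective y
  obtain ⟨b, rfl⟩ := eV.surjective h
  rw [← map_add, ← map_sub, eV.symm_apply_apply]
  change 2 * ‖j a‖ ^ 2 + _ ≤ ‖j (a + b)‖ ^ 2 + ‖j (a - b)‖ ^ 2
  rw [j_sq, j_sq, j_sq, map_add, map_sub]
  have s3 := parallelogram_law_with_norm ℝ (D a) (D b)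
  have s4 : 2 * ‖a‖ ≤ ‖a + b‖ + ‖a - b‖ := by
    have : (2:ℝ) • a = (a + b) + (a - b) := by module
    have h5 := norm_add_le (a + b) (a - b)
    rw [← this, norm_smul] at h5
    simpa using h5
  nlinarith [sq_nonneg (‖a + b‖ - ‖a - b‖), norm_nonneg a, norm_nonneg (a + b),
    norm_nonneg (a - b)]

lemma zero_of {h : V} (h0 : ‖D (eV.symm h)‖ ^ 2 ≤ 0) : h = 0 := by
  obtain ⟨b, rfl⟩ := eV.surjective h
  rw [eV.symm_apply_apply] at h0
  have s6 : D b = 0 := by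
    rw [← norm_eq_zero]
    exact pow_eq_zero_iff (two_ne_zero) |>.1 (le_antisymm h0 (sq_nonneg _))
  have s7 : b = 0 := by
    ext i
    have : (1 / 2 : ℝ) ^ i * b i = 0 := congrArg (fun z : L2 => z i) s6
    exact (mul_eq_zero.1 this).resolve_left (by positivity)
  rw [s7, map_zero]

lemma D_e (n : ℕ) : ‖D (e n)‖ = (1 / 2 : ℝ) ^ n := by
  have : D (e n) = lp.single 2 n ((1 / 2 : ℝ) ^ n) := by
    ext i
    change (1 / 2 : ℝ) ^ i * e n i = _
    rw [e_apply, lp.single_apply]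
    split_ifs with h
    · subst h; simp
    · simp [h]
  rw [this, lp.norm_single (by norm_num), Real.norm_of_nonneg (by positivity)]

lemma eV_le (x : C0) : ‖eV x‖ ≤ ‖x‖ + ‖D x‖ := by
  change ‖j x‖ ≤ _
  refine (abs_le_of_sq_le_sq' ?_ (by positivity)).2
  rw [j_sq]
  nlinarith [norm_nonneg x, norm_nonneg (D x)]

lemma bad {X : Type} [NormedAddCommGroup X] [NormedSpace ℝ X] (c0 c1 : X →L[ℝ] ℝ) (b0 b1 : X)
    (h0 : ∀ x, |c0 x| ≤ ‖x‖) (h1 : ∀ x, |c1 x| ≤ ‖x‖) (a00 : c0 b0 = 1) (a11 : c1 b1 = 1)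
    (n0 : ‖b0‖ = 1) {η : ℝ} (hη : 0 < η) :
    ∃ T : X →L[ℝ] V, ‖T‖ = 1 ∧ 1 - η < ‖T b0‖ ∧ 1 / 2 ≤ ‖T b1‖ := by
  obtain ⟨n, hn⟩ := exists_pow_lt_of_lt_one (x := min η 1 / 2) (y := (1 / 2 : ℝ))
    (by positivity) (by norm_num)
  set L : X →L[ℝ] C0 := c0.smulRight (e n) + c1.smulRight (e (n + 1)) with hL
  have La : ∀ x, L x = c0 x • e n + c1 x • e (n + 1) := fun x => rfl
  have Lk : ∀ x k, L x k = c0 x * e n k + c1 x * e (n + 1) k := fun x k => rfl
  set T : X →L[ℝ] V := (eV : C0 →L[ℝ] V).comp L with hT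
  have t0 : 1 ≤ ‖T b0‖ := by
    have := (abs_le (L b0) n).trans (j_ge _)
    rw [Lk, e_apply, e_apply, a00] at this
    change 1 ≤ ‖j (L b0)‖
    simpa using this
  have t1 : 1 ≤ ‖T b1‖ := by
    have := (abs_le (L b1) (n + 1)).trans (j_ge _)
    rw [Lk, e_apply, e_apply, a11] at this
    change 1 ≤ ‖j (L b1)‖
    simpa using this
  have hp : (0:ℝ) < (1 / 2) ^ n := by positivity
  have tn : ‖T‖ ≤ 1 + min η 1 := by
    refine T.opNorm_le_bound (by positivity) fun x => (eV_le (L x)).trans ?_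
    have p1 : ‖L x‖ ≤ ‖x‖ := norm_le (norm_nonneg _) fun k => by
      rw [Lk, e_apply, e_apply]
      split_ifs with k1 k2 k2
      · omega
      · simpa using h0 x
      · simpa using h1 x
      · simp
    have p2 : ‖D (L x)‖ ≤ ‖x‖ * (1 / 2) ^ n + ‖x‖ * (1 / 2) ^ n := by
      rw [La, map_add, map_smul, map_smul]
      refine (norm_add_le _ _).trans (add_le_add ?_ ?_)
      · rw [norm_smul, D_e, Real.norm_eq_abs]; gcongr; exact h0 x
      · rw [norm_smul, D_e, Real.norm_eq_abs, pow_succ]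
        have := h1 x
        have := abs_nonneg (c1 x)
        nlinarith
    have := norm_nonneg x
    nlinarith
  have tl : 1 ≤ ‖T‖ := t0.trans (by simpa [n0] using T.le_opNorm b0)
  have tp : 0 < ‖T‖ := by linarith
  have m1 := min_le_left η 1
  have m2 := min_le_right η 1
  refine ⟨‖T‖⁻¹ • T, by rw [norm_smul, norm_inv, norm_norm, inv_mul_cancel₀ tp.ne'], ?_, ?_⟩
  · rw [smul_apply, norm_smul, norm_inv, norm_norm, lt_inv_mul_iff₀ tp]
    nlinarith
  · rw [smul_apply, norm_smul, norm_inv, norm_norm, le_inv_mul_iff₀ tp]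
    nlinarith

abbrev I : Type := {u : StrongDual ℝ V // ‖u‖ ≤ 1} × ℕ
abbrev Linf : Type := lp (fun _ : I => ℝ) ∞

lemma co (z : Linf) (i : I) : |z i| ≤ ‖z‖ := lp.norm_apply_le_norm ENNReal.top_ne_zero z i

def Z0 : Submodule ℝ Linf where
  carrier := {z | ∀ u, Tendsto (fun n => z (u, n)) atTop (𝓝 0)}
  add_mem' := fun {a b} ha hb u => by simpa using (ha u).add (hb u)
  zero_mem' := fun u => by simpa using tendsto_const_nhds
  smul_mem' := fun c a ha u => by simpa using (ha u).const_mul c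

lemma Z0_closed : IsClosed (Z0 : Set Linf) := by
  refine isClosed_of_closure_subset fun z hz u => Metric.tendsto_atTop.2 fun ε hε => ?_
  obtain ⟨w, hw, hd⟩ := Metric.mem_closure_iff.1 hz (ε / 2) (half_pos hε)
  obtain ⟨N, hN⟩ := Metric.tendsto_atTop.1 (hw u) (ε / 2) (half_pos hε)
  refine ⟨N, fun n hn => ?_⟩
  have h1 := hN n hn
  have h2 : |z (u, n) - w (u, n)| ≤ ‖z - w‖ := co (z - w) (u, n)
  rw [dist_eq_norm] at hd
  rw [Real.dist_eq, sub_zero] at h1 ⊢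
  have := abs_sub_abs_le_abs_sub (z (u, n)) (w (u, n))
  linarith

def Z : Type := Z0
noncomputable instance : NormedAddCommGroup Z := inferInstanceAs (NormedAddCommGroup Z0)
noncomputable instance : NormedSpace ℝ Z := inferInstanceAs (NormedSpace ℝ Z0)
instance : CompleteSpace Z := Z0_closed.completeSpace_coe

lemma u_le (i : I) (y : V) : |i.1.1 y| ≤ ‖y‖ :=
  (i.1.1.le_opNorm y).trans (mul_le_of_le_one_left (norm_nonneg _) i.1.2)

lemma K_bd (w : V × Z) (i : I) : |i.1.1 w.1 + w.2.1 i| ≤ 2 * ‖w‖ := by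
  have h1 := u_le i w.1
  have h2 : |w.2.1 i| ≤ ‖w.2‖ := co w.2.1 i
  have := norm_fst_le w
  have := norm_snd_le w
  exact (abs_add_le _ _).trans (by linarith)

noncomputable def K : V × Z →L[ℝ] Linf :=
  LinearMap.mkContinuous
    ⟨⟨fun w => ⟨fun i => i.1.1 w.1 + w.2.1 i,
      memℓp_infty ⟨2 * ‖w‖, by rintro _ ⟨i, rfl⟩; exact K_bd w i⟩⟩,
      fun x y => by
        ext i
        change i.1.1 (x.1 + y.1) + (x.2.1 i + y.2.1 i) = i.1.1 x.1 + x.2.1 i + (i.1.1 y.1 + y.2.1 i)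
        rw [map_add]; ring⟩,
      fun c x => by
        ext i
        change i.1.1 (c • x.1) + c * x.2.1 i = c * (i.1.1 x.1 + x.2.1 i)
        rw [map_smul, smul_eq_mul]; ring⟩ 2
    fun w => lp.norm_le_of_forall_le (by positivity) fun i => K_bd w i

lemma K_fst (w : V × Z) : ‖w.1‖ ≤ ‖K w‖ := by
  obtain ⟨g, hg, hw⟩ := exists_dual_vector'' ℝ w.1
  have h1 : Tendsto (fun n => g w.1 + w.2.1 (⟨g, hg⟩, n)) atTop (𝓝 (g w.1 + 0)) :=
    tendsto_const_nhds.add (w.2.2 ⟨g, hg⟩)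
  have h2 := le_of_tendsto' h1 fun n => (le_abs_self _).trans (co (K w) (⟨g, hg⟩, n))
  rw [hw, add_zero] at h2
  exact h2

lemma K_lower (w : V × Z) : ‖w‖ ≤ 4 * ‖K w‖ := by
  have h1 := K_fst w
  have h2 : ‖w.2‖ ≤ 2 * ‖K w‖ := lp.norm_le_of_forall_le (f := w.2.1) (by positivity) fun i => by
    have a1 : |i.1.1 w.1 + w.2.1 i| ≤ ‖K w‖ := co (K w) i
    have a2 := u_le i w.1
    rw [Real.norm_eq_abs, _root_.abs_le] at *
    constructor <;> linarith [a1.1, a1.2, a2.1, a2.2]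
  have := norm_nonneg (K w)
  rw [Prod.norm_def]
  exact max_le (by linarith) (by linarith)

def Y : Type := K.range
noncomputable instance : NormedAddCommGroup Y := inferInstanceAs (NormedAddCommGroup K.range)
noncomputable instance : NormedSpace ℝ Y := inferInstanceAs (NormedSpace ℝ K.range)
instance : CompleteSpace Y := (anti K K_lower).2.completeSpace_coe

noncomputable def eY : (V × Z) ≃L[ℝ] Y := K.equivRange (anti K K_lower).1 (anti K K_lower).2

noncomputable def cd (i : I) : Y →L[ℝ] ℝ :=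
  LinearMap.mkContinuous ⟨⟨fun y => y.1 i, fun _ _ => rfl⟩, fun _ _ => rfl⟩ 1
    fun y => by rw [one_mul]; exact co y.1 i

lemma cd_le (i : I) (y : Y) : |cd i y| ≤ ‖y‖ := co y.1 i

lemma Y_le {y : Y} {C : ℝ} (hC : 0 ≤ C) (h : ∀ i, |cd i y| ≤ C) : ‖y‖ ≤ C :=
  lp.norm_le_of_forall_le (f := y.1) hC h

open Classical in
noncomputable def E (i : I) : Y := eY (0, ⟨lp.single ∞ i 1, fun u => by
  refine tendsto_const_nhds.congr' ?_
  filter_upwards [eventually_gt_atTop i.2] with n hn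
  rw [lp.single_apply, Pi.single_eq_of_ne]
  rintro rfl
  exact lt_irrefl _ hn⟩)

open Classical in
lemma cd_E (i k : I) : cd k (E i) = if k = i then 1 else 0 := by
  change k.1.1 0 + lp.single (E := fun _ : I => ℝ) ∞ i 1 k = _
  rw [map_zero, zero_add, lp.single_apply]
  split_ifs with h
  · subst h; simp
  · simp [h]

lemma beta {X : Type} [NormedAddCommGroup X] [NormedSpace ℝ X] (T : X →L[ℝ] Y) (hT : ‖T‖ = 1)
    (x : X) {r : ℝ} (hr : 0 ≤ r) (h : r < ‖T x‖) : ∃ f : X →L[ℝ] ℝ, ‖f‖ ≤ 1 ∧ r < f x ∧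
      ∀ g : X →L[ℝ] ℝ, ‖g‖ ≤ 1 → ∃ S : X →L[ℝ] Y, ‖S‖ ≤ 1 ∧ ‖S - T‖ ≤ ‖g - f‖ ∧
        ∀ v, |g v| ≤ ‖S v‖ := by
  classical
  obtain ⟨i, hi⟩ : ∃ i, r < |cd i (T x)| := by
    by_contra hc
    simp only [not_exists, not_lt] at hc
    exact absurd (Y_le hr hc) (not_le.2 h)
  obtain ⟨σ, h1, h2⟩ : ∃ σ : ℝ, |σ| = 1 ∧ σ * cd i (T x) = |cd i (T x)| := by
    rcases le_total 0 (cd i (T x)) with h' | h'
    · exact ⟨1, by simp, by simp [abs_of_nonneg h']⟩
    · exact ⟨-1, by simp, by simp [abs_of_nonpos h']⟩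
  have h3 : σ * σ = 1 := by rw [← abs_mul_abs_self, h1, one_mul]
  have hTv : ∀ k v, |cd k (T v)| ≤ ‖v‖ := fun k v =>
    (cd_le _ _).trans (by simpa [hT] using T.le_opNorm v)
  set f : X →L[ℝ] ℝ := σ • (cd i).comp T with hf
  have fa : ∀ v, f v = σ * cd i (T v) := fun v => rfl
  refine ⟨f, f.opNorm_le_bound zero_le_one fun v => ?_, by rw [fa, h2]; exact hi, fun g hg => ?_⟩
  · rw [fa, Real.norm_eq_abs, abs_mul, h1]; simpa using hTv i v
  set L : X →L[ℝ] Y := (σ • (g - f)).smulRight (E i) with hL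
  have La : ∀ k v, cd k (L v) = σ * (g v - f v) * if k = i then 1 else 0 := fun k v => by
    change cd k ((σ * (g v - f v)) • E i) = _
    rw [map_smul, cd_E, smul_eq_mul]
  have Si : ∀ v, |cd i ((T + L) v)| = |g v| := fun v => by
    rw [add_apply, map_add, La, if_pos rfl, fa]
    have : cd i (T v) + σ * (g v - σ * cd i (T v)) * 1 = σ * g v := by
      linear_combination (-cd i (T v)) * h3
    rw [this, abs_mul, h1, one_mul]
  refine ⟨T + L, ?_, ?_, fun v => (Si v).symm.le.trans (cd_le _ _)⟩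
  · refine ContinuousLinearMap.opNorm_le_bound _ zero_le_one fun v => Y_le (by positivity)
      fun k => ?_
    rw [one_mul]
    by_cases hk : k = i
    · rw [hk, Si]
      exact (g.le_opNorm v).trans (mul_le_of_le_one_left (norm_nonneg _) hg)
    · rw [add_apply, map_add, La, if_neg hk, mul_zero, add_zero]; exact hTv k v
  · rw [add_sub_cancel_left]
    refine L.opNorm_le_bound (norm_nonneg _) fun v => Y_le (by positivity) fun k => ?_
    rw [La]
    split_ifs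
    · rw [mul_one, abs_mul, h1, one_mul]; exact (g - f).le_opNorm v
    · rw [mul_zero, abs_zero]; positivity

noncomputable def P : Y →L[ℝ] Y :=
  (eY : V × Z →L[ℝ] Y).comp (((ContinuousLinearMap.inl ℝ V Z).comp
    (ContinuousLinearMap.fst ℝ V Z)).comp (eY.symm : Y →L[ℝ] V × Z))

lemma P_apply (w : V × Z) : P (eY w) = eY (w.1, 0) := by simp [P]

lemma n0 (x : V) : ‖eY (x, 0)‖ = ‖x‖ :=
  le_antisymm (Y_le (norm_nonneg _) fun i => by
    change |i.1.1 x + (0 : Linf) i| ≤ _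
    simpa using u_le i x) (K_fst (x, 0))

noncomputable def io : V →L[ℝ] P.range :=
  P.rangeRestrict.comp ((eY : V × Z →L[ℝ] Y).comp (ContinuousLinearMap.inl ℝ V Z))

lemma io_val (x : V) : (io x).1 = eY (x, 0) := P_apply (x, 0)

lemma io_norm (x : V) : ‖io x‖ = ‖x‖ := by
  rw [← n0, ← io_val]; rfl

lemma io_surj (v : P.range) : ∃ x, v = io x := by
  obtain ⟨_, u, rfl⟩ := v
  obtain ⟨w, rfl⟩ := eY.surjective u
  exact ⟨w.1, Subtype.ext (by rw [io_val]; exact P_apply w)⟩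

lemma PP (x : Y) : P (P x) = P x := by
  obtain ⟨w, rfl⟩ := eY.surjective x
  rw [P_apply, P_apply]

lemma P_norm : ‖P‖ = 1 := by
  have h1 : ‖P‖ ≤ 1 := by
    refine P.opNorm_le_bound zero_le_one fun x => ?_
    obtain ⟨w, rfl⟩ := eY.surjective x
    rw [P_apply, n0, one_mul]
    exact K_fst w
  refine le_antisymm h1 ?_
  have h2 := P.le_opNorm (eY (eV (e 0), 0))
  rw [P_apply, n0] at h2
  have h3 : 1 ≤ ‖eV (e 0)‖ := le_trans (by simpa [e_apply] using abs_le (e 0) 0) (j_ge _)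
  nlinarith

lemma P_closed : IsClosed (P.range : Set Y) := by
  have : (P.range : Set Y) = {x | P x = x} := by
    ext x
    constructor
    · rintro ⟨u, rfl⟩; exact PP u
    · intro hx; exact ⟨x, hx⟩
  rw [this]
  exact isClosed_eq P.continuous continuous_id

end Pool.Agent.Lib.Helper21.NA2
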