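import Pool.Agent.Lib.helper21.NA2

set_option maxHeartbeats 400000

open Set Filter Topology

namespace Pool.Agent.Lib.Helper21.NA3

/-- the pointwise Bishop-Phelps-Bollobas property of the pair (X, Y) -/
def PtBPB (X Y : Type) [NormedAddCommGroup X] [NormedSpace ℝ X] [NormedAddCommGroup Y]
    [NormedSpace ℝ Y] : Prop :=
  ∀ ε : ℝ, 0 < ε → ∃ η : ℝ, 0 < η ∧ ∀ (T : X →L[ℝ] Y) (x₀ : X), ‖T‖ = 1 → ‖x₀‖ = 1 →
    1 - η < ‖T x₀‖ → ∃ S : X →L[ℝ] Y, ‖S‖ = 1 ∧ ‖S x₀‖ = 1 ∧ ‖S - T‖ < ε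

/-- the Bishop-Phelps-Bollobas property of the pair (X, Y) -/
def BPBp (X Y : Type) [NormedAddCommGroup X] [NormedSpace ℝ X] [NormedAddCommGroup Y]
    [NormedSpace ℝ Y] : Prop :=
  ∀ ε : ℝ, 0 < ε → ∃ η : ℝ, 0 < η ∧ ∀ (T : X →L[ℝ] Y) (x₀ : X), ‖T‖ = 1 → ‖x₀‖ = 1 →
    1 - η < ‖T x₀‖ → ∃ (x : X) (S : X →L[ℝ] Y), ‖x‖ = 1 ∧ ‖S‖ = 1 ∧ ‖S x‖ = 1 ∧
      ‖x - x₀‖ < ε ∧ ‖S - T‖ < ε

/-- Y₁ is a closed subspace of Y and the range of a linear projection of norm one -/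
def OneCompl {Y : Type} [NormedAddCommGroup Y] [NormedSpace ℝ Y] (Y₁ : Submodule ℝ Y) : Prop :=
  IsClosed (Y₁ : Set Y) ∧
    ∃ P : Y →L[ℝ] Y, (∀ y, P (P y) = P y) ∧ range P = (Y₁ : Set Y) ∧ ‖P‖ = 1

instance : Fact ((1 : ENNReal) ≤ 4) := ⟨by norm_num⟩

open Pool.Agent.Lib.Helper21.NA2

section gen
variable {X : Type} [NormedAddCommGroup X] [NormedSpace ℝ X]

lemma up (T : X →L[ℝ] Y) (hT : ‖T‖ = 1) (x₀ : X) {η : ℝ} (hη : η ≤ 1) (h : 1 - η < ‖T x₀‖) :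
    ∃ f : X →L[ℝ] ℝ, ‖f‖ ≤ 1 ∧ 1 - η < f x₀ ∧ ∀ (g : X →L[ℝ] ℝ) (x : X), ‖g‖ ≤ 1 → ‖x‖ = 1 →
      g x = 1 → ∃ S : X →L[ℝ] Y, ‖S‖ = 1 ∧ ‖S x‖ = 1 ∧ ‖S - T‖ ≤ ‖g - f‖ := by
  obtain ⟨f, f1, f2, f3⟩ := beta T hT x₀ (by linarith) h
  refine ⟨f, f1, f2, fun g x hg hx gx => ?_⟩
  obtain ⟨S, s1, s2, s3⟩ := f3 g hg
  have h1 := s3 x
  have h2 := S.le_opNorm x
  rw [gx, abs_one] at h1
  rw [hx, mul_one] at h2
  exact ⟨S, by linarith, by linarith, s2⟩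

variable {V' : Type} [NormedAddCommGroup V'] [NormedSpace ℝ V'] (io : V →L[ℝ] V')
  (io_norm : ∀ x, ‖io x‖ = ‖x‖) (io_surj : ∀ v, ∃ x, v = io x)
include io_norm

lemma bad' (c0 c1 : X →L[ℝ] ℝ) (b0 b1 : X)
    (h0 : ∀ x, |c0 x| ≤ ‖x‖) (h1 : ∀ x, |c1 x| ≤ ‖x‖) (a00 : c0 b0 = 1) (a11 : c1 b1 = 1)
    (n0 : ‖b0‖ = 1) {η : ℝ} (hη : 0 < η) :
    ∃ T : X →L[ℝ] V', ‖T‖ = 1 ∧ 1 - η < ‖T b0‖ ∧ 1 / 2 ≤ ‖T b1‖ := by
  obtain ⟨T, t1, t2, t3⟩ := bad c0 c1 b0 b1 h0 h1 a00 a11 n0 hη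
  have hT : ∀ x, ‖(io.comp T) x‖ = ‖T x‖ := fun x => io_norm _
  refine ⟨io.comp T, ?_, by rwa [hT], by rwa [hT]⟩
  rw [← t1]
  exact ContinuousLinearMap.opNorm_ext _ _ hT

include io_surj

lemma key (S T : X →L[ℝ] V') (u b : X) (hS : ‖S‖ = 1) (hu : ‖S u‖ = 1) (hb : ‖b‖ = 1)
    (h : ∀ t : ℝ, |t| ≤ 1 / 2 → ‖u + t • b‖ ^ 2 ≤ 1 + t ^ 4) (hT : 1 / 2 ≤ ‖T b‖)
    (hd : ‖S - T‖ < 1 / 2) : False := by
  obtain ⟨y, hy⟩ := io_surj (S u)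
  obtain ⟨z, hz⟩ := io_surj (S b)
  have h1 : ∀ t : ℝ, |t| ≤ 1 / 2 → ‖y + t • z‖ ^ 2 ≤ 1 + t ^ 4 := fun t ht => by
    refine le_trans ?_ (h t ht)
    have := S.le_opNorm (u + t • b)
    rw [map_add, map_smul, hy, hz, ← map_smul, ← map_add, io_norm, hS, one_mul] at this
    gcongr
  rw [hy, io_norm] at hu
  have h2 : z = 0 := by
    refine zero_of (le_of_forall_pos_le_add fun ε hε => ?_)
    set t := min ε (1 / 2) with ht
    have t0 : 0 < t := by positivity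
    have t1 : t ≤ ε := min_le_left _ _
    have t2 : t ≤ 1 / 2 := min_le_right _ _
    have q := quant y (t • z)
    have a1 := h1 t (by rwa [abs_of_pos t0])
    have a2 := h1 (-t) (by rwa [abs_neg, abs_of_pos t0])
    rw [neg_smul, ← sub_eq_add_neg] at a2
    rw [map_smul, map_smul, norm_smul, hu, Real.norm_of_nonneg t0.le, mul_pow] at q
    have a3 : t ^ 2 * ‖D (eV.symm z)‖ ^ 2 ≤ t ^ 2 * t ^ 2 := by nlinarith
    have a4 := le_of_mul_le_mul_left a3 (by positivity)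
    nlinarith
  have h3 := (S - T).le_opNorm b
  rw [sub_apply, hz, h2, map_zero, zero_sub, norm_neg, hb, mul_one] at h3
  linarith

end gen

abbrev X4 : Type := PiLp 4 (fun _ : Fin 2 => ℝ)

lemma n4 (x : X4) : ‖x‖ ^ 4 = x 0 ^ 4 + x 1 ^ 4 := by
  rw [PiLp.norm_eq_of_nat 4 (by norm_num), one_div,
    Real.rpow_inv_natCast_pow (by positivity) (by norm_num)]
  simp only [Fin.sum_univ_two, Real.norm_eq_abs]
  rw [← abs_pow, ← abs_pow, abs_of_nonneg (by positivity), abs_of_nonneg (by positivity)]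

lemma c4 (x : X4) (i : Fin 2) : |x i| ≤ ‖x‖ := PiLp.norm_apply_le x i

lemma smooth (x h : X4) (hx : ‖x‖ = 1) (hh : ‖h‖ = 1) {t : ℝ} (t0 : 0 ≤ t) (t1 : t ≤ 1) :
    ‖x + t • h‖ + ‖x - t • h‖ ≤ 2 + 7 * t ^ 2 := by
  have am : ∀ r : ℝ, 4 * r ≤ r ^ 4 + 3 := fun r => by
    nlinarith [sq_nonneg (r ^ 2 - 1), sq_nonneg (r - 1)]
  have a1 := am ‖x + t • h‖
  have a2 := am ‖x - t • h‖
  have a3 := n4 x
  have a4 := n4 h
  rw [n4] at a1 a2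
  rw [hx] at a3
  rw [hh] at a4
  simp only [PiLp.add_apply, PiLp.sub_apply, PiLp.smul_apply, smul_eq_mul] at a1 a2
  have sq : ∀ (y : X4) (i : Fin 2), ‖y‖ = 1 → y i ^ 2 ≤ 1 := fun y i hy => by
    rw [sq_le_one_iff_abs_le_one, ← hy]; exact c4 y i
  have b0 : x 0 ^ 2 * h 0 ^ 2 ≤ 1 := mul_le_one₀ (sq x 0 hx) (sq_nonneg _) (sq h 0 hh)
  have b1 : x 1 ^ 2 * h 1 ^ 2 ≤ 1 := mul_le_one₀ (sq x 1 hx) (sq_nonneg _) (sq h 1 hh)
  have b2 : t ^ 4 ≤ t ^ 2 := pow_le_pow_of_le_one t0 t1 (by norm_num)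
  have b3 : t ^ 2 * (x 0 ^ 2 * h 0 ^ 2) ≤ t ^ 2 := mul_le_of_le_one_right (sq_nonneg _) b0
  have b4 : t ^ 2 * (x 1 ^ 2 * h 1 ^ 2) ≤ t ^ 2 := mul_le_of_le_one_right (sq_nonneg _) b1
  have b5 : t ^ 4 * (h 0 ^ 4 + h 1 ^ 4) = t ^ 4 := by rw [← a4]; ring
  nlinarith [sq_nonneg t]

lemma q1pos : PtBPB X4 Y := by
  intro ε hε
  set t := min (ε / 16) 1 with ht
  have t0 : 0 < t := by positivity
  have t1 : t ≤ ε / 16 := min_le_left _ _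
  have t2 : t ≤ 1 := min_le_right _ _
  refine ⟨t ^ 2, by positivity, fun T x₀ hT hx h => ?_⟩
  obtain ⟨f, f1, f2, f3⟩ := up T hT x₀ (pow_le_one₀ t0.le t2) h
  obtain ⟨g, g1, g2⟩ := exists_dual_vector'' ℝ x₀
  have g3 : g x₀ = 1 := by rw [g2, hx]; simp
  obtain ⟨S, s1, s2, s3⟩ := f3 g x₀ g1 hx g3
  refine ⟨S, s1, s2, s3.trans_lt ?_⟩
  have le : ∀ (k : X4 →L[ℝ] ℝ) v, ‖k‖ ≤ 1 → k v ≤ ‖v‖ := fun k v hk =>
    (le_abs_self _).trans ((k.le_opNorm v).trans (mul_le_of_le_one_left (norm_nonneg _) hk))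
  have : ‖g - f‖ ≤ 8 * t := by
    refine ContinuousLinearMap.opNorm_le_of_unit_norm (by positivity) fun v hv => ?_
    have sm := smooth x₀ v hx hv t0.le t2
    have a1 := le g (x₀ + t • v) g1
    have a2 := le g (x₀ - t • v) g1
    have a3 := le f (x₀ + t • v) f1
    have a4 := le f (x₀ - t • v) f1
    simp only [map_add, map_sub, map_smul, smul_eq_mul] at a1 a2 a3 a4
    rw [sub_apply, Real.norm_eq_abs, abs_le]
    constructor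
    · refine le_of_mul_le_mul_left ?_ t0
      nlinarith
    · refine le_of_mul_le_mul_left ?_ t0
      nlinarith
  linarith

lemma fin_pos {X : Type} [NormedAddCommGroup X] [NormedSpace ℝ X] [FiniteDimensional ℝ X] :
    BPBp X Y := by
  intro ε hε
  have : ProperSpace (X →L[ℝ] ℝ) := FiniteDimensional.proper ℝ _
  have : ProperSpace X := FiniteDimensional.proper ℝ _
  set K : Set ((X →L[ℝ] ℝ) × X) := Metric.closedBall 0 1 ×ˢ Metric.sphere 0 1 with hK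
  have hc : IsCompact (K ∩ ⋂ q ∈ {q ∈ K | q.1 q.2 = 1}, {p | ε ≤ dist q p}) :=
    ((isCompact_closedBall _ _).prod (isCompact_sphere _ _)).inter_right
      (isClosed_biInter fun q _ => isClosed_le continuous_const (by fun_prop))
  obtain ⟨η, h0, h1⟩ := hc.exists_forall_le' (f := fun p => 1 - p.1 p.2) (a := 0)
    (by fun_prop) fun p hp => by
      have a1 : ‖p.1‖ ≤ 1 := mem_closedBall_zero_iff.1 hp.1.1
      have a2 : ‖p.2‖ = 1 := mem_sphere_zero_iff_norm.1 hp.1.2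
      have a3 := p.1.le_opNorm p.2
      rw [a2, mul_one] at a3
      have a4 := (le_abs_self _).trans (a3.trans a1)
      refine sub_pos.2 (lt_of_le_of_ne a4 fun a5 => ?_)
      have a6 : ε ≤ dist p p := mem_iInter₂.1 hp.2 p ⟨hp.1, a5⟩
      rw [dist_self] at a6
      linarith
  refine ⟨min η 1, by positivity, fun T x₀ hT hx h => ?_⟩
  obtain ⟨f, f1, f2, f3⟩ := up T hT x₀ (min_le_right _ _) h
  have m : (f, x₀) ∈ K := ⟨mem_closedBall_zero_iff.2 f1, mem_sphere_zero_iff_norm.2 hx⟩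
  obtain ⟨q, q1, q2⟩ : ∃ q ∈ {q ∈ K | q.1 q.2 = 1}, dist q (f, x₀) < ε := by
    by_contra hn
    simp only [not_exists, not_and, not_lt] at hn
    have := h1 (f, x₀) ⟨m, mem_iInter₂.2 hn⟩
    have := min_le_left η 1
    simp only at *
    linarith
  have a2 : ‖q.2‖ = 1 := mem_sphere_zero_iff_norm.1 q1.1.2
  obtain ⟨S, s1, s2, s3⟩ := f3 q.1 q.2 (mem_closedBall_zero_iff.1 q1.1.1) a2 q1.2
  rw [Prod.dist_eq, max_lt_iff, dist_eq_norm, dist_eq_norm] at q2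
  exact ⟨q.2, S, a2, s1, s2, q2.2, s3.trans_lt q2.1⟩

section neg
variable {V' : Type} [NormedAddCommGroup V'] [NormedSpace ℝ V'] (io : V →L[ℝ] V')
  (io_norm : ∀ x, ‖io x‖ = ‖x‖) (io_surj : ∀ v, ∃ x, v = io x)
include io_norm io_surj

lemma q1neg : ¬ PtBPB X4 V' := by
  intro h
  obtain ⟨η, h0, h1⟩ := h (1 / 2) (by norm_num)
  have nb : ∀ i : Fin 2, ‖(PiLp.single 4 i (1:ℝ) : X4)‖ = 1 := fun i => by simp
  obtain ⟨T, t1, t2, t3⟩ := bad' io io_norm (PiLp.proj 4 (fun _ : Fin 2 => ℝ) 0)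
    (PiLp.proj 4 (fun _ : Fin 2 => ℝ) 1) (PiLp.single 4 0 1) (PiLp.single 4 1 1)
    (fun x => c4 x 0) (fun x => c4 x 1) (by simp) (by simp) (nb 0) h0
  obtain ⟨S, s1, s2, s3⟩ := h1 T _ t1 (nb 0) t2
  refine key io io_norm io_surj S T _ _ s1 s2 (nb 1) (fun t _ => ?_) t3 s3
  have a := n4 (PiLp.single 4 0 (1:ℝ) + t • PiLp.single 4 1 (1:ℝ))
  simp only [PiLp.add_apply, PiLp.smul_apply, PiLp.single_apply] at a
  norm_num at a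
  have : 0 ≤ t ^ 4 := by positivity
  refine (abs_le_of_sq_le_sq' ?_ (by positivity)).2
  rw [← pow_mul, show 2 * 2 = 4 from rfl, a]
  nlinarith

lemma q2neg : ¬ BPBp (ℝ × ℝ) V' := by
  intro h
  obtain ⟨η, h0, h1⟩ := h (1 / 2) (by norm_num)
  obtain ⟨T, t1, t2, t3⟩ := bad' io io_norm (ContinuousLinearMap.fst ℝ ℝ ℝ)
    (ContinuousLinearMap.snd ℝ ℝ ℝ) (1, 0) (0, 1)
    (fun x => norm_fst_le x) (fun x => norm_snd_le x) rfl rfl (by simp) h0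
  obtain ⟨x, S, hx, s1, s2, s4, s3⟩ := h1 T _ t1 (by simp) t2
  refine key io io_norm io_surj S T _ _ s1 s2 (by simp) (fun t ht => ?_) t3 s3
  have a1 := (norm_snd_le _).trans_lt s4
  have a2 := (norm_fst_le x).trans hx.le
  have a3 : ‖x + t • ((0:ℝ), (1:ℝ))‖ ≤ 1 := by
    rw [Prod.norm_def]
    simp only [Prod.snd_sub, sub_zero, Real.norm_eq_abs] at a1
    refine max_le (by simpa using a2) ?_
    simp only [Prod.snd_add, Prod.smul_snd, smul_eq_mul, mul_one, Real.norm_eq_abs]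
    linarith [abs_add_le x.2 t]
  have : 0 ≤ t ^ 4 := by positivity
  nlinarith [norm_nonneg (x + t • ((0:ℝ), (1:ℝ)))]

end neg

end Pool.Agent.Lib.Helper21.NA3
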