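import Mathlib

/-! A finitely generated solvable group that is not finitely invariably generated. -/

namespace Pool.Agent.Lib.Helper21.NotFIG

def sg (x : ZMod 2) : ZMod 3 := if x = 0 then 1 else -1

lemma sg_add (x y : ZMod 2) : sg (x + y) = sg x * sg y := by revert x y; decide
lemma sg_zero : sg 0 = 1 := by decide
lemma sg_neg (x : ZMod 2) : sg (-x) = sg x := by revert x; decide
lemma sg_sq (x : ZMod 2) : sg x * sg x = 1 := by revert x; decide

@[ext] structure Aff where
  k : ℤ
  e : ℕ → ℤ → ZMod 2
  w : ℕ → ℤ → ZMod 3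

instance : Mul Aff := ⟨fun x y => ⟨x.k + y.k, fun N m => x.e N m + y.e N (m - x.k),
  fun N m => x.w N m + sg (x.e N m) * y.w N (m - x.k)⟩⟩
instance : One Aff := ⟨⟨0, fun _ _ => 0, fun _ _ => 0⟩⟩
instance : Inv Aff := ⟨fun x => ⟨-x.k, fun N m => -x.e N (m + x.k),
  fun N m => -(sg (x.e N (m + x.k)) * x.w N (m + x.k))⟩⟩

@[simp] lemma mul_k (x y : Aff) : (x * y).k = x.k + y.k := rfl
@[simp] lemma mul_e (x y : Aff) (N m) : (x * y).e N m = x.e N m + y.e N (m - x.k) := rfl
@[simp] lemma mul_w (x y : Aff) (N m) :
    (x * y).w N m = x.w N m + sg (x.e N m) * y.w N (m - x.k) := rfl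
@[simp] lemma one_k : (1 : Aff).k = 0 := rfl
@[simp] lemma one_e (N m) : (1 : Aff).e N m = 0 := rfl
@[simp] lemma one_w (N m) : (1 : Aff).w N m = 0 := rfl
@[simp] lemma inv_k (x : Aff) : (x⁻¹).k = -x.k := rfl
@[simp] lemma inv_e (x : Aff) (N m) : (x⁻¹).e N m = -x.e N (m + x.k) := rfl
@[simp] lemma inv_w (x : Aff) (N m) :
    (x⁻¹).w N m = -(sg (x.e N (m + x.k)) * x.w N (m + x.k)) := rfl

instance : Group Aff := Group.ofLeftAxioms
  (by
    intro x y z
    ext N m
    · simp [add_assoc]
    · simp [add_assoc, sub_sub]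
    · simp only [mul_w, mul_e, mul_k, sg_add, sub_sub]; ring)
  (by
    intro x
    ext N m
    · simp
    · simp
    · simp [sg_zero])
  (by
    intro x
    ext N m
    · simp
    · simp only [mul_e, inv_e, inv_k, one_e, sub_neg_eq_add, neg_add_cancel]
    · simp only [mul_w, inv_w, inv_e, inv_k, one_w, sub_neg_eq_add, sg_neg, neg_add_cancel])

def K1 : Subgroup Aff where
  carrier := {x | x.k = 0}
  mul_mem' := by
    intro x y hx hy
    simp only [Set.mem_ofPred_eq] at *
    simp [hx, hy]
  one_mem' := rfl
  inv_mem' := by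
    intro x hx
    simp only [Set.mem_ofPred_eq] at *
    simp [hx]

def K2 : Subgroup Aff where
  carrier := {x | x.k = 0 ∧ ∀ N m, x.e N m = 0}
  mul_mem' := by
    intro x y hx hy
    simp only [Set.mem_ofPred_eq] at *
    simp [hx, hy]
  one_mem' := ⟨rfl, fun _ _ => rfl⟩
  inv_mem' := by
    intro x hx
    simp only [Set.mem_ofPred_eq] at *
    simp [hx]

instance solvable : Group.IsSolvable Aff := by
  refine ⟨⟨3, ?_⟩⟩
  have h1 : derivedSeries Aff 1 ≤ K1 := by
    rw [derivedSeries_succ, Subgroup.commutator_le]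
    intro x _ y _
    rw [commutatorElement_def]
    change (x * y * x⁻¹ * y⁻¹).k = 0
    simp
  have h2 : derivedSeries Aff 2 ≤ K2 := by
    rw [derivedSeries_succ, Subgroup.commutator_le]
    intro x hx y hy
    have hx' : x.k = 0 := h1 hx
    have hy' : y.k = 0 := h1 hy
    refine ⟨?_, fun N m => ?_⟩
    · simp [commutatorElement_def, hx', hy']
    · simp only [commutatorElement_def, mul_e, inv_e, mul_k, inv_k, hx', hy']
      simp only [sub_zero, add_zero, neg_zero]
      ring
  rw [eq_bot_iff, derivedSeries_succ, Subgroup.commutator_le]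
  intro x hx y hy
  obtain ⟨hx1, hx2⟩ := h2 hx
  obtain ⟨hy1, hy2⟩ := h2 hy
  rw [Subgroup.mem_bot]
  ext N m
  · simp [commutatorElement_def, hx1, hy1]
  · simp [commutatorElement_def, hx1, hy1, hx2, hy2]
  · simp [commutatorElement_def, hx1, hy1, hx2, hy2, sg_zero]

/-- the affine action in coordinate `N` -/
def act (x : Aff) (N : ℕ) (v : ℤ → ZMod 3) : ℤ → ZMod 3 :=
  fun m => sg (x.e N m) * v (m - x.k) + x.w N m

lemma act_mul (x y : Aff) (N v) : act (x * y) N v = act x N (act y N v) := by
  funext m
  simp only [act, mul_e, mul_k, mul_w, sg_add, sub_sub]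
  ring

lemma act_one (N v) : act 1 N v = v := by
  funext m
  simp [act, sg_zero]

def a : Aff := ⟨0, fun N m => if m = 0 ∨ m = N ∨ m = -N then 1 else 0,
  fun N m => if m = 0 ∨ m = N then 1 else 0⟩

def T (n : ℤ) : Aff := ⟨n, fun _ _ => 0, fun _ _ => 0⟩

lemma T_add (n m : ℤ) : T (n + m) = T n * T m := by
  ext <;> simp [T]

lemma T_zero : T 0 = 1 := rfl

def G : Subgroup Aff := Subgroup.closure {a, T 1}

lemma a_mem : a ∈ G := Subgroup.subset_closure (by simp)

lemma T_mem (n : ℤ) : T n ∈ G := by
  have h1 : T 1 ∈ G := Subgroup.subset_closure (by simp)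
  have h2 : T (-1) ∈ G := by
    have : T (-1) = (T 1)⁻¹ := by
      rw [eq_inv_iff_mul_eq_one, ← T_add]; rfl
    rw [this]; exact G.inv_mem h1
  induction n using Int.induction_on with
  | zero => exact G.one_mem
  | succ n ih => rw [T_add]; exact G.mul_mem ih h1
  | pred n ih => rw [sub_eq_add_neg, T_add]; exact G.mul_mem ih h2

/-- normal form -/
def P (s : Aff) : Prop := ∃ (b : ℤ → ZMod 2) (L : ℕ), (∀ m, (L : ℤ) < |m| → b m = 0) ∧
  ∀ N : ℕ, 2 * L < N → ∀ m, s.e N m = b m + b (m - N) + b (m + N) ∧
    s.w N m = 2 * (1 - sg (b m + b (m - N)))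

lemma windows {b : ℤ → ZMod 2} {L : ℕ} (hb : ∀ m, (L : ℤ) < |m| → b m = 0) {m : ℤ}
    (h : b m ≠ 0) : -(L : ℤ) ≤ m ∧ m ≤ L := by
  have : ¬ (L : ℤ) < |m| := fun h' => h (hb m h')
  exact abs_le.1 (not_lt.1 this)

lemma zero_of {b : ℤ → ZMod 2} {L : ℕ} (hb : ∀ m, (L : ℤ) < |m| → b m = 0) {m : ℤ}
    (h : m < -(L : ℤ) ∨ (L : ℤ) < m) : b m = 0 := by
  by_contra hn
  have := windows hb hn
  omega

lemma P_of_mem {s : Aff} (hs : s ∈ G) : P s := by
  induction hs using Subgroup.closure_induction with
  | mem x hx =>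
    rcases hx with rfl | rfl
    · refine ⟨fun m => if m = 0 then 1 else 0, 0, ?_, ?_⟩
      · intro m hm
        have : m ≠ 0 := by rintro rfl; simp at hm
        simp [this]
      · intro N hN m
        have hN' : (0 : ℤ) < N := by exact_mod_cast hN
        simp only [a]
        by_cases h0 : m = 0
        · have h1 : ¬ (m - N = 0) := by omega
          have h2 : ¬ (m + N = 0) := by omega
          simp only [h0, true_or, if_true] at *
          simp only [h1, h2, if_false]
          decide
        · by_cases h1 : m = N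
          · have h2 : ¬ (m + N = 0) := by omega
            have h3 : m - N = 0 := by omega
            rw [if_pos (Or.inr (Or.inl h1)), if_pos (Or.inr h1), if_neg h0, if_pos h3, if_neg h2]
            decide
          · have h3 : ¬ (m - N = 0) := by omega
            by_cases h2 : m = -N
            · have h4 : m + N = 0 := by omega
              rw [if_pos (Or.inr (Or.inr h2)), if_neg h0, if_neg h3, if_pos h4, if_neg (by omega)]
              decide
            · have h4 : ¬ (m + N = 0) := by omega
              rw [if_neg (by omega), if_neg h0, if_neg h3, if_neg h4, if_neg (by omega)]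
              decide
    · refine ⟨fun _ => 0, 0, fun _ _ => rfl, fun N _ m => ?_⟩
      simp [T, sg_zero]
  | one =>
    refine ⟨fun _ => 0, 0, fun _ _ => rfl, fun N _ m => ?_⟩
    simp [sg_zero]
  | mul x y _ _ hx hy =>
    obtain ⟨b, L, hb, hx⟩ := hx
    obtain ⟨b', L', hb', hy⟩ := hy
    refine ⟨fun m => b m + b' (m - x.k), L + L' + x.k.natAbs, ?_, ?_⟩
    · intro m hm
      have h1 : m < -((L + L' + x.k.natAbs : ℕ) : ℤ) ∨ ((L + L' + x.k.natAbs : ℕ) : ℤ) < m := by
        rcases lt_abs.1 hm with h | h <;> omega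
      simp only
      rw [zero_of hb (by omega), zero_of hb' (by omega), add_zero]
    · intro N hN m
      obtain ⟨h1, h2⟩ := hx N (by omega) m
      obtain ⟨h3, h4⟩ := hy N (by omega) (m - x.k)
      have e1 : m - N - x.k = m - x.k - N := by ring
      have e2 : m + N - x.k = m - x.k + N := by ring
      simp only [mul_e, mul_w, h1, h2, h3, h4, e1, e2]
      refine ⟨by ring, ?_⟩
      by_cases hg : b (m + N) = 0
      · rw [hg]
        generalize b m = p
        generalize b (m - N) = q
        generalize b' (m - x.k) = p'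
        generalize b' (m - x.k - N) = q'
        revert p q p' q'
        decide
      · have := windows hb hg
        rw [zero_of hb' (m := m - x.k) (by omega), zero_of hb' (m := m - x.k - N) (by omega)]
        generalize b m = p
        generalize b (m - N) = q
        generalize b (m + N) = r
        revert p q r
        decide
  | inv x _ hx =>
    obtain ⟨b, L, hb, hx⟩ := hx
    refine ⟨fun m => b (m + x.k), L + x.k.natAbs, ?_, ?_⟩
    · intro m hm
      have h1 : m < -((L + x.k.natAbs : ℕ) : ℤ) ∨ ((L + x.k.natAbs : ℕ) : ℤ) < m := by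
        rcases lt_abs.1 hm with h | h <;> omega
      exact zero_of hb (by omega)
    · intro N hN m
      obtain ⟨h1, h2⟩ := hx N (by omega) (m + x.k)
      have e1 : m - N + x.k = m + x.k - N := by ring
      have e2 : m + N + x.k = m + x.k + N := by ring
      simp only [inv_e, inv_w, h1, h2, e1, e2]
      constructor
      · generalize b (m + x.k) + b (m + x.k - N) + b (m + x.k + N) = p
        revert p; decide
      · by_cases hg : b (m + x.k + N) = 0
        · rw [hg]
          generalize b (m + x.k) = p
          generalize b (m + x.k - N) = q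
          revert p q
          decide
        · have := windows hb hg
          rw [zero_of hb (m := m + x.k) (by omega), zero_of hb (m := m + x.k - N) (by omega)]
          generalize b (m + x.k + N) = r
          revert r
          decide

def FinSupp (u : ℤ → ZMod 3) : Prop := ∃ F : Finset ℤ, ∀ m, m ∉ F → u m = 0

lemma fixed_nonneg {s : Aff} (hs : P s) (hk : 0 ≤ s.k) :
    ∃ K L : ℕ, 0 < K ∧ ∀ N : ℕ, K ∣ N → L < N → ∃ u, FinSupp u ∧ act s N u = u := by
  obtain ⟨b, L, hb, hs⟩ := hs
  rcases hk.eq_or_lt with hk | hk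
  · refine ⟨1, 2 * L, one_pos, fun N _ hN => ?_⟩
    refine ⟨fun m => if b m + b (m - N) = 0 then 0 else 2, ⟨Finset.Icc (-L) (N + L), ?_⟩, ?_⟩
    · intro m hm
      rw [Finset.mem_Icc] at hm
      simp only
      rw [zero_of hb (m := m) (by omega), zero_of hb (m := m - N) (by omega)]
      simp
    · funext m
      obtain ⟨h1, h2⟩ := hs N hN m
      simp only [act, h1, h2, ← hk, sub_zero]
      by_cases hg : b (m + N) = 0
      · rw [hg]
        generalize b m = p
        generalize b (m - N) = q
        revert p q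
        decide
      · have := windows hb hg
        rw [zero_of hb (m := m) (by omega), zero_of hb (m := m - N) (by omega)]
        generalize b (m + N) = r
        revert r
        decide
  · obtain ⟨k, hk'⟩ : ∃ k : ℕ, s.k = k := ⟨s.k.toNat, by omega⟩
    refine ⟨k, 2 * L + k, by omega, fun N hKN hN => ?_⟩
    obtain ⟨c, hc⟩ := hKN
    let E : ℤ → ZMod 2 := fun m => ∑ j ∈ Finset.range c, b (m - j * k)
    have hE0 : ∀ m, m < -(L : ℤ) ∨ (N + L : ℤ) < m → E m = 0 := by
      intro m hm
      refine Finset.sum_eq_zero fun j hj => zero_of hb ?_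
      have hj' : j < c := Finset.mem_range.1 hj
      have h1 : (0 : ℤ) ≤ j * k := by positivity
      have h2 : (j : ℤ) * k ≤ N := by
        rw [hc]; push_cast
        have : (j : ℤ) ≤ c := by exact_mod_cast hj'.le
        nlinarith [Int.natCast_nonneg k]
      omega
    have hE : ∀ m, E m = E (m - k) + (b m + b (m - N)) := by
      intro m
      have h1 := Finset.sum_range_succ (fun j : ℕ => b (m - j * k)) c
      have h2 := Finset.sum_range_succ' (fun j : ℕ => b (m - j * k)) c
      have h3 : ∑ j ∈ Finset.range c, b (m - ((j + 1 : ℕ) : ℤ) * k) = E (m - k) := by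
        refine Finset.sum_congr rfl fun j _ => ?_
        congr 1; push_cast; ring
      have h4 : m - (c : ℤ) * k = m - N := by rw [hc]; push_cast; ring
      rw [h1, h3, h4] at h2
      simp only [Nat.cast_zero, zero_mul, sub_zero] at h2
      change E m + _ = _ at h2
      revert h2
      generalize E m = p
      generalize E (m - k) = q
      generalize b m = r
      generalize b (m - N) = t
      revert p q r t
      decide
    refine ⟨fun m => 2 * (1 - sg (E m)), ⟨Finset.Icc (-L) (N + L), ?_⟩, ?_⟩
    · intro m hm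
      rw [Finset.mem_Icc] at hm
      simp only
      rw [hE0 m (by omega)]
      decide
    · funext m
      obtain ⟨h1, h2⟩ := hs N (by omega) m
      simp only [act, h1, h2, hk']
      rw [hE m]
      by_cases hg : b (m + N) = 0
      · rw [hg]
        generalize b m = p
        generalize b (m - N) = q
        generalize E (m - k) = r
        revert p q r
        decide
      · have := windows hb hg
        rw [zero_of hb (m := m) (by omega), zero_of hb (m := m - N) (by omega),
          hE0 (m - k) (by omega)]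
        generalize b (m + N) = r
        revert r
        decide

lemma fixed {s : Aff} (hs : s ∈ G) :
    ∃ K L : ℕ, 0 < K ∧ ∀ N : ℕ, K ∣ N → L < N → ∃ u, FinSupp u ∧ act s N u = u := by
  rcases le_total 0 s.k with hk | hk
  · exact fixed_nonneg (P_of_mem hs) hk
  · obtain ⟨K, L, hK, h⟩ := fixed_nonneg (P_of_mem (G.inv_mem hs)) (by simpa using hk)
    refine ⟨K, L, hK, fun N h1 h2 => ?_⟩
    obtain ⟨u, hu, hu'⟩ := h N h1 h2
    refine ⟨u, hu, ?_⟩
    conv_lhs => rw [← hu']
    rw [← act_mul, mul_inv_cancel, act_one]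

def tau (N : ℕ) (n : ℤ) : Aff :=
  T n * ((a * (T N * a * T (-N))) * (a * (T N * a * T (-N)))) * T (-n)

lemma tau_mem (N n) : tau N n ∈ G := by
  have h : a * (T N * a * T (-N)) ∈ G :=
    G.mul_mem a_mem (G.mul_mem (G.mul_mem (T_mem _) a_mem) (T_mem _))
  exact G.mul_mem (G.mul_mem (T_mem _) (G.mul_mem h h)) (T_mem _)

lemma act_T (n : ℤ) (N v) : act (T n) N v = fun m => v (m - n) := by
  funext m
  simp [act, T, sg_zero]

lemma act_aa (N : ℕ) (hN : 0 < N) (v) :
    act ((a * (T N * a * T (-N))) * (a * (T N * a * T (-N)))) N v =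
      fun m => v m + if m = 0 then 2 else 0 := by
  funext m
  have hN' : (0 : ℤ) < N := by exact_mod_cast hN
  simp only [act_mul, act_T]
  simp only [act, a, sub_zero, sub_neg_eq_add, sub_add_cancel]
  generalize v m = x
  by_cases h0 : m = 0
  · rw [if_pos (Or.inl h0), if_pos (Or.inl h0), if_pos (by omega), if_neg (by omega), if_pos h0]
    revert x; decide
  · rw [if_neg h0]
    by_cases h1 : m = N
    · rw [if_pos (by omega), if_pos (by omega), if_pos (by omega), if_pos (by omega)]
      revert x; decide
    · by_cases h2 : m = -N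
      · rw [if_pos (by omega), if_neg (by omega), if_neg (by omega), if_neg (by omega)]
        revert x; decide
      · by_cases h3 : m = 2 * N
        · rw [if_neg (by omega), if_pos (by omega), if_pos (by omega), if_neg (by omega)]
          revert x; decide
        · rw [if_neg (by omega), if_neg (by omega), if_neg (by omega), if_neg (by omega)]
          revert x; decide

lemma act_tau (N : ℕ) (hN : 0 < N) (n v) :
    act (tau N n) N v = fun m => v m + if m = n then 2 else 0 := by
  funext m
  rw [tau, act_mul, act_mul, act_aa N hN, act_T, act_T]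
  simp [sub_eq_zero]

lemma orbit (N : ℕ) (hN : 0 < N) (u) (hu : FinSupp u) : ∃ g ∈ G, act g N 0 = u := by
  classical
  obtain ⟨F, hF⟩ := hu
  induction F using Finset.induction_on generalizing u with
  | empty => exact ⟨1, G.one_mem, by rw [act_one]; funext m; exact (hF m (by simp)).symm⟩
  | insert n F _ ih =>
    obtain ⟨g, hg, hg'⟩ := ih (Function.update u n 0) (by
      intro m hm
      by_cases h : m = n
      · simp [h]
      · rw [Function.update_of_ne h]
        exact hF m (by simp [h, hm]))
    have h3 : ∀ x : ZMod 3, x = 0 ∨ x = 2 ∨ x = 2 + 2 := by decide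
    rcases h3 (u n) with h | h | h
    · refine ⟨g, hg, ?_⟩
      rw [hg', ← h, Function.update_eq_self]
    · refine ⟨tau N n * g, G.mul_mem (tau_mem _ _) hg, ?_⟩
      rw [act_mul, hg', act_tau N hN]
      funext m
      by_cases hm : m = n
      · simp [hm, h]
      · simp [hm]
    · refine ⟨tau N n * (tau N n * g), G.mul_mem (tau_mem _ _) (G.mul_mem (tau_mem _ _) hg), ?_⟩
      rw [act_mul, act_mul, hg', act_tau N hN, act_tau N hN]
      funext m
      by_cases hm : m = n
      · simp [hm, h]
      · simp [hm]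

def M (N : ℕ) : Subgroup G where
  carrier := {g | act g.1 N 0 = 0}
  mul_mem' := by
    intro x y hx hy
    simp only [Set.mem_ofPred_eq] at *
    rw [Subgroup.coe_mul, act_mul, hy, hx]
  one_mem' := act_one _ _
  inv_mem' := by
    intro x hx
    simp only [Set.mem_ofPred_eq] at *
    conv_lhs => rw [← hx]
    rw [← act_mul, Subgroup.coe_inv, inv_mul_cancel, act_one]

lemma M_ne_top (N : ℕ) : M N ≠ ⊤ := by
  intro h
  have h1 : (⟨a, a_mem⟩ : G) ∈ M N := by rw [h]; trivial
  have h2 : act a N 0 0 = 0 := congrFun h1 0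
  simp [act, a] at h2

theorem not_fig (S : Finset G) : ∃ g : G → G,
    Subgroup.closure ((fun s => (g s)⁻¹ * s * g s) '' (S : Set G)) ≠ ⊤ := by
  classical
  choose K L hK h using fun s : G => fixed s.2
  let N : ℕ := (∏ s ∈ S, K s) * (∑ s ∈ S, L s + 1)
  have hp : 0 < ∏ s ∈ S, K s := Finset.prod_pos fun s _ => hK s
  have hN : 0 < N := Nat.mul_pos hp (by omega)
  have key : ∀ s : G, ∃ g : G, s ∈ S → g⁻¹ * s * g ∈ M N := by
    intro s
    by_cases hs : s ∈ S
    · obtain ⟨u, hu, hu'⟩ := h s N (Dvd.dvd.mul_right (Finset.dvd_prod_of_mem _ hs) _) (by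
        have h1 : L s ≤ ∑ s ∈ S, L s := Finset.single_le_sum (fun _ _ => Nat.zero_le _) hs
        have h2 : ∑ s ∈ S, L s + 1 ≤ N := Nat.le_mul_of_pos_left _ hp
        omega)
      obtain ⟨g, hg, hg'⟩ := orbit N hN u hu
      refine ⟨⟨g, hg⟩, fun _ => ?_⟩
      change act (g⁻¹ * s.1 * g) N 0 = 0
      rw [act_mul, act_mul, hg', hu', ← hg', ← act_mul, inv_mul_cancel, act_one]
    · exact ⟨1, fun h => absurd h hs⟩
  choose g hg using key
  refine ⟨g, fun htop => M_ne_top N ?_⟩
  rw [eq_top_iff, ← htop, Subgroup.closure_le]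
  rintro _ ⟨s, hs, rfl⟩
  exact hg s hs

lemma G_fg : Group.FG G := by
  have : Finite ({a, T 1} : Set Aff) := Set.toFinite _
  exact Group.closure_finite_fg _

end Pool.Agent.Lib.Helper21.NotFIG
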