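import Mathlib

namespace Pool.Agent.Lib.Helper21.Peak
open Complex Filter Topology Set Metric

structure Seq (t : ℕ → ℝ) : Prop where
  big : ∀ k, 9 ≤ t k
  sum : Summable fun k => 1 / t k
  sep : ∀ k n, k ≠ n → 4 ≤ |t k - t n|
  sm : ∀ n, Summable fun k => 1 / |t k - t n|
  le : ∀ n, ∑' k, 1 / |t k - t n| ≤ 1 / 16

noncomputable def a (s : ℝ) (w : ℂ) : ℂ := -I * (w / (w - I * s) + (w + 1) / (w + 1 - I * s))

noncomputable def h (t : ℕ → ℝ) (w : ℂ) : ℂ := 1 + w + ∑' k, a (t k) w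

def NP (t : ℕ → ℝ) (w : ℂ) : Prop := ∀ k, w ≠ I * t k

lemma n1 {w : ℂ} (hw : 0 ≤ w.re) : ‖w‖ ≤ ‖w + 1‖ := by
  have : ‖w‖ ^ 2 ≤ ‖w + 1‖ ^ 2 := by
    rw [Complex.sq_norm, Complex.sq_norm, normSq_apply, normSq_apply]; simp; nlinarith
  exact (abs_le_of_sq_le_sq' this (norm_nonneg _)).2

lemma n2 {w : ℂ} (hw : 0 ≤ w.re) : 1 ≤ ‖w + 1‖ := by
  have := Complex.re_le_norm (w + 1)
  simp at this; linarith

lemma n3 {w : ℂ} (hw : 0 ≤ w.re) (s : ℝ) : ‖w - I * s‖ ≤ ‖w + 1 - I * s‖ := by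
  have := n1 (w := w - I * s) (by simpa using hw)
  rwa [show w - I * s + 1 = w + 1 - I * s by ring] at this

lemma n4 {w : ℂ} (hw : 0 ≤ w.re) (s : ℝ) : 1 ≤ ‖w + 1 - I * s‖ := by
  have := n2 (w := w - I * s) (by simpa using hw)
  rwa [show w - I * s + 1 = w + 1 - I * s by ring] at this

lemma an {w : ℂ} (hw : 0 ≤ w.re) {s : ℝ} (hs : w ≠ I * s) :
    ‖a s w‖ ≤ 2 * ‖w + 1‖ / ‖w - I * s‖ := by
  have h0 : 0 < ‖w - I * s‖ := norm_pos_iff.2 (sub_ne_zero.2 hs)
  unfold a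
  rw [norm_mul, norm_neg, norm_I, one_mul]
  refine (norm_add_le _ _).trans ?_
  rw [norm_div, norm_div]
  have h1 : ‖w‖ / ‖w - I * s‖ ≤ ‖w + 1‖ / ‖w - I * s‖ := by gcongr; exact n1 hw
  have h2 : ‖w + 1‖ / ‖w + 1 - I * s‖ ≤ ‖w + 1‖ / ‖w - I * s‖ := by gcongr; exact n3 hw s
  have : 2 * ‖w + 1‖ / ‖w - I * s‖ = ‖w + 1‖ / ‖w - I * s‖ + ‖w + 1‖ / ‖w - I * s‖ := by ring
  linarith

lemma aeq {w : ℂ} (hw : 0 ≤ w.re) {s : ℝ} (hs : w ≠ I * s) :
    a s w = s / (w - I * s) + s / (w + 1 - I * s) - 2 * I := by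
  have h0 : w - I * s ≠ 0 := sub_ne_zero.2 hs
  have h1 : w + 1 - I * s ≠ 0 := by
    have := n4 hw s; intro h; rw [h] at this; norm_num at this
  unfold a
  have e1 : -I * (w / (w - I * s)) = s / (w - I * s) - I := by
    field_simp; linear_combination (-s : ℂ) * I_sq
  have e2 : -I * ((w + 1) / (w + 1 - I * s)) = s / (w + 1 - I * s) - I := by
    field_simp; linear_combination (-s : ℂ) * I_sq
  rw [mul_add, e1, e2]; ring

lemma are {w : ℂ} (hw : 0 ≤ w.re) {s : ℝ} (hs0 : 0 ≤ s) (hs : w ≠ I * s) :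
    s / ‖w + 1 - I * s‖ ^ 2 ≤ (a s w).re := by
  rw [aeq hw hs]
  have e : ∀ u : ℂ, ((s : ℂ) / u).re = s * u.re / ‖u‖ ^ 2 := by
    intro u; rw [Complex.div_re, Complex.sq_norm]; simp
  simp only [sub_re, add_re, e, mul_re, I_re, I_im, ofReal_re, ofReal_im, one_re, re_ofNat,
    im_ofNat]
  have h1 : 0 ≤ s * (w.re - (0 * s - 1 * 0)) / ‖w - I * s‖ ^ 2 := by
    apply div_nonneg _ (by positivity); apply mul_nonneg hs0; linarith
  have h2 : s / ‖w + 1 - I * s‖ ^ 2 ≤ s * (w.re + 1 - (0 * s - 1 * 0)) / ‖w + 1 - I * s‖ ^ 2 := by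
    gcongr; nlinarith
  linarith

variable {t : ℕ → ℝ}

lemma Seq.tend (H : Seq t) : Tendsto t atTop atTop := by
  have h1 := H.sum.tendsto_atTop_zero
  have h2 : Tendsto (fun k => 1 / t k) atTop (𝓝[>] 0) := by
    refine tendsto_nhdsWithin_iff.2 ⟨h1, Eventually.of_forall fun k => ?_⟩
    have := H.big k
    simp only [mem_Ioi]; positivity
  have := tendsto_inv_nhdsGT_zero.comp h2
  refine this.congr fun k => ?_
  simp

lemma Seq.near (H : Seq t) (w : ℂ) : ∃ n, ∀ k, |t k - t n| ≤ 2 * ‖w - I * t k‖ := by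
  have h1 : Tendsto (fun k => ‖w - I * t k‖) cofinite atTop := by
    rw [Nat.cofinite_eq_atTop]
    refine tendsto_atTop_mono (fun k => ?_) (tendsto_atTop_add_const_right _ (-‖w‖) H.tend)
    have := norm_sub_norm_le (I * t k) w
    rw [norm_sub_rev, norm_mul, norm_I, one_mul, norm_real, Real.norm_eq_abs] at this
    have := le_abs_self (t k)
    linarith
  obtain ⟨n, hn⟩ := h1.exists_forall_le
  refine ⟨n, fun k => ?_⟩
  have h2 : (I * t k - I * t n : ℂ) = (w - I * t n) - (w - I * t k) := by ring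
  have h3 : ‖(I * t k - I * t n : ℂ)‖ = |t k - t n| := by
    rw [← mul_sub, norm_mul, norm_I, one_mul, ← ofReal_sub, norm_real, Real.norm_eq_abs]
  have h4 := norm_sub_le (w - I * t n) (w - I * t k)
  rw [← h2, h3] at h4
  have := hn k
  linarith

/-- bound for a series with one index removed -/
lemma Seq.rest (H : Seq t) {F : ℕ → ℂ} (n : ℕ) {B : ℝ} (hB : 0 ≤ B)
    (hF : ∀ k, k ≠ n → ‖F k‖ ≤ B * (1 / |t k - t n|)) :
    Summable F ∧ ‖∑' k, F k - F n‖ ≤ B / 16 := by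
  have hs : Summable fun k => B * (1 / |t k - t n|) := (H.sm n).mul_left B
  have hb : ∀ k, ‖(if k = n then 0 else F k)‖ ≤ B * (1 / |t k - t n|) := by
    intro k
    split_ifs with hk
    · simp only [norm_zero]; positivity
    · exact hF k hk
  have hS : Summable F := by
    refine Summable.of_norm_bounded_eventually hs ?_
    filter_upwards [(finite_singleton n).compl_mem_cofinite] with k hk
    exact hF k hk
  refine ⟨hS, ?_⟩
  rw [hS.tsum_eq_add_tsum_ite n, add_sub_cancel_left]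
  refine (tsum_of_norm_bounded hs.hasSum hb).trans ?_
  rw [tsum_mul_left]
  have := H.le n
  nlinarith

lemma Seq.far (H : Seq t) {w : ℂ} {n k : ℕ} (hn : ∀ k, |t k - t n| ≤ 2 * ‖w - I * t k‖)
    (hk : k ≠ n) : 2 ≤ ‖w - I * t k‖ ∧ 1 / ‖w - I * t k‖ ≤ 2 * (1 / |t k - t n|) := by
  have h1 := hn k
  have h2 := H.sep k n hk
  refine ⟨by linarith, ?_⟩
  rw [mul_one_div, div_le_div_iff₀ (by linarith) (by linarith)]
  linarith

lemma Seq.ra (H : Seq t) {w : ℂ} (hw : 0 ≤ w.re) (hp : NP t w) {n : ℕ}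
    (hn : ∀ k, |t k - t n| ≤ 2 * ‖w - I * t k‖) :
    Summable (fun k => a (t k) w) ∧ ‖∑' k, a (t k) w - a (t n) w‖ ≤ ‖w + 1‖ / 4 := by
  have := H.rest (F := fun k => a (t k) w) n (B := 4 * ‖w + 1‖) (by positivity) (fun k hk => by
    refine (an hw (hp k)).trans ?_
    have := (H.far hn hk).2
    have h2 : 2 * ‖w + 1‖ / ‖w - I * t k‖ = 2 * ‖w + 1‖ * (1 / ‖w - I * t k‖) := by ring
    rw [h2]
    nlinarith [norm_nonneg (w + 1)])
  exact ⟨this.1, by linarith [this.2]⟩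

lemma Seq.re (H : Seq t) {w : ℂ} (hw : 0 ≤ w.re) (hp : NP t w) (n : ℕ) :
    1 + t n / ‖w + 1 - I * t n‖ ^ 2 ≤ (h t w).re := by
  obtain ⟨m, hm⟩ := H.near w
  have hs := (H.ra hw hp hm).1
  have h0 : ∀ k, 0 ≤ t k := fun k => by linarith [H.big k]
  have h1 : ∀ k, 0 ≤ (a (t k) w).re := fun k =>
    le_trans (div_nonneg (h0 k) (by positivity)) (are hw (h0 k) (hp k))
  have h2 : (a (t n) w).re ≤ ∑' k, (a (t k) w).re :=
    (Complex.reCLM.summable hs).le_tsum n (fun k _ => h1 k)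
  unfold h
  rw [add_re, add_re, Complex.re_tsum hs, one_re]
  have := are hw (h0 n) (hp n)
  linarith

lemma Seq.lb (H : Seq t) {w : ℂ} (hw : 0 ≤ w.re) (hp : NP t w) :
    ‖w + 1‖ ≤ 1296 * ‖h t w‖ ∧ ∀ k, ‖w + 1‖ ≤ 1296 * (‖h t w‖ * ‖w - I * t k‖) := by
  obtain ⟨n, hn⟩ := H.near w
  have hR := (H.ra hw hp hn).2
  have hu : 0 < ‖w - I * t n‖ := norm_pos_iff.2 (sub_ne_zero.2 (hp n))
  have hw1 := n2 hw
  have hb := H.big n
  have hh := norm_nonneg (h t w)
  have e : h t w = (w + 1) + a (t n) w + (∑' k, a (t k) w - a (t n) w) := by unfold h; ring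
  have htn : ‖(I * t n : ℂ)‖ = t n := by
    rw [norm_mul, norm_I, one_mul, norm_real, Real.norm_eq_abs, abs_of_nonneg (by linarith)]
  have key : ‖w + 1‖ ≤ 1296 * ‖h t w‖ ∧ ‖w + 1‖ ≤ 1296 * (‖h t w‖ * ‖w - I * t n‖) := by
    rcases le_total 8 ‖w - I * t n‖ with h8 | h8
    · have h1 : ‖a (t n) w‖ ≤ ‖w + 1‖ / 4 := by
        refine (an hw (hp n)).trans ?_
        rw [div_le_div_iff₀ hu (by norm_num)]; nlinarith
      have h2 : w + 1 = h t w - a (t n) w - (∑' k, a (t k) w - a (t n) w) := by rw [e]; ring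
      have h3 : ‖w + 1‖ ≤ ‖h t w‖ + ‖a (t n) w‖ + ‖∑' k, a (t k) w - a (t n) w‖ := by
        conv_lhs => rw [h2]
        exact (norm_sub_le _ _).trans (by gcongr; exact norm_sub_le _ _)
      constructor <;> nlinarith
    rcases le_total ‖w - I * t n‖ (1 / 8) with h9 | h9
    · have hw8 : 8 ≤ ‖w‖ := by
        have := norm_sub_norm_le (I * t n : ℂ) w
        rw [norm_sub_rev, htn] at this; linarith
      have h1 : ‖w + 1‖ ≤ ‖w‖ + 1 := by simpa using norm_add_le w 1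
      have h2 : I * (w / (w - I * t n)) = (w + 1) - I * ((w + 1) / (w + 1 - I * t n))
          + (∑' k, a (t k) w - a (t n) w) - h t w := by
        rw [e]; unfold a; ring
      have h4 : ‖I * ((w + 1) / (w + 1 - I * t n))‖ ≤ ‖w + 1‖ := by
        rw [norm_mul, norm_I, one_mul, norm_div]
        exact div_le_self (by positivity) (n4 hw _)
      have h3 : ‖w‖ / ‖w - I * t n‖ ≤ ‖w + 1‖ + ‖w + 1‖ + ‖w + 1‖ / 4 + ‖h t w‖ := by
        have : ‖I * (w / (w - I * t n))‖ = ‖w‖ / ‖w - I * t n‖ := by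
          rw [norm_mul, norm_I, one_mul, norm_div]
        rw [← this, h2]
        refine (norm_sub_le _ _).trans ?_
        gcongr
        refine (norm_add_le _ _).trans ?_
        gcongr
        refine (norm_sub_le _ _).trans ?_
        gcongr
      rw [div_le_iff₀ hu] at h3
      have h5 : ‖w + 1‖ ≤ 2 * (‖h t w‖ * ‖w - I * t n‖) := by nlinarith
      constructor <;> nlinarith [mul_nonneg hh hu.le]
    · have h1 := H.re hw hp n
      have h2 : ‖w + 1 - I * t n‖ ≤ 9 := by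
        have := norm_add_le (w - I * t n) 1
        rw [show w - I * t n + 1 = w + 1 - I * t n by ring, norm_one] at this; linarith
      have h3 : t n / 81 ≤ t n / ‖w + 1 - I * t n‖ ^ 2 := by
        have := n4 hw (t n)
        gcongr; nlinarith
      have h4 : ‖w + 1‖ ≤ 9 + t n := by
        have := norm_add_le (w + 1 - I * t n) (I * t n)
        rw [sub_add_cancel, htn] at this; linarith
      have h5 := Complex.re_le_norm (h t w)
      constructor <;> nlinarith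
  refine ⟨key.1, fun k => ?_⟩
  by_cases hk : k = n
  · rw [hk]; exact key.2
  · have := (H.far hn hk).1
    nlinarith [key.1]

lemma adiff {w w' : ℂ} (hw : 0 ≤ w.re) (hw' : 0 ≤ w'.re) {s : ℝ} (hs0 : 0 ≤ s) (hs : w ≠ I * s)
    (hs' : w' ≠ I * s) :
    ‖a s w - a s w'‖ ≤ 2 * ‖w - w'‖ * (s / (‖w - I * s‖ * ‖w' - I * s‖)) := by
  have h0 : w - I * s ≠ 0 := sub_ne_zero.2 hs
  have h0' : w' - I * s ≠ 0 := sub_ne_zero.2 hs'
  have h1 : w + 1 - I * s ≠ 0 := by
    have := n4 hw s; intro h; rw [h] at this; norm_num at this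
  have h1' : w' + 1 - I * s ≠ 0 := by
    have := n4 hw' s; intro h; rw [h] at this; norm_num at this
  have e : a s w - a s w' = (w' - w) * (s / ((w - I * s) * (w' - I * s)))
      + (w' - w) * (s / ((w + 1 - I * s) * (w' + 1 - I * s))) := by
    have gen : ∀ (c u v : ℂ), u ≠ 0 → v ≠ 0 → c / u - c / v = (v - u) * (c / (u * v)) := by
      intro c u v hu hv; field_simp
    have g1 := gen s _ _ h0 h0'
    have g2 := gen s _ _ h1 h1'
    rw [aeq hw hs, aeq hw' hs']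
    linear_combination g1 + g2
  rw [e]
  refine (norm_add_le _ _).trans ?_
  simp only [norm_mul, norm_div, norm_real, Real.norm_eq_abs, abs_of_nonneg hs0, norm_sub_rev w' w]
  have p0 := norm_pos_iff.2 h0
  have p0' := norm_pos_iff.2 h0'
  have : s / (‖w + 1 - I * s‖ * ‖w' + 1 - I * s‖) ≤ s / (‖w - I * s‖ * ‖w' - I * s‖) := by
    gcongr
    exacts [n3 hw s, n3 hw' s]
  nlinarith [norm_nonneg (w - w')]

lemma Seq.lip (H : Seq t) {w w' : ℂ} (hw : 0 ≤ w.re) (hw' : 0 ≤ w'.re) (hp : NP t w)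
    (hp' : NP t w') (hd : ‖w - w'‖ ≤ 1) :
    ‖(h t w)⁻¹ - (h t w')⁻¹‖ * ‖w' + 1‖ ≤ 6 * 1296 ^ 2 * ‖w - w'‖ := by
  obtain ⟨n, hn⟩ := H.near w
  obtain ⟨m, hm⟩ := H.near w'
  have h0 : ∀ k, 0 ≤ t k := fun k => by linarith [H.big k]
  have hs := (H.ra hw hp hn).1
  have hs' := (H.ra hw' hp' hm).1
  have hw1 := n2 hw
  have hw1' := n2 hw'
  have hwn := n1 hw
  have htk : ∀ k, t k ≤ ‖w‖ + ‖w - I * t k‖ := by
    intro k
    have := norm_sub_norm_le (I * t k : ℂ) w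
    rw [norm_sub_rev, norm_mul, norm_I, one_mul, norm_real, Real.norm_eq_abs,
      abs_of_nonneg (h0 k)] at this
    linarith
  have hR := (H.rest (F := fun k => a (t k) w - a (t k) w') n (B := 16 * ‖w - w'‖ * ‖w + 1‖)
    (by positivity) (fun k hk => by
      refine (adiff hw hw' (h0 k) (hp k) (hp' k)).trans ?_
      obtain ⟨f1, f2⟩ := H.far hn hk
      have f3 : ‖w - I * t k‖ ≤ 2 * ‖w' - I * t k‖ := by
        have := norm_add_le (w - w') (w' - I * t k)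
        rw [show w - w' + (w' - I * t k) = w - I * t k by ring] at this
        linarith
      have f4 : t k / (‖w - I * t k‖ * ‖w' - I * t k‖) ≤ 4 * ‖w + 1‖ * (1 / ‖w - I * t k‖) := by
        rw [mul_one_div, div_le_div_iff₀ (by nlinarith) (by linarith)]
        have f5 : t k ≤ 2 * ‖w + 1‖ * ‖w - I * t k‖ := by nlinarith [htk k]
        calc t k * ‖w - I * t k‖ ≤ (2 * ‖w + 1‖ * ‖w - I * t k‖) * (2 * ‖w' - I * t k‖) := by
              gcongr
          _ = _ := by ring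
      have f6 : t k / (‖w - I * t k‖ * ‖w' - I * t k‖) ≤ 8 * ‖w + 1‖ * (1 / |t k - t n|) := by
        nlinarith
      nlinarith [norm_nonneg (w - w')])).2
  rw [hs.tsum_sub hs'] at hR
  have hA := adiff hw hw' (h0 n) (hp n) (hp' n)
  have e : h t w - h t w' = (w - w') + (a (t n) w - a (t n) w')
      + (∑' k, a (t k) w - ∑' k, a (t k) w' - (a (t n) w - a (t n) w')) := by unfold h; ring
  have hD : ‖h t w - h t w'‖ ≤ ‖w - w'‖ * (2 * ‖w + 1‖
      + 2 * (t n / (‖w - I * t n‖ * ‖w' - I * t n‖))) := by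
    rw [e]
    refine (norm_add₃_le).trans ?_
    nlinarith [norm_nonneg (w - w')]
  obtain ⟨l1, l2⟩ := H.lb hw hp
  obtain ⟨l1', l2'⟩ := H.lb hw' hp'
  have p : 0 < ‖h t w‖ := by linarith
  have p' : 0 < ‖h t w'‖ := by linarith
  have hu : 0 < ‖w - I * t n‖ := norm_pos_iff.2 (sub_ne_zero.2 (hp n))
  have hu' : 0 < ‖w' - I * t n‖ := norm_pos_iff.2 (sub_ne_zero.2 (hp' n))
  rw [inv_sub_inv (norm_pos_iff.1 p) (norm_pos_iff.1 p'), norm_div, norm_mul, norm_sub_rev,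
    div_mul_eq_mul_div, div_le_iff₀ (by positivity)]
  have k1 : ‖w + 1‖ * ‖w' + 1‖ ≤ 1296 ^ 2 * (‖h t w‖ * ‖h t w'‖) := by
    calc _ ≤ (1296 * ‖h t w‖) * (1296 * ‖h t w'‖) := by gcongr
      _ = _ := by ring
  have k2 : t n / (‖w - I * t n‖ * ‖w' - I * t n‖) * ‖w' + 1‖
      ≤ 2 * 1296 ^ 2 * (‖h t w‖ * ‖h t w'‖) := by
    rw [div_mul_eq_mul_div, div_le_iff₀ (by positivity)]
    have k3 : t n ≤ 2 * (1296 * (‖h t w‖ * ‖w - I * t n‖)) := by
      have := htk n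
      have := l2 n
      have : ‖w - I * t n‖ ≤ 1296 * (‖h t w‖ * ‖w - I * t n‖) := by nlinarith
      linarith
    calc t n * ‖w' + 1‖ ≤ (2 * (1296 * (‖h t w‖ * ‖w - I * t n‖)))
          * (1296 * (‖h t w'‖ * ‖w' - I * t n‖)) := by gcongr; exact l2' n
      _ = _ := by ring
  calc _ ≤ ‖w - w'‖ * (2 * ‖w + 1‖ + 2 * (t n / (‖w - I * t n‖ * ‖w' - I * t n‖))) * ‖w' + 1‖ := by
        gcongr
    _ = ‖w - w'‖ * (2 * (‖w + 1‖ * ‖w' + 1‖)
        + 2 * (t n / (‖w - I * t n‖ * ‖w' - I * t n‖) * ‖w' + 1‖)) := by ring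
    _ ≤ ‖w - w'‖ * (2 * (1296 ^ 2 * (‖h t w‖ * ‖h t w'‖))
        + 2 * (2 * 1296 ^ 2 * (‖h t w‖ * ‖h t w'‖))) := by gcongr
    _ = _ := by ring

lemma Seq.diff (H : Seq t) {w : ℂ} (hw : 0 < w.re) : DifferentiableAt ℂ (h t) w := by
  have h0 : ∀ k, 0 < t k := fun k => by linarith [H.big k]
  set U : Set ℂ := {z | w.re / 2 < z.re} ∩ ball 0 (‖w‖ + 1) with hU
  have hUo : IsOpen U := (isOpen_lt continuous_const Complex.continuous_re).inter isOpen_ball
  have hwU : w ∈ U := ⟨by simp only [mem_ofPred_eq]; linarith, by simp⟩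
  have hne : ∀ z ∈ U, ∀ k, w.re / 2 ≤ ‖z - I * t k‖ := by
    intro z hz k
    have := Complex.re_le_norm (z - I * t k)
    have h1 : w.re / 2 < z.re := hz.1
    simp at this; linarith
  have hD : DifferentiableOn ℂ (fun z => ∑' k, a (t k) z) U := by
    refine differentiableOn_tsum_of_summable_norm
      (u := fun k => 2 * (‖w‖ + 2) * ((‖w‖ + 1) / (w.re / 2) + 1) * (1 / t k))
      (H.sum.mul_left _) (fun k => ?_) hUo (fun k z hz => ?_)
    · intro z hz
      have h1 : w.re / 2 < z.re := hz.1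
      have h2 := hne z hz k
      have h3 := n4 (w := z) (by linarith) (t k)
      have h4 : z - I * t k ≠ 0 := by intro h; rw [h] at h2; simp at h2; linarith
      have h5 : z + 1 - I * t k ≠ 0 := by intro h; rw [h] at h3; norm_num at h3
      unfold a
      refine DifferentiableAt.differentiableWithinAt ?_
      fun_prop (disch := assumption)
    · have h1 : w.re / 2 < z.re := hz.1
      have h2 := hne z hz k
      have h6 : ‖z‖ < ‖w‖ + 1 := by simpa using hz.2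
      have hp : 0 < ‖z - I * t k‖ := by linarith
      refine (an (by linarith) (sub_ne_zero.1 (norm_pos_iff.1 hp))).trans ?_
      have h7 : ‖z + 1‖ ≤ ‖w‖ + 2 := by have := norm_add_le z 1; rw [norm_one] at this; linarith
      have h8 : t k ≤ ‖z‖ + ‖z - I * t k‖ := by
        have := norm_sub_norm_le (I * t k : ℂ) z
        rw [norm_sub_rev, norm_mul, norm_I, one_mul, norm_real, Real.norm_eq_abs,
          abs_of_pos (h0 k)] at this
        linarith
      have h9 : ‖z‖ ≤ (‖w‖ + 1) / (w.re / 2) * ‖z - I * t k‖ := by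
        rw [div_mul_eq_mul_div, le_div_iff₀ (by linarith)]
        gcongr
      rw [mul_one_div, div_le_div_iff₀ hp (h0 k)]
      calc 2 * ‖z + 1‖ * t k
          ≤ 2 * (‖w‖ + 2) * (((‖w‖ + 1) / (w.re / 2) + 1) * ‖z - I * t k‖) := by
            gcongr
            · exact (h0 k).le
            · linarith
        _ = _ := by ring
  have := hD.differentiableAt (hUo.mem_nhds hwU)
  unfold h
  fun_prop

open Classical in
noncomputable def g (t : ℕ → ℝ) (w : ℂ) : ℂ := if NP t w then (h t w)⁻¹ else 0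

lemma Seq.g1 (H : Seq t) {w : ℂ} (hw : 0 ≤ w.re) : ‖g t w‖ * ‖w + 1‖ ≤ 1296 := by
  unfold g
  split_ifs with hp
  · have := (H.lb hw hp).1
    have h2 := n2 hw
    rw [norm_inv, inv_mul_le_iff₀ (by linarith)]; linarith
  · simp

lemma Seq.g2 (H : Seq t) {w : ℂ} (hw : 0 ≤ w.re) (k : ℕ) :
    ‖g t w‖ * ‖w + 1‖ ≤ 1296 * ‖w - I * t k‖ := by
  unfold g
  split_ifs with hp
  · have := (H.lb hw hp).1
    have h3 := (H.lb hw hp).2 k
    have h2 := n2 hw
    rw [norm_inv, inv_mul_le_iff₀ (by linarith)]; linarith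
  · simp

lemma Seq.g3 (H : Seq t) {w w' : ℂ} (hw : 0 ≤ w.re) (hw' : 0 ≤ w'.re) (hd : ‖w - w'‖ ≤ 1) :
    ‖g t w - g t w'‖ * ‖w' + 1‖ ≤ 6 * 1296 ^ 2 * ‖w - w'‖ := by
  have hn := norm_nonneg (w - w')
  by_cases hp' : NP t w'
  · by_cases hp : NP t w
    · unfold g; rw [if_pos hp, if_pos hp']; exact H.lip hw hw' hp hp' hd
    · have e : g t w = 0 := by unfold g; rw [if_neg hp]
      simp only [NP, not_forall, not_not] at hp
      obtain ⟨k, hk⟩ := hp
      have := H.g2 hw' k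
      rw [← hk, norm_sub_rev] at this
      rw [e, zero_sub, norm_neg]; nlinarith
  · have e : g t w' = 0 := by unfold g; rw [if_neg hp']
    simp only [NP, not_forall, not_not] at hp'
    obtain ⟨k, hk⟩ := hp'
    have := H.g2 hw k
    rw [← hk] at this
    have h1 : ‖w' + 1‖ ≤ 2 * ‖w + 1‖ := by
      have := norm_sub_le (w + 1) (w - w')
      rw [show w + 1 - (w - w') = w' + 1 by ring] at this
      linarith [n2 hw]
    rw [e, sub_zero]
    nlinarith [norm_nonneg (g t w)]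

lemma Seq.g4 (H : Seq t) {w w' : ℂ} (hw : 0 ≤ w.re) (hw' : 0 ≤ w'.re) :
    ‖g t w - g t w'‖ ^ 2 * (‖w + 1‖ * ‖w' + 1‖) ≤ (6 * 1296 ^ 2) ^ 2 * ‖w - w'‖ := by
  have hn := norm_nonneg (w - w')
  rcases le_total ‖w - w'‖ 1 with hd | hd
  · have h1 := H.g3 hw hw' hd
    have h2 := H.g3 hw' hw (by rwa [norm_sub_rev])
    rw [norm_sub_rev (g t w'), norm_sub_rev w'] at h2
    calc _ = (‖g t w - g t w'‖ * ‖w + 1‖) * (‖g t w - g t w'‖ * ‖w' + 1‖) := by ring
      _ ≤ (6 * 1296 ^ 2 * ‖w - w'‖) * (6 * 1296 ^ 2 * ‖w - w'‖) := by gcongr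
      _ = (6 * 1296 ^ 2) ^ 2 * ‖w - w'‖ * ‖w - w'‖ := by ring
      _ ≤ (6 * 1296 ^ 2) ^ 2 * ‖w - w'‖ * 1 := by gcongr
      _ = _ := by ring
  · wlog hle : ‖w + 1‖ ≤ ‖w' + 1‖ generalizing w w'
    · have := this hw' hw (norm_nonneg _) (by rwa [norm_sub_rev]) (le_of_not_ge hle)
      rwa [norm_sub_rev (g t w'), norm_sub_rev w', mul_comm ‖w' + 1‖] at this
    have h1 := H.g1 hw
    have h2 := H.g1 hw'
    have h3 := n2 hw
    have h4 : ‖g t w - g t w'‖ * ‖w + 1‖ ≤ 2 * 1296 := by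
      have := norm_sub_le (g t w) (g t w')
      nlinarith [norm_nonneg (g t w'), norm_nonneg (g t w)]
    have h5 : ‖w' + 1‖ ≤ ‖w + 1‖ * (2 * ‖w - w'‖) := by
      have := norm_sub_le (w + 1) (w - w')
      rw [show w + 1 - (w - w') = w' + 1 by ring] at this
      nlinarith
    calc _ ≤ ‖g t w - g t w'‖ ^ 2 * (‖w + 1‖ * (‖w + 1‖ * (2 * ‖w - w'‖))) := by gcongr
      _ = (‖g t w - g t w'‖ * ‖w + 1‖) ^ 2 * (2 * ‖w - w'‖) := by ring
      _ ≤ (2 * 1296) ^ 2 * (2 * ‖w - w'‖) := by gcongr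
      _ ≤ _ := by nlinarith

noncomputable def cay (z : ℂ) : ℂ := (1 + z) / (1 - z)

noncomputable def pt (s : ℝ) : ℂ := (I * s - 1) / (I * s + 1)

open Classical in
noncomputable def F (t : ℕ → ℝ) (z : ℂ) : ℂ := if z = 1 then 0 else g t (cay z)

lemma cay_re (z : ℂ) : (cay z).re = (1 - ‖z‖ ^ 2) / normSq (1 - z) := by
  unfold cay
  rw [Complex.div_re, Complex.sq_norm, normSq_apply z]
  simp; ring

lemma cay_re0 {z : ℂ} (hz : ‖z‖ ≤ 1) : 0 ≤ (cay z).re := by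
  rw [cay_re]; apply div_nonneg _ (normSq_nonneg _); nlinarith [norm_nonneg z]

lemma cay1 {z : ℂ} (hz : z ≠ 1) : cay z + 1 = 2 / (1 - z) := by
  have : 1 - z ≠ 0 := sub_ne_zero.2 hz.symm
  unfold cay; field_simp; ring

lemma Seq.Flip (H : Seq t) {z z' : ℂ} (hz : ‖z‖ ≤ 1) (hz' : ‖z'‖ ≤ 1) :
    ‖F t z - F t z'‖ ^ 2 ≤ (6 * 1296 ^ 2) ^ 2 * ‖z - z'‖ := by
  have one : ∀ z : ℂ, ‖z‖ ≤ 1 → ‖F t z - F t 1‖ ^ 2 ≤ (6 * 1296 ^ 2) ^ 2 * ‖z - 1‖ := by
    intro z hz
    by_cases h1 : z = 1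
    · simp [h1]
    have h2 := H.g1 (cay_re0 hz)
    have h3 : 0 < ‖1 - z‖ := norm_pos_iff.2 (sub_ne_zero.2 (Ne.symm h1))
    have h4 : ‖1 - z‖ ≤ 2 := by have := norm_sub_le 1 z; rw [norm_one] at this; linarith
    rw [cay1 h1, norm_div, ← mul_div_assoc, div_le_iff₀ h3] at h2
    simp only [F, if_neg h1, if_pos, sub_zero, norm_sub_rev z 1]
    simp only [norm_ofNat] at h2
    have h5 : ‖g t (cay z)‖ ≤ 648 * ‖1 - z‖ := by linarith
    calc _ ≤ (648 * ‖1 - z‖) ^ 2 := by gcongr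
      _ ≤ _ := by nlinarith
  by_cases h1 : z' = 1
  · rw [h1]; exact one z hz
  by_cases h2 : z = 1
  · rw [h2, norm_sub_rev, norm_sub_rev 1]; exact one z' hz'
  have h3 := H.g4 (cay_re0 hz) (cay_re0 hz')
  have e : cay z - cay z' = (z - z') * ((cay z + 1) * (cay z' + 1)) / 2 := by
    have : 1 - z ≠ 0 := sub_ne_zero.2 (Ne.symm h2)
    have : 1 - z' ≠ 0 := sub_ne_zero.2 (Ne.symm h1)
    rw [cay1 h1, cay1 h2]; unfold cay; field_simp; ring
  rw [e, norm_div, norm_mul, norm_mul] at h3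
  simp only [norm_ofNat] at h3
  have p := n2 (cay_re0 hz)
  have p' := n2 (cay_re0 hz')
  have q : 0 < ‖cay z + 1‖ * ‖cay z' + 1‖ := by positivity
  simp only [F, if_neg h1, if_neg h2]
  have h4 : ‖g t (cay z) - g t (cay z')‖ ^ 2 ≤ (6 * 1296 ^ 2) ^ 2 * (‖z - z'‖ / 2) := by
    apply le_of_mul_le_mul_right _ q
    linarith
  nlinarith [norm_nonneg (z - z')]

lemma Seq.Fdiff (H : Seq t) : DifferentiableOn ℂ (F t) (ball 0 1) := by
  have hb : ∀ z ∈ ball (0 : ℂ) 1, z ≠ 1 ∧ 0 < (cay z).re := by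
    intro z hz
    have h1 : ‖z‖ < 1 := by simpa using hz
    have h2 : z ≠ 1 := by rintro rfl; simp at h1
    refine ⟨h2, ?_⟩
    rw [cay_re]
    apply div_pos _ (normSq_pos.2 (sub_ne_zero.2 h2.symm)); nlinarith [norm_nonneg z]
  have hnp : ∀ w : ℂ, 0 < w.re → NP t w := by
    intro w hw k hk; rw [hk] at hw; simp at hw
  refine DifferentiableOn.congr (f := fun z => (h t (cay z))⁻¹) ?_ ?_
  · intro z hz
    obtain ⟨h1, h2⟩ := hb z hz
    have h3 : 1 - z ≠ 0 := sub_ne_zero.2 h1.symm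
    have h4 : DifferentiableAt ℂ cay z := by unfold cay; fun_prop (disch := assumption)
    have h5 : h t (cay z) ≠ 0 := by
      have := (H.lb h2.le (hnp _ h2)).1
      have h6 := n2 h2.le
      intro h7; rw [h7] at this; simp at this; rw [this] at h6; norm_num at h6
    exact (((H.diff h2).comp z h4).inv h5).differentiableWithinAt
  · intro z hz
    obtain ⟨h1, h2⟩ := hb z hz
    simp only [F, g, if_neg h1, if_pos (hnp _ h2)]

lemma den (s : ℝ) : (I * s + 1 : ℂ) ≠ 0 := by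
  intro h; have := congrArg Complex.re h; simp at this

lemma pt1 (s : ℝ) : pt s ≠ 1 := by
  intro h; unfold pt at h; rw [div_eq_one_iff_eq (den s)] at h
  have := congrArg Complex.re h; norm_num at this

lemma ptn (s : ℝ) : ‖pt s‖ = 1 := by
  unfold pt
  rw [norm_div, div_eq_one_iff_eq (norm_ne_zero_iff.2 (den s))]
  simp [Complex.norm_eq_sqrt_sq_add_sq]

lemma cpt (s : ℝ) : cay (pt s) = I * s := by
  have h1 := den s
  have e1 : 1 - pt s = 2 / (I * s + 1) := by unfold pt; field_simp; ring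
  have e2 : 1 + pt s = 2 * (I * s) / (I * s + 1) := by unfold pt; field_simp; ring
  unfold cay; rw [e1, e2]; field_simp

lemma Fpt (k : ℕ) : F t (pt (t k)) = 0 := by
  simp only [F, if_neg (pt1 _), g, cpt]
  rw [if_neg]; intro h; exact h k (cpt _)

lemma Seq.Flt (H : Seq t) {z : ℂ} (hz : ‖z‖ ≤ 1) (h1 : z ≠ 1) (h2 : ∀ k, z ≠ pt (t k)) :
    ‖1 - F t z‖ < 1 := by
  have hp : NP t (cay z) := by
    intro k hk
    apply h2 k
    have h3 : 1 - z ≠ 0 := sub_ne_zero.2 h1.symm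
    unfold cay at hk; unfold pt
    rw [div_eq_iff h3] at hk
    rw [eq_div_iff (den _)]; linear_combination hk
  have h3 := H.re (cay_re0 hz) hp 0
  have h4 : 0 ≤ t 0 / ‖cay z + 1 - I * t 0‖ ^ 2 :=
    div_nonneg (by linarith [H.big 0]) (by positivity)
  simp only [F, g, if_neg h1, if_pos hp]
  have h5 : h t (cay z) ≠ 0 := by intro h; rw [h] at h3; simp at h3; linarith
  rw [show 1 - (h t (cay z))⁻¹ = (h t (cay z) - 1) / h t (cay z) by field_simp, norm_div,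
    div_lt_one (norm_pos_iff.2 h5)]
  apply lt_of_pow_lt_pow_left₀ 2 (norm_nonneg _)
  rw [Complex.sq_norm, Complex.sq_norm, normSq_apply, normSq_apply]
  simp; nlinarith

end Pool.Agent.Lib.Helper21.Peak
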