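import Mathlib

namespace Pool.Agent.Lib.Helper21.Peak2
open Complex Filter Topology Set Metric MeasureTheory

lemma taylor {ζ : ℂ} (hζ : ‖ζ‖ = 1) {M : ℝ} (n : ℕ) : ∀ {F : ℂ → ℂ},
    DifferentiableOn ℂ F (ball 0 1) →
    (∀ j < n, Tendsto (iteratedDeriv j F) (𝓝[ball 0 1] ζ) (𝓝 0)) →
    (∀ z ∈ ball (0 : ℂ) 1, ‖iteratedDeriv n F z‖ ≤ M) →
    ∀ z ∈ ball (0 : ℂ) 1, ‖F z‖ ≤ M * ‖z - ζ‖ ^ n / n.factorial := by
  induction n with
  | zero => intro F _ _ hM z hz; simpa using hM z hz
  | succ n ih =>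
    intro F hF h0 hM z hz
    have hM0 : 0 ≤ M := (norm_nonneg _).trans (hM z hz)
    have h1 := ih (F := deriv F) (hF.deriv isOpen_ball)
      (fun j hj => by rw [← iteratedDeriv_succ']; exact h0 _ (by omega))
      (fun z hz => by rw [← iteratedDeriv_succ']; exact hM z hz)
    set γ : ℝ → ℂ := fun s => ζ + s * (z - ζ) with hγ
    have hz1 : ‖z‖ < 1 := by simpa using hz
    have hb : ∀ s : ℝ, 0 < s → s ≤ 1 → γ s ∈ ball (0 : ℂ) 1 := by
      intro s hs hs1
      have e : γ s = ((1 - s : ℝ) : ℂ) * ζ + s * z := by simp only [hγ]; push_cast; ring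
      rw [mem_ball_zero_iff, e]
      refine (norm_add_le _ _).trans_lt ?_
      rw [norm_mul, norm_mul, norm_real, norm_real, hζ, Real.norm_of_nonneg (by linarith),
        Real.norm_of_nonneg hs.le]
      nlinarith
    have hd : ∀ s : ℝ, 0 < s → s ≤ 1 →
        HasDerivAt (fun s => F (γ s)) (deriv F (γ s) * (z - ζ)) s := by
      intro s hs hs1
      have h2 : HasDerivAt (fun u : ℂ => F (ζ + u * (z - ζ))) (deriv F (γ s) * (z - ζ)) s := by
        have h3 := (hF.differentiableAt (isOpen_ball.mem_nhds (hb s hs hs1))).hasDerivAt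
        have h4 : HasDerivAt (fun u : ℂ => ζ + u * (z - ζ)) (z - ζ) s := by
          simpa using ((hasDerivAt_id (s : ℂ)).mul_const (z - ζ)).const_add ζ
        exact h3.comp (s : ℂ) h4
      exact h2.comp_ofReal
    set K := M * ‖z - ζ‖ ^ (n + 1) / (n + 1).factorial with hK
    have hK0 : 0 ≤ K := by positivity
    have h2 : ∀ ε : ℝ, 0 < ε → ε ≤ 1 → ‖F z‖ ≤ ‖F (γ ε)‖ + K := by
      intro ε hε hε1
      have := image_norm_le_of_norm_deriv_right_le_deriv_boundary (a := ε) (b := 1)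
        (f := fun s => F (γ s)) (f' := fun s => deriv F (γ s) * (z - ζ))
        (fun s hs => (hd s (hε.trans_le hs.1) hs.2).continuousAt.continuousWithinAt)
        (fun s hs => (hd s (hε.trans_le hs.1) hs.2.le).hasDerivWithinAt)
        (B := fun s => ‖F (γ ε)‖ + K * s ^ (n + 1)) (B' := fun s => K * ((n + 1 : ℕ) * s ^ n))
        (by have : 0 ≤ K * ε ^ (n + 1) := by positivity
            linarith)
        (fun s => by simpa using ((hasDerivAt_pow (n + 1) s).const_mul K).const_add ‖F (γ ε)‖)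
        (fun s hs => by
          have hs0 := hε.trans_le hs.1
          have h3 := h1 _ (hb s hs0 hs.2.le)
          have e : ‖γ s - ζ‖ = s * ‖z - ζ‖ := by
            simp only [hγ, add_sub_cancel_left, norm_mul, norm_real, Real.norm_of_nonneg hs0.le]
          rw [e] at h3
          rw [norm_mul]
          refine (mul_le_mul_of_nonneg_right h3 (norm_nonneg _)).trans (le_of_eq ?_)
          rw [hK, Nat.factorial_succ]; push_cast; field_simp; ring)
        (x := 1) ⟨hε1, le_rfl⟩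
      simpa [hγ] using this
    have h3 : Tendsto (fun ε => ‖F (γ ε)‖ + K) (𝓝[>] 0) (𝓝 (‖(0 : ℂ)‖ + K)) := by
      refine Tendsto.add_const _ (Tendsto.norm ?_)
      have h4 := h0 0 (by omega)
      rw [iteratedDeriv_zero] at h4
      refine h4.comp (tendsto_nhdsWithin_iff.2 ⟨?_, ?_⟩)
      · have : Continuous γ := by simp only [hγ]; fun_prop
        have h5 := (this.tendsto 0).mono_left (nhdsWithin_le_nhds (s := Ioi 0))
        simpa [hγ] using h5
      · filter_upwards [Ioc_mem_nhdsGT zero_lt_one] with s hs using hb s hs.1 hs.2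
    have h4 := ge_of_tendsto h3 (by
      filter_upwards [Ioc_mem_nhdsGT zero_lt_one] with s hs using h2 s hs.1 hs.2)
    simpa using h4

lemma decay {ζ : ℂ} (hζ : ‖ζ‖ = 1) {f : ℂ → ℂ} (hf : DifferentiableOn ℂ f (ball 0 1)) {C : ℝ}
    (hC : 1 ≤ C) (hb : ∀ n : ℕ, ∀ z ∈ ball (0 : ℂ) 1,
      ‖iteratedDeriv n f z‖ ≤ C ^ (n + 1) * (n.factorial : ℝ) ^ 3)
    (h0 : ∀ j, Tendsto (iteratedDeriv j f) (𝓝[ball 0 1] ζ) (𝓝 0)) {σ : ℝ} (hσ : 0 < σ)
    {z : ℂ} (hz : z ∈ ball (0 : ℂ) 1) (hd : ‖z - ζ‖ ≤ 2 * σ ^ 2) :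
    ‖f z‖ ≤ C * Real.exp (1 - 1 / (4 * C * σ)) := by
  set n := ⌊1 / (4 * C * σ)⌋₊ with hn
  have h1 := taylor hζ n hf (fun j _ => h0 j) (hb n) z hz
  have h2 : (n : ℝ) ≤ 1 / (4 * C * σ) := Nat.floor_le (by positivity)
  have h3 : 1 / (4 * C * σ) < n + 1 := Nat.lt_floor_add_one _
  have h4 : (n.factorial : ℝ) ≤ (n : ℝ) ^ n := by exact_mod_cast Nat.factorial_le_pow n
  have h5 : (0 : ℝ) < n.factorial := by exact_mod_cast n.factorial_pos
  have h6 : C * (n : ℝ) ^ 2 * (2 * σ ^ 2) ≤ Real.exp (-1) := by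
    have h7 : (n : ℝ) * (4 * C * σ) ≤ 1 := by rwa [le_div_iff₀ (by positivity)] at h2
    have h8 : ((n : ℝ) * (4 * C * σ)) ^ 2 ≤ 1 := pow_le_one₀ (by positivity) h7
    have h9 : (1 : ℝ) / 8 ≤ Real.exp (-1) := by
      rw [Real.exp_neg, one_div]
      have := Real.exp_one_lt_d9
      gcongr; linarith
    have : 0 ≤ C * (n : ℝ) ^ 2 * σ ^ 2 := by positivity
    nlinarith
  calc ‖f z‖ ≤ C ^ (n + 1) * (n.factorial : ℝ) ^ 3 * ‖z - ζ‖ ^ n / n.factorial := h1
    _ = C * (C ^ n * (n.factorial : ℝ) ^ 2 * ‖z - ζ‖ ^ n) := by field_simp; ring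
    _ ≤ C * (C ^ n * ((n : ℝ) ^ n) ^ 2 * (2 * σ ^ 2) ^ n) := by gcongr
    _ = C * (C * (n : ℝ) ^ 2 * (2 * σ ^ 2)) ^ n := by
        rw [mul_pow (C * _), mul_pow C, ← pow_mul (n : ℝ), ← pow_mul (n : ℝ), mul_comm n 2]
    _ ≤ C * (Real.exp (-1)) ^ n := by gcongr
    _ ≤ _ := by
        rw [← Real.exp_nat_mul]
        gcongr; linarith

lemma jensen {f : ℂ → ℂ} (hf : DifferentiableOn ℂ f (ball 0 1)) :
    ∃ K : ℝ, ∀ r : ℝ, 1 / 2 ≤ r → r < 1 →
      K ≤ Real.circleAverage (fun z => Real.log ‖f z‖) 0 r := by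
  refine ⟨-|((meromorphicOrderAt f 0).untop₀ : ℝ)| + Real.log ‖meromorphicTrailingCoeffAt f 0‖,
    fun r h1 h2 => ?_⟩
  have hr : 0 < r := by linarith
  have hA : AnalyticOnNhd ℂ f (closedBall 0 |r|) := (hf.analyticOnNhd isOpen_ball).mono
    (closedBall_subset_ball (by rwa [abs_of_pos hr]))
  rw [hA.meromorphicOn.circleAverage_log_norm hr.ne',
    hA.meromorphicOn.divisor_apply (mem_closedBall_self (abs_nonneg _))]
  have h3 : 0 ≤ ∑ᶠ u, (MeromorphicOn.divisor f (closedBall 0 |r|) u : ℝ)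
      * Real.log (r * ‖0 - u‖⁻¹) := by
    refine finsum_nonneg fun u => ?_
    by_cases hu : u ∈ closedBall (0 : ℂ) |r|
    · refine mul_nonneg (mod_cast MeromorphicOn.AnalyticOnNhd.divisor_nonneg hA u) ?_
      rcases eq_or_ne u 0 with rfl | h0
      · simp
      · apply Real.log_nonneg
        have h4 : ‖u‖ ≤ r := by simpa [abs_of_pos hr] using hu
        rw [zero_sub, norm_neg, ← div_eq_mul_inv, le_div_iff₀ (norm_pos_iff.2 h0)]; linarith
    · simp [Function.locallyFinsuppWithin.apply_eq_zero_of_notMem _ hu]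
  have h4 : |Real.log r| ≤ 1 := by
    rw [abs_of_nonpos (Real.log_nonpos hr.le h2.le), ← Real.log_inv]
    have := Real.log_le_sub_one_of_pos (inv_pos.2 hr)
    have h5 : r⁻¹ ≤ 2 := by rw [inv_le_comm₀ hr two_pos]; linarith
    linarith
  have h5 := neg_abs_le (((meromorphicOrderAt f 0).untop₀ : ℝ) * Real.log r)
  rw [abs_mul] at h5
  nlinarith [abs_nonneg ((meromorphicOrderAt f 0).untop₀ : ℝ)]

lemma uniq {θ s : ℕ → ℝ} (hs0 : ∀ k, 0 < s k) (hs1 : ∀ k, s k ≤ 1) (hθ0 : ∀ k, 0 ≤ θ k)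
    (hθ1 : ∀ k, θ k ≤ Real.pi) (hsep : ∀ k m, k ≠ m → s k ^ 2 ≤ |θ k - θ m|)
    (hns : ¬ Summable s) {f : ℂ → ℂ} (hf : DifferentiableOn ℂ f (ball 0 1)) {B c : ℝ}
    (hc : 0 < c) (hB : ∀ z ∈ ball (0 : ℂ) 1, f z ≠ 0 → Real.log ‖f z‖ ≤ B)
    (hd : ∀ k, ∀ z ∈ ball (0 : ℂ) 1, f z ≠ 0 → ‖z - circleMap 0 1 (θ k)‖ ≤ 2 * s k ^ 2 →
      Real.log ‖f z‖ ≤ B - c / s k) : EqOn f 0 (ball 0 1) := by
  have hA := hf.analyticOnNhd isOpen_ball
  refine (hA.eqOn_zero_or_eventually_ne_zero_of_preconnected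
    (convex_ball 0 1).isPreconnected).resolve_right fun hne => hns ?_
  obtain ⟨K, hK⟩ := jensen hf
  have hpi := Real.pi_gt_three
  refine summable_of_sum_range_le (c := 2 * Real.pi * (B - K) / c) (fun k => (hs0 k).le) fun N => ?_
  obtain ⟨r, h1, h2, h3⟩ : ∃ r : ℝ, 1 / 2 ≤ r ∧ r < 1 ∧ ∀ k ∈ Finset.range N, 1 - s k ^ 2 < r := by
    have e1 : ∀ᶠ r in 𝓝[<] (1 : ℝ), ∀ k ∈ Finset.range N, 1 - s k ^ 2 < r := by
      rw [eventually_all_finset]
      intro k _
      exact mem_nhdsWithin_of_mem_nhds (Ioi_mem_nhds (by have := hs0 k; nlinarith))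
    obtain ⟨r, hr⟩ := (e1.and (Ico_mem_nhdsLT (show (1 / 2 : ℝ) < 1 by norm_num))).exists
    exact ⟨r, hr.2.1, hr.2.2, hr.1⟩
  have hr : 0 < r := by linarith
  have hsub : sphere (0 : ℂ) |r| ⊆ ball 0 1 := sphere_subset_closedBall.trans
    (closedBall_subset_ball (by rwa [abs_of_pos hr]))
  have h4 := hK r h1 h2
  set J : ℕ → Set ℝ := fun k => Ico (θ k) (θ k + s k ^ 2) with hJ
  have hJI : ∀ k, IntervalIntegrable ((J k).indicator fun _ => c / s k) volume 0 (2 * Real.pi) :=
    fun k => ((integrable_indicator_iff measurableSet_Ico).2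
      (integrableOn_const (by simp))).intervalIntegrable
  have hJv : ∀ k, ∫ x in (0 : ℝ)..2 * Real.pi, (J k).indicator (fun _ => c / s k) x = c * s k := by
    intro k
    have := hs0 k
    rw [intervalIntegral.integral_of_le (by linarith), ← integral_Ico_eq_integral_Ioc,
      setIntegral_indicator measurableSet_Ico, inter_eq_self_of_subset_right, setIntegral_const]
    · simp only [Real.volume_real_Ico, smul_eq_mul, add_sub_cancel_left]
      rw [max_eq_left (by positivity)]; field_simp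
    · exact Ico_subset_Ico (hθ0 k) (by have := hs1 k; have := hθ1 k; nlinarith)
  have h5 : ∫ x in (0 : ℝ)..2 * Real.pi, Real.log ‖f (circleMap 0 r x)‖
      ≤ ∫ x in (0 : ℝ)..2 * Real.pi,
        (B - ∑ k ∈ Finset.range N, (J k).indicator (fun _ => c / s k) x) := by
    refine intervalIntegral.integral_mono_ae_restrict (by linarith)
      ((hA.mono hsub).meromorphicOn.circleIntegrable_log_norm)
      (intervalIntegrable_const.sub ?_) ?_
    · have := IntervalIntegrable.sum (Finset.range N) fun k _ => hJI k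
      refine this.congr ?_
      intro x _; simp
    apply ae_restrict_le_codiscreteWithin measurableSet_Icc
    apply codiscreteWithin_mono (subset_univ _)
    have h6 := circleMap_preimage_codiscrete hr.ne' (codiscreteWithin_mono hsub hne)
    filter_upwards [h6] with x hx
    have hx' : f (circleMap 0 r x) ≠ 0 := hx
    have hxb := hsub (circleMap_mem_sphere' 0 r x)
    by_cases hk : ∃ k ∈ Finset.range N, x ∈ J k
    · obtain ⟨k, hk, hxk⟩ := hk
      rw [Finset.sum_eq_single k, indicator_of_mem hxk]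
      · refine hd k _ hxb hx' ?_
        have a1 : ‖circleMap 0 r x - circleMap 0 1 x‖ = 1 - r := by
          have : circleMap 0 r x - circleMap 0 1 x = circleMap 0 (r - 1) x := by
            simp only [circleMap]; push_cast; ring
          rw [this, norm_circleMap_zero, abs_of_neg (by linarith)]; ring
        have a2 := (lipschitzWith_circleMap 0 1).dist_le_mul x (θ k)
        rw [dist_eq_norm, Real.dist_eq, abs_of_nonneg (by linarith [hxk.1])] at a2
        simp only [Real.coe_nnabs, abs_one, one_mul] at a2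
        have a3 := norm_sub_le_norm_sub_add_norm_sub (circleMap 0 r x) (circleMap 0 1 x)
          (circleMap 0 1 (θ k))
        have := h3 k hk
        linarith [hxk.2]
      · intro m _ hmk
        refine indicator_of_notMem (fun hxm => ?_) _
        have b1 := hsep m k hmk
        have b2 := hsep k m hmk.symm
        have := hxk.1; have := hxk.2; have := hxm.1; have := hxm.2
        rcases le_total (θ k) (θ m) with b | b
        · rw [abs_of_nonpos (by linarith)] at b2; linarith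
        · rw [abs_of_nonpos (by linarith)] at b1; linarith
      · intro h; exact absurd hk h
    · push Not at hk
      rw [Finset.sum_eq_zero fun k hk' => indicator_of_notMem (hk k hk') _, sub_zero]
      exact hB _ hxb hx'
  rw [intervalIntegral.integral_sub intervalIntegrable_const, intervalIntegral.integral_finsetSum
    fun k _ => hJI k] at h5
  · simp only [hJv, intervalIntegral.integral_const, sub_zero, smul_eq_mul,
      ← Finset.mul_sum] at h5
    rw [Real.circleAverage_def, smul_eq_mul, le_inv_mul_iff₀ (by linarith)] at h4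
    rw [le_div_iff₀ hc]
    linarith
  · have := IntervalIntegrable.sum (Finset.range N) fun k _ => hJI k
    refine this.congr ?_
    intro x _; simp

noncomputable def L (m : ℕ) : ℝ := Nat.log 2 m + 1

lemma L1 (m : ℕ) : 1 ≤ L m := by unfold L; have := Nat.cast_nonneg (α := ℝ) (Nat.log 2 m); linarith

lemma Lm {m n : ℕ} (h : m ≤ n) : L m ≤ L n := by
  unfold L; have : (Nat.log 2 m : ℝ) ≤ Nat.log 2 n := by exact_mod_cast Nat.log_mono_right h
  linarith

lemma sumL : Summable fun m : ℕ => 1 / (m * L m ^ 2) := by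
  rw [← summable_condensed_iff_of_nonneg (fun n => by have := L1 n; positivity)]
  · refine ((summable_nat_add_iff 1).2 (Real.summable_one_div_nat_pow.2 one_lt_two)).congr
      fun k => ?_
    simp only [L, Nat.log_pow one_lt_two]; push_cast; field_simp
  · intro m n hm h
    have := L1 m; have := Lm h
    have : (0 : ℝ) < m := by exact_mod_cast hm
    have : (m : ℝ) ≤ n := by exact_mod_cast h
    gcongr

lemma nsumL : ¬ Summable fun m : ℕ => 1 / (m * L m) := by
  rw [← summable_condensed_iff_of_nonneg (fun n => by have := L1 n; positivity)]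
  · intro h
    refine Real.not_summable_one_div_natCast ((summable_nat_add_iff 1).1 (h.congr fun k => ?_))
    simp only [L, Nat.log_pow one_lt_two]; push_cast; field_simp
  · intro m n hm h
    have := L1 m; have := Lm h
    have : (0 : ℝ) < m := by exact_mod_cast hm
    have : (m : ℝ) ≤ n := by exact_mod_cast h
    gcongr

lemma inj {φ : ℕ → ℝ} (h0 : ∀ m, 0 ≤ φ m) (hz : φ 0 = 0) (hs : Summable φ) {e : ℕ → ℕ}
    (he : ∀ k k', e k ≠ 0 → e k = e k' → k = k') (s : Finset ℕ) :
    ∑ k ∈ s, φ (e k) ≤ ∑' m, φ m := by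
  rw [← Finset.sum_filter_of_ne (p := fun k => e k ≠ 0) (fun k _ hk h => hk (by rw [h, hz])),
    ← Finset.sum_image (fun k hk k' _ h => he k k' (Finset.mem_filter.1 hk).2 h)]
  exact hs.sum_le_tsum _ fun m _ => h0 m

end Pool.Agent.Lib.Helper21.Peak2
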