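import Mathlib
open Complex Set Filter Metric Topology

namespace Pool.Agent.Lib.Helper21.Peano

lemma mvt {φ φ' : ℝ → ℂ} (h : ∀ t, HasDerivAt φ (φ' t) t) {a b T C : ℝ} (hb : |b - a| ≤ T)
    (hC : ∀ t, |t - a| ≤ T → ‖φ' t‖ ≤ C) : ‖φ b - φ a‖ ≤ C * T := by
  have T0 := (abs_nonneg _).trans hb
  have C0 := (norm_nonneg _).trans (hC a (by simpa))
  exact ((convex_closedBall a T).norm_image_sub_le_of_norm_hasDerivWithin_le
    (fun t _ => (h t).hasDerivWithinAt) (fun t ht => hC t ht) (mem_closedBall_self T0) hb).trans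
    (mul_le_mul_of_nonneg_left hb C0)

lemma core {B R lam J : ℝ} {F G q : ℝ → ℂ} (B0 : 10 ^ 6 ≤ B) (hR : R * B = Real.exp B)
    (R0 : 1000 * (20 + B ^ 2) ≤ R) (l0 : 0 ≤ lam) (l1 : lam * R ≤ 3 / 100)
    (hJ : |J - R| ≤ 6 / 10 * R) (hF : ∀ t, HasDerivAt F (I * q t) t)
    (hG : ∀ t, HasDerivAt G (I * q t * exp (B * exp (t * I))) t) (cq : Continuous q)
    (q0 : ∀ t, q t ≠ 0)
    (var : ∀ s t, lam * |t - s| ≤ 1 → ‖q t - q s‖ ≤ 2 * (lam * |t - s|) * ‖q s‖)
    (anc : ∀ m : ℤ, ‖G (m * (2 * Real.pi)) - F (m * (2 * Real.pi)) - J * q (m * (2 * Real.pi))‖ ≤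
      B ^ 2 * ‖q (m * (2 * Real.pi))‖)
    {t0 : ℝ} {w : ℂ} (h : ‖w - F t0‖ ≤ R / 4 * ‖q t0‖) :
    ∃ t : ℝ, ‖w - G t‖ ≤ R / 500 / Real.exp B * ‖q t * exp (B * exp (t * I))‖ := by
  have Bp : 0 < B := by linarith
  have R1 : 20000 ≤ R := by nlinarith
  have var' : ∀ s t T c : ℝ, |t - s| ≤ T → lam * T ≤ c → c ≤ 1 → ‖q t - q s‖ ≤ 2 * c * ‖q s‖ := by
    intro s t T c h1 h2 h3
    have : lam * |t - s| ≤ c := (mul_le_mul_of_nonneg_left h1 l0).trans h2
    exact (var s t (this.trans h3)).trans (by gcongr)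
  have cF : Continuous F := continuous_iff_continuousAt.2 fun t => (hF t).continuousAt
  obtain ⟨c, hc⟩ : ∃ c : ℝ, c = J - R := ⟨_, rfl⟩
  rw [← hc] at hJ
  have nc : ∀ u : ℂ, ‖c * u‖ ≤ 6 / 10 * R * ‖u‖ := fun u => by
    rw [norm_mul, norm_real]; gcongr; exact hJ
  obtain ⟨t1, h1⟩ : ∃ t1, ‖w - (F t1 + c * q t1)‖ - R * ‖q t1‖ = 0 := by
    have p0 := norm_nonneg (q t0)
    refine (intermediate_value_univ (f := fun t => ‖w - (F t + c * q t)‖ - R * ‖q t‖) t0 (t0 + 4 * R)
      (by fun_prop) ⟨?_, ?_⟩)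
    · have := norm_sub_le (w - F t0) (c * q t0)
      rw [sub_sub] at this
      have := nc (q t0)
      nlinarith
    · have v : ∀ t, |t - t0| ≤ 4 * R → ‖q t - q t0‖ ≤ 2 * (12 / 100) * ‖q t0‖ := fun t ht =>
        var' t0 t _ _ ht (by linarith) (by norm_num)
      have e : |t0 + 4 * R - t0| ≤ 4 * R := by rw [add_sub_cancel_left, abs_of_pos (by linarith)]
      have m := mvt (φ := fun t => F t - t * (I * q t0)) (φ' := fun t => I * q t - I * q t0)
        (fun t => (hF t).sub (by simpa using (hasDerivAt_id t).ofReal_comp.mul_const (I * q t0))) e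
        (fun t ht => by rw [← mul_sub, norm_mul, norm_I, one_mul]; exact v t ht)
      have a := norm_sub_norm_le (q (t0 + 4 * R)) (q t0)
      have b := nc (q (t0 + 4 * R))
      have d := v _ e
      have n : ‖((4 * R : ℝ) : ℂ) * (I * q t0)‖ = 4 * R * ‖q t0‖ := by
        rw [norm_mul, norm_mul, norm_I, one_mul, norm_real, Real.norm_of_nonneg (by linarith)]
      have k : ((4 * R : ℝ) : ℂ) * (I * q t0) = (w - F t0) - (w - (F (t0 + 4 * R) + c * q (t0 + 4 * R)))
          - c * q (t0 + 4 * R) - (F (t0 + 4 * R) - (t0 + 4 * R : ℝ) * (I * q t0) -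
            (F t0 - t0 * (I * q t0))) := by push_cast; ring
      rw [k] at n
      have := (norm_sub_le _ _).trans (add_le_add ((norm_sub_le _ _).trans (add_le_add
        (norm_sub_le (w - F t0) (w - (F (t0 + 4 * R) + c * q (t0 + 4 * R)))) b)) m)
      rw [n] at this
      nlinarith
  have pi := Real.pi_pos
  have pi' := Real.pi_le_four
  obtain ⟨m, hm⟩ : ∃ m : ℤ, |t1 - m * (2 * Real.pi)| ≤ 8 := ⟨⌊t1 / (2 * Real.pi)⌋, by
    have a := Int.floor_le (t1 / (2 * Real.pi))
    have b := Int.lt_floor_add_one (t1 / (2 * Real.pi))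
    rw [le_div_iff₀ (by linarith)] at a
    rw [div_lt_iff₀ (by linarith)] at b
    rw [abs_le]; constructor <;> linarith⟩
  have an := anc m
  have ee : exp ((m * (2 * Real.pi) : ℝ) * I) = 1 := by
    rw [← exp_int_mul_two_pi_mul_I m]; push_cast; ring_nf
  generalize m * (2 * Real.pi) = t2 at hm an ee
  obtain ⟨p, hp⟩ : ∃ p, p = ‖q t2‖ := ⟨_, rfl⟩
  have p0 : 0 < p := hp ▸ norm_pos_iff.2 (q0 t2)
  have v : ∀ t, |t - t2| ≤ 8 → ‖q t - q t2‖ ≤ 2 * (lam * 8) * p := fun t ht =>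
    hp ▸ var' t2 t _ _ ht le_rfl (by nlinarith)
  have l2 : lam ≤ 1 / 1000 := by nlinarith
  have a1 : ‖F t1 - F t2‖ ≤ 2 * p * 8 := mvt hF hm fun t ht => by
    rw [norm_mul, norm_I, one_mul]
    nlinarith [norm_sub_norm_le (q t) (q t2), v t ht]
  have a2 : R * ‖q t1 - q t2‖ ≤ p := by
    calc _ ≤ R * (2 * (lam * 8) * p) := by gcongr; exact v t1 hm
      _ = 16 * (lam * R) * p := by ring
      _ ≤ _ := by nlinarith
  obtain ⟨u, hu⟩ : ∃ u, u = w - (F t2 + c * q t2) := ⟨_, rfl⟩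
  have a3 : |‖u‖ - R * p| ≤ 20 * p := by
    have b1 := abs_norm_sub_norm_le u (w - (F t1 + c * q t1))
    rw [show u - (w - (F t1 + c * q t1)) = F t1 - F t2 + c * (q t1 - q t2) by rw [hu]; ring] at b1
    have b2 := (norm_add_le _ _).trans (add_le_add a1 (nc (q t1 - q t2)))
    have b3 : R * |‖q t1‖ - ‖q t2‖| ≤ R * ‖q t1 - q t2‖ := by gcongr; exact abs_norm_sub_norm_le _ _
    rw [← abs_of_pos (show 0 < R by linarith), ← abs_mul, ← hp, abs_of_pos (show 0 < R by linarith),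
      mul_sub] at b3
    rw [abs_le] at b1 ⊢
    have := abs_le.1 (b3.trans a2)
    constructor <;> linarith [b1.1, b1.2]
  obtain ⟨α, hα, a4⟩ : ∃ α : ℝ, |α| ≤ 4 ∧ ‖u - R * exp (α * I) * q t2‖ ≤ 20 * p := by
    refine ⟨arg (u / q t2), (abs_arg_le_pi _).trans pi', ?_⟩
    have e := norm_mul_exp_arg_mul_I (u / q t2)
    rw [norm_div, ← hp, eq_div_iff (q0 t2)] at e
    rw [show u - R * exp (arg (u / q t2) * I) * q t2 = ((‖u‖ / p - R : ℝ) : ℂ) *
      exp (arg (u / q t2) * I) * q t2 by rw [ofReal_sub]; linear_combination -e, norm_mul, norm_mul,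
      norm_exp_ofReal_mul_I, ← hp, norm_real, mul_one, Real.norm_eq_abs, ← abs_of_pos p0, ← abs_mul,
      abs_of_pos p0, sub_mul, div_mul_cancel₀ _ p0.ne']
    exact a3
  have B4 : 4 / B ≤ 1 / 1000 := by rw [div_le_iff₀ Bp]; linarith
  have hs : |α / B - 0| ≤ 4 / B := by rw [sub_zero, abs_div, abs_of_pos Bp]; gcongr
  have E0 := Real.exp_pos B
  have ex : ∀ s : ℝ, exp (((t2 + s : ℝ) : ℂ) * I) = exp (s * I) := fun s => by
    rw [ofReal_add, add_mul, exp_add, ee, one_mul]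
  have a5 := mvt (φ := fun s => G (t2 + s) - R * exp (B * s * I) * q t2)
    (φ' := fun s => I * q (t2 + s) * exp (B * exp (s * I)) - R * (exp (B * s * I) * (B * I)) * q t2)
    (fun s => by
      have d1 := (hG (t2 + s)).comp_const_add
      rw [ex] at d1
      exact d1.sub ((((by simpa using (hasDerivAt_id s).ofReal_comp.const_mul (B : ℂ) :
        HasDerivAt (fun s : ℝ => (B : ℂ) * s) B s).mul_const I).cexp.const_mul (R : ℂ)).mul_const _)) hs
    (C := 33 * R * p) (fun s hs => by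
      rw [sub_zero] at hs
      have n1 : ‖exp (B * exp (s * I))‖ ≤ R * B := by
        rw [hR]; refine (norm_exp_le_exp_norm _).trans_eq ?_
        rw [norm_mul, norm_exp_ofReal_mul_I, mul_one, norm_real, Real.norm_of_nonneg Bp.le]
      have n2 : ‖q (t2 + s) - q t2‖ ≤ 2 * (lam * (4 / B)) * p := hp ▸ var' t2 _ (4 / B) _
        (by simpa using hs) le_rfl (by nlinarith)
      have n3 : ‖B * (exp (s * I) - 1 - s * I)‖ ≤ 16 / B := by
        have := norm_exp_sub_one_sub_id_le (x := s * I) (by simp; linarith)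
        rw [norm_mul, norm_real, Real.norm_of_nonneg Bp.le]
        calc _ ≤ B * (4 / B) ^ 2 := by
              gcongr; refine this.trans ?_; gcongr; simpa using hs
          _ = _ := by field_simp; norm_num
      have n4 := norm_exp_sub_one_le (n3.trans (by rw [div_le_one Bp]; linarith))
      have e : I * q (t2 + s) * exp (B * exp (s * I)) - R * (exp (B * s * I) * (B * I)) * q t2 =
          I * (q (t2 + s) - q t2) * exp (B * exp (s * I)) + I * q t2 * (R * B : ℝ) * exp ((B * s : ℝ) * I) *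
            (exp (B * (exp (s * I) - 1 - s * I)) - 1) := by
        have : exp (B * exp (s * I)) = (R * B : ℝ) * exp ((B * s : ℝ) * I) *
            exp (B * (exp (s * I) - 1 - s * I)) := by
          rw [hR, ofReal_exp, ← exp_add, ← exp_add]; push_cast; ring_nf
        rw [this]; push_cast; ring
      rw [e]
      refine (norm_add_le _ _).trans ?_
      simp only [norm_mul, norm_I, one_mul, norm_exp_ofReal_mul_I, mul_one, ← hp, norm_real]
      rw [Real.norm_of_nonneg Bp.le, Real.norm_of_nonneg (show 0 ≤ R by linarith)]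
      calc _ ≤ 2 * (lam * (4 / B)) * p * (R * B) + p * (R * B) * (2 * (16 / B)) := by
            gcongr; linarith
        _ = 8 * (lam * R) * p + 32 * R * p := by field_simp; ring
        _ ≤ _ := by nlinarith)
  refine ⟨t2 + α / B, ?_⟩
  have k : w - G (t2 + α / B) = u - R * exp (α * I) * q t2 - (G t2 - F t2 - J * q t2) -
      (G (t2 + α / B) - R * exp (B * (α / B : ℝ) * I) * q t2 -
        (G (t2 + 0) - R * exp (B * (0 : ℝ) * I) * q t2)) := by
    rw [show (B : ℂ) * (α / B : ℝ) = α by push_cast; field_simp [ofReal_ne_zero.2 Bp.ne'], hu, hc]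
    simp; ring
  rw [k]
  refine ((norm_sub_le _ _).trans (add_le_add ((norm_sub_le _ _).trans (add_le_add a4 an)) a5)).trans ?_
  rw [sub_zero] at hs
  have c1 : 9 / 10 * p ≤ ‖q (t2 + α / B)‖ := by
    have := v (t2 + α / B) (by rw [add_sub_cancel_left]; linarith)
    have b := norm_sub_norm_le (q t2) (q (t2 + α / B))
    rw [norm_sub_rev] at b
    nlinarith
  have c2 : 9 / 10 * Real.exp B ≤ ‖exp (B * exp ((t2 + α / B : ℝ) * I))‖ := by
    rw [ex, norm_exp, re_ofReal_mul, exp_ofReal_mul_I_re]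
    have b1 := Real.one_sub_sq_div_two_le_cos (x := α / B)
    have b2 : B * (α / B) ^ 2 ≤ 1 / 10 := by
      calc _ ≤ B * (4 / B) ^ 2 := by rw [← sq_abs (α / B)]; gcongr
        _ = 4 * (4 / B) := by field_simp
        _ ≤ _ := by linarith
    calc _ ≤ Real.exp (-(1 / 10)) * Real.exp B := by
          gcongr; linarith [Real.add_one_le_exp (-(1 / 10))]
      _ ≤ _ := by rw [← Real.exp_add]; gcongr; nlinarith
  rw [norm_mul, ← hp]
  calc _ ≤ R / 500 / Real.exp B * (9 / 10 * p * (9 / 10 * Real.exp B)) := by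
        have : 33 * R * p * (4 / B) ≤ 33 * R * p * (4 / 10 ^ 6) := by gcongr
        rw [show R / 500 / Real.exp B * (9 / 10 * p * (9 / 10 * Real.exp B)) = 81 / 50000 * R * p by
          field_simp; ring]
        nlinarith
    _ ≤ _ := by gcongr

end Pool.Agent.Lib.Helper21.Peano
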