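import Pool.Agent.Lib.helper21.Peano1
open Complex Set Filter Metric Topology MeasureTheory

namespace Pool.Agent.Lib.Helper21.Peano

lemma e1 (x : ℂ) : ‖exp x - 1‖ ≤ ‖x‖ * Real.exp ‖x‖ := by
  simpa using norm_exp_sub_sum_le_norm_mul_exp x 1

lemma rad {f p : ℂ → ℂ} (hp : Continuous p) (hf : ∀ z, HasDerivAt f (p z) z) (f0 : f 0 = 0) (z : ℂ) :
    f z = ∫ r in (0 : ℝ)..1, p (r * z) * z := by
  rw [intervalIntegral.integral_eq_sub_of_hasDerivAt (f := fun r : ℝ => f (r * z))
    (fun r _ => (HasDerivAt.comp (h := fun u => u * z) _ (hf _) (hasDerivAt_mul_const z)).comp_ofReal)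
    (Continuous.intervalIntegrable (by fun_prop) _ _)]
  simp [f0]

lemma Jb {B R : ℝ} (B0 : 10 ^ 6 ≤ B) (hR : R * B = Real.exp B) {n : ℕ} (n0 : 1 ≤ n) :
    |n * (∫ r in (0 : ℝ)..1, (Real.exp (B * r ^ n) - 1)) - R| ≤ 6 / 10 * R := by
  have Bp : 0 < B := by linarith
  have i : ∀ a b : ℝ, ∫ r in (0 : ℝ)..1, n * r ^ (n - 1) * (a * Real.exp (B * r ^ n) + b) =
      a * (R - 1 / B) + b := fun a b => by
    rw [intervalIntegral.integral_eq_sub_of_hasDerivAt
      (f := fun r : ℝ => a / B * Real.exp (B * r ^ n) + b * r ^ n)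
      (fun r _ => (((((hasDerivAt_pow n r).const_mul B).exp).const_mul (a / B)).add
        ((hasDerivAt_pow n r).const_mul b)).congr_deriv (by field_simp))
      (Continuous.intervalIntegrable (by fun_prop) _ _)]
    simp only [one_pow, mul_one, ← hR, zero_pow (show n ≠ 0 by omega), mul_zero, Real.exp_zero]
    field_simp; ring
  have b3 : 10 * B ^ 2 ≤ Real.exp (B / 3) := by
    have := Real.pow_div_factorial_le_exp (B / 3) (by positivity) 3
    norm_num [Nat.factorial] at this
    nlinarith [sq_nonneg B]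
  have c : B * Real.exp (2 / 3 * B) ≤ R / 10 := by
    have e : Real.exp B = Real.exp (2 / 3 * B) * Real.exp (B / 3) := by rw [← Real.exp_add]; ring_nf
    have := mul_le_mul_of_nonneg_left b3 (Real.exp_pos (2 / 3 * B)).le
    refine le_of_mul_le_mul_right ?_ Bp
    nlinarith
  have c1 : B ≤ B * Real.exp (2 / 3 * B) := le_mul_of_one_le_right Bp.le (Real.one_le_exp (by positivity))
  have c2 : 1 / B ≤ 1 := by rw [div_le_one Bp]; linarith
  have c3 : 0 < 1 / B := by positivity
  have pw : ∀ r ∈ Icc (0 : ℝ) 1, r ^ n ≤ r ^ (n - 1) ∧ r ^ (n - 1) ≤ 1 := fun r hr =>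
    ⟨pow_le_pow_of_le_one hr.1 hr.2 (by omega), pow_le_one₀ hr.1 hr.2⟩
  rw [← intervalIntegral.integral_const_mul, abs_le]
  constructor
  · have := intervalIntegral.integral_mono_on (μ := volume) zero_le_one
      (f := fun r : ℝ => n * r ^ (n - 1) * (1 * Real.exp (B * r ^ n) + -1))
      (g := fun r : ℝ => n * (Real.exp (B * r ^ n) - 1))
      (Continuous.intervalIntegrable (by fun_prop) _ _)
      (Continuous.intervalIntegrable (by fun_prop) _ _) fun r hr => by
        have := Real.one_le_exp (show 0 ≤ B * r ^ n by have := hr.1; positivity)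
        rw [mul_assoc]; gcongr
        nlinarith [(pw r hr).2]
    rw [i] at this
    linarith
  · have := intervalIntegral.integral_mono_on (μ := volume) zero_le_one
      (g := fun r : ℝ => n * r ^ (n - 1) * (3 / 2 * Real.exp (B * r ^ n) + B * Real.exp (2 / 3 * B)))
      (f := fun r : ℝ => n * (Real.exp (B * r ^ n) - 1))
      (Continuous.intervalIntegrable (by fun_prop) _ _)
      (Continuous.intervalIntegrable (by fun_prop) _ _) fun r hr => by
        have x0 : 0 ≤ r ^ n := pow_nonneg hr.1 n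
        rw [mul_assoc]; gcongr
        refine le_trans ?_ (mul_le_mul_of_nonneg_right (pw r hr).1 (by positivity))
        generalize r ^ n = x at x0
        have e := Real.exp_pos (B * x)
        rcases le_total x (2 / 3) with h | h
        · have a := e1 (B * x : ℝ)
          rw [← ofReal_exp, ← ofReal_one, ← ofReal_sub, norm_real, norm_real,
            Real.norm_of_nonneg (show 0 ≤ B * x by positivity)] at a
          have b : Real.exp (B * x) ≤ Real.exp (2 / 3 * B) := Real.exp_le_exp.2 (by nlinarith)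
          have := (le_abs_self _).trans (a.trans (mul_le_mul_of_nonneg_left b (by positivity)))
          nlinarith [mul_nonneg x0 e.le]
        · nlinarith [mul_nonneg x0 (Bp.le.trans c1)]
    rw [i] at this
    linarith

lemma anchor {B L : ℝ} {s f g : ℂ → ℂ} {n : ℕ} (B0 : 0 ≤ B) (n0 : 1 ≤ n) (cs : Continuous s)
    (L0 : 0 ≤ L) (L1 : L ≤ n / 2)
    (hL : ∀ z w : ℂ, ‖z‖ ≤ 1 → ‖w‖ ≤ 1 → ‖s z - s w‖ ≤ L * ‖z - w‖)
    (hf : ∀ z, HasDerivAt f (exp (s z)) z) (hg : ∀ z, HasDerivAt g (exp (s z + B * z ^ n)) z)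
    (f0 : f 0 = 0) (g0 : g 0 = 0) {z : ℂ} (z1 : ‖z‖ = 1) (zn : z ^ n = 1) :
    ‖g z - f z - (∫ r in (0 : ℝ)..1, (Real.exp (B * r ^ n) - 1) :) * (z * exp (s z))‖ ≤
      ‖exp (s z)‖ * L * B * Real.exp B * (4 / n) * (4 / n) := by
  have np : (0 : ℝ) < n := by exact_mod_cast n0
  rw [rad (by fun_prop) hf f0 z, rad (by fun_prop) hg g0 z, ← intervalIntegral.integral_ofReal,
    ← intervalIntegral.integral_mul_const, ← intervalIntegral.integral_sub
      (Continuous.intervalIntegrable (by fun_prop) _ _) (Continuous.intervalIntegrable (by fun_prop) _ _),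
    ← intervalIntegral.integral_sub
      (Continuous.intervalIntegrable (by fun_prop) _ _) (Continuous.intervalIntegrable (by fun_prop) _ _)]
  refine (intervalIntegral.norm_integral_le_of_norm_le zero_le_one (g := fun r =>
    ‖exp (s z)‖ * L * B * Real.exp B * (4 / n) * Real.exp (n / 4 * (r - 1))) (ae_of_all _ fun r hr => ?_)
    (Continuous.intervalIntegrable (by fun_prop) _ _)).trans ?_
  · obtain ⟨r0, r1⟩ := hr
    have a : ‖s (r * z) - s z‖ ≤ L * (1 - r) := by
      refine (hL _ _ (by simp [z1, abs_of_pos r0, r1]) z1.le).trans_eq ?_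
      rw [← sub_one_mul, norm_mul, z1, mul_one, ← ofReal_one, ← ofReal_sub, norm_real,
        Real.norm_eq_abs, abs_of_nonpos (by linarith), neg_sub]
    have b : ‖((B * r ^ n : ℝ) : ℂ)‖ = B * r ^ n := by rw [norm_real, Real.norm_of_nonneg (by positivity)]
    have c : r ^ n ≤ Real.exp (n * (r - 1)) := by
      rw [Real.exp_nat_mul]; gcongr; linarith [Real.add_one_le_exp (r - 1)]
    have d : 1 - r ≤ 4 / n * Real.exp (n / 4 * (1 - r)) := by
      rw [div_mul_eq_mul_div, le_div_iff₀ np]; linarith [Real.add_one_le_exp (n / 4 * (1 - r))]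
    rw [show exp (s (r * z) + B * (r * z) ^ n) * z - exp (s (r * z)) * z -
        ((Real.exp (B * r ^ n) - 1 : ℝ) : ℂ) * (z * exp (s z)) =
        z * exp (s z) * (exp (s (r * z) - s z) - 1) * (exp (B * r ^ n : ℝ) - 1) by
      rw [mul_pow, zn, exp_add, exp_sub]; push_cast; field_simp [exp_ne_zero]]
    rw [norm_mul, norm_mul, norm_mul, z1, one_mul]
    calc _ ≤ ‖exp (s z)‖ * (L * (4 / n * Real.exp (n / 4 * (1 - r))) * Real.exp (n / 2 * (1 - r))) *
          (B * Real.exp (n * (r - 1)) * Real.exp B) := by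
          gcongr
          · refine (e1 _).trans ?_
            gcongr
            · exact a.trans (by gcongr)
            · exact a.trans (by gcongr)
          · refine (e1 _).trans ?_
            rw [b]; gcongr
            exact mul_le_of_le_one_right B0 (pow_le_one₀ r0.le r1)
      _ = ‖exp (s z)‖ * L * B * Real.exp B * (4 / n) * (Real.exp (n / 4 * (1 - r)) *
          Real.exp (n / 2 * (1 - r)) * Real.exp (n * (r - 1))) := by ring
      _ = _ := by rw [← Real.exp_add, ← Real.exp_add]; ring_nf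
  · rw [intervalIntegral.integral_const_mul, intervalIntegral.integral_eq_sub_of_hasDerivAt
      (f := fun r : ℝ => 4 / n * Real.exp (n / 4 * (r - 1)))
      (fun r _ => (((((hasDerivAt_id r).sub_const 1).const_mul ((n : ℝ) / 4)).exp).const_mul
        ((4 : ℝ) / n)).congr_deriv (by simp; field_simp)) (Continuous.intervalIntegrable (by fun_prop) _ _)]
    gcongr
    simp; positivity

lemma step {B R L : ℝ} {s f g : ℂ → ℂ} {n : ℕ} (B0 : 10 ^ 6 ≤ B) (hR : R * B = Real.exp B)
    (R0 : 1000 * (20 + B ^ 2) ≤ R) (n0 : 1 ≤ n) (cs : Continuous s) (L0 : 0 ≤ L)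
    (L1 : (1 + L) / n * R ≤ 3 / 100)
    (hL : ∀ z w : ℂ, ‖z‖ ≤ 1 → ‖w‖ ≤ 1 → ‖s z - s w‖ ≤ L * ‖z - w‖)
    (hf : ∀ z, HasDerivAt f (exp (s z)) z) (hg : ∀ z, HasDerivAt g (exp (s z + B * z ^ n)) z)
    (f0 : f 0 = 0) (g0 : g 0 = 0) {θ : ℝ} {w : ℂ}
    (h : ‖w - f (exp (θ * I))‖ ≤ R / 4 / n * ‖exp (s (exp (θ * I)))‖) :
    ∃ θ : ℝ, ‖w - g (exp (θ * I))‖ ≤
      R / 500 / Real.exp B / n * ‖exp (s (exp (θ * I)) + B * exp (θ * I) ^ n)‖ := by
  have np : (0 : ℝ) < n := by exact_mod_cast n0
  have nz : (n : ℂ) ≠ 0 := by exact_mod_cast np.ne'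
  have Bp : 0 < B := by linarith
  have R1 : 20000 ≤ R := by nlinarith
  set z : ℝ → ℂ := fun t => exp ((t / n : ℝ) * I) with hz
  have z1 : ∀ t, ‖z t‖ = 1 := fun t => norm_exp_ofReal_mul_I _
  have zn : ∀ t, z t ^ n = exp (t * I) := fun t => by
    simp only [hz]; rw [← exp_nat_mul]; push_cast; field_simp
  have dz : ∀ t, HasDerivAt z (z t * (I / n)) t := fun t =>
    ((((hasDerivAt_id t).div_const (n : ℝ)).ofReal_comp.mul_const I).cexp).congr_deriv (by
      simp only [hz]; simp; field_simp)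
  have nq : ∀ t, ‖z t * exp (s (z t)) / n‖ = ‖exp (s (z t))‖ / n := fun t => by
    rw [norm_div, norm_mul, z1, one_mul, Complex.norm_natCast]
  have l0 : 0 ≤ (1 + L) / n := by positivity
  obtain ⟨t, ht⟩ := core (F := fun t => f (z t)) (G := fun t => g (z t))
    (q := fun t => z t * exp (s (z t)) / n) B0 hR R0 l0 L1 (Jb B0 hR n0)
    (fun t => ((hf _).scomp t (dz t)).congr_deriv (by simp only [smul_eq_mul]; ring))
    (fun t => ((hg _).scomp t (dz t)).congr_deriv (by simp only [smul_eq_mul]; rw [zn, exp_add]; ring))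
    (by simp only [hz]; fun_prop)
    (fun t => div_ne_zero (mul_ne_zero (exp_ne_zero _) (exp_ne_zero _)) nz)
    (fun a t ht => by
      have e : z t = z a * exp (I * ((t - a) / n : ℝ)) := by
        simp only [hz]; rw [← exp_add]; push_cast; ring_nf
      have b : ‖z t - z a‖ ≤ |t - a| / n := by
        rw [e, ← mul_sub_one, norm_mul, z1, one_mul]
        refine Real.norm_exp_I_mul_ofReal_sub_one_le.trans_eq ?_
        rw [Real.norm_eq_abs, abs_div, abs_of_pos np]
      have c : ‖I * ((t - a) / n : ℝ) + (s (z t) - s (z a))‖ ≤ (1 + L) / n * |t - a| := by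
        refine (norm_add_le _ _).trans ?_
        rw [norm_mul, norm_I, one_mul, norm_real, Real.norm_eq_abs, abs_div, abs_of_pos np]
        calc _ ≤ |t - a| / n + L * (|t - a| / n) := by
              gcongr; exact (hL _ _ (z1 _).le (z1 _).le).trans (by gcongr)
          _ = _ := by ring
      rw [show z t * exp (s (z t)) / n - z a * exp (s (z a)) / n =
        (exp (I * ((t - a) / n : ℝ) + (s (z t) - s (z a))) - 1) * (z a * exp (s (z a)) / n) by
          rw [exp_add, exp_sub]; nth_rw 1 [e]; field_simp [exp_ne_zero], norm_mul]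
      gcongr
      exact (norm_exp_sub_one_le (c.trans ht)).trans (by gcongr))
    (fun m => by
      have a : L / n * R ≤ 3 / 100 := le_trans (by gcongr; linarith) L1
      have k := anchor Bp.le n0 cs L0 (by
        rw [div_mul_eq_mul_div, div_le_iff₀ np] at a; nlinarith) hL hf hg f0 g0 (z1 (m * (2 * Real.pi)))
        (by rw [zn, ← exp_int_mul_two_pi_mul_I m]; push_cast; ring_nf)
      rw [nq, ofReal_mul, ofReal_natCast, mul_comm (n : ℂ), mul_assoc, mul_div_cancel₀ _ nz]
      refine k.trans ?_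
      calc _ = 16 * (L / n * R) * B ^ 2 * (‖exp (s (z (m * (2 * Real.pi))))‖ / n) := by rw [← hR]; ring
        _ ≤ _ := by gcongr; nlinarith [sq_nonneg B])
    (t0 := θ * n) (w := w) (by
      rw [nq, show z (θ * n) = exp (θ * I) by simp only [hz]; rw [mul_div_cancel_right₀ _ np.ne']]
      exact h.trans_eq (by ring))
  refine ⟨t / n, ht.trans_eq ?_⟩
  rw [norm_mul, nq, exp_add, norm_mul, ← zn]
  ring

end Pool.Agent.Lib.Helper21.Peano
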