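import Pool.Agent.Lib.helper21.Peano2
open Complex Set Filter Metric Topology MeasureTheory ComplexOrder

namespace Pool.Agent.Lib.Helper21.Peano

lemma pos {s : ℂ → ℂ} (hs : Differentiable ℂ s) (h : ∀ n, 0 ≤ iteratedDeriv n s 0) (n : ℕ) :
    0 ≤ iteratedDeriv n (fun z => exp (s z)) 0 := by
  induction n using Nat.strong_induction_on with
  | _ n ih =>
  rcases n with _ | n
  · have hx := Complex.norm_of_nonneg' (h 0)
    rw [iteratedDeriv_zero] at hx ⊢
    rw [← hx, ← ofReal_exp]
    exact_mod_cast (Real.exp_pos _).le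
  · rw [iteratedDeriv_succ', show deriv (fun z => exp (s z)) = fun z => exp (s z) * deriv s z from
      funext fun z => deriv_cexp (hs z), iteratedDeriv_fun_mul hs.cexp.contDiff.contDiffAt
      hs.deriv.contDiff.contDiffAt]
    refine Finset.sum_nonneg fun i hi => mul_nonneg (mul_nonneg (Nat.cast_nonneg _)
      (ih i (Finset.mem_range.1 hi))) ?_
    rw [← iteratedDeriv_succ']; exact h _

lemma lip (m : ℕ) {z w : ℂ} (hz : ‖z‖ ≤ 1) (hw : ‖w‖ ≤ 1) : ‖z ^ m - w ^ m‖ ≤ m * ‖z - w‖ := by
  induction m with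
  | zero => simp
  | succ m ih =>
    rw [show z ^ (m + 1) - w ^ (m + 1) = z * (z ^ m - w ^ m) + w ^ m * (z - w) by ring]
    refine (norm_add_le _ _).trans ?_
    rw [norm_mul, norm_mul, norm_pow]
    have := pow_le_one₀ (norm_nonneg w) hw (n := m)
    push_cast
    nlinarith [norm_nonneg (z - w), norm_nonneg (z ^ m - w ^ m)]

lemma wiener {f : ℕ → ℂ → ℂ} {F : ℂ → ℂ} (df : ∀ k, Differentiable ℂ (f k))
    (hp : ∀ k n, 0 ≤ iteratedDeriv n (f k) 0) (h : TendstoUniformlyOn f F atTop (closedBall 0 1)) :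
    ∃ a : ℕ → ℂ, Summable (fun n => ‖a n‖) ∧
      EqOn (fun w : ℂ => ∑' n, a n * w ^ n) F (closedBall 0 1) := by
  have l := (h.mono ball_subset_closedBall).tendstoLocallyUniformlyOn
  have dF := l.differentiableOn (.of_forall fun k => (df k).differentiableOn) isOpen_ball
  have li : ∀ n, TendstoLocallyUniformlyOn (fun k => iteratedDeriv n (f k)) (iteratedDeriv n F) atTop
      (ball 0 1) := fun n => by
    induction n with
    | zero => simpa using l
    | succ n ih =>
      simp only [iteratedDeriv_succ]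
      exact ih.deriv (.of_forall fun k =>
        ((df k).contDiff.differentiable_iteratedDeriv' n).differentiableOn) isOpen_ball
  have sa : Summable fun n => ‖(n.factorial : ℂ)⁻¹ * iteratedDeriv n F 0‖ := by
    refine summable_of_sum_range_le (c := (F 1).re) (fun _ => norm_nonneg _) fun N => ?_
    refine le_of_tendsto_of_tendsto' (tendsto_finsetSum _ fun n _ =>
      (((li n).tendsto_at (mem_ball_self one_pos)).const_mul _).norm)
      ((continuous_re.tendsto _).comp (h.tendsto_at (by simp : (1 : ℂ) ∈ _))) fun k => ?_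
    have p : ∀ n : ℕ, 0 ≤ (n.factorial : ℂ)⁻¹ * iteratedDeriv n (f k) 0 := fun n =>
      mul_nonneg (inv_nonneg.2 (Nat.cast_nonneg _)) (hp k n)
    have := sum_le_hasSum (Finset.range N) (fun n _ => by simpa using (Complex.le_def.1 (p n)).1)
      (hasSum_re (hasSum_taylorSeries_of_entire (df k) 0 1))
    refine le_trans (le_of_eq (Finset.sum_congr rfl fun n _ => ?_)) this
    rw [← ofReal_re ‖_‖, Complex.norm_of_nonneg' (p n)]; simp
  refine ⟨_, sa, EqOn.of_subset_closure (s := ball 0 1) (fun z hz => ?_) (continuousOn_tsum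
    (fun n => by fun_prop) sa fun n z hz => ?_) (h.continuousOn (.of_forall fun k =>
      (df k).continuous.continuousOn)) ball_subset_closedBall (closure_ball _ one_ne_zero).ge⟩
  · rw [← (hasSum_taylorSeries_on_ball dF hz).tsum_eq]
    exact tsum_congr fun n => by simp only [smul_eq_mul, sub_zero]; ring
  · rw [norm_mul, norm_pow]
    exact mul_le_of_le_one_right (norm_nonneg _)
      (pow_le_one₀ (norm_nonneg _) (mem_closedBall_zero_iff.1 hz))

end Pool.Agent.Lib.Helper21.Peano
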