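import Pool.Agent.Lib.helper21.ProdInterDefs

namespace Pool.Agent.Lib.Helper21.ProdInter

open Pointwise

universe u v

inductive El : Type u
  | zero : El
  | a (h r i : ℕ) : El
  | z (h : ℕ) : El

def El.mul : El.{u} → El.{u} → El.{u}
  | .a h r i, .a h' r' i' =>
    if h = h' ∧ r = r' then
      (if i + i' + 1 < h then .a h r (i + i' + 1) else if i + i' + 1 = h then .z h else .zero)
    else .zero
  | _, _ => .zero

theorem El.mul_assoc' (x y w : El.{u}) : (x.mul y).mul w = x.mul (y.mul w) := by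
  cases x <;> cases y <;> cases w <;> simp only [El.mul] <;>
    split_ifs <;> simp only [El.mul] <;> (try split_ifs) <;>
    first | rfl | omega | (congr 1; omega)

instance : Semigroup El.{u} where
  mul := El.mul
  mul_assoc := El.mul_assoc'

theorem mul_def (x y : El.{u}) : x * y = x.mul y := rfl

def fam (X : Set ℕ+) (q : ℕ) : Set El.{u} :=
  {x | x = .zero ∨ ∃ h r, q ≤ r ∧ (h = 0 ∨ h.succPNat ∉ X) ∧ x = .a h r 0}

theorem zero_mem_pw (A : Set El.{u}) (h : El.zero ∈ A) (n : ℕ) : El.zero ∈ pw A n := by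
  induction n with
  | zero => exact h
  | succ n ih => exact ⟨_, ih, _, h, rfl⟩

theorem pw_zero (n : ℕ) : pw ({El.zero} : Set El.{u}) n = {El.zero} := by
  induction n with
  | zero => rfl
  | succ n ih => rw [pw, ih, Set.singleton_mul_singleton]; rfl

theorem inter_fam (X : Set ℕ+) : ⋂ q, fam.{u} X q = {El.zero} := by
  ext x
  simp only [Set.mem_iInter, Set.mem_singleton_iff]
  constructor
  · intro h
    rcases h 0 with h0 | ⟨k, r, -, -, rfl⟩
    · exact h0
    · rcases h (r + 1) with h1 | ⟨k', r', h2, -, h3⟩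
      · cases h1
      · cases h3; omega
  · rintro rfl q; exact Or.inl rfl

theorem a_mem_pw (X : Set ℕ+) (q h : ℕ) (hh : h.succPNat ∉ X) (n : ℕ) (hn : n < h) :
    El.a h q n ∈ pw (fam.{u} X q) n := by
  induction n with
  | zero => exact Or.inr ⟨h, q, le_rfl, Or.inr hh, rfl⟩
  | succ n ih =>
    refine ⟨_, ih (by omega), El.a h q 0, Or.inr ⟨h, q, le_rfl, Or.inr hh, rfl⟩, ?_⟩
    simp [mul_def, El.mul, hn]

theorem mem_pw (X : Set ℕ+) (q n : ℕ) (x : El.{u}) (hx : x ∈ pw (fam.{u} X q) n) :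
    x = .zero ∨ (∃ h r, q ≤ r ∧ (h = 0 ∨ h.succPNat ∉ X) ∧ x = .a h r n) ∨
      (n.succPNat ∉ X ∧ x = .z n) := by
  induction n generalizing x with
  | zero =>
    rcases hx with h | h
    · exact Or.inl h
    · exact Or.inr (Or.inl h)
  | succ n ih =>
    obtain ⟨y, hy, w, hw, rfl⟩ := hx
    rcases ih y hy with rfl | ⟨h, r, h1, h2, rfl⟩ | ⟨-, rfl⟩
    · exact Or.inl rfl
    · rcases hw with rfl | ⟨h', r', h3, h4, rfl⟩
      · exact Or.inl rfl
      · simp only [mul_def, El.mul]
        split_ifs with c1 c2 c3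
        · exact Or.inr (Or.inl ⟨h, r, h1, h2, rfl⟩)
        · refine Or.inr (Or.inr ⟨?_, by rw [← c3]⟩)
          rcases h2 with h2 | h2
          · omega
          · rw [← c3] at h2; exact h2
        · exact Or.inl rfl
        · exact Or.inl rfl
    · exact Or.inl rfl

theorem H_fam (X : Set ℕ+) (h1 : 1 ∈ X) : H (fam.{u} X) = X := by
  ext h
  simp only [H, Set.mem_ofPred_eq, inter_fam, pw_zero]
  constructor
  · intro hh
    by_contra hX
    obtain ⟨n, rfl⟩ : ∃ n : ℕ, h = n.succPNat := ⟨h.natPred, by simp⟩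
    simp only [Nat.natPred_succPNat] at hh
    rcases n with _ | n
    · exact hX h1
    · have : El.z (n + 1) ∈ ⋂ q, pw (fam.{u} X q) (n + 1) := by
        simp only [Set.mem_iInter]
        intro q
        refine ⟨_, a_mem_pw X q (n + 1) hX n (by omega), El.a (n + 1) q 0,
          Or.inr ⟨n + 1, q, le_rfl, Or.inr hX, rfl⟩, ?_⟩
        simp [mul_def, El.mul]
      rw [← hh] at this
      cases this
  · intro hX
    ext x
    simp only [Set.mem_iInter, Set.mem_singleton_iff]
    constructor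
    · rintro rfl q; exact zero_mem_pw _ (Or.inl rfl) _
    · intro hx
      rcases mem_pw X 0 _ x (hx 0) with h0 | ⟨k, r, -, -, rfl⟩ | ⟨h2, -⟩
      · exact h0
      · rcases mem_pw X (r + 1) _ _ (hx (r + 1)) with h0 | ⟨k', r', h2, -, h3⟩ | ⟨-, h3⟩
        · cases h0
        · cases h3; omega
        · cases h3
      · simp only [PNat.succPNat_natPred] at h2; exact absurd hX h2

theorem fam_decr (X : Set ℕ+) (q : ℕ) : fam.{u} X (q + 1) ⊆ fam X q := by
  rintro x (h | ⟨h, r, h1, h2, h3⟩)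
  · exact Or.inl h
  · exact Or.inr ⟨h, r, by omega, h2, h3⟩

theorem b_mem (X : Set ℕ+) (q r : ℕ) : El.a 0 r 0 ∈ fam.{u} X q ↔ q ≤ r := by
  constructor
  · rintro (h | ⟨h, r', h1, h2, h3⟩)
    · cases h
    · cases h3; exact h1
  · intro h; exact Or.inr ⟨0, r, h, Or.inl rfl, rfl⟩

theorem fam_inj (X : Set ℕ+) : Function.Injective (fam.{u} X) := by
  intro p q h
  have h1 := b_mem.{u} X p q
  have h2 := b_mem.{u} X q p
  rw [h, b_mem] at h1
  rw [← h, b_mem] at h2
  omega

theorem mem_HStar (X : Set ℕ+) (h1 : 1 ∈ X) : X ∈ HStar.{u} := by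
  refine ⟨El.{u}, inferInstance, fam X, ⟨fam_decr X, ?_⟩, H_fam X h1⟩
  have : {q | fam.{u} X q ≠ fam X (q + 1)} = Set.univ := by
    ext q
    simp only [Set.mem_ofPred_eq, Set.mem_univ, iff_true]
    intro h
    have := fam_inj X h
    omega
  rw [this]; exact Set.infinite_univ

theorem mem_HQ (Q : Type v) [Infinite Q] (X : Set ℕ+) (h1 : 1 ∈ X) : X ∈ HQ.{u} Q := by
  obtain ⟨f, hf⟩ : ∃ f : Q → ℕ, Function.Surjective f :=
    ⟨_, Function.invFun_surjective (Infinite.natEmbedding Q).injective⟩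
  refine ⟨El.{u}, inferInstance, fun q => fam X (f q), ?_, ?_⟩
  · have : Set.range (fun q => fam.{u} X (f q)) = Set.range (fam X) := hf.range_comp (fam X)
    rw [this]; exact Set.infinite_range_of_injective (fam_inj X)
  · refine Eq.trans ?_ (H_fam.{u} X h1)
    ext h
    simp only [H, Set.mem_ofPred_eq]
    rw [hf.iInter_comp (fam X), hf.iInter_comp (fun n => pw (fam X n) h.natPred)]

theorem one_mem_H {S : Type u} [Semigroup S] {Q : Type v} (A : Q → Set S) : 1 ∈ H A := rfl

end Pool.Agent.Lib.Helper21.ProdInter
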