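import Mathlib

namespace Pool.Agent.Lib.Helper21.ProdInter

open Pointwise

universe u v

/-- `pw A n` is the product set `A^(n+1) = {a_1 ⋯ a_(n+1) : a_i ∈ A}`. -/
def pw {S : Type u} [Semigroup S] (A : Set S) : ℕ → Set S
  | 0 => A
  | n + 1 => pw A n * A

/-- The product intersection set `H(A_q)` of a family of subsets of a semigroup. -/
def H {S : Type u} [Semigroup S] {Q : Type v} (A : Q → Set S) : Set ℕ+ :=
  {h | pw (⋂ q, A q) h.natPred = ⋂ q, pw (A q) h.natPred}

/-- Decreasing, with infinitely many strict steps. -/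
def AsympStrictDecr {S : Type u} (A : ℕ → Set S) : Prop :=
  (∀ q, A (q + 1) ⊆ A q) ∧ {q | A q ≠ A (q + 1)}.Infinite

/-- All product intersection sets of infinite families indexed by `Q`. -/
def HQ (Q : Type v) : Set (Set ℕ+) :=
  {X | ∃ (S : Type u) (_ : Semigroup S) (A : Q → Set S), (Set.range A).Infinite ∧ H A = X}

/-- All product intersection sets of asymptotically strictly decreasing sequences. -/
def HStar : Set (Set ℕ+) :=
  {X | ∃ (S : Type u) (_ : Semigroup S) (A : ℕ → Set S), AsympStrictDecr A ∧ H A = X}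

end Pool.Agent.Lib.Helper21.ProdInter
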