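import Pool.Agent.Lib.helper21.Morera

/-! Plurisubharmonic functions, upper test functions, and non-polarity of a segment. -/

set_option autoImplicit false

namespace Pool.Agent.Lib.Helper21.Psh

open MeasureTheory Set Real Metric Filter Topology ComplexConjugate

/-- Plurisubharmonic on `U`: upper semicontinuous, below `+∞`, with the sub-mean-value inequality on every closed
complex disc in `U` (the mean of `u` is the infimum of the means of its truncations `max u M`). -/
def PSH {X : Type} [NormedAddCommGroup X] [NormedSpace ℂ X] (U : Set X) (u : X → EReal) : Prop :=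
  UpperSemicontinuousOn u U ∧ (∀ x ∈ U, u x ≠ ⊤) ∧ ∀ a b : X, (∀ z : ℂ, ‖z‖ ≤ 1 → a + z • b ∈ U) → ∀ M : ℝ,
    u a ≤ (((2 * π)⁻¹ * ∫ θ in (0 : ℝ)..2 * π, (max (u (a + Complex.exp (θ * Complex.I) • b)) M).toReal : ℝ) : EReal)

/-- The points of `Ω` at which `φ` has no `C²` test function from above. -/
def Exc {X : Type} [NormedAddCommGroup X] [NormedSpace ℝ X] (Ω : Set X) (φ : X → EReal) : Set X :=
  {z | z ∈ Ω ∧ ¬ ∃ (V : Set X) (q : X → ℝ), IsOpen V ∧ z ∈ V ∧ V ⊆ Ω ∧ ContDiffOn ℝ 2 q V ∧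
    ∀ w ∈ V, φ w - q w ≤ φ z - q z}

variable {X : Type} [NormedAddCommGroup X] [NormedSpace ℂ X] {U : Set X} {u : X → EReal}

lemma PSH.meas (h : PSH U u) {a b : X} (hU : ∀ z : ℂ, ‖z‖ ≤ 1 → a + z • b ∈ U) (M : ℝ) :
    Measurable fun θ : ℝ => (max (u (a + Complex.exp (θ * Complex.I) • b)) M).toReal :=
  ((upperSemicontinuousOn_univ_iff.1 (h.1.comp (g := fun θ : ℝ => a + Complex.exp (θ * Complex.I) • b) (by fun_prop)
    fun θ _ => hU _ (by simp))).measurable.max measurable_const).ereal_toReal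

lemma tr {x : EReal} {M g : ℝ} (h : x ≤ g) (hM : M ≤ g) : M ≤ (max x M).toReal ∧ (max x M).toReal ≤ g := by
  induction x <;> simp_all [← EReal.coe_strictMono.monotone.map_max]

lemma PSH.le (h : PSH U u) {a b : X} (hU : ∀ z : ℂ, ‖z‖ ≤ 1 → a + z • b ∈ U) {g : ℂ → ℝ} (c : Continuous g)
    (hg : ∀ e : ℂ, ‖e‖ = 1 → u (a + e • b) ≤ g e) : u a ≤ (circleAverage g 0 1 : ℝ) := by
  obtain ⟨C, hC⟩ := (isCompact_sphere (0 : ℂ) 1).exists_bound_of_continuousOn c.continuousOn
  have k := fun θ : ℝ => abs_le.1 (hC (Complex.exp (θ * Complex.I)) (by simp))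
  have t := fun θ : ℝ => tr (hg (Complex.exp (θ * Complex.I)) (by simp)) (k θ).1
  refine (h.2.2 a b hU (-C)).trans (EReal.coe_le_coe (mul_le_mul_of_nonneg_left (intervalIntegral.integral_mono two_pi_pos.le
    (intervalIntegrable_const.mono_fun' (h.meas hU _).aestronglyMeasurable (.of_forall fun θ =>
      abs_le.2 ⟨(t θ).1, (t θ).2.trans (k θ).2⟩)) (Morera.ci c 1) fun θ => by simpa [circleMap] using (t θ).2) (by positivity)))

lemma PSH.bdd (h : PSH U u) {K : Set X} (hK : IsCompact K) (s : K ⊆ U) : ∃ C : ℝ, ∀ x ∈ K, u x ≤ C := by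
  rcases K.eq_empty_or_nonempty with rfl | ne
  · simp
  obtain ⟨a, ha, m⟩ := (h.1.mono s).exists_isMaxOn ne hK
  exact ⟨(u a).toReal, fun x hx => (m hx).trans (EReal.le_coe_toReal (h.2.1 a (s ha)))⟩

lemma bot_of {x : EReal} {C ω : ℝ} (h0 : 0 < ω) (h : ∀ N : ℝ, 0 ≤ N → x ≤ (C - N * ω : ℝ)) : x = ⊥ := by
  induction x with
  | bot => rfl
  | top => simpa using h 0 le_rfl
  | coe x =>
    have := EReal.coe_le_coe_iff.1 (h ((|C - x| + 1) / ω) (by positivity))
    rw [div_mul_cancel₀ _ h0.ne'] at this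
    linarith [le_abs_self (C - x)]

lemma PSH.spread (h : PSH U u) (o : IsOpen U) (c : IsPreconnected U) {p : X} (hp : p ∈ U) (b : ∀ᶠ x in 𝓝 p, u x = ⊥) :
    ∀ x ∈ U, u x = ⊥ := fun x hx => by
  refine (c.subset_of_closure_inter_subset (u := {x | ∀ᶠ y in 𝓝 x, u y = ⊥}) isOpen_setOfPred_eventually_nhds ⟨p, hp, b⟩
    (fun a ⟨ha, aU⟩ => ?_) hx).self_of_nhds
  obtain ⟨r, r0, hr⟩ := nhds_basis_closedBall.mem_iff.1 (o.mem_nhds aU)
  obtain ⟨q, hq, d⟩ := Metric.mem_closure_iff.1 ha (r / 3) (by positivity)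
  obtain ⟨δ, δ0, hδ⟩ := Metric.eventually_nhds_iff.1 hq
  filter_upwards [ball_mem_nhds a (show 0 < r / 3 by positivity)] with y hy
  have m : ∀ z : ℂ, ‖z‖ ≤ 1 → y + z • (q - y) ∈ closedBall a r := fun z hz => by
    have := mul_le_of_le_one_left (norm_nonneg (q - y)) hz
    rw [mem_closedBall, ← norm_smul] at *
    have := dist_triangle (y + z • (q - y)) y a
    have := dist_triangle_left q y a
    simp only [dist_self_add_left, mem_ball, dist_comm y a, ← dist_eq_norm] at *
    linarith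
  obtain ⟨C, hC⟩ := h.bdd (isCompact_closedBall (0 : ℂ) 1 |>.image (f := fun z : ℂ => y + z • (q - y)) (by fun_prop))
    (by rintro _ ⟨z, hz, rfl⟩; exact hr (m z (by simpa using hz)))
  have cg : Continuous fun e : ℂ => max (δ - dist (y + e • (q - y)) q) 0 := by fun_prop
  refine bot_of (C := C) (ω := circleAverage (fun e : ℂ => max (δ - dist (y + e • (q - y)) q) 0) 0 1)
    (mul_pos (by positivity) (intervalIntegral.integral_pos two_pi_pos (by fun_prop) (fun _ _ => le_max_right _ _)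
      ⟨0, ⟨le_rfl, two_pi_pos.le⟩, by simpa [circleMap] using δ0⟩)) fun N _ => ?_
  refine (h.le (fun z hz => hr (m z hz)) (g := fun e => C - N • max (δ - dist (y + e • (q - y)) q) 0) (by fun_prop)
    fun e he => ?_).trans_eq (by
      rw [circleAverage_fun_sub (Morera.ci continuous_const 1) (Morera.ci (by fun_prop) 1), circleAverage_fun_smul,
        circleAverage_const, smul_eq_mul])
  by_cases t : dist (y + e • (q - y)) q < δ
  · simp [hδ t]
  · simpa [max_eq_right (sub_nonpos.2 (not_lt.1 t))] using hC _ ⟨e, by simp [he], rfl⟩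

lemma seg {V : Set ℂ} {u : ℂ → EReal} (h : PSH V u) (o : IsOpen V) (c : IsPreconnected V) (h0 : 0 ∈ V)
    (b : ∀ᶠ z in 𝓝 (0 : ℂ), z.re = 0 → u z = ⊥) : ∀ z ∈ V, u z = ⊥ := by
  obtain ⟨r, r0, hr⟩ := nhds_basis_closedBall.mem_iff.1 (b.and (o.mem_nhds h0))
  have kK : IsCompact (closedBall (0 : ℂ) r ∩ {z | 0 ≤ z.re}) :=
    (isCompact_closedBall _ _).inter_right (isClosed_le continuous_const Complex.continuous_re)
  obtain ⟨C, hC⟩ := h.bdd (isCompact_closedBall 0 r) fun z hz => (hr hz).2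
  have key : ∀ z ∈ closedBall (0 : ℂ) r ∩ {z | 0 ≤ z.re}, ∀ N : ℝ, 0 ≤ N → u z ≤ (C + r ^ 2 - N * ((r - z) ^ 2).re : ℝ) := by
    intro z hz N N0
    obtain ⟨g, hg⟩ : ∃ g : ℂ → ℝ, g = fun z => N * ((r - z) ^ 2).re + ‖z‖ ^ 2 := ⟨_, rfl⟩
    have cg : Continuous g := by rw [hg]; fun_prop
    obtain ⟨w, hw, mx⟩ := ((h.1.mono fun z hz => (hr hz.1).2).add' (g := fun z => (g z : EReal))
      (continuous_coe_real_ereal.comp cg).continuousOn.upperSemicontinuousOn fun x _ =>
        EReal.continuousAt_add (by simp) (by simp)).exists_isMaxOn ⟨z, hz⟩ kK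
    have le : ∀ x ∈ closedBall (0 : ℂ) r ∩ {z | 0 ≤ z.re}, ∀ t : ℝ, u w ≤ t → u x ≤ (t + g w - g x : ℝ) := fun x hx t ht => by
      have : u x + g x ≤ t + g w := (mx hx).trans (add_le_add_left ht _)
      rw [EReal.coe_sub, EReal.coe_add]
      exact (EReal.le_sub_iff_add_le (by simp) (by simp)).2 this
    by_cases e : u w = ⊥
    · exact (le z hz (C + r ^ 2 - N * ((r - z) ^ 2).re - g w + g z) (by simp [e])).trans_eq (congrArg _ (by ring))
    have w0 : 0 < w.re := lt_of_le_of_ne hw.2 fun t => e ((hr hw.1).1 t.symm)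
    rcases (mem_closedBall_zero_iff.1 hw.1).eq_or_lt with d | d
    · refine (le z hz C (hC w hw.1)).trans (EReal.coe_le_coe ?_)
      have : ((r - w) ^ 2).re ≤ 0 := by
        have := Complex.sq_norm w
        have := (Complex.re_le_norm w).trans d.le
        simp only [d, Complex.normSq_apply, sq, Complex.mul_re, Complex.sub_re, Complex.sub_im, Complex.ofReal_re,
          Complex.ofReal_im] at *
        nlinarith
      simp only [hg, d]
      nlinarith [sq_nonneg ‖z‖]
    exfalso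
    obtain ⟨s, s0, s1, s2⟩ : ∃ s, 0 < s ∧ s ≤ w.re ∧ s ≤ r - ‖w‖ := ⟨min w.re (r - ‖w‖), lt_min w0 (by linarith),
      min_le_left .., min_le_right ..⟩
    have m : ∀ e : ℂ, ‖e‖ ≤ 1 → w + e • (s : ℂ) ∈ closedBall (0 : ℂ) r ∩ {z | 0 ≤ z.re} := fun e he => by
      have n : ‖e • (s : ℂ)‖ ≤ s := by simpa [abs_of_pos s0] using mul_le_of_le_one_left s0.le he
      exact ⟨mem_closedBall_zero_iff.2 ((norm_add_le _ _).trans (by linarith)), by
        have := (abs_le.1 (Complex.abs_re_le_norm (e • (s : ℂ)))).1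
        rw [mem_ofPred, Complex.add_re]; linarith⟩
    have t := EReal.coe_toReal (h.2.1 w (hr hw.1).2) e
    have k := h.le (fun e he => (hr (m e he).1).2) (g := fun e => (u w).toReal + g w - g (w + e • (s : ℂ))) (by fun_prop)
      fun e he => le _ (m e he.le) _ t.ge
    have a : circleAverage (fun e : ℂ => (u w).toReal + g w - g (w + e • (s : ℂ))) 0 1 = (u w).toReal - s ^ 2 := by
      apply Complex.ofReal_injective
      rw [← Complex.ofRealCLM_apply, ← Complex.ofRealCLM.circleAverage_comp_comm (Morera.ci (by fun_prop) 1),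
        Morera.mv one_pos (P := fun e => (u w).toReal - s ^ 2 + N / 2 * ((r - w) ^ 2 - (r - (w + e * s)) ^ 2) - conj w * e * s)
          (Q := fun e => N / 2 * ((r - w) ^ 2 - (r - (w + e * s)) ^ 2) - conj w * e * s) (by fun_prop) (by fun_prop)
          fun e he _ => by
            simp [hg, ← Complex.mul_conj', Complex.re_eq_add_conj, map_ofNat] at he ⊢
            linear_combination (-(s : ℂ) ^ 2) * he]
      simp
    rw [a, ← t, EReal.toReal_coe, EReal.coe_le_coe_iff] at k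
    nlinarith
  have p : closedBall (0 : ℂ) r ∩ {z | 0 ≤ z.re} ∈ 𝓝 ((r / 2 : ℝ) : ℂ) := inter_mem (closedBall_mem_nhds_of_mem (by
    simp [abs_of_pos r0, r0])) ((Complex.continuous_re.tendsto _).eventually (le_mem_nhds (by simpa using r0)))
  refine h.spread o c (hr (mem_of_mem_nhds p).1).2 ?_
  filter_upwards [p, ((show Continuous fun z : ℂ => ((r - z) ^ 2).re by fun_prop).tendsto _).eventually (lt_mem_nhds (by
    norm_cast; exact pow_pos (half_pos r0 |>.trans_eq (by ring)) 2))] with z hz t using bot_of t (key z hz)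

end Pool.Agent.Lib.Helper21.Psh
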