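import Pool.Agent.Lib.helper21.Aor2
import Pool.Agent.Lib.helper21.Epd

set_option autoImplicit false

namespace Pool.Agent.Lib.Helper21.Psum

open Complex Set Filter Metric Topology Asymptotics Polynomial

lemma bc {F : ℂ → ℂ} {R Λ s : ℝ} {n : ℕ} (R0 : 0 < R) (s0 : 0 < s) (s1 : s < 1) (L0 : 0 < Λ)
    (hF : DifferentiableOn ℂ F (ball 0 R)) (nz : ∀ z ∈ ball (0 : ℂ) R, F z ≠ 0) (h0 : F 0 = 1)
    (ho : (F · - 1) =o[𝓝 0] fun w => ‖w‖ ^ n) (hb : ∀ z ∈ ball (0 : ℂ) R, ‖F z‖ ≤ Real.exp Λ)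
    {z : ℂ} (hz : ‖z‖ ≤ R * s ^ 2) : ∃ L, cexp L = F z ∧ ‖L‖ ≤ 2 * Λ / (1 - s) * s ^ (n + 1) := by
  obtain ⟨G, G0, hG⟩ := Epd.exlog R0 hF nz h0
  have dG : DifferentiableOn ℂ G (ball 0 R) := fun z hz =>
    (hG z hz).1.differentiableAt.differentiableWithinAt
  have sub : ball (0 : ℂ) (R * s) ⊆ ball 0 R := ball_subset_ball (by nlinarith)
  have zs : z ∈ ball (0 : ℂ) (R * s) := mem_ball_zero_iff.2 (by nlinarith [mul_pos R0 s0])
  refine ⟨G z, (hG z (sub zs)).2, ?_⟩
  have := Complex.dist_le_mul_div_pow_of_mapsTo_ball_of_isLittleO (n := n) (R₂ := 2 * Λ / (1 - s))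
    (dG.mono sub) (fun w hw => by
      have := Complex.borelCaratheodory_zero L0 dG (fun v hv => by
        have := hb v hv
        rwa [← (hG v hv).2, Complex.norm_exp, Real.exp_le_exp] at this) R0 (sub hw) G0
      rw [mem_ball_zero_iff] at hw
      rw [G0, mem_closedBall_zero_iff]
      refine this.trans ?_
      rw [div_le_div_iff₀ (by nlinarith) (by linarith)]
      have : ‖w‖ * (1 - s) ≤ R - ‖w‖ := by
        nlinarith [mul_nonneg R0.le (sq_nonneg (1 - s)), mul_le_mul_of_nonneg_right hw.le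
          (show 0 ≤ 2 - s by linarith)]
      nlinarith)
    (by
      simp only [G0, sub_zero]
      refine (IsBigO.of_bound 2 ?_).trans_isLittleO ho
      have c := (hG 0 (mem_ball_self R0)).1.continuousAt.norm.eventually_lt_const
        (show ‖G 0‖ < 1 / 2 by simp [G0])
      filter_upwards [c, ball_mem_nhds 0 R0] with w h1 h2
      have := Complex.norm_exp_sub_one_sub_id_le (x := G w) (by linarith)
      have k := norm_sub_norm_le (G w) (cexp (G w) - 1)
      rw [norm_sub_rev] at this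
      rw [← (hG w h2).2]
      nlinarith [norm_nonneg (G w)]) zs
  rw [G0, dist_zero_right, dist_zero_right] at this
  refine this.trans (mul_le_mul_of_nonneg_left (pow_le_pow_left₀ (by positivity) ?_ _)
    (div_nonneg (by positivity) (by linarith)))
  rw [div_le_iff₀ (by positivity)]; linarith

lemma pl {p : ℂ[X]} {ρ : ℝ} (r0 : 0 ≤ ρ) (h : ∀ z, p.eval z = 0 → ρ ≤ ‖z‖) :
    ‖p.leadingCoeff‖ * ρ ^ p.natDegree ≤ ‖p.eval 0‖ ∧ ∀ t ∈ Icc (0 : ℝ) 1, ∀ z : ℂ, ‖z‖ ≤ ρ * t →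
      ‖p.eval 0‖ * (1 - t) ^ p.natDegree ≤ ‖p.eval z‖ := by
  have k (s : Multiset ℂ) (hs : ∀ w ∈ s, ρ ≤ ‖w‖) :
      ρ ^ s.card ≤ ‖((s.map fun a => X - C a).prod).eval 0‖ ∧ ∀ t ∈ Icc (0 : ℝ) 1, ∀ z : ℂ, ‖z‖ ≤ ρ * t →
      ‖((s.map fun a => X - C a).prod).eval 0‖ * (1 - t) ^ s.card ≤
        ‖((s.map fun a => X - C a).prod).eval z‖ := by
    induction s using Multiset.induction_on with
    | empty => simp
    | cons w s ih =>
      obtain ⟨h1, h2⟩ := ih fun v hv => hs v (Multiset.mem_cons_of_mem hv)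
      have hw := hs w (Multiset.mem_cons_self ..)
      simp only [Multiset.map_cons, Multiset.prod_cons, Multiset.card_cons, eval_mul, eval_sub, eval_X,
        eval_C, norm_mul, zero_sub, norm_neg, pow_succ']
      refine ⟨by gcongr, fun t t1 z hz => ?_⟩
      rw [mul_mul_mul_comm]
      have := norm_sub_norm_le w z
      rw [norm_sub_rev] at this
      exact mul_le_mul (by nlinarith [t1.1]) (h2 t t1 z hz)
        (mul_nonneg (norm_nonneg _) (pow_nonneg (by linarith [t1.2]) _)) (norm_nonneg _)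
  have c := IsAlgClosed.card_roots_eq_natDegree (p := p)
  obtain ⟨h1, h2⟩ := k p.roots fun w hw => h w (isRoot_of_mem_roots hw)
  have e (z : ℂ) : p.eval z = p.leadingCoeff * ((p.roots.map fun a => X - C a).prod).eval z := by
    conv_lhs => rw [← C_leadingCoeff_mul_prod_multiset_X_sub_C c]
    simp
  simp only [e, norm_mul, ← c, mul_assoc]
  exact ⟨by gcongr, fun t t1 z hz => mul_le_mul_of_nonneg_left (h2 t t1 z hz) (norm_nonneg _)⟩

variable {a : ℕ → ℂ} {f : ℂ → ℂ}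

lemma sn (hf : ∀ z, HasSum (fun k => a k * z ^ k) (f z)) {R : ℝ} (R0 : 0 ≤ R) :
    Summable fun k => ‖a k‖ * R ^ k := by
  simpa [abs_of_nonneg R0] using (hf R).summable.norm

lemma df (hf : ∀ z, HasSum (fun k => a k * z ^ k) (f z)) : Differentiable ℂ f := fun z => by
  rw [show f = fun z => ∑' k, a k * z ^ k from funext fun z => (hf z).tsum_eq.symm]
  refine (differentiableOn_tsum_of_summable_norm (sn hf (R := ‖z‖ + 1) (by positivity))
    (fun _ => by fun_prop) isOpen_ball fun k w hw => ?_).differentiableAt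
    (isOpen_ball.mem_nhds (mem_ball_zero_iff.2 (lt_add_one _)))
  rw [norm_mul, norm_pow]
  gcongr
  exact (mem_ball_zero_iff.1 hw).le

lemma tail (hf : ∀ z, HasSum (fun k => a k * z ^ k) (f z)) {R B s : ℝ} {n : ℕ} (_R0 : 0 ≤ R)
    (s0 : 0 ≤ s) (s1 : s < 1) (h : ∀ j, n ≤ j → ‖a j‖ * R ^ j ≤ B) {z : ℂ} (hz : ‖z‖ ≤ R * s) :
    ‖f z - ∑ k ∈ Finset.range n, a k * z ^ k‖ ≤ B * s ^ n * (1 - s)⁻¹ := by
  rw [← ((hasSum_nat_add_iff' n).2 (hf z)).tsum_eq]
  refine tsum_of_norm_bounded ((hasSum_geometric_of_lt_one s0 s1).mul_left _) fun k => ?_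
  rw [norm_mul, norm_pow, mul_assoc, ← pow_add, add_comm n]
  calc _ ≤ ‖a (k + n)‖ * (R * s) ^ (k + n) := by gcongr
    _ ≤ _ := by
      rw [mul_pow, ← mul_assoc]
      exact mul_le_mul_of_nonneg_right (h _ le_add_self) (by positivity)

lemma cauchy (hf : ∀ z, HasSum (fun k => a k * z ^ k) (f z)) {ρ M : ℝ} (r0 : 0 ≤ ρ)
    (h : ∀ z, ‖z‖ ≤ ρ → ‖f z‖ ≤ M) (m : ℕ) : ‖a m‖ * ρ ^ m ≤ M := by
  obtain ⟨A, hA⟩ := (sn hf (R := 2 * ρ) (by positivity)).tendsto_atTop_zero.bddAbove_range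
  have := Aor2.coef (a := fun n => a n * (2 * ρ : ℝ) ^ n) (A := A) (r := 1 / 2) (fun n => by
    rw [norm_mul, norm_pow, norm_real, Real.norm_of_nonneg (by positivity)]
    exact hA ⟨n, rfl⟩) (by norm_num) (by norm_num) 0 m
  have k := intervalIntegral.norm_integral_le_of_norm_le_const (a := 0) (b := 0 + 2 * Real.pi) (C := M)
    (f := fun x : ℝ => cexp ((-m * x : ℝ) * I) * ∑' n, a n * (2 * ρ : ℝ) ^ n *
      ((1 / 2 : ℝ) * cexp (x * I)) ^ n) fun x _ => by
      rw [norm_mul, norm_exp_ofReal_mul_I, one_mul, tsum_congr (g := fun n => a n * (ρ * cexp (x * I)) ^ n)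
        fun n => by rw [mul_assoc, ← mul_pow]; congr 2; push_cast; ring, (hf _).tsum_eq]
      exact h _ (Aor2.nz r0 x).le
  rw [this, mul_assoc (a m), ← mul_pow, ← ofReal_mul, show 2 * ρ * (1 / 2) = ρ by ring] at k
  simp [abs_of_nonneg r0, abs_of_pos Real.pi_pos] at k
  nlinarith [Real.pi_pos]

lemma ps {n : ℕ} {ρ : ℝ} (r0 : 0 ≤ ρ) (h0 : a 0 = 1)
    (h : ∀ z : ℂ, ∑ k ∈ Finset.range (n + 1), a k * z ^ k = 0 → ρ ≤ ‖z‖) :
    ‖a n‖ * ρ ^ n ≤ 1 ∧ ∀ t ∈ Icc (0 : ℝ) 1, ∀ z : ℂ, ‖z‖ ≤ ρ * t →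
      (1 - t) ^ n ≤ ‖∑ k ∈ Finset.range (n + 1), a k * z ^ k‖ := by
  set p : ℂ[X] := ∑ k ∈ Finset.range (n + 1), monomial k (a k) with hp
  have e (z : ℂ) : p.eval z = ∑ k ∈ Finset.range (n + 1), a k * z ^ k := by
    simp [hp, eval_finsetSum]
  have d : p.natDegree ≤ n := natDegree_sum_le_of_forall_le _ _ fun k hk =>
    (natDegree_monomial_le _).trans (Nat.lt_succ_iff.1 (Finset.mem_range.1 hk))
  have c : p.coeff n = a n := by simp [hp, coeff_monomial]
  obtain ⟨h1, h2⟩ := pl (p := p) r0 fun z hz => h z (e z ▸ hz)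
  have e0 : ‖p.eval 0‖ = 1 := by rw [e, Finset.sum_range_succ']; simp [h0]
  rw [e0] at h1 h2
  refine ⟨?_, fun t ht z hz => ?_⟩
  · rcases eq_or_ne (a n) 0 with k | k
    · simp [k]
    · have := natDegree_eq_of_le_of_coeff_ne_zero d (c ▸ k)
      rwa [leadingCoeff, this, c] at h1
  · rw [← e]
    exact (pow_le_pow_of_le_one (by linarith [ht.2]) (by linarith [ht.1]) d).trans
      (by simpa using h2 t ht z hz)

lemma low (hf : ∀ z, HasSum (fun k => a k * z ^ k) (f z)) (nz : ∀ z, f z ≠ 0) (h0 : a 0 = 1) {ε : ℝ}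
    (H : ∀ n z, ∑ k ∈ Finset.range (n + 1), a k * z ^ k = 0 → ε ≤ ‖f z‖) {R q : ℝ} {k : ℕ}
    (R0 : 0 < R) (q0 : 0 < q) (q1 : q < 1) (h1 : 1 ≤ ‖a (k + 1)‖ * R ^ (k + 1))
    (h2 : ∀ j, k + 1 < j → ‖a j‖ * R ^ j ≤ 1) (e1 : ε ≤ 1) (c1 : q ^ (k + 1) * (1 - q)⁻¹ < ε)
    (c2 : 2 * (1 + (k + 1) * (1 - q)⁻¹) / (1 - q) * q ^ (k + 1) ≤ 1) {z : ℂ} (hz : ‖z‖ = R * q ^ 5) :
    (q ^ 5) ^ (k + 1) ≤ 4 * ‖f z‖ := by
  have i0 : 0 < (1 - q)⁻¹ := inv_pos.2 (by linarith)
  have b : ∀ j, k + 1 ≤ j → ‖a j‖ * (R * q) ^ j ≤ 1 := fun j hj => by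
    rcases hj.eq_or_lt with rfl | hj
    · refine (ps (by positivity) h0 fun z hz => not_lt.1 fun n => ?_).1
      have := tail hf R0.le q0.le q1 (n := k + 2) h2 n.le
      rw [hz, sub_zero, one_mul, pow_succ] at this
      nlinarith [H _ z hz, mul_pos (pow_pos q0 (k + 1)) i0]
    · rw [mul_pow, ← mul_assoc]
      exact mul_le_one₀ (h2 j hj) (by positivity) (pow_le_one₀ q0.le q1.le)
  have key (n : ℕ) (n1 : k ≤ n) (n2 : n ≤ k + 1) :
      ‖f z - ∑ j ∈ Finset.range (n + 1), a j * z ^ j‖ ≤ 2 * ‖f z‖ := by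
    set S : ℂ → ℂ := fun z => ∑ j ∈ Finset.range (n + 1), a j * z ^ j with hS
    have t {s : ℝ} (s0 : 0 ≤ s) (s1 : s < 1) {w : ℂ} (hw : ‖w‖ ≤ R * q * s) :
        ‖f w - S w‖ ≤ 1 * s ^ (n + 1) * (1 - s)⁻¹ :=
      tail hf (by positivity) s0 s1 (fun j hj => b j (by omega)) hw
    have qn : q ^ (n + 1) ≤ q ^ (k + 1) := pow_le_pow_of_le_one q0.le q1.le (by omega)
    have t1 {w : ℂ} (hw : ‖w‖ ≤ R * q * q) : ‖f w - S w‖ < ε :=
      (t q0.le q1 hw).trans_lt (by nlinarith)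
    have lb (w : ℂ) (hw : w ∈ ball (0 : ℂ) (R * q * q * q)) : (1 - q) ^ (k + 1) ≤ ‖S w‖ :=
      (pow_le_pow_of_le_one (by linarith) (by linarith) n2).trans
        ((ps (by positivity) h0 fun z hz => not_lt.1 fun n => by
          have := t1 n.le
          simp only [hS, hz, sub_zero] at this
          linarith [H _ z hz]).2 q ⟨q0.le, q1.le⟩ w (mem_ball_zero_iff.1 hw).le)
    have p0 : 0 < (1 - q) ^ (k + 1) := pow_pos (by linarith) _
    have S0 (w : ℂ) (hw : w ∈ ball (0 : ℂ) (R * q * q * q)) : S w ≠ 0 :=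
      norm_pos_iff.1 (p0.trans_le (lb w hw))
    have e (w : ℂ) (hw : w ∈ ball (0 : ℂ) (R * q * q * q)) : f w / S w - 1 = (f w - S w) / S w := by
      have := S0 w hw; field_simp
    have R3 : 0 < R * q * q * q := by positivity
    obtain ⟨L, hL, k2⟩ := bc (F := fun w => f w / S w) (Λ := 1 + (k + 1) * (1 - q)⁻¹) (n := n) R3 q0 q1
      (by positivity) ((df hf).differentiableOn.div (by fun_prop) S0)
      (fun w hw => div_ne_zero (nz w) (S0 w hw)) (by
        have := t le_rfl one_pos (w := 0) (by simp)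
        rw [div_eq_one_iff_eq (S0 0 (mem_ball_self R3))]
        simpa [sub_eq_zero] using this)
      ((IsBigO.of_bound (2 / (R * q) ^ (n + 1) / (1 - q) ^ (k + 1)) (by
        filter_upwards [ball_mem_nhds 0 R3, ball_mem_nhds 0 (show 0 < R * q / 2 by positivity)]
          with w h1 h2
        rw [mem_ball_zero_iff] at h2
        have s1 : ‖w‖ / (R * q) ≤ 1 / 2 := by rw [div_le_iff₀ (by positivity)]; linarith
        have := t (s := ‖w‖ / (R * q)) (w := w) (by positivity) (by linarith) (by field_simp; rfl)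
        rw [e w h1, norm_div, Function.comp_apply,
          Real.norm_of_nonneg (pow_nonneg (norm_nonneg w) _), div_mul_eq_mul_div]
        refine div_le_div₀ (by positivity) (this.trans ?_) p0 (lb w h1)
        rw [one_mul, div_pow, mul_comm, div_mul_eq_mul_div, mul_div_assoc]
        exact mul_le_mul_of_nonneg_right (by rw [inv_le_comm₀ (by linarith) two_pos]; linarith)
          (by positivity))).trans_isLittleO ((isLittleO_pow_pow (lt_add_one n)).comp_tendsto
            (tendsto_norm_zero (E := ℂ))))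
      (fun w hw => by
        have h3 : ‖f w / S w - 1‖ ≤ (1 - q)⁻¹ ^ (k + 1) := by
          rw [e w hw, norm_div, inv_pow, ← one_div]
          refine div_le_div₀ zero_le_one ((t1 ((mem_ball_zero_iff.1 hw).le.trans ?_)).le.trans e1)
            p0 (lb w hw)
          exact mul_le_of_le_one_right (by positivity) q1.le
        have h4 : (1 - q)⁻¹ ^ (k + 1) ≤ Real.exp ((k + 1) * (1 - q)⁻¹) := by
          rw [show (k + 1 : ℝ) = (k + 1 : ℕ) by simp, Real.exp_nat_mul]
          exact pow_le_pow_left₀ i0.le (by linarith [Real.add_one_le_exp (1 - q)⁻¹]) _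
        have h5 := Real.one_le_exp (show 0 ≤ (k + 1) * (1 - q)⁻¹ by positivity)
        have h6 := norm_sub_norm_le (f w / S w) 1
        rw [norm_one] at h6
        rw [Real.exp_add]
        nlinarith [Real.add_one_le_exp 1]) (z := z) (hz.trans (by ring)).le
    have L1 : ‖-L‖ ≤ 1 := by
      rw [norm_neg]
      exact k2.trans ((mul_le_mul_of_nonneg_left qn (div_nonneg (by positivity) (by linarith))).trans c2)
    have zb : z ∈ ball (0 : ℂ) (R * q * q * q) := by
      rw [mem_ball_zero_iff, hz]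
      nlinarith [mul_pos R3 (show 0 < 1 - q ^ 2 by nlinarith)]
    have : f z - S z = -(cexp (-L) - 1) * f z := by
      have := nz z
      rw [Complex.exp_neg, hL]; field_simp; ring
    rw [show ∑ j ∈ Finset.range (n + 1), a j * z ^ j = S z from rfl, this, norm_mul, norm_neg]
    gcongr
    linarith [Complex.norm_exp_sub_one_le L1]
  have k1 := key k le_rfl (by omega)
  have k2 := key (k + 1) (by omega) le_rfl
  have := norm_sub_le (f z - ∑ j ∈ Finset.range (k + 1), a j * z ^ j)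
    (f z - ∑ j ∈ Finset.range (k + 1 + 1), a j * z ^ j)
  rw [Finset.sum_range_succ _ (k + 1), sub_sub_sub_cancel_left, add_sub_cancel_left, norm_mul,
    norm_pow, hz, mul_pow, ← Finset.sum_range_succ (fun j => a j * z ^ j)] at this
  nlinarith [pow_pos (pow_pos q0 5) (k + 1)]

lemma ex1 {y : ℝ} (y0 : 0 < y) (y1 : y ≤ 1) : (1 - Real.exp (-y))⁻¹ ≤ 2 / y := by
  have := mul_le_mul_of_nonneg_left (Real.add_one_le_exp y) (Real.exp_pos (-y)).le
  rw [← Real.exp_add, neg_add_cancel, Real.exp_zero] at this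
  have h := Real.exp_lt_one_iff.2 (neg_neg_of_pos y0)
  rw [inv_eq_one_div, div_le_div_iff₀ (by linarith) y0]
  nlinarith [Real.exp_pos (-y)]

lemma step (hf : ∀ z, HasSum (fun k => a k * z ^ k) (f z)) (nz : ∀ z, f z ≠ 0) (h0 : a 0 = 1) {ε : ℝ}
    (H : ∀ n z, ∑ k ∈ Finset.range (n + 1), a k * z ^ k = 0 → ε ≤ ‖f z‖) (e1 : ε ≤ 1) {x r : ℝ}
    (x1 : 1000 ≤ x) (x2 : x ^ 10 * Real.exp (-x) < ε / 132) (r0 : 0 < r) {m : ℕ} (m1 : x ^ 4 ≤ m)
    (m2 : 1 ≤ ‖a m‖ * r ^ m) :
    ∃ k : ℕ, (2 * x) ^ 4 ≤ k ∧ 1 ≤ ‖a k‖ * (r * Real.exp (3 / x)) ^ k := by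
  set R := r * Real.exp (3 / x) with hR
  have x0 : 0 < x := by linarith
  have R0 : 0 < R := by positivity
  have fin : {j | 1 ≤ ‖a j‖ * R ^ j}.Finite := by
    obtain ⟨N, hN⟩ := eventually_atTop.1 ((sn hf R0.le).tendsto_atTop_zero.eventually_lt_const one_pos)
    exact (finite_lt_nat N).subset fun j hj => not_le.1 fun n => (hN j n).not_ge hj
  obtain ⟨k, hk, mk⟩ := exists_max_image _ id fin ⟨m, m2.trans (by
    gcongr; exact le_mul_of_one_le_right r0.le (Real.one_le_exp (by positivity)))⟩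
  have km : m ≤ k := mk m (m2.trans (by
    gcongr; exact le_mul_of_one_le_right r0.le (Real.one_le_exp (by positivity))))
  refine ⟨k, not_lt.1 fun k2 => ?_, hk⟩
  have k1 : x ^ 4 ≤ k := m1.trans (Nat.cast_le.2 km)
  obtain ⟨k, rfl⟩ : ∃ j, k = j + 1 := Nat.exists_eq_succ_of_ne_zero fun n => by
    rw [n] at k1; linarith [pow_pos x0 4, Nat.cast_zero (R := ℝ)]
  push_cast at k1 k2
  have x3 : 1 ≤ x ^ 3 := one_le_pow₀ (by linarith)
  set q := Real.exp (-(1 / x ^ 3)) with hq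
  have q0 : 0 < q := Real.exp_pos _
  have q1 : q < 1 := Real.exp_lt_one_iff.2 (neg_neg_of_pos (by positivity))
  have i1 : (1 - q)⁻¹ ≤ 2 * x ^ 3 := by
    have := ex1 (y := 1 / x ^ 3) (by positivity) ((div_le_one (by positivity)).2 x3)
    rwa [div_div_eq_mul_div, div_one, ← hq] at this
  have i0 : 0 < (1 - q)⁻¹ := inv_pos.2 (by linarith)
  have qk : q ^ (k + 1) ≤ Real.exp (-x) := by
    rw [← Real.exp_nat_mul, Real.exp_le_exp, mul_neg, neg_le_neg_iff, mul_one_div,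
      le_div_iff₀ (by positivity)]
    push_cast; linarith
  have E := Real.exp_pos (-x)
  have x7 : 1 ≤ x ^ 7 := one_le_pow₀ (by linarith)
  have lo := fun z => low hf nz h0 H R0 q0 q1 hk (fun j hj => (not_le.1 fun n =>
    (mk j n).not_gt hj).le) e1 (z := z)
    ((mul_le_mul qk i1 i0.le E.le).trans_lt (by
      nlinarith [mul_le_mul_of_nonneg_left x7 (mul_pos E (pow_pos x0 3)).le]))
    (by
      rw [div_eq_mul_inv]
      have : (k + 1) * (1 - q)⁻¹ ≤ (2 * x) ^ 4 * (2 * x ^ 3) := by gcongr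
      calc _ ≤ 2 * (33 * x ^ 7) * (2 * x ^ 3) * Real.exp (-x) := by gcongr; linarith
        _ ≤ 1 := by linarith)
  have R5 : 0 < R * q ^ 5 := by positivity
  have f0 : f 0 = 1 := by
    simpa [h0, sub_eq_zero] using tail hf (R := 0) (B := 0) (s := 0) (n := 1) le_rfl le_rfl one_pos
      (fun j hj => by simp [show j ≠ 0 by omega]) (z := 0) (by simp)
  have dI : Differentiable ℂ fun z => (f z)⁻¹ := (df hf).inv nz
  set s := Real.exp (-(1 / (2 * x))) with hs
  have s1 : s < 1 := Real.exp_lt_one_iff.2 (neg_neg_of_pos (by positivity))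
  have up := cauchy hf (ρ := R * q ^ 5 * s ^ 2) (M := Real.exp (2 * (2 + 80 * x) * (4 * x)))
    (by positivity) (fun z hz => by
    obtain ⟨L, hL, k3⟩ := bc (Λ := 2 + 80 * x) (n := 0) R5 (Real.exp_pos _) s1 (by positivity)
      dI.differentiableOn (fun w _ => inv_ne_zero (nz w)) (by simp [f0])
      (by simpa [tendsto_sub_nhds_zero_iff] using dI.continuous.tendsto' 0 1 (by simp [f0]))
      (fun w hw => Complex.norm_le_of_forall_mem_frontier_norm_le isBounded_ball dI.diffContOnCl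
        (fun v hv => by
          rw [frontier_ball _ R5.ne', mem_sphere_zero_iff_norm] at hv
          have := lo v hv
          rw [norm_inv, inv_le_iff_one_le_mul₀ (norm_pos_iff.2 (nz v)), Real.exp_add]
          have e2 : 4 ≤ Real.exp 2 := by
            rw [show (2 : ℝ) = 1 + 1 by norm_num, Real.exp_add]; nlinarith [Real.add_one_le_exp 1]
          have e3 : 1 ≤ Real.exp (80 * x) * (q ^ 5) ^ (k + 1) := by
            rw [← pow_mul, ← Real.exp_nat_mul, ← Real.exp_add]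
            refine Real.one_le_exp ?_
            rw [mul_neg, ← sub_eq_add_neg, sub_nonneg, mul_one_div, div_le_iff₀ (by positivity)]
            push_cast; linarith
          nlinarith [mul_le_mul_of_nonneg_left this (Real.exp_pos (80 * x)).le,
            mul_le_mul_of_nonneg_right e2 (mul_nonneg (Real.exp_pos (80 * x)).le (norm_nonneg (f v)))])
        (subset_closure hw)) hz
    rw [← inv_inv (f z), ← hL, ← Complex.exp_neg, Complex.norm_exp, Real.exp_le_exp]
    refine (re_le_norm _).trans ((norm_neg L).trans_le (k3.trans ?_))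
    have := ex1 (y := 1 / (2 * x)) (by positivity) ((div_le_one (by positivity)).2 (by linarith))
    rw [div_div_eq_mul_div, div_one, ← hs] at this
    rw [zero_add, pow_one, div_eq_mul_inv]
    refine (mul_le_of_le_one_right (mul_nonneg (by positivity) (inv_pos.2 (by linarith)).le)
      s1.le).trans (mul_le_mul_of_nonneg_left (by linarith) (by positivity))) m
  have g : r * Real.exp (1 / x) ≤ R * q ^ 5 * s ^ 2 := by
    rw [hR, hq, hs, ← Real.exp_nat_mul, ← Real.exp_nat_mul, mul_assoc, mul_assoc, ← Real.exp_add,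
      ← Real.exp_add]
    gcongr
    rw [← sub_nonneg, show 3 / x + (((5 : ℕ) : ℝ) * -(1 / x ^ 3) + ((2 : ℕ) : ℝ) * -(1 / (2 * x))) - 1 / x =
      (x ^ 2 - 5) / x ^ 3 by push_cast; field_simp; ring]
    exact div_nonneg (by nlinarith) (by positivity)
  have := (mul_le_mul_of_nonneg_left (pow_le_pow_left₀ (by positivity) g m) (norm_nonneg _)).trans up
  rw [mul_pow, ← mul_assoc, ← Real.exp_nat_mul] at this
  have := Real.exp_le_exp.1 ((le_mul_of_one_le_left (Real.exp_pos _).le m2).trans this)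
  rw [mul_one_div, div_le_iff₀ x0] at this
  nlinarith [pow_pos x0 3, pow_pos x0 2]

theorem main (hf : ∀ z, HasSum (fun k => a k * z ^ k) (f z)) (nz : ∀ z, f z ≠ 0) (h0 : a 0 = 1) {ε : ℝ}
    (H : ∀ n z, ∑ k ∈ Finset.range (n + 1), a k * z ^ k = 0 → ε ≤ ‖f z‖) (e0 : 0 < ε) (e1 : ε ≤ 1)
    (z w : ℂ) : f z = f w := by
  by_contra ne
  obtain ⟨x, hx⟩ := eventually_atTop.1 ((eventually_ge_atTop 1000).and
    ((Real.tendsto_pow_mul_exp_neg_atTop_nhds_zero 10).eventually_lt_const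
      (show 0 < ε / 132 by positivity)))
  have x1 := (hx x le_rfl).1
  obtain ⟨m, m1, m2⟩ : ∃ m, ⌈x ^ 4⌉₊ + 1 ≤ m ∧ a m ≠ 0 := by
    by_contra! n
    set p : ℂ[X] := ∑ k ∈ Finset.range (⌈x ^ 4⌉₊ + 1), monomial k (a k) with hp
    have e (z : ℂ) : f z = p.eval z := by
      simpa [hp, eval_finsetSum, sub_eq_zero] using tail hf (R := 2 * ‖z‖) (B := 0) (s := 1 / 2)
        (by positivity) (by norm_num) (by norm_num) (fun j hj => by simp [n j hj]) (z := z) (by linarith)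
    rcases le_or_gt p.degree 0 with d | d
    · rw [e, e, eq_C_of_degree_le_zero d] at ne; simp at ne
    · obtain ⟨u, hu⟩ := Complex.exists_root d
      exact nz u ((e u).trans hu)
  have a0 := norm_pos_iff.2 m2
  set r := ‖a m‖⁻¹ + 1 with hr
  have r1 : 1 ≤ r := by linarith [inv_pos.2 a0]
  have P (i : ℕ) : ∃ k : ℕ, (2 ^ i * x) ^ 4 ≤ k ∧
      1 ≤ ‖a k‖ * (r * Real.exp (6 / x - 6 / (2 ^ i * x))) ^ k := by
    induction i with
    | zero =>
      refine ⟨m, by simpa using (Nat.le_ceil _).trans (Nat.cast_le.2 (by omega)), ?_⟩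
      have := le_self_pow₀ r1 (show m ≠ 0 by omega)
      have k := mul_inv_cancel₀ a0.ne'
      simp only [pow_zero, one_mul, sub_self, Real.exp_zero, mul_one]
      nlinarith
    | succ i ih =>
      obtain ⟨k, k1, k2⟩ := ih
      have := hx (2 ^ i * x) (le_mul_of_one_le_left (by linarith) (one_le_pow₀ one_le_two))
      obtain ⟨l, l1, l2⟩ := step hf nz h0 H e1 this.1 this.2 (by positivity) k1 k2
      refine ⟨l, by rwa [pow_succ' 2, mul_assoc], ?_⟩
      rwa [mul_assoc r, ← Real.exp_add, show 6 / x - 6 / (2 ^ i * x) + 3 / (2 ^ i * x) =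
        6 / x - 6 / (2 ^ (i + 1) * x) by field_simp; ring] at l2
  obtain ⟨N, hN⟩ := eventually_atTop.1 ((sn hf (R := r * Real.exp (6 / x))
    (by positivity)).tendsto_atTop_zero.eventually_lt_const one_pos)
  obtain ⟨k, k1, k2⟩ := P N
  refine (hN k ?_).not_ge (k2.trans ?_)
  · have : (N : ℝ) < 2 ^ N := by exact_mod_cast Nat.lt_two_pow_self
    have h : (1 : ℝ) ≤ 2 ^ N := one_le_pow₀ one_le_two
    have := le_self_pow₀ (show 1 ≤ 2 ^ N * x by nlinarith) four_ne_zero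
    exact Nat.cast_le.1 (show (N : ℝ) ≤ k by nlinarith)
  · gcongr
    exact sub_le_self _ (by positivity)

end Pool.Agent.Lib.Helper21.Psum
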