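import Pool.Agent.Lib.helper21.Bast

set_option maxHeartbeats 400000

open Set Filter Topology Polynomial

namespace Pool.Agent.Lib.Helper21.RatLog
open Pool.Agent.Lib.Helper21.Bast

abbrev X : Type := Icc (0:ℝ) 1
abbrev B : Type := C(X, ℝ)

/-- rational functions without poles on `[0,1]` -/
def Alg : Subalgebra ℝ B where
  carrier := {f | ∃ p q : ℝ[X], (∀ x : X, q.eval x.1 ≠ 0) ∧ ∀ x : X, f x * q.eval x.1 = p.eval x.1}
  mul_mem' := by
    rintro f g ⟨p, q, h1, h2⟩ ⟨p', q', h3, h4⟩
    refine ⟨p * p', q * q', fun x => by simp [h1 x, h3 x], fun x => ?_⟩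
    simp only [ContinuousMap.mul_apply, eval_mul, ← h2 x, ← h4 x]; ring
  add_mem' := by
    rintro f g ⟨p, q, h1, h2⟩ ⟨p', q', h3, h4⟩
    refine ⟨p * q' + p' * q, q * q', fun x => by simp [h1 x, h3 x], fun x => ?_⟩
    simp only [ContinuousMap.add_apply, eval_mul, eval_add, ← h2 x, ← h4 x]; ring
  algebraMap_mem' := fun r => ⟨C r, 1, fun x => by simp, fun x => by simp⟩

abbrev A : Type := Alg

/-- the positive ones -/
def H : Type := {f : A // ∀ x, 0 < f.1 x}

instance : TopologicalSpace H := instTopologicalSpaceSubtype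
instance : T2Space H := inferInstanceAs (T2Space {f : A // ∀ x, 0 < f.1 x})

noncomputable def invH (f : H) : H :=
  ⟨⟨⟨fun x => (f.1.1 x)⁻¹, f.1.1.continuous.inv₀ fun x => (f.2 x).ne'⟩, by
    obtain ⟨p, q, h1, h2⟩ := f.1.2
    refine ⟨q, p, fun x => ?_, fun x => ?_⟩
    · rw [← h2 x]; exact mul_ne_zero (f.2 x).ne' (h1 x)
    · have := (f.2 x).ne'
      simp only [ContinuousMap.coe_mk, ← h2 x]
      field_simp⟩, fun x => inv_pos.2 (f.2 x)⟩

lemma H_ext {f g : H} (h : ∀ x, f.1.1 x = g.1.1 x) : f = g :=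
  Subtype.ext (Subtype.ext (ContinuousMap.ext h))

noncomputable instance : Group H where
  mul f g := ⟨f.1 * g.1, fun x => mul_pos (f.2 x) (g.2 x)⟩
  one := ⟨1, fun _ => one_pos⟩
  inv := invH
  mul_assoc f g h := Subtype.ext (mul_assoc f.1 g.1 h.1)
  one_mul f := Subtype.ext (one_mul f.1)
  mul_one f := Subtype.ext (mul_one f.1)
  inv_mul_cancel f := H_ext fun x => inv_mul_cancel₀ (f.2 x).ne'

lemma open_pos : IsOpen {f : A | ∀ x, 0 < f.1 x} := by
  have := (ContinuousMap.isOpen_setOfPred_mapsTo (X := X) (Y := ℝ) isCompact_univ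
    (isOpen_Ioi (a := (0:ℝ)))).preimage (continuous_subtype_val (p := fun f => f ∈ Alg))
  convert this using 1
  ext f
  simp [MapsTo]

lemma emb : IsOpenEmbedding (fun f : H => f.1) := open_pos.isOpenEmbedding_subtypeVal

instance : Nonempty H := ⟨1⟩

noncomputable def ch : OpenPartialHomeomorph H A := emb.toOpenPartialHomeomorph _

noncomputable instance : ChartedSpace A H := emb.singletonChartedSpace

lemma atlas_H {φ : OpenPartialHomeomorph H A} (h : φ ∈ atlas A H) : φ = ch := h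

lemma ch_symm {a : A} (ha : a ∈ ch.target) : (ch.symm a).1 = a := ch.right_inv ha

lemma ev_cont : Continuous fun p : H × X => p.1.1.1 p.2 :=
  continuous_eval.comp (((continuous_subtype_val.comp emb.continuous).comp continuous_fst).prodMk
    continuous_snd)

lemma inv_cont : Continuous fun f : H => f⁻¹ := by
  refine Continuous.subtype_mk (Continuous.subtype_mk ?_ _) _
  apply ContinuousMap.continuous_of_continuous_uncurry
  exact ev_cont.inv₀ fun p => (p.1.2 p.2).ne'

lemma mul_cont : Continuous fun p : H × H => p.1 * p.2 :=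
  Continuous.subtype_mk ((emb.continuous.comp continuous_fst).mul
    (emb.continuous.comp continuous_snd)) _

lemma mul_smooth (k : ℕ) :
    MapC k (prodAtlas (atlas A H)) (atlas A H) fun p : H × H => p.1 * p.2 := by
  refine ⟨mul_cont, ?_⟩
  rintro _ ⟨φ, hφ, ψ, hψ, rfl⟩ χ hχ
  rw [atlas_H hφ, atlas_H hψ, atlas_H hχ]
  refine IsC.congr k ((ch.prod ch).isOpen_inter_preimage_symm (ch.open_source.preimage mul_cont))
    (isC_mul k _) fun p hp => ?_
  change (ch.symm p.1).1 * (ch.symm p.2).1 = _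
  rw [ch_symm hp.1.1, ch_symm hp.1.2]

lemma lie_H : IsLie A H := by
  refine ⟨fun k => ⟨continuous_id, fun φ hφ ψ hψ => ?_⟩, mul_smooth,
    fun k => inv_step inv_cont k (mul_smooth k)⟩
  rw [atlas_H hφ, atlas_H hψ]
  refine IsC.congr k (ch.isOpen_inter_preimage_symm (ch.open_source.preimage continuous_id))
    (isC_lin k (ContinuousLinearMap.id ℝ A) _) fun a ha => ch_symm ha.1

section add
variable (F : Type) [NormedAddCommGroup F] [NormedSpace ℝ F]

instance : ChartedSpace F (Multiplicative F) := chartedSpaceSelf F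

omit [NormedSpace ℝ F] in
lemma atlas_G {φ : OpenPartialHomeomorph (Multiplicative F) F}
    (h : φ ∈ atlas F (Multiplicative F)) : φ = OpenPartialHomeomorph.refl F := h

lemma lie_G : IsLie F (Multiplicative F) := by
  refine ⟨fun k => ⟨continuous_id, fun φ hφ ψ hψ => ?_⟩, fun k => ⟨continuous_mul, ?_⟩,
    fun k => ⟨continuous_inv, fun φ hφ ψ hψ => ?_⟩⟩
  · rw [atlas_G F hφ, atlas_G F hψ]
    exact isC_lin k (ContinuousLinearMap.id ℝ F) _
  · rintro _ ⟨φ, hφ, ψ, hψ, rfl⟩ χ hχ
    rw [atlas_G F hφ, atlas_G F hψ, atlas_G F hχ]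
    exact isC_lin k (ContinuousLinearMap.fst ℝ F F + ContinuousLinearMap.snd ℝ F F) _
  · rw [atlas_G F hφ, atlas_G F hψ]
    exact isC_lin k (-ContinuousLinearMap.id ℝ F) _

end add

noncomputable def lg (f : H) : B :=
  ⟨fun x => Real.log (f.1.1 x), f.1.1.continuous.log fun x => (f.2 x).ne'⟩

lemma lg_cont : Continuous lg := by
  apply ContinuousMap.continuous_of_continuous_uncurry
  exact ev_cont.log fun p => (p.1.2 p.2).ne'

noncomputable def Sp : Submodule ℝ B := Submodule.span ℝ (range lg)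

abbrev F : Type := Sp

noncomputable def alpha : H →* Multiplicative F where
  toFun f := Multiplicative.ofAdd ⟨lg f, Submodule.subset_span (mem_range_self f)⟩
  map_one' := by
    apply Subtype.ext
    ext x
    exact Real.log_one
  map_mul' f g := by
    apply Subtype.ext
    ext x
    exact Real.log_mul (f.2 x).ne' (g.2 x).ne'

lemma alpha_cont : Continuous alpha := Continuous.subtype_mk lg_cont _

noncomputable def ex (φ : B) (y : ℝ) : ℝ := φ (projIcc 0 1 zero_le_one y)

def R (φ : B) : Prop := ∃ P Q : ℝ[X], P.degree < Q.degree ∧ (∀ x ∈ Ioo (0:ℝ) 1, Q.eval x ≠ 0) ∧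
  ∀ x ∈ Ioo (0:ℝ) 1, HasDerivAt (ex φ) (P.eval x / Q.eval x) x

lemma ne_of {q : ℝ[X]} (h : ∀ x ∈ Ioo (0:ℝ) 1, q.eval x ≠ 0) : q ≠ 0 := by
  rintro rfl
  exact h (1 / 2) ⟨by norm_num, by norm_num⟩ (by simp)

lemma deg_lt {P Q S : ℝ[X]} (h : P.degree < Q.degree) (hS : S ≠ 0) :
    (P * S).degree < (Q * S).degree := by
  rw [degree_mul, degree_mul]
  exact WithBot.add_lt_add_right (degree_ne_bot.2 hS) h

lemma ex_eq {φ : B} {g : ℝ → ℝ} (h : ∀ x : X, φ x = g x.1) {x : ℝ} (hx : x ∈ Ioo (0:ℝ) 1) :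
    ex φ =ᶠ[𝓝 x] g := by
  filter_upwards [isOpen_Ioo.mem_nhds hx] with y hy
  rw [ex, projIcc_of_mem _ (Ioo_subset_Icc_self hy), h]

lemma R_lg (f : H) : R (lg f) := by
  obtain ⟨p, q, h1, h2⟩ := f.1.2
  have hq : ∀ x ∈ Ioo (0:ℝ) 1, q.eval x ≠ 0 := fun x hx => h1 ⟨x, Ioo_subset_Icc_self hx⟩
  have hp : ∀ x ∈ Ioo (0:ℝ) 1, p.eval x ≠ 0 := fun x hx => by
    have := h2 ⟨x, Ioo_subset_Icc_self hx⟩
    simp only at this
    rw [← this]
    exact mul_ne_zero (f.2 _).ne' (hq x hx)
  refine ⟨derivative p * q - derivative q * p, p * q, ?_, fun x hx => by simp [hp x hx, hq x hx],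
    fun x hx => ?_⟩
  · refine (degree_sub_le _ _).trans_lt (max_lt ?_ ?_)
    · exact deg_lt (degree_derivative_lt (ne_of hp)) (ne_of hq)
    · rw [mul_comm p q]
      exact deg_lt (degree_derivative_lt (ne_of hq)) (ne_of hp)
  · have e := ex_eq (φ := lg f) (g := fun y => Real.log (p.eval y / q.eval y)) (fun x => by
      change Real.log (f.1.1 x) = _
      rw [← h2 x, mul_div_cancel_right₀ _ (h1 x)]) hx
    have d := ((p.hasDerivAt x).div (q.hasDerivAt x) (hq x hx)).log
      (div_ne_zero (hp x hx) (hq x hx))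
    refine (d.congr_of_eventuallyEq e).congr_deriv ?_
    have := hp x hx
    have := hq x hx
    simp only [Pi.div_apply, eval_sub, eval_mul]
    field_simp

lemma R_span {φ : B} (h : φ ∈ Sp) : R φ := by
  induction h using Submodule.span_induction with
  | mem φ h => obtain ⟨f, rfl⟩ := h; exact R_lg f
  | zero =>
    refine ⟨0, 1, by simp, by simp, fun x _ => ?_⟩
    exact (hasDerivAt_const x (0:ℝ)).congr_deriv (by simp)
  | add φ ψ _ _ h1 h2 =>
    obtain ⟨P, Q, a1, a2, a3⟩ := h1
    obtain ⟨P', Q', b1, b2, b3⟩ := h2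
    refine ⟨P * Q' + P' * Q, Q * Q', ?_, fun x hx => by simp [a2 x hx, b2 x hx], fun x hx => ?_⟩
    · refine (degree_add_le _ _).trans_lt (max_lt (deg_lt a1 (ne_of b2)) ?_)
      rw [mul_comm Q Q']
      exact deg_lt b1 (ne_of a2)
    · refine ((a3 x hx).add (b3 x hx)).congr_deriv ?_
      have := a2 x hx
      have := b2 x hx
      simp only [eval_add, eval_mul]
      field_simp
  | smul c φ _ h1 =>
    obtain ⟨P, Q, a1, a2, a3⟩ := h1
    refine ⟨c • P, Q, (degree_smul_le _ _).trans_lt a1, a2, fun x hx => ?_⟩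
    refine ((a3 x hx).const_mul c).congr_deriv ?_
    simp only [eval_smul, smul_eq_mul]
    ring

def idB : B := ⟨fun x => x.1, continuous_subtype_val⟩

lemma id_not : idB ∉ Sp := by
  intro h
  obtain ⟨P, Q, a1, a2, a3⟩ := R_span h
  have : P = Q := by
    apply eq_of_infinite_eval_eq
    refine (Ioo_infinite (zero_lt_one' ℝ)).mono fun x hx => ?_
    have e := ex_eq (φ := idB) (g := fun y => y) (fun _ => rfl) hx
    have d := ((hasDerivAt_id x).congr_of_eventuallyEq e).unique (a3 x hx)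
    have := a2 x hx
    change P.eval x = Q.eval x
    field_simp at d
    exact d.symm
  rw [this] at a1
  exact lt_irrefl _ a1

def idA : A := ⟨idB, Polynomial.X, 1, fun x => by simp, fun x => by simp [idB]⟩

lemma not_C1 : ¬ MapC 1 (atlas A H) (atlas F (Multiplicative F)) alpha := by
  intro h
  obtain ⟨-, df, h2, -⟩ := h.2 ch rfl (OpenPartialHomeomorph.refl F) rfl
  have h1 : (1:A) ∈ ch.target := ch.map_source (x := 1) (mem_univ _)
  have h3 := h2 1 ⟨h1, mem_univ _⟩ idA
  apply id_not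
  have : (df (1, idA)).1 = idB := by
    ext y
    have c : Continuous fun w : F => w.1 y := (continuous_eval_const y).comp continuous_subtype_val
    have h4 := (c.tendsto _).comp h3
    have d : HasDerivAt (fun t : ℝ => Real.log (1 + t * y.1)) y.1 0 := by
      have := (((hasDerivAt_id (0:ℝ)).mul_const y.1).const_add 1).log (by simp)
      simpa using this
    rw [hasDerivAt_iff_tendsto_slope_zero] at d
    refine tendsto_nhds_unique h4 (d.congr' ?_)
    have ht : Tendsto (fun t : ℝ => t) (𝓝[≠] 0) (𝓝 0) := nhdsWithin_le_nhds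
    have hxt : Tendsto (fun t : ℝ => (1:A) + t • idA) (𝓝[≠] 0) (𝓝 1) := by
      simpa using (tendsto_const_nhds (x := (1:A))).add (ht.smul_const idA)
    filter_upwards [hxt (ch.open_target.mem_nhds h1)] with t ht
    change _ = t⁻¹ • (Real.log ((ch.symm (1 + t • idA)).1.1 y) - Real.log ((ch.symm 1).1.1 y))
    rw [ch_symm ht, ch_symm h1]
    simp [idA, idB]
  rw [← this]
  exact (df (1, idA)).2

end Pool.Agent.Lib.Helper21.RatLog
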