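import Mathlib

open MeasureTheory Set Filter Topology Metric Function
open scoped Real

noncomputable section

set_option maxHeartbeats 400000

namespace Pool.Agent.Lib.Helper21.React1

abbrev E3 := EuclideanSpace ℝ (Fin 3)

def G (τ : ℝ) (y : E3) : ℝ := Real.exp (-‖y‖ ^ 2 / (4 * τ)) / (√(4 * π * τ)) ^ 3

lemma G_nonneg (τ : ℝ) (y : E3) : 0 ≤ G τ y := by unfold G; positivity

lemma G_zero {τ : ℝ} (h : τ ≤ 0) (y : E3) : G τ y = 0 := by
  have : √(4 * π * τ) = 0 := Real.sqrt_eq_zero'.2 (by nlinarith [Real.pi_pos])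
  simp [G, this]

lemma G_meas : Measurable fun p : ℝ × E3 => G p.1 p.2 := by unfold G; fun_prop

lemma G_int (τ : ℝ) : Integrable (G τ) ∧ ∫ y, G τ y ≤ 1 := by
  by_cases h : τ ≤ 0
  · have : G τ = fun _ => 0 := funext (G_zero h)
    rw [this]; simp
  push Not at h
  have hp : 0 < 4 * π * τ := by positivity
  have e := GaussianFourier.integral_rexp_neg_mul_sq_norm (V := E3) (b := 1 / (4 * τ))
    (by positivity)
  have e2 : (π / (1 / (4 * τ))) ^ (Module.finrank ℝ E3 / 2 : ℝ) = (√(4 * π * τ)) ^ 3 := by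
    rw [show π / (1 / (4 * τ)) = 4 * π * τ by field_simp, Real.sqrt_eq_rpow,
      ← Real.rpow_natCast, ← Real.rpow_mul hp.le]
    simp; norm_num
  have e3 : G τ = fun y : E3 => Real.exp (-(1 / (4 * τ)) * ‖y‖ ^ 2) / (√(4 * π * τ)) ^ 3 := by
    funext y; rw [G]; congr 2; ring
  have hs : 0 < (√(4 * π * τ)) ^ 3 := by positivity
  rw [e2] at e
  rw [e3]
  refine ⟨(Integrable.of_integral_ne_zero (by rw [e]; exact hs.ne')).div_const _, ?_⟩
  rw [integral_div, e, div_self hs.ne']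

lemma G_late {τ δ : ℝ} (hδ : 0 < δ) (h : δ ≤ τ) (y : E3) : G τ y ≤ 1 / (√δ) ^ 3 := by
  have hτ : 0 < τ := hδ.trans_le h
  unfold G
  have h1 : Real.exp (-‖y‖ ^ 2 / (4 * τ)) ≤ 1 :=
    Real.exp_le_one_iff.2 (div_nonpos_of_nonpos_of_nonneg (by simp) (by positivity))
  have h2 : √δ ≤ √(4 * π * τ) := Real.sqrt_le_sqrt (by nlinarith [Real.pi_gt_three])
  gcongr

lemma G_far (τ : ℝ) {d : ℝ} (hd : 0 < d) {y : E3} (hy : d ≤ ‖y‖) : G τ y ≤ 1 / d ^ 3 := by
  by_cases h : τ ≤ 0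
  · rw [G_zero h]; positivity
  push Not at h
  have hp : 0 < 4 * π * τ := by positivity
  set a := √(4 * π * τ) with ha
  have ha0 : 0 < a := Real.sqrt_pos.2 hp
  have ha2 : a ^ 2 = 4 * π * τ := Real.sq_sqrt hp.le
  set z := ‖y‖ ^ 2 / (4 * τ) with hz
  set w := d / a with hw
  have hw0 : 0 < w := by positivity
  have h1 : w ^ 2 * 3 ≤ z := by
    rw [hz, hw, div_pow, ha2, le_div_iff₀ (by positivity)]
    have h2 : d ^ 2 ≤ ‖y‖ ^ 2 := by gcongr
    have h3 : d ^ 2 / (4 * π * τ) * 3 * (4 * τ) = d ^ 2 * (3 / π) := by field_simp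
    have h4 : 3 / π ≤ 1 := by rw [div_le_one Real.pi_pos]; linarith [Real.pi_gt_three]
    rw [h3]; nlinarith [sq_nonneg d]
  have h5 := Real.quadratic_le_exp_of_nonneg (x := z) (by positivity)
  have h6 : w ^ 3 ≤ Real.exp z := by
    have h7 : (w ^ 2 * 3) ^ 2 ≤ z ^ 2 := by gcongr
    by_cases hw1 : w ≤ 1
    · have : w ^ 3 ≤ 1 := pow_le_one₀ hw0.le hw1
      nlinarith [sq_nonneg w, sq_nonneg z]
    · push Not at hw1
      have : w ^ 3 ≤ w ^ 4 := pow_le_pow_right₀ hw1.le (by norm_num)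
      nlinarith [sq_nonneg w, pow_pos hw0 4]
  rw [G, neg_div, ← hz, ← ha, Real.exp_neg, div_le_div_iff₀ (by positivity) (by positivity),
    one_mul, ← div_eq_inv_mul, div_le_iff₀ (Real.exp_pos z)]
  rw [hw, div_pow, div_le_iff₀ (by positivity)] at h6
  linarith

lemma G_near {τ ε : ℝ} (hε : 0 < ε) (h1 : ε ^ 2 ≤ τ) (h2 : τ ≤ 2 * ε ^ 2) {y : E3}
    (hy : ‖y‖ ≤ 2 * ε) : 1 / (648 * ε ^ 3) ≤ G τ y := by
  have hτ : 0 < τ := lt_of_lt_of_le (by positivity) h1
  have a1 : √(4 * π * τ) ≤ 6 * ε := by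
    rw [Real.sqrt_le_left (by positivity)]
    nlinarith [Real.pi_le_four, Real.pi_pos]
  have a2 : 1 / 3 ≤ Real.exp (-‖y‖ ^ 2 / (4 * τ)) := by
    have b1 : -1 ≤ -‖y‖ ^ 2 / (4 * τ) := by
      rw [le_div_iff₀ (by positivity)]
      have : ‖y‖ ^ 2 ≤ (2 * ε) ^ 2 := by gcongr
      nlinarith
    refine le_trans ?_ (Real.exp_le_exp.2 b1)
    rw [Real.exp_neg, one_div]
    exact inv_anti₀ (Real.exp_pos 1) (by linarith [Real.exp_one_lt_d9])
  have a3 : 0 < √(4 * π * τ) := Real.sqrt_pos.2 (by positivity)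
  calc 1 / (648 * ε ^ 3) = (1 / 3) / (6 * ε) ^ 3 := by field_simp; norm_num
    _ ≤ _ := by unfold G; gcongr

def ff (u : ℝ) : ℝ := 4 * u ^ 2 * Real.smoothTransition (u - 1)

lemma ff_smooth : ContDiff ℝ (⊤ : ℕ∞) ff :=
  (contDiff_const.mul (contDiff_id.pow 2)).mul
    (Real.smoothTransition.contDiff.comp (contDiff_id.sub contDiff_const))

lemma ff_nonneg (u : ℝ) : 0 ≤ ff u :=
  mul_nonneg (by positivity) (Real.smoothTransition.nonneg _)

lemma ff_le (u : ℝ) : ff u ≤ 4 * u ^ 2 :=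
  mul_le_of_le_one_right (by positivity) (Real.smoothTransition.le_one _)

lemma ff_low {u : ℝ} (h : u ≤ 1) : ff u = 0 := by
  rw [ff, Real.smoothTransition.zero_of_nonpos (by linarith), mul_zero]

lemma ff_high {u : ℝ} (h : 2 ≤ u) : ff u = 4 * u ^ 2 := by
  rw [ff, Real.smoothTransition.one_of_one_le (by linarith), mul_one]

def bump : ContDiffBump (0 : E3) := ⟨1, 2, by norm_num, by norm_num⟩

def VV : ℝ := volume.real (ball (0 : E3) 2)

lemma VV_nonneg : 0 ≤ VV := measureReal_nonneg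

def kap : ℝ := 1 / (100 * (VV + 1))

lemma kap_pos : 0 < kap := by have := VV_nonneg; unfold kap; positivity

lemma kap_V : kap * (VV + 1) = 1 / 100 := by have := VV_nonneg; unfold kap; field_simp

def K (y : E3) : ℝ := kap * bump y

lemma K_nonneg (y : E3) : 0 ≤ K y := mul_nonneg kap_pos.le bump.nonneg
lemma K_le (y : E3) : K y ≤ kap := mul_le_of_le_one_right kap_pos.le bump.le_one
lemma K_smooth : ContDiff ℝ (⊤ : ℕ∞) K := contDiff_const.mul bump.contDiff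
lemma K_cs : HasCompactSupport K := bump.hasCompactSupport.mul_left
lemma K_int : Integrable K := K_smooth.continuous.integrable_of_hasCompactSupport K_cs
lemma K_even (y : E3) : K (-y) = K y := by rw [K, K, bump.neg]
lemma K_zero : 0 < K 0 := by
  rw [K, bump.one_of_mem_closedBall (mem_closedBall_self bump.rIn_pos.le), mul_one]; exact kap_pos

def kk : ℝ := ∫ y, K y

lemma kk_nonneg : 0 ≤ kk := integral_nonneg K_nonneg

lemma kk_le : kk ≤ 1 / 100 := by
  have h : kk ≤ ∫ y, (ball (0 : E3) 2).indicator (fun _ => kap) y := by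
    refine integral_mono K_int ((integrable_indicator_iff measurableSet_ball).2
      (integrableOn_const measure_ball_lt_top.ne)) fun y => ?_
    by_cases hy : y ∈ ball (0 : E3) 2
    · rw [indicator_of_mem hy]; exact K_le y
    · rw [indicator_of_notMem hy, K, bump.zero_of_le_dist (by simpa [bump] using hy), mul_zero]
  rw [integral_indicator_const _ measurableSet_ball, smul_eq_mul, ← VV] at h
  nlinarith [kap_V, kap_pos]

def cj (j : ℕ) : E3 := EuclideanSpace.single 0 ((1 / 2 : ℝ) ^ j)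
def nj (j : ℕ) : ℕ := 2 ^ 20 * 16 ^ j
def ej (j : ℕ) : ℝ := 1 / (nj j : ℝ)
def Ej (j : ℕ) : Set E3 := ball (cj j) (ej j)
def EE : Set E3 := ⋃ j, Ej j
def u0 : E3 → ℝ := EE.indicator fun _ => 3

lemma nj_pos (j : ℕ) : 0 < nj j := by unfold nj; positivity
lemma ej_pos (j : ℕ) : 0 < ej j := by have := nj_pos j; unfold ej; positivity
lemma ej_eq (j : ℕ) : ej j = (1 / 16) ^ j / 2 ^ 20 := by
  unfold ej nj; push_cast; rw [one_div_pow]; field_simp; norm_num
lemma ej_le (j : ℕ) : ej j ≤ (1 / 2) ^ j / 8 := by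
  rw [ej_eq]
  gcongr <;> norm_num

lemma norm_cj (j : ℕ) : ‖cj j‖ = (1 / 2) ^ j := by simp [cj]

lemma meas_Ej (j : ℕ) : MeasurableSet (Ej j) := measurableSet_ball
lemma meas_EE : MeasurableSet EE := MeasurableSet.iUnion meas_Ej

lemma Ej_sub {j J : ℕ} (h : J ≤ j) : Ej j ⊆ ball 0 (2 * (1 / 2) ^ J) := by
  intro y hy
  have h1 : ‖y - cj j‖ < ej j := by simpa [Ej, dist_eq_norm] using hy
  have h2 := norm_add_le (y - cj j) (cj j)
  rw [sub_add_cancel, norm_cj] at h2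
  have h3 : (1 / 2 : ℝ) ^ j ≤ (1 / 2) ^ J := pow_le_pow_of_le_one (by norm_num) (by norm_num) h
  have h4 := ej_le j
  have h5 : (0 : ℝ) < (1 / 2) ^ J := by positivity
  rw [mem_ball_zero_iff]; linarith

lemma EE_sub : EE ⊆ ball 0 2 := by
  rintro y ⟨_, ⟨j, rfl⟩, hy⟩
  simpa using Ej_sub (Nat.zero_le j) hy

lemma EE_fin : volume EE ≠ ⊤ := ((measure_mono EE_sub).trans_lt measure_ball_lt_top).ne

lemma EE_vol : volume.real EE ≤ VV := measureReal_mono EE_sub measure_ball_lt_top.ne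

lemma EE_cases {y : E3} (hy : y ∈ EE) (J : ℕ) :
    (∃ j < J, y ∈ Ej j) ∨ y ∈ ball (0 : E3) (2 * (1 / 2) ^ J) := by
  obtain ⟨_, ⟨j, rfl⟩, hy⟩ := hy
  by_cases h : j < J
  · exact Or.inl ⟨j, h, hy⟩
  · exact Or.inr (Ej_sub (not_lt.1 h) hy)

lemma Ej_far {j J : ℕ} (h : j < J) {x y : E3} (hx : x ∈ Ej J) (hy : y ∈ Ej j) :
    (1 / 2) ^ j / 4 ≤ ‖x - y‖ := by
  have h1 : ‖x - cj J‖ < ej J := by simpa [Ej, dist_eq_norm] using hx
  have h2 : ‖y - cj j‖ < ej j := by simpa [Ej, dist_eq_norm] using hy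
  have h3 : (1 / 2 : ℝ) ^ J ≤ (1 / 2) ^ (j + 1) :=
    pow_le_pow_of_le_one (by norm_num) (by norm_num) h
  rw [pow_succ] at h3
  have h4 := norm_add_le (x - cj J) (cj J)
  rw [sub_add_cancel, norm_cj] at h4
  have h5 := norm_sub_le y (y - cj j)
  rw [sub_sub_cancel, norm_cj] at h5
  have h6 := norm_sub_le x (x - y)
  rw [sub_sub_cancel] at h6
  have h7 := ej_le j
  have h8 := ej_le J
  have h9 : (0 : ℝ) < (1 / 2) ^ j := by positivity
  generalize (1 / 2 : ℝ) ^ j = a at *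
  generalize (1 / 2 : ℝ) ^ J = b at *
  linarith

lemma small_ball {C η : ℝ} (hC : 0 ≤ C) (hη : 0 < η) :
    ∃ J : ℕ, C * volume.real (ball (0 : E3) (2 * (1 / 2) ^ J)) ≤ η := by
  set V1 := volume.real (ball (0 : E3) 1) with hV
  have hV0 : 0 ≤ V1 := measureReal_nonneg
  obtain ⟨J, hJ⟩ := exists_pow_lt_of_lt_one (x := η / (8 * (C * V1 + 1))) (by positivity)
    (show (1 / 2 : ℝ) < 1 by norm_num)
  refine ⟨J, ?_⟩
  have e : volume.real (ball (0 : E3) (2 * (1 / 2) ^ J)) = (2 * (1 / 2) ^ J) ^ 3 * V1 := by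
    rw [measureReal_def, Measure.addHaar_ball_of_pos _ _ (by positivity), ENNReal.toReal_mul,
      ENNReal.toReal_ofReal (by positivity), hV, measureReal_def]
    simp
  rw [e]
  set r : ℝ := (1 / 2) ^ J
  have r0 : 0 < r := by positivity
  have r1 : r ≤ 1 := pow_le_one₀ (by norm_num) (by norm_num)
  have r3 : r ^ 3 ≤ r := by
    calc r ^ 3 ≤ r ^ 1 := pow_le_pow_of_le_one r0.le r1 (by norm_num)
      _ = r := pow_one r
  rw [lt_div_iff₀ (by positivity)] at hJ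
  have := mul_le_mul_of_nonneg_left r3 (mul_nonneg hC hV0)
  nlinarith

lemma ii_of_bdd {φ : ℝ → ℝ} (hm : Measurable φ) {C : ℝ} (h : ∀ s, |φ s| ≤ C) (a b : ℝ) :
    IntervalIntegrable φ volume a b :=
  (intervalIntegrable_const (c := C)).mono_fun hm.aestronglyMeasurable
    (Eventually.of_forall fun s => (h s).trans (le_abs_self C))

lemma geo_sum (J : ℕ) : ∑ j ∈ Finset.range J, (1 / 2 : ℝ) ^ j ≤ 2 :=
  sum_geometric_two_le J

end Pool.Agent.Lib.Helper21.React1
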