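import Mathlib
import Pool.Agent.Lib.helper21.React1

open MeasureTheory Set Filter Topology Metric Function
open scoped Real

noncomputable section

set_option maxHeartbeats 400000

namespace Pool.Agent.Lib.Helper21.React2

open Pool.Agent.Lib.Helper21.React1

def hh (u v : ℝ → E3 → ℝ) (s : ℝ) (y : E3) : ℝ := v s y * ff (u s y)

def cc (u : ℝ → E3 → ℝ) (s : ℝ) (x : E3) : ℝ := ∫ y, K (x - y) * u s y

def II (u v : ℝ → E3 → ℝ) (t : ℝ) (x : E3) (s : ℝ) : ℝ := ∫ y, G (t - s) (x - y) * hh u v s y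

def rhs (u v : ℝ → E3 → ℝ) (x : E3) (s : ℝ) : ℝ := cc u s x - kk * u s x + hh u v s x

def Good (u v : ℝ → E3 → ℝ) (x : E3) : Prop :=
  ∀ t, 0 ≤ t → u t x = u0 x + ∫ s in (0 : ℝ)..t, rhs u v x s ∧
    v t x = 1 - ∫ s in (0 : ℝ)..t, II u v t x s

structure Sol (u v : ℝ → E3 → ℝ) (M : ℝ) : Prop where
  mu : Measurable (uncurry u)
  mv : Measurable (uncurry v)
  un : ∀ t x, 0 ≤ u t x
  uM : ∀ t x, u t x ≤ M
  v0 : ∀ t x, 0 ≤ v t x
  v1 : ∀ t x, v t x ≤ 1
  good : ∀ᵐ x, Good u v x

def mm (u v : ℝ → E3 → ℝ) (A : Set E3) (s : ℝ) : ℝ := ∫ y in A, hh u v s y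

variable {u v : ℝ → E3 → ℝ} {M : ℝ} (S : Sol u v M)
include S

lemma Sol.M0 : 0 ≤ M := (S.un 0 0).trans (S.uM 0 0)

lemma Sol.mh : Measurable (uncurry (hh u v)) :=
  S.mv.mul (ff_smooth.continuous.measurable.comp S.mu)

lemma Sol.h0 (s : ℝ) (y : E3) : 0 ≤ hh u v s y := mul_nonneg (S.v0 s y) (ff_nonneg _)

lemma Sol.hF (s : ℝ) (y : E3) : hh u v s y ≤ 4 * M ^ 2 := by
  refine (mul_le_of_le_one_left (ff_nonneg _) (S.v1 s y)).trans ((ff_le _).trans ?_)
  have := S.un s y
  have := S.uM s y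
  gcongr

lemma Sol.hnorm (s : ℝ) (y : E3) : ‖hh u v s y‖ ≤ 4 * M ^ 2 := by
  rw [Real.norm_eq_abs, abs_of_nonneg (S.h0 s y)]; exact S.hF s y

lemma Sol.unorm (s : ℝ) (y : E3) : ‖u s y‖ ≤ M := by
  rw [Real.norm_eq_abs, abs_of_nonneg (S.un s y)]; exact S.uM s y

lemma Sol.mhs (s : ℝ) : Measurable (hh u v s) := S.mh.of_uncurry_left
lemma Sol.mus (s : ℝ) : Measurable (u s) := S.mu.of_uncurry_left

lemma Sol.h_intOn (s : ℝ) {A : Set E3} (hA : volume A ≠ ⊤) : IntegrableOn (hh u v s) A :=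
  Measure.integrableOn_of_bounded hA (S.mhs s).aestronglyMeasurable
    (Eventually.of_forall (S.hnorm s))

lemma Sol.u_intOn (s : ℝ) {A : Set E3} (hA : volume A ≠ ⊤) : IntegrableOn (u s) A :=
  Measure.integrableOn_of_bounded hA (S.mus s).aestronglyMeasurable
    (Eventually.of_forall (S.unorm s))

lemma Sol.m0 (A : Set E3) (s : ℝ) : 0 ≤ mm u v A s := integral_nonneg (S.h0 s)

lemma Sol.m_ii {A : Set E3} (hA : volume A ≠ ⊤) (a b : ℝ) :
    IntervalIntegrable (mm u v A) volume a b := by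
  refine ii_of_bdd (S.mh.stronglyMeasurable.integral_prod_right).measurable
    (C := 4 * M ^ 2 * volume.real A) (fun s => ?_) a b
  exact norm_setIntegral_le_of_norm_le_const hA.lt_top fun y _ => S.hnorm s y

lemma Sol.I_int (t : ℝ) (x : E3) (s : ℝ) :
    Integrable fun y => G (t - s) (x - y) * hh u v s y :=
  ((G_int (t - s)).1.comp_sub_left x).mul_bdd (S.mhs s).aestronglyMeasurable
    (Eventually.of_forall (S.hnorm s))

lemma Sol.I0 (t : ℝ) (x : E3) (s : ℝ) : 0 ≤ II u v t x s :=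
  integral_nonneg fun y => mul_nonneg (G_nonneg _ _) (S.h0 s y)

lemma Sol.IF (t : ℝ) (x : E3) (s : ℝ) : II u v t x s ≤ 4 * M ^ 2 := by
  have h1 : II u v t x s ≤ ∫ y, G (t - s) (x - y) * (4 * M ^ 2) :=
    integral_mono (S.I_int t x s) (((G_int (t - s)).1.comp_sub_left x).mul_const _) fun y =>
      mul_le_mul_of_nonneg_left (S.hF s y) (G_nonneg _ _)
  rw [integral_mul_const, integral_sub_left_eq_self (G (t - s)) volume x] at h1
  exact h1.trans (mul_le_of_le_one_left (by positivity) (G_int _).2)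

lemma Sol.I_ii (t : ℝ) (x : E3) (a b : ℝ) : IntervalIntegrable (II u v t x) volume a b := by
  have hm : Measurable (uncurry fun (s : ℝ) (y : E3) => G (t - s) (x - y) * hh u v s y) :=
    (G_meas.comp ((measurable_const.sub measurable_fst).prodMk
      (measurable_const.sub measurable_snd))).mul S.mh
  refine ii_of_bdd (hm.stronglyMeasurable.integral_prod_right).measurable (C := 4 * M ^ 2)
    (fun s => ?_) a b
  change |II u v t x s| ≤ _
  rw [abs_of_nonneg (S.I0 t x s)]; exact S.IF t x s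

lemma Sol.exists_good (c : E3) {ε : ℝ} (hε : 0 < ε) : ∃ x ∈ ball c ε, Good u v x :=
  Measure.exists_mem_of_measure_ne_zero_of_ae (measure_ball_pos volume c hε).ne'
    (ae_restrict_of_ae S.good)

lemma Sol.window (c : E3) {ε a : ℝ} (hε : 0 < ε) (ha : 0 ≤ a) :
    ∫ s in a..(a + ε ^ 2), mm u v (ball c ε) s ≤ 648 * ε ^ 3 := by
  obtain ⟨x, hx, hg⟩ := S.exists_good c hε
  have h1 := (hg (a + 2 * ε ^ 2) (by positivity)).2
  have h2 := S.v0 (a + 2 * ε ^ 2) x
  have hε2 : 0 < ε ^ 2 := by positivity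
  have h3 : ∫ s in a..(a + ε ^ 2), II u v (a + 2 * ε ^ 2) x s ≤
      ∫ s in (0 : ℝ)..(a + 2 * ε ^ 2), II u v (a + 2 * ε ^ 2) x s :=
    intervalIntegral.integral_mono_interval ha (by linarith) (by linarith)
      (Eventually.of_forall (S.I0 _ x)) (S.I_ii _ x _ _)
  have hb : volume (ball c ε) ≠ ⊤ := measure_ball_lt_top.ne
  have h4 : ∫ s in a..(a + ε ^ 2), 1 / (648 * ε ^ 3) * mm u v (ball c ε) s ≤
      ∫ s in a..(a + ε ^ 2), II u v (a + 2 * ε ^ 2) x s := by
    refine intervalIntegral.integral_mono_on (by linarith) ((S.m_ii hb _ _).const_mul _)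
      (S.I_ii _ x _ _) fun s hs => ?_
    refine le_trans ?_ (setIntegral_le_integral (s := ball c ε) (S.I_int _ x s)
      (Eventually.of_forall fun y => mul_nonneg (G_nonneg _ _) (S.h0 s y)))
    rw [mm, ← integral_const_mul]
    refine setIntegral_mono_on ((S.h_intOn s hb).const_mul _) (S.I_int _ x s).integrableOn
      measurableSet_ball fun y hy => ?_
    refine mul_le_mul_of_nonneg_right (G_near hε (by linarith [hs.2]) (by linarith [hs.1]) ?_)
      (S.h0 s y)
    have := dist_triangle_right x y c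
    rw [mem_ball] at hx hy
    rw [← dist_eq_norm]; linarith
  rw [intervalIntegral.integral_const_mul, one_div, inv_mul_le_iff₀ (by positivity)] at h4
  have h5 : ∫ s in a..(a + ε ^ 2), II u v (a + 2 * ε ^ 2) x s ≤ 1 := by linarith
  have : (0 : ℝ) < 648 * ε ^ 3 := by positivity
  nlinarith

lemma Sol.total (j : ℕ) : ∫ s in (0 : ℝ)..1, mm u v (Ej j) s ≤ 648 * ej j := by
  have hn : (0 : ℝ) < nj j := by exact_mod_cast nj_pos j
  have hb : volume (Ej j) ≠ ⊤ := measure_ball_lt_top.ne
  have e := intervalIntegral.sum_integral_adjacent_intervals (f := mm u v (Ej j)) (μ := volume)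
    (a := fun k : ℕ => (k : ℝ) * ej j ^ 2) (n := nj j ^ 2) fun k _ => S.m_ii hb _ _
  have e1 : ((nj j ^ 2 : ℕ) : ℝ) * ej j ^ 2 = 1 := by
    rw [ej]; push_cast; field_simp
  simp only [Nat.cast_zero, zero_mul] at e
  rw [e1] at e
  rw [← e]
  calc _ ≤ ∑ _k ∈ Finset.range (nj j ^ 2), 648 * ej j ^ 3 := by
        refine Finset.sum_le_sum fun k _ => ?_
        have := S.window (cj j) (ej_pos j) (a := k * ej j ^ 2) (by positivity)
        rwa [show (k : ℝ) * ej j ^ 2 + ej j ^ 2 = ((k + 1 : ℕ) : ℝ) * ej j ^ 2 by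
          push_cast; ring] at this
    _ = 648 * ej j * (((nj j ^ 2 : ℕ) : ℝ) * ej j ^ 2) := by
        rw [Finset.sum_const, Finset.card_range, nsmul_eq_mul]; ring
    _ = _ := by rw [e1, mul_one]

lemma Sol.split {φ : E3 → ℝ} (hφ : Integrable φ) (s : ℝ) (J : ℕ) (Γ : ℕ → ℝ) (C : ℝ)
    (hΓ : ∀ j, 0 ≤ Γ j) (hC : 0 ≤ C)
    (h1 : ∀ᵐ y, y ∉ EE → φ y ≤ 0) (h2 : ∀ j < J, ∀ y ∈ Ej j, φ y ≤ Γ j * hh u v s y)
    (h3 : ∀ y, φ y ≤ C) :
    ∫ y, φ y ≤ ∑ j ∈ Finset.range J, Γ j * mm u v (Ej j) s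
      + C * volume.real (ball (0 : E3) (2 * (1 / 2) ^ J)) := by
  have i1 : ∀ j, Integrable ((Ej j).indicator fun y => Γ j * hh u v s y) := fun j =>
    (integrable_indicator_iff (meas_Ej j)).2 ((S.h_intOn s measure_ball_lt_top.ne).const_mul _)
  have i2 : Integrable ((ball (0 : E3) (2 * (1 / 2) ^ J)).indicator fun _ => C) :=
    (integrable_indicator_iff measurableSet_ball).2 (integrableOn_const measure_ball_lt_top.ne)
  have i3 : Integrable fun y => ∑ j ∈ Finset.range J,
      (Ej j).indicator (fun y => Γ j * hh u v s y) y := integrable_finsetSum _ fun j _ => i1 j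
  calc _ ≤ ∫ y, (∑ j ∈ Finset.range J, (Ej j).indicator (fun y => Γ j * hh u v s y) y
        + (ball (0 : E3) (2 * (1 / 2) ^ J)).indicator (fun _ => C) y) := by
        refine integral_mono_ae hφ (i3.add i2) ?_
        filter_upwards [h1] with y hy
        have n1 : ∀ j, 0 ≤ (Ej j).indicator (fun y => Γ j * hh u v s y) y := fun j =>
          indicator_nonneg (fun y _ => mul_nonneg (hΓ j) (S.h0 s y)) y
        have n2 : 0 ≤ ∑ j ∈ Finset.range J, (Ej j).indicator (fun y => Γ j * hh u v s y) y :=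
          Finset.sum_nonneg fun j _ => n1 j
        have n3 : 0 ≤ (ball (0 : E3) (2 * (1 / 2) ^ J)).indicator (fun _ => C) y :=
          indicator_nonneg (fun _ _ => hC) y
        by_cases hE : y ∈ EE
        · rcases EE_cases hE J with ⟨j, hj, hyj⟩ | hb
          · have := Finset.single_le_sum (f := fun j => (Ej j).indicator
              (fun y => Γ j * hh u v s y) y) (fun j _ => n1 j) (Finset.mem_range.2 hj)
            rw [indicator_of_mem hyj] at this
            linarith [h2 j hj y hyj]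
          · rw [indicator_of_mem hb]; linarith [h3 y]
        · linarith [hy hE]
    _ = _ := by
        rw [integral_add i3 i2, integral_finsetSum _ fun j _ => i1 j,
          integral_indicator_const _ measurableSet_ball, smul_eq_mul, mul_comm]
        congr 1
        refine Finset.sum_congr rfl fun j _ => ?_
        rw [integral_indicator (meas_Ej j), integral_const_mul, mm]

lemma Sol.int_split {ψ : ℝ → ℝ} {t : ℝ} (ht0 : 0 ≤ t) (ht1 : t ≤ 1)
    (hψ : IntervalIntegrable ψ volume 0 t) (J : ℕ) (Γ : ℕ → ℝ) (β γ : ℝ) (hΓ : ∀ j, 0 ≤ Γ j)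
    (hβ : 0 ≤ β) (hγ : ∀ j, Γ j * (648 * ej j) ≤ γ * (1 / 2) ^ j)
    (h : ∀ s ∈ Icc 0 t, ψ s ≤ ∑ j ∈ Finset.range J, Γ j * mm u v (Ej j) s + β) :
    ∫ s in (0 : ℝ)..t, ψ s ≤ 2 * γ + β := by
  have i1 : ∀ j, IntervalIntegrable (fun s => Γ j * mm u v (Ej j) s) volume 0 t := fun j =>
    (S.m_ii measure_ball_lt_top.ne _ _).const_mul _
  have i2 : IntervalIntegrable (fun s => ∑ j ∈ Finset.range J, Γ j * mm u v (Ej j) s) volume 0 t := by
    have := IntervalIntegrable.sum (Finset.range J) fun j _ => i1 j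
    rwa [show (∑ j ∈ Finset.range J, fun s => Γ j * mm u v (Ej j) s) =
      fun s => ∑ j ∈ Finset.range J, Γ j * mm u v (Ej j) s from
        funext fun s => Finset.sum_apply _ _ _] at this
  have hγ0 : 0 ≤ γ := by
    have h1 := hγ 0
    have h2 := mul_nonneg (hΓ 0) (mul_pos (by norm_num : (0 : ℝ) < 648) (ej_pos 0)).le
    simpa using h2.trans h1
  refine (intervalIntegral.integral_mono_on ht0 hψ (i2.add intervalIntegrable_const) h).trans ?_
  rw [intervalIntegral.integral_add i2 intervalIntegrable_const,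
    intervalIntegral.integral_finsetSum fun j _ => i1 j, intervalIntegral.integral_const,
    sub_zero, smul_eq_mul]
  have a1 : ∑ j ∈ Finset.range J, ∫ s in (0 : ℝ)..t, Γ j * mm u v (Ej j) s ≤
      ∑ j ∈ Finset.range J, γ * (1 / 2) ^ j := by
    refine Finset.sum_le_sum fun j _ => le_trans ?_ (hγ j)
    rw [intervalIntegral.integral_const_mul]
    refine mul_le_mul_of_nonneg_left (le_trans ?_ (S.total j)) (hΓ j)
    exact intervalIntegral.integral_mono_interval le_rfl ht0 ht1
      (Eventually.of_forall (S.m0 _)) (S.m_ii measure_ball_lt_top.ne _ _)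
  rw [← Finset.mul_sum] at a1
  have a2 := mul_le_mul_of_nonneg_left (geo_sum J) hγ0
  nlinarith

lemma Sol.mass : ∫ s in (0 : ℝ)..1, mm u v EE s ≤ 2 := by
  obtain ⟨J, hJ⟩ := small_ball (C := 4 * M ^ 2) (by positivity) one_pos
  have := S.int_split zero_le_one le_rfl (S.m_ii EE_fin 0 1) J (fun _ => 1) 1 (1 / 2)
    (fun _ => zero_le_one) zero_le_one (fun j => by
      rw [ej_eq]
      have : (1 / 16 : ℝ) ^ j ≤ (1 / 2) ^ j := by gcongr; norm_num
      have : (0 : ℝ) < (1 / 2) ^ j := by positivity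
      linarith) (fun s _ => by
      have h := S.split (φ := EE.indicator (hh u v s))
        ((integrable_indicator_iff meas_EE).2 (S.h_intOn s EE_fin)) s J (fun _ => 1) (4 * M ^ 2)
        (fun _ => zero_le_one) (by positivity)
        (Eventually.of_forall fun y hy => by rw [indicator_of_notMem hy])
        (fun j _ y _ => by
          rw [one_mul]; exact indicator_le_self' (fun y _ => S.h0 s y) y)
        (fun y => (indicator_le_self' (fun y _ => S.h0 s y) y).trans (S.hF s y))
      rw [integral_indicator meas_EE] at h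
      rw [mm]; linarith)
  linarith

lemma Sol.c_int (s : ℝ) (x : E3) : Integrable fun y => K (x - y) * u s y :=
  (K_int.comp_sub_left x).mul_bdd (S.mus s).aestronglyMeasurable (Eventually.of_forall (S.unorm s))

lemma Sol.c0 (s : ℝ) (x : E3) : 0 ≤ cc u s x :=
  integral_nonneg fun y => mul_nonneg (K_nonneg _) (S.un s y)

lemma Sol.cM (s : ℝ) (x : E3) : cc u s x ≤ M := by
  have h1 : cc u s x ≤ ∫ y, K (x - y) * M :=
    integral_mono (S.c_int s x) ((K_int.comp_sub_left x).mul_const _) fun y =>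
      mul_le_mul_of_nonneg_left (S.uM s y) (K_nonneg _)
  rw [integral_mul_const, integral_sub_left_eq_self K volume x, ← kk] at h1
  exact h1.trans (mul_le_of_le_one_left S.M0 (by linarith [kk_le]))

lemma Sol.r_bd (x : E3) (s : ℝ) : |rhs u v x s| ≤ 2 * M + 4 * M ^ 2 := by
  have a1 := S.c0 s x
  have a2 := S.cM s x
  have a3 := S.h0 s x
  have a4 := S.hF s x
  have a5 : 0 ≤ kk * u s x := mul_nonneg kk_nonneg (S.un s x)
  have a6 : kk * u s x ≤ M := (mul_le_of_le_one_left (S.un s x) (by linarith [kk_le])).trans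
    (S.uM s x)
  rw [rhs, abs_le]; constructor <;> linarith

lemma Sol.r_ii (x : E3) (a b : ℝ) : IntervalIntegrable (rhs u v x) volume a b := by
  have hm : Measurable (uncurry fun (s : ℝ) (y : E3) => K (x - y) * u s y) :=
    (K_smooth.continuous.measurable.comp (measurable_const.sub measurable_snd)).mul S.mu
  refine ii_of_bdd ?_ (S.r_bd x) a b
  exact ((hm.stronglyMeasurable.integral_prod_right).measurable.sub
    (S.mu.of_uncurry_right.const_mul _)).add S.mh.of_uncurry_right

lemma Sol.h_ii (x : E3) (a b : ℝ) : IntervalIntegrable (fun s => hh u v s x) volume a b :=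
  ii_of_bdd S.mh.of_uncurry_right (fun s => S.hnorm s x) a b

lemma Sol.incr {x : E3} (hx : Good u v x) {a b : ℝ} (ha : 0 ≤ a) (hb : 0 ≤ b) :
    u b x - u a x = ∫ s in a..b, rhs u v x s := by
  rw [(hx a ha).1, (hx b hb).1, ← intervalIntegral.integral_interval_sub_left (S.r_ii x 0 b)
    (S.r_ii x 0 a)]
  ring

lemma Sol.lip {x : E3} (hx : Good u v x) {a b : ℝ} (ha : 0 ≤ a) (hab : a ≤ b) :
    |u b x - u a x| ≤ (2 * M + 4 * M ^ 2) * (b - a) := by
  rw [S.incr hx ha (ha.trans hab)]
  have := intervalIntegral.norm_integral_le_of_norm_le_const (a := a) (b := b)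
    (f := rhs u v x) fun s _ => S.r_bd x s
  rwa [abs_of_nonneg (sub_nonneg.2 hab)] at this

omit S in
def HH (u v : ℝ → E3 → ℝ) (t : ℝ) : Prop :=
  ∀ y, Good u v y → y ∉ EE → ∀ s ∈ Icc 0 t, u s y ≤ 1

lemma Sol.c_le {t : ℝ} (H : HH u v t) {s : ℝ} (hs : s ∈ Icc 0 t) (x : E3) :
    cc u s x ≤ kap * (∫ y in EE, u s y) + kk := by
  have i1 : Integrable (EE.indicator fun y => kap * u s y) :=
    (integrable_indicator_iff meas_EE).2 ((S.u_intOn s EE_fin).const_mul _)
  have i2 : Integrable fun y => K (x - y) := K_int.comp_sub_left x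
  calc _ ≤ ∫ y, (EE.indicator (fun y => kap * u s y) y + K (x - y)) := by
        refine integral_mono_ae (S.c_int s x) (i1.add i2) ?_
        filter_upwards [S.good] with y hy
        have := K_nonneg (x - y)
        by_cases hE : y ∈ EE
        · rw [indicator_of_mem hE]
          have := mul_le_mul_of_nonneg_right (K_le (x - y)) (S.un s y)
          linarith
        · rw [indicator_of_notMem hE, zero_add]
          exact mul_le_of_le_one_right this (H y hy hE s hs)
    _ = _ := by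
        rw [integral_add i1 i2, integral_indicator meas_EE, integral_const_mul,
          integral_sub_left_eq_self K volume x, kk]

lemma Sol.c_half {t : ℝ} (ht0 : 0 ≤ t) (ht1 : t ≤ 1) (H : HH u v t) {s : ℝ} (hs : s ∈ Icc 0 t)
    (x : E3) : cc u s x ≤ 1 / 2 := by
  set U : ℝ → ℝ := fun s => ∫ y in EE, u s y with hU
  have hbdd : BddAbove (U '' Icc 0 t) := by
    refine ⟨M * volume.real EE, ?_⟩
    rintro _ ⟨s, -, rfl⟩
    exact (le_abs_self _).trans
      (norm_setIntegral_le_of_norm_le_const EE_fin.lt_top fun y _ => S.unorm s y)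
  set B := sSup (U '' Icc 0 t) with hB
  have hUB : ∀ s ∈ Icc 0 t, U s ≤ B := fun s hs => le_csSup hbdd ⟨s, hs, rfl⟩
  have hB0 : 0 ≤ B := le_trans (integral_nonneg (S.un 0)) (hUB 0 ⟨le_rfl, ht0⟩)
  have hc : ∀ s ∈ Icc 0 t, ∀ x, cc u s x ≤ kap * B + kk := fun s hs x =>
    (S.c_le H hs x).trans (by
      have := mul_le_mul_of_nonneg_left (hUB s hs) kap_pos.le
      linarith)
  have hk0 : 0 ≤ kap * B + kk := add_nonneg (mul_nonneg kap_pos.le hB0) kk_nonneg
  have : IsFiniteMeasure (volume.restrict EE) := isFiniteMeasure_restrict.2 EE_fin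
  have hprod : Integrable (uncurry fun (y : E3) (r : ℝ) => hh u v r y)
      ((volume.restrict EE).prod (volume.restrict (Ioc (0 : ℝ) 1))) :=
    Integrable.of_bound (S.mh.comp measurable_swap).aestronglyMeasurable (4 * M ^ 2)
      (Eventually.of_forall fun p => S.hnorm _ _)
  have hswap : ∫ y in EE, ∫ r in (0 : ℝ)..1, hh u v r y ≤ 2 := by
    simp only [intervalIntegral.integral_of_le zero_le_one]
    rw [integral_integral_swap hprod, ← intervalIntegral.integral_of_le zero_le_one]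
    exact S.mass
  have iW : IntegrableOn (fun y => ∫ r in (0 : ℝ)..1, hh u v r y) EE := by
    simp only [intervalIntegral.integral_of_le zero_le_one]
    exact hprod.integral_prod_left
  have hle : B ≤ (3 + (kap * B + kk)) * VV + 2 := by
    refine csSup_le ⟨_, ⟨0, ⟨le_rfl, ht0⟩, rfl⟩⟩ ?_
    rintro _ ⟨s, hs, rfl⟩
    calc U s ≤ ∫ y in EE, ((3 + (kap * B + kk)) + ∫ r in (0 : ℝ)..1, hh u v r y) := by
          refine integral_mono_ae (S.u_intOn s EE_fin) ((integrable_const _).add iW) ?_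
          filter_upwards [ae_restrict_of_ae S.good] with y hy
          have b1 : u0 y ≤ 3 :=
            indicator_le_self' (s := EE) (f := fun _ => (3 : ℝ)) (fun _ _ => by norm_num) y
          have b2 : ∫ r in (0 : ℝ)..s, rhs u v y r ≤
              ∫ r in (0 : ℝ)..s, ((kap * B + kk) + hh u v r y) := by
            refine intervalIntegral.integral_mono_on hs.1 (S.r_ii y _ _)
              (intervalIntegrable_const.add (S.h_ii y _ _)) fun r hr => ?_
            have := hc r ⟨hr.1, hr.2.trans hs.2⟩ y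
            have := mul_nonneg kk_nonneg (S.un r y)
            rw [rhs]; linarith
          rw [intervalIntegral.integral_add intervalIntegrable_const (S.h_ii y _ _),
            intervalIntegral.integral_const, sub_zero, smul_eq_mul] at b2
          have b3 : ∫ r in (0 : ℝ)..s, hh u v r y ≤ ∫ r in (0 : ℝ)..1, hh u v r y :=
            intervalIntegral.integral_mono_interval le_rfl hs.1 (hs.2.trans ht1)
              (Eventually.of_forall fun r => S.h0 r y) (S.h_ii y _ _)
          have b4 : s * (kap * B + kk) ≤ kap * B + kk :=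
            mul_le_of_le_one_left hk0 (hs.2.trans ht1)
          rw [(hy s hs.1).1]; linarith
      _ = (3 + (kap * B + kk)) * volume.real EE + ∫ y in EE, ∫ r in (0 : ℝ)..1, hh u v r y := by
          rw [integral_add (integrable_const _) iW, setIntegral_const, smul_eq_mul, mul_comm]
      _ ≤ _ := by
          have := mul_le_mul_of_nonneg_left EE_vol (show 0 ≤ 3 + (kap * B + kk) by linarith)
          linarith
  refine (hc s hs x).trans ?_
  have k1 := kap_V
  have k2 := kk_le
  have k3 := kap_pos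
  have k4 := VV_nonneg
  have k5 := kk_nonneg
  have k6 := mul_le_mul_of_nonneg_left hle k3.le
  have k7 : kap * VV ≤ 1 / 100 := by nlinarith
  have k8 : kap ≤ 1 / 100 := by nlinarith
  have k9 : (3 + (kap * B + kk)) * (kap * VV) ≤ (3 + (kap * B + kk)) * (1 / 100) :=
    mul_le_mul_of_nonneg_left k7 (by linarith)
  nlinarith

lemma Sol.improve {t : ℝ} (ht0 : 0 ≤ t) (ht1 : t ≤ 1) (H : HH u v t) {y : E3} (hy : Good u v y)
    (hE : y ∉ EE) {s : ℝ} (hs : s ∈ Icc 0 t) : u s y ≤ 1 / 2 := by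
  have b2 : ∫ r in (0 : ℝ)..s, rhs u v y r ≤ ∫ _r in (0 : ℝ)..s, (1 / 2 : ℝ) := by
    refine intervalIntegral.integral_mono_on hs.1 (S.r_ii y _ _) intervalIntegrable_const
      fun r hr => ?_
    have hr' : r ∈ Icc 0 t := ⟨hr.1, hr.2.trans hs.2⟩
    have := S.c_half ht0 ht1 H hr' y
    have := mul_nonneg kk_nonneg (S.un r y)
    rw [rhs, hh, ff_low (H y hy hE r hr')]; linarith
  rw [intervalIntegral.integral_const, sub_zero, smul_eq_mul] at b2
  rw [(hy s hs.1).1, u0, indicator_of_notMem hE]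
  linarith [hs.2]

omit S in
lemma step_ind {P : ℝ → Prop} {L : ℝ} (hL : 0 ≤ L) (h0 : P 0)
    (hs : ∀ t η, 0 ≤ t → t ≤ 1 → 0 ≤ η → L * η ≤ 1 / 2 → P t → P (t + η)) : P 1 := by
  obtain ⟨n, hn⟩ := exists_nat_gt (2 * L + 1)
  have hn0 : (0 : ℝ) < n := by linarith
  have key : ∀ i : ℕ, i ≤ n → P (i / n) := by
    intro i
    induction i with
    | zero => intro _; simpa using h0
    | succ i ih =>
      intro hi
      have hi' : (i : ℝ) ≤ n := by exact_mod_cast (Nat.le_succ i).trans hi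
      have := hs (i / n) (1 / n) (by positivity) (by rwa [div_le_one hn0]) (by positivity)
        (by rw [mul_one_div, div_le_iff₀ hn0]; linarith) (ih ((Nat.le_succ i).trans hi))
      rwa [show (i : ℝ) / n + 1 / n = ((i + 1 : ℕ) : ℝ) / n by push_cast; ring] at this
  have := key n le_rfl
  rwa [div_self hn0.ne'] at this

lemma Sol.H1 : HH u v 1 := by
  have hM := S.M0
  refine step_ind (P := HH u v) (L := 2 * M + 4 * M ^ 2) (by positivity) ?_ ?_
  · intro y hy hE s hs
    have : s = 0 := le_antisymm hs.2 hs.1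
    rw [this, (hy 0 le_rfl).1, u0, indicator_of_notMem hE]; simp
  · intro t η ht0 ht1 hη hL H y hy hE s hs
    by_cases hst : s ≤ t
    · exact H y hy hE s ⟨hs.1, hst⟩
    · push Not at hst
      have a1 := S.improve ht0 ht1 H hy hE ⟨ht0, le_rfl⟩
      have a2 := (abs_le.1 (S.lip hy ht0 hst.le)).2
      have a3 : (2 * M + 4 * M ^ 2) * (s - t) ≤ (2 * M + 4 * M ^ 2) * η := by
        gcongr; linarith [hs.2]
      linarith

lemma Sol.v_half : ∃ J : ℕ, ∀ x ∈ Ej J, Good u v x → ∀ t ∈ Icc (0 : ℝ) 1, 1 / 2 ≤ v t x := by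
  set F := 4 * M ^ 2 with hF
  have hF0 : 0 ≤ F := by positivity
  set δ := 1 / (8 * (F + 1)) with hδ
  have hδ0 : 0 < δ := by positivity
  have hFδ : F * δ ≤ 1 / 8 := by
    rw [hδ, mul_one_div, div_le_iff₀ (by positivity)]; linarith
  obtain ⟨J, hJ⟩ := small_ball (C := 1 / (√δ) ^ 3 * F) (η := 1 / 8) (by positivity) (by norm_num)
  refine ⟨J, fun x hx hg t ht => ?_⟩
  have crude : ∀ a b : ℝ, a ≤ b → b - a ≤ δ → ∫ s in a..b, II u v t x s ≤ 1 / 8 := by
    intro a b hab hd
    have := intervalIntegral.integral_mono_on hab (S.I_ii t x a b) intervalIntegrable_const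
      fun s _ => S.IF t x s
    rw [intervalIntegral.integral_const, smul_eq_mul] at this
    nlinarith
  rw [(hg t ht.1).2]
  by_cases htδ : t ≤ δ
  · linarith [crude 0 t ht.1 (by linarith)]
  push Not at htδ
  have a1 := crude (t - δ) t (by linarith) (by linarith)
  have a2 := S.int_split (t := t - δ) (by linarith) (by linarith [ht.2]) (S.I_ii t x 0 (t - δ)) J
    (fun j => 1 / ((1 / 2) ^ j / 4) ^ 3) (1 / 8) (1 / 16) (fun j => by positivity) (by norm_num)
    (fun j => by
      rw [ej_eq, show (1 / 16 : ℝ) = (1 / 2) ^ 4 by norm_num, ← pow_mul, mul_comm 4 j, pow_mul]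
      have : (0 : ℝ) < (1 / 2) ^ j := by positivity
      generalize (1 / 2 : ℝ) ^ j = a at *
      rw [show 1 / (a / 4) ^ 3 * (648 * (a ^ 4 / 2 ^ 20)) = 64 * 648 / 2 ^ 20 * a by field_simp; ring]
      nlinarith)
    (fun s hs => by
      have h := S.split (S.I_int t x s) s J (fun j => 1 / ((1 / 2) ^ j / 4) ^ 3)
        (1 / (√δ) ^ 3 * F) (fun j => by positivity) (by positivity) (by
          filter_upwards [S.good] with y hy hE
          rw [hh, ff_low (S.H1 y hy hE s ⟨hs.1, by linarith [hs.2, ht.2]⟩)]; simp)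
        (fun j hj y hy => mul_le_mul_of_nonneg_right
          (G_far _ (by positivity) (Ej_far hj hx hy)) (S.h0 s y))
        (fun y => mul_le_mul (G_late hδ0 (by linarith [hs.2]) _) (S.hF s y) (S.h0 s y)
          (by positivity))
      rw [II]; linarith)
  rw [← intervalIntegral.integral_add_adjacent_intervals (S.I_ii t x 0 (t - δ))
    (S.I_ii t x (t - δ) t)]
  linarith

lemma Sol.false : False := by
  obtain ⟨J, hJ⟩ := S.v_half
  obtain ⟨x, hx, hg⟩ := S.exists_good (cj J) (ej_pos J)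
  have hv := hJ x hx hg
  have hM := S.M0
  have hr : ∀ s ∈ Icc (0 : ℝ) 1, 2 ≤ u s x → u s x ^ 2 ≤ rhs u v x s := by
    intro s hs h2
    have a1 := S.c0 s x
    have a2 := hv s hs
    have a3 : kk * u s x ≤ u s x := mul_le_of_le_one_left (S.un s x) (by linarith [kk_le])
    rw [rhs, hh, ff_high h2]
    nlinarith [mul_le_mul_of_nonneg_right a2 (sq_nonneg (u s x))]
  have grow : ∀ a b c : ℝ, 0 ≤ a → a ≤ b → b ≤ 1 → 2 ≤ c → (∀ s ∈ Icc a b, c ≤ u s x) →
      u a x + (b - a) * c ^ 2 ≤ u b x := by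
    intro a b c ha hab hb hc h
    have := intervalIntegral.integral_mono_on hab intervalIntegrable_const (S.r_ii x a b)
      (f := fun _ => c ^ 2) fun s hs => by
        refine le_trans ?_ (hr s ⟨ha.trans hs.1, hs.2.trans hb⟩ (hc.trans (h s hs)))
        have := h s hs
        gcongr
    rw [← S.incr hg ha (ha.trans hab), intervalIntegral.integral_const, smul_eq_mul] at this
    linarith
  have h3 : ∀ s ∈ Icc (0 : ℝ) (min 1 1), 3 ≤ u s x := by
    refine step_ind (P := fun t => ∀ s ∈ Icc (0 : ℝ) (min t 1), 3 ≤ u s x)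
      (L := 2 * M + 4 * M ^ 2) (by positivity) ?_ ?_
    · intro s hs
      have : s = 0 := le_antisymm (hs.2.trans (min_le_left _ _)) hs.1
      have hE : x ∈ EE := mem_iUnion.2 ⟨J, hx⟩
      rw [this, (hg 0 le_rfl).1, u0, indicator_of_mem hE]; simp
    · intro t η ht0 ht1 hη hL H s hs
      by_cases hst : s ≤ t
      · exact H s ⟨hs.1, le_min hst (hs.2.trans (min_le_right _ _))⟩
      · push Not at hst
        have a1 := H t ⟨ht0, le_min le_rfl ht1⟩
        have a2 := grow t s 2 ht0 hst.le (hs.2.trans (min_le_right _ _)) le_rfl fun r hr => by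
          have b2 := (abs_le.1 (S.lip hg ht0 hr.1)).1
          have b3 : (2 * M + 4 * M ^ 2) * (r - t) ≤ (2 * M + 4 * M ^ 2) * η := by
            gcongr; linarith [hr.2, hs.2.trans (min_le_left _ _)]
          linarith
        nlinarith
  rw [min_self] at h3
  have mono : ∀ a b : ℝ, 0 ≤ a → a ≤ b → b ≤ 1 → u a x ≤ u b x := by
    intro a b ha hab hb
    have := grow a b 2 ha hab hb le_rfl fun s hs => by
      linarith [h3 s ⟨ha.trans hs.1, hs.2.trans hb⟩]
    nlinarith
  have dbl : ∀ n : ℕ, (2 : ℝ) ^ (n + 1) ≤ u (1 - (1 / 2) ^ n) x := by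
    intro n
    induction n with
    | zero => simp; linarith [h3 0 ⟨le_rfl, zero_le_one⟩]
    | succ n ih =>
      have p0 : (0 : ℝ) < (1 / 2) ^ n := by positivity
      have p1 : (1 / 2 : ℝ) ^ n ≤ 1 := pow_le_one₀ (by norm_num) (by norm_num)
      have p2 : (2 : ℝ) ≤ 2 ^ (n + 1) := le_self_pow₀ (by norm_num) (by omega)
      have p3 : (1 / 2 : ℝ) ^ n * 2 ^ n = 1 := by rw [← mul_pow]; norm_num
      have := grow (1 - (1 / 2) ^ n) (1 - (1 / 2) ^ (n + 1)) (2 ^ (n + 1)) (by linarith)
        (by rw [pow_succ]; linarith) (by rw [pow_succ]; linarith) p2 fun s hs =>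
          ih.trans (mono _ _ (by linarith) hs.1 (hs.2.trans (by rw [pow_succ]; linarith)))
      have e : (1 - (1 / 2 : ℝ) ^ (n + 1) - (1 - (1 / 2) ^ n)) * (2 ^ (n + 1)) ^ 2 =
          2 ^ (n + 1) * ((1 / 2) ^ n * 2 ^ n) := by ring
      rw [e, p3] at this
      rw [pow_succ]; linarith
  obtain ⟨n, hn⟩ := pow_unbounded_of_one_lt M (show (1 : ℝ) < 2 by norm_num)
  have := (dbl n).trans (S.uM _ x)
  rw [pow_succ] at this
  have : (0 : ℝ) < 2 ^ n := by positivity
  linarith

end Pool.Agent.Lib.Helper21.React2
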