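import Mathlib

/-! A logically regular variety that is not logically perfect.
Unary operations `en b` (the two ends of an edge) and `g b j` (the `j`-th outgoing or incoming edge at an end). -/

set_option autoImplicit false

namespace Pool.Agent.Lib.Helper21.RegPerf

open FirstOrder FirstOrder.Language

inductive Fn : ℕ → Type
  | en (b : Bool) : Fn 1
  | g (b : Bool) (j : ℕ) : Fn 1

abbrev L : FirstOrder.Language.{0, 0} := ⟨Fn, fun _ => Empty⟩

def ap {α : Type} (f : Fn 1) (t : L.Term α) : L.Term α := Term.func (L := L) f ![t]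

def x0 : L.Term (Fin 1) := Term.var 0

def E : Set (Σ n : ℕ, L.Term (Fin n) × L.Term (Fin n)) :=
  {e | (∃ b b', e = ⟨1, ap (.en b) (ap (.en b') x0), ap (.en b') x0⟩) ∨
       (∃ b j, e = ⟨1, ap (.en b) (ap (.g b j) x0), ap (.en b) x0⟩) ∨
       (∃ b j, e = ⟨1, ap (.g b j) (ap (.en b) x0), ap (.g b j) x0⟩)}

def op {M : Type} [L.Structure M] (f : Fn 1) (x : M) : M := Structure.funMap (L := L) f ![x]

lemma realize_ap {M α : Type} [L.Structure M] (f : Fn 1) (t : L.Term α) (v : α → M) :
    (ap f t).realize v = op f (t.realize v) := by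
  unfold ap op
  rw [Term.realize_func]
  congr 1
  funext i
  fin_cases i
  rfl

lemma funMap_eq {M : Type} [L.Structure M] (f : Fn 1) (x : Fin 1 → M) :
    Structure.funMap (L := L) f x = op f (x 0) := by
  unfold op
  congr 1
  funext i
  fin_cases i
  rfl

def Mod (M : Type) [L.Structure M] : Prop :=
  ∀ e ∈ E, ∀ v : Fin e.1 → M, e.2.1.realize v = e.2.2.realize v

lemma mod_iff (M : Type) [L.Structure M] : Mod M ↔
    (∀ b b' (x : M), op (.en b) (op (.en b') x) = op (.en b') x) ∧
    (∀ b j (x : M), op (.en b) (op (.g b j) x) = op (.en b) x) ∧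
    (∀ b j (x : M), op (.g b j) (op (.en b) x) = op (.g b j) x) := by
  constructor
  · intro h
    refine ⟨fun b b' x => ?_, fun b j x => ?_, fun b j x => ?_⟩
    · have := h _ (Or.inl ⟨b, b', rfl⟩) (fun _ => x)
      simpa only [realize_ap, x0, Term.realize_var] using this
    · have := h _ (Or.inr (Or.inl ⟨b, j, rfl⟩)) (fun _ => x)
      simpa only [realize_ap, x0, Term.realize_var] using this
    · have := h _ (Or.inr (Or.inr ⟨b, j, rfl⟩)) (fun _ => x)
      simpa only [realize_ap, x0, Term.realize_var] using this
  · rintro ⟨h1, h2, h3⟩ e (⟨b, b', rfl⟩ | ⟨b, j, rfl⟩ | ⟨b, j, rfl⟩) v <;>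
      simp only [realize_ap, x0, Term.realize_var, h1, h2, h3]

lemma hom_op {M N : Type} [L.Structure M] [L.Structure N] (k : L.Hom M N) (f : Fn 1) (x : M) :
    k (op f x) = op f (k x) := by
  unfold op
  rw [k.map_fun]
  congr 1
  funext i
  fin_cases i
  rfl

/-! ### separability -/

abbrev trivStr (n : ℕ) : L.Structure (Option (Fin n)) where
  funMap := fun _ _ => none
  RelMap := fun r _ => r.elim

lemma gen (n : ℕ) (F : Type) [L.Structure F] (ι : Fin n → F) (hF : Mod F)
    (hfree : ∀ (M : Type) [L.Structure M], Mod M → ∀ f : Fin n → M, ∃! h : L.Hom F M, ⇑h ∘ ι = f) (x : F) :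
    ∃ t : L.Term (Fin n), t.realize ι = x := by
  let S : L.Substructure F :=
    { carrier := {x | ∃ t : L.Term (Fin n), t.realize ι = x}
      fun_mem := by
        intro k f y hy
        choose t ht using hy
        exact ⟨Term.func f t, by rw [Term.realize_func]; congr 1; funext i; exact ht i⟩ }
  have hS : Mod S := by
    intro e he v
    apply Subtype.ext
    have h1 := HomClass.realize_term (L := L) S.subtype (t := e.2.1) (v := v)
    have h2 := HomClass.realize_term (L := L) S.subtype (t := e.2.2) (v := v)
    have := hF e he (S.subtype ∘ v)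
    rw [h1, h2] at this
    exact this
  obtain ⟨k, hk, -⟩ := hfree S hS (fun i => ⟨ι i, Term.var i, rfl⟩)
  obtain ⟨k0, -, hu⟩ := hfree F hF ι
  have e1 := hu (S.subtype.toHom.comp k) (by
    funext i
    have := congrFun hk i
    simp only [Function.comp] at this ⊢
    rw [Hom.comp_apply, this]; rfl)
  have e2 := hu (Hom.id L F) rfl
  have : (S.subtype.toHom.comp k) x = x := by rw [e1, ← e2]; rfl
  rw [← this]
  exact (k x).2

def notIm {m : ℕ} (i : Fin m) (f : Fn 1) : L.Formula (Fin m) :=
  (BoundedFormula.ex (Term.bdEqual (Term.var (Sum.inl i)) (ap f (Term.var (Sum.inr 0))))).not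

lemma realize_notIm {M : Type} [L.Structure M] {m : ℕ} (i : Fin m) (f : Fn 1) (a : Fin m → M) :
    (notIm i f).Realize a ↔ ¬ ∃ y, a i = op f y := by
  unfold notIm Formula.Realize
  simp only [BoundedFormula.realize_not, BoundedFormula.realize_ex, BoundedFormula.realize_bdEqual,
    realize_ap, Term.realize_var, Sum.elim_inl, Sum.elim_inr]
  rfl

lemma transfer (F H : Type) [L.Structure F] [L.Structure H]
    (hT : ∀ (m : ℕ) (T : Set (L.Formula (Fin m))),
            {φ : L.Formula (Fin m) | ∀ a : Fin m → F, (∀ ψ ∈ T, ψ.Realize a) → φ.Realize a} =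
            {φ : L.Formula (Fin m) | ∀ a : Fin m → H, (∀ ψ ∈ T, ψ.Realize a) → φ.Realize a})
    (m : ℕ) (a : Fin m → F) : ∃ b : Fin m → H, ∀ ψ : L.Formula (Fin m), ψ.Realize a → ψ.Realize b := by
  by_contra hc
  push Not at hc
  have h := hT m {ψ | ψ.Realize a}
  have h1 : (⊥ : L.Formula (Fin m)) ∈
      {φ : L.Formula (Fin m) | ∀ b : Fin m → H, (∀ ψ ∈ {ψ : L.Formula (Fin m) | ψ.Realize a}, ψ.Realize b) → φ.Realize b} := by
    intro b hb
    obtain ⟨ψ, h1, h2⟩ := hc b
    exact absurd (hb ψ h1) h2
  rw [← h] at h1
  exact (Formula.realize_bot (v := a)).1 (h1 a (fun ψ hψ => hψ))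

theorem separable (n : ℕ) (F : Type) [L.Structure F] (ι : Fin n → F) (hF : Mod F)
    (hfree : ∀ (M : Type) [L.Structure M], Mod M → ∀ f : Fin n → M, ∃! h : L.Hom F M, ⇑h ∘ ι = f)
    (H : Type) [L.Structure H] (hH : Mod H)
    (hT : ∀ (m : ℕ) (T : Set (L.Formula (Fin m))),
            {φ : L.Formula (Fin m) | ∀ a : Fin m → F, (∀ ψ ∈ T, ψ.Realize a) → φ.Realize a} =
            {φ : L.Formula (Fin m) | ∀ a : Fin m → H, (∀ ψ ∈ T, ψ.Realize a) → φ.Realize a}) :
    Nonempty (L.Equiv F H) := by
  have hgen := gen n F ι hF hfree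
  let := trivStr n
  obtain ⟨k0, hk0, -⟩ := hfree (Option (Fin n)) ((mod_iff _).2 ⟨fun _ _ _ => rfl, fun _ _ _ => rfl, fun _ _ _ => rfl⟩) some
  have hinj : Function.Injective ι := by
    intro i j h
    have h1 := congrFun hk0 i
    have h2 := congrFun hk0 j
    simp only [Function.comp] at h1 h2
    rw [h, h2] at h1
    exact (Option.some_injective _ h1).symm
  have hnot : ∀ i f, ¬ ∃ y, ι i = op f y := by
    rintro i f ⟨y, hy⟩
    have h1 := congrFun hk0 i
    simp only [Function.comp] at h1
    rw [hy, hom_op] at h1
    exact absurd h1 (by show none ≠ some i; simp)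
  have hconv : ∀ x : F, (∀ f, ¬ ∃ y, x = op f y) → ∃ i, ι i = x := by
    intro x hx
    obtain ⟨t, rfl⟩ := hgen x
    cases t with
    | var i => exact ⟨i, rfl⟩
    | func f ts =>
      exfalso
      cases f with
      | en b => exact hx (.en b) ⟨_, by rw [Term.realize_func]; exact funMap_eq _ _⟩
      | g b j => exact hx (.g b j) ⟨_, by rw [Term.realize_func]; exact funMap_eq _ _⟩
  obtain ⟨b, hb⟩ := transfer F H hT n ι
  obtain ⟨k, hk, -⟩ := hfree H hH b
  have hkt : ∀ t : L.Term (Fin n), k (t.realize ι) = t.realize b := by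
    intro t
    rw [← HomClass.realize_term k, hk]
  have kinj : Function.Injective k := by
    intro x y hxy
    obtain ⟨t, rfl⟩ := hgen x
    obtain ⟨u, rfl⟩ := hgen y
    rw [hkt, hkt] at hxy
    by_contra hne
    have := hb (Term.equal t u).not (by simpa using hne)
    simp at this
    exact this hxy
  have ksurj : Function.Surjective k := by
    intro y
    obtain ⟨a, ha⟩ := transfer H F (fun m T => (hT m T).symm) (n + 1) (Fin.snoc b y)
    have h1 : ∀ i : Fin n, ∃ j, ι j = a i.castSucc := by
      intro i
      apply hconv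
      intro f
      rw [← realize_notIm]
      apply ha
      rw [realize_notIm, Fin.snoc_castSucc, ← realize_notIm]
      apply hb
      rw [realize_notIm]
      exact hnot i f
    choose π hπ using h1
    have hπi : Function.Injective π := by
      intro i j hij
      by_contra hne
      have e1 := hb (Term.equal (Term.var i) (Term.var j)).not (by simpa using fun h => hne (hinj h))
      have e2 := ha (Term.equal (Term.var i.castSucc) (Term.var j.castSucc)).not (by simpa using e1)
      simp only [Formula.realize_not, Formula.realize_equal, Term.realize_var] at e2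
      exact e2 (by rw [← hπ, ← hπ, hij])
    have hπs : Function.Surjective π := Finite.surjective_of_injective hπi
    choose ρ hρ using hπs
    obtain ⟨t, ht⟩ := hgen (a (Fin.last n))
    refine ⟨(t.relabel ρ).realize ι, ?_⟩
    rw [hkt]
    by_contra hne
    have e2 := ha (Term.equal (t.relabel (fun i => (ρ i).castSucc)) (Term.var (Fin.last n))).not (by
      simp only [Formula.realize_not, Formula.realize_equal, Term.realize_var, Term.realize_relabel, Fin.snoc_last] at hne ⊢
      intro h
      apply hne
      rw [← h]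
      congr 1
      funext i
      simp)
    simp only [Formula.realize_not, Formula.realize_equal, Term.realize_var, Term.realize_relabel] at e2
    apply e2
    rw [← ht]
    congr 1
    funext i
    simp only [Function.comp]
    rw [← hπ, hρ]
  exact ⟨{ toEquiv := Equiv.ofBijective k ⟨kinj, ksurj⟩
           map_fun' := fun f x => k.map_fun f x
           map_rel' := fun r _ => r.elim }⟩

/-! ### the free algebra on one generator -/

inductive V : Type
  | root (b : Bool)
  | ch (b : Bool) (j : ℕ) (v : V)
  deriving DecidableEq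

inductive W : Type
  | vt (v : V)
  | a
  | e (b : Bool) (j : ℕ) (v : V)

def enV (b : Bool) : W → V
  | .vt v => v
  | .a => .root b
  | .e b' j v => if b = b' then v else .ch b' j v

def opW : Fn 1 → W → W
  | .en b, x => .vt (enV b x)
  | .g b j, x => .e b j (enV b x)

instance : L.Structure W where
  funMap := fun {n} f x => match n, f with
    | _, .en b => opW (.en b) (x 0)
    | _, .g b j => opW (.g b j) (x 0)
  RelMap := fun r _ => r.elim

lemma op_W (f : Fn 1) (x : W) : op f x = opW f x := by
  cases f <;> rfl

lemma modW : Mod W := by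
  rw [mod_iff]
  refine ⟨fun b b' x => ?_, fun b j x => ?_, fun b j x => ?_⟩ <;> simp [op_W, opW, enV]

def hv {M : Type} [L.Structure M] (m : M) : V → M
  | .root b => op (.en b) m
  | .ch b j v => op (.en (!b)) (op (.g b j) (hv m v))

def hw {M : Type} [L.Structure M] (m : M) : W → M
  | .vt v => hv m v
  | .a => m
  | .e b j v => op (.g b j) (hv m v)

lemma freeW (M : Type) [L.Structure M] (hM : Mod M) (f : Fin 1 → M) :
    ∃! h : L.Hom W M, ⇑h ∘ (fun _ : Fin 1 => W.a) = f := by
  obtain ⟨h1, h2, h3⟩ := (mod_iff M).1 hM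
  have hvv : ∀ b v, op (.en b) (hv (f 0) v) = hv (f 0) v := by
    intro b v
    cases v <;> simp [hv, h1]
  have hen : ∀ b x, hv (f 0) (enV b x) = op (.en b) (hw (f 0) x) := by
    intro b x
    cases x with
    | vt v => simp [enV, hw, hvv]
    | a => rfl
    | e b' j v =>
      by_cases hb : b = b'
      · subst hb; simp [enV, hw, h2, hvv]
      · have : b = !b' := by cases b <;> cases b' <;> simp_all
        subst this
        simp [enV, hw, hv]
  have hop : ∀ (g : Fn 1) x, hw (f 0) (opW g x) = op g (hw (f 0) x) := by
    intro g x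
    cases g with
    | en b => exact hen b x
    | g b j =>
      show op (.g b j) (hv (f 0) (enV b x)) = _
      rw [hen, h3]
  refine ⟨⟨hw (f 0), ?_, fun r _ => r.elim⟩, ?_, ?_⟩
  · intro n g x
    cases g with
    | en b => rw [funMap_eq, funMap_eq, op_W, hop]; rfl
    | g b j => rw [funMap_eq, funMap_eq, op_W, hop]; rfl
  · funext i
    fin_cases i
    rfl
  · intro k hk
    have ka : k W.a = f 0 := congrFun hk 0
    have kv : ∀ v, k (.vt v) = hv (f 0) v := by
      intro v
      induction v with
      | root b =>
        have : W.vt (.root b) = op (.en b) W.a := by rw [op_W]; rfl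
        rw [this, hom_op, ka]; rfl
      | ch b j v ih =>
        have : W.vt (.ch b j v) = op (.en (!b)) (op (.g b j) (W.vt v)) := by
          simp [op_W, opW, enV]
        rw [this, hom_op, hom_op, ih]; rfl
    ext x
    show k x = hw (f 0) x
    cases x with
    | vt v => exact kv v
    | a => exact ka
    | e b j v =>
      have : W.e b j v = op (.g b j) (W.vt v) := by simp [op_W, opW, enV]
      rw [this, hom_op, kv, ← this]; rfl

def sV (N : ℕ) (s : Bool) : V → V
  | .root b => if b = s then .root (!s) else .ch s N (.root (!s))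
  | .ch b j v =>
    if v = .root s then
      (if b = s then .ch s (if j < N then j else j + 1) (.root (!s))
       else if j < N then .ch b j (.root (!s)) else if j = N then .root s else .ch b (j - 1) (.root (!s)))
    else .ch b j (sV N s v)

def sW (N : ℕ) (s : Bool) : W → W
  | .vt v => .vt (sV N s v)
  | .a => .e s N (.root (!s))
  | .e b j v =>
    if v = .root s then
      (if b = s then .e s (if j < N then j else j + 1) (.root (!s))
       else if j < N then .e b j (.root (!s)) else if j = N then .a else .e b (j - 1) (.root (!s)))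
    else .e b j (sV N s v)

lemma sV_inv (N : ℕ) (s : Bool) (v : V) : sV N (!s) (sV N s v) = v := by
  induction v with
  | root b => cases b <;> cases s <;> simp [sV]
  | ch b j v ih =>
    by_cases hv : v = .root s
    · subst hv
      rcases lt_trichotomy j N with h | h | h
      · cases b <;> cases s <;> simp [sV, h]
      · subst h
        cases b <;> cases s <;> simp [sV]
      · have e1 : ¬ j < N := by omega
        have e2 : ¬ j = N := by omega
        have e3 : ¬ j + 1 < N := by omega
        have e4 : ¬ j + 1 = N := by omega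
        have e5 : ¬ j - 1 < N := by omega
        have e6 : j - 1 + 1 = j := by omega
        cases b <;> cases s <;> simp [sV, e1, e2, e3, e4, e5, e6]
    · have h2 : sV N s v ≠ .root (!s) := by
        intro h
        rw [h] at ih
        apply hv
        rw [← ih]
        simp [sV]
      simp only [sV, if_neg hv, if_neg h2, ih]

lemma sW_inv (N : ℕ) (s : Bool) (x : W) : sW N (!s) (sW N s x) = x := by
  cases x with
  | vt v => simp [sW, sV_inv]
  | a => cases s <;> simp [sW]
  | e b j v =>
    by_cases hv : v = .root s
    · subst hv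
      rcases lt_trichotomy j N with h | h | h
      · cases b <;> cases s <;> simp [sW, h]
      · subst h
        cases b <;> cases s <;> simp [sW]
      · have e1 : ¬ j < N := by omega
        have e2 : ¬ j = N := by omega
        have e3 : ¬ j + 1 < N := by omega
        have e4 : ¬ j + 1 = N := by omega
        have e5 : ¬ j - 1 < N := by omega
        have e6 : j - 1 + 1 = j := by omega
        cases b <;> cases s <;> simp [sW, e1, e2, e3, e4, e5, e6]
    · have h2 : sV N s v ≠ .root (!s) := by
        intro h
        have ih := sV_inv N s v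
        rw [h] at ih
        apply hv
        rw [← ih]
        simp [sV]
      simp only [sW, if_neg hv, if_neg h2, sV_inv]

def sE (N : ℕ) : W ≃ W where
  toFun := sW N true
  invFun := sW N false
  left_inv := sW_inv N true
  right_inv := sW_inv N false

lemma s_en (N : ℕ) (s b : Bool) (x : W) : sV N s (enV b x) = enV b (sW N s x) := by
  cases x with
  | vt v => rfl
  | a => cases b <;> cases s <;> simp [sW, sV, enV]
  | e b' j v =>
    by_cases hv : v = .root s
    · subst hv
      rcases lt_trichotomy j N with h | h | h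
      · cases b <;> cases s <;> cases b' <;> simp [sW, sV, enV, h]
      · subst h
        cases b <;> cases s <;> cases b' <;> simp [sW, sV, enV]
      · have e1 : ¬ j < N := by omega
        have e2 : ¬ j = N := by omega
        cases b <;> cases s <;> cases b' <;> simp [sW, sV, enV, e1, e2]
    · by_cases hb : b = b'
      · simp only [sW, enV, if_neg hv, if_pos hb]
      · simp only [sW, enV, sV, if_neg hv, if_neg hb]

def idx : {n : ℕ} → Fn n → ℕ
  | _, .en _ => 0
  | _, .g _ j => j + 1

def Good (N : ℕ) (σ : W ≃ W) : Prop :=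
  ∀ (n : ℕ) (f : Fn n), idx f ≤ N → ∀ x : Fin n → W,
    σ (Structure.funMap (L := L) f x) = Structure.funMap (L := L) f (σ ∘ x)

lemma good_sE (N : ℕ) : Good N (sE N) := by
  intro n f hf x
  cases f with
  | en b =>
    show sW N true (.vt (enV b (x 0))) = .vt (enV b (sW N true (x 0)))
    simp only [sW, s_en]
  | g b j =>
    show sW N true (.e b j (enV b (x 0))) = .e b j (enV b (sW N true (x 0)))
    have hj : j < N := hf
    rw [← s_en]
    by_cases hv : enV b (x 0) = .root true
    · rw [hv]
      cases b <;> simp [sW, sV, hj]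
    · simp only [sW, if_neg hv]

lemma term_good {α : Type} (t : L.Term α) : ∃ N, ∀ M, N ≤ M → ∀ σ, Good M σ → ∀ v : α → W,
    t.realize (σ ∘ v) = σ (t.realize v) := by
  induction t with
  | var i => exact ⟨0, fun _ _ _ _ _ => rfl⟩
  | func f ts ih =>
    choose Ns hNs using ih
    refine ⟨idx f + ∑ i, Ns i, fun M hM σ hσ v => ?_⟩
    rw [Term.realize_func, Term.realize_func, hσ _ f (by omega)]
    congr 1
    funext i
    refine hNs i M ?_ σ hσ v
    have := Finset.single_le_sum (f := Ns) (fun _ _ => Nat.zero_le _) (Finset.mem_univ i)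
    omega

lemma formula_good {α : Type} {n : ℕ} (φ : L.BoundedFormula α n) : ∃ N, ∀ M, N ≤ M → ∀ σ, Good M σ →
    ∀ (v : α → W) (xs : Fin n → W), φ.Realize (σ ∘ v) (σ ∘ xs) ↔ φ.Realize v xs := by
  induction φ with
  | falsum => exact ⟨0, fun _ _ _ _ _ _ => Iff.rfl⟩
  | equal t u =>
    obtain ⟨N1, h1⟩ := term_good t
    obtain ⟨N2, h2⟩ := term_good u
    refine ⟨N1 + N2, fun M hM σ hσ v xs => ?_⟩
    show t.realize _ = u.realize _ ↔ t.realize _ = u.realize _
    rw [← Sum.comp_elim, h1 M (by omega) σ hσ, h2 M (by omega) σ hσ]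
    exact σ.injective.eq_iff
  | rel r _ => exact r.elim
  | imp f g ihf ihg =>
    obtain ⟨N1, h1⟩ := ihf
    obtain ⟨N2, h2⟩ := ihg
    refine ⟨N1 + N2, fun M hM σ hσ v xs => ?_⟩
    rw [BoundedFormula.realize_imp, BoundedFormula.realize_imp, h1 M (by omega) σ hσ, h2 M (by omega) σ hσ]
  | all f ih =>
    obtain ⟨N1, h1⟩ := ih
    refine ⟨N1, fun M hM σ hσ v xs => ?_⟩
    rw [BoundedFormula.realize_all, BoundedFormula.realize_all]
    constructor
    · intro h y
      rw [← h1 M hM σ hσ, Fin.comp_snoc]
      exact h _
    · intro h y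
      obtain ⟨z, rfl⟩ := σ.surjective y
      rw [← Fin.comp_snoc, h1 M hM σ hσ]
      exact h _

theorem same_type (φ : L.Formula (Fin 1)) :
    φ.Realize (fun _ => W.vt (.root false)) ↔ φ.Realize (fun _ => W.vt (.root true)) := by
  obtain ⟨N, h⟩ := formula_good φ
  have := h N le_rfl (sE N) (good_sE N) (fun _ => W.vt (.root true)) default
  have e1 : (sE N) ∘ (fun _ : Fin 1 => W.vt (.root true)) = fun _ => W.vt (.root false) := by
    funext i
    show sW N true (W.vt (.root true)) = W.vt (.root false)
    simp [sW, sV]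
  have e2 : (sE N) ∘ (default : Fin 0 → W) = default := Subsingleton.elim _ _
  rw [e1, e2] at this
  exact this

theorem not_conj : ¬ ∃ σ : L.Equiv W W, ⇑σ ∘ (fun _ : Fin 1 => W.vt (.root true)) = fun _ => W.vt (.root false) := by
  rintro ⟨σ, hσ⟩
  have h1 : σ (W.vt (.root true)) = W.vt (.root false) := congrFun hσ 0
  have ha : σ W.a = W.a := by
    have key : ∀ f y, σ W.a ≠ op f y := by
      intro f y h
      have := congrArg σ.symm h
      rw [σ.symm_apply_apply] at this
      have h2 := hom_op σ.symm.toHom f y
      simp only [Equiv.coe_toHom] at h2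
      rw [h2, op_W] at this
      cases f <;> simp [opW] at this
    cases hx : σ W.a with
    | a => rfl
    | vt v => exact absurd hx (by have := key (.en true) (.vt v); rwa [op_W] at this)
    | e b j v => exact absurd hx (by have := key (.g b j) (.vt v); rwa [op_W] at this)
  have h2 := hom_op σ.toHom (.en true) W.a
  simp only [Equiv.coe_toHom] at h2
  rw [ha, op_W] at h2
  simp only [opW, enV] at h2
  rw [h1] at h2
  simp at h2

end Pool.Agent.Lib.Helper21.RegPerf
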