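import Pool.Agent.Lib.helper21.Homot

/-! Robinson's polynomials: a Wronskian identity on the unit circle. -/

set_option autoImplicit false

namespace Pool.Agent.Lib.Helper21.Robin

open Set Metric Finset Polynomial ComplexConjugate

noncomputable abbrev A (k : ℕ) (x : ℝ) : ℝ := (ascPochhammer ℝ k).eval x

lemma chu (n : ℕ) : ∀ b c : ℝ, 0 < c → ∑ k ∈ range (n + 1), (n.choose k : ℝ) * ((-1) ^ k * (A k b / A k c)) =
    A n (c - b) / A n c := by
  induction n with
  | zero => simp [A]
  | succ n ih =>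
    intro b c c0
    have l : ∀ k x, A (k + 1) x = x * A k (x + 1) := fun k x => by simp [A, ascPochhammer_succ_left]
    have e := l n c
    have p := (ascPochhammer_pos n c c0).ne'
    have q := (ascPochhammer_pos n (c + 1) (by linarith)).ne'
    rw [sum_choose_succ_mul fun k _ => (-1) ^ k * (A k b / A k c), ih b c c0,
      sum_congr rfl (g := fun k => -(b / c) * (n.choose k * ((-1) ^ k * (A k (b + 1) / A k (c + 1))))) fun k _ => by
        rw [l, l]; ring, ← mul_sum, ih _ _ (by linarith), add_sub_add_right_eq_sub]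
    simp only [A, ascPochhammer_succ_eval] at e ⊢
    have : c + n ≠ 0 := by positivity
    field_simp
    linear_combination (-b * eval (c - b) (ascPochhammer ℝ n)) * e

noncomputable def c (n : ℕ) (β : ℝ) (k : ℕ) : ℝ := n.descFactorial k / A k (β + n)
noncomputable def p (β : ℝ) (k : ℕ) : ℝ := A k β / k.factorial
noncomputable def U (n : ℕ) (β : ℝ) (z : ℂ) : ℂ := ∑ k ∈ range (n + 1), (c n β k * p β k : ℝ) * z ^ k
noncomputable def Y (n : ℕ) (β : ℝ) (z : ℂ) : ℂ := ∑ k ∈ range (n + 1), (c n β (k + 1) * p β k : ℝ) * z ^ k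

variable {n : ℕ} {β : ℝ}

lemma cs (h : 0 < β + n) {k : ℕ} (hk : k ≤ n) : c n β (k + 1) * (β + n + k) = (n - k) * c n β k := by
  have := (ascPochhammer_pos k _ h).ne'
  have : β + n + k ≠ 0 := by positivity
  simp only [c, A, ascPochhammer_succ_eval, Nat.descFactorial_succ, Nat.cast_mul, Nat.cast_sub hk]
  field_simp

lemma ps (k : ℕ) : p β (k + 1) * (k + 1) = (β + k) * p β k := by
  simp only [p, A, ascPochhammer_succ_eval, Nat.factorial_succ, Nat.cast_mul]
  push_cast
  field_simp

lemma dS (a : ℕ → ℝ) (z : ℂ) : z * deriv (fun z : ℂ => ∑ k ∈ range (n + 1), (a k : ℂ) * z ^ k) z =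
    ∑ k ∈ range (n + 1), k * a k * z ^ k := by
  rw [(HasDerivAt.fun_sum fun k _ => (hasDerivAt_pow k z).const_mul (a k : ℂ)).deriv, mul_sum]
  refine sum_congr rfl fun k _ => ?_
  cases k
  · simp
  · simp [pow_succ]; ring

lemma ode (h : 0 < β + n) (z : ℂ) : z * deriv (U n β) z = z * (β * Y n β z + z * deriv (Y n β) z) ∧
    (β + n) * Y n β z + z * deriv (Y n β) z = n * U n β z - z * deriv (U n β) z := by
  unfold U Y
  rw [dS, dS]
  constructor
  · rw [mul_sum, ← sum_add_distrib, mul_sum, sum_range_succ', sum_range_succ]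
    simp only [c, Nat.descFactorial_of_lt (Nat.lt_succ_self n)]
    simp only [← c.eq_1]
    simp
    refine sum_congr rfl fun k _ => ?_
    have := congrArg Complex.ofReal (ps (β := β) k)
    push_cast at this
    linear_combination c n β (k + 1) * z ^ (k + 1) * this
  · rw [mul_sum, mul_sum, ← sum_add_distrib, ← sum_sub_distrib]
    refine sum_congr rfl fun k hk => ?_
    have := congrArg Complex.ofReal (cs h (mem_range_succ_iff.1 hk))
    push_cast at this ⊢
    linear_combination p β k * z ^ k * this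

@[fun_prop] lemma dU : Differentiable ℂ (U n β) := by unfold U; fun_prop
@[fun_prop] lemma dY : Differentiable ℂ (Y n β) := by unfold Y; fun_prop

lemma wr (h : 0 < β + n) {z : ℂ} (hz : z ∈ Complex.slitPlane) :
    (U n β z * U n β z⁻¹ - Y n β z * Y n β z⁻¹) * (z / (1 + z) ^ 2) ^ n = (U n β 1 ^ 2 - Y n β 1 ^ 2) * (1 / 4) ^ n := by
  have n1 : ∀ z ∈ Complex.slitPlane, 1 + z ≠ 0 := fun z hz e => by
    rw [eq_neg_of_add_eq_zero_right e] at hz; simp [Complex.mem_slitPlane_iff] at hz; linarith
  have d : ∀ z ∈ Complex.slitPlane, HasDerivAt (fun z => (U n β z * U n β z⁻¹ - Y n β z * Y n β z⁻¹) * (z / (1 + z) ^ 2) ^ n)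
      0 z := fun z hz => by
    have z0 := Complex.slitPlane_ne_zero hz
    have z1 := n1 z hz
    refine (((((dU z).hasDerivAt.mul ((dU _).hasDerivAt.comp z (hasDerivAt_inv z0))).sub
      ((dY z).hasDerivAt.mul ((dY _).hasDerivAt.comp z (hasDerivAt_inv z0)))).mul
      (((hasDerivAt_id z).div (((hasDerivAt_id z).const_add 1).pow 2) (pow_ne_zero 2 z1)).pow n))).congr_deriv ?_
    obtain ⟨a, b⟩ := ode h z
    obtain ⟨a', b'⟩ := ode h z⁻¹
    have e1 : deriv (U n β) z = n * (U n β z - Y n β z) / (1 + z) := by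
      have := mul_left_cancel₀ z0 a
      field_simp; linear_combination this + b
    have e2 : deriv (Y n β) z = (deriv (U n β) z - β * Y n β z) / z := by
      have := mul_left_cancel₀ z0 a
      field_simp; linear_combination -this
    have e3 : deriv (U n β) z⁻¹ = n * (U n β z⁻¹ - Y n β z⁻¹) * z / (1 + z) := by
      have := mul_left_cancel₀ (inv_ne_zero z0) a'
      field_simp at this b' ⊢; linear_combination this + b'
    have e4 : deriv (Y n β) z⁻¹ = (deriv (U n β) z⁻¹ - β * Y n β z⁻¹) * z := by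
      have := mul_left_cancel₀ (inv_ne_zero z0) a'
      field_simp at this ⊢; linear_combination -this
    rw [e2, e4, e1, e3]
    cases n with
    | zero => simp; field_simp; simp
    | succ m => simp [pow_succ]; field_simp; ring
  have := Complex.isOpen_slitPlane.is_const_of_deriv_eq_zero
    (Complex.starConvex_one_slitPlane.isPathConnected (by simp)).isConnected.isPreconnected
    (fun z hz => (d z hz).differentiableAt.differentiableWithinAt) (fun z hz => (d z hz).deriv) hz Complex.one_mem_slitPlane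
  rw [this]; norm_num [sq]

lemma at1 (hn : 1 ≤ n) (h : 0 < β) : ∃ r : ℝ, 0 < r ∧ U n β 1 ^ 2 - Y n β 1 ^ 2 = r := by
  have h1 : 0 < β + n := by positivity
  have pp : ∀ k, 0 < p β k := fun k => div_pos (ascPochhammer_pos k _ h) (by positivity)
  have cp : ∀ k, 0 ≤ c n β k := fun k => div_nonneg (by positivity) (ascPochhammer_pos k _ h1).le
  refine ⟨(∑ k ∈ range (n + 1), c n β k * p β k) ^ 2 - (∑ k ∈ range (n + 1), c n β (k + 1) * p β k) ^ 2,
    sub_pos.2 (pow_lt_pow_left₀ (sum_lt_sum_of_nonempty (by simp) fun k hk => mul_lt_mul_of_pos_right ?_ (pp k))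
      (sum_nonneg fun k _ => mul_nonneg (cp _) (pp k).le) two_ne_zero), by simp [U, Y]⟩
  have hk' := mem_range_succ_iff.1 hk
  have : 0 < c n β k := div_pos (by simpa [Nat.descFactorial_pos] using hk') (ascPochhammer_pos k _ h1)
  refine lt_of_mul_lt_mul_right (a := β + n + k) ?_ (by positivity)
  rw [cs h1 hk']
  nlinarith [mul_pos this h, mul_nonneg this.le (Nat.cast_nonneg k)]

lemma circ (hn : 1 ≤ n) (h : 0 < β) {z : ℂ} (hz : z ∈ sphere (0 : ℂ) 1) : U n β z ≠ 0 ∧ ‖Y n β z‖ ≤ ‖U n β z‖ := by
  have h1 : 0 < β + n := by positivity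
  have n0 : (0 : ℝ) < n := by exact_mod_cast hn
  have z1 : ‖z‖ = 1 := by simpa using hz
  have z0 : z ≠ 0 := norm_pos_iff.1 (z1 ▸ one_pos)
  by_cases e : z = -1
  · subst e
    obtain ⟨a, b⟩ := ode h1 (-1)
    have : Y n β (-1) = U n β (-1) := mul_left_cancel₀ (show (n : ℂ) ≠ 0 by exact_mod_cast n0.ne') (by linear_combination b - a)
    refine ⟨?_, by rw [this]⟩
    have k := chu n β (β + n) h1
    have : U n β (-1) = (A n (β + n - β) / A n (β + n) : ℝ) := by
      rw [← k, U]; push_cast
      refine sum_congr rfl fun k _ => ?_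
      simp only [c, p, Nat.descFactorial_eq_factorial_mul_choose]
      have : (k.factorial : ℂ) ≠ 0 := by exact_mod_cast k.factorial_ne_zero
      push_cast
      field_simp
    rw [this, Complex.ofReal_ne_zero]
    exact (div_pos (ascPochhammer_pos n _ (by linarith)) (ascPochhammer_pos n _ h1)).ne'
  have cj : z⁻¹ = conj z := by rw [Complex.inv_eq_conj z1]
  have sp : z ∈ Complex.slitPlane := by
    by_contra t
    simp only [Complex.mem_slitPlane_iff, not_or, not_lt, not_not] at t
    have := Complex.abs_re_eq_norm.2 t.2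
    rw [z1, abs_of_nonpos t.1] at this
    exact e (Complex.ext (by simp; linarith) (by simpa using t.2))
  obtain ⟨r, r0, hr⟩ := at1 hn h
  have w := wr h1 sp
  have o : 1 + z ≠ 0 := fun t => e (eq_neg_of_add_eq_zero_right t)
  have o1 := norm_pos_iff.2 o
  rw [hr, cj, show U n β (conj z) = conj (U n β z) by simp [U], show Y n β (conj z) = conj (Y n β z) by simp [Y],
    Complex.mul_conj', Complex.mul_conj', show z / (1 + z) ^ 2 = ((‖1 + z‖ : ℂ) ^ 2)⁻¹ by
      rw [← Complex.mul_conj', map_add, ← cj, map_one, show 1 + z⁻¹ = (1 + z) / z by field_simp; ring]; field_simp] at w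
  have w' : (‖U n β z‖ ^ 2 - ‖Y n β z‖ ^ 2) * (‖1 + z‖ ^ 2)⁻¹ ^ n = r * (1 / 4) ^ n := Complex.ofReal_injective (by simpa using w)
  have := lt_of_pow_lt_pow_left₀ 2 (norm_nonneg _) (sub_pos.1 ((mul_pos_iff_of_pos_right (by positivity)).1
    (w' ▸ (by positivity : 0 < r * (1 / 4) ^ n))))
  exact ⟨norm_pos_iff.1 ((norm_nonneg _).trans_lt this), this.le⟩

lemma U0 (z : ℂ) : U n 0 z = 1 := by
  simp [U, sum_range_succ', c, p, A]

theorem main (hn : 1 ≤ n) (h : 0 < β) {x z : ℂ} (hx : ‖x‖ = 1) (hz : ‖z‖ < 1) : U n β z + x * (z * Y n β z) ≠ 0 := by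
  have n0 : (0 : ℝ) < n := by exact_mod_cast hn
  have k := Homot.homot (f := fun s => U n (s * β)) (by
    unfold Function.uncurry U c p A
    refine continuousOn_finsetSum _ fun k _ => .mul (Complex.continuous_ofReal.comp_continuousOn (.mul (.div
      continuousOn_const (Continuous.continuousOn (by fun_prop)) fun q hq => (ascPochhammer_pos k _ ?_).ne')
      (Continuous.continuousOn (by fun_prop)))) (Continuous.continuousOn (by fun_prop))
    have := hq.1.1
    positivity) (fun _ _ => dU.differentiableOn) (fun s hs x hx => by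
      rcases hs.1.eq_or_lt with rfl | s0
      · simp [U0]
      · exact (circ hn (mul_pos s0 h) hx).1) (by simp [U0])
  simp only [one_mul] at k
  have u := k z (mem_closedBall_zero_iff.2 hz.le)
  have := Complex.norm_le_of_forall_mem_frontier_norm_le (f := fun x => Y n β x / U n β x) (U := ball 0 1) isBounded_ball
    (DifferentiableOn.diffContOnCl (by
      rw [closure_ball _ one_ne_zero]; exact dY.differentiableOn.div dU.differentiableOn k)) (C := 1) (fun y hy => by
      rw [frontier_ball _ one_ne_zero] at hy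
      rw [norm_div]; exact div_le_one_of_le₀ (circ hn h hy).2 (norm_nonneg _)) (subset_closure (mem_ball_zero_iff.2 hz))
  rw [norm_div, div_le_one (norm_pos_iff.2 u)] at this
  intro e
  have e2 := congrArg norm (eq_neg_of_add_eq_zero_left e)
  rw [norm_neg, norm_mul, hx, norm_mul] at e2
  nlinarith [norm_pos_iff.2 u, norm_nonneg z, norm_nonneg (Y n β z)]

end Pool.Agent.Lib.Helper21.Robin
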