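import Mathlib

set_option autoImplicit false

namespace Pool.Agent.Lib.Helper21.Rootv

open Complex Set Metric

/-- The differential polynomial `f^(n) + a_{n-2} f^(n-2) + ... + a_0 f`. -/
noncomputable def ell (n : ℕ) (a : ℕ → ℂ → ℂ) (f : ℂ → ℂ) : ℂ → ℂ :=
  fun z => iteratedDeriv n f z + ∑ j ∈ Finset.range (n - 1), a j z * iteratedDeriv j f z

/-- `φ` is a continuous linear functional on the holomorphic functions on `U`. -/
def CLF (U : Set ℂ) (φ : (ℂ → ℂ) → ℂ) : Prop :=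
  (∀ (c : ℂ) (f g : ℂ → ℂ), DifferentiableOn ℂ f U → DifferentiableOn ℂ g U →
    φ (c • f + g) = c * φ f + φ g) ∧
  ∃ K ⊆ U, IsCompact K ∧ ∃ C : ℝ, ∀ f : ℂ → ℂ, DifferentiableOn ℂ f U →
    ∀ M : ℝ, (∀ z ∈ K, ‖f z‖ ≤ M) → ‖φ f‖ ≤ C * M

/-- `f` is a root vector (or zero). -/
def Root (U : Set ℂ) (n : ℕ) (a : ℕ → ℂ → ℂ) (φ : Fin n → (ℂ → ℂ) → ℂ) (f : ℂ → ℂ) : Prop :=
  DifferentiableOn ℂ f U ∧ ∃ (l : ℂ) (m : ℕ), 1 ≤ m ∧
    (∀ q < m, ∀ k, φ k ((ell n a)^[q] f) = 0) ∧
    ∀ z ∈ U, (fun g => ell n a g - l • g)^[m] f z = 0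

/-- The characteristic determinant does not vanish at `l`. -/
def DeltaNe (U : Set ℂ) (n : ℕ) (a : ℕ → ℂ → ℂ) (φ : Fin n → (ℂ → ℂ) → ℂ) (l : ℂ) : Prop :=
  ∃ y : Fin n → ℂ → ℂ, (∀ k, DifferentiableOn ℂ (y k) U ∧
    (∀ z ∈ U, ell n a (y k) z = l * y k z) ∧
    ∀ p : Fin n, iteratedDeriv p (y k) 0 = if k = p then 1 else 0) ∧
    (Matrix.of fun k j => φ j (y k)).det ≠ 0

abbrev U : Set ℂ := {z | -1 < z.re}

noncomputable abbrev b : ℂ := cexp (Real.pi / 2)

noncomputable def ψ (j : ℕ) (f : ℂ → ℂ) : ℂ :=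
  iteratedDeriv j f (-I) - b * I ^ j * iteratedDeriv j f I

lemma oU : IsOpen U := isOpen_lt continuous_const continuous_re

lemma cU : Convex ℝ U := convex_halfSpace_re_gt _

lemma m1 : -I ∈ U := by simp

lemma m2 : I ∈ U := by simp

lemma e0 (f : ℂ → ℂ) : ell 4 0 f = iteratedDeriv 4 f := by ext; simp [ell]

lemma it (i j : ℕ) (f : ℂ → ℂ) : iteratedDeriv i (iteratedDeriv j f) = iteratedDeriv (i + j) f := by
  simp only [iteratedDeriv_eq_iterate, Function.iterate_add_apply]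

lemma e1 (q : ℕ) (f : ℂ → ℂ) : (ell 4 0)^[q] f = iteratedDeriv (4 * q) f := by
  induction q with
  | zero => simp
  | succ q ih => rw [Function.iterate_succ_apply', ih, e0, it, mul_add, add_comm]

lemma e2 (q k : ℕ) (f : ℂ → ℂ) : ψ k ((ell 4 0)^[q] f) = ψ (k + 4 * q) f := by
  rw [e1, ψ, ψ, it, pow_add, pow_mul, I_pow_four, one_pow, mul_one]

variable {f g : ℂ → ℂ} {z : ℂ}

lemma dI (hf : DifferentiableOn ℂ f U) (j : ℕ) : DifferentiableOn ℂ (iteratedDeriv j f) U := by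
  rw [iteratedDeriv_eq_iterate]
  exact ((hf.analyticOnNhd oU).iterated_deriv j).differentiableOn

lemma hI (hf : DifferentiableOn ℂ f U) (j : ℕ) (hz : z ∈ U) :
    HasDerivAt (iteratedDeriv j f) (iteratedDeriv (j + 1) f z) z := by
  rw [iteratedDeriv_succ]
  exact ((dI hf j).differentiableAt (oU.mem_nhds hz)).hasDerivAt

lemma lin (c : ℂ) (hf : DifferentiableOn ℂ f U) (hg : DifferentiableOn ℂ g U) (j : ℕ) (hz : z ∈ U) :
    iteratedDeriv j (c • f + g) z = c * iteratedDeriv j f z + iteratedDeriv j g z := by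
  have h1 : ContDiffAt ℂ j f z := (hf.analyticOnNhd oU z hz).contDiffAt
  rw [iteratedDeriv_add (f := c • f) (h1.const_smul c) (hg.analyticOnNhd oU z hz).contDiffAt,
    iteratedDeriv_const_smul h1, smul_eq_mul]

lemma nb : 1 < ‖b‖ := by
  rw [norm_exp, Real.one_lt_exp_iff]; simp; positivity

lemma b4 {c : ℂ} (hc : ‖c‖ = 1) (k : ℕ) : 1 - c * b ^ (k + 1) ≠ 0 := fun h => by
  have := congrArg norm (sub_eq_zero.1 h)
  rw [norm_one, norm_mul, hc, one_mul, norm_pow] at this
  exact (one_lt_pow₀ nb k.succ_ne_zero).ne this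

lemma ode {v : ℂ} (h : ∀ z ∈ U, HasDerivAt g (v * g z) z) : ∃ c, ∀ z ∈ U, g z = c * cexp (v * (z + 1)) := by
  have d : ∀ z ∈ U, HasDerivAt (fun z => g z * cexp (-(v * (z + 1)))) 0 z := fun z hz =>
    ((h z hz).mul (((hasDerivAt_id z).add_const 1).const_mul v).neg.cexp).congr_deriv (by
      simp; ring)
  obtain ⟨c, hc⟩ := oU.exists_is_const_of_deriv_eq_zero cU.isPreconnected
    (fun z hz => (d z hz).differentiableAt.differentiableWithinAt) fun z hz => (d z hz).deriv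
  exact ⟨c, fun z hz => by rw [← hc z hz, mul_assoc, ← exp_add]; simp⟩

lemma eig (hf : DifferentiableOn ℂ f U) {l : ℂ} (h : ∀ z ∈ U, iteratedDeriv 4 f z = l * f z)
    (p : ∀ j < 4, ψ j f = 0) : ∀ z ∈ U, f z = 0 := by
  obtain ⟨m, rfl⟩ := IsAlgClosed.exists_pow_nat_eq l (show 0 < 4 by norm_num)
  set G : ℂ → ℂ → ℂ := fun v z => iteratedDeriv 3 f z + v * iteratedDeriv 2 f z +
    v ^ 2 * iteratedDeriv 1 f z + v ^ 3 * iteratedDeriv 0 f z with hG
  have p0 := p 0 (by norm_num)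
  have p1 := p 1 (by norm_num)
  have p2 := p 2 (by norm_num)
  have p3 := p 3 (by norm_num)
  simp only [ψ] at p0 p1 p2 p3
  have o : ∀ v, v ^ 4 = m ^ 4 → ∃ c, ∀ z ∈ U, G v z = c * cexp (v * (z + 1)) := fun v hv =>
    ode fun z hz => ((((hI hf 3 hz).add ((hI hf 2 hz).const_mul v)).add
      ((hI hf 1 hz).const_mul (v ^ 2))).add ((hI hf 0 hz).const_mul (v ^ 3))).congr_deriv (by
        simp only [hG, Nat.reduceAdd, h z hz, iteratedDeriv_zero, ← hv]; ring)
  have r : ∀ v c d, (∀ z ∈ U, G v z = c * cexp (v * (z + 1))) →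
      (∀ z ∈ U, G (-I * v) z = d * cexp (-I * v * (z + 1))) → c = -I * b * d := fun v c d h1 h2 => by
    have k1 := h1 _ m1
    have k2 := h2 _ m2
    rw [show -I * v * (I + 1) = v * (-I + 1) by linear_combination (-v) * I_mul_I] at k2
    refine mul_right_cancel₀ (exp_ne_zero (v * (-I + 1))) ?_
    rw [mul_assoc, ← k1, ← k2]
    simp only [hG]
    linear_combination p3 + v * p2 + v ^ 2 * p1 + v ^ 3 * p0 +
      b * (I * iteratedDeriv 3 f I + I * v ^ 2 * iteratedDeriv 1 f I -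
        v ^ 3 * (I ^ 2 - 1) * iteratedDeriv 0 f I) * I_sq
  have z0 : ∀ v, v ^ 4 = m ^ 4 → ∀ z ∈ U, G v z = 0 := fun v hv z hz => by
    have s : ∀ v, v ^ 4 = m ^ 4 → (-I * v) ^ 4 = m ^ 4 := fun v hv => by
      rw [mul_pow, hv, neg_pow, I_pow_four]; norm_num
    obtain ⟨c0, h0⟩ := o v hv
    obtain ⟨c1, h1⟩ := o _ (s _ hv)
    obtain ⟨c2, h2⟩ := o _ (s _ (s _ hv))
    obtain ⟨c3, h3⟩ := o _ (s _ (s _ (s _ hv)))
    have q0 := r _ _ _ h0 h1
    have q1 := r _ _ _ h1 h2
    have q2 := r _ _ _ h2 h3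
    have q3 := r _ _ c0 h3 (by
      rwa [show -I * (-I * (-I * (-I * v))) = v by linear_combination v * I_pow_four])
    have : (1 - 1 * b ^ (3 + 1)) * c0 = 0 := by
      rw [q3] at q2
      rw [q2] at q1
      rw [q1] at q0
      linear_combination q0 + b ^ 4 * c0 * I_pow_four
    rw [h0 z hz, (mul_eq_zero.1 this).resolve_left (b4 norm_one 3), zero_mul]
  rcases eq_or_ne m 0 with rfl | m0
  · have st : ∀ j < 4, (∀ z ∈ U, iteratedDeriv (j + 1) f z = 0) → ∀ z ∈ U, iteratedDeriv j f z = 0 :=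
      fun j hj k z hz => by
        obtain ⟨c, hc⟩ := ode (g := iteratedDeriv j f) (v := 0) fun z hz =>
          (hI hf j hz).congr_deriv (by rw [k z hz, zero_mul])
        have := p j hj
        simp only [zero_mul, exp_zero, mul_one] at hc
        rw [ψ, hc _ m1, hc _ m2] at this
        rw [hc z hz]
        exact (mul_eq_zero.1 (show (1 - I ^ j * b ^ (0 + 1)) * c = 0 by
          linear_combination this)).resolve_left (b4 (by simp) 0)
    exact st 0 (by norm_num) (st 1 (by norm_num) (st 2 (by norm_num) fun z hz => by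
      simpa [hG] using z0 0 rfl z hz))
  · intro z hz
    have k0 := z0 m rfl z hz
    have k1 := z0 (-m) (by ring) z hz
    have k2 := z0 (I * m) (by rw [mul_pow, I_pow_four, one_mul]) z hz
    have k3 := z0 (-(I * m)) (by rw [neg_pow, mul_pow, I_pow_four]; norm_num) z hz
    simp only [hG, iteratedDeriv_zero] at k0 k1 k2 k3
    refine mul_left_cancel₀ (mul_ne_zero (show (4 : ℂ) ≠ 0 by norm_num) (pow_ne_zero 3 m0)) ?_
    linear_combination k0 - k1 + I * k2 - I * k3 -
      (2 * m * iteratedDeriv 2 f z + 2 * m ^ 3 * (I ^ 2 - 1) * f z) * I_sq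

lemma root {l : ℂ} (m : ℕ) : ∀ f : ℂ → ℂ, DifferentiableOn ℂ f U → (∀ j < 4 * m, ψ j f = 0) →
    (∀ z ∈ U, (fun g => ell 4 0 g - l • g)^[m] f z = 0) → ∀ z ∈ U, f z = 0 := by
  induction m with
  | zero => exact fun f _ _ h => h
  | succ m ih =>
    intro f hf p h
    rw [Function.iterate_succ_apply] at h
    have e : ell 4 0 f - l • f = (-l) • f + iteratedDeriv 4 f := by rw [e0, neg_smul]; abel
    rw [e] at h
    have := ih _ ((hf.const_smul (-l)).add (dI hf 4)) (fun j hj => by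
      have h1 := p j (by omega)
      have h2 := p (j + 4) (by omega)
      rw [ψ, pow_add, I_pow_four] at h2
      rw [ψ] at h1
      rw [ψ, lin _ hf (dI hf 4) j m1, lin _ hf (dI hf 4) j m2, it]
      linear_combination h2 - l * h1) h
    exact eig hf (l := l) (fun z hz => by
      have := this z hz
      simp only [Pi.add_apply, Pi.smul_apply, smul_eq_mul] at this
      linear_combination this) fun j hj => p j (by omega)

lemma clf (j : ℕ) : CLF U (ψ j) := by
  refine ⟨fun c f g hf hg => by rw [ψ, ψ, ψ, lin c hf hg j m1, lin c hf hg j m2]; ring,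
    closedBall (-I) (1 / 2) ∪ closedBall I (1 / 2), ?_,
    (isCompact_closedBall _ _).union (isCompact_closedBall _ _),
    (1 + ‖b‖) * (j.factorial / (1 / 2) ^ j), fun f hf M hM => ?_⟩
  · rintro z (hz | hz) <;> rw [mem_closedBall, dist_eq_norm] at hz <;>
      have := (abs_le.1 ((abs_re_le_norm _).trans hz)).1 <;> simp at this ⊢ <;> linarith
  have k : ∀ c : ℂ, c.re = 0 → (∀ z ∈ closedBall c (1 / 2), ‖f z‖ ≤ M) →
      ‖iteratedDeriv j f c‖ ≤ j.factorial * M / (1 / 2) ^ j := fun c hc h =>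
    norm_iteratedDeriv_le_of_forall_mem_sphere_norm_le j (by norm_num)
      (hf.diffContOnCl_ball fun z hz => by
        rw [mem_closedBall, dist_eq_norm] at hz
        have := (abs_le.1 ((abs_re_le_norm _).trans hz)).1
        simp [hc] at this ⊢; linarith) fun z hz => h z (sphere_subset_closedBall hz)
  have k1 := k (-I) (by simp) fun z hz => hM z (.inl hz)
  have k2 := mul_le_mul_of_nonneg_left (k I (by simp) fun z hz => hM z (.inr hz)) (norm_nonneg b)
  refine (norm_sub_le _ _).trans ?_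
  rw [norm_mul, norm_mul, norm_pow, norm_I, one_pow, mul_one]
  refine (add_le_add k1 k2).trans_eq (by ring)

lemma sl (hz : z ∈ U) : z + 1 ∈ slitPlane := .inl (by simpa [neg_lt_iff_pos_add] using hz)

lemma pw (j : ℕ) : ∃ c, ∀ z ∈ U, iteratedDeriv j (fun z => cexp (I * log (z + 1))) z =
    c * cexp ((I - j) * log (z + 1)) := by
  induction j with
  | zero => exact ⟨1, fun z _ => by simp⟩
  | succ j ih =>
    obtain ⟨c, hc⟩ := ih
    refine ⟨c * (I - j), fun z hz => ?_⟩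
    rw [iteratedDeriv_succ, (Filter.eventuallyEq_of_mem (oU.mem_nhds hz) hc).deriv_eq,
      ((((((hasDerivAt_id' z).add_const 1).clog (sl hz)).const_mul _).cexp).const_mul c).deriv,
      Nat.cast_succ, ← sub_sub, sub_mul _ 1, exp_sub, one_mul, exp_log (slitPlane_ne_zero (sl hz))]
    ring

lemma dinf (j : ℕ) : ψ j (fun z => cexp (I * log (z + 1))) = 0 := by
  obtain ⟨c, hc⟩ := pw j
  have p := Real.pi_pos
  have a := abs_lt.1 (abs_arg_lt_pi_div_two_iff.2 (.inl (show 0 < (-I + 1).re by simp)))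
  have l : log (I + 1) = log (-I + 1) + Real.pi / 2 * I := by
    rw [← log_exp (x := log (-I + 1) + Real.pi / 2 * I) (by simp [log_im]; linarith [a.1])
      (by simp [log_im]; linarith [a.2]), exp_add, exp_pi_div_two_mul_I,
      exp_log (slitPlane_ne_zero (sl m1))]
    congr 1
    linear_combination I_mul_I
  rw [ψ, hc _ m1, hc _ m2, l, mul_add, exp_add, ← exp_pi_div_two_mul_I, ← exp_nat_mul,
    exp_pi_div_two_mul_I]
  have : b * cexp (j * (Real.pi / 2 * I)) * cexp ((I - j) * (Real.pi / 2 * I)) = 1 := by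
    rw [← exp_add, ← exp_add, ← exp_zero]
    congr 1
    linear_combination (Real.pi / 2 : ℂ) * I_mul_I
  linear_combination (-c * cexp ((I - j) * log (-I + 1))) * this

lemma delta : DeltaNe U 4 0 (fun k : Fin 4 => ψ k) 0 := by
  have d : ∀ j k : ℕ, ∀ z : ℂ, iteratedDeriv j (fun z : ℂ => (1 / k.factorial : ℂ) * z ^ k) z =
      1 / k.factorial * (k.descFactorial j * z ^ (k - j)) := fun j k z => by
    rw [iteratedDeriv_const_mul _ (by fun_prop), iteratedDeriv_pow]
  refine ⟨fun k z => (1 / (k : ℕ).factorial : ℂ) * z ^ (k : ℕ), fun k => ⟨by fun_prop,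
    fun z _ => by rw [e0, d, Nat.descFactorial_of_lt k.2]; simp, fun p => ?_⟩, ?_⟩
  · rw [d]
    fin_cases k <;> fin_cases p <;> simp [Nat.factorial]
  · rw [Matrix.det_of_isLowerTriangular _ fun i j (h : i < j) => by
      simp [ψ, Nat.descFactorial_of_lt (show (i : ℕ) < j from h)]]
    refine Finset.prod_ne_zero_iff.2 fun k _ => ?_
    have f0 : ((k : ℕ).factorial : ℂ) ≠ 0 := by exact_mod_cast (k : ℕ).factorial_ne_zero
    have := b4 (c := I ^ (k : ℕ)) (by simp) 0
    simp only [Matrix.of_apply, ψ]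
    rw [d, d, Nat.descFactorial_self, Nat.sub_self, pow_zero, pow_zero,
      mul_one, one_div_mul_cancel f0]
    rwa [zero_add, pow_one, mul_comm, ← mul_one (b * _)] at this

end Pool.Agent.Lib.Helper21.Rootv
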