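import Mathlib

/-! Spherical coordinates and the shell theorem in dimension three. -/

set_option autoImplicit false

namespace Pool.Agent.Lib.Helper21.Shell

open MeasureTheory Set Real ENNReal Metric

abbrev E := EuclideanSpace ℝ (Fin 3)

lemma polar {F : ℝ × ℝ → ℝ≥0∞} (hF : Measurable F) :
    ∫⁻ p, F p = ∫⁻ r in Ioi 0, ∫⁻ a in Ioo (-π) π, ENNReal.ofReal r * F (r * cos a, r * sin a) := by
  rw [← lintegral_comp_polarCoord_symm, polarCoord_target, Measure.volume_eq_prod, ← Measure.prod_restrict, lintegral_prod]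
  · rfl
  · exact ((measurable_fst.ennreal_ofReal).smul (hF.comp continuous_polarCoord_symm.measurable)).aemeasurable

lemma sph {G : ℝ × ℝ → ℝ≥0∞} (hG : Measurable G) : ∫⁻ y : E, G (y 0, ‖y‖) = ENNReal.ofReal (2 * π) *
    ∫⁻ r in Ioi 0, ∫⁻ a in Ioo (-π) π, ENNReal.ofReal r * (ENNReal.ofReal (r * sin a) * G (r * cos a, r)) := by
  have mp := ((MeasurePreserving.id volume).prod (volume_preserving_finTwoArrow ℝ)).comp
    ((volume_preserving_piFinSuccAbove (fun _ : Fin 3 => ℝ) 0).comp (PiLp.volume_preserving_ofLp (Fin 3)))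
  have m1 : Measurable fun q : ℝ × ℝ × ℝ => G (q.1, √(q.1 ^ 2 + (q.2.1 ^ 2 + q.2.2 ^ 2))) := hG.comp (by fun_prop)
  have m2 : Measurable fun q : ℝ × ℝ => ENNReal.ofReal q.2 * G (q.1, √(q.1 ^ 2 + q.2 ^ 2)) :=
    measurable_snd.ennreal_ofReal.mul (hG.comp (by fun_prop))
  calc _ = ∫⁻ q : ℝ × ℝ × ℝ, G (q.1, √(q.1 ^ 2 + (q.2.1 ^ 2 + q.2.2 ^ 2))) ∂(volume.prod volume) := by
        rw [← mp.lintegral_comp m1]
        refine lintegral_congr fun y => ?_
        simp [EuclideanSpace.norm_eq, Fin.sum_univ_three, add_assoc, MeasurableEquiv.piFinSuccAbove_apply, Fin.tail]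
    _ = ∫⁻ t, ENNReal.ofReal (2 * π) * ∫⁻ ρ, ENNReal.ofReal ρ * G (t, √(t ^ 2 + ρ ^ 2)) := by
        rw [lintegral_prod _ m1.aemeasurable]
        refine lintegral_congr fun t => ?_
        rw [polar (F := fun q => G (t, √(t ^ 2 + (q.1 ^ 2 + q.2 ^ 2)))) (m1.comp (measurable_prodMk_left (x := t))), ← lintegral_const_mul' _ _ ofReal_ne_top,
          ← lintegral_add_compl (μ := volume) _ (measurableSet_Ioi (a := (0 : ℝ))), setLIntegral_congr_fun measurableSet_Ioi.compl
            (g := 0) fun ρ h => by simp [ENNReal.ofReal_of_nonpos (not_lt.1 h)]]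
        simp [mul_pow, ← mul_add, mul_comm, ← two_mul]
    _ = _ := by
        rw [lintegral_const_mul' _ _ ofReal_ne_top, ← lintegral_prod _ m2.aemeasurable, ← Measure.volume_eq_prod, polar m2]
        refine congrArg _ (setLIntegral_congr_fun measurableSet_Ioi fun r hr => ?_)
        simp only [mul_pow, ← mul_add, cos_sq_add_sin_sq, mul_one, sqrt_sq (le_of_lt hr)]

lemma ang {s q r : ℝ} (s0 : 0 < s) (q0 : 0 < q) (r0 : 0 < r) (h : q ≠ s) : ∫⁻ a in Ioo (-π) π, ENNReal.ofReal (r * sin a) *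
    ENNReal.ofReal (√(s ^ 2 + q ^ 2 - 2 * s * q * cos a))⁻¹ = ENNReal.ofReal (2 * r / max s q) := by
  have p : ∀ a, 0 < s ^ 2 + q ^ 2 - 2 * s * q * cos a := fun a => by
    nlinarith [mul_le_of_le_one_right (mul_pos s0 q0).le (cos_le_one a), sq_pos_of_ne_zero (sub_ne_zero.2 h)]
  have c : Continuous fun a => r * sin a * (√(s ^ 2 + q ^ 2 - 2 * s * q * cos a))⁻¹ :=
    .mul (by fun_prop) (.inv₀ (by fun_prop) fun a => (sqrt_pos.2 (p a)).ne')
  have i := intervalIntegral.integral_eq_sub_of_hasDerivAt (a := 0) (b := π)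
    (f := fun a => r / (s * q) * √(s ^ 2 + q ^ 2 - 2 * s * q * cos a))
    (fun a _ => (((((hasDerivAt_cos a).const_mul (2 * s * q)).const_sub _).sqrt (p a).ne').const_mul _).congr_deriv
      (by field_simp)) (c.intervalIntegrable ..)
  rw [← Ioc_union_Ioo_eq_Ioo (by linarith [pi_pos]) pi_pos, lintegral_union measurableSet_Ioo (by simp [disjoint_left]; intros; linarith),
    setLIntegral_congr_fun measurableSet_Ioc (g := 0) fun a ha => by
      simp [ENNReal.ofReal_of_nonpos (mul_nonpos_of_nonneg_of_nonpos r0.le (sin_nonpos_of_nonpos_of_neg_pi_le ha.2 ha.1.le))],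
    setLIntegral_congr_fun measurableSet_Ioo fun a ha => (ENNReal.ofReal_mul
      (mul_nonneg r0.le (sin_nonneg_of_nonneg_of_le_pi ha.1.le ha.2.le))).symm,
    ← ofReal_integral_eq_lintegral_ofReal (c.integrableOn_Icc.mono_set Ioo_subset_Icc_self)
      ((ae_restrict_iff' measurableSet_Ioo).2 (.of_forall fun a ha => mul_nonneg
        (mul_nonneg r0.le (sin_nonneg_of_nonneg_of_le_pi ha.1.le ha.2.le)) (by positivity))),
    ← integral_Ioc_eq_integral_Ioo, ← intervalIntegral.integral_of_le pi_pos.le, i, cos_pi, cos_zero,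
    show s ^ 2 + q ^ 2 - 2 * s * q * -1 = (s + q) ^ 2 by ring, show s ^ 2 + q ^ 2 - 2 * s * q * 1 = (s - q) ^ 2 by ring,
    sqrt_sq_eq_abs, sqrt_sq_eq_abs, abs_of_pos (add_pos s0 q0)]
  simp only [Pi.zero_apply, lintegral_zero, zero_add]
  congr 1
  rcases le_total s q with d | d
  · rw [max_eq_right d, abs_of_nonpos (by linarith)]; field_simp; ring
  · rw [max_eq_left d, abs_of_nonneg (by linarith)]; field_simp; ring

lemma shell {x : E} (hx : x ≠ 0) {c : ℝ → ℝ} (mc : Measurable c) (c0 : ∀ r, 0 < r → 0 < c r) (R : ℝ)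
    (h : ∀ᵐ r, 0 < r → c r * r ≠ ‖x‖) : ∫⁻ y in ball (0 : E) R, ENNReal.ofReal ‖x - c ‖y‖ • y‖⁻¹ =
      ∫⁻ r in Ioo 0 R, ENNReal.ofReal (4 * π * r ^ 2 / max ‖x‖ (c r * r)) := by
  obtain ⟨s, hs⟩ : ∃ s, s = ‖x‖ := ⟨_, rfl⟩
  have s0 : 0 < s := hs ▸ norm_pos_iff.2 hx
  obtain ⟨T, hT⟩ : ∃ T : E ≃ₗᵢ[ℝ] E, T (EuclideanSpace.single 0 s) = x :=
    ⟨_, Submodule.reflection_sub (by simp [hs])⟩
  have mG : Measurable fun p : ℝ × ℝ => (Iio R).indicator 1 p.2 *
      ENNReal.ofReal (√(s ^ 2 + (c p.2 * p.2) ^ 2 - 2 * s * c p.2 * p.1))⁻¹ :=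
    ((measurable_one.indicator measurableSet_Iio).comp measurable_snd).mul (by fun_prop)
  rw [← hs] at h ⊢
  rw [← lintegral_indicator measurableSet_ball, ← T.measurePreserving.lintegral_comp_emb
    T.toHomeomorph.measurableEmbedding, lintegral_congr (g := fun y : E => _) fun y => ?_, sph mG,
    ← lintegral_const_mul' _ _ ofReal_ne_top, ← Iio_inter_Ioi (a := R),
    ← Measure.restrict_restrict (s := Iio R) measurableSet_Iio, ← lintegral_indicator (s := Iio R) measurableSet_Iio]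
  · refine lintegral_congr_ae ((ae_restrict_iff' measurableSet_Ioi).2 (h.mono fun r hr r0 => ?_))
    by_cases d : r < R
    · simp only [indicator_of_mem (mem_Iio.2 d), Pi.one_apply, one_mul,
        show ∀ a, 2 * s * c r * (r * cos a) = 2 * s * (c r * r) * cos a from fun a => by ring]
      rw [lintegral_const_mul' _ _ ofReal_ne_top, ang s0 (mul_pos (c0 r r0) r0) r0 (hr r0),
        ← ENNReal.ofReal_mul (le_of_lt r0), ← ENNReal.ofReal_mul (by positivity)]
      congr 1
      ring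
    · simp [indicator_of_notMem (show r ∉ Iio R from d)]
  · by_cases d : ‖y‖ < R
    · rw [indicator_of_mem (by simpa using d), indicator_of_mem (mem_Iio.2 d), ← hT, T.norm_map, ← T.map_smul, ← T.map_sub,
        T.norm_map, ← sqrt_sq (norm_nonneg (_ - _)), norm_sub_sq_real]
      simp [norm_smul, mul_pow, inner_smul_right, EuclideanSpace.inner_single_left]
      ring_nf
    · rw [indicator_of_notMem (by simpa using d), indicator_of_notMem (show _ ∉ Iio R from d), zero_mul]

lemma sphere {x : E} (hx : x ≠ 0) (h1 : ‖x‖ ≠ 1) : ⨍⁻ θ, ENNReal.ofReal ‖x - θ.1‖⁻¹ ∂(volume : Measure E).toSphere =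
    ENNReal.ofReal (max ‖x‖ 1)⁻¹ := by
  have k := shell hx (c := fun r => r⁻¹) measurable_inv (fun r => inv_pos.2) 1
    (.of_forall fun r r0 => by rw [inv_mul_cancel₀ r0.ne']; exact h1.symm)
  have m : Measurable fun p : Metric.sphere (0 : E) 1 × Ioi (0 : ℝ) => ENNReal.ofReal ‖x - p.1.1‖⁻¹ *
      (Iio ⟨1, mem_Ioi.2 one_pos⟩).indicator 1 p.2 :=
    .mul (by fun_prop) ((measurable_one.indicator measurableSet_Iio).comp measurable_snd)
  have e := (volume : Measure E).measurePreserving_homeomorphUnitSphereProd.lintegral_comp m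
  rw [lintegral_prod_mul (f := fun θ : Metric.sphere (0 : E) 1 => ENNReal.ofReal ‖x - θ.1‖⁻¹) (by fun_prop)
    (measurable_one.indicator measurableSet_Iio).aemeasurable, lintegral_indicator_one measurableSet_Iio,
    Measure.volumeIoiPow_apply_Iio] at e
  have e2 : ∫⁻ y in ball (0 : E) 1, ENNReal.ofReal ‖x - ‖y‖⁻¹ • y‖⁻¹ =
      (∫⁻ θ, ENNReal.ofReal ‖x - θ.1‖⁻¹ ∂(volume : Measure E).toSphere) * ENNReal.ofReal (1 / 3) := by
    rw [← lintegral_indicator measurableSet_ball, ← setLIntegral_univ, ← Measure.restrict_congr_set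
      (ae_eq_univ.2 (by simp) : ({0}ᶜ : Set E) =ᵐ[volume] univ), ← lintegral_subtype_comap (measurableSet_singleton _).compl]
    refine Eq.trans (lintegral_congr fun y => ?_) (e.trans (by norm_num))
    by_cases d : ‖y.1‖ < 1
    · rw [indicator_of_mem (by simpa using d), indicator_of_mem (by simpa [← Subtype.coe_lt_coe] using d)]
      simp
    · rw [indicator_of_notMem (by simpa using d), indicator_of_notMem (by simpa [← Subtype.coe_le_coe] using d), mul_zero]
  have p : 0 < max ‖x‖ 1 := lt_max_of_lt_right one_pos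
  rw [e2, setLIntegral_congr_fun measurableSet_Ioo (g := fun r => ENNReal.ofReal (4 * π / max ‖x‖ 1 * r ^ 2)) fun r hr => by
    simp only [inv_mul_cancel₀ hr.1.ne']; ring_nf, ← ofReal_integral_eq_lintegral_ofReal
      ((Continuous.integrableOn_Icc (by fun_prop)).mono_set Ioo_subset_Icc_self) (.of_forall fun r => by positivity),
    ← integral_Ioc_eq_integral_Ioo, ← intervalIntegral.integral_of_le zero_le_one, intervalIntegral.integral_const_mul,
    integral_pow, ENNReal.ofReal_mul (by positivity)] at k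
  norm_num at k
  rw [laverage_eq, (ENNReal.mul_left_inj (by simp) ofReal_ne_top).1 k, Measure.toSphere_apply_univ,
    EuclideanSpace.volume_ball_fin_three, finrank_euclideanSpace_fin, ← ENNReal.ofReal_natCast, ofReal_one, one_pow, one_mul,
    ← ENNReal.ofReal_mul (by positivity), ← ENNReal.ofReal_div_of_pos (by positivity)]
  congr 1
  push_cast
  field_simp

lemma piece {f : ℝ → ℝ} (c : Continuous f) (f0 : ∀ r, 0 ≤ r → 0 ≤ f r) {a b : ℝ} (a0 : 0 ≤ a) (h : a ≤ b) :
    ∫⁻ r in Ioo a b, ENNReal.ofReal (f r) = ENNReal.ofReal (∫ r in a..b, f r) := by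
  rw [← ofReal_integral_eq_lintegral_ofReal (c.integrableOn_Icc.mono_set Ioo_subset_Icc_self)
    ((ae_restrict_iff' measurableSet_Ioo).2 (.of_forall fun r hr => f0 r (a0.trans hr.1.le))),
    ← integral_Ioc_eq_integral_Ioo, ← intervalIntegral.integral_of_le h]

lemma ballInt {x : E} (hx : x ≠ 0) {R : ℝ} (R0 : 0 < R) : ∫⁻ y in ball (0 : E) R, ENNReal.ofReal ‖x - y‖⁻¹ =
    ENNReal.ofReal (if ‖x‖ < R then 2 * π * (R ^ 2 - ‖x‖ ^ 2 / 3) else 4 * π * R ^ 3 / 3 / ‖x‖) := by
  have s0 := norm_pos_iff.2 hx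
  have k := shell hx (c := fun _ => 1) measurable_const (fun _ _ => one_pos) R
    ((show ∀ᵐ r : ℝ, r ∈ ({‖x‖}ᶜ : Set ℝ) from compl_mem_ae_iff.2 (measure_singleton _)).mono fun r hr _ => by simpa using hr)
  simp only [one_smul, one_mul] at k
  have c : Continuous fun r => 4 * π * r ^ 2 / max ‖x‖ r := .div (by fun_prop) (by fun_prop) fun r =>
    (lt_max_of_lt_left s0).ne'
  have i : ∀ b, 0 ≤ b → b ≤ ‖x‖ → ∫ r in (0 : ℝ)..b, 4 * π * r ^ 2 / max ‖x‖ r = 4 * π * b ^ 3 / 3 / ‖x‖ := fun b b0 hb => by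
    rw [intervalIntegral.integral_congr (g := fun r => 4 * π / ‖x‖ * r ^ 2) fun r hr => by
      rw [uIcc_of_le b0] at hr; simp only [max_eq_left (hr.2.trans hb)]; ring]
    simp; ring
  rw [k, piece c (fun r _ => by positivity) le_rfl R0.le]
  split_ifs with d
  · rw [← intervalIntegral.integral_add_adjacent_intervals (c.intervalIntegrable 0 ‖x‖) (c.intervalIntegrable ..), i _ s0.le le_rfl,
      intervalIntegral.integral_congr (a := ‖x‖) (b := R) (g := fun r => 4 * π * r) fun r hr => by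
        rw [uIcc_of_le d.le] at hr; simp only [max_eq_right hr.1]; have := s0.trans_le hr.1; field_simp,
      intervalIntegral.integral_const_mul, integral_id]
    congr 1; field_simp; ring
  · rw [i R R0.le (not_lt.1 d)]

end Pool.Agent.Lib.Helper21.Shell
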