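import Mathlib
open Complex Set Filter MeasureTheory Metric Topology

namespace Pool.Agent.Lib.Helper21.Shir

def Sq (a : ℝ) : Set ℂ := Ioo (-a) a ×ℂ Ioo (-a) a

variable {a M : ℝ} {Φ : ℂ → ℂ}

lemma mSq {x y : ℝ} (hx : x ∈ Ioo (-a) a) (hy : y ∈ Ioo (-a) a) : (x : ℂ) + y * I ∈ Sq a := by
  constructor <;> simpa

lemma oSq : IsOpen (Sq a) := isOpen_Ioo.reProdIm isOpen_Ioo

lemma sub {x y : ℝ} (hx : x ∈ Ioo (-a) a) (hy : y ∈ Ioo (-a) a) : uIcc x y ⊆ Ioo (-a) a :=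
  ordConnected_Ioo.uIcc_subset hx hy

lemma ver (hd : ∀ w ∈ Sq a, w.im ≠ 0 → DifferentiableAt ℂ Φ w)
    (hb : ∀ w ∈ Sq a, w.im ≠ 0 → ‖Φ w‖ ≤ M) {x y0 y1 : ℝ} (hx : x ∈ Ioo (-a) a)
    (h0 : y0 ∈ Ioo (-a) a) (h1 : y1 ∈ Ioo (-a) a) :
    IntervalIntegrable (fun s : ℝ => Φ (x + s * I)) volume y0 y1 ∧
      ‖∫ s in y0..y1, Φ (x + s * I)‖ ≤ M * |y1 - y0| := by
  have n0 : ∀ᵐ s : ℝ, s ≠ 0 := by simp [ae_iff]
  have c : ContinuousOn (fun s : ℝ => Φ (x + s * I)) (Ioo (-a) a \ {0}) := fun s hs =>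
    (ContinuousAt.comp (f := fun s : ℝ => (x : ℂ) + s * I)
      (hd _ (mSq hx hs.1) (by simpa using hs.2)).continuousAt (by fun_prop)).continuousWithinAt
  have ms : MeasurableSet (Ioo (-a) a \ {0}) := measurableSet_Ioo.diff (measurableSet_singleton _)
  have i : IntegrableOn (fun s : ℝ => Φ (x + s * I)) (Ioo (-a) a \ {0}) :=
    .of_bound ((measure_mono sdiff_subset).trans_lt measure_Ioo_lt_top)
      (c.aestronglyMeasurable ms) M ((ae_restrict_iff' ms).2 (ae_of_all _ fun s hs =>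
        hb _ (mSq hx hs.1) (by simpa using hs.2)))
  refine ⟨((i.congr_set_ae (sdiff_null_ae_eq_self (by simp)).symm).mono_set
    (sub h0 h1)).intervalIntegrable, intervalIntegral.norm_integral_le_of_norm_le_const_ae ?_⟩
  filter_upwards [n0] with s h hs using hb _ (mSq hx (sub h0 h1 (uIoc_subset_uIcc hs))) (by simpa)

lemma hor (hd : ∀ w ∈ Sq a, w.im ≠ 0 → DifferentiableAt ℂ Φ w) {x0 x1 y : ℝ}
    (h0 : x0 ∈ Ioo (-a) a) (h1 : x1 ∈ Ioo (-a) a) (hy : y ∈ Ioo (-a) a) (y0 : y ≠ 0) :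
    ContinuousOn (fun t : ℝ => Φ (t + y * I)) (uIcc x0 x1) := fun t ht =>
  (ContinuousAt.comp (f := fun t : ℝ => (t : ℂ) + y * I)
    (hd _ (mSq (sub h0 h1 ht) hy) (by simpa)).continuousAt (by fun_prop)).continuousWithinAt

lemma rect (hd : ∀ w ∈ Sq a, w.im ≠ 0 → DifferentiableAt ℂ Φ w)
    (hb : ∀ w ∈ Sq a, w.im ≠ 0 → ‖Φ w‖ ≤ M)
    (hj : ∀ᵐ t : ℝ, t ∈ Ioo (-a) a → ContinuousAt (fun y : ℝ => Φ (t + y * I)) 0)
    {x0 x1 y0 y1 : ℝ} (h0 : x0 ∈ Ioo (-a) a) (h1 : x1 ∈ Ioo (-a) a) (k0 : y0 ∈ Ioo (-a) a)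
    (k1 : y1 ∈ Ioo (-a) a) :
    (∫ x in x0..x1, Φ (x + y0 * I)) - (∫ x in x0..x1, Φ (x + y1 * I)) +
      I • (∫ y in y0..y1, Φ (x1 + y * I)) - I • (∫ y in y0..y1, Φ (x0 + y * I)) = 0 := by
  have z0 : (0 : ℝ) ∈ Ioo (-a) a := ⟨by linarith [h0.1, h0.2], by linarith [h0.1, h0.2]⟩
  set E : ℝ → ℂ := fun y => (∫ x in x0..x1, Φ (x + y * I)) -
    I • (∫ s in (0 : ℝ)..y, Φ (x1 + s * I)) + I • ∫ s in (0 : ℝ)..y, Φ (x0 + s * I) with hE
  have e1 : ∀ y0 ∈ Ioo (-a) a, ∀ y1 ∈ Ioo (-a) a,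
      (∫ x in x0..x1, Φ (x + y0 * I)) - (∫ x in x0..x1, Φ (x + y1 * I)) +
      I • (∫ y in y0..y1, Φ (x1 + y * I)) - I • (∫ y in y0..y1, Φ (x0 + y * I)) = E y0 - E y1 := by
    intro y0 k0 y1 k1
    simp only [hE]
    rw [← intervalIntegral.integral_add_adjacent_intervals (ver hd hb h1 z0 k0).1 (ver hd hb h1 k0 k1).1,
      ← intervalIntegral.integral_add_adjacent_intervals (ver hd hb h0 z0 k0).1 (ver hd hb h0 k0 k1).1]
    simp only [smul_eq_mul]; ring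
  have e2 : ∀ y0 ∈ Ioo (-a) a, ∀ y1 ∈ Ioo (-a) a, 0 < y0 * y1 → E y0 = E y1 := by
    intro y0 k0 y1 k1 h
    rw [← sub_eq_zero, ← e1 y0 k0 y1 k1]
    have := integral_boundary_rect_eq_zero_of_differentiableOn Φ (x0 + y0 * I) (x1 + y1 * I) (by
      intro w hw
      simp only [mem_reProdIm, add_re, ofReal_re, mul_re, I_re, mul_zero, ofReal_im, I_im, mul_one,
        sub_self, add_zero, add_im, mul_im, zero_add] at hw
      refine (hd w ⟨sub h0 h1 hw.1, sub k0 k1 hw.2⟩ fun e => ?_).differentiableWithinAt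
      rw [e] at hw
      rcases mem_uIcc.1 hw.2 with h | h <;> nlinarith [h.1, h.2])
    simpa using this
  have ev : ∀ᶠ y in 𝓝[≠] (0 : ℝ), y ∈ Ioo (-a) a ∧ y ≠ 0 :=
    Eventually.and (mem_nhdsWithin_of_mem_nhds (Ioo_mem_nhds z0.1 z0.2)) self_mem_nhdsWithin
  have v : ∀ x ∈ Ioo (-a) a, Tendsto (fun y : ℝ => ∫ s in (0 : ℝ)..y, Φ (x + s * I)) (𝓝[≠] 0)
      (𝓝 (∫ s in (0 : ℝ)..0, Φ (x + s * I))) := fun x hx => by
    rw [intervalIntegral.integral_same]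
    refine squeeze_zero_norm' (ev.mono fun y hy => (ver hd hb hx z0 hy.1).2)
      (tendsto_nhdsWithin_of_tendsto_nhds ?_)
    exact Continuous.tendsto' (by fun_prop) _ _ (by simp)
  have e3 : Tendsto E (𝓝[≠] 0) (𝓝 (E 0)) := by
    refine (Tendsto.sub ?_ ((v x1 h1).const_smul I)).add ((v x0 h0).const_smul I)
    refine intervalIntegral.tendsto_integral_filter_of_dominated_convergence (fun _ => M)
      (ev.mono fun y hy => ((hor hd h0 h1 hy.1 hy.2).mono uIoc_subset_uIcc).aestronglyMeasurable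
        measurableSet_uIoc) (ev.mono fun y hy => ae_of_all _ fun x hx =>
          hb _ (mSq (sub h0 h1 (uIoc_subset_uIcc hx)) hy.1) (by simpa using hy.2))
      intervalIntegrable_const ?_
    filter_upwards [hj] with t ht h using
      tendsto_nhdsWithin_of_tendsto_nhds (ht (sub h0 h1 (uIoc_subset_uIcc h)))
  have e4 : ∀ y ∈ Ioo (-a) a, E y = E 0 := by
    intro y hy
    rcases lt_trichotomy y 0 with h | h | h
    · refine tendsto_nhds_unique (l := 𝓝[<] 0) (tendsto_const_nhds.congr' ?_)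
        (e3.mono_left (nhdsLT_le_nhdsNE 0))
      filter_upwards [Ioo_mem_nhdsLT z0.1] with s hs using
        e2 y hy s ⟨hs.1, hs.2.trans z0.2⟩ (mul_pos_of_neg_of_neg h hs.2)
    · rw [h]
    · refine tendsto_nhds_unique (l := 𝓝[>] 0) (tendsto_const_nhds.congr' ?_)
        (e3.mono_left (nhdsGT_le_nhdsNE 0))
      filter_upwards [Ioo_mem_nhdsGT z0.2] with s hs using
        e2 y hy s ⟨z0.1.trans hs.1, hs.2⟩ (mul_pos h hs.1)
  rw [e1 y0 k0 y1 k1, e4 y0 k0, e4 y1 k1, sub_self]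

lemma glue (a0 : 0 < a) (hd : ∀ w ∈ Sq a, w.im ≠ 0 → DifferentiableAt ℂ Φ w)
    (hb : ∀ w ∈ Sq a, w.im ≠ 0 → ‖Φ w‖ ≤ M)
    (hj : ∀ᵐ t : ℝ, t ∈ Ioo (-a) a → ContinuousAt (fun y : ℝ => Φ (t + y * I)) 0) :
    ∃ g : ℂ → ℂ, DifferentiableOn ℂ g (Sq a) ∧ (∀ w ∈ Sq a, ‖g w‖ ≤ 2 * M) ∧
      ∀ w ∈ Sq a, w.im ≠ 0 → g w = Φ w := by
  have z0 : (0 : ℝ) ∈ Ioo (-a) a := ⟨by linarith, a0⟩
  have b0 : a / 2 ∈ Ioo (-a) a := ⟨by linarith, by linarith⟩
  have b1 : a / 2 ≠ 0 := by positivity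
  have M0 : 0 ≤ M := (norm_nonneg _).trans (hb _ (mSq z0 b0) (by simpa using a0.ne'))
  set H : ℂ → ℂ := fun w => (∫ t in (0 : ℝ)..w.re, Φ (t + (a / 2 : ℝ) * I)) +
    I • ∫ s in (a / 2)..w.im, Φ (w.re + s * I) with hH
  have W : ∀ z ∈ Sq a, z.im ≠ 0 → ∀ w ∈ Sq a, H w = H z + wedgeIntegral z w Φ := by
    intro z hz h w hw
    have r := rect hd hb hj hz.1 hw.1 b0 hz.2
    simp only [hH, wedgeIntegral]
    rw [← intervalIntegral.integral_add_adjacent_intervals (ver hd hb hw.1 b0 hz.2).1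
      (ver hd hb hw.1 hz.2 hw.2).1, ← intervalIntegral.integral_add_adjacent_intervals
      (hor hd z0 hz.1 b0 b1).intervalIntegrable (hor hd hz.1 hw.1 b0 b1).intervalIntegrable]
    simp only [smul_eq_mul] at r ⊢
    linear_combination r
  have L1 : ∀ z ∈ Sq a, z.im ≠ 0 → ∀ w ∈ Sq a, ‖H w - H z‖ ≤ 2 * M * ‖w - z‖ := by
    intro z hz h w hw
    rw [W z hz h w hw, add_sub_cancel_left, wedgeIntegral]
    have p : ‖∫ t in z.re..w.re, Φ (t + z.im * I)‖ ≤ M * |w.re - z.re| :=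
      intervalIntegral.norm_integral_le_of_norm_le_const fun t ht =>
        hb _ (mSq (sub hz.1 hw.1 (uIoc_subset_uIcc ht)) hz.2) (by simpa)
    have q := (ver hd hb hw.1 hz.2 hw.2).2
    have := abs_re_le_norm (w - z)
    have := abs_im_le_norm (w - z)
    refine (norm_add_le _ _).trans ?_
    rw [norm_smul, norm_I, one_mul]
    simp only [sub_re, sub_im] at *
    nlinarith
  have L2 : ∀ z ∈ Sq a, ∀ w ∈ Sq a, ‖H w - H z‖ ≤ 2 * M * ‖w - z‖ := by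
    intro z hz w hw
    by_cases h : z.im = 0
    swap
    · exact L1 z hz h w hw
    have t : Tendsto (fun η : ℝ => 2 * M * ‖w - (z.re + η * I)‖ + 2 * M * ‖z - (z.re + η * I)‖)
        (𝓝[>] 0) (𝓝 (2 * M * ‖w - z‖)) := by
      refine tendsto_nhdsWithin_of_tendsto_nhds (Continuous.tendsto' (by fun_prop) _ _ ?_)
      have : (z.re : ℂ) = z := by apply Complex.ext <;> simp [h]
      simp [this]
    refine ge_of_tendsto t ?_
    filter_upwards [Ioo_mem_nhdsGT a0] with η hη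
    have m := mSq hz.1 (show η ∈ Ioo (-a) a from ⟨by linarith [hη.1], hη.2⟩)
    have n : ((z.re : ℂ) + η * I).im ≠ 0 := by simpa using hη.1.ne'
    have := norm_sub_le_norm_sub_add_norm_sub (H w) (H (z.re + η * I)) (H z)
    rw [norm_sub_rev (H (z.re + η * I)) (H z)] at this
    linarith [L1 _ m n w hw, L1 _ m n z hz]
  have lip : LipschitzOnWith ⟨2 * M, by positivity⟩ H (Sq a) :=
    LipschitzOnWith.of_dist_le_mul fun w hw z hz => by
      rw [dist_eq_norm, dist_eq_norm]; exact L2 z hz w hw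
  have D : ∀ z ∈ Sq a, z.im ≠ 0 → HasDerivAt H (Φ z) z := by
    intro z hz h
    obtain ⟨r, r0, hr⟩ := Metric.isOpen_iff.1 (oSq.inter (isOpen_ne_fun continuous_im
      (continuous_const (y := (0 : ℝ))))) z ⟨hz, h⟩
    have d : DifferentiableOn ℂ Φ (ball z r) := fun w hw =>
      (hd w (hr hw).1 (hr hw).2).differentiableWithinAt
    refine ((d.isConservativeOn.hasDerivAt_wedgeIntegral d.continuousOn
      (mem_ball_self r0)).const_add (H z)).congr_of_eventuallyEq ?_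
    filter_upwards [oSq.mem_nhds hz] with w hw using W z hz h w hw
  have dH : DifferentiableOn ℂ H (Sq a) := by
    refine (isConservativeOn_and_continuousOn_iff_isDifferentiableOn oSq).1 ⟨?_, lip.continuousOn⟩
    intro z w hzw
    have hz : z ∈ Sq a := hzw ⟨left_mem_uIcc, left_mem_uIcc⟩
    have hw : w ∈ Sq a := hzw ⟨right_mem_uIcc, right_mem_uIcc⟩
    rw [← add_eq_zero_iff_eq_neg, wedgeIntegral_add_wedgeIntegral_eq]
    refine rect (M := ‖H z‖ + 2 * M * (4 * a)) (fun u hu h => (D u hu h).differentiableAt)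
      (fun u hu _ => ?_) (ae_of_all _ fun t ht => ?_) hz.1 hw.1 hz.2 hw.2
    · have := L2 z hz u hu
      have p := norm_le_abs_re_add_abs_im (u - z)
      have q : |(u - z).re| ≤ 2 * a := abs_le.2 ⟨by
        simp only [sub_re]; linarith [hu.1.1, hz.1.2], by simp only [sub_re]; linarith [hu.1.2, hz.1.1]⟩
      have q' : |(u - z).im| ≤ 2 * a := abs_le.2 ⟨by
        simp only [sub_im]; linarith [hu.2.1, hz.2.2], by simp only [sub_im]; linarith [hu.2.2, hz.2.1]⟩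
      have := norm_sub_norm_le (H u) (H z)
      nlinarith
    · exact ContinuousAt.comp (f := fun y : ℝ => (t : ℂ) + y * I)
        (lip.continuousOn.continuousAt (oSq.mem_nhds (mSq ht z0))) (by fun_prop)
  exact ⟨deriv H, dH.deriv oSq, fun w hw => norm_deriv_le_of_lipschitzOn (oSq.mem_nhds hw) lip,
    fun w hw h => (D w hw h).deriv⟩

end Pool.Agent.Lib.Helper21.Shir
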