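import Pool.Agent.Lib.helper21.Shir1
import Pool.Agent.Lib.helper21.Peak2
open Complex Set Filter MeasureTheory Metric Topology ComplexConjugate

namespace Pool.Agent.Lib.Helper21.Shir

variable {Θ f : ℂ → ℂ}

lemma ext (hΘ : DifferentiableOn ℂ Θ (ball 0 1)) (h1 : ∀ z ∈ ball (0 : ℂ) 1, ‖Θ z‖ ≤ 1)
    (hl : ∀ᵐ θ : ℝ, ∃ w : ℂ, ‖w‖ = 1 ∧
      Tendsto (fun r : ℝ => Θ (r * exp (θ * I))) (𝓝[<] 1) (𝓝 w))
    {θ0 s ε : ℝ} (s0 : 0 < s) (s1 : s ≤ 1) (ε0 : 0 < ε) (ε1 : ε ≤ 1)
    (h : ∀ z ∈ ball (0 : ℂ) 1, ‖z - exp (θ0 * I)‖ < s → ε ≤ ‖Θ z‖) :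
    ∃ g : ℂ → ℂ, DifferentiableOn ℂ g (ball (exp (θ0 * I)) (s / 8)) ∧
      EqOn g Θ (ball (exp (θ0 * I)) (s / 8) ∩ ball 0 1) ∧
      ∀ z ∈ ball (exp (θ0 * I)) (s / 8), ‖g z‖ ≤ 2 / ε := by
  set ζ := exp (θ0 * I) with hζ
  have n1 : ‖ζ‖ = 1 := norm_exp_ofReal_mul_I θ0
  have ζ0 : ζ ≠ 0 := exp_ne_zero _
  set F : ℂ → ℂ := fun w => Θ (ζ * exp (w * I)) with hF
  have m : ∀ w : ℂ, 0 < w.im → ζ * exp (w * I) ∈ ball (0 : ℂ) 1 := fun w hw => by
    rw [mem_ball_zero_iff, norm_mul, n1, one_mul, norm_exp]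
    simpa using hw
  have dF : ∀ w : ℂ, 0 < w.im → DifferentiableAt ℂ F w := fun w hw =>
    DifferentiableAt.comp (f := fun w => ζ * exp (w * I)) w
      (hΘ.differentiableAt (isOpen_ball.mem_nhds (m w hw))) (by fun_prop)
  have lF : ∀ w ∈ Sq (s / 4), w.im < 0 → ε ≤ ‖F (conj w)‖ := fun w hw h0 => by
    refine h _ (m _ (by simpa)) ?_
    have p := norm_le_abs_re_add_abs_im w
    have q := abs_lt.2 hw.1
    have q' := abs_lt.2 hw.2
    have e : ‖conj w * I‖ = ‖w‖ := by simp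
    have := norm_exp_sub_one_le (x := conj w * I) (by linarith)
    rw [← mul_sub_one, norm_mul, n1, one_mul]
    linarith
  set Φ : ℂ → ℂ := fun w => if 0 < w.im then F w else if w.im < 0 then (conj (F (conj w)))⁻¹
    else limUnder (𝓝[>] 0) fun y : ℝ => F (w + y * I) with hΦ
  have P1 : ∀ w : ℂ, 0 < w.im → Φ w = F w := fun w hw => by simp only [hΦ, if_pos hw]
  have P2 : ∀ w : ℂ, w.im < 0 → Φ w = (conj (F (conj w)))⁻¹ := fun w hw => by
    simp only [hΦ, if_neg hw.not_gt, if_pos hw]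
  obtain ⟨G, dG, bG, eG⟩ := glue (a := s / 4) (M := 1 / ε) (Φ := Φ) (by positivity)
    (fun w hw h0 => by
      rcases lt_or_gt_of_ne h0 with h0 | h0
      · have d := (dF (conj w) (by simpa)).conj_conj
        rw [conj_conj] at d
        refine (d.inv (by
          have := lF w hw h0
          simpa using norm_pos_iff.1 (ε0.trans_le this))).congr_of_eventuallyEq ?_
        filter_upwards [(isOpen_lt continuous_im continuous_const).mem_nhds h0] with u hu using P2 u hu
      · refine (dF w h0).congr_of_eventuallyEq ?_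
        filter_upwards [(isOpen_lt continuous_const continuous_im).mem_nhds h0] with u hu using P1 u hu)
    (fun w hw h0 => by
      rcases lt_or_gt_of_ne h0 with h0 | h0
      · rw [P2 w h0, norm_inv, norm_conj, one_div]
        exact inv_anti₀ ε0 (lF w hw h0)
      · rw [P1 w h0]
        exact (h1 _ (m w h0)).trans (by rw [le_div_iff₀ ε0]; linarith))
    (by
      filter_upwards [(measurePreserving_add_left volume θ0).quasiMeasurePreserving.ae hl] with t ht _
      obtain ⟨w, w1, ht⟩ := ht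
      have t1 : Tendsto (fun y : ℝ => F (t + y * I)) (𝓝[>] 0) (𝓝 w) := by
        have : Tendsto (fun y : ℝ => Real.exp (-y)) (𝓝[>] 0) (𝓝[<] 1) :=
          tendsto_nhdsWithin_iff.2 ⟨tendsto_nhdsWithin_of_tendsto_nhds
            (Continuous.tendsto' (by fun_prop) _ _ (by simp)), by
              filter_upwards [self_mem_nhdsWithin] with y hy using by simpa using hy⟩
        refine (ht.comp this).congr fun y => ?_
        simp only [hF, hζ, Function.comp, ← exp_add, ofReal_exp]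
        congr 2; push_cast; linear_combination (-y : ℂ) * I_mul_I
      have v : Φ (t + (0 : ℝ) * I) = w := by
        simp only [hΦ]; simp [t1.limUnder_eq]
      refine continuousAt_iff_continuous_left'_right'.2 ⟨?_, ?_⟩
      · have t2 : Tendsto (fun y : ℝ => (conj (F (t + (-y : ℝ) * I)))⁻¹) (𝓝[<] 0) (𝓝 (conj w)⁻¹) :=
          ((continuous_conj.tendsto w).comp (t1.comp (by
            simpa using tendsto_neg_nhdsLT (a := (0 : ℝ))))).inv₀ (by
              rw [← norm_pos_iff, norm_conj, w1]; exact one_pos)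
        rw [← map_inv₀, inv_eq_conj w1, conj_conj] at t2
        rw [ContinuousWithinAt, v]
        refine t2.congr' ?_
        filter_upwards [self_mem_nhdsWithin] with y hy
        rw [P2 _ (by simpa using hy)]; simp
      · rw [ContinuousWithinAt, v]
        refine t1.congr' ?_
        filter_upwards [self_mem_nhdsWithin] with y hy
        rw [P1 _ (by simpa using hy)])
  have k : ∀ z ∈ ball ζ (s / 8), z / ζ ∈ slitPlane ∧ -I * log (z / ζ) ∈ Sq (s / 4) := fun z hz => by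
    have e : z / ζ = 1 + (z - ζ) / ζ := by field_simp; ring
    have n : ‖(z - ζ) / ζ‖ < s / 8 := by rw [norm_div, n1, div_one]; exact mem_ball_iff_norm.1 hz
    have l := norm_log_one_add_half_le_self (z := (z - ζ) / ζ) (by linarith)
    rw [← e] at l
    have l' : ‖-I * log (z / ζ)‖ < s / 4 := by rw [norm_mul, norm_neg, norm_I, one_mul]; linarith
    exact ⟨e ▸ mem_slitPlane_of_norm_lt_one (by linarith), abs_lt.1 ((abs_re_le_norm _).trans_lt l'),
      abs_lt.1 ((abs_im_le_norm _).trans_lt l')⟩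
  refine ⟨fun z => G (-I * log (z / ζ)), fun z hz => (DifferentiableAt.comp
    (f := fun z => -I * log (z / ζ)) z (dG.differentiableAt (oSq.mem_nhds (k z hz).2))
    (((differentiableAt_id.div_const ζ).clog (k z hz).1).const_mul _)).differentiableWithinAt,
    fun z hz => ?_, fun z hz => (bG _ (k z hz).2).trans_eq (by ring)⟩
  have z0 : z / ζ ≠ 0 := slitPlane_ne_zero (k z hz.1).1
  have p : 0 < (-I * log (z / ζ)).im := by
    have := Real.log_neg (norm_pos_iff.2 z0) (by rw [norm_div, n1, div_one]; simpa using hz.2)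
    simpa [log_re] using this
  simp only
  rw [eG _ (k z hz.1).2 p.ne', P1 _ p]
  simp only [hF]
  rw [show -I * log (z / ζ) * I = log (z / ζ) by linear_combination (-log (z / ζ)) * I_mul_I,
    exp_log z0, mul_div_cancel₀ _ ζ0]

lemma null (hf : DifferentiableOn ℂ f (ball 0 1)) (hc : ContinuousOn f (closedBall 0 1))
    (hz : ∃ z ∈ ball (0 : ℂ) 1, f z ≠ 0) : volume {θ : ℝ | f (exp (θ * I)) = 0} = 0 := by
  have hA := hf.analyticOnNhd isOpen_ball
  have hne := (hA.eqOn_zero_or_eventually_ne_zero_of_preconnected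
    (convex_ball 0 1).isPreconnected).resolve_left fun h => hz.elim fun z hz => hz.2 (h hz.1)
  obtain ⟨K, hK⟩ := Peak2.jensen hf
  obtain ⟨B, hB⟩ := (isCompact_closedBall (0 : ℂ) 1).exists_bound_of_continuousOn hc
  have hpi := Real.pi_gt_three
  set Z := {θ : ℝ | f (exp (θ * I)) = 0} with hZ
  have mZ : MeasurableSet Z := (isClosed_eq (hc.comp_continuous (by fun_prop) fun θ => by
    simp [norm_exp_ofReal_mul_I]) continuous_const).measurableSet
  refine measure_null_of_locally_null _ fun x _ => ⟨Ioc (x - 1) (x - 1 + 2 * Real.pi) ∩ Z,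
    inter_mem (mem_nhdsWithin_of_mem_nhds (Ioc_mem_nhds (by linarith) (by linarith)))
      self_mem_nhdsWithin, ?_⟩
  generalize x - 1 = c
  rw [← measureReal_eq_zero_iff ((measure_mono inter_subset_left).trans_lt measure_Ioc_lt_top).ne]
  set m := volume.real (Ioc c (c + 2 * Real.pi) ∩ Z) with hm
  have key : ∀ T : ℝ, T * m ≤ 2 * Real.pi * (B - K) := by
    intro T
    obtain ⟨δ, δ0, hδ⟩ := Metric.uniformContinuousOn_iff.1
      ((isCompact_closedBall (0 : ℂ) 1).uniformContinuousOn_of_continuous hc) _ (Real.exp_pos (B - T))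
    obtain ⟨r, h1, h2, h3⟩ : ∃ r : ℝ, 1 / 2 ≤ r ∧ r < 1 ∧ 1 - δ < r :=
      ⟨max (1 / 2) (1 - δ / 2), le_max_left _ _, max_lt (by norm_num) (by linarith),
        lt_max_of_lt_right (by linarith)⟩
    have hr : 0 < r := by linarith
    have hsub : sphere (0 : ℂ) |r| ⊆ ball 0 1 := sphere_subset_closedBall.trans
      (closedBall_subset_ball (by rwa [abs_of_pos hr]))
    have h4 := hK r h1 h2
    have per : Function.Periodic (fun x => Real.log ‖f (circleMap 0 r x)‖) (2 * Real.pi) :=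
      fun x => by simp only [periodic_circleMap 0 r x]
    have ii : IntervalIntegrable (fun x => Real.log ‖f (circleMap 0 r x)‖) volume 0 (2 * Real.pi) :=
      (hA.mono hsub).meromorphicOn.circleIntegrable_log_norm
    have iZ : IntervalIntegrable (Z.indicator fun _ => T) volume c (c + 2 * Real.pi) :=
      intervalIntegrable_iff.2 ((integrableOn_const (by simp [uIoc])).indicator mZ)
    have h5 : ∫ x in c..c + 2 * Real.pi, Real.log ‖f (circleMap 0 r x)‖
        ≤ ∫ x in c..c + 2 * Real.pi, (B - Z.indicator (fun _ => T) x) := by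
      refine intervalIntegral.integral_mono_ae_restrict (by linarith)
        (per.intervalIntegrable₀ (by positivity) ii _ _) (intervalIntegrable_const.sub iZ) ?_
      apply ae_restrict_le_codiscreteWithin measurableSet_Icc
      apply codiscreteWithin_mono (subset_univ _)
      filter_upwards [circleMap_preimage_codiscrete hr.ne' (codiscreteWithin_mono hsub hne)] with x hx
      have hxb := ball_subset_closedBall (hsub (circleMap_mem_sphere' 0 r x))
      by_cases hk : x ∈ Z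
      · rw [indicator_of_mem hk, Real.log_le_iff_le_exp (norm_pos_iff.2 hx)]
        have := hδ _ hxb (exp (x * I)) (by simp [norm_exp_ofReal_mul_I]) (by
          rw [dist_eq_norm, circleMap_zero, ← sub_one_mul, norm_mul, norm_exp_ofReal_mul_I, mul_one]
          norm_cast
          rw [Real.norm_eq_abs, abs_of_neg (by linarith)]; linarith)
        rw [hk, dist_zero_right] at this
        exact this.le
      · rw [indicator_of_notMem hk, sub_zero]
        exact (Real.log_le_self (norm_nonneg _)).trans (hB _ hxb)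
    rw [intervalIntegral.integral_sub intervalIntegrable_const iZ, per.intervalIntegral_add_eq c 0,
      intervalIntegral.integral_of_le (a := c) (f := Z.indicator _) (by linarith),
      setIntegral_indicator mZ, setIntegral_const, ← hm] at h5
    rw [Real.circleAverage_def, smul_eq_mul, le_inv_mul_iff₀ (by linarith)] at h4
    simp only [intervalIntegral.integral_const, smul_eq_mul, zero_add, add_sub_cancel_left] at h5
    linarith
  by_contra h
  have m0 : 0 < m := lt_of_le_of_ne measureReal_nonneg (Ne.symm h)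
  have := key ((2 * Real.pi * (B - K) + 1) / m)
  rw [div_mul_cancel₀ _ m0.ne'] at this
  linarith

lemma julia (hΘ : DifferentiableOn ℂ Θ (ball 0 1)) (h1 : ∀ z ∈ ball (0 : ℂ) 1, ‖Θ z‖ ≤ 1)
    {ζ w : ℂ} (hζ : ‖ζ‖ = 1) {ρ r : ℝ} (ρ0 : 0 ≤ ρ) (ρ1 : ρ < 1) (h : ‖Θ (ρ * ζ)‖ < 1 / 2)
    {g : ℂ → ℂ} (r0 : 0 < r) (hg : DifferentiableOn ℂ g (ball ζ r))
    (e : EqOn g Θ (ball ζ r ∩ ball 0 1)) (hw : ‖w‖ = 1)
    (t : Tendsto (fun x : ℝ => Θ (x * ζ)) (𝓝[<] 1) (𝓝 w)) : 1 / (8 * (1 - ρ)) ≤ ‖deriv g ζ‖ := by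
  set A := Θ (ρ * ζ) with hA
  have s : ball ((ρ : ℂ) * ζ) (1 - ρ) ⊆ ball 0 1 := ball_subset_ball' (by
    simp [hζ, abs_of_nonneg ρ0])
  have id : ∀ u : ℂ, ‖1 - conj A * u‖ ^ 2 - ‖u - A‖ ^ 2 = (1 - ‖A‖ ^ 2) * (1 - ‖u‖ ^ 2) := fun u => by
    simp only [Complex.sq_norm, normSq_apply]; simp; ring
  have lb : ∀ u : ℂ, ‖u‖ ≤ 1 → 1 / 2 ≤ ‖1 - conj A * u‖ := fun u hu => by
    have := norm_sub_norm_le 1 (conj A * u)
    rw [norm_mul, norm_conj, norm_one] at this
    nlinarith [norm_nonneg A, norm_nonneg u]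
  have key : ∀ x ∈ Ioo ρ 1, (1 - x) / (8 * (1 - ρ)) ≤ 1 - ‖Θ (x * ζ)‖ := by
    intro x hx
    have d : dist ((x : ℂ) * ζ) (ρ * ζ) = x - ρ := by
      rw [dist_eq_norm, ← sub_mul, norm_mul, hζ, mul_one]; norm_cast
      exact abs_of_pos (by linarith [hx.1])
    have xb : (x : ℂ) * ζ ∈ ball ((ρ : ℂ) * ζ) (1 - ρ) := by rw [mem_ball, d]; linarith [hx.2]
    have q := dist_le_div_mul_dist_of_mapsTo_ball (f := fun z => (Θ z - A) / (1 - conj A * Θ z))
      (R₂ := 1) (((hΘ.mono s).sub_const _).div (((hΘ.mono s).const_mul _).const_sub _) fun z hz =>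
        norm_pos_iff.1 (by linarith [lb _ (h1 z (s hz))])) (fun z hz => by
          have := lb _ (h1 z (s hz))
          simp only [← hA, sub_self, zero_div, mem_closedBall_zero_iff, norm_div]
          rw [div_le_one (by linarith)]
          refine abs_le_of_sq_le_sq' ?_ (norm_nonneg _) |>.2
          have a := id (Θ z)
          have : 0 ≤ (1 - ‖A‖ ^ 2) * (1 - ‖Θ z‖ ^ 2) := mul_nonneg (by nlinarith [norm_nonneg A])
            (by nlinarith [norm_nonneg (Θ z), h1 z (s hz)])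
          linarith) xb
    have u1 := h1 _ (s xb)
    have l := lb _ u1
    have a := id (Θ (x * ζ))
    simp only [← hA, sub_self, zero_div, dist_zero_right, norm_div, d] at q
    rw [div_le_iff₀ (by linarith)] at q
    set u := ‖Θ (x * ζ)‖
    set N := ‖1 - conj A * Θ (x * ζ)‖
    set P := ‖Θ (x * ζ) - A‖
    obtain ⟨τ, hτ⟩ : ∃ τ, τ = (1 - x) / (1 - ρ) := ⟨_, rfl⟩
    have p1 : 0 < 1 - ρ := by linarith
    have τ0 : 0 ≤ τ := by rw [hτ]; exact div_nonneg (by linarith [hx.2]) p1.le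
    have τ1 : τ ≤ 1 := by rw [hτ, div_le_one p1]; linarith [hx.1]
    rw [show 1 / (1 - ρ) * (x - ρ) = 1 - τ by rw [hτ]; field_simp; ring] at q
    rw [show (1 - x) / (8 * (1 - ρ)) = τ / 8 by rw [hτ]; field_simp]
    have b1 : P ^ 2 ≤ ((1 - τ) * N) ^ 2 := by gcongr
    have b2 : τ * (1 / 4) ≤ (1 - (1 - τ) ^ 2) * N ^ 2 := by
      gcongr <;> nlinarith
    have b3 : (1 - ‖A‖ ^ 2) * (1 - u ^ 2) ≤ 1 - u ^ 2 := by
      have : 0 ≤ 1 - u ^ 2 := by nlinarith [norm_nonneg (Θ (x * ζ))]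
      nlinarith [sq_nonneg ‖A‖]
    nlinarith [sq_nonneg (1 - u)]
  have D : HasDerivAt (fun x : ℝ => g (x * ζ)) (deriv g ζ * ζ) 1 := by
    have d0 : HasDerivAt g (deriv g ζ) (((1 : ℝ) : ℂ) * ζ) := by
      simpa using (hg.differentiableAt (ball_mem_nhds ζ r0)).hasDerivAt
    exact (HasDerivAt.comp (h := fun x => x * ζ) _ d0 (hasDerivAt_mul_const ζ)).comp_ofReal
  have ev : ∀ᶠ x : ℝ in 𝓝[<] 1, g (x * ζ) = Θ (x * ζ) ∧ x ∈ Ioo ρ 1 := by
    have : Tendsto (fun x : ℝ => (x : ℂ) * ζ) (𝓝[<] 1) (𝓝 ζ) :=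
      tendsto_nhdsWithin_of_tendsto_nhds (Continuous.tendsto' (by fun_prop) _ _ (by simp))
    filter_upwards [this (ball_mem_nhds ζ r0), Ioo_mem_nhdsLT ρ1] with x h1 h2
    refine ⟨e ⟨h1, ?_⟩, h2⟩
    simpa [hζ, abs_of_nonneg (ρ0.trans h2.1.le)] using h2.2
  have gw : g (((1 : ℝ) : ℂ) * ζ) = w := tendsto_nhds_unique
    (tendsto_nhdsWithin_of_tendsto_nhds D.continuousAt) (t.congr' (ev.mono fun x hx => hx.1.symm))
  have := (D.tendsto_slope.mono_left (nhdsLT_le_nhdsNE 1)).norm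
  rw [norm_mul, hζ, mul_one] at this
  refine ge_of_tendsto this (ev.mono fun x hx => ?_)
  have k := key x hx.2
  have p : 0 < 1 - x := by linarith [hx.2.2]
  rw [slope_def_module, gw, hx.1, norm_smul, norm_inv, Real.norm_eq_abs, abs_sub_comm, abs_of_pos p,
    le_inv_mul_iff₀ p, mul_one_div]
  have := norm_sub_norm_le w (Θ (x * ζ))
  rw [norm_sub_rev] at this
  linarith

lemma tam (hf : DifferentiableOn ℂ f (ball 0 1)) (hc : ContinuousOn f (closedBall 0 1))
    {ζ z : ℂ} (hζ : ‖ζ‖ = 1) {A δ : ℝ} (A0 : 0 ≤ A) (δ0 : 0 < δ)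
    (h : ∀ η : ℂ, ‖η‖ = 1 → ‖f η - f ζ‖ ≤ A * (δ + ‖η - ζ‖)) (hz : ‖z‖ ≤ 1) :
    ‖f z - f ζ‖ ≤ 2 * A * (δ + ‖z - ζ‖) := by
  have n : ∀ z : ℂ, ‖1 - conj ζ * z‖ = ‖z - ζ‖ := fun z => by
    rw [← one_mul ‖z - ζ‖, ← hζ, ← norm_conj ζ, ← norm_mul, mul_sub, conj_mul', hζ, norm_sub_rev]
    simp
  have lb : ∀ z : ℂ, ‖z‖ ≤ 1 → δ + ‖z - ζ‖ ≤ 2 * ‖δ + (1 - conj ζ * z)‖ := fun z hz => by
    rw [← n]
    have r : 0 ≤ (1 - conj ζ * z).re := by
      have := re_le_norm (conj ζ * z)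
      rw [norm_mul, norm_conj, hζ] at this
      rw [sub_re, one_re]; linarith
    generalize 1 - conj ζ * z = u at r
    refine abs_le_of_sq_le_sq' ?_ (by positivity) |>.2
    have e : ‖δ + u‖ ^ 2 = δ ^ 2 + 2 * δ * u.re + ‖u‖ ^ 2 := by
      simp only [Complex.sq_norm, normSq_apply]; simp; ring
    nlinarith [sq_nonneg (δ - ‖u‖), mul_nonneg δ0.le r]
  have p : ∀ z : ℂ, ‖z‖ ≤ 1 → 0 < ‖δ + (1 - conj ζ * z)‖ := fun z hz => by
    linarith [lb z hz, norm_nonneg (z - ζ)]
  have k := norm_le_of_forall_mem_frontier_norm_le (U := ball (0 : ℂ) 1) isBounded_ball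
    (f := fun z => (f z - f ζ) / (δ + (1 - conj ζ * z))) (C := 2 * A) ⟨(hf.sub_const _).div
      (by fun_prop) fun z hz => norm_pos_iff.1 (p z (mem_ball_zero_iff.1 hz).le), by
        rw [closure_ball _ one_ne_zero]
        exact (hc.sub continuousOn_const).div (by fun_prop) fun z hz =>
          norm_pos_iff.1 (p z (mem_closedBall_zero_iff.1 hz))⟩ (fun η hη => by
      rw [frontier_ball _ one_ne_zero, mem_sphere_zero_iff_norm] at hη
      rw [norm_div, div_le_iff₀ (p η hη.le)]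
      nlinarith [h η hη, lb η hη.le]) (z := z) (by rw [closure_ball _ one_ne_zero]; simpa)
  rw [norm_div, div_le_iff₀ (p z hz)] at k
  refine k.trans (mul_le_mul_of_nonneg_left ((norm_add_le _ _).trans_eq ?_) (by positivity))
  rw [n, norm_real, Real.norm_of_nonneg δ0.le]

end Pool.Agent.Lib.Helper21.Shir
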