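import Mathlib

/-! A `C²` function `ζ` vanishing on `(-∞, 0]`, positive and convex on `(0, ∞)`, whose second derivative lives on
very short intervals, so that `(ζ'' / ζ) ^ r` is integrable for a given `r < 1`. -/

set_option autoImplicit false

namespace Pool.Agent.Lib.Helper21.SparseConvex

open MeasureTheory Set

noncomputable section

lemma mvt {f f' : ℝ → ℝ} (hf : ∀ x, HasDerivAt f (f' x) x) {a b c : ℝ} (hab : a ≤ b)
    (hc : ∀ x, a < x → x < b → c ≤ f' x) : f a + c * (b - a) ≤ f b := by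
  rcases hab.eq_or_lt with rfl | hlt
  · simp
  obtain ⟨ξ, hξ, e⟩ := exists_hasDerivAt_eq_slope f f' hlt
    (fun x _ => (hf x).continuousAt.continuousWithinAt) (fun x _ => hf x)
  have := hc ξ hξ.1 hξ.2
  rw [e, le_div_iff₀ (by linarith)] at this
  linarith

def J (θ : ℝ) (k : ℕ) : Set ℝ := Ioo ((1 / 2) ^ k) ((1 / 2) ^ k + θ ^ (k + 1))
def h (θ s : ℝ) : ℝ := Metric.infDist s (⋃ k, J θ k)ᶜ
def η (θ s : ℝ) : ℝ := ∫ t in (0 : ℝ)..s, h θ t
def ζ (θ s : ℝ) : ℝ := ∫ t in (0 : ℝ)..s, η θ t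

lemma h_cont (θ : ℝ) : Continuous (h θ) := Metric.continuous_infDist_pt _
lemma h_nonneg (θ s : ℝ) : 0 ≤ h θ s := Metric.infDist_nonneg
lemma dη (θ s : ℝ) : HasDerivAt (η θ) (h θ s) s := ((h_cont θ).integral_hasStrictDerivAt 0 s).hasDerivAt
lemma η_cont (θ : ℝ) : Continuous (η θ) := continuous_iff_continuousAt.2 fun s => (dη θ s).continuousAt
lemma dζ (θ s : ℝ) : HasDerivAt (ζ θ) (η θ s) s := ((η_cont θ).integral_hasStrictDerivAt 0 s).hasDerivAt
lemma ζ_cont (θ : ℝ) : Continuous (ζ θ) := continuous_iff_continuousAt.2 fun s => (dζ θ s).continuousAt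

lemma h_zero {θ s : ℝ} (hs : ∀ k, s ∉ J θ k) : h θ s = 0 :=
  Metric.infDist_zero_of_mem (by simpa using hs)

lemma h_neg (θ : ℝ) {s : ℝ} (hs : s ≤ 0) : h θ s = 0 :=
  h_zero fun k hk => absurd (hk.1.trans_le hs) (not_lt.2 (by positivity))

lemma η_neg (θ : ℝ) {s : ℝ} (hs : s ≤ 0) : η θ s = 0 := by
  unfold η
  rw [intervalIntegral.integral_congr (g := fun _ => 0)]
  · simp
  · intro t ht
    rw [uIcc_of_ge hs] at ht
    exact h_neg θ ht.2

lemma ζ_neg (θ : ℝ) {s : ℝ} (hs : s ≤ 0) : ζ θ s = 0 := by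
  unfold ζ
  rw [intervalIntegral.integral_congr (g := fun _ => 0)]
  · simp
  · intro t ht
    rw [uIcc_of_ge hs] at ht
    exact η_neg θ ht.2

lemma η_mono (θ : ℝ) {a b : ℝ} (hab : a ≤ b) : η θ a ≤ η θ b := by
  simpa using mvt (dη θ) hab (c := 0) fun x _ _ => h_nonneg θ x

lemma η_nonneg (θ s : ℝ) : 0 ≤ η θ s := by
  rcases le_total s 0 with hs | hs
  · rw [η_neg θ hs]
  · rw [← η_neg θ le_rfl]; exact η_mono θ hs

lemma ζ_mono (θ : ℝ) {a b : ℝ} (hab : a ≤ b) : ζ θ a ≤ ζ θ b := by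
  simpa using mvt (dζ θ) hab (c := 0) fun x _ _ => η_nonneg θ x

lemma ζ_nonneg (θ s : ℝ) : 0 ≤ ζ θ s := by
  rcases le_total s 0 with hs | hs
  · rw [ζ_neg θ hs]
  · rw [← ζ_neg θ le_rfl]; exact ζ_mono θ hs

variable {θ : ℝ}

lemma len_le (h0 : 0 < θ) (h1 : θ ≤ 1 / 2) (k : ℕ) : θ ^ (k + 1) ≤ (1 / 2) ^ k / 2 := by
  have := pow_le_pow_left₀ h0.le h1 (k + 1)
  rw [pow_succ (1 / 2 : ℝ)] at this
  linarith

lemma h_le (h0 : 0 < θ) (h1 : θ ≤ 1 / 2) {k : ℕ} {s : ℝ} (hs : s ∈ J θ k) : h θ s ≤ θ ^ (k + 1) := by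
  have hm : ((1 : ℝ) / 2) ^ k ∈ (⋃ k, J θ k)ᶜ := by
    simp only [mem_compl_iff, mem_iUnion, not_exists]
    rintro j ⟨a1, a2⟩
    have hkj : k < j := (pow_lt_pow_iff_right_of_lt_one₀ (by norm_num) (by norm_num)).1 a1
    have e1 : ((1 : ℝ) / 2) ^ j ≤ (1 / 2) ^ (k + 1) := pow_le_pow_of_le_one (by norm_num) (by norm_num) hkj
    have e2 := len_le h0 h1 j
    rw [pow_succ] at e1
    have : (0 : ℝ) < (1 / 2) ^ k := by positivity
    linarith
  refine (Metric.infDist_le_dist_of_mem hm).trans ?_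
  rw [Real.dist_eq, abs_of_pos (by linarith [hs.1])]
  linarith [hs.2]

lemma η_ge (h0 : 0 < θ) (k : ℕ) {s : ℝ} (hs : (1 / 2) ^ k + θ ^ (k + 1) ≤ s) : (θ ^ (k + 1)) ^ 2 / 8 ≤ η θ s := by
  have hl : 0 < θ ^ (k + 1) := by positivity
  have := mvt (dη θ) (a := (1 / 2) ^ k + θ ^ (k + 1) / 4) (b := (1 / 2) ^ k + 3 * θ ^ (k + 1) / 4)
    (c := θ ^ (k + 1) / 4) (by linarith) (fun x a1 a2 => by
      unfold h
      rw [Metric.le_infDist ⟨0, by
        simp only [mem_compl_iff, mem_iUnion, not_exists]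
        exact fun j hj => absurd hj.1 (not_lt.2 (by positivity))⟩]
      intro y hy
      simp only [mem_compl_iff, mem_iUnion, not_exists] at hy
      have := hy k
      simp only [J, mem_Ioo, not_and_or, not_lt] at this
      rw [Real.dist_eq, le_abs]
      rcases this with h | h
      · left; linarith
      · right; linarith)
  have e1 := η_nonneg θ ((1 / 2) ^ k + θ ^ (k + 1) / 4)
  have e2 := η_mono θ (a := (1 / 2) ^ k + 3 * θ ^ (k + 1) / 4) (b := s) (by linarith)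
  nlinarith

lemma ζ_ge (h0 : 0 < θ) (h1 : θ ≤ 1 / 2) (k : ℕ) {s : ℝ} (hs : (1 / 2) ^ k ≤ s) :
    (θ ^ (k + 2)) ^ 2 * (1 / 2) ^ k / 32 ≤ ζ θ s := by
  have hx : (0 : ℝ) < (1 / 2) ^ k := by positivity
  have := mvt (dζ θ) (a := 3 / 4 * (1 / 2) ^ k) (b := (1 / 2) ^ k) (c := (θ ^ (k + 2)) ^ 2 / 8) (by linarith)
    (fun x a1 _ => η_ge h0 (k + 1) (by
      have := len_le h0 h1 (k + 1)
      rw [pow_succ (1 / 2 : ℝ)] at this ⊢
      linarith))
  have e1 := ζ_nonneg θ (3 / 4 * (1 / 2) ^ k)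
  have e2 := ζ_mono θ hs
  nlinarith

lemma ζ_pos (h0 : 0 < θ) (h1 : θ ≤ 1 / 2) {s : ℝ} (hs : 0 < s) : 0 < ζ θ s := by
  obtain ⟨k, hk⟩ := exists_pow_lt_of_lt_one hs (by norm_num : (1 / 2 : ℝ) < 1)
  exact lt_of_lt_of_le (by positivity) (ζ_ge h0 h1 k hk.le)

def q (θ s : ℝ) : ℝ := h θ s / ζ θ s

lemma q_nonneg (θ s : ℝ) : 0 ≤ q θ s := div_nonneg (h_nonneg θ s) (ζ_nonneg θ s)
lemma q_meas (θ : ℝ) : Measurable (q θ) := (h_cont θ).measurable.div (ζ_cont θ).measurable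

lemma q_mul (h0 : 0 < θ) (h1 : θ ≤ 1 / 2) (s : ℝ) : q θ s * ζ θ s = h θ s := by
  rcases le_or_gt s 0 with hs | hs
  · rw [ζ_neg θ hs, h_neg θ hs, mul_zero]
  · exact div_mul_cancel₀ _ (ζ_pos h0 h1 hs).ne'

lemma q_le (h0 : 0 < θ) (h1 : θ ≤ 1 / 2) {k : ℕ} {s : ℝ} (hs : s ∈ J θ k) : q θ s ≤ 32 / θ ^ 3 * (2 / θ) ^ k := by
  unfold q
  refine (div_le_div₀ (by positivity) (h_le h0 h1 hs) (by positivity) (ζ_ge h0 h1 k hs.1.le)).trans (le_of_eq ?_)
  rw [div_pow, div_pow]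
  field_simp
  ring

theorem exists_θ {r : ℝ} (hr0 : 0 < r) (hr1 : r < 1) :
    ∃ θ : ℝ, 0 < θ ∧ θ ≤ 1 / 2 ∧ Integrable fun s => q θ s ^ r := by
  let θ : ℝ := (1 / 4) ^ (1 / (1 - r))
  have h0 : 0 < θ := by positivity
  have h1 : θ ≤ 1 / 2 := by
    have : θ ≤ (1 / 4 : ℝ) ^ (1 : ℝ) := Real.rpow_le_rpow_of_exponent_ge (by norm_num) (by norm_num) (by
      rw [le_div_iff₀ (by linarith)]; linarith)
    rw [Real.rpow_one] at this
    linarith
  have hρ : (2 / θ) ^ r * θ ≤ 1 / 2 := by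
    have e1 : θ ^ (1 - r) = 1 / 4 := by
      simp only [θ]
      rw [← Real.rpow_mul (by norm_num), one_div_mul_cancel (by linarith), Real.rpow_one]
    have e2 : (2 : ℝ) ^ r ≤ 2 := by
      have := Real.rpow_le_rpow_of_exponent_le (x := 2) (by norm_num) hr1.le
      rwa [Real.rpow_one] at this
    rw [Real.div_rpow (by norm_num) h0.le, div_mul_eq_mul_div, mul_div_assoc]
    rw [Real.rpow_sub h0, Real.rpow_one] at e1
    rw [e1]
    linarith
  refine ⟨θ, h0, h1, ?_⟩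
  have hm : Measurable fun s => q θ s ^ r := (q_meas θ).pow_const r
  have hb : ∀ k, ∀ s ∈ J θ k, ‖q θ s ^ r‖ ≤ (32 / θ ^ 3 * (2 / θ) ^ k) ^ r := by
    intro k s hs
    rw [Real.norm_eq_abs, abs_of_nonneg (Real.rpow_nonneg (q_nonneg θ s) _)]
    exact Real.rpow_le_rpow (q_nonneg θ s) (q_le h0 h1 hs) hr0.le
  have hfin : ∀ k, volume (J θ k) < ⊤ := fun k => by simp [J]
  rw [← integrableOn_iff_integrable_of_support_subset (s := ⋃ k, J θ k)]
  · refine integrableOn_iUnion_of_summable_integral_norm (fun k => ?_) ?_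
    · exact Measure.integrableOn_of_bounded (hfin k).ne hm.aestronglyMeasurable
        ((ae_restrict_iff' measurableSet_Ioo).2 (Filter.Eventually.of_forall (hb k)))
    · refine Summable.of_nonneg_of_le (fun k => integral_nonneg fun _ => norm_nonneg _) (fun k => ?_)
        ((summable_geometric_of_lt_one (r := 1 / 2) (by norm_num) (by norm_num)).mul_left ((32 / θ ^ 3) ^ r * θ))
      have := norm_setIntegral_le_of_norm_le_const (f := fun s => ‖q θ s ^ r‖) (hfin k)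
        (C := (32 / θ ^ 3 * (2 / θ) ^ k) ^ r) (fun s hs => by rw [norm_norm]; exact hb k s hs)
      refine (le_abs_self _).trans (this.trans ?_)
      have e : volume.real (J θ k) = θ ^ (k + 1) := by
        simp only [J]
        rw [Real.volume_real_Ioo_of_le (by linarith [pow_pos h0 (k + 1)])]
        ring
      rw [e, Real.mul_rpow (by positivity) (by positivity), ← Real.rpow_natCast (2 / θ) k,
        ← Real.rpow_mul (by positivity), mul_comm (k : ℝ) r, Real.rpow_mul (by positivity), Real.rpow_natCast]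
      have e3 := pow_le_pow_left₀ (by positivity) hρ k
      rw [mul_pow] at e3
      have e4 := mul_le_mul_of_nonneg_left e3 (by positivity : 0 ≤ (32 / θ ^ 3) ^ r * θ)
      refine le_trans (le_of_eq ?_) e4
      ring
  · intro s hs
    by_contra hn
    apply hs
    have : h θ s = 0 := h_zero (by simpa using hn)
    simp [q, this, hr0.ne']

end

end Pool.Agent.Lib.Helper21.SparseConvex
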