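import Mathlib

/-! The Steinitz rearrangement lemma in the sup norm (argument of Grinberg and Sevastyanov). -/

set_option autoImplicit false

namespace Pool.Agent.Lib.Helper21.Steinitz

open Finset

open Classical in
lemma round {ι : Type} (d : ℕ) (v : ι → Fin d → ℝ) (A : Finset ι) (N : ℕ) :
    ∀ lam : ι → ℝ, (∀ i ∈ A, 0 ≤ lam i ∧ lam i ≤ 1) →
      (A.filter fun i => 0 < lam i ∧ lam i < 1).card ≤ N →
      ∃ mu : ι → ℝ, (∀ i ∈ A, 0 ≤ mu i ∧ mu i ≤ 1) ∧ ∑ i ∈ A, mu i = ∑ i ∈ A, lam i ∧
        (∀ j, ∑ i ∈ A, mu i * v i j = ∑ i ∈ A, lam i * v i j) ∧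
        (A.filter fun i => 0 < mu i ∧ mu i < 1).card ≤ d + 1 := by
  induction N with
  | zero => exact fun lam h1 h2 => ⟨lam, h1, rfl, fun _ => rfl, by omega⟩
  | succ N ih =>
    intro lam h1 h2
    set F := A.filter fun i => 0 < lam i ∧ lam i < 1 with hF
    by_cases hc : F.card ≤ d + 1
    · exact ⟨lam, h1, rfl, fun _ => rfl, hc⟩
    let w : F → Option (Fin d) → ℝ := fun i o => o.elim 1 (v i)
    have hdep : ¬ LinearIndependent ℝ w := by
      intro hli
      have := hli.fintype_card_le_finrank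
      simp at this
      omega
    obtain ⟨g0, hg0, i1, hi1⟩ := Fintype.not_linearIndependent_iff.1 hdep
    let g : ι → ℝ := fun i => if h : i ∈ F then g0 ⟨i, h⟩ else 0
    have hgF : ∀ i, i ∉ F → g i = 0 := fun i hi => dif_neg hi
    have hsum : ∀ φ : ι → ℝ, ∑ i ∈ A, g i * φ i = ∑ i : F, g0 i * φ i := by
      intro φ
      rw [← sum_subset (filter_subset (fun i => 0 < lam i ∧ lam i < 1) A)
        (fun i _ hi => by rw [hgF i hi, zero_mul]), ← sum_coe_sort]
      exact sum_congr rfl fun i _ => by simp [g]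
    have hs1 : ∑ i ∈ A, g i = 0 := by
      have := congrFun hg0 none
      simp only [Finset.sum_apply, Pi.smul_apply, smul_eq_mul, w, Option.elim, Pi.zero_apply] at this
      have h3 := hsum fun _ => 1
      simp only [mul_one] at h3 this
      rw [h3, this]
    have hs2 : ∀ j, ∑ i ∈ A, g i * v i j = 0 := by
      intro j
      have := congrFun hg0 (some j)
      simp only [Finset.sum_apply, Pi.smul_apply, smul_eq_mul, w, Option.elim, Pi.zero_apply] at this
      rw [hsum, this]
    let G := F.filter fun i => g i ≠ 0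
    have hG : G.Nonempty := ⟨i1, mem_filter.2 ⟨i1.2, by simpa [g] using hi1⟩⟩
    let τ : ι → ℝ := fun i => if 0 < g i then (1 - lam i) / g i else lam i / (-g i)
    obtain ⟨i0, hi0, hmin⟩ := exists_min_image G τ hG
    obtain ⟨hi0F, hg0'⟩ := mem_filter.1 hi0
    have hτ : ∀ i ∈ G, 0 < τ i := by
      intro i hi
      obtain ⟨hiF, hgi⟩ := mem_filter.1 hi
      have := (mem_filter.1 hiF).2
      simp only [τ]
      split_ifs with h
      · exact div_pos (by linarith) h
      · exact div_pos this.1 (by have := lt_of_le_of_ne (not_lt.1 h) hgi; linarith)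
    have ht := hτ i0 hi0
    obtain ⟨mu, m1, m2, m3, m4⟩ := ih (fun i => lam i + τ i0 * g i) (by
      intro i hi
      by_cases hgi : g i = 0
      · simpa [hgi] using h1 i hi
      · have hiF : i ∈ F := by by_contra h; exact hgi (hgF i h)
        have hle := hmin i (mem_filter.2 ⟨hiF, hgi⟩)
        have := h1 i hi
        generalize τ i0 = t at *
        simp only [τ] at hle
        split_ifs at hle with h
        · rw [le_div_iff₀ h] at hle
          constructor
          · nlinarith
          · linarith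
        · have h' : 0 < -g i := by have := lt_of_le_of_ne (not_lt.1 h) hgi; linarith
          rw [le_div_iff₀ h'] at hle
          constructor
          · linarith
          · nlinarith) (by
      have hsub : (A.filter fun i => 0 < lam i + τ i0 * g i ∧ lam i + τ i0 * g i < 1) ⊆ F.erase i0 := by
        intro i hi
        obtain ⟨hiA, hi2⟩ := mem_filter.1 hi
        rw [mem_erase]
        constructor
        · rintro rfl
          simp only [τ] at hi2
          split_ifs at hi2 with h
          · rw [div_mul_cancel₀ _ hg0'] at hi2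
            linarith [hi2.2]
          · have : lam i / -g i * g i = -lam i := by field_simp
            rw [this] at hi2
            linarith [hi2.1]
        · by_contra h
          rw [hgF i h, mul_zero, add_zero] at hi2
          exact h (mem_filter.2 ⟨hiA, hi2⟩)
      have := card_le_card hsub
      rw [card_erase_of_mem hi0F] at this
      omega)
    refine ⟨mu, m1, ?_, fun j => ?_, m4⟩
    · rw [m2, sum_add_distrib, ← mul_sum, hs1, mul_zero, add_zero]
    · rw [m3]
      simp only [add_mul, sum_add_distrib, mul_assoc]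
      rw [← mul_sum, hs2, mul_zero, add_zero]

def Inv {ι : Type} (d : ℕ) (v : ι → Fin d → ℝ) (A : Finset ι) : Prop :=
  A.card ≤ d ∨ ∃ lam : ι → ℝ, (∀ i ∈ A, 0 ≤ lam i ∧ lam i ≤ 1) ∧ ∑ i ∈ A, lam i = A.card - d ∧
    ∀ j, ∑ i ∈ A, lam i * v i j = 0

lemma Inv.bound {ι : Type} {d : ℕ} {v : ι → Fin d → ℝ} {A : Finset ι} (h : Inv d v A) {p : ℝ} (hp0 : 0 ≤ p)
    (hp : ∀ i j, |v i j| ≤ p) (j : Fin d) : |∑ i ∈ A, v i j| ≤ d * p := by
  rcases h with h | ⟨lam, h1, h2, h3⟩
  · refine (abs_sum_le_sum_abs _ _).trans ((sum_le_sum fun i _ => hp i j).trans ?_)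
    rw [sum_const, nsmul_eq_mul]
    exact mul_le_mul_of_nonneg_right (by exact_mod_cast h) hp0
  · have : ∑ i ∈ A, v i j = ∑ i ∈ A, (1 - lam i) * v i j := by
      simp only [sub_mul, one_mul, sum_sub_distrib, h3, sub_zero]
    rw [this]
    refine (abs_sum_le_sum_abs _ _).trans ((sum_le_sum (g := fun i => (1 - lam i) * p) fun i hi => ?_).trans ?_)
    · rw [abs_mul, abs_of_nonneg (by linarith [(h1 i hi).2])]
      exact mul_le_mul_of_nonneg_left (hp i j) (by linarith [(h1 i hi).2])
    · rw [← sum_mul, sum_sub_distrib, h2]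
      simp

lemma Inv.step {ι : Type} [DecidableEq ι] {d : ℕ} {v : ι → Fin d → ℝ} {A : Finset ι} (h : Inv d v A)
    (hA : A.Nonempty) : ∃ i ∈ A, Inv d v (A.erase i) := by
  classical
  by_cases hc : A.card ≤ d + 1
  · obtain ⟨i, hi⟩ := hA
    exact ⟨i, hi, Or.inl (by rw [card_erase_of_mem hi]; omega)⟩
  rcases h with h | ⟨lam, h1, h2, h3⟩
  · omega
  have hk : (d : ℝ) + 1 < A.card := by exact_mod_cast not_le.1 hc
  let r : ℝ := (A.card - d - 1) / (A.card - d)
  have hr0 : 0 ≤ r := div_nonneg (by linarith) (by linarith)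
  have hr1 : r ≤ 1 := by rw [div_le_one (by linarith)]; linarith
  obtain ⟨mu, m1, m2, m3, m4⟩ := round d v A _ (fun i => r * lam i) (fun i hi =>
    ⟨mul_nonneg hr0 (h1 i hi).1, mul_le_one₀ hr1 (h1 i hi).1 (h1 i hi).2⟩) le_rfl
  have m2' : ∑ i ∈ A, mu i = A.card - d - 1 := by
    rw [m2, ← mul_sum, h2]
    exact div_mul_cancel₀ _ (by linarith)
  have m3' : ∀ j, ∑ i ∈ A, mu i * v i j = 0 := by
    intro j
    rw [m3]
    simp only [mul_assoc]
    rw [← mul_sum, h3, mul_zero]
  have hz : ∃ i ∈ A, mu i = 0 := by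
    by_contra hz
    push Not at hz
    set F := A.filter fun i => 0 < mu i ∧ mu i < 1 with hF
    have e1 : ∑ i ∈ A, (1 - mu i) = d + 1 := by
      rw [sum_sub_distrib, m2']; simp; ring
    have e2 : ∑ i ∈ F, (1 - mu i) = ∑ i ∈ A, (1 - mu i) := by
      refine sum_subset (filter_subset _ _) fun i hi hn => ?_
      have h0 : 0 < mu i := lt_of_le_of_ne (m1 i hi).1 (hz i hi).symm
      by_contra h
      exact hn (mem_filter.2 ⟨hi, h0, lt_of_le_of_ne (m1 i hi).2 (fun e => h (by rw [e, sub_self]))⟩)
    rcases F.eq_empty_or_nonempty with h | h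
    · rw [h, sum_empty, e1] at e2
      have : (0 : ℝ) ≤ d := Nat.cast_nonneg _
      linarith
    · have : ∑ i ∈ F, (1 - mu i) < ∑ i ∈ F, (1 : ℝ) :=
        sum_lt_sum_of_nonempty h fun i hi => by linarith [(mem_filter.1 hi).2.1]
      rw [e2, e1, sum_const, nsmul_eq_mul, mul_one] at this
      have h5 : (F.card : ℝ) ≤ d + 1 := by exact_mod_cast m4
      linarith
  obtain ⟨i, hi, h0⟩ := hz
  refine ⟨i, hi, Or.inr ⟨mu, fun k hk => m1 k (mem_of_mem_erase hk), ?_, fun j => ?_⟩⟩
  · rw [sum_erase _ h0, m2', card_erase_of_mem hi, Nat.cast_sub (card_pos.2 hA)]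
    push_cast; ring
  · rw [sum_erase _ (by rw [h0, zero_mul]), m3']

lemma order {ι : Type} [DecidableEq ι] [Inhabited ι] {d : ℕ} {v : ι → Fin d → ℝ} {p : ℝ} (hp0 : 0 ≤ p)
    (hp : ∀ i j, |v i j| ≤ p) (k : ℕ) : ∀ A : Finset ι, A.card = k → Inv d v A →
      ∃ f : ℕ → ι, Set.InjOn f (range k) ∧ (range k).image f = A ∧
        ∀ r ≤ k, ∀ j, |∑ i ∈ range r, v (f i) j| ≤ d * p := by
  induction k with
  | zero =>
    intro A hA _
    refine ⟨fun _ => default, by simp, by simp [card_eq_zero.1 hA], fun r hr j => ?_⟩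
    rw [Nat.le_zero.1 hr]
    simp; positivity
  | succ k ih =>
    intro A hA h
    obtain ⟨i0, hi0, h'⟩ := h.step (card_pos.1 (by omega))
    obtain ⟨f, f1, f2, f3⟩ := ih (A.erase i0) (by rw [card_erase_of_mem hi0]; omega) h'
    have hne : ∀ a < k, f a ≠ i0 := by
      intro a ha e
      have : f a ∈ A.erase i0 := by rw [← f2]; exact mem_image_of_mem _ (mem_range.2 ha)
      exact (mem_erase.1 this).1 e
    let g : ℕ → ι := fun a => if a = k then i0 else f a
    have g1 : Set.InjOn g (range (k + 1)) := by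
      intro a ha b hb e
      simp only [coe_range, Set.mem_Iio] at ha hb
      simp only [g] at e
      split_ifs at e with h1 h2 h2
      · omega
      · exact absurd e.symm (hne b (by omega))
      · exact absurd e (hne a (by omega))
      · exact f1 (by simp; omega) (by simp; omega) e
    have g2 : (range (k + 1)).image g = A := by
      rw [range_add_one, image_insert, ← insert_erase hi0, ← f2]
      congr 1
      · simp [g]
      · exact image_congr fun a ha => by
          simp only [coe_range, Set.mem_Iio] at ha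
          simp only [g]; rw [if_neg (by omega)]
    refine ⟨g, g1, g2, fun r hr j => ?_⟩
    rcases Nat.lt_or_eq_of_le hr with h1 | rfl
    · rw [sum_congr rfl (g := fun i => v (f i) j) fun a ha => by
        have := mem_range.1 ha
        simp only [g]; rw [if_neg (by omega)]]
      exact f3 r (by omega) j
    · rw [← sum_image (f := fun i => v i j) g1, g2]
      exact h.bound hp0 hp j

theorem steinitz {n d : ℕ} (hn : 0 < n) (v : Fin n → Fin d → ℝ) {p : ℝ} (hp0 : 0 ≤ p) (hp : ∀ i j, |v i j| ≤ p)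
    (hs : ∀ j, ∑ i, v i j = 0) : ∃ π : Equiv.Perm (Fin n),
      ∀ r ≤ n, ∀ j, |∑ i ∈ range r, (if h : i < n then v (π ⟨i, h⟩) j else 0)| ≤ d * p := by
  have : Inhabited (Fin n) := ⟨⟨0, hn⟩⟩
  have hI : Inv d v univ := by
    by_cases h : n ≤ d
    · left; simpa using h
    · right
      have hn' : (0 : ℝ) < n := by exact_mod_cast hn
      have hd : (d : ℝ) ≤ n := by exact_mod_cast (not_le.1 h).le
      refine ⟨fun _ => (n - d) / n, fun i _ => ⟨div_nonneg (by linarith) hn'.le, ?_⟩, ?_, fun j => ?_⟩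
      · rw [div_le_one hn']; linarith [Nat.cast_nonneg (α := ℝ) d]
      · simp only [sum_const, card_univ, Fintype.card_fin, nsmul_eq_mul]
        field_simp
      · rw [← mul_sum, hs, mul_zero]
  obtain ⟨f, f1, -, f3⟩ := order hp0 hp n univ (by simp) hI
  have hinj : Function.Injective fun i : Fin n => f i := fun a b e =>
    Fin.ext (f1 (by simp) (by simp) e)
  refine ⟨Equiv.ofBijective _ (Finite.injective_iff_bijective.1 hinj), fun r hr j => ?_⟩
  rw [sum_congr rfl (g := fun i => v (f i) j) fun a ha => by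
    have := mem_range.1 ha
    rw [dif_pos (by omega)]; rfl]
  exact f3 r hr j

end Pool.Agent.Lib.Helper21.Steinitz
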