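import Mathlib

open MeasureTheory Complex Metric Set
open scoped Real ComplexConjugate

noncomputable section

namespace Pool.Agent.Lib.Helper21.Toep1

instance twoPi : Fact (0 < 2 * π) := ⟨Real.two_pi_pos⟩

abbrev Tc := AddCircle (2 * π)

abbrev mu : Measure Tc := AddCircle.haarAddCircle

def zc (x : Tc) : ℂ := fourier 1 x

lemma norm_zc (x : Tc) : ‖zc x‖ = 1 := by
  rw [zc, fourier_one]; exact Circle.norm_coe _

lemma continuous_zc : Continuous zc := (fourier 1).continuous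

lemma zc_coe (θ : ℝ) : zc (θ : Tc) = circleMap 0 1 θ := by
  simp only [zc, fourier_coe_apply, circleMap]
  have : (π : ℂ) ≠ 0 := by exact_mod_cast Real.pi_ne_zero
  push_cast
  simp only [zero_add, one_mul]
  congr 1
  field_simp

lemma zc_neg (x : Tc) : zc (-x) = conj (zc x) := by
  simp only [zc]
  rw [← fourier_neg, fourier_apply, fourier_apply]
  simp

lemma zc_add (x y : Tc) : zc (x + y) = zc x * zc y := by
  simp only [zc, fourier_one, AddCircle.toCircle_add, Circle.coe_mul]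

lemma zc_mul_conj (x : Tc) : zc x * conj (zc x) = 1 := by
  rw [Complex.mul_conj, Complex.normSq_eq_norm_sq, norm_zc]; simp

lemma zc_ne (x : Tc) : zc x ≠ 0 := by
  intro h; have := norm_zc x; rw [h] at this; simp at this

lemma fourier_nat (n : ℕ) (x : Tc) : fourier (n : ℤ) x = zc x ^ n := by
  induction n with
  | zero => simp
  | succ n ih => push_cast; rw [fourier_add, ih, pow_succ]; rfl

lemma fourier_neg_nat (n : ℕ) (x : Tc) : fourier (-(n : ℤ)) x = conj (zc x) ^ n := by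
  rw [fourier_neg, fourier_nat, map_pow]

lemma integral_eq_avg (g : ℂ → ℂ) : ∫ x, g (zc x) ∂mu = Real.circleAverage g 0 1 := by
  rw [AddCircle.integral_haarAddCircle, Real.circleAverage,
    ← AddCircle.intervalIntegral_preimage (2 * π) 0]
  simp only [zc_coe, zero_add]

lemma cauchy {g : ℂ → ℂ} (hg : DiffContOnCl ℂ g (ball 0 1)) {a : ℂ} (ha : ‖a‖ < 1) :
    ∫ x, zc x / (zc x - a) * g (zc x) ∂mu = g a := by
  have h := DiffContOnCl.circleAverage_smul_div (f := g) (c := 0) (R := 1) (w := a)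
    (by simpa using hg) (by simpa using ha)
  rw [← h, ← integral_eq_avg]
  simp

lemma mean {g : ℂ → ℂ} (hg : DiffContOnCl ℂ g (ball 0 1)) :
    ∫ x, g (zc x) ∂mu = g 0 := by
  rw [integral_eq_avg]
  exact DiffContOnCl.circleAverage (f := g) (c := 0) (R := 1) (by simpa using hg)

lemma reflect (F : ℂ → ℂ) : ∫ x, F (conj (zc x)) ∂mu = ∫ x, F (zc x) ∂mu := by
  rw [← integral_neg_eq_self (fun x => F (zc x)) mu]
  simp only [zc_neg]

lemma reflect_real (F : ℂ → ℝ) : ∫ x, F (conj (zc x)) ∂mu = ∫ x, F (zc x) ∂mu := by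
  rw [← integral_neg_eq_self (fun x => F (zc x)) mu]
  simp only [zc_neg]

/-- bounded measurable -/
def BM (u : Tc → ℂ) : Prop := Measurable u ∧ ∃ M : ℝ, ∀ x, ‖u x‖ ≤ M

lemma BM.of_continuous {u : Tc → ℂ} (h : Continuous u) : BM u := by
  refine ⟨h.measurable, ?_⟩
  obtain ⟨M, hM⟩ := isCompact_univ.exists_bound_of_continuousOn h.continuousOn
  exact ⟨M, fun x => hM x trivial⟩

lemma BM.mul {u v : Tc → ℂ} (hu : BM u) (hv : BM v) : BM (fun x => u x * v x) := by
  obtain ⟨hu1, M, hM⟩ := hu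
  obtain ⟨hv1, N, hN⟩ := hv
  refine ⟨hu1.mul hv1, M * N, fun x => ?_⟩
  rw [norm_mul]
  exact mul_le_mul (hM x) (hN x) (norm_nonneg _) ((norm_nonneg _).trans (hM x))

lemma BM.add {u v : Tc → ℂ} (hu : BM u) (hv : BM v) : BM (fun x => u x + v x) := by
  obtain ⟨hu1, M, hM⟩ := hu
  obtain ⟨hv1, N, hN⟩ := hv
  exact ⟨hu1.add hv1, M + N, fun x => (norm_add_le _ _).trans (add_le_add (hM x) (hN x))⟩

lemma BM.sub {u v : Tc → ℂ} (hu : BM u) (hv : BM v) : BM (fun x => u x - v x) := by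
  obtain ⟨hu1, M, hM⟩ := hu
  obtain ⟨hv1, N, hN⟩ := hv
  exact ⟨hu1.sub hv1, M + N, fun x => (norm_sub_le _ _).trans (add_le_add (hM x) (hN x))⟩

lemma BM.const (c : ℂ) : BM (fun _ => c) := BM.of_continuous continuous_const

lemma BM.conj {u : Tc → ℂ} (hu : BM u) : BM (fun x => conj (u x)) := by
  obtain ⟨hu1, M, hM⟩ := hu
  exact ⟨Complex.continuous_conj.measurable.comp hu1, M, fun x => by simpa using hM x⟩

lemma BM.memLp {u : Tc → ℂ} (hu : BM u) (p : ENNReal) : MemLp u p mu := by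
  obtain ⟨hu1, M, hM⟩ := hu
  exact MemLp.of_bound hu1.aestronglyMeasurable M (Filter.Eventually.of_forall hM)

lemma BM.integrable {u : Tc → ℂ} (hu : BM u) : Integrable u mu :=
  memLp_one_iff_integrable.1 (hu.memLp 1)

lemma BM.integrable_norm_pow {u : Tc → ℂ} (hu : BM u) (n : ℕ) :
    Integrable (fun x => ‖u x‖ ^ n) mu := by
  obtain ⟨hu1, M, hM⟩ := hu
  refine Integrable.of_bound (hu1.norm.pow_const n).aestronglyMeasurable (M ^ n)
    (Filter.Eventually.of_forall fun x => ?_)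
  rw [Real.norm_eq_abs, abs_of_nonneg (by positivity)]
  exact pow_le_pow_left₀ (norm_nonneg _) (hM x) n

lemma BM_zc : BM zc := BM.of_continuous continuous_zc

def Lg (u : ℂ) : ℂ := Complex.log (1 - u)

def kap (u : ℂ) : ℂ := Complex.exp (-(1 / 2) * Lg u)

lemma re_nonneg {u : ℂ} (hu : ‖u‖ ≤ 1) : 0 ≤ (1 - u).re := by
  have := Complex.re_le_norm u
  simp; linarith

lemma abs_im_Lg {u : ℂ} (hu : ‖u‖ ≤ 1) : |(Lg u).im| ≤ π / 2 := by
  rw [Lg, Complex.log_im]
  exact Complex.abs_arg_le_pi_div_two_iff.2 (re_nonneg hu)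

lemma slit {u : ℂ} (hu : ‖u‖ ≤ 1) (h1 : u ≠ 1) : 1 - u ∈ slitPlane := by
  have h := re_nonneg hu
  rcases h.lt_or_eq with h | h
  · exact Or.inl h
  · right
    intro h2
    apply h1
    have : 1 - u = 0 := Complex.ext (by simpa using h.symm) (by simpa using h2)
    exact (sub_eq_zero.1 this).symm

lemma exp_Lg {u : ℂ} (h1 : u ≠ 1) : Complex.exp (Lg u) = 1 - u :=
  Complex.exp_log (sub_ne_zero.2 h1.symm)

lemma kap_sq {u : ℂ} (h1 : u ≠ 1) : kap u ^ 2 * (1 - u) = 1 := by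
  rw [← exp_Lg h1, kap, sq, ← Complex.exp_add, ← Complex.exp_add]
  ring_nf
  simp

lemma norm_kap_sq {u : ℂ} (h1 : u ≠ 1) : ‖kap u‖ ^ 2 * ‖1 - u‖ = 1 := by
  rw [← norm_pow, ← norm_mul, kap_sq h1, norm_one]

lemma kap_le {u : ℂ} {c : ℝ} (hc : 0 < c) (h : 1 ≤ c ^ 2 * ‖1 - u‖) : ‖kap u‖ ≤ c := by
  have h1 : u ≠ 1 := by
    rintro rfl
    simp at h; linarith
  have h2 := norm_kap_sq h1
  have h3 : 0 < ‖1 - u‖ := norm_pos_iff.2 (sub_ne_zero.2 h1.symm)
  have : ‖kap u‖ ^ 2 ≤ c ^ 2 := by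
    by_contra hh
    push Not at hh
    nlinarith
  exact (pow_le_pow_iff_left₀ (norm_nonneg _) hc.le two_ne_zero).1 this

lemma kap_ne (u : ℂ) : kap u ≠ 0 := Complex.exp_ne_zero _

lemma kap_re_mul {u v : ℂ} (hu : ‖u‖ ≤ 1) (hv : ‖v‖ ≤ 1) : 0 ≤ (kap u * conj (kap v)).re := by
  rw [kap, kap, ← Complex.exp_conj, ← Complex.exp_add, Complex.exp_re]
  refine mul_nonneg (Real.exp_pos _).le (Real.cos_nonneg_of_mem_Icc ?_)
  have h1 := abs_le.1 (abs_im_Lg hu)
  have h2 := abs_le.1 (abs_im_Lg hv)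
  have : (-(1 / 2) * Lg u + conj (-(1 / 2) * Lg v)).im = ((Lg v).im - (Lg u).im) / 2 := by
    simp; ring
  rw [this]
  constructor <;> linarith [h1.1, h1.2, h2.1, h2.2]

lemma kap_diff {u v : ℂ} (hu : ‖u‖ ≤ 1) (hv : ‖v‖ ≤ 1) (hu1 : u ≠ 1) (hv1 : v ≠ 1) :
    ‖kap u - kap v‖ ≤ ‖u - v‖ * ‖kap u‖ * ‖kap v‖ ^ 2 := by
  have h1 := kap_sq hu1
  have h2 := kap_sq hv1
  have e : (kap u - kap v) * (kap u + kap v) = (u - v) * kap u ^ 2 * kap v ^ 2 := by
    linear_combination (kap v ^ 2) * h1 - kap u ^ 2 * h2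
  have hn : ‖kap u‖ ≤ ‖kap u + kap v‖ := by
    have h3 := kap_re_mul hu hv
    have h4 : ‖kap u‖ ^ 2 ≤ ‖kap u + kap v‖ ^ 2 := by
      rw [← Complex.normSq_eq_norm_sq, ← Complex.normSq_eq_norm_sq, Complex.normSq_add]
      have := Complex.normSq_nonneg (kap v)
      linarith
    exact (pow_le_pow_iff_left₀ (norm_nonneg _) (norm_nonneg _) two_ne_zero).1 h4
  have e2 : ‖kap u - kap v‖ * ‖kap u + kap v‖ = ‖u - v‖ * ‖kap u‖ ^ 2 * ‖kap v‖ ^ 2 := by
    rw [← norm_mul, e, norm_mul, norm_mul, norm_pow, norm_pow]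
  have hp : 0 < ‖kap u‖ := norm_pos_iff.2 (kap_ne u)
  have h5 : ‖kap u - kap v‖ * ‖kap u‖ ≤ (‖u - v‖ * ‖kap u‖ * ‖kap v‖ ^ 2) * ‖kap u‖ := by
    calc _ ≤ ‖kap u - kap v‖ * ‖kap u + kap v‖ := by gcongr
      _ = _ := by rw [e2]; ring
  exact le_of_mul_le_mul_right h5 hp

lemma differentiableAt_Lg {u : ℂ} (hu : ‖u‖ ≤ 1) (h1 : u ≠ 1) : DifferentiableAt ℂ Lg u := by
  unfold Lg
  exact ((differentiableAt_const _).sub differentiableAt_id).clog (slit hu h1)

lemma diffAt_mul {a u : ℂ} (ha : ‖a‖ < 1) (hu : ‖u‖ ≤ 1) :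
    DifferentiableAt ℂ (fun z => Lg (a * z)) u := by
  have h : ‖a * u‖ < 1 := by
    rw [norm_mul]; nlinarith [norm_nonneg a, norm_nonneg u]
  have h1 : a * u ≠ 1 := by rintro h1; rw [h1] at h; simp at h
  exact (differentiableAt_Lg h.le h1).comp u (by fun_prop)

lemma dcc_of {g : ℂ → ℂ} (h : ∀ u : ℂ, ‖u‖ ≤ 1 → DifferentiableAt ℂ g u) :
    DiffContOnCl ℂ g (ball 0 1) := by
  apply DifferentiableOn.diffContOnCl
  rw [closure_ball _ one_ne_zero]
  intro u hu
  exact (h u (by simpa using hu)).differentiableWithinAt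

lemma diffAt_kap {a u : ℂ} (ha : ‖a‖ < 1) (hu : ‖u‖ ≤ 1) :
    DifferentiableAt ℂ (fun z => kap (a * z)) u := by
  unfold kap
  exact ((diffAt_mul ha hu).const_mul _).cexp

lemma one_sub_ne {a u : ℂ} (ha : ‖a‖ < 1) (hu : ‖u‖ ≤ 1) : 1 - a * u ≠ 0 := by
  have h : ‖a * u‖ < 1 := by
    rw [norm_mul]; nlinarith [norm_nonneg a, norm_nonneg u]
  intro h1
  have : a * u = 1 := (sub_eq_zero.1 h1).symm
  rw [this] at h; simp at h

/-- the kernel -/
def kk (ζ : ℂ) (x : Tc) : ℂ := kap (ζ * conj (zc x))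

lemma continuous_kk {ζ : ℂ} (h : ‖ζ‖ < 1) : Continuous (kk ζ) := by
  rw [continuous_iff_continuousAt]
  intro x
  have h1 : ContinuousAt (fun z => kap (ζ * z)) (conj (zc x)) :=
    (diffAt_kap h (by simp [norm_zc])).continuousAt
  exact ContinuousAt.comp (f := fun x => conj (zc x)) h1
    (Complex.continuous_conj.comp continuous_zc).continuousAt

lemma BM_kk {ζ : ℂ} (h : ‖ζ‖ < 1) : BM (kk ζ) := BM.of_continuous (continuous_kk h)

lemma norm_one_sub_conj (ζ : ℂ) (x : Tc) : ‖1 - ζ * conj (zc x)‖ = ‖zc x - ζ‖ := by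
  have : zc x - ζ = zc x * (1 - ζ * conj (zc x)) := by
    linear_combination ζ * zc_mul_conj x
  rw [this, norm_mul, norm_zc, one_mul]

lemma kk_ne_one {ζ : ℂ} (h : ‖ζ‖ < 1) (x : Tc) : ζ * conj (zc x) ≠ 1 := by
  intro h1
  exact one_sub_ne h (u := conj (zc x)) (by simp [norm_zc]) (by rw [h1]; simp)

/-- the Szego kernel -/
def sz (a : ℂ) (x : Tc) : ℂ := (1 - a * zc x)⁻¹

lemma continuous_sz {a : ℂ} (h : ‖a‖ < 1) : Continuous (sz a) := by
  unfold sz
  refine Continuous.inv₀ (continuous_const.sub (continuous_const.mul continuous_zc)) fun x => ?_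
  exact one_sub_ne h (norm_zc x).le

lemma BM_sz {a : ℂ} (h : ‖a‖ < 1) : BM (sz a) := BM.of_continuous (continuous_sz h)

lemma int_sz_kk {a ζ : ℂ} (ha : ‖a‖ < 1) (hζ : ‖ζ‖ < 1) :
    ∫ x, sz a x * kk ζ x ∂mu = kap (ζ * a) := by
  have h := reflect (fun z => (1 - a * conj z)⁻¹ * kap (ζ * z))
  simp only [Complex.conj_conj] at h
  unfold sz kk
  rw [h, ← cauchy (dcc_of fun u hu => diffAt_kap hζ hu) ha]
  refine integral_congr_ae (Filter.Eventually.of_forall fun x => ?_)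
  have h1 : zc x - a = zc x * (1 - a * conj (zc x)) := by
    linear_combination a * zc_mul_conj x
  have h2 := zc_ne x
  simp only [h1]
  congr 1
  field_simp

lemma poisson {a : ℝ} (h0 : 0 ≤ a) (h1 : a < 1) :
    ∫ x, (1 - a) * ‖sz a x‖ ^ 2 ∂mu ≤ 1 := by
  have ha : ‖(a : ℂ)‖ < 1 := by simpa [abs_of_nonneg h0] using h1
  have h := cauchy (g := fun z => (1 - a * z)⁻¹)
    (dcc_of fun u hu => DifferentiableAt.inv (by fun_prop) (one_sub_ne ha hu)) ha
  have h2 : ∫ x, ((‖sz a x‖ ^ 2 : ℝ) : ℂ) ∂mu = (1 - a * a : ℂ)⁻¹ := by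
    rw [← h]
    refine integral_congr_ae (Filter.Eventually.of_forall fun x => ?_)
    have h1 : zc x - a = zc x * (1 - a * conj (zc x)) := by
      linear_combination (a : ℂ) * zc_mul_conj x
    have h2 := zc_ne x
    simp only [h1]
    rw [← Complex.normSq_eq_norm_sq, ← Complex.mul_conj, sz, map_inv₀]
    simp only [map_sub, map_one, map_mul, Complex.conj_ofReal]
    field_simp
  rw [integral_complex_ofReal] at h2
  have h3 : ∫ x, ‖sz a x‖ ^ 2 ∂mu = (1 - a * a)⁻¹ := by exact_mod_cast h2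
  rw [integral_const_mul, h3]
  have : 0 < 1 - a * a := by nlinarith
  rw [← div_eq_mul_inv, div_le_one this]
  nlinarith

/-- cube root of the kernel modulus -/
def cr (ζ : ℂ) (x : Tc) : ℝ := Real.exp (-(1 / 6) * (Lg (ζ * conj (zc x))).re)

lemma cr_pos (ζ : ℂ) (x : Tc) : 0 < cr ζ x := Real.exp_pos _

lemma cr_cube (ζ : ℂ) (x : Tc) : cr ζ x ^ 3 = ‖kk ζ x‖ := by
  rw [cr, kk, kap, Complex.norm_exp, ← Real.exp_nat_mul]
  congr 1
  simp; ring

lemma continuous_cr {ζ : ℂ} (h : ‖ζ‖ < 1) : Continuous (cr ζ) := by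
  have : Continuous (fun x => Lg (ζ * conj (zc x))) := by
    rw [continuous_iff_continuousAt]
    intro x
    have h1 : ContinuousAt (fun z => Lg (ζ * z)) (conj (zc x)) :=
      (diffAt_mul h (by simp [norm_zc])).continuousAt
    exact ContinuousAt.comp (f := fun x => conj (zc x)) h1
      (Complex.continuous_conj.comp continuous_zc).continuousAt
  exact Real.continuous_exp.comp (continuous_const.mul (Complex.continuous_re.comp this))

lemma integrable_of_continuous {u : Tc → ℝ} (h : Continuous u) : Integrable u mu := by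
  simpa using h.continuousOn.integrableOn_compact (μ := mu) isCompact_univ

lemma int_cr4 {ζ : ℂ} (h : ‖ζ‖ < 1) : ∫ x, cr ζ x ^ 4 ∂mu ≤ 2 := by
  set G : ℂ → ℂ := fun z => Complex.exp (-(2 / 3) * Lg (ζ * z)) with hG
  have hd : ∀ u : ℂ, ‖u‖ ≤ 1 → DifferentiableAt ℂ G u := fun u hu =>
    ((diffAt_mul h hu).const_mul _).cexp
  have h1 : ∫ x, G (conj (zc x)) ∂mu = 1 := by
    rw [reflect, mean (dcc_of hd)]; simp [hG, Lg]
  have hc : Continuous (fun x => G (conj (zc x))) := by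
    rw [continuous_iff_continuousAt]
    intro x
    exact ContinuousAt.comp (f := fun x => conj (zc x))
      (hd _ (by simp [norm_zc])).continuousAt
      (Complex.continuous_conj.comp continuous_zc).continuousAt
  have hi := (BM.of_continuous hc).integrable
  have h2 : ∫ x, 2 * (G (conj (zc x))).re ∂mu = 2 := by
    rw [integral_const_mul]
    have := integral_re hi
    simp only [RCLike.re_to_complex] at this
    rw [this, h1]; simp
  refine le_of_le_of_eq ?_ h2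
  refine integral_mono (integrable_of_continuous ((continuous_cr h).pow 4))
    (integrable_of_continuous (continuous_const.mul (Complex.continuous_re.comp hc))) fun x => ?_
  have hz : ‖ζ * conj (zc x)‖ ≤ 1 := by
    rw [norm_mul]; simp [norm_zc, h.le]
  have h3 := abs_le.1 (abs_im_Lg hz)
  simp only [hG, cr]
  rw [Complex.exp_re, ← Real.exp_nat_mul]
  have e1 : (-(2 / 3) * Lg (ζ * conj (zc x))).re = -(2 / 3) * (Lg (ζ * conj (zc x))).re := by
    simp
  have e2 : (-(2 / 3) * Lg (ζ * conj (zc x))).im = -(2 / 3) * (Lg (ζ * conj (zc x))).im := by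
    simp
  rw [e1, e2]
  have e3 : ((4 : ℕ) : ℝ) * (-(1 / 6) * (Lg (ζ * conj (zc x))).re) =
      -(2 / 3) * (Lg (ζ * conj (zc x))).re := by push_cast; ring
  rw [e3]
  have h4 : 1 / 2 ≤ Real.cos (-(2 / 3) * (Lg (ζ * conj (zc x))).im) := by
    rw [← Real.cos_pi_div_three, ← Real.cos_abs (-(2 / 3) * _)]
    refine Real.cos_le_cos_of_nonneg_of_le_pi (abs_nonneg _) (by linarith [Real.pi_pos]) ?_
    rw [abs_le]; constructor <;> linarith [h3.1, h3.2]
  have := Real.exp_pos (-(2 / 3) * (Lg (ζ * conj (zc x))).re)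
  nlinarith

/-- Young-type bound -/
lemma int_mul_kk_le {ζ : ℂ} (h : ‖ζ‖ < 1) {w : Tc → ℂ} (hw : BM w) {l : ℝ} (hl : 0 < l) :
    ‖∫ x, w x * kk ζ x ∂mu‖ ≤ 2 * l + (∫ x, ‖w x‖ ^ 4 ∂mu) / l ^ 3 := by
  refine (norm_integral_le_integral_norm _).trans ?_
  have hi1 : Integrable (fun x => cr ζ x ^ 4) mu :=
    integrable_of_continuous ((continuous_cr h).pow 4)
  have hi2 := hw.integrable_norm_pow 4
  calc _ ≤ ∫ x, (l * cr ζ x ^ 4 + ‖w x‖ ^ 4 / l ^ 3) ∂mu := by
        refine integral_mono (hw.mul (BM_kk h)).integrable.norm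
          ((hi1.const_mul l).add (hi2.div_const _)) fun x => ?_
        simp only [norm_mul, ← cr_cube]
        have hc := cr_pos ζ x
        have hn := norm_nonneg (w x)
        by_cases hh : ‖w x‖ ≤ l * cr ζ x
        · have : ‖w x‖ * cr ζ x ^ 3 ≤ l * cr ζ x ^ 4 := by
            calc _ ≤ (l * cr ζ x) * cr ζ x ^ 3 := by gcongr
              _ = _ := by ring
          have : 0 ≤ ‖w x‖ ^ 4 / l ^ 3 := by positivity
          linarith
        · push Not at hh
          have : ‖w x‖ * cr ζ x ^ 3 ≤ ‖w x‖ ^ 4 / l ^ 3 := by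
            rw [le_div_iff₀ (by positivity)]
            calc _ = ‖w x‖ * (l * cr ζ x) ^ 3 := by ring
              _ ≤ ‖w x‖ * ‖w x‖ ^ 3 := by gcongr
              _ = _ := by ring
          have : 0 ≤ l * cr ζ x ^ 4 := by positivity
          linarith
    _ = l * ∫ x, cr ζ x ^ 4 ∂mu + (∫ x, ‖w x‖ ^ 4 ∂mu) / l ^ 3 := by
        rw [integral_add (hi1.const_mul l) (hi2.div_const _), integral_const_mul, integral_div]
    _ ≤ _ := by
        have := int_cr4 h
        nlinarith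

end Pool.Agent.Lib.Helper21.Toep1
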