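import Mathlib
import Pool.Agent.Lib.helper21.Toep1

open MeasureTheory Complex Metric Set
open scoped Real ComplexConjugate

noncomputable section

namespace Pool.Agent.Lib.Helper21.Toep2

open Pool.Agent.Lib.Helper21.Toep1

def tau : ℝ := 1 / 100000

def phi (u : ℂ) : ℂ := Complex.exp (I * tau * Lg u)

def WW (u : ℂ) : ℂ := I * tau * Lg u - I * (Lg u).im

def EE (u : ℂ) : ℂ := Complex.exp (WW u)

lemma exp_small {x : ℝ} (h : x ≤ 1) : Real.exp x ≤ 3 :=
  (Real.exp_le_exp.2 h).trans (by linarith [Real.exp_one_lt_d9])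

lemma tau_im {u : ℂ} (hu : ‖u‖ ≤ 1) : -(tau * (Lg u).im) ≤ 1 := by
  have h := abs_le.1 (abs_im_Lg hu)
  have := Real.pi_le_four
  unfold tau; nlinarith [h.1, h.2]

lemma norm_phi {u : ℂ} (hu : ‖u‖ ≤ 1) : ‖phi u‖ ≤ 3 := by
  rw [phi, Complex.norm_exp]
  apply exp_small
  have : (I * tau * Lg u).re = -(tau * (Lg u).im) := by simp
  rw [this]; exact tau_im hu

lemma norm_EE {u : ℂ} (hu : ‖u‖ ≤ 1) : ‖EE u‖ ≤ 3 := by
  rw [EE, Complex.norm_exp]
  apply exp_small
  have : (WW u).re = -(tau * (Lg u).im) := by simp [WW]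
  rw [this]; exact tau_im hu

lemma Lg_conj {u : ℂ} (hu : ‖u‖ ≤ 1) : Lg (conj u) = conj (Lg u) := by
  have h := abs_le.1 (abs_im_Lg hu)
  rw [Lg, Complex.log_im] at h
  have h2 : (1 - u).arg ≠ π := by
    intro h3; rw [h3] at h; linarith [h.2, Real.pi_pos]
  rw [Lg, Lg, ← Complex.log_conj _ h2]
  simp

lemma EE_kap {u : ℂ} (hu : ‖u‖ ≤ 1) : EE u * kap (conj u) = phi u * kap u := by
  rw [EE, kap, kap, phi, ← Complex.exp_add, ← Complex.exp_add, Lg_conj hu, WW]
  congr 1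
  apply Complex.ext <;> simp
  ring

lemma EE_sq {u : ℂ} (hu : ‖u‖ = 1) (h1 : u ≠ 1) :
    u * EE u * (-EE u) = Complex.exp (2 * (I * tau * Lg u)) := by
  have hc : conj u ≠ 1 := by
    intro h; apply h1
    have := congrArg conj h; simpa using this
  have e1 := EE_kap hu.le
  have e2 := kap_sq h1
  have e3 := kap_sq hc
  have e4 : u * conj u = 1 := by
    rw [Complex.mul_conj, Complex.normSq_eq_norm_sq, hu]; simp
  have e5 : Complex.exp (2 * (I * tau * Lg u)) = phi u ^ 2 := by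
    rw [phi, ← Complex.exp_nat_mul]; simp
  have h0 : 1 - u ≠ 0 := sub_ne_zero.2 h1.symm
  rw [e5]
  have e6 : EE u ^ 2 * (1 - u) = phi u ^ 2 * (1 - conj u) := by
    have : (EE u * kap (conj u)) ^ 2 = (phi u * kap u) ^ 2 := by rw [e1]
    linear_combination (1 - u) * (1 - conj u) * this - EE u ^ 2 * (1 - u) * e3
      + phi u ^ 2 * (1 - conj u) * e2
  apply mul_right_cancel₀ h0
  linear_combination (-u) * e6 + phi u ^ 2 * e4

lemma Lg_lip {z w : ℂ} {m : ℝ} (hm : 0 < m) (hz : ‖z‖ ≤ 1) (hw : ‖w‖ ≤ 1)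
    (h1 : 2 * m ≤ ‖1 - w‖) (h2 : ‖z - w‖ ≤ m) : ‖Lg z - Lg w‖ ≤ m⁻¹ * ‖z - w‖ := by
  have hconv : Convex ℝ (closedBall (0 : ℂ) 1 ∩ closedBall w m) :=
    (convex_closedBall _ _).inter (convex_closedBall _ _)
  have hlow : ∀ u ∈ closedBall (0 : ℂ) 1 ∩ closedBall w m, m ≤ ‖1 - u‖ := by
    intro u hu
    have h3 : ‖u - w‖ ≤ m := by simpa [dist_eq_norm] using hu.2
    have h4 : ‖1 - w‖ ≤ ‖1 - u‖ + ‖u - w‖ := by
      have := norm_add_le (1 - u) (u - w); simpa using this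
    linarith
  refine hconv.norm_image_sub_le_of_norm_hasDerivWithin_le (f := Lg)
    (f' := fun u => -(1 - u)⁻¹) (fun u hu => ?_) (fun u hu => ?_) ?_ ?_
  · have hu1 : u ≠ 1 := by
      rintro rfl
      have := hlow _ hu; simp at this; linarith
    have hd : HasDerivAt (fun u : ℂ => 1 - u) (-1) u := by
      simpa using (hasDerivAt_id u).const_sub 1
    have := hd.clog (slit (by simpa using hu.1) hu1)
    rw [show (-1 : ℂ) / (1 - u) = -(1 - u)⁻¹ by ring] at this
    exact this.hasDerivWithinAt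
  · rw [norm_neg, norm_inv]
    exact inv_anti₀ hm (hlow u hu)
  · exact ⟨by simpa using hw, by simpa using hm.le⟩
  · exact ⟨by simpa using hz, by simpa [dist_eq_norm] using h2⟩

lemma EE_lip {z w : ℂ} {d : ℝ} (hd : 0 < d) (hz : ‖z‖ ≤ 1) (hw : ‖w‖ ≤ 1)
    (h1 : d / 2 ≤ ‖1 - w‖) (h2 : ‖z - w‖ ≤ d / 8) : ‖EE z - EE w‖ * d ≤ 48 * ‖z - w‖ := by
  have h3 := Lg_lip (m := d / 4) (by positivity) hz hw (by linarith) (by linarith)
  have h4 : ‖Lg z - Lg w‖ * d ≤ 4 * ‖z - w‖ := by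
    have : (d / 4)⁻¹ * ‖z - w‖ * d = 4 * ‖z - w‖ := by field_simp
    nlinarith
  have h5 : ‖WW z - WW w‖ ≤ 2 * ‖Lg z - Lg w‖ := by
    have e : WW z - WW w = I * tau * (Lg z - Lg w) - I * ((Lg z - Lg w).im : ℝ) := by
      simp [WW]; ring
    rw [e]
    refine (norm_sub_le _ _).trans ?_
    have h6 := Complex.abs_im_le_norm (Lg z - Lg w)
    have h7 : |tau| ≤ 1 := by unfold tau; rw [abs_of_pos] <;> norm_num
    rw [norm_mul, norm_mul, norm_mul, Complex.norm_I, Complex.norm_real, Complex.norm_real,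
      Real.norm_eq_abs, Real.norm_eq_abs]
    nlinarith [norm_nonneg (Lg z - Lg w)]
  have h8 : ‖WW z - WW w‖ ≤ 1 := by
    by_contra hh
    push Not at hh
    nlinarith
  have h9 := Complex.norm_exp_sub_one_le h8
  have e : EE z - EE w = EE w * (Complex.exp (WW z - WW w) - 1) := by
    rw [mul_sub, EE, EE, ← Complex.exp_add]; simp
  rw [e, norm_mul]
  have h10 := norm_EE hw
  have h11 : ‖EE w‖ * ‖Complex.exp (WW z - WW w) - 1‖ ≤ 3 * (4 * ‖Lg z - Lg w‖) :=
    mul_le_mul h10 (by linarith) (norm_nonneg _) (by norm_num)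
  nlinarith

lemma norm_osc (ζ : ℂ) {z : ℂ} (hz : ‖z‖ = 1) : ‖1 - ζ * conj z‖ = ‖z - ζ‖ := by
  have e4 : z * conj z = 1 := by
    rw [Complex.mul_conj, Complex.normSq_eq_norm_sq, hz]; simp
  have : z - ζ = z * (1 - ζ * conj z) := by
    linear_combination ζ * e4
  rw [this, norm_mul, hz, one_mul]

lemma stepA1 {ζ : ℂ} (hζ : ‖ζ‖ < 1) {r : ℝ} (hr : 0 < r) (hd : r ^ 2 * ‖1 - ζ‖ = 1) :
    ∃ α : ℂ, ‖α‖ ≤ 3 ∧ ∀ z : ℂ, ‖z‖ = 1 → ‖(z * EE z - α) * kap (ζ * conj z)‖ ≤ 27 * r := by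
  set d := ‖1 - ζ‖ with hdd
  have hd2 : d ≤ 2 := by
    have := norm_sub_le (1 : ℂ) ζ; simp at this; linarith
  have hd0 : 0 < d := by
    by_contra hh
    have : d = 0 := le_antisymm (not_lt.1 hh) (norm_nonneg _)
    rw [this] at hd; simp at hd
  have hlow : ∀ z : ℂ, ‖z‖ = 1 → 1 - ‖ζ‖ ≤ ‖z - ζ‖ := fun z hz => by
    have := norm_sub_norm_le z ζ; linarith
  have hf : ∀ z : ℂ, ‖z‖ = 1 → ‖z * EE z‖ ≤ 3 := fun z hz => by
    rw [norm_mul, hz, one_mul]; exact norm_EE hz.le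
  by_cases hc : d / 4 ≤ 1 - ‖ζ‖
  · refine ⟨0, by simp, fun z hz => ?_⟩
    have hk : ‖kap (ζ * conj z)‖ ≤ 2 * r := by
      apply kap_le (by positivity)
      rw [norm_osc ζ hz]
      have := hlow z hz
      nlinarith
    rw [sub_zero, norm_mul]
    have := mul_le_mul (hf z hz) hk (norm_nonneg _) (by norm_num)
    linarith
  · push Not at hc
    have hζ0 : 0 < ‖ζ‖ := by linarith
    set w : ℂ := ζ / (‖ζ‖ : ℂ) with hw
    have hζc : (‖ζ‖ : ℂ) ≠ 0 := by exact_mod_cast hζ0.ne'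
    have hw1 : ‖w‖ = 1 := by
      rw [hw, norm_div, Complex.norm_real, Real.norm_eq_abs, abs_of_pos hζ0, div_self hζ0.ne']
    have hwζ : ‖w - ζ‖ = 1 - ‖ζ‖ := by
      have : w - ζ = w * ((1 - ‖ζ‖ : ℝ) : ℂ) := by
        rw [hw]; push_cast; field_simp
      rw [this, norm_mul, hw1, Complex.norm_real, Real.norm_eq_abs, abs_of_pos (by linarith)]
      simp
    have h1w : d / 2 ≤ ‖1 - w‖ := by
      have := norm_add_le (1 - w) (w - ζ)
      rw [show 1 - w + (w - ζ) = 1 - ζ by ring] at this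
      linarith
    refine ⟨w * EE w, hf w hw1, fun z hz => ?_⟩
    have hzw : ‖z - w‖ ≤ 2 * ‖z - ζ‖ := by
      have := norm_sub_le (z - ζ) (w - ζ)
      rw [show z - ζ - (w - ζ) = z - w by ring] at this
      have := hlow z hz
      linarith
    rw [norm_mul]
    by_cases h8 : ‖z - w‖ ≤ d / 8
    · have h9 := EE_lip hd0 hz.le hw1.le h1w h8
      have h10 : ‖z * EE z - w * EE w‖ * d ≤ 54 * ‖z - w‖ := by
        have e : z * EE z - w * EE w = z * (EE z - EE w) + (z - w) * EE w := by ring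
        have h11 : ‖z * EE z - w * EE w‖ ≤ ‖EE z - EE w‖ + ‖z - w‖ * 3 := by
          rw [e]
          refine (norm_add_le _ _).trans ?_
          rw [norm_mul, norm_mul, hz, one_mul]
          have := norm_EE hw1.le
          gcongr
        have := norm_nonneg (z - w)
        nlinarith
      have hne : ζ * conj z ≠ 1 := by
        intro h1
        exact one_sub_ne hζ (u := conj z) (by simp [hz]) (by rw [h1]; simp)
      have h12 := norm_kap_sq hne
      rw [norm_osc ζ hz] at h12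
      set K := ‖kap (ζ * conj z)‖
      set A := ‖z * EE z - w * EE w‖
      set ρ := ‖z - w‖
      have hK : 0 ≤ K := norm_nonneg _
      have hA : 0 ≤ A := norm_nonneg _
      have hρ : 0 ≤ ρ := norm_nonneg _
      have h13 : K ^ 2 * ρ ≤ 2 := by nlinarith [sq_nonneg K]
      have h14 : (A * K * d) ^ 2 ≤ (27 * r * d) ^ 2 := by
        calc (A * K * d) ^ 2 = (A * d) ^ 2 * K ^ 2 := by ring
          _ ≤ (54 * ρ) ^ 2 * K ^ 2 := by gcongr
          _ = 54 ^ 2 * ρ * (K ^ 2 * ρ) := by ring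
          _ ≤ 54 ^ 2 * (d / 8) * 2 := by gcongr
          _ = 27 ^ 2 * d * (r ^ 2 * d) := by rw [hd]; ring
          _ = _ := by ring
      have h15 := (pow_le_pow_iff_left₀ (by positivity) (by positivity) two_ne_zero).1 h14
      exact le_of_mul_le_mul_right h15 hd0
    · push Not at h8
      have hk : ‖kap (ζ * conj z)‖ ≤ 4 * r := by
        apply kap_le (by positivity)
        rw [norm_osc ζ hz]
        nlinarith
      have h9 : ‖z * EE z - w * EE w‖ ≤ 6 := by
        have := norm_sub_le (z * EE z) (w * EE w)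
        linarith [hf z hz, hf w hw1]
      have := mul_le_mul h9 hk (norm_nonneg _) (by norm_num)
      linarith

def AA (b z : ℂ) : ℂ := z * (phi z * (1 - z)) * kap (b * z) * (1 - b * z)⁻¹

lemma real_geom {b : ℝ} (h0 : 0 ≤ b) (h1 : b < 1) {z : ℂ} (hz : ‖z‖ = 1) :
    1 - b ≤ ‖1 - b * z‖ ∧ ‖1 - z‖ ≤ 2 * ‖1 - b * z‖ ∧ ‖1 - b * z‖ ≤ ‖1 - z‖ + (1 - b) ∧
      ‖1 - b * conj z‖ = ‖1 - b * z‖ := by
  have hb : ‖(b : ℂ) * z‖ = b := by
    rw [norm_mul, hz, Complex.norm_real, Real.norm_eq_abs, abs_of_nonneg h0, mul_one]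
  have hb' : ‖z - b * z‖ = 1 - b := by
    rw [show z - b * z = ((1 - b : ℝ) : ℂ) * z by push_cast; ring, norm_mul, hz, Complex.norm_real,
      Real.norm_eq_abs, abs_of_nonneg (by linarith), mul_one]
  have e1 : 1 - b ≤ ‖1 - b * z‖ := by
    have := norm_sub_norm_le (1 : ℂ) (b * z)
    rw [hb, norm_one] at this; exact this
  refine ⟨e1, ?_, ?_, ?_⟩
  · have := norm_sub_le (1 - b * z) (z - b * z)
    rw [show 1 - b * z - (z - b * z) = 1 - z by ring, hb'] at this
    linarith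
  · have := norm_add_le (1 - z) (z - b * z)
    rw [show 1 - z + (z - b * z) = 1 - b * z by ring, hb'] at this
    linarith
  · rw [← Complex.norm_conj (1 - b * z)]; simp

def RR (ζ α b z : ℂ) : ℂ :=
  z * EE z * kap (ζ * conj z) - α * kap (ζ * conj z) + α * kap (b * conj z) - AA b z

lemma stepA2 {ζ α : ℂ} (hζ : ‖ζ‖ < 1) {r : ℝ} (hr : 0 < r) (hd : r ^ 2 * ‖1 - ζ‖ = 1)
    (hα : ‖α‖ ≤ 3) {z : ℂ} (hz : ‖z‖ = 1)
    (h1 : ‖(z * EE z - α) * kap (ζ * conj z)‖ ≤ 27 * r) :
    ‖RR ζ α ((1 - ‖1 - ζ‖ / 2 : ℝ) : ℂ) z‖ * ‖1 - ((1 - ‖1 - ζ‖ / 2 : ℝ) : ℂ) * z‖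
      ≤ 203 * ‖1 - ζ‖ * r := by
  set d := ‖1 - ζ‖ with hdd
  have hd2 : d < 2 := by
    have := norm_sub_le (1 : ℂ) ζ; simp at this; linarith
  have hd0 : 0 < d := by
    by_contra hh
    have : d = 0 := le_antisymm (not_lt.1 hh) (norm_nonneg _)
    rw [this] at hd; simp at hd
  set b : ℝ := 1 - d / 2 with hb
  have hb0 : 0 ≤ b := by linarith
  have hb1 : b < 1 := by linarith
  obtain ⟨g1, g2, g3, g4⟩ := real_geom hb0 hb1 hz
  set D := ‖1 - b * z‖ with hD
  set t := ‖1 - z‖ with ht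
  have hD0 : 0 < D := by linarith
  have hph := norm_phi hz.le
  have hE := norm_EE hz.le
  have hbn : ‖(b : ℂ)‖ < 1 := by simpa [abs_of_nonneg hb0] using hb1
  by_cases hc : t ≤ 4 * d
  · have k1 : ‖kap (b * conj z)‖ ≤ 2 * r := by
      apply kap_le (by positivity); rw [g4]; nlinarith
    have k2 : ‖kap (b * z)‖ ≤ 2 * r := by
      apply kap_le (by positivity); nlinarith
    have k3 : ‖AA b z‖ ≤ 12 * r := by
      rw [AA, norm_mul, norm_mul, norm_mul, norm_mul, hz, norm_inv, one_mul, ← hD, ← ht,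
        ← div_eq_mul_inv, div_le_iff₀ hD0]
      calc _ ≤ 3 * (2 * D) * (2 * r) := by gcongr
        _ = _ := by ring
    have k4 : ‖RR ζ α b z‖ ≤ 45 * r := by
      have e : RR ζ α b z = (z * EE z - α) * kap (ζ * conj z) + α * kap (b * conj z) - AA b z := by
        rw [RR]; ring
      rw [e]
      refine (norm_sub_le _ _).trans ?_
      have := norm_add_le ((z * EE z - α) * kap (ζ * conj z)) (α * kap (b * conj z))
      have h5 : ‖α * kap (b * conj z)‖ ≤ 3 * (2 * r) := by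
        rw [norm_mul]; gcongr
      linarith
    calc _ ≤ 45 * r * (9 / 2 * d) := by
          gcongr; linarith
      _ ≤ _ := by nlinarith
  · push Not at hc
    have ht0 : 0 < t := by linarith
    have hz1 : z ≠ 1 := by
      rintro rfl
      simp [ht] at ht0
    have hc1 : conj z ≠ 1 := by
      intro h; apply hz1
      have := congrArg conj h; simpa using this
    have hcn : ‖conj z‖ = 1 := by simpa using hz
    obtain ⟨s, hs0, hs⟩ : ∃ s : ℝ, 0 < s ∧ s ^ 2 * t = 1 :=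
      ⟨(√t)⁻¹, by positivity, by rw [inv_pow, Real.sq_sqrt ht0.le]; field_simp⟩
    have hsr : s ≤ r := by
      have : s ^ 2 ≤ r ^ 2 := by
        by_contra hh
        push Not at hh
        nlinarith
      exact (pow_le_pow_iff_left₀ hs0.le hr.le two_ne_zero).1 this
    have k0 : ‖kap z‖ ≤ s := kap_le hs0 (by rw [← ht]; linarith)
    have k0' : ‖kap (conj z)‖ ≤ s := by
      apply kap_le hs0
      rw [show 1 - conj z = conj (1 - z) by simp, Complex.norm_conj, ← ht]; linarith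
    have hzζ : 3 / 4 * t ≤ ‖z - ζ‖ := by
      have := norm_sub_le (1 - ζ) (z - ζ)
      rw [show 1 - ζ - (z - ζ) = 1 - z by ring] at this
      linarith
    have k1 : ‖kap (ζ * conj z)‖ ≤ 2 * s := by
      apply kap_le (by positivity); rw [norm_osc ζ hz]; nlinarith
    have k2 : ‖kap (b * conj z)‖ ≤ 2 * s := by
      apply kap_le (by positivity); rw [g4]; nlinarith
    have k3 : ‖kap (b * z)‖ ≤ 2 * s := by
      apply kap_le (by positivity); nlinarith
    have n1 : ‖ζ * conj z‖ ≤ 1 := by rw [norm_mul, hcn]; linarith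
    have n2 : ‖(b : ℂ) * conj z‖ ≤ 1 := by rw [norm_mul, hcn]; linarith
    have n3 : ‖(b : ℂ) * z‖ ≤ 1 := by rw [norm_mul, hz]; linarith
    have m1 : ζ * conj z ≠ 1 := fun h => one_sub_ne hζ hcn.le (by rw [h]; simp)
    have m2 : (b : ℂ) * conj z ≠ 1 := fun h => one_sub_ne hbn hcn.le (by rw [h]; simp)
    have m3 : (b : ℂ) * z ≠ 1 := fun h => one_sub_ne hbn hz.le (by rw [h]; simp)
    have T1 : ‖kap (ζ * conj z) - kap (conj z)‖ ≤ d * (2 * s) * s ^ 2 := by
      refine (kap_diff n1 hcn.le m1 hc1).trans ?_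
      have : ‖ζ * conj z - conj z‖ = d := by
        rw [show ζ * conj z - conj z = -((1 - ζ) * conj z) by ring, norm_neg, norm_mul, hcn,
          mul_one]
      rw [this]; gcongr
    have T2 : ‖kap (ζ * conj z) - kap (b * conj z)‖ ≤ (3 / 2 * d) * (2 * s) * (2 * s) ^ 2 := by
      refine (kap_diff n1 n2 m1 m2).trans ?_
      have : ‖ζ * conj z - b * conj z‖ ≤ 3 / 2 * d := by
        rw [show ζ * conj z - b * conj z = (((1 - b : ℝ) : ℂ) - (1 - ζ)) * conj z by
          push_cast; ring, norm_mul, hcn, mul_one]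
        refine (norm_sub_le _ _).trans ?_
        rw [Complex.norm_real, Real.norm_eq_abs, abs_of_nonneg (by linarith)]
        linarith
      gcongr
    have hzb : ‖z - b * z‖ = d / 2 := by
      rw [show z - b * z = ((1 - b : ℝ) : ℂ) * z by push_cast; ring, norm_mul, hz,
        Complex.norm_real, Real.norm_eq_abs, abs_of_nonneg (by linarith)]
      linarith
    have T3 : ‖kap z - kap (b * z)‖ ≤ (d / 2) * s * (2 * s) ^ 2 := by
      refine (kap_diff hz.le n3 hz1 m3).trans ?_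
      rw [hzb]; gcongr
    have hDi : D⁻¹ ≤ 2 * s ^ 2 := by
      rw [inv_le_iff_one_le_mul₀ hD0]; nlinarith
    have T4 : ‖kap (b * z) * (z - b * z) * (1 - b * z)⁻¹‖ ≤ (2 * s) * (d / 2) * (2 * s ^ 2) := by
      rw [norm_mul, norm_mul, norm_inv, hzb, ← hD]; gcongr
    have hne : (1 - b * z : ℂ) ≠ 0 := one_sub_ne hbn hz.le
    have e : RR ζ α b z = z * EE z * (kap (ζ * conj z) - kap (conj z))
        - α * (kap (ζ * conj z) - kap (b * conj z))
        + z * phi z * ((kap z - kap (b * z)) + kap (b * z) * (z - b * z) * (1 - b * z)⁻¹) := by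
      have e1 := EE_kap hz.le
      have e2 : (1 - b * z : ℂ) * (1 - b * z)⁻¹ = 1 := mul_inv_cancel₀ hne
      rw [RR, AA]
      linear_combination z * e1 - z * phi z * kap (b * z) * e2
    have k4 : ‖RR ζ α b z‖ ≤ 54 * d * s ^ 3 := by
      rw [e]
      refine (norm_add_le _ _).trans ?_
      have a1 := norm_sub_le (z * EE z * (kap (ζ * conj z) - kap (conj z)))
        (α * (kap (ζ * conj z) - kap (b * conj z)))
      have a2 : ‖z * EE z * (kap (ζ * conj z) - kap (conj z))‖ ≤ 3 * (d * (2 * s) * s ^ 2) := by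
        rw [norm_mul, norm_mul, hz, one_mul]; gcongr
      have a3 : ‖α * (kap (ζ * conj z) - kap (b * conj z))‖
          ≤ 3 * ((3 / 2 * d) * (2 * s) * (2 * s) ^ 2) := by
        rw [norm_mul]; gcongr
      have a4 : ‖z * phi z * ((kap z - kap (b * z)) + kap (b * z) * (z - b * z) * (1 - b * z)⁻¹)‖
          ≤ 3 * ((d / 2) * s * (2 * s) ^ 2 + (2 * s) * (d / 2) * (2 * s ^ 2)) := by
        rw [norm_mul, norm_mul, hz, one_mul]
        have := (norm_add_le _ _).trans (add_le_add T3 T4)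
        gcongr
      nlinarith
    calc _ ≤ 54 * d * s ^ 3 * (9 / 8 * t) := by
          gcongr; linarith
      _ = 54 * (9 / 8) * d * s * (s ^ 2 * t) := by ring
      _ ≤ _ := by rw [hs]; nlinarith

lemma dcc_mul {f g : ℂ → ℂ} (hf : DiffContOnCl ℂ f (ball 0 1)) (hg : DiffContOnCl ℂ g (ball 0 1)) :
    DiffContOnCl ℂ (fun z => f z * g z) (ball 0 1) := ⟨hf.1.mul hg.1, hf.2.mul hg.2⟩

lemma dcc_AA {b : ℂ} (hb : ‖b‖ < 1) : DiffContOnCl ℂ (AA b) (ball 0 1) := by
  have h1 : DiffContOnCl ℂ (fun z => phi z * (1 - z)) (ball 0 1) := by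
    have hd : ∀ u : ℂ, ‖u‖ ≤ 1 → u ≠ 1 → DifferentiableAt ℂ (fun z => phi z * (1 - z)) u := by
      intro u hu h1
      unfold phi
      exact ((differentiableAt_Lg hu h1).const_mul _).cexp.mul (by fun_prop)
    constructor
    · intro u hu
      have hu' : ‖u‖ < 1 := by simpa using hu
      exact (hd u hu'.le (by rintro rfl; simp at hu')).differentiableWithinAt
    · rw [closure_ball _ one_ne_zero]
      intro u hu
      by_cases h1 : u = 1
      · subst h1
        rw [ContinuousWithinAt]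
        simp only [sub_self, mul_zero]
        refine squeeze_zero_norm' (a := fun z : ℂ => 3 * ‖1 - z‖) ?_ ?_
        · filter_upwards [self_mem_nhdsWithin] with z hz
          rw [norm_mul]
          have := norm_phi (u := z) (by simpa using hz)
          gcongr
        · have : Continuous (fun z : ℂ => 3 * ‖1 - z‖) := by fun_prop
          have h2 := this.tendsto 1
          simp only [sub_self, norm_zero, mul_zero] at h2
          exact h2.mono_left nhdsWithin_le_nhds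
      · exact (hd u (by simpa using hu) h1).continuousAt.continuousWithinAt
  have h2 : DiffContOnCl ℂ (fun z => kap (b * z)) (ball 0 1) :=
    dcc_of fun u hu => diffAt_kap hb hu
  have h3 : DiffContOnCl ℂ (fun z => (1 - b * z)⁻¹) (ball 0 1) :=
    dcc_of fun u hu => DifferentiableAt.inv (by fun_prop) (one_sub_ne hb hu)
  have h4 : DiffContOnCl ℂ (fun z : ℂ => z) (ball 0 1) := dcc_of fun u _ => differentiableAt_id
  exact dcc_mul (dcc_mul (dcc_mul h4 h1) h2) h3

lemma BM_dcc {g : ℂ → ℂ} (h : DiffContOnCl ℂ g (ball 0 1)) : BM (fun x => g (zc x)) := by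
  apply BM.of_continuous
  have h2 := h.2
  rw [closure_ball _ one_ne_zero] at h2
  exact h2.comp_continuous continuous_zc fun x => by simp [norm_zc]

lemma BM_EE : BM (fun x => EE (zc x)) := by
  refine ⟨?_, 3, fun x => norm_EE (norm_zc x).le⟩
  have h1 : Measurable (fun x => Lg (zc x)) :=
    Complex.measurable_log.comp (continuous_const.sub continuous_zc).measurable
  unfold EE WW
  refine Complex.measurable_exp.comp ((h1.const_mul _).sub ?_)
  exact (Complex.measurable_ofReal.comp (Complex.measurable_im.comp h1)).const_mul _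

def ff (x : Tc) : ℂ := zc x * EE (zc x)

def gg (x : Tc) : ℂ := -EE (zc x)

lemma BM_ff : BM ff := BM_zc.mul BM_EE

lemma BM_gg : BM gg := by
  have := (BM.const (-1)).mul BM_EE
  simp only [neg_mul, one_mul] at this
  exact this

/-- the decomposition used for boundedness of `T_f` -/
lemma stepA {ζ : ℂ} (hζ : ‖ζ‖ < 1) :
    ∃ (α b : ℂ) (R : Tc → ℂ), ‖α‖ ≤ 3 ∧ ‖b‖ < 1 ∧ BM R ∧ ∫ x, ‖R x‖ ^ 2 ∂mu ≤ 300 ^ 2 ∧
      ∀ x, ff x * kk ζ x = α * kk ζ x - α * kk b x + AA b (zc x) + R x := by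
  set d := ‖1 - ζ‖ with hdd
  have hd2 : d < 2 := by
    have := norm_sub_le (1 : ℂ) ζ; simp at this; linarith
  have hd0 : 0 < d := by
    refine norm_pos_iff.2 (sub_ne_zero.2 ?_)
    rintro rfl; simp at hζ
  obtain ⟨r, hr, hd⟩ : ∃ s : ℝ, 0 < s ∧ s ^ 2 * d = 1 :=
    ⟨(√d)⁻¹, by positivity, by rw [inv_pow, Real.sq_sqrt hd0.le]; field_simp⟩
  obtain ⟨α, hα, h1⟩ := stepA1 hζ hr hd
  set b : ℝ := 1 - d / 2 with hb
  have hb0 : 0 ≤ b := by linarith
  have hb1 : b < 1 := by linarith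
  have hbn : ‖(b : ℂ)‖ < 1 := by simpa [abs_of_nonneg hb0] using hb1
  have hBM : BM (fun x => RR ζ α b (zc x)) :=
    (((BM_ff.mul (BM_kk hζ)).sub ((BM.const α).mul (BM_kk hζ))).add
      ((BM.const α).mul (BM_kk hbn))).sub (BM_dcc (dcc_AA hbn))
  refine ⟨α, b, fun x => RR ζ α b (zc x), hα, hbn, hBM, ?_, fun x => ?_⟩
  · have hp := poisson hb0 hb1
    calc _ ≤ ∫ x, 300 ^ 2 * ((1 - b) * ‖sz b x‖ ^ 2) ∂mu := by
          refine integral_mono (hBM.integrable_norm_pow 2)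
            ((((BM_sz hbn).integrable_norm_pow 2).const_mul _).const_mul _) fun x => ?_
          have h2 := stepA2 hζ hr hd hα (norm_zc x) (h1 _ (norm_zc x))
          rw [← hdd, ← hb] at h2
          have hD : 0 < ‖1 - b * zc x‖ := norm_pos_iff.2 (one_sub_ne hbn (norm_zc x).le)
          have h3 : ‖RR ζ α b (zc x)‖ ≤ 203 * d * r * ‖sz b x‖ := by
            rw [sz, norm_inv, ← div_eq_mul_inv, le_div_iff₀ hD]; exact h2
          calc ‖RR ζ α b (zc x)‖ ^ 2 ≤ (203 * d * r * ‖sz b x‖) ^ 2 := by gcongr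
            _ = 203 ^ 2 * d * (r ^ 2 * d) * ‖sz b x‖ ^ 2 := by ring
            _ ≤ _ := by
              rw [hd, hb]
              have := mul_nonneg hd0.le (sq_nonneg ‖sz b x‖)
              nlinarith
      _ ≤ _ := by rw [integral_const_mul]; nlinarith
  · simp only [RR, ff, kk]; ring

end Pool.Agent.Lib.Helper21.Toep2
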