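import Mathlib
import Pool.Agent.Lib.helper21.Toep2

open MeasureTheory Complex Metric Set
open scoped Real ComplexConjugate

noncomputable section

namespace Pool.Agent.Lib.Helper21.Toep3

open Pool.Agent.Lib.Helper21.Toep1 Pool.Agent.Lib.Helper21.Toep2

def pt (w : ℝ) : ℂ := ((1 - w ^ 2 : ℝ) : ℂ)

lemma norm_pt {w : ℝ} (h0 : 0 < w) (h1 : w ≤ 1) : ‖pt w‖ < 1 := by
  rw [pt, Complex.norm_real, Real.norm_eq_abs, abs_of_nonneg (by nlinarith)]
  nlinarith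

def HH (u : ℝ) (x : Tc) : ℂ :=
  u * (-5 * sz (pt u) x + 32 * sz (pt (2 * u)) x - 27 * sz (pt (3 * u)) x)

def VV (u : ℝ) (η : ℂ) : ℂ :=
  -5 * (u * kap (η * pt u)) + 16 * ((2 * u : ℝ) * kap (η * pt (2 * u)))
    - 9 * ((3 * u : ℝ) * kap (η * pt (3 * u)))

section
variable {u : ℝ} (h0 : 0 < u) (h1 : 3 * u ≤ 1)
include h0 h1

lemma n1 : ‖pt u‖ < 1 := norm_pt h0 (by linarith)
lemma n2 : ‖pt (2 * u)‖ < 1 := norm_pt (by linarith) (by linarith)
lemma n3 : ‖pt (3 * u)‖ < 1 := norm_pt (by linarith) (by linarith)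

lemma BM_HH : BM (HH u) :=
  (BM.const _).mul ((((BM.const _).mul (BM_sz (n1 h0 h1))).add
    ((BM.const _).mul (BM_sz (n2 h0 h1)))).sub ((BM.const _).mul (BM_sz (n3 h0 h1))))

lemma int_HH {η : ℂ} (hη : ‖η‖ < 1) : ∫ x, HH u x * kk η x ∂mu = VV u η := by
  have i1 := ((BM_sz (n1 h0 h1)).mul (BM_kk hη)).integrable
  have i2 := ((BM_sz (n2 h0 h1)).mul (BM_kk hη)).integrable
  have i3 := ((BM_sz (n3 h0 h1)).mul (BM_kk hη)).integrable
  have e : ∀ x, HH u x * kk η x = (-5 * u : ℂ) * (sz (pt u) x * kk η x)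
      + (32 * u : ℂ) * (sz (pt (2 * u)) x * kk η x)
      - (27 * u : ℂ) * (sz (pt (3 * u)) x * kk η x) := fun x => by rw [HH]; ring
  simp only [e]
  have i4 : Integrable (fun x => (-5 * u : ℂ) * (sz (pt u) x * kk η x)
      + (32 * u : ℂ) * (sz (pt (2 * u)) x * kk η x)) mu := (i1.const_mul _).add (i2.const_mul _)
  rw [integral_sub i4 (i3.const_mul _),
    integral_add (i1.const_mul _) (i2.const_mul _), integral_const_mul, integral_const_mul,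
    integral_const_mul, int_sz_kk (n1 h0 h1) hη, int_sz_kk (n2 h0 h1) hη, int_sz_kk (n3 h0 h1) hη,
    VV]
  push_cast; ring

lemma HH_closed (x : Tc) : ‖HH u x‖ = 120 * u ^ 3 * ‖1 - zc x‖ * ‖sz (pt u) x‖ *
    ‖sz (pt (2 * u)) x‖ * ‖sz (pt (3 * u)) x‖ := by
  have e1 := mul_inv_cancel₀ (one_sub_ne (n1 h0 h1) (norm_zc x).le)
  have e2 := mul_inv_cancel₀ (one_sub_ne (n2 h0 h1) (norm_zc x).le)
  have e3 := mul_inv_cancel₀ (one_sub_ne (n3 h0 h1) (norm_zc x).le)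
  have a1 := one_sub_ne (n1 h0 h1) (norm_zc x).le
  have a2 := one_sub_ne (n2 h0 h1) (norm_zc x).le
  have a3 := one_sub_ne (n3 h0 h1) (norm_zc x).le
  have e : HH u x = ((120 * u ^ 3 : ℝ) : ℂ) * zc x * (1 - zc x) * sz (pt u) x *
      sz (pt (2 * u)) x * sz (pt (3 * u)) x := by
    have p1 : pt u = 1 - (u : ℂ) ^ 2 := by rw [pt]; push_cast; ring
    have p2 : pt (2 * u) = 1 - 4 * (u : ℂ) ^ 2 := by rw [pt]; push_cast; ring
    have p3 : pt (3 * u) = 1 - 9 * (u : ℂ) ^ 2 := by rw [pt]; push_cast; ring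
    simp only [HH, sz]
    set A := (1 - pt u * zc x)⁻¹
    set B := (1 - pt (2 * u) * zc x)⁻¹
    set C := (1 - pt (3 * u) * zc x)⁻¹
    rw [p1] at e1
    rw [p2] at e2
    rw [p3] at e3
    set D1 := 1 - (1 - (u : ℂ) ^ 2) * zc x with hD1
    set D2 := 1 - (1 - 4 * (u : ℂ) ^ 2) * zc x with hD2
    set D3 := 1 - (1 - 9 * (u : ℂ) ^ 2) * zc x with hD3
    have e4 : -5 * D2 * D3 + 32 * D1 * D3 - 27 * D1 * D2 = 120 * u ^ 2 * zc x * (1 - zc x) := by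
      rw [hD1, hD2, hD3]; ring
    have e5 : -5 * A + 32 * B - 27 * C =
        (-5 * D2 * D3 + 32 * D1 * D3 - 27 * D1 * D2) * A * B * C := by
      linear_combination (5 * A * (D3 * C)) * e2 + 5 * A * e3
        - (32 * B * (D3 * C)) * e1 - 32 * B * e3 + (27 * C * (D2 * B)) * e1 + 27 * C * e2
    rw [e5, e4]
    push_cast
    ring
  rw [e]
  simp only [norm_mul, norm_zc, Complex.norm_real, Real.norm_eq_abs]
  rw [abs_of_pos (by norm_num : (0:ℝ) < 120), abs_of_pos (by positivity)]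
  ring

end

lemma sz_pt_le {w u : ℝ} (hu : 0 < u) (huw : u ≤ w) (h1 : w ≤ 1) (x : Tc) :
    ‖sz (pt w) x‖ ≤ 3 / (‖1 - zc x‖ + u ^ 2) := by
  obtain ⟨g1, g2, -, -⟩ := real_geom (b := 1 - w ^ 2) (by nlinarith) (by nlinarith) (norm_zc x)
  have hp : 0 < ‖1 - zc x‖ + u ^ 2 := by positivity
  have hw : u ^ 2 ≤ w ^ 2 := by gcongr
  have hD : 0 < ‖1 - ((1 - w ^ 2 : ℝ) : ℂ) * zc x‖ := by nlinarith
  rw [sz, norm_inv, pt, inv_eq_one_div, div_le_div_iff₀ hD hp]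
  linarith

lemma sz_pt_ge {u : ℝ} (hu : 0 < u) (h1 : u ≤ 1) (x : Tc) :
    1 ≤ ‖sz (pt u) x‖ * (‖1 - zc x‖ + u ^ 2) := by
  obtain ⟨g1, -, g3, -⟩ := real_geom (b := 1 - u ^ 2) (by nlinarith) (by nlinarith) (norm_zc x)
  have hD : 0 < ‖1 - ((1 - u ^ 2 : ℝ) : ℂ) * zc x‖ := by nlinarith
  rw [sz, norm_inv, pt, ← div_eq_inv_mul, le_div_iff₀ hD]
  linarith

def qq (a t : ℝ) : ℝ := a * t / (t + a) ^ 2

lemma qq_nonneg {a t : ℝ} (ha : 0 < a) (ht : 0 ≤ t) : 0 ≤ qq a t := by unfold qq; positivity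

lemma qq_le_one {a t : ℝ} (ha : 0 < a) (ht : 0 ≤ t) : qq a t ≤ 1 := by
  unfold qq
  rw [div_le_one (by positivity)]
  nlinarith [mul_nonneg ha.le ht]

lemma tele {a t ρ : ℝ} (ha : 0 < a) (ht : 0 ≤ t) (hρ : 0 < ρ) (hρ2 : ρ ≤ 1 / 2) (N : ℕ) :
    ∑ j ∈ Finset.range N, qq (a * ρ ^ j) t ≤ 2 := by
  have key : ∀ N : ℕ, ∑ j ∈ Finset.range N, qq (a * ρ ^ j) t
      ≤ 2 * (a / (t + a) - a * ρ ^ N / (t + a * ρ ^ N)) := by
    intro N
    induction N with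
    | zero => simp
    | succ n ih =>
      rw [Finset.sum_range_succ]
      have hb : 0 < a * ρ ^ n := by positivity
      rw [pow_succ, ← mul_assoc]
      set b := a * ρ ^ n
      have : qq b t ≤ 2 * (b / (t + b) - b * ρ / (t + b * ρ)) := by
        have h1 : 0 < t + b := by positivity
        have h2 : 0 < t + b * ρ := by positivity
        have e : b / (t + b) - b * ρ / (t + b * ρ) = b * t * (1 - ρ) / ((t + b) * (t + b * ρ)) := by
          field_simp; ring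
        rw [e, qq, ← mul_div_assoc, div_le_div_iff₀ (by positivity) (by positivity)]
        have h3 : t + b * ρ ≤ t + b := by nlinarith
        have h4 : 0 ≤ b * t * (t + b) := by positivity
        calc b * t * ((t + b) * (t + b * ρ)) = b * t * (t + b) * (t + b * ρ) := by ring
          _ ≤ b * t * (t + b) * (t + b) := by gcongr
          _ = b * t * (t + b) * (t + b) * 1 := by ring
          _ ≤ b * t * (t + b) * (t + b) * (2 * (1 - ρ)) := by gcongr; linarith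
          _ = _ := by ring
      linarith
  refine (key N).trans ?_
  have h1 : a / (t + a) ≤ 1 := by rw [div_le_one (by positivity)]; linarith
  have h2 : 0 ≤ a * ρ ^ N / (t + a * ρ ^ N) := by positivity
  linarith

lemma HH_le {u : ℝ} (h0 : 0 < u) (h1 : 3 * u ≤ 1) (x : Tc) :
    ‖HH u x‖ ≤ (u * ‖sz (pt u) x‖) * (1080 * qq (u ^ 2) ‖1 - zc x‖) := by
  rw [HH_closed h0 h1]
  have a2 := sz_pt_le (w := 2 * u) h0 (by linarith) (by linarith) x
  have a3 := sz_pt_le (w := 3 * u) h0 (by linarith) (by linarith) x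
  calc _ ≤ 120 * u ^ 3 * ‖1 - zc x‖ * ‖sz (pt u) x‖ * (3 / (‖1 - zc x‖ + u ^ 2)) *
        (3 / (‖1 - zc x‖ + u ^ 2)) := by gcongr
    _ = _ := by unfold qq; field_simp; ring

lemma poisson_pt {u : ℝ} (h0 : 0 < u) (h1 : u ≤ 1) :
    ∫ x, (u * ‖sz (pt u) x‖) ^ 2 ∂mu ≤ 1 := by
  have := poisson (a := 1 - u ^ 2) (by nlinarith) (by nlinarith)
  refine le_of_eq_of_le ?_ this
  refine integral_congr_ae (Filter.Eventually.of_forall fun x => ?_)
  simp only [pt]; ring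

def SS (a ρ : ℝ) (N : ℕ) (x : Tc) : ℂ := ∑ j ∈ Finset.range N, HH (a * ρ ^ j) x

lemma BM_sum {F : ℕ → Tc → ℂ} (h : ∀ j, BM (F j)) (N : ℕ) :
    BM (fun x => ∑ j ∈ Finset.range N, F j x) := by
  induction N with
  | zero => simpa using BM.const 0
  | succ n ih => simp only [Finset.sum_range_succ]; exact ih.add (h n)

lemma geo_ok {a ρ : ℝ} (ha : 0 < a) (ha1 : 3 * a ≤ 1) (hρ : 0 < ρ) (hρ2 : ρ ≤ 1 / 2) (j : ℕ) :
    0 < a * ρ ^ j ∧ 3 * (a * ρ ^ j) ≤ 1 := by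
  refine ⟨by positivity, ?_⟩
  have : ρ ^ j ≤ 1 := pow_le_one₀ hρ.le (by linarith)
  nlinarith

lemma BM_SS {a ρ : ℝ} (ha : 0 < a) (ha1 : 3 * a ≤ 1) (hρ : 0 < ρ) (hρ2 : ρ ≤ 1 / 2) (N : ℕ) :
    BM (SS a ρ N) :=
  BM_sum (fun j => BM_HH (geo_ok ha ha1 hρ hρ2 j).1 (geo_ok ha ha1 hρ hρ2 j).2) N

lemma int_SS_sq {a ρ : ℝ} (ha : 0 < a) (ha1 : 3 * a ≤ 1) (hρ : 0 < ρ) (hρ2 : ρ ≤ 1 / 2) (N : ℕ) :
    ∫ x, ‖SS a ρ N x‖ ^ 2 ∂mu ≤ 2000 ^ 2 * N := by
  have hi : ∀ j, Integrable (fun x => ((a * ρ ^ j) * ‖sz (pt (a * ρ ^ j)) x‖) ^ 2) mu := by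
    intro j
    obtain ⟨g1, g2⟩ := geo_ok ha ha1 hρ hρ2 j
    simp only [mul_pow]
    exact ((BM_sz (n1 g1 g2)).integrable_norm_pow 2).const_mul _
  calc _ ≤ ∫ x, 2000 ^ 2 * ∑ j ∈ Finset.range N,
        ((a * ρ ^ j) * ‖sz (pt (a * ρ ^ j)) x‖) ^ 2 ∂mu := by
        refine integral_mono ((BM_SS ha ha1 hρ hρ2 N).integrable_norm_pow 2)
          ((integrable_finsetSum _ fun j _ => hi j).const_mul _) fun x => ?_
        have s1 : ‖SS a ρ N x‖ ≤ ∑ j ∈ Finset.range N, ((a * ρ ^ j) * ‖sz (pt (a * ρ ^ j)) x‖) *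
            (1080 * qq ((a * ρ ^ j) ^ 2) ‖1 - zc x‖) :=
          (norm_sum_le _ _).trans (Finset.sum_le_sum fun j _ =>
            HH_le (geo_ok ha ha1 hρ hρ2 j).1 (geo_ok ha ha1 hρ hρ2 j).2 x)
        have s2 := Finset.sum_mul_sq_le_sq_mul_sq (Finset.range N)
          (fun j => (a * ρ ^ j) * ‖sz (pt (a * ρ ^ j)) x‖)
          (fun j => 1080 * qq ((a * ρ ^ j) ^ 2) ‖1 - zc x‖)
        have s3 : ∑ j ∈ Finset.range N, (1080 * qq ((a * ρ ^ j) ^ 2) ‖1 - zc x‖) ^ 2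
            ≤ 2000 ^ 2 := by
          have t1 := tele (a := a ^ 2) (t := ‖1 - zc x‖) (ρ := ρ ^ 2) (by positivity)
            (norm_nonneg _) (by positivity) (by nlinarith) N
          calc _ ≤ ∑ j ∈ Finset.range N, 1080 ^ 2 * qq (a ^ 2 * (ρ ^ 2) ^ j) ‖1 - zc x‖ := by
                refine Finset.sum_le_sum fun j _ => ?_
                have e : (a * ρ ^ j) ^ 2 = a ^ 2 * (ρ ^ 2) ^ j := by ring
                rw [e]
                have b1 := qq_nonneg (a := a ^ 2 * (ρ ^ 2) ^ j) (by positivity) (norm_nonneg (1 - zc x))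
                have b2 := qq_le_one (a := a ^ 2 * (ρ ^ 2) ^ j) (by positivity) (norm_nonneg (1 - zc x))
                nlinarith
            _ ≤ _ := by rw [← Finset.mul_sum]; nlinarith
        have s4 : 0 ≤ ∑ j ∈ Finset.range N, ((a * ρ ^ j) * ‖sz (pt (a * ρ ^ j)) x‖) ^ 2 :=
          Finset.sum_nonneg fun j _ => sq_nonneg _
        calc ‖SS a ρ N x‖ ^ 2 ≤ _ := pow_le_pow_left₀ (norm_nonneg _) s1 2
          _ ≤ _ := s2
          _ ≤ _ := by rw [mul_comm]; gcongr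
    _ = 2000 ^ 2 * ∑ j ∈ Finset.range N,
        ∫ x, ((a * ρ ^ j) * ‖sz (pt (a * ρ ^ j)) x‖) ^ 2 ∂mu := by
        rw [integral_const_mul, integral_finsetSum _ fun j _ => hi j]
    _ ≤ 2000 ^ 2 * ∑ _j ∈ Finset.range N, (1 : ℝ) := by
        gcongr with j _
        obtain ⟨g1, g2⟩ := geo_ok ha ha1 hρ hρ2 j
        exact poisson_pt g1 (by linarith)
    _ = _ := by simp

lemma Lg_pt {w : ℝ} (h0 : 0 < w) : Lg (pt w) = ((2 * Real.log w : ℝ) : ℂ) := by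
  rw [Lg, pt, show (1 : ℂ) - ((1 - w ^ 2 : ℝ) : ℂ) = ((w ^ 2 : ℝ) : ℂ) by push_cast; ring,
    ← Complex.ofReal_log (by positivity), Real.log_pow]
  simp

lemma kap_pt {w : ℝ} (h0 : 0 < w) : w * kap (pt w) = 1 := by
  rw [kap, Lg_pt h0, show (-(1 / 2) * ((2 * Real.log w : ℝ) : ℂ)) = ((-Real.log w : ℝ) : ℂ) by
    push_cast; ring, ← Complex.ofReal_exp, Real.exp_neg, Real.exp_log h0]
  have : (w : ℂ) ≠ 0 := by exact_mod_cast h0.ne'
  push_cast; field_simp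

lemma vv_close {w : ℝ} (h0 : 0 < w) (h1 : w ≤ 1) {η : ℂ} (hη : ‖η‖ < 1) :
    ‖w * kap (η * pt w) - 1‖ ≤ ‖1 - η‖ / w ^ 2 := by
  have hp := norm_pt h0 h1
  have hp' : ‖pt w‖ = 1 - w ^ 2 := by
    rw [pt, Complex.norm_real, Real.norm_eq_abs, abs_of_nonneg (by nlinarith)]
  have n1 : ‖η * pt w‖ ≤ 1 - w ^ 2 := by
    rw [norm_mul, hp']
    exact mul_le_of_le_one_left (by nlinarith) hη.le
  have m1 : η * pt w ≠ 1 := fun h => one_sub_ne hη hp.le (by rw [h]; simp)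
  have m2 : pt w ≠ 1 := by rintro h; rw [h] at hp; simp at hp
  have k1 : ‖kap (η * pt w)‖ ≤ w⁻¹ := by
    apply kap_le (by positivity)
    have := norm_sub_norm_le (1 : ℂ) (η * pt w)
    rw [norm_one] at this
    have h2 : w ^ 2 ≤ ‖1 - η * pt w‖ := by linarith
    calc (1 : ℝ) = w⁻¹ ^ 2 * w ^ 2 := by field_simp
      _ ≤ _ := by gcongr
  have k2 : ‖kap (pt w)‖ = w⁻¹ := by
    have := congrArg norm (kap_pt h0)
    rw [norm_mul, Complex.norm_real, Real.norm_eq_abs, abs_of_pos h0, norm_one] at this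
    field_simp; linarith
  have d := kap_diff (u := η * pt w) (v := pt w) (by nlinarith) hp.le m1 m2
  have d2 : ‖η * pt w - pt w‖ ≤ ‖1 - η‖ := by
    rw [show η * pt w - pt w = -((1 - η) * pt w) by ring, norm_neg, norm_mul]
    nlinarith [norm_nonneg (1 - η)]
  rw [show w * kap (η * pt w) - 1 = w * (kap (η * pt w) - kap (pt w)) by
    rw [mul_sub, kap_pt h0], norm_mul, Complex.norm_real, Real.norm_eq_abs, abs_of_pos h0]
  calc _ ≤ w * (‖1 - η‖ * w⁻¹ * w⁻¹ ^ 2) := by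
        gcongr
        refine d.trans ?_
        rw [k2]; gcongr
    _ = _ := by field_simp

lemma vv_small {w v : ℝ} (h0 : 0 < w) (h1 : w ≤ 1) {η : ℂ} (hη : ‖η‖ < 1) (hv : 0 < v)
    (hv2 : v ^ 2 = ‖1 - η‖) : ‖w * kap (η * pt w)‖ ≤ 2 * w / v := by
  have hp := norm_pt h0 h1
  have hp' : ‖pt w‖ = 1 - w ^ 2 := by
    rw [pt, Complex.norm_real, Real.norm_eq_abs, abs_of_nonneg (by nlinarith)]
  have n1 : ‖η * pt w‖ ≤ 1 - w ^ 2 := by
    rw [norm_mul, hp']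
    exact mul_le_of_le_one_left (by nlinarith) hη.le
  have h2 : w ^ 2 ≤ ‖1 - η * pt w‖ := by
    have := norm_sub_norm_le (1 : ℂ) (η * pt w)
    rw [norm_one] at this; linarith
  have h3 : ‖1 - η‖ ≤ 2 * ‖1 - η * pt w‖ := by
    have := norm_sub_le (1 - η * pt w) (η * ((w ^ 2 : ℝ) : ℂ))
    rw [show 1 - η * pt w - η * ((w ^ 2 : ℝ) : ℂ) = 1 - η by rw [pt]; push_cast; ring, norm_mul,
      Complex.norm_real, Real.norm_eq_abs, abs_of_pos (by positivity)] at this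
    nlinarith [sq_nonneg w]
  have k1 : ‖kap (η * pt w)‖ ≤ 2 / v := by
    apply kap_le (by positivity)
    rw [div_pow, div_mul_eq_mul_div, le_div_iff₀ (by positivity)]
    nlinarith [norm_nonneg (1 - η)]
  rw [norm_mul, Complex.norm_real, Real.norm_eq_abs, abs_of_pos h0]
  calc _ ≤ w * (2 / v) := by gcongr
    _ = _ := by ring

lemma VV_close {u : ℝ} (h0 : 0 < u) (h1 : 3 * u ≤ 1) {η : ℂ} (hη : ‖η‖ < 1) :
    ‖VV u η - 2‖ ≤ 10 * ‖1 - η‖ / u ^ 2 := by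
  have a1 := vv_close h0 (by linarith) hη
  have a2 := vv_close (w := 2 * u) (by linarith) (by linarith) hη
  have a3 := vv_close (w := 3 * u) (by linarith) (by linarith) hη
  have e : VV u η - 2 = -5 * (u * kap (η * pt u) - 1)
      + 16 * ((2 * u : ℝ) * kap (η * pt (2 * u)) - 1)
      - 9 * ((3 * u : ℝ) * kap (η * pt (3 * u)) - 1) := by rw [VV]; ring
  rw [e]
  refine (norm_sub_le _ _).trans ?_
  refine (add_le_add (norm_add_le _ _) le_rfl).trans ?_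
  simp only [norm_mul, norm_neg, Complex.norm_ofNat]
  calc _ ≤ 5 * (‖1 - η‖ / u ^ 2) + 16 * (‖1 - η‖ / (2 * u) ^ 2) + 9 * (‖1 - η‖ / (3 * u) ^ 2) := by
        gcongr
    _ = _ := by field_simp; ring

lemma VV_small {u v : ℝ} (h0 : 0 < u) (h1 : 3 * u ≤ 1) {η : ℂ} (hη : ‖η‖ < 1) (hv : 0 < v)
    (hv2 : v ^ 2 = ‖1 - η‖) : ‖VV u η‖ ≤ 128 * u / v := by
  have a1 := vv_small h0 (by linarith) hη hv hv2
  have a2 := vv_small (w := 2 * u) (by linarith) (by linarith) hη hv hv2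
  have a3 := vv_small (w := 3 * u) (by linarith) (by linarith) hη hv hv2
  rw [VV]
  refine (norm_sub_le _ _).trans ?_
  refine (add_le_add (norm_add_le _ _) le_rfl).trans ?_
  rw [norm_mul (-5), norm_mul 16, norm_mul 9]
  simp only [norm_neg, Complex.norm_ofNat]
  calc _ ≤ 5 * (2 * u / v) + 16 * (2 * (2 * u) / v) + 9 * (2 * (3 * u) / v) := by gcongr
    _ = _ := by field_simp; ring

lemma VV_pair {u v θ : ℝ} (h0 : 0 < u) (h1 : 3 * u ≤ 1) (hθ : 0 < θ) (hθ1 : θ ≤ 1) {η : ℂ}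
    (hη : ‖η‖ < 1) (hv : 0 < v) (hv2 : v ^ 2 = ‖1 - η‖) :
    ‖VV u η - VV (θ * u) η‖ ≤ (1024 + 80 / θ ^ 2) * qq u v := by
  have g0 : 0 < θ * u := by positivity
  have g1 : 3 * (θ * u) ≤ 1 := by nlinarith
  have hq := qq_nonneg h0 hv.le
  have hθ' : 0 ≤ 80 / θ ^ 2 := by positivity
  by_cases hc : u ≤ v
  · have a1 := VV_small h0 h1 hη hv hv2
    have a2 := VV_small g0 g1 hη hv hv2
    have a3 : u / v ≤ 4 * qq u v := by
      rw [qq, ← mul_div_assoc, div_le_div_iff₀ hv (by positivity)]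
      have : (v + u) ^ 2 ≤ (2 * v) ^ 2 := by gcongr; linarith
      nlinarith
    have a4 : 128 * (θ * u) / v ≤ 128 * u / v := by gcongr; nlinarith
    have a5 := norm_sub_le (VV u η) (VV (θ * u) η)
    have a6 : 128 * u / v = 128 * (u / v) := by ring
    nlinarith [mul_nonneg hθ' hq]
  · push Not at hc
    have a1 := VV_close h0 h1 hη
    have a2 := VV_close g0 g1 hη
    rw [← hv2] at a1 a2
    have a3 : v ^ 2 / u ^ 2 ≤ 4 * qq u v := by
      rw [qq, ← mul_div_assoc, div_le_div_iff₀ (by positivity) (by positivity)]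
      have h2 : (v + u) ^ 2 ≤ (2 * u) ^ 2 := by gcongr; linarith
      calc v ^ 2 * (v + u) ^ 2 ≤ (v * u) * (2 * u) ^ 2 := by
            gcongr; nlinarith
        _ = _ := by ring
    have a4 : 10 * v ^ 2 / u ^ 2 ≤ 10 * v ^ 2 / (θ * u) ^ 2 := by
      gcongr; nlinarith
    have a5 := norm_sub_le (VV u η - 2) (VV (θ * u) η - 2)
    rw [show VV u η - 2 - (VV (θ * u) η - 2) = VV u η - VV (θ * u) η by ring] at a5
    have a6 : 10 * v ^ 2 / (θ * u) ^ 2 = (10 / θ ^ 2) * (v ^ 2 / u ^ 2) := by field_simp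
    have a7 : (10 / θ ^ 2) * (v ^ 2 / u ^ 2) ≤ (10 / θ ^ 2) * (4 * qq u v) := by gcongr
    have a8 : (10 / θ ^ 2) * (4 * qq u v) = (80 / θ ^ 2) * qq u v / 2 := by ring
    nlinarith

lemma log_bound {s u : ℝ} (hs : 0 < s) (hu : 0 < u) :
    |Real.log s - Real.log u| * (u * s) ≤ s ^ 2 + u ^ 2 := by
  have h1 : Real.log s - Real.log u ≤ s / u := by
    rw [← Real.log_div hs.ne' hu.ne']
    have := Real.log_le_sub_one_of_pos (div_pos hs hu); linarith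
  have h2 : Real.log u - Real.log s ≤ u / s := by
    rw [← Real.log_div hu.ne' hs.ne']
    have := Real.log_le_sub_one_of_pos (div_pos hu hs); linarith
  have e1 : s / u * (u * s) = s ^ 2 := by field_simp
  have e2 : u / s * (u * s) = u ^ 2 := by field_simp
  have hp : 0 < u * s := by positivity
  rcases abs_cases (Real.log s - Real.log u) with h | h
  · rw [h.1]; nlinarith [sq_nonneg u]
  · rw [h.1]; nlinarith [sq_nonneg s]

def psi0 (u : ℝ) : ℂ := Complex.exp (I * ((4 * tau * Real.log u : ℝ) : ℂ))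

lemma err_pt {u ζ : ℝ} (h0 : 0 < u) (h1 : 3 * u ≤ 1) (hζ0 : 0 ≤ ζ) (hζ1 : ζ < 1) (x : Tc) :
    ‖(ff x * gg x - psi0 u) * HH u x * kk ζ x‖ ≤ (1 / 5) * (u * ‖sz (pt u) x‖) ^ 2 := by
  by_cases hz : zc x = 1
  · rw [norm_mul, norm_mul, HH_closed h0 h1, hz]; simp; positivity
  have ht0 : 0 < ‖1 - zc x‖ := norm_pos_iff.2 (sub_ne_zero.2 (Ne.symm hz))
  set t := ‖1 - zc x‖ with ht
  obtain ⟨s, hs0, hs⟩ : ∃ s : ℝ, 0 < s ∧ s ^ 2 = t := ⟨√t, by positivity, Real.sq_sqrt ht0.le⟩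
  obtain ⟨-, g2, -, g4⟩ := real_geom hζ0 hζ1 (norm_zc x)
  have k1 : ‖kk ζ x‖ ≤ 2 / s := by
    apply kap_le (by positivity)
    rw [g4, div_pow, div_mul_eq_mul_div, le_div_iff₀ (by positivity)]
    nlinarith
  have a2 := sz_pt_le (w := 2 * u) h0 (by linarith) (by linarith) x
  have a3 := sz_pt_le (w := 3 * u) h0 (by linarith) (by linarith) x
  have a1 := sz_pt_ge h0 (by linarith) x
  rw [← ht, ← hs] at a1 a2 a3
  set P := ‖sz (pt u) x‖
  have hP : 0 ≤ P := norm_nonneg _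
  have k2 : ‖HH u x‖ * ‖kk ζ x‖ ≤ 2160 * (u * P) ^ 2 * (u * s / (s ^ 2 + u ^ 2)) := by
    rw [HH_closed h0 h1, ← ht, ← hs]
    calc _ ≤ 120 * u ^ 3 * s ^ 2 * P * (3 / (s ^ 2 + u ^ 2)) * (3 / (s ^ 2 + u ^ 2)) * (2 / s) := by
          gcongr
      _ = 2160 * u ^ 3 * s * P / (s ^ 2 + u ^ 2) ^ 2 * 1 := by field_simp; ring
      _ ≤ 2160 * u ^ 3 * s * P / (s ^ 2 + u ^ 2) ^ 2 * (P * (s ^ 2 + u ^ 2)) := by gcongr
      _ = _ := by field_simp
  have k3 : ‖ff x * gg x - psi0 u‖ ≤ 8 * tau + 4 * tau * |Real.log s - Real.log u| := by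
    have e1 : ff x * gg x = Complex.exp (2 * (I * tau * Lg (zc x))) := EE_sq (norm_zc x) hz
    have hre : (Lg (zc x)).re = 2 * Real.log s := by
      rw [Lg, Complex.log_re, ← ht, ← hs, Real.log_pow]; simp
    have him := abs_im_Lg (norm_zc x).le
    set α := (Lg (zc x)).im with hα
    have e2 : 2 * (I * tau * Lg (zc x)) =
        ((-(2 * tau * α) : ℝ) : ℂ) + I * ((4 * tau * Real.log s : ℝ) : ℂ) := by
      apply Complex.ext <;> simp [hre, ← hα] <;> ring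
    have e3 : ff x * gg x - psi0 u =
        (Complex.exp ((-(2 * tau * α) : ℝ) : ℂ) - 1) *
          Complex.exp (I * ((4 * tau * Real.log s : ℝ) : ℂ)) +
        psi0 u * (Complex.exp (I * ((4 * tau * (Real.log s - Real.log u) : ℝ) : ℂ)) - 1) := by
      have : psi0 u * Complex.exp (I * ((4 * tau * (Real.log s - Real.log u) : ℝ) : ℂ)) =
          Complex.exp (I * ((4 * tau * Real.log s : ℝ) : ℂ)) := by
        rw [psi0, ← Complex.exp_add]; congr 1; push_cast; ring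
      rw [e1, e2, Complex.exp_add, mul_sub (psi0 u), this]
      ring
    have htau : 0 < tau := by unfold tau; norm_num
    have b0 : ‖((-(2 * tau * α) : ℝ) : ℂ)‖ ≤ 4 * tau := by
      rw [Complex.norm_real, Real.norm_eq_abs, abs_neg, abs_mul, abs_of_pos (by positivity)]
      nlinarith [Real.pi_le_four]
    have b1 := Complex.norm_exp_sub_one_le (b0.trans (by unfold tau; norm_num))
    have b2 := Real.norm_exp_I_mul_ofReal_sub_one_le (x := 4 * tau * (Real.log s - Real.log u))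
    rw [Real.norm_eq_abs, abs_mul, abs_of_pos (by positivity : 0 < 4 * tau)] at b2
    rw [e3]
    refine (norm_add_le _ _).trans ?_
    rw [norm_mul, norm_mul, psi0, Complex.norm_exp_I_mul_ofReal, Complex.norm_exp_I_mul_ofReal]
    linarith
  have k4 : u * s / (s ^ 2 + u ^ 2) ≤ 1 / 2 := by
    rw [div_le_iff₀ (by positivity)]; nlinarith [sq_nonneg (s - u)]
  have k5 : |Real.log s - Real.log u| * (u * s / (s ^ 2 + u ^ 2)) ≤ 1 := by
    rw [← mul_div_assoc, div_le_one (by positivity)]; exact log_bound hs0 h0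
  rw [mul_assoc, norm_mul, norm_mul]
  calc _ ≤ (8 * tau + 4 * tau * |Real.log s - Real.log u|) *
        (2160 * (u * P) ^ 2 * (u * s / (s ^ 2 + u ^ 2))) := by
        gcongr
        unfold tau; positivity
    _ = 2160 * tau * (u * P) ^ 2 * (8 * (u * s / (s ^ 2 + u ^ 2)) +
        4 * (|Real.log s - Real.log u| * (u * s / (s ^ 2 + u ^ 2)))) := by ring
    _ ≤ 2160 * tau * (u * P) ^ 2 * (8 * (1 / 2) + 4 * 1) := by
        gcongr
        unfold tau; positivity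
    _ ≤ _ := by unfold tau; nlinarith [sq_nonneg (u * P)]

lemma err_int {u ζ : ℝ} (h0 : 0 < u) (h1 : 3 * u ≤ 1) (hζ0 : 0 ≤ ζ) (hζ1 : ζ < 1) :
    ‖∫ x, ff x * gg x * HH u x * kk ζ x ∂mu - psi0 u * VV u ζ‖ ≤ 1 / 5 := by
  have hζ : ‖(ζ : ℂ)‖ < 1 := by simpa [abs_of_nonneg hζ0] using hζ1
  have i1 := (((BM_ff.mul BM_gg).mul (BM_HH h0 h1)).mul (BM_kk hζ)).integrable
  have i2 := ((BM_HH h0 h1).mul (BM_kk hζ)).integrable
  rw [← int_HH h0 h1 hζ, ← integral_const_mul, ← integral_sub i1 (i2.const_mul _)]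
  refine (norm_integral_le_integral_norm _).trans ?_
  have hp := poisson_pt h0 (by linarith)
  calc _ ≤ ∫ x, (1 / 5) * (u * ‖sz (pt u) x‖) ^ 2 ∂mu := by
        refine integral_mono (i1.sub (i2.const_mul _)).norm ?_ fun x => ?_
        · simp only [mul_pow]
          exact (((BM_sz (n1 h0 h1)).integrable_norm_pow 2).const_mul _).const_mul _
        · refine le_of_eq_of_le ?_ (err_pt h0 h1 hζ0 hζ1 x)
          congr 1; ring
    _ ≤ _ := by rw [integral_const_mul]; linarith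

def th : ℝ := Real.exp (-(π / (4 * tau)))

lemma th_pos : 0 < th := Real.exp_pos _

lemma th_le : th ≤ 1 / 4 := by
  have h1 : 3 ≤ π / (4 * tau) := by
    rw [le_div_iff₀ (by unfold tau; norm_num)]
    unfold tau; linarith [Real.pi_gt_three]
  have h2 := Real.add_one_le_exp (π / (4 * tau))
  rw [th, Real.exp_neg, inv_le_comm₀ (Real.exp_pos _) (by norm_num)]
  linarith

lemma psi0_pow (m : ℕ) : psi0 (th ^ m) = (-1) ^ m := by
  have htau : tau ≠ 0 := by unfold tau; norm_num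
  have e : 4 * tau * Real.log (th ^ m) = -(m * π) := by
    rw [Real.log_pow, th, Real.log_exp]; field_simp
  rw [psi0, e]
  have : I * ((-(m * π) : ℝ) : ℂ) = m * (-(π * I)) := by push_cast; ring
  rw [this, Complex.exp_nat_mul, Complex.exp_neg, Complex.exp_pi_mul_I]
  norm_num

/-- the test functions -/
def hN (N : ℕ) (x : Tc) : ℂ := SS (th ^ 2) (th ^ 2) N x - SS (th ^ 3) (th ^ 2) N x

lemma th2 : 0 < th ^ 2 ∧ 3 * th ^ 2 ≤ 1 ∧ th ^ 2 ≤ 1 / 2 ∧ 0 < th ^ 3 ∧ 3 * th ^ 3 ≤ 1 := by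
  have h1 := th_pos
  have h2 := th_le
  refine ⟨by positivity, by nlinarith, by nlinarith, by positivity, ?_⟩
  have : th ^ 3 ≤ (1 / 4) ^ 3 := by gcongr
  linarith

lemma BM_S1 (N : ℕ) : BM (SS (th ^ 2) (th ^ 2) N) := BM_SS th2.1 th2.2.1 th2.1 th2.2.2.1 N
lemma BM_S2 (N : ℕ) : BM (SS (th ^ 3) (th ^ 2) N) := BM_SS th2.2.2.2.1 th2.2.2.2.2 th2.1 th2.2.2.1 N

lemma BM_hN (N : ℕ) : BM (hN N) := (BM_S1 N).sub (BM_S2 N)

lemma int_hN_sq (N : ℕ) : ∫ x, ‖hN N x‖ ^ 2 ∂mu ≤ 4000 ^ 2 * N := by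
  have a1 := int_SS_sq th2.1 th2.2.1 th2.1 th2.2.2.1 N
  have a2 := int_SS_sq th2.2.2.2.1 th2.2.2.2.2 th2.1 th2.2.2.1 N
  have i1 := (BM_S1 N).integrable_norm_pow 2
  have i2 := (BM_S2 N).integrable_norm_pow 2
  calc _ ≤ ∫ x, (2 * ‖SS (th ^ 2) (th ^ 2) N x‖ ^ 2 + 2 * ‖SS (th ^ 3) (th ^ 2) N x‖ ^ 2) ∂mu := by
        refine integral_mono ((BM_hN N).integrable_norm_pow 2)
          ((i1.const_mul _).add (i2.const_mul _)) fun x => ?_
        have := norm_sub_le (SS (th ^ 2) (th ^ 2) N x) (SS (th ^ 3) (th ^ 2) N x)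
        have h2 : ‖hN N x‖ ^ 2 ≤ (‖SS (th ^ 2) (th ^ 2) N x‖ + ‖SS (th ^ 3) (th ^ 2) N x‖) ^ 2 :=
          pow_le_pow_left₀ (norm_nonneg _) this 2
        nlinarith [sq_nonneg (‖SS (th ^ 2) (th ^ 2) N x‖ - ‖SS (th ^ 3) (th ^ 2) N x‖)]
    _ ≤ _ := by
        rw [integral_add (i1.const_mul _) (i2.const_mul _), integral_const_mul, integral_const_mul]
        linarith

lemma int_hN_mul {w : Tc → ℂ} (hw : BM w) (N : ℕ) :
    ∫ x, hN N x * w x ∂mu = ∑ j ∈ Finset.range N,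
      (∫ x, HH (th ^ 2 * (th ^ 2) ^ j) x * w x ∂mu - ∫ x, HH (th ^ 3 * (th ^ 2) ^ j) x * w x ∂mu) := by
  have i1 : ∀ j, Integrable (fun x => HH (th ^ 2 * (th ^ 2) ^ j) x * w x) mu := fun j =>
    ((BM_HH (geo_ok th2.1 th2.2.1 th2.1 th2.2.2.1 j).1
      (geo_ok th2.1 th2.2.1 th2.1 th2.2.2.1 j).2).mul hw).integrable
  have i2 : ∀ j, Integrable (fun x => HH (th ^ 3 * (th ^ 2) ^ j) x * w x) mu := fun j =>
    ((BM_HH (geo_ok th2.2.2.2.1 th2.2.2.2.2 th2.1 th2.2.2.1 j).1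
      (geo_ok th2.2.2.2.1 th2.2.2.2.2 th2.1 th2.2.2.1 j).2).mul hw).integrable
  have e : ∀ x, hN N x * w x = ∑ j ∈ Finset.range N,
      (HH (th ^ 2 * (th ^ 2) ^ j) x * w x - HH (th ^ 3 * (th ^ 2) ^ j) x * w x) := by
    intro x
    rw [hN, SS, SS, sub_mul, Finset.sum_mul, Finset.sum_mul, Finset.sum_sub_distrib]
  simp only [e]
  have i3 : ∀ j ∈ Finset.range N, Integrable (fun x => HH (th ^ 2 * (th ^ 2) ^ j) x * w x
      - HH (th ^ 3 * (th ^ 2) ^ j) x * w x) mu := fun j _ => (i1 j).sub (i2 j)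
  rw [integral_finsetSum _ i3]
  exact Finset.sum_congr rfl fun j _ => integral_sub (i1 j) (i2 j)

lemma hN_kk (N : ℕ) {η : ℂ} (hη : ‖η‖ < 1) :
    ‖∫ x, hN N x * kk η x ∂mu‖ ≤ (1024 + 80 / th ^ 2) * 2 := by
  have hd0 : 0 < ‖1 - η‖ := by
    refine norm_pos_iff.2 (sub_ne_zero.2 ?_)
    rintro rfl; simp at hη
  obtain ⟨v, hv, hv2⟩ : ∃ s : ℝ, 0 < s ∧ s ^ 2 = ‖1 - η‖ :=
    ⟨√‖1 - η‖, by positivity, Real.sq_sqrt hd0.le⟩
  rw [int_hN_mul (BM_kk hη)]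
  refine (norm_sum_le _ _).trans ?_
  have t1 := tele (t := v) th2.1 hv.le th2.1 th2.2.2.1 N
  have hp := th_pos
  calc _ ≤ ∑ j ∈ Finset.range N, (1024 + 80 / th ^ 2) * qq (th ^ 2 * (th ^ 2) ^ j) v := by
        refine Finset.sum_le_sum fun j _ => ?_
        obtain ⟨g1, g2⟩ := geo_ok th2.1 th2.2.1 th2.1 th2.2.2.1 j
        obtain ⟨g3, g4⟩ := geo_ok th2.2.2.2.1 th2.2.2.2.2 th2.1 th2.2.2.1 j
        rw [int_HH g1 g2 hη, int_HH g3 g4 hη,
          show th ^ 3 * (th ^ 2) ^ j = th * (th ^ 2 * (th ^ 2) ^ j) by ring]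
        exact VV_pair g1 g2 th_pos (by linarith [th_le]) hη hv hv2
    _ ≤ _ := by rw [← Finset.mul_sum]; gcongr

lemma hN_big (N : ℕ) : ∃ ζ : ℂ, ‖ζ‖ < 1 ∧
    2 * (N : ℝ) ≤ ‖∫ x, hN N x * (ff x * gg x * kk ζ x) ∂mu‖ := by
  have hp := th_pos
  have hl := th_le
  set m : ℝ := th ^ 3 * (th ^ 2) ^ N with hm
  obtain ⟨m0, m1⟩ := geo_ok th2.2.2.2.1 th2.2.2.2.2 th2.1 th2.2.2.1 N
  rw [← hm] at m0 m1
  set ζ : ℝ := 1 - m ^ 2 / 20 with hζ
  have hζ0 : 0 ≤ ζ := by nlinarith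
  have hζ1 : ζ < 1 := by nlinarith
  have hζn : ‖(ζ : ℂ)‖ < 1 := by simpa [abs_of_nonneg hζ0] using hζ1
  have hd : ‖1 - (ζ : ℂ)‖ = m ^ 2 / 20 := by
    rw [show 1 - (ζ : ℂ) = ((m ^ 2 / 20 : ℝ) : ℂ) by rw [hζ]; push_cast; ring, Complex.norm_real,
      Real.norm_eq_abs, abs_of_pos (by positivity)]
  refine ⟨ζ, hζn, ?_⟩
  rw [int_hN_mul ((BM_ff.mul BM_gg).mul (BM_kk hζn))]
  refine le_trans ?_ (Complex.re_le_norm _)
  rw [Complex.re_sum]
  have key : ∀ u : ℝ, 0 < u → 3 * u ≤ 1 → m ≤ u →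
      ‖∫ x, HH u x * (ff x * gg x * kk ζ x) ∂mu - psi0 u * 2‖ ≤ 1 := by
    intro u h0 h1 h2
    have a1 := err_int h0 h1 hζ0 hζ1
    have a2 := VV_close h0 h1 hζn
    rw [hd] at a2
    have a3 : 10 * (m ^ 2 / 20) / u ^ 2 ≤ 1 / 2 := by
      rw [div_le_iff₀ (by positivity)]
      have : m ^ 2 ≤ u ^ 2 := by gcongr
      linarith
    have e : ∫ x, HH u x * (ff x * gg x * kk ζ x) ∂mu = ∫ x, ff x * gg x * HH u x * kk ζ x ∂mu :=
      integral_congr_ae (Filter.Eventually.of_forall fun x => by ring)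
    have e2 : ∫ x, HH u x * (ff x * gg x * kk ζ x) ∂mu - psi0 u * 2 =
        (∫ x, ff x * gg x * HH u x * kk ζ x ∂mu - psi0 u * VV u ζ) + psi0 u * (VV u ζ - 2) := by
      rw [e]; ring
    rw [e2]
    refine (norm_add_le _ _).trans ?_
    rw [norm_mul, psi0, Complex.norm_exp_I_mul_ofReal, ← psi0]
    linarith
  calc 2 * (N : ℝ) = ∑ _j ∈ Finset.range N, (2 : ℝ) := by simp; ring
    _ ≤ _ := by
      refine Finset.sum_le_sum fun j hj => ?_
      obtain ⟨g1, g2⟩ := geo_ok th2.1 th2.2.1 th2.1 th2.2.2.1 j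
      obtain ⟨g3, g4⟩ := geo_ok th2.2.2.2.1 th2.2.2.2.2 th2.1 th2.2.2.1 j
      have hj' : (th ^ 2) ^ N ≤ (th ^ 2) ^ j :=
        pow_le_pow_of_le_one th2.1.le (by linarith [th2.2.2.1]) (Finset.mem_range.1 hj).le
      have c2 : m ≤ th ^ 3 * (th ^ 2) ^ j := by rw [hm]; gcongr
      have c1 : m ≤ th ^ 2 * (th ^ 2) ^ j := by
        refine c2.trans ?_
        have : th ^ 3 ≤ th ^ 2 := pow_le_pow_of_le_one hp.le (by linarith) (by norm_num)
        gcongr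
      have k1 := key _ g1 g2 c1
      have k2 := key _ g3 g4 c2
      have p1 : psi0 (th ^ 2 * (th ^ 2) ^ j) = 1 := by
        rw [show th ^ 2 * (th ^ 2) ^ j = th ^ (2 * (j + 1)) by ring, psi0_pow, pow_mul]; simp
      have p2 : psi0 (th ^ 3 * (th ^ 2) ^ j) = -1 := by
        rw [show th ^ 3 * (th ^ 2) ^ j = th ^ (2 * (j + 1) + 1) by ring, psi0_pow, pow_succ,
          pow_mul]; simp
      rw [p1] at k1
      rw [p2] at k2
      have r1 := (Complex.abs_re_le_norm _).trans k1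
      have r2 := (Complex.abs_re_le_norm _).trans k2
      rw [abs_le] at r1 r2
      simp only [Complex.sub_re, Complex.mul_re, Complex.one_re, Complex.neg_re, Complex.re_ofNat,
        Complex.one_im, Complex.neg_im, Complex.im_ofNat] at r1 r2 ⊢
      linarith [r1.1, r2.2]

end Pool.Agent.Lib.Helper21.Toep3
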