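import Mathlib
import Pool.Agent.Lib.helper21.Toep3

open MeasureTheory Complex Metric Set Filter Topology
open scoped Real ComplexConjugate ENNReal

noncomputable section

namespace Pool.Agent.Lib.Helper21.Toep4

open Pool.Agent.Lib.Helper21.Toep1 Pool.Agent.Lib.Helper21.Toep2 Pool.Agent.Lib.Helper21.Toep3

abbrev L2 := Lp ℂ 2 mu

def BB : Submodule ℂ (Tc → ℂ) where
  carrier := {u | BM u}
  add_mem' := fun hu hv => BM.add hu hv
  zero_mem' := BM.const 0
  smul_mem' := fun c _ hu => (BM.const c).mul hu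

def toL : BB →ₗ[ℂ] L2 where
  toFun u := (BM.memLp u.2 2).toLp u.1
  map_add' _ _ := MemLp.toLp_add _ _
  map_smul' c _ := MemLp.toLp_const_smul c _

lemma coe_toL (u : BB) : toL u =ᵐ[mu] u.1 := MemLp.coeFn_toLp (BM.memLp u.2 2)

lemma norm_sq_L2 (U : L2) : ‖U‖ ^ 2 = ∫ x, ‖U x‖ ^ 2 ∂mu := by
  have h : (inner ℂ U U : ℂ) = ∫ x, ((‖U x‖ ^ 2 : ℝ) : ℂ) ∂mu := by
    rw [L2.inner_def]
    refine integral_congr_ae (Eventually.of_forall fun x => ?_)
    simp [inner_self_eq_norm_sq_to_K]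
  rw [integral_complex_ofReal, inner_self_eq_norm_sq_to_K] at h
  apply Complex.ofReal_injective
  rw [← h]; simp

lemma norm_toL_sq (u : BB) : ‖toL u‖ ^ 2 = ∫ x, ‖u.1 x‖ ^ 2 ∂mu := by
  rw [norm_sq_L2]
  refine integral_congr_ae ?_
  filter_upwards [coe_toL u] with x hx
  rw [hx]

lemma norm_toL_le (u : BB) {c : ℝ} (hc : 0 ≤ c) (h : ∫ x, ‖u.1 x‖ ^ 2 ∂mu ≤ c ^ 2) :
    ‖toL u‖ ≤ c := by
  rw [← norm_toL_sq] at h
  exact (pow_le_pow_iff_left₀ (norm_nonneg _) hc two_ne_zero).1 h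

lemma pair_eq {w : Tc → ℂ} (hw : BM w) (U : L2) :
    ∫ x, w x * U x ∂mu = inner ℂ (toL ⟨_, hw.conj⟩) U := by
  rw [L2.inner_def]
  refine integral_congr_ae ?_
  filter_upwards [coe_toL ⟨_, hw.conj⟩] with x hx
  rw [hx]; simp [mul_comm]

lemma continuous_pair {w : Tc → ℂ} (hw : BM w) :
    Continuous (fun U : L2 => ∫ x, w x * U x ∂mu) := by
  simp only [pair_eq hw]
  fun_prop

lemma pair_toL {w : Tc → ℂ} (u : BB) : ∫ x, w x * toL u x ∂mu = ∫ x, w x * u.1 x ∂mu := by
  refine integral_congr_ae ?_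
  filter_upwards [coe_toL u] with x hx
  rw [hx]

lemma cs {w : Tc → ℂ} (hw : BM w) {c : ℝ} (hc : 0 ≤ c) (h : ∫ x, ‖w x‖ ^ 2 ∂mu ≤ c ^ 2)
    (u : BB) : ‖∫ x, w x * u.1 x ∂mu‖ ≤ c * ‖toL u‖ := by
  rw [← pair_toL, pair_eq hw]
  refine (norm_inner_le_norm _ _).trans ?_
  gcongr
  exact norm_toL_le _ hc (by simpa using h)

def en (n : ℤ) : L2 := fourierLp 2 n

lemma inner_en (n : ℤ) (U : L2) : inner ℂ (en n) U = fourierCoeff U n := by
  rw [← fourierBasis_repr, fourierBasis.repr_apply_apply, coe_fourierBasis, en]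

lemma norm_en (n : ℤ) : ‖en n‖ = 1 := orthonormal_fourier.1 n

def NN : Submodule ℂ L2 := Submodule.span ℂ (Set.range fun n : ℕ => en (-((n + 1 : ℕ) : ℤ)))

def KK : Submodule ℂ L2 := NNᗮ

instance : CompleteSpace KK := by unfold KK; infer_instance

lemma mem_KK {U : L2} : U ∈ KK ↔ ∀ n : ℕ, fourierCoeff U (-((n + 1 : ℕ) : ℤ)) = 0 := by
  constructor
  · intro h n
    rw [← inner_en]
    exact h _ (Submodule.subset_span ⟨n, rfl⟩)
  · intro h u hu
    induction hu using Submodule.span_induction with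
    | mem x hx => obtain ⟨n, rfl⟩ := hx; rw [inner_en]; exact h n
    | zero => simp
    | add x y _ _ hx hy => rw [inner_add_left, hx, hy, add_zero]
    | smul a x _ hx => rw [inner_smul_left, hx, mul_zero]

def PP : L2 →L[ℂ] L2 := KK.starProjection

lemma en_mem (n : ℕ) : en n ∈ KK := by
  rw [mem_KK]
  intro m
  rw [← inner_en]
  exact orthonormal_fourier.2 (by omega)

lemma coeff_PP (U : L2) (n : ℕ) : fourierCoeff (PP U) n = fourierCoeff U n := by
  rw [← inner_en, ← inner_en, PP, ← Submodule.inner_starProjection_left_eq_right,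
    Submodule.starProjection_eq_self_iff.2 (en_mem n)]

lemma coeff_toL (u : BB) (n : ℤ) : fourierCoeff (toL u) n = fourierCoeff u.1 n :=
  congrFun (fourierCoeff_congr_ae (coe_toL u)) n

lemma toL_mem {u : BB} (h : ∀ n : ℕ, ∫ x, u.1 x * zc x ^ (n + 1) ∂mu = 0) : toL u ∈ KK := by
  rw [mem_KK]
  intro n
  rw [coeff_toL, fourierCoeff, ← h n]
  simp only [neg_neg, fourier_nat, smul_eq_mul, mul_comm]

lemma int_dcc {g : ℂ → ℂ} (hg : DiffContOnCl ℂ g (ball 0 1)) (n : ℕ) :
    ∫ x, g (zc x) * zc x ^ (n + 1) ∂mu = 0 := by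
  have := mean (dcc_mul hg (g := fun z => z ^ (n + 1)) (dcc_of fun u _ => by fun_prop))
  simpa using this

lemma eq_zero_of_coeff {U : L2} (hU : U ∈ KK) (h : ∀ n : ℕ, fourierCoeff U n = 0) : U = 0 := by
  apply fourierBasis.repr.injective
  ext n
  rw [fourierBasis_repr, map_zero]
  obtain ⟨m, rfl | rfl⟩ := n.eq_nat_or_neg
  · simpa using h m
  · cases m with
    | zero => simpa using h 0
    | succ m => simpa using mem_KK.1 hU m

abbrev DD := {ζ : ℂ // ‖ζ‖ < 1}

abbrev LI := lp (fun _ : DD => ℂ) ∞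

abbrev EE0 := L2 × LI

def lam : BB →ₗ[ℂ] LI where
  toFun u := ⟨fun ζ => ∫ x, u.1 x * kk ζ.1 x ∂mu, memℓp_infty
    ⟨2 * 1 + (∫ x, ‖u.1 x‖ ^ 4 ∂mu) / 1 ^ 3, by
      rintro _ ⟨ζ, rfl⟩
      exact int_mul_kk_le ζ.2 u.2 one_pos⟩⟩
  map_add' u v := by
    ext ζ
    change ∫ x, (u.1 x + v.1 x) * kk ζ.1 x ∂mu =
      ∫ x, u.1 x * kk ζ.1 x ∂mu + ∫ x, v.1 x * kk ζ.1 x ∂mu
    simp only [add_mul]
    exact integral_add (BM.mul u.2 (BM_kk ζ.2)).integrable (BM.mul v.2 (BM_kk ζ.2)).integrable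
  map_smul' c u := by
    ext ζ
    change ∫ x, (c * u.1 x) * kk ζ.1 x ∂mu = c * ∫ x, u.1 x * kk ζ.1 x ∂mu
    simp only [mul_assoc]
    exact integral_const_mul _ _

lemma lam_apply (u : BB) (ζ : DD) : lam u ζ = ∫ x, u.1 x * kk ζ.1 x ∂mu := rfl

def Pi0 : BB →ₗ[ℂ] EE0 := (PP.toLinearMap.comp toL).prod lam

lemma Pi0_fst (u : BB) : (Pi0 u).1 = PP (toL u) := rfl
lemma Pi0_snd (u : BB) : (Pi0 u).2 = lam u := rfl

lemma norm_PP_le (U : L2) : ‖PP U‖ ≤ ‖U‖ := Submodule.norm_starProjection_apply_le _ _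

lemma norm_Pi0_le (u : BB) {c : ℝ} (h1 : ‖toL u‖ ≤ c)
    (h2 : ∀ ζ : ℂ, ‖ζ‖ < 1 → ‖∫ x, u.1 x * kk ζ x ∂mu‖ ≤ c) : ‖Pi0 u‖ ≤ c := by
  rw [Prod.norm_def]
  refine max_le ((norm_PP_le _).trans h1) ?_
  exact lp.norm_le_of_forall_le ((norm_nonneg _).trans h1) fun ζ => h2 ζ.1 ζ.2

lemma Pi0_small (u : BB) {l : ℝ} (hl : 0 < l) (h : ∫ x, ‖u.1 x‖ ^ 4 ∂mu ≤ l ^ 4) :
    ‖Pi0 u‖ ≤ 3 * l := by
  refine norm_Pi0_le u (norm_toL_le u (by positivity) ?_) fun ζ hζ => ?_
  · have i4 := BM.integrable_norm_pow u.2 4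
    calc _ ≤ ∫ x, (l ^ 2 + ‖u.1 x‖ ^ 4 / l ^ 2) ∂mu := by
          refine integral_mono (BM.integrable_norm_pow u.2 2)
            ((integrable_const _).add (i4.div_const _)) fun x => ?_
          have : ‖u.1 x‖ ^ 2 - l ^ 2 ≤ ‖u.1 x‖ ^ 4 / l ^ 2 := by
            rw [le_div_iff₀ (by positivity)]
            nlinarith [sq_nonneg (‖u.1 x‖ ^ 2 - l ^ 2), sq_nonneg (‖u.1 x‖ * l)]
          simp only; linarith
      _ = l ^ 2 + (∫ x, ‖u.1 x‖ ^ 4 ∂mu) / l ^ 2 := by
          rw [integral_add (integrable_const _) (i4.div_const _), integral_div]; simp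
      _ ≤ l ^ 2 + l ^ 4 / l ^ 2 := by gcongr
      _ = 2 * l ^ 2 := by field_simp; ring
      _ ≤ _ := by nlinarith
  · refine (int_mul_kk_le hζ u.2 hl).trans ?_
    have : (∫ x, ‖u.1 x‖ ^ 4 ∂mu) / l ^ 3 ≤ l := by
      rw [div_le_iff₀ (by positivity)]; nlinarith
    linarith

def pol : Polynomial ℂ →ₗ[ℂ] BB where
  toFun p := ⟨fun x => p.eval (zc x), BM.of_continuous (p.continuous.comp continuous_zc)⟩
  map_add' p q := by ext x; simp
  map_smul' c p := by ext x; simp

lemma pol_apply (p : Polynomial ℂ) (x : Tc) : (pol p).1 x = p.eval (zc x) := rfl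

def XX : Submodule ℂ EE0 := (LinearMap.range (Pi0.comp pol)).topologicalClosure

instance : CompleteSpace XX := (Submodule.isClosed_topologicalClosure _).completeSpace_coe

def cB : C(Tc, ℂ) →ₗ[ℂ] BB where
  toFun c := ⟨c, BM.of_continuous c.continuous⟩
  map_add' _ _ := rfl
  map_smul' _ _ := rfl

lemma trig_mem {q : C(Tc, ℂ)} (hq : q ∈ Submodule.span ℂ (Set.range (@fourier (2 * π)))) :
    Pi0 (cB q) ∈ LinearMap.range (Pi0.comp pol) := by
  induction hq using Submodule.span_induction with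
  | mem x hx =>
    obtain ⟨n, rfl⟩ := hx
    have hpos : ∀ m : ℕ, Pi0 (cB (fourier (m : ℤ))) ∈ LinearMap.range (Pi0.comp pol) := by
      intro m
      refine ⟨Polynomial.X ^ m, ?_⟩
      rw [LinearMap.comp_apply]
      congr 1
      ext x
      change (Polynomial.X ^ m : Polynomial ℂ).eval (zc x) = fourier (m : ℤ) x
      rw [fourier_nat]; simp
    obtain ⟨m, rfl | rfl⟩ := n.eq_nat_or_neg
    · exact hpos m
    · cases m with
      | zero => simpa using hpos 0
      | succ m =>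
        have : Pi0 (cB (fourier (-((m + 1 : ℕ) : ℤ)))) = 0 := by
          refine Prod.ext ?_ ?_
          · rw [Pi0_fst]
            have e : toL (cB (fourier (-((m + 1 : ℕ) : ℤ)))) = en (-((m + 1 : ℕ) : ℤ)) := by
              refine Lp.ext ?_
              filter_upwards [coe_toL (cB (fourier (-((m + 1 : ℕ) : ℤ)))),
                coeFn_fourierLp (T := 2 * π) 2 (-((m + 1 : ℕ) : ℤ))] with x h1 h2
              rw [h1, en, h2]; rfl
            rw [e, PP]
            exact (Submodule.starProjection_apply_eq_zero_iff KK).2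
              (Submodule.le_orthogonal_orthogonal NN (Submodule.subset_span ⟨m, rfl⟩))
          · rw [Pi0_snd]
            ext ζ
            change ∫ x, fourier (-((m + 1 : ℕ) : ℤ)) x * kk ζ.1 x ∂mu = 0
            simp only [fourier_neg_nat, kk]
            rw [reflect (fun z => z ^ (m + 1) * kap (ζ.1 * z))]
            simp only [mul_comm (zc _ ^ _)]
            exact int_dcc (dcc_of fun u hu => diffAt_kap ζ.2 hu) m
        rw [this]; exact Submodule.zero_mem _
  | zero => rw [map_zero, map_zero]; exact Submodule.zero_mem _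
  | add x y _ _ hx hy => rw [map_add, map_add]; exact Submodule.add_mem _ hx hy
  | smul a x _ hx => rw [map_smul, map_smul]; exact Submodule.smul_mem _ a hx

lemma mem_XX (u : BB) : Pi0 u ∈ XX := by
  change Pi0 u ∈ closure (LinearMap.range (Pi0.comp pol) : Set EE0)
  rw [Metric.mem_closure_iff]
  intro ε hε
  set l := ε / 7 with hl
  have hl0 : 0 < l := by positivity
  obtain ⟨g, hg, -⟩ := MemLp.exists_boundedContinuous_integral_rpow_sub_le (μ := mu) (p := 4)
    (by norm_num) (BM.memLp u.2 _) (ε := l ^ 4) (by positivity)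
  have hq : g.toContinuousMap ∈ closure
      (Submodule.span ℂ (Set.range (@fourier (2 * π))) : Set C(Tc, ℂ)) := by
    rw [← Submodule.topologicalClosure_coe, span_fourier_closure_eq_top]; trivial
  obtain ⟨q, hq1, hq2⟩ := Metric.mem_closure_iff.1 hq l hl0
  refine ⟨_, trig_mem hq1, ?_⟩
  have a1 : ‖Pi0 (u - cB g.toContinuousMap)‖ ≤ 3 * l := by
    refine Pi0_small _ hl0 (le_of_eq_of_le ?_ hg)
    refine integral_congr_ae (Eventually.of_forall fun x => ?_)
    change ‖u.1 x - g x‖ ^ 4 = ‖u.1 x - g x‖ ^ (4 : ℝ)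
    rw [← Real.rpow_natCast]; norm_num
  have a2 : ‖Pi0 (cB g.toContinuousMap - cB q)‖ ≤ 3 * l := by
    refine Pi0_small _ hl0 ?_
    calc _ ≤ ∫ _x, l ^ 4 ∂mu := by
          refine integral_mono (BM.integrable_norm_pow (cB g.toContinuousMap - cB q).2 4)
            (integrable_const _) fun x => ?_
          have : ‖g.toContinuousMap x - q x‖ ≤ l := by
            rw [← dist_eq_norm]
            exact (ContinuousMap.dist_apply_le_dist x).trans hq2.le
          exact pow_le_pow_left₀ (norm_nonneg _) this 4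
      _ = _ := by simp
  rw [dist_eq_norm, show Pi0 u - Pi0 (cB q) = Pi0 (u - cB g.toContinuousMap) +
    Pi0 (cB g.toContinuousMap - cB q) by rw [map_sub, map_sub]; abel]
  refine (norm_add_le _ _).trans_lt ?_
  linarith

def PiX : BB →ₗ[ℂ] XX := Pi0.codRestrict XX mem_XX

def ee : Polynomial ℂ →ₗ[ℂ] XX := PiX.comp pol

lemma dense_ee : DenseRange ee := by
  intro x
  rw [closure_subtype]
  have h : x.1 ∈ closure (LinearMap.range (Pi0.comp pol) : Set EE0) := x.2
  refine closure_mono ?_ h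
  rintro _ ⟨p, rfl⟩
  exact ⟨ee p, ⟨p, rfl⟩, rfl⟩

lemma toL_pol_mem (p : Polynomial ℂ) : toL (pol p) ∈ KK :=
  toL_mem fun n => int_dcc (g := fun z => p.eval z) (dcc_of fun _ _ => p.differentiableAt) n

lemma PiX_fst (u : BB) : (PiX u).1.1 = PP (toL u) := rfl
lemma PiX_snd (u : BB) : (PiX u).1.2 = lam u := rfl

lemma PiX_fst_of_mem {u : BB} (h : toL u ∈ KK) : (PiX u).1.1 = toL u :=
  Submodule.starProjection_eq_self_iff.2 h

lemma ee_fst (p : Polynomial ℂ) : (ee p).1.1 = toL (pol p) := PiX_fst_of_mem (toL_pol_mem p)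

lemma ee_snd (p : Polynomial ℂ) : (ee p).1.2 = lam (pol p) := rfl

lemma fst_le (x : XX) : ‖x.1.1‖ ≤ ‖x‖ := norm_fst_le x.1
lemma snd_le (x : XX) : ‖x.1.2‖ ≤ ‖x‖ := norm_snd_le x.1
lemma snd_apply_le (x : XX) (ζ : DD) : ‖x.1.2 ζ‖ ≤ ‖x.1.2‖ := lp.norm_apply_le_norm (by simp) _ _

lemma cont_fst : Continuous fun x : XX => x.1.1 := continuous_fst.comp continuous_subtype_val
lemma cont_snd : Continuous fun x : XX => x.1.2 := continuous_snd.comp continuous_subtype_val
lemma cont_snd_apply (ζ : DD) : Continuous fun x : XX => x.1.2 ζ :=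
  (lp.lipschitzWith_one_eval ∞ ζ).continuous.comp cont_snd

lemma fst_mem (x : XX) : x.1.1 ∈ KK := by
  refine dense_ee.induction_on (p := fun x : XX => x.1.1 ∈ KK) x ?_ fun p => ?_
  · exact (Submodule.isClosed_orthogonal NN).preimage cont_fst
  · rw [ee_fst]; exact toL_pol_mem p

lemma graph (x : XX) (ζ : DD) : x.1.2 ζ = ∫ t, kk ζ.1 t * x.1.1 t ∂mu := by
  refine dense_ee.induction_on (p := fun x : XX => x.1.2 ζ = ∫ t, kk ζ.1 t * x.1.1 t ∂mu) x ?_
    fun p => ?_
  · exact isClosed_eq (cont_snd_apply ζ) ((continuous_pair (BM_kk ζ.2)).comp cont_fst)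
  · rw [ee_fst, pair_toL, ee_snd, lam_apply]
    simp only [mul_comm]

def co (x : XX) (n : ℕ) : ℂ := fourierCoeff x.1.1 n

lemma co_le (x : XX) (n : ℕ) : ‖co x n‖ ≤ ‖x‖ := by
  rw [co, ← inner_en]
  refine (norm_inner_le_norm _ _).trans ?_
  rw [norm_en, one_mul]; exact fst_le x

lemma co_add (x y : XX) (n : ℕ) : co (x + y) n = co x n + co y n := by
  rw [co, co, co, ← inner_en, ← inner_en, ← inner_en, ← inner_add_right]; rfl

lemma co_smul (c : ℂ) (x : XX) (n : ℕ) : co (c • x) n = c * co x n := by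
  rw [co, co, ← inner_en, ← inner_en, ← inner_smul_right]; rfl

lemma co_PiX (u : BB) (n : ℕ) : co (PiX u) n = fourierCoeff u.1 n := by
  rw [co, PiX_fst, coeff_PP, coeff_toL]

lemma eq_zero_of_co {x : XX} (h : ∀ n, co x n = 0) : x = 0 := by
  have h1 : x.1.1 = 0 := eq_zero_of_coeff (fst_mem x) h
  refine Subtype.ext (Prod.ext h1 ?_)
  ext ζ
  change x.1.2 ζ = 0
  rw [graph, pair_eq (BM_kk ζ.2), h1, inner_zero_right]

lemma summable_norm_co (x : XX) {w : ℂ} (hw : ‖w‖ < 1) :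
    Summable fun n => ‖co x n * w ^ n‖ := by
  refine Summable.of_nonneg_of_le (fun _ => norm_nonneg _) (fun n => ?_)
    ((summable_geometric_of_lt_one (norm_nonneg w) hw).mul_left ‖x‖)
  rw [norm_mul, norm_pow]
  gcongr
  exact co_le x n

def iota : XX →ₗ[ℂ] (ℂ → ℂ) where
  toFun x := fun w => if ‖w‖ < 1 then ∑' n, co x n * w ^ n else 0
  map_add' x y := by
    ext w
    by_cases hw : ‖w‖ < 1
    · simp only [hw, if_true, Pi.add_apply, co_add, add_mul]
      exact (summable_norm_co x hw).of_norm.tsum_add (summable_norm_co y hw).of_norm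
    · simp [hw]
  map_smul' c x := by
    ext w
    by_cases hw : ‖w‖ < 1
    · simp only [hw, if_true, Pi.smul_apply, co_smul, mul_assoc, RingHom.id_apply, smul_eq_mul]
      exact tsum_mul_left
    · simp [hw]

lemma iota_eq (x : XX) {w : ℂ} (hw : ‖w‖ < 1) : iota x w = ∑' n, co x n * w ^ n := if_pos hw

lemma hasSum_iota (x : XX) {w : ℂ} (hw : ‖w‖ < 1) :
    HasSum (fun n => co x n * w ^ n) (iota x w) := by
  rw [iota_eq x hw]; exact (summable_norm_co x hw).of_norm.hasSum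

lemma iota_series (x : XX) :
    HasFPowerSeriesOnBall (iota x) (FormalMultilinearSeries.ofScalars ℂ (co x)) 0 1 := by
  refine ⟨?_, one_pos, fun {y} hy => ?_⟩
  · refine FormalMultilinearSeries.le_radius_of_bound _ ‖x‖ (r := 1) fun n => ?_
    simpa [FormalMultilinearSeries.ofScalars_norm] using co_le x n
  · have hy' : ‖y‖ < 1 := by
      have : (‖y‖₊ : ℝ≥0∞) < 1 := by simpa [edist_eq_enorm_sub, enorm_eq_nnnorm] using hy
      exact_mod_cast this
    simpa [FormalMultilinearSeries.ofScalars_apply_eq, mul_comm] using hasSum_iota x hy'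

lemma iota_diff (x : XX) : DifferentiableOn ℂ (iota x) (ball 0 1) := by
  have := (iota_series x).differentiableOn
  rwa [show (1 : ℝ≥0∞) = ((1 : NNReal) : ℝ≥0∞) from rfl, Metric.eball_coe] at this

lemma iota_inj {x y : XX} (h : ∀ w ∈ ball (0 : ℂ) 1, iota x w = iota y w) : x = y := by
  rw [← sub_eq_zero]
  apply eq_zero_of_co
  have h1 := (iota_series (x - y)).hasFPowerSeriesAt.eq_zero_of_eventually (by
    filter_upwards [ball_mem_nhds (0 : ℂ) one_pos] with w hw
    simp [h w hw])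
  exact fun n => congrFun ((FormalMultilinearSeries.ofScalars_series_eq_zero ℂ).1 h1) n

lemma iota_cont {w : ℂ} (hw : ‖w‖ < 1) : Continuous fun x : XX => iota x w := by
  refine AddMonoidHomClass.continuous_of_bound ((LinearMap.proj w).comp iota) (1 - ‖w‖)⁻¹
    fun x => ?_
  change ‖iota x w‖ ≤ _
  rw [iota_eq x hw, mul_comm]
  refine tsum_of_norm_bounded ((hasSum_geometric_of_lt_one (norm_nonneg w) hw).mul_left ‖x‖)
    fun n => ?_
  rw [norm_mul, norm_pow]
  gcongr
  exact co_le x n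

lemma iota_ee (p : Polynomial ℂ) {w : ℂ} (hw : ‖w‖ < 1) : iota (ee p) w = p.eval w := by
  have h1 : ∀ n, co (ee p) n = p.coeff n := by
    intro n
    rw [ee, LinearMap.comp_apply, co_PiX, ← Polynomial.fourierCoeff_toAddCircle_natCast]
    congr 1
    ext x
    rw [pol_apply, zc, fourier_one]
    induction p using Polynomial.induction_on' with
    | add p q hp hq => rw [Polynomial.eval_add, map_add, ContinuousMap.add_apply, hp, hq]
    | monomial n a =>
      rw [Polynomial.toAddCircle_monomial_eq_smul_fourier, Polynomial.eval_monomial,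
        ContinuousMap.smul_apply, fourier_nat, zc, fourier_one, smul_eq_mul]
  rw [iota_eq _ hw, Polynomial.eval_eq_sum, Polynomial.sum]
  simp only [h1]
  exact tsum_eq_sum fun n hn => by rw [Polynomial.notMem_support_iff.1 hn, zero_mul]

end Pool.Agent.Lib.Helper21.Toep4
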