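import Mathlib
import Pool.Agent.Lib.helper21.Toep4

open MeasureTheory Complex Metric Set Filter Topology
open scoped Real ComplexConjugate ENNReal

noncomputable section

set_option maxHeartbeats 400000

namespace Pool.Agent.Lib.Helper21.Toep5

open Pool.Agent.Lib.Helper21.Toep1 Pool.Agent.Lib.Helper21.Toep2 Pool.Agent.Lib.Helper21.Toep3
  Pool.Agent.Lib.Helper21.Toep4

def mulB {f : Tc → ℂ} (hf : BM f) : BB →ₗ[ℂ] BB where
  toFun u := ⟨fun x => f x * u.1 x, hf.mul u.2⟩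
  map_add' u v := by ext x; simp [mul_add]
  map_smul' c u := by ext x; simp; ring

lemma mulB_apply {f : Tc → ℂ} (hf : BM f) (u : BB) (x : Tc) : (mulB hf u).1 x = f x * u.1 x := rfl

def T0 {f : Tc → ℂ} (hf : BM f) : Polynomial ℂ →ₗ[ℂ] XX := PiX.comp ((mulB hf).comp pol)

def TT {f : Tc → ℂ} (hf : BM f) : XX →L[ℂ] XX := (T0 hf).extendOfNorm ee

def Good {f : Tc → ℂ} (hf : BM f) : Prop := ∃ C, ∀ p, ‖T0 hf p‖ ≤ C * ‖ee p‖

lemma TT_ee {f : Tc → ℂ} {hf : BM f} (h : Good hf) (p : Polynomial ℂ) :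
    TT hf (ee p) = PiX (mulB hf (pol p)) := LinearMap.extendOfNorm_eq dense_ee h p

lemma eq_ee {x : XX} {p : Polynomial ℂ} (h : ∀ z ∈ ball (0 : ℂ) 1, iota x z = p.eval z) :
    x = ee p :=
  iota_inj fun w hw => by rw [h w hw, iota_ee p (by simpa using hw)]

lemma hasSum_PiX (u : BB) {w : ℂ} (hw : w ∈ ball (0 : ℂ) 1) :
    HasSum (fun n : ℕ => fourierCoeff u.1 n * w ^ n) (iota (PiX u) w) := by
  simpa only [co_PiX] using hasSum_iota (PiX u) (by simpa using hw)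

lemma hasSum_T {f : Tc → ℂ} (hf : BM f) (p : Polynomial ℂ) {w : ℂ} (hw : w ∈ ball (0 : ℂ) 1) :
    HasSum (fun n : ℕ => fourierCoeff (fun t => f t * p.eval (fourier 1 t)) n * w ^ n)
      (iota (PiX (mulB hf (pol p))) w) := by
  have e : (mulB hf (pol p)).1 = fun t => f t * p.eval (fourier 1 t) := by
    funext t; rw [mulB_apply, pol_apply, zc]
  have := hasSum_PiX (mulB hf (pol p)) hw
  rwa [e] at this

lemma TT_toeplitz {f : Tc → ℂ} {hf : BM f} (h : Good hf) (x : XX) (p : Polynomial ℂ)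
    (hx : ∀ z ∈ ball (0 : ℂ) 1, iota x z = p.eval z) (w : ℂ) (hw : w ∈ ball (0 : ℂ) 1) :
    HasSum (fun n : ℕ => fourierCoeff (fun t => f t * p.eval (fourier 1 t)) n * w ^ n)
      (iota (TT hf x) w) := by
  rw [eq_ee hx, TT_ee h]
  exact hasSum_T hf p hw

lemma toL_mul_le {f : Tc → ℂ} (hf : BM f) {M : ℝ} (hM0 : 0 ≤ M) (hM : ∀ x, ‖f x‖ ≤ M) (u : BB) :
    ‖toL (mulB hf u)‖ ≤ M * ‖toL u‖ := by
  refine norm_toL_le _ (by positivity) ?_
  rw [mul_pow, norm_toL_sq, ← integral_const_mul]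
  refine integral_mono (BM.integrable_norm_pow (mulB hf u).2 2)
    ((BM.integrable_norm_pow u.2 2).const_mul _) fun x => ?_
  simp only [mulB_apply, norm_mul, mul_pow]
  gcongr
  exact hM x

lemma pol_le (p : Polynomial ℂ) : ‖toL (pol p)‖ ≤ ‖ee p‖ := by
  rw [← ee_fst]; exact fst_le _

lemma lam_pol_le (p : Polynomial ℂ) : ‖lam (pol p)‖ ≤ ‖ee p‖ := by
  rw [← ee_snd]; exact snd_le _

lemma int_le_lam (u : BB) {ζ : ℂ} (hζ : ‖ζ‖ < 1) : ‖∫ x, u.1 x * kk ζ x ∂mu‖ ≤ ‖lam u‖ :=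
  lp.norm_apply_le_norm (by simp) (lam u) ⟨ζ, hζ⟩

lemma lam_le (u : BB) {c : ℝ} (hc : 0 ≤ c)
    (h : ∀ ζ : ℂ, ‖ζ‖ < 1 → ‖∫ x, u.1 x * kk ζ x ∂mu‖ ≤ c) : ‖lam u‖ ≤ c :=
  lp.norm_le_of_forall_le hc fun ζ => h ζ.1 ζ.2

lemma norm_PiX_le (u : BB) {c : ℝ} (h1 : ‖toL u‖ ≤ c) (h2 : ‖lam u‖ ≤ c) : ‖PiX u‖ ≤ c :=
  norm_Pi0_le u h1 fun _ hζ => (int_le_lam u hζ).trans h2

/-- shift-like symbols -/
def Sh (s : Tc → ℂ) : Prop := (∀ x, ‖s x‖ ≤ 1) ∧
  ∀ ζ : ℂ, ‖ζ‖ < 1 → ∃ c : ℂ, ‖c‖ ≤ 1 ∧ ∀ x, ‖s x - c‖ = ‖zc x - ζ‖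

lemma Sh_zc : Sh zc := ⟨fun x => (norm_zc x).le, fun ζ h => ⟨ζ, h.le, fun _ => rfl⟩⟩

lemma Sh_conj : Sh (fun x => conj (zc x)) :=
  ⟨fun x => by simp [norm_zc], fun ζ h => ⟨conj ζ, by simpa using h.le, fun x => by
    rw [← map_sub, Complex.norm_conj]⟩⟩

lemma lam_mul_le {s : Tc → ℂ} (hs : BM s) (h : Sh s) (u : BB) :
    ‖lam (mulB hs u)‖ ≤ ‖lam u‖ + 2 * ‖toL u‖ := by
  refine lam_le _ (by positivity) fun ζ hζ => ?_
  obtain ⟨c, hc, hc2⟩ := h.2 ζ hζ
  have hw : BM (fun x => (s x - c) * kk ζ x) := (hs.sub (BM.const c)).mul (BM_kk hζ)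
  have e : ∫ x, (mulB hs u).1 x * kk ζ x ∂mu =
      c * ∫ x, u.1 x * kk ζ x ∂mu + ∫ x, (s x - c) * kk ζ x * u.1 x ∂mu := by
    rw [← integral_const_mul, ← integral_add ((BM.mul u.2 (BM_kk hζ)).integrable.const_mul _)
      (hw.mul u.2).integrable]
    refine integral_congr_ae (Eventually.of_forall fun x => ?_)
    simp only [mulB_apply]; ring
  rw [e]
  refine (norm_add_le _ _).trans (add_le_add ?_ (cs hw (by norm_num) ?_ u))
  · rw [norm_mul]
    exact (mul_le_of_le_one_left (norm_nonneg _) hc).trans (int_le_lam u hζ)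
  · calc _ ≤ ∫ _x, (2 : ℝ) ^ 2 ∂mu := by
          refine integral_mono (hw.integrable_norm_pow 2) (integrable_const _) fun x => ?_
          have h1 := norm_kap_sq (kk_ne_one hζ x)
          rw [norm_one_sub_conj] at h1
          have h2 : ‖zc x - ζ‖ ≤ 2 := by
            have := norm_sub_le (zc x) ζ
            rw [norm_zc] at this; linarith
          simp only [norm_mul, mul_pow, hc2, kk]
          nlinarith
      _ = _ := by simp

lemma good_sh {s : Tc → ℂ} (hs : BM s) (h : Sh s) : Good hs := by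
  refine ⟨3, fun p => norm_PiX_le _ ?_ ?_⟩
  · have := toL_mul_le hs zero_le_one h.1 (pol p)
    have := pol_le p
    have := norm_nonneg (ee p)
    change ‖toL (mulB hs (pol p))‖ ≤ _
    linarith
  · have := lam_mul_le hs h (pol p)
    have := pol_le p
    have := lam_pol_le p
    change ‖lam (mulB hs (pol p))‖ ≤ _
    linarith

lemma sh_step {s : Tc → ℂ} (hs : BM s) (h : Sh s) (x : XX) :
    ‖(TT hs x).1.1‖ ≤ ‖x.1.1‖ ∧ ‖(TT hs x).1.2‖ ≤ ‖x.1.2‖ + 2 * ‖x.1.1‖ := by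
  refine dense_ee.induction_on
    (p := fun x : XX => ‖(TT hs x).1.1‖ ≤ ‖x.1.1‖ ∧ ‖(TT hs x).1.2‖ ≤ ‖x.1.2‖ + 2 * ‖x.1.1‖) x ?_
    fun p => ?_
  · exact (isClosed_le (cont_fst.comp (TT hs).continuous).norm cont_fst.norm).inter
      (isClosed_le (cont_snd.comp (TT hs).continuous).norm
        (cont_snd.norm.add (continuous_const.mul cont_fst.norm)))
  · rw [TT_ee (good_sh hs h), PiX_fst, PiX_snd, ee_fst, ee_snd]
    refine ⟨(norm_PP_le _).trans ?_, lam_mul_le hs h _⟩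
    simpa using toL_mul_le hs zero_le_one h.1 (pol p)

lemma sh_pow {s : Tc → ℂ} (hs : BM s) (h : Sh s) (n : ℕ) : ‖TT hs ^ n‖ ≤ 1 + 2 * n := by
  have key : ∀ (n : ℕ) (x : XX), ‖((TT hs ^ n) x).1.1‖ ≤ ‖x.1.1‖ ∧
      ‖((TT hs ^ n) x).1.2‖ ≤ ‖x.1.2‖ + 2 * n * ‖x.1.1‖ := by
    intro n
    induction n with
    | zero => intro x; simp
    | succ n ih =>
      intro x
      rw [pow_succ', mul_apply_eq_comp]
      obtain ⟨a1, a2⟩ := sh_step hs h ((TT hs ^ n) x)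
      obtain ⟨b1, b2⟩ := ih x
      refine ⟨a1.trans b1, ?_⟩
      rw [Nat.cast_succ]; nlinarith
  refine ContinuousLinearMap.opNorm_le_bound _ (by positivity) fun x => ?_
  obtain ⟨a1, a2⟩ := key n x
  have b1 := fst_le x
  have b2 := snd_le x
  have b3 := norm_nonneg x
  have hn : (0 : ℝ) ≤ n := n.cast_nonneg
  change ‖((TT hs ^ n) x).1‖ ≤ _
  rw [Prod.norm_def]
  refine max_le ?_ ?_
  · nlinarith
  · nlinarith [mul_le_mul_of_nonneg_left b1 hn]

def SS0 : XX →L[ℂ] XX := TT BM_zc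
def BB0 : XX →L[ℂ] XX := TT BM_zc.conj

lemma BS : BB0 * SS0 = 1 := by
  ext1 x
  refine dense_ee.induction_on (p := fun x : XX => (BB0 * SS0) x = (1 : XX →L[ℂ] XX) x) x
    (isClosed_eq (BB0 * SS0).continuous (1 : XX →L[ℂ] XX).continuous) fun p => ?_
  have e1 : SS0 (ee p) = ee (Polynomial.X * p) := by
    rw [SS0, TT_ee (good_sh _ Sh_zc), ee, LinearMap.comp_apply]
    congr 1
    ext x; simp [mulB_apply, pol_apply]
  rw [mul_apply_eq_comp, e1, BB0, TT_ee (good_sh _ Sh_conj),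
    one_apply_eq_self, ee, LinearMap.comp_apply]
  congr 1
  ext x
  simp only [mulB_apply, pol_apply, Polynomial.eval_mul, Polynomial.eval_X]
  rw [← mul_assoc, mul_comm (conj (zc x)), zc_mul_conj, one_mul]

lemma BS_pow (n : ℕ) : BB0 ^ n * SS0 ^ n = 1 := by
  induction n with
  | zero => simp
  | succ n ih => rw [pow_succ, pow_succ', mul_assoc, ← mul_assoc BB0, BS, one_mul, ih]

lemma one_le_mul_norm (n : ℕ) : 1 ≤ ‖BB0 ^ n‖ * ‖SS0 ^ n‖ := by
  have h0 : ee 1 ≠ 0 := by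
    intro h
    have := iota_ee 1 (w := 0) (by simp)
    rw [h] at this; simp at this
  have hp : 0 < ‖ee 1‖ := norm_pos_iff.2 h0
  have h1 := (BB0 ^ n * SS0 ^ n).le_opNorm (ee 1)
  have h2 := norm_mul_le (BB0 ^ n) (SS0 ^ n)
  have h3 : (BB0 ^ n * SS0 ^ n) (ee 1) = ee 1 := by rw [BS_pow]; rfl
  rw [h3] at h1
  by_contra hh
  push Not at hh
  nlinarith

lemma radius_one (T : XX →L[ℂ] XX) (h1 : ∀ n : ℕ, ‖T ^ n‖ ≤ 1 + 2 * n)
    (h2 : ∀ n : ℕ, 1 ≤ (1 + 2 * n) * ‖T ^ n‖) : spectralRadius ℂ T = 1 := by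
  have t1 : Tendsto (fun n : ℕ => (1 + 2 * n : ℝ) ^ (1 / n : ℝ)) atTop (𝓝 1) := by
    have := (tendsto_rpow_div_mul_add 2 1 (-1) (by norm_num)).comp
      (tendsto_atTop_add_const_left atTop (1 : ℝ)
        (tendsto_natCast_atTop_atTop.const_mul_atTop (by norm_num : (0 : ℝ) < 2)))
    refine this.congr fun n => ?_
    simp only [Function.comp]
    congr 1
    rw [show (1 : ℝ) * (1 + 2 * n) + -1 = 2 * n by ring, div_mul_eq_div_div]
    norm_num
  have t2 : Tendsto (fun n : ℕ => ((1 + 2 * n : ℝ) ^ (1 / n : ℝ))⁻¹) atTop (𝓝 1) := by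
    simpa using t1.inv₀ one_ne_zero
  have t3 : Tendsto (fun n : ℕ => ‖T ^ n‖ ^ (1 / n : ℝ)) atTop (𝓝 1) := by
    refine tendsto_of_tendsto_of_tendsto_of_le_of_le t2 t1 (fun n => ?_) fun n => ?_
    · simp only
      rw [← Real.inv_rpow (by positivity)]
      refine Real.rpow_le_rpow (by positivity) ?_ (by positivity)
      rw [inv_le_iff_one_le_mul₀' (by positivity)]
      exact h2 n
    · exact Real.rpow_le_rpow (ContinuousLinearMap.opNorm_nonneg _) (h1 n) (by positivity)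
  have t4 := ENNReal.tendsto_ofReal t3
  rw [ENNReal.ofReal_one] at t4
  exact tendsto_nhds_unique (spectrum.pow_norm_pow_one_div_tendsto_nhds_spectralRadius T) t4

lemma radius_S : spectralRadius ℂ SS0 = 1 :=
  radius_one _ (sh_pow _ Sh_zc) fun n => (one_le_mul_norm n).trans
    (mul_le_mul_of_nonneg_right (sh_pow _ Sh_conj n) (ContinuousLinearMap.opNorm_nonneg _))

lemma radius_B : spectralRadius ℂ BB0 = 1 :=
  radius_one _ (sh_pow _ Sh_conj) fun n => (one_le_mul_norm n).trans (by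
    rw [mul_comm]
    exact mul_le_mul_of_nonneg_right (sh_pow _ Sh_zc n) (ContinuousLinearMap.opNorm_nonneg _))

lemma rotation (x : XX) (t : ℝ) : ∃ y : XX, ∀ z ∈ ball (0 : ℂ) 1,
    iota y z = iota x (Complex.exp (t * I) * z) := by
  set c : ℂ := zc (t : Tc) with hc
  have hc' : c = Complex.exp (t * I) := by rw [hc, zc_coe]; simp [circleMap]
  have hc1 : ‖c‖ = 1 := norm_zc _
  set R0 : Polynomial ℂ →ₗ[ℂ] Polynomial ℂ :=
    (Polynomial.aeval (Polynomial.C c * Polynomial.X)).toLinearMap with hR0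
  have ev : ∀ (p : Polynomial ℂ) (z : ℂ), (R0 p).eval z = p.eval (c * z) := by
    intro p z
    rw [hR0, AlgHom.toLinearMap_apply, ← Polynomial.comp_eq_aeval, Polynomial.eval_comp]
    simp
  have hb : ∀ p, ‖(ee.comp R0) p‖ ≤ 1 * ‖ee p‖ := by
    intro p
    rw [one_mul]
    refine norm_PiX_le _ (le_trans ?_ (pol_le p)) (le_trans ?_ (lam_pol_le p))
    · refine norm_toL_le _ (norm_nonneg _) (le_of_eq ?_)
      rw [norm_toL_sq, ← integral_add_left_eq_self (fun x => ‖(pol p).1 x‖ ^ 2) (t : Tc)]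
      simp only [pol_apply, ev, zc_add, ← hc]
    · refine lam_le _ (norm_nonneg _) fun ζ hζ => ?_
      have hζ' : ‖c * ζ‖ < 1 := by rw [norm_mul, hc1, one_mul]; exact hζ
      refine le_of_eq_of_le ?_ (int_le_lam (pol p) hζ')
      rw [← integral_add_left_eq_self (fun x => (pol p).1 x * kk (c * ζ) x) (t : Tc)]
      simp only [pol_apply, ev, zc_add, ← hc, kk, map_mul]
      congr 3
      ext x
      congr 2
      have := zc_mul_conj (t : Tc)
      rw [← hc] at this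
      linear_combination (-(ζ * conj (zc x))) * this
  refine ⟨(ee.comp R0).extendOfNorm ee x, fun z hz => ?_⟩
  have hz' : ‖z‖ < 1 := by simpa using hz
  have hz2 : ‖c * z‖ < 1 := by rw [norm_mul, hc1, one_mul]; exact hz'
  rw [← hc']
  refine dense_ee.induction_on
    (p := fun x : XX => iota ((ee.comp R0).extendOfNorm ee x) z = iota x (c * z)) x
    (isClosed_eq ((iota_cont hz').comp ((ee.comp R0).extendOfNorm ee).continuous) (iota_cont hz2))
    fun p => ?_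
  rw [LinearMap.extendOfNorm_eq dense_ee ⟨1, hb⟩, LinearMap.comp_apply, iota_ee _ hz',
    iota_ee _ hz2, ev]

lemma norm_ff (x : Tc) : ‖ff x‖ ≤ 3 := by
  rw [ff, norm_mul, norm_zc, one_mul]; exact norm_EE (norm_zc x).le

lemma lam_ff (p : Polynomial ℂ) : ‖lam (mulB BM_ff (pol p))‖ ≤ 306 * ‖ee p‖ := by
  refine lam_le _ (by positivity) fun ζ hζ => ?_
  obtain ⟨α, b, R, hα, hb, hR, hR2, hdec⟩ := stepA hζ
  have hP : BM (pol p).1 := (pol p).2
  have i1 := (hP.mul (BM_kk hζ)).integrable.const_mul α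
  have i2 := (hP.mul (BM_kk hb)).integrable.const_mul α
  have i3 := ((BM_dcc (dcc_AA hb)).mul hP).integrable
  have i4 := (hR.mul hP).integrable
  have i12 : Integrable (fun x => α * ((pol p).1 x * kk ζ x) - α * ((pol p).1 x * kk b x)) mu :=
    i1.sub i2
  have i123 : Integrable (fun x => α * ((pol p).1 x * kk ζ x) - α * ((pol p).1 x * kk b x)
      + AA b (zc x) * (pol p).1 x) mu := i12.add i3
  have z3 : ∫ x, AA b (zc x) * (pol p).1 x ∂mu = 0 := by
    have := mean (dcc_mul (dcc_AA hb) (g := fun z => p.eval z)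
      (dcc_of fun _ _ => p.differentiableAt))
    simpa [AA, pol_apply] using this
  have e : ∫ x, (mulB BM_ff (pol p)).1 x * kk ζ x ∂mu =
      α * ∫ x, (pol p).1 x * kk ζ x ∂mu - α * ∫ x, (pol p).1 x * kk b x ∂mu
        + ∫ x, AA b (zc x) * (pol p).1 x ∂mu + ∫ x, R x * (pol p).1 x ∂mu := by
    rw [← integral_const_mul, ← integral_const_mul, ← integral_sub i1 i2, ← integral_add i12 i3,
      ← integral_add i123 i4]
    refine integral_congr_ae (Eventually.of_forall fun x => ?_)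
    simp only [mulB_apply]
    linear_combination (pol p).1 x * hdec x
  rw [e, z3, add_zero]
  have b1 := (int_le_lam (pol p) hζ).trans (lam_pol_le p)
  have b2 := (int_le_lam (pol p) hb).trans (lam_pol_le p)
  have b3 := cs hR (by norm_num) hR2 (pol p)
  have b4 := pol_le p
  refine (norm_add_le _ _).trans ?_
  refine (add_le_add (norm_sub_le _ _) le_rfl).trans ?_
  rw [norm_mul, norm_mul]
  have c1 := mul_le_mul hα b1 (norm_nonneg _) (by norm_num)
  have c2 := mul_le_mul hα b2 (norm_nonneg _) (by norm_num)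
  linarith

lemma good_ff : Good BM_ff := by
  refine ⟨306, fun p => norm_PiX_le _ ?_ (lam_ff p)⟩
  have := toL_mul_le BM_ff (by norm_num) norm_ff (pol p)
  have := pol_le p
  have := norm_nonneg (ee p)
  change ‖toL (mulB BM_ff (pol p))‖ ≤ _
  linarith

lemma good_gg : Good BM_gg := by
  have e : ∀ p, mulB BM_gg (pol p) = -mulB BM_zc.conj (mulB BM_ff (pol p)) := by
    intro p
    ext x
    change gg x * _ = -(conj (zc x) * (ff x * (pol p).1 x))
    rw [gg, ff]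
    linear_combination (EE (zc x) * (pol p).1 x) * zc_mul_conj x
  refine ⟨312, fun p => ?_⟩
  have a1 := toL_mul_le BM_ff (by norm_num) norm_ff (pol p)
  have a2 := pol_le p
  have a3 := norm_nonneg (ee p)
  have a4 := toL_mul_le BM_zc.conj zero_le_one Sh_conj.1 (mulB BM_ff (pol p))
  have a5 := lam_mul_le BM_zc.conj Sh_conj (mulB BM_ff (pol p))
  have a6 := lam_ff p
  change ‖PiX (mulB BM_gg (pol p))‖ ≤ _
  rw [e, map_neg, norm_neg]
  exact norm_PiX_le _ (by linarith) (by linarith)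

lemma hN_mem (N : ℕ) : toL ⟨hN N, BM_hN N⟩ ∈ KK := by
  refine toL_mem fun n => ?_
  have hw : BM (fun x => zc x ^ (n + 1)) := BM.of_continuous (continuous_zc.pow _)
  have key : ∀ u : ℝ, 0 < u → 3 * u ≤ 1 → ∫ x, HH u x * zc x ^ (n + 1) ∂mu = 0 := by
    intro u h0 h1
    refine int_dcc (g := fun z => u * (-5 * (1 - pt u * z)⁻¹ + 32 * (1 - pt (2 * u) * z)⁻¹
      - 27 * (1 - pt (3 * u) * z)⁻¹)) (dcc_of fun w hw => ?_) n
    have a1 := one_sub_ne (n1 h0 h1) hw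
    have a2 := one_sub_ne (n2 h0 h1) hw
    have a3 := one_sub_ne (n3 h0 h1) hw
    fun_prop (disch := assumption)
  change ∫ x, hN N x * zc x ^ (n + 1) ∂mu = 0
  rw [int_hN_mul hw]
  refine Finset.sum_eq_zero fun j _ => ?_
  obtain ⟨g1, g2⟩ := geo_ok th2.1 th2.2.1 th2.1 th2.2.2.1 j
  obtain ⟨g3, g4⟩ := geo_ok th2.2.2.2.1 th2.2.2.2.2 th2.1 th2.2.2.1 j
  rw [key _ g1 g2, key _ g3 g4, sub_zero]

lemma not_toeplitz (A : XX →L[ℂ] XX)
    (hA : ∀ (x : XX) (p : Polynomial ℂ), (∀ z ∈ ball (0 : ℂ) 1, iota x z = p.eval z) →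
      ∀ w ∈ ball (0 : ℂ) 1, HasSum
        (fun n : ℕ => fourierCoeff (fun t => ff t * gg t * p.eval (fourier 1 t)) n * w ^ n)
        (iota (A x) w)) : False := by
  have h1 : ∀ p, A (ee p) = PiX (mulB (BM_ff.mul BM_gg) (pol p)) := by
    intro p
    refine iota_inj fun w hw => ?_
    have a1 := hA (ee p) p (fun z hz => iota_ee p (by simpa using hz)) w hw
    have a2 := hasSum_T (BM_ff.mul BM_gg) p hw
    exact a1.unique a2
  have h2 : ∀ (ζ : DD) (x : XX),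
      (A x).1.2 ζ = ∫ t, ff t * gg t * kk ζ.1 t * x.1.1 t ∂mu := by
    intro ζ x
    refine dense_ee.induction_on
      (p := fun x : XX => (A x).1.2 ζ = ∫ t, ff t * gg t * kk ζ.1 t * x.1.1 t ∂mu) x
      (isClosed_eq ((cont_snd_apply ζ).comp A.continuous)
        ((continuous_pair ((BM_ff.mul BM_gg).mul (BM_kk ζ.2))).comp cont_fst)) fun p => ?_
    rw [h1, PiX_snd, lam_apply, ee_fst, pair_toL]
    refine integral_congr_ae (Eventually.of_forall fun x => ?_)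
    simp only [mulB_apply]; ring
  set C0 : ℝ := (1024 + 80 / th ^ 2) * 2 with hC0
  have hC : 0 ≤ C0 := by positivity
  obtain ⟨m, hm⟩ := exists_nat_gt (‖A‖ * (4000 + C0) + 1)
  have hA0 : 0 ≤ ‖A‖ * (4000 + C0) := by positivity
  have hm1 : (1 : ℝ) ≤ m := by linarith
  obtain ⟨ζ, hζ, hbig⟩ := hN_big (m ^ 2)
  set x : XX := PiX ⟨hN (m ^ 2), BM_hN _⟩ with hx
  have hx1 : ‖x‖ ≤ (4000 + C0) * m := by
    refine norm_PiX_le _ ?_ (lam_le _ (by positivity) fun η hη => ?_)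
    · refine (norm_toL_le _ (c := 4000 * m) (by positivity) ?_).trans (by nlinarith)
      have := int_hN_sq (m ^ 2)
      push_cast at this
      rw [mul_pow]; exact this
    · exact (hN_kk _ hη).trans (by nlinarith)
  have h3 := h2 ⟨ζ, hζ⟩ x
  rw [hx, PiX_fst_of_mem (hN_mem _), pair_toL, ← hx] at h3
  have h4 : ‖(A x).1.2 ⟨ζ, hζ⟩‖ ≤ ‖A‖ * ((4000 + C0) * m) :=
    ((snd_apply_le _ _).trans (snd_le _)).trans ((A.le_opNorm x).trans (by gcongr))
  rw [h3] at h4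
  have h5 : ∫ x, hN (m ^ 2) x * (ff x * gg x * kk ζ x) ∂mu =
      ∫ t, ff t * gg t * kk ζ t * hN (m ^ 2) t ∂mu :=
    integral_congr_ae (Eventually.of_forall fun x => by ring)
  rw [h5] at hbig
  have h6 := hbig.trans h4
  push_cast at h6
  nlinarith

end Pool.Agent.Lib.Helper21.Toep5
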