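import Mathlib

open MeasureTheory Set Filter Topology

noncomputable section

set_option maxHeartbeats 400000

namespace Pool.Agent.Lib.Helper21.Xray

def bump : ContDiffBump (3 / 2 : ℝ) := ⟨1 / 8, 1 / 4, by norm_num, by norm_num⟩

def b0 : ℝ → ℝ := bump
def b1 : ℝ → ℝ := deriv b0
def b2 : ℝ → ℝ := deriv b1

lemma c0 : ContDiff ℝ (⊤ : ℕ∞) b0 := bump.contDiff
lemma c1 : ContDiff ℝ (⊤ : ℕ∞) b1 := (contDiff_infty_iff_deriv.1 c0).2
lemma c2 : ContDiff ℝ (⊤ : ℕ∞) b2 := (contDiff_infty_iff_deriv.1 c1).2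

lemma ts0 : tsupport b0 ⊆ Icc (5 / 4) (7 / 4) := by
  rw [b0, bump.tsupport_eq, Real.closedBall_eq_Icc]
  simp only [bump]; norm_num

lemma ts1 : tsupport b1 ⊆ Icc (5 / 4) (7 / 4) := (tsupport_deriv_subset).trans ts0
lemma ts2 : tsupport b2 ⊆ Icc (5 / 4) (7 / 4) := (tsupport_deriv_subset).trans ts1

lemma z0 {w : ℝ} (h : w ∉ Icc (5 / 4 : ℝ) (7 / 4)) : b0 w = 0 :=
  image_eq_zero_of_notMem_tsupport fun h' => h (ts0 h')
lemma z1 {w : ℝ} (h : w ∉ Icc (5 / 4 : ℝ) (7 / 4)) : b1 w = 0 :=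
  image_eq_zero_of_notMem_tsupport fun h' => h (ts1 h')
lemma z2 {w : ℝ} (h : w ∉ Icc (5 / 4 : ℝ) (7 / 4)) : b2 w = 0 :=
  image_eq_zero_of_notMem_tsupport fun h' => h (ts2 h')

def BB (w : ℝ) : ℝ := w ^ 3 * b2 w

lemma cB : ContDiff ℝ (⊤ : ℕ∞) BB := (contDiff_id.pow 3).mul c2

lemma zB {w : ℝ} (h : w ∉ Icc (5 / 4 : ℝ) (7 / 4)) : BB w = 0 := by rw [BB, z2 h, mul_zero]

lemma csB : HasCompactSupport BB := HasCompactSupport.intro isCompact_Icc fun _ h => zB h

lemma second_diff {F : ℝ → ℝ} (h1 : Differentiable ℝ F) (h2 : Differentiable ℝ (deriv F))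
    {L : ℝ} (hL : ∀ x, ‖deriv (deriv F) x‖ ≤ L) (u e : ℝ) :
    |F u - 2 * F (u - e) + F (u - 2 * e)| ≤ L * e ^ 2 := by
  have a1 : ∀ x, ‖deriv F x - deriv F (x - e)‖ ≤ L * |e| := by
    intro x
    have := convex_univ.norm_image_sub_le_of_norm_deriv_le (f := deriv F)
      (fun x _ => h2 x) (fun x _ => hL x) (mem_univ (x - e)) (mem_univ x)
    simpa using this
  have a2 : ∀ x, HasDerivAt (fun x => F x - F (x - e)) (deriv F x - deriv F (x - e)) x := by
    intro x
    exact (h1 x).hasDerivAt.sub ((h1 (x - e)).hasDerivAt.comp_sub_const x e)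
  have := convex_univ.norm_image_sub_le_of_norm_hasDerivWithin_le
    (f := fun x => F x - F (x - e)) (fun x _ => (a2 x).hasDerivWithinAt) (fun x _ => a1 x)
    (mem_univ (u - e)) (mem_univ u)
  rw [show u - e - e = u - 2 * e by ring, show u - (u - e) = e by ring, Real.norm_eq_abs,
    Real.norm_eq_abs, mul_assoc, abs_mul_abs_self] at this
  rw [show F u - 2 * F (u - e) + F (u - 2 * e) = F u - F (u - e) - (F (u - e) - F (u - 2 * e)) by
    ring, sq]
  exact this

lemma B_diff : ∃ L, 0 ≤ L ∧ ∀ u e, |BB u - 2 * BB (u - e) + BB (u - 2 * e)| ≤ L * e ^ 2 := by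
  have d1 := contDiff_infty_iff_deriv.1 cB
  have d2 := contDiff_infty_iff_deriv.1 d1.2
  obtain ⟨L, hL⟩ := d2.2.continuous.bounded_above_of_compact_support csB.deriv.deriv
  exact ⟨L, (norm_nonneg _).trans (hL 0), second_diff d1.1 d2.1 hL⟩

lemma B_bdd : ∃ M, 0 ≤ M ∧ ∀ u, |BB u| ≤ M := by
  obtain ⟨M, hM⟩ := cB.continuous.bounded_above_of_compact_support csB
  exact ⟨M, (norm_nonneg _).trans (hM 0), hM⟩

def beta (t : ℝ) : ℝ := ∫ w in (1 : ℝ)..2, BB w / (w + t) ^ 2

lemma cont_aux {t : ℝ} (ht : 0 < t) :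
    ContinuousOn (fun w : ℝ => 6 * t ^ 2 * w / (w + t) ^ 4 * b0 w) (uIcc 1 2) := by
  refine ContinuousOn.mul (ContinuousOn.div (by fun_prop) (by fun_prop) fun w hw => ?_)
    c0.continuous.continuousOn
  rw [uIcc_of_le (by norm_num)] at hw
  have : 0 < w + t := by linarith [hw.1]
  positivity

lemma beta_eq {t : ℝ} (ht : 0 < t) :
    beta t = ∫ w in (1 : ℝ)..2, 6 * t ^ 2 * w / (w + t) ^ 4 * b0 w := by
  have i1 : IntervalIntegrable (fun w : ℝ => BB w / (w + t) ^ 2) volume 1 2 := by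
    refine ContinuousOn.intervalIntegrable
      (ContinuousOn.div cB.continuous.continuousOn (by fun_prop) fun w hw => ?_)
    rw [uIcc_of_le (by norm_num)] at hw
    have : 0 < w + t := by linarith [hw.1]
    positivity
  have i2 := (cont_aux ht).intervalIntegrable (μ := volume)
  have key := intervalIntegral.integral_eq_sub_of_hasDerivAt
    (f := fun w : ℝ => w ^ 3 / (w + t) ^ 2 * b1 w - (w ^ 3 + 3 * t * w ^ 2) / (w + t) ^ 3 * b0 w)
    (f' := fun w : ℝ => BB w / (w + t) ^ 2 - 6 * t ^ 2 * w / (w + t) ^ 4 * b0 w) (a := 1) (b := 2)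
    (fun w hw => by
      rw [uIcc_of_le (by norm_num)] at hw
      have hp : w + t ≠ 0 := by linarith [hw.1]
      have e0 : HasDerivAt b0 (b1 w) w := ((contDiff_infty_iff_deriv.1 c0).1 w).hasDerivAt
      have e1 : HasDerivAt b1 (b2 w) w := ((contDiff_infty_iff_deriv.1 c1).1 w).hasDerivAt
      have e2 : HasDerivAt (fun w : ℝ => w + t) 1 w := (hasDerivAt_id w).add_const t
      have p1 : HasDerivAt (fun w : ℝ => w ^ 3 / (w + t) ^ 2)
          ((w ^ 3 + 3 * t * w ^ 2) / (w + t) ^ 3) w := by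
        have := (hasDerivAt_pow 3 w).div (e2.pow 2) (pow_ne_zero 2 hp)
        refine this.congr_deriv ?_
        simp only [Pi.pow_apply]
        field_simp
        push_cast
        ring
      have p2 : HasDerivAt (fun w : ℝ => (w ^ 3 + 3 * t * w ^ 2) / (w + t) ^ 3)
          (6 * t ^ 2 * w / (w + t) ^ 4) w := by
        have := ((hasDerivAt_pow 3 w).add ((hasDerivAt_pow 2 w).const_mul (3 * t))).div
          (e2.pow 3) (pow_ne_zero 3 hp)
        refine this.congr_deriv ?_
        simp only [Pi.pow_apply, Pi.add_apply]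
        field_simp
        push_cast
        ring
      refine ((p1.mul e1).sub (p2.mul e0)).congr_deriv ?_
      rw [BB]; ring) (i1.sub i2)
  rw [intervalIntegral.integral_sub i1 i2, z0 (w := 1) (by norm_num), z0 (w := 2) (by norm_num),
    z1 (w := 1) (by norm_num), z1 (w := 2) (by norm_num)] at key
  rw [beta]; linarith

lemma beta_le {t c : ℝ} (ht : 0 < t)
    (h : ∀ w : ℝ, 1 ≤ w → w ≤ 2 → 6 * t ^ 2 * w / (w + t) ^ 4 ≤ c) : |beta t| ≤ c := by
  rw [beta_eq ht]
  have := intervalIntegral.norm_integral_le_of_norm_le_const (a := 1) (b := 2) (C := c)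
    (f := fun w : ℝ => 6 * t ^ 2 * w / (w + t) ^ 4 * b0 w) (fun w hw => by
      rw [uIoc_of_le (by norm_num)] at hw
      have h1 : 0 ≤ b0 w := bump.nonneg
      have h2 : b0 w ≤ 1 := bump.le_one
      have h3 : 0 ≤ 6 * t ^ 2 * w / (w + t) ^ 4 := by
        have := hw.1; positivity
      rw [Real.norm_eq_abs, abs_of_nonneg (mul_nonneg h3 h1)]
      exact (mul_le_of_le_one_right h3 h2).trans (h w hw.1.le hw.2))
  norm_num at this ⊢
  exact this

lemma beta_small {t : ℝ} (ht : 0 < t) : |beta t| ≤ 6 * t ^ 2 := by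
  refine beta_le ht fun w h1 h2 => ?_
  rw [div_le_iff₀ (by positivity)]
  have : w ≤ (w + t) ^ 4 := by
    calc w = w ^ 1 := (pow_one w).symm
      _ ≤ w ^ 4 := pow_le_pow_right₀ h1 (by norm_num)
      _ ≤ _ := by gcongr; linarith
  gcongr

lemma beta_bdd {t : ℝ} (ht : 0 < t) : |beta t| ≤ 12 := by
  refine beta_le ht fun w h1 h2 => ?_
  rw [div_le_iff₀ (by positivity)]
  have a1 : t ^ 2 ≤ (w + t) ^ 2 := by gcongr; linarith
  have a2 : 1 ≤ (w + t) ^ 2 := one_le_pow₀ (by linarith)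
  calc 6 * t ^ 2 * w ≤ 6 * (w + t) ^ 2 * 2 := by gcongr
    _ = 12 * ((w + t) ^ 2 * 1) := by ring
    _ ≤ 12 * ((w + t) ^ 2 * (w + t) ^ 2) := by gcongr
    _ = _ := by ring

lemma beta_pos : 0 < beta 1 := by
  rw [beta_eq one_pos]
  refine intervalIntegral.integral_pos (by norm_num)
    (by simpa [uIcc_of_le (show (1 : ℝ) ≤ 2 by norm_num)] using cont_aux one_pos) (fun w hw => ?_)
    ⟨3 / 2, by norm_num, ?_⟩
  · have h1 : 0 ≤ b0 w := bump.nonneg
    have := hw.1
    positivity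
  · have : b0 (3 / 2) = 1 := bump.one_of_mem_closedBall (Metric.mem_closedBall_self bump.rIn_pos.le)
    rw [this]; norm_num

def qq : ℝ := min (1 / 4) (beta 1 / 40)

lemma qq_pos : 0 < qq := lt_min (by norm_num) (by linarith [beta_pos])
lemma qq_le : qq ≤ 1 / 4 := min_le_left _ _
lemma qq_le' : 40 * qq ≤ beta 1 := by
  have : qq ≤ beta 1 / 40 := min_le_right _ _
  linarith

lemma qq_pow_le (k : ℕ) : qq ^ k ≤ 1 := pow_le_one₀ qq_pos.le (by linarith [qq_le])

def term (k : ℕ) (v : ℝ) : ℝ := (-1) ^ k * (qq ^ 2 / 2) ^ k * BB (v / qq ^ k)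

def GG (v : ℝ) : ℝ := ∑' k, term k v

lemma s_lt : qq ^ 2 / 2 ≤ 1 / 2 := by linarith [qq_pow_le 2]

lemma abs_term (k : ℕ) (v : ℝ) : |term k v| = (qq ^ 2 / 2) ^ k * |BB (v / qq ^ k)| := by
  rw [term, abs_mul, abs_mul, abs_pow, abs_neg, abs_one, one_pow, one_mul, abs_of_nonneg]
  positivity

lemma term_le {M : ℝ} (hM : ∀ u, |BB u| ≤ M) (k : ℕ) (v : ℝ) : |term k v| ≤ M * (1 / 2) ^ k := by
  rw [abs_term, mul_comm]
  have := (abs_nonneg _).trans (hM 0)
  exact mul_le_mul (hM _) (pow_le_pow_left₀ (by positivity) s_lt k) (by positivity) this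

lemma summable_term (v : ℝ) : Summable fun k => term k v := by
  obtain ⟨M, -, hM⟩ := B_bdd
  exact Summable.of_norm_bounded (summable_geometric_two.mul_left M) fun k => term_le hM k v

lemma cont_term (k : ℕ) : Continuous (term k) :=
  continuous_const.mul (cB.continuous.comp (continuous_id.div_const _))

lemma cont_G : Continuous GG := by
  obtain ⟨M, -, hM⟩ := B_bdd
  exact continuous_tsum cont_term (summable_geometric_two.mul_left M) fun k v => term_le hM k v

lemma G_bdd : ∃ M, ∀ v, |GG v| ≤ M := by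
  obtain ⟨M, -, hM⟩ := B_bdd
  refine ⟨M * 2, fun v => ?_⟩
  have := tsum_of_norm_bounded (f := fun k => term k v) (hasSum_geometric_two.mul_left M)
    fun k => term_le hM k v
  exact this

lemma zB' {k : ℕ} {v : ℝ} (h : v ≤ 0 ∨ 2 ≤ v) : BB (v / qq ^ k) = 0 := by
  have hp : 0 < qq ^ k := pow_pos qq_pos k
  refine zB fun hh => ?_
  rcases h with h | h
  · have : v / qq ^ k ≤ 0 := div_nonpos_of_nonpos_of_nonneg h hp.le
    linarith [hh.1]
  · have : 2 ≤ v / qq ^ k := by
      rw [le_div_iff₀ hp]; nlinarith [qq_pow_le k]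
    linarith [hh.2]

lemma zG {v : ℝ} (h : v ≤ 0 ∨ 2 ≤ v) : GG v = 0 := by
  simp [GG, term, zB' h]

lemma G_diff : ∃ L, 0 ≤ L ∧ ∀ u e, |GG u - 2 * GG (u - e) + GG (u - 2 * e)| ≤ L * e ^ 2 := by
  obtain ⟨L, hL0, hL⟩ := B_diff
  refine ⟨L * 2, by positivity, fun u e => ?_⟩
  have h := (((summable_term u).hasSum.sub ((summable_term (u - e)).hasSum.mul_left 2)).add
    (summable_term (u - 2 * e)).hasSum)
  rw [show L * 2 * e ^ 2 = L * e ^ 2 * 2 by ring]
  refine h.norm_le_of_bounded (hasSum_geometric_two.mul_left (L * e ^ 2)) fun k => ?_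
  have hp : 0 < qq ^ k := pow_pos qq_pos k
  have e1 : term k u - 2 * term k (u - e) + term k (u - 2 * e) = (-1) ^ k * (qq ^ 2 / 2) ^ k *
      (BB (u / qq ^ k) - 2 * BB (u / qq ^ k - e / qq ^ k) + BB (u / qq ^ k - 2 * (e / qq ^ k))) := by
    simp only [term, sub_div, mul_div_assoc]; ring
  rw [e1, Real.norm_eq_abs, abs_mul, abs_mul, abs_pow, abs_neg, abs_one, one_pow, one_mul,
    abs_of_nonneg (by positivity)]
  calc _ ≤ (qq ^ 2 / 2) ^ k * (L * (e / qq ^ k) ^ 2) := by gcongr; exact hL _ _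
    _ = _ := by
      rw [div_pow, div_pow, ← pow_mul, ← pow_mul, mul_comm k 2, one_div, inv_pow]
      have := qq_pos
      field_simp

def AA (d : ℝ) : ℝ := ∫ v in (0 : ℝ)..2, GG v / (v + d) ^ 2

lemma int_term {d : ℝ} (k : ℕ) :
    ∫ v in (0 : ℝ)..2, term k v / (v + d) ^ 2 = (-1) ^ k * (qq / 2) ^ k * beta (d / qq ^ k) := by
  have hp : 0 < qq ^ k := pow_pos qq_pos k
  have s1 : Function.support (fun v => term k v / (v + d) ^ 2) ⊆ Ioc 0 2 := by
    intro v hv
    by_contra hh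
    apply hv
    have : v ≤ 0 ∨ 2 ≤ v := by
      by_contra h2
      push Not at h2
      exact hh ⟨h2.1, h2.2.le⟩
    simp [term, zB' this]
  have s2 : Function.support (fun w => BB w / (w + d / qq ^ k) ^ 2) ⊆ Ioc 1 2 := by
    intro v hv
    by_contra hh
    apply hv
    have : v ∉ Icc (5 / 4 : ℝ) (7 / 4) := fun h2 => hh ⟨by linarith [h2.1], by linarith [h2.2]⟩
    simp [zB this]
  rw [intervalIntegral.integral_eq_integral_of_support_subset s1, beta,
    intervalIntegral.integral_eq_integral_of_support_subset s2]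
  have e : ∀ v, term k v / (v + d) ^ 2 = ((-1) ^ k * (1 / 2) ^ k) *
      (fun w => BB w / (w + d / qq ^ k) ^ 2) (v / qq ^ k) := by
    intro v
    simp only [term, ← add_div, div_pow, ← pow_mul, one_pow]
    rw [mul_comm k 2]
    have := qq_pos
    by_cases hv : v + d = 0
    · simp [hv]
    · field_simp
  simp only [e]
  rw [integral_const_mul, Measure.integral_comp_div (fun w => BB w / (w + d / qq ^ k) ^ 2),
    abs_of_pos hp, smul_eq_mul, div_pow, div_pow, one_pow]
  ring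

lemma hasSum_A {d : ℝ} (hd : 0 < d) :
    HasSum (fun k => (-1) ^ k * (qq / 2) ^ k * beta (d / qq ^ k)) (AA d) := by
  obtain ⟨M, hM0, hM⟩ := B_bdd
  simp only [← int_term]
  refine intervalIntegral.hasSum_integral_of_dominated_convergence
    (fun k _ => M * (1 / 2) ^ k / d ^ 2) (fun k => ?_) (fun k => ?_) ?_ ?_ ?_
  · exact ((cont_term k).measurable.div (by fun_prop)).aestronglyMeasurable
  · refine Eventually.of_forall fun v hv => ?_
    rw [uIoc_of_le (by norm_num)] at hv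
    rw [norm_div, Real.norm_eq_abs, Real.norm_eq_abs, abs_of_nonneg (sq_nonneg (v + d))]
    have := hv.1
    gcongr
    · exact term_le hM k v
    · linarith
  · exact Eventually.of_forall fun _ _ => (summable_geometric_two.mul_left M).div_const _
  · exact intervalIntegrable_const
  · exact Eventually.of_forall fun v _ => (summable_term v).hasSum.div_const _

lemma early (k : ℕ) :
    ∑ j ∈ Finset.range k, (qq / 2) ^ j * (qq ^ k / qq ^ j) ^ 2 ≤ 4 * qq * (qq / 2) ^ k := by
  have hq := qq_pos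
  have hq' := qq_le
  induction k with
  | zero => simp; positivity
  | succ k ih =>
    have e : ∑ j ∈ Finset.range (k + 1), (qq / 2) ^ j * (qq ^ (k + 1) / qq ^ j) ^ 2 =
        qq ^ 2 * (∑ j ∈ Finset.range k, (qq / 2) ^ j * (qq ^ k / qq ^ j) ^ 2 + (qq / 2) ^ k) := by
      rw [Finset.sum_range_succ, mul_add, Finset.mul_sum]
      congr 1
      · refine Finset.sum_congr rfl fun j _ => ?_
        rw [pow_succ qq k]; ring
      · rw [pow_succ qq k]; field_simp
    rw [e, pow_succ (qq / 2)]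
    have hp : 0 < (qq / 2) ^ k := by positivity
    calc _ ≤ qq ^ 2 * (4 * qq * (qq / 2) ^ k + (qq / 2) ^ k) := by gcongr
      _ = qq ^ 2 * (qq / 2) ^ k * (4 * qq + 1) := by ring
      _ ≤ qq ^ 2 * (qq / 2) ^ k * 2 := by gcongr; linarith
      _ = _ := by ring

lemma sign_A (k : ℕ) : 0 < (-1) ^ k * AA (qq ^ k) := by
  have hq := qq_pos
  have hq' := qq_le
  have hp : 0 < qq ^ k := pow_pos hq k
  set a : ℕ → ℝ := fun j => (-1) ^ j * (qq / 2) ^ j * beta (qq ^ k / qq ^ j) with ha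
  have hs : HasSum a (AA (qq ^ k)) := hasSum_A hp
  have habs : ∀ j, |a j| = (qq / 2) ^ j * |beta (qq ^ k / qq ^ j)| := by
    intro j
    rw [ha]
    simp only
    rw [abs_mul, abs_mul, abs_pow, abs_neg, abs_one, one_pow, one_mul, abs_of_nonneg (by positivity)]
  have e1 := hs.summable.sum_add_tsum_nat_add (k + 1)
  rw [hs.tsum_eq, Finset.sum_range_succ] at e1
  have b1 : |∑ j ∈ Finset.range k, a j| ≤ 24 * qq * (qq / 2) ^ k := by
    refine (Finset.abs_sum_le_sum_abs _ _).trans ?_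
    calc _ ≤ ∑ j ∈ Finset.range k, 6 * ((qq / 2) ^ j * (qq ^ k / qq ^ j) ^ 2) := by
          refine Finset.sum_le_sum fun j _ => ?_
          rw [habs]
          have := beta_small (t := qq ^ k / qq ^ j) (by positivity)
          calc _ ≤ (qq / 2) ^ j * (6 * (qq ^ k / qq ^ j) ^ 2) := by gcongr
            _ = _ := by ring
      _ ≤ _ := by rw [← Finset.mul_sum]; linarith [early k]
  have b2 : |∑' j, a (j + (k + 1))| ≤ 6 * qq * (qq / 2) ^ k * 2 := by
    rw [← Real.norm_eq_abs]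
    refine tsum_of_norm_bounded (hasSum_geometric_two.mul_left (6 * qq * (qq / 2) ^ k)) fun j => ?_
    rw [Real.norm_eq_abs, habs]
    have := beta_bdd (t := qq ^ k / qq ^ (j + (k + 1))) (by positivity)
    have h2 : (qq / 2) ^ j ≤ (1 / 2) ^ j := by gcongr; linarith
    calc _ ≤ (qq / 2) ^ (j + (k + 1)) * 12 := by gcongr
      _ = 6 * qq * (qq / 2) ^ k * (qq / 2) ^ j := by ring
      _ ≤ _ := by gcongr
  have b3 : (-1) ^ k * a k = (qq / 2) ^ k * beta 1 := by
    rw [ha]
    simp only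
    rw [div_self hp.ne', ← mul_assoc, ← mul_assoc, ← mul_pow]; simp
  have hr : 0 < (qq / 2) ^ k := by positivity
  have c1 : |(-1 : ℝ) ^ k * ∑ j ∈ Finset.range k, a j| ≤ 24 * qq * (qq / 2) ^ k := by
    rwa [abs_mul, abs_pow, abs_neg, abs_one, one_pow, one_mul]
  have c2 : |(-1 : ℝ) ^ k * ∑' j, a (j + (k + 1))| ≤ 6 * qq * (qq / 2) ^ k * 2 := by
    rwa [abs_mul, abs_pow, abs_neg, abs_one, one_pow, one_mul]
  rw [← e1, mul_add, mul_add, b3]
  have d1 := (abs_le.1 c1).1
  have d2 := (abs_le.1 c2).1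
  have d3 := mul_le_mul_of_nonneg_left qq_le' hr.le
  nlinarith [mul_pos hq hr]

lemma contOn_A {m : ℝ} (hm : 0 < m) : ContinuousOn AA (Ici m) := by
  have h : Continuous fun d : ℝ => ∫ v in (0 : ℝ)..2, GG v / (|v| + max d m) ^ 2 := by
    refine intervalIntegral.continuous_parametric_intervalIntegral_of_continuous' ?_ 0 2
    refine Continuous.div (cont_G.comp continuous_snd) (by fun_prop) fun p => ?_
    have : 0 < |p.2| + max p.1 m := by
      have := le_max_right p.1 m
      have := abs_nonneg p.2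
      linarith
    positivity
  refine h.continuousOn.congr fun d hd => ?_
  refine intervalIntegral.integral_congr fun v hv => ?_
  rw [uIcc_of_le (by norm_num)] at hv
  rw [abs_of_nonneg hv.1, max_eq_left hd]

lemma exists_zero (k : ℕ) : ∃ d, 0 < d ∧ d ≤ qq ^ k ∧ AA d = 0 := by
  have hq := qq_pos
  have h1 := sign_A k
  have h2 := sign_A (k + 1)
  have hle : qq ^ (k + 1) ≤ qq ^ k := pow_le_pow_of_le_one hq.le (by linarith [qq_le]) (by omega)
  have hc : ContinuousOn (fun d => (-1 : ℝ) ^ k * AA d) (Icc (qq ^ (k + 1)) (qq ^ k)) :=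
    continuousOn_const.mul ((contOn_A (pow_pos hq (k + 1))).mono Icc_subset_Ici_self)
  obtain ⟨d, hd, hd2⟩ := intermediate_value_Icc hle hc (show (0 : ℝ) ∈ _ from
    ⟨by rw [pow_succ] at h2; linarith, h1.le⟩)
  refine ⟨d, (pow_pos hq _).trans_le hd.1, hd.2, ?_⟩
  have : ((-1 : ℝ) ^ k) ≠ 0 := by positivity
  exact (mul_eq_zero.1 hd2).resolve_left this

lemma zeros_infinite : {d : ℝ | 0 < d ∧ AA d = 0}.Infinite := by
  intro hf
  obtain ⟨d0, h0, -, h1⟩ := exists_zero 0
  obtain ⟨m, hm, hmin⟩ := hf.exists_minimal ⟨d0, h0, h1⟩ |>.imp fun m hm => And.intro hm.1 hm.2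
  obtain ⟨k, hk⟩ := exists_pow_lt_of_lt_one hm.1 (show qq < 1 by linarith [qq_le])
  obtain ⟨d, a1, a2, a3⟩ := exists_zero k
  have := hmin (y := d) ⟨a1, a3⟩ (by linarith)
  linarith

lemma G_ne : ∃ v, GG v ≠ 0 := by
  by_contra hh
  push Not at hh
  have := sign_A 0
  simp [AA, hh] at this

lemma ray {d c e : ℝ} (hd : 0 < d) (hA : AA d = 0) (hc : 0 < c) :
    IntegrableOn (fun t => GG (-d + t * e / (1 - t * c)) / (t * c) ^ 2) (Ioo 0 c⁻¹) ∧
    ∫ t in Ioo 0 c⁻¹, GG (-d + t * e / (1 - t * c)) / (t * c) ^ 2 = 0 := by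
  have hpos : ∀ t ∈ Ioo (0 : ℝ) c⁻¹, 0 < 1 - t * c := by
    intro t ht
    have := mul_lt_mul_of_pos_right ht.2 hc
    rw [inv_mul_cancel₀ hc.ne'] at this
    linarith
  by_cases he : e ≤ 0
  · have : EqOn (fun t => GG (-d + t * e / (1 - t * c)) / (t * c) ^ 2) (fun _ => 0)
        (Ioo 0 c⁻¹) := by
      intro t ht
      have h1 : t * e / (1 - t * c) ≤ 0 :=
        div_nonpos_of_nonpos_of_nonneg (mul_nonpos_of_nonneg_of_nonpos ht.1.le he) (hpos t ht).le
      simp only
      rw [zG (Or.inl (by linarith)), zero_div]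
    rw [integrableOn_congr_fun this measurableSet_Ioo, setIntegral_congr_fun measurableSet_Ioo this]
    simp
  push Not at he
  set g : ℝ → ℝ := fun v => GG v / (v + d) ^ 2 with hg
  have s1 : Function.support g ⊆ Ioc 0 2 := by
    intro v hv
    by_contra hh
    apply hv
    have : v ≤ 0 ∨ 2 ≤ v := by
      by_contra h2
      push Not at h2
      exact hh ⟨h2.1, h2.2.le⟩
    simp [hg, zG this]
  have ig : Integrable g := by
    have : IntegrableOn g (Icc 0 2) := by
      refine ContinuousOn.integrableOn_Icc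
        (ContinuousOn.div cont_G.continuousOn (by fun_prop) fun w hw => ?_)
      have : 0 < w + d := by linarith [hw.1]
      positivity
    exact (integrableOn_iff_integrable_of_support_subset (s1.trans Ioc_subset_Icc_self)).1 this
  have hint : ∫ v, g v = 0 := by
    rw [← intervalIntegral.integral_eq_integral_of_support_subset s1]; exact hA
  have hder : ∀ t ∈ Ioo (0 : ℝ) c⁻¹, HasDerivWithinAt (fun t => -d + t * e / (1 - t * c))
      (e / (1 - t * c) ^ 2) (Ioo 0 c⁻¹) t := by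
    intro t ht
    have hp := (hpos t ht).ne'
    have := (((hasDerivAt_id t).mul_const e).div
      (((hasDerivAt_id t).mul_const c).const_sub 1) hp).const_add (-d)
    refine (this.congr_deriv ?_).hasDerivWithinAt
    simp only [id]
    field_simp
    ring
  have hinj : InjOn (fun t => -d + t * e / (1 - t * c)) (Ioo 0 c⁻¹) := by
    intro t ht s hs h
    have h1 := (hpos t ht).ne'
    have h2 := (hpos s hs).ne'
    simp only [add_right_inj] at h
    rw [div_eq_div_iff h1 h2] at h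
    have : e * (t - s) = 0 := by linear_combination h
    have := (mul_eq_zero.1 this).resolve_left he.ne'
    linarith
  have heq : EqOn (fun t => GG (-d + t * e / (1 - t * c)) / (t * c) ^ 2)
      (fun t => (e / c ^ 2) * (|e / (1 - t * c) ^ 2| • g (-d + t * e / (1 - t * c))))
      (Ioo 0 c⁻¹) := by
    intro t ht
    have h1 := hpos t ht
    have h2 := ht.1
    simp only [hg, smul_eq_mul]
    rw [abs_of_pos (by positivity), show -d + t * e / (1 - t * c) + d = t * e / (1 - t * c) by ring]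
    field_simp
  rw [integrableOn_congr_fun heq measurableSet_Ioo, setIntegral_congr_fun measurableSet_Ioo heq]
  constructor
  · exact ((integrableOn_image_iff_integrableOn_abs_deriv_smul measurableSet_Ioo hder hinj g).1
      ig.integrableOn).const_mul _
  · rw [integral_const_mul, ← integral_image_eq_integral_abs_deriv_smul measurableSet_Ioo hder hinj,
      setIntegral_eq_integral_of_forall_compl_eq_zero, hint, mul_zero]
    intro v hv
    by_contra hh
    apply hv
    have h0 : 0 < v + d := by linarith [(s1 hh).1]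
    have h1 : 0 < e + (v + d) * c := by positivity
    refine ⟨(v + d) / (e + (v + d) * c), ⟨by positivity, ?_⟩, ?_⟩
    · rw [div_lt_iff₀ h1, inv_mul_eq_div, lt_div_iff₀ hc]; linarith
    · simp only
      rw [show 1 - (v + d) / (e + (v + d) * c) * c = e / (e + (v + d) * c) by field_simp; ring]
      field_simp
      ring

abbrev E2 := EuclideanSpace ℝ (Fin 2)

def F0 (x y : ℝ) : ℝ :=
  if 0 < y ∧ y < 1 then
    GG (x / (1 - y)) / y ^ 2 - 2 * (GG ((x - y) / (1 - y)) / y ^ 2)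
      + GG ((x - 2 * y) / (1 - y)) / y ^ 2
  else 0

def ff (p : E2) : ℝ := F0 (p 0) (p 1)

lemma meas_ff : Measurable ff := by
  have m0 : Measurable fun p : E2 => p 0 := by fun_prop
  have m1 : Measurable fun p : E2 => p 1 := by fun_prop
  have mG := cont_G.measurable
  unfold ff F0
  refine Measurable.ite ((measurableSet_lt measurable_const m1).inter
    (measurableSet_lt m1 measurable_const)) ?_ measurable_const
  fun_prop

lemma bdd_F0 : ∃ C, ∀ x y, |F0 x y| ≤ C := by
  obtain ⟨M, hM⟩ := G_bdd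
  obtain ⟨L, hL0, hL⟩ := G_diff
  have hM0 : 0 ≤ M := (abs_nonneg _).trans (hM 0)
  refine ⟨4 * L + 16 * M, fun x y => ?_⟩
  unfold F0
  by_cases h : 0 < y ∧ y < 1
  · rw [if_pos h]
    obtain ⟨h0, h1⟩ := h
    have h2 : 0 < 1 - y := by linarith
    rw [show (x - y) / (1 - y) = x / (1 - y) - y / (1 - y) by ring,
      show (x - 2 * y) / (1 - y) = x / (1 - y) - 2 * (y / (1 - y)) by ring,
      ← mul_div_assoc, ← sub_div, ← add_div, abs_div, abs_of_pos (pow_pos h0 2),
      div_le_iff₀ (pow_pos h0 2)]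
    by_cases hy : y ≤ 1 / 2
    · refine (hL _ _).trans ?_
      have : (y / (1 - y)) ^ 2 ≤ (2 * y) ^ 2 := by
        gcongr
        rw [div_le_iff₀ h2]; nlinarith
      nlinarith [mul_le_mul_of_nonneg_left this hL0, mul_nonneg hM0 (sq_nonneg y)]
    · push Not at hy
      have a1 := abs_le.1 (hM (x / (1 - y)))
      have a2 := abs_le.1 (hM (x / (1 - y) - y / (1 - y)))
      have a3 := abs_le.1 (hM (x / (1 - y) - 2 * (y / (1 - y))))
      have a4 : 1 / 4 ≤ y ^ 2 := by nlinarith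
      have a5 : 4 * M ≤ (4 * L + 16 * M) * y ^ 2 := by
        nlinarith [mul_nonneg hL0 (sq_nonneg y), mul_le_mul_of_nonneg_left a4 hM0]
      rw [abs_le]; constructor <;> linarith [a1.1, a1.2, a2.1, a2.2, a3.1, a3.2]
  · rw [if_neg h]; simp; positivity

lemma supp_ff (p : E2) (hp : 5 < ‖p‖) : ff p = 0 := by
  unfold ff F0
  by_cases h : 0 < p 1 ∧ p 1 < 1
  · rw [if_pos h]
    obtain ⟨h0, h1⟩ := h
    have h2 : 0 < 1 - p 1 := by linarith
    have hn : ‖p‖ ^ 2 = p 0 ^ 2 + p 1 ^ 2 := by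
      rw [EuclideanSpace.norm_sq_eq, Fin.sum_univ_two]; simp
    have h3 : 16 < p 0 ^ 2 := by nlinarith
    have key : ∀ s : ℝ, 0 ≤ s → s ≤ 2 → GG ((p 0 - s * p 1) / (1 - p 1)) = 0 := by
      intro s s0 s2
      apply zG
      by_cases hx : p 0 ≤ 0
      · exact Or.inl (div_nonpos_of_nonpos_of_nonneg (by nlinarith) h2.le)
      · right
        push Not at hx
        have : 4 < p 0 := by nlinarith
        rw [le_div_iff₀ h2]; nlinarith
    have k0 := key 0 le_rfl (by norm_num)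
    have k1 := key 1 (by norm_num) (by norm_num)
    have k2 := key 2 (by norm_num) le_rfl
    rw [zero_mul, sub_zero] at k0
    rw [one_mul] at k1
    rw [k0, k1, k2]; simp
  · rw [if_neg h]

def pt (d : ℝ) : E2 := !₂[-d, 0]

lemma pt_inj : Function.Injective pt := by
  intro a b h
  have := congrArg (fun p : E2 => p 0) h
  simpa [pt] using this

lemma ray_ff {d : ℝ} (hd : 0 < d) (hA : AA d = 0) (u : E2) :
    IntegrableOn (fun t : ℝ => ff (pt d + t • u)) (Ioi 0) ∧
      ∫ t in Ioi (0 : ℝ), ff (pt d + t • u) = 0 := by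
  have e : ∀ t : ℝ, ff (pt d + t • u) = F0 (-d + t * u 0) (t * u 1) := by
    intro t; simp [ff, pt]
  simp only [e]
  by_cases hc : u 1 ≤ 0
  · have : EqOn (fun t : ℝ => F0 (-d + t * u 0) (t * u 1)) (fun _ => 0) (Ioi 0) := by
      intro t ht
      have : t * u 1 ≤ 0 := mul_nonpos_of_nonneg_of_nonpos (le_of_lt ht) hc
      simp only [F0]
      rw [if_neg fun h => by linarith [h.1]]
    rw [integrableOn_congr_fun this measurableSet_Ioi, setIntegral_congr_fun measurableSet_Ioi this]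
    simp
  push Not at hc
  obtain ⟨i0, j0⟩ := ray (e := u 0 - d * u 1) hd hA hc
  obtain ⟨i1, j1⟩ := ray (e := u 0 - u 1 - d * u 1) hd hA hc
  obtain ⟨i2, j2⟩ := ray (e := u 0 - 2 * u 1 - d * u 1) hd hA hc
  have hz : ∀ t ∈ Ioi (0 : ℝ) \ Ioo 0 (u 1)⁻¹, F0 (-d + t * u 0) (t * u 1) = 0 := by
    intro t ht
    simp only [F0]
    refine if_neg fun h => ht.2 ⟨ht.1, ?_⟩
    rw [inv_eq_one_div, lt_div_iff₀ hc]; exact h.2
  have heq : EqOn (fun t : ℝ => F0 (-d + t * u 0) (t * u 1))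
      (fun t => GG (-d + t * (u 0 - d * u 1) / (1 - t * u 1)) / (t * u 1) ^ 2
        - 2 * (GG (-d + t * (u 0 - u 1 - d * u 1) / (1 - t * u 1)) / (t * u 1) ^ 2)
        + GG (-d + t * (u 0 - 2 * u 1 - d * u 1) / (1 - t * u 1)) / (t * u 1) ^ 2)
      (Ioo 0 (u 1)⁻¹) := by
    intro t ht
    have h1 : t * u 1 < 1 := by
      have := ht.2
      rwa [inv_eq_one_div, lt_div_iff₀ hc] at this
    have h2 : 1 - t * u 1 ≠ 0 := by linarith
    simp only [F0]
    rw [if_pos ⟨mul_pos ht.1 hc, h1⟩,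
      show (-d + t * u 0) / (1 - t * u 1) = -d + t * (u 0 - d * u 1) / (1 - t * u 1) by
        field_simp; ring,
      show (-d + t * u 0 - t * u 1) / (1 - t * u 1) =
        -d + t * (u 0 - u 1 - d * u 1) / (1 - t * u 1) by field_simp; ring,
      show (-d + t * u 0 - 2 * (t * u 1)) / (1 - t * u 1) =
        -d + t * (u 0 - 2 * u 1 - d * u 1) / (1 - t * u 1) by field_simp; ring]
  have i01 : IntegrableOn (fun t => GG (-d + t * (u 0 - d * u 1) / (1 - t * u 1)) / (t * u 1) ^ 2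
        - 2 * (GG (-d + t * (u 0 - u 1 - d * u 1) / (1 - t * u 1)) / (t * u 1) ^ 2))
        (Ioo 0 (u 1)⁻¹) := i0.sub (i1.const_mul 2)
  constructor
  · refine IntegrableOn.of_forall_sdiff_eq_zero ?_ measurableSet_Ioi hz
    rw [integrableOn_congr_fun heq measurableSet_Ioo]
    exact i01.add i2
  · rw [setIntegral_eq_of_subset_of_forall_sdiff_eq_zero measurableSet_Ioi Ioo_subset_Ioi_self hz,
      setIntegral_congr_fun measurableSet_Ioo heq, integral_add i01 i2,
      integral_sub i0 (i1.const_mul 2), integral_const_mul, j0, j1, j2]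
    simp

lemma ff_ne : ¬ (ff =ᵐ[volume] 0) := by
  intro h
  obtain ⟨v, hv⟩ := G_ne
  set U : Set E2 := {p | 3 / 4 < p 1} ∩ ({p | p 1 < 7 / 8} ∩
    {p | GG (p 0 / max (1 - p 1) (1 / 8)) ≠ 0}) with hU
  have c0 : Continuous fun p : E2 => p 0 := by fun_prop
  have c1 : Continuous fun p : E2 => p 1 := by fun_prop
  have ho : IsOpen U := by
    refine (isOpen_lt continuous_const c1).inter ((isOpen_lt c1 continuous_const).inter ?_)
    refine isOpen_ne_fun (cont_G.comp (c0.div (by fun_prop) fun p => ?_)) continuous_const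
    have := le_max_right (1 - p 1) (1 / 8)
    linarith
  have hne : U.Nonempty := by
    refine ⟨!₂[v / 5, 4 / 5], ?_, ?_, ?_⟩
    · simp; norm_num
    · simp; norm_num
    · have : max (1 - 4 / 5 : ℝ) (1 / 8) = 1 / 5 := by norm_num
      simp only [mem_ofPred_eq, Matrix.cons_val_zero, Matrix.cons_val_one, this]
      rwa [show v / 5 / (1 / 5) = v by ring]
  have hp := ho.measure_pos volume hne
  have hsub : U ⊆ {p | ¬ ff p = (0 : E2 → ℝ) p} := by
    rintro p ⟨h1, h2, h3⟩
    simp only [mem_ofPred_eq] at h1 h2 h3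
    rw [max_eq_left (by linarith)] at h3
    have h4 : 0 < 1 - p 1 := by linarith
    have h5 : p 0 / (1 - p 1) < 2 := by
      by_contra hh
      exact h3 (zG (Or.inr (not_lt.1 hh)))
    rw [div_lt_iff₀ h4] at h5
    have k1 : GG ((p 0 - p 1) / (1 - p 1)) = 0 :=
      zG (Or.inl (div_nonpos_of_nonpos_of_nonneg (by linarith) h4.le))
    have k2 : GG ((p 0 - 2 * p 1) / (1 - p 1)) = 0 :=
      zG (Or.inl (div_nonpos_of_nonpos_of_nonneg (by linarith) h4.le))
    simp only [mem_ofPred_eq, ff, F0, Pi.zero_apply]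
    rw [if_pos ⟨by linarith, by linarith⟩, k1, k2]
    have : p 1 ≠ 0 := by linarith
    simp [h3, this]
  exact hp.ne' (measure_mono_null hsub h)

end Pool.Agent.Lib.Helper21.Xray
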